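import Pool.Agent.Lib.MP_7c08ba_nt.Met.StN
import Pool.Agent.Lib.MP_7c08ba_nt.Gen.Unram

/-!
Module RAM: a ramified prime of a quadratic field and an element of the inertia group which is not
the identity on the field.
-/

set_option autoImplicit false

noncomputable section

namespace BKMet

open BKGen

namespace NRAM

/-! ### The generator -/

theorem exists_sqrt (F : Type) [Field F] [NumberField F] (hF : Module.finrank ℚ F = 2) :
    ∃ (s : F) (e : ℤ) (g : ℕ), (∀ b : ℚ, s ≠ algebraMap ℚ F b) ∧ Squarefree g ∧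
      (e = 1 ∨ e = -1) ∧ s ^ 2 = (e : F) * g := by
  obtain ⟨a, ha⟩ : ∃ a : F, ∀ b : ℚ, a ≠ algebraMap ℚ F b := by
    by_contra hcon
    push Not at hcon
    have h1 : (⊥ : Subalgebra ℚ F) = ⊤ := by
      rw [eq_top_iff]
      intro x _
      obtain ⟨b, hb⟩ := hcon x
      rw [hb]
      exact Subalgebra.algebraMap_mem _ _
    have h2 := Subalgebra.bot_eq_top_iff_finrank_eq_one.1 h1
    omega
  have hai : IsIntegral ℚ a := Algebra.IsIntegral.isIntegral a
  have hdeg : (minpoly ℚ a).natDegree = 2 := by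
    have h1 : (minpoly ℚ a).natDegree ∣ Module.finrank ℚ F := minpoly.degree_dvd hai
    rw [hF] at h1
    rcases (Nat.dvd_prime Nat.prime_two).1 h1 with h2 | h2
    · exfalso
      obtain ⟨b, hb⟩ := (minpoly.natDegree_eq_one_iff).1 h2
      exact ha b hb.symm
    · exact h2
  have hmon : (minpoly ℚ a).Monic := minpoly.monic hai
  obtain ⟨b, c, hbc⟩ : ∃ b c : ℚ, a ^ 2 + algebraMap ℚ F b * a + algebraMap ℚ F c = 0 := by
    refine ⟨(minpoly ℚ a).coeff 1, (minpoly ℚ a).coeff 0, ?_⟩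
    have h1 := minpoly.aeval ℚ a
    rw [Polynomial.aeval_eq_sum_range, hdeg, Finset.sum_range_succ, Finset.sum_range_succ,
      Finset.sum_range_one] at h1
    have h2 : (minpoly ℚ a).coeff 2 = 1 := by
      rw [← hdeg]
      exact hmon
    rw [h2] at h1
    simp only [Algebra.smul_def, pow_zero, pow_one, map_one, mul_one, one_mul] at h1
    linear_combination h1
  set D : ℚ := b ^ 2 - 4 * c with hD
  have hs0 : (2 * a + algebraMap ℚ F b) ^ 2 = algebraMap ℚ F D := by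
    rw [hD, map_sub, map_pow, map_mul]
    have h4 : algebraMap ℚ F 4 = 4 := by simp
    rw [h4]
    linear_combination 4 * hbc
  have hne0 : ∀ x : ℚ, 2 * a + algebraMap ℚ F b ≠ algebraMap ℚ F x := by
    intro x hx
    apply ha ((x - b) / 2)
    rw [map_div₀, map_sub, ← hx]
    have h2 : algebraMap ℚ F 2 = 2 := by simp
    rw [h2]
    ring
  have hD0 : D ≠ 0 := by
    intro h0
    rw [h0, map_zero] at hs0
    exact hne0 0 (by rw [map_zero]; exact pow_eq_zero_iff (two_ne_zero) |>.1 hs0)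
  -- `D * den ^ 2` is an integer
  have hN : (D.num * D.den : ℤ) ≠ 0 := by
    have h1 : D.num ≠ 0 := Rat.num_ne_zero.2 hD0
    have h2 : (D.den : ℤ) ≠ 0 := by exact_mod_cast D.den_ne_zero
    exact mul_ne_zero h1 h2
  obtain ⟨g, r, hgr, hg⟩ := Nat.sq_mul_squarefree (D.num * D.den : ℤ).natAbs
  have hr0 : r ≠ 0 := by
    rintro rfl
    apply hN
    rw [← Int.natAbs_eq_zero, ← hgr]
    ring
  have hrF : (r : F) ≠ 0 := by exact_mod_cast hr0
  obtain ⟨e, he, heN⟩ : ∃ e : ℤ, (e = 1 ∨ e = -1) ∧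
      (D.num * D.den : ℤ) = e * (D.num * D.den : ℤ).natAbs := by
    rcases Int.natAbs_eq (D.num * D.den : ℤ) with h | h
    · exact ⟨1, Or.inl rfl, by rw [one_mul]; exact h⟩
    · exact ⟨-1, Or.inr rfl, by rw [neg_one_mul]; exact h⟩
  have hDden : (D : ℚ) * (D.den : ℚ) ^ 2 = ((D.num * D.den : ℤ) : ℚ) := by
    have h1 : (D.den : ℚ) ≠ 0 := by exact_mod_cast D.den_ne_zero
    have h2 : D * D.den = D.num := Rat.mul_den_eq_num D
    push_cast
    rw [← h2]
    ring
  refine ⟨(2 * a + algebraMap ℚ F b) * D.den / r, e, g, ?_, hg, he, ?_⟩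
  · intro x hx
    apply hne0 (x * r / D.den)
    have h1 : (D.den : F) ≠ 0 := by exact_mod_cast D.den_ne_zero
    rw [map_div₀, map_mul, ← hx, map_natCast, map_natCast]
    field_simp
  · rw [div_pow, mul_pow, hs0, div_eq_iff (pow_ne_zero 2 hrF)]
    have h1 : algebraMap ℚ F D * (D.den : F) ^ 2 = algebraMap ℚ F (D * (D.den : ℚ) ^ 2) := by
      rw [map_mul, map_pow, map_natCast]
    rw [h1, hDden, heN, ← hgr]
    push_cast
    simp
    ring

/-! ### Inertia -/

section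

variable {l : ℕ} [Fact l.Prime] {Ω : Type*} [Field Ω] [Algebra ℚ Ω]

theorem exists_inert [Normal ℚ Ω] (j : Ω →+* PadicAlgCl l) (α : Ω)
    (h : ∀ b : ℚ, ‖j α‖ ≠ ‖j (algebraMap ℚ Ω b)‖) :
    ∃ (t : PadicAlgCl l ≃ₐ[ℚ_[l]] PadicAlgCl l) (σ : Ω ≃ₐ[ℚ] Ω), (∀ z, j (σ z) = t (j z)) ∧
      (∀ z, ‖j z‖ ≤ 1 → ‖j (σ z - z)‖ < 1) ∧ σ α ≠ α := by
  set S : Set (PadicAlgCl l) := Set.range (j.comp (algebraMap ℚ Ω)) with hS
  set U := IntermediateField.adjoin ℚ_[l] (S ∪ tame l) with hU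
  have hEU : comp l (j.comp (algebraMap ℚ Ω)) ≤ U :=
    IntermediateField.adjoin.mono ℚ_[l] _ _ Set.subset_union_left
  have h0 : j α ∉ U := by
    intro hyU
    obtain ⟨z, hz, hxz⟩ := norm_adjoin_tame S hyU
    obtain ⟨b, hb⟩ := norm_comp (j.comp (algebraMap ℚ Ω)) (y := z) hz
    exact h b (hxz.trans hb)
  have h1 : ∃ τ : PadicAlgCl l ≃ₐ[U] PadicAlgCl l, τ (j α) ≠ j α := by
    by_contra hcon
    push Not at hcon
    have h2 : j α ∈ Set.range (algebraMap U (PadicAlgCl l)) := by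
      rw [InfiniteGalois.mem_range_algebraMap_iff_fixed]
      exact hcon
    obtain ⟨y, hy⟩ := h2
    apply h0
    rw [← hy]
    exact y.2
  obtain ⟨τ, hτ⟩ := h1
  let τE : PadicAlgCl l ≃ₐ[comp l (j.comp (algebraMap ℚ Ω))] PadicAlgCl l :=
    AlgEquiv.ofRingEquiv (f := τ.toRingEquiv) (by
      intro x
      exact τ.commutes (⟨x.1, hEU x.2⟩ : U))
  obtain ⟨σ, hσ⟩ := exists_restrict j τE
  refine ⟨τ.restrictScalars ℚ_[l], σ, fun z => hσ z, ?_, ?_⟩
  · intro x hx
    rw [map_sub, hσ]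
    change ‖τ (j x) - j x‖ < 1
    have hiso : ∀ z, ‖τ z‖ = ‖z‖ := fun z => norm_equiv (τ.restrictScalars ℚ_[l]) z
    rcases lt_or_eq_of_le hx with hlt | heq
    · exact norm_sub_le_max.trans_lt (max_lt (by rw [hiso]; exact hlt) hlt)
    · obtain ⟨N, ζ, hN, hζ, hxζ⟩ := exists_root_near (j x) heq
      have hζU : τ ζ = ζ := τ.commutes (⟨ζ, IntermediateField.subset_adjoin _ _
        (Or.inr ⟨N, hN, hζ⟩)⟩ : U)
      have h3 : τ (j x) - j x = τ (j x - ζ) - (j x - ζ) := by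
        rw [map_sub, hζU]; ring
      rw [h3]
      exact norm_sub_le_max.trans_lt (max_lt (by rw [hiso]; exact hxζ) hxζ)
  · intro h2
    apply hτ
    have h3 := hσ α
    rw [h2] at h3
    exact h3.symm

end

theorem norm_sqfree {l : ℕ} [hl : Fact l.Prime] {g : ℕ} (hg : Squarefree g) (h : l ∣ g) :
    ‖(g : ℚ_[l])‖ = (l : ℝ)⁻¹ := by
  obtain ⟨c, rfl⟩ := h
  have hc : ¬ l ∣ c := by
    rintro ⟨d, rfl⟩
    have h1 := hg l ⟨d, by ring⟩
    exact hl.out.one_lt.ne' (Nat.isUnit_iff.1 h1)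
  push_cast
  rw [norm_mul, Padic.norm_p, Padic.norm_natCast_eq_one_iff.2 ((hl.out.coprime_iff_not_dvd).2 hc),
    mul_one]

theorem norm_rat {l : ℕ} [Fact l.Prime] (b : ℚ) : ‖(b : PadicAlgCl l)‖ = ‖(b : ℚ_[l])‖ := by
  rw [← map_ratCast (algebraMap ℚ_[l] (PadicAlgCl l)) b]
  exact PadicAlgCl.norm_extends _ _

/-- the square of the norm of a rational number is not `l⁻¹` -/
theorem sq_ne {l : ℕ} [hl : Fact l.Prime] (b : ℚ) : ‖(b : ℚ_[l])‖ ^ 2 ≠ (l : ℝ)⁻¹ := by
  have h1 : (1 : ℝ) < l := by exact_mod_cast hl.out.one_lt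
  intro h
  rcases eq_or_ne (b : ℚ_[l]) 0 with h0 | h0
  · rw [h0, norm_zero] at h
    have : (l : ℝ)⁻¹ ≠ 0 := inv_ne_zero (by linarith)
    apply this
    rw [← h]
    norm_num
  · rw [Padic.norm_eq_zpow_neg_valuation h0, ← zpow_natCast, ← zpow_mul, ← zpow_neg_one] at h
    have h2 := zpow_right_injective₀ (by linarith) h1.ne' h
    push_cast at h2
    omega

/-- an element whose norm is not the norm of a rational number -/
theorem exists_elt (F : Type) [Field F] [NumberField F] (hF : Module.finrank ℚ F = 2) :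
    ∃ (l : ℕ) (_ : Fact l.Prime) (α : F), ∀ j : F →+* PadicAlgCl l,
      ‖j α‖ ^ 2 = (l : ℝ)⁻¹ := by
  obtain ⟨s, e, g, hs, hg, he, hse⟩ := exists_sqrt F hF
  by_cases hg1 : g = 1
  · have he1 : e = -1 := by
      rcases he with he | he
      · exfalso
        rw [he, hg1] at hse
        push_cast at hse
        have h1 : (s - 1) * (s + 1) = 0 := by linear_combination hse
        rcases mul_eq_zero.1 h1 with h2 | h2
        · apply hs 1
          rw [map_one]
          linear_combination h2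
        · apply hs (-1)
          rw [map_neg, map_one]
          linear_combination h2
      · exact he
    refine ⟨2, ⟨Nat.prime_two⟩, 1 + s, fun j => ?_⟩
    have : Fact (Nat.Prime 2) := ⟨Nat.prime_two⟩
    rw [he1, hg1] at hse
    have h1 : (j (1 + s)) ^ 4 = algebraMap ℚ_[2] (PadicAlgCl 2) (-4) := by
      rw [← map_pow]
      have h2 : (1 + s) ^ 4 = (-4 : F) := by
        have h3 : s ^ 2 = -1 := by
          rw [hse]
          push_cast
          ring
        have h4 : (1 + s) ^ 2 = 2 * s := by linear_combination h3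
        calc (1 + s) ^ 4 = ((1 + s) ^ 2) ^ 2 := by ring
          _ = (2 * s) ^ 2 := by rw [h4]
          _ = 4 * s ^ 2 := by ring
          _ = -4 := by rw [h3]; ring
      rw [h2, map_neg, map_neg, map_ofNat, map_ofNat]
    have h2 : ‖j (1 + s)‖ ^ 4 = ((2 : ℝ)⁻¹) ^ 2 := by
      rw [← norm_pow, h1]
      have h3 : ‖algebraMap ℚ_[2] (PadicAlgCl 2) (-4)‖ = ‖(-4 : ℚ_[2])‖ :=
        PadicAlgCl.norm_extends _ _
      rw [h3, norm_neg, show (4 : ℚ_[2]) = 2 * 2 by norm_num, norm_mul]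
      have h4 : ‖(2 : ℚ_[2])‖ = (2 : ℝ)⁻¹ := by
        have := Padic.norm_p (p := 2)
        push_cast at this
        exact this
      rw [h4, sq]
    have h3 : (‖j (1 + s)‖ ^ 2) ^ 2 = ((2 : ℝ)⁻¹) ^ 2 := by
      rw [← h2]
      ring
    have h4 := (pow_left_inj₀ (by positivity) (by positivity) two_ne_zero).1 h3
    rw [h4]
    norm_num
  · obtain ⟨l, hl, hlg⟩ := Nat.exists_prime_and_dvd hg1
    have : Fact l.Prime := ⟨hl⟩
    refine ⟨l, ⟨hl⟩, s, fun j => ?_⟩
    rw [← norm_pow, ← map_pow, hse, map_mul, map_intCast, map_natCast, norm_mul]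
    have h1 : ‖((e : ℤ) : PadicAlgCl l)‖ = 1 := by
      rcases he with he | he
      · rw [he]
        simp
      · rw [he]
        simp
    have h2 : ‖((g : ℕ) : PadicAlgCl l)‖ = ‖(g : ℚ_[l])‖ := by
      have := norm_rat (l := l) (g : ℚ)
      push_cast at this
      exact this
    rw [h1, h2, norm_sqfree hg hlg, one_mul]

end NRAM

open NRAM in
theorem stRam : StRam := by
  intro F _ _ hF
  obtain ⟨l, hl, α, hα⟩ := exists_elt F hF
  have halg : Algebra.IsAlgebraic ℚ (AlgebraicClosure F) :=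
    Algebra.IsAlgebraic.trans ℚ F (AlgebraicClosure F)
  have hcl : IsAlgClosure ℚ (AlgebraicClosure F) := ⟨inferInstance, halg⟩
  have hnor : Normal ℚ (AlgebraicClosure F) := IsAlgClosure.normal ℚ (AlgebraicClosure F)
  let j : AlgebraicClosure F →+* PadicAlgCl l :=
    (IsAlgClosed.lift : AlgebraicClosure F →ₐ[ℚ] PadicAlgCl l).toRingHom
  obtain ⟨t, σ, h1, h2, h3⟩ := exists_inert j (algebraMap F (AlgebraicClosure F) α) (by
    intro b hb
    have h4 := hα (j.comp (algebraMap F (AlgebraicClosure F)))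
    have h5 : j (algebraMap ℚ (AlgebraicClosure F) b) = (b : PadicAlgCl l) := by
      rw [eq_ratCast, map_ratCast]
    rw [h5, norm_rat] at hb
    rw [RingHom.comp_apply, hb] at h4
    exact sq_ne b h4)
  exact ⟨l, hl, j, t, σ.toRingEquiv, h1, ⟨α, h3⟩, h2⟩

end BKMet
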