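import Pool.Agent.Lib.MP_7c08ba_nt.Met.StF

set_option autoImplicit false

/-!
Metabolic parity: if `V` is unramified at the places above the primes which do not split in `F`,
then the diagonal characters of the reduction are not conjugate self-dual. Statements.
-/

noncomputable section

namespace BKMet

open Matrix BKGen

/-- Module RAM: a ramified prime `l` of a quadratic field and an element `τ` of the inertia group at
`l` of the Galois group of `ℚ` which is not the identity on `F`. -/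
def StRam : Prop :=
  ∀ (F : Type) [Field F] [NumberField F], Module.finrank ℚ F = 2 →
    ∃ (l : ℕ) (_ : Fact l.Prime) (j : AlgebraicClosure F →+* PadicAlgCl l) (t : GQ l)
      (τ : AlgebraicClosure F ≃+* AlgebraicClosure F),
      (∀ z, j (τ z) = t (j z)) ∧
      (∃ a : F, τ (algebraMap F (AlgebraicClosure F) a) ≠ algebraMap F (AlgebraicClosure F) a) ∧
      ∀ z, ‖j z‖ ≤ 1 → ‖j (τ z - z)‖ < 1

/-- Module NSD (from RAM): the diagonal characters are not conjugate self-dual. -/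
def StNsd : Prop :=
  ∀ (p : ℕ) [Fact p.Prime], p ≠ 2 → ∀ (F : Type) [Field F] [NumberField F],
    Module.finrank ℚ F = 2 → IsEmpty (F →+* ℝ) → Splits F p →
    ∀ (c : AlgebraicClosure F ≃+* AlgebraicClosure F) (σ : F ≃+* F) (hcs : BKOdd.ConjHyp c σ)
    (L : Type) [NormedField L] [NormedAlgebra ℚ_[p] L] [FiniteDimensional ℚ_[p] L] (n : ℕ)
    (V : GF F →* GL (Fin n) L),
    (∀ (l : ℕ) [Fact l.Prime], ¬ Splits F l → ∀ j : AlgebraicClosure F →+* PadicAlgCl l,
      ∀ g ∈ Inert F (AlgebraicClosure F) j, V g = 1) →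
    ∀ A : GL (Fin n) L, Tri V A → ∀ i : Fin n, ∃ g : GF F,
      ‖((A * V g * A⁻¹ : GL (Fin n) L) : Matrix (Fin n) (Fin n) L) i i *
        ((A * V (BKOdd.conj c σ hcs.h g) * A⁻¹ : GL (Fin n) L) : Matrix (Fin n) (Fin n) L) i i -
        BKOdd.chL (cycF p F) L g‖ = 1

/-- **Parity of `H¹_f`**, without a condition on the diagonal characters. -/
def StParN : Prop :=
  ∀ (p : ℕ) [Fact p.Prime], p ≠ 2 → ∀ (F : Type) [Field F] [NumberField F],
    Module.finrank ℚ F = 2 → IsEmpty (F →+* ℝ) → Splits F p →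
    ∀ (c : AlgebraicClosure F ≃+* AlgebraicClosure F) (σ : F ≃+* F) (hcs : BKOdd.ConjHyp c σ)
    (L : Type) [NormedField L] [NormedAlgebra ℚ_[p] L] [FiniteDimensional ℚ_[p] L] (n : ℕ)
    (V : GF F →* GL (Fin n) L), Continuous V →
    ∀ P₀ : Set ℕ, P₀.Finite → (∀ l ∈ P₀, Splits F l) →
    (∀ (l : ℕ) [Fact l.Prime], l ≠ p → l ∉ P₀ → ∀ j : AlgebraicClosure F →+* PadicAlgCl l,
      ∀ g ∈ Inert F (AlgebraicClosure F) j, V g = 1) →
    (∀ (l : ℕ) [Fact l.Prime], l ≠ p → ∀ j : AlgebraicClosure F →+* PadicAlgCl l,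
      ∀ v : Fin n → L, (∀ (g : GF F) (t : GQ l), (∀ z, j (g z) = t (j z)) →
        (V g : Matrix (Fin n) (Fin n) L) *ᵥ v = v) → v = 0) →
    ∀ A : GL (Fin n) L, Tri V A →
    ∀ B : GL (Fin n) L, (B : Matrix (Fin n) (Fin n) L)ᵀ = B →
    IsDual (cycF p F) V (V.comp (BKOdd.conj c σ hcs.h)) (B : Matrix (Fin n) (Fin n) L) →
    (∀ j : AlgebraicClosure F →+* PadicAlgCl p, BKOdd.DeRhamAt j V) →
    (∀ j : AlgebraicClosure F →+* PadicAlgCl p, BKOdd.FrobAt ⊤ j V) →
    FiniteDimensional L (BKOdd.H1f p V) ∧ ∀ j : AlgebraicClosure F →+* PadicAlgCl p,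
      Module.finrank L (BKOdd.H1f p V) % 2 = BKOdd.tdim j V % 2

theorem stParN (h : StParM) (h2 : StNsd) : StParN := by
  intro p _ hp F _ _ hF hreal hs c σ hcs L _ _ _ n V hV P₀ hP₀ hP hur hinv A hA B hB hd hdR hfr
  refine h p hp F hF hreal hs c σ hcs L n V hV P₀ hP₀ hP hur hinv A hA
    (h2 p hp F hF hreal hs c σ hcs L n V (fun l _ hl => ?_) A hA) B hB hd hdR hfr
  refine hur l (fun h3 => hl (by subst h3; exact hs)) fun h3 => hl (hP l h3)

end BKMet
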