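import Pool.Agent.Lib.MP_7c08ba_nt.Met.Defs
import Pool.Agent.Lib.MP_7c08ba_nt.Gen.Defs

set_option autoImplicit false

/-!
Metabolic parity: the arithmetic input (interface between the local part, the global part and the
abstract part). Coefficients `ℚ_p/ℤ_p(χ)` and one dimensional modules `k(ψ)` over finite fields.
-/

noncomputable section

namespace BKMet

open BKPar (Loc1 Loc2)
open BKND (Sm)

/-! ### Coefficients -/

section Coeff

variable (p : ℕ) [Fact p.Prime]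

/-- `ℚ_p/ℤ_p` -/
abbrev QZ : Type := ℚ_[p] ⧸ LinearMap.range (Algebra.linearMap ℤ_[p] ℚ_[p])

variable {p} {G : Type*} [Group G]

/-- the action of `G` on `ℚ_p/ℤ_p` through a character -/
def actA (χ : G →* ℤ_[p]ˣ) : G →* AddMonoid.End (QZ p) :=
  (Module.toAddMonoidEnd ℤ_[p] (QZ p)).toMonoidHom.comp ((Units.coeHom ℤ_[p]).comp χ)

theorem actA_apply (χ : G →* ℤ_[p]ˣ) (g : G) (x : QZ p) :
    actA χ g x = ((χ g : ℤ_[p]ˣ) : ℤ_[p]) • x := rfl

/-- the action of `G` on a field `k` through a character -/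
def kch {k : Type*} [Field k] (ψ : G →* kˣ) : G →* AddMonoid.End k :=
  (Module.toAddMonoidEnd k k).toMonoidHom.comp ((Units.coeHom k).comp ψ)

theorem kch_apply {k : Type*} [Field k] (ψ : G →* kˣ) (g : G) (x : k) :
    kch ψ g x = ((ψ g : kˣ) : k) * x := rfl

/-- `ψ ψ'` is the reduction of `χ` -/
def Rel (χ : G →* ℤ_[p]ˣ) {k : Type*} [Field k] [Algebra (ZMod p) k] (ψ ψ' : G →* kˣ) : Prop :=
  ∀ g, ((ψ g : kˣ) : k) * ((ψ' g : kˣ) : k) =
    algebraMap (ZMod p) k (PadicInt.toZMod ((χ g : ℤ_[p]ˣ) : ℤ_[p]))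

/-- cup product `k(ψ) × k(ψ') → ℚ_p/ℤ_p(χ)` -/
def cupk {k : Type*} [Field k] (ψ' : G →* kˣ) (lam : k →+ QZ p) (x y : G → k) : G → G → QZ p :=
  fun g h => lam (x g * (((ψ' g : kˣ) : k) * y h))

end Coeff

/-! ### The local axioms -/

/-- The local axioms: `D` is the absolute Galois group of a local field with cyclotomic character
`χ`, `inv` is the local invariant, `δ = 1` for `ℚ_p` and `δ = 0` for `ℚ_l`, `l ≠ p`. -/
structure LocAx (p : ℕ) [Fact p.Prime] {D : Type} [Group D] [TopologicalSpace D]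
    (χ : D →* ℤ_[p]ˣ) (inv : (D → D → QZ p) →+ QZ p) (δ : ℕ) : Prop where
  inv_eq : ∀ z ∈ BKND.Z2 (actA χ), inv z = 0 ↔ z ∈ BKND.B2 (actA χ)
  /-- nondegeneracy on `H¹` -/
  one : ∀ (k : Type) [Field k] [Finite k] [Algebra (ZMod p) k] (ψ ψ' : D →* kˣ),
    Sm (kch ψ) → Sm (kch ψ') → Rel χ ψ ψ' → ∀ lam : k →+ QZ p, lam ≠ 0 →
    ∀ f ∈ BKND.Z1 (kch ψ), (∀ f' ∈ BKND.Z1 (kch ψ'), inv (cupk ψ' lam f f') = 0) →
      f ∈ BKND.B1 (kch ψ)
  /-- `H²` is dual to `H⁰` -/
  two : ∀ (k : Type) [Field k] [Finite k] [Algebra (ZMod p) k] (ψ ψ' : D →* kˣ),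
    Sm (kch ψ) → Sm (kch ψ') → Rel χ ψ ψ' → ∀ lam : k →+ QZ p, lam ≠ 0 →
    ∀ z ∈ BKND.Z2 (kch ψ), (∀ y ∈ BKND.H0 (kch ψ'), inv (fun g h => lam (z g h * y)) = 0) →
      z ∈ BKND.B2 (kch ψ)
  /-- the local Euler characteristic -/
  card : ∀ (k : Type) [Field k] [Finite k] [Algebra (ZMod p) k] (ψ ψ' : D →* kˣ),
    Sm (kch ψ) → Sm (kch ψ') → Rel χ ψ ψ' →
    Nat.card (BKND.Z1 (kch ψ)) = Nat.card (BKND.H0 (kch ψ')) * Nat.card k ^ (1 + δ)

/-! ### The global axioms -/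

/-- The global axioms: `G` is the Galois group of the maximal extension of the imaginary quadratic
field `F` unramified outside a large finite set `S` of places, with local groups `r w : D w → G`,
and the characters `ψ` are those which are trivial on the normal subgroup `U`. -/
structure GlobAx (p : ℕ) [Fact p.Prime] {S : Type} [Fintype S] {G : Type} [Group G]
    [TopologicalSpace G] {D : S → Type} [∀ w, Group (D w)] [∀ w, TopologicalSpace (D w)]
    (r : ∀ w, D w →* G) (χ : G →* ℤ_[p]ˣ) (U : Subgroup G) : Prop where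
  /-- a two-class which is locally trivial is trivial -/
  two : ∀ (k : Type) [Field k] [Finite k] [Algebra (ZMod p) k] (ψ : G →* kˣ),
    (∀ u ∈ U, ψ u = 1) → ∀ z ∈ BKND.Z2 (kch ψ),
    (∀ w, pb2 (r w) z ∈ BKND.B2 (kch (ψ.comp (r w)))) → z ∈ BKND.B2 (kch ψ)
  /-- a one-class which is locally trivial is trivial -/
  one : ∀ (k : Type) [Field k] [Finite k] [Algebra (ZMod p) k] (ψ : G →* kˣ),
    (∀ u ∈ U, ψ u = 1) → ∀ f ∈ BKND.Z1 (kch ψ),
    (∀ w, pb1 (r w) f ∈ BKND.B1 (kch (ψ.comp (r w)))) → f ∈ BKND.B1 (kch ψ)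
  /-- the global Euler characteristic -/
  card : ∀ (k : Type) [Field k] [Finite k] [Algebra (ZMod p) k] (ψ ψ' : G →* kˣ),
    (∀ u ∈ U, ψ u = 1) → (∀ u ∈ U, ψ' u = 1) → Rel χ ψ ψ' →
    Nat.card (BKND.Z1 (kch ψ)) * Nat.card (BKND.H0 (kch ψ')) =
      Nat.card k ^ 2 * ∏ w, Nat.card (BKND.H0 (kch (ψ'.comp (r w))))

/-! ### The arithmetic theorem -/

section Arith

/-- the absolute Galois group of a field -/
abbrev GF (F : Type) [Field F] : Type := AlgebraicClosure F ≃ₐ[F] AlgebraicClosure F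

/-- the absolute Galois group of `ℚ_l` -/
abbrev GQ (l : ℕ) [Fact l.Prime] : Type := PadicAlgCl l ≃ₐ[ℚ_[l]] PadicAlgCl l

/-- the cyclotomic character of `F` -/
def cycF (p : ℕ) [Fact p.Prime] (F : Type) [Field F] : GF F →* ℤ_[p]ˣ :=
  (cyclotomicCharacter (AlgebraicClosure F) p).comp
    (MulSemiringAction.toRingAut (GF F) (AlgebraicClosure F))

/-- the `p`-adic cyclotomic character of `ℚ_l` -/
def cycL (p l : ℕ) [Fact p.Prime] [Fact l.Prime] : GQ l →* ℤ_[p]ˣ :=
  (cyclotomicCharacter (PadicAlgCl l) p).comp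
    (MulSemiringAction.toRingAut (GQ l) (PadicAlgCl l))

/-- `c` is a complex conjugation and is not the identity on `F`. -/
def IsConj {F : Type} [Field F] (c : AlgebraicClosure F ≃+* AlgebraicClosure F) : Prop :=
  (∀ x, c (c x) = x) ∧ ∃ a : F, c (algebraMap F (AlgebraicClosure F) a) ≠
    algebraMap F (AlgebraicClosure F) a

/-- the inertia groups of the places of `F` whose residue characteristic is not in `P` -/
def InertAway (F : Type) [Field F] (P : Set ℕ) : Set (GF F) :=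
  {g | ∃ (l : ℕ) (_ : Fact l.Prime) (j : AlgebraicClosure F →+* PadicAlgCl l),
    l ∉ P ∧ g ∈ BKGen.Inert F (AlgebraicClosure F) j}

/-- the subgroup which fixes the maximal extension unramified outside the places above `P` -/
def RS (F : Type) [Field F] (P : Set ℕ) : Subgroup (GF F) :=
  (Subgroup.normalClosure (InertAway F P)).topologicalClosure

instance instNormalRS (F : Type) [Field F] (P : Set ℕ) : (RS F P).Normal :=
  Subgroup.is_normal_topologicalClosure _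

/-- the Galois group of the maximal extension unramified outside the places above `P` -/
abbrev GS (F : Type) [Field F] (P : Set ℕ) : Type := GF F ⧸ RS F P

/-- The data at a finite set of primes which split in `F`: the primes `l i`, places of the
algebraic closure over them, and the maps from the local groups. -/
structure Pl (F : Type) [Field F] where
  /-- the index set -/
  ι : Type
  [fι : Fintype ι]
  /-- the primes -/
  l : ι → ℕ
  [pr : ∀ i, Fact (l i).Prime]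
  inj : Function.Injective l
  /-- the embeddings of the algebraic closure -/
  j : ∀ i, AlgebraicClosure F →+* PadicAlgCl (l i)
  /-- the local groups -/
  r : ∀ i, GQ (l i) →* GF F
  cont : ∀ i, Continuous (r i)
  spec : ∀ i (t : GQ (l i)) (x : AlgebraicClosure F), j i (r i t x) = t (j i x)

attribute [instance] Pl.fι Pl.pr

/-- the set of primes -/
def Pl.P {F : Type} [Field F] (Λ : Pl F) : Set ℕ := Set.range Λ.l

/-- the primes which split in `F` -/
def Splits (F : Type) [Field F] (l : ℕ) : Prop := ∃ _ : Fact l.Prime, Nonempty (F →+* ℚ_[l])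

/-- the local groups at the places `(i, false)`, and at the conjugate places `(i, true)` -/
abbrev Pl.D {F : Type} [Field F] (Λ : Pl F) (w : Λ.ι × Bool) : Type := GQ (Λ.l w.1)

/-- the maps from the local groups to `G`, `π : GF F → G`, `c` the conjugation of `G` -/
def Pl.loc {F : Type} [Field F] (Λ : Pl F) {G : Type} [Group G] (π : GF F →* G) (c : G →* G)
    (w : Λ.ι × Bool) : Λ.D w →* G :=
  if w.2 then (c.comp π).comp (Λ.r w.1) else π.comp (Λ.r w.1)

/-- The arithmetic input for the group `G = GS F P`. -/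
structure ArithAx (p : ℕ) [Fact p.Prime] {F : Type} [Field F] (Λ : Pl F)
    (χ : GS F Λ.P →* ℤ_[p]ˣ) (c : GS F Λ.P →* GS F Λ.P) (U : Subgroup (GS F Λ.P))
    (inv : ∀ i, (GQ (Λ.l i) → GQ (Λ.l i) → QZ p) →+ QZ p) : Prop where
  loc : ∀ i, LocAx p (cycL p (Λ.l i)) (inv i) (if Λ.l i = p then 1 else 0)
  glob : GlobAx p (Λ.loc (QuotientGroup.mk' (RS F Λ.P)) c) χ U
  /-- the reciprocity law -/
  recip : ∀ z ∈ BKND.Z2 (actA χ),
    ∑ i, (inv i (pb2 (Λ.loc (QuotientGroup.mk' (RS F Λ.P)) c (i, false)) z) -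
      inv i (pb2 (Λ.loc (QuotientGroup.mk' (RS F Λ.P)) c (i, true)) z)) = 0

/-- **The arithmetic theorem** (local part and global part). -/
def StArith : Prop :=
  ∀ (p : ℕ) [Fact p.Prime], p ≠ 2 → ∀ (F : Type) [Field F] [NumberField F],
    Module.finrank ℚ F = 2 → IsEmpty (F →+* ℝ) → Splits F p →
    ∀ c₀ : AlgebraicClosure F ≃+* AlgebraicClosure F, IsConj c₀ →
    ∀ P₀ : Set ℕ, P₀.Finite → (∀ l ∈ P₀, Splits F l) → p ∈ P₀ →
    ∀ U₀ : Subgroup (GF F), U₀.Normal → IsOpen (U₀ : Set (GF F)) → ¬ p ∣ U₀.index →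
    (∀ g h : GF F, g * h * g⁻¹ * h⁻¹ ∈ U₀) → RS F P₀ ≤ U₀ →
    (∀ g ∈ U₀, PadicInt.toZMod ((cycF p F g : ℤ_[p]ˣ) : ℤ_[p]) = 1) →
    (∀ g ∈ U₀, ∀ g' : GF F, (∀ z, g' (c₀ z) = c₀ (g z)) → g' ∈ U₀) →
    ∃ Λ : Pl F, P₀ ⊆ Λ.P ∧ (∃ l ∈ Λ.P, l ≠ p) ∧
      ∀ (χ : GS F Λ.P →* ℤ_[p]ˣ) (c : GS F Λ.P →* GS F Λ.P),
      (∀ g : GF F, χ (QuotientGroup.mk g) = cycF p F g) →
      (∀ g g' : GF F, (∀ z, g' (c₀ z) = c₀ (g z)) →
        c (QuotientGroup.mk g) = QuotientGroup.mk g') →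
      ∃ inv : ∀ i, (GQ (Λ.l i) → GQ (Λ.l i) → QZ p) →+ QZ p,
        ArithAx p Λ χ c (U₀.map (QuotientGroup.mk' (RS F Λ.P))) inv

end Arith

end BKMet
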