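import Pool.Agent.Lib.MP_7c08ba_nt.ND.Stmts

set_option autoImplicit false

/-!
Metabolic parity: cochains, relative cocycles with conditions, and the pairing of Cassels and Tate
at finite level. Definitions.
-/

noncomputable section

namespace BKMet

open BKPar (Loc1 Loc2)
open BKND (Sm)

/-! ### Cochains -/

section Cochains

variable {G : Type*} [Group G] {M : Type*} [AddCommGroup M]

/-- the coboundary of an element -/
def d0 (ρ : G →* AddMonoid.End M) (m : M) : G → M := fun g => ρ g m - m

/-- the coboundary of a function of one variable -/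
def d1 (ρ : G →* AddMonoid.End M) (z : G → M) : G → G → M :=
  fun g h => ρ g (z h) - z (g * h) + z g

/-- the coboundary of a function of two variables -/
def d2 (ρ : G →* AddMonoid.End M) (u : G → G → M) : G → G → G → M :=
  fun g h k => ρ g (u h k) - u (g * h) k + u g (h * k) - u g h

variable {M' A : Type*} [AddCommGroup M'] [AddCommGroup A] (b : M →+ M' →+ A)
  (ρ' : G →* AddMonoid.End M')

/-- cup product of functions of one variable -/
def cup11 (z : G → M) (e : G → M') : G → G → A := fun g h => b (z g) (ρ' g (e h))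

/-- cup product of a function of two variables and a function of one variable -/
def cup21 (u : G → G → M) (e : G → M') : G → G → G → A :=
  fun g h k => b (u g h) (ρ' (g * h) (e k))

/-- cup product of a function of one variable and a function of two variables -/
def cup12 (z : G → M) (u : G → G → M') : G → G → G → A :=
  fun g h k => b (z g) (ρ' g (u h k))

/-- cup product of a function of two variables and an element -/
def cup20 (u : G → G → M) (f : M') : G → G → A := fun g h => b (u g h) (ρ' (g * h) f)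

end Cochains

/-- restriction of functions of one variable -/
def pb1 {D G X : Type*} (f : D → G) (z : G → X) : D → X := fun d => z (f d)

/-- restriction of functions of two variables -/
def pb2 {D G X : Type*} (f : D → G) (z : G → G → X) : D → D → X := fun d d' => z (f d) (f d')

/-- restriction of functions of three variables -/
def pb3 {D G X : Type*} (f : D → G) (z : G → G → G → X) : D → D → D → X :=
  fun d d' d'' => z (f d) (f d') (f d'')

/-! ### The global situation -/

/-- every element is fixed by an open subgroup -/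
def PSm {G A : Type*} [Group G] [TopologicalSpace G] [AddCommGroup A]
    (α : G →* AddMonoid.End A) : Prop :=
  ∀ a : A, ∃ W : Subgroup G, IsOpen (W : Set G) ∧ ∀ w ∈ W, α w a = a

/-- A group `G` with finitely many local groups `D w → G`, a coefficient group `A` with local
invariants with values in `E`, and a trace on compactly supported three-cocycles. -/
structure Glo (S : Type) [Fintype S] (G : Type) [Group G] [TopologicalSpace G] (D : S → Type)
    [∀ w, Group (D w)] [∀ w, TopologicalSpace (D w)] (A E : Type) [AddCommGroup A]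
    [AddCommGroup E] where
  /-- the maps from the local groups -/
  r : ∀ w, D w →* G
  cont : ∀ w, Continuous (r w)
  /-- the action on the coefficients -/
  α : G →* AddMonoid.End A
  sm : PSm α
  /-- the local invariants -/
  inv : ∀ w, (D w → D w → A) →+ E
  inv_eq : ∀ w, ∀ z ∈ BKND.Z2 (α.comp (r w)), inv w z = 0 ↔ z ∈ BKND.B2 (α.comp (r w))
  /-- the trace -/
  tr : ((G → G → G → A) × (∀ w, D w → D w → A)) →+ E
  tr_eq : ∀ ε : G → G → A, Loc2 ε → ∀ β : ∀ w, D w → D w → A,
    (∀ w, β w - pb2 (r w) ε ∈ BKND.Z2 (α.comp (r w))) →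
      tr (d2 α ε, β) = ∑ w, inv w (β w - pb2 (r w) ε)

/-- Finite modules over a commutative ring `R` with an action of `G` and a perfect equivariant
pairing with values in `A`. -/
structure Pair (R : Type) [CommRing R] {G : Type} [Group G] [TopologicalSpace G] {A : Type}
    [AddCommGroup A] (α : G →* AddMonoid.End A) (M M' : Type) [AddCommGroup M] [Module R M]
    [AddCommGroup M'] [Module R M'] where
  /-- the action on `M` -/
  ρ : G →* AddMonoid.End M
  /-- the action on `M'` -/
  ρ' : G →* AddMonoid.End M'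
  /-- the pairing -/
  b : M →+ M' →+ A
  sm : Sm ρ
  sm' : Sm ρ'
  lin : ∀ g (a : R) m, ρ g (a • m) = a • ρ g m
  lin' : ∀ g (a : R) m, ρ' g (a • m) = a • ρ' g m
  eqv : ∀ g m m', b (ρ g m) (ρ' g m') = α g (b m m')
  bal : ∀ (a : R) m m', b (a • m) m' = b m (a • m')
  perf : ∀ (P : Submodule R M) (m : M),
    (∀ m', (∀ n ∈ P, b n m' = 0) → b m m' = 0) → m ∈ P
  perf' : ∀ (P : Submodule R M') (m' : M'),
    (∀ m, (∀ n ∈ P, b m n = 0) → b m m' = 0) → m' ∈ P

namespace Pair

variable {R : Type} [CommRing R] {G : Type} [Group G] [TopologicalSpace G] {A : Type}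
  [AddCommGroup A] {α : G →* AddMonoid.End A} {M M' : Type} [AddCommGroup M] [Module R M]
  [AddCommGroup M'] [Module R M'] (X : Pair R α M M')

/-- the pair with the modules exchanged -/
def flip : Pair R α M' M where
  ρ := X.ρ'
  ρ' := X.ρ
  b := X.b.flip
  sm := X.sm'
  sm' := X.sm
  lin := X.lin'
  lin' := X.lin
  eqv := fun g m m' => X.eqv g m' m
  bal := fun a m m' => (X.bal a m' m).symm
  perf := X.perf'
  perf' := X.perf

/-- the annihilator of a submodule -/
def perp (P : Submodule R M) : Submodule R M' where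
  carrier := {m' | ∀ m ∈ P, X.b m m' = 0}
  add_mem' := by
    intro x y hx hy m hm
    rw [map_add, hx m hm, hy m hm, add_zero]
  zero_mem' := fun m _ => map_zero _
  smul_mem' := by
    intro a x hx m hm
    rw [← X.bal]
    exact hx _ (P.smul_mem a hm)

/-- stable submodules -/
def Stable (P : Submodule R M) : Prop := ∀ g, ∀ m ∈ P, X.ρ g m ∈ P

/-! ### Relative cocycles -/

variable {S : Type} {D : S → Type} [∀ w, Group (D w)] (r : ∀ w, D w →* G) (T : Set S)

/-- The one-cocycles with values in `Q / P` with conditions at the places in `T`: pairs of a smooth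
function `z : G → Q` which is a cocycle modulo `P` and elements `m w` of `Q` for `w` in `T` such
that the restriction of `z` to `D w` is the coboundary of `m w` modulo `P`. -/
def Zr (P Q : Submodule R M) : Submodule R ((G → M) × (S → M)) where
  carrier := {x | Loc1 x.1 ∧ (∀ g, x.1 g ∈ Q) ∧ (∀ g h, d1 X.ρ x.1 g h ∈ P) ∧
    (∀ w ∈ T, x.2 w ∈ Q ∧ ∀ d, x.1 (r w d) - d0 X.ρ (x.2 w) (r w d) ∈ P) ∧
    ∀ w ∉ T, x.2 w = 0}
  add_mem' := by
    rintro x y ⟨hx, hx1, hx2, hx3, hx4⟩ ⟨hy, hy1, hy2, hy3, hy4⟩
    refine ⟨BKND.Loc1.map2 hx hy (· + ·), fun g => Q.add_mem (hx1 g) (hy1 g), fun g h => ?_,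
      fun w hw => ⟨Q.add_mem (hx3 w hw).1 (hy3 w hw).1, fun d => ?_⟩, fun w hw => ?_⟩
    · have e := P.add_mem (hx2 g h) (hy2 g h)
      have e' : d1 X.ρ (x + y).1 g h = d1 X.ρ x.1 g h + d1 X.ρ y.1 g h := by
        simp only [d1, Prod.fst_add, Pi.add_apply, map_add]
        abel
      rw [e']
      exact e
    · have e := P.add_mem ((hx3 w hw).2 d) ((hy3 w hw).2 d)
      have e' : (x + y).1 (r w d) - d0 X.ρ ((x + y).2 w) (r w d) =
          x.1 (r w d) - d0 X.ρ (x.2 w) (r w d) + (y.1 (r w d) - d0 X.ρ (y.2 w) (r w d)) := by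
        simp only [d0, Prod.fst_add, Prod.snd_add, Pi.add_apply, map_add]
        abel
      rw [e']
      exact e
    · rw [Prod.snd_add, Pi.add_apply, hx4 w hw, hy4 w hw, add_zero]
  zero_mem' := by
    refine ⟨BKND.Loc1.const 0, fun g => Q.zero_mem, fun g h => ?_, fun w _ =>
      ⟨Q.zero_mem, fun d => ?_⟩, fun w _ => rfl⟩
    · have e : d1 X.ρ (0 : (G → M) × (S → M)).1 g h = 0 := by simp [d1]
      rw [e]
      exact P.zero_mem
    · have e : (0 : (G → M) × (S → M)).1 (r w d) -
          d0 X.ρ ((0 : (G → M) × (S → M)).2 w) (r w d) = 0 := by simp [d0]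
      rw [e]
      exact P.zero_mem
  smul_mem' := by
    rintro a x ⟨hx, hx1, hx2, hx3, hx4⟩
    refine ⟨BKND.Loc1.map hx (a • ·), fun g => Q.smul_mem a (hx1 g), fun g h => ?_,
      fun w hw => ⟨Q.smul_mem a (hx3 w hw).1, fun d => ?_⟩, fun w hw => ?_⟩
    · have e := P.smul_mem a (hx2 g h)
      have e' : d1 X.ρ (a • x).1 g h = a • d1 X.ρ x.1 g h := by
        simp only [d1, Prod.smul_fst, Pi.smul_apply, X.lin, smul_add, smul_sub]
      rw [e']
      exact e
    · have e := P.smul_mem a ((hx3 w hw).2 d)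
      have e' : (a • x).1 (r w d) - d0 X.ρ ((a • x).2 w) (r w d) =
          a • (x.1 (r w d) - d0 X.ρ (x.2 w) (r w d)) := by
        simp only [d0, Prod.smul_fst, Prod.smul_snd, Pi.smul_apply, X.lin, smul_sub]
      rw [e']
      exact e
    · rw [Prod.smul_snd, Pi.smul_apply, hx4 w hw, smul_zero]

/-- The coboundaries among the cocycles with values in `Q / P`. -/
def Br (P Q : Submodule R M) : Submodule R ((G → M) × (S → M)) where
  carrier := {x | Loc1 x.1 ∧ (∃ n ∈ Q, (∀ g, x.1 g - d0 X.ρ n g ∈ P) ∧ ∀ w ∈ T, x.2 w - n ∈ P) ∧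
    ∀ w ∉ T, x.2 w = 0}
  add_mem' := by
    rintro x y ⟨hx, ⟨m, hm, hm1, hm2⟩, hx4⟩ ⟨hy, ⟨n, hn, hn1, hn2⟩, hy4⟩
    refine ⟨BKND.Loc1.map2 hx hy (· + ·), ⟨m + n, Q.add_mem hm hn, fun g => ?_, fun w hw => ?_⟩,
      fun w hw => ?_⟩
    · have e := P.add_mem (hm1 g) (hn1 g)
      have e' : (x + y).1 g - d0 X.ρ (m + n) g = x.1 g - d0 X.ρ m g + (y.1 g - d0 X.ρ n g) := by
        simp only [d0, Prod.fst_add, Pi.add_apply, map_add]
        abel
      rw [e']
      exact e
    · have e := P.add_mem (hm2 w hw) (hn2 w hw)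
      have e' : (x + y).2 w - (m + n) = x.2 w - m + (y.2 w - n) := by
        rw [Prod.snd_add, Pi.add_apply]
        abel
      rw [e']
      exact e
    · rw [Prod.snd_add, Pi.add_apply, hx4 w hw, hy4 w hw, add_zero]
  zero_mem' := by
    refine ⟨BKND.Loc1.const 0, ⟨0, Q.zero_mem, fun g => ?_, fun w _ => ?_⟩, fun w _ => rfl⟩
    · have e : (0 : (G → M) × (S → M)).1 g - d0 X.ρ 0 g = 0 := by simp [d0]
      rw [e]
      exact P.zero_mem
    · have e : (0 : (G → M) × (S → M)).2 w - 0 = 0 := by simp
      rw [e]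
      exact P.zero_mem
  smul_mem' := by
    rintro a x ⟨hx, ⟨m, hm, hm1, hm2⟩, hx4⟩
    refine ⟨BKND.Loc1.map hx (a • ·), ⟨a • m, Q.smul_mem a hm, fun g => ?_, fun w hw => ?_⟩,
      fun w hw => ?_⟩
    · have e := P.smul_mem a (hm1 g)
      have e' : (a • x).1 g - d0 X.ρ (a • m) g = a • (x.1 g - d0 X.ρ m g) := by
        simp only [d0, Prod.smul_fst, Pi.smul_apply, X.lin, smul_sub]
      rw [e']
      exact e
    · have e := P.smul_mem a (hm2 w hw)
      have e' : (a • x).2 w - a • m = a • (x.2 w - m) := by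
        rw [Prod.smul_snd, Pi.smul_apply, smul_sub]
      rw [e']
      exact e
    · rw [Prod.smul_snd, Pi.smul_apply, hx4 w hw, smul_zero]

/-- the cohomology group `H¹_T(Q / P)` -/
abbrev HT (P Q : Submodule R M) : Type :=
  X.Zr r T P Q ⧸ (X.Br T P Q).comap (X.Zr r T P Q).subtype

end Pair

/-! ### The pairing -/

section CT

variable {R : Type} [CommRing R] {S : Type} [Fintype S] {G : Type} [Group G] [TopologicalSpace G]
  {D : S → Type} [∀ w, Group (D w)] [∀ w, TopologicalSpace (D w)] {A E : Type} [AddCommGroup A]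
  [AddCommGroup E] (Γ : Glo S G D A E) {M M' : Type} [AddCommGroup M] [Module R M]
  [AddCommGroup M'] [Module R M'] (X : Pair R Γ.α M M') (T : Set S)

open Classical in
/-- the compactly supported three-cocycle of a pair of relative cocycles -/
def Xi (x : (G → M) × (S → M)) (y : (G → M') × (S → M')) :
    (G → G → G → A) × (∀ w, D w → D w → A) :=
  (cup21 X.b X.ρ' (d1 X.ρ x.1) y.1, fun w =>
    if w ∈ T then
      cup11 X.b (X.ρ'.comp (Γ.r w)) (fun d => x.1 (Γ.r w d) - d0 X.ρ (x.2 w) (Γ.r w d))
        (pb1 (Γ.r w) y.1)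
    else cup20 X.b (X.ρ'.comp (Γ.r w)) (pb2 (Γ.r w) (d1 X.ρ x.1)) (y.2 w))

/-- the pairing of Cassels and Tate -/
def CT (x : (G → M) × (S → M)) (y : (G → M') × (S → M')) : E := Γ.tr (Xi Γ X T x y)

end CT

end BKMet
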