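import Pool.Agent.Lib.MP_7c08ba_nt.Met.StF
import Pool.Agent.Lib.MP_7c08ba_nt.Odd.GlobF
import Pool.Agent.Lib.MP_7c08ba_nt.Odd.Conj

set_option autoImplicit false

/-!
The condition at the places above `p` for the representation and its conjugate dual.
-/

noncomputable section

namespace BKMet

open Matrix MP_7c08ba.Crys BKOdd BKOdd.Conj

namespace FCRYM

section Loc

variable {p : ℕ} [Fact p.Prime] {F : Type} [Field F]

/-- the map from the local Galois group to the compatible pairs -/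
def toPD (j : AlgebraicClosure F →+* PadicAlgCl p) (r : GQ p →* BKMet.GF F)
    (hr : ∀ (t : GQ p) (x : AlgebraicClosure F), j (r t x) = t (j x)) : GQ p →* PD j where
  toFun t := ⟨(r t, t), fun z => hr t z⟩
  map_one' := Subtype.ext (Prod.ext (map_one r) rfl)
  map_mul' a b := Subtype.ext (Prod.ext (map_mul r a b) rfl)

theorem toPD_surjective (j : AlgebraicClosure F →+* PadicAlgCl p) (r : GQ p →* BKMet.GF F)
    (hr : ∀ (t : GQ p) (x : AlgebraicClosure F), j (r t x) = t (j x)) :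
    Function.Surjective (toPD j r hr) := by
  rintro ⟨⟨g, t⟩, h⟩
  refine ⟨t, Subtype.ext (Prod.ext ?_ rfl)⟩
  refine AlgEquiv.ext fun z => j.injective ?_
  exact (hr t z).trans (h z).symm

end Loc

section Z

variable {L : Type} [NormedField L] {n : ℕ} {G H : Type} [Group G] [TopologicalSpace G] [Group H]
  [TopologicalSpace H]

theorem Z1_comp (V : G →* GL (Fin n) L) (f : H →* G) (hf : Continuous f) {x : G → Fin n → L}
    (hx : x ∈ BKOdd.Z1 V) : (fun t => x (f t)) ∈ BKOdd.Z1 (V.comp f) := by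
  refine ⟨hx.1.comp hf, fun g h => ?_⟩
  change x (f (g * h)) = x (f g) + (V (f g) : Matrix (Fin n) (Fin n) L) *ᵥ x (f h)
  rw [map_mul, hx.2]

theorem Z1_dual (V : G →* GL (Fin n) L) (c : G →* G) (hc : Continuous c) (B : GL (Fin n) L)
    {x : G → Fin n → L} (hx : x ∈ BKOdd.Z1 V) :
    (fun t => (B : Matrix (Fin n) (Fin n) L) *ᵥ x (c t)) ∈ BKOdd.Z1 (dualC V c B) := by
  refine ⟨?_, fun g h => ?_⟩
  · exact (Continuous.matrix_mulVec continuous_const (hx.1.comp hc))
  · change (B : Matrix (Fin n) (Fin n) L) *ᵥ x (c (g * h)) =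
      (B : Matrix (Fin n) (Fin n) L) *ᵥ x (c g) +
        ((B * V (c g) * B⁻¹ : GL (Fin n) L) : Matrix (Fin n) (Fin n) L) *ᵥ
          ((B : Matrix (Fin n) (Fin n) L) *ᵥ x (c h))
    rw [map_mul, hx.2, Matrix.mulVec_add, Matrix.mulVec_mulVec, Matrix.mulVec_mulVec,
      ← Units.val_mul, ← Units.val_mul]
    congr 3
    group

end Z

section Conv

variable {p : ℕ} [Fact p.Prime] {L : Type} [NormedField L] [NormedAlgebra ℚ_[p] L] {n : ℕ}
  {G : Type} [Group G]

/-- twisting by a matrix -/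
theorem crys_twist (a : G →* GQp p) (ρ : G →* GL (Fin n) L) (B : GL (Fin n) L)
    {x : G → Fin n → L} (h : x ∈ ZCris a (rp ρ)) :
    (fun t => (B : Matrix (Fin n) (Fin n) L) *ᵥ x t) ∈
      ZCris a (rp ((MulAut.conj B).toMonoidHom.comp ρ)) := by
  refine zcris_intertwine (MonoidHom.id G) a a (fun _ => rfl) (rp ρ)
    (rp ((MulAut.conj B).toMonoidHom.comp ρ))
    (Matrix.mulVecLin (B : Matrix (Fin n) (Fin n) L)) ?_ 0 _ _ ?_ h
  · intro g v
    change ((B * ρ g * B⁻¹ : GL (Fin n) L) : Matrix (Fin n) (Fin n) L) *ᵥ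
      ((B : Matrix (Fin n) (Fin n) L) *ᵥ v) =
      (B : Matrix (Fin n) (Fin n) L) *ᵥ ((ρ g : Matrix (Fin n) (Fin n) L) *ᵥ v)
    rw [Matrix.mulVec_mulVec, Matrix.mulVec_mulVec, ← Units.val_mul, ← Units.val_mul]
    congr 2
    group
  · intro g
    rw [map_zero, add_zero, sub_zero]
    rfl

theorem crys_twist_iff (a : G →* GQp p) (ρ : G →* GL (Fin n) L) (B : GL (Fin n) L)
    {x : G → Fin n → L} : x ∈ ZCris a (rp ρ) ↔
    (fun t => (B : Matrix (Fin n) (Fin n) L) *ᵥ x t) ∈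
      ZCris a (rp ((MulAut.conj B).toMonoidHom.comp ρ)) := by
  refine ⟨crys_twist a ρ B, fun h => ?_⟩
  have h1 := crys_twist a _ B⁻¹ h
  have e1 : (fun t => ((B⁻¹ : GL (Fin n) L) : Matrix (Fin n) (Fin n) L) *ᵥ
      ((B : Matrix (Fin n) (Fin n) L) *ᵥ x t)) = x := by
    funext t
    rw [Matrix.mulVec_mulVec, ← Units.val_mul, inv_mul_cancel, Units.val_one, Matrix.one_mulVec]
  have e2 : (MulAut.conj B⁻¹).toMonoidHom.comp ((MulAut.conj B).toMonoidHom.comp ρ) = ρ := by
    ext1 g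
    change B⁻¹ * (B * ρ g * B⁻¹) * B⁻¹⁻¹ = ρ g
    group
  rw [e1, e2] at h1
  exact h1

end Conv

end FCRYM

open FCRYM

theorem stCrysM : StCrysM := by
  intro p _ F _ _ hF c σ hcs L _ _ _ n V hV j r hr hjr B x hx
  have hc : Continuous (conj c σ hcs.h) := continuous_conjO c σ hcs.h
  have e1 : (fun t : GQ p => x (r t)) ∈ Zf (MonoidHom.id (GQ p)) (V.comp r) ↔
      (fun d : PD j => x (toF j d)) ∈ ZCris (toQ j) (lin (V.comp (toF j))) := by
    refine Iff.trans ?_ (zcris_comp_iff (toPD j r hjr) (toPD_surjective j r hjr) (toQ j)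
      (lin (V.comp (toF j))) (fun d : PD j => x (toF j d)))
    exact ⟨fun h => h.2, fun h => ⟨Z1_comp V r hr hx, h⟩⟩
  have e2 : (fun t => (B : Matrix (Fin n) (Fin n) L) *ᵥ x (conj c σ hcs.h (r t))) ∈
        Zf (MonoidHom.id (GQ p)) ((dualC V (conj c σ hcs.h) B).comp r) ↔
      (fun d : PD (j.comp (c : AlgebraicClosure F →+* AlgebraicClosure F)) => x (toF _ d)) ∈
        ZCris (toQ (j.comp (c : AlgebraicClosure F →+* AlgebraicClosure F)))
          (lin (V.comp (toF (j.comp (c : AlgebraicClosure F →+* AlgebraicClosure F))))) := by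
    refine Iff.trans ?_ (zcris_comp_iff ((conjPD' j c σ hcs).comp (toPD j r hjr))
      ((conjPD'_surjective j c σ hcs).comp (toPD_surjective j r hjr))
      (toQ (j.comp (c : AlgebraicClosure F →+* AlgebraicClosure F)))
      (lin (V.comp (toF (j.comp (c : AlgebraicClosure F →+* AlgebraicClosure F)))))
      (fun d : PD (j.comp (c : AlgebraicClosure F →+* AlgebraicClosure F)) => x (toF _ d)))
    have e3 := crys_twist_iff (MonoidHom.id (GQ p)) ((V.comp (conj c σ hcs.h)).comp r) B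
      (x := fun t => x (conj c σ hcs.h (r t)))
    refine Iff.trans ?_ e3.symm
    refine ⟨fun h => h.2, fun h => ⟨?_, h⟩⟩
    exact Z1_comp (dualC V (conj c σ hcs.h) B) r hr (Z1_dual V (conj c σ hcs.h) hc B hx)
  rw [e1, e2]
  constructor
  · intro h
    exact ⟨(isTriv_iff _ V x).mp (h j), (isTriv_iff _ V x).mp (h _)⟩
  · rintro ⟨h1, h2⟩ j'
    rw [isTriv_iff]
    rcases two_places hF j c σ hcs j' with ⟨g, hg⟩ | ⟨g, hg⟩
    · exact crys_conj V hx j j' g hg h1
    · exact crys_conj V hx (j.comp (c : AlgebraicClosure F →+* AlgebraicClosure F)) j' g hg h2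

end BKMet
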