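import Pool.Agent.Lib.MP_7c08ba_nt.Met.StF

set_option autoImplicit false

/-!
Metabolic parity, part F, module CUPX: antisymmetry of the pairing of the restrictions.
-/

noncomputable section

namespace BKMet

open Matrix

namespace FCUPX

section Alg

variable {L : Type} [NormedField L] {G : Type} [Group G] {n : ℕ}

theorem dualC_val (V : G →* GL (Fin n) L) (c : G →* G) (B : GL (Fin n) L) (g : G) :
    ((dualC V c B g : GL (Fin n) L) : Matrix (Fin n) (Fin n) L) =
      (B : Matrix (Fin n) (Fin n) L) * (V (c g) : Matrix (Fin n) (Fin n) L) *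
        ((B⁻¹ : GL (Fin n) L) : Matrix (Fin n) (Fin n) L) := rfl

theorem inv_mulVec (B : GL (Fin n) L) (v : Fin n → L) :
    ((B⁻¹ : GL (Fin n) L) : Matrix (Fin n) (Fin n) L) *ᵥ
      ((B : Matrix (Fin n) (Fin n) L) *ᵥ v) = v := by
  rw [Matrix.mulVec_mulVec, Units.inv_mul, Matrix.one_mulVec]

/-- the action of `dualC` on a vector of the form `B v` -/
theorem dualC_mulVec (V : G →* GL (Fin n) L) (c : G →* G) (B : GL (Fin n) L) (g : G)
    (v : Fin n → L) :
    ((dualC V c B g : GL (Fin n) L) : Matrix (Fin n) (Fin n) L) *ᵥ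
        ((B : Matrix (Fin n) (Fin n) L) *ᵥ v) =
      (B : Matrix (Fin n) (Fin n) L) *ᵥ ((V (c g) : Matrix (Fin n) (Fin n) L) *ᵥ v) := by
  rw [dualC_val, ← Matrix.mulVec_mulVec, ← Matrix.mulVec_mulVec, inv_mulVec]

theorem dualC_dual {χ : G →* L} (V : G →* GL (Fin n) L) (c : G →* G) (B : GL (Fin n) L)
    (h : ∀ g, (V g : Matrix (Fin n) (Fin n) L)ᵀ * (B : Matrix (Fin n) (Fin n) L) *
      (V.comp c g : Matrix (Fin n) (Fin n) L) = χ g • (B : Matrix (Fin n) (Fin n) L)) (g : G) :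
    (V g : Matrix (Fin n) (Fin n) L)ᵀ *
        ((dualC V c B g : GL (Fin n) L) : Matrix (Fin n) (Fin n) L) =
      χ g • (1 : Matrix (Fin n) (Fin n) L) := by
  have h1 := h g
  have e : (V.comp c g : GL (Fin n) L) = V (c g) := rfl
  rw [e] at h1
  rw [dualC_val, ← Matrix.mul_assoc, ← Matrix.mul_assoc, h1, Matrix.smul_mul, Units.mul_inv]

end Alg

section Top

variable {L : Type} [NormedField L] {G : Type} [Group G] [TopologicalSpace G] {n : ℕ}

/-- the cocycle `B y(c g)` -/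
theorem mem_Z1_dualC {V : G →* GL (Fin n) L} {c : G →* G} (hc : Continuous c) (B : GL (Fin n) L)
    {y : G → Fin n → L} (hy : y ∈ BKOdd.Z1 V) :
    (fun g => (B : Matrix (Fin n) (Fin n) L) *ᵥ y (c g)) ∈ BKOdd.Z1 (dualC V c B) := by
  refine ⟨Continuous.matrix_mulVec continuous_const (hy.1.comp hc), fun g h => ?_⟩
  change (B : Matrix (Fin n) (Fin n) L) *ᵥ y (c (g * h)) =
    (B : Matrix (Fin n) (Fin n) L) *ᵥ y (c g) +
      ((dualC V c B g : GL (Fin n) L) : Matrix (Fin n) (Fin n) L) *ᵥ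
        ((B : Matrix (Fin n) (Fin n) L) *ᵥ y (c h))
  rw [dualC_mulVec, map_mul, hy.2, Matrix.mulVec_add]

/-- restriction of cocycles -/
theorem mem_Z1_comp {D : Type} [Group D] [TopologicalSpace D] {V : G →* GL (Fin n) L}
    {f : D →* G} (hf : Continuous f) {y : G → Fin n → L} (hy : y ∈ BKOdd.Z1 V) :
    (fun d => y (f d)) ∈ BKOdd.Z1 (V.comp f) := by
  refine ⟨hy.1.comp hf, fun g h => ?_⟩
  change y (f (g * h)) = _
  rw [map_mul, hy.2]
  rfl

/-- the cup product of cocycles is a cocycle -/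
theorem cup_mem_Z2 [IsTopologicalGroup G] {ρ ρ' : G →* GL (Fin n) L} {χ : G →* L}
    (hρ' : Continuous ρ')
    (hdual : ∀ g, (ρ g : Matrix (Fin n) (Fin n) L)ᵀ * (ρ' g : Matrix (Fin n) (Fin n) L) =
      χ g • (1 : Matrix (Fin n) (Fin n) L))
    {x y : G → Fin n → L} (hx : x ∈ BKOdd.Z1 ρ) (hy : y ∈ BKOdd.Z1 ρ') :
    BKOdd.cupV ρ' x y ∈ CC.Z2 χ := by
  refine ⟨?_, fun g h k => ?_⟩
  · have h1 : Continuous fun a : G × G => (ρ' a.1 : Matrix (Fin n) (Fin n) L) *ᵥ y a.2 :=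
      Continuous.matrix_mulVec (Units.continuous_val.comp (hρ'.comp continuous_fst))
        (hy.1.comp continuous_snd)
    exact Continuous.dotProduct (hx.1.comp continuous_fst) h1
  · change χ g * (x h ⬝ᵥ (ρ' h : Matrix (Fin n) (Fin n) L) *ᵥ y k) +
      x g ⬝ᵥ (ρ' g : Matrix (Fin n) (Fin n) L) *ᵥ y (h * k) =
      x (g * h) ⬝ᵥ (ρ' (g * h) : Matrix (Fin n) (Fin n) L) *ᵥ y k +
        x g ⬝ᵥ (ρ' g : Matrix (Fin n) (Fin n) L) *ᵥ y h
    rw [hx.2 g h, hy.2 h k, map_mul, Units.val_mul, ← Matrix.mulVec_mulVec, add_dotProduct,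
      BKOdd.dot_dual hdual, Matrix.mulVec_add, dotProduct_add]
    ring

end Top

end FCUPX

open FCUPX

/-- **Module CUPX.** -/
theorem stCupX (h : StRL) : StCupX := by
  intro p _ L _ _ _ ι _ G _ _ _ _ _ D _ _ _ _ _ r c χ inv δ U hS n V B hV hB hD i₀ hline htriv
    x hx y hy
  -- duality
  have hdual : ∀ g, (V g : Matrix (Fin n) (Fin n) L)ᵀ *
      ((dualC V c B g : GL (Fin n) L) : Matrix (Fin n) (Fin n) L) =
      BKOdd.chL χ L g • (1 : Matrix (Fin n) (Fin n) L) := dualC_dual V c B hD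
  have hV' : Continuous (dualC V c B) := by
    change Continuous fun g => B * V (c g) * B⁻¹
    exact (continuous_const.mul (hV.comp hS.cont_c)).mul continuous_const
  have hxZ := mem_Z1_dualC hS.cont_c B hx
  have hyZ := mem_Z1_dualC hS.cont_c B hy
  have hsym : ∀ u w : Fin n → L, ((B : Matrix (Fin n) (Fin n) L) *ᵥ u) ⬝ᵥ w =
      u ⬝ᵥ ((B : Matrix (Fin n) (Fin n) L) *ᵥ w) := by
    intro u w
    have e1 : (B : Matrix (Fin n) (Fin n) L) *ᵥ u = u ᵥ* (B : Matrix (Fin n) (Fin n) L) := by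
      rw [← Matrix.vecMul_transpose, hB]
    rw [e1, Matrix.dotProduct_mulVec]
  -- the cocycle `Z`
  have hZ := cup_mem_Z2 hV' hdual hx hyZ
  have hcc : ∀ (i : ι) (d : D i), c (c (r i d)) = r i d := fun i d => hS.inv_c _
  have hRL := h p L G ι D r hS.cont_r c hS.cont_c χ hS.cont_χ hS.χ_c inv
    (fun i => (hS.loc i).inv_eq) hS.recip i₀ hline _ hZ (fun i hi => by
      obtain ⟨h1, h2⟩ := htriv i hi
      constructor
      · obtain ⟨v, hv⟩ := h1 (mem_Z1_comp (hS.cont_r i) hx)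
        have e := BKOdd.cup_cob_left (ρ := V.comp (r i)) (ρ' := (dualC V c B).comp (r i))
          (χ := BKOdd.chL (χ.comp (r i)) L) (fun d => hdual (r i d)) v
          (mem_Z1_comp (hS.cont_r i) hyZ)
        rw [hv] at e
        exact e
      · have hxc : (fun d => x (c (r i d))) ∈ BKOdd.Z1 ((V.comp c).comp (r i)) :=
          mem_Z1_comp (V := V) (f := c.comp (r i)) (hS.cont_c.comp (hS.cont_r i)) hx
        obtain ⟨v, hv⟩ := h2 hxc
        have hd : ∀ d, (((V.comp c).comp (r i)) d : Matrix (Fin n) (Fin n) L)ᵀ *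
            (((dualC V c B).comp (c.comp (r i))) d : Matrix (Fin n) (Fin n) L) =
            BKOdd.chL (χ.comp (r i)) L d • (1 : Matrix (Fin n) (Fin n) L) := by
          intro d
          have e1 := hdual (c (r i d))
          have e2 : BKOdd.chL χ L (c (r i d)) = BKOdd.chL (χ.comp (r i)) L d := by
            change algebraMap ℚ_[p] L (((χ (c (r i d)) : ℤ_[p]ˣ) : ℤ_[p]) : ℚ_[p]) =
              algebraMap ℚ_[p] L (((χ (r i d) : ℤ_[p]ˣ) : ℤ_[p]) : ℚ_[p])
            rw [hS.χ_c]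
          rw [e2] at e1
          exact e1
        have e := BKOdd.cup_cob_left (ρ := (V.comp c).comp (r i))
          (ρ' := (dualC V c B).comp (c.comp (r i)))
          (χ := BKOdd.chL (χ.comp (r i)) L) hd v
          (mem_Z1_comp (f := c.comp (r i)) (hS.cont_c.comp (hS.cont_r i)) hyZ)
        rw [hv] at e
        exact e)
  -- graded commutativity
  have hcomm := BKOdd.cup_comm (ρ := V.comp (r i₀)) (ρ' := (dualC V c B).comp (r i₀))
    (χ := BKOdd.chL (χ.comp (r i₀)) L) (fun d => hdual (r i₀ d))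
    (mem_Z1_comp (hS.cont_r i₀) hy) (mem_Z1_comp (hS.cont_r i₀) hxZ)
  have hlast := Submodule.add_mem _ hRL hcomm
  have e : BKOdd.cupV (V.comp (r i₀))
      (fun d => (B : Matrix (Fin n) (Fin n) L) *ᵥ x (c (r i₀ d))) (fun d => y (r i₀ d)) =
      pb2 (c.comp (r i₀)) (BKOdd.cupV (dualC V c B) x
        (fun g => (B : Matrix (Fin n) (Fin n) L) *ᵥ y (c g))) := by
    funext d d'
    change ((B : Matrix (Fin n) (Fin n) L) *ᵥ x (c (r i₀ d))) ⬝ᵥ
        ((V (r i₀ d) : Matrix (Fin n) (Fin n) L) *ᵥ y (r i₀ d')) =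
      x (c (r i₀ d)) ⬝ᵥ
        ((dualC V c B (c (r i₀ d)) : GL (Fin n) L) : Matrix (Fin n) (Fin n) L) *ᵥ
          ((B : Matrix (Fin n) (Fin n) L) *ᵥ y (c (c (r i₀ d'))))
    rw [dualC_mulVec, hsym, hcc, hcc]
  rw [e] at hlast
  have e2 : ∀ a b d : D i₀ → D i₀ → L, a - b + (d + b) = a + d := by
    intro a b d
    abel
  rw [e2] at hlast
  exact hlast

end BKMet
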