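import Pool.Agent.Lib.MP_7c08ba_nt.Met.StF
import Pool.Agent.Lib.MP_7c08ba_nt.Odd.CycL
import Pool.Agent.Lib.MP_7c08ba_nt.Odd.Conj
import Pool.Agent.Lib.MP_7c08ba_nt.Odd.Desc
import Pool.Agent.Lib.MP_7c08ba_nt.Gen.Unram

set_option autoImplicit false

/-!
Module DESC: the quotient `GS F P`: the cyclotomic character, complex conjugation and
representations which are unramified outside `P`.
-/

noncomputable section

namespace BKMet

open BKGen
open Matrix

namespace FDESC

/-- a closed normal subgroup which contains the inertia groups away from `P` contains `RS F P` -/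
theorem RS_le {F : Type} [Field F] {P : Set ℕ} (K : Subgroup (GF F)) [K.Normal]
    (hK : IsClosed (K : Set (GF F))) (h : InertAway F P ⊆ K) : RS F P ≤ K :=
  Subgroup.topologicalClosure_minimal _ (Subgroup.normalClosure_le_normal h) hK

/-- the kernel of a continuous homomorphism to a separated group contains `RS F P` if it contains
the inertia groups -/
theorem eq_one_of_RS {F : Type} [Field F] {P : Set ℕ} {X : Type*} [Group X] [TopologicalSpace X]
    [T1Space X] (f : GF F →* X) (hf : Continuous f) (h : ∀ g ∈ InertAway F P, f g = 1) :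
    ∀ r ∈ RS F P, f r = 1 := by
  intro r hr
  have hc : IsClosed (f.ker : Set (GF F)) := by
    have : (f.ker : Set (GF F)) = f ⁻¹' {1} := by
      ext x
      exact MonoidHom.mem_ker
    rw [this]
    exact isClosed_singleton.preimage hf
  exact RS_le f.ker hc (fun g hg => MonoidHom.mem_ker.2 (h g hg)) hr

/-- inertia away from `p` fixes the roots of unity of `p`-power order -/
theorem inert_root {F : Type} [Field F] {p : ℕ} [Fact p.Prime] {l : ℕ} [Fact l.Prime]
    (hlp : l ≠ p) (j : AlgebraicClosure F →+* PadicAlgCl l) {g : GF F}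
    (hg : g ∈ Inert F (AlgebraicClosure F) j) {n : ℕ} {ξ : AlgebraicClosure F}
    (hξ : ξ ^ p ^ n = 1) : g ξ = ξ := by
  have hp : p.Prime := Fact.out
  have hpn : p ^ n ≠ 0 := pow_ne_zero _ hp.ne_zero
  have h0 : ξ ≠ 0 := by
    rintro rfl
    rw [zero_pow hpn] at hξ
    exact zero_ne_one hξ
  have hu : ‖j ξ‖ = 1 := norm_root hpn (by rw [← map_pow, hξ, map_one])
  have h1 := hg ξ hu.le
  have hω : (g ξ / ξ) ^ p ^ n = 1 := by rw [div_pow, ← map_pow, hξ, map_one, div_one]
  have h2 : g ξ - ξ = (g ξ / ξ - 1) * ξ := by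
    rw [sub_mul, one_mul, div_mul_cancel₀ _ h0]
  rw [h2, map_mul, norm_mul, hu, mul_one, map_sub, map_one] at h1
  have h3 : j (g ξ / ξ) = 1 := by
    by_contra hne
    have h4 : ¬ l ∣ p ^ n := by
      intro h5
      exact hlp ((Nat.prime_dvd_prime_iff_eq (Fact.out : l.Prime) hp).mp
        ((Fact.out : l.Prime).dvd_of_dvd_pow h5))
    have h5 := norm_root_sub_one h4 (by rw [← map_pow, hω, map_one]) hne
    rw [h5] at h1
    exact lt_irrefl _ h1
  have h4 : g ξ / ξ = 1 := j.injective (by rw [h3, map_one])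
  exact (div_eq_one_iff_eq h0).1 h4

theorem cycF_inert {F : Type} [Field F] [CharZero F] {p : ℕ} [Fact p.Prime] {P : Set ℕ}
    (hP : p ∈ P) : ∀ g ∈ InertAway F P, cycF p F g = 1 := by
  rintro g ⟨l, _, j, hl, hg⟩
  have hlp : l ≠ p := by
    rintro rfl
    exact hl hP
  apply BKOdd.CycLAux.eq_of (Ω := AlgebraicClosure F)
  intro n ξ hξ
  have h1 : g ξ = ξ ^ (((cycF p F g : ℤ_[p]ˣ) : ℤ_[p]).toZModPow n).val :=
    BKOdd.CycLAux.act n ξ hξ.pow_eq_one (MulSemiringAction.toRingAut (GF F) (AlgebraicClosure F) g)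
  have h2 : (1 : AlgebraicClosure F ≃+* AlgebraicClosure F) ξ =
      ξ ^ (((cyclotomicCharacter (AlgebraicClosure F) p 1 : ℤ_[p]ˣ) : ℤ_[p]).toZModPow n).val :=
    BKOdd.CycLAux.act n ξ hξ.pow_eq_one 1
  rw [map_one] at h2
  rw [← h1, ← h2, inert_root hlp j hg hξ.pow_eq_one]
  rfl

theorem cycF_eq {F : Type} [Field F] [CharZero F] {p : ℕ} [Fact p.Prime] {l : ℕ} [Fact l.Prime]
    (j : AlgebraicClosure F →+* PadicAlgCl l) (g : GF F) (t : GQ l)
    (h : ∀ x, j (g x) = t (j x)) : cycF p F g = cycL p l t := by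
  apply BKOdd.CycLAux.eq_of (Ω := AlgebraicClosure F)
  intro n ξ hξ
  apply j.injective
  have h1 : g ξ = ξ ^ (((cycF p F g : ℤ_[p]ˣ) : ℤ_[p]).toZModPow n).val :=
    BKOdd.CycLAux.act n ξ hξ.pow_eq_one (MulSemiringAction.toRingAut (GF F) (AlgebraicClosure F) g)
  have h2 : t (j ξ) = (j ξ) ^ (((cycL p l t : ℤ_[p]ˣ) : ℤ_[p]).toZModPow n).val :=
    BKOdd.CycLAux.act n (j ξ) (by rw [← map_pow, hξ.pow_eq_one, map_one])
      (MulSemiringAction.toRingAut (GQ l) (PadicAlgCl l) t)
  rw [← h1, h ξ, h2, map_pow]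

end FDESC

open FDESC BKOdd.Conj in
/-- Module DESC. -/
theorem stDescM : StDescM := by
  intro p _ hp2 F _ _ hF hR c σ hcs P hP
  have hcl : IsClosed (RS F P : Set (GF F)) := Subgroup.isClosed_topologicalClosure _
  have hcompact : CompactSpace (GS F P) := by
    change CompactSpace (GF F ⧸ RS F P)
    infer_instance
  have hcontχ : Continuous (cycF p F) := cyclotomicCharacter.continuous p F (AlgebraicClosure F)
  have hconj : Continuous (BKOdd.conj c σ hcs.h) := by
    rw [conj_eq]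
    exact continuous_conjO c σ hcs.h
  have hle : RS F P ≤ (RS F P).comap (BKOdd.conj c σ hcs.h) := by
    refine RS_le _ (hcl.preimage hconj) ?_
    rintro g ⟨l, hl', j, hl, hg⟩
    have h1 : BKOdd.conj c σ hcs.h g ∈ InertAway F P :=
      ⟨l, hl', j.comp (c.symm : AlgebraicClosure F →+* AlgebraicClosure F), hl,
        conjO_inert c σ hcs.h j g hg⟩
    exact Subgroup.le_topologicalClosure _ (Subgroup.subset_normalClosure h1)
  have hχ1 : ∀ r ∈ RS F P, cycF p F r = 1 := eq_one_of_RS _ hcontχ (cycF_inert hP)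
  refine ⟨hcompact, BKOdd.nonarch_quotient (RS F P), ?_, QuotientGroup.lift (RS F P) (cycF p F) hχ1,
    QuotientGroup.map (RS F P) (RS F P) (BKOdd.conj c σ hcs.h) hle, fun g => rfl, ?_,
    fun g => rfl, ?_, ?_, ?_, ?_, ?_⟩
  · have : IsClosed (RS F P : Set (GF F)) := hcl
    infer_instance
  · exact hcontχ.quotient_lift _
  · exact Continuous.quotient_lift
      (f := fun g : GF F => (QuotientGroup.mk (BKOdd.conj c σ hcs.h g) : GS F P))
      (continuous_quotient_mk'.comp hconj) _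
  · intro g
    obtain ⟨g, rfl⟩ := QuotientGroup.mk_surjective g
    change (QuotientGroup.mk (BKOdd.conj c σ hcs.h (BKOdd.conj c σ hcs.h g)) : GS F P) = _
    rw [conj_conj hcs.h hcs.hc]
  · intro g
    obtain ⟨g, rfl⟩ := QuotientGroup.mk_surjective g
    exact cyc_conj hcs.h p g
  · intro l _ j r hr t
    exact cycF_eq j _ t (hr t)
  · intro L _ n V hV hVI
    have hV1 : ∀ r ∈ RS F P, V r = 1 := by
      refine eq_one_of_RS V hV ?_
      rintro g ⟨l, hl', j, hl, hg⟩
      exact hVI l hl j g hg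
    refine ⟨QuotientGroup.lift (RS F P) V hV1, hV.quotient_lift _, fun g => rfl, ?_⟩
    intro x hx hx0
    obtain ⟨y, hyc, hy⟩ := BKOdd.exists_desc (RS F P) x hx.1 (fun g r hr => by
      rw [hx.2, hx0 r hr, Matrix.mulVec_zero, add_zero])
    refine ⟨y, ⟨hyc, fun g h => ?_⟩, hy⟩
    obtain ⟨g, rfl⟩ := QuotientGroup.mk_surjective g
    obtain ⟨h, rfl⟩ := QuotientGroup.mk_surjective h
    rw [← QuotientGroup.mk_mul, hy, hy, hy]
    exact hx.2 g h

end BKMet
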