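import Pool.Agent.Lib.MP_7c08ba_nt.Met.StX

set_option autoImplicit false

/-!
Metabolic parity, part X, module ALT: a finite module over a local ring with a nondegenerate
alternating form has order an even power of the order of the residue field.
-/

noncomputable section

namespace BKMet

namespace XALT

/-- The relative index of submodules. -/
abbrev ri {R V : Type} [CommRing R] [AddCommGroup V] [Module R V] (B Z : Submodule R V) : ℕ :=
  B.toAddSubgroup.relIndex Z.toAddSubgroup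

variable {R V : Type} [CommRing R] [IsLocalRing R] [AddCommGroup V] [Module R V]

omit [IsLocalRing R] in
theorem ri_mul {A B C : Submodule R V} (h : A ≤ B) (h' : B ≤ C) : ri A B * ri B C = ri A C :=
  AddSubgroup.relIndex_mul_relIndex _ _ _ (fun _ hx => h hx) (fun _ hx => h' hx)

omit [IsLocalRing R] in
theorem ri_one {A B : Submodule R V} (h : ri A B = 1) : B ≤ A := by
  have := AddSubgroup.relIndex_eq_one.mp h
  exact fun x hx => this hx

/-- An element `x ∈ Z`, `x ∉ B`, killed by the maximal ideal modulo `B`. -/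
theorem exists_x {B Z : Submodule R V} (hBZ : B ≤ Z) (h0 : ri B Z ≠ 0) (hZ : ¬ Z ≤ B) :
    ∃ x ∈ Z, x ∉ B ∧ ∀ a ∈ IsLocalRing.maximalIdeal R, a • x ∈ B := by
  classical
  have hex : ∃ n : ℕ, ∃ x ∈ Z, x ∉ B ∧ ri B (B ⊔ Submodule.span R {x}) = n := by
    obtain ⟨x, hx, hx'⟩ := Set.not_subset.mp hZ
    exact ⟨_, x, hx, hx', rfl⟩
  obtain ⟨x, hxZ, hxB, hx⟩ := Nat.find_spec hex
  refine ⟨x, hxZ, hxB, fun a ha => ?_⟩
  by_contra hax
  have haxZ : a • x ∈ Z := Z.smul_mem a hxZ
  have hmin : ri B (B ⊔ Submodule.span R {x}) ≤ ri B (B ⊔ Submodule.span R {a • x}) := by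
    rw [hx]; exact Nat.find_min' hex ⟨a • x, haxZ, hax, rfl⟩
  have hle : B ⊔ Submodule.span R {a • x} ≤ B ⊔ Submodule.span R {x} := by
    refine sup_le le_sup_left ((Submodule.span_singleton_le_iff_mem _ _).mpr ?_)
    exact Submodule.smul_mem _ a (Submodule.mem_sup_right (Submodule.mem_span_singleton_self x))
  have hleZ : B ⊔ Submodule.span R {x} ≤ Z :=
    sup_le hBZ ((Submodule.span_singleton_le_iff_mem _ _).mpr hxZ)
  have h1 := ri_mul (A := B) le_sup_left hle
  have h2 := ri_mul (A := B) le_sup_left hleZ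
  have hN : ri B (B ⊔ Submodule.span R {x}) ≠ 0 := fun h => h0 (by rw [← h2, h, zero_mul])
  have hN' : 0 < ri B (B ⊔ Submodule.span R {a • x}) := by
    rcases Nat.eq_zero_or_pos (ri B (B ⊔ Submodule.span R {a • x})) with h | h
    · rw [h, zero_mul] at h1; exact absurd h1.symm hN
    · exact h
  have h3 : ri (B ⊔ Submodule.span R {a • x}) (B ⊔ Submodule.span R {x}) = 1 := by
    have h4 : ri (B ⊔ Submodule.span R {a • x}) (B ⊔ Submodule.span R {x}) ≠ 0 := fun h => by
      rw [h, mul_zero] at h1; exact hN h1.symm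
    have h5 : ri B (B ⊔ Submodule.span R {a • x}) *
        ri (B ⊔ Submodule.span R {a • x}) (B ⊔ Submodule.span R {x}) ≤
        ri B (B ⊔ Submodule.span R {a • x}) * 1 := by rw [h1, mul_one]; exact hmin
    have h6 := Nat.le_of_mul_le_mul_left h5 hN'
    omega
  have h4 : x ∈ B ⊔ Submodule.span R {a • x} :=
    ri_one h3 (Submodule.mem_sup_right (Submodule.mem_span_singleton_self x))
  obtain ⟨b, hb, y, hy, hby⟩ := Submodule.mem_sup.mp h4
  obtain ⟨r, rfl⟩ := Submodule.mem_span_singleton.mp hy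
  have hu : IsUnit (1 - r * a) := by
    have hra : r * a ∈ IsLocalRing.maximalIdeal R := Ideal.mul_mem_left _ r ha
    by_contra hc
    have hc' : 1 - r * a ∈ IsLocalRing.maximalIdeal R :=
      (IsLocalRing.mem_maximalIdeal _).mpr hc
    have h1m : (1 : R) ∈ IsLocalRing.maximalIdeal R := by
      have := Ideal.add_mem _ hc' hra
      rwa [sub_add_cancel] at this
    exact (IsLocalRing.mem_maximalIdeal _).mp h1m isUnit_one
  have hmem : (1 - r * a) • x ∈ B := by
    have : (1 - r * a) • x = b := by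
      rw [sub_smul, one_smul, mul_smul]
      exact sub_eq_iff_eq_add.mpr hby.symm
    rw [this]; exact hb
  obtain ⟨u, hu⟩ := hu
  rw [← hu] at hmem
  apply hxB
  have := B.smul_mem ((u⁻¹ : Rˣ) : R) hmem
  rwa [← mul_smul, Units.inv_mul, one_smul] at this

/-- The relative index of `B` in `B + R x`, for `x` as above. -/
theorem ri_span {B : Submodule R V} {x : V} (hx : x ∉ B)
    (ha : ∀ a ∈ IsLocalRing.maximalIdeal R, a • x ∈ B) :
    ri B (B ⊔ Submodule.span R {x}) = Nat.card (IsLocalRing.ResidueField R) := by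
  have h1 : ri B (B ⊔ Submodule.span R {x}) = ri B (Submodule.span R {x}) := by
    unfold ri
    rw [Submodule.sup_toAddSubgroup, AddSubgroup.relIndex_sup_left]
  rw [h1]
  let f : R →ₗ[R] V := LinearMap.toSpanSingleton R V x
  have h2 : (Submodule.span R {x}).toAddSubgroup = f.toAddMonoidHom.range := by
    ext y
    constructor
    · intro hy
      obtain ⟨r, rfl⟩ := Submodule.mem_span_singleton.mp hy
      exact ⟨r, rfl⟩
    · rintro ⟨r, rfl⟩
      exact Submodule.mem_span_singleton.mpr ⟨r, rfl⟩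
  unfold ri
  rw [h2, ← AddSubgroup.index_comap]
  have h3 : AddSubgroup.comap f.toAddMonoidHom B.toAddSubgroup =
      (IsLocalRing.maximalIdeal R).toAddSubgroup := by
    ext r
    constructor
    · intro hr
      change r • x ∈ B at hr
      change r ∈ IsLocalRing.maximalIdeal R
      rw [IsLocalRing.mem_maximalIdeal]
      intro hu
      obtain ⟨u, rfl⟩ := hu
      apply hx
      have := B.smul_mem ((u⁻¹ : Rˣ) : R) hr
      rwa [← mul_smul, Units.inv_mul, one_smul] at this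
    · intro hr
      exact ha r hr
  rw [h3]
  rfl

theorem two_tor {p : ℕ} [Fact p.Prime] (hp : p ≠ 2) {y : QZ p} (h : y = -y) : y = 0 := by
  have hu : IsUnit (2 : ℤ_[p]) := by
    rw [PadicInt.isUnit_iff]
    have h2 : ‖((2 : ℕ) : ℤ_[p])‖ = 1 := by
      rw [PadicInt.norm_natCast_eq_one_iff]
      exact (Nat.coprime_primes (Fact.out) Nat.prime_two).mpr hp
    exact_mod_cast h2
  obtain ⟨u, hu⟩ := hu
  have h2 : (2 : ℤ_[p]) • y = 0 := by
    rw [two_smul]
    nth_rewrite 1 [h]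
    exact neg_add_cancel y
  rw [← hu] at h2
  have := congrArg (fun z => ((u⁻¹ : ℤ_[p]ˣ) : ℤ_[p]) • z) h2
  simp only [smul_zero] at this
  rwa [← mul_smul, Units.inv_mul, one_smul] at this

theorem key (hD : StDual) [Finite (IsLocalRing.ResidueField R)] {p : ℕ} [Fact p.Prime]
    (hp : p ≠ 2) (s : V → V → QZ p) (n : ℕ) : ∀ Z B : Submodule R V, B ≤ Z → ri B Z = n → n ≠ 0 →
    (∀ x ∈ Z, ∀ x' ∈ Z, ∀ y ∈ Z, s (x + x') y = s x y + s x' y) →
    (∀ x ∈ Z, ∀ y ∈ Z, ∀ a : R, s (a • x) y = s x (a • y)) →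
    (∀ x ∈ Z, ∀ y ∈ Z, s x y = - s y x) →
    (∀ x ∈ Z, x ∈ B ↔ ∀ y ∈ Z, s x y = 0) →
    ∃ m : ℕ, n = Nat.card (IsLocalRing.ResidueField R) ^ (2 * m) := by
  induction n using Nat.strong_induction_on with
  | _ n IH =>
  intro Z B hBZ hn hn0 hadd hlin halt hrad
  by_cases hZB : Z ≤ B
  · refine ⟨0, ?_⟩
    rw [← hn, mul_zero, pow_zero]
    exact AddSubgroup.relIndex_eq_one.mpr (fun _ hx => hZB hx)
  have hadd2 : ∀ x ∈ Z, ∀ y ∈ Z, ∀ y' ∈ Z, s x (y + y') = s x y + s x y' := by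
    intro x hx y hy y' hy'
    rw [halt x hx _ (Z.add_mem hy hy'), hadd y hy y' hy' x hx, halt x hx y hy, halt x hx y' hy',
      neg_add]
  have hneg1 : ∀ x ∈ Z, ∀ y ∈ Z, s (-x) y = - s x y := by
    intro x hx y hy
    have h0 : s (0 + 0) y = s 0 y + s 0 y := hadd 0 Z.zero_mem 0 Z.zero_mem y hy
    have h0' : s 0 y = 0 := by rw [add_zero] at h0; exact left_eq_add.mp h0
    have h1 := hadd x hx (-x) (Z.neg_mem hx) y hy
    rw [add_neg_cancel, h0'] at h1
    exact (neg_eq_of_add_eq_zero_right h1.symm).symm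
  have hzero2 : ∀ x ∈ Z, ∀ b ∈ B, s x b = 0 := by
    intro x hx b hb
    rw [halt x hx b (hBZ hb), (hrad b (hBZ hb)).mp hb x hx, neg_zero]
  obtain ⟨x, hxZ, hxB, hax⟩ := exists_x hBZ (by rw [hn]; exact hn0) hZB
  set q := Nat.card (IsLocalRing.ResidueField R) with hq
  set N : Submodule R V := B ⊔ Submodule.span R {x} with hN
  have hBN : B ≤ N := le_sup_left
  have hNZ : N ≤ Z := sup_le hBZ ((Submodule.span_singleton_le_iff_mem _ _).mpr hxZ)
  have hriN : ri B N = q := ri_span hxB hax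
  have hxx : ∀ c : R, s x (c • x) = 0 := by
    intro c
    apply two_tor hp
    have h1 := hlin x hxZ x hxZ c
    have h2 := halt x hxZ (c • x) (Z.smul_mem c hxZ)
    rw [h1] at h2
    exact h2
  have hiso : ∀ u ∈ N, ∀ v ∈ N, s u v = 0 := by
    intro u hu v hv
    obtain ⟨b, hb, y, hy, rfl⟩ := Submodule.mem_sup.mp hu
    obtain ⟨a, rfl⟩ := Submodule.mem_span_singleton.mp hy
    obtain ⟨b', hb', y', hy', rfl⟩ := Submodule.mem_sup.mp hv
    obtain ⟨a', rfl⟩ := Submodule.mem_span_singleton.mp hy'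
    have hbZ := hBZ hb
    have hb'Z := hBZ hb'
    have haxZ : a • x ∈ Z := Z.smul_mem a hxZ
    have ha'xZ : a' • x ∈ Z := Z.smul_mem a' hxZ
    rw [hadd b hbZ (a • x) haxZ _ (Z.add_mem hb'Z ha'xZ), (hrad b hbZ).mp hb _
      (Z.add_mem hb'Z ha'xZ), hadd2 _ haxZ b' hb'Z _ ha'xZ, hzero2 _ haxZ b' hb',
      hlin x hxZ _ ha'xZ a, ← mul_smul, hxx, add_zero, add_zero]
  let N' : Submodule R V :=
    { carrier := {z | z ∈ Z ∧ ∀ u ∈ N, s z u = 0}
      add_mem' := by
        rintro z z' ⟨hz, hz1⟩ ⟨hz', hz1'⟩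
        refine ⟨Z.add_mem hz hz', fun u hu => ?_⟩
        rw [hadd z hz z' hz' u (hNZ hu), hz1 u hu, hz1' u hu, add_zero]
      zero_mem' := ⟨Z.zero_mem, fun u hu => (hrad 0 Z.zero_mem).mp B.zero_mem u (hNZ hu)⟩
      smul_mem' := by
        rintro a z ⟨hz, hz1⟩
        refine ⟨Z.smul_mem a hz, fun u hu => ?_⟩
        rw [hlin z hz u (hNZ hu) a]
        exact hz1 _ (N.smul_mem a hu) }
  have hN'mem : ∀ z, z ∈ N' ↔ z ∈ Z ∧ ∀ u ∈ N, s z u = 0 := fun z => Iff.rfl
  have hN'Z : N' ≤ Z := fun z hz => ((hN'mem z).mp hz).1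
  have hNN' : N ≤ N' := fun u hu => (hN'mem u).mpr ⟨hNZ hu, fun v hv => hiso u hu v hv⟩
  have hm1 : ri B N * ri N N' = ri B N' := ri_mul hBN hNN'
  have hm2 : ri B N' * ri N' Z = ri B Z := ri_mul (hBN.trans hNN') hN'Z
  have hX1 : ri N' Z ≠ 0 := fun h => by
    rw [h, mul_zero, hn] at hm2; exact hn0 hm2.symm
  obtain ⟨hc, hd⟩ := hD p V V s Z.toAddSubgroup N'.toAddSubgroup N.toAddSubgroup B.toAddSubgroup
    (fun x hx x' hx' y hy => hadd x hx x' hx' y (hNZ hy))
    (fun x hx y hy y' hy' => hadd2 x hx y (hNZ hy) y' (hNZ hy'))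
    (fun z hz => hN'Z hz) (fun z hz => hBN hz)
    (fun z hz => ⟨fun h => ((hN'mem z).mp h).2, fun h => (hN'mem z).mpr ⟨hz, h⟩⟩)
    (fun y hy => by
      constructor
      · intro hyB z hz
        exact hzero2 z hz y hyB
      · intro h
        refine (hrad y (hNZ hy)).mpr (fun z hz => ?_)
        rw [halt y (hNZ hy) z hz, h z hz, neg_zero])
    hX1
  have hc' : ri N' Z = q := by rw [← hriN]; exact hc.symm
  have hq2 : 1 < q := by
    rw [hq]; exact Finite.one_lt_card
  have hnn : n = q * ri N N' * q := by rw [← hn, ← hm2, ← hm1, hriN, hc']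
  have hr0 : ri N N' ≠ 0 := fun h => by rw [h] at hnn; exact hn0 (by rw [hnn]; ring)
  have hlt : ri N N' < n := by
    rw [hnn]
    have hpos : 0 < ri N N' := Nat.pos_of_ne_zero hr0
    calc ri N N' = 1 * ri N N' * 1 := by ring
      _ < q * ri N N' * q := by
        apply Nat.mul_lt_mul_of_lt_of_le
        · exact Nat.mul_lt_mul_of_pos_right hq2 hpos
        · exact hq2.le
        · omega
  obtain ⟨m, hm⟩ := IH (ri N N') hlt N' N hNN' rfl hr0
    (fun x hx x' hx' y hy => hadd x (hN'Z hx) x' (hN'Z hx') y (hN'Z hy))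
    (fun x hx y hy a => hlin x (hN'Z hx) y (hN'Z hy) a)
    (fun x hx y hy => halt x (hN'Z hx) y (hN'Z hy))
    (fun z hz => by
      constructor
      · intro hzN y hy
        rw [halt z (hN'Z hz) y (hN'Z hy), ((hN'mem y).mp hy).2 z hzN, neg_zero]
      · intro h
        obtain ⟨y, hy, hy'⟩ := hd (fun v => s v z)
          (fun v hv v' hv' => hadd v hv v' hv' z (hN'Z hz))
          (fun v hv => by
            rw [halt v (hN'Z hv) z (hN'Z hz), h v hv, neg_zero])
        have hyZ := hNZ hy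
        have hzy : z + -y ∈ B := by
          refine (hrad _ (Z.add_mem (hN'Z hz) (Z.neg_mem hyZ))).mpr (fun w hw => ?_)
          have h1 : s w z = s w y := hy' w hw
          rw [hadd z (hN'Z hz) (-y) (Z.neg_mem hyZ) w hw, hneg1 y hyZ w hw,
            halt z (hN'Z hz) w hw, halt y hyZ w hw, h1]
          simp
        have : z = (z + -y) + y := by abel
        rw [this]
        exact N.add_mem (hBN hzy) hy)
  refine ⟨m + 1, ?_⟩
  rw [hnn, hm]
  ring

end XALT

/-- Module ALT. -/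
theorem stAlt (h : StDual) : StAlt := by
  intro R _ _ _ p _ hp V _ _ Z B s hBZ h0 hadd hlin halt hrad
  exact XALT.key h hp s _ Z B hBZ rfl h0 hadd hlin halt hrad

end BKMet
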