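import Pool.Agent.Lib.MP_7c08ba_nt.Met.StX

set_option autoImplicit false
set_option linter.unusedSectionVars false

/-!
Metabolic parity, part X, module ANN: global duality for one dimensional modules.
-/

noncomputable section

namespace BKMet

open BKPar (Loc1 Loc2)
open BKND (Sm)

namespace XANN

/-! ### Abstract duality -/

section Dual

variable {p : ℕ} [Fact p.Prime] {V W : Type} [AddCommGroup V] [AddCommGroup W]

/-- left annihilator of `C` in `Z` -/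
def annL (B : V →+ W →+ QZ p) (Z : AddSubgroup V) (C : AddSubgroup W) : AddSubgroup V where
  carrier := {x | x ∈ Z ∧ ∀ y ∈ C, B x y = 0}
  add_mem' := by
    rintro x x' ⟨h1, h2⟩ ⟨h3, h4⟩
    refine ⟨Z.add_mem h1 h3, fun y hy => ?_⟩
    rw [map_add, AddMonoidHom.add_apply, h2 y hy, h4 y hy, add_zero]
  zero_mem' := ⟨Z.zero_mem, fun y _ => by rw [map_zero, AddMonoidHom.zero_apply]⟩
  neg_mem' := by
    rintro x ⟨h1, h2⟩
    refine ⟨Z.neg_mem h1, fun y hy => ?_⟩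
    rw [map_neg, AddMonoidHom.neg_apply, h2 y hy, neg_zero]

theorem mem_annL {B : V →+ W →+ QZ p} {Z : AddSubgroup V} {C : AddSubgroup W} {x : V} :
    x ∈ annL B Z C ↔ x ∈ Z ∧ ∀ y ∈ C, B x y = 0 := Iff.rfl

/-- the situation: subgroups `b ≤ Z`, `b' ≤ Z'`, and the pairing of `Z / b` and `Z' / b'` is
nondegenerate. -/
structure Nd (B : V →+ W →+ QZ p) (Z b : AddSubgroup V) (Z' b' : AddSubgroup W) : Prop where
  le : b ≤ Z
  le' : b' ≤ Z'
  left : ∀ x ∈ Z, x ∈ b ↔ ∀ y ∈ Z', B x y = 0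
  right : ∀ y ∈ Z', y ∈ b' ↔ ∀ x ∈ Z, B x y = 0
  fin : b.relIndex Z ≠ 0

variable {B : V →+ W →+ QZ p} {Z b : AddSubgroup V} {Z' b' : AddSubgroup W}

theorem le_annL (h : Nd B Z b Z' b') {C : AddSubgroup W} (hC : C ≤ Z') : b ≤ annL B Z C :=
  fun x hx => ⟨h.le hx, fun y hy => (h.left x (h.le hx)).1 hx y (hC hy)⟩

theorem annL_le {C : AddSubgroup W} : annL B Z C ≤ Z := fun _ hx => hx.1

/-- the index of the annihilator -/
theorem index_annL (hD : StDual) (h : Nd B Z b Z' b') {C : AddSubgroup W} (h1 : b' ≤ C)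
    (h2 : C ≤ Z') : b'.relIndex C = (annL B Z C).relIndex Z := by
  refine (hD p V W (fun x y => B x y) Z (annL B Z C) C b' ?_ ?_ annL_le h1 ?_ ?_ ?_).1
  · intro x _ x' _ y _
    rw [map_add, AddMonoidHom.add_apply]
  · intro x _ y _ y' _
    exact map_add _ _ _
  · intro x hx
    exact ⟨fun h' => h'.2, fun h' => ⟨hx, h'⟩⟩
  · intro y hy
    exact h.right y (h2 hy)
  · intro h0
    have h3 : (annL B Z C).relIndex Z ∣ b.relIndex Z := by
      rw [← AddSubgroup.relIndex_mul_relIndex b (annL B Z C) Z (le_annL h h2) annL_le]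
      exact dvd_mul_left _ _
    rw [h0, zero_dvd_iff] at h3
    exact h.fin h3

theorem Nd.flip (hD : StDual) (h : Nd B Z b Z' b') : Nd B.flip Z' b' Z b where
  le := h.le'
  le' := h.le
  left := fun y hy => h.right y hy
  right := fun x hx => h.left x hx
  fin := by
    rw [index_annL hD h h.le' le_rfl]
    have e : annL B Z Z' = b := by
      ext x
      rw [mem_annL]
      exact ⟨fun h' => (h.left x h'.1).2 h'.2, fun h' => ⟨h.le h', (h.left x (h.le h')).1 h'⟩⟩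
    rw [e]
    exact h.fin

/-- the double annihilator -/
theorem annL_annR (hD : StDual) (h : Nd B Z b Z' b') {A : AddSubgroup V} (h1 : b ≤ A)
    (h2 : A ≤ Z) : annL B Z (annL B.flip Z' A) = A := by
  have h' := h.flip hD
  have hle : A ≤ annL B Z (annL B.flip Z' A) := fun x hx => ⟨h2 hx, fun y hy => hy.2 x hx⟩
  have e1 : annL B.flip Z' (annL B Z (annL B.flip Z' A)) = annL B.flip Z' A := by
    apply le_antisymm
    · exact fun y hy => ⟨hy.1, fun x hx => hy.2 x (hle hx)⟩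
    · exact fun y hy => ⟨hy.1, fun x hx => hx.2 y hy⟩
  have e2 := index_annL hD h' h1 h2
  have e3 := index_annL hD h' (h1.trans hle) annL_le
  rw [e1, ← e2] at e3
  have e4 := AddSubgroup.relIndex_mul_relIndex b A (annL B Z (annL B.flip Z' A)) h1 hle
  rw [e3] at e4
  have hne : b.relIndex A ≠ 0 := by
    intro h0
    have h3 : b.relIndex A ∣ b.relIndex Z := by
      rw [← AddSubgroup.relIndex_mul_relIndex b A Z h1 h2]
      exact dvd_mul_right _ _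
    rw [h0, zero_dvd_iff] at h3
    exact h.fin h3
  have e5 : A.relIndex (annL B Z (annL B.flip Z' A)) = 1 :=
    Nat.eq_of_mul_eq_mul_left (Nat.pos_of_ne_zero hne) (by rw [e4, mul_one])
  exact le_antisymm (AddSubgroup.relIndex_eq_one.1 e5) hle

/-- Two orthogonal subgroups with the right indices are the exact annihilators of each other. -/
theorem annL_eq (hD : StDual) (h : Nd B Z b Z' b') {A : AddSubgroup V} {C : AddSubgroup W}
    (h1 : b ≤ A) (h2 : A ≤ Z) (h3 : b' ≤ C) (h4 : C ≤ Z') (h5 : ∀ x ∈ A, ∀ y ∈ C, B x y = 0)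
    (h6 : b.relIndex A * b'.relIndex C = b.relIndex Z) : annL B Z C = A := by
  have hle : A ≤ annL B Z C := fun x hx => ⟨h2 hx, fun y hy => h5 x hx y hy⟩
  have e1 := index_annL hD h h3 h4
  have e2 := AddSubgroup.relIndex_mul_relIndex b A (annL B Z C) h1 hle
  have e3 := AddSubgroup.relIndex_mul_relIndex b (annL B Z C) Z (h1.trans hle) annL_le
  have hne : b.relIndex A * b'.relIndex C ≠ 0 := by
    rw [h6]
    exact h.fin
  have e5 : A.relIndex (annL B Z C) = 1 := by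
    apply Nat.eq_of_mul_eq_mul_left (Nat.pos_of_ne_zero hne)
    rw [mul_one]
    nth_rw 2 [h6]
    rw [← e3, ← e2, e1]
    ring
  exact le_antisymm (AddSubgroup.relIndex_eq_one.1 e5) hle

/-- annihilator of a sum -/
theorem annL_sup {C C' : AddSubgroup W} : annL B Z (C ⊔ C') = annL B Z C ⊓ annL B Z C' := by
  apply le_antisymm
  · exact fun x hx => ⟨⟨hx.1, fun y hy => hx.2 y (AddSubgroup.mem_sup_left hy)⟩,
      ⟨hx.1, fun y hy => hx.2 y (AddSubgroup.mem_sup_right hy)⟩⟩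
  · rintro x ⟨hx, hx'⟩
    refine ⟨hx.1, fun y hy => ?_⟩
    obtain ⟨c, hc, c', hc', rfl⟩ := AddSubgroup.mem_sup.1 hy
    rw [map_add, hx.2 c hc, hx'.2 c' hc', add_zero]

end Dual

/-! ### Cochains -/

section Mod

variable {G : Type} [Group G] {M : Type} [AddCommGroup M] (ρ : G →* AddMonoid.End M)

/-- the number of coboundaries -/
theorem card_B1 [Finite M] : Nat.card (BKND.B1 ρ) * Nat.card (BKND.H0 ρ) = Nat.card M := by
  let f : M →+ (G → M) :=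
    { toFun := fun m g => ρ g m - m
      map_zero' := by
        funext g
        simp
      map_add' := fun m n => by
        funext g
        simp only [map_add, Pi.add_apply]
        abel }
  have e1 : BKND.B1 ρ = f.range := by
    ext x
    constructor
    · rintro ⟨m, hm⟩
      exact ⟨m, (funext hm).symm⟩
    · rintro ⟨m, rfl⟩
      exact ⟨m, fun g => rfl⟩
  have e2 : BKND.H0 ρ = f.ker := by
    ext x
    rw [AddMonoidHom.mem_ker]
    constructor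
    · intro h
      funext g
      exact sub_eq_zero.2 (h g)
    · intro h g
      exact sub_eq_zero.1 (congrFun h g)
  rw [e1, e2, ← AddSubgroup.index_ker, AddSubgroup.index_mul_card]

theorem B1_le [TopologicalSpace G] (h : Sm ρ) : BKND.B1 ρ ≤ BKND.Z1 ρ := by
  rintro f ⟨m, hm⟩
  obtain ⟨W, hW, hW'⟩ := h
  refine ⟨⟨W, hW, fun g w hw => ?_⟩, fun g g' => ?_⟩
  · rw [hm, hm, map_mul, hW' w hw, mul_one]
  · rw [hm, hm, hm, map_mul, map_sub]
    change ρ g (ρ g' m) - m = _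
    abel

theorem finite_H0 [Finite M] : Finite (BKND.H0 ρ) := inferInstance

theorem finite_B1 [Finite M] : Finite (BKND.B1 ρ) := by
  have : (BKND.B1 ρ : Set (G → M)) = Set.range fun (m : M) (g : G) => ρ g m - m := by
    ext x
    exact ⟨fun ⟨m, hm⟩ => ⟨m, (funext hm).symm⟩, fun ⟨m, hm⟩ => ⟨m, fun g => congrFun hm.symm g⟩⟩
  have h : (BKND.B1 ρ : Set (G → M)).Finite := by
    rw [this]
    exact Set.finite_range _
  exact h

end Mod

section Cup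

variable {p : ℕ} [Fact p.Prime] {G : Type} [Group G] [TopologicalSpace G] {k : Type} [Field k]
  [Algebra (ZMod p) k]

theorem smul_lam (a : ℤ_[p]) (lam : k →+ QZ p) (x : k) :
    a • lam x = lam (algebraMap (ZMod p) k (PadicInt.toZMod a) * x) := by
  have h1 : a - ((PadicInt.toZMod a).val : ℤ_[p]) ∈ RingHom.ker (PadicInt.toZMod (p := p)) := by
    rw [RingHom.mem_ker, map_sub, map_natCast, ZMod.natCast_zmod_val, sub_self]
  rw [PadicInt.ker_toZMod, PadicInt.maximalIdeal_eq_span_p, Ideal.mem_span_singleton] at h1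
  obtain ⟨y, hy⟩ := h1
  have h2 : a = ((PadicInt.toZMod a).val : ℤ_[p]) + y * p := by
    rw [mul_comm y, ← hy]
    ring
  have h3 : (p : ℤ_[p]) • lam x = 0 := by
    rw [Nat.cast_smul_eq_nsmul, ← map_nsmul]
    have h4 : p • x = 0 := by
      have h5 : ((p : ℕ) : k) = 0 := by
        have h6 : algebraMap (ZMod p) k ((p : ℕ) : ZMod p) = 0 := by
          rw [CharP.cast_eq_zero, map_zero]
        rwa [map_natCast] at h6
      rw [nsmul_eq_mul, h5, zero_mul]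
    rw [h4, map_zero]
  have h4 : algebraMap (ZMod p) k (PadicInt.toZMod a) = ((PadicInt.toZMod a).val : k) := by
    conv_lhs => rw [← ZMod.natCast_zmod_val (PadicInt.toZMod a)]
    rw [map_natCast]
  conv_lhs => rw [h2]
  rw [add_smul, mul_smul, h3, smul_zero, add_zero, Nat.cast_smul_eq_nsmul, ← map_nsmul,
    nsmul_eq_mul, h4]

theorem actA_lam {χ : G →* ℤ_[p]ˣ} {ψ ψ' : G →* kˣ} (h : Rel χ ψ ψ') (lam : k →+ QZ p) (g : G)
    (x : k) : actA χ g (lam x) =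
      lam (((ψ g : kˣ) : k) * ((ψ' g : kˣ) : k) * x) := by
  rw [actA_apply, smul_lam, h g]

theorem mem_Z1 {ψ : G →* kˣ} {f : G → k} : f ∈ BKND.Z1 (kch ψ) ↔
    Loc1 f ∧ ∀ g h, f (g * h) = f g + ((ψ g : kˣ) : k) * f h := Iff.rfl

theorem mem_B1 {ψ : G →* kˣ} {f : G → k} : f ∈ BKND.B1 (kch ψ) ↔
    ∃ m, ∀ g, f g = ((ψ g : kˣ) : k) * m - m := Iff.rfl

theorem rsymm {χ : G →* ℤ_[p]ˣ} {ψ ψ' : G →* kˣ} (h : Rel χ ψ ψ') : Rel χ ψ' ψ := by
  intro g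
  rw [mul_comm]
  exact h g

theorem rcomp {χ : G →* ℤ_[p]ˣ} {ψ ψ' : G →* kˣ} (h : Rel χ ψ ψ') {D : Type} [Group D]
    (r : D →* G) : Rel (χ.comp r) (ψ.comp r) (ψ'.comp r) := fun d => h (r d)

theorem sm_kch {ψ : G →* kˣ} (U : Subgroup G) (hU : IsOpen (U : Set G)) (h : ∀ u ∈ U, ψ u = 1) :
    Sm (kch ψ) := by
  refine ⟨U, hU, fun u hu => ?_⟩
  apply DFunLike.ext
  intro x
  rw [kch_apply, h u hu, Units.val_one, one_mul]
  rfl

theorem Loc1_psi {ψ : G →* kˣ} (h : Sm (kch ψ)) : Loc1 fun g => ((ψ g : kˣ) : k) := by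
  obtain ⟨W, hW, h1⟩ := h
  refine ⟨W, hW, fun g w hw => ?_⟩
  have h2 : kch ψ w (1 : k) = 1 := by
    rw [h1 w hw]
    rfl
  rw [kch_apply, mul_one] at h2
  change ((ψ (g * w) : kˣ) : k) = ((ψ g : kˣ) : k)
  rw [map_mul, Units.val_mul, h2, mul_one]

theorem cup_Z2 {χ : G →* ℤ_[p]ˣ} {ψ ψ' : G →* kˣ} (h : Rel χ ψ ψ') (h' : Sm (kch ψ'))
    (lam : k →+ QZ p) {b e : G → k} (hb : b ∈ BKND.Z1 (kch ψ)) (he : e ∈ BKND.Z1 (kch ψ')) :
    cupk ψ' lam b e ∈ BKND.Z2 (actA χ) := by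
  rw [mem_Z1] at hb he
  refine ⟨?_, fun g g' g'' => ?_⟩
  · obtain ⟨W1, hW1, h1⟩ := hb.1
    obtain ⟨W2, hW2, h2⟩ := he.1
    obtain ⟨W3, hW3, h3⟩ := Loc1_psi h'
    refine ⟨W1 ⊓ W2 ⊓ W3, ?_, fun g g' w hw w' hw' => ?_⟩
    · rw [Subgroup.coe_inf, Subgroup.coe_inf]
      exact (hW1.inter hW2).inter hW3
    · change lam _ = lam _
      have e3 : ((ψ' (g * w) : kˣ) : k) = ((ψ' g : kˣ) : k) := h3 g w hw.2
      rw [h1 g w hw.1.1, e3, h2 g' w' hw'.1.2]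
  · change actA χ g (lam _) - lam _ + lam _ - lam _ = 0
    have e1 : ((ψ' (g * g') : kˣ) : k) = ((ψ' g : kˣ) : k) * ((ψ' g' : kˣ) : k) := by
      rw [map_mul, Units.val_mul]
    rw [actA_lam h, ← map_sub, ← map_add, ← map_sub, hb.2, he.2, e1]
    convert map_zero lam using 2
    ring

theorem cup_B1_right {χ : G →* ℤ_[p]ˣ} {ψ ψ' : G →* kˣ} (h : Rel χ ψ ψ') (h' : Sm (kch ψ'))
    (lam : k →+ QZ p) {b e : G → k} (hb : b ∈ BKND.Z1 (kch ψ)) (he : e ∈ BKND.B1 (kch ψ')) :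
    cupk ψ' lam b e ∈ BKND.B2 (actA χ) := by
  rw [mem_Z1] at hb
  rw [mem_B1] at he
  obtain ⟨m, hm⟩ := he
  refine ⟨fun g => lam (-(b g * (((ψ' g : kˣ) : k) * m))),
    BKND.Loc1.map2 hb.1 (Loc1_psi h') fun x y => lam (-(x * (y * m))), fun g g' => ?_⟩
  change lam _ = actA χ g (lam _) - lam _ + lam _
  have e1 : ((ψ' (g * g') : kˣ) : k) = ((ψ' g : kˣ) : k) * ((ψ' g' : kˣ) : k) := by
    rw [map_mul, Units.val_mul]
  rw [actA_lam h, ← map_sub, ← map_add, hb.2, hm, e1]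
  congr 1
  ring

theorem cup_anti {χ : G →* ℤ_[p]ˣ} {ψ ψ' : G →* kˣ} (h : Rel χ ψ ψ')
    (lam : k →+ QZ p) {b e : G → k} (hb : b ∈ BKND.Z1 (kch ψ)) (he : e ∈ BKND.Z1 (kch ψ')) :
    cupk ψ' lam b e + cupk ψ lam e b ∈ BKND.B2 (actA χ) := by
  rw [mem_Z1] at hb he
  refine ⟨fun g => lam (-(b g * e g)), BKND.Loc1.map2 hb.1 he.1 fun x y => lam (-(x * y)),
    fun g g' => ?_⟩
  change lam _ + lam _ = actA χ g (lam _) - lam _ + lam _
  rw [actA_lam h, ← map_add, ← map_sub, ← map_add, hb.2, he.2]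
  congr 1
  ring

/-- the cup product as a biadditive map -/
def cupHom (ψ' : G →* kˣ) (lam : k →+ QZ p) : (G → k) →+ (G → k) →+ (G → G → QZ p) :=
  AddMonoidHom.mk' (fun x => AddMonoidHom.mk' (fun y => cupk ψ' lam x y) fun y y' => by
      funext g h
      change lam _ = lam _ + lam _
      rw [← map_add, Pi.add_apply]
      congr 1
      ring) fun x x' => by
    ext y g h
    change lam _ = lam _ + lam _
    rw [← map_add, Pi.add_apply]
    congr 1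
    ring

theorem cupHom_apply (ψ' : G →* kˣ) (lam : k →+ QZ p) (x y : G → k) :
    cupHom ψ' lam x y = cupk ψ' lam x y := rfl

end Cup

/-! ### Families of local cocycles -/

section Fam

variable {S : Type} {G : Type} [Group G] [TopologicalSpace G] {D : S → Type}
  [∀ w, Group (D w)] [∀ w, TopologicalSpace (D w)] {k : Type} [Field k]

open Classical in
/-- families of local cocycles which are coboundaries at the places in `T` -/
def Pt (r : ∀ w, D w →* G) (ψ : G →* kˣ) (T : Set S) : AddSubgroup (∀ w, D w → k) :=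
  AddSubgroup.pi Set.univ fun w =>
    if w ∈ T then BKND.B1 (kch (ψ.comp (r w))) else BKND.Z1 (kch (ψ.comp (r w)))

/-- restriction to the local groups -/
def locm (r : ∀ w, D w →* G) : (G → k) →+ (∀ w, D w → k) where
  toFun η w := pb1 (r w) η
  map_zero' := rfl
  map_add' _ _ := rfl

variable {r : ∀ w, D w →* G} {ψ : G →* kˣ}

theorem mem_Pt (h : ∀ w, Sm (kch (ψ.comp (r w)))) {T : Set S} {b : ∀ w, D w → k} :
    b ∈ Pt r ψ T ↔ (∀ w, b w ∈ BKND.Z1 (kch (ψ.comp (r w)))) ∧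
      ∀ w ∈ T, b w ∈ BKND.B1 (kch (ψ.comp (r w))) := by
  rw [Pt, AddSubgroup.mem_pi]
  constructor
  · intro h1
    refine ⟨fun w => ?_, fun w hw => ?_⟩
    · have h2 := h1 w (Set.mem_univ _)
      split_ifs at h2 with hw
      · exact B1_le _ (h w) h2
      · exact h2
    · have h2 := h1 w (Set.mem_univ _)
      rwa [if_pos hw] at h2
  · rintro ⟨h1, h2⟩ w _
    split_ifs with hw
    · exact h2 w hw
    · exact h1 w

theorem card_Pt [Fintype S] (T : Set S) : Nat.card (Pt r ψ T) = ∏ w, (open Classical in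
    if w ∈ T then Nat.card (BKND.B1 (kch (ψ.comp (r w)))) else
      Nat.card (BKND.Z1 (kch (ψ.comp (r w))))) := by
  classical
  have e : Nat.card (Pt r ψ T) = Nat.card (∀ w, (if w ∈ T then BKND.B1 (kch (ψ.comp (r w)))
      else BKND.Z1 (kch (ψ.comp (r w))) : AddSubgroup (D w → k))) := by
    refine Nat.card_congr ⟨fun x w => ⟨x.1 w, x.2 w (Set.mem_univ _)⟩,
      fun y => ⟨fun w => (y w).1, fun w _ => (y w).2⟩, fun x => rfl, fun y => rfl⟩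
  rw [e, Nat.card_pi]
  refine Finset.prod_congr rfl fun w _ => ?_
  split_ifs with hw <;> rfl

theorem pb1_Z1 {D' : Type} [Group D'] [TopologicalSpace D'] (r' : D' →* G)
    (hr : Continuous r') {f : G → k} (hf : f ∈ BKND.Z1 (kch ψ)) :
    pb1 r' f ∈ BKND.Z1 (kch (ψ.comp r')) := by
  obtain ⟨⟨W, hW, h1⟩, h2⟩ := hf
  refine ⟨⟨W.comap r', hW.preimage hr, fun d w hw => ?_⟩, fun d d' => ?_⟩
  · change f (r' (d * w)) = f (r' d)
    rw [map_mul]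
    exact h1 _ _ hw
  · change f (r' (d * d')) = f (r' d) + _
    rw [map_mul, h2]
    rfl

theorem pb1_B1 {D' : Type} [Group D'] (r' : D' →* G) {f : G → k}
    (hf : f ∈ BKND.B1 (kch ψ)) : pb1 r' f ∈ BKND.B1 (kch (ψ.comp r')) := by
  obtain ⟨m, hm⟩ := hf
  exact ⟨m, fun d => hm (r' d)⟩

theorem sm_comp {D' : Type} [Group D'] [TopologicalSpace D'] (r' : D' →* G)
    (hr : Continuous r') (h : Sm (kch ψ)) : Sm (kch (ψ.comp r')) := by
  obtain ⟨W, hW, h1⟩ := h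
  refine ⟨W.comap r', hW.preimage hr, fun w hw => ?_⟩
  have h2 := h1 _ hw
  exact h2

end Fam

/-! ### The global situation -/

section Main

variable {p : ℕ} [Fact p.Prime] {S : Type} [Fintype S] {G : Type} [Group G] [TopologicalSpace G]
  [IsTopologicalGroup G] [CompactSpace G] {D : S → Type} [∀ w, Group (D w)]
  [∀ w, TopologicalSpace (D w)] [∀ w, IsTopologicalGroup (D w)] [∀ w, CompactSpace (D w)]
  {Γ : Glo S G D (QZ p) (QZ p)} {χ : G →* ℤ_[p]ˣ} {U : Subgroup G} {δ : S → ℕ}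
  {k : Type} [Field k] [Finite k] [Algebra (ZMod p) k] {ψ ψ' : G →* kˣ} {lam : k →+ QZ p}

/-- the sum of the local pairings -/
def pr (Γ : Glo S G D (QZ p) (QZ p)) (ψ' : G →* kˣ) (lam : k →+ QZ p) :
    (∀ w, D w → k) →+ (∀ w, D w → k) →+ QZ p :=
  AddMonoidHom.mk' (fun x => AddMonoidHom.mk' (fun y =>
      ∑ w, Γ.inv w (cupHom (ψ'.comp (Γ.r w)) lam (x w) (y w))) fun y y' => by
        rw [← Finset.sum_add_distrib]
        refine Finset.sum_congr rfl fun w _ => ?_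
        rw [Pi.add_apply, map_add, map_add]) fun x x' => by
      ext y
      rw [AddMonoidHom.add_apply]
      change ∑ w, _ = ∑ w, _ + ∑ w, _
      rw [← Finset.sum_add_distrib]
      refine Finset.sum_congr rfl fun w _ => ?_
      rw [Pi.add_apply, map_add, AddMonoidHom.add_apply, map_add]

theorem pr_apply (x y : ∀ w, D w → k) : pr Γ ψ' lam x y =
    ∑ w, Γ.inv w (cupk (ψ'.comp (Γ.r w)) lam (x w) (y w)) := rfl

theorem smw (hG : GAx p Γ χ U δ) (hψ : ∀ u ∈ U, ψ u = 1) (w : S) :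
    Sm (kch (ψ.comp (Γ.r w))) := sm_comp _ (Γ.cont w) (sm_kch U hG.open' hψ)

theorem inv_anti (hG : GAx p Γ χ U δ) (hψ : ∀ u ∈ U, ψ u = 1) (hψ' : ∀ u ∈ U, ψ' u = 1)
    (hR : Rel χ ψ ψ') (w : S) {b e : D w → k} (hb : b ∈ BKND.Z1 (kch (ψ.comp (Γ.r w))))
    (he : e ∈ BKND.Z1 (kch (ψ'.comp (Γ.r w)))) :
    Γ.inv w (cupk (ψ'.comp (Γ.r w)) lam b e) = -Γ.inv w (cupk (ψ.comp (Γ.r w)) lam e b) := by
  rw [eq_neg_iff_add_eq_zero, ← map_add]
  refine ((hG.loc w).inv_eq _ (AddSubgroup.add_mem _ ?_ ?_)).2 ?_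
  · exact cup_Z2 (rcomp hR (Γ.r w)) (smw hG hψ' w) lam hb he
  · exact cup_Z2 (rcomp (rsymm hR) (Γ.r w)) (smw hG hψ w) lam he hb
  · exact cup_anti (rcomp hR (Γ.r w)) lam hb he

theorem inv_right (hG : GAx p Γ χ U δ) (hψ' : ∀ u ∈ U, ψ' u = 1)
    (hR : Rel χ ψ ψ') (w : S) {b e : D w → k} (hb : b ∈ BKND.Z1 (kch (ψ.comp (Γ.r w))))
    (he : e ∈ BKND.B1 (kch (ψ'.comp (Γ.r w)))) :
    Γ.inv w (cupk (ψ'.comp (Γ.r w)) lam b e) = 0 :=
  ((hG.loc w).inv_eq _ (cup_Z2 (rcomp hR (Γ.r w)) (smw hG hψ' w) lam hb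
    (B1_le _ (smw hG hψ' w) he))).2 (cup_B1_right (rcomp hR (Γ.r w)) (smw hG hψ' w) lam hb he)

theorem inv_left (hG : GAx p Γ χ U δ) (hψ : ∀ u ∈ U, ψ u = 1) (hψ' : ∀ u ∈ U, ψ' u = 1)
    (hR : Rel χ ψ ψ') (w : S) {b e : D w → k} (hb : b ∈ BKND.B1 (kch (ψ.comp (Γ.r w))))
    (he : e ∈ BKND.Z1 (kch (ψ'.comp (Γ.r w)))) :
    Γ.inv w (cupk (ψ'.comp (Γ.r w)) lam b e) = 0 := by
  rw [inv_anti hG hψ hψ' hR w (B1_le _ (smw hG hψ w) hb) he, inv_right hG hψ (rsymm hR) w he hb,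
    neg_zero]

theorem pr_anti (hG : GAx p Γ χ U δ) (hψ : ∀ u ∈ U, ψ u = 1) (hψ' : ∀ u ∈ U, ψ' u = 1)
    (hR : Rel χ ψ ψ') {x y : ∀ w, D w → k} (hx : x ∈ Pt Γ.r ψ ∅) (hy : y ∈ Pt Γ.r ψ' ∅) :
    pr Γ ψ' lam x y = - pr Γ ψ lam y x := by
  rw [mem_Pt (smw hG hψ)] at hx
  rw [mem_Pt (smw hG hψ')] at hy
  rw [pr_apply, pr_apply, ← Finset.sum_neg_distrib]
  exact Finset.sum_congr rfl fun w _ => inv_anti hG hψ hψ' hR w (hx.1 w) (hy.1 w)

theorem Pt_mono (hG : GAx p Γ χ U δ) (hψ : ∀ u ∈ U, ψ u = 1) {T T' : Set S} (h : T ⊆ T') :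
    Pt Γ.r ψ T' ≤ Pt Γ.r ψ T := by
  intro x hx
  rw [mem_Pt (smw hG hψ)] at hx ⊢
  exact ⟨hx.1, fun w hw => hx.2 w (h hw)⟩

theorem pr_single (w : S) (x : ∀ w, D w → k) (f : D w → k) [DecidableEq S] :
    pr Γ ψ' lam x (Pi.single w f) = Γ.inv w (cupk (ψ'.comp (Γ.r w)) lam (x w) f) := by
  rw [pr_apply, Finset.sum_eq_single w]
  · rw [Pi.single_eq_same]
  · intro w' _ hw'
    rw [Pi.single_eq_of_ne hw', ← cupHom_apply, map_zero, map_zero]
  · intro h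
    exact absurd (Finset.mem_univ w) h

/-- an orthogonality relation with a family of places -/
theorem left_iff (hG : GAx p Γ χ U δ) (hψ : ∀ u ∈ U, ψ u = 1) (hψ' : ∀ u ∈ U, ψ' u = 1)
    (hR : Rel χ ψ ψ') (hlam : lam ≠ 0) (T : Set S) {x : ∀ w, D w → k} (hx : x ∈ Pt Γ.r ψ ∅) :
    x ∈ Pt Γ.r ψ T ↔ ∀ y ∈ Pt Γ.r ψ' Tᶜ, pr Γ ψ' lam x y = 0 := by
  classical
  rw [mem_Pt (smw hG hψ)] at hx ⊢
  constructor
  · rintro ⟨_, h2⟩ y hy
    rw [mem_Pt (smw hG hψ')] at hy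
    rw [pr_apply]
    refine Finset.sum_eq_zero fun w _ => ?_
    by_cases hw : w ∈ T
    · exact inv_left hG hψ hψ' hR w (h2 w hw) (hy.1 w)
    · exact inv_right hG hψ' hR w (hx.1 w) (hy.2 w hw)
  · intro h
    refine ⟨hx.1, fun w hw => ?_⟩
    refine (hG.loc w).one k (ψ.comp (Γ.r w)) (ψ'.comp (Γ.r w)) (smw hG hψ w) (smw hG hψ' w)
      (rcomp hR _) lam hlam _ (hx.1 w) fun f hf => ?_
    have h3 : (Pi.single w f : ∀ w, D w → k) ∈ Pt Γ.r ψ' Tᶜ := by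
      rw [mem_Pt (smw hG hψ')]
      constructor
      · intro w'
        by_cases hw' : w' = w
        · subst hw'
          rw [Pi.single_eq_same]
          exact hf
        · rw [Pi.single_eq_of_ne hw']
          exact AddSubgroup.zero_mem _
      · intro w' hw'
        have h4 : w' ≠ w := by
          rintro rfl
          exact hw' hw
        rw [Pi.single_eq_of_ne h4]
        exact AddSubgroup.zero_mem _
    have h4 := h _ h3
    rwa [pr_single] at h4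

theorem finite_Z1w (hG : GAx p Γ χ U δ) (hψ : ∀ u ∈ U, ψ u = 1) (hψ' : ∀ u ∈ U, ψ' u = 1)
    (hR : Rel χ ψ ψ') (w : S) : Nat.card (BKND.Z1 (kch (ψ.comp (Γ.r w)))) ≠ 0 := by
  rw [(hG.loc w).card k (ψ.comp (Γ.r w)) (ψ'.comp (Γ.r w)) (smw hG hψ w) (smw hG hψ' w)
      (rcomp hR _)]
  exact mul_ne_zero Nat.card_pos.ne' (pow_ne_zero _ Nat.card_pos.ne')

theorem card_Pt_ne (hG : GAx p Γ χ U δ) (hψ : ∀ u ∈ U, ψ u = 1) (hψ' : ∀ u ∈ U, ψ' u = 1)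
    (hR : Rel χ ψ ψ') (T : Set S) : Nat.card (Pt Γ.r ψ T) ≠ 0 := by
  classical
  rw [card_Pt, Finset.prod_ne_zero_iff]
  intro w _
  split_ifs
  · have := finite_B1 (kch (ψ.comp (Γ.r w)))
    exact Nat.card_pos.ne'
  · exact finite_Z1w hG hψ hψ' hR w

theorem card_relIndex {V : Type} [AddCommGroup V] {H K : AddSubgroup V} (h : H ≤ K) :
    Nat.card H * H.relIndex K = Nat.card K := by
  rw [← AddSubgroup.relIndex_bot_left, ← AddSubgroup.relIndex_bot_left,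
    AddSubgroup.relIndex_mul_relIndex _ _ _ bot_le h]

theorem nd (hG : GAx p Γ χ U δ) (hψ : ∀ u ∈ U, ψ u = 1) (hψ' : ∀ u ∈ U, ψ' u = 1)
    (hR : Rel χ ψ ψ') (hlam : lam ≠ 0) : Nd (pr Γ ψ' lam) (Pt Γ.r ψ ∅) (Pt Γ.r ψ Set.univ)
      (Pt Γ.r ψ' ∅) (Pt Γ.r ψ' Set.univ) where
  le := Pt_mono hG hψ (Set.empty_subset _)
  le' := Pt_mono hG hψ' (Set.empty_subset _)
  left := by
    intro x hx
    rw [left_iff hG hψ hψ' hR hlam Set.univ hx, Set.compl_univ]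
  right := by
    intro y hy
    rw [left_iff hG hψ' hψ (rsymm hR) hlam Set.univ hy, Set.compl_univ]
    refine forall₂_congr fun x hx => ?_
    rw [pr_anti hG hψ' hψ (rsymm hR) hy hx, neg_eq_zero]
  fin := by
    intro h0
    have h1 := card_relIndex (Pt_mono hG hψ (Set.empty_subset (Set.univ : Set S)))
    rw [h0, mul_zero] at h1
    exact card_Pt_ne hG hψ hψ' hR ∅ h1.symm

/-! ### Global classes -/

/-- the global cocycles which are trivial at the places in `T` -/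
def KT (r : ∀ w, D w →* G) (ψ : G →* kˣ) (T : Set S) : AddSubgroup (G → k) :=
  BKND.Z1 (kch ψ) ⊓ (Pt r ψ T).comap (locm r)

/-- the image of the global cocycles, plus the coboundaries -/
def La (r : ∀ w, D w →* G) (ψ : G →* kˣ) : AddSubgroup (∀ w, D w → k) :=
  (BKND.Z1 (kch ψ)).map (locm r) ⊔ Pt r ψ Set.univ

theorem mem_KT (hG : GAx p Γ χ U δ) (hψ : ∀ u ∈ U, ψ u = 1) {T : Set S} {f : G → k} :
    f ∈ KT Γ.r ψ T ↔ f ∈ BKND.Z1 (kch ψ) ∧
      ∀ w ∈ T, pb1 (Γ.r w) f ∈ BKND.B1 (kch (ψ.comp (Γ.r w))) := by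
  rw [KT, AddSubgroup.mem_inf, AddSubgroup.mem_comap, mem_Pt (smw hG hψ)]
  constructor
  · rintro ⟨h1, _, h2⟩
    exact ⟨h1, h2⟩
  · rintro ⟨h1, h2⟩
    exact ⟨h1, fun w => pb1_Z1 _ (Γ.cont w) h1, h2⟩

theorem loc_mem (hG : GAx p Γ χ U δ) (hψ : ∀ u ∈ U, ψ u = 1) {f : G → k}
    (hf : f ∈ BKND.Z1 (kch ψ)) : locm Γ.r f ∈ Pt Γ.r ψ ∅ := by
  rw [mem_Pt (smw hG hψ)]
  exact ⟨fun w => pb1_Z1 _ (Γ.cont w) hf, fun w hw => absurd hw (Set.notMem_empty w)⟩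

theorem La_le (hG : GAx p Γ χ U δ) (hψ : ∀ u ∈ U, ψ u = 1) : La Γ.r ψ ≤ Pt Γ.r ψ ∅ := by
  refine sup_le ?_ (Pt_mono hG hψ (Set.empty_subset _))
  rintro _ ⟨f, hf, rfl⟩
  exact loc_mem hG hψ hf

theorem inf_La (hG : GAx p Γ χ U δ) (hψ : ∀ u ∈ U, ψ u = 1) (T : Set S) :
    La Γ.r ψ ⊓ Pt Γ.r ψ T = (KT Γ.r ψ T).map (locm Γ.r) ⊔ Pt Γ.r ψ Set.univ := by
  have hle := Pt_mono (ψ := ψ) hG hψ (Set.subset_univ T)
  apply le_antisymm
  · rintro x ⟨h1, h2⟩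
    obtain ⟨_, ⟨f, hf, rfl⟩, b, hb, rfl⟩ := AddSubgroup.mem_sup.1 h1
    refine AddSubgroup.mem_sup.2 ⟨_, ⟨f, ⟨hf, ?_⟩, rfl⟩, b, hb, rfl⟩
    change locm Γ.r f ∈ Pt Γ.r ψ T
    have h3 := AddSubgroup.sub_mem _ h2 (hle hb)
    rwa [add_sub_cancel_right] at h3
  · refine sup_le ?_ (le_inf le_sup_right hle)
    rintro _ ⟨f, hf, rfl⟩
    exact ⟨AddSubgroup.mem_sup_left ⟨f, hf.1, rfl⟩, hf.2⟩

/-- counting global classes -/
theorem glob_count (hG : GAx p Γ χ U δ) (hψ : ∀ u ∈ U, ψ u = 1) (T : Set S) :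
    Nat.card (BKND.B1 (kch ψ)) * (Pt Γ.r ψ Set.univ).relIndex (La Γ.r ψ ⊓ Pt Γ.r ψ T) =
      Nat.card (KT Γ.r ψ T) := by
  rw [inf_La hG hψ, AddSubgroup.relIndex_sup_right, ← AddSubgroup.relIndex_comap,
    ← AddSubgroup.inf_relIndex_right]
  have e1 : (Pt Γ.r ψ Set.univ).comap (locm Γ.r) ⊓ KT Γ.r ψ T = BKND.B1 (kch ψ) := by
    apply le_antisymm
    · rintro f ⟨h1, h2⟩
      refine hG.glob.one k ψ hψ f h2.1 fun w => ?_
      have h3 : locm Γ.r f ∈ Pt Γ.r ψ Set.univ := h1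
      rw [mem_Pt (smw hG hψ)] at h3
      exact h3.2 w (Set.mem_univ w)
    · intro f hf
      have h1 : ∀ w, pb1 (Γ.r w) f ∈ BKND.B1 (kch (ψ.comp (Γ.r w))) := fun w => pb1_B1 _ hf
      have h2 : f ∈ BKND.Z1 (kch ψ) := B1_le _ (sm_kch U hG.open' hψ) hf
      refine ⟨?_, (mem_KT hG hψ).2 ⟨h2, fun w _ => h1 w⟩⟩
      change locm Γ.r f ∈ Pt Γ.r ψ Set.univ
      rw [mem_Pt (smw hG hψ)]
      exact ⟨fun w => pb1_Z1 _ (Γ.cont w) h2, fun w _ => h1 w⟩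
  rw [e1]
  refine card_relIndex fun f hf => (mem_KT hG hψ).2 ⟨B1_le _ (sm_kch U hG.open' hψ) hf,
    fun w _ => pb1_B1 _ hf⟩

/-- reciprocity -/
theorem recip (hG : GAx p Γ χ U δ) {ε : G → G → QZ p} (hε : ε ∈ BKND.Z2 (actA χ)) :
    ∑ w, Γ.inv w (pb2 (Γ.r w) ε) = 0 := by
  have h1 := Γ.tr_eq ε hε.1 (fun _ => 0) (by
    intro w
    rw [zero_sub]
    refine AddSubgroup.neg_mem _ ?_
    obtain ⟨⟨W, hW, h2⟩, h3⟩ := hε
    rw [hG.act]
    refine ⟨⟨W.comap (Γ.r w), hW.preimage (Γ.cont w), fun d d' w' hw' w'' hw'' => ?_⟩,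
      fun d d' d'' => ?_⟩
    · change ε (Γ.r w (d * w')) (Γ.r w (d' * w'')) = ε (Γ.r w d) (Γ.r w d')
      rw [map_mul, map_mul]
      exact h2 _ _ _ hw' _ hw''
    · have h4 := h3 (Γ.r w d) (Γ.r w d') (Γ.r w d'')
      rw [← map_mul, ← map_mul] at h4
      exact h4)
  have h2 : d2 Γ.α ε = 0 := by
    funext g h k
    rw [hG.act]
    exact hε.2 g h k
  rw [h2] at h1
  have h3 : ((0 : G → G → G → QZ p), (fun _ => 0 : ∀ w, D w → D w → QZ p)) = 0 := rfl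
  rw [h3, map_zero] at h1
  have h4 : ∑ w, Γ.inv w (pb2 (Γ.r w) ε) = - ∑ w, Γ.inv w (0 - pb2 (Γ.r w) ε) := by
    rw [← Finset.sum_neg_distrib]
    refine Finset.sum_congr rfl fun w _ => ?_
    rw [zero_sub, map_neg, neg_neg]
  rw [h4, ← h1, neg_zero]

theorem isotropic (hG : GAx p Γ χ U δ) (hψ : ∀ u ∈ U, ψ u = 1) (hψ' : ∀ u ∈ U, ψ' u = 1)
    (hR : Rel χ ψ ψ') (hlam : lam ≠ 0) {x y : ∀ w, D w → k} (hx : x ∈ La Γ.r ψ)
    (hy : y ∈ La Γ.r ψ') : pr Γ ψ' lam x y = 0 := by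
  obtain ⟨_, ⟨f, hf, rfl⟩, b, hb, rfl⟩ := AddSubgroup.mem_sup.1 hx
  have hN := nd hG hψ hψ' hR hlam
  obtain ⟨_, ⟨e, he, rfl⟩, b', hb', rfl⟩ := AddSubgroup.mem_sup.1 hy
  have h1 : pr Γ ψ' lam b (locm Γ.r e + b') = 0 :=
    (hN.left b (hN.le hb)).1 hb _ (La_le hG hψ' hy)
  have h2 : pr Γ ψ' lam (locm Γ.r f) b' = 0 :=
    (hN.right b' (hN.le' hb')).1 hb' _ (loc_mem hG hψ hf)
  rw [map_add (pr Γ ψ' lam), AddMonoidHom.add_apply, h1, add_zero, map_add, h2, add_zero,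
    pr_apply]
  exact recip hG (cup_Z2 hR (sm_kch U hG.open' hψ') lam hf he)

theorem index_Pt (hG : GAx p Γ χ U δ) (hψ : ∀ u ∈ U, ψ u = 1) (hψ' : ∀ u ∈ U, ψ' u = 1)
    (hR : Rel χ ψ ψ') (T : Set S) : (Pt Γ.r ψ T).relIndex (Pt Γ.r ψ ∅) =
      ∏ w, (open Classical in if w ∈ T then Nat.card k ^ δ w *
        Nat.card (BKND.H0 (kch (ψ.comp (Γ.r w)))) * Nat.card (BKND.H0 (kch (ψ'.comp (Γ.r w))))
        else 1) := by
  classical
  have e1 := card_relIndex (Pt_mono (ψ := ψ) hG hψ (Set.empty_subset T))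
  apply Nat.eq_of_mul_eq_mul_left (Nat.pos_of_ne_zero (card_Pt_ne hG hψ hψ' hR T))
  rw [e1, card_Pt, card_Pt, ← Finset.prod_mul_distrib]
  refine Finset.prod_congr rfl fun w _ => ?_
  rw [if_neg (Set.notMem_empty w)]
  by_cases hw : w ∈ T
  · rw [if_pos hw, if_pos hw, (hG.loc w).card k (ψ.comp (Γ.r w)) (ψ'.comp (Γ.r w)) (smw hG hψ w)
      (smw hG hψ' w) (rcomp hR _), pow_add, pow_one, ← card_B1 (kch (ψ.comp (Γ.r w)))]
    ring
  · rw [if_neg hw, if_neg hw, mul_one]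

theorem card_Z1 (hG : GAx p Γ χ U δ) (hψ : ∀ u ∈ U, ψ u = 1) :
    Nat.card (BKND.B1 (kch ψ)) * (Pt Γ.r ψ Set.univ).relIndex (La Γ.r ψ) =
      Nat.card (BKND.Z1 (kch ψ)) := by
  have h1 := glob_count hG hψ (∅ : Set S)
  rw [inf_eq_left.2 (La_le hG hψ)] at h1
  rw [h1]
  have e : KT Γ.r ψ ∅ = BKND.Z1 (kch ψ) := by
    apply le_antisymm inf_le_left
    exact fun f hf => ⟨hf, loc_mem hG hψ hf⟩
  rw [e]

theorem index_mul (hG : GAx p Γ χ U δ) (hψ : ∀ u ∈ U, ψ u = 1) (hψ' : ∀ u ∈ U, ψ' u = 1)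
    (hR : Rel χ ψ ψ') : (Pt Γ.r ψ Set.univ).relIndex (La Γ.r ψ) *
      (Pt Γ.r ψ' Set.univ).relIndex (La Γ.r ψ') =
        (Pt Γ.r ψ Set.univ).relIndex (Pt Γ.r ψ ∅) := by
  have e1 := card_Z1 (ψ := ψ) hG hψ
  have e2 := card_Z1 (ψ := ψ') hG hψ'
  have e3 := hG.glob.card k ψ ψ' hψ hψ' hR
  have e4 := hG.glob.card k ψ' ψ hψ' hψ (rsymm hR)
  have e5 := card_B1 (kch ψ)
  have e6 := card_B1 (kch ψ')
  have e7 := index_Pt hG hψ hψ' hR Set.univ
  simp only [Set.mem_univ, if_true] at e7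
  rw [Finset.prod_mul_distrib, Finset.prod_mul_distrib, Finset.prod_pow_eq_pow_sum, hG.sum] at e7
  have hq : 0 < Nat.card k * Nat.card k := Nat.mul_pos Nat.card_pos Nat.card_pos
  apply Nat.eq_of_mul_eq_mul_left hq
  rw [e7]
  generalize (Pt Γ.r ψ Set.univ).relIndex (La Γ.r ψ) = L at *
  generalize (Pt Γ.r ψ' Set.univ).relIndex (La Γ.r ψ') = L' at *
  generalize (Pt Γ.r ψ Set.univ).relIndex (Pt Γ.r ψ ∅) = R at *
  generalize ∏ w, Nat.card (BKND.H0 (kch (ψ.comp (Γ.r w)))) = A at *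
  generalize ∏ w, Nat.card (BKND.H0 (kch (ψ'.comp (Γ.r w)))) = A' at *
  calc Nat.card k * Nat.card k * (L * L') =
      (Nat.card (BKND.B1 (kch ψ)) * L) * (Nat.card (BKND.B1 (kch ψ')) * L') *
        (Nat.card (BKND.H0 (kch ψ)) * Nat.card (BKND.H0 (kch ψ'))) := by
        rw [← e5]
        nth_rw 2 [e5]
        rw [← e6]
        ring
    _ = (Nat.card (BKND.Z1 (kch ψ)) * Nat.card (BKND.H0 (kch ψ'))) *
        (Nat.card (BKND.Z1 (kch ψ')) * Nat.card (BKND.H0 (kch ψ))) := by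
        rw [e1, e2]
        ring
    _ = Nat.card k * Nat.card k * (Nat.card k ^ 2 * A * A') := by
        rw [e3, e4]
        ring

theorem La_eq (hD : StDual) (hG : GAx p Γ χ U δ) (hψ : ∀ u ∈ U, ψ u = 1)
    (hψ' : ∀ u ∈ U, ψ' u = 1) (hR : Rel χ ψ ψ') (hlam : lam ≠ 0) :
    annL (pr Γ ψ' lam) (Pt Γ.r ψ ∅) (La Γ.r ψ') = La Γ.r ψ := by
  have h1 : Pt Γ.r ψ Set.univ ≤ La Γ.r ψ := le_sup_right
  have h2 : Pt Γ.r ψ' Set.univ ≤ La Γ.r ψ' := le_sup_right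
  have h3 := index_mul hG hψ hψ' hR
  have h4 := nd hG hψ hψ' hR hlam
  have h5 : ∀ x ∈ La Γ.r ψ, ∀ y ∈ La Γ.r ψ', pr Γ ψ' lam x y = 0 :=
    fun x hx y hy => isotropic hG hψ hψ' hR hlam hx hy
  exact annL_eq (A := La Γ.r ψ) (C := La Γ.r ψ') hD h4 h1 (La_le hG hψ) h2 (La_le hG hψ') h5 h3

theorem La_eq' (hD : StDual) (hG : GAx p Γ χ U δ) (hψ : ∀ u ∈ U, ψ u = 1)
    (hψ' : ∀ u ∈ U, ψ' u = 1) (hR : Rel χ ψ ψ') (hlam : lam ≠ 0) :
    annL (pr Γ ψ' lam).flip (Pt Γ.r ψ' ∅) (La Γ.r ψ) = La Γ.r ψ' := by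
  have hN := (nd hG hψ hψ' hR hlam).flip hD
  have h1 := annL_annR hD hN (A := La Γ.r ψ') le_sup_right (La_le hG hψ')
  have h2 := La_eq hD hG hψ hψ' hR hlam
  have h3 : (pr Γ ψ' lam).flip.flip = pr Γ ψ' lam := rfl
  rw [h3, h2] at h1
  exact h1

theorem ann_M (hD : StDual) (hG : GAx p Γ χ U δ) (hψ : ∀ u ∈ U, ψ u = 1)
    (hψ' : ∀ u ∈ U, ψ' u = 1) (hR : Rel χ ψ ψ') (hlam : lam ≠ 0) (T : Set S) :
    annL (pr Γ ψ' lam) (Pt Γ.r ψ ∅) (La Γ.r ψ' ⊓ Pt Γ.r ψ' Tᶜ) = La Γ.r ψ ⊔ Pt Γ.r ψ T := by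
  have hN := nd hG hψ hψ' hR hlam
  have h0 := Pt_mono (ψ := ψ) hG hψ (Set.empty_subset T)
  rw [← annL_annR hD hN (A := La Γ.r ψ ⊔ Pt Γ.r ψ T) (le_sup_right.trans le_sup_left)
    (sup_le (La_le hG hψ) h0), annL_sup, La_eq' hD hG hψ hψ' hR hlam]
  congr 2
  ext y
  rw [mem_annL]
  constructor
  · intro hy
    have h1 := Pt_mono (ψ := ψ') hG hψ' (Set.empty_subset Tᶜ) hy
    refine ⟨h1, fun x hx => ?_⟩
    rw [left_iff hG hψ' hψ (rsymm hR) hlam Tᶜ h1, compl_compl] at hy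
    change pr Γ ψ' lam x y = 0
    rw [pr_anti hG hψ hψ' hR (h0 hx) h1, hy x hx, neg_zero]
  · rintro ⟨h1, h2⟩
    rw [left_iff hG hψ' hψ (rsymm hR) hlam Tᶜ h1, compl_compl]
    intro x hx
    rw [pr_anti hG hψ' hψ (rsymm hR) h1 (h0 hx), neg_eq_zero]
    exact h2 x hx

theorem claim1 (hD : StDual) (hG : GAx p Γ χ U δ) (hψ : ∀ u ∈ U, ψ u = 1)
    (hψ' : ∀ u ∈ U, ψ' u = 1) (hR : Rel χ ψ ψ') (hlam : lam ≠ 0) (T : Set S) (b : ∀ w, D w → k)
    (hb : ∀ w, b w ∈ BKND.Z1 (kch (ψ.comp (Γ.r w))))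
    (h : ∀ e ∈ BKND.Z1 (kch ψ'), (∀ w ∉ T, pb1 (Γ.r w) e ∈ BKND.B1 (kch (ψ'.comp (Γ.r w)))) →
        (∑ w, open Classical in if w ∈ T then
          Γ.inv w (cupk (ψ'.comp (Γ.r w)) lam (b w) (pb1 (Γ.r w) e)) else 0) = 0) :
    ∃ η ∈ BKND.Z1 (kch ψ), ∀ w ∈ T,
        pb1 (Γ.r w) η - b w ∈ BKND.B1 (kch (ψ.comp (Γ.r w))) := by
  classical
  have hN := nd hG hψ hψ' hR hlam
  have h1 : (fun w => if w ∈ T then b w else 0 : ∀ w, D w → k) ∈ Pt Γ.r ψ ∅ := by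
    rw [mem_Pt (smw hG hψ)]
    refine ⟨fun w => ?_, fun w hw => absurd hw (Set.notMem_empty w)⟩
    split_ifs with hw
    · exact hb w
    · exact AddSubgroup.zero_mem _
  have h2 : (fun w => if w ∈ T then b w else 0 : ∀ w, D w → k) ∈
      La Γ.r ψ ⊔ Pt Γ.r ψ T := by
    rw [← ann_M hD hG hψ hψ' hR hlam T, mem_annL]
    refine ⟨h1, fun y hy => ?_⟩
    rw [inf_La hG hψ'] at hy
    obtain ⟨_, ⟨e, he, rfl⟩, b', hb', rfl⟩ := AddSubgroup.mem_sup.1 hy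
    have h3 : e ∈ KT Γ.r ψ' Tᶜ := he
    rw [mem_KT hG hψ'] at h3
    rw [map_add, (hN.right b' (hN.le' hb')).1 hb' _ h1, add_zero, pr_apply,
      ← h e h3.1 fun w hw => h3.2 w hw]
    refine Finset.sum_congr rfl fun w _ => ?_
    split_ifs with hw
    · rfl
    · rw [← cupHom_apply, map_zero, AddMonoidHom.zero_apply, map_zero]
  obtain ⟨l, hl, z, hz, hlz⟩ := AddSubgroup.mem_sup.1 h2
  obtain ⟨_, ⟨η, hη, rfl⟩, β, hβ, rfl⟩ := AddSubgroup.mem_sup.1 hl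
  refine ⟨η, hη, fun w hw => ?_⟩
  rw [mem_Pt (smw hG hψ)] at hβ hz
  have h3 := congrFun hlz w
  rw [if_pos hw] at h3
  have h4 : pb1 (Γ.r w) η - b w = -(β w + z w) := by
    rw [← h3]
    change pb1 (Γ.r w) η - (pb1 (Γ.r w) η + β w + z w) = _
    abel
  rw [h4]
  exact AddSubgroup.neg_mem _ (AddSubgroup.add_mem _ (hβ.2 w (Set.mem_univ w)) (hz.2 w hw))

theorem claim2 (hD : StDual) (hG : GAx p Γ χ U δ) (hψ : ∀ u ∈ U, ψ u = 1)
    (hψ' : ∀ u ∈ U, ψ' u = 1) (hR : Rel χ ψ ψ') (hlam : lam ≠ 0) (T : Set S) :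
    (Pt Γ.r ψ T).relIndex (Pt Γ.r ψ ∅) * Nat.card (KT Γ.r ψ T) =
      Nat.card (KT Γ.r ψ' Tᶜ) * Nat.card k *
        ∏ w, Nat.card (BKND.H0 (kch (ψ'.comp (Γ.r w)))) := by
  have hN := nd hG hψ hψ' hR hlam
  have h0 := Pt_mono (ψ := ψ) hG hψ (Set.empty_subset T)
  have hu := Pt_mono (ψ := ψ) hG hψ (Set.subset_univ T)
  have e1 := index_annL hD hN (C := La Γ.r ψ' ⊓ Pt Γ.r ψ' Tᶜ)
    (le_inf le_sup_right (Pt_mono hG hψ' (Set.subset_univ _)))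
    (inf_le_left.trans (La_le hG hψ'))
  rw [ann_M hD hG hψ hψ' hR hlam T] at e1
  have e2 := AddSubgroup.relIndex_mul_relIndex (Pt Γ.r ψ T) (La Γ.r ψ ⊔ Pt Γ.r ψ T)
    (Pt Γ.r ψ ∅) le_sup_right (sup_le (La_le hG hψ) h0)
  rw [AddSubgroup.relIndex_sup_right, ← e1] at e2
  have e3 := AddSubgroup.relIndex_mul_relIndex (Pt Γ.r ψ Set.univ) (La Γ.r ψ ⊓ Pt Γ.r ψ T)
    (La Γ.r ψ) (le_inf le_sup_right hu) inf_le_left
  rw [AddSubgroup.inf_relIndex_left] at e3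
  have e4 := glob_count hG hψ T
  have e5 := glob_count hG hψ' Tᶜ
  have e6 := card_Z1 (ψ := ψ) hG hψ
  have e7 := hG.glob.card k ψ ψ' hψ hψ' hR
  have e8 := card_B1 (kch ψ')
  have hq : 0 < Nat.card k := Nat.card_pos
  apply Nat.eq_of_mul_eq_mul_left hq
  rw [← e2, ← e4, ← e5]
  generalize (Pt Γ.r ψ Set.univ).relIndex (La Γ.r ψ ⊓ Pt Γ.r ψ T) = x at *
  generalize (Pt Γ.r ψ' Set.univ).relIndex (La Γ.r ψ' ⊓ Pt Γ.r ψ' Tᶜ) = x' at *
  generalize (Pt Γ.r ψ T).relIndex (La Γ.r ψ) = y at *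
  generalize ∏ w, Nat.card (BKND.H0 (kch (ψ'.comp (Γ.r w)))) = A' at *
  rw [← e3] at e6
  calc Nat.card k * (y * x' * (Nat.card (BKND.B1 (kch ψ)) * x)) =
      x' * Nat.card (BKND.B1 (kch ψ')) * (Nat.card (BKND.B1 (kch ψ)) * (x * y) *
        Nat.card (BKND.H0 (kch ψ'))) := by
        rw [← e8]
        ring
    _ = Nat.card k * (Nat.card (BKND.B1 (kch ψ')) * x' * Nat.card k * A') := by
        rw [e6, e7]
        ring

end Main

end XANN

/-- **Module ANN.** -/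
theorem stAnn (hD : StDual) : StAnn := by
  classical
  intro p _ S _ G _ _ _ _ D _ _ _ _ Γ χ U δ hG k _ _ _ ψ ψ' hψ hψ' hR lam hlam
  refine ⟨fun T b hb h => XANN.claim1 hD hG hψ hψ' hR hlam T b hb h, fun T => ⟨?_, ?_⟩⟩
  · have e1 := hG.glob.card k ψ ψ' hψ hψ' hR
    have h1 : Nat.card (BKND.Z1 (kch ψ)) ≠ 0 := by
      intro h0
      rw [h0, zero_mul] at e1
      refine absurd e1.symm (mul_ne_zero (pow_ne_zero _ Nat.card_pos.ne') ?_)
      rw [Finset.prod_ne_zero_iff]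
      exact fun w _ => Nat.card_pos.ne'
    exact Nat.finite_of_card_ne_zero h1
  · have e1 := XANN.claim2 hD hG hψ hψ' hR hlam T
    rw [XANN.index_Pt hG hψ hψ' hR T] at e1
    have e2 : Nat.card {f : G → k | f ∈ BKND.Z1 (kch ψ) ∧
        ∀ w ∈ T, pb1 (Γ.r w) f ∈ BKND.B1 (kch (ψ.comp (Γ.r w)))} =
          Nat.card (XANN.KT Γ.r ψ T) :=
      Nat.card_congr (Equiv.subtypeEquivRight fun f => (XANN.mem_KT hG hψ).symm)
    have e3 : Nat.card {f : G → k | f ∈ BKND.Z1 (kch ψ') ∧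
        ∀ w ∉ T, pb1 (Γ.r w) f ∈ BKND.B1 (kch (ψ'.comp (Γ.r w)))} =
          Nat.card (XANN.KT Γ.r ψ' Tᶜ) :=
      Nat.card_congr (Equiv.subtypeEquivRight fun f => (XANN.mem_KT hG hψ').symm)
    rw [e2, e3]
    have hpos : 0 < ∏ w, (if w ∈ T then Nat.card (BKND.H0 (kch (ψ'.comp (Γ.r w)))) else 1) := by
      refine Finset.prod_pos fun w _ => ?_
      split_ifs
      · exact Nat.card_pos
      · exact Nat.one_pos
    apply Nat.eq_of_mul_eq_mul_left hpos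
    have e4 : (∏ w, if w ∈ T then Nat.card k ^ δ w *
        Nat.card (BKND.H0 (kch (ψ.comp (Γ.r w)))) * Nat.card (BKND.H0 (kch (ψ'.comp (Γ.r w))))
        else 1) = (Nat.card k ^ ∑ w, if w ∈ T then δ w else 0) *
          (∏ w, if w ∈ T then Nat.card (BKND.H0 (kch (ψ.comp (Γ.r w)))) else 1) *
          ∏ w, (if w ∈ T then Nat.card (BKND.H0 (kch (ψ'.comp (Γ.r w)))) else 1) := by
      rw [← Finset.prod_pow_eq_pow_sum, ← Finset.prod_mul_distrib, ← Finset.prod_mul_distrib]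
      refine Finset.prod_congr rfl fun w _ => ?_
      split_ifs
      · rfl
      · rw [pow_zero, mul_one, mul_one]
    have e5 : (∏ w, Nat.card (BKND.H0 (kch (ψ'.comp (Γ.r w))))) =
        (∏ w, if w ∈ T then 1 else Nat.card (BKND.H0 (kch (ψ'.comp (Γ.r w))))) *
          ∏ w, (if w ∈ T then Nat.card (BKND.H0 (kch (ψ'.comp (Γ.r w)))) else 1) := by
      rw [← Finset.prod_mul_distrib]
      refine Finset.prod_congr rfl fun w _ => ?_
      split_ifs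
      · rw [one_mul]
      · rw [mul_one]
    rw [e4, e5] at e1
    linear_combination e1

end BKMet
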