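import Pool.Agent.Lib.MP_7c08ba_nt.Met.StX

set_option autoImplicit false

/-!
Metabolic parity, module CT: bilinearity of the pairing of Cassels and Tate, and its vanishing on
coboundaries.
-/

noncomputable section

namespace BKMet

open BKPar (Loc1 Loc2)
open BKND (Sm)

namespace XCT

/-! ### Smoothness -/

section Smooth

variable {G : Type*} [Group G] [TopologicalSpace G]

theorem exists_normal [IsTopologicalGroup G] [CompactSpace G] (W : Subgroup G)
    (hW : IsOpen (W : Set G)) :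
    ∃ V : Subgroup G, IsOpen (V : Set G) ∧ V ≤ W ∧ ∀ g, ∀ v ∈ V, g * v * g⁻¹ ∈ V := by
  have hfin : Finite (G ⧸ W) := Subgroup.quotient_finite_of_isOpen W hW
  have hfi : W.FiniteIndex := Subgroup.finiteIndex_of_finite_quotient
  have hcl : IsClosed (W.normalCore : Set G) :=
    W.normalCore_isClosed (Subgroup.isClosed_of_isOpen W hW)
  have hfi' : W.normalCore.FiniteIndex := Subgroup.finiteIndex_normalCore W
  have hop : IsOpen (W.normalCore : Set G) :=
    Subgroup.isOpen_of_isClosed_of_finiteIndex _ hcl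
  exact ⟨W.normalCore, hop, W.normalCore_le, fun g v hv => W.normalCore_normal.conj_mem v hv g⟩

theorem Loc1.fst {X : Type*} {f : G → X} (hf : Loc1 f) : Loc2 fun g (_ : G) => f g := by
  obtain ⟨W, hW, h⟩ := hf
  exact ⟨W, hW, fun g _ w hw _ _ => h g w hw⟩

theorem Loc1.snd {X : Type*} {f : G → X} (hf : Loc1 f) : Loc2 fun (_ : G) h => f h := by
  obtain ⟨W, hW, h⟩ := hf
  exact ⟨W, hW, fun _ g _ _ w hw => h g w hw⟩

theorem Loc1.mul [IsTopologicalGroup G] [CompactSpace G] {X : Type*} {f : G → X}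
    (hf : Loc1 f) : Loc2 fun g h => f (g * h) := by
  obtain ⟨W, hW, h⟩ := hf
  obtain ⟨V, hV, hVW, hn⟩ := exists_normal W hW
  refine ⟨V, hV, fun g k w hw w' hw' => ?_⟩
  have e : g * w * (k * w') = g * k * ((k⁻¹ * w * k⁻¹⁻¹) * w') := by group
  change f (g * w * (k * w')) = f (g * k)
  rw [e]
  exact h _ _ (hVW (V.mul_mem (hn k⁻¹ w hw) hw'))

theorem sm_loc1 {M : Type*} [AddCommGroup M] {ρ : G →* AddMonoid.End M} (hρ : Sm ρ) :
    Loc1 fun g => ρ g := by
  obtain ⟨W, hW, h⟩ := hρ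
  refine ⟨W, hW, fun g w hw => ?_⟩
  change ρ (g * w) = ρ g
  rw [map_mul, h w hw, mul_one]

theorem loc1_act {M : Type*} [AddCommGroup M] {ρ : G →* AddMonoid.End M} (hρ : Sm ρ) (m : M) :
    Loc1 fun g => ρ g m :=
  BKND.Loc1.map (sm_loc1 hρ) fun φ => φ m

theorem loc1_d0 {M : Type*} [AddCommGroup M] {ρ : G →* AddMonoid.End M} (hρ : Sm ρ) (m : M) :
    Loc1 (d0 ρ m) :=
  BKND.Loc1.map (sm_loc1 hρ) fun φ => φ m - m

theorem loc2_d1 [IsTopologicalGroup G] [CompactSpace G] {M : Type*} [AddCommGroup M]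
    {ρ : G →* AddMonoid.End M} (hρ : Sm ρ) {z : G → M} (hz : Loc1 z) : Loc2 (d1 ρ z) := by
  have h1 : Loc2 fun g h => ρ g (z h) :=
    BKND.Loc2.map2 (Loc1.fst (sm_loc1 hρ)) (Loc1.snd hz) fun φ m => φ m
  have h2 : Loc2 fun g h => z (g * h) := Loc1.mul hz
  have h3 : Loc2 fun g (_ : G) => z g := Loc1.fst hz
  exact BKND.Loc2.map2 (BKND.Loc2.map2 h1 h2 (· - ·)) h3 (· + ·)

/-- a smooth function on a compact group has finitely many values -/
theorem finite_range [IsTopologicalGroup G] [CompactSpace G] {X : Type*} {z : G → X}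
    (hz : Loc1 z) : (Set.range z).Finite := by
  obtain ⟨W, hW, h⟩ := hz
  have hfin : Finite (G ⧸ W) := Subgroup.quotient_finite_of_isOpen W hW
  have h1 : Set.range z ⊆ Set.range (fun q : G ⧸ W => z q.out) := by
    rintro _ ⟨g, rfl⟩
    refine ⟨(g : G ⧸ W), ?_⟩
    obtain ⟨w, hw⟩ := QuotientGroup.mk_out_eq_mul W g
    change z ((g : G ⧸ W).out) = z g
    rw [hw]
    exact h g w w.2
  exact (Set.finite_range _).subset h1

theorem loc2_d1' [IsTopologicalGroup G] [CompactSpace G] {M : Type*} [AddCommGroup M]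
    {ρ : G →* AddMonoid.End M} (hρ : PSm ρ) {z : G → M} (hz : Loc1 z) : Loc2 (d1 ρ z) := by
  have hfin := finite_range hz
  have hW : ∃ W : Subgroup G, IsOpen (W : Set G) ∧ ∀ w ∈ W, ∀ m ∈ Set.range z, ρ w m = m := by
    choose V hV hV' using hρ
    refine ⟨⨅ m : Set.range z, V m, ?_, fun w hw m hm => ?_⟩
    · have : Finite (Set.range z) := hfin
      rw [Subgroup.coe_iInf]
      exact isOpen_iInter_of_finite fun m => hV m
    · exact hV' m w ((Subgroup.mem_iInf.1 hw) ⟨m, hm⟩)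
  obtain ⟨W, hWo, hW'⟩ := hW
  have h1 : Loc2 fun g h => ρ g (z h) := by
    obtain ⟨W₁, hW₁, h1⟩ := hz
    refine ⟨W ⊓ W₁, ?_, fun g h w hw w' hw' => ?_⟩
    · rw [Subgroup.coe_inf]
      exact hWo.inter hW₁
    · change ρ (g * w) (z (h * w')) = ρ g (z h)
      rw [h1 h w' hw'.2, map_mul]
      exact congrArg (ρ g) (hW' w hw.1 _ ⟨h, rfl⟩)
  have h2 : Loc2 fun g h => z (g * h) := Loc1.mul hz
  have h3 : Loc2 fun g (_ : G) => z g := Loc1.fst hz
  exact BKND.Loc2.map2 (BKND.Loc2.map2 h1 h2 (· - ·)) h3 (· + ·)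

variable {M M' A : Type*} [AddCommGroup M] [AddCommGroup M'] [AddCommGroup A]
  (b : M →+ M' →+ A) {ρ' : G →* AddMonoid.End M'}

theorem loc2_cup11 (hρ : Sm ρ') {z : G → M} (hz : Loc1 z) {e : G → M'} (he : Loc1 e) :
    Loc2 (cup11 b ρ' z e) :=
  BKND.Loc2.map2 (BKND.Loc2.map2 (Loc1.fst hz) (Loc1.fst (sm_loc1 hρ)) Prod.mk) (Loc1.snd he)
    fun x m => b x.1 (x.2 m)

theorem loc2_cup20 [IsTopologicalGroup G] [CompactSpace G] (hρ : Sm ρ') {u : G → G → M}
    (hu : Loc2 u) (f : M') : Loc2 (cup20 b ρ' u f) :=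
  BKND.Loc2.map2 hu (Loc1.mul (sm_loc1 hρ)) fun x φ => b x (φ f)

end Smooth

/-! ### Identities -/

section Ident

variable {G : Type*} [Group G] {M M' A : Type*} [AddCommGroup M] [AddCommGroup M']
  [AddCommGroup A] (b : M →+ M' →+ A) (ρ : G →* AddMonoid.End M) (ρ' : G →* AddMonoid.End M')
  (α : G →* AddMonoid.End A)

theorem act_mul (ρ : G →* AddMonoid.End M) (g h : G) (m : M) : ρ (g * h) m = ρ g (ρ h m) := by
  rw [map_mul]
  rfl

theorem d1_d0 (m : M) (g h : G) : d1 ρ (d0 ρ m) g h = 0 := by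
  simp only [d1, d0, map_sub, act_mul]
  abel

theorem d1_sub (z z' : G → M) (g h : G) : d1 ρ (z - z') g h = d1 ρ z g h - d1 ρ z' g h := by
  simp only [d1, Pi.sub_apply, map_sub]
  abel

theorem d1_add (z z' : G → M) (g h : G) : d1 ρ (z + z') g h = d1 ρ z g h + d1 ρ z' g h := by
  simp only [d1, Pi.add_apply, map_add]
  abel

theorem d2_d1 (z : G → M) (g h k : G) : d2 ρ (d1 ρ z) g h k = 0 := by
  simp only [d1, d2, map_sub, map_add, act_mul, mul_assoc]
  abel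

variable (hb : ∀ g m m', b (ρ g m) (ρ' g m') = α g (b m m'))

include hb in
theorem d2_cup11 (z : G → M) (e : G → M') (g h k : G) :
    d2 α (cup11 b ρ' z e) g h k = cup21 b ρ' (d1 ρ z) e g h k - cup12 b ρ' z (d1 ρ' e) g h k := by
  simp only [d2, cup11, cup21, cup12, d1, ← hb, act_mul, map_sub, map_add,
    AddMonoidHom.sub_apply, AddMonoidHom.add_apply]
  abel

include hb in
theorem d2_cup20 (z : G → M) (n : M') (g h k : G) :
    d2 α (cup20 b ρ' (d1 ρ z) n) g h k = cup21 b ρ' (d1 ρ z) (d0 ρ' n) g h k := by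
  have e := d2_d1 ρ z g h k
  have e' : b (d2 ρ (d1 ρ z) g h k) (ρ' (g * h * k) n) = 0 := by rw [e, map_zero]; rfl
  simp only [d2, cup20, cup21, d0, ← hb, act_mul, map_sub, map_add, mul_assoc,
    AddMonoidHom.sub_apply, AddMonoidHom.add_apply] at e' ⊢
  rw [← sub_eq_zero]
  rw [← e']
  abel

include hb in
/-- the coboundary of `b (q, f)` -/
theorem d1_pair (q : G → M) (f : M') (g h : G) :
    d1 α (fun g => b (q g) (ρ' g f)) g h =
      cup20 b ρ' (d1 ρ q) f g h - cup11 b ρ' q (d0 ρ' f) g h := by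
  simp only [cup20, cup11, d0, d1, ← hb, act_mul, map_sub, map_add,
    AddMonoidHom.sub_apply, AddMonoidHom.add_apply]
  abel

include hb in
/-- the coboundary of `b (n, e)` -/
theorem d1_pair' (n : M) (e : G → M') (g h : G) :
    d1 α (fun g => b n (e g)) g h =
      cup11 b ρ' (d0 ρ n) e g h + b n (d1 ρ' e g h) := by
  simp only [cup11, d0, d1, ← hb, map_sub, map_add, AddMonoidHom.sub_apply]
  abel

end Ident

/-! ### The trace -/

section Trace

variable {S : Type} [Fintype S] {G : Type} [Group G] [TopologicalSpace G]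
  {D : S → Type} [∀ w, Group (D w)] [∀ w, TopologicalSpace (D w)] {A E : Type} [AddCommGroup A]
  [AddCommGroup E] (Γ : Glo S G D A E)

theorem loc1_pb {D' G' X : Type*} [Group G'] [TopologicalSpace G'] [Group D']
    [TopologicalSpace D'] {f : D' →* G'} (hf : Continuous f) {z : G' → X} (hz : Loc1 z) :
    Loc1 (pb1 f z) := by
  obtain ⟨W, hW, h⟩ := hz
  refine ⟨W.comap f, hW.preimage hf, fun g w hw => ?_⟩
  change z (f (g * w)) = z (f g)
  rw [map_mul]
  exact h _ _ hw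

theorem loc2_pb {D' G' X : Type*} [Group G'] [TopologicalSpace G'] [Group D']
    [TopologicalSpace D'] {f : D' →* G'} (hf : Continuous f) {z : G' → G' → X} (hz : Loc2 z) :
    Loc2 (pb2 f z) := by
  obtain ⟨W, hW, h⟩ := hz
  refine ⟨W.comap f, hW.preimage hf, fun g g' w hw w' hw' => ?_⟩
  change z (f (g * w)) (f (g' * w')) = z (f g) (f g')
  rw [map_mul, map_mul]
  exact h _ _ _ hw _ hw'

variable [IsTopologicalGroup G] [CompactSpace G]

/-- the local restriction of a coboundary is a cocycle and a coboundary -/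
theorem pb_mem (w : S) {φ : G → A} (hφ : Loc1 φ) :
    pb2 (Γ.r w) (d1 Γ.α φ) ∈ BKND.Z2 (Γ.α.comp (Γ.r w)) ∧
    pb2 (Γ.r w) (d1 Γ.α φ) ∈ BKND.B2 (Γ.α.comp (Γ.r w)) := by
  constructor
  · refine ⟨loc2_pb (Γ.cont w) (loc2_d1' Γ.sm hφ), fun g h k => ?_⟩
    have e := d2_d1 Γ.α φ (Γ.r w g) (Γ.r w h) (Γ.r w k)
    simp only [d2] at e
    change Γ.α (Γ.r w g) (d1 Γ.α φ (Γ.r w h) (Γ.r w k)) -
      d1 Γ.α φ (Γ.r w (g * h)) (Γ.r w k) + d1 Γ.α φ (Γ.r w g) (Γ.r w (h * k)) -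
      d1 Γ.α φ (Γ.r w g) (Γ.r w h) = 0
    rw [map_mul, map_mul]
    exact e
  · refine ⟨pb1 (Γ.r w) φ, loc1_pb (Γ.cont w) hφ, fun g h => ?_⟩
    change Γ.α (Γ.r w g) (φ (Γ.r w h)) - φ (Γ.r w g * Γ.r w h) + φ (Γ.r w g) =
      Γ.α (Γ.r w g) (φ (Γ.r w h)) - φ (Γ.r w (g * h)) + φ (Γ.r w g)
    rw [map_mul]

/-- the trace of a boundary vanishes -/
theorem tr_zero (a : G → G → G → A) (β : ∀ w, D w → D w → A) (ε : G → G → A) (hε : Loc2 ε)
    (ha : a = d2 Γ.α ε) (h : ∀ w, ∃ φ : G → A, Loc1 φ ∧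
      β w - pb2 (Γ.r w) ε = pb2 (Γ.r w) (d1 Γ.α φ)) : Γ.tr (a, β) = 0 := by
  rw [ha, Γ.tr_eq ε hε β fun w => ?_]
  · refine Finset.sum_eq_zero fun w _ => ?_
    obtain ⟨φ, hφ, e⟩ := h w
    rw [e]
    exact (Γ.inv_eq w _ (pb_mem Γ w hφ).1).2 (pb_mem Γ w hφ).2
  · obtain ⟨φ, hφ, e⟩ := h w
    rw [e]
    exact (pb_mem Γ w hφ).1

end Trace

/-! ### The pairing -/

section Pairing

variable {R : Type} [CommRing R] {S : Type} [Fintype S] {G : Type} [Group G] [TopologicalSpace G]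
  {D : S → Type} [∀ w, Group (D w)] [∀ w, TopologicalSpace (D w)] {A E : Type} [AddCommGroup A]
  [AddCommGroup E] (Γ : Glo S G D A E) {M M' : Type} [AddCommGroup M] [Module R M]
  [AddCommGroup M'] [Module R M'] (X : Pair R Γ.α M M') (T : Set S)

theorem Xi_in {x : (G → M) × (S → M)} {y : (G → M') × (S → M')} {w : S} (hw : w ∈ T) :
    (Xi Γ X T x y).2 w = cup11 X.b (X.ρ'.comp (Γ.r w))
      (fun d => x.1 (Γ.r w d) - d0 X.ρ (x.2 w) (Γ.r w d)) (pb1 (Γ.r w) y.1) := if_pos hw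

theorem Xi_out {x : (G → M) × (S → M)} {y : (G → M') × (S → M')} {w : S} (hw : w ∉ T) :
    (Xi Γ X T x y).2 w = cup20 X.b (X.ρ'.comp (Γ.r w)) (pb2 (Γ.r w) (d1 X.ρ x.1)) (y.2 w) :=
  if_neg hw

theorem add_left (x x' : (G → M) × (S → M)) (y : (G → M') × (S → M')) :
    CT Γ X T (x + x') y = CT Γ X T x y + CT Γ X T x' y := by
  have e : Xi Γ X T (x + x') y = Xi Γ X T x y + Xi Γ X T x' y := by
    refine Prod.ext ?_ ?_
    · funext g h k
      change X.b (d1 X.ρ (x.1 + x'.1) g h) (X.ρ' (g * h) (y.1 k)) =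
        X.b (d1 X.ρ x.1 g h) (X.ρ' (g * h) (y.1 k)) + X.b (d1 X.ρ x'.1 g h) (X.ρ' (g * h) (y.1 k))
      rw [d1_add, map_add, AddMonoidHom.add_apply]
    · funext w g h
      simp only [Xi, Prod.snd_add, Pi.add_apply]
      split_ifs with hw
      · simp only [cup11, d0, Prod.fst_add, Pi.add_apply, map_add, map_sub,
          AddMonoidHom.add_apply, AddMonoidHom.sub_apply]
        abel
      · simp only [cup20, pb2, Prod.fst_add, d1_add, map_add, AddMonoidHom.add_apply]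
  rw [CT, e, map_add]
  rfl

theorem add_right (x : (G → M) × (S → M)) (y y' : (G → M') × (S → M')) :
    CT Γ X T x (y + y') = CT Γ X T x y + CT Γ X T x y' := by
  have e : Xi Γ X T x (y + y') = Xi Γ X T x y + Xi Γ X T x y' := by
    refine Prod.ext ?_ ?_
    · funext g h k
      change X.b (d1 X.ρ x.1 g h) (X.ρ' (g * h) (y.1 k + y'.1 k)) =
        X.b (d1 X.ρ x.1 g h) (X.ρ' (g * h) (y.1 k)) + X.b (d1 X.ρ x.1 g h) (X.ρ' (g * h) (y'.1 k))
      rw [map_add, map_add]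
    · funext w g h
      simp only [Xi, Prod.snd_add, Pi.add_apply]
      split_ifs with hw
      · simp only [cup11, pb1, Prod.fst_add, Pi.add_apply, map_add]
      · simp only [cup20, map_add]
  rw [CT, e, map_add]
  rfl

theorem smul_bal (a : R) (x : (G → M) × (S → M)) (y : (G → M') × (S → M')) :
    CT Γ X T (a • x) y = CT Γ X T x (a • y) := by
  have ed (z : G → M) (g h : G) : d1 X.ρ (a • z) g h = a • d1 X.ρ z g h := by
    simp only [d1, Pi.smul_apply, X.lin, smul_add, smul_sub]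
  have e : Xi Γ X T (a • x) y = Xi Γ X T x (a • y) := by
    refine Prod.ext ?_ ?_
    · funext g h k
      change X.b (d1 X.ρ (a • x.1) g h) (X.ρ' (g * h) (y.1 k)) =
        X.b (d1 X.ρ x.1 g h) (X.ρ' (g * h) (a • y.1 k))
      rw [ed, X.bal, X.lin']
    · funext w g h
      simp only [Xi]
      split_ifs with hw
      · change X.b ((a • x).1 (Γ.r w g) - d0 X.ρ ((a • x).2 w) (Γ.r w g))
          (X.ρ' (Γ.r w g) (y.1 (Γ.r w h))) = X.b (x.1 (Γ.r w g) - d0 X.ρ (x.2 w) (Γ.r w g))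
          (X.ρ' (Γ.r w g) ((a • y).1 (Γ.r w h)))
        have e1 : (a • x).1 (Γ.r w g) - d0 X.ρ ((a • x).2 w) (Γ.r w g) =
            a • (x.1 (Γ.r w g) - d0 X.ρ (x.2 w) (Γ.r w g)) := by
          simp only [d0, Prod.smul_fst, Prod.smul_snd, Pi.smul_apply, X.lin, smul_sub]
        rw [e1, X.bal, Prod.smul_fst, Pi.smul_apply, X.lin']
      · change X.b (d1 X.ρ (a • x.1) (Γ.r w g) (Γ.r w h))
          (X.ρ' (Γ.r w (g * h)) (y.2 w)) = X.b (d1 X.ρ x.1 (Γ.r w g) (Γ.r w h))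
          (X.ρ' (Γ.r w (g * h)) ((a • y).2 w))
        rw [ed, X.bal, Prod.smul_snd, Pi.smul_apply, X.lin']
  rw [CT, e]
  rfl

/-- annihilators are stable -/
theorem perp_stable {N : Submodule R M} (hN : X.Stable N) {m' : M'} (hm : m' ∈ X.perp N) (g : G) :
    X.ρ' g m' ∈ X.perp N := by
  intro n hn
  have e := X.eqv g (X.ρ g⁻¹ n) m'
  rw [← act_mul, mul_inv_cancel, map_one, AddMonoid.End.one_apply] at e
  rw [e, hm _ (hN _ _ hn), map_zero]

/-- the pairing of an element of `N` with elements congruent modulo the annihilator of `N` -/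
theorem pair_congr {N : Submodule R M} {n : M} (hn : n ∈ N) {m m' : M'}
    (h : m - m' ∈ X.perp N) : X.b n m = X.b n m' := by
  have e := h n hn
  rw [map_sub, sub_eq_zero] at e
  exact e

variable [IsTopologicalGroup G] [CompactSpace G]

/-- vanishing on coboundaries in the first variable -/
theorem van1 (N : Submodule R M) (hN : X.Stable N) (x : (G → M) × (S → M)) (hx : x ∈ X.Br T N ⊤)
    (y : (G → M') × (S → M')) (hy : y ∈ X.flip.Zr Γ.r Tᶜ (X.perp N) ⊤) : CT Γ X T x y = 0 := by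
  obtain ⟨z, m⟩ := x
  obtain ⟨e, f⟩ := y
  obtain ⟨hz, ⟨n, -, hn1, hn2⟩, hm⟩ := hx
  obtain ⟨he, -, he1, hf, hf'⟩ := hy
  simp only at hz hn1 hn2 hm he he1 hf hf'
  have hq : Loc1 (z - d0 X.ρ n) := BKND.Loc1.map2 hz (loc1_d0 X.sm n) (· - ·)
  have hdq (g h : G) : d1 X.ρ z g h = d1 X.ρ (z - d0 X.ρ n) g h := by
    rw [d1_sub, d1_d0, sub_zero]
  set q : G → M := z - d0 X.ρ n with hqdef
  have hqN (g : G) : q g ∈ N := hn1 g
  refine tr_zero Γ _ _ (cup11 X.b X.ρ' q e) (loc2_cup11 X.b X.sm' hq he) ?_ fun w => ?_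
  · funext g h k
    rw [d2_cup11 X.b X.ρ X.ρ' Γ.α X.eqv]
    have e1 : cup12 X.b X.ρ' q (d1 X.ρ' e) g h k = 0 :=
      perp_stable Γ X hN (he1 h k) g (q g) (hqN g)
    rw [e1, sub_zero]
    simp only [cup21, hdq]
  · by_cases hw : w ∈ T
    · refine ⟨fun g => - X.b (m w - n) (e g), BKND.Loc1.map he fun x => - X.b (m w - n) x, ?_⟩
      funext g h
      have e1 := d1_pair' X.b X.ρ X.ρ' Γ.α X.eqv (m w - n) e (Γ.r w g) (Γ.r w h)
      have e2 : X.b (m w - n) (d1 X.ρ' e (Γ.r w g) (Γ.r w h)) = 0 :=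
        he1 (Γ.r w g) (Γ.r w h) _ (hn2 w hw)
      have e3 : d1 Γ.α (fun g => - X.b (m w - n) (e g)) (Γ.r w g) (Γ.r w h) =
          - d1 Γ.α (fun g => X.b (m w - n) (e g)) (Γ.r w g) (Γ.r w h) := by
        simp only [d1, map_neg]
        abel
      change (Xi Γ X T (z, m) (e, f)).2 w g h -
        cup11 X.b X.ρ' q e (Γ.r w g) (Γ.r w h) =
        d1 Γ.α (fun g => - X.b (m w - n) (e g)) (Γ.r w g) (Γ.r w h)
      rw [Xi_in Γ X T hw, e3, e1, e2]
      simp only [cup11, pb1, d0, hqdef, Pi.sub_apply, map_sub, AddMonoidHom.sub_apply,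
        MonoidHom.comp_apply]
      abel
    · have hf1 := hf w hw
      refine ⟨fun g => X.b (q g) (X.ρ' g (f w)),
        BKND.Loc1.map2 hq (loc1_act X.sm' (f w)) fun x y => X.b x y, ?_⟩
      funext g h
      have e1 := d1_pair X.b X.ρ X.ρ' Γ.α X.eqv q (f w) (Γ.r w g) (Γ.r w h)
      have e2 : cup11 X.b X.ρ' q e (Γ.r w g) (Γ.r w h) =
          cup11 X.b X.ρ' q (d0 X.ρ' (f w)) (Γ.r w g) (Γ.r w h) := by
        refine pair_congr Γ X (hqN _) ?_
        rw [← map_sub]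
        exact perp_stable Γ X hN (hf1.2 h) _
      change (Xi Γ X T (z, m) (e, f)).2 w g h -
        cup11 X.b X.ρ' q e (Γ.r w g) (Γ.r w h) =
        d1 Γ.α (fun g => X.b (q g) (X.ρ' g (f w))) (Γ.r w g) (Γ.r w h)
      rw [Xi_out Γ X T hw, e1, e2]
      simp only [cup20, pb2, hdq, MonoidHom.comp_apply, map_mul]

/-- vanishing on coboundaries in the second variable -/
theorem van2 (N : Submodule R M) (hN : X.Stable N) (x : (G → M) × (S → M))
    (hx : x ∈ X.Zr Γ.r T N ⊤) (y : (G → M') × (S → M')) (hy : y ∈ X.flip.Br Tᶜ (X.perp N) ⊤) :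
    CT Γ X T x y = 0 := by
  obtain ⟨z, m⟩ := x
  obtain ⟨e, f⟩ := y
  obtain ⟨hz, -, hz1, hm, hm'⟩ := hx
  obtain ⟨he, ⟨n, -, hn1, hn2⟩, hf⟩ := hy
  simp only at hz hz1 hm hm' he hn1 hn2 hf
  refine tr_zero Γ _ _ (cup20 X.b X.ρ' (d1 X.ρ z) n)
    (loc2_cup20 X.b X.sm' (loc2_d1 X.sm hz) n) ?_ fun w => ?_
  · funext g h k
    rw [d2_cup20 X.b X.ρ X.ρ' Γ.α X.eqv]
    refine pair_congr Γ X (hz1 g h) ?_
    rw [← map_sub]
    exact perp_stable Γ X hN (hn1 k) _
  · by_cases hw : w ∈ T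
    · have hm1 := hm w hw
      have hdq (g h : G) : d1 X.ρ (z - d0 X.ρ (m w)) g h = d1 X.ρ z g h := by
        rw [d1_sub, d1_d0, sub_zero]
      have hq : Loc1 (z - d0 X.ρ (m w)) := BKND.Loc1.map2 hz (loc1_d0 X.sm (m w)) (· - ·)
      set q : G → M := z - d0 X.ρ (m w) with hqdef
      refine ⟨fun g => - X.b (q g) (X.ρ' g n),
        BKND.Loc1.map2 hq (loc1_act X.sm' n) fun x y => - X.b x y, ?_⟩
      funext g h
      have e1 := d1_pair X.b X.ρ X.ρ' Γ.α X.eqv q n (Γ.r w g) (Γ.r w h)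
      have e3 : d1 Γ.α (fun g => - X.b (q g) (X.ρ' g n)) (Γ.r w g) (Γ.r w h) =
          - d1 Γ.α (fun g => X.b (q g) (X.ρ' g n)) (Γ.r w g) (Γ.r w h) := by
        simp only [d1, map_neg]
        abel
      have e4 : X.b (q (Γ.r w g)) (X.ρ' (Γ.r w g) (e (Γ.r w h))) =
          X.b (q (Γ.r w g)) (X.ρ' (Γ.r w g) (d0 X.ρ' n (Γ.r w h))) := by
        refine pair_congr Γ X (hm1.2 g) ?_
        rw [← map_sub]
        exact perp_stable Γ X hN (hn1 _) _
      change (Xi Γ X T (z, m) (e, f)).2 w g h -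
        cup20 X.b X.ρ' (d1 X.ρ z) n (Γ.r w g) (Γ.r w h) =
        d1 Γ.α (fun g => - X.b (q g) (X.ρ' g n)) (Γ.r w g) (Γ.r w h)
      rw [Xi_in Γ X T hw, e3, e1]
      change X.b (q (Γ.r w g)) (X.ρ' (Γ.r w g) (e (Γ.r w h))) - _ = _
      rw [e4]
      simp only [cup20, cup11, hdq]
      abel
    · refine ⟨fun _ => 0, BKND.Loc1.const 0, ?_⟩
      funext g h
      change (Xi Γ X T (z, m) (e, f)).2 w g h -
        cup20 X.b X.ρ' (d1 X.ρ z) n (Γ.r w g) (Γ.r w h) =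
        Γ.α (Γ.r w g) 0 - 0 + 0
      rw [Xi_out Γ X T hw, map_zero, sub_zero, add_zero, sub_eq_zero]
      change X.b (d1 X.ρ z (Γ.r w g) (Γ.r w h)) (X.ρ' (Γ.r w (g * h)) (f w)) =
        X.b (d1 X.ρ z (Γ.r w g) (Γ.r w h)) (X.ρ' (Γ.r w g * Γ.r w h) n)
      rw [map_mul]
      refine pair_congr Γ X (hz1 _ _) ?_
      rw [← map_sub]
      exact perp_stable Γ X hN (hn2 w hw) _

omit [IsTopologicalGroup G] [CompactSpace G] in
/-- vanishing on `N` and its annihilator -/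
theorem van3 (N : Submodule R M) (hN : X.Stable N) (x : (G → M) × (S → M))
    (hx : x ∈ X.Zr Γ.r T N ⊤) (y : (G → M') × (S → M'))
    (hy : y ∈ X.flip.Zr Γ.r Tᶜ ⊤ (X.perp N)) : CT Γ X T x y = 0 := by
  obtain ⟨z, m⟩ := x
  obtain ⟨e, f⟩ := y
  obtain ⟨hz, -, hz1, hm, hm'⟩ := hx
  obtain ⟨he, he0, he1, hf, hf'⟩ := hy
  simp only at hz hz1 hm hm' he he0 he1 hf hf'
  have e0 : Xi Γ X T (z, m) (e, f) = 0 := by
    refine Prod.ext ?_ ?_
    · funext g h k
      exact perp_stable Γ X hN (he0 k) _ _ (hz1 g h)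
    · funext w g h
      simp only [Xi]
      by_cases hw : w ∈ T
      · rw [if_pos hw]
        exact perp_stable Γ X hN (he0 _) _ _ ((hm w hw).2 g)
      · rw [if_neg hw]
        exact perp_stable Γ X hN ((hf w hw).1) _ _ (hz1 _ _)
  rw [CT, e0, map_zero]

end Pairing

end XCT

/-- **Module CT**: bilinearity and vanishing of the pairing. -/
theorem stCT : StCT := by
  intro R _ S _ G _ _ _ _ D _ _ A E _ _ Γ M M' _ _ _ _ X T
  refine ⟨XCT.add_left Γ X T, XCT.add_right Γ X T, XCT.smul_bal Γ X T, fun N hN =>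
    ⟨fun x hx y hy => XCT.van1 Γ X T N hN x hx y hy,
      fun x hx y hy => XCT.van2 Γ X T N hN x hx y hy,
      fun x hx y hy => XCT.van3 Γ X T N hN x hx y hy⟩⟩

end BKMet
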