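import Pool.Agent.Lib.MP_7c08ba_nt.Met.StX

set_option autoImplicit false

/-!
Module DUAL: duality for pairings of subgroups with given kernels.
-/

noncomputable section

namespace BKMet

namespace XDUAL

variable {p : ℕ} [Fact p.Prime] {V W : Type} [AddCommGroup V] [AddCommGroup W]

/-- homomorphisms on the quotient by the left kernel -/
def gq (b : V →+ W →+ QZ p) : W →+ ((V ⧸ b.ker) →+ QZ p) :=
  AddMonoidHom.mk' (fun y => QuotientAddGroup.lift b.ker (b.flip y) (fun x hx => by
    have h1 : b x = 0 := hx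
    rw [AddMonoidHom.mem_ker, AddMonoidHom.flip_apply, h1, AddMonoidHom.zero_apply])) (by
    intro y y'
    ext x
    simp [map_add])

theorem gq_apply (b : V →+ W →+ QZ p) (y : W) (x : V) :
    gq b y (QuotientAddGroup.mk x) = b x y := rfl

theorem gq_ker (b : V →+ W →+ QZ p) : (gq b).ker = b.flip.ker := by
  ext y
  rw [AddMonoidHom.mem_ker, AddMonoidHom.mem_ker]
  constructor
  · intro h
    ext x
    have h1 := DFunLike.congr_fun h (QuotientAddGroup.mk x)
    exact h1
  · intro h
    ext x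
    have h1 := DFunLike.congr_fun h x
    exact h1

theorem le (h2 : StHoms) (b : V →+ W →+ QZ p) (h : b.ker.index ≠ 0) :
    b.flip.ker.index ≠ 0 ∧ b.flip.ker.index ≤ b.ker.index ∧
      (b.flip.ker.index = b.ker.index → Function.Surjective (gq b)) := by
  have hf : b.ker.FiniteIndex := ⟨h⟩
  have hfin : Finite (V ⧸ b.ker) := inferInstance
  obtain ⟨h3, h4, -⟩ := h2 p (V ⧸ b.ker)
  rw [← gq_ker, AddSubgroup.index_ker]
  have h5 : Nat.card (gq b).range ≤ Nat.card ((V ⧸ b.ker) →+ QZ p) :=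
    Nat.card_le_card_of_injective (fun x : (gq b).range => (x : (V ⧸ b.ker) →+ QZ p))
      Subtype.val_injective
  have h6 : Nat.card (V ⧸ b.ker) = b.ker.index := rfl
  rw [h6] at h4
  refine ⟨Nat.card_pos.ne', h5.trans h4, fun h7 => ?_⟩
  rw [← AddMonoidHom.range_eq_top]
  refine AddSubgroup.eq_top_of_card_eq _ (le_antisymm h5 ?_)
  rw [h7]
  exact h4

end XDUAL

open XDUAL in
/-- Module DUAL. -/
theorem stDual (_h1 : StExt) (h2 : StHoms) : StDual := by
  intro p _ V W _ _ B X X₁ Y Y₁ hB1 hB2 hX hY hX1 hY1 hidx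
  obtain ⟨b, hb⟩ : ∃ b : X →+ Y →+ QZ p, ∀ (x : X) (y : Y), b x y = B x y :=
    ⟨AddMonoidHom.mk' (fun x => AddMonoidHom.mk' (fun y : Y => B x y)
      (fun y y' => hB2 x x.2 y y.2 y' y'.2)) (by
        intro x x'
        ext y
        exact hB1 x x.2 x' x'.2 y y.2), fun x y => rfl⟩
  have hk : b.ker = X₁.addSubgroupOf X := by
    ext x
    rw [AddMonoidHom.mem_ker, AddSubgroup.mem_addSubgroupOf, hX1 x x.2]
    constructor
    · intro h y hy
      have h3 := DFunLike.congr_fun h ⟨y, hy⟩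
      rw [hb] at h3
      exact h3
    · intro h
      ext y
      rw [hb]
      exact h y y.2
  have hk' : b.flip.ker = Y₁.addSubgroupOf Y := by
    ext y
    rw [AddMonoidHom.mem_ker, AddSubgroup.mem_addSubgroupOf, hY1 y y.2]
    constructor
    · intro h x hx
      have h3 := DFunLike.congr_fun h ⟨x, hx⟩
      rw [AddMonoidHom.flip_apply, hb] at h3
      exact h3
    · intro h
      ext x
      rw [AddMonoidHom.flip_apply, hb]
      exact h x x.2
  have hi : b.ker.index ≠ 0 := by
    rw [hk]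
    exact hidx
  obtain ⟨h3, h4, h5⟩ := le h2 b hi
  obtain ⟨h6, h7, -⟩ := le h2 b.flip h3
  have h8 : b.flip.flip = b := by
    ext x y
    rfl
  rw [h8] at h7
  have h9 : b.flip.ker.index = b.ker.index := le_antisymm h4 h7
  refine ⟨?_, fun φ hφ hφ1 => ?_⟩
  · rw [hk, hk'] at h9
    exact h9
  · obtain ⟨y, hy⟩ := h5 h9 (QuotientAddGroup.lift b.ker
      (AddMonoidHom.mk' (fun x : X => φ x) (fun x x' => hφ x x.2 x' x'.2)) (fun x hx => by
        rw [hk] at hx
        exact hφ1 x hx))
    refine ⟨y, y.2, fun x hx => ?_⟩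
    have h10 := DFunLike.congr_fun hy (QuotientAddGroup.mk ⟨x, hx⟩)
    rw [gq_apply, hb] at h10
    exact h10.symm

end BKMet
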