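import Pool.Agent.Lib.MP_7c08ba_nt.Met.StX

set_option autoImplicit false

/-! Module EXACT: exactness and the index formula for relative cocycles. -/

noncomputable section

namespace BKMet

open BKPar (Loc1 Loc2)
open BKND (Sm)

namespace XEXACT

section Coch

variable {G : Type*} [Group G] {M : Type*} [AddCommGroup M]

theorem d0_add (ρ : G →* AddMonoid.End M) (m n : M) (g : G) :
    d0 ρ (m + n) g = d0 ρ m g + d0 ρ n g := by
  simp only [d0, map_add]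
  abel

theorem d0_sub (ρ : G →* AddMonoid.End M) (m n : M) (g : G) :
    d0 ρ (m - n) g = d0 ρ m g - d0 ρ n g := by
  simp only [d0, map_sub]
  abel

/-- a function differs from a coboundary by values in `P`: the coboundary has values in `P` -/
theorem d1_sub_d0 (ρ : G →* AddMonoid.End M) (z : G → M) (n : M) (g h : G) :
    d1 ρ (fun g => z g - d0 ρ n g) g h = d1 ρ z g h := by
  have e : ρ (g * h) n = ρ g (ρ h n) := by
    rw [map_mul]
    rfl
  simp only [d1, d0, map_sub, e]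
  abel

theorem loc_d0 [TopologicalSpace G] {ρ : G →* AddMonoid.End M} (h : Sm ρ) (n : M) :
    Loc1 (d0 ρ n) := by
  obtain ⟨W, hW, h1⟩ := h
  refine ⟨W, hW, fun g w hw => ?_⟩
  simp only [d0, map_mul, h1 w hw, mul_one]

end Coch

section Mod

variable {R : Type} [CommRing R] {G : Type} [Group G] [TopologicalSpace G] {A : Type}
  [AddCommGroup A] {α : G →* AddMonoid.End A} {M M' : Type} [AddCommGroup M] [Module R M]
  [AddCommGroup M'] [Module R M'] {X : Pair R α M M'} {P N Q : Submodule R M}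

theorem d0_mem (hP : X.Stable P) {m : M} (hm : m ∈ P) (g : G) : d0 X.ρ m g ∈ P :=
  P.sub_mem (hP g m hm) hm

theorem d1_mem (hP : X.Stable P) {z : G → M} (hz : ∀ g, z g ∈ P) (g h : G) :
    d1 X.ρ z g h ∈ P :=
  P.add_mem (P.sub_mem (hP g _ (hz h)) (hz _)) (hz g)

variable {S : Type} {D : S → Type} [∀ w, Group (D w)] {r : ∀ w, D w →* G} {T : Set S}

theorem br_le_zr (hP : X.Stable P) (hPQ : P ≤ Q) (hQ : X.Stable Q) :
    X.Br T P Q ≤ X.Zr r T P Q := by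
  rintro x ⟨hx, ⟨n, hn, h1, h2⟩, h3⟩
  refine ⟨hx, fun g => ?_, fun g h => ?_, fun w hw => ⟨?_, fun d => ?_⟩, h3⟩
  · have := Q.add_mem (hPQ (h1 g)) (d0_mem hQ hn g)
    rwa [sub_add_cancel] at this
  · rw [← d1_sub_d0 X.ρ x.1 n]
    exact d1_mem hP h1 g h
  · have := Q.add_mem (hPQ (h2 w hw)) hn
    rwa [sub_add_cancel] at this
  · have := P.sub_mem (h1 (r w d)) (d0_mem hP (h2 w hw) (r w d))
    rw [d0_sub] at this
    convert this using 1
    abel

theorem zr_mono_right (hNQ : N ≤ Q) : X.Zr r T P N ≤ X.Zr r T P Q := by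
  rintro x ⟨hx, h1, h2, h3, h4⟩
  exact ⟨hx, fun g => hNQ (h1 g), h2, fun w hw => ⟨hNQ (h3 w hw).1, (h3 w hw).2⟩, h4⟩

theorem br_mono_left (hPN : P ≤ N) : X.Br T P Q ≤ X.Br T N Q := by
  rintro x ⟨hx, ⟨n, hn, h1, h2⟩, h3⟩
  exact ⟨hx, ⟨n, hn, fun g => hPN (h1 g), fun w hw => hPN (h2 w hw)⟩, h3⟩

theorem br_mono_right (hNQ : N ≤ Q) : X.Br T P N ≤ X.Br T P Q := by
  rintro x ⟨hx, ⟨n, hn, h1, h2⟩, h3⟩
  exact ⟨hx, ⟨n, hNQ hn, h1, h2⟩, h3⟩

theorem zr_le_br : X.Zr r T P N ≤ X.Br T N Q := by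
  rintro x ⟨hx, h1, _, h3, h4⟩
  refine ⟨hx, ⟨0, Q.zero_mem, fun g => ?_, fun w hw => ?_⟩, h4⟩
  · have : d0 X.ρ (0 : M) g = 0 := by simp [d0]
    rw [this, sub_zero]
    exact h1 g
  · rw [sub_zero]
    exact (h3 w hw).1

theorem br_of_br (hT : T.Nonempty) (hPN : P ≤ N) {x : (G → M) × (S → M)}
    (hx : x ∈ X.Zr r T P N) (hx' : x ∈ X.Br T P Q) : x ∈ X.Br T P N := by
  obtain ⟨h0, ⟨n, _, h1, h2⟩, h3⟩ := hx'
  refine ⟨h0, ⟨n, ?_, h1, h2⟩, h3⟩
  obtain ⟨w, hw⟩ := hT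
  have := N.sub_mem (hx.2.2.2.1 w hw).1 (hPN (h2 w hw))
  rwa [sub_sub_cancel] at this

theorem exists_sub {x : (G → M) × (S → M)} (hx : x ∈ X.Zr r T P Q) (hx' : x ∈ X.Br T N Q) :
    ∃ x' ∈ X.Zr r T P N, x - x' ∈ X.Br T P Q := by
  classical
  obtain ⟨h0, ⟨n, hn, h1, h2⟩, h3⟩ := hx'
  obtain ⟨-, -, k2, k3, -⟩ := hx
  let y : (G → M) × (S → M) := (d0 X.ρ n, fun w => if w ∈ T then n else 0)
  have hy : y ∈ X.Br T P Q := by
    refine ⟨loc_d0 X.sm n, ⟨n, hn, fun g => ?_, fun w hw => ?_⟩, fun w hw => if_neg hw⟩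
    · show d0 X.ρ n g - d0 X.ρ n g ∈ P
      rw [sub_self]
      exact P.zero_mem
    · show (if w ∈ T then n else 0) - n ∈ P
      rw [if_pos hw, sub_self]
      exact P.zero_mem
  refine ⟨x - y, ⟨?_, fun g => h1 g, fun g h => ?_, fun w hw => ⟨?_, fun d => ?_⟩,
    fun w hw => ?_⟩, by rwa [sub_sub_cancel]⟩
  · exact BKND.Loc1.map2 h0 (loc_d0 X.sm n) (fun a b => a - b)
  · have : d1 X.ρ (x - y).1 g h = d1 X.ρ x.1 g h := d1_sub_d0 X.ρ x.1 n g h
    rw [this]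
    exact k2 g h
  · show x.2 w - (if w ∈ T then n else 0) ∈ N
    rw [if_pos hw]
    exact h2 w hw
  · show x.1 (r w d) - d0 X.ρ n (r w d) - d0 X.ρ (x.2 w - (if w ∈ T then n else 0)) (r w d) ∈ P
    rw [if_pos hw, d0_sub]
    convert (k3 w hw).2 d using 1
    abel
  · show x.2 w - (if w ∈ T then n else 0) = 0
    rw [if_neg hw, h3 w hw, sub_zero]

theorem inf_eq (hPN : P ≤ N) (hP : X.Stable P) (hPQ : P ≤ Q) (hQ : X.Stable Q) (hNQ : N ≤ Q) :
    (X.Br T N Q).toAddSubgroup ⊓ (X.Zr r T P Q).toAddSubgroup =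
      (X.Zr r T P N).toAddSubgroup ⊔ (X.Br T P Q).toAddSubgroup := by
  apply le_antisymm
  · rintro x ⟨h1, h2⟩
    obtain ⟨x', hx', h⟩ := exists_sub (show x ∈ X.Zr r T P Q from h2)
      (show x ∈ X.Br T N Q from h1)
    rw [AddSubgroup.mem_sup]
    exact ⟨x', hx', x - x', h, add_sub_cancel _ _⟩
  · refine sup_le (le_inf ?_ ?_) (le_inf ?_ ?_)
    · intro x hx
      exact zr_le_br (show x ∈ X.Zr r T P N from hx)
    · intro x hx
      exact zr_mono_right hNQ hx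
    · intro x hx
      exact br_mono_left hPN hx
    · intro x hx
      exact br_le_zr hP hPQ hQ hx

end Mod

end XEXACT

open XEXACT

theorem stExact : StExact := by
  intro R _ G _ _ _ _ S D _ r A _ α M M' _ _ _ _ X T hT
  refine ⟨fun P Q hP hPQ hQ => br_le_zr hP hPQ hQ, ?_⟩
  intro P N Q hP hN hQ hPN hNQ
  have c1 : ∀ x ∈ X.Zr r T P N, x ∈ X.Br T P Q → x ∈ X.Br T P N := fun x hx hx' =>
    br_of_br hT hPN hx hx'
  refine ⟨c1, fun x hx hx' => exists_sub hx hx', ?_⟩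
  have hPQ := hPN.trans hNQ
  have e1 : (X.Br T P N).toAddSubgroup.relIndex (X.Zr r T P N).toAddSubgroup =
      (X.Br T P Q).toAddSubgroup.relIndex
        ((X.Zr r T P N).toAddSubgroup ⊔ (X.Br T P Q).toAddSubgroup) := by
    rw [AddSubgroup.relIndex_sup_right, ← AddSubgroup.inf_relIndex_right (X.Br T P N).toAddSubgroup,
      ← AddSubgroup.inf_relIndex_right (X.Br T P Q).toAddSubgroup]
    congr 1
    ext x
    constructor
    · rintro ⟨h1, h2⟩
      exact ⟨br_mono_right hNQ h1, h2⟩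
    · rintro ⟨h1, h2⟩
      exact ⟨c1 x h2 h1, h2⟩
  have e2 : (X.Br T N Q).toAddSubgroup.relIndex ((X.Zr r T P Q) ⊔ (X.Br T N Q)).toAddSubgroup =
      ((X.Zr r T P N).toAddSubgroup ⊔ (X.Br T P Q).toAddSubgroup).relIndex
        (X.Zr r T P Q).toAddSubgroup := by
    rw [Submodule.sup_toAddSubgroup, AddSubgroup.relIndex_sup_right,
      ← AddSubgroup.inf_relIndex_right, inf_eq hPN hP hPQ hQ hNQ]
  rw [e1, e2, AddSubgroup.relIndex_mul_relIndex]
  · exact le_sup_right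
  · refine sup_le ?_ ?_
    · intro x hx
      exact zr_mono_right hNQ hx
    · intro x hx
      exact br_le_zr hP hPQ hQ hx

end BKMet
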