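import Pool.Agent.Lib.MP_7c08ba_nt.Met.StX

set_option autoImplicit false

/-!
Metabolic parity, module HOMS: homomorphisms of finite groups to `ℚ_p/ℤ_p`.
-/

noncomputable section

namespace BKMet

namespace XHOMS

variable {p : ℕ} [hp : Fact p.Prime]

/-- the projection -/
def pr : ℚ_[p] →ₗ[ℤ_[p]] QZ p := Submodule.mkQ _

theorem pr_surj : Function.Surjective (pr (p := p)) := Submodule.mkQ_surjective _

theorem pr_eq_zero (t : ℚ_[p]) : pr t = 0 ↔ ‖t‖ ≤ 1 := by
  unfold pr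
  rw [Submodule.mkQ_apply, Submodule.Quotient.mk_eq_zero]
  constructor
  · rintro ⟨y, rfl⟩
    exact y.2
  · intro h
    exact ⟨⟨t, h⟩, rfl⟩

theorem smul_pr (n : ℕ) (t : ℚ_[p]) : n • pr t = pr ((n : ℚ_[p]) * t) := by
  rw [← map_nsmul, nsmul_eq_mul]

/-- no torsion prime to `p` -/
theorem tors {m : ℕ} (hm : ¬ p ∣ m) {y : QZ p} (h : m • y = 0) : y = 0 := by
  obtain ⟨t, rfl⟩ := pr_surj y
  rw [smul_pr, pr_eq_zero] at h
  rw [pr_eq_zero]
  have h1 : ‖(m : ℚ_[p])‖ = 1 := by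
    rw [Padic.norm_natCast_eq_one_iff]
    exact (Nat.Prime.coprime_iff_not_dvd hp.out).mpr hm
  rwa [norm_mul, h1, one_mul] at h

/-- the generator of the `p ^ k`-torsion -/
def gen (k : ℕ) : QZ p := pr (((p : ℚ_[p]) ^ k)⁻¹)

theorem p_ne : (p : ℚ_[p]) ≠ 0 := by exact_mod_cast hp.out.ne_zero

theorem smul_gen_eq_zero (k n : ℕ) : n • gen (p := p) k = 0 ↔ p ^ k ∣ n := by
  unfold gen
  rw [smul_pr, pr_eq_zero, norm_mul, norm_inv, norm_pow, Padic.norm_p]
  rcases eq_or_ne n 0 with rfl | hn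
  · simp
  · have hp0 : (0 : ℝ) < p := by exact_mod_cast hp.out.pos
    rw [inv_pow, inv_inv]
    have h1 := Padic.norm_int_le_pow_iff_dvd (p := p) (n : ℤ) k
    have h2 : ‖((n : ℤ) : ℚ_[p])‖ = ‖(n : ℚ_[p])‖ := by norm_cast
    rw [h2] at h1
    have h3 : ((p : ℝ) ^ (-(k : ℤ))) = ((p : ℝ) ^ k)⁻¹ := by
      rw [zpow_neg, zpow_natCast]
    rw [h3] at h1
    have h4 : ‖(n : ℚ_[p])‖ * (p : ℝ) ^ k ≤ 1 ↔ ‖(n : ℚ_[p])‖ ≤ ((p : ℝ) ^ k)⁻¹ := by
      rw [← le_div_iff₀ (by positivity), one_div]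
    rw [h4, h1]
    exact_mod_cast Iff.rfl

/-- the `p ^ k`-torsion is generated by `gen k` -/
theorem exists_smul_gen (k : ℕ) {y : QZ p} (h : (p ^ k) • y = 0) : ∃ n : ℕ, y = n • gen k := by
  obtain ⟨t, rfl⟩ := pr_surj y
  rw [smul_pr, pr_eq_zero] at h
  obtain ⟨a, ha⟩ : ∃ a : ℤ_[p], (a : ℚ_[p]) = ((p ^ k : ℕ) : ℚ_[p]) * t := ⟨⟨_, h⟩, rfl⟩
  refine ⟨a.appr k, ?_⟩
  unfold gen
  rw [smul_pr, ← sub_eq_zero, ← map_sub, pr_eq_zero]
  have h1 := PadicInt.appr_spec k a
  rw [Ideal.mem_span_singleton] at h1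
  obtain ⟨b, hb⟩ := h1
  have hpk : ((p : ℚ_[p]) ^ k) ≠ 0 := pow_ne_zero _ p_ne
  have h2 : t - (a.appr k : ℚ_[p]) * ((p : ℚ_[p]) ^ k)⁻¹ = b := by
    have h3 : (a : ℚ_[p]) - (a.appr k : ℚ_[p]) = (p : ℚ_[p]) ^ k * b := by
      have := congrArg (fun z : ℤ_[p] => (z : ℚ_[p])) hb
      simpa using this
    rw [ha] at h3
    push_cast at h3
    field_simp
    linear_combination h3
  rw [h2]
  exact b.2

/-- the group `ℚ_p/ℤ_p` has enough roots of unity -/
theorem enough (k : ℕ) : HasEnoughRootsOfUnity (Multiplicative (QZ p)) (p ^ k) where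
  prim := by
    refine ⟨Multiplicative.ofAdd (gen k), ?_, fun l hl => ?_⟩
    · rw [← ofAdd_nsmul, (smul_gen_eq_zero k _).mpr dvd_rfl]
      rfl
    · rw [← ofAdd_nsmul] at hl
      exact (smul_gen_eq_zero k l).mp hl
  cyc := by
    have hg : toUnits (Multiplicative.ofAdd (gen (p := p) k)) ∈
        rootsOfUnity (p ^ k) (Multiplicative (QZ p)) := by
      rw [mem_rootsOfUnity, ← map_pow, ← ofAdd_nsmul, (smul_gen_eq_zero k _).mpr dvd_rfl]
      exact map_one _
    refine ⟨⟨⟨_, hg⟩, fun x => ?_⟩⟩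
    obtain ⟨x, hx⟩ := x
    obtain ⟨y, rfl⟩ := toUnits.surjective x
    rw [mem_rootsOfUnity, ← map_pow] at hx
    have hy : y ^ (p ^ k) = 1 := by
      apply toUnits.injective
      rw [hx, map_one]
    obtain ⟨n, hn⟩ := exists_smul_gen k (y := Multiplicative.toAdd y) (by
      rw [← toAdd_pow, hy]
      rfl)
    refine ⟨n, Subtype.ext ?_⟩
    have hy' : y = Multiplicative.ofAdd (gen k) ^ n := by
      rw [← ofAdd_nsmul, ← hn]
      rfl
    show (((⟨toUnits (Multiplicative.ofAdd (gen (p := p) k)), hg⟩ :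
      rootsOfUnity (p ^ k) (Multiplicative (QZ p))) ^ (n : ℤ) : _) :
        (Multiplicative (QZ p))ˣ) = toUnits y
    rw [hy', map_pow, zpow_natCast]
    rfl

/-- homomorphisms as homomorphisms to the units -/
def homEquiv (V : Type) [AddCommGroup V] :
    (V →+ QZ p) ≃ (Multiplicative V →* (Multiplicative (QZ p))ˣ) where
  toFun f := (toUnits (G := Multiplicative (QZ p))).toMonoidHom.comp (AddMonoidHom.toMultiplicative f)
  invFun g := AddMonoidHom.toMultiplicative.symm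
    ((toUnits (G := Multiplicative (QZ p))).symm.toMonoidHom.comp g)
  left_inv f := by
    ext v
    rfl
  right_inv g := by
    ext v
    rfl

/-- groups of order a power of `p` -/
theorem pgroup (V : Type) [AddCommGroup V] [Finite V] (h : ∃ k : ℕ, Nat.card V = p ^ k) :
    Nat.card (V →+ QZ p) = Nat.card V ∧ ∀ v : V, v ≠ 0 → ∃ f : V →+ QZ p, f v ≠ 0 := by
  obtain ⟨k, hk⟩ := h
  have h1 : Monoid.exponent (Multiplicative V) ∣ p ^ k := by
    rw [← hk]
    exact Group.exponent_dvd_nat_card (G := Multiplicative V)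
  obtain ⟨j, -, hj⟩ := (Nat.dvd_prime_pow hp.out).mp h1
  have : HasEnoughRootsOfUnity (Multiplicative (QZ p)) (Monoid.exponent (Multiplicative V)) := by
    rw [hj]
    exact enough j
  have : Finite (Multiplicative V) := ‹Finite V›
  constructor
  · rw [Nat.card_congr (homEquiv V)]
    exact CommGroup.card_monoidHom_of_hasEnoughRootsOfUnity (Multiplicative V)
      (Multiplicative (QZ p))
  · intro v hv
    obtain ⟨φ, hφ⟩ := CommGroup.exists_apply_ne_one_of_hasEnoughRootsOfUnity (Multiplicative V)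
      (Multiplicative (QZ p)) (a := Multiplicative.ofAdd v) (by
        intro h
        exact hv (Multiplicative.ofAdd.injective h))
    refine ⟨(homEquiv V).symm φ, fun h => hφ ?_⟩
    have h2 : homEquiv V ((homEquiv V).symm φ) (Multiplicative.ofAdd v) = 1 := by
      show toUnits (Multiplicative.ofAdd (((homEquiv V).symm φ) v)) = 1
      rw [h]
      exact map_one _
    rwa [Equiv.apply_symm_apply] at h2

end XHOMS

open XHOMS in
/-- Module HOMS. -/
theorem stHoms (_h : StExt) : StHoms := by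
  intro p hp V _ _
  suffices h : Finite (V →+ QZ p) ∧ Nat.card (V →+ QZ p) ≤ Nat.card V from
    ⟨h.1, h.2, fun hk => pgroup V hk⟩
  -- the prime to `p` part
  have hV0 : Nat.card V ≠ 0 := Nat.card_pos.ne'
  obtain ⟨k, m, hm, hkm⟩ := Nat.exists_eq_pow_mul_and_not_dvd hV0 p hp.out.ne_one
  let N : AddSubgroup V := (nsmulAddMonoidHom (α := V) m).ker
  have hN : ∀ v : V, v ∈ N ↔ m • v = 0 := fun v => Iff.rfl
  have hW : ∃ j : ℕ, Nat.card (V ⧸ N) = p ^ j := by
    have h1 : IsPGroup p (Multiplicative (V ⧸ N)) := by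
      intro g
      refine ⟨k, ?_⟩
      obtain ⟨v, hv⟩ := QuotientAddGroup.mk_surjective (Multiplicative.toAdd g)
      have h2 : (p ^ k) • (Multiplicative.toAdd g) = 0 := by
        rw [← hv, ← QuotientAddGroup.mk_nsmul, QuotientAddGroup.eq_zero_iff, hN, ← mul_smul,
          mul_comm, ← hkm]
        exact card_nsmul_eq_zero'
      exact h2
    have : Finite (Multiplicative (V ⧸ N)) := inferInstanceAs (Finite (V ⧸ N))
    obtain ⟨j, hj⟩ := IsPGroup.iff_card.mp h1
    exact ⟨j, hj⟩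
  obtain ⟨hc, -⟩ := pgroup (p := p) (V ⧸ N) hW
  have hfin : Finite ((V ⧸ N) →+ QZ p) := by
    apply Nat.finite_of_card_ne_zero
    rw [hc]
    exact Nat.card_pos.ne'
  have hker : ∀ (f : V →+ QZ p), ∀ x ∈ N, f x = 0 := by
    intro f x hx
    apply tors hm
    rw [← map_nsmul, (hN x).mp hx, map_zero]
  let L : (V →+ QZ p) → ((V ⧸ N) →+ QZ p) := fun f => QuotientAddGroup.lift N f (hker f)
  have hL : Function.Injective L := by
    intro f g hfg
    ext v
    have := DFunLike.congr_fun hfg (QuotientAddGroup.mk v)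
    exact this
  refine ⟨Finite.of_injective L hL, ?_⟩
  calc Nat.card (V →+ QZ p) ≤ Nat.card ((V ⧸ N) →+ QZ p) := Nat.card_le_card_of_injective L hL
    _ = Nat.card (V ⧸ N) := hc
    _ ≤ Nat.card V := Nat.card_le_card_of_surjective _ QuotientAddGroup.mk_surjective

end BKMet
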