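import Pool.Agent.Lib.MP_7c08ba_nt.Met.StX

set_option autoImplicit false

/-!
Metabolic parity, part X, module IND: the left kernel of the pairing and the Euler characteristic,
by induction.
-/

noncomputable section

namespace BKMet

open BKPar (Loc1 Loc2)
open BKND (Sm)

namespace XIND

section Basic

variable {R : Type} [CommRing R] {G : Type} [Group G] [TopologicalSpace G] {A : Type}
  [AddCommGroup A] {α : G →* AddMonoid.End A} {M M' : Type} [AddCommGroup M] [Module R M]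
  [AddCommGroup M'] [Module R M'] (X : Pair R α M M')
  {S : Type} {D : S → Type} [∀ w, Group (D w)] (r : ∀ w, D w →* G) (T : Set S)

theorem Zr_mono {P P' Q Q' : Submodule R M} (hP : P ≤ P') (hQ : Q ≤ Q') :
    X.Zr r T P Q ≤ X.Zr r T P' Q' := by
  rintro x ⟨h0, h1, h2, h3, h4⟩
  exact ⟨h0, fun g => hQ (h1 g), fun g h => hP (h2 g h),
    fun w hw => ⟨hQ (h3 w hw).1, fun d => hP ((h3 w hw).2 d)⟩, h4⟩

theorem Br_mono {P P' Q Q' : Submodule R M} (hP : P ≤ P') (hQ : Q ≤ Q') :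
    X.Br T P Q ≤ X.Br T P' Q' := by
  rintro x ⟨h0, ⟨n, hn, h1, h2⟩, h4⟩
  exact ⟨h0, ⟨n, hQ hn, fun g => hP (h1 g), fun w hw => hP (h2 w hw)⟩, h4⟩

theorem Zr_le_Br (P N Q : Submodule R M) : X.Zr r T P N ≤ X.Br T N Q := by
  rintro x ⟨h0, h1, h2, h3, h4⟩
  refine ⟨h0, ⟨0, Q.zero_mem, fun g => ?_, fun w hw => ?_⟩, h4⟩
  · have e : d0 X.ρ (0 : M) g = 0 := by simp [d0]
    rw [e, sub_zero]
    exact h1 g
  · rw [sub_zero]
    exact (h3 w hw).1

/-- The relative index of submodules. -/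
abbrev ri {R V : Type} [CommRing R] [AddCommGroup V] [Module R V] (B Z : Submodule R V) : ℕ :=
  B.toAddSubgroup.relIndex Z.toAddSubgroup

theorem ri_mul {R V : Type} [CommRing R] [AddCommGroup V] [Module R V] {A B C : Submodule R V}
    (h : A ≤ B) (h' : B ≤ C) : ri A B * ri B C = ri A C :=
  AddSubgroup.relIndex_mul_relIndex _ _ _ (fun _ hx => h hx) (fun _ hx => h' hx)

theorem ri_one {R V : Type} [CommRing R] [AddCommGroup V] [Module R V] {A B : Submodule R V} :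
    ri A B = 1 ↔ B ≤ A :=
  ⟨fun h _ hx => AddSubgroup.relIndex_eq_one.mp h hx,
    fun h => AddSubgroup.relIndex_eq_one.mpr (fun _ hx => h hx)⟩

theorem ri_ne {R V : Type} [CommRing R] [AddCommGroup V] [Module R V] {A B C : Submodule R V}
    (h : A ≤ B) (h0 : ri A C ≠ 0) : ri B C ≠ 0 := by
  have h1 : ri B C ∣ ri A C := AddSubgroup.relIndex_dvd_of_le_left _ (fun _ hx => h hx)
  exact fun h2 => h0 (Nat.eq_zero_of_zero_dvd (h2 ▸ h1))

theorem card_mul_ri {R V : Type} [CommRing R] [AddCommGroup V] [Module R V] {A B : Submodule R V}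
    (h : A ≤ B) : Nat.card A * ri A B = Nat.card B := by
  have h1 := AddSubgroup.relIndex_mul_relIndex (⊥ : AddSubgroup V) A.toAddSubgroup B.toAddSubgroup
    bot_le (fun _ hx => h hx)
  rw [AddSubgroup.relIndex_bot_left, AddSubgroup.relIndex_bot_left] at h1
  exact h1

/-- The size of a line. -/
theorem ri_line {p : ℕ} [Fact p.Prime] {α : G →* AddMonoid.End (QZ p)} (X : Pair R α M M')
    {P N : Submodule R M} (hPN : P ≤ N) {k : Type} [Field k] {ψ ψ' : G →* kˣ} {lam : k →+ QZ p}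
    {φ : M → k} {φ' : M' → k} (h : IsLine X P N k ψ ψ' lam φ φ') : ri P N = Nat.card k := by
  let f : N.toAddSubgroup →+ k :=
    { toFun := fun x => φ x
      map_zero' := (h.ker 0 N.zero_mem).mpr P.zero_mem
      map_add' := fun x y => h.add x x.2 y y.2 }
  have hf : Function.Surjective f := fun a => by
    obtain ⟨x, hx, hxa⟩ := h.surj a
    exact ⟨⟨x, hx⟩, hxa⟩
  have hk : f.ker = P.toAddSubgroup.addSubgroupOf N.toAddSubgroup := by
    ext x
    rw [AddMonoidHom.mem_ker, AddSubgroup.mem_addSubgroupOf]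
    exact h.ker x x.2
  unfold ri
  rw [AddSubgroup.relIndex, ← hk, AddSubgroup.index_ker, AddMonoidHom.range_eq_top.mpr hf]
  exact Nat.card_congr (AddSubgroup.topEquiv (G := k)).toEquiv

end Basic

section Main

variable {R : Type} [CommRing R] {p : ℕ} [Fact p.Prime] {S : Type} [Fintype S] {G : Type}
  [Group G] [TopologicalSpace G] [IsTopologicalGroup G] [CompactSpace G] {D : S → Type}
  [∀ w, Group (D w)] [∀ w, TopologicalSpace (D w)] [∀ w, IsTopologicalGroup (D w)]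
  [∀ w, CompactSpace (D w)] (Γ : Glo S G D (QZ p) (QZ p))

/-- The first statement of the induction. -/
def PA {M M' : Type} [AddCommGroup M] [Module R M] [AddCommGroup M'] [Module R M']
    (X : Pair R Γ.α M M') (T : Set S) (P N Q : Submodule R M) : Prop :=
  ∀ x ∈ X.Zr Γ.r T N Q, (∀ y ∈ X.flip.Zr Γ.r Tᶜ (X.perp N) (X.perp P), CT Γ X T x y = 0) →
      ∃ x' ∈ X.Zr Γ.r T P Q, x - x' ∈ X.Br T N Q

theorem pa_flip (h2 : StSwap) (h3 : StPerp) {M M' : Type} [AddCommGroup M] [Module R M]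
    [AddCommGroup M'] [Module R M'] (X : Pair R Γ.α M M') (T : Set S) (P N Q : Submodule R M)
    (hN : X.Stable N)
    (h : PA Γ X.flip Tᶜ (X.perp Q) (X.perp N) (X.perp P)) :
    ∀ y ∈ X.flip.Zr Γ.r Tᶜ (X.perp N) (X.perp P), (∀ u ∈ X.Zr Γ.r T N Q, CT Γ X T u y = 0) →
      ∃ y' ∈ X.flip.Zr Γ.r Tᶜ (X.perp Q) (X.perp P), y - y' ∈ X.flip.Br Tᶜ (X.perp N) (X.perp P) := by
  intro y hy h0
  refine h y hy (fun u hu => ?_)
  have e : X.flip.flip = X := rfl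
  rw [e, compl_compl, (h3 R p G Γ.α M M' X).1 N, (h3 R p G Γ.α M M' X).1 Q] at hu
  rw [← h2 R S G D (QZ p) (QZ p) Γ M M' X T N hN u (Zr_mono X Γ.r T le_rfl le_top hu) y
    (Zr_mono X.flip Γ.r Tᶜ le_rfl le_top hy)]
  exact h0 u hu

theorem ri_perp (h3 : StPerp) {M M' : Type} [AddCommGroup M] [Module R M]
    [AddCommGroup M'] [Module R M'] [Finite M] (X : Pair R Γ.α M M') {P Q : Submodule R M}
    (h : P ≤ Q) : ri (X.perp Q) (X.perp P) = ri P Q := by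
  obtain ⟨_, hm, _, _, _, hf⟩ := h3 R p G Γ.α M M' X
  obtain ⟨hfin, hc, hP⟩ := hf inferInstance
  have e1 := hP P
  have e2 := hP Q
  have e3 := card_mul_ri h
  have e4 := card_mul_ri (hm P Q h)
  have hP0 : 0 < Nat.card P := Nat.card_pos
  have hQ0 : 0 < Nat.card (X.perp Q) := Nat.card_pos
  have : (Nat.card P * Nat.card (X.perp Q)) * ri (X.perp Q) (X.perp P) =
      (Nat.card P * Nat.card (X.perp Q)) * ri P Q := by
    calc (Nat.card P * Nat.card (X.perp Q)) * ri (X.perp Q) (X.perp P)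
        = Nat.card P * (Nat.card (X.perp Q) * ri (X.perp Q) (X.perp P)) := by ring
      _ = Nat.card M := by rw [e4, e1]
      _ = Nat.card Q * Nat.card (X.perp Q) := e2.symm
      _ = (Nat.card P * ri P Q) * Nat.card (X.perp Q) := by rw [e3]
      _ = _ := by ring
  exact Nat.eq_of_mul_eq_mul_left (Nat.mul_pos hP0 hQ0) this

theorem partA (h1 : StCT) (h2 : StSwap) (h3 : StPerp) (h5 : StDual) (h6 : StLineA)
    (h7 : StLineB) (χ : G →* ℤ_[p]ˣ) (U : Subgroup G) (δ : S → ℕ) (hG : GAx p Γ χ U δ)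
    (k : Type) [Field k] [Finite k] [Algebra (ZMod p) k] (n : ℕ) :
    ∀ (M M' : Type) [AddCommGroup M] [Module R M] [AddCommGroup M'] [Module R M'] [Finite M]
    [Finite M'] (X : Pair R Γ.α M M'),
    Lines X k U → Lines X.flip k U → ∀ T : Set S, T.Nonempty → Tᶜ.Nonempty →
    ∀ P N Q : Submodule R M, X.Stable P → X.Stable N → X.Stable Q → P ≤ N → N ≤ Q →
    ri P N = n → PA Γ X T P N Q := by
  induction n using Nat.strong_induction_on with
  | _ n IH =>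
  intro M M' _ _ _ _ _ _ X hL hL' T hT hT' P N Q hP hN hQ hPN hNQ hn x hx hkill
  obtain ⟨hbi, hmono, _, _, hstab, hfin⟩ := h3 R p G Γ.α M M' X
  by_cases hNP : N ≤ P
  · have : P = N := le_antisymm hPN hNP
    subst this
    exact ⟨x, hx, by rw [sub_self]; exact (X.Br T P Q).zero_mem⟩
  have hlt : P < N := lt_of_le_not_ge hPN hNP
  obtain ⟨N1, hN1, hPN1, hN1N, ψ, ψ', lam, φ, φ', hψ, hψ', hlam, hline⟩ := hL P N hP hN hlt
  have hN1P : ¬ N1 ≤ P := by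
    intro hc
    obtain ⟨v, hv, hv1⟩ := hline.surj 1
    have := (hline.ker v hv).mpr (hc hv)
    rw [hv1] at this
    exact one_ne_zero this
  have hm : ri P N1 * ri N1 N = ri P N := ri_mul hPN1 hN1N
  have hline_card : ri P N1 = Nat.card k := ri_line X hPN1 hline
  have hk2 : 1 < Nat.card k := Finite.one_lt_card
  have hpos : 0 < ri N1 N := by
    have e := card_mul_ri hN1N
    rcases Nat.eq_zero_or_pos (ri N1 N) with h | h
    · rw [h, mul_zero] at e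
      exact absurd e.symm (Nat.card_pos (α := N)).ne'
    · exact h
  have hlt' : ri N1 N < n := by
    rw [← hn, ← hm, hline_card]
    calc ri N1 N = 1 * ri N1 N := (one_mul _).symm
      _ < Nat.card k * ri N1 N := Nat.mul_lt_mul_of_pos_right hk2 hpos
  -- step 1
  obtain ⟨x1, hx1, hxx1⟩ := IH (ri N1 N) hlt' M M' X hL hL' T hT hT' N1 N Q hN1 hN hQ hN1N hNQ rfl x
    hx (fun y hy => hkill y (Zr_mono X.flip Γ.r Tᶜ le_rfl (hmono P N1 hPN1) hy))
  -- step 2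
  obtain ⟨cadd, cadd', csmul, cN⟩ := h1 R S G D (QZ p) (QZ p) Γ M M' X T
  have cneg : ∀ u y, CT Γ X T (-u) y = - CT Γ X T u y := by
    intro u y
    have e0 := cadd 0 0 y
    rw [add_zero] at e0
    have e0' : CT Γ X T 0 y = 0 := left_eq_add.mp e0
    have e1 := cadd u (-u) y
    rw [add_neg_cancel, e0'] at e1
    exact (neg_eq_of_add_eq_zero_right e1.symm).symm
  have csub : ∀ u v y, CT Γ X T (u - v) y = CT Γ X T u y - CT Γ X T v y := by
    intro u v y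
    rw [sub_eq_add_neg, cadd, cneg, ← sub_eq_add_neg]
  have hvan : ∀ y ∈ X.flip.Zr Γ.r Tᶜ (X.perp N) (X.perp P), CT Γ X T x1 y = 0 := by
    intro y hy
    have e1 := hkill y hy
    have e2 := (cN N hN).1 (x - x1) (Br_mono X T le_rfl le_top hxx1) y
      (Zr_mono X.flip Γ.r Tᶜ le_rfl le_top hy)
    rw [csub, e1, zero_sub, neg_eq_zero] at e2
    exact e2
  have hvan2 : ∀ y ∈ X.flip.Br Tᶜ (X.perp N1) (X.perp P), CT Γ X T x1 y = 0 := by
    intro y hy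
    exact (cN N1 hN1).2.1 x1 (Zr_mono X Γ.r T le_rfl le_top hx1) y
      (Br_mono X.flip Tᶜ le_rfl le_top hy)
  have hflip : PA Γ X.flip Tᶜ (X.perp N) (X.perp N1) (X.perp P) := by
    refine IH (ri N1 N) hlt' M' M X.flip hL' hL Tᶜ hT' (by rw [compl_compl]; exact hT) (X.perp N)
      (X.perp N1) (X.perp P) (hstab N hN) (hstab N1 hN1) (hstab P hP) (hmono N1 N hN1N)
      (hmono P N1 hPN1) ?_
    exact ri_perp Γ h3 X hN1N
  have hflip' := pa_flip Γ h2 h3 X T P N1 N hN1 hflip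
  -- the left kernel, as a subgroup
  let Y := X.flip.Zr Γ.r Tᶜ (X.perp N1) (X.perp P)
  let Z := X.Zr Γ.r T N1 N
  let X₁ : AddSubgroup ((G → M') × (S → M')) :=
    { carrier := {y | y ∈ Y ∧ ∀ u ∈ Z, CT Γ X T u y = 0}
      add_mem' := by
        rintro y y' ⟨hy, hy1⟩ ⟨hy', hy1'⟩
        exact ⟨Y.add_mem hy hy', fun u hu => by rw [cadd', hy1 u hu, hy1' u hu, add_zero]⟩
      zero_mem' := by
        refine ⟨Y.zero_mem, fun u _ => ?_⟩
        have e0 := cadd' u 0 0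
        rw [add_zero] at e0
        exact left_eq_add.mp e0
      neg_mem' := by
        rintro y ⟨hy, hy1⟩
        refine ⟨Y.neg_mem hy, fun u hu => ?_⟩
        have e0 := cadd' u 0 0
        rw [add_zero] at e0
        have e0' : CT Γ X T u 0 = 0 := left_eq_add.mp e0
        have e1 := cadd' u y (-y)
        rw [add_neg_cancel, e0', hy1 u hu, zero_add] at e1
        exact e1.symm }
  let Z₁ : AddSubgroup ((G → M) × (S → M)) :=
    { carrier := {u | u ∈ Z ∧ ∀ y ∈ Y, CT Γ X T u y = 0}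
      add_mem' := by
        rintro y y' ⟨hy, hy1⟩ ⟨hy', hy1'⟩
        exact ⟨Z.add_mem hy hy', fun u hu => by rw [cadd, hy1 u hu, hy1' u hu, add_zero]⟩
      zero_mem' := by
        refine ⟨Z.zero_mem, fun u _ => ?_⟩
        have e0 := cadd 0 0 u
        rw [add_zero] at e0
        exact left_eq_add.mp e0
      neg_mem' := by
        rintro y ⟨hy, hy1⟩
        refine ⟨Z.neg_mem hy, fun u hu => ?_⟩
        rw [cneg, hy1 u hu, neg_zero] }
  have hX₁fin : X₁.relIndex Y.toAddSubgroup ≠ 0 := by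
    have e := (h7 R p S G D Γ χ U δ hG M M' X T hT hT' P N1 hP hN1 hPN1 k ψ ψ' hψ hψ' lam hlam φ φ'
      hline).2.1
    have hle : (X.flip.Br Tᶜ (X.perp N1) (X.perp P)).toAddSubgroup ⊓ Y.toAddSubgroup ≤ X₁ := by
      rintro y ⟨hy, hyY⟩
      refine ⟨hyY, fun u hu => ?_⟩
      exact (cN N1 hN1).2.1 u (Zr_mono X Γ.r T le_rfl le_top hu) y
        (Br_mono X.flip Tᶜ le_rfl le_top hy)
    have hd : X₁.relIndex Y.toAddSubgroup ∣
        ((X.flip.Br Tᶜ (X.perp N1) (X.perp P)).toAddSubgroup ⊓ Y.toAddSubgroup).relIndex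
          Y.toAddSubgroup := AddSubgroup.relIndex_dvd_of_le_left _ hle
    rw [AddSubgroup.inf_relIndex_right] at hd
    exact fun h0 => e (Nat.eq_zero_of_zero_dvd (h0 ▸ hd))
  obtain ⟨_, hdual⟩ := h5 p ((G → M') × (S → M')) ((G → M) × (S → M))
    (fun y u => CT Γ X T u y) Y.toAddSubgroup X₁ Z.toAddSubgroup Z₁
    (fun y _ y' _ u _ => cadd' u y y') (fun y _ u _ u' _ => cadd u u' y)
    (fun y hy => hy.1) (fun u hu => hu.1)
    (fun y hy => ⟨fun h => h.2, fun h => ⟨hy, h⟩⟩) (fun u hu => ⟨fun h => h.2, fun h => ⟨hu, h⟩⟩)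
    hX₁fin
  obtain ⟨u, hu, hu'⟩ := hdual (fun y => CT Γ X T x1 y) (fun y _ y' _ => cadd' x1 y y')
    (fun y hy => by
      obtain ⟨y', hy', hyy'⟩ := hflip' y hy.1 hy.2
      have e : y = y' + (y - y') := by abel
      change CT Γ X T x1 y = 0
      rw [e, cadd', hvan y' hy', hvan2 _ hyy', add_zero])
  -- step 3
  have hx2 : x1 - u ∈ X.Zr Γ.r T N1 Q :=
    (X.Zr Γ.r T N1 Q).sub_mem hx1 (Zr_mono X Γ.r T le_rfl hNQ hu)
  obtain ⟨x3, hx3, hx3'⟩ := h6 R p S G D Γ χ U δ hG M M' X T hT hT' P N1 Q hP hN1 hQ hPN1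
    (hN1N.trans hNQ) k ψ ψ' hψ hψ' lam hlam φ φ' hline (x1 - u) hx2
    (fun y hy => by
      have e : CT Γ X T x1 y = CT Γ X T u y := hu' y hy
      rw [csub, e, sub_self])
  refine ⟨x3, hx3, ?_⟩
  have e : x - x3 = (x - x1) + u + (x1 - u - x3) := by abel
  rw [e]
  exact (X.Br T N Q).add_mem ((X.Br T N Q).add_mem hxx1 (Zr_le_Br X Γ.r T N1 N Q hu))
    (Br_mono X T hN1N le_rfl hx3')

theorem partB (h1 : StCT) (h2 : StSwap) (h3 : StPerp) (h4 : StExact) (h5 : StDual) (h6 : StLineA)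
    (h7 : StLineB) (χ : G →* ℤ_[p]ˣ) (U : Subgroup G) (δ : S → ℕ) (hG : GAx p Γ χ U δ)
    (k : Type) [Field k] [Finite k] [Algebra (ZMod p) k]
    (M M' : Type) [AddCommGroup M] [Module R M] [AddCommGroup M'] [Module R M'] [Finite M]
    [Finite M'] (X : Pair R Γ.α M M') (hL : Lines X k U) (hL' : Lines X.flip k U) (T : Set S)
    (hT : T.Nonempty) (hT' : Tᶜ.Nonempty) (e : ℕ) (he : e = ∑ w, open Classical in
        if w ∈ T then δ w else 0) (n : ℕ) : ∀ P Q : Submodule R M, X.Stable P → X.Stable Q → P ≤ Q →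
    ri P Q = n →
    ri (X.Br T P Q) (X.Zr Γ.r T P Q) ≠ 0 ∧
    ri (X.flip.Br Tᶜ (X.perp Q) (X.perp P)) (X.flip.Zr Γ.r Tᶜ (X.perp Q) (X.perp P)) ≠ 0 ∧
    ri (X.Br T P Q) (X.Zr Γ.r T P Q) * ri P Q ^ e =
    ri (X.flip.Br Tᶜ (X.perp Q) (X.perp P)) (X.flip.Zr Γ.r Tᶜ (X.perp Q) (X.perp P)) * ri P Q := by
  induction n using Nat.strong_induction_on with
  | _ n IH =>
  intro P Q hP hQ hPQ hn
  obtain ⟨hbi, hmono, _, _, hstab, hfin⟩ := h3 R p G Γ.α M M' X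
  by_cases hQP : Q ≤ P
  · have : P = Q := le_antisymm hPQ hQP
    subst this
    have e1 : ri (X.Br T P P) (X.Zr Γ.r T P P) = 1 := ri_one.mpr (Zr_le_Br X Γ.r T P P P)
    have e2 : ri (X.flip.Br Tᶜ (X.perp P) (X.perp P))
        (X.flip.Zr Γ.r Tᶜ (X.perp P) (X.perp P)) = 1 :=
      ri_one.mpr (Zr_le_Br X.flip Γ.r Tᶜ (X.perp P) (X.perp P) (X.perp P))
    have e3 : ri P P = 1 := ri_one.mpr le_rfl
    rw [e1, e2, e3, one_pow]
    exact ⟨one_ne_zero, one_ne_zero, rfl⟩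
  have hlt : P < Q := lt_of_le_not_ge hPQ hQP
  obtain ⟨N1, hN1, hPN1, hN1Q, ψ, ψ', lam, φ, φ', hψ, hψ', hlam, hline⟩ := hL P Q hP hQ hlt
  have hm : ri P N1 * ri N1 Q = ri P Q := ri_mul hPN1 hN1Q
  have hline_card : ri P N1 = Nat.card k := ri_line X hPN1 hline
  have hk2 : 1 < Nat.card k := Finite.one_lt_card
  have hpos : 0 < ri N1 Q := by
    have e := card_mul_ri hN1Q
    rcases Nat.eq_zero_or_pos (ri N1 Q) with h | h
    · rw [h, mul_zero] at e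
      exact absurd e.symm (Nat.card_pos (α := Q)).ne'
    · exact h
  have hlt' : ri N1 Q < n := by
    rw [← hn, ← hm, hline_card]
    calc ri N1 Q = 1 * ri N1 Q := (one_mul _).symm
      _ < Nat.card k * ri N1 Q := Nat.mul_lt_mul_of_pos_right hk2 hpos
  obtain ⟨b1, b2, b3⟩ := IH (ri N1 Q) hlt' N1 Q hN1 hQ hN1Q rfl
  obtain ⟨l1, l2, l3⟩ := h7 R p S G D Γ χ U δ hG M M' X T hT hT' P N1 hP hN1 hPN1 k ψ ψ' hψ hψ'
    lam hlam φ φ' hline
  rw [← he] at l3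
  have hx := (h4 R G S D Γ.r (QZ p) Γ.α M M' X T hT)
  have hx' := (h4 R G S D Γ.r (QZ p) Γ.α M' M X.flip Tᶜ hT')
  obtain ⟨_, _, x3⟩ := hx.2 P N1 Q hP hN1 hQ hPN1 hN1Q
  obtain ⟨_, _, x3'⟩ := hx'.2 (X.perp Q) (X.perp N1) (X.perp P) (hstab Q hQ) (hstab N1 hN1)
    (hstab P hP) (hmono N1 Q hN1Q) (hmono P N1 hPN1)
  have hBZ : X.Br T N1 Q ≤ X.Zr Γ.r T N1 Q := hx.1 N1 Q hN1 hN1Q hQ
  have hBZ' : X.flip.Br Tᶜ (X.perp N1) (X.perp P) ≤ X.flip.Zr Γ.r Tᶜ (X.perp N1) (X.perp P) :=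
    hx'.1 (X.perp N1) (X.perp P) (hstab N1 hN1) (hmono P N1 hPN1) (hstab P hP)
  -- the kernels
  set K := (X.Zr Γ.r T P Q) ⊔ (X.Br T N1 Q) with hK
  set K' := (X.flip.Zr Γ.r Tᶜ (X.perp Q) (X.perp P)) ⊔ (X.flip.Br Tᶜ (X.perp N1) (X.perp P))
    with hK'
  have hKZ : K ≤ X.Zr Γ.r T N1 Q := sup_le (Zr_mono X Γ.r T hPN1 le_rfl) hBZ
  have hKZ' : K' ≤ X.flip.Zr Γ.r Tᶜ (X.perp N1) (X.perp P) :=
    sup_le (Zr_mono X.flip Γ.r Tᶜ (hmono N1 Q hN1Q) le_rfl) hBZ'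
  obtain ⟨cadd, cadd', csmul, cN⟩ := h1 R S G D (QZ p) (QZ p) Γ M M' X T
  have cNf := (h1 R S G D (QZ p) (QZ p) Γ M' M X.flip Tᶜ).2.2.2
  have hA : PA Γ X T P N1 Q := partA Γ h1 h2 h3 h5 h6 h7 χ U δ hG k _ M M' X hL hL' T hT hT' P N1 Q
    hP hN1 hQ hPN1 hN1Q rfl
  have hA' : PA Γ X.flip Tᶜ (X.perp Q) (X.perp N1) (X.perp P) :=
    partA Γ h1 h2 h3 h5 h6 h7 χ U δ hG k _ M' M X.flip hL' hL Tᶜ hT'
      (by rw [compl_compl]; exact hT) (X.perp Q) (X.perp N1) (X.perp P) (hstab Q hQ)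
      (hstab N1 hN1) (hstab P hP) (hmono N1 Q hN1Q) (hmono P N1 hPN1) rfl
  have hA'' := pa_flip Γ h2 h3 X T P N1 Q hN1 hA'
  have hKfin : ri K (X.Zr Γ.r T N1 Q) ≠ 0 := ri_ne (le_sup_right : X.Br T N1 Q ≤ K) b1
  obtain ⟨hdual, _⟩ := h5 p ((G → M) × (S → M)) ((G → M') × (S → M'))
    (fun x y => CT Γ X T x y) (X.Zr Γ.r T N1 Q).toAddSubgroup K.toAddSubgroup
    (X.flip.Zr Γ.r Tᶜ (X.perp N1) (X.perp P)).toAddSubgroup K'.toAddSubgroup
    (fun x _ x' _ y _ => cadd x x' y) (fun x _ y _ y' _ => cadd' x y y')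
    (fun x hx => hKZ hx) (fun y hy => hKZ' hy)
    (fun x hx => by
      constructor
      · intro hxK y hy
        obtain ⟨a, ha, b, hb, rfl⟩ := Submodule.mem_sup.mp hxK
        have e1 : CT Γ X T a y = 0 := (cN P hP).2.2 a (Zr_mono X Γ.r T le_rfl le_top ha) y
          (Zr_mono X.flip Γ.r Tᶜ le_top le_rfl hy)
        have e2 : CT Γ X T b y = 0 := (cN N1 hN1).1 b (Br_mono X T le_rfl le_top hb) y
          (Zr_mono X.flip Γ.r Tᶜ le_rfl le_top hy)
        change CT Γ X T (a + b) y = 0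
        rw [cadd, e1, e2, add_zero]
      · intro h
        obtain ⟨x', hx', hxx'⟩ := hA x hx h
        exact Submodule.mem_sup.mpr ⟨x', hx', x - x', hxx', by abel⟩)
    (fun y hy => by
      constructor
      · intro hyK x hx
        obtain ⟨a, ha, b, hb, rfl⟩ := Submodule.mem_sup.mp hyK
        have hxt : x ∈ X.Zr Γ.r T N1 ⊤ := Zr_mono X Γ.r T le_rfl le_top hx
        have hat : a ∈ X.flip.Zr Γ.r Tᶜ (X.perp N1) ⊤ :=
          Zr_mono X.flip Γ.r Tᶜ (hmono N1 Q hN1Q) le_top ha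
        have e1 : CT Γ X T x a = 0 := by
          rw [h2 R S G D (QZ p) (QZ p) Γ M M' X T N1 hN1 x hxt a hat]
          refine (cNf (X.perp Q) (hstab Q hQ)).2.2 a (Zr_mono X.flip Γ.r Tᶜ le_rfl le_top ha) x ?_
          have e : X.flip.flip = X := rfl
          rw [e, compl_compl, hbi Q]
          exact Zr_mono X Γ.r T le_top le_rfl hx
        have e2 : CT Γ X T x b = 0 := (cN N1 hN1).2.1 x hxt b
          (Br_mono X.flip Tᶜ le_rfl le_top hb)
        change CT Γ X T x (a + b) = 0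
        rw [cadd', e1, e2, add_zero]
      · intro h
        obtain ⟨y', hy', hyy'⟩ := hA'' y hy h
        exact Submodule.mem_sup.mpr ⟨y', hy', y - y', hyy', by abel⟩)
    hKfin
  have hρ : ri K' (X.flip.Zr Γ.r Tᶜ (X.perp N1) (X.perp P)) = ri K (X.Zr Γ.r T N1 Q) := hdual
  set ρ := ri K (X.Zr Γ.r T N1 Q) with hρdef
  have m1 : ri (X.Br T N1 Q) K * ρ = ri (X.Br T N1 Q) (X.Zr Γ.r T N1 Q) :=
    ri_mul le_sup_right hKZ
  have m2 : ri (X.flip.Br Tᶜ (X.perp N1) (X.perp P)) K' * ρ =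
      ri (X.flip.Br Tᶜ (X.perp N1) (X.perp P)) (X.flip.Zr Γ.r Tᶜ (X.perp N1) (X.perp P)) := by
    rw [← hρ]
    exact ri_mul le_sup_right hKZ'
  have x3a : ri (X.Br T P Q) (X.Zr Γ.r T P Q) =
      ri (X.Br T P N1) (X.Zr Γ.r T P N1) * ri (X.Br T N1 Q) K := x3
  have x3b : ri (X.flip.Br Tᶜ (X.perp Q) (X.perp P)) (X.flip.Zr Γ.r Tᶜ (X.perp Q) (X.perp P)) =
      ri (X.flip.Br Tᶜ (X.perp Q) (X.perp N1)) (X.flip.Zr Γ.r Tᶜ (X.perp Q) (X.perp N1)) *
        ri (X.flip.Br Tᶜ (X.perp N1) (X.perp P)) K' := x3'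
  have l1a : ri (X.Br T P N1) (X.Zr Γ.r T P N1) ≠ 0 := l1
  have l2a : ri (X.flip.Br Tᶜ (X.perp N1) (X.perp P))
    (X.flip.Zr Γ.r Tᶜ (X.perp N1) (X.perp P)) ≠ 0 := l2
  have l3a : ri (X.Br T P N1) (X.Zr Γ.r T P N1) * Nat.card k ^ e =
    ri (X.flip.Br Tᶜ (X.perp N1) (X.perp P))
      (X.flip.Zr Γ.r Tᶜ (X.perp N1) (X.perp P)) * Nat.card k := l3
  rw [← m1] at b1 b3
  rw [← m2] at l2a l3a
  have c1 : ri (X.Br T N1 Q) K ≠ 0 := fun h => b1 (by rw [h, zero_mul])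
  have c2 : ri (X.flip.Br Tᶜ (X.perp N1) (X.perp P)) K' ≠ 0 := fun h => l2a (by rw [h, zero_mul])
  refine ⟨?_, ?_, ?_⟩
  · rw [x3a]
    exact Nat.mul_ne_zero l1a c1
  · rw [x3b]
    exact Nat.mul_ne_zero b2 c2
  · rw [x3a, x3b, ← hm, hline_card]
    have hρ0 : 0 < ρ := Nat.pos_of_ne_zero hKfin
    refine Nat.eq_of_mul_eq_mul_right hρ0 ?_
    calc ri (X.Br T P N1) (X.Zr Γ.r T P N1) * ri (X.Br T N1 Q) K * (Nat.card k * ri N1 Q) ^ e * ρ
        = (ri (X.Br T P N1) (X.Zr Γ.r T P N1) * Nat.card k ^ e) *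
          (ri (X.Br T N1 Q) K * ρ * ri N1 Q ^ e) := by rw [mul_pow]; ring
      _ = _ := by rw [l3a, b3]; ring

end Main

end XIND

/-- Module IND. -/
theorem stInd (h1 : StCT) (h2 : StSwap) (h3 : StPerp) (h4 : StExact) (h5 : StDual) (h6 : StLineA)
    (h7 : StLineB) : StInd := by
  intro R _ p _ S _ G _ _ _ _ D _ _ _ _ Γ χ U δ hG M M' _ _ _ _ _ X k _ _ _ hL hL' T hT hT' P N Q
    hP hN hQ hPN hNQ
  haveI : Finite M' := ((h3 R p G Γ.α M M' X).2.2.2.2.2 inferInstance).1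
  obtain ⟨c1, c2, c3⟩ := XIND.partB Γ h1 h2 h3 h4 h5 h6 h7 χ U δ hG k M M' X hL hL' T hT hT' _ rfl _
    P Q hP hQ (hPN.trans hNQ) rfl
  exact ⟨XIND.partA Γ h1 h2 h3 h5 h6 h7 χ U δ hG k _ M M' X hL hL' T hT hT' P N Q hP hN hQ hPN hNQ
    rfl, c1, c2, c3⟩

end BKMet
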