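import Pool.Agent.Lib.MP_7c08ba_nt.Met.StX

set_option autoImplicit false

/-!
Metabolic parity, module LINEB: the number of classes with values in a one dimensional subquotient.
-/

noncomputable section

namespace BKMet

open BKPar (Loc1 Loc2)
open BKND (Sm)

namespace XLINEB

section Count

variable {S : Type} {G : Type} [Group G] [TopologicalSpace G] {D : S → Type} [∀ w, Group (D w)]
  (r : ∀ w, D w →* G) (T : Set S) {k : Type} [Field k] (ψ : G →* kˣ)

/-- pairs of a cocycle and local trivialisations at the places in `T` -/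
def Pf : AddSubgroup ((G → k) × (S → k)) where
  carrier := {x | x.1 ∈ BKND.Z1 (kch ψ) ∧
    (∀ w ∈ T, ∀ d, x.1 (r w d) = d0 (kch ψ) (x.2 w) (r w d)) ∧ ∀ w ∉ T, x.2 w = 0}
  add_mem' := by
    rintro x y ⟨hx, hx1, hx2⟩ ⟨hy, hy1, hy2⟩
    refine ⟨add_mem hx hy, fun w hw d => ?_, fun w hw => ?_⟩
    · change x.1 (r w d) + y.1 (r w d) = d0 (kch ψ) (x.2 w + y.2 w) (r w d)
      rw [hx1 w hw, hy1 w hw]
      simp only [d0, map_add]
      ring
    · change x.2 w + y.2 w = 0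
      rw [hx2 w hw, hy2 w hw, add_zero]
  zero_mem' := by
    refine ⟨zero_mem _, fun w hw d => ?_, fun w hw => rfl⟩
    change (0 : k) = kch ψ (r w d) 0 - 0
    rw [map_zero, sub_zero]
  neg_mem' := by
    rintro x ⟨hx, hx1, hx2⟩
    refine ⟨neg_mem hx, fun w hw d => ?_, fun w hw => ?_⟩
    · change - x.1 (r w d) = d0 (kch ψ) (- x.2 w) (r w d)
      rw [hx1 w hw]
      simp only [d0, map_neg]
      ring
    · change - x.2 w = 0
      rw [hx2 w hw, neg_zero]

/-- coboundaries -/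
def Bf : AddSubgroup ((G → k) × (S → k)) where
  carrier := {x | ∃ a : k, (∀ g, x.1 g = d0 (kch ψ) a g) ∧ (∀ w ∈ T, x.2 w = a) ∧
    ∀ w ∉ T, x.2 w = 0}
  add_mem' := by
    rintro x y ⟨a, hx, hx1, hx2⟩ ⟨b, hy, hy1, hy2⟩
    refine ⟨a + b, fun g => ?_, fun w hw => ?_, fun w hw => ?_⟩
    · change x.1 g + y.1 g = _
      rw [hx, hy]
      simp only [d0, map_add]
      ring
    · change x.2 w + y.2 w = _
      rw [hx1 w hw, hy1 w hw]
    · change x.2 w + y.2 w = 0
      rw [hx2 w hw, hy2 w hw, add_zero]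
  zero_mem' := by
    refine ⟨0, fun g => ?_, fun w hw => rfl, fun w hw => rfl⟩
    change (0 : k) = kch ψ g 0 - 0
    rw [map_zero, sub_zero]
  neg_mem' := by
    rintro x ⟨a, hx, hx1, hx2⟩
    refine ⟨-a, fun g => ?_, fun w hw => ?_, fun w hw => ?_⟩
    · change - x.1 g = _
      rw [hx]
      simp only [d0, map_neg]
      ring
    · change - x.2 w = _
      rw [hx1 w hw]
    · change - x.2 w = 0
      rw [hx2 w hw, neg_zero]

theorem loc1_d0 (hψ : Sm (kch ψ)) (a : k) : Loc1 (d0 (kch ψ) a) := by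
  obtain ⟨W, hW, h⟩ := hψ
  refine ⟨W, hW, fun g w hw => ?_⟩
  simp only [d0, map_mul, h w hw, mul_one]

omit [TopologicalSpace G] in
theorem act_mul {M : Type*} [AddCommGroup M] (ρ : G →* AddMonoid.End M) (g h : G) (m : M) :
    ρ (g * h) m = ρ g (ρ h m) := by
  rw [map_mul]
  rfl

theorem d0_mem (hψ : Sm (kch ψ)) (a : k) : d0 (kch ψ) a ∈ BKND.Z1 (kch ψ) := by
  refine ⟨loc1_d0 ψ hψ a, fun g h => ?_⟩
  simp only [d0, act_mul, map_sub]
  ring

theorem Bf_le (hψ : Sm (kch ψ)) : Bf T ψ ≤ Pf r T ψ := by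
  rintro x ⟨a, hx, hx1, hx2⟩
  refine ⟨?_, fun w hw d => ?_, hx2⟩
  · have e : x.1 = d0 (kch ψ) a := funext hx
    rw [e]
    exact d0_mem ψ hψ a
  · rw [hx, hx1 w hw]

omit [TopologicalSpace G] in
theorem card_Bf (hT : T.Nonempty) : Nat.card (Bf (G := G) T ψ) = Nat.card k := by
  classical
  obtain ⟨w₀, hw₀⟩ := hT
  refine Nat.card_congr ⟨fun x => x.1.2 w₀, fun a => ⟨(d0 (kch ψ) a, fun w => if w ∈ T then a
    else 0), a, fun g => rfl, fun w hw => if_pos hw, fun w hw => if_neg hw⟩, ?_, ?_⟩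
  · rintro ⟨⟨f, c⟩, a, hx, hx1, hx2⟩
    refine Subtype.ext (Prod.ext ?_ ?_)
    · funext g
      change d0 (kch ψ) (c w₀) g = f g
      refine Eq.trans ?_ (hx g).symm
      exact congrArg (fun a => d0 (kch ψ) a g) (hx1 w₀ hw₀)
    · funext w
      change (if w ∈ T then c w₀ else 0) = c w
      split_ifs with hw
      · exact (hx1 w₀ hw₀).trans (hx1 w hw).symm
      · exact (hx2 w hw).symm
  · intro a
    exact if_pos hw₀

/-- cocycles which are trivial at the places in `T` -/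
abbrev AT : Type := {f : G → k // f ∈ BKND.Z1 (kch ψ) ∧
  ∀ w ∈ T, pb1 (r w) f ∈ BKND.B1 (kch (ψ.comp (r w)))}

open Classical in
/-- the local groups -/
def KT (w : S) : AddSubgroup k := if w ∈ T then BKND.H0 (kch (ψ.comp (r w))) else ⊥

omit [TopologicalSpace G] in
theorem mem_KT {w : S} (hw : w ∈ T) {x : k} :
    x ∈ KT r T ψ w ↔ x ∈ BKND.H0 (kch (ψ.comp (r w))) := by
  unfold KT
  rw [if_pos hw]

omit [TopologicalSpace G] in
theorem mem_KT' {w : S} (hw : w ∉ T) {x : k} : x ∈ KT r T ψ w ↔ x = 0 := by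
  unfold KT
  rw [if_neg hw, AddSubgroup.mem_bot]

omit [TopologicalSpace G] in
open Classical in
theorem card_KT (w : S) : Nat.card (KT r T ψ w) =
    if w ∈ T then Nat.card (BKND.H0 (kch (ψ.comp (r w)))) else 1 := by
  unfold KT
  split_ifs with hw
  · rfl
  · exact AddSubgroup.card_bot

theorem card_Pf [Fintype S] : Nat.card (Pf r T ψ) =
    Nat.card (AT r T ψ) * ∏ w, (open Classical in
      if w ∈ T then Nat.card (BKND.H0 (kch (ψ.comp (r w)))) else 1) := by
  classical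
  have hc : ∀ f : AT r T ψ, ∃ c : S → k, (∀ w ∈ T, ∀ d, f.1 (r w d) = d0 (kch ψ) (c w) (r w d)) ∧
      ∀ w ∉ T, c w = 0 := by
    intro f
    have h1 : ∀ w, ∃ a : k, (w ∈ T → ∀ d, f.1 (r w d) = d0 (kch ψ) a (r w d)) ∧
        (w ∉ T → a = 0) := by
      intro w
      by_cases hw : w ∈ T
      · obtain ⟨a, ha⟩ := f.2.2 w hw
        exact ⟨a, fun _ d => ha d, fun h => absurd hw h⟩
      · exact ⟨0, fun h => absurd h hw, fun _ => rfl⟩
    choose c hc using h1
    exact ⟨c, fun w hw => (hc w).1 hw, fun w hw => (hc w).2 hw⟩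
  choose c hc hc' using hc
  have e1 : Nat.card (Pf r T ψ) = Nat.card (AT r T ψ × ∀ w, KT r T ψ w) := by
    refine Nat.card_congr ⟨fun x => ⟨⟨x.1.1, x.2.1, fun w hw => ⟨x.1.2 w, fun d =>
        x.2.2.1 w hw d⟩⟩, fun w => ⟨x.1.2 w - c ⟨x.1.1, x.2.1, fun w hw => ⟨x.1.2 w, fun d =>
        x.2.2.1 w hw d⟩⟩ w, ?_⟩⟩, fun y => ⟨(y.1.1, fun w => c y.1 w + (y.2 w : k)), ?_⟩, ?_, ?_⟩
    · by_cases hw : w ∈ T
      · refine (mem_KT r T ψ hw).2 fun d => ?_
        have h1 := x.2.2.1 w hw d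
        have h2 := hc ⟨x.1.1, x.2.1, fun w hw => ⟨x.1.2 w, fun d =>
          x.2.2.1 w hw d⟩⟩ w hw d
        have h3 := h1.symm.trans h2
        change kch ψ (r w d) (_ - _) = _
        rw [map_sub]
        simp only [d0] at h3
        linear_combination h3
      · have h1 := x.2.2.2 w hw
        refine (mem_KT' r T ψ hw).2 ?_
        rw [h1, hc' _ w hw, sub_zero]
    · refine ⟨y.1.2.1, fun w hw d => ?_, fun w hw => ?_⟩
      · have h2 := hc y.1 w hw d
        have h4 := (mem_KT r T ψ hw).1 (y.2 w).2 d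
        change kch ψ (r w d) _ = _ at h4
        change y.1.1 (r w d) = kch ψ (r w d) (c y.1 w + (y.2 w : k)) - (c y.1 w + (y.2 w : k))
        rw [h2, map_add, h4]
        simp only [d0]
        ring
      · change c y.1 w + (y.2 w : k) = 0
        rw [hc' _ w hw, (mem_KT' r T ψ hw).1 (y.2 w).2, add_zero]
    · intro x
      refine Subtype.ext (Prod.ext rfl ?_)
      funext w
      change c _ w + (x.1.2 w - c _ w) = x.1.2 w
      ring
    · intro y
      refine Prod.ext rfl ?_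
      funext w
      refine Subtype.ext ?_
      change c _ w + (y.2 w : k) - c _ w = y.2 w
      ring
  rw [e1, Nat.card_prod, Nat.card_pi]
  congr 1
  exact Finset.prod_congr rfl fun w _ => card_KT r T ψ w

variable {R : Type} [CommRing R] {A : Type} [AddCommGroup A] {α : G →* AddMonoid.End A}
  {M M' : Type} [AddCommGroup M] [Module R M] [AddCommGroup M'] [Module R M']
  (X : Pair R α M M')

/-- the number of classes -/
theorem count [Fintype S] [Finite k] (hT : T.Nonempty) (hψ : Sm (kch ψ))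
    (hfin : Finite {f : G → k | f ∈ BKND.Z1 (kch ψ)})
    (P N : Submodule R M) (hN : X.Stable N) (hPN : P ≤ N) (φ : M → k)
    (add : ∀ x ∈ N, ∀ y ∈ N, φ (x + y) = φ x + φ y)
    (ker : ∀ x ∈ N, φ x = 0 ↔ x ∈ P) (surj : ∀ a : k, ∃ x ∈ N, φ x = a)
    (act : ∀ g, ∀ x ∈ N, φ (X.ρ g x) = ((ψ g : kˣ) : k) * φ x) :
    (X.Br T P N).toAddSubgroup.relIndex (X.Zr r T P N).toAddSubgroup ≠ 0 ∧
    (X.Br T P N).toAddSubgroup.relIndex (X.Zr r T P N).toAddSubgroup * Nat.card k =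
      Nat.card (AT r T ψ) * ∏ w, (open Classical in
        if w ∈ T then Nat.card (BKND.H0 (kch (ψ.comp (r w)))) else 1) := by
  classical
  have phi0 : φ 0 = 0 := (ker 0 N.zero_mem).2 P.zero_mem
  have neg : ∀ x ∈ N, φ (-x) = - φ x := by
    intro x hx
    have h := add x hx (-x) (N.neg_mem hx)
    rw [add_neg_cancel, phi0] at h
    exact (neg_eq_of_add_eq_zero_right h.symm).symm
  have sub : ∀ x ∈ N, ∀ y ∈ N, φ (x - y) = φ x - φ y := by
    intro x hx y hy
    rw [sub_eq_add_neg, add x hx _ (N.neg_mem hy), neg y hy, sub_eq_add_neg]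
  have hd0 : ∀ g, ∀ x ∈ N, φ (d0 X.ρ x g) = d0 (kch ψ) (φ x) g := by
    intro g x hx
    simp only [d0]
    rw [sub _ (hN g x hx) _ hx, act g x hx]
    rfl
  have hd0N : ∀ g, ∀ x ∈ N, d0 X.ρ x g ∈ N := fun g x hx => N.sub_mem (hN g x hx) hx
  -- the map to pairs
  have hF : ∀ x ∈ X.Zr r T P N, ((fun g => φ (x.1 g), fun w => φ (x.2 w)) :
      (G → k) × (S → k)) ∈ Pf r T ψ := by
    rintro x ⟨hx, hx1, hx2, hx3, hx4⟩
    refine ⟨⟨BKND.Loc1.map hx φ, fun g h => ?_⟩, fun w hw d => ?_, fun w hw => ?_⟩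
    · have h1 := (ker _ (hPN (hx2 g h))).2 (hx2 g h)
      simp only [d1] at h1
      rw [add _ (N.sub_mem (hN _ _ (hx1 h)) (hx1 _)) _ (hx1 _), sub _ (hN _ _ (hx1 h)) _ (hx1 _),
        act g _ (hx1 h)] at h1
      change φ (x.1 (g * h)) = φ (x.1 g) + ((ψ g : kˣ) : k) * φ (x.1 h)
      linear_combination -h1
    · have h1 := (ker _ (hPN ((hx3 w hw).2 d))).2 ((hx3 w hw).2 d)
      rw [sub _ (hx1 _) _ (hd0N _ _ (hx3 w hw).1), hd0 _ _ (hx3 w hw).1, sub_eq_zero] at h1
      exact h1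
    · change φ (x.2 w) = 0
      rw [hx4 w hw, phi0]
  have hN2 : ∀ x ∈ X.Zr r T P N, ∀ w, x.2 w ∈ N := by
    rintro x ⟨hx, hx1, hx2, hx3, hx4⟩ w
    by_cases hw : w ∈ T
    · exact (hx3 w hw).1
    · rw [hx4 w hw]
      exact N.zero_mem
  let F : (X.Zr r T P N).toAddSubgroup →+ Pf r T ψ :=
    { toFun := fun x => ⟨(fun g => φ (x.1.1 g), fun w => φ (x.1.2 w)), hF x.1 x.2⟩
      map_zero' := by
        refine Subtype.ext (Prod.ext ?_ ?_)
        · funext g
          exact phi0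
        · funext g
          exact phi0
      map_add' := by
        intro x y
        refine Subtype.ext (Prod.ext ?_ ?_)
        · funext g
          exact add _ (x.2.2.1 g) _ (y.2.2.1 g)
        · funext w
          exact add _ (hN2 x.1 x.2 w) _ (hN2 y.1 y.2 w) }
  have hsurj : Function.Surjective F := by
    choose s hs hs' using surj
    rintro ⟨⟨f, c⟩, ⟨hf, hf1⟩, hf2, hf3⟩
    simp only at hf hf1 hf2 hf3
    refine ⟨⟨(fun g => s (f g), fun w => if w ∈ T then s (c w) else 0), ?_⟩, ?_⟩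
    · refine ⟨BKND.Loc1.map hf s, fun g => hs _, fun g h => ?_, fun w hw => ⟨?_, fun d => ?_⟩,
        fun w hw => if_neg hw⟩
      · have hmem : d1 X.ρ (fun g => s (f g)) g h ∈ N :=
          N.add_mem (N.sub_mem (hN _ _ (hs _)) (hs _)) (hs _)
        refine (ker _ hmem).1 ?_
        simp only [d1]
        rw [add _ (N.sub_mem (hN _ _ (hs _)) (hs _)) _ (hs _), sub _ (hN _ _ (hs _)) _ (hs _),
          act g _ (hs _), hs', hs', hs', hf1 g h]
        change _ - (f g + ((ψ g : kˣ) : k) * f h) + f g = 0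
        ring
      · change (if w ∈ T then s (c w) else 0) ∈ N
        rw [if_pos hw]
        exact hs _
      · change s (f (r w d)) - d0 X.ρ (if w ∈ T then s (c w) else 0) (r w d) ∈ P
        rw [if_pos hw]
        refine (ker _ (N.sub_mem (hs _) (hd0N _ _ (hs _)))).1 ?_
        rw [sub _ (hs _) _ (hd0N _ _ (hs _)), hd0 _ _ (hs _), hs', hs', hf2 w hw d, sub_self]
    · refine Subtype.ext (Prod.ext ?_ ?_)
      · funext g
        exact hs' _
      · funext w
        change φ (if w ∈ T then s (c w) else 0) = c w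
        split_ifs with hw
        · exact hs' _
        · rw [phi0, hf3 w hw]
  have hcomap : ((X.Br T P N).toAddSubgroup.addSubgroupOf (X.Zr r T P N).toAddSubgroup) =
      ((Bf T ψ).addSubgroupOf (Pf r T ψ)).comap F := by
    ext x
    rw [AddSubgroup.mem_comap, AddSubgroup.mem_addSubgroupOf, AddSubgroup.mem_addSubgroupOf]
    have hx1 := x.2.2.1
    have hxw := hN2 x.1 x.2
    constructor
    · rintro ⟨h0, ⟨n, hn, hn1, hn2⟩, hn3⟩
      refine ⟨φ n, fun g => ?_, fun w hw => ?_, fun w hw => ?_⟩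
      · have h1 := (ker _ (hPN (hn1 g))).2 (hn1 g)
        rw [sub _ (hx1 g) _ (hd0N _ _ hn), hd0 _ _ hn, sub_eq_zero] at h1
        exact h1
      · have h1 := (ker _ (hPN (hn2 w hw))).2 (hn2 w hw)
        rw [sub _ (hxw w) _ hn, sub_eq_zero] at h1
        exact h1
      · change φ (x.1.2 w) = 0
        rw [hn3 w hw, phi0]
    · rintro ⟨a, ha, ha1, ha2⟩
      obtain ⟨n, hn, hna⟩ := surj a
      refine ⟨x.2.1, ⟨n, hn, fun g => ?_, fun w hw => ?_⟩, x.2.2.2.2.2⟩
      · refine (ker _ (N.sub_mem (hx1 g) (hd0N _ _ hn))).1 ?_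
        rw [sub _ (hx1 g) _ (hd0N _ _ hn), hd0 _ _ hn, hna, sub_eq_zero]
        exact ha g
      · refine (ker _ (N.sub_mem (hxw w) hn)).1 ?_
        rw [sub _ (hxw w) _ hn, hna, sub_eq_zero]
        exact ha1 w hw
  have hidx : (X.Br T P N).toAddSubgroup.relIndex (X.Zr r T P N).toAddSubgroup =
      ((Bf T ψ).addSubgroupOf (Pf r T ψ)).index := by
    rw [AddSubgroup.relIndex, hcomap, AddSubgroup.index_comap_of_surjective _ hsurj]
  have hcard : Nat.card ((Bf T ψ).addSubgroupOf (Pf r T ψ)) = Nat.card k := by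
    rw [← card_Bf (G := G) T ψ hT]
    exact Nat.card_congr (AddSubgroup.addSubgroupOfEquivOfLe (Bf_le r T ψ hψ)).toEquiv
  have hmul := AddSubgroup.index_mul_card ((Bf T ψ).addSubgroupOf (Pf r T ψ))
  rw [hcard, ← hidx, card_Pf] at hmul
  refine ⟨fun h0 => ?_, hmul⟩
  rw [h0, zero_mul] at hmul
  have hfinA : Finite (AT r T ψ) := by
    have : Function.Injective (fun f : AT r T ψ => (⟨f.1, f.2.1⟩ :
        {f : G → k | f ∈ BKND.Z1 (kch ψ)})) := fun f g h =>
      Subtype.ext (congrArg (fun x : {f : G → k | f ∈ BKND.Z1 (kch ψ)} => x.1) h)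
    exact Finite.of_injective _ this
  have hne : Nonempty (AT r T ψ) := ⟨⟨0, zero_mem _, fun w _ => zero_mem _⟩⟩
  have h1 : Nat.card (AT r T ψ) ≠ 0 := Nat.card_pos.ne'
  have h2 : (∏ w, (if w ∈ T then Nat.card (BKND.H0 (kch (ψ.comp (r w)))) else 1)) ≠ 0 := by
    refine Finset.prod_ne_zero_iff.2 fun w _ => ?_
    split_ifs
    · exact Nat.card_pos.ne'
    · exact one_ne_zero
  exact mul_ne_zero h1 h2 hmul.symm

end Count

section Rel

variable {p : ℕ} [Fact p.Prime]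

/-- the action of `ℤ_p` on the values of an additive map from a vector space over `ℤ/p` -/
theorem smul_lam {k : Type*} [Field k] [Algebra (ZMod p) k] (lam : k →+ QZ p) (a : ℤ_[p])
    (c : k) : a • lam c = lam (algebraMap (ZMod p) k (PadicInt.toZMod a) * c) := by
  have hp : p • lam c = 0 := by
    rw [← map_nsmul]
    have h1 : p • c = 0 := by
      rw [nsmul_eq_mul, ← map_natCast (algebraMap (ZMod p) k), ZMod.natCast_self, map_zero,
        zero_mul]
    rw [h1, map_zero]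
  have hz : PadicInt.toZMod (a - ((PadicInt.toZMod a).val : ℤ_[p])) = 0 := by
    rw [map_sub, map_natCast, ZMod.natCast_zmod_val, sub_self]
  have hmem : a - ((PadicInt.toZMod a).val : ℤ_[p]) ∈ RingHom.ker (PadicInt.toZMod (p := p)) := hz
  rw [PadicInt.ker_toZMod, PadicInt.maximalIdeal_eq_span_p, Ideal.mem_span_singleton] at hmem
  obtain ⟨b, hb⟩ := hmem
  have e : a = ((PadicInt.toZMod a).val : ℤ_[p]) + (p : ℤ_[p]) * b := by
    rw [← hb]
    ring
  have e1 : a • lam c = (PadicInt.toZMod a).val • lam c := by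
    conv_lhs => rw [e]
    rw [add_smul, mul_comm, mul_smul, Nat.cast_smul_eq_nsmul, Nat.cast_smul_eq_nsmul, hp,
      smul_zero, add_zero]
  rw [e1, ← map_nsmul, nsmul_eq_mul, ← map_natCast (algebraMap (ZMod p) k),
    ZMod.natCast_zmod_val]

variable {R : Type} [CommRing R] {G : Type} [Group G]
  [TopologicalSpace G] {M M' : Type} [AddCommGroup M]
  [Module R M] [AddCommGroup M'] [Module R M']

/-- the characters of a one dimensional subquotient are dual to each other -/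
theorem rel_of_line {α : G →* AddMonoid.End (QZ p)} (X : Pair R α M M') (χ : G →* ℤ_[p]ˣ)
    (hα : α = actA χ) (P N : Submodule R M) (hP : X.Stable P) (hN : X.Stable N)
    {k : Type} [Field k] [Algebra (ZMod p) k] (ψ ψ' : G →* kˣ) (lam : k →+ QZ p) (hlam : lam ≠ 0)
    (φ : M → k) (φ' : M' → k) (h : IsLine X P N k ψ ψ' lam φ φ') : Rel χ ψ ψ' := by
  intro g
  by_contra hne
  have hne' : ((ψ g : kˣ) : k) * ((ψ' g : kˣ) : k) -
      algebraMap (ZMod p) k (PadicInt.toZMod ((χ g : ℤ_[p]ˣ) : ℤ_[p])) ≠ 0 := sub_ne_zero.2 hne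
  have hst : ∀ g, ∀ y ∈ X.perp P, X.ρ' g y ∈ X.perp P := by
    intro g y hy n hn
    have e := X.eqv g (X.ρ g⁻¹ n) y
    rw [← act_mul, mul_inv_cancel, map_one, AddMonoid.End.one_apply] at e
    rw [e, hy _ (hP _ _ hn), map_zero]
  have key : ∀ c : k, lam ((((ψ g : kˣ) : k) * ((ψ' g : kˣ) : k) -
      algebraMap (ZMod p) k (PadicInt.toZMod ((χ g : ℤ_[p]ˣ) : ℤ_[p]))) * c) = 0 := by
    intro c
    obtain ⟨x, hx, hxc⟩ := h.surj c
    obtain ⟨y, hy, hy1⟩ := h.surj' 1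
    have e1 := X.eqv g x y
    rw [h.pair _ (hN g x hx) _ (hst g y hy), h.pair _ hx _ hy, h.act g x hx, h.act' g y hy,
      hxc, hy1, hα, actA_apply, mul_one, mul_one, smul_lam] at e1
    rw [sub_mul, map_sub, sub_eq_zero, ← e1]
    congr 1
    ring
  refine hlam (AddMonoidHom.ext fun c => ?_)
  have e2 := key ((((ψ g : kˣ) : k) * ((ψ' g : kˣ) : k) -
      algebraMap (ZMod p) k (PadicInt.toZMod ((χ g : ℤ_[p]ˣ) : ℤ_[p])))⁻¹ * c)
  rw [← mul_assoc, mul_inv_cancel₀ hne', one_mul] at e2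
  exact e2

theorem sm_kch {k : Type*} [Field k] (ψ : G →* kˣ) (U : Subgroup G) (hU : IsOpen (U : Set G))
    (h : ∀ u ∈ U, ψ u = 1) : Sm (kch ψ) := by
  refine ⟨U, hU, fun w hw => ?_⟩
  ext x
  rw [kch_apply, h w hw, Units.val_one, one_mul]
  rfl

end Rel

end XLINEB

/-- **Module LINEB** (from ANN): the number of classes with values in a one dimensional
subquotient. -/
theorem stLineB (hann : StAnn) : StLineB := by
  classical
  intro R _ p _ S _ G _ _ _ _ D _ _ _ _ Γ χ U δ hG M M' _ _ _ _ _ X T hT hTc P N hP hN hPN k _ _ _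
    ψ ψ' hψ hψ' lam hlam φ φ' hl
  have hrel := XLINEB.rel_of_line X χ hG.act P N hP hN ψ ψ' lam hlam φ φ' hl
  have hrel' : Rel χ ψ' ψ := fun g => by rw [mul_comm]; exact hrel g
  have hA := (hann p S G D Γ χ U δ hG k ψ ψ' hψ hψ' hrel lam hlam).2 T
  have hA' := (hann p S G D Γ χ U δ hG k ψ' ψ hψ' hψ hrel' lam hlam).2 T
  have hst : ∀ g, ∀ y ∈ X.perp P, X.ρ' g y ∈ X.perp P := by
    intro g y hy n hn
    have e := X.eqv g (X.ρ g⁻¹ n) y
    rw [← XLINEB.act_mul, mul_inv_cancel, map_one, AddMonoid.End.one_apply] at e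
    rw [e, hy _ (hP _ _ hn), map_zero]
  have hle : X.perp N ≤ X.perp P := fun y hy n hn => hy n (hPN hn)
  have c1 := XLINEB.count Γ.r T ψ X hT (XLINEB.sm_kch ψ U hG.open' hψ) hA.1 P N hN hPN φ hl.add
    hl.ker hl.surj hl.act
  have c2 := XLINEB.count Γ.r Tᶜ ψ' X.flip hTc (XLINEB.sm_kch ψ' U hG.open' hψ') hA'.1
    (X.perp N) (X.perp P) hst hle φ' hl.add' hl.ker' hl.surj' hl.act'
  refine ⟨c1.1, c2.1, ?_⟩
  have hk : 0 < Nat.card k := Nat.card_pos
  have e := hA.2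
  have e1 := c1.2
  have e2 := c2.2
  have e3 : ∀ w, (@ite ℕ (w ∈ Tᶜ) (Classical.propDecidable _)
      (Nat.card (BKND.H0 (kch (ψ'.comp (Γ.r w))))) 1) =
      if w ∈ T then 1 else Nat.card (BKND.H0 (kch (ψ'.comp (Γ.r w)))) := by
    intro w
    by_cases hw : w ∈ T
    · rw [if_pos hw, if_neg (show ¬ w ∈ Tᶜ from fun h => h hw)]
    · rw [if_neg hw, if_pos (show w ∈ Tᶜ from hw)]
  simp only [e3] at e2
  have e4 : Nat.card (XLINEB.AT Γ.r T ψ) = Nat.card {f : G → k | f ∈ BKND.Z1 (kch ψ) ∧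
      ∀ w ∈ T, pb1 (Γ.r w) f ∈ BKND.B1 (kch (ψ.comp (Γ.r w)))} := rfl
  have e5 : Nat.card (XLINEB.AT Γ.r Tᶜ ψ') = Nat.card {f : G → k | f ∈ BKND.Z1 (kch ψ') ∧
      ∀ w ∉ T, pb1 (Γ.r w) f ∈ BKND.B1 (kch (ψ'.comp (Γ.r w)))} := rfl
  rw [← e4, ← e5] at e
  refine Nat.eq_of_mul_eq_mul_right hk ?_
  calc (X.Br T P N).toAddSubgroup.relIndex (X.Zr Γ.r T P N).toAddSubgroup *
        Nat.card k ^ (∑ w, if w ∈ T then δ w else 0) * Nat.card k
      = ((X.Br T P N).toAddSubgroup.relIndex (X.Zr Γ.r T P N).toAddSubgroup * Nat.card k) *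
        Nat.card k ^ (∑ w, if w ∈ T then δ w else 0) := by ring
    _ = Nat.card (XLINEB.AT Γ.r T ψ) * Nat.card k ^ (∑ w, if w ∈ T then δ w else 0) *
        ∏ w, (if w ∈ T then Nat.card (BKND.H0 (kch (ψ.comp (Γ.r w)))) else 1) := by
          rw [e1]; ring
    _ = Nat.card (XLINEB.AT Γ.r Tᶜ ψ') * Nat.card k *
        ∏ w, (if w ∈ T then 1 else Nat.card (BKND.H0 (kch (ψ'.comp (Γ.r w))))) := by
          convert e using 2
    _ = (X.flip.Br Tᶜ (X.perp N) (X.perp P)).toAddSubgroup.relIndex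
      (X.flip.Zr Γ.r Tᶜ (X.perp N) (X.perp P)).toAddSubgroup * Nat.card k * Nat.card k := by
          rw [e2]; ring

end BKMet
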