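import Pool.Agent.Lib.MP_7c08ba_nt.Met.StX

set_option autoImplicit false

/-!
Metabolic parity, module LINES: one dimensional subquotients from eigenvectors.
-/

noncomputable section

namespace BKMet

namespace XLINES

open IsLocalRing

/-! ### Additive characters of a finite field of characteristic `p` -/

section Lam

variable {p : ℕ} [Fact p.Prime] {k : Type} [Field k]

theorem smul_lam [Algebra (ZMod p) k] (lam : k →+ QZ p) (z : ℤ_[p]) (t : k) :
    z • lam t = lam (algebraMap (ZMod p) k (PadicInt.toZMod z) * t) := by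
  obtain ⟨n, hn⟩ : ∃ n : ℕ, PadicInt.toZMod z = (n : ZMod p) :=
    ⟨(PadicInt.toZMod z).val, (ZMod.natCast_zmod_val _).symm⟩
  have h1 : z - n ∈ RingHom.ker (PadicInt.toZMod (p := p)) := by
    rw [RingHom.mem_ker, map_sub, map_natCast, hn, sub_self]
  rw [PadicInt.ker_toZMod, PadicInt.maximalIdeal_eq_span_p, Ideal.mem_span_singleton] at h1
  obtain ⟨w, hw⟩ := h1
  have hz : z = n + p * w := by rw [← hw]; ring
  have hp : (p : k) = 0 := by
    have e := congrArg (algebraMap (ZMod p) k) (ZMod.natCast_self p)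
    rwa [map_natCast, map_zero] at e
  have e1 : (p : ℤ_[p]) • lam t = 0 := by
    rw [Nat.cast_smul_eq_nsmul, ← map_nsmul, nsmul_eq_mul, hp, zero_mul, map_zero]
  rw [hn, map_natCast, hz, add_smul, mul_comm (p : ℤ_[p]) w, mul_smul, e1, smul_zero, add_zero,
    Nat.cast_smul_eq_nsmul, ← map_nsmul, nsmul_eq_mul]

theorem eq_of_lam {lam : k →+ QZ p} (hl : lam ≠ 0) {c c' : k}
    (h : ∀ t, lam (t * c) = lam (t * c')) : c = c' := by
  by_contra hne
  apply hl
  refine AddMonoidHom.ext fun t => ?_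
  have h0 : c - c' ≠ 0 := sub_ne_zero.2 hne
  have e := h (t / (c - c'))
  have e2 : lam (t / (c - c') * (c - c')) = 0 := by rw [mul_sub, map_sub, e, sub_self]
  rw [div_mul_cancel₀ _ h0] at e2
  rw [e2, AddMonoidHom.zero_apply]

theorem exists_lam [Finite k] (h1 : StHoms) {lam : k →+ QZ p} (hl : lam ≠ 0) (f : k →+ QZ p) :
    ∃ c, ∀ t, f t = lam (t * c) := by
  obtain ⟨hfin, hcard, -⟩ := h1 p k
  have hinj : Function.Injective (fun c : k => lam.comp (AddMonoidHom.mulRight c)) := by
    intro c c' h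
    apply eq_of_lam hl
    intro t
    exact DFunLike.congr_fun h t
  obtain ⟨c, hc⟩ := (Function.Injective.bijective_of_nat_card_le hinj hcard).2 f
  exact ⟨c, fun t => (DFunLike.congr_fun hc t).symm⟩

theorem exists_ne [Finite k] [Algebra (ZMod p) k] (h1 : StHoms) : ∃ lam : k →+ QZ p, lam ≠ 0 := by
  obtain ⟨-, -, h⟩ := h1 p k
  have hc : ∃ n : ℕ, Nat.card k = p ^ n := by
    haveI : Module.Finite (ZMod p) k := Module.Finite.of_finite
    refine ⟨Module.finrank (ZMod p) k, ?_⟩
    have e := Module.natCard_eq_pow_finrank (K := ZMod p) (V := k)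
    rwa [Nat.card_zmod] at e
  obtain ⟨f, hf⟩ := (h hc).2 1 one_ne_zero
  exact ⟨f, fun h0 => hf (by rw [h0]; rfl)⟩

end Lam

/-! ### The line generated by an eigenvector -/

section Main

variable {R : Type} [CommRing R] [IsLocalRing R] {M : Type} [AddCommGroup M] [Module R M]

theorem smul_mem_iff {P : Submodule R M} {x : M} (hx : x ∉ P)
    (hm : ∀ a ∈ maximalIdeal R, a • x ∈ P) (a : R) : a • x ∈ P ↔ residue R a = 0 := by
  constructor
  · intro h
    by_contra hne
    have hu : IsUnit a := by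
      rw [residue_eq_zero_iff] at hne
      by_contra hnu
      exact hne ((mem_maximalIdeal a).2 hnu)
    obtain ⟨u, rfl⟩ := hu
    apply hx
    have e := P.smul_mem ((u⁻¹ : Rˣ) : R) h
    rwa [smul_smul, Units.inv_mul, one_smul] at e
  · intro h
    exact hm a ((residue_eq_zero_iff a).1 h)

open Classical in
/-- the coordinate on `P + R x` -/
def phi (P : Submodule R M) (x m : M) : ResidueField R :=
  if h : ∃ a : R, m - a • x ∈ P then residue R h.choose else 0

theorem phi_eq {P : Submodule R M} {x : M} (hx : x ∉ P)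
    (hm : ∀ a ∈ maximalIdeal R, a • x ∈ P) {m : M} {a : R} (h : m - a • x ∈ P) :
    phi P x m = residue R a := by
  have hex : ∃ a : R, m - a • x ∈ P := ⟨a, h⟩
  rw [phi, dif_pos hex]
  have h2 := P.sub_mem h hex.choose_spec
  have e : m - a • x - (m - hex.choose • x) = (hex.choose - a) • x := by
    rw [sub_smul]; abel
  rw [e, smul_mem_iff hx hm, map_sub, sub_eq_zero] at h2
  exact h2

theorem exists_coord {P : Submodule R M} {x m : M} (h : m ∈ P ⊔ Submodule.span R {x}) :
    ∃ a : R, m - a • x ∈ P := by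
  obtain ⟨y, hy, z, hz, rfl⟩ := Submodule.mem_sup.1 h
  obtain ⟨a, rfl⟩ := Submodule.mem_span_singleton.1 hz
  exact ⟨a, by rwa [add_sub_cancel_right]⟩

theorem mem_of_coord {P : Submodule R M} {x m : M} {a : R} (h : m - a • x ∈ P) :
    m ∈ P ⊔ Submodule.span R {x} := by
  have e : m = (m - a • x) + a • x := by abel
  rw [e]
  exact Submodule.add_mem_sup h (Submodule.mem_span_singleton.2 ⟨a, rfl⟩)

variable {p : ℕ} [Fact p.Prime] {G : Type} [Group G] [TopologicalSpace G] {χ : G →* ℤ_[p]ˣ}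
  {M' : Type} [AddCommGroup M'] [Module R M'] (X : Pair R (actA χ) M M')

open Classical in
/-- the coordinate on the annihilator -/
def phi' (lam : ResidueField R →+ QZ p) (x : M) (y : M') : ResidueField R :=
  if h : ∃ c : ResidueField R, ∀ a : R, X.b (a • x) y = lam (residue R a * c) then h.choose else 0

variable {X}

theorem phi'_eq {lam : ResidueField R →+ QZ p} (hl : lam ≠ 0) {x : M} {y : M'}
    {c : ResidueField R} (h : ∀ a : R, X.b (a • x) y = lam (residue R a * c)) :
    phi' X lam x y = c := by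
  have hex : ∃ c : ResidueField R, ∀ a : R, X.b (a • x) y = lam (residue R a * c) := ⟨c, h⟩
  rw [phi', dif_pos hex]
  apply eq_of_lam hl
  intro t
  obtain ⟨a, rfl⟩ := residue_surjective t
  rw [← h a, ← hex.choose_spec a]

theorem phi'_spec [Finite (ResidueField R)] (h1 : StHoms) {lam : ResidueField R →+ QZ p}
    (hl : lam ≠ 0) {P : Submodule R M} {x : M} (hm : ∀ a ∈ maximalIdeal R, a • x ∈ P) {y : M'}
    (hy : y ∈ X.perp P) (a : R) : X.b (a • x) y = lam (residue R a * phi' X lam x y) := by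
  have key : ∀ a a' : R, residue R a = residue R a' → X.b (a • x) y = X.b (a' • x) y := by
    intro a a' h
    have h2 : a - a' ∈ maximalIdeal R := by
      rw [← residue_eq_zero_iff, map_sub, h, sub_self]
    have h3 := hy _ (hm _ h2)
    rw [sub_smul, map_sub, AddMonoidHom.sub_apply, sub_eq_zero] at h3
    exact h3
  have hs : Function.Surjective (residue R) := residue_surjective
  let f : ResidueField R →+ QZ p := AddMonoidHom.mk'
    (fun t => X.b (Function.surjInv hs t • x) y) (by
      intro t t'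
      rw [← AddMonoidHom.add_apply, ← map_add, ← add_smul]
      apply key
      rw [map_add, Function.surjInv_eq hs, Function.surjInv_eq hs, Function.surjInv_eq hs])
  have hf : ∀ a : R, X.b (a • x) y = f (residue R a) := by
    intro a
    apply key
    rw [Function.surjInv_eq hs]
  obtain ⟨c, hc⟩ := exists_lam h1 hl f
  have hc' : ∀ a : R, X.b (a • x) y = lam (residue R a * c) := by
    intro a
    rw [hf, hc]
  rw [phi'_eq hl hc']
  exact hc' a

/-- the second character -/
def psi' (χ : G →* ℤ_[p]ˣ) [Algebra (ZMod p) (ResidueField R)] (ψ : G →* (ResidueField R)ˣ) :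
    G →* (ResidueField R)ˣ :=
  ((Units.map ((algebraMap (ZMod p) (ResidueField R)).comp
    (PadicInt.toZMod (p := p))).toMonoidHom).comp χ) * ψ⁻¹

theorem psi'_apply (χ : G →* ℤ_[p]ˣ) [Algebra (ZMod p) (ResidueField R)]
    (ψ : G →* (ResidueField R)ˣ) (g : G) :
    ((psi' χ ψ g : (ResidueField R)ˣ) : ResidueField R) =
      algebraMap (ZMod p) (ResidueField R) (PadicInt.toZMod ((χ g : ℤ_[p]ˣ) : ℤ_[p])) *
        ((ψ g⁻¹ : (ResidueField R)ˣ) : ResidueField R) := by
  rw [map_inv]
  rfl

theorem act_coord {P : Submodule R M} (hP : X.Stable P) {x : M} {ψ : G →* (ResidueField R)ˣ}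
    (hψ : ∀ (g : G) (a : R), residue R a = ((ψ g : (ResidueField R)ˣ) : ResidueField R) →
      X.ρ g x - a • x ∈ P) {g : G} {m : M} {a c : R} (h : m - a • x ∈ P)
    (hc : residue R c = ((ψ g : (ResidueField R)ˣ) : ResidueField R)) :
    X.ρ g m - (c * a) • x ∈ P := by
  have h1 := hP g _ h
  have h2 := P.smul_mem a (hψ g c hc)
  have e : X.ρ g m - (c * a) • x = X.ρ g (m - a • x) + a • (X.ρ g x - c • x) := by
    rw [map_sub, X.lin, smul_sub, smul_smul, mul_comm a c]
    abel
  rw [e]
  exact P.add_mem h1 h2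

theorem stable_sup {P : Submodule R M} (hP : X.Stable P) {x : M} {ψ : G →* (ResidueField R)ˣ}
    (hψ : ∀ (g : G) (a : R), residue R a = ((ψ g : (ResidueField R)ˣ) : ResidueField R) →
      X.ρ g x - a • x ∈ P) : X.Stable (P ⊔ Submodule.span R {x}) := by
  intro g m hm
  obtain ⟨a, ha⟩ := exists_coord hm
  obtain ⟨c, hc⟩ := residue_surjective ((ψ g : (ResidueField R)ˣ) : ResidueField R)
  exact mem_of_coord (act_coord hP hψ ha hc)

theorem isLine [Finite (ResidueField R)] [Algebra (ZMod p) (ResidueField R)] (h1 : StHoms)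
    (h2 : StPerp) {lam : ResidueField R →+ QZ p} (hl : lam ≠ 0) {P : Submodule R M}
    (hP : X.Stable P) {x : M} (hx : x ∉ P) (hm : ∀ a ∈ maximalIdeal R, a • x ∈ P)
    {ψ : G →* (ResidueField R)ˣ}
    (hψ : ∀ (g : G) (a : R), residue R a = ((ψ g : (ResidueField R)ˣ) : ResidueField R) →
      X.ρ g x - a • x ∈ P) :
    IsLine X P (P ⊔ Submodule.span R {x}) (ResidueField R) ψ (psi' χ ψ) lam (phi P x)
      (phi' X lam x) := by
  have hpp := (h2 R p G (actA χ) M M' X).1
  have hst := (h2 R p G (actA χ) M M' X).2.2.2.2.1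
  have hsp : ∀ {y : M'}, y ∈ X.perp P → ∀ a : R,
      X.b (a • x) y = lam (residue R a * phi' X lam x y) :=
    fun hy a => phi'_spec h1 hl hm hy a
  have hpair : ∀ n ∈ P ⊔ Submodule.span R {x}, ∀ y ∈ X.perp P,
      X.b n y = lam (phi P x n * phi' X lam x y) := by
    intro n hn y hy
    obtain ⟨a, ha⟩ := exists_coord hn
    have e := hy _ ha
    rw [map_sub, AddMonoidHom.sub_apply, sub_eq_zero] at e
    rw [e, phi_eq hx hm ha, hsp hy]
  have hker' : ∀ y ∈ X.perp P, phi' X lam x y = 0 ↔ y ∈ X.perp (P ⊔ Submodule.span R {x}) := by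
    intro y hy
    constructor
    · intro h n hn
      rw [hpair n hn y hy, h, mul_zero, map_zero]
    · intro h
      apply phi'_eq hl
      intro a
      rw [mul_zero, map_zero]
      apply h
      apply mem_of_coord (a := a)
      rw [sub_self]
      exact P.zero_mem
  have hsmul : ∀ y ∈ X.perp P, ∀ a : R, phi' X lam x (a • y) = residue R a * phi' X lam x y := by
    intro y hy a
    apply phi'_eq hl
    intro a'
    rw [← X.bal, smul_smul, hsp hy, (residue R).map_mul]
    congr 1
    ring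
  refine ⟨?_, ?_, ?_, ?_, ?_, hker', ?_, ?_, hpair⟩
  · intro m hm1 n hn1
    obtain ⟨a, ha⟩ := exists_coord hm1
    obtain ⟨b, hb⟩ := exists_coord hn1
    rw [phi_eq hx hm ha, phi_eq hx hm hb, ← map_add]
    apply phi_eq hx hm
    have e : m + n - (a + b) • x = (m - a • x) + (n - b • x) := by rw [add_smul]; abel
    rw [e]
    exact P.add_mem ha hb
  · intro n hn
    obtain ⟨a, ha⟩ := exists_coord hn
    rw [phi_eq hx hm ha, ← smul_mem_iff hx hm]
    constructor
    · intro h
      have e := P.add_mem ha h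
      rwa [sub_add_cancel] at e
    · intro h
      have e := P.sub_mem h ha
      rwa [sub_sub_cancel] at e
  · intro t
    obtain ⟨a, rfl⟩ := residue_surjective t
    have e : a • x - a • x ∈ P := by
      rw [sub_self]
      exact P.zero_mem
    exact ⟨a • x, mem_of_coord e, phi_eq hx hm e⟩
  · intro g n hn
    obtain ⟨a, ha⟩ := exists_coord hn
    obtain ⟨c, hc⟩ := residue_surjective ((ψ g : (ResidueField R)ˣ) : ResidueField R)
    rw [phi_eq hx hm ha, phi_eq hx hm (act_coord hP hψ ha hc), map_mul, hc]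
  · intro y hy z hz
    apply phi'_eq hl
    intro a
    rw [map_add, hsp hy, hsp hz, mul_add, map_add]
  · obtain ⟨y₀, hy₀, hne⟩ : ∃ y ∈ X.perp P, phi' X lam x y ≠ 0 := by
      by_contra hcon
      push Not at hcon
      have hle : X.perp P ≤ X.perp (P ⊔ Submodule.span R {x}) :=
        fun y hy => (hker' y hy).1 (hcon y hy)
      apply hx
      apply X.perf P x
      intro m' hm'
      have h5 : m' ∈ X.perp P := hm'
      apply hle h5
      apply mem_of_coord (a := 1)
      rw [one_smul, sub_self]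
      exact P.zero_mem
    intro t
    obtain ⟨a, ha⟩ := residue_surjective (t / phi' X lam x y₀)
    refine ⟨a • y₀, (X.perp P).smul_mem a hy₀, ?_⟩
    rw [hsmul y₀ hy₀, ha, div_mul_cancel₀ _ hne]
  · intro g y hy
    apply phi'_eq hl
    intro a
    obtain ⟨c, hc⟩ := residue_surjective ((ψ g⁻¹ : (ResidueField R)ˣ) : ResidueField R)
    have ha : a • x - a • x ∈ P := by
      rw [sub_self]
      exact P.zero_mem
    have e1 := hy _ (act_coord (g := g⁻¹) hP hψ ha hc)
    rw [map_sub, AddMonoidHom.sub_apply, sub_eq_zero] at e1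
    have e2 : a • x = X.ρ g (X.ρ g⁻¹ (a • x)) := by
      have e3 : X.ρ g (X.ρ g⁻¹ (a • x)) = (X.ρ g * X.ρ g⁻¹) (a • x) := rfl
      rw [e3, ← map_mul, mul_inv_cancel, map_one]
      rfl
    rw [e2, X.eqv, actA_apply, e1, hsp hy, smul_lam, psi'_apply, (residue R).map_mul, hc]
    congr 1
    ring

end Main

/-! ### Duality -/

section Dual

variable {R : Type} [CommRing R] {p : ℕ} [Fact p.Prime] {G : Type} [Group G]
  [TopologicalSpace G] {α : G →* AddMonoid.End (QZ p)} {M M' : Type} [AddCommGroup M]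
  [Module R M] [AddCommGroup M'] [Module R M'] {X : Pair R α M M'}

theorem isLine_flip (h2 : StPerp) {P N : Submodule R M} {k : Type} [Field k]
    {ψ ψ' : G →* kˣ} {lam : k →+ QZ p} {φ : M → k} {φ' : M' → k}
    (h : IsLine X P N k ψ ψ' lam φ φ') :
    IsLine X.flip (X.perp N) (X.perp P) k ψ' ψ lam φ' φ := by
  have hpp := (h2 R p G α M M' X).1
  refine ⟨h.add', h.ker', h.surj', h.act', ?_, ?_, ?_, ?_, ?_⟩
  · rw [hpp]
    exact h.add
  · rw [hpp, hpp]
    exact h.ker
  · rw [hpp]
    exact h.surj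
  · rw [hpp]
    exact h.act
  · rw [hpp]
    intro y hy x hx
    rw [mul_comm]
    exact h.pair x hx y hy

end Dual

end XLINES

open XLINES

/-- **Module LINES.** -/
theorem stLines (h1 : StHoms) (h2 : StPerp) : StLines := by
  intro R _ _ _ p _ G _ _ χ M M' _ _ _ _ _ X _ U _ hχ H
  obtain ⟨lam, hl⟩ := exists_ne (p := p) (k := IsLocalRing.ResidueField R) h1
  obtain ⟨hpp, hanti, -, -, hst, -⟩ := h2 R p G (actA χ) M M' X
  obtain ⟨hpp', hanti', -, -, hst', -⟩ := h2 R p G (actA χ) M' M X.flip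
  have hpp'' : ∀ P' : Submodule R M', X.perp (X.flip.perp P') = P' := fun P' => hpp' P'
  have hU : ∀ ψ : G →* (IsLocalRing.ResidueField R)ˣ, (∀ u ∈ U, ψ u = 1) →
      ∀ u ∈ U, psi' χ ψ u = 1 := by
    intro ψ hψ u hu
    apply Units.ext
    rw [psi'_apply, hχ u hu, map_one, one_mul, map_inv, hψ u hu, inv_one]
  constructor
  · intro P Q hP hQ hPQ
    obtain ⟨x, hxQ, hxP, hm, ψ, hψU, hψ⟩ := H P Q hP hQ hPQ
    refine ⟨P ⊔ Submodule.span R {x}, stable_sup hP hψ, le_sup_left,
      sup_le hPQ.le ((Submodule.span_singleton_le_iff_mem _ _).2 hxQ), ψ, psi' χ ψ, lam, phi P x,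
      phi' X lam x, hψU, hU ψ hψU, hl, isLine h1 h2 hl hP hxP hm hψ⟩
  · intro P' Q' hP' hQ' hPQ'
    have hPQ : X.flip.perp Q' < X.flip.perp P' := by
      refine lt_of_le_of_ne (hanti' P' Q' hPQ'.le) fun h => hPQ'.ne ?_
      rw [← hpp'' P', ← hpp'' Q', h]
    have hsP : X.Stable (X.flip.perp Q') := hst' Q' hQ'
    have hsQ : X.Stable (X.flip.perp P') := hst' P' hP'
    obtain ⟨N, hN⟩ := (Set.toFinite {N : Submodule R M | X.Stable N ∧ X.flip.perp Q' ≤ N ∧
      N < X.flip.perp P'}).exists_maximal ⟨X.flip.perp Q', hsP, le_rfl, hPQ⟩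
    obtain ⟨hNs, hN1, hN2⟩ := hN.prop
    obtain ⟨x, hxQ, hxP, hm, ψ, hψU, hψ⟩ := H N _ hNs hsQ hN2
    have hle : N ⊔ Submodule.span R {x} ≤ X.flip.perp P' :=
      sup_le hN2.le ((Submodule.span_singleton_le_iff_mem _ _).2 hxQ)
    have hxm : x ∈ N ⊔ Submodule.span R {x} :=
      Submodule.mem_sup_right (Submodule.mem_span_singleton_self x)
    have heq : N ⊔ Submodule.span R {x} = X.flip.perp P' := by
      by_contra hne
      have h3 := hN.le_of_ge (y := N ⊔ Submodule.span R {x})
        ⟨stable_sup hNs hψ, hN1.trans le_sup_left, lt_of_le_of_ne hle hne⟩ le_sup_left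
      exact hxP (h3 hxm)
    have hL := isLine (X := X) h1 h2 hl hNs hxP hm hψ
    rw [heq] at hL
    have hL' := isLine_flip h2 hL
    rw [hpp''] at hL'
    refine ⟨X.perp N, hst N hNs, ?_, ?_, psi' χ ψ, ψ, lam, _, _, hU ψ hψU, hψU, hl, hL'⟩
    · have h4 := hanti N _ hN2.le
      rwa [hpp''] at h4
    · have h4 := hanti _ N hN1
      rwa [hpp''] at h4

end BKMet
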