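import Pool.Agent.Lib.MP_7c08ba_nt.Met.StX

set_option autoImplicit false

/-!
Metabolic parity, module PERF: annihilators for nondegenerate pairings of finite groups.
-/

noncomputable section

namespace BKMet

namespace XPERF

variable {p : ℕ} [hp : Fact p.Prime]

/-- the order of an element of `ℚ_p/ℤ_p` is a power of `p` -/
theorem qz_pow (x : QZ p) : ∃ k : ℕ, (p ^ k : ℕ) • x = 0 := by
  induction x using Submodule.Quotient.induction_on with
  | H x =>
    obtain ⟨k, hk⟩ : ∃ k : ℕ, ‖(p : ℚ_[p]) ^ k * x‖ ≤ 1 := by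
      rcases eq_or_ne x 0 with rfl | hx
      · exact ⟨0, by simp⟩
      · have hp1 : (1 : ℝ) < p := by exact_mod_cast hp.out.one_lt
        obtain ⟨k, hk⟩ := pow_unbounded_of_one_lt ‖x‖ hp1
        refine ⟨k, ?_⟩
        rw [norm_mul, norm_pow, Padic.norm_p, inv_pow, inv_mul_le_iff₀ (by positivity), mul_one]
        exact hk.le
    refine ⟨k, ?_⟩
    rw [← Submodule.Quotient.mk_smul, Submodule.Quotient.mk_eq_zero]
    refine ⟨⟨(p : ℚ_[p]) ^ k * x, hk⟩, ?_⟩
    simp

/-- a finite group with a separating family of homomorphisms is a `p`-group -/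
theorem card_pow {V W : Type} [AddCommGroup V] [AddCommGroup W] [Finite V]
    (B : V →+ W →+ QZ p) (h : ∀ v, (∀ w, B v w = 0) → v = 0) :
    ∃ k : ℕ, Nat.card V = p ^ k := by
  refine ⟨_, Nat.eq_prime_pow_of_unique_prime_dvd Nat.card_pos.ne' fun {l} hl hlV => ?_⟩
  by_contra hlp
  have : Fact l.Prime := ⟨hl⟩
  obtain ⟨u, hu⟩ := exists_prime_addOrderOf_dvd_card' l hlV
  have hu0 : u = 0 := by
    refine h u fun w => ?_
    obtain ⟨k, hk⟩ := qz_pow (B u w)
    have h1 : l • B u w = 0 := by
      rw [← AddMonoidHom.nsmul_apply, ← map_nsmul, ← hu, addOrderOf_nsmul_eq_zero, map_zero]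
      rfl
    have h2 : addOrderOf (B u w) ∣ Nat.gcd l (p ^ k) :=
      Nat.dvd_gcd (addOrderOf_dvd_of_nsmul_eq_zero h1) (addOrderOf_dvd_of_nsmul_eq_zero hk)
    have h3 : Nat.gcd l (p ^ k) = 1 :=
      Nat.Coprime.pow_right k ((Nat.coprime_primes hl hp.out).2 hlp)
    rw [h3, Nat.dvd_one, AddMonoid.addOrderOf_eq_one_iff] at h2
    exact h2
  rw [hu0, addOrderOf_zero] at hu
  exact hl.one_lt.ne hu

/-- a group which embeds in the dual of a finite group -/
theorem le {V W : Type} [AddCommGroup V] [AddCommGroup W] [Finite V] (H : StHoms)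
    (B : V →+ W →+ QZ p) (h : ∀ w, (∀ v, B v w = 0) → w = 0) :
    Finite W ∧ Nat.card W ≤ Nat.card V := by
  obtain ⟨h1, h2, -⟩ := H p V
  have hinj : Function.Injective (fun w : W => (B.flip w : V →+ QZ p)) := by
    intro w w' hw
    rw [← sub_eq_zero]
    refine h _ fun v => ?_
    have h3 := DFunLike.congr_fun hw v
    simp only [AddMonoidHom.flip_apply] at h3
    rw [map_sub, h3, sub_self]
  exact ⟨Finite.of_injective _ hinj, (Nat.card_le_card_of_injective _ hinj).trans h2⟩

/-- the order of the annihilator -/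
theorem card_ann {V W : Type} [AddCommGroup V] [AddCommGroup W] [Finite V] [Finite W]
    (H : StHoms) (B : V →+ W →+ QZ p) (hw : ∀ w, (∀ v, B v w = 0) → w = 0)
    (hc : Nat.card V ≤ Nat.card W)
    (A : AddSubgroup V) (C : AddSubgroup W) (hC : ∀ w, w ∈ C ↔ ∀ v ∈ A, B v w = 0) :
    Nat.card A * Nat.card C = Nat.card V := by
  -- `C` embeds in the dual of `V / A`
  have h1 : Nat.card C ≤ Nat.card (V ⧸ A) := by
    have h2 : ∀ w : C, ∀ v ∈ A, B v w = 0 := fun w v hv => (hC w).1 w.2 v hv
    let f : C → ((V ⧸ A) →+ QZ p) := fun w =>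
      QuotientAddGroup.lift A (B.flip (w : W)) (fun v hv => h2 w v hv)
    have hf : Function.Injective f := by
      intro w w' hww
      have h3 : ∀ v : V, B v ((w : W) - w') = 0 := by
        intro v
        have h4 := DFunLike.congr_fun hww (v : V ⧸ A)
        change B v w = B v w' at h4
        rw [map_sub, h4, sub_self]
      exact Subtype.ext (sub_eq_zero.1 (hw _ h3))
    obtain ⟨h5, h6, -⟩ := H p (V ⧸ A)
    exact (Nat.card_le_card_of_injective f hf).trans h6
  -- `W / C` embeds in the dual of `A`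
  have h2 : Nat.card (W ⧸ C) ≤ Nat.card A := by
    let f : W →+ (A →+ QZ p) :=
      AddMonoidHom.mk' (fun w => (B.flip w).comp A.subtype) (by
        intro w w'
        ext v
        simp)
    have hf : f.ker = C := by
      ext w
      rw [AddMonoidHom.mem_ker, hC]
      constructor
      · intro h v hv
        exact DFunLike.congr_fun h ⟨v, hv⟩
      · intro h
        ext v
        exact h v v.2
    obtain ⟨h5, h6, -⟩ := H p A
    rw [← hf]
    exact (Nat.card_le_card_of_injective _ (QuotientAddGroup.kerLift_injective f)).trans h6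
  have h3 := AddSubgroup.card_eq_card_quotient_mul_card_addSubgroup A
  have h4 := AddSubgroup.card_eq_card_quotient_mul_card_addSubgroup C
  apply le_antisymm
  · rw [h3, mul_comm]
    exact Nat.mul_le_mul_right _ h1
  · refine hc.trans ?_
    rw [h4]
    exact Nat.mul_le_mul_right _ h2

end XPERF

open XPERF

theorem stPerf (H : StHoms) : StPerf := by
  intro p _ V W _ _ _ B hv hw
  obtain ⟨hW, h1⟩ := le H B hw
  obtain ⟨-, h2⟩ := le H B.flip hv
  have hc : Nat.card W = Nat.card V := le_antisymm h1 h2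
  have key : ∀ (A : AddSubgroup V) (C : AddSubgroup W), (∀ w, w ∈ C ↔ ∀ v ∈ A, B v w = 0) →
      Nat.card A * Nat.card C = Nat.card V ∧ (∀ v, v ∈ A ↔ ∀ w ∈ C, B v w = 0) := by
    intro A C hC
    have h3 := card_ann H B hw hc.ge A C hC
    refine ⟨h3, ?_⟩
    let A₂ : AddSubgroup V :=
      { carrier := {v | ∀ w ∈ C, B v w = 0}
        zero_mem' := fun w _ => by simp
        add_mem' := fun {a b} ha hb w hw' => by
          rw [map_add, AddMonoidHom.add_apply, ha w hw', hb w hw', add_zero]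
        neg_mem' := fun {a} ha w hw' => by
          rw [map_neg, AddMonoidHom.neg_apply, ha w hw', neg_zero] }
    have hA₂ : ∀ v, v ∈ A₂ ↔ ∀ w ∈ C, B.flip w v = 0 := fun v => Iff.rfl
    have h4 := card_ann H B.flip hv hc.le C A₂ hA₂
    have h5 : A ≤ A₂ := fun v hv' w hw' => (hC w).1 hw' v hv'
    have h6 : Nat.card A₂ = Nat.card A := by
      have h7 : 0 < Nat.card C := Nat.card_pos
      have h8 : Nat.card C * Nat.card A₂ = Nat.card C * Nat.card A := by
        rw [h4, hc, ← h3, mul_comm]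
      exact Nat.eq_of_mul_eq_mul_left h7 h8
    have h7 : A = A₂ := by
      apply SetLike.coe_injective
      apply Set.eq_of_subset_of_ncard_le h5
      · have e1 : (A₂ : Set V).ncard = Nat.card A₂ := rfl
        have e2 : (A : Set V).ncard = Nat.card A := rfl
        rw [e1, e2, h6]
    intro v
    conv_lhs => rw [h7]
    exact Iff.rfl
  refine ⟨hW, hc, fun A C hC => ?_⟩
  obtain ⟨k1, k2⟩ := key A C hC
  refine ⟨k1, k2, fun A' C' hC' v hv' => ?_⟩
  have h5 : ∀ w, w ∈ C ⊓ C' ↔ ∀ v ∈ A ⊔ A', B v w = 0 := by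
    intro w
    rw [AddSubgroup.mem_inf, hC, hC']
    constructor
    · rintro ⟨h6, h7⟩ v hv
      obtain ⟨a, ha, b, hb, rfl⟩ := AddSubgroup.mem_sup.1 hv
      rw [map_add, AddMonoidHom.add_apply, h6 a ha, h7 b hb, add_zero]
    · intro h6
      exact ⟨fun v hv => h6 v (AddSubgroup.mem_sup_left hv),
        fun v hv => h6 v (AddSubgroup.mem_sup_right hv)⟩
  exact ((key _ _ h5).2 v).2 fun w hw' => hv' w hw'.1 hw'.2

end BKMet
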