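import Pool.Agent.Lib.MP_7c08ba_nt.Met.StX

set_option autoImplicit false

/-!
Metabolic parity, part X, module PERP: annihilators of submodules of a pair.
-/

noncomputable section

namespace BKMet

namespace XPERP

variable {R : Type} [CommRing R] {p : ℕ} [Fact p.Prime] {G : Type} [Group G] [TopologicalSpace G]
  {α : G →* AddMonoid.End (QZ p)} {M M' : Type} [AddCommGroup M] [Module R M]
  [AddCommGroup M'] [Module R M'] (X : Pair R α M M')

theorem mem_perp {P : Submodule R M} {m' : M'} : m' ∈ X.perp P ↔ ∀ m ∈ P, X.b m m' = 0 := Iff.rfl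

theorem mem_flip {P : Submodule R M'} {m : M} : m ∈ X.flip.perp P ↔ ∀ m' ∈ P, X.b m m' = 0 :=
  Iff.rfl

theorem perp_perp (P : Submodule R M) : X.flip.perp (X.perp P) = P := by
  ext m
  rw [mem_flip]
  constructor
  · intro h
    exact X.perf P m fun m' hm' => h m' hm'
  · intro h m' hm'
    exact hm' m h

theorem perp_anti {P Q : Submodule R M} (h : P ≤ Q) : X.perp Q ≤ X.perp P :=
  fun _ hm' m hm => hm' m (h hm)

theorem perp_top : X.perp ⊤ = ⊥ := by
  rw [eq_bot_iff]
  intro m' hm'
  exact X.perf' ⊥ m' fun m _ => hm' m trivial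

theorem perp_bot : X.perp ⊥ = ⊤ := by
  rw [eq_top_iff]
  intro m' _ m hm
  rw [(Submodule.mem_bot R).1 hm, map_zero, AddMonoidHom.zero_apply]

theorem stable {P : Submodule R M} (h : X.Stable P) : X.flip.Stable (X.perp P) := by
  intro g m' hm' m hm
  change X.b m (X.ρ' g m') = 0
  have h1 : X.ρ g (X.ρ g⁻¹ m) = m := by
    change (X.ρ g * X.ρ g⁻¹) m = m
    rw [← map_mul, mul_inv_cancel, map_one]
    rfl
  have h2 := X.eqv g (X.ρ g⁻¹ m) m'
  rw [h1, hm' _ (h g⁻¹ m hm), map_zero] at h2
  exact h2

theorem inj {m' : M'} (h : ∀ m, X.b m m' = 0) : m' = 0 := by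
  have h1 : m' ∈ X.perp ⊤ := fun m _ => h m
  rw [perp_top] at h1
  exact (Submodule.mem_bot R).1 h1

variable (h : StHoms)
include h

include X in
theorem finite [Finite M] : Finite M' ∧ Nat.card M' ≤ Nat.card M := by
  obtain ⟨h1, h2, -⟩ := h p M
  have hi : Function.Injective (X.b.flip : M' → M →+ QZ p) := by
    rw [injective_iff_map_eq_zero]
    intro m' hm'
    exact inj X fun m => DFunLike.congr_fun hm' m
  exact ⟨Finite.of_injective _ hi, (Nat.card_le_card_of_injective _ hi).trans h2⟩

/-- the pairing with the elements of `P` -/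
def res (P : Submodule R M) : M' →+ P →+ QZ p where
  toFun m' := (X.b.flip m').comp P.toAddSubgroup.subtype
  map_zero' := by
    ext
    simp
  map_add' x y := by
    ext
    simp

omit h in
theorem ker_res (P : Submodule R M) : (res X P).ker = (X.perp P).toAddSubgroup := by
  ext m'
  rw [AddMonoidHom.mem_ker]
  constructor
  · intro h m hm
    exact DFunLike.congr_fun h (⟨m, hm⟩ : P)
  · intro h
    ext m
    exact h m.1 m.2

theorem card_ge [Finite M] (P : Submodule R M) :
    Nat.card M' ≤ Nat.card P * Nat.card (X.perp P) := by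
  obtain ⟨h1, h2, -⟩ := h p P
  have h3 := (res X P).ker.card_mul_index
  rw [AddSubgroup.index_ker, ker_res] at h3
  have h4 : Nat.card (res X P).range ≤ Nat.card (P →+ QZ p) :=
    Nat.card_le_card_of_injective _ Subtype.val_injective
  calc Nat.card M' = Nat.card (X.perp P) * Nat.card (res X P).range := h3.symm
    _ ≤ Nat.card (X.perp P) * Nat.card P := Nat.mul_le_mul_left _ (h4.trans h2)
    _ = _ := mul_comm _ _

theorem card_le [Finite M] (P : Submodule R M) :
    Nat.card P * Nat.card (X.perp P) ≤ Nat.card M := by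
  obtain ⟨h1, h2, -⟩ := h p (M ⧸ P.toAddSubgroup)
  let f : X.perp P → (M ⧸ P.toAddSubgroup →+ QZ p) := fun m' =>
    QuotientAddGroup.lift P.toAddSubgroup (X.b.flip m') fun m hm => m'.2 m hm
  have hf : Function.Injective f := by
    intro x y hxy
    have h3 : ∀ m, X.b m x = X.b m y := fun m =>
      DFunLike.congr_fun hxy (m : M ⧸ P.toAddSubgroup)
    ext
    rw [← sub_eq_zero]
    refine inj X fun m => ?_
    rw [map_sub, h3, sub_self]
  have h4 := (Nat.card_le_card_of_injective _ hf).trans h2
  have h5 := P.toAddSubgroup.card_mul_index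
  calc Nat.card P * Nat.card (X.perp P) ≤ Nat.card P * Nat.card (M ⧸ P.toAddSubgroup) :=
        Nat.mul_le_mul_left _ h4
    _ = Nat.card M := h5

end XPERP

open XPERP

theorem stPerp (h : StHoms) : StPerp := by
  intro R _ p _ G _ _ α M M' _ _ _ _ X
  refine ⟨perp_perp X, fun P Q => perp_anti X, perp_top X, perp_bot X, fun P => stable X,
    fun hM => ?_⟩
  obtain ⟨h1, h2⟩ := finite X h
  have h3 : Nat.card M' = Nat.card M := le_antisymm h2 (finite X.flip h).2
  exact ⟨h1, h3, fun P => le_antisymm (card_le X h P) (h3 ▸ card_ge X h P)⟩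

end BKMet
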