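import Pool.Agent.Lib.MP_7c08ba_nt.Met.StX

set_option autoImplicit false

/-!
Metabolic parity, part X, module SD: self dual modules with a Lagrangian submodule.
-/

noncomputable section

namespace BKMet

open BKPar (Loc1 Loc2)
open BKND (Sm)

namespace XSD

section Card

variable (R : Type) [CommRing R] [IsLocalRing R]

/-- the order of a finite module over a local ring is a power of the order of the residue field -/
theorem card_pow : ∀ (n : ℕ) (Q : Type) [AddCommGroup Q] [Module R Q] [Finite Q],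
    Nat.card Q = n → ∃ m : ℕ, Nat.card Q = Nat.card (IsLocalRing.ResidueField R) ^ m := by
  intro n
  induction n using Nat.strong_induction_on with
  | _ n ih =>
    intro Q _ _ _ hn
    rcases subsingleton_or_nontrivial Q with hs | hs
    · exact ⟨0, by rw [pow_zero]; exact Nat.card_unique⟩
    · have hfg : (⊤ : Submodule R Q).FG := Module.Finite.fg_top
      have hS : (IsLocalRing.maximalIdeal R • (⊤ : Submodule R Q)) ≠ ⊤ := by
        intro h
        have h1 : (⊤ : Submodule R Q) = ⊥ :=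
          Submodule.eq_bot_of_le_smul_of_le_jacobson_bot (IsLocalRing.maximalIdeal R) ⊤ hfg h.ge
            (IsLocalRing.maximalIdeal_le_jacobson ⊥)
        exact absurd h1 top_ne_bot
      let iM : Module (IsLocalRing.ResidueField R)
          (Q ⧸ (IsLocalRing.maximalIdeal R • (⊤ : Submodule R Q))) :=
        inferInstanceAs (Module (R ⧸ IsLocalRing.maximalIdeal R)
          (Q ⧸ (IsLocalRing.maximalIdeal R • (⊤ : Submodule R Q))))
      have hfq : Finite (Q ⧸ (IsLocalRing.maximalIdeal R • (⊤ : Submodule R Q))) :=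
        Finite.of_surjective _ (Submodule.Quotient.mk_surjective _)
      have hfin : Module.Finite (IsLocalRing.ResidueField R)
          (Q ⧸ (IsLocalRing.maximalIdeal R • (⊤ : Submodule R Q))) := Module.Finite.of_finite
      have h1 : Nat.card (Q ⧸ (IsLocalRing.maximalIdeal R • (⊤ : Submodule R Q))) = _ :=
        Module.natCard_eq_pow_finrank (K := IsLocalRing.ResidueField R)
      have h2 := (IsLocalRing.maximalIdeal R • (⊤ : Submodule R Q)).card_eq_card_quotient_mul_card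
      have hlt : Nat.card ↥(IsLocalRing.maximalIdeal R • (⊤ : Submodule R Q)) < n := by
        rw [← hn]
        have h3 : ((IsLocalRing.maximalIdeal R • (⊤ : Submodule R Q) : Submodule R Q) : Set Q) ⊂
            Set.univ := by
          rw [Set.ssubset_univ_iff]
          intro h
          exact hS (SetLike.coe_injective h)
        have h4 := Set.Finite.card_lt_card Set.finite_univ h3
        rwa [Nat.card_univ] at h4
      obtain ⟨m, hm⟩ := ih _ hlt ↥(IsLocalRing.maximalIdeal R • (⊤ : Submodule R Q)) rfl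
      exact ⟨_, by rw [h2, h1, hm, ← pow_add]⟩

/-- the index of a submodule is a power of the order of the residue field -/
theorem relIndex_pow {V : Type} [AddCommGroup V] [Module R V] (B Z : Submodule R V)
    (h : B.toAddSubgroup.relIndex Z.toAddSubgroup ≠ 0) :
    ∃ m : ℕ, B.toAddSubgroup.relIndex Z.toAddSubgroup =
      Nat.card (IsLocalRing.ResidueField R) ^ m := by
  have h1 : B.toAddSubgroup.relIndex Z.toAddSubgroup = Nat.card (↥Z ⧸ B.comap Z.subtype) := rfl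
  rw [h1] at h ⊢
  have : Finite (↥Z ⧸ B.comap Z.subtype) := Nat.finite_of_card_ne_zero h
  exact card_pow R _ _ rfl

end Card
/-! ### conjugation -/

section Conj

variable {R : Type} [CommRing R] {ι G M A : Type} [Group G] [TopologicalSpace G]
  {D : ι → Type} [∀ i, Group (D i)] [AddCommGroup A] {α : G →* AddMonoid.End A}
  [AddCommGroup M] [Module R M]

/-- conjugation of pairs -/
def cj (R : Type) [CommRing R] {ι G M : Type} [Group G] [AddCommGroup M] [Module R M]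
    (c : G →* G) : ((G → M) × (ι × Bool → M)) →ₗ[R] ((G → M) × (ι × Bool → M)) where
  toFun x := (fun g => x.1 (c g), fun w => x.2 (w.1, !w.2))
  map_add' _ _ := rfl
  map_smul' _ _ := rfl

omit [TopologicalSpace G] in
theorem cj_cj {c : G →* G} (hcc : ∀ g, c (c g) = g) (x : (G → M) × (ι × Bool → M)) :
    cj R c (cj R c x) = x := by
  refine Prod.ext (funext fun g => ?_) (funext fun w => ?_)
  · change x.1 (c (c g)) = x.1 g
    rw [hcc]
  · change x.2 (w.1, !(!w.2)) = x.2 w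
    rw [Bool.not_not]

variable (X : Pair R α M M) {c : G →* G} (hc : Continuous c) (hρ : ∀ g, X.ρ' g = X.ρ (c g))
  {r : ∀ w : ι × Bool, DD D w →* G} (hr : ∀ (w : ι × Bool) (d : D w.1), c (r w d) = r (w.1, !w.2) d)
  {T T' : Set (ι × Bool)} (hT : ∀ w, w ∈ T' ↔ (w.1, !w.2) ∈ T) (P Q : Submodule R M)

include hρ in
theorem d1_cj (z : G → M) (g h : G) :
    d1 X.ρ' (fun g => z (c g)) g h = d1 X.ρ z (c g) (c h) := by
  simp only [d1, hρ, map_mul]

include hρ in
theorem d0_cj (m : M) (g : G) : d0 X.ρ' m g = d0 X.ρ m (c g) := by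
  simp only [d0, hρ]

omit [AddCommGroup M] in
theorem loc1_cj {c : G →* G} (hc : Continuous c) {z : G → M} (hz : Loc1 z) :
    Loc1 fun g => z (c g) := by
  obtain ⟨W, hW, h⟩ := hz
  refine ⟨W.comap c, hW.preimage hc, fun g w hw => ?_⟩
  change z (c (g * w)) = z (c g)
  rw [map_mul]
  exact h _ _ hw

include hc hρ hr hT in
theorem zr_cj {x : (G → M) × (ι × Bool → M)} (hx : x ∈ X.Zr r T P Q) :
    cj R c x ∈ X.flip.Zr r T' P Q := by
  obtain ⟨h0, h1, h2, h3, h4⟩ := hx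
  refine ⟨loc1_cj hc h0, fun g => h1 (c g), fun g h => ?_, fun w hw => ⟨?_, fun d => ?_⟩,
    fun w hw => ?_⟩
  · have e := d1_cj X hρ x.1 g h
    change d1 X.ρ' (fun g => x.1 (c g)) g h ∈ P
    rw [e]
    exact h2 _ _
  · exact (h3 _ ((hT w).1 hw)).1
  · have e := (h3 _ ((hT w).1 hw)).2 d
    change x.1 (c (r w d)) - d0 X.ρ' (x.2 (w.1, !w.2)) (r w d) ∈ P
    rw [d0_cj X hρ, hr]
    exact e
  · exact h4 _ fun h => hw ((hT w).2 h)

include hc hρ hT in
theorem br_cj {x : (G → M) × (ι × Bool → M)} (hx : x ∈ X.Br T P Q) :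
    cj R c x ∈ X.flip.Br T' P Q := by
  obtain ⟨h0, ⟨n, hn, h1, h2⟩, h4⟩ := hx
  refine ⟨loc1_cj hc h0, ⟨n, hn, fun g => ?_, fun w hw => ?_⟩, fun w hw => ?_⟩
  · change x.1 (c g) - d0 X.ρ' n g ∈ P
    rw [d0_cj X hρ]
    exact h1 _
  · exact h2 _ ((hT w).1 hw)
  · exact h4 _ fun h => hw ((hT w).2 h)

include hc hρ hr hT in
theorem relIndex_cj (hcc : ∀ g, c (c g) = g) :
    (X.flip.Br T' P Q).toAddSubgroup.relIndex (X.flip.Zr r T' P Q).toAddSubgroup =
      (X.Br T P Q).toAddSubgroup.relIndex (X.Zr r T P Q).toAddSubgroup := by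
  have hρ' : ∀ g, X.flip.ρ' g = X.flip.ρ (c g) := by
    intro g
    change X.ρ g = X.ρ' (c g)
    rw [hρ, hcc]
  have hT' : ∀ w, w ∈ T ↔ (w.1, !w.2) ∈ T' := by
    intro w
    rw [hT]
    change w ∈ T ↔ (w.1, !(!w.2)) ∈ T
    rw [Bool.not_not]
  have e1 : (X.flip.Zr r T' P Q).toAddSubgroup =
      (X.Zr r T P Q).toAddSubgroup.map (cj R (ι := ι) (M := M) c).toAddMonoidHom := by
    ext y
    constructor
    · intro hy
      exact ⟨cj R c y, zr_cj X.flip hc hρ' hr hT' P Q hy, cj_cj hcc y⟩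
    · rintro ⟨x, hx, rfl⟩
      exact zr_cj X hc hρ hr hT P Q hx
  have e2 : (X.flip.Br T' P Q).toAddSubgroup =
      (X.Br T P Q).toAddSubgroup.map (cj R (ι := ι) (M := M) c).toAddMonoidHom := by
    ext y
    constructor
    · intro hy
      exact ⟨cj R c y, br_cj X.flip hc hρ' hT' P Q hy, cj_cj hcc y⟩
    · rintro ⟨x, hx, rfl⟩
      exact br_cj X hc hρ hT P Q hx
  rw [e1, e2]
  apply AddSubgroup.relIndex_map_map_of_injective
  intro x y hxy
  have h := congrArg (cj R (ι := ι) (M := M) c) hxy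
  change cj R c (cj R c x) = cj R c (cj R c y) at h
  rwa [cj_cj hcc, cj_cj hcc] at h

end Conj

section Anti

variable {R : Type} [CommRing R] {ι : Type} [Fintype ι] {G M A E : Type} [Group G]
  [TopologicalSpace G] {D : ι → Type} [∀ i, Group (D i)] [∀ i, TopologicalSpace (D i)]
  [AddCommGroup A] [AddCommGroup E] [AddCommGroup M] [Module R M]

theorem xi_cj (Γ : Glo (ι × Bool) G (DD D) A E) (X : Pair R Γ.α M M) {c : G →* G}
    (hcc : ∀ g, c (c g) = g) (hρ : ∀ g, X.ρ' g = X.ρ (c g))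
    (hr : ∀ (w : ι × Bool) (d : D w.1), c (Γ.r w d) = Γ.r (w.1, !w.2) d)
    (hb : ∀ m m', X.b m m' = X.b m' m) {T T' : Set (ι × Bool)}
    (hT : ∀ w, w ∈ T' ↔ (w.1, !w.2) ∈ T) (x y : (G → M) × (ι × Bool → M)) :
    Xi Γ X.flip T' (cj R c y) x = (cc3 c (Xi Γ X T y (cj R c x)).1,
      swp (Y := fun i => D i → D i → A) (Xi Γ X T y (cj R c x)).2) := by
  refine Prod.ext ?_ ?_
  · funext g h k
    change X.b (X.ρ (g * h) (x.1 k)) (d1 X.ρ' (fun g => y.1 (c g)) g h) =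
      X.b (d1 X.ρ y.1 (c g) (c h)) (X.ρ' (c g * c h) (x.1 (c (c k))))
    rw [d1_cj X hρ, hρ, map_mul c, hcc, hcc, hcc, hb]
  · funext w
    by_cases hw : w ∈ T'
    · have hw' := (hT w).1 hw
      funext d d'
      simp only [Xi, swp, if_pos hw, if_pos hw']
      change X.b (X.ρ (Γ.r w d) (x.1 (Γ.r w d')))
          (y.1 (c (Γ.r w d)) - d0 X.ρ' (y.2 (w.1, !w.2)) (Γ.r w d)) =
        X.b (y.1 (Γ.r (w.1, !w.2) d) - d0 X.ρ (y.2 (w.1, !w.2)) (Γ.r (w.1, !w.2) d))
          (X.ρ' (Γ.r (w.1, !w.2) d) (x.1 (c (Γ.r (w.1, !w.2) d'))))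
      rw [d0_cj X hρ, ← hr, ← hr, hρ, hcc, hcc, hb]
    · have hw' : (w.1, !w.2) ∉ T := fun h => hw ((hT w).2 h)
      funext d d'
      simp only [Xi, swp, if_neg hw, if_neg hw']
      change X.b (X.ρ (Γ.r w (d * d')) (x.2 w))
          (d1 X.ρ' (fun g => y.1 (c g)) (Γ.r w d) (Γ.r w d')) =
        X.b (d1 X.ρ y.1 (Γ.r (w.1, !w.2) d) (Γ.r (w.1, !w.2) d'))
          (X.ρ' (Γ.r (w.1, !w.2) (d * d')) (x.2 (w.1, !(!w.2))))
      rw [d1_cj X hρ, ← hr, ← hr, ← hr, hρ, hcc, hb, Bool.not_not]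

end Anti

end XSD

open XSD in
/-- Module SD. -/
theorem stSD (h1 : StInd) (h2 : StSwap) (h3 : StAlt) (h4 : StExact) (h5 : StPerp) (h6 : StCT) :
    StSD := by
  intro R _ _ _ p _ hp _ ι _ G _ _ _ _ D _ _ _ _ r c hc hcc Γ hΓr hinv htr χ hχ U δ hG hδ M _ _ _
    X hX hb hL hL' N hN hNp
  have hρ : ∀ g, X.ρ' g = X.ρ (c g) := by
    intro g
    rw [hX]
    rfl
  have e1 : ∀ i, Γ.r (i, false) = r i := fun i => hΓr (i, false)
  have e2 : ∀ i, Γ.r (i, true) = c.comp (r i) := fun i => hΓr (i, true)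
  have hr : ∀ (w : ι × Bool) (d : D w.1), c (Γ.r w d) = Γ.r (w.1, !w.2) d := by
    rintro ⟨i, b⟩ d
    cases b
    · change c (Γ.r (i, false) d) = Γ.r (i, true) d
      rw [e1, e2]
      rfl
    · change c (Γ.r (i, true) d) = Γ.r (i, false) d
      rw [e1, e2]
      exact hcc _
  set T : Set (ι × Bool) := {w | w.2 = false} with hTdef
  have hT : ∀ w, w ∈ Tᶜ ↔ (w.1, !w.2) ∈ T := by
    rintro ⟨i, b⟩
    cases b <;> simp [hTdef]
  obtain ⟨i₀⟩ : Nonempty ι := by
    by_contra h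
    rw [not_nonempty_iff] at h
    rw [Finset.univ_eq_empty, Finset.sum_empty] at hδ
    exact absurd hδ (by decide)
  have hT1 : T.Nonempty := ⟨(i₀, false), rfl⟩
  have hT2 : Tᶜ.Nonempty := ⟨(i₀, true), by simp [hTdef]⟩
  have hsum : ∀ inst : ∀ w : ι × Bool, Decidable (w ∈ T),
      (∑ w, @ite ℕ (w ∈ T) (inst w) (δ w) 0) = 1 := by
    intro inst
    rw [← hδ, Fintype.sum_prod_type]
    refine Finset.sum_congr rfl fun i _ => ?_
    rw [Fintype.sum_bool, if_neg (by simp [hTdef]), if_pos (by simp [hTdef]), zero_add]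
  have hbot : X.Stable ⊥ := by
    intro g m hm
    rw [Submodule.mem_bot] at hm ⊢
    rw [hm, map_zero]
  have htop : X.Stable ⊤ := fun _ _ _ => Submodule.mem_top
  obtain ⟨-, -, p3, p4, -, -⟩ := h5 R p G Γ.α M M X
  -- monotonicity
  have hmono : ∀ P P' Q : Submodule R M, P ≤ P' → X.Zr Γ.r T P Q ≤ X.Zr Γ.r T P' Q := by
    rintro P P' Q hP x ⟨a0, a1, a2, a3, a4⟩
    exact ⟨a0, a1, fun g h => hP (a2 g h), fun w hw => ⟨(a3 w hw).1, fun d => hP ((a3 w hw).2 d)⟩,
      a4⟩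
  have hmono' : ∀ P P' Q : Submodule R M, P ≤ P' →
      X.flip.Zr Γ.r Tᶜ P Q ≤ X.flip.Zr Γ.r Tᶜ P' Q := by
    rintro P P' Q hP x ⟨a0, a1, a2, a3, a4⟩
    exact ⟨a0, a1, fun g h => hP (a2 g h), fun w hw => ⟨(a3 w hw).1, fun d => hP ((a3 w hw).2 d)⟩,
      a4⟩
  obtain ⟨c1, c2, c3, c4⟩ := h6 R (ι × Bool) G (DD D) (QZ p) (QZ p) Γ M M X T
  obtain ⟨x1, x2⟩ := h4 R G (ι × Bool) (DD D) Γ.r (QZ p) Γ.α M M X T hT1
  obtain ⟨-, -, x5⟩ := x2 ⊥ N ⊤ hbot hN htop bot_le le_top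
  have ind := h1 R p (ι × Bool) G (DD D) Γ χ U δ hG M M X (IsLocalRing.ResidueField R) hL hL' T
    hT1 hT2
  obtain ⟨i1, -, -, -⟩ := ind ⊥ N ⊤ hbot hN htop bot_le le_top
  obtain ⟨-, j1, -, -⟩ := ind N N ⊤ hN hN htop le_rfl le_top
  obtain ⟨-, -, -, k1⟩ := ind ⊥ N N hbot hN hN bot_le le_rfl
  rw [hNp, p4] at i1 k1
  set Z : Submodule R ((G → M) × (ι × Bool → M)) := X.Zr Γ.r T N ⊤ with hZ
  set B : Submodule R ((G → M) × (ι × Bool → M)) := X.Zr Γ.r T ⊥ ⊤ ⊔ X.Br T N ⊤ with hB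
  have hBrZ : X.Br T N ⊤ ≤ Z := x1 N ⊤ hN le_top htop
  have hBZ : B ≤ Z := sup_le (hmono ⊥ N ⊤ bot_le) hBrZ
  have hmul : (X.Br T N ⊤).toAddSubgroup.relIndex B.toAddSubgroup *
      B.toAddSubgroup.relIndex Z.toAddSubgroup =
      (X.Br T N ⊤).toAddSubgroup.relIndex Z.toAddSubgroup :=
    AddSubgroup.relIndex_mul_relIndex _ _ _ (le_sup_right : X.Br T N ⊤ ≤ B) hBZ
  have hfin : B.toAddSubgroup.relIndex Z.toAddSubgroup ≠ 0 := by
    intro h
    rw [h, mul_zero] at hmul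
    exact j1 hmul.symm
  have hfin' : (X.Br T N ⊤).toAddSubgroup.relIndex B.toAddSubgroup ≠ 0 := by
    intro h
    rw [h, zero_mul] at hmul
    exact j1 hmul.symm
  have hcjZ : ∀ y ∈ Z, cj R c y ∈ X.flip.Zr Γ.r Tᶜ N ⊤ := fun y hy =>
    zr_cj X hc hρ hr hT N ⊤ hy
  have hρ' : ∀ g, X.flip.ρ' g = X.flip.ρ (c g) := by
    intro g
    change X.ρ g = X.ρ' (c g)
    rw [hρ, hcc]
  have hT' : ∀ w, w ∈ T ↔ (w.1, !w.2) ∈ Tᶜ := by
    intro w
    rw [hT]
    change w ∈ T ↔ (w.1, !(!w.2)) ∈ T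
    rw [Bool.not_not]
  have hcjZ' : ∀ y ∈ X.flip.Zr Γ.r Tᶜ N ⊤, cj R c y ∈ Z := fun y hy =>
    zr_cj X.flip hc hρ' hr hT' N ⊤ hy
  obtain ⟨a, ha⟩ := h3 R p hp ((G → M) × (ι × Bool → M)) Z B
    (fun x y => CT Γ X T x (cj R c y)) hBZ hfin (fun x _ x' _ y _ => c1 x x' _)
    (fun x _ y _ b => by
      change CT Γ X T (b • x) (cj R c y) = CT Γ X T x (cj R c (b • y))
      rw [c3, map_smul])
    (fun x hx y hy => by
      have hs := h2 R (ι × Bool) G (DD D) (QZ p) (QZ p) Γ M M X T N hN x hx (cj R c y)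
        (by rw [hNp]; exact hcjZ y hy)
      change CT Γ X T x (cj R c y) = - CT Γ X T y (cj R c x)
      rw [hs]
      unfold CT
      rw [xi_cj Γ X hcc hρ hr hb hT, htr])
    (fun x hx => by
      constructor
      · intro hxB y hy
        change CT Γ X T x (cj R c y) = 0
        obtain ⟨u, hu, v, hv, rfl⟩ := Submodule.mem_sup.1 hxB
        have hy' := hcjZ y hy
        rw [c1]
        obtain ⟨-, -, q3⟩ := c4 ⊥ hbot
        obtain ⟨q1, -, -⟩ := c4 N hN
        rw [q3 u hu _ (by rw [p4]; exact hmono' N ⊤ ⊤ le_top hy'),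
          q1 v hv _ (by rw [hNp]; exact hy'), add_zero]
      · intro h
        obtain ⟨x', hx', hxx⟩ := i1 x hx (fun y hy => by
          have := h (cj R c y) (hcjZ' y hy)
          change CT Γ X T x (cj R c (cj R c y)) = 0 at this
          rwa [cj_cj hcc] at this)
        exact Submodule.mem_sup.2 ⟨x', hx', x - x', hxx, by abel⟩)
  obtain ⟨b, hb'⟩ := relIndex_pow R (X.Br T N ⊤) B hfin'
  -- the Euler characteristic
  have hN0 : (⊥ : Submodule R M).toAddSubgroup.relIndex N.toAddSubgroup ≠ 0 := by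
    have : Finite (N.toAddSubgroup) := inferInstanceAs (Finite ↥N)
    exact AddSubgroup.index_ne_zero_of_finite
  have key : ∀ a b d e : ℕ, e = 1 → a * b ^ e = d * b → a * b = d * b := by
    intro a b d e he h
    rwa [he, pow_one] at h
  have k3 := key _ _ _ _ (hsum _) k1
  have k2 := Nat.eq_of_mul_eq_mul_right (Nat.pos_of_ne_zero hN0) k3
  rw [relIndex_cj X hc hρ hr hT N ⊤ hcc] at k2
  refine ⟨b + a, ?_⟩
  rw [x5, k2, ← hmul, hb', ha]
  ring

end BKMet
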