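import Pool.Agent.Lib.MP_7c08ba_nt.Met.StX

set_option autoImplicit false

/-!
Metabolic parity, module SWAP: the pairing of Cassels and Tate is symmetric.
-/

noncomputable section

namespace BKMet

open BKPar (Loc1 Loc2)
open BKND (Sm)

namespace XSWAP

section Loc

variable {G : Type*} [Group G] [TopologicalSpace G]

theorem loc2_fst {X : Type*} {f : G → X} (hf : Loc1 f) : Loc2 fun g (_ : G) => f g := by
  obtain ⟨W, hW, h⟩ := hf
  exact ⟨W, hW, fun g _ w hw _ _ => h g w hw⟩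

theorem loc2_snd {X : Type*} {f : G → X} (hf : Loc1 f) : Loc2 fun (_ : G) h => f h := by
  obtain ⟨W, hW, h⟩ := hf
  exact ⟨W, hW, fun _ g' _ _ w' hw' => h g' w' hw'⟩

theorem loc1_act {M : Type*} [AddCommGroup M] {ρ : G →* AddMonoid.End M} (hs : Sm ρ) :
    Loc1 fun g => ρ g := by
  obtain ⟨W, hW, h⟩ := hs
  refine ⟨W, hW, fun g w hw => ?_⟩
  change ρ (g * w) = ρ g
  rw [map_mul, h w hw, mul_one]

theorem exists_normal [IsTopologicalGroup G] [CompactSpace G] (W : Subgroup G)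
    (hW : IsOpen (W : Set G)) : ∃ V : Subgroup G, V.Normal ∧ IsOpen (V : Set G) ∧ V ≤ W := by
  have hfin : Finite (G ⧸ W) := Subgroup.quotient_finite_of_isOpen _ hW
  have hfi : W.FiniteIndex := Subgroup.finiteIndex_of_finite_quotient
  have hcl : IsClosed (W.normalCore : Set G) :=
    W.normalCore_isClosed (Subgroup.isClosed_of_isOpen W hW)
  have hfi' : W.normalCore.FiniteIndex := Subgroup.finiteIndex_normalCore W
  exact ⟨W.normalCore, inferInstance, Subgroup.isOpen_of_isClosed_of_finiteIndex _ hcl,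
    W.normalCore_le⟩

theorem loc2_mul [IsTopologicalGroup G] [CompactSpace G] {X : Type*} {f : G → X} (hf : Loc1 f) :
    Loc2 fun g h => f (g * h) := by
  obtain ⟨W, hW, h⟩ := hf
  obtain ⟨V, hV, hV', hVW⟩ := exists_normal W hW
  refine ⟨V, hV', fun a b w hw w' hw' => ?_⟩
  have e : a * w * (b * w') = a * b * (b⁻¹ * w * b * w') := by group
  have e1 : b⁻¹ * w * b ∈ V := by
    have := hV.conj_mem w hw b⁻¹
    rwa [inv_inv] at this
  change f (a * w * (b * w')) = f (a * b)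
  rw [e]
  exact h _ _ (hVW (V.mul_mem e1 hw'))

theorem loc2_pb2 {D X : Type*} [Group D] [TopologicalSpace D] {f : D →* G} (hf : Continuous f)
    {z : G → G → X} (hz : Loc2 z) : Loc2 (pb2 f z) := by
  obtain ⟨W, hW, h⟩ := hz
  refine ⟨W.comap f, hW.preimage hf, fun a b w hw w' hw' => ?_⟩
  change z (f (a * w)) (f (b * w')) = z (f a) (f b)
  rw [map_mul, map_mul]
  exact h _ _ _ hw _ hw'

theorem loc1_pb1 {D X : Type*} [Group D] [TopologicalSpace D] {f : D →* G} (hf : Continuous f)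
    {z : G → X} (hz : Loc1 z) : Loc1 (pb1 f z) := by
  obtain ⟨W, hW, h⟩ := hz
  refine ⟨W.comap f, hW.preimage hf, fun a w hw => ?_⟩
  change z (f (a * w)) = z (f a)
  rw [map_mul]
  exact h _ _ hw

end Loc

section Act

variable {G : Type*} [Group G]

theorem act_mul {M : Type*} [AddCommGroup M] (ρ : G →* AddMonoid.End M) (g h : G) (m : M) :
    ρ (g * h) m = ρ g (ρ h m) := by
  rw [map_mul]
  rfl

theorem act_one {M : Type*} [AddCommGroup M] (ρ : G →* AddMonoid.End M) (m : M) :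
    ρ 1 m = m := by
  rw [map_one]
  rfl

theorem d2_d1 {M : Type*} [AddCommGroup M] (ρ : G →* AddMonoid.End M) (z : G → M) (g h k : G) :
    ρ g (d1 ρ z h k) - d1 ρ z (g * h) k + d1 ρ z g (h * k) - d1 ρ z g h = 0 := by
  simp only [d1, map_add, map_sub, act_mul, mul_assoc]
  abel

end Act

section Alg

variable {R : Type} [CommRing R] {G : Type} [Group G] [TopologicalSpace G] {A : Type}
  [AddCommGroup A] {α : G →* AddMonoid.End A} {M M' : Type} [AddCommGroup M] [Module R M]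
  [AddCommGroup M'] [Module R M'] (X : Pair R α M M')

/-- the homotopy -/
def eps (z : G → M) (e : G → M') : G → G → A :=
  fun g h => X.b (z g) (X.ρ' g (e h)) - X.b (z (g * h)) (d1 X.ρ' e g h)

theorem d2_eps (N : Submodule R M) (hN : X.Stable N) (z : G → M) (e : G → M')
    (hz : ∀ g h, d1 X.ρ z g h ∈ N) (he : ∀ g h, d1 X.ρ' e g h ∈ X.perp N) :
    cup21 X.b X.ρ' (d1 X.ρ z) e - cup21 X.b.flip X.ρ (d1 X.ρ' e) z = d2 α (eps X z e) := by
  funext g h k
  have hst : ∀ g, ∀ m' ∈ X.perp N, X.ρ' g m' ∈ X.perp N := by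
    intro g m' hm' n hn
    have e1 := X.eqv g (X.ρ g⁻¹ n) m'
    rw [← act_mul, mul_inv_cancel, act_one, hm' _ (hN _ _ hn), map_zero] at e1
    exact e1
  have c1 := d2_d1 X.ρ' e g h k
  have v1 : X.b (d1 X.ρ z g (h * k)) (X.ρ' g (d1 X.ρ' e h k)) = 0 :=
    hst _ _ (he _ _) _ (hz _ _)
  have v2 : X.b (d1 X.ρ z (g * h) k) (d1 X.ρ' e g h) = 0 := he _ _ _ (hz _ _)
  have c2 : X.ρ g (z (h * k)) = d1 X.ρ z g (h * k) + z (g * h * k) - z g := by
    simp only [d1, mul_assoc]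
    abel
  have c3 : X.ρ (g * h) (z k) = d1 X.ρ z (g * h) k + z (g * h * k) - z (g * h) := by
    simp only [d1]
    abel
  have c4 : X.ρ g (z h) = d1 X.ρ z g h + z (g * h) - z g := by
    simp only [d1]
    abel
  have c5 : X.ρ' g (d1 X.ρ' e h k) = d1 X.ρ' e (g * h) k - d1 X.ρ' e g (h * k) +
      d1 X.ρ' e g h := by
    rw [← sub_eq_zero, ← c1]
    abel
  have c6 : X.ρ' (g * h) (e k) = X.ρ' g (d1 X.ρ' e h k) + X.ρ' g (e (h * k)) - X.ρ' g (e h) := by
    simp only [d1, map_add, map_sub, act_mul]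
    abel
  have c7 : X.ρ' g (X.ρ' h (e k)) = X.ρ' (g * h) (e k) := by
    rw [act_mul]
  simp only [Pi.sub_apply, cup21, d2, eps, AddMonoidHom.flip_apply]
  rw [map_sub, ← X.eqv, ← X.eqv, c7, c2, c3, c4, ← mul_assoc]
  simp only [map_add, map_sub, AddMonoidHom.add_apply, AddMonoidHom.sub_apply, v1, v2]
  rw [c6]
  simp only [map_add, map_sub, c5]
  abel

theorem loc2_eps [IsTopologicalGroup G] [CompactSpace G] (z : G → M) (e : G → M')
    (hz : Loc1 z) (he : Loc1 e) : Loc2 (eps X z e) := by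
  have h1 : Loc2 fun g h => X.ρ' g (e h) :=
    BKND.Loc2.map2 (loc2_fst (loc1_act X.sm')) (loc2_snd he) (fun a b => a b)
  have h2 : Loc2 fun g h => X.b (z g) (X.ρ' g (e h)) :=
    BKND.Loc2.map2 (loc2_fst hz) h1 (fun a b => X.b a b)
  have h3 : Loc2 (d1 X.ρ' e) :=
    BKND.Loc2.map2 (BKND.Loc2.map2 h1 (loc2_mul he) (· - ·)) (loc2_fst he) (· + ·)
  exact BKND.Loc2.map2 h2 (BKND.Loc2.map2 (loc2_mul hz) h3 (fun a b => X.b a b)) (· - ·)

/-- the local computation at the places in `T` -/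
theorem loc_in (N : Submodule R M) (z : G → M) (e : G → M') (m : M) (g h : G)
    (he : d1 X.ρ' e g h ∈ X.perp N) (hz : z (g * h) - d0 X.ρ m (g * h) ∈ N) :
    X.b (z g - d0 X.ρ m g) (X.ρ' g (e h)) - X.b (X.ρ (g * h) m) (d1 X.ρ' e g h) -
      eps X z e g h = -(α g (X.b m (e h)) - X.b m (e (g * h)) + X.b m (e g)) := by
  have v1 : X.b (z (g * h)) (d1 X.ρ' e g h) =
      X.b (X.ρ (g * h) m) (d1 X.ρ' e g h) - X.b m (d1 X.ρ' e g h) := by
    have := he _ hz
    rw [map_sub, AddMonoidHom.sub_apply, sub_eq_zero] at this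
    rw [this, d0, map_sub, AddMonoidHom.sub_apply]
  rw [eps, v1, ← X.eqv]
  simp only [d0, d1, map_add, map_sub, AddMonoidHom.sub_apply]
  abel

/-- the local computation at the other places -/
theorem loc_out (N : Submodule R M) (z : G → M) (e : G → M') (f : M') (g h : G)
    (hst : ∀ g, ∀ m' ∈ X.perp N, X.ρ' g m' ∈ X.perp N)
    (hz : d1 X.ρ z g h ∈ N) (he : e g - d0 X.ρ' f g ∈ X.perp N)
    (he' : e h - d0 X.ρ' f h ∈ X.perp N) :
    X.b (d1 X.ρ z g h) (X.ρ' (g * h) f) - X.b (X.ρ g (z h)) (e g - d0 X.ρ' f g) -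
      eps X z e g h = α g (X.b (z h) (e h + f)) - X.b (z (g * h)) (e (g * h) + f) +
        X.b (z g) (e g + f) := by
  have v1 : X.b (d1 X.ρ z g h) (e g - d0 X.ρ' f g) = 0 := he _ hz
  have v2 : X.b (d1 X.ρ z g h) (X.ρ' g (e h - d0 X.ρ' f h)) = 0 := hst _ _ he' _ hz
  rw [eps, ← X.eqv]
  simp only [d0, d1, map_add, map_sub, AddMonoidHom.sub_apply, AddMonoidHom.add_apply,
    act_mul] at v1 v2 ⊢
  linear_combination (norm := abel) -v1 - v2

end Alg

theorem b2_le_z2 {D : Type*} [Group D] [TopologicalSpace D] {A : Type*} [AddCommGroup A]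
    (α : D →* AddMonoid.End A) (z : D → D → A) (hz : Loc2 z) (hz' : z ∈ BKND.B2 α) :
    z ∈ BKND.Z2 α := by
  obtain ⟨β, -, hβ⟩ := hz'
  refine ⟨hz, fun g h k => ?_⟩
  simp only [hβ, map_add, map_sub, act_mul, mul_assoc]
  abel

end XSWAP

open XSWAP in
theorem stSwap : StSwap := by
  classical
  intro R _ S _ G _ _ _ _ D _ _ A E _ _ Γ M M' _ _ _ _ X T N hN x hx y hy
  obtain ⟨z, m⟩ := x
  obtain ⟨e, f⟩ := y
  obtain ⟨hz, -, hz1, hz2, hz3⟩ := hx
  obtain ⟨he, -, he1, he2, he3⟩ := hy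
  change ∀ g h, d1 X.ρ' e g h ∈ X.perp N at he1
  change ∀ w ∈ Tᶜ, f w ∈ (⊤ : Submodule R M') ∧
    ∀ d, e (Γ.r w d) - d0 X.ρ' (f w) (Γ.r w d) ∈ X.perp N at he2
  change ∀ w ∉ Tᶜ, f w = 0 at he3
  change Loc1 z at hz
  change Loc1 e at he
  change ∀ g h, d1 X.ρ z g h ∈ N at hz1
  change ∀ w ∈ T, m w ∈ (⊤ : Submodule R M) ∧
    ∀ d, z (Γ.r w d) - d0 X.ρ (m w) (Γ.r w d) ∈ N at hz2
  change ∀ w ∉ T, m w = 0 at hz3
  have hst : ∀ g, ∀ m' ∈ X.perp N, X.ρ' g m' ∈ X.perp N := by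
    intro g m' hm' n hn
    have e1 := X.eqv g (X.ρ g⁻¹ n) m'
    rw [← act_mul, mul_inv_cancel, act_one, hm' _ (hN _ _ hn), map_zero] at e1
    exact e1
  have hε := loc2_eps X z e hz he
  have hact : Loc2 fun g h => X.ρ' g (e h) :=
    BKND.Loc2.map2 (loc2_fst (loc1_act X.sm')) (loc2_snd he) (fun a b => a b)
  have hactz : Loc2 fun g h => X.ρ g (z h) :=
    BKND.Loc2.map2 (loc2_fst (loc1_act X.sm)) (loc2_snd hz) (fun a b => a b)
  have hd1e : Loc2 (d1 X.ρ' e) :=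
    BKND.Loc2.map2 (BKND.Loc2.map2 hact (loc2_mul he) (· - ·)) (loc2_fst he) (· + ·)
  have hd1z : Loc2 (d1 X.ρ z) :=
    BKND.Loc2.map2 (BKND.Loc2.map2 hactz (loc2_mul hz) (· - ·)) (loc2_fst hz) (· + ·)
  set β : ∀ w, D w → D w → A := (Xi Γ X T (z, m) (e, f)).2 - (Xi Γ X.flip Tᶜ (e, f) (z, m)).2
    with hβ
  have key : ∀ w, β w - pb2 (Γ.r w) (eps X z e) ∈ BKND.Z2 (Γ.α.comp (Γ.r w)) ∧
      β w - pb2 (Γ.r w) (eps X z e) ∈ BKND.B2 (Γ.α.comp (Γ.r w)) := by
    intro w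
    by_cases hw : w ∈ T
    · have hβw : β w = pb2 (Γ.r w) fun g h => X.b (z g - d0 X.ρ (m w) g) (X.ρ' g (e h)) -
          X.b (X.ρ (g * h) (m w)) (d1 X.ρ' e g h) := by
        funext d d'
        have hw' : w ∉ Tᶜ := fun h => h hw
        simp only [hβ, Pi.sub_apply, Xi, if_pos hw, if_neg hw', cup11, cup20, pb1, pb2,
          MonoidHom.comp_apply, map_mul]
        rfl
      have hB : β w - pb2 (Γ.r w) (eps X z e) ∈ BKND.B2 (Γ.α.comp (Γ.r w)) := by
        refine ⟨fun d => -X.b (m w) (e (Γ.r w d)),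
          BKND.Loc1.map (loc1_pb1 (Γ.cont w) he) (fun a => -X.b (m w) a), fun d d' => ?_⟩
        have e1 := loc_in X N z e (m w) (Γ.r w d) (Γ.r w d') (he1 _ _) (by
          have := (hz2 w hw).2 (d * d')
          rwa [map_mul] at this)
        simp only [Pi.sub_apply, hβw, pb2, MonoidHom.comp_apply, (Γ.r w).map_mul, map_neg]
        rw [e1]
        abel
      refine ⟨b2_le_z2 _ _ ?_ hB, hB⟩
      rw [hβw]
      refine BKND.Loc2.map2 (loc2_pb2 (Γ.cont w) (BKND.Loc2.map2 (BKND.Loc2.map2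
        (BKND.Loc2.map (loc2_fst (BKND.Loc1.map2 hz (BKND.Loc1.map (loc1_act X.sm)
          (fun a => a (m w) - m w)) (· - ·))) (fun a => a)) hact (fun a b => X.b a b))
        (BKND.Loc2.map2 (loc2_mul (BKND.Loc1.map (loc1_act X.sm) (fun a => a (m w)))) hd1e
          (fun a b => X.b a b)) (· - ·))) (loc2_pb2 (Γ.cont w) hε) (· - ·)
    · have hβw : β w = pb2 (Γ.r w) fun g h => X.b (d1 X.ρ z g h) (X.ρ' (g * h) (f w)) -
          X.b (X.ρ g (z h)) (e g - d0 X.ρ' (f w) g) := by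
        funext d d'
        have hw' : w ∈ Tᶜ := hw
        simp only [hβ, Pi.sub_apply, Xi, if_neg hw, if_pos hw', cup11, cup20, pb1, pb2,
          MonoidHom.comp_apply, map_mul]
        rfl
      have hB : β w - pb2 (Γ.r w) (eps X z e) ∈ BKND.B2 (Γ.α.comp (Γ.r w)) := by
        refine ⟨fun d => X.b (z (Γ.r w d)) (e (Γ.r w d) + f w),
          BKND.Loc1.map2 (loc1_pb1 (Γ.cont w) hz) (loc1_pb1 (Γ.cont w) he)
            (fun a b => X.b a (b + f w)), fun d d' => ?_⟩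
        have e1 := loc_out X N z e (f w) (Γ.r w d) (Γ.r w d') hst (hz1 _ _)
          ((he2 w hw).2 d) ((he2 w hw).2 d')
        simp only [Pi.sub_apply, hβw, pb2, MonoidHom.comp_apply, (Γ.r w).map_mul]
        rw [e1]
      refine ⟨b2_le_z2 _ _ ?_ hB, hB⟩
      rw [hβw]
      refine BKND.Loc2.map2 (loc2_pb2 (Γ.cont w) (BKND.Loc2.map2 (BKND.Loc2.map2
        hd1z (loc2_mul (BKND.Loc1.map (loc1_act X.sm') (fun a => a (f w))))
          (fun a b => X.b a b))
        (BKND.Loc2.map2 hactz (loc2_fst (BKND.Loc1.map2 he (BKND.Loc1.map (loc1_act X.sm')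
          (fun a => a (f w) - f w)) (· - ·))) (fun a b => X.b a b)) (· - ·)))
          (loc2_pb2 (Γ.cont w) hε) (· - ·)
  have e1 : Xi Γ X T (z, m) (e, f) - Xi Γ X.flip Tᶜ (e, f) (z, m) =
      (d2 Γ.α (eps X z e), β) := by
    refine Prod.ext ?_ rfl
    exact d2_eps X N hN z e hz1 he1
  have e2 := Γ.tr_eq (eps X z e) hε β (fun w => (key w).1)
  rw [← e1, map_sub, Finset.sum_eq_zero
    (fun w _ => (Γ.inv_eq w _ (key w).1).2 (key w).2), sub_eq_zero] at e2
  exact e2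

end BKMet
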