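import Pool.Agent.Lib.MP_7c08ba_nt.Met.StX

set_option autoImplicit false

/-!
Parity project, module TR: the trace on compactly supported three-cocycles, antisymmetric under
conjugation.
-/

noncomputable section

namespace BKMet

open BKPar (Loc1 Loc2)
open BKND (Sm)

namespace XTR

section

variable {p : ℕ} [Fact p.Prime] {ι : Type} [Fintype ι] {G : Type} [Group G] [TopologicalSpace G]
  {D : ι → Type} [∀ i, Group (D i)] [∀ i, TopologicalSpace (D i)] (r : ∀ i, D i →* G)
  (c : G →* G) {A : Type} [AddCommGroup A] (α : G →* AddMonoid.End A)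
  (inv : ∀ i, (D i → D i → A) →+ QZ p)

/-- the local invariants, with the opposite sign at the conjugate places -/
def jj (w : ι × Bool) : (DD D w → DD D w → A) →+ QZ p :=
  if w.2 then -inv w.1 else inv w.1

omit [Fintype ι] [∀ i, Group (D i)] [∀ i, TopologicalSpace (D i)] in
theorem jj_false (i : ι) : jj inv (i, false) = inv i := if_neg (by simp)

omit [Fintype ι] [∀ i, Group (D i)] [∀ i, TopologicalSpace (D i)] in
theorem jj_true (i : ι) : jj inv (i, true) = -inv i := if_pos rfl

omit [Fintype ι] [∀ i, Group (D i)] [∀ i, TopologicalSpace (D i)] in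
theorem ii_false (i : ι) : ii inv (i, false) = 2 • inv i := if_neg (by simp)

omit [Fintype ι] [∀ i, Group (D i)] [∀ i, TopologicalSpace (D i)] in
theorem ii_true (i : ι) : ii inv (i, true) = -(2 • inv i) := if_pos rfl

omit [Fintype ι] [TopologicalSpace G] [∀ i, TopologicalSpace (D i)] in
theorem rr_false (i : ι) : rr r c (i, false) = r i := if_neg (by simp)

omit [Fintype ι] [TopologicalSpace G] [∀ i, TopologicalSpace (D i)] in
theorem rr_true (i : ι) : rr r c (i, true) = c.comp (r i) := if_pos rfl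

/-- the sum of the invariants -/
def F (ε : G → G → A) (β : ∀ w : ι × Bool, DD D w → DD D w → A) : QZ p :=
  ∑ w, jj inv w (β w - pb2 (rr r c w) ε)

omit [TopologicalSpace G] [∀ i, TopologicalSpace (D i)] in
theorem F_eq (ε : G → G → A) (β : ∀ w : ι × Bool, DD D w → DD D w → A) :
    F r c inv ε β = ∑ i, (inv i (β (i, false) - pb2 (r i) ε) -
      inv i (β (i, true) - pb2 (c.comp (r i)) ε)) := by
  unfold F
  rw [Fintype.sum_prod_type]
  refine Finset.sum_congr rfl fun i _ => ?_
  rw [Fintype.sum_bool, jj_true, jj_false, rr_true, rr_false, AddMonoidHom.neg_apply]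
  abel

omit [TopologicalSpace G] [∀ i, TopologicalSpace (D i)] in
theorem F_add (ε ε' : G → G → A) (β β' : ∀ w : ι × Bool, DD D w → DD D w → A) :
    F r c inv (ε + ε') (β + β') = F r c inv ε β + F r c inv ε' β' := by
  unfold F
  rw [← Finset.sum_add_distrib]
  refine Finset.sum_congr rfl fun w _ => ?_
  rw [← map_add]
  congr 1
  funext d d'
  simp only [Pi.add_apply, Pi.sub_apply, pb2]
  abel

variable {α} in
omit [TopologicalSpace G] in
theorem d2_add (ε ε' : G → G → A) : d2 α (ε + ε') = d2 α ε + d2 α ε' := by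
  funext g h k
  simp only [d2, Pi.add_apply, map_add]
  abel

variable {α} in
omit [TopologicalSpace G] in
theorem d2_neg (ε : G → G → A) : d2 α (-ε) = -d2 α ε := by
  funext g h k
  simp only [d2, Pi.neg_apply, map_neg]
  abel

variable {α} in
omit [TopologicalSpace G] in
theorem d2_zero : d2 α (0 : G → G → A) = 0 := by
  funext g h k
  simp [d2]

omit [∀ i, TopologicalSpace (D i)] in
theorem F_wd (hrec : ∀ z ∈ BKND.Z2 α,
      ∑ i, (inv i (pb2 (r i) z) - inv i (pb2 (c.comp (r i)) z)) = 0)
    {ε ε' : G → G → A} (hε : Loc2 ε) (hε' : Loc2 ε') (h : d2 α ε = d2 α ε')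
    (β : ∀ w : ι × Bool, DD D w → DD D w → A) : F r c inv ε β = F r c inv ε' β := by
  have hz : ε - ε' ∈ BKND.Z2 α := by
    refine ⟨BKND.Loc2.map2 hε hε' (· - ·), fun g h' k => ?_⟩
    have e := congrFun (congrFun (congrFun h g) h') k
    simp only [d2] at e
    simp only [Pi.sub_apply, map_sub]
    rw [← sub_eq_zero] at e
    rw [← e]
    abel
  have h0 := hrec _ hz
  have h1 : F r c inv (ε - ε') 0 = 0 := by
    rw [F_eq]
    rw [← neg_eq_zero, ← Finset.sum_neg_distrib, ← h0]
    refine Finset.sum_congr rfl fun i _ => ?_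
    simp only [Pi.zero_apply, zero_sub, map_neg]
    abel
  have h2 := F_add r c inv (ε - ε') ε' 0 β
  rw [sub_add_cancel, zero_add, h1, zero_add] at h2
  exact h2

/-- the elements on which the trace is prescribed -/
def Y : AddSubgroup ((G → G → G → A) × (∀ w : ι × Bool, DD D w → DD D w → A)) where
  carrier := {v | ∃ ε : G → G → A, Loc2 ε ∧ v.1 = d2 α ε ∧
    ∀ w, v.2 w - pb2 (rr r c w) ε ∈ BKND.Z2 (α.comp (rr r c w))}
  add_mem' := by
    rintro v v' ⟨ε, h1, h2, h3⟩ ⟨ε', h1', h2', h3'⟩
    refine ⟨ε + ε', BKND.Loc2.map2 h1 h1' (· + ·), ?_, fun w => ?_⟩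
    · rw [Prod.fst_add, h2, h2', d2_add]
    · have e := (BKND.Z2 (α.comp (rr r c w))).add_mem (h3 w) (h3' w)
      have e' : (v + v').2 w - pb2 (rr r c w) (ε + ε') =
          v.2 w - pb2 (rr r c w) ε + (v'.2 w - pb2 (rr r c w) ε') := by
        funext d d'
        simp only [Prod.snd_add, Pi.add_apply, Pi.sub_apply, pb2]
        abel
      rw [e']
      exact e
  zero_mem' := by
    refine ⟨0, BKND.Loc2.const 0, ?_, fun w => ?_⟩
    · rw [d2_zero]
      rfl
    · have e' : (0 : (G → G → G → A) × (∀ w : ι × Bool, DD D w → DD D w → A)).2 w -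
          pb2 (rr r c w) (0 : G → G → A) = 0 := by
        funext d d'
        simp [pb2]
      rw [e']
      exact (BKND.Z2 (α.comp (rr r c w))).zero_mem
  neg_mem' := by
    rintro v ⟨ε, h1, h2, h3⟩
    refine ⟨-ε, BKND.Loc2.map h1 (fun x => -x), ?_, fun w => ?_⟩
    · rw [Prod.fst_neg, h2, d2_neg]
    · have e := (BKND.Z2 (α.comp (rr r c w))).neg_mem (h3 w)
      have e' : (-v).2 w - pb2 (rr r c w) (-ε) = -(v.2 w - pb2 (rr r c w) ε) := by
        funext d d'
        simp only [Prod.snd_neg, Pi.neg_apply, Pi.sub_apply, pb2]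
        abel
      rw [e']
      exact e

/-- the prescribed values of the trace -/
def f (hrec : ∀ z ∈ BKND.Z2 α,
      ∑ i, (inv i (pb2 (r i) z) - inv i (pb2 (c.comp (r i)) z)) = 0) :
    Y r c α →+ QZ p :=
  AddMonoidHom.mk' (fun v => F r c inv v.2.choose v.1.2) (by
    intro v v'
    have h := (v + v').2.choose_spec
    have h1 := v.2.choose_spec
    have h2 := v'.2.choose_spec
    rw [← F_add]
    refine F_wd r c α inv hrec h.1 (BKND.Loc2.map2 h1.1 h2.1 (· + ·)) ?_ _
    rw [← h.2.1]
    change _ = d2 α (v.2.choose + v'.2.choose)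
    rw [d2_add, ← h1.2.1, ← h2.2.1]
    rfl)

theorem f_eq (hrec : ∀ z ∈ BKND.Z2 α,
      ∑ i, (inv i (pb2 (r i) z) - inv i (pb2 (c.comp (r i)) z)) = 0)
    (v : Y r c α) {ε : G → G → A} (hε : Loc2 ε) (h : v.1.1 = d2 α ε) :
    f r c α inv hrec v = F r c inv ε v.1.2 := by
  have h1 := v.2.choose_spec
  exact F_wd r c α inv hrec h1.1 hε (by rw [← h1.2.1, h]) _

/-- the conjugation -/
def Θ : ((G → G → G → A) × (∀ w : ι × Bool, DD D w → DD D w → A)) →+
    ((G → G → G → A) × (∀ w : ι × Bool, DD D w → DD D w → A)) where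
  toFun v := (cc3 c v.1, swp (Y := fun i => D i → D i → A) v.2)
  map_zero' := rfl
  map_add' _ _ := rfl

end

end XTR

open XTR in
/-- Module TR: the trace, antisymmetric under conjugation. -/
theorem stTr (h : StExt) : StTr := by
  intro p _ ι _ G _ _ D _ _ r hr c hc hcc A _ α hcα inv hinv hrec
  obtain ⟨tr0, h0⟩ := h p _ (Y r c α) (f r c α inv hrec)
  have hΘΘ : ∀ v, Θ (D := D) (A := A) c (Θ c v) = v := by
    rintro ⟨a, β⟩
    refine Prod.ext ?_ ?_
    · funext g h k
      change a (c (c g)) (c (c h)) (c (c k)) = a g h k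
      rw [hcc, hcc, hcc]
    · funext w
      obtain ⟨i, b⟩ := w
      cases b <;> rfl
  -- the values of `tr0`
  have key : ∀ ε : G → G → A, Loc2 ε → ∀ β : ∀ w : ι × Bool, DD D w → DD D w → A,
      (∀ w, β w - pb2 (rr r c w) ε ∈ BKND.Z2 (α.comp (rr r c w))) →
      tr0 (d2 α ε, β) = F r c inv ε β := by
    intro ε hε β hβ
    have hm : (d2 α ε, β) ∈ Y r c α := ⟨ε, hε, rfl, hβ⟩
    rw [h0 ⟨_, hm⟩, f_eq r c α inv hrec ⟨_, hm⟩ hε rfl]
  refine ⟨tr0 - tr0.comp (Θ c), fun ε hε β hβ => ?_, fun a β => ?_⟩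
  · set ε' : G → G → A := fun g h => ε (c g) (c h) with hε'
    have l1 : Loc2 ε' := by
      obtain ⟨W, hW, hW'⟩ := hε
      refine ⟨W.comap c, hW.preimage hc, fun g h w hw w' hw' => ?_⟩
      simp only [hε', map_mul]
      exact hW' _ _ _ hw _ hw'
    have l2 : cc3 c (d2 α ε) = d2 α ε' := by
      funext g h k
      simp only [cc3, d2, hε', map_mul, hcα]
    have l3 : ∀ w : ι × Bool, pb2 (rr r c w) ε' =
        (pb2 (rr r c (w.1, !w.2)) ε : DD D w → DD D w → A) := by
      rintro ⟨i, b⟩
      funext d d'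
      cases b
      · change ε (c (rr r c (i, false) d)) (c (rr r c (i, false) d')) =
          ε (rr r c (i, true) d) (rr r c (i, true) d')
        rw [rr_true, rr_false]
        rfl
      · change ε (c (rr r c (i, true) d)) (c (rr r c (i, true) d')) =
          ε (rr r c (i, false) d) (rr r c (i, false) d')
        rw [rr_true, rr_false]
        change ε (c (c (r i d))) (c (c (r i d'))) = _
        rw [hcc, hcc]
    have l4 : ∀ w : ι × Bool, α.comp (rr r c w) =
        (α.comp (rr r c (w.1, !w.2)) : DD D w →* AddMonoid.End A) := by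
      rintro ⟨i, b⟩
      ext1 d
      cases b
      · change α (rr r c (i, false) d) = α (rr r c (i, true) d)
        rw [rr_true, rr_false]
        exact (hcα _).symm
      · change α (rr r c (i, true) d) = α (rr r c (i, false) d)
        rw [rr_true, rr_false]
        exact hcα _
    have l5 : ∀ w : ι × Bool, swp (Y := fun i => D i → D i → A) β w - pb2 (rr r c w) ε' ∈
        BKND.Z2 (α.comp (rr r c w)) := by
      intro w
      rw [l3 w, l4 w]
      exact hβ (w.1, !w.2)
    have k1 := key ε hε β hβ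
    have k2 : tr0 (Θ c (d2 α ε, β)) = F r c inv ε' (swp (Y := fun i => D i → D i → A) β) := by
      change tr0 (cc3 c (d2 α ε), swp (Y := fun i => D i → D i → A) β) = _
      rw [l2]
      exact key ε' l1 _ l5
    rw [AddMonoidHom.sub_apply, AddMonoidHom.comp_apply, k1, k2, F_eq, F_eq,
      Fintype.sum_prod_type, ← Finset.sum_sub_distrib]
    refine Finset.sum_congr rfl fun i _ => ?_
    have e1 : pb2 (r i) ε' = pb2 (c.comp (r i)) ε := rfl
    have e2 : pb2 (c.comp (r i)) ε' = pb2 (r i) ε := by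
      funext d d'
      simp only [pb2, hε', MonoidHom.comp_apply, hcc]
    have e3 : swp (Y := fun i => D i → D i → A) β (i, false) = β (i, true) := rfl
    have e4 : swp (Y := fun i => D i → D i → A) β (i, true) = β (i, false) := rfl
    rw [Fintype.sum_bool, ii_true, ii_false, rr_true, rr_false, e1, e2, e3, e4,
      AddMonoidHom.neg_apply, AddMonoidHom.nsmul_apply, AddMonoidHom.nsmul_apply, two_nsmul,
      two_nsmul]
    abel
  · have e := hΘΘ (a, β)
    change (tr0 - tr0.comp (Θ c)) (Θ c (a, β)) = _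
    rw [AddMonoidHom.sub_apply, AddMonoidHom.sub_apply, AddMonoidHom.comp_apply,
      AddMonoidHom.comp_apply, e]
    abel

end BKMet
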