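import Pool.Agent.Lib.MP_7c08ba_nt.Met.XEXT
import Pool.Agent.Lib.MP_7c08ba_nt.Met.XHOMS
import Pool.Agent.Lib.MP_7c08ba_nt.Met.XPERF
import Pool.Agent.Lib.MP_7c08ba_nt.Met.XDUAL
import Pool.Agent.Lib.MP_7c08ba_nt.Met.XPERP
import Pool.Agent.Lib.MP_7c08ba_nt.Met.XTR
import Pool.Agent.Lib.MP_7c08ba_nt.Met.XCT
import Pool.Agent.Lib.MP_7c08ba_nt.Met.XSWAP
import Pool.Agent.Lib.MP_7c08ba_nt.Met.XEXACT
import Pool.Agent.Lib.MP_7c08ba_nt.Met.XLINES
import Pool.Agent.Lib.MP_7c08ba_nt.Met.XANN
import Pool.Agent.Lib.MP_7c08ba_nt.Met.XLINEA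
import Pool.Agent.Lib.MP_7c08ba_nt.Met.XLINEB
import Pool.Agent.Lib.MP_7c08ba_nt.Met.XIND
import Pool.Agent.Lib.MP_7c08ba_nt.Met.XALT
import Pool.Agent.Lib.MP_7c08ba_nt.Met.XSD

set_option autoImplicit false

/-!
Metabolic parity, part X: all modules.
-/

namespace BKMet.All

open BKMet

theorem ext : StExt := stExt
theorem homs : StHoms := stHoms ext
theorem perf : StPerf := stPerf homs
theorem dual : StDual := stDual ext homs
theorem perp : StPerp := stPerp homs
theorem tr : StTr := stTr ext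
theorem ct : StCT := stCT
theorem swap : StSwap := stSwap
theorem exact' : StExact := stExact
theorem lines : StLines := stLines homs perp
theorem ann : StAnn := stAnn dual
theorem lineA : StLineA := stLineA ann ct
theorem lineB : StLineB := stLineB ann
theorem ind : StInd := stInd ct swap perp exact' dual lineA lineB
theorem alt : StAlt := stAlt dual
theorem sd : StSD := stSD ind swap alt exact' perp ct

end BKMet.All
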