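import Pool.Agent.Lib.MP_7c08ba_nt.Met.StF
import Pool.Agent.Lib.MP_7c08ba_nt.Met.XAll

set_option autoImplicit false

/-!
Metabolic parity, module GAM: the global situation of part X. (The local groups are not assumed to
be compact, so the invariants are first changed outside the cocycles such that they vanish on all
coboundaries.)
-/

noncomputable section

namespace BKMet

open BKPar (Loc1 Loc2)
open BKND (Sm)

namespace FGAM

variable {p : ℕ} [Fact p.Prime]

/-- the action on `ℚ_p/ℤ_p` is smooth -/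
theorem psm {G : Type} [Group G] [TopologicalSpace G] (χ : G →* ℤ_[p]ˣ) (hχ : Continuous χ) :
    PSm (actA χ) := by
  intro a
  obtain ⟨k, hk⟩ := XPERF.qz_pow a
  have hk' : ((p : ℤ_[p]) ^ k) • a = 0 := by
    have : ((p ^ k : ℕ) : ℤ_[p]) • a = 0 := by
      rw [Nat.cast_smul_eq_nsmul]
      exact hk
    rwa [Nat.cast_pow] at this
  let I : Ideal ℤ_[p] := Ideal.span {(p : ℤ_[p]) ^ k}
  let W : Subgroup G := (Units.map (Ideal.Quotient.mk I).toMonoidHom).ker.comap χ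
  have hW : ∀ g, g ∈ W ↔ ((χ g : ℤ_[p]ˣ) : ℤ_[p]) - 1 ∈ I := by
    intro g
    change Units.map (Ideal.Quotient.mk I).toMonoidHom (χ g) = 1 ↔ _
    rw [← Ideal.Quotient.eq, Units.ext_iff]
    rfl
  refine ⟨W, ?_, fun w hw => ?_⟩
  · have h1 : (W : Set G) = (fun g => ((χ g : ℤ_[p]ˣ) : ℤ_[p])) ⁻¹'
        Metric.closedBall 1 ((p : ℝ) ^ (-k : ℤ)) := by
      ext g
      rw [SetLike.mem_coe, hW, ← PadicInt.norm_le_pow_iff_mem_span_pow, Set.mem_preimage,
        Metric.mem_closedBall, dist_eq_norm]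
    rw [h1]
    refine (IsUltrametricDist.isOpen_closedBall _ ?_).preimage (Units.continuous_val.comp hχ)
    have : (0 : ℝ) < p := by exact_mod_cast (Fact.out : p.Prime).pos
    positivity
  · obtain ⟨t, ht⟩ := Ideal.mem_span_singleton'.1 ((hW w).1 hw)
    rw [actA_apply]
    have h2 : ((χ w : ℤ_[p]ˣ) : ℤ_[p]) = 1 + t * (p : ℤ_[p]) ^ k := by
      rw [ht]
      ring
    rw [h2, add_smul, one_smul, mul_smul, hk', smul_zero, add_zero]

/-- there is no two-torsion -/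
theorem two (hp : p ≠ 2) (y : QZ p) : 2 • y = 0 ↔ y = 0 := by
  refine ⟨fun h => XHOMS.tors (m := 2) (fun h2 => hp ?_) h, fun h => by rw [h, smul_zero]⟩
  exact (Nat.prime_dvd_prime_iff_eq Fact.out Nat.prime_two).1 h2

/-- products of a two-cocycle and an invariant element -/
theorem lamz_mem {D : Type} [Group D] [TopologicalSpace D] (χ : D →* ℤ_[p]ˣ) {k : Type} [Field k]
    [Algebra (ZMod p) k] (ψ ψ' : D →* kˣ) (hR : Rel χ ψ ψ') (lam : k →+ QZ p)
    (z : D → D → k) (hz : z ∈ BKND.Z2 (kch ψ)) (y : k) (hy : y ∈ BKND.H0 (kch ψ')) :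
    (fun g h => lam (z g h * y)) ∈ BKND.Z2 (actA χ) := by
  refine ⟨BKND.Loc2.map hz.1 fun a => lam (a * y), fun g h l => ?_⟩
  have e1 := hz.2 g h l
  have e2 := hy g
  rw [kch_apply] at e1 e2
  have e3 := hR g
  rw [actA_apply, XLINEA.lam_act, ← e3, ← map_sub, ← map_add, ← map_sub, ← map_zero lam]
  congr 1
  have e4 : ((ψ g : kˣ) : k) * ((ψ' g : kˣ) : k) * (z h l * y) =
      ((ψ g : kˣ) : k) * z h l * y := by
    conv_rhs => rw [← e2]
    ring
  rw [e4, ← sub_mul, ← add_mul, ← sub_mul, e1, zero_mul]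

/-- the local axioms depend only on the vanishing of the invariants on cocycles -/
theorem locAx_congr {D : Type} [Group D] [TopologicalSpace D] {χ : D →* ℤ_[p]ˣ}
    {inv inv' : (D → D → QZ p) →+ QZ p} {d : ℕ} (h : LocAx p χ inv d)
    (hi : ∀ z ∈ BKND.Z2 (actA χ), inv' z = 0 ↔ inv z = 0) : LocAx p χ inv' d where
  inv_eq := fun z hz => (hi z hz).trans (h.inv_eq z hz)
  one := fun k _ _ _ ψ ψ' h1 h2 h3 lam hl f hf hf' =>
    h.one k ψ ψ' h1 h2 h3 lam hl f hf fun f' hf'' =>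
      (hi _ (XLINEA.cupk_mem χ ψ ψ' h2 h3 lam f f' hf hf'')).1 (hf' f' hf'')
  two := fun k _ _ _ ψ ψ' h1 h2 h3 lam hl z hz hz' =>
    h.two k ψ ψ' h1 h2 h3 lam hl z hz fun y hy =>
      (hi _ (lamz_mem χ ψ ψ' h3 lam z hz y hy)).1 (hz' y hy)
  card := h.card

/-- the invariants can be changed outside the cocycles -/
theorem change {D : Type} [Group D] [TopologicalSpace D] (χ : D →* ℤ_[p]ˣ)
    (inv : (D → D → QZ p) →+ QZ p)
    (h : ∀ z ∈ BKND.Z2 (actA χ), inv z = 0 ↔ z ∈ BKND.B2 (actA χ)) :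
    ∃ inv' : (D → D → QZ p) →+ QZ p, (∀ z ∈ BKND.B2 (actA χ), inv' z = 0) ∧
      ∀ z ∈ BKND.Z2 (actA χ), inv' z = inv z := by
  let m : (D → D → QZ p) →+ (D → D → QZ p) ⧸ BKND.B2 (actA χ) :=
    QuotientAddGroup.mk' (BKND.B2 (actA χ))
  let g : BKND.Z2 (actA χ) →+ (D → D → QZ p) ⧸ BKND.B2 (actA χ) :=
    m.comp (BKND.Z2 (actA χ)).subtype
  have hg : g.rangeRestrict.ker ≤ (inv.comp (BKND.Z2 (actA χ)).subtype).ker := by
    intro z hz
    rw [AddMonoidHom.ker_rangeRestrict] at hz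
    have h1 : m z = 0 := hz
    rw [← AddMonoidHom.mem_ker, QuotientAddGroup.ker_mk'] at h1
    exact (h z z.2).2 h1
  let f : g.range →+ QZ p :=
    AddMonoidHom.liftOfSurjective g.rangeRestrict g.rangeRestrict_surjective
      ⟨inv.comp (BKND.Z2 (actA χ)).subtype, hg⟩
  have hf : ∀ z, f (g.rangeRestrict z) = inv z := fun z =>
    AddMonoidHom.liftOfRightInverse_comp_apply _ _ _ ⟨inv.comp (BKND.Z2 (actA χ)).subtype, hg⟩ z
  obtain ⟨F, hF⟩ := All.ext p ((D → D → QZ p) ⧸ BKND.B2 (actA χ)) g.range f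
  refine ⟨F.comp m, fun z hz => ?_, fun z hz => ?_⟩
  · have h1 : m z = 0 := by
      rw [← AddMonoidHom.mem_ker, QuotientAddGroup.ker_mk']
      exact hz
    rw [AddMonoidHom.comp_apply, h1, map_zero]
  · have h1 := hF (g.rangeRestrict ⟨z, hz⟩)
    rw [hf] at h1
    exact h1

end FGAM

open FGAM in
/-- Module GAM -/
theorem stGam : StGam := by
  intro p _ hp ι _ G _ _ _ _ D _ _ r c χ inv δ U hS
  have hch : ∀ i, ∃ inv' : (D i → D i → QZ p) →+ QZ p,
      (∀ z ∈ BKND.B2 (actA (χ.comp (r i))), inv' z = 0) ∧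
      ∀ z ∈ BKND.Z2 (actA (χ.comp (r i))), inv' z = inv i z := fun i =>
    change (χ.comp (r i)) (inv i) (hS.loc i).inv_eq
  choose inv' h1 h2 using hch
  have ec : χ.comp c = χ := MonoidHom.ext hS.χ_c
  have e1 : ∀ w, χ.comp (rr r c w) = χ.comp (r w.1) := by
    rintro ⟨i, b⟩
    cases b
    · rfl
    · change χ.comp (c.comp (r i)) = χ.comp (r i)
      rw [← MonoidHom.comp_assoc, ec]
  have e2 : ∀ w, (actA χ).comp (rr r c w) = actA (χ.comp (r w.1)) := by
    intro w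
    rw [← e1]
    rfl
  have hcont : ∀ w, Continuous (rr r c w) := by
    rintro ⟨i, b⟩
    cases b
    · exact hS.cont_r i
    · exact hS.cont_c.comp (hS.cont_r i)
  have hpb : ∀ w, ∀ z ∈ BKND.Z2 (actA χ), pb2 (rr r c w) z ∈
      BKND.Z2 (actA (χ.comp (r w.1))) := by
    intro w z hz
    rw [← e2]
    exact XLINEA.pb2_mem _ _ (hcont w) z hz
  obtain ⟨tr, ht1, ht2⟩ := All.tr p ι G D r hS.cont_r c hS.cont_c hS.inv_c (QZ p) (actA χ)
    (fun g => by
      have := congrArg (fun f : G →* ℤ_[p]ˣ => actA f g) ec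
      exact this) inv' h1 (fun z hz => by
      rw [← hS.recip z hz]
      refine Finset.sum_congr rfl fun i _ => ?_
      exact congrArg₂ (· - ·) (h2 i _ (hpb (i, false) z hz)) (h2 i _ (hpb (i, true) z hz)))
  have hii : ∀ w : ι × Bool, ∀ z ∈ BKND.Z2 (actA (χ.comp (r w.1))), ii inv' w z = 0 ↔ inv w.1 z = 0 := by
    rintro ⟨i, b⟩ z hz
    cases b
    · change 2 • inv' i z = 0 ↔ inv i z = 0
      rw [two hp, h2 i z hz]
    · change -(2 • inv' i z) = 0 ↔ inv i z = 0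
      rw [neg_eq_zero, two hp, h2 i z hz]
  have hie : ∀ w, ∀ z ∈ BKND.Z2 ((actA χ).comp (rr r c w)),
      ii inv' w z = 0 ↔ z ∈ BKND.B2 ((actA χ).comp (rr r c w)) := by
    intro w z hz
    rw [e2] at hz ⊢
    exact (hii w z hz).trans ((hS.loc w.1).inv_eq z hz)
  let Γ : Glo (ι × Bool) G (DD D) (QZ p) (QZ p) :=
    Glo.mk (rr r c) hcont (actA χ) (psm χ hS.cont_χ) (ii inv') hie tr ht1
  refine ⟨Γ, fun w => rfl, fun i z => rfl, ht2, rfl, hS.open', hS.fix, fun w => ?_, hS.glob, ?_⟩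
  · change LocAx p (χ.comp (rr r c w)) (ii inv' w) (δ w.1)
    rw [e1]
    exact locAx_congr (hS.loc w.1) (hii w)
  · rw [Fintype.sum_prod_type]
    simp only [Fintype.sum_bool]
    rw [Finset.sum_add_distrib, hS.sum]

end BKMet
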