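import Pool.Agent.Lib.MP_7c08ba_nt.Met.StF
import Pool.Agent.Lib.MP_7c08ba_nt.Odd.Conj

set_option autoImplicit false

/-!
Metabolic parity, module HODM: the theorem on the exponential map at a place above `p`.
-/

noncomputable section

namespace BKMet

open Matrix TensorProduct

open BKGen MP_7c08ba.Crys

namespace FHODM

section Rank

variable {p : ℕ} [Fact p.Prime] {G : Type} [Group G] [TopologicalSpace G] {L : Type}
  [NormedField L] [NormedAlgebra ℚ_[p] L] {n : ℕ}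

/-- the dimension `r` of the exponential theorem -/
theorem rank_cls_le (a : G →* GQp p) (σ : G →* GL (Fin n) L)
    [FiniteDimensional L (BKOdd.Z1 σ)] {r : ℕ} (h1 : (r : Cardinal) ≤ rkdR a σ)
    (h2 : rkdR a σ ≤ Module.rank L (BKOdd.cls σ (Zf a σ)))
    (h3 : Module.finrank L (BKOdd.cls σ (Zf a σ)) = r) :
    BKOdd.codimIn (DB (BKOdd.lin σ) (fun t => galD (a t))) (FilV L (Fin n → L) (DpS p)) = r := by
  rw [← Module.finrank_eq_rank, h3] at h2
  exact BKOdd.codimIn_eq_of_rank (DB (BKOdd.lin σ) (fun t => galD (a t)))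
    (FilV L (Fin n → L) (DpS p)) (le_antisymm h2 h1)

end Rank

section Place

variable {p : ℕ} [Fact p.Prime] {F : Type} [Field F] (j : AlgebraicClosure F →+* PadicAlgCl p)
  (r : GQ p →* GF F) (hr : ∀ (t : GQ p) (x : AlgebraicClosure F), j (r t x) = t (j x))

/-- from the Galois group of `ℚ_p` to the decomposition group -/
def qPD : GQ p →* BKOdd.PD j where
  toFun t := ⟨(r t, t), fun z => hr t z⟩
  map_one' := Subtype.ext (Prod.ext (map_one r) rfl)
  map_mul' a b := Subtype.ext (Prod.ext (map_mul r a b) rfl)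

theorem qPD_surj : Function.Surjective (qPD j r hr) := by
  rintro ⟨⟨g, t⟩, h⟩
  refine ⟨t, Subtype.ext (Prod.ext ?_ rfl)⟩
  exact AlgEquiv.ext fun z => j.injective ((hr t z).trans (h z).symm)

variable {L : Type} [NormedField L] [NormedAlgebra ℚ_[p] L] {n : ℕ} (V : GF F →* GL (Fin n) L)

include hr in
theorem drm (h : BKOdd.DeRhamAt j V) : BKOdd.DRM (MonoidHom.id (GQ p)) (V.comp r) :=
  ((BKOdd.deRhamAt_iff j V).mp h).comp (qPD j r hr)

theorem top_map {G₁ G₂ G₃ : Type} [Group G₁] [Group G₂] [Group G₃] (f : G₁ →* G₂)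
    (hf : Function.Surjective f) (g : G₂ →* G₃) :
    ∃ f' : G₁ →* (⊤ : Subgroup G₃).comap g, Function.Surjective f' ∧
      ∀ x, ((f' x : (⊤ : Subgroup G₃).comap g) : G₂) = f x := by
  refine ⟨f.codRestrict _ fun x => Subgroup.mem_top _, ?_, fun _ => rfl⟩
  rintro ⟨y, hy⟩
  obtain ⟨x, rfl⟩ := hf y
  exact ⟨x, rfl⟩

include hr in
theorem frob (h : BKOdd.FrobAt ⊤ j V) :
    Function.Bijective (phSub (MonoidHom.id (GQ p)) (BKOdd.lin (V.comp r))) := by
  rw [BKOdd.frobAt_iff] at h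
  obtain ⟨f, hf, hf'⟩ := top_map (qPD j r hr) (qPD_surj j r hr) (BKOdd.toF j)
  refine BKOdd.phSub_transport f hf _ _ (fun g => ?_) _ _ LinearMap.id LinearMap.id
    (fun _ => rfl) (fun _ => rfl) (fun g v => ?_) h
  · change BKOdd.toQ j (f g : BKOdd.PD j) = g
    rw [hf']
    rfl
  · change BKOdd.lin (V.comp r) g v = BKOdd.lin (V.comp (BKOdd.toF j)) (f g : BKOdd.PD j) v
    rw [hf']
    rfl

include hr in
theorem tdim_eq : BKOdd.tdim j V = BKOdd.codimIn
    (DB (BKOdd.lin (V.comp r)) (fun t => galD (MonoidHom.id (GQ p) t)))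
      (FilV L (Fin n → L) (DpS p)) := by
  unfold BKOdd.tdim
  rw [BKOdd.DBat_eq, BKOdd.Fil0V_eq]
  congr 1
  exact (BKOdd.DB_comp_surj (qPD j r hr) (qPD_surj j r hr) (BKOdd.lin (V.comp (BKOdd.toF j)))
    (fun d => galD (BKOdd.toQ j d))).symm

section Conj

variable (c : AlgebraicClosure F ≃+* AlgebraicClosure F) (σ : F ≃+* F) (hcs : BKOdd.ConjHyp c σ)

include hr in
theorem frob_conj
    (h : BKOdd.FrobAt ⊤ (j.comp (c : AlgebraicClosure F →+* AlgebraicClosure F)) V) :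
    Function.Bijective (phSub (MonoidHom.id (GQ p))
      (BKOdd.lin ((V.comp (BKOdd.conj c σ hcs.h)).comp r))) := by
  rw [BKOdd.frobAt_iff] at h
  obtain ⟨f, hf, hf'⟩ := top_map ((BKOdd.conjPD' j c σ hcs).comp (qPD j r hr))
    ((BKOdd.conjPD'_surjective j c σ hcs).comp (qPD_surj j r hr))
    (BKOdd.toF (j.comp (c : AlgebraicClosure F →+* AlgebraicClosure F)))
  refine BKOdd.phSub_transport f hf _ _ (fun g => ?_) _ _ LinearMap.id LinearMap.id
    (fun _ => rfl) (fun _ => rfl) (fun g v => ?_) h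
  · change BKOdd.toQ _ (f g : BKOdd.PD (j.comp (c : AlgebraicClosure F →+*
      AlgebraicClosure F))) = g
    rw [hf']
    rfl
  · change BKOdd.lin ((V.comp (BKOdd.conj c σ hcs.h)).comp r) g v =
      BKOdd.lin (V.comp (BKOdd.toF _)) (f g : BKOdd.PD (j.comp (c : AlgebraicClosure F →+*
        AlgebraicClosure F))) v
    rw [hf']
    rfl

theorem frob_dual (B : GL (Fin n) L)
    (h : Function.Bijective (phSub (MonoidHom.id (GQ p))
      (BKOdd.lin ((V.comp (BKOdd.conj c σ hcs.h)).comp r)))) :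
    Function.Bijective (phSub (MonoidHom.id (GQ p))
      (BKOdd.lin ((dualC V (BKOdd.conj c σ hcs.h) B).comp r))) := by
  refine BKOdd.phSub_transport (MonoidHom.id (GQ p)) Function.surjective_id _ _ (fun g => rfl) _ _
    (Matrix.mulVecLin B.val) (Matrix.mulVecLin (B⁻¹).val)
    (BKOdd.mulVecLin_inv B) (BKOdd.mulVecLin_inv' B) (fun g v => ?_) h
  exact BKOdd.dualRep_mulVec V (BKOdd.conj c σ hcs.h) B (r g) v

include hr in
theorem tdim_conj (B : GL (Fin n) L) :
    BKOdd.tdim (j.comp (c : AlgebraicClosure F →+* AlgebraicClosure F)) V = BKOdd.codimIn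
    (DB (BKOdd.lin ((dualC V (BKOdd.conj c σ hcs.h) B).comp r))
      (fun t => galD (MonoidHom.id (GQ p) t))) (FilV L (Fin n → L) (DpS p)) := by
  have e : BKOdd.DBat galD ⊤ (j.comp (c : AlgebraicClosure F →+* AlgebraicClosure F)) V =
      DB (BKOdd.lin ((V.comp (BKOdd.conj c σ hcs.h)).comp r))
        (fun t => galD (MonoidHom.id (GQ p) t)) := by
    rw [BKOdd.DBat_eq]
    exact (BKOdd.DB_comp_surj ((BKOdd.conjPD' j c σ hcs).comp (qPD j r hr))
      ((BKOdd.conjPD'_surjective j c σ hcs).comp (qPD_surj j r hr))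
      (BKOdd.lin (V.comp (BKOdd.toF (j.comp (c : AlgebraicClosure F →+* AlgebraicClosure F)))))
      (fun d => galD (BKOdd.toQ (j.comp (c : AlgebraicClosure F →+* AlgebraicClosure F))
        d))).symm
  unfold BKOdd.tdim
  rw [e, ← BKOdd.Fil0V_eq,
    ← BKOdd.codimIn_map (BKOdd.twE (BdR p) (Matrix.mulVecLin B.val) (Matrix.mulVecLin (B⁻¹).val)
      (BKOdd.mulVecLin_inv B) (BKOdd.mulVecLin_inv' B)), BKOdd.Fil0V_map_tw, BKOdd.DB_map_tw _
      (BKOdd.lin ((dualC V (BKOdd.conj c σ hcs.h) B).comp r))]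
  intro g v
  exact BKOdd.dualRep_mulVec V (BKOdd.conj c σ hcs.h) B (r g) v

end Conj

end Place

end FHODM

open FHODM in
/-- **Module HODM.** -/
theorem stHodM : StHodM := by
  intro p _ F _ _ hF c σ hcs L _ _ _ n V hV j r hrc hr B hd hDR hFr hFr'
  obtain ⟨hcQ, -, hcQ3⟩ := BKOdd.stCycL p
  have hb := frob j r hr V hFr
  have hbc := frob_conj j r hr V c σ hcs hFr'
  have hb' := frob_dual r V c σ hcs B hbc
  have hconj : Continuous (BKOdd.conj c σ hcs.h) := BKOdd.Conj.continuous_conjO c σ hcs.h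
  refine ⟨fun v hv => BKOdd.eq_zero_of_phSub _ _ hb v hv,
    fun v hv => BKOdd.eq_zero_of_phSub _ _ hbc v hv, ?_⟩
  have hcyc : ∀ t : GQ p, cycF p F (r t) = cycL p p t := fun t => hcQ3 F j (r t) t (hr t)
  have hχc : Continuous (BKOdd.chL (cycL p p) L) := by
    have h2 : Continuous fun t : GQ p => ((BKOdd.cycQ p t : ℤ_[p]ˣ) : ℤ_[p]) :=
      Units.continuous_val.comp hcQ
    exact (continuous_algebraMap ℚ_[p] L).comp (continuous_subtype_val.comp h2)
  obtain ⟨s, s', hHP, hr1, hr2, hr1', hr2'⟩ := hodgePair (MonoidHom.id (GQ p)) continuous_id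
    (V.comp r) ((dualC V (BKOdd.conj c σ hcs.h) B).comp r) (hV.comp hrc)
    ((BKOdd.continuous_dualRep hV hconj B).comp hrc) (BKOdd.chL (cycL p p) L)
    (fun g => rfl) hχc (fun t => by
      have h1 := BKOdd.dualRep_dual V (BKOdd.conj c σ hcs.h) B (BKOdd.chL (cycF p F) L) hd (r t)
      have h2 : BKOdd.chL (cycF p F) L (r t) = BKOdd.chL (cycL p p) L t := by
        change algebraMap ℚ_[p] L (((cycF p F (r t) : ℤ_[p]ˣ) : ℤ_[p]) : ℚ_[p]) = _
        rw [hcyc]
        rfl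
      rw [h2] at h1
      exact h1) (drm j r hr V hDR) hb hb'
  refine ⟨s, s', hHP, ?_, ?_⟩
  · intro hfd hfr
    rw [tdim_eq j r hr V]
    exact rank_cls_le (MonoidHom.id (GQ p)) (V.comp r) hr1 hr2 hfr
  · intro hfd hfr
    rw [tdim_conj j r hr V c σ hcs B]
    exact rank_cls_le (MonoidHom.id (GQ p)) ((dualC V (BKOdd.conj c σ hcs.h) B).comp r) hr1' hr2'
      hfr

end BKMet
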