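import Pool.Agent.Lib.MP_7c08ba_nt.Met.HStmts
import Pool.Agent.Lib.MP_7c08ba_nt.Odd.CycL

set_option autoImplicit false

/-! Module CY: cyclotomic characters and systems of roots of unity. -/

noncomputable section

namespace BKGlob2

open BKLoc2 (cy Sys)

namespace CYAux

variable {p : ℕ} [Fact p.Prime] {Ω : Type} [Field Ω] [IsAlgClosed Ω] [CharZero Ω]

/-- extraction of a `p`-th root inside the roots of unity of order a power of `p` -/
lemma step (n : ℕ) (ξ : Ω) (hξ : IsPrimitiveRoot ξ (p ^ n)) :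
    ∃ η : Ω, IsPrimitiveRoot η (p ^ (n + 1)) ∧ η ^ p = ξ := by
  have hp : p.Prime := Fact.out
  have hne : NeZero (((p ^ (n + 1) : ℕ)) : Ω) := ⟨by
    rw [Nat.cast_ne_zero]
    exact pow_ne_zero _ hp.ne_zero⟩
  have hne' : NeZero (p ^ n) := ⟨pow_ne_zero _ hp.ne_zero⟩
  obtain ⟨η, hη⟩ := HasEnoughRootsOfUnity.exists_primitiveRoot Ω (p ^ (n + 1))
  have h1 : IsPrimitiveRoot (η ^ p) (p ^ n) :=
    hη.pow (pos_of_ne_zero (pow_ne_zero _ hp.ne_zero)) (by rw [pow_succ, mul_comm])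
  rcases Nat.eq_zero_or_pos n with h0 | h0
  · subst h0
    refine ⟨η, hη, ?_⟩
    rw [pow_zero, IsPrimitiveRoot.one_right_iff] at h1 hξ
    rw [h1, hξ]
  · obtain ⟨i, -, hi, h2⟩ := (h1.isPrimitiveRoot_iff).1 hξ
    have h3 : i.Coprime p := (Nat.coprime_pow_right_iff h0 i p).1 hi
    refine ⟨η ^ i, hη.pow_of_coprime i ((Nat.coprime_pow_right_iff (Nat.succ_pos n) i p).2 h3), ?_⟩
    rw [← h2, ← pow_mul, ← pow_mul, mul_comm]

/-- the recursive construction -/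
def sys (p : ℕ) [Fact p.Prime] (Ω : Type) [Field Ω] [IsAlgClosed Ω] [CharZero Ω] :
    (n : ℕ) → {ξ : Ω // IsPrimitiveRoot ξ (p ^ n)}
  | 0 => ⟨1, by rw [pow_zero]; exact IsPrimitiveRoot.one⟩
  | n + 1 => ⟨(step n (sys p Ω n).1 (sys p Ω n).2).choose,
      (step n (sys p Ω n).1 (sys p Ω n).2).choose_spec.1⟩

end CYAux

open CYAux in
/-- Module CY -/
theorem stCY : StCY := by
  intro p _ k Ω k' Ω' _ _ _ _ _ _ _ _ _ _
  refine ⟨⟨fun n => (sys p Ω n).1, fun n => (sys p Ω n).2, fun n =>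
    (step n (sys p Ω n).1 (sys p Ω n).2).choose_spec.2⟩, fun j g g' h => ?_⟩
  apply BKOdd.CycLAux.eq_of (Ω := Ω)
  intro n ξ hξ
  apply j.injective
  have h1 : g ξ = ξ ^ (((cy p k Ω g : ℤ_[p]ˣ) : ℤ_[p]).toZModPow n).val :=
    BKOdd.CycLAux.act n ξ hξ.pow_eq_one (MulSemiringAction.toRingAut (Ω ≃ₐ[k] Ω) Ω g)
  have h2 : g' (j ξ) = (j ξ) ^ (((cy p k' Ω' g' : ℤ_[p]ˣ) : ℤ_[p]).toZModPow n).val :=
    BKOdd.CycLAux.act n (j ξ) (by rw [← map_pow, hξ.pow_eq_one, map_one])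
      (MulSemiringAction.toRingAut (Ω' ≃ₐ[k'] Ω') Ω' g')
  rw [← h1, h ξ, h2, map_pow]

end BKGlob2
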