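import Pool.Agent.Lib.MP_7c08ba_nt.Met.LocStmts
import Pool.Agent.Lib.MP_7c08ba_nt.Odd.Conv
import Pool.Agent.Lib.MP_7c08ba_nt.ND.Basic

set_option autoImplicit false

/-!
Module PA: comparison of the coefficients `ℤ/p` and `ℚ_p / ℤ_p`.
-/

noncomputable section

namespace BKLoc2

open BKOdd
open BKMet (QZ actA)
open BKPar (Loc1 Loc2)

namespace PAAux

variable {p : ℕ} [Fact p.Prime]

/-! ### the class map -/

theorem cl_surj (x : QZ p) : ∃ y, cl p y = x := Submodule.Quotient.mk_surjective _ x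

theorem cl_add (x y : ℚ_[p]) : cl p (x + y) = cl p x + cl p y := rfl

theorem cl_eq_zero {x : ℚ_[p]} : cl p x = 0 ↔ ∃ u : ℤ_[p], (u : ℚ_[p]) = x := by
  rw [cl, Submodule.Quotient.mk_eq_zero, LinearMap.mem_range]
  rfl

theorem smul_cl (u : ℤ_[p]) (x : ℚ_[p]) : u • cl p x = cl p (u * x) := rfl

theorem nsmul_cl (n : ℕ) (x : ℚ_[p]) : n • cl p x = cl p (n * x) := by
  rw [← nsmul_eq_mul]
  exact (map_nsmul (Submodule.mkQ (LinearMap.range (Algebra.linearMap ℤ_[p] ℚ_[p]))) n x).symm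

theorem p_ne : (p : ℚ_[p]) ≠ 0 := by
  exact_mod_cast (Fact.out : p.Prime).ne_zero

/-- the inclusion of `ℤ/p` -/
def j (a : ZMod p) : QZ p := cl p ((a.val : ℚ_[p]) / p)

theorem j_toZMod (x : ℤ_[p]) : cl p ((x : ℚ_[p]) / p) = j (PadicInt.toZMod x) := by
  obtain ⟨y, hy⟩ := BKND.exists_toZMod x
  have h1 : (x : ℚ_[p]) / p = ((PadicInt.toZMod x).val : ℚ_[p]) / p + y := by
    have h2 : (x : ℚ_[p]) = ((PadicInt.toZMod x).val : ℚ_[p]) + p * y := by
      conv_lhs => rw [hy]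
      push_cast
      rfl
    rw [h2]
    field_simp [p_ne (p := p)]
  rw [h1, cl_add, cl_eq_zero.2 ⟨y, rfl⟩, add_zero]
  rfl

theorem exists_toZMod_eq (a : ZMod p) : ∃ x : ℤ_[p], PadicInt.toZMod x = a :=
  ⟨((a.val : ℕ) : ℤ_[p]), by rw [map_natCast, ZMod.natCast_zmod_val]⟩

theorem j_add (a b : ZMod p) : j (a + b) = j a + j b := by
  obtain ⟨x, rfl⟩ := exists_toZMod_eq a
  obtain ⟨y, rfl⟩ := exists_toZMod_eq b
  rw [← map_add, ← j_toZMod, ← j_toZMod, ← j_toZMod, ← cl_add, ← add_div]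
  push_cast
  rfl

theorem smul_j (u : ℤ_[p]) (a : ZMod p) : u • j a = j (PadicInt.toZMod u * a) := by
  obtain ⟨x, rfl⟩ := exists_toZMod_eq a
  rw [← map_mul, ← j_toZMod, ← j_toZMod, smul_cl, ← mul_div_assoc]
  push_cast
  rfl

theorem j_inj {a b : ZMod p} (h : j a = j b) : a = b := by
  have h1 : j (a - b) = 0 := by
    have h2 := j_add (a - b) b
    rw [sub_add_cancel, h] at h2
    exact (left_eq_add.1 (by rw [add_comm]; exact h2))
  obtain ⟨x, hx⟩ := exists_toZMod_eq (a - b)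
  rw [← hx, ← j_toZMod, cl_eq_zero] at h1
  obtain ⟨u, hu⟩ := h1
  have h3 : x = p * u := by
    have h4 : (x : ℚ_[p]) = p * u := by
      rw [hu]
      field_simp [p_ne (p := p)]
    apply Subtype.coe_injective
    change (x : ℚ_[p]) = ((p * u : ℤ_[p]) : ℚ_[p])
    rw [h4]
    push_cast
    rfl
  rw [← sub_eq_zero, ← hx, h3, map_mul, map_natCast, ZMod.natCast_self, zero_mul]

theorem j_sub (a b : ZMod p) : j (a - b) = j a - j b := by
  rw [eq_sub_iff_add_eq, ← j_add, sub_add_cancel]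

theorem p_smul_j (a : ZMod p) : p • j a = 0 := by
  rw [← Nat.cast_smul_eq_nsmul ℤ_[p], smul_j, map_natCast, ZMod.natCast_self, zero_mul]
  rw [← sub_self (0 : ZMod p), j_sub, sub_self]

theorem exists_j {x : QZ p} (h : p • x = 0) : ∃ a, j a = x := by
  obtain ⟨y, rfl⟩ := cl_surj x
  rw [nsmul_cl, cl_eq_zero] at h
  obtain ⟨u, hu⟩ := h
  refine ⟨PadicInt.toZMod u, ?_⟩
  rw [← j_toZMod, hu]
  congr 1
  field_simp [p_ne (p := p)]

theorem exists_div (x : QZ p) : ∃ y : QZ p, p • y = x := by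
  obtain ⟨y, rfl⟩ := cl_surj x
  refine ⟨cl p (y / p), ?_⟩
  rw [nsmul_cl]
  congr 1
  field_simp [p_ne (p := p)]

/-- every element is killed by a power of `p` -/
theorem exists_pow (x : QZ p) : ∃ n : ℕ, p ^ n • x = 0 := by
  obtain ⟨y, rfl⟩ := cl_surj x
  obtain ⟨n, u, hu⟩ : ∃ (n : ℕ) (u : ℤ_[p]), (u : ℚ_[p]) = (p : ℚ_[p]) ^ n * y := by
    by_cases hy : y = 0
    · exact ⟨0, 0, by simp [hy]⟩
    refine ⟨(-y.valuation).toNat, ⟨(p : ℚ_[p]) ^ (-y.valuation).toNat * y, ?_⟩, rfl⟩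
    have hp : (1 : ℝ) < p := by exact_mod_cast (Fact.out : p.Prime).one_lt
    rw [norm_mul, norm_pow, Padic.norm_p, Padic.norm_eq_zpow_neg_valuation hy,
      ← zpow_natCast, ← zpow_neg_one, ← zpow_mul, ← zpow_add₀ (by positivity)]
    refine zpow_le_one_of_nonpos₀ hp.le ?_
    have := Int.self_le_toNat (-y.valuation)
    omega
  refine ⟨n, ?_⟩
  rw [nsmul_cl, cl_eq_zero]
  exact ⟨u, by rw [hu]; push_cast; rfl⟩

theorem pow_mono {x : QZ p} {n m : ℕ} (h : p ^ n • x = 0) (hm : n ≤ m) : p ^ m • x = 0 := by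
  obtain ⟨k, rfl⟩ := Nat.exists_eq_add_of_le hm
  rw [pow_add, mul_comm, mul_smul, h, smul_zero]

theorem actA_j {V : Type} [Group V] {χ : V →* ℤ_[p]ˣ} (g : V) (a : ZMod p) : actA χ g (j a) = j (chm χ g * a) := by
  rw [BKMet.actA_apply, smul_j]
  rfl

theorem im_eq {V : Type} (z : V → V → ZMod p) (g h : V) : im z g h = j (z g h) := rfl

theorem im_coboundary {V : Type} [Group V] {χ : V →* ℤ_[p]ˣ} {f : V → ZMod p} (g h : V) :
    j (f g + chm χ g * f h - f (g * h)) =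
      actA χ g (j (f h)) - j (f (g * h)) + j (f g) := by
  rw [j_sub, j_add, actA_j]
  abel

open Classical in
/-- a left inverse of `j` -/
def t (x : QZ p) : ZMod p := if h : ∃ a, j a = x then h.choose else 0

theorem j_t {x : QZ p} (h : p • x = 0) : j (t x) = x := by
  have h1 := exists_j h
  rw [t, dif_pos h1]
  exact h1.choose_spec

/-! ### smooth functions -/

variable {V : Type} [Group V] [TopologicalSpace V] [IsTopologicalGroup V] [CompactSpace V]

theorem exists_pow1 {β : V → QZ p} (hβ : Loc1 β) : ∃ n : ℕ, ∀ g, p ^ n • β g = 0 := by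
  obtain ⟨W, hW, h⟩ := hβ
  have hfin : Finite (V ⧸ W) := W.quotient_finite_of_isOpen hW
  choose n hn using fun q : V ⧸ W => exists_pow (β q.out)
  obtain ⟨N, hN⟩ := (Set.finite_range n).bddAbove
  refine ⟨N, fun g => ?_⟩
  obtain ⟨w, hw⟩ := QuotientGroup.mk_out_eq_mul W g
  have h1 : β (QuotientGroup.mk g : V ⧸ W).out = β g := by
    rw [hw]
    exact h g w w.2
  have h2 := pow_mono (hn (QuotientGroup.mk g)) (hN ⟨_, rfl⟩)
  rwa [h1] at h2

theorem exists_pow2 {β : V → V → QZ p} (hβ : Loc2 β) : ∃ n : ℕ, ∀ g h, p ^ n • β g h = 0 := by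
  obtain ⟨W, hW, h⟩ := hβ
  have hfin : Finite (V ⧸ W) := W.quotient_finite_of_isOpen hW
  choose n hn using fun q : (V ⧸ W) × (V ⧸ W) => exists_pow (β q.1.out q.2.out)
  obtain ⟨N, hN⟩ := (Set.finite_range n).bddAbove
  refine ⟨N, fun g g' => ?_⟩
  obtain ⟨w, hw⟩ := QuotientGroup.mk_out_eq_mul W g
  obtain ⟨w', hw'⟩ := QuotientGroup.mk_out_eq_mul W g'
  have h1 : β (QuotientGroup.mk g : V ⧸ W).out (QuotientGroup.mk g' : V ⧸ W).out = β g g' := by
    rw [hw, hw']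
    exact h g g' w w.2 w' w'.2
  have h2 := pow_mono (hn (QuotientGroup.mk g, QuotientGroup.mk g')) (hN ⟨_, rfl⟩)
  rwa [h1] at h2

variable [NonarchimedeanGroup V] {χ : V →* ℤ_[p]ˣ} (hχ : Continuous χ)

include hχ in
theorem smooth_act {β : V → QZ p} (hβ : Loc1 β) :
    ∃ W : Subgroup V, IsOpen (W : Set V) ∧ ∀ w ∈ W, ∀ g, actA χ w (β g) = β g := by
  obtain ⟨n, hn⟩ := exists_pow1 hβ
  obtain ⟨W, hW, hW'⟩ := BKND.Red.loc1_of_continuous
    (f := fun g => ((χ g : ℤ_[p]ˣ) : ℤ_[p])) (Units.continuous_val.comp hχ) n id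
  refine ⟨W, hW, fun w hw g => ?_⟩
  have h1 : PadicInt.toZModPow n ((χ (1 * w) : ℤ_[p]ˣ) : ℤ_[p]) =
    PadicInt.toZModPow n ((χ 1 : ℤ_[p]ˣ) : ℤ_[p]) := hW' 1 w hw
  rw [one_mul, map_one, Units.val_one, BKND.toZModPow_eq_iff] at h1
  obtain ⟨u, hu⟩ := h1
  rw [BKMet.actA_apply, ← sub_eq_zero]
  have h2 : ((χ w : ℤ_[p]ˣ) : ℤ_[p]) • β g - β g = (((χ w : ℤ_[p]ˣ) : ℤ_[p]) - 1) • β g := by
    rw [sub_smul, one_smul]
  rw [h2, hu, mul_comm, mul_smul, ← Nat.cast_pow, Nat.cast_smul_eq_nsmul, hn, smul_zero]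

include hχ in
theorem loc2_actA {β : V → QZ p} (hβ : Loc1 β) : Loc2 fun g h => actA χ g (β h) := by
  obtain ⟨W, hW, h1⟩ := smooth_act hχ hβ
  obtain ⟨W', hW', h2⟩ := hβ
  refine ⟨W ⊓ W', ?_, fun g g' w hw w' hw' => ?_⟩
  · rw [Subgroup.coe_inf]
    exact hW.inter hW'
  · change actA χ (g * w) (β (g' * w')) = actA χ g (β g')
    rw [h2 g' w' hw'.2, map_mul]
    exact congrArg (actA χ g) (h1 w hw.1 g')

end PAAux

open PAAux in
/-- Module PA. -/
theorem stPA : StPA := by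
  intro p _ V _ _ _ _ _ χ hχ
  refine ⟨?_, ?_, ?_, ?_, ?_⟩
  · rintro α ⟨hα, hα'⟩ ⟨β, hβ, hβ'⟩
    choose s hs using fun x : QZ p => exists_div x
    set γ : V → QZ p := fun g => s (β g) with hγ
    have hγ1 : Loc1 γ := BKND.Loc1.map hβ s
    have hγp : ∀ g, p • γ g = β g := fun g => hs _
    set δ : V → V → QZ p := fun g h => α g h - (actA χ g (γ h) - γ (g * h) + γ g) with hδ
    have hδ1 : Loc2 δ := by
      have h1 := BKND.Loc2.map2 hα (BKND.Loc2.map2 (BKND.Loc2.map2 (loc2_actA hχ hγ1)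
        (BKND.loc2_mul hγ1) (· - ·)) (BKND.loc2_left hγ1) (· + ·)) (· - ·)
      exact h1
    have hδp : ∀ g h, p • δ g h = 0 := by
      intro g h
      have h1 : p • α g h = actA χ g (β h) - β (g * h) + β g := hβ' g h
      simp only [hδ]
      rw [smul_sub, smul_add, smul_sub, ← map_nsmul, hγp, hγp, hγp, h1, sub_self]
    have hδ2 : ∀ g h k, actA χ g (δ h k) - δ (g * h) k + δ g (h * k) - δ g h = 0 := by
      intro g h k
      have h1 := hα' g h k
      simp only [hδ, map_sub, map_add, BKND.act_mul, mul_assoc]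
      rw [← h1]
      abel
    refine ⟨fun g h => t (δ g h), ⟨Conv.cont2_iff.2 (BKND.Loc2.map hδ1 t), fun g h k => ?_⟩,
      γ, hγ1, fun g h => ?_⟩
    · apply j_inj
      have h1 := hδ2 g h k
      rw [j_add, j_add, ← actA_j, j_t (hδp _ _), j_t (hδp _ _), j_t (hδp _ _), j_t (hδp _ _)]
      rw [← sub_eq_zero, ← h1]
      abel
    · change α g h - j (t (δ g h)) = _
      rw [j_t (hδp _ _)]
      simp only [hδ]
      abel
  · rintro z ⟨hz, hz'⟩
    refine ⟨BKND.Loc2.map (Conv.cont2_iff.1 hz) j, fun g h k => ?_⟩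
    simp only [im_eq, actA_j]
    have h1 := congrArg j (hz' g h k)
    rw [j_add, j_add] at h1
    rw [sub_add_eq_add_sub, h1]
    abel
  · rintro z ⟨f, hf, hf'⟩
    refine ⟨fun g => j (f g), BKND.Loc1.map (Conv.cont1_iff.1 hf) j, fun g h => ?_⟩
    rw [im_eq, hf', im_coboundary]
  · rintro hdiv z ⟨hz, hz'⟩ ⟨β, hβ, hβ'⟩
    have h1 : p • β ∈ BKND.Z1 (actA χ) := by
      refine ⟨BKND.Loc1.map hβ (fun x => p • x), fun g h => ?_⟩
      have h2 := congrArg (fun x => p • x) (hβ' g h)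
      simp only [im_eq, p_smul_j] at h2
      rw [smul_add, smul_sub, ← map_nsmul] at h2
      simp only [Pi.smul_apply]
      have h3 : p • β (g * h) = actA χ g (p • β h) + p • β g := by
        rw [eq_comm, ← sub_eq_zero, h2]
        abel
      rw [h3, add_comm]
    obtain ⟨β', ⟨hb1, hb2⟩, hb3⟩ := hdiv _ h1
    set γ : V → QZ p := fun g => β g - β' g with hγ
    have hγ1 : Loc1 γ := BKND.Loc1.map2 hβ hb1 (· - ·)
    have hγp : ∀ g, p • γ g = 0 := by
      intro g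
      have h2 := congrFun hb3 g
      simp only [Pi.smul_apply] at h2
      simp only [hγ]
      rw [smul_sub, h2, sub_self]
    refine ⟨fun g => t (γ g), Conv.cont1_iff.2 (BKND.Loc1.map hγ1 t), fun g h => ?_⟩
    apply j_inj
    rw [im_coboundary (χ := χ) (f := fun g => t (γ g))]
    simp only [j_t (hγp _)]
    have h2 := hβ' g h
    rw [im_eq] at h2
    rw [h2]
    simp only [hγ, map_sub, hb2 g h]
    abel
  · rintro α ⟨hα, -⟩
    obtain ⟨n, hn⟩ := exists_pow2 hα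
    exact ⟨n, by funext g h; exact hn g h⟩

end BKLoc2
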