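import Pool.Agent.Lib.MP_7c08ba_nt.Met.LZ1A
import Pool.Agent.Lib.MP_7c08ba_nt.Odd.Norm
import Pool.Agent.Lib.MP_7c08ba_nt.Odd.Desc

set_option autoImplicit false

/-!
Module RPB: products with the Kummer cocycles of units for `l = p`.
-/

noncomputable section

namespace BKLoc2

open BKOdd
open BKMet (QZ actA)
open BKPar (Loc1 Loc2)
open SCAux Z1AAux

namespace RPBAux

variable {p : ℕ} [Fact p.Prime]

/-! ### Kummer cocycles -/

section KP

variable {k Ω : Type*} [Field k] [Field Ω] [Algebra k Ω] {V : Type*} [Group V]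
    {e : V →* (Ω ≃ₐ[k] Ω)} {z : ℕ → Ω}

theorem kp_zero : IsKP e z 1 (0 : V → ℤ_[p]) := by
  refine ⟨fun _ => 1, rfl, fun n => one_pow _, fun n v => ?_⟩
  rw [Pi.zero_apply, map_zero, ZMod.val_zero, pow_zero, one_mul]
  exact map_one (e v)

/-- the Kummer cocycle of a power -/
theorem kp_pow (hmul : ∀ (a b : Ω) (κ μ : V → ℤ_[p]), a ≠ 0 → b ≠ 0 → IsKP e z a κ →
    IsKP e z b μ → IsKP e z (a * b) (κ + μ)) {a : Ω} {κ : V → ℤ_[p]} (ha : a ≠ 0)
    (hκ : IsKP e z a κ) (n : ℕ) : IsKP e z (a ^ n) (n • κ) := by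
  induction n with
  | zero =>
    rw [pow_zero, zero_smul]
    exact kp_zero
  | succ n ih =>
    rw [pow_succ, add_smul, one_smul]
    exact hmul _ _ _ _ (pow_ne_zero _ ha) ha ih hκ

/-- the Kummer cocycle of a root of unity of order dividing `p - 1` -/
theorem kp_tors (hmul : ∀ (a b : Ω) (κ μ : V → ℤ_[p]), a ≠ 0 → b ≠ 0 → IsKP e z a κ →
    IsKP e z b μ → IsKP e z (a * b) (κ + μ)) {χ : V → ℤ_[p]}
    (huniq : ∀ (a : Ω) (κ μ : V → ℤ_[p]), a ≠ 0 → IsKP e z a κ → IsKP e z a μ →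
      ∃ c : ℤ_[p], ∀ v, μ v - κ v = (χ v - 1) * c) {a : Ω} {κ : V → ℤ_[p]} (ha : a ≠ 0)
    (hκ : IsKP e z a κ) (h : a ^ (p - 1) = 1) : ∃ c : ℤ_[p], ∀ v, κ v = (χ v - 1) * c := by
  have hp : p.Prime := Fact.out
  have h1 := kp_pow hmul ha hκ (p - 1)
  rw [h] at h1
  obtain ⟨c, hc⟩ := huniq 1 0 _ one_ne_zero kp_zero h1
  have h2 : IsUnit (1 - (p : ℤ_[p])) :=
    IsLocalRing.isUnit_one_sub_self_of_mem_nonunits _ PadicInt.prime_p.not_isUnit
  obtain ⟨r, hr⟩ := h2.exists_left_inv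
  refine ⟨-(r * c), fun v => ?_⟩
  have h3 := hc v
  rw [Pi.smul_apply, Pi.zero_apply, sub_zero, nsmul_eq_mul, Nat.cast_sub hp.one_le,
    Nat.cast_one] at h3
  linear_combination -(κ v) * hr - r * h3

end KP

theorem fm_cancel (i j : ℕ) (x : ℤ_[p]) : fm (i + j) ((p : ℤ_[p]) ^ j * x) = fm i x := by
  rw [← fm_smul, ← fm_pow i j x, ← Nat.cast_pow, Nat.cast_smul_eq_nsmul]

theorem sc_cancel {G : Type*} [Group G] (κ θ : G → ℤ_[p]) (i j : ℕ) :
    sc ((p ^ j) • κ) θ (i + j) = sc κ θ i := by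
  funext g h
  rw [sc_apply, sc_apply, Pi.smul_apply, nsmul_eq_mul, Nat.cast_pow, mul_assoc, fm_cancel]

/-- products with `w ^ n` times a root of unity -/
theorem sc_split {V : Type} [Group V] [TopologicalSpace V] [IsTopologicalGroup V]
    [CompactSpace V] [NonarchimedeanGroup V] {k Ω : Type} [Field k] [Field Ω] [Algebra k Ω]
    {e : V →* (Ω ≃ₐ[k] Ω)} {z : ℕ → Ω} {χ : V →* ℤ_[p]ˣ} (hχ : Continuous χ) (h5 : StSC)
    {θ : V → ℤ_[p]} (hθ : IsHom θ)
    (hmul : ∀ (a b : Ω) (κ μ : V → ℤ_[p]), a ≠ 0 → b ≠ 0 → IsKP e z a κ →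
      IsKP e z b μ → IsKP e z (a * b) (κ + μ))
    (huniq : ∀ (a : Ω) (κ μ : V → ℤ_[p]), a ≠ 0 → IsKP e z a κ → IsKP e z a μ →
      ∃ c : ℤ_[p], ∀ v, μ v - κ v = (chZ χ v - 1) * c)
    {a v w : Ω} {κ μ ν : V → ℤ_[p]} (hv : v ≠ 0) (hw : w ≠ 0) (n : ℕ) (ha : a = v * w ^ n)
    (hvt : v ^ (p - 1) = 1) (hκ : IsKP e z a κ) (hμ : IsKP e z w μ) (hν : IsKP e z v ν) (m : ℕ) :
    sc κ θ m - sc (n • μ) θ m ∈ BKND.B2 (actA χ) := by
  obtain ⟨-, hadd, -, hcob, -, -⟩ := h5 p V χ hχ θ hθ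
  have hvw : IsKP e z a (ν + n • μ) := by
    rw [ha]
    exact hmul _ _ _ _ hv (pow_ne_zero _ hw) hν (kp_pow hmul hw hμ n)
  have ha0 : a ≠ 0 := by
    rw [ha]
    exact mul_ne_zero hv (pow_ne_zero _ hw)
  obtain ⟨c, hc⟩ := huniq _ _ _ ha0 hvw hκ
  obtain ⟨c', hc'⟩ := kp_tors (χ := fun v => chZ χ v) hmul huniq hv hν hvt
  have e1 : κ = n • μ + fun g => (chZ χ g - 1) * (c + c') := by
    funext g
    have h1 := hc g
    have h2 := hc' g
    rw [Pi.add_apply] at h1 ⊢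
    linear_combination h1 + h2
  rw [e1, hadd, add_sub_cancel_left]
  exact hcob _ (c + c') (fun _ => rfl) m

/-! ### units -/

/-- a unit as an element of the algebraic closure -/
def io (u : ℤ_[p]ˣ) : PadicAlgCl p :=
  algebraMap ℚ_[p] (PadicAlgCl p) ((u : ℤ_[p]ˣ) : ℤ_[p])

theorem io_mul (u v : ℤ_[p]ˣ) : io (u * v) = io u * io v := by
  unfold io
  rw [← map_mul]
  congr 1

theorem io_one : io (1 : ℤ_[p]ˣ) = 1 := by
  unfold io
  rw [Units.val_one, PadicInt.coe_one, map_one]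

theorem io_pow (u : ℤ_[p]ˣ) (n : ℕ) : io (u ^ n) = io u ^ n := by
  induction n with
  | zero => rw [pow_zero, pow_zero, io_one]
  | succ n ih => rw [pow_succ, pow_succ, io_mul, ih]

theorem io_ne (u : ℤ_[p]ˣ) : io u ≠ 0 := by
  intro h
  have h1 := io_mul u u⁻¹
  rw [mul_inv_cancel, io_one, h, zero_mul] at h1
  exact one_ne_zero h1

theorem io_fx (u : ℤ_[p]ˣ) : Fx (MonoidHom.id (GQ p)) (io u) := fun g => g.commutes _

/-! ### the logarithm -/

theorem lam_pow {lam : ℤ_[p]ˣ → ℤ_[p]} (hl : IsLam lam) (u : ℤ_[p]ˣ) (n : ℕ) :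
    lam (u ^ n) = n * lam u := by
  induction n with
  | zero =>
    have h1 := hl.mul 1 1
    rw [mul_one] at h1
    rw [pow_zero, Nat.cast_zero, zero_mul]
    exact left_eq_add.1 h1
  | succ n ih =>
    rw [pow_succ, hl.mul, ih]
    push_cast
    ring

theorem isUnit_iff_not_dvd {x : ℤ_[p]} : IsUnit x ↔ ¬ (p : ℤ_[p]) ∣ x := by
  rw [← Ideal.mem_span_singleton, ← PadicInt.maximalIdeal_eq_span_p, IsLocalRing.mem_maximalIdeal,
    mem_nonunits_iff, not_not]

/-- a compact set of `p`-adic integers with the multiples of a unit -/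
theorem surj_of {X : Type*} [TopologicalSpace X] [CompactSpace X] {f : X → ℤ_[p]}
    (hf : Continuous f) {c : ℤ_[p]} (hc : IsUnit c) (h : ∀ n : ℕ, ∃ x, f x = n * c) :
    Function.Surjective f := by
  intro y
  obtain ⟨r, hr⟩ := hc.exists_left_inv
  have h1 : IsClosed (Set.range f) := (isCompact_range hf).isClosed
  have h2 : IsClosed ((fun x => x * c) ⁻¹' Set.range f) := h1.preimage (continuous_mul_const c)
  have h3 : Set.range (Nat.cast : ℕ → ℤ_[p]) ⊆ (fun x => x * c) ⁻¹' Set.range f := by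
    rintro _ ⟨n, rfl⟩
    exact h n
  have h4 : (y * r) ∈ (fun x => x * c) ⁻¹' Set.range f :=
    h2.closure_subset_iff.2 h3 (PadicInt.denseRange_natCast (y * r))
  obtain ⟨x, hx⟩ := h4
  refine ⟨x, hx.trans ?_⟩
  show y * r * c = y
  rw [mul_assoc, hr, mul_one]

theorem exists_unit (p : ℕ) [Fact p.Prime] : ∃ u : ℤ_[p]ˣ,
    PadicInt.toZMod ((u : ℤ_[p]ˣ) : ℤ_[p]) = 1 ∧
    PadicInt.toZModPow 2 ((u : ℤ_[p]ˣ) : ℤ_[p]) ≠ 1 := by
  have hp : p.Prime := Fact.out
  have h1 : IsUnit (1 - (p : ℤ_[p])) :=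
    IsLocalRing.isUnit_one_sub_self_of_mem_nonunits _ PadicInt.prime_p.not_isUnit
  refine ⟨h1.unit, ?_, ?_⟩
  · rw [IsUnit.unit_spec, map_sub, map_one, map_natCast, ZMod.natCast_self, sub_zero]
  · rw [IsUnit.unit_spec, map_sub, map_one, map_natCast]
    intro h2
    have h3 : ((p : ℕ) : ZMod (p ^ 2)) = 0 := by
      have : (1 : ZMod (p ^ 2)) - ((p : ℕ) : ZMod (p ^ 2)) = 1 - 0 := by rw [h2, sub_zero]
      exact sub_right_injective this
    rw [ZMod.natCast_eq_zero_iff] at h3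
    have h4 := Nat.le_of_dvd hp.pos h3
    have h5 := hp.two_le
    nlinarith

end RPBAux

open RPBAux

/-- Module RPB: products with the Kummer cocycles of units for `l = p`. -/
theorem stRPb (h1 : StRPa) (h2 : StCyP) (h3 : StLam) (h4 : StKPE) (h5 : StSC) (h6 : StPA)
    (h7 : StZ1A) (h8 : StNmO) : StRPb := by
  classical
  intro p _ hp2 lam hl z hz u κ hκ m
  have hp : p.Prime := Fact.out
  obtain ⟨-, hL⟩ := h3 p hp2
  obtain ⟨-, hLp, hL0, -, hL4⟩ := hL lam hl
  obtain ⟨hχ, -, hex, -, hmul, huniq⟩ := h4 p ℚ_[p] (PadicAlgCl p) (GQ p)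
    (MonoidHom.id (GQ p)) continuous_id z hz
  have hcy : (cy p ℚ_[p] (PadicAlgCl p)).comp (MonoidHom.id (GQ p)) = cyL p p :=
    MonoidHom.comp_id _
  rw [hcy] at hχ huniq
  have hθ : IsHom (fun g : GQ p => lam (cyL p p g)) :=
    ⟨hl.cont.comp hχ, fun g h => by rw [map_mul, hl.mul]⟩
  obtain ⟨-, hadd, hpow, hcob, -, hdvd⟩ := h5 p (GQ p) (cyL p p) hχ _ hθ
  have hex' : ∀ u : ℤ_[p]ˣ, ∃ κ : GQ p → ℤ_[p], IsKP (MonoidHom.id (GQ p)) z (io u) κ :=
    fun u => hex _ (io_ne u) (io_fx u)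
  have hsplit : ∀ (u v w : ℤ_[p]ˣ) (n : ℕ), u = v * w ^ n → v ^ (p - 1) = 1 →
      ∀ κ μ : GQ p → ℤ_[p], IsKP (MonoidHom.id (GQ p)) z (io u) κ →
      IsKP (MonoidHom.id (GQ p)) z (io w) μ → ∀ m,
      sc κ (fun g => lam (cyL p p g)) m - sc (n • μ) (fun g => lam (cyL p p g)) m ∈
        BKND.B2 (actA (cyL p p)) := by
    intro u v w n hu hv κ μ hκ hμ m
    obtain ⟨ν, hν⟩ := hex' v
    exact sc_split hχ h5 hθ hmul huniq (io_ne v) (io_ne w) n (by rw [hu, io_mul, io_pow])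
      (by rw [← io_pow, hv, io_one]) hκ hμ hν m
  constructor
  · intro hB
    by_contra hnd
    -- the valuation of `lam u`
    have hex2 : ∃ i, ¬ (p : ℤ_[p]) ^ i ∣ lam u := ⟨m, hnd⟩
    have hspec := Nat.find_spec hex2
    have hle : Nat.find hex2 ≤ m := Nat.find_min' hex2 hnd
    have hne0 : Nat.find hex2 ≠ 0 := by
      intro h0
      rw [h0, pow_zero] at hspec
      exact hspec (one_dvd _)
    obtain ⟨j, hj⟩ := Nat.exists_eq_succ_of_ne_zero hne0
    have hjd : (p : ℤ_[p]) ^ j ∣ lam u := by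
      have := Nat.find_min hex2 (m := j) (by omega)
      rwa [not_not] at this
    rw [hj] at hspec hle
    obtain ⟨v, w, hv, huw⟩ := (hL4 u j).1 hjd
    have hlw : ¬ (p : ℤ_[p]) ∣ lam w := by
      intro hd
      apply hspec
      have e1 : lam u = (p : ℤ_[p]) ^ j * lam w := by
        rw [huw, hl.mul, (hL0 v).2 hv, zero_add, hLp]
        push_cast
        ring
      rw [e1, Nat.succ_eq_add_one, pow_succ]
      exact mul_dvd_mul_left _ hd
    obtain ⟨μ, hμ⟩ := hex' w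
    obtain ⟨i, hi⟩ : ∃ i, m = (1 + i) + j := ⟨m - (1 + j), by omega⟩
    have hB1 : sc μ (fun g => lam (cyL p p g)) 1 ∈ BKND.B2 (actA (cyL p p)) := by
      have h9 := hsplit u v w (p ^ j) huw hv κ μ hκ hμ m
      have h10 := sub_mem hB h9
      rw [sub_sub_cancel, hi, sc_cancel] at h10
      rw [← hpow μ 1 i]
      exact AddSubgroup.nsmul_mem _ h10 _
    -- the homomorphism is surjective
    have hsurj : Function.Surjective (fun g : GQ p => lam (cyL p p g)) := by
      refine surj_of hθ.cont (isUnit_iff_not_dvd.2 hlw) fun n => ?_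
      obtain ⟨g, hg⟩ := h2 p (w ^ n)
      exact ⟨g, by
        show lam (cyL p p g) = _
        rw [hg, hLp]⟩
    obtain ⟨σ, hσ⟩ := hsurj 1
    have hσ' : lam (cyL p p σ) = 1 := hσ
    let Θ : GQ p →* Multiplicative (ZMod p) :=
      { toFun := fun g => Multiplicative.ofAdd (PadicInt.toZMod (lam (cyL p p g)))
        map_one' := by
          rw [map_one]
          have h11 := hL lam hl
          rw [h11.1, map_zero]
          rfl
        map_mul' := fun g h => by
          rw [map_mul, hl.mul, map_add, ofAdd_add] }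
    have hΘ : ∀ g, g ∈ Θ.ker ↔ (p : ℤ_[p]) ∣ lam (cyL p p g) := by
      intro g
      rw [MonoidHom.mem_ker]
      show Multiplicative.ofAdd (PadicInt.toZMod (lam (cyL p p g))) = 1 ↔ _
      rw [ofAdd_eq_one, ← RingHom.mem_ker, PadicInt.ker_toZMod, PadicInt.maximalIdeal_eq_span_p,
        Ideal.mem_span_singleton]
    have hopen : IsOpen (Θ.ker : Set (GQ p)) := by
      have h12 : (Θ.ker : Set (GQ p)) = (fun g : GQ p => fm 1 (lam (cyL p p g))) ⁻¹' {0} := by
        ext g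
        rw [SetLike.mem_coe, hΘ, Set.mem_preimage, Set.mem_singleton_iff, fm_eq_zero, pow_one]
      rw [h12]
      exact ((fm_locallyConstant 1).comp_continuous hθ.cont).isOpen_fiber 0
    have hidx : Θ.ker.index = p := by
      rw [Subgroup.index_ker, MonoidHom.range_eq_top.2, Subgroup.card_top]
      · rw [Nat.card_congr Multiplicative.toAdd, Nat.card_zmod]
      · intro y
        obtain ⟨x, hx⟩ := ZMod.ringHom_surjective (PadicInt.toZMod (p := p)) (Multiplicative.toAdd y)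
        obtain ⟨g, hg⟩ := hsurj x
        refine ⟨g, ?_⟩
        show Multiplicative.ofAdd (PadicInt.toZMod (lam (cyL p p g))) = y
        rw [show lam (cyL p p g) = x from hg, hx]
        rfl
    have hσH : σ ∉ Θ.ker := by
      rw [hΘ, hσ']
      exact fun h => PadicInt.prime_p.not_isUnit (isUnit_of_dvd_one h)
    have hnm : ∀ (Y : PadicAlgCl p) (μ : GQ p → ℤ_[p]), Y ≠ 0 → Fx (MonoidHom.id (GQ p)) Y →
        IsKP (MonoidHom.id (GQ p)) z Y μ →
        sc μ (fun g => lam (cyL p p g)) 1 ∈ BKND.B2 (actA (cyL p p)) →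
        IsNm (MonoidHom.id (GQ p)) p Θ.ker σ Y := by
      intro Y μ hY hF hμ hsc
      exact h8 p ℚ_[p] (PadicAlgCl p) (GQ p) (MonoidHom.id (GQ p))
        Topology.IsOpenEmbedding.id z hz _ hθ σ hσ' Θ.ker hΘ Y hY hF μ hμ (by rw [hcy]; exact hsc)
    -- the groups of fixed elements and norms
    let S : Subgroup (PadicAlgCl p)ˣ :=
      { carrier := {Y | Fx (MonoidHom.id (GQ p)) (Y : PadicAlgCl p)}
        one_mem' := fun g => map_one _
        mul_mem' := fun {a b} ha hb g => by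
          rw [Units.val_mul, map_mul, ha g, hb g]
        inv_mem' := fun {a} ha g => by
          rw [Units.val_inv_eq_inv_val, map_inv₀, ha g] }
    let T : Subgroup (PadicAlgCl p)ˣ :=
      { carrier := {Y | IsNm (MonoidHom.id (GQ p)) p Θ.ker σ (Y : PadicAlgCl p)}
        one_mem' := ⟨1, one_ne_zero, fun _ _ => map_one _, by simp⟩
        mul_mem' := by
          rintro a b ⟨c, hc0, hc, hc'⟩ ⟨d, hd0, hd, hd'⟩
          refine ⟨c * d, mul_ne_zero hc0 hd0, fun h hh => by rw [map_mul, hc h hh, hd h hh], ?_⟩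
          rw [Units.val_mul, ← hc', ← hd', ← Finset.prod_mul_distrib]
          exact Finset.prod_congr rfl fun i _ => map_mul _ _ _
        inv_mem' := by
          rintro a ⟨c, hc0, hc, hc'⟩
          refine ⟨c⁻¹, inv_ne_zero hc0, fun h hh => by rw [map_inv₀, hc h hh], ?_⟩
          rw [Units.val_inv_eq_inv_val, ← hc', ← Finset.prod_inv_distrib]
          exact Finset.prod_congr rfl fun i _ => map_inv₀ _ _ }
    have hST := stNorm p (GQ p) (MonoidHom.id (GQ p)) Topology.IsOpenEmbedding.id Θ.ker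
      (MonoidHom.normal_ker Θ) hopen hidx σ hσH S T (fun _ => Iff.rfl) (fun _ => Iff.rfl)
    have hpT : ∃ P ∈ T, (P : PadicAlgCl p) = p := by
      have hp0 : (p : PadicAlgCl p) ≠ 0 := by exact_mod_cast hp.ne_zero
      have hpF : Fx (MonoidHom.id (GQ p)) (p : PadicAlgCl p) := fun g => map_natCast _ _
      obtain ⟨μ, hμ⟩ := hex _ hp0 hpF
      exact ⟨Units.mk0 _ hp0, hnm _ μ hp0 hpF hμ (h1 p hp2 lam hl z hz μ hμ 1), rfl⟩
    have hwT : IsNm (MonoidHom.id (GQ p)) p Θ.ker σ (io w) := hnm _ μ (io_ne w) (io_fx w) hμ hB1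
    have hmemT : ∀ x : ℤ_[p]ˣ, Units.mk0 (io x) (io_ne x) ∈ T := by
      intro x
      -- `x w ^ b` has logarithm divisible by `p`
      obtain ⟨b, hb⟩ : ∃ b : ℕ, (p : ℤ_[p]) ∣ lam (x * w ^ b) := by
        have h13 : PadicInt.toZMod (lam w) ≠ 0 := by
          intro h0
          rw [← RingHom.mem_ker, PadicInt.ker_toZMod, PadicInt.maximalIdeal_eq_span_p,
            Ideal.mem_span_singleton] at h0
          exact hlw h0
        refine ⟨(-(PadicInt.toZMod (lam x)) / PadicInt.toZMod (lam w)).val, ?_⟩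
        rw [hl.mul, hLp, ← Ideal.mem_span_singleton, ← PadicInt.maximalIdeal_eq_span_p,
          ← PadicInt.ker_toZMod, RingHom.mem_ker, map_add, map_mul, map_natCast,
          ZMod.natCast_val, ZMod.cast_id, div_mul_cancel₀ _ h13, add_neg_cancel]
      obtain ⟨v', x', hv', hx'⟩ := (hL4 (x * w ^ b) 1).1 (by rwa [pow_one])
      have e2 : x * w ^ b = (v' * x') ^ p := by
        rw [hx', pow_one, mul_pow, ← pow_sub_one_mul hp.ne_zero v', hv', one_mul]
      have h14 : Units.mk0 (io ((v' * x') ^ p)) (io_ne _) ∈ T := by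
        refine ⟨io (v' * x'), io_ne _, fun h _ => io_fx _ h, ?_⟩
        show _ = io ((v' * x') ^ p)
        rw [io_pow]
        have h15 : ∀ i ∈ Finset.range p, (MonoidHom.id (GQ p)) (σ ^ i) (io (v' * x')) =
            io (v' * x') := fun i _ => io_fx _ _
        rw [Finset.prod_congr rfl h15, Finset.prod_const, Finset.card_range]
      have h16 : Units.mk0 (io w) (io_ne w) ∈ T := hwT
      have e3 : Units.mk0 (io x) (io_ne x) =
          Units.mk0 (io ((v' * x') ^ p)) (io_ne _) * (Units.mk0 (io w) (io_ne w) ^ b)⁻¹ := by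
        rw [eq_mul_inv_iff_mul_eq]
        apply Units.ext
        rw [Units.val_mul, Units.val_pow_eq_pow_val, Units.val_mk0, Units.val_mk0, Units.val_mk0,
          ← e2, io_mul, io_pow]
      rw [e3]
      exact T.mul_mem h14 (T.inv_mem (T.pow_mem h16 b))
    have hle' : S ≤ T := by
      intro Y hY
      have hY' : ∀ g : GQ p, g (Y : PadicAlgCl p) = Y := fun g => hY g
      obtain ⟨y, hy⟩ := (InfiniteGalois.mem_range_algebraMap_iff_fixed (k := ℚ_[p])
        (Y : PadicAlgCl p)).2 hY'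
      have hy0 : y ≠ 0 := by
        rintro rfl
        rw [map_zero] at hy
        exact Y.ne_zero hy.symm
      obtain ⟨P, hPT, hP⟩ := hpT
      have hp0 : (p : ℚ_[p]) ≠ 0 := by exact_mod_cast hp.ne_zero
      have hnorm : ‖y * (p : ℚ_[p]) ^ (-y.valuation)‖ = 1 := by
        have hpr : (p : ℝ) ≠ 0 := by exact_mod_cast hp.ne_zero
        rw [norm_mul, norm_zpow, Padic.norm_p, Padic.norm_eq_zpow_neg_valuation hy0, inv_zpow,
          zpow_neg, inv_inv, mul_comm, mul_inv_cancel₀ (zpow_ne_zero _ hpr)]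
      have e4 : Y = Units.mk0 (io (PadicInt.mkUnits hnorm)) (io_ne _) * P ^ y.valuation := by
        apply Units.ext
        rw [Units.val_mul, Units.val_zpow_eq_zpow_val, hP, Units.val_mk0, ← hy]
        unfold io
        rw [PadicInt.mkUnits_eq, map_mul, map_zpow₀, map_natCast, mul_assoc,
          ← zpow_add₀ (by exact_mod_cast hp.ne_zero), neg_add_cancel, zpow_zero, mul_one]
      rw [e4]
      exact T.mul_mem (hmemT _) (T.zpow_mem hPT _)
    rw [Subgroup.relIndex_eq_one.2 hle'] at hST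
    exact hp.one_lt.ne hST
  · intro hd
    obtain ⟨v, w, hv, huw⟩ := (hL4 u m).1 hd
    obtain ⟨μ, hμ⟩ := hex' w
    have h9 := hsplit u v w (p ^ m) huw hv κ μ hκ hμ m
    rw [hdvd ((p ^ m) • μ) m (fun g => ⟨μ g, by rw [Pi.smul_apply, nsmul_eq_mul, Nat.cast_pow]⟩),
      sub_zero] at h9
    exact h9

end BKLoc2
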