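import Pool.Agent.Lib.MP_7c08ba_nt.Met.StF
import Pool.Agent.Lib.MP_7c08ba_nt.Met.HCY
import Pool.Agent.Lib.MP_7c08ba_nt.Met.LPA
import Pool.Agent.Lib.MP_7c08ba_nt.Met.LRPB

set_option autoImplicit false

/-! Parity without rigidity, assembly: the line `H²(ℚ_p, 𝔽_p(1))`. -/

noncomputable section

namespace BKMet

open BKLoc2 (cl sc im cy cyL Sys IsKP IsLam IsHom)
open BKOdd (chZ chm)

namespace FLINEQ

variable {p : ℕ} [Fact p.Prime]

theorem cont_toZMod : Continuous (PadicInt.toZMod : ℤ_[p] →+* ZMod p) := by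
  refine IsLocallyConstant.continuous ((IsLocallyConstant.iff_eventually_eq _).2 fun x => ?_)
  filter_upwards [Metric.ball_mem_nhds x one_pos] with y hy
  rw [← sub_eq_zero, ← map_sub, ← RingHom.mem_ker, PadicInt.ker_toZMod,
    PadicInt.maximalIdeal_eq_span_p]
  rw [Metric.mem_ball, dist_eq_norm] at hy
  have h1 := (PadicInt.norm_lt_one_iff_dvd (y - x)).1 hy
  exact Ideal.mem_span_singleton.2 h1

/-- the product of a cocycle with a homomorphism -/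
theorem prod_Z2 {V : Type*} [Group V] [TopologicalSpace V] {χ : V →* ℤ_[p]ˣ}
    {κ θ : V → ℤ_[p]} (hκ : κ ∈ CC.Z1 (chZ χ)) (hθ : IsHom θ) :
    (fun g h => κ g * θ h) ∈ CC.Z2 (chZ χ) := by
  obtain ⟨h1, h2⟩ := hκ
  refine ⟨(h1.comp continuous_fst).mul (hθ.cont.comp continuous_snd), fun g h k => ?_⟩
  change chZ χ g * (κ h * θ k) + κ g * θ (h * k) = κ (g * h) * θ k + κ g * θ h
  rw [h2, hθ.mul]
  ring

theorem red_Z2 {V : Type*} [Group V] [TopologicalSpace V] {χ : V →* ℤ_[p]ˣ}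
    {z : V → V → ℤ_[p]} (hz : z ∈ CC.Z2 (chZ χ)) :
    (fun g h => PadicInt.toZMod (z g h)) ∈ CC.Z2 (chm χ) := by
  obtain ⟨h1, h2⟩ := hz
  refine ⟨cont_toZMod.comp h1, fun g h k => ?_⟩
  have h3 := congrArg (PadicInt.toZMod : ℤ_[p] →+* ZMod p) (h2 g h k)
  rw [map_add, map_add, map_mul] at h3
  exact h3

end FLINEQ

open FLINEQ

/-- Module LINEQ: the line `H²(ℚ_p, 𝔽_p(1))`. -/
theorem stLineQ (h1 : BKLoc2.StLnX) (h2 : BKLoc2.StRPb) (h3 : BKLoc2.StKPE)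
    (h4 : BKLoc2.StPA) (h5 : BKLoc2.StLam) : StLineQ := by
  intro p _ hp
  have hna : NonarchimedeanGroup (GQ p) :=
    { is_nonarchimedean := by
        intro U hU
        rw [krullTopology_mem_nhds_one_iff] at hU
        obtain ⟨E, hE, hEU⟩ := hU
        exact ⟨⟨E.fixingSubgroup, E.fixingSubgroup_isOpen⟩, hEU⟩ }
  obtain ⟨⟨lam, hlam⟩, -⟩ := h5 p hp
  obtain ⟨u, hu1, hu2⟩ := BKLoc2.RPBAux.exists_unit p
  have hu := hlam.ne u hu1 hu2
  obtain ⟨z, hz⟩ := (BKGlob2.stCY p ℚ_[p] (PadicAlgCl p) ℚ_[p] (PadicAlgCl p)).1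
  obtain ⟨hc, -, k1, k2, -, -⟩ := h3 p ℚ_[p] (PadicAlgCl p) (GQ p) (MonoidHom.id (GQ p))
    continuous_id z hz
  have hc' : Continuous (cyL p p) := hc
  obtain ⟨κ, hκ⟩ := k1 _ (BKLoc2.RPBAux.io_ne u) (BKLoc2.RPBAux.io_fx u)
  have hκ1 : κ ∈ CC.Z1 (chZ (cyL p p)) := k2 _ κ (BKLoc2.RPBAux.io_ne u) hκ
  have hθ : IsHom (fun g : GQ p => lam (cyL p p g)) :=
    ⟨hlam.cont.comp hc', fun g h => by rw [map_mul, hlam.mul]⟩
  have hz0 := prod_Z2 hκ1 hθ
  have hr := red_Z2 hz0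
  have hnb : (fun g h => cl p (((κ g * lam (cyL p p h) : ℤ_[p]) : ℚ_[p]) / p)) ∉
      BKND.B2 (actA (cyL p p)) := by
    intro h
    have h6 := (h2 p hp lam hlam z hz u κ hκ 1).1 (by
      have e : sc κ (fun g : GQ p => lam (cyL p p g)) 1 =
          fun g h => cl p (((κ g * lam (cyL p p h) : ℤ_[p]) : ℚ_[p]) / p) := by
        funext g h
        change cl p (((κ g * lam (cyL p p h) : ℤ_[p]) : ℚ_[p]) / (p : ℚ_[p]) ^ 1) = _
        rw [pow_one]
      rw [e]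
      exact h)
    rw [pow_one] at h6
    obtain ⟨w, hw⟩ := h6
    apply hu
    rw [hw, map_mul, map_natCast, ZMod.natCast_self, zero_mul]
  refine ⟨fun g h => κ g * lam (cyL p p h), hz0, fun w hw => ?_, hnb⟩
  refine h1 p p hp (GQ p) (MonoidHom.id (GQ p)) Topology.IsOpenEmbedding.id _ hr w hw ?_
  intro hB
  apply hnb
  have h7 := (h4 p (GQ p) (cyL p p) hc').2.2.1 _ hB
  have e : im (fun g h : GQ p => PadicInt.toZMod (κ g * lam (cyL p p h))) =
      fun g h => cl p (((κ g * lam (cyL p p h) : ℤ_[p]) : ℚ_[p]) / p) := by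
    funext g h
    exact (BKLoc2.PAAux.j_toZMod (κ g * lam (cyL p p h))).symm
  rwa [e] at h7

end BKMet
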