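import Pool.Agent.Lib.MP_7c08ba_nt.Met.StF

set_option autoImplicit false

/-!
Metabolic parity, part F, module LOCX: the local theorem at all places.
-/

noncomputable section

namespace BKMet

open BKPar (Loc1 Loc2)
open BKND (Sm)
open Matrix

namespace FLOCX

section Rep

variable {L : Type} [NormedField L] {G : Type} [Group G] {n : ℕ}

theorem dualC_val (V : G →* GL (Fin n) L) (c : G →* G) (B : GL (Fin n) L) (g : G) :
    ((dualC V c B g : GL (Fin n) L) : Matrix (Fin n) (Fin n) L) =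
      (B : Matrix (Fin n) (Fin n) L) * (V (c g) : Matrix (Fin n) (Fin n) L) *
        ((B⁻¹ : GL (Fin n) L) : Matrix (Fin n) (Fin n) L) := rfl

theorem inv_mul_val (B : GL (Fin n) L) : ((B⁻¹ : GL (Fin n) L) : Matrix (Fin n) (Fin n) L) *
    (B : Matrix (Fin n) (Fin n) L) = 1 := by
  rw [← Units.val_mul, inv_mul_cancel, Units.val_one]

theorem mul_inv_val (B : GL (Fin n) L) : (B : Matrix (Fin n) (Fin n) L) *
    ((B⁻¹ : GL (Fin n) L) : Matrix (Fin n) (Fin n) L) = 1 := by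
  rw [← Units.val_mul, mul_inv_cancel, Units.val_one]

theorem continuous_dualC [TopologicalSpace G] {V : G →* GL (Fin n) L} {c : G →* G}
    (hV : Continuous V) (hc : Continuous c) (B : GL (Fin n) L) : Continuous (dualC V c B) := by
  have h1 : Continuous fun g => B * V (c g) * B⁻¹ :=
    (continuous_const.mul (hV.comp hc)).mul continuous_const
  exact h1

theorem noInv_dualC {D : Type} [Group D] {V : G →* GL (Fin n) L} {c : G →* G} {r : D →* G}
    (h : NoInv ((V.comp c).comp r)) (B : GL (Fin n) L) : NoInv ((dualC V c B).comp r) := by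
  intro v hv
  have h1 : ((B⁻¹ : GL (Fin n) L) : Matrix (Fin n) (Fin n) L) *ᵥ v = 0 := by
    apply h
    intro d
    have h2 := hv d
    change ((B : Matrix (Fin n) (Fin n) L) * (V (c (r d)) : Matrix (Fin n) (Fin n) L) *
        ((B⁻¹ : GL (Fin n) L) : Matrix (Fin n) (Fin n) L)) *ᵥ v = v at h2
    change (V (c (r d)) : Matrix (Fin n) (Fin n) L) *ᵥ
      (((B⁻¹ : GL (Fin n) L) : Matrix (Fin n) (Fin n) L) *ᵥ v) = _
    conv_rhs => rw [← h2]
    rw [Matrix.mulVec_mulVec, Matrix.mulVec_mulVec, ← mul_assoc, ← mul_assoc, inv_mul_val,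
      one_mul]
  have h3 : v = (B : Matrix (Fin n) (Fin n) L) *ᵥ
      (((B⁻¹ : GL (Fin n) L) : Matrix (Fin n) (Fin n) L) *ᵥ v) := by
    rw [Matrix.mulVec_mulVec, mul_inv_val, Matrix.one_mulVec]
  rw [h3, h1, Matrix.mulVec_zero]

theorem finrank_B1 [TopologicalSpace G] {V : G →* GL (Fin n) L} (h : NoInv V) :
    Module.finrank L (BKOdd.B1 V) = n := by
  have hinj : Function.Injective (BKOdd.cob V) := by
    rw [← LinearMap.ker_eq_bot, LinearMap.ker_eq_bot']
    intro v hv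
    apply h
    intro g
    have := congrFun hv g
    change (V g : Matrix (Fin n) (Fin n) L) *ᵥ v - v = 0 at this
    exact sub_eq_zero.1 this
  have h1 : Module.finrank L (LinearMap.range (BKOdd.cob V)) = Module.finrank L (Fin n → L) :=
    LinearMap.finrank_range_of_inj hinj
  rw [Module.finrank_fin_fun] at h1
  exact h1

theorem Z1_le_B1 [TopologicalSpace G] {V : G →* GL (Fin n) L} (hV : Continuous V) (h : NoInv V)
    (hfin : FiniteDimensional L (BKOdd.Z1 V)) (hle : Module.finrank L (BKOdd.Z1 V) ≤ n) :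
    BKOdd.Z1 V ≤ BKOdd.B1 V := by
  have h1 : BKOdd.B1 V = BKOdd.Z1 V := by
    apply Submodule.eq_of_le_of_finrank_le (BKOdd.B1_le hV)
    rw [finrank_B1 h]
    exact hle
  exact h1.ge

theorem Z1_le_B1_comp [TopologicalSpace G] {D : Type} [Group D] [TopologicalSpace D]
    {V : G →* GL (Fin n) L} {c : G →* G} {r : D →* G} (B : GL (Fin n) L)
    (h : BKOdd.Z1 ((dualC V c B).comp r) ≤ BKOdd.B1 ((dualC V c B).comp r)) :
    BKOdd.Z1 ((V.comp c).comp r) ≤ BKOdd.B1 ((V.comp c).comp r) := by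
  rintro x ⟨hx, hx'⟩
  have h1 : (fun d => (B : Matrix (Fin n) (Fin n) L) *ᵥ x d) ∈
      BKOdd.Z1 ((dualC V c B).comp r) := by
    refine ⟨Continuous.matrix_mulVec continuous_const hx, fun g h => ?_⟩
    change (B : Matrix (Fin n) (Fin n) L) *ᵥ x (g * h) =
      (B : Matrix (Fin n) (Fin n) L) *ᵥ x g +
      ((B : Matrix (Fin n) (Fin n) L) * (V (c (r g)) : Matrix (Fin n) (Fin n) L) *
        ((B⁻¹ : GL (Fin n) L) : Matrix (Fin n) (Fin n) L)) *ᵥ
          ((B : Matrix (Fin n) (Fin n) L) *ᵥ x h)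
    rw [hx', Matrix.mulVec_add, Matrix.mulVec_mulVec, Matrix.mulVec_mulVec, mul_assoc _ _
      (B : Matrix (Fin n) (Fin n) L), inv_mul_val, mul_one]
    rfl
  obtain ⟨v, hv⟩ := h h1
  refine ⟨((B⁻¹ : GL (Fin n) L) : Matrix (Fin n) (Fin n) L) *ᵥ v, ?_⟩
  funext d
  have h2 := congrFun hv d
  change ((B : Matrix (Fin n) (Fin n) L) * (V (c (r d)) : Matrix (Fin n) (Fin n) L) *
        ((B⁻¹ : GL (Fin n) L) : Matrix (Fin n) (Fin n) L)) *ᵥ v - v =
    (B : Matrix (Fin n) (Fin n) L) *ᵥ x d at h2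
  change (V (c (r d)) : Matrix (Fin n) (Fin n) L) *ᵥ
    (((B⁻¹ : GL (Fin n) L) : Matrix (Fin n) (Fin n) L) *ᵥ v) -
    ((B⁻¹ : GL (Fin n) L) : Matrix (Fin n) (Fin n) L) *ᵥ v = x d
  have h3 : x d = ((B⁻¹ : GL (Fin n) L) : Matrix (Fin n) (Fin n) L) *ᵥ
      ((B : Matrix (Fin n) (Fin n) L) *ᵥ x d) := by
    rw [Matrix.mulVec_mulVec, inv_mul_val, Matrix.one_mulVec]
  rw [h3, ← h2, Matrix.mulVec_sub, Matrix.mulVec_mulVec, Matrix.mulVec_mulVec, ← mul_assoc,
    ← mul_assoc, inv_mul_val, one_mul]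

end Rep

theorem isDual_loc {p : ℕ} [Fact p.Prime] {L : Type} [NormedField L] [NormedAlgebra ℚ_[p] L]
    {G D : Type} [Group G] [Group D] {n : ℕ} {χ : G →* ℤ_[p]ˣ} {V : G →* GL (Fin n) L}
    {c : G →* G} {B : GL (Fin n) L}
    (h : IsDual χ V (V.comp c) (B : Matrix (Fin n) (Fin n) L)) (r : D →* G) :
    IsDual (χ.comp r) (V.comp r) ((dualC V c B).comp r) 1 := by
  intro d
  have h1 := h (r d)
  change (V (r d) : Matrix (Fin n) (Fin n) L)ᵀ * (B : Matrix (Fin n) (Fin n) L) *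
    (V (c (r d)) : Matrix (Fin n) (Fin n) L) = BKOdd.chL χ L (r d) •
      (B : Matrix (Fin n) (Fin n) L) at h1
  change (V (r d) : Matrix (Fin n) (Fin n) L)ᵀ * 1 * ((B : Matrix (Fin n) (Fin n) L) *
    (V (c (r d)) : Matrix (Fin n) (Fin n) L) *
      ((B⁻¹ : GL (Fin n) L) : Matrix (Fin n) (Fin n) L)) = BKOdd.chL χ L (r d) • 1
  rw [mul_one, ← mul_assoc, ← mul_assoc, h1, smul_mul_assoc, mul_inv_val]

end FLOCX

open FLOCX

/-- Module LOCX. -/
theorem stLocX (h1 : StLV) (h2 : StTri) : StLocX := by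
  intro p _ L _ _ _ ι _ G _ _ _ _ D _ _ _ _ _ r c χ inv δ U hs n V A B hP hN hN'
  have key : ∀ i, LocV (χ.comp (r i)) (δ i) (V.comp (r i)) ((dualC V c B).comp (r i)) := by
    intro i
    refine h1 p L (D i) (χ.comp (r i)) (hs.cont_χ.comp (hs.cont_r i)) (inv i) (δ i) (hs.loc i) n
      (V.comp (r i)) ((dualC V c B).comp (r i)) (hP.cont.comp (hs.cont_r i))
      ((continuous_dualC hP.cont hs.cont_c B).comp (hs.cont_r i)) (isDual_loc hP.dual (r i)) A
      (fun d => hP.tri (r i d)) (U.comap (r i)) (hs.open'.preimage (hs.cont_r i))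
      (fun u hu => hs.fix (r i u) hu) ?_ (hN i) (noInv_dualC (hN' i) B)
    rintro ψ ⟨j, hj⟩ u hu
    obtain ⟨ψj, hψj⟩ := (h2 p L G n V A hP.tri).1 j
    have h3 := hP.triv ψj ⟨j, hψj⟩ (r i u) hu
    have h4 := hj u ⟨_, (hP.tri (r i u) j j).1⟩ rfl
    have h5 := hψj (r i u) ⟨_, (hP.tri (r i u) j j).1⟩ rfl
    apply Units.ext
    have h6 : ((ψ u : (kk p L)ˣ) : kk p L) = ((ψj (r i u) : (kk p L)ˣ) : kk p L) :=
      h4.symm.trans h5
    rw [h6, h3]
  refine ⟨key, fun i hi => ?_⟩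
  have h3 := key i
  have h4 := h3.le
  have h5 := h3.le'
  rw [hi, add_zero, one_mul] at h4 h5
  exact ⟨Z1_le_B1 (hP.cont.comp (hs.cont_r i)) (hN i) h3.fin h4,
    Z1_le_B1_comp B (Z1_le_B1 ((continuous_dualC hP.cont hs.cont_c B).comp (hs.cont_r i))
      (noInv_dualC (hN' i) B) h3.fin' h5)⟩

end BKMet
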