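import Pool.Agent.Lib.MP_7c08ba_nt.Met.StL

set_option autoImplicit false

/-!
Metabolic parity, part L, module LATT: a unimodular lattice and a Lagrangian subspace of its
reduction.
-/

noncomputable section

namespace BKMet

open Matrix

namespace LLATT

/-! ### `p`-adic integers in the ring of integers -/

section

variable (p : ℕ) [Fact p.Prime] (L : Type) [NormedField L] [NormedAlgebra ℚ_[p] L]

/-- `p`-adic integers in the ring of integers -/
def zO : ℤ_[p] →+* OO p L :=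
  ((algebraMap ℚ_[p] L).comp (PadicInt.Coe.ringHom (p := p))).codRestrict (OO p L) (fun x => by
    change ‖algebraMap ℚ_[p] L (x : ℚ_[p])‖ ≤ 1
    rw [norm_algebraMap']
    exact x.2)

theorem coe_zO (x : ℤ_[p]) : ((zO p L x : OO p L) : L) = algebraMap ℚ_[p] L (x : ℚ_[p]) := rfl

theorem res_zO (x : ℤ_[p]) : IsLocalRing.residue (OO p L) (zO p L x) =
    algebraMap (ZMod p) (kk p L) (PadicInt.toZMod x) := by
  have h1 := PadicInt.sub_zmodRepr_mem x
  rw [PadicInt.maximalIdeal_eq_span_p, Ideal.mem_span_singleton] at h1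
  obtain ⟨y, hy⟩ := h1
  have h2 : x = (x.zmodRepr : ℤ_[p]) + (p : ℤ_[p]) * y := by rw [← hy]; ring
  have h3 : IsLocalRing.residue (OO p L) (zO p L x) = ((x.zmodRepr : ℕ) : kk p L) := by
    conv_lhs => rw [h2]
    rw [map_add, map_add, map_mul, map_mul, map_natCast, map_natCast, map_natCast, map_natCast,
      CharP.cast_eq_zero (kk p L) p, zero_mul, add_zero]
  have h4 : PadicInt.toZMod x = ((x.zmodRepr : ℕ) : ZMod p) := by
    conv_lhs => rw [h2]
    rw [map_add, map_mul, map_natCast, map_natCast, CharP.cast_eq_zero (ZMod p) p, zero_mul,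
      add_zero]
  rw [h3, h4, map_natCast]

end

variable {p : ℕ} [Fact p.Prime] {L : Type} [NormedField L] [NormedAlgebra ℚ_[p] L]
  {G : Type} [Group G] {n : ℕ}

/-! ### Vectors and matrices with integral entries -/

/-- a vector with integral entries as a vector over `L` -/
def iv (x : Fin n → OO p L) : Fin n → L := fun i => (x i : L)

theorem iv_add (x y : Fin n → OO p L) : iv (x + y) = iv x + iv y := rfl

theorem iv_sub (x y : Fin n → OO p L) : iv (x - y) = iv x - iv y := rfl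

theorem iv_smul (a : OO p L) (x : Fin n → OO p L) : iv (a • x) = (a : L) • iv x := rfl

theorem iv_zero : iv (0 : Fin n → OO p L) = 0 := rfl

theorem iv_inj {x y : Fin n → OO p L} (h : iv x = iv y) : x = y := by
  funext i
  exact Subtype.ext (congrFun h i)

theorem exists_iv (v : Fin n → L) (h : ∀ i, ‖v i‖ ≤ 1) : ∃ x : Fin n → OO p L, iv x = v :=
  ⟨fun i => ⟨v i, h i⟩, rfl⟩

theorem iv_mulVec (N : Matrix (Fin n) (Fin n) (OO p L)) (x : Fin n → OO p L) :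
    iv (N *ᵥ x) = N.map (OO p L).subtype *ᵥ iv x := by
  funext i
  exact RingHom.map_mulVec (OO p L).subtype N x i

theorem coe_dot (x y : Fin n → OO p L) : ((x ⬝ᵥ y : OO p L) : L) = iv x ⬝ᵥ iv y := by
  exact RingHom.map_dotProduct (OO p L).subtype x y

theorem coe_toL (N : GL (Fin n) (OO p L)) :
    ((toL p L n N : GL (Fin n) L) : Matrix (Fin n) (Fin n) L) =
      (N : Matrix (Fin n) (Fin n) (OO p L)).map (OO p L).subtype := rfl

theorem map_inj {M N : Matrix (Fin n) (Fin n) (OO p L)}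
    (h : M.map (OO p L).subtype = N.map (OO p L).subtype) : M = N := by
  ext i j
  exact congrFun (congrFun h i) j

/-- a representation with integral entries -/
theorem exists_rho (V : G →* GL (Fin n) L)
    (h : ∀ g i j, ‖(V g : Matrix (Fin n) (Fin n) L) i j‖ ≤ 1) :
    ∃ ρ : G →* GL (Fin n) (OO p L), ∀ g, toL p L n (ρ g) = V g := by
  set M : G → Matrix (Fin n) (Fin n) (OO p L) := fun g i j => ⟨(V g : Matrix (Fin n) (Fin n) L) i j,
    h g i j⟩ with hM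
  have hm : ∀ g, (M g).map (OO p L).subtype = (V g : Matrix (Fin n) (Fin n) L) := fun g => rfl
  let F : G →* Matrix (Fin n) (Fin n) (OO p L) :=
    { toFun := M
      map_one' := by
        apply map_inj
        rw [hm, map_one, Matrix.map_one _ (map_zero _) (map_one _)]
        rfl
      map_mul' := fun g h => by
        apply map_inj
        rw [hm, map_mul, Matrix.map_mul, hm, hm]
        rfl }
  refine ⟨F.toHomUnits, fun g => ?_⟩
  apply Units.ext
  exact hm g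

/-! ### The bilinear form -/

theorem dot_tr (M : Matrix (Fin n) (Fin n) L) (X W : Fin n → L) :
    (M *ᵥ X) ⬝ᵥ W = X ⬝ᵥ (Mᵀ *ᵥ W) := by
  rw [dotProduct_mulVec, vecMul_transpose]

/-- the bilinear form with matrix `C` -/
def bf (C : Matrix (Fin n) (Fin n) L) (x y : Fin n → OO p L) : L := iv x ⬝ᵥ (C *ᵥ iv y)

theorem bf_add_left (C : Matrix (Fin n) (Fin n) L) (x x' y : Fin n → OO p L) :
    bf C (x + x') y = bf C x y + bf C x' y := by
  unfold bf
  rw [iv_add, add_dotProduct]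

theorem bf_add_right (C : Matrix (Fin n) (Fin n) L) (x y y' : Fin n → OO p L) :
    bf C x (y + y') = bf C x y + bf C x y' := by
  unfold bf
  rw [iv_add, mulVec_add, dotProduct_add]

theorem bf_smul_left (C : Matrix (Fin n) (Fin n) L) (a : OO p L) (x y : Fin n → OO p L) :
    bf C (a • x) y = a • bf C x y := by
  unfold bf
  rw [iv_smul, smul_dotProduct]
  rfl

theorem bf_smul_right (C : Matrix (Fin n) (Fin n) L) (a : OO p L) (x y : Fin n → OO p L) :
    bf C x (a • y) = a • bf C x y := by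
  unfold bf
  rw [iv_smul, mulVec_smul, dotProduct_smul]
  rfl

theorem bf_comm {C : Matrix (Fin n) (Fin n) L} (hC : Cᵀ = C) (x y : Fin n → OO p L) :
    bf C x y = bf C y x := by
  unfold bf
  rw [dotProduct_mulVec, dotProduct_comm, ← mulVec_transpose, hC]

theorem bf_act {ρ : G →* GL (Fin n) (OO p L)} {c : G →* G} {χ : G →* ℤ_[p]ˣ}
    {C : Matrix (Fin n) (Fin n) L}
    (hd : IsDual χ ((toL p L n).comp ρ) (((toL p L n).comp ρ).comp c) C) (g : G)
    (x y : Fin n → OO p L) :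
    bf C ((ρ g : Matrix (Fin n) (Fin n) (OO p L)) *ᵥ x)
      ((ρ (c g) : Matrix (Fin n) (Fin n) (OO p L)) *ᵥ y) =
      zO p L ((χ g : ℤ_[p]ˣ) : ℤ_[p]) • bf C x y := by
  unfold bf
  have h1 := hd g
  have e1 : iv ((ρ g : Matrix (Fin n) (Fin n) (OO p L)) *ᵥ x) =
      ((toL p L n (ρ g) : GL (Fin n) L) : Matrix (Fin n) (Fin n) L) *ᵥ iv x := iv_mulVec _ _
  have e2 : iv ((ρ (c g) : Matrix (Fin n) (Fin n) (OO p L)) *ᵥ y) =
      ((toL p L n (ρ (c g)) : GL (Fin n) L) : Matrix (Fin n) (Fin n) L) *ᵥ iv y := iv_mulVec _ _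
  have e3 : ((toL p L n (ρ g) : GL (Fin n) L) : Matrix (Fin n) (Fin n) L)ᵀ * C *
      ((toL p L n (ρ (c g)) : GL (Fin n) L) : Matrix (Fin n) (Fin n) L) =
      BKOdd.chL χ L g • C := h1
  rw [e1, e2, mulVec_mulVec, dot_tr, mulVec_mulVec, ← mul_assoc, e3, smul_mulVec, dotProduct_smul]
  rfl

/-! ### The maximal submodule -/

section Max

variable [FiniteDimensional ℚ_[p] L]

theorem exists_max {ρ : G →* GL (Fin n) (OO p L)} {Ψ : (G →* (kk p L)ˣ) → Prop} (hE : Eig ρ Ψ)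
    (c : G →* G) (hc : ∀ g, c (c g) = g) (χ : G →* ℤ_[p]ˣ) {C : Matrix (Fin n) (Fin n) L}
    (hC : Cᵀ = C) (hd : IsDual χ ((toL p L n).comp ρ) (((toL p L n).comp ρ).comp c) C)
    (hΨ : ∀ ψ, Ψ ψ → ∃ g, ((ψ g : (kk p L)ˣ) : kk p L) *
      ((ψ (c g) : (kk p L)ˣ) : kk p L) ≠
        algebraMap (ZMod p) (kk p L) (PadicInt.toZMod ((χ g : ℤ_[p]ˣ) : ℤ_[p])))
    (J : Submodule (OO p L) L) (T₁ : Submodule (OO p L) (Fin n → OO p L)) (N : ℕ)
    (hN : ∀ x : Fin n → OO p L, pi0 p L ^ N • x ∈ T₁)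
    (hs : ∀ g, ∀ x ∈ T₁, (ρ g : Matrix (Fin n) (Fin n) (OO p L)) *ᵥ x ∈ T₁)
    (hJ : ∀ x ∈ T₁, ∀ y ∈ T₁, bf C x y ∈ J) :
    ∃ T : Submodule (OO p L) (Fin n → OO p L), T₁ ≤ T ∧
      (∀ g, ∀ x ∈ T, (ρ g : Matrix (Fin n) (Fin n) (OO p L)) *ᵥ x ∈ T) ∧
      ∀ y, y ∈ T ↔ ∀ x ∈ T, bf C x y ∈ J := by
  obtain ⟨T, ⟨h1, h2, h3⟩, hmax⟩ := (set_has_maximal_iff_noetherian
    (R := OO p L) (M := Fin n → OO p L)).2 inferInstance
    {T | T₁ ≤ T ∧ (∀ g, ∀ x ∈ T, (ρ g : Matrix (Fin n) (Fin n) (OO p L)) *ᵥ x ∈ T) ∧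
      ∀ x ∈ T, ∀ y ∈ T, bf C x y ∈ J} ⟨T₁, le_rfl, hs, hJ⟩
  refine ⟨T, h1, h2, fun y => ⟨fun hy x hx => h3 x hx y hy, fun hy => ?_⟩⟩
  by_contra hcon
  set Q : Submodule (OO p L) (Fin n → OO p L) :=
    { carrier := {y | ∀ x ∈ T, bf C x y ∈ J}
      add_mem' := fun {a b} ha hb x hx => by
        rw [bf_add_right]
        exact J.add_mem (ha x hx) (hb x hx)
      zero_mem' := fun x hx => by
        have e : bf C x 0 = 0 := by
          unfold bf
          rw [iv_zero, mulVec_zero, dotProduct_zero]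
        rw [e]
        exact J.zero_mem
      smul_mem' := fun a b hb x hx => by
        rw [bf_smul_right]
        exact J.smul_mem a (hb x hx) } with hQ
  have hTQ : T < Q := by
    refine lt_of_le_of_ne (fun y hy x hx => h3 x hx y hy) ?_
    intro h
    exact hcon (h ▸ (show y ∈ Q from hy))
  have hQs : ∀ g, ∀ y ∈ Q, (ρ g : Matrix (Fin n) (Fin n) (OO p L)) *ᵥ y ∈ Q := by
    intro g y hy x hx
    have e1 : (ρ (c g) : Matrix (Fin n) (Fin n) (OO p L)) *ᵥ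
        ((ρ (c g)⁻¹ : Matrix (Fin n) (Fin n) (OO p L)) *ᵥ x) = x := by
      rw [mulVec_mulVec, ← Units.val_mul, ← map_mul, mul_inv_cancel, map_one, Units.val_one,
        one_mulVec]
    have e2 := bf_act hd (c g) ((ρ (c g)⁻¹ : Matrix (Fin n) (Fin n) (OO p L)) *ᵥ x) y
    rw [e1, hc] at e2
    rw [e2]
    exact J.smul_mem _ (hy _ (h2 _ _ hx))
  obtain ⟨x, hxQ, hxT, hpx, ψ, hψ, hx⟩ := hE Set.univ T Q (fun g _ => h2 g) (fun g _ => hQs g) hTQ
    ⟨N, fun x => h1 (hN x)⟩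
  have hx' : ∀ g, ∀ a : OO p L, IsLocalRing.residue (OO p L) a = ((ψ g : (kk p L)ˣ) : kk p L) →
      ∃ t ∈ T, (ρ g : Matrix (Fin n) (Fin n) (OO p L)) *ᵥ x = a • x + t := fun g a ha =>
    ⟨_, hx g trivial a ha, by abel⟩
  obtain ⟨g, hg⟩ := hΨ ψ hψ
  obtain ⟨a, ha⟩ := IsLocalRing.residue_surjective ((ψ g : (kk p L)ˣ) : kk p L)
  obtain ⟨a', ha'⟩ := IsLocalRing.residue_surjective ((ψ (c g) : (kk p L)ˣ) : kk p L)
  obtain ⟨t, ht, et⟩ := hx' g a ha
  obtain ⟨t', ht', et'⟩ := hx' (c g) a' ha'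
  have hxx : bf C x x ∈ J := by
    have e1 := bf_act hd g x x
    rw [et, et', bf_add_left, bf_add_right, bf_add_right, bf_smul_left, bf_smul_right,
      bf_smul_left, bf_smul_right] at e1
    have e2 : (zO p L ((χ g : ℤ_[p]ˣ) : ℤ_[p]) - a * a') • bf C x x =
        a • bf C x t' + (a' • bf C t x + bf C t t') := by
      rw [sub_smul, ← e1, mul_smul]
      abel
    have e3 : (zO p L ((χ g : ℤ_[p]ˣ) : ℤ_[p]) - a * a') • bf C x x ∈ J := by
      rw [e2]
      refine J.add_mem (J.smul_mem _ ?_) (J.add_mem (J.smul_mem _ (hxQ t ht)) (h3 t ht t' ht'))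
      rw [bf_comm hC]
      exact hxQ t' ht'
    have e4 : IsUnit (zO p L ((χ g : ℤ_[p]ˣ) : ℤ_[p]) - a * a') := by
      by_contra h5
      have h6 := (IsLocalRing.mem_maximalIdeal _).2 h5
      rw [← IsLocalRing.residue_eq_zero_iff, map_sub, map_mul, ha, ha', res_zO, sub_eq_zero] at h6
      exact hg h6.symm
    obtain ⟨u, hu⟩ := e4
    have e5 := J.smul_mem ((u⁻¹ : (OO p L)ˣ) : OO p L) e3
    rw [← hu, smul_smul, Units.inv_mul, one_smul] at e5
    exact e5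
  have hlt : T < T ⊔ Submodule.span (OO p L) {x} := by
    refine lt_of_le_of_ne le_sup_left fun h => hxT ?_
    rw [h]
    exact Submodule.mem_sup_right (Submodule.mem_span_singleton_self x)
  refine hmax (T ⊔ Submodule.span (OO p L) {x}) ⟨h1.trans hlt.le, ?_, ?_⟩ hlt
  · intro g y hy
    obtain ⟨s, hs, z, hz, rfl⟩ := Submodule.mem_sup.1 hy
    obtain ⟨r, rfl⟩ := Submodule.mem_span_singleton.1 hz
    obtain ⟨b, hb⟩ := IsLocalRing.residue_surjective ((ψ g : (kk p L)ˣ) : kk p L)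
    obtain ⟨w, hw, ew⟩ := hx' g b hb
    rw [mulVec_add, mulVec_smul, ew]
    refine Submodule.add_mem _ (Submodule.mem_sup_left (h2 g s hs)) (Submodule.smul_mem _ _
      (Submodule.add_mem _ (Submodule.mem_sup_right (Submodule.smul_mem _ _
      (Submodule.mem_span_singleton_self x))) (Submodule.mem_sup_left hw)))
  · intro y hy z hz
    obtain ⟨s, hs, y', hy', rfl⟩ := Submodule.mem_sup.1 hy
    obtain ⟨r, rfl⟩ := Submodule.mem_span_singleton.1 hy'
    obtain ⟨s', hs', z', hz', rfl⟩ := Submodule.mem_sup.1 hz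
    obtain ⟨r', rfl⟩ := Submodule.mem_span_singleton.1 hz'
    rw [bf_add_left, bf_add_right, bf_add_right, bf_smul_left, bf_smul_left, bf_smul_right,
      bf_smul_right]
    refine J.add_mem (J.add_mem (h3 s hs s' hs') (J.smul_mem _ (hxQ s hs)))
      (J.add_mem (J.smul_mem _ ?_) (J.smul_mem _ (J.smul_mem _ hxx)))
    rw [bf_comm hC]
    exact hxQ s' hs'

/-! ### Bases of lattices -/

theorem exists_basis (T : Submodule (OO p L) (Fin n → OO p L)) (N : ℕ)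
    (hN : ∀ x : Fin n → OO p L, pi0 p L ^ N • x ∈ T) :
    ∃ P : Matrix (Fin n) (Fin n) (OO p L), P.det ≠ 0 ∧ ∀ x, x ∈ T ↔ ∃ y, P *ᵥ y = x := by
  have h1 : Module.finrank (OO p L) T = n := by
    apply le_antisymm
    · have h2 := T.finrank_le
      rwa [Module.finrank_fin_fun] at h2
    · have hf : Function.Injective ((LinearMap.lsmul (OO p L) (Fin n → OO p L)
          (pi0 p L ^ N)).codRestrict T hN) := by
        intro x y hxy
        have h2 : pi0 p L ^ N • x = pi0 p L ^ N • y := congrArg Subtype.val hxy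
        funext i
        have h3 := congrFun h2 i
        exact mul_left_cancel₀ (pow_ne_zero N (pi0_ne' p L)) h3
      have h2 := LinearMap.finrank_le_finrank_of_injective hf
      rwa [Module.finrank_fin_fun] at h2
  let b := Module.finBasisOfFinrankEq (OO p L) T h1
  have hb : ∀ y : Fin n → OO p L, (Matrix.of (fun i j => (b j : Fin n → OO p L) i)) *ᵥ y =
      ((∑ j, y j • b j : T) : Fin n → OO p L) := by
    intro y
    funext i
    rw [Submodule.coe_sum, Finset.sum_apply]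
    change ∑ j, (b j : Fin n → OO p L) i * y j = _
    refine Finset.sum_congr rfl fun j _ => ?_
    rw [mul_comm]
    rfl
  refine ⟨Matrix.of (fun i j => (b j : Fin n → OO p L) i), ?_, fun x => ⟨fun hx => ?_, ?_⟩⟩
  · intro h2
    obtain ⟨v, hv, hv2⟩ := Matrix.exists_mulVec_eq_zero_iff.2 h2
    rw [hb] at hv2
    have h3 : (∑ j, v j • b j : T) = 0 := Subtype.ext hv2
    have h4 := Fintype.linearIndependent_iff.1 b.linearIndependent v h3
    exact hv (funext h4)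
  · refine ⟨b.repr ⟨x, hx⟩, ?_⟩
    rw [hb, b.sum_repr]
  · rintro ⟨y, rfl⟩
    rw [hb]
    exact Subtype.mem _

/-- a bound of the entries of a matrix -/
theorem exists_bound (X : Matrix (Fin n) (Fin n) L) :
    ∃ s : ℕ, ∀ i j, ‖((pi0 p L : OO p L) : L) ^ s * X i j‖ ≤ 1 := by
  have h0 := pi0_pos p L
  have h1 := pi0_lt p L
  have hB : ∃ B : ℝ, 0 < B ∧ ∀ i j, ‖X i j‖ ≤ B := by
    refine ⟨1 + ∑ i, ∑ j, ‖X i j‖, by positivity, fun i j => ?_⟩
    have h2 : ‖X i j‖ ≤ ∑ j, ‖X i j‖ :=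
      Finset.single_le_sum (f := fun j => ‖X i j‖) (fun _ _ => norm_nonneg _) (Finset.mem_univ j)
    have h3 : ∑ j, ‖X i j‖ ≤ ∑ i, ∑ j, ‖X i j‖ :=
      Finset.single_le_sum (f := fun i => ∑ j, ‖X i j‖)
        (fun _ _ => Finset.sum_nonneg fun _ _ => norm_nonneg _) (Finset.mem_univ i)
    linarith
  obtain ⟨B, hB0, hB⟩ := hB
  obtain ⟨s, hs⟩ := exists_pow_lt_of_lt_one (inv_pos.2 hB0) h1
  refine ⟨s, fun i j => ?_⟩
  rw [norm_mul, norm_pow]
  calc ‖((pi0 p L : OO p L) : L)‖ ^ s * ‖X i j‖ ≤ B⁻¹ * B :=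
        mul_le_mul hs.le (hB i j) (norm_nonneg _) (inv_nonneg.2 hB0.le)
    _ = 1 := inv_mul_cancel₀ hB0.ne'

end Max

/-! ### Change of basis -/

theorem dual_conj {c : G →* G} {χ : G →* ℤ_[p]ˣ} {V : G →* GL (Fin n) L}
    {B C : Matrix (Fin n) (Fin n) L} (hd : IsDual χ V (V.comp c) B) {S : GL (Fin n) L}
    {ρ : G →* GL (Fin n) (OO p L)} (hρ : ∀ g, toL p L n (ρ g) = S * V g * S⁻¹)
    (hC : (S : Matrix (Fin n) (Fin n) L)ᵀ * C * (S : Matrix (Fin n) (Fin n) L) = B) :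
    IsDual χ ((toL p L n).comp ρ) (((toL p L n).comp ρ).comp c) C := by
  intro g
  have h1 : (V g : Matrix (Fin n) (Fin n) L)ᵀ * B * (V (c g) : Matrix (Fin n) (Fin n) L) =
    BKOdd.chL χ L g • B := hd g
  change ((toL p L n (ρ g) : GL (Fin n) L) : Matrix (Fin n) (Fin n) L)ᵀ * C *
      ((toL p L n (ρ (c g)) : GL (Fin n) L) : Matrix (Fin n) (Fin n) L) =
      BKOdd.chL χ L g • C
  rw [hρ, hρ]
  set s : Matrix (Fin n) (Fin n) L := (S : Matrix (Fin n) (Fin n) L) with hs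
  set s' : Matrix (Fin n) (Fin n) L := ((S⁻¹ : GL (Fin n) L) : Matrix (Fin n) (Fin n) L) with hs'
  have hss : s * s' = 1 := Units.mul_inv S
  have hss2 : s'ᵀ * sᵀ = 1 := by rw [← transpose_mul, hss, transpose_one]
  have e1 : ((S * V g * S⁻¹ : GL (Fin n) L) : Matrix (Fin n) (Fin n) L) =
      s * (V g : Matrix (Fin n) (Fin n) L) * s' := rfl
  have e2 : ((S * V (c g) * S⁻¹ : GL (Fin n) L) : Matrix (Fin n) (Fin n) L) =
      s * (V (c g) : Matrix (Fin n) (Fin n) L) * s' := rfl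
  have e3 : C = s'ᵀ * B * s' := by
    rw [← hC]
    calc C = (s'ᵀ * sᵀ) * C * (s * s') := by rw [hss, hss2, one_mul, mul_one]
      _ = _ := by simp only [mul_assoc]
  rw [e1, e2]
  calc (s * (V g : Matrix (Fin n) (Fin n) L) * s')ᵀ * C *
      (s * (V (c g) : Matrix (Fin n) (Fin n) L) * s') =
      s'ᵀ * ((V g : Matrix (Fin n) (Fin n) L)ᵀ * (sᵀ * C * s) *
        (V (c g) : Matrix (Fin n) (Fin n) L)) * s' := by
        rw [transpose_mul, transpose_mul]
        simp only [mul_assoc]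
    _ = BKOdd.chL χ L g • C := by
        rw [hC, h1, e3, mul_smul_comm, smul_mul_assoc]

/-! ### The unimodular lattice -/

theorem bf_map (D : Matrix (Fin n) (Fin n) (OO p L)) (x y : Fin n → OO p L) :
    bf (D.map (OO p L).subtype) x y = ((x ⬝ᵥ (D *ᵥ y) : OO p L) : L) := by
  rw [coe_dot, iv_mulVec]
  rfl

theorem exists_mat (X : Matrix (Fin n) (Fin n) L) (h : ∀ i j, ‖X i j‖ ≤ 1) :
    ∃ D : Matrix (Fin n) (Fin n) (OO p L), D.map (OO p L).subtype = X :=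
  ⟨fun i j => ⟨X i j, h i j⟩, rfl⟩

variable (p L) in
/-- the ring of integers as a submodule -/
def J0 : Submodule (OO p L) L where
  carrier := {x | ‖x‖ ≤ 1}
  add_mem' := fun ha hb => (OO p L).add_mem ha hb
  zero_mem' := (OO p L).zero_mem
  smul_mem' := fun a _ hb => (OO p L).mul_mem a.2 hb

variable (p L) in
/-- the maximal ideal as a submodule -/
def J1 : Submodule (OO p L) L where
  carrier := {x | ‖x‖ < 1}
  add_mem' := fun {a b} ha hb => by
    have hu := BKND.DG.ultra (p := p) L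
    exact (IsUltrametricDist.norm_add_le_max a b).trans_lt (max_lt ha hb)
  zero_mem' := by
    change ‖(0 : L)‖ < 1
    rw [norm_zero]
    exact one_pos
  smul_mem' := fun a b hb => by
    change ‖(a : L) * b‖ < 1
    rw [norm_mul]
    exact mul_lt_one_of_nonneg_of_lt_one_right (OO.norm_le a) (norm_nonneg _) hb

section Core

variable [FiniteDimensional ℚ_[p] L]

theorem core {ρ : G →* GL (Fin n) (OO p L)} {Ψ : (G →* (kk p L)ˣ) → Prop} (hE : Eig ρ Ψ)
    (c : G →* G) (hc : ∀ g, c (c g) = g) (χ : G →* ℤ_[p]ˣ) {C : Matrix (Fin n) (Fin n) L}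
    (hC : Cᵀ = C) (hd : IsDual χ ((toL p L n).comp ρ) (((toL p L n).comp ρ).comp c) C)
    (hΨ : ∀ ψ, Ψ ψ → ∃ g, ((ψ g : (kk p L)ˣ) : kk p L) *
      ((ψ (c g) : (kk p L)ˣ) : kk p L) ≠
        algebraMap (ZMod p) (kk p L) (PadicInt.toZMod ((χ g : ℤ_[p]ˣ) : ℤ_[p])))
    (hCu : IsUnit C.det) (N : ℕ)
    (h1 : ∀ i j, ‖((pi0 p L : OO p L) : L) ^ (2 * N) * C i j‖ ≤ 1)
    (h2 : ∀ w : Fin n → L, (∀ i, ‖((pi0 p L : OO p L) : L) ^ N * (C *ᵥ w) i‖ ≤ 1) →
      ∀ i, ‖w i‖ ≤ 1) :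
    ∃ (Q : GL (Fin n) L) (ρ₁ : G →* GL (Fin n) (OO p L)) (B₀ : Matrix (Fin n) (Fin n) (OO p L)),
      (∀ g, toL p L n (ρ₁ g) = Q⁻¹ * toL p L n (ρ g) * Q) ∧ B₀ᵀ = B₀ ∧ IsUnit B₀.det ∧
      B₀.map (OO p L).subtype =
        (Q : Matrix (Fin n) (Fin n) L)ᵀ * C * (Q : Matrix (Fin n) (Fin n) L) := by
  -- the lattice
  obtain ⟨D, hD⟩ := exists_mat (p := p) (((pi0 p L : OO p L) : L) ^ (2 * N) • C) h1
  obtain ⟨T, hT1, hT2, hT3⟩ := exists_max hE c hc χ hC hd hΨ (J0 p L)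
    (piE p L (Fin n → OO p L) N) N (fun x => ⟨x, rfl⟩)
    (by
      rintro g _ ⟨x, rfl⟩
      refine ⟨(ρ g : Matrix (Fin n) (Fin n) (OO p L)) *ᵥ x, ?_⟩
      change pi0 p L ^ N • ((ρ g : Matrix (Fin n) (Fin n) (OO p L)) *ᵥ x) =
        (ρ g : Matrix (Fin n) (Fin n) (OO p L)) *ᵥ (pi0 p L ^ N • x)
      rw [mulVec_smul])
    (by
      rintro _ ⟨x, rfl⟩ _ ⟨y, rfl⟩
      change bf C (pi0 p L ^ N • x) (pi0 p L ^ N • y) ∈ J0 p L
      have e1 : bf C (pi0 p L ^ N • x) (pi0 p L ^ N • y) =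
          ((x ⬝ᵥ (D *ᵥ y) : OO p L) : L) := by
        rw [← bf_map, hD, bf_smul_left, bf_smul_right]
        unfold bf
        rw [smul_mulVec, dotProduct_smul]
        change ((pi0 p L ^ N : OO p L) : L) * (((pi0 p L ^ N : OO p L) : L) * _) = _ * _
        rw [Subring.coe_pow, two_mul, pow_add]
        ring
      rw [e1]
      exact OO.norm_le _)
  have hN : ∀ x : Fin n → OO p L, pi0 p L ^ N • x ∈ T := fun x => hT1 ⟨x, rfl⟩
  obtain ⟨P, hP, hPT⟩ := exists_basis T N hN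
  have hPL : (P.map (OO p L).subtype).det ≠ 0 := by
    intro h3
    have h4 : (OO p L).subtype P.det = 0 := by
      rw [RingHom.map_det]
      exact h3
    exact hP (Subtype.ext h4)
  obtain ⟨Q, hQ⟩ : ∃ Q : GL (Fin n) L, (Q : Matrix (Fin n) (Fin n) L) =
    P.map (OO p L).subtype := ⟨Matrix.GeneralLinearGroup.mkOfDetNeZero _ hPL, rfl⟩
  have hPv : ∀ y, iv (P *ᵥ y) = (Q : Matrix (Fin n) (Fin n) L) *ᵥ iv y := fun y => by
    rw [hQ, iv_mulVec]
  have hQQ : ((Q⁻¹ : GL (Fin n) L) : Matrix (Fin n) (Fin n) L) *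
    (Q : Matrix (Fin n) (Fin n) L) = 1 := Units.inv_mul Q
  have hes : ∀ j, iv (Pi.single j 1 : Fin n → OO p L) = (Pi.single j 1 : Fin n → L) := by
    intro j
    funext i
    unfold iv
    by_cases hij : i = j
    · subst hij
      rw [Pi.single_eq_same, Pi.single_eq_same]
      rfl
    · rw [Pi.single_eq_of_ne hij, Pi.single_eq_of_ne hij]
      rfl
  -- the representation
  obtain ⟨ρ₁, hρ₁⟩ := exists_rho (p := p) (L := L) (n := n)
    (((MulAut.conj Q⁻¹).toMonoidHom).comp ((toL p L n).comp ρ)) (by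
      intro g i j
      change ‖((Q⁻¹ * toL p L n (ρ g) * (Q⁻¹)⁻¹ : GL (Fin n) L) : Matrix (Fin n) (Fin n) L) i j‖
        ≤ 1
      rw [inv_inv]
      obtain ⟨y, hy⟩ := (hPT _).1 (hT2 g _ ((hPT _).2 ⟨Pi.single j 1, rfl⟩))
      have e1 : (Q : Matrix (Fin n) (Fin n) L) *ᵥ iv y =
          ((toL p L n (ρ g) : GL (Fin n) L) : Matrix (Fin n) (Fin n) L) *ᵥ
            ((Q : Matrix (Fin n) (Fin n) L) *ᵥ Pi.single j 1) := by
        rw [← hes, ← hPv, ← hPv, hy]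
        exact iv_mulVec _ _
      have e2 : iv y = ((Q⁻¹ * toL p L n (ρ g) * Q : GL (Fin n) L) :
          Matrix (Fin n) (Fin n) L) *ᵥ Pi.single j 1 := by
        calc iv y = ((Q⁻¹ : GL (Fin n) L) : Matrix (Fin n) (Fin n) L) *ᵥ
              ((Q : Matrix (Fin n) (Fin n) L) *ᵥ iv y) := by
              rw [mulVec_mulVec, hQQ, one_mulVec]
          _ = _ := by
              rw [e1, mulVec_mulVec, mulVec_mulVec]
              rfl
      have e3 := congrFun e2 i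
      rw [mulVec_single_one] at e3
      change _ = ((Q⁻¹ * toL p L n (ρ g) * Q : GL (Fin n) L) : Matrix (Fin n) (Fin n) L) i j at e3
      rw [← e3]
      exact OO.norm_le (y i))
  have hρ₁' : ∀ g, toL p L n (ρ₁ g) = Q⁻¹ * toL p L n (ρ g) * Q := by
    intro g
    rw [hρ₁]
    change Q⁻¹ * toL p L n (ρ g) * (Q⁻¹)⁻¹ = _
    rw [inv_inv]
  -- the form
  have hX : ∀ i j, ‖((Q : Matrix (Fin n) (Fin n) L)ᵀ * C * (Q : Matrix (Fin n) (Fin n) L)) i j‖
      ≤ 1 := by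
    intro i j
    have h3 : bf C (P *ᵥ Pi.single i 1) (P *ᵥ Pi.single j 1) ∈ J0 p L :=
      (hT3 _).1 ((hPT _).2 ⟨_, rfl⟩) _ ((hPT _).2 ⟨_, rfl⟩)
    have h4 : bf C (P *ᵥ Pi.single i 1) (P *ᵥ Pi.single j 1) =
        ((Q : Matrix (Fin n) (Fin n) L)ᵀ * C * (Q : Matrix (Fin n) (Fin n) L)) i j := by
      unfold bf
      rw [hPv, hPv, hes, hes, dot_tr, mulVec_mulVec, mulVec_mulVec,
        single_one_dotProduct, mulVec_single_one]
      rfl
    rw [← h4]
    exact h3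
  obtain ⟨B₀, hB₀⟩ := exists_mat (p := p) _ hX
  have hsym : B₀ᵀ = B₀ := by
    apply map_inj
    rw [transpose_map, hB₀, transpose_mul, transpose_mul, transpose_transpose, hC, mul_assoc]
  refine ⟨Q, ρ₁, B₀, hρ₁', hsym, ?_, hB₀⟩
  rw [← Matrix.isUnit_iff_isUnit_det, ← Matrix.mulVec_surjective_iff_isUnit]
  intro z
  set X : Matrix (Fin n) (Fin n) L := (Q : Matrix (Fin n) (Fin n) L)ᵀ * C *
    (Q : Matrix (Fin n) (Fin n) L) with hXd
  have hXu : IsUnit X.det := by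
    rw [hXd, det_mul, det_mul, det_transpose]
    have h3 : IsUnit (Q : Matrix (Fin n) (Fin n) L).det :=
      (Matrix.isUnit_iff_isUnit_det _).1 Q.isUnit
    exact (h3.mul hCu).mul h3
  set v : Fin n → L := X⁻¹ *ᵥ iv z with hv
  have hXv : X *ᵥ v = iv z := by
    rw [hv, mulVec_mulVec, Matrix.mul_nonsing_inv _ hXu, one_mulVec]
  set w : Fin n → L := (Q : Matrix (Fin n) (Fin n) L) *ᵥ v with hw
  have hQw : ∀ x', iv (P *ᵥ x') ⬝ᵥ (C *ᵥ w) = ((x' ⬝ᵥ z : OO p L) : L) := by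
    intro x'
    rw [coe_dot, ← hXv, hPv, hw, dot_tr, mulVec_mulVec, mulVec_mulVec]
  have hwi : ∀ i, ‖w i‖ ≤ 1 := by
    refine h2 w fun i => ?_
    obtain ⟨x', hx'⟩ := (hPT _).1 (hN (Pi.single i 1))
    have h3 := hQw x'
    rw [hx', iv_smul, hes, smul_dotProduct, single_one_dotProduct] at h3
    change ((pi0 p L ^ N : OO p L) : L) * _ = _ at h3
    rw [Subring.coe_pow] at h3
    rw [h3]
    exact OO.norm_le _
  obtain ⟨w', hw'⟩ := exists_iv (p := p) w hwi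
  have hw'T : w' ∈ T := by
    rw [hT3]
    intro x hx
    obtain ⟨x', rfl⟩ := (hPT x).1 hx
    have h3 := hQw x'
    have h4 : bf C (P *ᵥ x') w' = ((x' ⬝ᵥ z : OO p L) : L) := by
      rw [← h3]
      unfold bf
      rw [hw']
    rw [h4]
    exact OO.norm_le _
  obtain ⟨y, hy⟩ := (hPT w').1 hw'T
  refine ⟨y, iv_inj ?_⟩
  have h5 : iv y = v := by
    have h6 : (Q : Matrix (Fin n) (Fin n) L) *ᵥ iv y = (Q : Matrix (Fin n) (Fin n) L) *ᵥ v := by
      rw [← hPv, hy, hw']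
    calc iv y = ((Q⁻¹ : GL (Fin n) L) : Matrix (Fin n) (Fin n) L) *ᵥ
              ((Q : Matrix (Fin n) (Fin n) L) *ᵥ iv y) := by
              rw [mulVec_mulVec, hQQ, one_mulVec]
      _ = _ := by rw [h6, mulVec_mulVec, hQQ, one_mulVec]
  rw [iv_mulVec, hB₀, h5, hXv]

end Core

end LLATT

open LLATT in
/-- Module LATT. -/
theorem stLatt (h : StTri) : StLatt := by
  intro p _ L _ _ _ G _ n V A hT c hc χ B hB hBu hd hΨ
  -- the representation in the basis given by `A`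
  obtain ⟨ρ, hρ⟩ := exists_rho (p := p) (L := L) (n := n) (((MulAut.conj A).toMonoidHom).comp V)
    (fun g i j => (hT g i j).1)
  have hρ' : ∀ g, toL p L n (ρ g) = A * V g * A⁻¹ := fun g => hρ g
  have hE : Eig ρ (IsDiag V A) := (h p L G n V A hT).2 A ρ hρ'
  -- the scaling
  set s' : Matrix (Fin n) (Fin n) L := ((A⁻¹ : GL (Fin n) L) : Matrix (Fin n) (Fin n) L) with hs'
  have hss : (A : Matrix (Fin n) (Fin n) L) * s' = 1 := Units.mul_inv A
  have hss' : s' * (A : Matrix (Fin n) (Fin n) L) = 1 := Units.inv_mul A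
  set C₀ : Matrix (Fin n) (Fin n) L := s'ᵀ * B * s' with hC₀
  have hC₀u : IsUnit C₀.det := by
    rw [hC₀, det_mul, det_mul, det_transpose]
    have h3 : IsUnit s'.det := (Matrix.isUnit_iff_isUnit_det _).1 (A⁻¹ : GL (Fin n) L).isUnit
    exact (h3.mul hBu).mul h3
  have hC₀B : (A : Matrix (Fin n) (Fin n) L)ᵀ * C₀ * (A : Matrix (Fin n) (Fin n) L) = B := by
    calc (A : Matrix (Fin n) (Fin n) L)ᵀ * C₀ * (A : Matrix (Fin n) (Fin n) L) =
        (s' * (A : Matrix (Fin n) (Fin n) L))ᵀ * B * (s' * (A : Matrix (Fin n) (Fin n) L)) := by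
          rw [hC₀, transpose_mul]
          simp only [mul_assoc]
      _ = B := by rw [hss', transpose_one, one_mul, mul_one]
  obtain ⟨s, hs⟩ := exists_bound (p := p) C₀
  obtain ⟨t, ht⟩ := exists_bound (p := p) C₀⁻¹
  set ϖ : L := ((pi0 p L : OO p L) : L) with hϖ
  have hϖ0 : ϖ ≠ 0 := pi0_ne p L
  set C : Matrix (Fin n) (Fin n) L := (ϖ ^ (2 * (s + t)))⁻¹ • C₀ with hCd
  let u : Lˣ := Units.mk0 (ϖ ^ (s + t)) (pow_ne_zero _ hϖ0)
  set S₀ : GL (Fin n) L := u • A with hS₀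
  have hS₀c : (S₀ : Matrix (Fin n) (Fin n) L) = ϖ ^ (s + t) • (A : Matrix (Fin n) (Fin n) L) :=
    rfl
  have hS₀i : ((S₀⁻¹ : GL (Fin n) L) : Matrix (Fin n) (Fin n) L) = (ϖ ^ (s + t))⁻¹ • s' := by
    rw [hS₀]
    rfl
  have hCB : (S₀ : Matrix (Fin n) (Fin n) L)ᵀ * C * (S₀ : Matrix (Fin n) (Fin n) L) = B := by
    rw [hS₀c, hCd, transpose_smul, smul_mul_smul_comm, smul_mul_smul_comm, hC₀B]
    have e1 : ϖ ^ (s + t) * (ϖ ^ (2 * (s + t)))⁻¹ * ϖ ^ (s + t) = 1 := by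
      rw [mul_right_comm, ← pow_add, ← two_mul]
      exact mul_inv_cancel₀ (pow_ne_zero _ hϖ0)
    rw [e1, one_smul]
  have hρS : ∀ g, toL p L n (ρ g) = S₀ * V g * S₀⁻¹ := by
    intro g
    rw [hρ']
    apply Units.ext
    change (A : Matrix (Fin n) (Fin n) L) * (V g : Matrix (Fin n) (Fin n) L) * s' =
      (S₀ : Matrix (Fin n) (Fin n) L) * (V g : Matrix (Fin n) (Fin n) L) *
        ((S₀⁻¹ : GL (Fin n) L) : Matrix (Fin n) (Fin n) L)
    rw [hS₀c, hS₀i, smul_mul_assoc, smul_mul_smul_comm, mul_inv_cancel₀ (pow_ne_zero _ hϖ0),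
      one_smul]
  have hCs : Cᵀ = C := by
    rw [hCd, transpose_smul, hC₀, transpose_mul, transpose_mul, transpose_transpose, hB, mul_assoc]
  have hCu : IsUnit C.det := by
    rw [hCd, det_smul]
    exact (IsUnit.mk0 _ (pow_ne_zero _ (inv_ne_zero (pow_ne_zero _ hϖ0)))).mul hC₀u
  have hϖ1 : ‖ϖ‖ ≤ 1 := (pi0_lt p L).le
  obtain ⟨Q, ρ₁, B₀, hρ₁, hsym, hunit, hB₀⟩ := core hE c hc χ hCs (dual_conj hd hρS hCB) hΨ hCu
    (2 * s + t) (by
      intro i j
      have e1 : ϖ ^ (2 * (2 * s + t)) * C i j = ϖ ^ s * (ϖ ^ s * C₀ i j) := by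
        rw [hCd, Matrix.smul_apply, smul_eq_mul]
        have e2 : ϖ ^ (2 * (2 * s + t)) = ϖ ^ (2 * (s + t)) * (ϖ ^ s * ϖ ^ s) := by
          rw [← pow_add, ← pow_add]
          congr 1
          ring
        rw [e2]
        have e3 : ϖ ^ (2 * (s + t)) ≠ 0 := pow_ne_zero _ hϖ0
        field_simp
      rw [e1, norm_mul, norm_pow]
      exact mul_le_one₀ (pow_le_one₀ (norm_nonneg _) hϖ1) (norm_nonneg _) (hs i j))
    (by
      intro w hw
      obtain ⟨z, hz⟩ := exists_iv (p := p) (fun i => ϖ ^ (2 * s + t) * (C *ᵥ w) i) hw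
      obtain ⟨E, hE'⟩ := exists_mat (p := p) (ϖ ^ t • C₀⁻¹) ht
      have hz' : iv z = ϖ ^ (2 * s + t) • (C *ᵥ w) := hz
      have e1 : w = iv (E *ᵥ z) := by
        rw [iv_mulVec, hE', hz', hCd, smul_mulVec, smul_mulVec, smul_smul, mulVec_smul, mulVec_mulVec, Matrix.nonsing_inv_mul _ hC₀u, one_mulVec, smul_smul]
        have e2 : ϖ ^ t * (ϖ ^ (2 * s + t) * (ϖ ^ (2 * (s + t)))⁻¹) = 1 := by
          rw [← mul_assoc, ← pow_add]
          have e3 : t + (2 * s + t) = 2 * (s + t) := by ring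
          rw [e3]
          exact mul_inv_cancel₀ (pow_ne_zero _ hϖ0)
        rw [e2, one_smul]
      intro i
      rw [e1]
      exact OO.norm_le _)
  -- the change of basis
  set S : GL (Fin n) L := Q⁻¹ * S₀ with hS
  have hρ₁S : ∀ g, toL p L n (ρ₁ g) = S * V g * S⁻¹ := by
    intro g
    rw [hρ₁, hρS, hS]
    group
  have hSB : (S : Matrix (Fin n) (Fin n) L)ᵀ * B₀.map (OO p L).subtype *
      (S : Matrix (Fin n) (Fin n) L) = B := by
    have hQS : (Q : Matrix (Fin n) (Fin n) L) * (S : Matrix (Fin n) (Fin n) L) =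
        (S₀ : Matrix (Fin n) (Fin n) L) := by
      have e1 : Q * S = S₀ := by
        rw [hS]
        group
      exact congrArg (fun z : GL (Fin n) L => (z : Matrix (Fin n) (Fin n) L)) e1
    rw [hB₀, ← hCB, ← hQS, transpose_mul]
    simp only [mul_assoc]
  have hE₁ : Eig ρ₁ (IsDiag V A) := (h p L G n V A hT).2 S ρ₁ hρ₁S
  obtain ⟨N, hN1, hN2, hN3⟩ := exists_max hE₁ c hc χ (C := B₀.map (OO p L).subtype)
    (by rw [← transpose_map, hsym]) (dual_conj hd hρ₁S hSB) hΨ (J1 p L)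
    (piE p L (Fin n → OO p L) 1) 1 (fun x => ⟨x, rfl⟩)
    (by
      rintro g _ ⟨x, rfl⟩
      refine ⟨(ρ₁ g : Matrix (Fin n) (Fin n) (OO p L)) *ᵥ x, ?_⟩
      change pi0 p L ^ 1 • ((ρ₁ g : Matrix (Fin n) (Fin n) (OO p L)) *ᵥ x) =
        (ρ₁ g : Matrix (Fin n) (Fin n) (OO p L)) *ᵥ (pi0 p L ^ 1 • x)
      rw [mulVec_smul])
    (by
      rintro _ ⟨x, rfl⟩ y hy
      change bf (B₀.map (OO p L).subtype) (pi0 p L ^ 1 • x) y ∈ J1 p L
      rw [bf_smul_left, bf_map, pow_one]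
      change ‖((pi0 p L * (x ⬝ᵥ (B₀ *ᵥ y)) : OO p L) : L)‖ < 1
      rw [← pi0_dvd]
      exact dvd_mul_right _ _)
  refine ⟨S, ρ₁, B₀, N, hρ₁S, hsym, hunit, hSB, fun x => ?_, hN2, fun y => ?_⟩
  · have h3 := hN1 ⟨x, rfl⟩
    change pi0 p L ^ 1 • x ∈ N at h3
    rwa [pow_one] at h3
  · rw [hN3]
    refine forall₂_congr fun x _ => ?_
    rw [bf_map, pi0_dvd]
    rfl

end BKMet
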