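import Pool.Agent.Lib.MP_7c08ba_nt.Met.StF
import Pool.Agent.Lib.MP_7c08ba_nt.Met.LLATT
import Pool.Agent.Lib.MP_7c08ba_nt.Odd.Conj

set_option autoImplicit false

/-!
Metabolic parity, part F, module PARM: the final assembly, parity of `H¹_f`.
-/

noncomputable section

namespace BKMet

open Matrix BKGen MP_7c08ba.Crys

namespace FPARM

/-- the Galois group of `ℚ_l` is nonarchimedean -/
theorem nonarch (l : ℕ) [Fact l.Prime] : NonarchimedeanGroup (GQ l) where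
  is_nonarchimedean := by
    intro U hU
    rw [krullTopology_mem_nhds_one_iff] at hU
    obtain ⟨E, hE, hEU⟩ := hU
    exact ⟨⟨E.fixingSubgroup, E.fixingSubgroup_isOpen⟩, hEU⟩

/-! ### The global axioms for permuted places -/

section Perm

variable {p : ℕ} [Fact p.Prime] {S : Type} [Fintype S] {G : Type} [Group G]
  [TopologicalSpace G] {D : S → Type} [∀ w, Group (D w)] [∀ w, TopologicalSpace (D w)]

theorem globAx_ext {r r' : ∀ w, D w →* G} {χ : G →* ℤ_[p]ˣ} {U : Subgroup G}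
    (h : ∀ w, r w = r' w) (H : GlobAx p r χ U) : GlobAx p r' χ U := by
  have e : r = r' := funext h
  rw [← e]
  exact H

theorem globAx_perm (e : S ≃ S) {r : ∀ w, D w →* G} {χ : G →* ℤ_[p]ˣ} {U : Subgroup G}
    (H : GlobAx p r χ U) : GlobAx p (D := fun w => D (e w)) (fun w => r (e w)) χ U where
  two := by
    intro k _ _ _ ψ hψ z hz hw
    refine H.two k ψ hψ z hz fun w => ?_
    have h1 := hw (e.symm w)
    have key : ∀ w', w' = w → pb2 (r w') z ∈ BKND.B2 (kch (ψ.comp (r w'))) →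
        pb2 (r w) z ∈ BKND.B2 (kch (ψ.comp (r w))) := by
      rintro w' rfl h
      exact h
    exact key _ (e.apply_symm_apply w) h1
  one := by
    intro k _ _ _ ψ hψ f hf hw
    refine H.one k ψ hψ f hf fun w => ?_
    have h1 := hw (e.symm w)
    have key : ∀ w', w' = w → pb1 (r w') f ∈ BKND.B1 (kch (ψ.comp (r w'))) →
        pb1 (r w) f ∈ BKND.B1 (kch (ψ.comp (r w))) := by
      rintro w' rfl h
      exact h
    exact key _ (e.apply_symm_apply w) h1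
  card := by
    intro k _ _ _ ψ ψ' hψ hψ' hrel
    rw [H.card k ψ ψ' hψ hψ' hrel]
    congr 1
    exact (Equiv.prod_comp e (fun w => Nat.card (BKND.H0 (kch (ψ'.comp (r w)))))).symm

end Perm

/-! ### The conjugate places -/

section Swap

variable {F : Type} [Field F] (c : AlgebraicClosure F ≃+* AlgebraicClosure F) (σ : F ≃+* F)
  (hcs : BKOdd.ConjHyp c σ)

include hcs in
theorem symm_eq (x : AlgebraicClosure F) : c.symm x = c x := by
  rw [RingEquiv.symm_apply_eq, hcs.hc]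

theorem conj_eq_iff (g g' : GF F) (h : ∀ z, g' (c z) = c (g z)) :
    g' = BKOdd.conj c σ hcs.h g := by
  ext x
  rw [BKOdd.Conj.conj_apply, symm_eq c σ hcs, ← h, hcs.hc]

/-- the conjugate places -/
def swapPl (Λ : Pl F) : Pl F where
  ι := Λ.ι
  l := Λ.l
  inj := Λ.inj
  j := fun i => (Λ.j i).comp (c : AlgebraicClosure F →+* AlgebraicClosure F)
  r := fun i => (BKOdd.conj c σ hcs.h).comp (Λ.r i)
  cont := fun i => (BKOdd.Conj.continuous_conjO c σ hcs.h).comp (Λ.cont i)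
  spec := fun i t x => by
    change Λ.j i (c (c (Λ.r i t (c.symm x)))) = t (Λ.j i (c x))
    rw [hcs.hc, Λ.spec, symm_eq c σ hcs]

/-- exchange of the conjugate places -/
def sw (ι : Type) : ι × Bool ≃ ι × Bool where
  toFun w := (w.1, !w.2)
  invFun w := (w.1, !w.2)
  left_inv w := by simp
  right_inv w := by simp

variable {p : ℕ} [Fact p.Prime]

theorem loc_swap (Λ : Pl F) {G : Type} [Group G] (π : GF F →* G) (cG : G →* G)
    (hcG : ∀ g : GF F, cG (π g) = π (BKOdd.conj c σ hcs.h g)) (w : Λ.ι × Bool) :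
    Λ.loc π cG (sw Λ.ι w) = (swapPl c σ hcs Λ).loc π cG w := by
  obtain ⟨i, b⟩ := w
  cases b
  · refine MonoidHom.ext fun t => ?_
    change cG (π (Λ.r i t)) = π (BKOdd.conj c σ hcs.h (Λ.r i t))
    exact hcG _
  · refine MonoidHom.ext fun t => ?_
    change π (Λ.r i t) = cG (π (BKOdd.conj c σ hcs.h (Λ.r i t)))
    rw [hcG, BKOdd.Conj.conj_conj hcs.h hcs.hc]

theorem arith_swap (Λ : Pl F) {χ : GS F Λ.P →* ℤ_[p]ˣ} {cG : GS F Λ.P →* GS F Λ.P}
    {U : Subgroup (GS F Λ.P)} {inv : ∀ i, (GQ (Λ.l i) → GQ (Λ.l i) → QZ p) →+ QZ p}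
    (hcG : ∀ g : GF F, cG (QuotientGroup.mk g) = QuotientGroup.mk (BKOdd.conj c σ hcs.h g))
    (H : ArithAx p Λ χ cG U inv) : ArithAx p (swapPl c σ hcs Λ) χ cG U inv where
  loc := H.loc
  glob := globAx_ext (loc_swap c σ hcs Λ (QuotientGroup.mk' (RS F Λ.P)) cG hcG)
    (globAx_perm (sw Λ.ι) H.glob)
  recip := by
    intro z hz
    have h1 := H.recip z hz
    have e1 : ∀ i, (swapPl c σ hcs Λ).loc (QuotientGroup.mk' (RS F Λ.P)) cG (i, false) =
        Λ.loc (QuotientGroup.mk' (RS F Λ.P)) cG (i, true) := fun i =>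
      (loc_swap c σ hcs Λ (QuotientGroup.mk' (RS F Λ.P)) cG hcG (i, false)).symm
    have e2 : ∀ i, (swapPl c σ hcs Λ).loc (QuotientGroup.mk' (RS F Λ.P)) cG (i, true) =
        Λ.loc (QuotientGroup.mk' (RS F Λ.P)) cG (i, false) := fun i =>
      (loc_swap c σ hcs Λ (QuotientGroup.mk' (RS F Λ.P)) cG hcG (i, true)).symm
    rw [← neg_eq_zero, ← Finset.sum_neg_distrib, ← h1]
    refine Finset.sum_congr rfl fun i _ => ?_
    rw [neg_sub]
    exact congrArg₂ (fun a b => inv i (pb2 (D := GQ (Λ.l i)) a z) - inv i (pb2 b z)) (congrArg DFunLike.coe (e2 i)) (congrArg DFunLike.coe (e1 i))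

end Swap

/-! ### The situation -/

section Sit

variable {p : ℕ} [Fact p.Prime] {F : Type} [Field F] {Λ : Pl F} {χ : GS F Λ.P →* ℤ_[p]ˣ}
  {cG : GS F Λ.P →* GS F Λ.P} {U : Subgroup (GS F Λ.P)}
  {inv : ∀ i, (GQ (Λ.l i) → GQ (Λ.l i) → QZ p) →+ QZ p}

/-- the maps to the quotient -/
abbrev rG (Λ : Pl F) (i : Λ.ι) : GQ (Λ.l i) →* GS F Λ.P :=
  (QuotientGroup.mk' (RS F Λ.P)).comp (Λ.r i)

theorem sit_of (H : ArithAx p Λ χ cG U inv) (hU : IsOpen (U : Set (GS F Λ.P)))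
    (hfix : ∀ u ∈ U, PadicInt.toZMod ((χ u : ℤ_[p]ˣ) : ℤ_[p]) = 1) (hχ : Continuous χ)
    (hcG : Continuous cG) (hcc : ∀ g, cG (cG g) = g) (hχc : ∀ g, χ (cG g) = χ g)
    (hloc : ∀ i, χ.comp (rG Λ i) = cycL p (Λ.l i)) (hp : p ∈ Λ.P) :
    Sit p (rG Λ) cG χ inv (fun i => if Λ.l i = p then 1 else 0) U where
  cont_r := fun i => continuous_quotient_mk'.comp (Λ.cont i)
  cont_c := hcG
  inv_c := hcc
  cont_χ := hχ
  χ_c := hχc
  open' := hU
  fix := hfix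
  loc := fun i => by
    rw [hloc i]
    exact H.loc i
  glob := by
    refine globAx_ext (fun w => ?_) H.glob
    obtain ⟨i, b⟩ := w
    cases b
    · rfl
    · rfl
  recip := H.recip
  sum := by
    obtain ⟨i₀, hi₀⟩ := hp
    rw [Finset.sum_eq_single i₀]
    · rw [if_pos hi₀]
    · intro i _ hi
      rw [if_neg]
      intro h
      exact hi (Λ.inj (h.trans hi₀.symm))
    · intro h
      exact absurd (Finset.mem_univ _) h

end Sit

/-! ### Characters -/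

section Char

variable {p : ℕ} [Fact p.Prime] {L : Type} [NormedField L] [NormedAlgebra ℚ_[p] L]
  {G : Type} [Group G] {n : ℕ}

theorem nsd_of {V : G →* GL (Fin n) L} {A : GL (Fin n) L} (hA : Tri V A) (c : G →* G)
    (χ : G →* ℤ_[p]ˣ) (i : Fin n) (g : G)
    (h : ‖((A * V g * A⁻¹ : GL (Fin n) L) : Matrix (Fin n) (Fin n) L) i i *
        ((A * V (c g) * A⁻¹ : GL (Fin n) L) : Matrix (Fin n) (Fin n) L) i i -
        BKOdd.chL χ L g‖ = 1) (ψ : G →* (kk p L)ˣ)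
    (hψ : ∀ (g : G) (a : OO p L),
      (a : L) = ((A * V g * A⁻¹ : GL (Fin n) L) : Matrix (Fin n) (Fin n) L) i i →
        IsLocalRing.residue (OO p L) a = ((ψ g : (kk p L)ˣ) : kk p L)) :
    ((ψ g : (kk p L)ˣ) : kk p L) * ((ψ (c g) : (kk p L)ˣ) : kk p L) ≠
      algebraMap (ZMod p) (kk p L) (PadicInt.toZMod ((χ g : ℤ_[p]ˣ) : ℤ_[p])) := by
  intro heq
  let a : OO p L := ⟨_, (hA g i i).1⟩
  let a' : OO p L := ⟨_, (hA (c g) i i).1⟩
  let x : OO p L := LLATT.zO p L ((χ g : ℤ_[p]ˣ) : ℤ_[p])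
  have h1 : IsLocalRing.residue (OO p L) a = ((ψ g : (kk p L)ˣ) : kk p L) := hψ g a rfl
  have h2 : IsLocalRing.residue (OO p L) a' = ((ψ (c g) : (kk p L)ˣ) : kk p L) :=
    hψ (c g) a' rfl
  have h3 : IsLocalRing.residue (OO p L) x =
      algebraMap (ZMod p) (kk p L) (PadicInt.toZMod ((χ g : ℤ_[p]ˣ) : ℤ_[p])) :=
    LLATT.res_zO p L _
  have h4 : IsLocalRing.residue (OO p L) (a * a' - x) = 0 := by
    rw [map_sub, map_mul, h1, h2, h3, heq, sub_self]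
  rw [IsLocalRing.residue_eq_zero_iff, OO.mem_max] at h4
  have h5 : ‖((a * a' - x : OO p L) : L)‖ = 1 := h
  rw [h5] at h4
  exact lt_irrefl _ h4

end Char

/-! ### Cocycles of the quotient -/

section Infl

variable {F : Type} [Field F] {P : Set ℕ} {L : Type} [NormedField L] {n : ℕ}

theorem infl_mem_Z1 {V : GF F →* GL (Fin n) L} {VG : GS F P →* GL (Fin n) L}
    (hVG : ∀ g : GF F, VG (QuotientGroup.mk g) = V g) (x : GS F P → Fin n → L) :
    (fun g : GF F => x (QuotientGroup.mk g)) ∈ BKOdd.Z1 V ↔ x ∈ BKOdd.Z1 VG := by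
  constructor
  · rintro ⟨h1, h2⟩
    refine ⟨?_, fun a b => ?_⟩
    · exact (QuotientGroup.isOpenQuotientMap_mk.isQuotientMap.continuous_iff).mpr h1
    · obtain ⟨g, rfl⟩ := QuotientGroup.mk_surjective a
      obtain ⟨h, rfl⟩ := QuotientGroup.mk_surjective b
      have h3 := h2 g h
      rw [← hVG] at h3
      exact h3
  · rintro ⟨h1, h2⟩
    refine ⟨h1.comp continuous_quotient_mk', fun g h => ?_⟩
    have h3 := h2 (QuotientGroup.mk g) (QuotientGroup.mk h)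
    rw [hVG] at h3
    exact h3

end Infl

/-! ### The theorem at one place -/

section Core

theorem core (h2 : StMainX) (h4 : StLineQ) (h7 : StUnrM) (h8 : StCrysM) (h9 : StHodM)
    {p : ℕ} [Fact p.Prime] (hp : p ≠ 2) {F : Type} [Field F] [NumberField F]
    (hF : Module.finrank ℚ F = 2) (c : AlgebraicClosure F ≃+* AlgebraicClosure F) (σ : F ≃+* F)
    (hcs : BKOdd.ConjHyp c σ) {L : Type} [NormedField L] [NormedAlgebra ℚ_[p] L]
    [FiniteDimensional ℚ_[p] L] {n : ℕ} {V : GF F →* GL (Fin n) L} (hV : Continuous V)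
    {A B : GL (Fin n) L}
    (hinv : ∀ (l : ℕ) [Fact l.Prime], l ≠ p → ∀ j : AlgebraicClosure F →+* PadicAlgCl l,
      ∀ v : Fin n → L, (∀ (g : GF F) (t : GQ l), (∀ z, j (g z) = t (j z)) →
        (V g : Matrix (Fin n) (Fin n) L) *ᵥ v = v) → v = 0)
    (hdual : IsDual (cycF p F) V (V.comp (BKOdd.conj c σ hcs.h))
      (B : Matrix (Fin n) (Fin n) L))
    (hDR : ∀ j : AlgebraicClosure F →+* PadicAlgCl p, BKOdd.DeRhamAt j V)
    (hFr : ∀ j : AlgebraicClosure F →+* PadicAlgCl p, BKOdd.FrobAt ⊤ j V)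
    (Λ : Pl F) (hunr : ∀ (l : ℕ) [Fact l.Prime], l ∉ Λ.P →
      ∀ j : AlgebraicClosure F →+* PadicAlgCl l,
      ∀ g ∈ Inert F (AlgebraicClosure F) j, V g = 1)
    (i₀ : Λ.ι) (hi₀ : Λ.l i₀ = p) (j₀ : AlgebraicClosure F →+* PadicAlgCl p)
    (hj₀ : HEq (Λ.j i₀) j₀) (hne : ∃ i, i ≠ i₀)
    [CompactSpace (GS F Λ.P)] [NonarchimedeanGroup (GS F Λ.P)]
    {χ : GS F Λ.P →* ℤ_[p]ˣ} {cG : GS F Λ.P →* GS F Λ.P} {U : Subgroup (GS F Λ.P)}
    {inv : ∀ i, (GQ (Λ.l i) → GQ (Λ.l i) → QZ p) →+ QZ p}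
    (H : ArithAx p Λ χ cG U inv) (hU : IsOpen (U : Set (GS F Λ.P)))
    (hfix : ∀ u ∈ U, PadicInt.toZMod ((χ u : ℤ_[p]ˣ) : ℤ_[p]) = 1) (hχ : Continuous χ)
    (hcG : Continuous cG) (hcc : ∀ g, cG (cG g) = g) (hχc : ∀ g, χ (cG g) = χ g)
    (hcj : ∀ g : GF F, cG (QuotientGroup.mk g) = QuotientGroup.mk (BKOdd.conj c σ hcs.h g))
    (hloc : ∀ i, χ.comp (rG Λ i) = cycL p (Λ.l i))
    {VG : GS F Λ.P →* GL (Fin n) L} (hVG : ∀ g : GF F, VG (QuotientGroup.mk g) = V g)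
    (hpol : Pol VG A cG χ B U)
    (hdesc : ∀ x ∈ BKOdd.Z1 V, (∀ g ∈ RS F Λ.P, x g = 0) → ∃ y ∈ BKOdd.Z1 VG,
      ∀ g : GF F, y (QuotientGroup.mk g) = x g) :
    FiniteDimensional L (BKOdd.H1f p V) ∧
      Module.finrank L (BKOdd.H1f p V) % 2 = BKOdd.tdim j₀ V % 2 := by
  subst hi₀
  obtain rfl := eq_of_heq hj₀
  have hsit := sit_of H hU hfix hχ hcG hcc hχc hloc ⟨i₀, rfl⟩
  have hna : ∀ i, NonarchimedeanGroup (GQ (Λ.l i)) := fun i => nonarch _
  have hcp : ∀ i, CompactSpace (GQ (Λ.l i)) := fun i => inferInstance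
  -- the place above `p`
  obtain ⟨hN1, hN2, s, s', hHP, ht, -⟩ := h9 (Λ.l i₀) F hF c σ hcs L n V hV (Λ.j i₀) (Λ.r i₀)
    (Λ.cont i₀) (Λ.spec i₀) B hdual (hDR _) (hFr _) (hFr _)
  have hVr : ∀ i, VG.comp (rG Λ i) = V.comp (Λ.r i) := fun i =>
    MonoidHom.ext fun t => hVG (Λ.r i t)
  have hVcr : ∀ i, (VG.comp cG).comp (rG Λ i) =
      (V.comp (BKOdd.conj c σ hcs.h)).comp (Λ.r i) := fun i => MonoidHom.ext fun t => by
    change VG (cG (QuotientGroup.mk (Λ.r i t))) = V (BKOdd.conj c σ hcs.h (Λ.r i t))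
    rw [hcj, hVG]
  have hDr : (dualC VG cG B).comp (rG Λ i₀) =
      (dualC V (BKOdd.conj c σ hcs.h) B).comp (Λ.r i₀) := MonoidHom.ext fun t => by
    change MulAut.conj B (VG (cG (QuotientGroup.mk (Λ.r i₀ t)))) =
      MulAut.conj B (V (BKOdd.conj c σ hcs.h (Λ.r i₀ t)))
    rw [hcj, hVG]
  -- no invariants
  have hNI : ∀ i, NoInv (VG.comp (rG Λ i)) := by
    intro i
    rw [hVr i]
    by_cases hi : i = i₀
    · rw [hi]
      exact hN1
    · have hl : Λ.l i ≠ Λ.l i₀ := fun h => hi (Λ.inj h)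
      intro v hv
      refine hinv (Λ.l i) hl (Λ.j i) v fun g t hgt => ?_
      have h1 : g = Λ.r i t := by
        ext z
        apply (Λ.j i).injective
        rw [hgt, Λ.spec]
      rw [h1]
      exact hv t
  have hNI' : ∀ i, NoInv ((VG.comp cG).comp (rG Λ i)) := by
    intro i
    rw [hVcr i]
    by_cases hi : i = i₀
    · rw [hi]
      exact hN2
    · have hl : Λ.l i ≠ Λ.l i₀ := fun h => hi (Λ.inj h)
      intro v hv
      refine hinv (Λ.l i) hl ((Λ.j i).comp (c : AlgebraicClosure F →+* AlgebraicClosure F)) v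
        fun g t hgt => ?_
      have h1 : g = BKOdd.conj c σ hcs.h (Λ.r i t) := by
        refine conj_eq_iff c σ hcs (Λ.r i t) g fun z => ?_
        apply c.injective
        apply (Λ.j i).injective
        have h2 := hgt (c z)
        change Λ.j i (c (g (c z))) = t (Λ.j i (c (c z))) at h2
        rw [h2, hcs.hc, hcs.hc, Λ.spec]
      rw [h1]
      exact hv t
  -- the parity theorem
  have hHP' : BKOdd.HodgePair (BKOdd.chL (χ.comp (rG Λ i₀)) L) (Zf (MonoidHom.id (GQ (Λ.l i₀))))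
      (VG.comp (rG Λ i₀)) ((dualC VG cG B).comp (rG Λ i₀)) s s' := by
    rw [hloc i₀, hVr i₀, hDr]
    exact hHP
  have hline : LineAx (Λ.l i₀) (χ.comp (rG Λ i₀)) := by
    rw [hloc i₀]
    exact h4 (Λ.l i₀) hp
  obtain ⟨hfd, hss, hfd1, hfd2, hs, hs', htriv, hW⟩ := h2 (Λ.l i₀) hp L Λ.ι (GS F Λ.P)
    (fun i => GQ (Λ.l i)) (rG Λ) cG χ inv (fun i => if Λ.l i = Λ.l i₀ then 1 else 0) U hsit n VG
    A B hpol hNI hNI' i₀ (if_pos rfl) hne hline (Zf (MonoidHom.id (GQ (Λ.l i₀)))) s s' hHP'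
  have htd : BKOdd.tdim (Λ.j i₀) V = s := by
    rw [hVr i₀] at hfd1 hs
    exact ht hfd1 hs
  -- the conditions
  have hur := h7 (Λ.l i₀) F hF c σ hcs L n V hV Λ ⟨i₀, rfl⟩ hunr (by
    intro i hi
    have h1 := htriv i (fun h => hi (by rw [h]))
    rw [hVr i, hVcr i] at h1
    exact h1)
  have hcr := h8 (Λ.l i₀) F hF c σ hcs L n V hV (Λ.j i₀) (Λ.r i₀) (Λ.cont i₀) (Λ.spec i₀) B
  let infl : (GS F Λ.P → Fin n → L) →ₗ[L] (GF F → Fin n → L) :=
    LinearMap.funLeft L (Fin n → L) (QuotientGroup.mk : GF F → GS F Λ.P)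
  have hinj : Function.Injective infl :=
    LinearMap.funLeft_injective_of_surjective _ _ _ QuotientGroup.mk_surjective
  have hinfl : ∀ x : GS F Λ.P → Fin n → L, infl x = fun g : GF F => x (QuotientGroup.mk g) :=
    fun x => rfl
  have hWm : ∀ x : GS F Λ.P → Fin n → L, x ∈ (BKOdd.Z1f (Λ.l i₀) V).comap infl ↔
      x ∈ BKOdd.Z1 VG ∧ (fun d => x (rG Λ i₀ d)) ∈
        Zf (MonoidHom.id (GQ (Λ.l i₀))) (VG.comp (rG Λ i₀)) ∧
      (fun d => (B : Matrix (Fin n) (Fin n) L) *ᵥ x (cG (rG Λ i₀ d))) ∈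
        Zf (MonoidHom.id (GQ (Λ.l i₀))) ((dualC VG cG B).comp (rG Λ i₀)) := by
    intro x
    have e1 : (fun d => x (cG (rG Λ i₀ d))) = fun d => infl x (BKOdd.conj c σ hcs.h (Λ.r i₀ d)) := by
      funext d
      change x (cG (QuotientGroup.mk (Λ.r i₀ d))) =
        x (QuotientGroup.mk (BKOdd.conj c σ hcs.h (Λ.r i₀ d)))
      rw [hcj]
    have e2 : (fun d => (B : Matrix (Fin n) (Fin n) L) *ᵥ x (cG (rG Λ i₀ d))) =
        fun d => (B : Matrix (Fin n) (Fin n) L) *ᵥ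
          infl x (BKOdd.conj c σ hcs.h (Λ.r i₀ d)) := by
      funext d
      rw [congrFun e1 d]
    rw [hVr i₀, hDr, e2]
    constructor
    · rintro ⟨hz, -, hc⟩
      exact ⟨(infl_mem_Z1 hVG x).mp hz, (hcr (infl x) hz).mp hc⟩
    · rintro ⟨hz, hc⟩
      have hz' : infl x ∈ BKOdd.Z1 V := (infl_mem_Z1 hVG x).mpr hz
      refine ⟨hz', (hur (infl x) hz').mpr fun g hg => ?_, (hcr (infl x) hz').mpr hc⟩
      change x (QuotientGroup.mk g) = 0
      have h1 : (QuotientGroup.mk g : GS F Λ.P) = 1 := (QuotientGroup.eq_one_iff g).mpr hg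
      rw [h1]
      have h3 := hz.2 1 1
      rw [mul_one, map_one, Units.val_one, Matrix.one_mulVec] at h3
      exact (left_eq_add.mp h3)
  have hrange : BKOdd.Z1f (Λ.l i₀) V ≤ LinearMap.range infl := by
    rintro x ⟨hz, hu, -⟩
    obtain ⟨y, -, hy⟩ := hdesc x hz ((hur x hz).mp hu)
    exact ⟨y, funext hy⟩
  have hmap : ((BKOdd.Z1f (Λ.l i₀) V).comap infl).map infl = BKOdd.Z1f (Λ.l i₀) V := by
    rw [Submodule.map_comap_eq, inf_eq_right.mpr hrange]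
  have hWle : (BKOdd.Z1f (Λ.l i₀) V).comap infl ≤ BKOdd.Z1 VG := fun x hx => ((hWm x).mp hx).1
  have hWfd : FiniteDimensional L ((BKOdd.Z1f (Λ.l i₀) V).comap infl) :=
    Submodule.finiteDimensional_of_le hWle
  have e1 := (Submodule.equivMapOfInjective infl hinj
    ((BKOdd.Z1f (Λ.l i₀) V).comap infl)).finrank_eq
  have hZfd : FiniteDimensional L (BKOdd.Z1f (Λ.l i₀) V) := by
    rw [← hmap]
    infer_instance
  rw [hmap] at e1
  have hpar := hW _ hWm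
  rw [e1] at hpar
  -- coboundaries
  have hB1 : BKOdd.B1 V ≤ BKOdd.Z1f (Λ.l i₀) V := by
    rintro _ ⟨v, rfl⟩
    have hz : BKOdd.cob V v ∈ BKOdd.Z1 V := BKOdd.B1_le hV ⟨v, rfl⟩
    refine ⟨hz, fun l _ _ j => ⟨v, fun g _ => rfl⟩, (hcr _ hz).mpr ⟨?_, ?_⟩⟩
    · exact hHP.bz ⟨v, rfl⟩
    · refine hHP.bz' ⟨(B : Matrix (Fin n) (Fin n) L) *ᵥ v, ?_⟩
      funext t
      have h1 : ((dualC V (BKOdd.conj c σ hcs.h) B).comp (Λ.r i₀)) t =
          B * V (BKOdd.conj c σ hcs.h (Λ.r i₀ t)) * B⁻¹ := rfl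
      rw [BKOdd.cob_apply, BKOdd.cob_apply, h1, Matrix.mulVec_mulVec, ← Units.val_mul,
        inv_mul_cancel_right, Matrix.mulVec_sub, Matrix.mulVec_mulVec, Units.val_mul]
  have hB1n : Module.finrank L (BKOdd.B1 V) = n := by
    have h1 := BKOdd.finrank_B1 (ρ := V)
    have h3 : BKOdd.inv V Set.univ = ⊥ := by
      rw [eq_bot_iff]
      intro v hv
      rw [Submodule.mem_bot]
      exact hN1 v fun t => hv _ trivial
    rw [h3, finrank_bot, add_zero] at h1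
    exact h1
  have hZle : BKOdd.Z1f (Λ.l i₀) V ≤ BKOdd.Z1 V := fun x hx => hx.1
  have h10 := BKOdd.finrank_cls hV (BKOdd.Z1f (Λ.l i₀) V) hB1 hZle
  have h11 := BKOdd.finite_cls (BKOdd.Z1f (Λ.l i₀) V) hZle
  refine ⟨h11, ?_⟩
  rw [htd]
  change Module.finrank L (BKOdd.cls V (BKOdd.Z1f (Λ.l i₀) V)) % 2 = s % 2
  rw [hB1n] at h10
  omega

end Core

end FPARM

open FPARM in
theorem stParM (h1 : StArith) (h2 : StMainX) (_h3 : StTri) (h4 : StLineQ) (h5 : StU0)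
    (h6 : StDescM) (h7 : StUnrM) (h8 : StCrysM) (h9 : StHodM) : StParM := by
  intro p _ hp F _ _ hF hreal hsp c σ hcs L _ _ _ n V hV P₀ hP₀f hP₀s hunr hinv A hA hnsd B hB
    hdual hDR hFr
  have hpP : p ∈ insert p P₀ := Set.mem_insert _ _
  have hunr1 : ∀ (l : ℕ) [Fact l.Prime], l ∉ insert p P₀ →
      ∀ j : AlgebraicClosure F →+* PadicAlgCl l,
      ∀ g ∈ Inert F (AlgebraicClosure F) j, V g = 1 := by
    intro l _ hl j g hg
    rw [Set.mem_insert_iff, not_or] at hl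
    exact hunr l hl.1 hl.2 j g hg
  obtain ⟨U₀, hUn, hUo, hUi, hUc, hUR, hUχ, hUcj, hUψ⟩ := h5 p hp F hF hreal c σ hcs L n V hV A
    hA (insert p P₀) hpP hunr1
  have hconj : IsConj c := by
    refine ⟨hcs.hc, ?_⟩
    obtain ⟨a, ha⟩ := hcs.hσ
    refine ⟨a, fun h => ha ?_⟩
    rw [hcs.h] at h
    exact (algebraMap F (AlgebraicClosure F)).injective h
  obtain ⟨Λ, hΛ, ⟨l₁, hl₁, hl₁p⟩, hAr⟩ := h1 p hp F hF hreal hsp c hconj (insert p P₀)
    (hP₀f.insert p) (by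
      intro l hl
      rcases Set.mem_insert_iff.mp hl with h | h
      · rw [h]
        exact hsp
      · exact hP₀s l h) hpP U₀ hUn hUo hUi hUc hUR hUχ (by
      intro g hg g' hg'
      rw [conj_eq_iff c σ hcs g g' hg']
      exact hUcj g hg)
  have hpΛ : p ∈ Λ.P := hΛ hpP
  have hunrΛ : ∀ (l : ℕ) [Fact l.Prime], l ∉ Λ.P →
      ∀ j : AlgebraicClosure F →+* PadicAlgCl l,
      ∀ g ∈ Inert F (AlgebraicClosure F) j, V g = 1 := fun l _ hl =>
    hunr1 l fun h => hl (hΛ h)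
  obtain ⟨hcomp, hna, -, χ, cG, hχ, hχc, hcG, hcGc, hcc, hχcG, hloc, hdesc⟩ := h6 p hp F hF hreal
    c σ hcs Λ.P hpΛ
  obtain ⟨inv, hAx⟩ := hAr χ cG hχ (by
    intro g g' hg'
    rw [hcG, conj_eq_iff c σ hcs g g' hg'])
  obtain ⟨VG, hVGc, hVG, hdz⟩ := hdesc L n V hV hunrΛ
  have hUopen : IsOpen ((U₀.map (QuotientGroup.mk' (RS F Λ.P)) : Subgroup (GS F Λ.P)) :
      Set (GS F Λ.P)) := QuotientGroup.isOpenMap_coe _ hUo
  have hfix : ∀ u ∈ U₀.map (QuotientGroup.mk' (RS F Λ.P)),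
      PadicInt.toZMod ((χ u : ℤ_[p]ˣ) : ℤ_[p]) = 1 := by
    rintro _ ⟨g, hg, rfl⟩
    have e1 : χ (QuotientGroup.mk' (RS F Λ.P) g) = cycF p F g := hχ g
    rw [e1]
    exact hUχ g hg
  have hdiag : ∀ ψ : GS F Λ.P →* (kk p L)ˣ, IsDiag VG A ψ →
      IsDiag V A (ψ.comp (QuotientGroup.mk' (RS F Λ.P))) := by
    rintro ψ ⟨i, hi⟩
    refine ⟨i, fun g a ha => hi (QuotientGroup.mk g) a ?_⟩
    rw [hVG]
    exact ha
  have hpol : Pol VG A cG χ B (U₀.map (QuotientGroup.mk' (RS F Λ.P))) := by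
    refine ⟨hVGc, ?_, hB, ?_, ?_, ?_⟩
    · intro a
      obtain ⟨g, rfl⟩ := QuotientGroup.mk_surjective a
      rw [hVG]
      exact hA g
    · intro a
      obtain ⟨g, rfl⟩ := QuotientGroup.mk_surjective a
      have e1 : BKOdd.chL χ L (QuotientGroup.mk g : GS F Λ.P) = BKOdd.chL (cycF p F) L g := by
        change algebraMap ℚ_[p] L (((χ (QuotientGroup.mk g) : ℤ_[p]ˣ) : ℤ_[p]) : ℚ_[p]) = _
        rw [hχ]
        rfl
      have e2 : (VG.comp cG) (QuotientGroup.mk g : GS F Λ.P) =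
          (V.comp (BKOdd.conj c σ hcs.h)) g := by
        change VG (cG (QuotientGroup.mk g)) = V (BKOdd.conj c σ hcs.h g)
        rw [hcG, hVG]
      rw [e1, e2, hVG]
      exact hdual g
    · intro ψ hψ
      obtain ⟨i, hi⟩ := hdiag ψ hψ
      obtain ⟨g, hg⟩ := hnsd i
      refine ⟨QuotientGroup.mk g, ?_⟩
      have e1 := nsd_of hA (BKOdd.conj c σ hcs.h) (cycF p F) i g hg
        (ψ.comp (QuotientGroup.mk' (RS F Λ.P))) hi
      rw [hχ, hcG]
      exact e1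
    · rintro ψ hψ _ ⟨g, hg, rfl⟩
      exact hUψ _ (hdiag ψ hψ) g hg
  obtain ⟨i₀, hi₀⟩ := id hpΛ
  have hne : ∃ i, i ≠ i₀ := by
    obtain ⟨i, hi⟩ := id hl₁
    refine ⟨i, fun h => hl₁p ?_⟩
    rw [← hi, h, hi₀]
  obtain ⟨j₀, hj₀, hj₀'⟩ : ∃ j₀ : AlgebraicClosure F →+* PadicAlgCl p, HEq (Λ.j i₀) j₀ ∧
      HEq ((swapPl c σ hcs Λ).j i₀)
        (j₀.comp (c : AlgebraicClosure F →+* AlgebraicClosure F)) := by
    subst hi₀
    exact ⟨_, HEq.rfl, HEq.rfl⟩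
  have hloc1 : ∀ i, χ.comp (rG Λ i) = cycL p (Λ.l i) := by
    intro i
    refine MonoidHom.ext fun t => ?_
    change χ (QuotientGroup.mk (Λ.r i t)) = _
    rw [hχ]
    exact hloc (Λ.l i) (Λ.j i) (Λ.r i) (Λ.spec i) t
  obtain ⟨hfin, hpar⟩ := core h2 h4 h7 h8 h9 hp hF c σ hcs hV hinv hdual hDR hFr Λ hunrΛ i₀ hi₀
    j₀ hj₀ hne hAx hUopen hfix hχc hcGc hcc hχcG hcG hloc1 hVG hpol hdz
  have hloc2 : ∀ i, χ.comp (rG (swapPl c σ hcs Λ) i) = cycL p (Λ.l i) := by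
    intro i
    refine MonoidHom.ext fun t => ?_
    change χ (QuotientGroup.mk (BKOdd.conj c σ hcs.h (Λ.r i t))) = _
    rw [hχ]
    exact hloc (Λ.l i) ((swapPl c σ hcs Λ).j i) ((swapPl c σ hcs Λ).r i)
      ((swapPl c σ hcs Λ).spec i) t
  have hcomp' : CompactSpace (GS F (swapPl c σ hcs Λ).P) := hcomp
  have hna' : NonarchimedeanGroup (GS F (swapPl c σ hcs Λ).P) := hna
  obtain ⟨-, hpar'⟩ := core h2 h4 h7 h8 h9 hp hF c σ hcs hV hinv hdual hDR hFr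
    (swapPl c σ hcs Λ) hunrΛ i₀ hi₀ _ hj₀' hne (arith_swap c σ hcs Λ hcG hAx) hUopen hfix hχc
    hcGc hcc hχcG hcG hloc2 hVG hpol hdz
  refine ⟨hfin, fun j => ?_⟩
  rcases BKOdd.two_places hF j₀ c σ hcs j with ⟨g, hg⟩ | ⟨g, hg⟩
  · rw [BKOdd.tdim_inner j₀ j g V hg]
    exact hpar
  · rw [BKOdd.tdim_inner (j₀.comp (c : AlgebraicClosure F →+* AlgebraicClosure F)) j g V hg]
    exact hpar'

end BKMet
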