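import Pool.Agent.Lib.MP_7c08ba_nt.Met.StL
import Pool.Agent.Lib.MP_7c08ba_nt.Odd.BK38

set_option autoImplicit false

/-!
Metabolic parity, module LV: the local theorem for triangular representations.
-/

noncomputable section

namespace BKMet

open BKPar (Loc1 Loc2)
open BKND (Sm)
open Matrix

namespace LLV

section Lift

variable {p : ℕ} [Fact p.Prime] {L : Type} [NormedField L] [NormedAlgebra ℚ_[p] L]
  {G : Type} [Group G] {n : ℕ}

/-- a representation with integral entries -/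
theorem exists_lift (W : G →* GL (Fin n) L)
    (h : ∀ g i j, ‖(W g : Matrix (Fin n) (Fin n) L) i j‖ ≤ 1) :
    ∃ ρ : G →* GL (Fin n) (OO p L), ∀ g, toL p L n (ρ g) = W g := by
  let M : G →* Matrix (Fin n) (Fin n) (OO p L) :=
    { toFun := fun g => Matrix.of fun i j =>
        (⟨(W g : Matrix (Fin n) (Fin n) L) i j, h g i j⟩ : OO p L)
      map_one' := by
        ext i j
        change ((W 1 : Matrix (Fin n) (Fin n) L) i j) = (((1 : Matrix (Fin n) (Fin n) (OO p L)) i j : OO p L) : L)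
        rw [map_one, Units.val_one, Matrix.one_apply, Matrix.one_apply]
        split_ifs <;> rfl
      map_mul' := by
        intro g g'
        ext i j
        change ((W (g * g') : Matrix (Fin n) (Fin n) L) i j) = _
        rw [map_mul, Units.val_mul, Matrix.mul_apply, Matrix.mul_apply, AddSubmonoidClass.coe_finsetSum]
        rfl }
  refine ⟨M.toHomUnits, fun g => ?_⟩
  ext i j
  rfl

/-- continuity of the integral representation -/
theorem continuous_lift [TopologicalSpace G] {W : G →* GL (Fin n) L} (hW : Continuous W)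
    {ρ : G →* GL (Fin n) (OO p L)} (h : ∀ g, toL p L n (ρ g) = W g) : Continuous ρ := by
  have k1 : ∀ i j, Continuous fun g => ((ρ g : Matrix (Fin n) (Fin n) (OO p L)) i j) := by
    intro i j
    rw [Topology.IsInducing.subtypeVal.continuous_iff]
    refine Continuous.congr ((Units.continuous_val.comp hW).matrix_elem i j) fun g => ?_
    rw [Function.comp_apply, ← h g]
    rfl
  have k2 : ∀ i j, Continuous fun g => ((((ρ g)⁻¹ : GL (Fin n) (OO p L)) :
      Matrix (Fin n) (Fin n) (OO p L)) i j) := by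
    intro i j
    rw [Topology.IsInducing.subtypeVal.continuous_iff]
    refine Continuous.congr ((Units.continuous_coe_inv.comp hW).matrix_elem i j) fun g => ?_
    rw [Function.comp_apply, ← h g, ← map_inv]
    rfl
  rw [Units.continuous_iff]
  exact ⟨continuous_matrix k1, continuous_matrix k2⟩

theorem norm_chL_le (χ : G →* ℤ_[p]ˣ) (g : G) : ‖BKOdd.chL χ L g‖ ≤ 1 := by
  change ‖algebraMap ℚ_[p] L (((χ g : ℤ_[p]ˣ) : ℤ_[p]) : ℚ_[p])‖ ≤ 1
  rw [norm_algebraMap']
  exact PadicInt.norm_le_one _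

end Lift

section Conj

variable {L : Type} [NormedField L] {G : Type} [Group G] {n : ℕ}

/-- change of basis -/
def cj (A : GL (Fin n) L) (V : G →* GL (Fin n) L) : G →* GL (Fin n) L :=
  (MulAut.conj A).toMonoidHom.comp V

theorem cj_apply (A : GL (Fin n) L) (V : G →* GL (Fin n) L) (g : G) :
    cj A V g = A * V g * A⁻¹ := rfl

theorem cj_cj (A : GL (Fin n) L) (V : G →* GL (Fin n) L) : cj A⁻¹ (cj A V) = V := by
  apply MonoidHom.ext
  intro g
  rw [cj_apply, cj_apply]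
  group

theorem cj_cj' (A : GL (Fin n) L) (V : G →* GL (Fin n) L) : cj A (cj A⁻¹ V) = V := by
  apply MonoidHom.ext
  intro g
  rw [cj_apply, cj_apply]
  group

theorem mulVec_cj (A : GL (Fin n) L) (V : G →* GL (Fin n) L) (g : G) (v : Fin n → L) :
    (cj A V g : Matrix (Fin n) (Fin n) L) *ᵥ ((A : Matrix (Fin n) (Fin n) L) *ᵥ v) =
      (A : Matrix (Fin n) (Fin n) L) *ᵥ ((V g : Matrix (Fin n) (Fin n) L) *ᵥ v) := by
  rw [Matrix.mulVec_mulVec, Matrix.mulVec_mulVec, ← Units.val_mul, ← Units.val_mul, cj_apply]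
  congr 2
  group

theorem inv_mulVec (A : GL (Fin n) L) (v : Fin n → L) :
    ((A⁻¹ : GL (Fin n) L) : Matrix (Fin n) (Fin n) L) *ᵥ
      ((A : Matrix (Fin n) (Fin n) L) *ᵥ v) = v := by
  rw [Matrix.mulVec_mulVec, ← Units.val_mul, inv_mul_cancel, Units.val_one, Matrix.one_mulVec]

theorem mulVec_inv (A : GL (Fin n) L) (v : Fin n → L) :
    (A : Matrix (Fin n) (Fin n) L) *ᵥ
      (((A⁻¹ : GL (Fin n) L) : Matrix (Fin n) (Fin n) L) *ᵥ v) = v := by
  rw [Matrix.mulVec_mulVec, ← Units.val_mul, mul_inv_cancel, Units.val_one, Matrix.one_mulVec]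

theorem mulVec_inj (A : GL (Fin n) L) {v w : Fin n → L}
    (h : (A : Matrix (Fin n) (Fin n) L) *ᵥ v = (A : Matrix (Fin n) (Fin n) L) *ᵥ w) : v = w := by
  rw [← inv_mulVec A v, h, inv_mulVec]

theorem noInv_cj {V : G →* GL (Fin n) L} (h : NoInv V) (A : GL (Fin n) L) : NoInv (cj A V) := by
  intro v hv
  have h1 : ((A⁻¹ : GL (Fin n) L) : Matrix (Fin n) (Fin n) L) *ᵥ v = 0 := by
    apply h
    intro g
    apply mulVec_inj A
    rw [← mulVec_cj, mulVec_inv, hv g]
  rw [← mulVec_inv A v, h1, Matrix.mulVec_zero]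

variable [TopologicalSpace G]

theorem continuous_cj {V : G →* GL (Fin n) L} (h : Continuous V) (A : GL (Fin n) L) :
    Continuous (cj A V) := by
  change Continuous fun g => A * V g * A⁻¹
  exact (continuous_const.mul h).mul continuous_const

theorem mem_Z1_cj {V : G →* GL (Fin n) L} (A : GL (Fin n) L) {x : G → Fin n → L}
    (hx : x ∈ BKOdd.Z1 V) :
    (fun g => (A : Matrix (Fin n) (Fin n) L) *ᵥ x g) ∈ BKOdd.Z1 (cj A V) := by
  refine ⟨Continuous.matrix_mulVec continuous_const hx.1, fun g h => ?_⟩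
  change (A : Matrix (Fin n) (Fin n) L) *ᵥ x (g * h) = _
  rw [mulVec_cj, hx.2 g h, Matrix.mulVec_add]

theorem mem_B1_of_cj {V : G →* GL (Fin n) L} (A : GL (Fin n) L) {x : G → Fin n → L}
    (hx : (fun g => (A : Matrix (Fin n) (Fin n) L) *ᵥ x g) ∈ BKOdd.B1 (cj A V)) :
    x ∈ BKOdd.B1 V := by
  obtain ⟨v, hv⟩ := hx
  refine ⟨((A⁻¹ : GL (Fin n) L) : Matrix (Fin n) (Fin n) L) *ᵥ v, ?_⟩
  funext g
  apply mulVec_inj A
  have h1 := congrFun hv g
  rw [BKOdd.cob_apply] at h1 ⊢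
  rw [Matrix.mulVec_sub, ← mulVec_cj, mulVec_inv]
  exact h1

/-- the map on cocycles -/
def zmap (A : GL (Fin n) L) (V : G →* GL (Fin n) L) : BKOdd.Z1 V →ₗ[L] BKOdd.Z1 (cj A V) where
  toFun x := ⟨fun g => (A : Matrix (Fin n) (Fin n) L) *ᵥ x.1 g, mem_Z1_cj A x.2⟩
  map_add' x y := by
    apply Subtype.ext
    funext g
    exact Matrix.mulVec_add (A : Matrix (Fin n) (Fin n) L) (x.1 g) (y.1 g)
  map_smul' a x := by
    apply Subtype.ext
    funext g
    exact Matrix.mulVec_smul (A : Matrix (Fin n) (Fin n) L) a (x.1 g)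

theorem zmap_inj (A : GL (Fin n) L) (V : G →* GL (Fin n) L) : Function.Injective (zmap A V) := by
  intro x y h
  apply Subtype.ext
  funext g
  exact mulVec_inj A (congrFun (congrArg Subtype.val h) g)

/-- the transposed matrix -/
def tr (A : GL (Fin n) L) : GL (Fin n) L where
  val := (A : Matrix (Fin n) (Fin n) L)ᵀ
  inv := ((A⁻¹ : GL (Fin n) L) : Matrix (Fin n) (Fin n) L)ᵀ
  val_inv := by
    rw [← Matrix.transpose_mul, ← Units.val_mul, inv_mul_cancel, Units.val_one,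
      Matrix.transpose_one]
  inv_val := by
    rw [← Matrix.transpose_mul, ← Units.val_mul, mul_inv_cancel, Units.val_one,
      Matrix.transpose_one]

theorem dot_tr (A : GL (Fin n) L) (v w : Fin n → L) :
    ((A : Matrix (Fin n) (Fin n) L) *ᵥ v) ⬝ᵥ w =
      v ⬝ᵥ ((tr A : Matrix (Fin n) (Fin n) L) *ᵥ w) := by
  change _ = v ⬝ᵥ ((A : Matrix (Fin n) (Fin n) L)ᵀ *ᵥ w)
  rw [← Matrix.vecMul_transpose, ← Matrix.dotProduct_mulVec]

omit [TopologicalSpace G] in
/-- the cup product -/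
theorem cupV_cj (A : GL (Fin n) L) (V' : G →* GL (Fin n) L) (x y : G → Fin n → L) :
    BKOdd.cupV (cj (tr A)⁻¹ V') (fun g => (A : Matrix (Fin n) (Fin n) L) *ᵥ x g) y =
      BKOdd.cupV V' x (fun g => (tr A : Matrix (Fin n) (Fin n) L) *ᵥ y g) := by
  funext g h
  change ((A : Matrix (Fin n) (Fin n) L) *ᵥ x g) ⬝ᵥ
    ((cj (tr A)⁻¹ V' g : Matrix (Fin n) (Fin n) L) *ᵥ y h) = x g ⬝ᵥ
    ((V' g : Matrix (Fin n) (Fin n) L) *ᵥ ((tr A : Matrix (Fin n) (Fin n) L) *ᵥ y h))
  rw [dot_tr]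
  congr 1
  have h1 := mulVec_cj (tr A)⁻¹ V' g ((tr A : Matrix (Fin n) (Fin n) L) *ᵥ y h)
  rw [inv_mulVec] at h1
  rw [h1, mulVec_inv]

end Conj

section Main

variable {p : ℕ} [Fact p.Prime] {L : Type} [NormedField L] [NormedAlgebra ℚ_[p] L]
  {D : Type} [Group D] {n : ℕ} {χ : D →* ℤ_[p]ˣ}

theorem isDual_cj {V V' : D →* GL (Fin n) L} (h : IsDual χ V V' 1) (A : GL (Fin n) L) :
    IsDual χ (cj A V) (cj (tr A)⁻¹ V') 1 := by
  intro g
  have h1 := h g
  rw [Matrix.mul_one] at h1 ⊢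
  have e1 : (cj A V g : Matrix (Fin n) (Fin n) L)ᵀ =
      ((A⁻¹ : GL (Fin n) L) : Matrix (Fin n) (Fin n) L)ᵀ *
      ((V g : Matrix (Fin n) (Fin n) L)ᵀ * (A : Matrix (Fin n) (Fin n) L)ᵀ) := by
    rw [cj_apply, Units.val_mul, Units.val_mul, Matrix.transpose_mul, Matrix.transpose_mul]
  have e2 : (cj (tr A)⁻¹ V' g : Matrix (Fin n) (Fin n) L) =
      ((A⁻¹ : GL (Fin n) L) : Matrix (Fin n) (Fin n) L)ᵀ *
      (V' g : Matrix (Fin n) (Fin n) L) * (A : Matrix (Fin n) (Fin n) L)ᵀ := by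
    rw [cj_apply, inv_inv, Units.val_mul, Units.val_mul]
    rfl
  have e3 : (A : Matrix (Fin n) (Fin n) L)ᵀ *
      ((A⁻¹ : GL (Fin n) L) : Matrix (Fin n) (Fin n) L)ᵀ = 1 := by
    rw [← Matrix.transpose_mul, ← Units.val_mul, inv_mul_cancel, Units.val_one,
      Matrix.transpose_one]
  have e4 : ((A⁻¹ : GL (Fin n) L) : Matrix (Fin n) (Fin n) L)ᵀ *
      (A : Matrix (Fin n) (Fin n) L)ᵀ = 1 := by
    rw [← Matrix.transpose_mul, ← Units.val_mul, mul_inv_cancel, Units.val_one,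
      Matrix.transpose_one]
  rw [e1, e2]
  calc ((A⁻¹ : GL (Fin n) L) : Matrix (Fin n) (Fin n) L)ᵀ *
      ((V g : Matrix (Fin n) (Fin n) L)ᵀ * (A : Matrix (Fin n) (Fin n) L)ᵀ) *
      (((A⁻¹ : GL (Fin n) L) : Matrix (Fin n) (Fin n) L)ᵀ *
      (V' g : Matrix (Fin n) (Fin n) L) * (A : Matrix (Fin n) (Fin n) L)ᵀ)
      = ((A⁻¹ : GL (Fin n) L) : Matrix (Fin n) (Fin n) L)ᵀ *
      ((V g : Matrix (Fin n) (Fin n) L)ᵀ * ((A : Matrix (Fin n) (Fin n) L)ᵀ *
      ((A⁻¹ : GL (Fin n) L) : Matrix (Fin n) (Fin n) L)ᵀ) *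
      (V' g : Matrix (Fin n) (Fin n) L)) * (A : Matrix (Fin n) (Fin n) L)ᵀ := by
        simp only [Matrix.mul_assoc]
    _ = BKOdd.chL χ L g • (1 : Matrix (Fin n) (Fin n) L) := by
        rw [e3, Matrix.mul_one, h1, Matrix.mul_smul, Matrix.mul_one, Matrix.smul_mul, e4]

theorem isDual_symm {V V' : D →* GL (Fin n) L} (h : IsDual χ V V' 1) : IsDual χ V' V 1 := by
  intro g
  have h1 := congrArg Matrix.transpose (h g)
  rw [Matrix.mul_one, Matrix.transpose_mul, Matrix.transpose_transpose, Matrix.transpose_smul,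
    Matrix.transpose_one] at h1
  rw [Matrix.mul_one]
  exact h1

/-- the dual of an integral representation is integral -/
theorem norm_dual_le {V V' : D →* GL (Fin n) L} (h : IsDual χ V V' 1)
    (hV : ∀ g i j, ‖(V g : Matrix (Fin n) (Fin n) L) i j‖ ≤ 1) (g : D) (i j : Fin n) :
    ‖(V' g : Matrix (Fin n) (Fin n) L) i j‖ ≤ 1 := by
  have h1 := h g
  rw [Matrix.mul_one] at h1
  have e3 : (V g⁻¹ : Matrix (Fin n) (Fin n) L)ᵀ * (V g : Matrix (Fin n) (Fin n) L)ᵀ = 1 := by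
    rw [← Matrix.transpose_mul, ← Units.val_mul, ← map_mul, mul_inv_cancel, map_one,
      Units.val_one, Matrix.transpose_one]
  have h2 : (V' g : Matrix (Fin n) (Fin n) L) =
      BKOdd.chL χ L g • (V g⁻¹ : Matrix (Fin n) (Fin n) L)ᵀ := by
    calc (V' g : Matrix (Fin n) (Fin n) L) = (V g⁻¹ : Matrix (Fin n) (Fin n) L)ᵀ *
        ((V g : Matrix (Fin n) (Fin n) L)ᵀ * (V' g : Matrix (Fin n) (Fin n) L)) := by
          rw [← Matrix.mul_assoc, e3, Matrix.one_mul]
      _ = _ := by rw [h1, Matrix.mul_smul, Matrix.mul_one]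
  rw [h2, Matrix.smul_apply, Matrix.transpose_apply, smul_eq_mul, norm_mul]
  exact mul_le_one₀ (norm_chL_le χ g) (norm_nonneg _) (hV g⁻¹ j i)

variable [TopologicalSpace D]

/-- change of basis in the conclusion -/
theorem locV_of_cj {δ : ℕ} {V V' : D →* GL (Fin n) L} (A : GL (Fin n) L)
    (h : LocV χ δ (cj A V) (cj (tr A)⁻¹ V')) : LocV χ δ V V' := by
  have f1 := h.fin
  have f2 := h.fin'
  refine ⟨FiniteDimensional.of_injective _ (zmap_inj A V),
    (LinearMap.finrank_le_finrank_of_injective (zmap_inj A V)).trans h.le,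
    FiniteDimensional.of_injective _ (zmap_inj (tr A)⁻¹ V'),
    (LinearMap.finrank_le_finrank_of_injective (zmap_inj (tr A)⁻¹ V')).trans h.le', ?_, ?_⟩
  · intro x hx hxy
    refine mem_B1_of_cj A (h.left _ (mem_Z1_cj A hx) fun y hy => ?_)
    rw [cupV_cj]
    apply hxy
    have h1 := mem_Z1_cj (tr A) hy
    rwa [cj_cj'] at h1
  · intro y hy hxy
    refine mem_B1_of_cj (tr A)⁻¹ (h.right _ (mem_Z1_cj (tr A)⁻¹ hy) fun x hx => ?_)
    have h1 := mem_Z1_cj A⁻¹ hx
    rw [cj_cj] at h1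
    have h2 := hxy _ h1
    have h3 := cupV_cj A V' (fun g => ((A⁻¹ : GL (Fin n) L) : Matrix (Fin n) (Fin n) L) *ᵥ x g)
      (fun g => (((tr A)⁻¹ : GL (Fin n) L) : Matrix (Fin n) (Fin n) L) *ᵥ y g)
    simp only [mulVec_inv] at h3
    rw [h3]
    exact h2

end Main

section Pairs

variable {R : Type} [CommRing R] {p : ℕ} [Fact p.Prime] {D : Type} [Group D] [TopologicalSpace D]
  {χ : D →* ℤ_[p]ˣ} {M M' : Type} [AddCommGroup M] [Module R M] [AddCommGroup M'] [Module R M']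

theorem flip_flip (X : Pair R (actA χ) M M') : X.flip.flip = X := rfl

theorem perp_top_eq (X : Pair R (actA χ) M M') : X.perp ⊤ = ⊥ := by
  rw [eq_bot_iff]
  intro m' hm'
  refine X.perf' ⊥ m' fun m _ => ?_
  exact hm' m Submodule.mem_top

theorem perp_bot_eq (X : Pair R (actA χ) M M') : X.perp ⊥ = ⊤ := by
  rw [eq_top_iff]
  intro m' _ m hm
  rw [(Submodule.mem_bot R).1 hm, map_zero, AddMonoidHom.zero_apply]

/-- local duality on `H¹` -/
theorem ldual (h5 : StLAB) [IsTopologicalGroup D] [CompactSpace D]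
    {inv : (D → D → QZ p) →+ QZ p} {δ : ℕ} (hax : LocAx p χ inv δ) [Finite M]
    (X : Pair R (actA χ) M M') (k : Type) [Field k] [Finite k] [Algebra (ZMod p) k]
    (U : Subgroup D) (hU : IsOpen (U : Set D)) (hl : Lines X k U) (hl' : Lines X.flip k U)
    (f : D → M) (hf : f ∈ BKND.Z1 X.ρ)
    (h : ∀ e ∈ BKND.Z1 X.ρ', inv (cup11 X.b X.ρ' f e) = 0) : f ∈ BKND.B1 X.ρ := by
  obtain ⟨m, -, hm⟩ := (h5 R p D χ inv δ hax M M' X k U hU hl hl' ⊥ ⊤
    (fun g m hm => by
      rw [(Submodule.mem_bot R).1 hm, map_zero]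
      exact Submodule.zero_mem _) (fun _ _ _ => Submodule.mem_top) bot_le).1 f hf.1
    (fun _ => Submodule.mem_top) (fun g h' => by
      rw [Submodule.mem_bot, d1, hf.2 g h']
      abel) (fun e he _ he2 => by
      apply h
      refine ⟨he, fun g h' => ?_⟩
      have h1 := he2 g h'
      rw [perp_top_eq, Submodule.mem_bot, d1] at h1
      have h2 : e (g * h') - (e g + X.ρ' g (e h')) = -(X.ρ' g (e h') - e (g * h') + e g) := by
        abel
      rw [← sub_eq_zero, h2, h1, neg_zero])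
  refine ⟨m, fun g => ?_⟩
  have h1 := hm g
  rw [Submodule.mem_bot, sub_eq_zero] at h1
  exact h1

end Pairs

end LLV

open LLV in
/-- **Module LV**: the local theorem for triangular representations. -/
theorem stLV (h1 : StLam) (h2 : StMk) (h3 : StTri) (h4 : StLink) (h5 : StLAB) (h6 : StLE)
    (h7 : StLimD) : StLV := by
  intro p _ L _ _ _ D _ _ _ _ _ χ hχ inv δ hax n V V' hV hV' hdual A hA U hU hχU hψU hN hN'
  apply locV_of_cj A
  set W := cj A V with hW
  set W' := cj (tr A)⁻¹ V' with hW'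
  have hWc : Continuous W := continuous_cj hV A
  have hWc' : Continuous W' := continuous_cj hV' (tr A)⁻¹
  have hWd : IsDual χ W W' 1 := isDual_cj hdual A
  have hWn : ∀ g i j, ‖(W g : Matrix (Fin n) (Fin n) L) i j‖ ≤ 1 := fun g i j => (hA g i j).1
  have hWn' := norm_dual_le hWd hWn
  have hNW : NoInv W := noInv_cj hN A
  have hNW' : NoInv W' := noInv_cj hN' (tr A)⁻¹
  obtain ⟨ρ, hρ⟩ := exists_lift (p := p) W hWn
  obtain ⟨ρ', hρ'⟩ := exists_lift (p := p) W' hWn'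
  have hρc : Continuous ρ := continuous_lift hWc hρ
  have hρc' : Continuous ρ' := continuous_lift hWc' hρ'
  have eρ : (toL p L n).comp ρ = W := MonoidHom.ext hρ
  have eρ' : (toL p L n).comp ρ' = W' := MonoidHom.ext hρ'
  obtain ⟨lam, hlam⟩ := h1 p L
  have hmk : ∀ k : ℕ, ∃ X : Pair (OO p L) (actA χ) (MK p L n k) (MK p L n k),
      IsMk χ lam k ρ ρ' 1 X := by
    intro k
    refine (h2 p L D χ n ρ ρ' hρc hρc' 1 (by rw [Matrix.det_one]; exact isUnit_one) ?_ lam hlam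
      k).2
    rw [eρ, eρ', Matrix.map_one _ (map_zero _) (map_one _)]
    exact hWd
  choose X hX using hmk
  have hmk' : ∀ k, IsMk χ lam k ρ' ρ 1 (X k).flip := by
    intro k
    refine ⟨(hX k).act', (hX k).act, fun x y => ?_⟩
    have e := (hX k).pair y x
    rw [Matrix.one_mulVec] at e ⊢
    rw [dotProduct_comm] at e
    exact e
  have heig : Eig ρ (IsDiag V A) := (h3 p L D n V A hA).2 A ρ hρ
  have hlines : ∀ k, Lines (X k) (kk p L) U ∧ Lines (X k).flip (kk p L) U := by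
    intro k
    exact h4 p L D n ρ (IsDiag V A) heig D (MonoidHom.id D) χ ρ' 1 lam k (X k) (hX k) U hU hχU
      (fun ψ hψ u hu => hψU ψ hψ u hu)
  have hE : ∀ k, Finite (BKND.Z1 (X k).ρ) ∧ Nat.card (BKND.Z1 (X k).ρ) ≤
      Nat.card (BKND.H0 (X k).ρ') * Nat.card (MK p L n k) ^ (1 + δ) := fun k =>
    h6 (OO p L) p D χ inv δ hax _ _ (X k) (kk p L) U hU (hlines k).1 (hlines k).2
  have hE' : ∀ k, Finite (BKND.Z1 (X k).flip.ρ) ∧ Nat.card (BKND.Z1 (X k).flip.ρ) ≤
      Nat.card (BKND.H0 (X k).flip.ρ') * Nat.card (MK p L n k) ^ (1 + δ) := fun k =>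
    h6 (OO p L) p D χ inv δ hax _ _ (X k).flip (kk p L) U hU (hlines k).2 (hlines k).1
  obtain ⟨f1, f2, f3⟩ := h7 p L D χ hχ inv δ hax.inv_eq n ρ ρ' hρc hρc'
    (by rw [eρ, eρ']; exact hWd) lam hlam X hX hE (fun k => (hE' k).1)
    (fun k f hf h => ldual h5 hax (X k) (kk p L) U hU (hlines k).1 (hlines k).2 f hf h)
    (by rw [eρ]; exact hNW) (by rw [eρ']; exact hNW')
  obtain ⟨g1, g2, g3⟩ := h7 p L D χ hχ inv δ hax.inv_eq n ρ' ρ hρc' hρc
    (by rw [eρ, eρ']; exact isDual_symm hWd) lam hlam (fun k => (X k).flip) hmk' hE'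
    (fun k => (hE k).1)
    (fun k f hf h => ldual h5 hax (X k).flip (kk p L) U hU (hlines k).2 (hlines k).1 f hf h)
    (by rw [eρ']; exact hNW') (by rw [eρ]; exact hNW)
  rw [eρ] at f1 f2 f3 g3
  rw [eρ'] at f3 g1 g2 g3
  refine ⟨f1, f2, g1, g2, f3, fun y hy hxy => g3 y hy fun x hx => ?_⟩
  have hd : ∀ g, (W g : Matrix (Fin n) (Fin n) L)ᵀ * (W' g : Matrix (Fin n) (Fin n) L) =
      BKOdd.chL χ L g • (1 : Matrix (Fin n) (Fin n) L) := by
    intro g
    have := hWd g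
    rwa [Matrix.mul_one] at this
  have e1 := BKOdd.cup_comm hd hx hy
  have e2 := hxy x hx
  have e3 := (CC.B2 (BKOdd.chL χ L)).sub_mem e1 e2
  rwa [add_sub_cancel_left] at e3

end BKMet
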