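import Pool.Agent.Lib.MP_7c08ba_nt.Met.StX

set_option autoImplicit false

/-!
Metabolic parity, module EXT: homomorphisms to `ℚ_p/ℤ_p` extend.
-/

noncomputable section

namespace BKMet

namespace XEXT

theorem surj (p : ℕ) [Fact p.Prime] {n : ℤ} (hn : n ≠ 0) :
    Function.Surjective (fun x : QZ p => n • x) := by
  intro x
  obtain ⟨y, rfl⟩ := Submodule.mkQ_surjective _ x
  refine ⟨Submodule.mkQ _ (y / n), ?_⟩
  have hn' : (n : ℚ_[p]) ≠ 0 := by exact_mod_cast hn
  show n • (Submodule.mkQ _ (y / n)) = _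
  rw [← map_zsmul]
  congr 1
  rw [zsmul_eq_mul]
  field_simp

theorem baer (p : ℕ) [Fact p.Prime] : Module.Baer ℤ (QZ p) := by
  have : DivisibleBy (QZ p) ℤ := divisibleByOfSMulRightSurj _ _ (fun hn => surj p hn)
  exact Module.Baer.of_divisible _

end XEXT

/-- Module EXT. -/
theorem stExt : StExt := by
  intro p _ V _ W f
  obtain ⟨F, hF⟩ := (XEXT.baer p).extension_property_addMonoidHom W.subtype W.subtype_injective f
  exact ⟨F, fun w => DFunLike.congr_fun hF w⟩

end BKMet
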