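import Pool.Agent.Lib.MP_7c08ba_nt.Met.StL
import Pool.Agent.Lib.MP_7c08ba_nt.Met.XPERF
import Pool.Agent.Lib.MP_7c08ba_nt.Met.XHOMS
import Pool.Agent.Lib.MP_7c08ba_nt.Met.XEXT

set_option autoImplicit false

/-!
Metabolic parity, part L, module MK: the pair `(𝒪/π^k)^n`.
-/

noncomputable section

namespace BKMet

namespace LMK

open Matrix
open BKND (Sm)

variable {p : ℕ} [Fact p.Prime] {L : Type} [NormedField L] [NormedAlgebra ℚ_[p] L]
  [FiniteDimensional ℚ_[p] L] {n : ℕ}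

/-- the order of `𝒪/π^k` -/
theorem card_quot (k : ℕ) :
    Nat.card (OO p L ⧸ (Ideal.span {pi0 p L ^ k} : Ideal (OO p L))) = Nat.card (kk p L) ^ k := by
  have h1 : (IsLocalRing.maximalIdeal (OO p L)) ≠ ⊥ := by
    rw [pi0_span, Ne, Ideal.span_singleton_eq_bot]
    exact pi0_ne' p L
  have h2 := cardQuot_pow_of_prime (P := IsLocalRing.maximalIdeal (OO p L)) h1 (i := k)
  rw [Submodule.cardQuot_apply, Submodule.cardQuot_apply] at h2
  have h3 : IsLocalRing.maximalIdeal (OO p L) ^ k = Ideal.span {pi0 p L ^ k} := by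
    rw [pi0_span, Ideal.span_singleton_pow]
  rw [h3] at h2
  exact h2

theorem card_MK (k : ℕ) : Nat.card (MK p L n k) = Nat.card (kk p L) ^ (n * k) := by
  rw [Nat.card_pi]
  simp only [card_quot, Finset.prod_const, Finset.card_univ, Fintype.card_fin]
  rw [← pow_mul, mul_comm]

theorem rv_surj (k : ℕ) (m : MK p L n k) : ∃ x, rv p L k x = m := by
  have h1 : ∀ i, ∃ a : OO p L, Ideal.Quotient.mk _ a = m i := fun i =>
    Ideal.Quotient.mk_surjective (m i)
  choose x hx using h1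
  exact ⟨x, funext hx⟩

theorem rv_map (k : ℕ) (A : Matrix (Fin n) (Fin n) (OO p L)) (x : Fin n → OO p L) :
    (A.map (Ideal.Quotient.mk (Ideal.span {pi0 p L ^ k} : Ideal (OO p L)))) *ᵥ (rv p L k x) =
      rv p L k (A *ᵥ x) := by
  funext i
  exact (RingHom.map_mulVec (Ideal.Quotient.mk (Ideal.span {pi0 p L ^ k} : Ideal (OO p L)))
    A x i).symm

theorem rv_dot (k : ℕ) (x y : Fin n → OO p L) :
    (rv p L k x) ⬝ᵥ (rv p L k y) =
      Ideal.Quotient.mk (Ideal.span {pi0 p L ^ k} : Ideal (OO p L)) (x ⬝ᵥ y) :=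
  (RingHom.map_dotProduct (Ideal.Quotient.mk (Ideal.span {pi0 p L ^ k} : Ideal (OO p L)))
    x y).symm

/-! ### The actions -/

section Act

variable {G : Type} [Group G]

/-- the reduced action -/
def act (k : ℕ) (ρ : G →* GL (Fin n) (OO p L)) : G →* AddMonoid.End (MK p L n k) where
  toFun g := (((ρ g : Matrix (Fin n) (Fin n) (OO p L)).map
    (Ideal.Quotient.mk (Ideal.span {pi0 p L ^ k} : Ideal (OO p L)))).mulVecLin).toAddMonoidHom
  map_one' := by
    refine AddMonoidHom.ext fun m => ?_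
    obtain ⟨x, rfl⟩ := rv_surj k m
    change ((ρ 1 : GL (Fin n) (OO p L)) : Matrix (Fin n) (Fin n) (OO p L)).map _ *ᵥ _ = rv p L k x
    rw [rv_map, map_one, Units.val_one, Matrix.one_mulVec]
  map_mul' g h := by
    refine AddMonoidHom.ext fun m => ?_
    obtain ⟨x, rfl⟩ := rv_surj k m
    change ((ρ (g * h) : GL (Fin n) (OO p L)) : Matrix (Fin n) (Fin n) (OO p L)).map _ *ᵥ _ =
      ((ρ g : GL (Fin n) (OO p L)) : Matrix (Fin n) (Fin n) (OO p L)).map _ *ᵥ
        (((ρ h : GL (Fin n) (OO p L)) : Matrix (Fin n) (Fin n) (OO p L)).map _ *ᵥ _)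
    rw [rv_map, rv_map, rv_map, map_mul, Units.val_mul, Matrix.mulVec_mulVec]

theorem act_rv (k : ℕ) (ρ : G →* GL (Fin n) (OO p L)) (g : G) (v : Fin n → OO p L) :
    act k ρ g (rv p L k v) = rv p L k ((ρ g : Matrix (Fin n) (Fin n) (OO p L)) *ᵥ v) :=
  rv_map k _ v

theorem act_smul (k : ℕ) (ρ : G →* GL (Fin n) (OO p L)) (g : G) (a : OO p L)
    (m : MK p L n k) : act k ρ g (a • m) = a • act k ρ g m := by
  obtain ⟨x, rfl⟩ := rv_surj k m
  rw [← map_smul, act_rv, act_rv, Matrix.mulVec_smul, map_smul]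

variable [TopologicalSpace G]

theorem act_sm (k : ℕ) (ρ : G →* GL (Fin n) (OO p L)) (hρ : Continuous ρ) :
    Sm (act k ρ) := by
  set f : OO p L →+* OO p L ⧸ (Ideal.span {pi0 p L ^ k} : Ideal (OO p L)) :=
    Ideal.Quotient.mk (Ideal.span {pi0 p L ^ k} : Ideal (OO p L)) with hf
  refine ⟨((Matrix.GeneralLinearGroup.map (n := Fin n) f).comp ρ).ker, ?_, ?_⟩
  · have h1 : (((Matrix.GeneralLinearGroup.map (n := Fin n) f).comp ρ).ker : Set G) =
        ⋂ i : Fin n, ⋂ j : Fin n, (fun g : G => ((ρ g : Matrix (Fin n) (Fin n) (OO p L)) i j -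
          (1 : Matrix (Fin n) (Fin n) (OO p L)) i j)) ⁻¹'
            ((Ideal.span {pi0 p L ^ k} : Ideal (OO p L)) : Set (OO p L)) := by
      ext g
      simp only [Set.mem_iInter, Set.mem_preimage, SetLike.mem_coe, MonoidHom.mem_ker]
      have h2 : ∀ i j, (ρ g : Matrix (Fin n) (Fin n) (OO p L)) i j -
          (1 : Matrix (Fin n) (Fin n) (OO p L)) i j ∈
            (Ideal.span {pi0 p L ^ k} : Ideal (OO p L)) ↔
          f ((ρ g : Matrix (Fin n) (Fin n) (OO p L)) i j) =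
            (1 : Matrix (Fin n) (Fin n) _) i j := by
        intro i j
        rw [← Ideal.Quotient.eq, ← hf]
        have h3 : f ((1 : Matrix (Fin n) (Fin n) (OO p L)) i j) =
            (1 : Matrix (Fin n) (Fin n) _) i j := by
          rw [Matrix.one_apply, Matrix.one_apply]
          split_ifs
          · exact map_one f
          · exact map_zero f
        rw [h3]
      simp only [h2]
      constructor
      · intro h i j
        have h3 := congrArg Units.val h
        change (ρ g : Matrix (Fin n) (Fin n) (OO p L)).map f = 1 at h3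
        exact congrFun (congrFun h3 i) j
      · intro h
        refine Units.ext (Matrix.ext fun i j => ?_)
        exact h i j
    rw [h1]
    refine isOpen_iInter_of_finite fun i => isOpen_iInter_of_finite fun j => ?_
    refine (OO.isOpen_span p L k).preimage ?_
    exact ((Units.continuous_val.comp hρ).matrix_elem i j).sub continuous_const
  · intro g hg
    rw [MonoidHom.mem_ker] at hg
    refine AddMonoidHom.ext fun m => ?_
    have h3 := congrArg Units.val hg
    change (ρ g : Matrix (Fin n) (Fin n) (OO p L)).map f = 1 at h3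
    change (ρ g : Matrix (Fin n) (Fin n) (OO p L)).map f *ᵥ m = m
    rw [h3, Matrix.one_mulVec]

end Act

/-! ### The functional -/

theorem cl_zero_iff (x : ℚ_[p]) : cl p x = 0 ↔ ‖x‖ ≤ 1 := by
  unfold cl
  rw [Submodule.Quotient.mk_eq_zero]
  constructor
  · rintro ⟨y, hy⟩
    rw [← hy]
    exact y.norm_le_one
  · intro h
    exact ⟨⟨x, h⟩, rfl⟩

theorem cl_add (x y : ℚ_[p]) : cl p (x + y) = cl p x + cl p y := rfl

theorem cl_smul (c : ℤ_[p]) (x : ℚ_[p]) : cl p ((c : ℚ_[p]) * x) = c • cl p x := rfl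

/-- the functional on `𝒪/π^k` -/
def phi (lam : L →ₗ[ℚ_[p]] ℚ_[p]) (hlam : IsLam p L lam) (k : ℕ) :
    (OO p L ⧸ (Ideal.span {pi0 p L ^ k} : Ideal (OO p L))) →+ QZ p :=
  QuotientAddGroup.lift (Ideal.span {pi0 p L ^ k} : Ideal (OO p L)).toAddSubgroup
    { toFun := fun r => cl p (lam ((r : L) / ((pi0 p L : OO p L) : L) ^ k))
      map_zero' := by
        rw [Subring.coe_zero, zero_div, map_zero, cl_zero_iff, norm_zero]
        exact zero_le_one
      map_add' := fun r s => by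
        rw [Subring.coe_add, add_div, map_add, cl_add] }
    (by
      intro r hr
      rw [Submodule.mem_toAddSubgroup, Ideal.mem_span_singleton] at hr
      obtain ⟨s, rfl⟩ := hr
      change cl p (lam ((((pi0 p L) ^ k * s : OO p L) : L) / ((pi0 p L : OO p L) : L) ^ k)) = 0
      rw [cl_zero_iff, Subring.coe_mul, Subring.coe_pow, mul_div_cancel_left₀ _
        (pow_ne_zero k (pi0_ne p L))]
      have h1 := (hlam (s : L)).2 (OO.norm_le s) 1
      rwa [Subring.coe_one, one_mul] at h1)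

theorem phi_mk (lam : L →ₗ[ℚ_[p]] ℚ_[p]) (hlam : IsLam p L lam) (k : ℕ) (r : OO p L) :
    phi lam hlam k (Ideal.Quotient.mk _ r) =
      cl p (lam ((r : L) / ((pi0 p L : OO p L) : L) ^ k)) := rfl

theorem phi_nondeg (lam : L →ₗ[ℚ_[p]] ℚ_[p]) (hlam : IsLam p L lam) (k : ℕ)
    (z : OO p L ⧸ (Ideal.span {pi0 p L ^ k} : Ideal (OO p L)))
    (hz : ∀ a, phi lam hlam k (a * z) = 0) : z = 0 := by
  obtain ⟨r, rfl⟩ := Ideal.Quotient.mk_surjective z
  have h0 : ((pi0 p L : OO p L) : L) ^ k ≠ 0 := pow_ne_zero k (pi0_ne p L)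
  have h1 : ‖(r : L) / ((pi0 p L : OO p L) : L) ^ k‖ ≤ 1 := by
    rw [← hlam]
    intro a
    have h2 := hz (Ideal.Quotient.mk _ a)
    rw [← map_mul, phi_mk, cl_zero_iff, Subring.coe_mul, mul_div_assoc] at h2
    exact h2
  rw [Ideal.Quotient.eq_zero_iff_mem, Ideal.mem_span_singleton]
  refine ⟨⟨(r : L) / ((pi0 p L : OO p L) : L) ^ k, h1⟩, Subtype.ext ?_⟩
  rw [Subring.coe_mul, Subring.coe_pow]
  exact (mul_div_cancel₀ _ h0).symm

/-! ### The pairing -/

/-- the pairing -/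
def bb {k : ℕ} (φ : (OO p L ⧸ (Ideal.span {pi0 p L ^ k} : Ideal (OO p L))) →+ QZ p)
    (B : Matrix (Fin n) (Fin n) (OO p L)) : MK p L n k →+ MK p L n k →+ QZ p :=
  AddMonoidHom.mk' (fun x => AddMonoidHom.mk' (fun y => φ (x ⬝ᵥ ((B.map
    (Ideal.Quotient.mk (Ideal.span {pi0 p L ^ k} : Ideal (OO p L)))) *ᵥ y))) (fun y y' => by
      rw [Matrix.mulVec_add, dotProduct_add, map_add])) (fun x x' => by
    refine AddMonoidHom.ext fun y => ?_
    change φ ((x + x') ⬝ᵥ _) = φ _ + φ _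
    rw [add_dotProduct, map_add])

theorem bb_apply {k : ℕ} (φ : (OO p L ⧸ (Ideal.span {pi0 p L ^ k} : Ideal (OO p L))) →+ QZ p)
    (B : Matrix (Fin n) (Fin n) (OO p L)) (x y : MK p L n k) :
    bb φ B x y = φ (x ⬝ᵥ ((B.map
      (Ideal.Quotient.mk (Ideal.span {pi0 p L ^ k} : Ideal (OO p L)))) *ᵥ y)) := rfl

theorem bb_rv (lam : L →ₗ[ℚ_[p]] ℚ_[p]) (hlam : IsLam p L lam) (k : ℕ)
    (B : Matrix (Fin n) (Fin n) (OO p L)) (x y : Fin n → OO p L) :
    bb (phi lam hlam k) B (rv p L k x) (rv p L k y) =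
      cl p (lam (((x ⬝ᵥ (B *ᵥ y) : OO p L) : L) / ((pi0 p L : OO p L) : L) ^ k)) := by
  rw [bb_apply, rv_map, rv_dot, phi_mk]

theorem bb_bal (lam : L →ₗ[ℚ_[p]] ℚ_[p]) (hlam : IsLam p L lam) (k : ℕ)
    (B : Matrix (Fin n) (Fin n) (OO p L)) (a : OO p L) (x y : MK p L n k) :
    bb (phi lam hlam k) B (a • x) y = bb (phi lam hlam k) B x (a • y) := by
  obtain ⟨x, rfl⟩ := rv_surj k x
  obtain ⟨y, rfl⟩ := rv_surj k y
  rw [← map_smul, ← map_smul, bb_rv, bb_rv, smul_dotProduct, Matrix.mulVec_smul, dotProduct_smul]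

omit [FiniteDimensional ℚ_[p] L] in
theorem dual_entry {G : Type} [Group G] (χ : G →* ℤ_[p]ˣ) (ρ ρ' : G →* GL (Fin n) (OO p L))
    (B : Matrix (Fin n) (Fin n) (OO p L))
    (hD : IsDual χ ((toL p L n).comp ρ) ((toL p L n).comp ρ') (B.map (OO p L).subtype))
    (g : G) (x y : Fin n → OO p L) :
    ((((ρ g : Matrix (Fin n) (Fin n) (OO p L)) *ᵥ x) ⬝ᵥ
      (B *ᵥ ((ρ' g : Matrix (Fin n) (Fin n) (OO p L)) *ᵥ y)) : OO p L) : L) =
      BKOdd.chL χ L g * ((x ⬝ᵥ (B *ᵥ y) : OO p L) : L) := by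
  have h1 := hD g
  set f : OO p L →+* L := (OO p L).subtype with hf
  have hV : (((toL p L n).comp ρ g : GL (Fin n) L) : Matrix (Fin n) (Fin n) L) =
      (ρ g : Matrix (Fin n) (Fin n) (OO p L)).map f := rfl
  have hV' : (((toL p L n).comp ρ' g : GL (Fin n) L) : Matrix (Fin n) (Fin n) L) =
      (ρ' g : Matrix (Fin n) (Fin n) (OO p L)).map f := rfl
  rw [hV, hV'] at h1
  have hm : ∀ (A : Matrix (Fin n) (Fin n) (OO p L)) (v : Fin n → OO p L),
      f ∘ (A *ᵥ v) = (A.map f) *ᵥ (f ∘ v) := by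
    intro A v
    funext i
    exact RingHom.map_mulVec f A v i
  change f _ = _ * f _
  rw [RingHom.map_dotProduct, RingHom.map_dotProduct, hm, hm, hm, hm,
    ← Matrix.vecMul_transpose, ← Matrix.dotProduct_mulVec, Matrix.mulVec_mulVec,
    Matrix.mulVec_mulVec, h1, Matrix.smul_mulVec, dotProduct_smul, smul_eq_mul]

theorem bb_eqv {G : Type} [Group G] (χ : G →* ℤ_[p]ˣ) (ρ ρ' : G →* GL (Fin n) (OO p L))
    (B : Matrix (Fin n) (Fin n) (OO p L))
    (hD : IsDual χ ((toL p L n).comp ρ) ((toL p L n).comp ρ') (B.map (OO p L).subtype))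
    (lam : L →ₗ[ℚ_[p]] ℚ_[p]) (hlam : IsLam p L lam) (k : ℕ) (g : G) (x y : MK p L n k) :
    bb (phi lam hlam k) B (act k ρ g x) (act k ρ' g y) =
      actA χ g (bb (phi lam hlam k) B x y) := by
  obtain ⟨x, rfl⟩ := rv_surj k x
  obtain ⟨y, rfl⟩ := rv_surj k y
  rw [act_rv, act_rv, bb_rv, bb_rv, actA_apply, dual_entry χ ρ ρ' B hD, ← cl_smul]
  have h1 : BKOdd.chL χ L g = algebraMap ℚ_[p] L (((χ g : ℤ_[p]ˣ) : ℤ_[p]) : ℚ_[p]) := rfl
  rw [h1, mul_div_assoc, ← Algebra.smul_def, map_smul, smul_eq_mul]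

theorem left_nondeg (lam : L →ₗ[ℚ_[p]] ℚ_[p]) (hlam : IsLam p L lam) (k : ℕ)
    (B : Matrix (Fin n) (Fin n) (OO p L)) (hB : IsUnit B.det) (x : MK p L n k)
    (hx : ∀ y, bb (phi lam hlam k) B x y = 0) : x = 0 := by
  set f : OO p L →+* OO p L ⧸ (Ideal.span {pi0 p L ^ k} : Ideal (OO p L)) :=
    Ideal.Quotient.mk (Ideal.span {pi0 p L ^ k} : Ideal (OO p L)) with hf
  have hB' : IsUnit (B.map f).det := by
    have h1 : (B.map f).det = f B.det := (RingHom.map_det f B).symm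
    rw [h1]
    exact hB.map f
  funext i
  refine phi_nondeg lam hlam k (x i) fun a => ?_
  have h2 := hx ((B.map f)⁻¹ *ᵥ (Pi.single i a))
  rw [bb_apply, Matrix.mulVec_mulVec, Matrix.mul_nonsing_inv _ hB', Matrix.one_mulVec,
    dotProduct_single, mul_comm] at h2
  exact h2

theorem right_nondeg (lam : L →ₗ[ℚ_[p]] ℚ_[p]) (hlam : IsLam p L lam) (k : ℕ)
    (B : Matrix (Fin n) (Fin n) (OO p L)) (hB : IsUnit B.det) (y : MK p L n k)
    (hy : ∀ x, bb (phi lam hlam k) B x y = 0) : y = 0 := by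
  set f : OO p L →+* OO p L ⧸ (Ideal.span {pi0 p L ^ k} : Ideal (OO p L)) :=
    Ideal.Quotient.mk (Ideal.span {pi0 p L ^ k} : Ideal (OO p L)) with hf
  have hB' : IsUnit (B.map f).det := by
    have h1 : (B.map f).det = f B.det := (RingHom.map_det f B).symm
    rw [h1]
    exact hB.map f
  have h1 : (B.map f) *ᵥ y = 0 := by
    funext i
    refine phi_nondeg lam hlam k _ fun a => ?_
    have h2 := hy (Pi.single i a)
    rw [bb_apply, single_dotProduct] at h2
    exact h2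
  have h2 : (B.map f)⁻¹ *ᵥ ((B.map f) *ᵥ y) = y := by
    rw [Matrix.mulVec_mulVec, Matrix.nonsing_inv_mul _ hB', Matrix.one_mulVec]
  rw [← h2, h1, Matrix.mulVec_zero]

/-- annihilators for a nondegenerate pairing -/
theorem perf_of {R : Type} [CommRing R] {M M' : Type} [AddCommGroup M] [Module R M]
    [AddCommGroup M'] [Module R M'] [Finite M] (b : M →+ M' →+ QZ p)
    (h1 : ∀ v, (∀ w, b v w = 0) → v = 0) (h2 : ∀ w, (∀ v, b v w = 0) → w = 0)
    (P : Submodule R M) (m : M) (h : ∀ m', (∀ n ∈ P, b n m' = 0) → b m m' = 0) : m ∈ P := by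
  obtain ⟨-, -, h3⟩ := stPerf (stHoms stExt) p M M' b h1 h2
  have h4 := h3 P.toAddSubgroup
    { carrier := {w | ∀ v ∈ P, b v w = 0}
      add_mem' := by
        intro x y hx hy v hv
        rw [map_add, hx v hv, hy v hv, add_zero]
      zero_mem' := fun v _ => map_zero _
      neg_mem' := by
        intro x hx v hv
        rw [map_neg, hx v hv, neg_zero] } (fun w => Iff.rfl)
  exact (h4.2.1 m).2 fun w hw => h w hw

end LMK

open LMK in
/-- Module MK: the pair `(𝒪/π^k)^n`. -/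
theorem stMk : StMk := by
  intro p _ L _ _ _ G _ _ _ _ χ n ρ ρ' hρ hρ' B hB hD lam hlam k
  refine ⟨card_MK k, ?_⟩
  refine ⟨{ ρ := act k ρ
            ρ' := act k ρ'
            b := bb (phi lam hlam k) B
            sm := act_sm k ρ hρ
            sm' := act_sm k ρ' hρ'
            lin := act_smul k ρ
            lin' := act_smul k ρ'
            eqv := bb_eqv χ ρ ρ' B hD lam hlam k
            bal := bb_bal lam hlam k B
            perf := perf_of _ (left_nondeg lam hlam k B hB) (right_nondeg lam hlam k B hB)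
            perf' := fun P m' h => perf_of (bb (phi lam hlam k) B).flip
              (right_nondeg lam hlam k B hB) (left_nondeg lam hlam k B hB) P m' h }, ?_⟩
  exact ⟨act_rv k ρ, act_rv k ρ', bb_rv lam hlam k B⟩

end BKMet
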