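import Pool.Agent.Lib.MP_7c08ba_nt.Met.StF
import Pool.Agent.Lib.MP_7c08ba_nt.Met.XAll
import Pool.Agent.Lib.MP_7c08ba_nt.Met.LLATT
import Pool.Agent.Lib.MP_7c08ba_nt.Met.LLV
import Pool.Agent.Lib.MP_7c08ba_nt.Met.LMK

set_option autoImplicit false

/-!
Metabolic parity, part F, module PARX: parity and the Euler characteristic with coefficients in
`L`.
-/

noncomputable section

namespace BKMet

open BKPar (Loc1 Loc2)
open BKND (Sm)
open Matrix

namespace FPARX

section Tp

variable {R : Type} [CommRing R] {p : ℕ} [Fact p.Prime] {G : Type} [Group G]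
  [TopologicalSpace G] {α α' : G →* AddMonoid.End (QZ p)} {M M' : Type} [AddCommGroup M]
  [Module R M] [AddCommGroup M'] [Module R M']

/-- the same pair with an equal action on the coefficients -/
def tp (h : α' = α) (X : Pair R α M M') : Pair R α' M M' where
  ρ := X.ρ
  ρ' := X.ρ'
  b := X.b
  sm := X.sm
  sm' := X.sm'
  lin := X.lin
  lin' := X.lin'
  eqv := fun g m m' => by
    rw [h]
    exact X.eqv g m m'
  bal := X.bal
  perf := X.perf
  perf' := X.perf'

theorem lines_tp (h : α' = α) (X : Pair R α M M') {k : Type} [Field k] {U : Subgroup G}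
    (hl : Lines X k U) : Lines (tp h X) k U := by
  subst h
  exact hl

end Tp

/-- the comparison of two linear recursions -/
theorem num {q n s f f' k : ℕ} (hq : 2 ≤ q) {H H' H1 H1' : ℕ} (h0 : H' ≠ 0)
    (h1 : H * (q ^ (n * k)) ^ s = H' * q ^ (n * k))
    (h2 : H1 * (q ^ (n * (k + 1))) ^ s = H1' * q ^ (n * (k + 1)))
    (h3 : H1 * q ^ n = H * q ^ f) (h4 : H1' * q ^ n = H' * q ^ f') : f + n * s = f' + n := by
  have hq0 : 0 < q := by omega
  have h5 : (H' * q ^ (n * k)) * q ^ (f + n * s) = (H' * q ^ (n * k)) * q ^ (f' + n) := by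
    calc (H' * q ^ (n * k)) * q ^ (f + n * s)
        = (H * (q ^ (n * k)) ^ s) * (q ^ f * q ^ (n * s)) := by rw [h1, pow_add]
      _ = (H * q ^ f) * (q ^ (n * (k + 1))) ^ s := by
          rw [← pow_mul, ← pow_mul, Nat.mul_add, Nat.add_mul, mul_one, pow_add]
          ring
      _ = (H1 * (q ^ (n * (k + 1))) ^ s) * q ^ n := by
          rw [← h3]
          ring
      _ = (H1' * q ^ n) * q ^ (n * (k + 1)) := by
          rw [h2]
          ring
      _ = (H' * q ^ (n * k)) * q ^ (f' + n) := by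
          rw [h4, Nat.mul_add, mul_one, pow_add, pow_add]
          ring
  have h6 : 0 < H' * q ^ (n * k) := Nat.mul_pos (Nat.pos_of_ne_zero h0) (pow_pos hq0 _)
  exact Nat.pow_right_injective hq (Nat.eq_of_mul_eq_mul_left h6 h5)

end FPARX

open FPARX in
/-- Module PARX. -/
theorem stParX (h1 : StLam) (h2 : StMk) (h3 : StTri) (h4 : StLatt) (h5 : StLagr) (h6 : StLink)
    (h7 : StLimG) (h8 : StGam) : StParX := by
  intro p _ hp L _ _ _ ι _ G _ _ _ _ _ D _ _ _ _ r c χ inv δ U hS n V A B hV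
  obtain ⟨Γ, hr, hi, ht, hax⟩ := h8 p hp ι G D r c χ inv δ U hS
  -- the lattice
  have hBdet : IsUnit (B : Matrix (Fin n) (Fin n) L).det := by
    rw [← Matrix.isUnit_iff_isUnit_det]
    exact B.isUnit
  obtain ⟨S, ρ, B₀, N, hρ, hB₀, hB₀u, hSB, hN1, hN2, hN3⟩ :=
    h4 p L G n V A hV.tri c hS.inv_c χ (B : Matrix (Fin n) (Fin n) L) hV.symm hBdet hV.dual hV.nsd
  have hρc : Continuous ρ := by
    have e1 : Continuous fun g => S * V g * S⁻¹ := (continuous_const.mul hV.cont).mul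
      continuous_const
    exact LLV.continuous_lift (W := (MulAut.conj S).toMonoidHom.comp V) e1 hρ
  obtain ⟨ρ', hρ'⟩ : ∃ ρ' : G →* GL (Fin n) (OO p L), ρ' = ρ.comp c := ⟨_, rfl⟩
  have hρc' : Continuous ρ' := by
    rw [hρ']
    exact hρc.comp hS.cont_c
  have hdual : IsDual χ ((toL p L n).comp ρ) ((toL p L n).comp ρ') (B₀.map (OO p L).subtype) := by
    rw [hρ']
    exact LLATT.dual_conj hV.dual hρ hSB
  obtain ⟨lam, hlam⟩ := h1 p L
  have hmk := fun k => h2 p L G χ n ρ ρ' hρc hρc' B₀ hB₀u hdual lam hlam k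
  have hcard : ∀ k, Nat.card (MK p L n k) = Nat.card (kk p L) ^ (n * k) := fun k => (hmk k).1
  choose X hX using fun k => (hmk k).2
  -- eigenvectors
  have heig : Eig ρ (IsDiag V A) := (h3 p L G n V A hV.tri).2 S ρ hρ
  have hlines : ∀ k, Lines (X k) (kk p L) U ∧ Lines (X k).flip (kk p L) U := fun k =>
    h6 p L G n ρ (IsDiag V A) heig G (MonoidHom.id G) χ ρ' B₀ lam k (X k) (hX k) U hS.open'
      hS.fix hV.triv
  -- the index
  have hq : 2 ≤ Nat.card (kk p L) := by
    have h0 : Finite (kk p L) := instFiniteRes p L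
    exact Finite.one_lt_card
  have hr' : Γ.r = rr r c := funext hr
  have hindex : ∀ k, ((⊥ : Submodule (OO p L) (MK p L n k)).toAddSubgroup.relIndex
      (⊤ : Submodule (OO p L) (MK p L n k)).toAddSubgroup) = Nat.card (kk p L) ^ (n * k) := by
    intro k
    rw [← hcard k]
    change (⊥ : AddSubgroup (MK p L n k)).relIndex (⊤ : AddSubgroup (MK p L n k)) = _
    rw [AddSubgroup.relIndex_top_right, AddSubgroup.index_bot]
  -- the Euler characteristic at level `k`
  have hind : ∀ (k : ℕ) (T : Set (ι × Bool)), T.Nonempty → Tᶜ.Nonempty →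
      ((X k).Br T ⊥ ⊤).toAddSubgroup.relIndex ((X k).Zr (rr r c) T ⊥ ⊤).toAddSubgroup ≠ 0 ∧
      ((X k).flip.Br Tᶜ ⊥ ⊤).toAddSubgroup.relIndex
        ((X k).flip.Zr (rr r c) Tᶜ ⊥ ⊤).toAddSubgroup ≠ 0 ∧
      ((X k).Br T ⊥ ⊤).toAddSubgroup.relIndex ((X k).Zr (rr r c) T ⊥ ⊤).toAddSubgroup *
        (Nat.card (kk p L) ^ (n * k)) ^ (∑ w, open Classical in if w ∈ T then δ w.1 else 0) =
      ((X k).flip.Br Tᶜ ⊥ ⊤).toAddSubgroup.relIndex
        ((X k).flip.Zr (rr r c) Tᶜ ⊥ ⊤).toAddSubgroup * Nat.card (kk p L) ^ (n * k) := by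
    intro k T hT hT'
    obtain ⟨-, e1, e2, e3⟩ := All.ind (OO p L) p (ι × Bool) G (DD D) Γ χ U (fun w => δ w.1) hax
      (MK p L n k) (MK p L n k) (tp hax.act (X k)) (kk p L) (lines_tp hax.act (X k) (hlines k).1)
      (lines_tp hax.act (X k).flip (hlines k).2) T hT hT' ⊥ ⊤ ⊤
      (fun g m hm => by
        rw [(Submodule.mem_bot _).1 hm, map_zero]
        exact Submodule.zero_mem _) (fun _ _ _ => Submodule.mem_top)
      (fun _ _ _ => Submodule.mem_top) bot_le le_rfl
    obtain ⟨-, -, e4, e5, -⟩ := All.perp (OO p L) p G Γ.α (MK p L n k) (MK p L n k)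
      (tp hax.act (X k))
    rw [e4, e5, hr'] at e2 e3
    rw [hr'] at e1
    rw [hindex k] at e3
    exact ⟨e1, e2, e3⟩
  -- limits
  have hlim := fun (T : Set (ι × Bool)) (hT : T.Nonempty) (hT' : Tᶜ.Nonempty) =>
    h7 p L G (ι × Bool) (DD D) (rr r c) n V S ρ hρc hρ (QZ p) (actA χ) X
      (fun k => (hX k).act) T hT (fun k => (hind k T hT hT').1)
  have hlim' := fun (T : Set (ι × Bool)) (hT : T.Nonempty) (hT' : Tᶜ.Nonempty) =>
    h7 p L G (ι × Bool) (DD D) (rr r c) n (V.comp c) S ρ' hρc' (fun g => by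
      rw [hρ']
      exact hρ (c g)) (QZ p) (actA χ) (fun k => (X k).flip)
      (fun k => (hX k).act') Tᶜ hT' (fun k => (hind k T hT hT').2.1)
  refine ⟨?_, fun T hT hT' => ?_⟩
  · -- parity
    obtain ⟨i₀⟩ : Nonempty ι := by
      by_contra hne
      rw [not_nonempty_iff] at hne
      have e1 := hS.sum
      rw [Finset.univ_eq_empty, Finset.sum_empty] at e1
      exact zero_ne_one e1
    obtain ⟨f1, f2, K, hK⟩ := hlim {w | w.2 = false} ⟨(i₀, false), rfl⟩
      ⟨(i₀, true), fun h => Bool.noConfusion (h : true = false)⟩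
    refine ⟨f1, ?_⟩
    have hsd : ∀ k, ∃ m : ℕ, ((X k).Br {w : ι × Bool | w.2 = false} ⊥ ⊤).toAddSubgroup.relIndex
        ((X k).Zr (rr r c) {w | w.2 = false} ⊥ ⊤).toAddSubgroup =
          Nat.card (kk p L) ^ (2 * m) := by
      intro k
      obtain ⟨e1, N', e2, e3⟩ := h5 p L G χ n ρ ρ' B₀ hB₀ hB₀u lam hlam N hN1 hN2 hN3 k (X k)
        (hX k)
      have e4 : (X k).ρ' = (X k).ρ.comp c := by
        apply MonoidHom.ext
        intro g
        apply AddMonoidHom.ext
        intro m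
        obtain ⟨v, rfl⟩ := LMK.rv_surj k m
        change (X k).ρ' g (rv p L k v) = (X k).ρ (c g) (rv p L k v)
        rw [(hX k).act', (hX k).act, hρ']
        rfl
      obtain ⟨m, hm⟩ := All.sd (OO p L) p hp instAlgRes ι G D r c hS.cont_c hS.inv_c Γ hr hi ht χ
        hS.χ_c U (fun w => δ w.1) hax hS.sum (MK p L n k) (tp hax.act (X k)) e4 e1
        (lines_tp hax.act (X k) (hlines k).1) (lines_tp hax.act (X k).flip (hlines k).2) N' e2 e3
      rw [hr'] at hm
      exact ⟨m, hm⟩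
    obtain ⟨m, hm⟩ := hsd K
    obtain ⟨m', hm'⟩ := hsd (K + 1)
    have e1 := hK K le_rfl
    rw [hm, hm', ← pow_add, ← pow_add] at e1
    have e2 := Nat.pow_right_injective hq e1
    omega
  · -- the Euler characteristic
    obtain ⟨f1, f2, K, hK⟩ := hlim T hT hT'
    obtain ⟨f1', f2', K', hK'⟩ := hlim' T hT hT'
    refine ⟨f1, f1', ?_⟩
    have e1 := hind (max K K') T hT hT'
    have e2 := hind (max K K' + 1) T hT hT'
    exact num hq e1.2.1 e1.2.2 e2.2.2 (hK _ (le_max_left _ _)) (hK' _ (le_max_right _ _))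

end BKMet
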