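import Pool.Agent.Lib.MP_7c08ba_nt.Met.LocStmts
import Pool.Agent.Lib.MP_c385f6_ag.RT.Root
import Pool.Agent.Lib.MP_c385f6_ag.RT.Frob
import Pool.Agent.Lib.MP_c385f6_ag.RT.Unr

set_option autoImplicit false

/-!
Module FR: the cyclotomic character of `ℚ_l` with values in `ℤ_p`, `l ≠ p`.
-/

noncomputable section

namespace BKLoc2

open BKOdd

namespace FRAux

open Pool.Agent.Lib.MP_c385f6_ag.RT Polynomial

section Res

variable {C : Type*} [Field C] (v : AbsoluteValue C ℝ) (na : ∀ x y, v (x + y) ≤ max (v x) (v y))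

instance : (UnrAux.II v na).IsMaximal := by
  rw [Ideal.isMaximal_iff]
  refine ⟨fun h => ?_, fun J x hJ hx hxJ => ?_⟩
  · rw [UnrAux.mem_II] at h
    simp at h
  · rw [UnrAux.mem_II] at hx
    have h1 : v (x : C) = 1 := le_antisymm x.2 (not_lt.1 hx)
    have h0 : (x : C) ≠ 0 := by
      intro h
      rw [h] at h1
      simp at h1
    have h2 : v (x : C)⁻¹ ≤ 1 := by rw [map_inv₀, h1, inv_one]
    have h3 : (⟨(x : C)⁻¹, h2⟩ : UnrAux.OO v na) * x ∈ J := J.mul_mem_left _ hxJ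
    convert h3 using 1
    exact Subtype.ext (inv_mul_cancel₀ h0).symm

/-- the residue field -/
abbrev KK : Type _ := UnrAux.OO v na ⧸ UnrAux.II v na

instance : Field (KK v na) := Ideal.Quotient.field _

theorem mk_eq (x y : UnrAux.OO v na) :
    Ideal.Quotient.mk (UnrAux.II v na) x = Ideal.Quotient.mk (UnrAux.II v na) y ↔
      v ((x : C) - y) < 1 := by
  rw [Ideal.Quotient.eq, UnrAux.mem_II]
  rfl

include na in
/-- An automorphism which preserves the absolute value maps a root of unity of order prime to `l`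
to its power with exponent a power of `l`, up to elements of small absolute value. -/
theorem exists_pow {l : ℕ} [Fact l.Prime] (hv : v (l : C) < 1) (g : C ≃+* C)
    (hg : ∀ x, v (g x) = v x) {N : ℕ} (hN : N ≠ 0) (hl : N.Coprime l) {ζ : C} (hζ : ζ ^ N = 1) :
    ∃ j : ℕ, v (g ζ - ζ ^ l ^ j) < 1 := by
  have hlp : l.Prime := Fact.out
  have hK : ((l : ℕ) : KK v na) = 0 := by
    have h : ((l : ℕ) : KK v na) = Ideal.Quotient.mk (UnrAux.II v na) (l : UnrAux.OO v na) := by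
      rw [map_natCast]
    rw [h, Ideal.Quotient.eq_zero_iff_mem, UnrAux.mem_II]
    simpa using hv
  have _ : CharP (KK v na) l := (CharP.charP_iff_prime_eq_zero hlp).2 hK
  have _ : ExpChar (KK v na) l := ExpChar.prime hlp
  have hvζ : v ζ = 1 := FrobAux.v_root v hN hζ
  set ζ' : UnrAux.OO v na := ⟨ζ, hvζ.le⟩ with hζ'
  set z : KK v na := Ideal.Quotient.mk (UnrAux.II v na) ζ' with hz
  set d := N.totient with hd
  have hd0 : 0 < d := Nat.totient_pos.2 (Nat.pos_of_ne_zero hN)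
  have hzN : z ^ N = 1 := by
    rw [hz, ← map_pow, ← map_one (Ideal.Quotient.mk (UnrAux.II v na))]
    congr 1
    exact Subtype.ext hζ
  have hcyc : z ^ l ^ d = z := by
    have h1 : l ^ d ≡ 1 [MOD N] := Nat.ModEq.pow_totient hl.symm
    rw [pow_eq_pow_of_modEq h1 hzN, pow_one]
  -- the polynomial with roots the conjugates
  set P : (KK v na)[X] := ∏ j ∈ Finset.range d, (X - Polynomial.C (z ^ l ^ j)) with hP
  have hPf : P.map (frobenius (KK v na) l) = P := by
    have h1 : P.map (frobenius (KK v na) l) =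
        ∏ j ∈ Finset.range d, (X - Polynomial.C (z ^ l ^ (j + 1))) := by
      rw [hP, Polynomial.map_prod]
      refine Finset.prod_congr rfl fun j _ => ?_
      rw [Polynomial.map_sub, Polynomial.map_X, Polynomial.map_C, frobenius_def, ← pow_mul,
        ← pow_succ]
    have h2 := Finset.prod_range_succ (fun j => (X - Polynomial.C (z ^ l ^ j) : (KK v na)[X])) d
    have h3 := Finset.prod_range_succ' (fun j => (X - Polynomial.C (z ^ l ^ j) : (KK v na)[X])) d
    rw [h2, hcyc, pow_zero, pow_one] at h3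
    rw [h1]
    exact (mul_right_cancel₀ (X_sub_C_ne_zero z) h3).symm
  have hPc : ∀ i, P.coeff i ∈ (ZMod.castHom (dvd_refl l) (KK v na)).range := by
    intro i
    have h1 : P.coeff i ^ l = P.coeff i := by
      conv_rhs => rw [← hPf]
      rw [Polynomial.coeff_map, frobenius_def]
    have h2 := (Subfield.mem_bot_iff_pow_eq_self (KK v na) l).2 h1
    rw [← ZMod.fieldRange_castHom_eq_bot l] at h2
    obtain ⟨a, ha⟩ := h2
    exact ⟨a, ha⟩
  obtain ⟨F, hF⟩ : ∃ F : (ZMod l)[X], F.map (ZMod.castHom (dvd_refl l) (KK v na)) = P := by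
    have h1 : P ∈ Polynomial.lifts (ZMod.castHom (dvd_refl l) (KK v na)) := by
      rw [Polynomial.lifts_iff_coeff_lifts]
      intro i
      obtain ⟨a, ha⟩ := hPc i
      exact ⟨a, ha⟩
    exact h1
  -- the automorphism of the residue field
  let gO : UnrAux.OO v na →+* UnrAux.OO v na :=
    (g : C →+* C).restrict _ _ fun x hx => by
      change v (g x) ≤ 1
      rw [hg]
      exact hx
  have hgI : UnrAux.II v na ≤ (UnrAux.II v na).comap gO := by
    intro x hx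
    rw [Ideal.mem_comap, UnrAux.mem_II]
    change v (g x) < 1
    rw [hg]
    exact hx
  let gK : KK v na →+* KK v na := Ideal.quotientMap _ gO hgI
  have hgz : gK z = Ideal.Quotient.mk (UnrAux.II v na) (gO ζ') := Ideal.quotientMap_mk
  have hPg : P.map gK = P := by
    rw [← hF, Polynomial.map_map]
    congr 1
    exact Subsingleton.elim _ _
  have hPz : P.eval z = 0 := by
    rw [hP, Polynomial.eval_prod]
    refine Finset.prod_eq_zero (Finset.mem_range.2 hd0) ?_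
    rw [pow_zero, pow_one, eval_sub, eval_X, eval_C, sub_self]
  have hPgz : P.eval (gK z) = 0 := by
    rw [← hPg, Polynomial.eval_map, Polynomial.eval₂_at_apply, hPz, map_zero]
  rw [hP, Polynomial.eval_prod, Finset.prod_eq_zero_iff] at hPgz
  obtain ⟨j, -, hj⟩ := hPgz
  rw [eval_sub, eval_X, eval_C, sub_eq_zero, hgz, hz, ← map_pow, mk_eq] at hj
  exact ⟨j, hj⟩

end Res

section Padic

variable (l : ℕ) [Fact l.Prime]

/-- the absolute value of the algebraic closure of `ℚ_l` -/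
def nv : AbsoluteValue (PadicAlgCl l) ℝ where
  toFun x := ‖x‖
  map_mul' := norm_mul
  nonneg' := norm_nonneg
  eq_zero' _ := norm_eq_zero
  add_le' := norm_add_le

theorem nv_na (x y : PadicAlgCl l) : nv l (x + y) ≤ max (nv l x) (nv l y) :=
  IsUltrametricDist.norm_add_le_max x y

theorem nv_b (c : ℚ_[l]) : nv l (algebraMap ℚ_[l] (PadicAlgCl l) c) = ‖c‖ :=
  norm_algebraMap' (PadicAlgCl l) c

theorem nv_i (g : PadicAlgCl l ≃ₐ[ℚ_[l]] PadicAlgCl l) (x : PadicAlgCl l) :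
    nv l (g x) = nv l x := by
  change ‖g x‖ = ‖x‖
  rw [← PadicAlgCl.spectralNorm_eq, ← PadicAlgCl.spectralNorm_eq]
  exact (spectralNorm_eq_of_equiv g x).symm

theorem nv_l : nv l (l : PadicAlgCl l) < 1 := by
  have h : (l : PadicAlgCl l) = algebraMap ℚ_[l] (PadicAlgCl l) (l : ℚ_[l]) := by simp
  rw [h, nv_b]
  exact Padic.norm_p_lt_one

theorem fermat (c : ℚ_[l]) (hc : ‖c‖ ≤ 1) : ‖c ^ l ^ 1 - c‖ < 1 := by
  set x : ℤ_[l] := ⟨c, hc⟩ with hx
  have h1 : PadicInt.toZMod (x ^ l ^ 1 - x) = 0 := by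
    rw [map_sub, map_pow, pow_one, ZMod.pow_card, sub_self]
  have h2 : x ^ l ^ 1 - x ∈ RingHom.ker (PadicInt.toZMod (p := l)) := h1
  rw [PadicInt.ker_toZMod, IsLocalRing.mem_maximalIdeal, PadicInt.mem_nonunits] at h2
  have h3 : ‖((x ^ l ^ 1 - x : ℤ_[l]) : ℚ_[l])‖ < 1 := h2
  push_cast at h3
  simpa [hx] using h3

theorem eq_of_close {l : ℕ} [Fact l.Prime] {N : ℕ} (hN : N ≠ 0) (hl : ¬ l ∣ N)
    {x y : PadicAlgCl l} (hx : x ^ N = 1) (hy : y ^ N = 1) (h : nv l (x - y) < 1) : x = y := by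
  have hlp : l.Prime := Fact.out
  have hy0 : y ≠ 0 := by
    rintro rfl
    rw [zero_pow hN] at hy
    exact zero_ne_one hy
  by_contra hne
  have h1 : (x / y) ^ N = 1 := by rw [div_pow, hx, hy, div_one]
  have h2 : x / y ≠ 1 := by rwa [Ne, div_eq_one_iff_eq hy0]
  have h3 := (root_of (nv l) (nv_na l) l hlp (nv_l l)).2 N _ hl h1 h2
  have h4 : x - y = (x / y - 1) * y := by field_simp
  rw [h4, map_mul, h3, FrobAux.v_root (nv l) hN hy] at h
  norm_num at h

/-- the cyclotomic character -/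
theorem cy_spec' {p k : ℕ} [Fact p.Prime] (l : ℕ) [Fact l.Prime] (g : GQ l) {ζ : PadicAlgCl l}
    (hζ : ζ ^ p ^ k = 1) :
    g ζ = ζ ^ (PadicInt.toZModPow k ((cyL p l g : ℤ_[p]ˣ) : ℤ_[p])).val := by
  have hE : ∀ i : ℕ, HasEnoughRootsOfUnity (PadicAlgCl l) (p ^ i) := fun i => by
    have : NeZero (((p ^ i : ℕ)) : PadicAlgCl l) := ⟨by
      rw [Nat.cast_ne_zero]
      exact pow_ne_zero _ (Fact.out : p.Prime).ne_zero⟩
    infer_instance
  exact cyclotomicCharacter.spec p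
    (MulSemiringAction.toRingAut (PadicAlgCl l ≃ₐ[ℚ_[l]] PadicAlgCl l) (PadicAlgCl l) g) ζ hζ

theorem toZModPow_of {p k : ℕ} [Fact p.Prime] (l : ℕ) [Fact l.Prime] (g : GQ l)
    {ζ : PadicAlgCl l} (hζ : IsPrimitiveRoot ζ (p ^ k)) {m : ℕ} (h : g ζ = ζ ^ m) :
    PadicInt.toZModPow k ((cyL p l g : ℤ_[p]ˣ) : ℤ_[p]) = (m : ZMod (p ^ k)) := by
  have hp0 : p ^ k ≠ 0 := pow_ne_zero _ (Fact.out : p.Prime).ne_zero
  have : NeZero (p ^ k) := ⟨hp0⟩
  rw [cy_spec' l g hζ.pow_eq_one] at h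
  have hm : ζ ^ m = ζ ^ (m % p ^ k) := by
    conv_lhs => rw [← Nat.mod_add_div m (p ^ k), pow_add, pow_mul, hζ.pow_eq_one, one_pow,
      mul_one]
  rw [hm] at h
  have h1 := hζ.pow_inj (ZMod.val_lt _) (Nat.mod_lt _ (Nat.pos_of_ne_zero hp0)) h
  have h2 : (((PadicInt.toZModPow k ((cyL p l g : ℤ_[p]ˣ) : ℤ_[p])).val : ℕ) : ZMod (p ^ k)) =
      ((m % p ^ k : ℕ) : ZMod (p ^ k)) := by rw [h1]
  rwa [ZMod.natCast_zmod_val, ZMod.natCast_mod] at h2

end Padic

end FRAux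

open FRAux Pool.Agent.Lib.MP_c385f6_ag.RT

/-- Module FR -/
theorem stFr : StFr := by
  intro p l _ _ hlp
  have hp : p.Prime := Fact.out
  have hl : l.Prime := Fact.out
  have hprim : ∀ k : ℕ, ∃ ζ : PadicAlgCl l, IsPrimitiveRoot ζ (p ^ k) := by
    intro k
    have : NeZero (((p ^ k : ℕ)) : PadicAlgCl l) := ⟨by
      rw [Nat.cast_ne_zero]
      exact pow_ne_zero _ hp.ne_zero⟩
    exact HasEnoughRootsOfUnity.exists_primitiveRoot (PadicAlgCl l) (p ^ k)
  have hN0 : ∀ k : ℕ, p ^ k ≠ 0 := fun k => pow_ne_zero _ hp.ne_zero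
  have hcop : ∀ k : ℕ, (p ^ k).Coprime l := fun k =>
    Nat.Coprime.pow_left k ((Nat.coprime_primes hp hl).2 (Ne.symm hlp))
  have hdvd : ∀ k : ℕ, ¬ l ∣ p ^ k := fun k h =>
    hl.one_lt.ne' (Nat.eq_one_of_dvd_coprimes (hcop k) h dvd_rfl)
  refine ⟨?_, fun g k => ?_⟩
  · -- existence of the Frobenius
    have h1 : ∀ k : ℕ, ∃ g : GQ l,
        PadicInt.toZModPow k ((cyL p l g : ℤ_[p]ˣ) : ℤ_[p]) = (l : ZMod (p ^ k)) := by
      intro k
      obtain ⟨ζ, hζ⟩ := hprim k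
      obtain ⟨σ, hσ⟩ := FrobAux.frob_one ℚ_[l] (PadicAlgCl l) (nv l) (nv_na l) (nv_b l) l 1 hl
        (nv_l l) (fun m ζ h => (root_of (nv l) (nv_na l) l hl (nv_l l)).2 m ζ h) (fermat l)
        (hN0 k) (hdvd k) hζ.pow_eq_one
      rw [pow_one] at hσ
      exact ⟨σ, toZModPow_of l σ hζ hσ⟩
    have hcont : Continuous fun g : GQ l => ((cyL p l g : ℤ_[p]ˣ) : ℤ_[p]) :=
      Units.continuous_val.comp (cyclotomicCharacter.continuous p ℚ_[l] (PadicAlgCl l))
    have hclosed := (isCompact_range hcont).isClosed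
    have hmem : (l : ℤ_[p]) ∈ closure (Set.range fun g : GQ l => ((cyL p l g : ℤ_[p]ˣ) : ℤ_[p])) := by
      rw [Metric.mem_closure_range_iff]
      intro ε hε
      obtain ⟨k, hk⟩ := exists_pow_lt_of_lt_one hε
        (inv_lt_one_of_one_lt₀ (by exact_mod_cast hp.one_lt : (1 : ℝ) < p))
      obtain ⟨g, hg⟩ := h1 k
      refine ⟨g, ?_⟩
      have h2 : (l : ℤ_[p]) - ((cyL p l g : ℤ_[p]ˣ) : ℤ_[p]) ∈
          RingHom.ker (PadicInt.toZModPow (p := p) k) := by
        rw [RingHom.mem_ker, map_sub, hg, map_natCast, sub_self]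
      rw [PadicInt.ker_toZModPow, ← PadicInt.norm_le_pow_iff_mem_span_pow] at h2
      rw [dist_eq_norm]
      refine lt_of_le_of_lt h2 ?_
      rwa [zpow_neg, zpow_natCast, ← inv_pow]
    rw [hclosed.closure_eq] at hmem
    obtain ⟨g, hg⟩ := hmem
    exact ⟨g, hg⟩
  · obtain ⟨ζ, hζ⟩ := hprim k
    obtain ⟨j, hj⟩ := exists_pow (nv l) (nv_na l) (l := l) (nv_l l) (g : PadicAlgCl l ≃+* PadicAlgCl l)
      (fun x => nv_i l g x) (hN0 k) (hcop k) hζ.pow_eq_one
    have h1 : g ζ = ζ ^ l ^ j := by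
      refine eq_of_close (hN0 k) (hdvd k) ?_ ?_ hj
      · rw [← map_pow, hζ.pow_eq_one, map_one]
      · rw [← pow_mul, mul_comm, pow_mul, hζ.pow_eq_one, one_pow]
    refine ⟨j, ?_⟩
    rw [toZModPow_of l g hζ h1]
    push_cast
    rfl

end BKLoc2
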