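import Pool.Agent.Lib.MP_7c08ba_nt.Met.StF
import Pool.Agent.Lib.MP_7c08ba_nt.Met.LFR
import Pool.Agent.Lib.MP_7c08ba_nt.Odd.Conj
import Pool.Agent.Lib.MP_7c08ba_nt.Odd.Cyc
import Pool.Agent.Lib.MP_7c08ba_nt.Odd.KumG

set_option autoImplicit false
set_option linter.unusedSectionVars false

/-!
Module U0: the group on which the diagonal characters and the cyclotomic character modulo `p` are
trivial.
-/

noncomputable section

namespace BKMet

open BKGen

namespace FU0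

/-! ### The kernel of a map to a finite commutative group -/

theorem card_units_not_dvd (p : ℕ) [Fact p.Prime] (k : Type) [Field k] [Finite k] [CharP k p] :
    ¬ p ∣ Nat.card kˣ := by
  intro h
  have hp : p.Prime := Fact.out
  have h1 : p ∣ Nat.card k := by
    have := Fintype.ofFinite k
    rw [← CharP.cast_eq_zero_iff k p, Nat.card_eq_fintype_card, Nat.cast_card_eq_zero]
  have h2 : Nat.card kˣ + 1 = Nat.card k := by
    rw [Nat.card_units]
    have : 0 < Nat.card k := Nat.card_pos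
    omega
  rw [← h2] at h1
  exact hp.one_lt.ne' (Nat.dvd_one.1 ((Nat.dvd_add_right h).1 h1))

theorem card_prod_not_dvd {p : ℕ} (hp : p.Prime) {A B : Type} (hA : ¬ p ∣ Nat.card A)
    (hB : ¬ p ∣ Nat.card B) : ¬ p ∣ Nat.card (A × B) := by
  rw [Nat.card_prod, hp.dvd_mul]
  exact not_or.2 ⟨hA, hB⟩

theorem card_pi_not_dvd {p : ℕ} (hp : p.Prime) {A : Type} (hA : ¬ p ∣ Nat.card A) (n : ℕ) :
    ¬ p ∣ Nat.card (Fin n → A) := by
  rw [Nat.card_fun, Nat.card_fin]
  exact fun h => hA (hp.dvd_of_dvd_pow h)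

theorem index_ker_not_dvd {p : ℕ} {G Q : Type} [Group G] [CommGroup Q] (f : G →* Q)
    (h : ¬ p ∣ Nat.card Q) : ¬ p ∣ f.ker.index := by
  rw [Subgroup.index_ker]
  exact fun h' => h (h'.trans (Subgroup.card_subgroup_dvd_card _))

theorem comm_mem_ker {G Q : Type} [Group G] [CommGroup Q] (f : G →* Q) (g h : G) :
    g * h * g⁻¹ * h⁻¹ ∈ f.ker := by
  rw [MonoidHom.mem_ker, map_mul, map_mul, map_mul, map_inv, map_inv, mul_comm (f g) (f h),
    mul_inv_cancel_right, mul_inv_cancel]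

/-! ### The diagonal characters -/

section Diag

variable {p : ℕ} [Fact p.Prime] {L : Type} [NormedField L] [NormedAlgebra ℚ_[p] L]
  {G : Type} [Group G] {n : ℕ}

theorem residue_eq_one (a : OO p L) :
    IsLocalRing.residue (OO p L) a = 1 ↔ ‖(a : L) - 1‖ < 1 := by
  rw [← sub_eq_zero, ← map_one (IsLocalRing.residue (OO p L)), ← map_sub,
    IsLocalRing.residue_eq_zero_iff, OO.mem_max]
  rfl

/-- `ψ` is the `i`-th diagonal character -/
def IsDg (V : G →* GL (Fin n) L) (A : GL (Fin n) L) (i : Fin n) (ψ : G →* (kk p L)ˣ) : Prop :=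
  ∀ (g : G) (a : OO p L),
    (a : L) = ((A * V g * A⁻¹ : GL (Fin n) L) : Matrix (Fin n) (Fin n) L) i i →
      IsLocalRing.residue (OO p L) a = ((ψ g : (kk p L)ˣ) : kk p L)

theorem isDg_eq {V : G →* GL (Fin n) L} {A : GL (Fin n) L} (hT : Tri V A) {i : Fin n}
    {ψ ψ' : G →* (kk p L)ˣ} (h : IsDg V A i ψ) (h' : IsDg V A i ψ') : ψ = ψ' := by
  ext g
  rw [← h g ⟨_, (hT g i i).1⟩ rfl, ← h' g ⟨_, (hT g i i).1⟩ rfl]

theorem isDg_one {V : G →* GL (Fin n) L} {A : GL (Fin n) L} {i : Fin n}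
    {ψ : G →* (kk p L)ˣ} (h : IsDg V A i ψ) {g : G} (hg : V g = 1) : ψ g = 1 := by
  refine Units.ext ?_
  rw [Units.val_one, ← h g 1, map_one]
  rw [hg, mul_one, mul_inv_cancel, Units.val_one, Matrix.one_apply_eq]
  rfl

theorem isDg_iff {V : G →* GL (Fin n) L} {A : GL (Fin n) L} (hT : Tri V A) {i : Fin n}
    {ψ : G →* (kk p L)ˣ} (h : IsDg V A i ψ) (g : G) :
    ψ g = 1 ↔ ‖((A * V g * A⁻¹ : GL (Fin n) L) : Matrix (Fin n) (Fin n) L) i i - 1‖ < 1 := by
  rw [← Units.val_inj, Units.val_one, ← h g ⟨_, (hT g i i).1⟩ rfl, residue_eq_one]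

theorem isOpen_dg [TopologicalSpace G] {V : G →* GL (Fin n) L} (hV : Continuous V)
    {A : GL (Fin n) L} (hT : Tri V A) {i : Fin n} {ψ : G →* (kk p L)ˣ} (h : IsDg V A i ψ) :
    IsOpen {g : G | ψ g = 1} := by
  have h1 : {g : G | ψ g = 1} = {g : G |
      ‖((A * V g * A⁻¹ : GL (Fin n) L) : Matrix (Fin n) (Fin n) L) i i - 1‖ < 1} := by
    ext g
    exact isDg_iff hT h g
  rw [h1]
  have h2 : Continuous fun g : G => (A : Matrix (Fin n) (Fin n) L) *
      (V g : Matrix (Fin n) (Fin n) L) * ((A⁻¹ : GL (Fin n) L) : Matrix (Fin n) (Fin n) L) :=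
    (continuous_const.mul (Units.continuous_val.comp hV)).mul continuous_const
  have h3 : Continuous fun g : G =>
      ‖((A * V g * A⁻¹ : GL (Fin n) L) : Matrix (Fin n) (Fin n) L) i i - 1‖ :=
    ((h2.matrix_elem i i).sub continuous_const).norm
  exact isOpen_lt h3 continuous_const

end Diag

/-! ### The cyclotomic character modulo `p` -/

section Cyc

variable {p : ℕ} [Fact p.Prime] {F : Type} [Field F] [NumberField F]

/-- the cyclotomic character modulo `p` -/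
def chp (p : ℕ) [Fact p.Prime] (F : Type) [Field F] : GF F →* (ZMod p)ˣ :=
  (Units.map (PadicInt.toZMod (p := p)).toMonoidHom).comp (cycF p F)

theorem chp_eq_one (g : GF F) : chp p F g = 1 ↔
    PadicInt.toZMod ((cycF p F g : ℤ_[p]ˣ) : ℤ_[p]) = 1 := by
  rw [← Units.val_inj, Units.val_one]
  rfl

theorem cycF_cont : Continuous (cycF p F) :=
  cyclotomicCharacter.continuous p F (AlgebraicClosure F)

theorem isOpen_chp : IsOpen {g : GF F | chp p F g = 1} := by
  have h1 := BKOdd.KumG.isOpen_preimage_toZModPow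
    (Units.continuous_val.comp (cycF_cont (p := p) (F := F))) 1
  have h2 : {g : GF F | chp p F g = 1} = ⋃ c ∈ {c : ZMod (p ^ 1) | ((c.val : ℕ) : ZMod p) = 1},
      {g : GF F | PadicInt.toZModPow 1 (((fun u : ℤ_[p]ˣ => (u : ℤ_[p])) ∘ cycF p F) g) = c} := by
    ext g
    rw [Set.mem_ofPred_eq, chp_eq_one, BKOdd.CycAux.toZMod_eq]
    simp
  rw [h2]
  exact isOpen_biUnion fun c _ => h1 c

theorem chp_inert {l : ℕ} [Fact l.Prime] (hl : l ≠ p) (j : AlgebraicClosure F →+* PadicAlgCl l)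
    {g : GF F} (hg : g ∈ Inert F (AlgebraicClosure F) j) : chp p F g = 1 := by
  have hp : p.Prime := Fact.out
  have hE : HasEnoughRootsOfUnity (AlgebraicClosure F) p := by
    have : NeZero ((p : ℕ) : AlgebraicClosure F) := ⟨by
      rw [Nat.cast_ne_zero]
      exact hp.ne_zero⟩
    infer_instance
  obtain ⟨ζ, hζ⟩ := HasEnoughRootsOfUnity.exists_primitiveRoot (AlgebraicClosure F) p
  have hn : ‖j ζ‖ = 1 := by
    have h1 : ‖j ζ‖ ^ p = 1 := by
      rw [← norm_pow, ← map_pow, hζ.pow_eq_one, map_one, norm_one]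
    exact (pow_eq_one_iff_of_nonneg (norm_nonneg _) hp.ne_zero).1 h1
  have h1 : j (g ζ) = j ζ := by
    refine BKLoc2.FRAux.eq_of_close hp.ne_zero (fun h => ?_) ?_ ?_ ?_
    · exact hl ((Nat.prime_dvd_prime_iff_eq Fact.out hp).1 h)
    · rw [← map_pow, ← map_pow, hζ.pow_eq_one, map_one, map_one]
    · rw [← map_pow, hζ.pow_eq_one, map_one]
    · have h2 := hg ζ hn.le
      rw [map_sub] at h2
      exact h2
  have h2 : g ζ = ζ := j.injective h1
  have h3 := BKOdd.CycAux.act (p := p) F 1 ζ (by rw [pow_one]; exact hζ.pow_eq_one) g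
  rw [h2] at h3
  have : NeZero (p ^ 1) := ⟨pow_ne_zero _ hp.ne_zero⟩
  have h4 : 1 = (((BKOdd.cyc p F g : ℤ_[p]ˣ) : ℤ_[p]).toZModPow 1).val :=
    hζ.pow_inj hp.one_lt ((ZMod.val_lt _).trans_eq (pow_one p)) (by rw [pow_one]; exact h3)
  rw [chp_eq_one, BKOdd.CycAux.toZMod_eq]
  change ((((((BKOdd.cyc p F g : ℤ_[p]ˣ) : ℤ_[p]).toZModPow 1).val : ℕ)) : ZMod p) = 1
  rw [← h4, Nat.cast_one]

end Cyc

end FU0

open FU0 in
/-- Module U0. -/
theorem stU0 (h : StTri) : StU0 := by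
  intro p _ _ F _ _ _ _ c σ hcs L _ _ _ n V hV A hT P₀ hpP hin
  have hp : p.Prime := Fact.out
  choose ψ hψ using (h p L (GF F) n V A hT).1
  have hψ' : ∀ i, IsDg V A i (ψ i) := hψ
  let f : GF F →* (Fin n → (kk p L)ˣ) × (ZMod p)ˣ := (MonoidHom.pi ψ).prod (chp p F)
  let cj : GF F →* GF F := BKOdd.conj c σ hcs.h
  let f' : GF F →* ((Fin n → (kk p L)ˣ) × (ZMod p)ˣ) × ((Fin n → (kk p L)ˣ) × (ZMod p)ˣ) :=
    f.prod (f.comp cj)
  have hf : ∀ g, f g = 1 ↔ (∀ i, ψ i g = 1) ∧ chp p F g = 1 := by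
    intro g
    constructor
    · intro h1
      exact ⟨fun i => congrFun (congrArg Prod.fst h1) i, congrArg Prod.snd h1⟩
    · rintro ⟨h1, h2⟩
      exact Prod.ext (funext h1) h2
  have hf' : ∀ g, g ∈ f'.ker ↔ f g = 1 ∧ f (cj g) = 1 := by
    intro g
    rw [MonoidHom.mem_ker]
    constructor
    · intro h1
      exact ⟨congrArg Prod.fst h1, congrArg Prod.snd h1⟩
    · rintro ⟨h1, h2⟩
      exact Prod.ext h1 h2
  have hcj : Continuous cj := BKOdd.Conj.continuous_conjO c σ hcs.h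
  have hcc : ∀ g, cj (cj g) = g := BKOdd.Conj.conj_conj hcs.h hcs.hc
  have hof : IsOpen {g : GF F | f g = 1} := by
    have h1 : {g : GF F | f g = 1} = (⋂ i, {g : GF F | ψ i g = 1}) ∩ {g : GF F | chp p F g = 1} := by
      ext g
      rw [Set.mem_ofPred_eq, hf, Set.mem_inter_iff, Set.mem_iInter]
      rfl
    rw [h1]
    exact (isOpen_iInter_of_finite fun i => isOpen_dg hV hT (hψ' i)).inter isOpen_chp
  have hopen : IsOpen (f'.ker : Set (GF F)) := by
    have h1 : (f'.ker : Set (GF F)) = {g : GF F | f g = 1} ∩ cj ⁻¹' {g : GF F | f g = 1} := by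
      ext g
      exact hf' g
    rw [h1]
    exact hof.inter (hof.preimage hcj)
  have hcard : ¬ p ∣ Nat.card ((Fin n → (kk p L)ˣ) × (ZMod p)ˣ) :=
    card_prod_not_dvd hp (card_pi_not_dvd hp (card_units_not_dvd p (kk p L)) n)
      (card_units_not_dvd p (ZMod p))
  have hfi : ∀ (l : ℕ) [Fact l.Prime], l ∉ P₀ → ∀ j : AlgebraicClosure F →+* PadicAlgCl l,
      ∀ g ∈ Inert F (AlgebraicClosure F) j, f g = 1 := by
    intro l _ hl j g hg
    rw [hf]
    refine ⟨fun i => isDg_one (hψ' i) (hin l hl j g hg), chp_inert ?_ j hg⟩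
    rintro rfl
    exact hl hpP
  refine ⟨f'.ker, inferInstance, hopen, ?_, comm_mem_ker f', ?_, ?_, ?_, ?_⟩
  · exact index_ker_not_dvd f' (card_prod_not_dvd hp hcard hcard)
  · refine Subgroup.topologicalClosure_minimal _ (Subgroup.normalClosure_le_normal ?_)
      (Subgroup.isClosed_of_isOpen _ hopen)
    rintro g ⟨l, hl, j, hlP, hg⟩
    rw [SetLike.mem_coe, hf']
    exact ⟨hfi l hlP j g hg, hfi l hlP _ _ (BKOdd.Conj.conjO_inert c σ hcs.h j g hg)⟩
  · intro g hg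
    exact (chp_eq_one g).1 ((hf g).1 ((hf' g).1 hg).1).2
  · intro g hg
    have h1 := (hf' g).1 hg
    refine (hf' (cj g)).2 ⟨h1.2, ?_⟩
    rw [hcc]
    exact h1.1
  · rintro ψ' ⟨i, hi⟩ u hu
    rw [isDg_eq hT (i := i) hi (hψ' i)]
    exact ((hf u).1 ((hf' u).1 hu).1).1 i

end BKMet
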