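import Pool.Agent.Lib.MP_7c08ba_nt.Met.StF
import Pool.Agent.Lib.MP_7c08ba_nt.Odd.Place
import Pool.Agent.Lib.MP_7c08ba_nt.Odd.Conj
import Pool.Agent.Lib.MP_7c08ba_nt.Glob.Emb
import Pool.Agent.Lib.MP_7c08ba_nt.RZ.DPlace

set_option autoImplicit false

/-!
Metabolic parity, module UNR: cocycles which are unramified away from `p`.
-/

noncomputable section

namespace BKMet

open BKGen MP_7c08ba.Crys Matrix

namespace FUNR

section Coc

variable {G : Type*} [Group G] [TopologicalSpace G] {L : Type*} [NormedField L] {n : ℕ}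
  {V : G →* GL (Fin n) L} {x : G → Fin n → L}

theorem coc_one (hx : x ∈ BKOdd.Z1 V) : x 1 = 0 := by
  have h1 := hx.2 1 1
  rw [map_one, Units.val_one, one_mulVec, mul_one] at h1
  exact left_eq_add.1 h1

/-- the elements which act trivially and at which the cocycle vanishes -/
def kerC (hx : x ∈ BKOdd.Z1 V) : Subgroup G where
  carrier := {g | V g = 1 ∧ x g = 0}
  one_mem' := ⟨map_one V, coc_one hx⟩
  mul_mem' := by
    rintro a b ⟨ha, ha'⟩ ⟨hb, hb'⟩
    refine ⟨by rw [map_mul, ha, hb, one_mul], ?_⟩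
    rw [hx.2, ha', hb', mulVec_zero, add_zero]
  inv_mem' := by
    rintro a ⟨ha, ha'⟩
    refine ⟨by rw [map_inv, ha, inv_one], ?_⟩
    have h1 := hx.2 a a⁻¹
    rw [mul_inv_cancel, coc_one hx, ha', ha, Units.val_one, one_mulVec, zero_add] at h1
    exact h1.symm

theorem mem_kerC (hx : x ∈ BKOdd.Z1 V) {g : G} : g ∈ kerC hx ↔ V g = 1 ∧ x g = 0 := Iff.rfl

theorem kerC_normal (hx : x ∈ BKOdd.Z1 V) : (kerC hx).Normal := by
  constructor
  rintro k ⟨hk, hk'⟩ g
  refine ⟨by rw [map_mul, map_mul, hk, mul_one, map_inv, mul_inv_cancel], ?_⟩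
  have h1 := hx.2 g g⁻¹
  rw [mul_inv_cancel, coc_one hx] at h1
  rw [hx.2, hx.2, hk', mulVec_zero, add_zero, map_mul, hk, mul_one]
  exact h1.symm

theorem kerC_closed (hV : Continuous V) (hx : x ∈ BKOdd.Z1 V) :
    IsClosed (kerC hx : Set G) := by
  have h1 : (kerC hx : Set G) = {g | (V g : Matrix (Fin n) (Fin n) L) = 1} ∩ {g | x g = 0} := by
    ext g
    constructor
    · rintro ⟨h, h'⟩
      exact ⟨by rw [Set.mem_ofPred_eq, h, Units.val_one], h'⟩
    · rintro ⟨h, h'⟩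
      exact ⟨Units.ext h, h'⟩
  rw [h1]
  exact (isClosed_eq (Units.continuous_val.comp hV) continuous_const).inter
    (isClosed_eq hx.1 continuous_const)

/-- a cocycle which is a coboundary on a subgroup is a coboundary on the conjugates -/
theorem coc_conj (hx : x ∈ BKOdd.Z1 V) {k h : G} {w : Fin n → L}
    (hw : x k = (V k : Matrix (Fin n) (Fin n) L) *ᵥ w - w) :
    x (h⁻¹ * k * h) = (V (h⁻¹ * k * h) : Matrix (Fin n) (Fin n) L) *ᵥ
      ((V h⁻¹ : Matrix (Fin n) (Fin n) L) *ᵥ (w + x h)) -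
      (V h⁻¹ : Matrix (Fin n) (Fin n) L) *ᵥ (w + x h) := by
  have h1 := hx.2 h⁻¹ h
  rw [inv_mul_cancel, coc_one hx] at h1
  have h2 : x h⁻¹ = -((V h⁻¹ : Matrix (Fin n) (Fin n) L) *ᵥ x h) :=
    eq_neg_of_add_eq_zero_left h1.symm
  have h3 : (V (h⁻¹ * k * h) : Matrix (Fin n) (Fin n) L) *ᵥ
      ((V h⁻¹ : Matrix (Fin n) (Fin n) L) *ᵥ (w + x h)) =
      (V h⁻¹ : Matrix (Fin n) (Fin n) L) *ᵥ ((V k : Matrix (Fin n) (Fin n) L) *ᵥ (w + x h)) := by
    rw [mulVec_mulVec, mulVec_mulVec, ← Units.val_mul, ← Units.val_mul, ← map_mul, ← map_mul,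
      mul_assoc (h⁻¹ * k) h h⁻¹, mul_inv_cancel, mul_one]
  rw [h3, mul_assoc, hx.2, hx.2, hw, h2]
  simp only [mulVec_add, mulVec_sub]
  abel

end Coc

section Pla

variable {F : Type} [Field F] [NumberField F]

open BKGen.Genus in
theorem dec_of_Inert {l : ℕ} [Fact l.Prime] (j : AlgebraicClosure F →+* PadicAlgCl l)
    {g : GF F} (hg : g ∈ Inert F (AlgebraicClosure F) j) : g ∈ Dec F (AlgebraicClosure F) j := by
  apply Pool.Agent.Lib.MP_7c08ba_nt.RZ.decomp_le
  intro a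
  have h1 : g • a - a ∈ primeOf j := hg (a : AlgebraicClosure F) (norm_int_le j a)
  constructor
  · intro h2
    have h3 := (primeOf j).sub_mem h2 h1
    rwa [sub_sub_cancel] at h3
  · intro h2
    have h3 := (primeOf j).add_mem h1 h2
    rwa [sub_add_cancel] at h3

/-- the cocycle on the inertia group of a place which is conjugate to a given place -/
theorem local_key {l : ℕ} [Fact l.Prime] {L : Type} [NormedField L] {n : ℕ}
    {V : GF F →* GL (Fin n) L} {x : GF F → Fin n → L}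
    (hx : x ∈ BKOdd.Z1 V) (ι' j : AlgebraicClosure F →+* PadicAlgCl l)
    (r' : GQ l →* GF F) (hr' : Continuous r')
    (hs : ∀ (t : GQ l) (z : AlgebraicClosure F), ι' (r' t z) = t (ι' z))
    (hB : BKOdd.Z1 (V.comp r') ≤ BKOdd.B1 (V.comp r'))
    (h : GF F) (hj : ∀ z, j z = ι' (h z)) :
    ∃ v : Fin n → L, ∀ g ∈ Inert F (AlgebraicClosure F) j,
      x g = (V g : Matrix (Fin n) (Fin n) L) *ᵥ v - v := by
  have h1 : (fun t => x (r' t)) ∈ BKOdd.Z1 (V.comp r') := by
    refine ⟨hx.1.comp hr', fun s t => ?_⟩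
    change x (r' (s * t)) = x (r' s) + (V (r' s) : Matrix (Fin n) (Fin n) L) *ᵥ x (r' t)
    rw [map_mul, hx.2]
  obtain ⟨w, hw⟩ := hB h1
  have hw' : ∀ t, x (r' t) = (V (r' t) : Matrix (Fin n) (Fin n) L) *ᵥ w - w := fun t =>
    (congrFun hw t).symm
  refine ⟨(V h⁻¹ : Matrix (Fin n) (Fin n) L) *ᵥ (w + x h), fun g hg => ?_⟩
  obtain ⟨t, ht⟩ := BKGlob.exists_cpt j (dec_of_Inert j hg)
  have h2 : h * g = r' t * h := by
    ext z
    apply ι'.injective
    rw [AlgEquiv.mul_apply, AlgEquiv.mul_apply, hs, ← hj, ← hj]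
    exact ht z
  have h3 : g = h⁻¹ * r' t * h := by
    rw [mul_assoc, ← h2, inv_mul_cancel_left]
  rw [h3]
  exact coc_conj hx (hw' t)

end Pla

end FUNR

open FUNR in
/-- Module UNR: cocycles which are unramified away from `p`. -/
theorem stUnrM : StUnrM := by
  intro p _ F _ _ hF c σ hcs L _ _ _ n V hV Λ hp hur hloc x hx
  constructor
  · intro hU
    have h1 : InertAway F Λ.P ⊆ (kerC hx : Set (GF F)) := by
      rintro g ⟨l, hl, j, hlP, hg⟩
      have hlp : l ≠ p := by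
        rintro rfl
        exact hlP hp
      have h2 := hur l hlP j g hg
      obtain ⟨v, hv⟩ := hU l hlp j
      refine ⟨h2, ?_⟩
      rw [hv g hg, h2, Units.val_one, one_mulVec, sub_self]
    have hn := kerC_normal hx
    have h2 : RS F Λ.P ≤ kerC hx :=
      Subgroup.topologicalClosure_minimal _ (Subgroup.normalClosure_le_normal h1)
        (kerC_closed hV hx)
    intro g hg
    exact (h2 hg).2
  · intro hR l _ hlp j
    by_cases hl : l ∈ Λ.P
    · obtain ⟨i, rfl⟩ := hl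
      obtain ⟨hB1, hB2⟩ := hloc i hlp
      rcases BKOdd.two_places hF (Λ.j i) c σ hcs j with ⟨h, hh⟩ | ⟨h, hh⟩
      · exact local_key hx (Λ.j i) j (Λ.r i) (Λ.cont i) (Λ.spec i) hB1 h hh
      · have hcs' : ∀ z, c.symm z = c z := fun z => by
          rw [RingEquiv.symm_apply_eq, hcs.hc]
        refine local_key hx ((Λ.j i).comp (c : AlgebraicClosure F →+* AlgebraicClosure F)) j
          ((BKOdd.conj c σ hcs.h).comp (Λ.r i)) ?_ ?_ hB2 h hh
        · exact (BKOdd.Conj.continuous_conjO c σ hcs.h).comp (Λ.cont i)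
        · intro t z
          change Λ.j i (c (c (Λ.r i t (c.symm z)))) = t (Λ.j i (c z))
          rw [hcs.hc, hcs', Λ.spec]
    · refine ⟨0, fun g hg => ?_⟩
      have h1 : g ∈ InertAway F Λ.P := ⟨l, inferInstance, j, hl, hg⟩
      rw [hR g (Subgroup.le_topologicalClosure _ (Subgroup.subset_normalClosure h1)),
        mulVec_zero, sub_self]

end BKMet
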