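import Pool.Agent.Lib.MP_7c08ba_nt.Met.StF

set_option autoImplicit false

/-!
Parity without rigidity, assembly, module ZID: the spaces with conditions in terms of cocycles.
-/

noncomputable section

namespace BKMet

open BKPar (Loc1 Loc2)
open BKND (Sm)
open Matrix

namespace FZID

section Gen

variable {L : Type} [NormedField L] {G : Type} [Group G] [TopologicalSpace G] {n : ℕ} {S : Type}
  {D : S → Type} [∀ w, Group (D w)]

/-- the vectors in `ZTV` are determined by the cocycle -/
theorem equiv (V : G →* GL (Fin n) L) (r : ∀ w, D w →* G) (T : Set S)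
    (hni : ∀ w ∈ T, NoInv (V.comp (r w))) (W : Submodule L (G → Fin n → L))
    (hW : ∀ x, x ∈ W ↔ x ∈ BKOdd.Z1 V ∧
      ∀ w ∈ T, (fun d => x (r w d)) ∈ BKOdd.B1 (V.comp (r w))) :
    Nonempty (ZTV V r T ≃ₗ[L] W) := by
  classical
  have hmem : ∀ x : ZTV V r T, x.1.1 ∈ W := by
    rintro ⟨x, hx1, hx2, hx3⟩
    refine (hW _).2 ⟨hx1, fun w hw => ⟨x.2 w, ?_⟩⟩
    funext d
    exact (hx2 w hw d).symm
  let Φ : ZTV V r T →ₗ[L] W :=
    { toFun := fun x => ⟨x.1.1, hmem x⟩
      map_add' := fun x y => rfl
      map_smul' := fun a x => rfl }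
  refine ⟨LinearEquiv.ofBijective Φ ⟨?_, ?_⟩⟩
  · rw [injective_iff_map_eq_zero]
    rintro ⟨⟨f, m⟩, hx1, hx2, hx3⟩ h
    have hf : f = 0 := congrArg Subtype.val h
    have hm : m = 0 := by
      funext w
      by_cases hw : w ∈ T
      · refine hni w hw (m w) fun g => ?_
        have e := hx2 w hw g
        change f (r w g) = _ at e
        rw [hf] at e
        exact sub_eq_zero.1 e.symm
      · exact hx3 w hw
    refine Subtype.ext (Prod.ext hf hm)
  · rintro ⟨x, hx⟩
    obtain ⟨h1, h2⟩ := (hW x).1 hx
    choose! m hm using h2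
    refine ⟨⟨(x, fun w => if w ∈ T then m w else 0), h1, fun w hw d => ?_, fun w hw => ?_⟩, rfl⟩
    · have e := congrFun (hm w hw) d
      change x (r w d) = (V (r w d) : Matrix (Fin n) (Fin n) L) *ᵥ
        (if w ∈ T then m w else 0) - (if w ∈ T then m w else 0)
      rw [if_pos hw]
      exact e.symm
    · exact if_neg hw

/-- restriction of cocycles -/
theorem res {V : G →* GL (Fin n) L} {D' : Type} [Group D'] [TopologicalSpace D'] {f : D' →* G}
    (hf : Continuous f) {x : G → Fin n → L} (hx : x ∈ BKOdd.Z1 V) :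
    (fun d => x (f d)) ∈ BKOdd.Z1 (V.comp f) :=
  ⟨hx.1.comp hf, fun g h => by
    change x (f (g * h)) = _
    rw [map_mul, hx.2]
    rfl⟩

end Gen

end FZID

open FZID in
/-- Module ZID: the spaces with conditions in terms of cocycles. -/
theorem stZid : StZid := by
  intro L _ ι G _ _ _ D _ _ r hr c hc hcc n V hV hn1 hn2 i₀ i₁ hi hB hfd
  have rf : ∀ i, rr r c (i, false) = r i := fun i => if_neg (by simp)
  have rt : ∀ i, rr r c (i, true) = c.comp (r i) := fun i => if_pos rfl
  have hVcc : ∀ i, (V.comp c).comp (c.comp (r i)) = V.comp (r i) := by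
    intro i
    ext1 d
    change V (c (c (r i d))) = V (r i d)
    rw [hcc]
  -- one place
  have hW1 : ∀ x, x ∈ BKOdd.Z1 V ↔ x ∈ BKOdd.Z1 V ∧ ∀ w ∈ ({(i₁, false)} : Set (ι × Bool)),
      (fun d => x (rr r c w d)) ∈ BKOdd.B1 (V.comp (rr r c w)) := by
    intro x
    refine ⟨fun hx => ⟨hx, ?_⟩, fun h => h.1⟩
    rintro w rfl
    rw [rf]
    exact (hB i₁ hi).1 (res (hr i₁) hx)
  obtain ⟨e1⟩ := equiv V (rr r c) {(i₁, false)} (by
    rintro w rfl
    rw [rf]
    exact hn1 i₁) (BKOdd.Z1 V) hW1
  refine ⟨?_, e1.finrank_eq, fun W hW => ?_, fun W hW => ?_⟩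
  · exact LinearEquiv.finiteDimensional e1
  · -- the complement, for the conjugate
    let e : (G → Fin n → L) ≃ₗ[L] (G → Fin n → L) :=
      LinearEquiv.funCongrLeft L (Fin n → L) ⟨c, c, hcc, hcc⟩
    have he : ∀ f g, e f g = f (c g) := fun f g => rfl
    have hZ : ∀ f, e f ∈ BKOdd.Z1 V ↔ f ∈ BKOdd.Z1 (V.comp c) := by
      intro f
      constructor
      · intro h
        have h1 : (fun g => e f (c g)) = f := by
          funext g
          rw [he, hcc]
        have h2 := res hc h
        rwa [h1] at h2
      · rintro ⟨h1, h2⟩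
        refine ⟨h1.comp hc, fun g h => ?_⟩
        rw [he, he, he, map_mul, h2]
        change _ + (V (c (c g)) : Matrix (Fin n) (Fin n) L) *ᵥ _ = _
        rw [hcc]
    have hfr : Module.finrank L (W.comap (e : (G → Fin n → L) →ₗ[L] (G → Fin n → L))) =
        Module.finrank L W := by
      have h1 : (W.comap (e : (G → Fin n → L) →ₗ[L] (G → Fin n → L))) =
          W.map (e.symm : (G → Fin n → L) →ₗ[L] (G → Fin n → L)) :=
        Submodule.comap_equiv_eq_map_symm e W
      rw [h1]
      exact LinearEquiv.finrank_map_eq e.symm W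
    rw [← hfr]
    refine (Classical.choice (equiv (V.comp c) (rr r c) {(i₁, false)}ᶜ ?_ _ ?_)).finrank_eq
    · rintro ⟨i, b⟩ -
      cases b
      · rw [rf]
        exact hn2 i
      · rw [rt, hVcc]
        exact hn1 i
    · intro f
      rw [Submodule.mem_comap]
      change e f ∈ W ↔ _
      rw [hW, hZ]
      have t0 : (fun d => e f (c (r i₀ d))) = fun d => f (r i₀ d) := by
        funext d
        rw [he, hcc]
      rw [t0]
      constructor
      · rintro ⟨h1, h2, h3⟩
        refine ⟨h1, ?_⟩
        rintro ⟨i, b⟩ -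
        by_cases hii : i = i₀
        · subst hii
          cases b
          · rw [rf]
            exact h3
          · rw [rt, hVcc]
            exact h2
        · cases b
          · rw [rf]
            exact (hB i hii).2 (res (hr i) h1)
          · rw [rt, hVcc]
            exact (hB i hii).1 (res (hr i) ((hZ f).2 h1))
      · rintro ⟨h1, h2⟩
        refine ⟨h1, ?_, ?_⟩
        · have h3 := h2 (i₀, true) (by
            intro h
            exact absurd (congrArg Prod.snd h) (by simp))
          rw [rt, hVcc] at h3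
          exact h3
        · have h3 := h2 (i₀, false) (by
            intro h
            exact hi (congrArg Prod.fst h).symm)
          rw [rf] at h3
          exact h3
  · refine (Classical.choice (equiv V (rr r c) {w | w.2 = false} ?_ W ?_)).finrank_eq
    · rintro ⟨i, b⟩ hb
      have hb' : b = false := hb
      subst hb'
      rw [rf]
      exact hn1 i
    · intro x
      rw [hW]
      constructor
      · rintro ⟨h1, h2⟩
        refine ⟨h1, ?_⟩
        rintro ⟨i, b⟩ hb
        have hb' : b = false := hb
        subst hb'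
        rw [rf]
        by_cases hii : i = i₀
        · subst hii
          exact h2
        · exact (hB i hii).1 (res (hr i) h1)
      · rintro ⟨h1, h2⟩
        have h3 := h2 (i₀, false) rfl
        rw [rf] at h3
        exact ⟨h1, h3⟩

end BKMet
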