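import Pool.Agent.Lib.MP_7c08ba_nt.Met.StL

set_option autoImplicit false

/-!
Module HOD: the local theorem at the place above `p`: dimensions and exact annihilators of the
spaces `H¹_f`.
-/

noncomputable section

namespace BKMet

open Matrix

namespace LHOD

section Cup

variable {G : Type*} [Group G] [TopologicalSpace G] {L : Type*}
  [NormedField L] {n : ℕ} {ρ ρ' : G →* GL (Fin n) L} {χ : G →* L}

theorem cup_mem (hρ' : Continuous ρ') (hp : ∀ g, (ρ g : Matrix (Fin n) (Fin n) L)ᵀ *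
      (ρ' g : Matrix (Fin n) (Fin n) L) = χ g • (1 : Matrix (Fin n) (Fin n) L))
    {x y : G → Fin n → L} (hx : x ∈ BKOdd.Z1 ρ) (hy : y ∈ BKOdd.Z1 ρ') :
    BKOdd.cupV ρ' x y ∈ CC.Z2 χ := by
  refine ⟨?_, fun g h k => ?_⟩
  · have h1 : Continuous fun g => (ρ' g : Matrix (Fin n) (Fin n) L) :=
      Units.continuous_val.comp hρ'
    have h2 : Continuous fun z : G × G => (ρ' z.1 : Matrix (Fin n) (Fin n) L) *ᵥ (y z.2) :=
      Continuous.matrix_mulVec (h1.comp continuous_fst) (hy.1.comp continuous_snd)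
    exact Continuous.dotProduct (hx.1.comp continuous_fst) h2
  · have e1 := BKOdd.dot_dual hp g (x h) ((ρ' h : Matrix (Fin n) (Fin n) L) *ᵥ (y k))
    simp only [BKOdd.cupV]
    rw [hx.2 g h, hy.2 h k, Matrix.mulVec_add, dotProduct_add, add_dotProduct, map_mul,
      Units.val_mul, ← Matrix.mulVec_mulVec, e1]
    ring

end Cup

section Dim

variable {G : Type} [Group G] [TopologicalSpace G] {L : Type} [NormedField L] {n : ℕ}

theorem finrank_B1 {ρ : G →* GL (Fin n) L} (h : NoInv ρ) :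
    Module.finrank L (BKOdd.B1 ρ) = n := by
  have h1 := BKOdd.finrank_B1 (ρ := ρ)
  have h2 : BKOdd.inv ρ Set.univ = ⊥ := by
    rw [Submodule.eq_bot_iff]
    intro v hv
    exact h v fun g => hv g trivial
  rw [h2, finrank_bot, add_zero] at h1
  exact h1

theorem finrank_H1 {ρ : G →* GL (Fin n) L} (hρ : Continuous ρ) (h : NoInv ρ)
    [FiniteDimensional L (BKOdd.Z1 ρ)] :
    Module.finrank L (BKOdd.H1 ρ) + n = Module.finrank L (BKOdd.Z1 ρ) := by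
  have h1 := BKOdd.finrank_cls hρ (BKOdd.Z1 ρ) (BKOdd.B1_le hρ) le_rfl
  have h2 : BKOdd.cls ρ (BKOdd.Z1 ρ) = ⊤ := by
    rw [eq_top_iff]
    intro ξ _
    obtain ⟨⟨x, hx⟩, rfl⟩ := ((BKOdd.B1 ρ).submoduleOf (BKOdd.Z1 ρ)).mkQ_surjective ξ
    exact BKOdd.mem_cls.2 ⟨x, hx, hx, rfl⟩
  rw [h2, finrank_top, finrank_B1 h] at h1
  exact h1

end Dim

end LHOD

open LHOD in
/-- Module HOD -/
theorem stHod (hLL : BKOdd.StLineL) : StHod := by
  intro p _ L _ _ _ D _ _ _ _ _ χ hχ hax n V V' hV hV' hdual hi hi' hloc Zf r r' hH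
  obtain ⟨z₀, hz₀, hz1, -⟩ := hax
  have hd : ∀ g, (V g : Matrix (Fin n) (Fin n) L)ᵀ * (V' g : Matrix (Fin n) (Fin n) L) =
      BKOdd.chL χ L g • (1 : Matrix (Fin n) (Fin n) L) := by
    intro g
    have h1 := hdual g
    rwa [Matrix.mul_one] at h1
  obtain ⟨Λ, hΛ, hΛz⟩ := BKOdd.exists_functional (CC.B2 (BKOdd.chL χ L))
    (fun g h => algebraMap ℚ_[p] L ((z₀ g h : ℤ_[p]) : ℚ_[p]))
  have hΛ2 : ∀ z ∈ CC.Z2 (BKOdd.chL χ L), Λ z = 0 → z ∈ CC.B2 (BKOdd.chL χ L) := by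
    intro z hz h0
    obtain ⟨a, ha⟩ := hLL p D χ hχ z₀ hz₀ hz1 L z hz
    exact hΛz z a ha h0
  have hΛc : ∀ x ∈ BKOdd.Z1 V, ∀ y ∈ BKOdd.Z1 V', Λ (BKOdd.cupV V' x y) = 0 →
      BKOdd.cupV V' x y ∈ CC.B2 (BKOdd.chL χ L) := fun x hx y hy h0 =>
    hΛ2 _ (cup_mem hV' hd hx hy) h0
  obtain ⟨b, hb⟩ := BKOdd.exists_pairH hV' hd Λ hΛ
  have hf1 := hloc.fin
  have hf2 := hloc.fin'
  have hf1' : FiniteDimensional L (BKOdd.H1 V) := inferInstance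
  have hf2' : FiniteDimensional L (BKOdd.H1 V') := inferInstance
  have hn1 := finrank_H1 hV hi
  have hn2 := finrank_H1 hV' hi'
  have hl1 := hloc.le
  have hl2 := hloc.le'
  -- annihilators of the spaces of cocycles
  have hl : ∀ x ∈ BKOdd.Z1 V,
      (x ∈ BKOdd.B1 V ↔ ∀ y ∈ BKOdd.Z1 V', Λ (BKOdd.cupV V' x y) = 0) := by
    intro x hx
    constructor
    · rintro ⟨v, rfl⟩ y hy
      exact hΛ _ (BKOdd.cup_cob_left hd v hy)
    · intro h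
      exact hloc.left x hx fun y hy => hΛc x hx y hy (h y hy)
  have hr : ∀ y ∈ BKOdd.Z1 V',
      (y ∈ BKOdd.B1 V' ↔ ∀ x ∈ BKOdd.Z1 V, Λ (BKOdd.cupV V' x y) = 0) := by
    intro y hy
    constructor
    · rintro ⟨v, rfl⟩ x hx
      exact hΛ _ (BKOdd.cup_cob_right hV' hd v hx)
    · intro h
      exact hloc.right y hy fun x hx => hΛc x hx y hy (h x hx)
  have hb1 : ∀ y, (∀ x, b x y = 0) → y = 0 := by
    intro y hy
    obtain ⟨⟨y, hyz⟩, rfl⟩ := ((BKOdd.B1 V').submoduleOf (BKOdd.Z1 V')).mkQ_surjective y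
    rw [Submodule.mkQ_apply, Submodule.Quotient.mk_eq_zero]
    refine (hr y hyz).2 fun x hx => ?_
    have e1 := hy (((BKOdd.B1 V).submoduleOf (BKOdd.Z1 V)).mkQ ⟨x, hx⟩)
    rw [hb] at e1
    exact e1
  have hb2 : ∀ x, (∀ y, b x y = 0) → x = 0 := by
    intro x hx
    obtain ⟨⟨x, hxz⟩, rfl⟩ := ((BKOdd.B1 V).submoduleOf (BKOdd.Z1 V)).mkQ_surjective x
    rw [Submodule.mkQ_apply, Submodule.Quotient.mk_eq_zero]
    refine (hl x hxz).2 fun y hy => ?_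
    have e1 := hx (((BKOdd.B1 V').submoduleOf (BKOdd.Z1 V')).mkQ ⟨y, hy⟩)
    rw [hb] at e1
    exact e1
  obtain ⟨E, hE, hr1, hEo⟩ := hH.left
  obtain ⟨E', hE', hr1', hEo'⟩ := hH.right
  have hortho : ∀ x ∈ BKOdd.cls V E, ∀ y ∈ BKOdd.cls V' (Zf V'), b x y = 0 := by
    intro x hx y hy
    obtain ⟨x, hxz, hxE, rfl⟩ := BKOdd.mem_cls.mp hx
    obtain ⟨y, hyz, hyE, rfl⟩ := BKOdd.mem_cls.mp hy
    rw [hb]
    exact hΛ _ (hEo x hxE y hyE)
  have hortho' : ∀ x ∈ BKOdd.cls V (Zf V), ∀ y ∈ BKOdd.cls V' E', b x y = 0 := by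
    intro x hx y hy
    obtain ⟨x, hxz, hxE, rfl⟩ := BKOdd.mem_cls.mp hx
    obtain ⟨y, hyz, hyE, rfl⟩ := BKOdd.mem_cls.mp hy
    rw [hb]
    apply hΛ
    have e1 := (CC.B2 (BKOdd.chL χ L)).sub_mem (BKOdd.cup_comm hd hxz hyz) (hEo' y hyE x hxE)
    rwa [add_sub_cancel_right] at e1
  obtain ⟨h1, h2, h3, h4⟩ := BKOdd.exact_annihilators b hb1 hb2 (BKOdd.cls V E)
    (BKOdd.cls V (Zf V)) (BKOdd.cls V' E') (BKOdd.cls V' (Zf V'))
    (by
      intro y hy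
      obtain ⟨y, hyz, hyE, rfl⟩ := BKOdd.mem_cls.mp hy
      exact BKOdd.mem_cls.mpr ⟨y, hyz, hE hyE, rfl⟩)
    (by
      intro y hy
      obtain ⟨y, hyz, hyE, rfl⟩ := BKOdd.mem_cls.mp hy
      exact BKOdd.mem_cls.mpr ⟨y, hyz, hE' hyE, rfl⟩)
    hortho hortho' (hr1 hf1') (hr1' hf2') hH.le (by omega)
  obtain ⟨-, h5⟩ := BKOdd.finrank_orth b hb1 _ _ hortho
  obtain ⟨-, h6⟩ := BKOdd.finrank_orth b.flip (fun x h => hb2 x h) (BKOdd.cls V' E')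
    (BKOdd.cls V (Zf V)) (fun y hy x hx => hortho' x hx y hy)
  have h7 := hr1 hf1'
  have h8 := hr1' hf2'
  refine ⟨h3, h1, h2, by omega, by omega, Λ, hΛ, hΛ2, hl, hr, fun y hy => ?_⟩
  rw [← BKOdd.mem_cls_mk hH.bz' hy, h4]
  constructor
  · intro e1 x hx
    have e2 := e1 (((BKOdd.B1 V).submoduleOf (BKOdd.Z1 V)).mkQ ⟨x, hH.zz hx⟩)
      ((BKOdd.mem_cls_mk hH.bz _).mpr hx)
    rw [hb] at e2
    exact e2
  · intro e1 x hx
    obtain ⟨x, hxz, hxE, rfl⟩ := BKOdd.mem_cls.mp hx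
    rw [hb]
    exact e1 x hxE

end BKMet
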