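import Pool.Agent.Lib.MP_7c08ba_nt.Met.StL
import Pool.Agent.Lib.MP_7c08ba_nt.Par.Par

set_option autoImplicit false

/-!
Module LA (project MP_7c08ba_nt, part L): parity from an antisymmetric pairing.

Three subspaces `L₁`, `L₂`, `L₃` of a space with a symmetric bilinear form which are their own
orthogonal complements: the parity of the sum of the dimensions of the pairwise intersections.
-/

noncomputable section

namespace BKMet

namespace LLA

open Module Submodule

section Triple

variable {K V : Type*} [Field K] [AddCommGroup V] [Module K V] [FiniteDimensional K V]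

/-- the alternating form on `L₁ × L₂ × L₃` -/
def S3 (B : LinearMap.BilinForm K V) (L₁ L₂ L₃ : Submodule K V) :
    (L₁ × L₂ × L₃) →ₗ[K] (L₁ × L₂ × L₃) →ₗ[K] K :=
  LinearMap.mk₂ K (fun x y => B (x.1 : V) (y.2.1 : V) - B (x.2.1 : V) (y.1 : V) +
      B (x.2.1 : V) (y.2.2 : V) - B (x.2.2 : V) (y.2.1 : V) + B (x.2.2 : V) (y.1 : V) -
      B (x.1 : V) (y.2.2 : V))
    (fun x x' y => by
      simp only [Prod.fst_add, Prod.snd_add, Submodule.coe_add, map_add, LinearMap.add_apply]
      ring)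
    (fun c x y => by
      simp only [Prod.smul_fst, Prod.smul_snd, Submodule.coe_smul, map_smul, LinearMap.smul_apply,
        smul_eq_mul]
      ring)
    (fun x y y' => by
      simp only [Prod.fst_add, Prod.snd_add, Submodule.coe_add, map_add]
      ring)
    (fun c x y => by
      simp only [Prod.smul_fst, Prod.smul_snd, Submodule.coe_smul, map_smul, smul_eq_mul]
      ring)

/-- the radical of the form -/
def φ3 (L₁ L₂ L₃ : Submodule K V) :
    ((L₁ ⊓ L₂ : Submodule K V) × (L₂ ⊓ L₃ : Submodule K V) × (L₃ ⊓ L₁ : Submodule K V)) →ₗ[K]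
      (L₁ × L₂ × L₃) where
  toFun t := (⟨(t.1 : V) + (t.2.2 : V), L₁.add_mem t.1.2.1 t.2.2.2.2⟩,
    ⟨(t.1 : V) + (t.2.1 : V), L₂.add_mem t.1.2.2 t.2.1.2.1⟩,
    ⟨(t.2.1 : V) + (t.2.2 : V), L₃.add_mem t.2.1.2.2 t.2.2.2.1⟩)
  map_add' x y := by
    refine Prod.ext ?_ (Prod.ext ?_ ?_) <;> refine Subtype.ext ?_ <;>
      simp only [Prod.fst_add, Prod.snd_add, Submodule.coe_add] <;> abel
  map_smul' c x := by
    refine Prod.ext ?_ (Prod.ext ?_ ?_) <;> refine Subtype.ext ?_ <;>
      simp only [Prod.smul_fst, Prod.smul_snd, Submodule.coe_smul, RingHom.id_apply, smul_add]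

omit [FiniteDimensional K V] in
theorem φ3_injective (h2 : (2 : K) ≠ 0) (L₁ L₂ L₃ : Submodule K V) :
    Function.Injective (φ3 L₁ L₂ L₃) := by
  rw [injective_iff_map_eq_zero]
  rintro ⟨⟨t, ht⟩, ⟨t', ht'⟩, ⟨t'', ht''⟩⟩ h
  have e1 : t + t'' = 0 := congrArg (fun z : L₁ × L₂ × L₃ => (z.1 : V)) h
  have e2 : t + t' = 0 := congrArg (fun z : L₁ × L₂ × L₃ => (z.2.1 : V)) h
  have e3 : t' + t'' = 0 := congrArg (fun z : L₁ × L₂ × L₃ => (z.2.2 : V)) h
  have e4 : t = 0 := by
    have h5 : (2 : K) • t = 0 := by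
      rw [two_smul]
      have : t + t = (t + t'') + (t + t') - (t' + t'') := by abel
      rw [this, e1, e2, e3]
      simp
    exact (smul_eq_zero.mp h5).resolve_left h2
  subst e4
  rw [zero_add] at e1 e2
  subst e1 e2
  rfl

theorem parity (h2 : (2 : K) ≠ 0) (B : LinearMap.BilinForm K V) (hB : ∀ x y, B x y = B y x)
    (L₁ L₂ L₃ : Submodule K V) (h₁ : B.orthogonal L₁ = L₁) (h₂ : B.orthogonal L₂ = L₂)
    (h₃ : B.orthogonal L₃ = L₃) :
    (finrank K (L₁ ⊓ L₂ : Submodule K V) + finrank K (L₂ ⊓ L₃ : Submodule K V) +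
      finrank K (L₃ ⊓ L₁ : Submodule K V)) % 2 =
    (finrank K L₁ + finrank K L₂ + finrank K L₃) % 2 := by
  have h := BKPar.finrank_radical h2 (S3 B L₁ L₂ L₃) (fun x => by
    change B (x.1 : V) (x.2.1 : V) - B (x.2.1 : V) (x.1 : V) +
      B (x.2.1 : V) (x.2.2 : V) - B (x.2.2 : V) (x.2.1 : V) + B (x.2.2 : V) (x.1 : V) -
      B (x.1 : V) (x.2.2 : V) = 0
    rw [hB x.2.1 x.1, hB x.2.2 x.2.1, hB x.2.2 x.1]
    ring) (LinearMap.range (φ3 L₁ L₂ L₃)) (fun z => by
    have o : ∀ {L : Submodule K V}, B.orthogonal L = L → ∀ {x y : V}, x ∈ L → y ∈ L →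
        B x y = 0 := by
      intro L hL x y hx hy
      rw [← hL] at hy
      exact (LinearMap.BilinForm.mem_orthogonal_iff).mp hy x hx
    constructor
    · rintro ⟨⟨⟨t, ht⟩, ⟨t', ht'⟩, ⟨t'', ht''⟩⟩, rfl⟩ ⟨⟨x₁, hx₁⟩, ⟨x₂, hx₂⟩, ⟨x₃, hx₃⟩⟩
      change B x₁ (t + t') - B x₂ (t + t'') + B x₂ (t' + t'') - B x₃ (t + t') + B x₃ (t + t'') -
        B x₁ (t' + t'') = 0
      have a1 := o h₁ hx₁ ht.1
      have a2 := o h₁ hx₁ ht''.2
      have a3 := o h₂ hx₂ ht.2
      have a4 := o h₂ hx₂ ht'.1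
      have a5 := o h₃ hx₃ ht'.2
      have a6 := o h₃ hx₃ ht''.1
      simp only [map_add, a1, a2, a3, a4, a5, a6]
      ring
    · intro hz
      obtain ⟨⟨y₁, hy₁⟩, ⟨y₂, hy₂⟩, ⟨y₃, hy₃⟩⟩ := z
      have b1 : y₂ - y₃ ∈ L₁ := by
        rw [← h₁, LinearMap.BilinForm.mem_orthogonal_iff]
        intro x hx
        have := hz (⟨x, hx⟩, 0, 0)
        change B x y₂ - B (0 : V) y₁ + B (0 : V) y₃ - B (0 : V) y₂ + B (0 : V) y₁ - B x y₃ = 0
          at this
        rw [map_sub]
        simpa using this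
      have b2 : y₃ - y₁ ∈ L₂ := by
        rw [← h₂, LinearMap.BilinForm.mem_orthogonal_iff]
        intro x hx
        have := hz (0, ⟨x, hx⟩, 0)
        change B (0 : V) y₂ - B x y₁ + B x y₃ - B (0 : V) y₂ + B (0 : V) y₁ - B (0 : V) y₃ = 0
          at this
        rw [map_sub]
        simp only [map_zero, LinearMap.zero_apply, zero_sub, sub_zero, add_zero] at this
        rw [← this]
        ring
      have b3 : y₁ - y₂ ∈ L₃ := by
        rw [← h₃, LinearMap.BilinForm.mem_orthogonal_iff]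
        intro x hx
        have := hz (0, 0, ⟨x, hx⟩)
        change B (0 : V) y₂ - B (0 : V) y₁ + B (0 : V) y₃ - B x y₂ + B x y₁ - B (0 : V) y₃ = 0
          at this
        rw [map_sub]
        simp only [map_zero, LinearMap.zero_apply, zero_sub, sub_zero, add_zero] at this
        rw [← this]
        ring
      have c1 : y₁ + y₂ - y₃ ∈ L₁ ⊓ L₂ := by
        refine ⟨?_, ?_⟩
        · have := L₁.add_mem hy₁ b1
          rwa [← add_sub_assoc] at this
        · have := L₂.sub_mem hy₂ b2
          have e : y₂ - (y₃ - y₁) = y₁ + y₂ - y₃ := by abel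
          rwa [e] at this
      have c2 : y₂ + y₃ - y₁ ∈ L₂ ⊓ L₃ := by
        refine ⟨?_, ?_⟩
        · have := L₂.add_mem hy₂ b2
          rwa [← add_sub_assoc] at this
        · have := L₃.sub_mem hy₃ b3
          have e : y₃ - (y₁ - y₂) = y₂ + y₃ - y₁ := by abel
          rwa [e] at this
      have c3 : y₃ + y₁ - y₂ ∈ L₃ ⊓ L₁ := by
        refine ⟨?_, ?_⟩
        · have := L₃.add_mem hy₃ b3
          rwa [← add_sub_assoc] at this
        · have := L₁.sub_mem hy₁ b1
          have e : y₁ - (y₂ - y₃) = y₃ + y₁ - y₂ := by abel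
          rwa [e] at this
      have half : ∀ a b c : V, a + b = (2 : K) • c → (2 : K)⁻¹ • a + (2 : K)⁻¹ • b = c := by
        intro a b c h
        rw [← smul_add, h, smul_smul, inv_mul_cancel₀ h2, one_smul]
      refine ⟨(⟨(2 : K)⁻¹ • (y₁ + y₂ - y₃), Submodule.smul_mem _ _ c1⟩,
        ⟨(2 : K)⁻¹ • (y₂ + y₃ - y₁), Submodule.smul_mem _ _ c2⟩,
        ⟨(2 : K)⁻¹ • (y₃ + y₁ - y₂), Submodule.smul_mem _ _ c3⟩), ?_⟩
      refine Prod.ext ?_ (Prod.ext ?_ ?_)
      · refine Subtype.ext (half _ _ _ ?_)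
        rw [two_smul]
        abel
      · refine Subtype.ext (half _ _ _ ?_)
        rw [two_smul]
        abel
      · refine Subtype.ext (half _ _ _ ?_)
        rw [two_smul]
        abel)
  rw [LinearMap.finrank_range_of_inj (φ3_injective h2 L₁ L₂ L₃), Module.finrank_prod,
    Module.finrank_prod, Module.finrank_prod, Module.finrank_prod] at h
  rw [add_assoc, h, add_assoc]

end Triple

section Dim

variable {K E V : Type*} [Field K] [AddCommGroup E] [Module K E] [FiniteDimensional K E]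
  [AddCommGroup V] [Module K V] [FiniteDimensional K V]

omit [FiniteDimensional K E] [FiniteDimensional K V] in
/-- the submodule of a product -/
def prodEq (A : Submodule K E) (A' : Submodule K V) : (A.prod A') ≃ₗ[K] A × A' where
  toFun x := (⟨x.1.1, x.2.1⟩, ⟨x.1.2, x.2.2⟩)
  map_add' _ _ := rfl
  map_smul' _ _ := rfl
  invFun x := ⟨(x.1, x.2), ⟨x.1.2, x.2.2⟩⟩
  left_inv _ := rfl
  right_inv _ := rfl

theorem finrank_prodS (A : Submodule K E) (A' : Submodule K V) :
    finrank K (A.prod A') = finrank K A + finrank K A' := by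
  rw [(prodEq A A').finrank_eq, Module.finrank_prod]

omit [FiniteDimensional K V] in
theorem finrank_map (f : E →ₗ[K] V) (X : Submodule K E) (hX : LinearMap.ker f ≤ X) :
    finrank K (X.map f) + finrank K (LinearMap.ker f) = finrank K X := by
  have h := LinearMap.finrank_range_add_finrank_ker (f.domRestrict X)
  rw [LinearMap.range_domRestrict, LinearMap.ker_domRestrict] at h
  rw [← h]
  congr 1
  exact (Submodule.comapSubtypeEquivOfLe hX).finrank_eq.symm

theorem finrank_image (f : E →ₗ[K] V) (W U : Submodule K V) (hWU : W ≤ U) :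
    finrank K ((LinearMap.range f ⊔ W) ⊓ U : Submodule K V) + finrank K (W.comap f) =
      finrank K W + finrank K (U.comap f) := by
  have e1 : (LinearMap.range f ⊔ W) ⊓ U = (U.comap f).map f ⊔ W := by
    apply le_antisymm
    · rintro v ⟨hv, hvU⟩
      obtain ⟨_, ⟨x, rfl⟩, w, hw, rfl⟩ := Submodule.mem_sup.mp hv
      refine Submodule.mem_sup.mpr ⟨f x, ⟨x, ?_, rfl⟩, w, hw, rfl⟩
      have := U.sub_mem hvU (hWU hw)
      rwa [add_sub_cancel_right] at this
    · refine sup_le ?_ (le_inf le_sup_right hWU)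
      rintro _ ⟨x, hx, rfl⟩
      exact ⟨Submodule.mem_sup_left ⟨x, rfl⟩, hx⟩
  have e2 : (U.comap f).map f ⊓ W = (W.comap f).map f := by
    apply le_antisymm
    · rintro _ ⟨⟨x, hx, rfl⟩, hw⟩
      exact ⟨x, hw, rfl⟩
    · rintro _ ⟨x, hx, rfl⟩
      exact ⟨⟨x, hWU hx, rfl⟩, hx⟩
  have h1 := Submodule.finrank_sup_add_finrank_inf_eq ((U.comap f).map f) W
  have h2 := finrank_map f (U.comap f) (fun x hx => by
    rw [Submodule.mem_comap, LinearMap.mem_ker.mp hx]
    exact U.zero_mem)
  have h3 := finrank_map f (W.comap f) (fun x hx => by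
    rw [Submodule.mem_comap, LinearMap.mem_ker.mp hx]
    exact W.zero_mem)
  rw [e2] at h1
  rw [e1]
  omega

end Dim

end LLA

open Module Submodule LLA in
theorem stLA : StLA := by
  intro K _ h2 E W W' _ _ _ _ _ _ _ _ _ a b β W₀ W₀' hW₀ hW₀' hanti hdim P P' hP hP'
  classical
  -- the hyperbolic form
  let B : LinearMap.BilinForm K (W × W') := LinearMap.mk₂ K (fun x y => β x.1 y.2 + β y.1 x.2)
    (fun x x' y => by
      simp only [Prod.fst_add, Prod.snd_add, map_add, LinearMap.add_apply]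
      ring)
    (fun c x y => by
      simp only [Prod.smul_fst, Prod.smul_snd, map_smul, LinearMap.smul_apply, smul_eq_mul]
      ring)
    (fun x y y' => by
      simp only [Prod.fst_add, Prod.snd_add, map_add, LinearMap.add_apply]
      ring)
    (fun c x y => by
      simp only [Prod.smul_fst, Prod.smul_snd, map_smul, LinearMap.smul_apply, smul_eq_mul]
      ring)
  have hBa : ∀ x y, B x y = β x.1 y.2 + β y.1 x.2 := fun x y => rfl
  have hB : ∀ x y, B x y = B y x := fun x y => by rw [hBa, hBa, add_comm]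
  have hrefl : B.IsRefl := fun x y h => by rw [hB, h]
  -- the radical
  have hrad : B.orthogonal ⊤ = W₀.prod W₀' := by
    ext ⟨w, w'⟩
    rw [LinearMap.BilinForm.mem_orthogonal_iff, Submodule.mem_prod, hW₀, hW₀']
    constructor
    · intro h
      refine ⟨fun v' => ?_, fun v => ?_⟩
      · have := h (0, v') Submodule.mem_top
        rw [hBa] at this
        simpa using this
      · have := h (v, 0) Submodule.mem_top
        rw [hBa] at this
        simpa using this
    · rintro ⟨h, h'⟩ ⟨v, v'⟩ _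
      rw [hBa]
      change β v w' + β w v' = 0
      rw [h', h, add_zero]
  have hfo : ∀ L : Submodule K (W × W'), W₀.prod W₀' ≤ L →
      finrank K L + finrank K (B.orthogonal L) =
        finrank K W + finrank K W' + (finrank K W₀ + finrank K W₀') := by
    intro L hL
    rw [LinearMap.BilinForm.finrank_add_finrank_orthogonal hrefl, hrad, inf_eq_right.mpr hL,
      Module.finrank_prod, finrank_prodS]
  have hLP : ∀ (Q : Submodule K W) (Q' : Submodule K W'), W₀ ≤ Q →
      (∀ w', w' ∈ Q' ↔ ∀ w ∈ Q, β w w' = 0) → B.orthogonal (Q.prod Q') = Q.prod Q' := by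
    intro Q Q' hQ hQ'
    have e1 : Q' = (Q.map β).dualCoannihilator := by
      ext w'
      rw [Submodule.mem_dualCoannihilator, hQ']
      constructor
      · rintro h _ ⟨w, hw, rfl⟩
        exact h w hw
      · intro h w hw
        exact h _ ⟨w, hw, rfl⟩
    ext ⟨v, v'⟩
    rw [LinearMap.BilinForm.mem_orthogonal_iff, Submodule.mem_prod]
    constructor
    · intro h
      refine ⟨?_, ?_⟩
      · have h1 : β v ∈ Q'.dualAnnihilator := by
          rw [Submodule.mem_dualAnnihilator]
          intro w' hw'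
          have := h (0, w') ⟨Q.zero_mem, hw'⟩
          rw [hBa] at this
          simpa using this
        rw [e1, Subspace.dualCoannihilator_dualAnnihilator_eq] at h1
        obtain ⟨w, hw, hwv⟩ := h1
        have h2 : v - w ∈ W₀ := by
          rw [hW₀]
          intro w'
          rw [map_sub, hwv, sub_self, LinearMap.zero_apply]
        have := Q.add_mem (hQ h2) hw
        rwa [sub_add_cancel] at this
      · rw [hQ']
        intro w hw
        have := h (w, 0) ⟨hw, Q'.zero_mem⟩
        rw [hBa] at this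
        simpa using this
    · rintro ⟨hv, hv'⟩ ⟨w, w'⟩ ⟨hw, hw'⟩
      rw [hBa]
      change β w v' + β v w' = 0
      rw [(hQ' v').mp hv' w hw, (hQ' w').mp hw' v hv, add_zero]
  have hW₀'le : ∀ Q' : Submodule K W', (∀ Q : Submodule K W,
      (∀ w', w' ∈ Q' ↔ ∀ w ∈ Q, β w w' = 0) → W₀' ≤ Q') := by
    intro Q' Q hQ' w' hw'
    rw [hQ']
    intro w _
    exact (hW₀' w').mp hw' w
  have htop : ∀ w', w' ∈ (⊤ : Submodule K W') ↔ ∀ w ∈ W₀, β w w' = 0 :=
    fun w' => ⟨fun _ w hw => (hW₀ w).mp hw w', fun _ => Submodule.mem_top⟩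
  -- the three subspaces
  set ι : E →ₗ[K] W × W' := a.prod b with hι
  set R0 : Submodule K (W × W') := W₀.prod W₀' with hR0
  have hc0 : R0.comap ι = W₀.comap a ⊓ W₀'.comap b := rfl
  have hcP : (P.prod P').comap ι = P.comap a ⊓ P'.comap b := rfl
  have hcE : (W₀.prod (⊤ : Submodule K W')).comap ι = W₀.comap a := by
    ext x
    exact ⟨fun h => h.1, fun h => ⟨h, Submodule.mem_top⟩⟩
  have h0P : R0 ≤ P.prod P' := Submodule.prod_mono hP (hW₀'le P' P hP')
  have h0E : R0 ≤ W₀.prod (⊤ : Submodule K W') := Submodule.prod_mono le_rfl le_top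
  have o2 := hLP P P' hP hP'
  have o3 := hLP W₀ ⊤ le_rfl htop
  -- dimensions
  have d2 := hfo _ h0P
  have d3 := hfo _ h0E
  rw [o2] at d2
  rw [o3] at d3
  rw [finrank_prodS] at d2 d3
  rw [finrank_top] at d3
  have d1 := finrank_image ι R0 ⊤ le_top
  rw [inf_top_eq, hc0, Submodule.comap_top, finrank_top, finrank_prodS] at d1
  have o1 : B.orthogonal (LinearMap.range ι ⊔ R0) = LinearMap.range ι ⊔ R0 := by
    symm
    apply Submodule.eq_of_le_of_finrank_le
    · refine sup_le ?_ ?_
      · rintro _ ⟨x, rfl⟩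
        rw [LinearMap.BilinForm.mem_orthogonal_iff]
        intro n hn
        obtain ⟨_, ⟨y, rfl⟩, r, hr, rfl⟩ := Submodule.mem_sup.mp hn
        have h1 : B r (ι x) = 0 := by
          rw [hB]
          rw [← hrad] at hr
          exact (LinearMap.BilinForm.mem_orthogonal_iff).mp hr _ Submodule.mem_top
        rw [map_add, LinearMap.add_apply, h1, add_zero, hBa]
        change β (a y) (b x) + β (a x) (b y) = 0
        rw [hanti y x, neg_add_cancel]
      · intro r hr
        rw [← hrad] at hr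
        rw [LinearMap.BilinForm.mem_orthogonal_iff]
        intro n _
        exact (LinearMap.BilinForm.mem_orthogonal_iff).mp hr _ Submodule.mem_top
    · have := hfo (LinearMap.range ι ⊔ R0) le_sup_right
      omega
  have hpar := parity h2 B hB _ _ _ o1 o2 o3
  have i12 := finrank_image ι R0 (P.prod P') h0P
  have i13 := finrank_image ι R0 (W₀.prod ⊤) h0E
  have i23 : (P.prod P') ⊓ (W₀.prod (⊤ : Submodule K W')) = W₀.prod P' := by
    rw [Submodule.prod_inf_prod, inf_eq_right.mpr hP, inf_top_eq]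
  rw [hc0, hcP, finrank_prodS] at i12
  rw [hc0, hcE, finrank_prodS] at i13
  rw [i23, inf_comm (W₀.prod (⊤ : Submodule K W')), finrank_prodS, finrank_prodS, finrank_prodS,
    finrank_top] at hpar
  omega

end BKMet
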