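import Pool.Agent.Lib.MP_7c08ba_nt.Met.StL
import Pool.Agent.Lib.MP_7c08ba_nt.Met.XCT
import Pool.Agent.Lib.MP_7c08ba_nt.Met.XLINEB

set_option autoImplicit false

/-!
Metabolic parity, module LAB: local duality on `H¹` and `H²` for subquotients of finite modules, by
dévissage.
-/

noncomputable section

namespace BKMet

open BKPar (Loc1 Loc2)
open BKND (Sm)

namespace LLAB

/-! ### Duality between a finite group and a group of cochains -/

section Dual

variable {p : ℕ} [Fact p.Prime] {V W : Type} [AddCommGroup V] [AddCommGroup W]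

/-- the left kernel -/
def lker (B : V → W → QZ p) (X : AddSubgroup V) (Y : AddSubgroup W)
    (h : ∀ x ∈ X, ∀ x' ∈ X, ∀ y ∈ Y, B (x + x') y = B x y + B x' y) : AddSubgroup V where
  carrier := {x | x ∈ X ∧ ∀ y ∈ Y, B x y = 0}
  add_mem' := by
    rintro x x' ⟨hx, hx1⟩ ⟨hx', hx1'⟩
    refine ⟨X.add_mem hx hx', fun y hy => ?_⟩
    rw [h x hx x' hx' y hy, hx1 y hy, hx1' y hy, add_zero]
  zero_mem' := by
    refine ⟨X.zero_mem, fun y hy => ?_⟩
    have e := h 0 X.zero_mem 0 X.zero_mem y hy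
    rw [add_zero] at e
    exact left_eq_add.1 e
  neg_mem' := by
    rintro x ⟨hx, hx1⟩
    refine ⟨X.neg_mem hx, fun y hy => ?_⟩
    have e0 := h 0 X.zero_mem 0 X.zero_mem y hy
    rw [add_zero] at e0
    have e := h x hx (-x) (X.neg_mem hx) y hy
    rw [add_neg_cancel, left_eq_add.1 e0, hx1 y hy, zero_add] at e
    exact e.symm

theorem mem_lker {B : V → W → QZ p} {X : AddSubgroup V} {Y : AddSubgroup W}
    {h : ∀ x ∈ X, ∀ x' ∈ X, ∀ y ∈ Y, B (x + x') y = B x y + B x' y} {x : V} :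
    x ∈ lker B X Y h ↔ x ∈ X ∧ ∀ y ∈ Y, B x y = 0 := Iff.rfl

/-- Functionals on both sides of a pairing with one finite side. -/
theorem dual (hD : StDual) (B : V → W → QZ p) (X : AddSubgroup V) (Y : AddSubgroup W) [Finite X]
    (h1 : ∀ x ∈ X, ∀ x' ∈ X, ∀ y ∈ Y, B (x + x') y = B x y + B x' y)
    (h2 : ∀ x ∈ X, ∀ y ∈ Y, ∀ y' ∈ Y, B x (y + y') = B x y + B x y') :
    (∀ φ : V → QZ p, (∀ x ∈ X, ∀ x' ∈ X, φ (x + x') = φ x + φ x') →
      (∀ x ∈ X, (∀ y ∈ Y, B x y = 0) → φ x = 0) → ∃ y ∈ Y, ∀ x ∈ X, φ x = B x y) ∧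
    ∀ φ : W → QZ p, (∀ y ∈ Y, ∀ y' ∈ Y, φ (y + y') = φ y + φ y') →
      (∀ y ∈ Y, (∀ x ∈ X, B x y = 0) → φ y = 0) → ∃ x ∈ X, ∀ y ∈ Y, φ y = B x y := by
  have h2' : ∀ y ∈ Y, ∀ y' ∈ Y, ∀ x ∈ X, (fun y x => B x y) (y + y') x =
      (fun y x => B x y) y x + (fun y x => B x y) y' x := fun y hy y' hy' x hx =>
    h2 x hx y hy y' hy'
  have hX : (lker B X Y h1).relIndex X ≠ 0 := by
    rw [AddSubgroup.relIndex]
    exact AddSubgroup.index_ne_zero_of_finite
  have hm : ∀ x ∈ X, x ∈ lker B X Y h1 ↔ ∀ y ∈ Y, B x y = 0 := fun x hx =>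
    ⟨fun h => h.2, fun h => ⟨hx, h⟩⟩
  have hm' : ∀ y ∈ Y, y ∈ lker (fun y x => B x y) Y X h2' ↔ ∀ x ∈ X, B x y = 0 := fun y hy =>
    ⟨fun h => h.2, fun h => ⟨hy, h⟩⟩
  have key := hD p V W B X (lker B X Y h1) Y (lker (fun y x => B x y) Y X h2') h1 h2
    (fun x hx => hx.1) (fun y hy => hy.1) hm hm' hX
  refine ⟨fun φ hφ hk => key.2 φ hφ fun x hx => hk x hx.1 hx.2, fun φ hφ hk => ?_⟩
  have hY : (lker (fun y x => B x y) Y X h2').relIndex Y ≠ 0 := by
    rw [key.1]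
    exact hX
  exact (hD p W V (fun y x => B x y) Y (lker (fun y x => B x y) Y X h2') X (lker B X Y h1) h2'
    (fun y hy x hx x' hx' => h1 x hx x' hx' y hy) (fun y hy => hy.1) (fun x hx => hx.1) hm' hm
    hY).2 φ hφ fun y hy => hk y hy.1 hy.2

end Dual

/-! ### Groups of cochains -/

section Coch

variable {R : Type} [CommRing R] {D : Type} [Group D] {M : Type} [AddCommGroup M] [Module R M]
  (ρ : D →* AddMonoid.End M)

/-- smooth cochains with values in `Q` which are cocycles modulo `P` -/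
def CC [TopologicalSpace D] (P Q : Submodule R M) : AddSubgroup (D → M) where
  carrier := {e | Loc1 e ∧ (∀ g, e g ∈ Q) ∧ ∀ g h, d1 ρ e g h ∈ P}
  add_mem' := by
    rintro x y ⟨hx, hx1, hx2⟩ ⟨hy, hy1, hy2⟩
    refine ⟨BKND.Loc1.map2 hx hy (· + ·), fun g => Q.add_mem (hx1 g) (hy1 g), fun g h => ?_⟩
    rw [XCT.d1_add]
    exact P.add_mem (hx2 g h) (hy2 g h)
  zero_mem' := by
    refine ⟨BKND.Loc1.const 0, fun g => Q.zero_mem, fun g h => ?_⟩
    have e : d1 ρ (0 : D → M) g h = 0 := by simp [d1]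
    rw [e]
    exact P.zero_mem
  neg_mem' := by
    rintro x ⟨hx, hx1, hx2⟩
    refine ⟨BKND.Loc1.map hx (fun x => -x), fun g => Q.neg_mem (hx1 g), fun g h => ?_⟩
    have e : d1 ρ (-x) g h = - d1 ρ x g h := by
      simp only [d1, Pi.neg_apply, map_neg]
      abel
    rw [e]
    exact P.neg_mem (hx2 g h)

/-- elements of `Q` which are invariant modulo `P` -/
def HH (P Q : Submodule R M) : AddSubgroup M where
  carrier := {m | m ∈ Q ∧ ∀ g, d0 ρ m g ∈ P}
  add_mem' := by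
    rintro x y ⟨hx, hx1⟩ ⟨hy, hy1⟩
    refine ⟨Q.add_mem hx hy, fun g => ?_⟩
    have e : d0 ρ (x + y) g = d0 ρ x g + d0 ρ y g := by
      simp only [d0, map_add]
      abel
    rw [e]
    exact P.add_mem (hx1 g) (hy1 g)
  zero_mem' := by
    refine ⟨Q.zero_mem, fun g => ?_⟩
    have e : d0 ρ (0 : M) g = 0 := by simp [d0]
    rw [e]
    exact P.zero_mem
  neg_mem' := by
    rintro x ⟨hx, hx1⟩
    refine ⟨Q.neg_mem hx, fun g => ?_⟩
    have e : d0 ρ (-x) g = - d0 ρ x g := by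
      simp only [d0, map_neg]
      abel
    rw [e]
    exact P.neg_mem (hx1 g)

theorem d0_sub (x y : M) (g : D) : d0 ρ (x - y) g = d0 ρ x g - d0 ρ y g := by
  simp only [d0, map_sub]
  abel

theorem d0_add (x y : M) (g : D) : d0 ρ (x + y) g = d0 ρ x g + d0 ρ y g := by
  simp only [d0, map_add]
  abel

theorem d2_sub (z z' : D → D → M) (g h k : D) :
    d2 ρ (z - z') g h k = d2 ρ z g h k - d2 ρ z' g h k := by
  simp only [d2, Pi.sub_apply, map_sub]
  abel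

end Coch

/-! ### Invariants of coboundaries -/

section Inv

variable {R : Type} [CommRing R] {p : ℕ} [Fact p.Prime] {D : Type} [Group D] [TopologicalSpace D]
  [IsTopologicalGroup D] [CompactSpace D] {χ : D →* ℤ_[p]ˣ} {inv : (D → D → QZ p) →+ QZ p}
  {δ : ℕ} (hL : LocAx p χ inv δ) {M M' : Type} [AddCommGroup M] [Module R M] [AddCommGroup M']
  [Module R M'] (X : Pair R (actA χ) M M')

include hL

/-- the invariant of the coboundary of `b (u, v)` vanishes -/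
theorem inv_cob {u : D → M} {v : D → M'} (hu : Loc1 u) (hv : Loc1 v) :
    inv (d1 (actA χ) fun g => X.b (u g) (v g)) = 0 := by
  have hF : Loc1 fun g => X.b (u g) (v g) := BKND.Loc1.map2 hu hv fun x y => X.b x y
  refine (hL.inv_eq _ ⟨?_, fun g h k => XCT.d2_d1 (actA χ) _ g h k⟩).2 ⟨_, hF, fun g h => rfl⟩
  have h1 : Loc2 fun g h => X.b (X.ρ g (u h)) (X.ρ' g (v h)) :=
    BKND.Loc2.map2
      (BKND.Loc2.map2 (XCT.Loc1.fst (XCT.sm_loc1 X.sm)) (XCT.Loc1.snd hu) fun φ m => φ m)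
      (BKND.Loc2.map2 (XCT.Loc1.fst (XCT.sm_loc1 X.sm')) (XCT.Loc1.snd hv) fun φ m => φ m)
      fun x y => X.b x y
  have h4 := BKND.Loc2.map2 (BKND.Loc2.map2 h1 (XCT.Loc1.mul hF) (· - ·)) (XCT.Loc1.fst hF)
    (· + ·)
  simp only [X.eqv] at h4
  exact h4

/-- `dm ∪ e` and `b (m, de)` -/
theorem inv_d0_cup (m : M) {e : D → M'} (he : Loc1 e) :
    inv (cup11 X.b X.ρ' (d0 X.ρ m) e) = - inv (fun g h => X.b m (d1 X.ρ' e g h)) := by
  have h0 := inv_cob hL X (BKND.Loc1.const m) he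
  have h1 : (d1 (actA χ) fun g => X.b m (e g)) =
      cup11 X.b X.ρ' (d0 X.ρ m) e + fun g h => X.b m (d1 X.ρ' e g h) := by
    funext g h
    exact XCT.d1_pair' X.b X.ρ X.ρ' (actA χ) X.eqv m e g h
  rw [h1, map_add] at h0
  exact eq_neg_of_add_eq_zero_left h0

/-- `dq ∪ y` and `q ∪ dy` -/
theorem inv_d1_cup {q : D → M} (hq : Loc1 q) (y : M') :
    inv (cup20 X.b X.ρ' (d1 X.ρ q) y) = inv (cup11 X.b X.ρ' q (d0 X.ρ' y)) := by
  have h0 := inv_cob hL X hq (XCT.loc1_act X.sm' y)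
  have h1 : (d1 (actA χ) fun g => X.b (q g) (X.ρ' g y)) =
      cup20 X.b X.ρ' (d1 X.ρ q) y - cup11 X.b X.ρ' q (d0 X.ρ' y) := by
    funext g h
    exact XCT.d1_pair X.b X.ρ X.ρ' (actA χ) X.eqv q y g h
  rw [h1, map_sub] at h0
  exact sub_eq_zero.1 h0

/-- the cup product is antisymmetric -/
theorem inv_anti {N Q : Submodule R M} (hN : X.Stable N) {x : D → M} {e : D → M'} (hx : Loc1 x)
    (he : Loc1 e) (hxQ : ∀ g, x g ∈ Q) (hxN : ∀ g h, d1 X.ρ x g h ∈ N)
    (heN : ∀ g, e g ∈ X.perp N) (heQ : ∀ g h, d1 X.ρ' e g h ∈ X.perp Q) :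
    inv (cup11 X.flip.b X.flip.ρ' e x) = - inv (cup11 X.b X.ρ' x e) := by
  have h0 := inv_cob hL X hx he
  have hst : ∀ g, ∀ y ∈ X.perp N, X.ρ' g y ∈ X.perp N := by
    intro g y hy n hn
    have e := X.eqv g (X.ρ g⁻¹ n) y
    rw [← XCT.act_mul, mul_inv_cancel, map_one, AddMonoid.End.one_apply] at e
    rw [e, hy _ (hN _ _ hn), map_zero]
  have h1 : (d1 (actA χ) fun g => X.b (x g) (e g)) =
      -(cup11 X.flip.b X.flip.ρ' e x + cup11 X.b X.ρ' x e) := by
    funext g h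
    have e1 : X.b (x (g * h)) (e (g * h)) = X.b (x (g * h)) (e g + X.ρ' g (e h)) := by
      have e2 := heQ g h _ (hxQ (g * h))
      have e3 : e (g * h) = e g + X.ρ' g (e h) - d1 X.ρ' e g h := by
        simp only [d1]
        abel
      rw [e3, map_sub, e2, sub_zero]
    have e2 : X.b (x (g * h)) (e g + X.ρ' g (e h)) =
        X.b (x g + X.ρ g (x h)) (e g + X.ρ' g (e h)) := by
      have e2 := (X.perp N).add_mem (heN g) (hst g _ (heN h)) _ (hxN g h)
      have e3 : x (g * h) = x g + X.ρ g (x h) - d1 X.ρ x g h := by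
        simp only [d1]
        abel
      rw [e3, map_sub, AddMonoidHom.sub_apply, e2, sub_zero]
    change actA χ g (X.b (x h) (e h)) - X.b (x (g * h)) (e (g * h)) + X.b (x g) (e g) =
      -(X.b (X.ρ g (x h)) (e g) + X.b (x g) (X.ρ' g (e h)))
    rw [← X.eqv, e1, e2]
    simp only [map_add, AddMonoidHom.add_apply]
    abel
  rw [h1, map_neg, neg_eq_zero, map_add] at h0
  exact eq_neg_of_add_eq_zero_left h0

end Inv

/-! ### The two statements -/

section Step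

variable {R : Type} [CommRing R] {p : ℕ} [Fact p.Prime] {D : Type} [Group D] [TopologicalSpace D]
  {χ : D →* ℤ_[p]ˣ} (inv : (D → D → QZ p) →+ QZ p)
  {M M' : Type} [AddCommGroup M] [Module R M] [AddCommGroup M']
  [Module R M'] (X : Pair R (actA χ) M M')

/-- the statement on `H¹` -/
def SA (P Q : Submodule R M) : Prop :=
  ∀ f : D → M, Loc1 f → (∀ g, f g ∈ Q) → (∀ g h, d1 X.ρ f g h ∈ P) →
    (∀ e : D → M', Loc1 e → (∀ g, e g ∈ X.perp P) → (∀ g h, d1 X.ρ' e g h ∈ X.perp Q) →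
      inv (cup11 X.b X.ρ' f e) = 0) →
    ∃ m ∈ Q, ∀ g, f g - d0 X.ρ m g ∈ P

/-- the statement on `H²` -/
def SB (P Q : Submodule R M) : Prop :=
  ∀ z : D → D → M, Loc2 z → (∀ g h, z g h ∈ Q) → (∀ g h l, d2 X.ρ z g h l ∈ P) →
    (∀ m' ∈ X.perp P, (∀ g, d0 X.ρ' m' g ∈ X.perp Q) → inv (cup20 X.b X.ρ' z m') = 0) →
    ∃ e : D → M, Loc1 e ∧ (∀ g, e g ∈ Q) ∧ ∀ g h, z g h - d1 X.ρ e g h ∈ P

theorem perp_st {N : Submodule R M} (hN : X.Stable N) (g : D) {y : M'} (hy : y ∈ X.perp N) :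
    X.ρ' g y ∈ X.perp N := by
  intro n hn
  have e := X.eqv g (X.ρ g⁻¹ n) y
  rw [← XCT.act_mul, mul_inv_cancel, map_one, AddMonoid.End.one_apply] at e
  rw [e, hy _ (hN _ _ hn), map_zero]

end Step

/-! ### The isomorphism with a line -/

section Phi

variable {R : Type} [CommRing R] {D : Type} [Group D] {M : Type} [AddCommGroup M] [Module R M]
  {ρ : D →* AddMonoid.End M} {N : Submodule R M} {k : Type} [Field k] {ψ : D →* kˣ} {φ : M → k}
  (add : ∀ x ∈ N, ∀ y ∈ N, φ (x + y) = φ x + φ y)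
  (hN : ∀ g, ∀ x ∈ N, ρ g x ∈ N)
  (act : ∀ g, ∀ x ∈ N, φ (ρ g x) = ((ψ g : kˣ) : k) * φ x)

include add

theorem phi_sub {x y : M} (hx : x ∈ N) (hy : y ∈ N) : φ (x - y) = φ x - φ y := by
  have h := add (x - y) (N.sub_mem hx hy) y hy
  rw [sub_add_cancel] at h
  exact eq_sub_of_add_eq h.symm

include hN act

theorem phi_d0 {x : M} (hx : x ∈ N) (g : D) :
    φ (d0 ρ x g) = ((ψ g : kˣ) : k) * φ x - φ x := by
  simp only [d0]
  rw [phi_sub add (hN g x hx) hx, act g x hx]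

theorem phi_d1 {f : D → M} (hf : ∀ g, f g ∈ N) (g h : D) :
    φ (d1 ρ f g h) = ((ψ g : kˣ) : k) * φ (f h) - φ (f (g * h)) + φ (f g) := by
  simp only [d1]
  rw [add _ (N.sub_mem (hN _ _ (hf h)) (hf _)) _ (hf _), phi_sub add (hN _ _ (hf h)) (hf _),
    act g _ (hf h)]

theorem phi_d2 {z : D → D → M} (hz : ∀ g h, z g h ∈ N) (g h l : D) :
    φ (d2 ρ z g h l) = ((ψ g : kˣ) : k) * φ (z h l) - φ (z (g * h) l) + φ (z g (h * l)) -
      φ (z g h) := by
  simp only [d2]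
  rw [phi_sub add (N.add_mem (N.sub_mem (hN _ _ (hz h l)) (hz _ _)) (hz _ _)) (hz _ _),
    add _ (N.sub_mem (hN _ _ (hz h l)) (hz _ _)) _ (hz _ _),
    phi_sub add (hN _ _ (hz h l)) (hz _ _), act g _ (hz h l)]

end Phi

/-! ### The inductive steps -/

section Steps

variable {R : Type} [CommRing R] {p : ℕ} [Fact p.Prime] {D : Type} [Group D] [TopologicalSpace D]
  [IsTopologicalGroup D] [CompactSpace D] {χ : D →* ℤ_[p]ˣ} {inv : (D → D → QZ p) →+ QZ p}
  {δ : ℕ} {M M' : Type} [AddCommGroup M] [Module R M] [AddCommGroup M'] [Module R M']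
  {X : Pair R (actA χ) M M'} {P N Q : Submodule R M} {k : Type} [Field k] [Finite k]
  [Algebra (ZMod p) k] {ψ ψ' : D →* kˣ} {lam : k →+ QZ p} {φ : M → k} {φ' : M' → k}

theorem stepA (hD : StDual) (hL : LocAx p χ inv δ) [Finite M] (hP : X.Stable P)
    (hN : X.Stable N) (hPN : P ≤ N) (hNQ : N ≤ Q)
    (hψ : Sm (kch ψ)) (hψ' : Sm (kch ψ')) (hrel : Rel χ ψ ψ') (hlam : lam ≠ 0)
    (hl : IsLine X P N k ψ ψ' lam φ φ')
    (hQQ : X.flip.perp (X.perp Q) = Q) (hNN : X.flip.perp (X.perp N) = N)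
    (hA : SA inv X N Q) (hB : SB inv X.flip (X.perp Q) (X.perp N)) : SA inv X P Q := by
  intro f hf hfQ hfP horth
  have hpNP : X.perp N ≤ X.perp P := fun y hy n hn => hy n (hPN hn)
  obtain ⟨m₀, hm₀, hm₀'⟩ := hA f hf hfQ (fun g h => hPN (hfP g h)) fun e he he1 he2 =>
    horth e he (fun g => hpNP (he1 g)) he2
  obtain ⟨f1, hf1⟩ : ∃ f1 : D → M, f1 = f - d0 X.ρ m₀ := ⟨_, rfl⟩
  have hf1l : Loc1 f1 := by
    rw [hf1]
    exact BKND.Loc1.map2 hf (XCT.loc1_d0 X.sm m₀) (· - ·)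
  have hf1N : ∀ g, f1 g ∈ N := by
    intro g
    rw [hf1]
    exact hm₀' g
  have hf1P : ∀ g h, d1 X.ρ f1 g h ∈ P := by
    intro g h
    rw [hf1, XCT.d1_sub, XCT.d1_d0, sub_zero]
    exact hfP g h
  have hadd : ∀ e e' : D → M', inv (cup11 X.b X.ρ' f1 (e + e')) =
      inv (cup11 X.b X.ρ' f1 e) + inv (cup11 X.b X.ρ' f1 e') := by
    intro e e'
    rw [← map_add]
    congr 1
    funext g h
    simp only [cup11, Pi.add_apply, map_add]
  have hzero : ∀ e : D → M', Loc1 e → (∀ g, e g ∈ X.perp P) →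
      (∀ g h, d1 X.ρ' e g h ∈ X.perp Q) → inv (cup11 X.b X.ρ' f1 e) = 0 := by
    intro e he he1 he2
    have e1 : cup11 X.b X.ρ' f1 e = cup11 X.b X.ρ' f e - cup11 X.b X.ρ' (d0 X.ρ m₀) e := by
      funext g h
      simp only [cup11, hf1, Pi.sub_apply, map_sub, AddMonoidHom.sub_apply]
    have e2 : (fun g h => X.b m₀ (d1 X.ρ' e g h)) = 0 := by
      funext g h
      exact he2 g h m₀ hm₀
    rw [e1, map_sub, horth e he he1 he2, inv_d0_cup hL X m₀ he, e2, map_zero, neg_zero, sub_zero]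
  have hzero' : ∀ e : D → M', (∀ g, e g ∈ X.perp N) → inv (cup11 X.b X.ρ' f1 e) = 0 := by
    intro e he
    have e1 : cup11 X.b X.ρ' f1 e = 0 := by
      funext g h
      exact perp_st X hN g (he h) _ (hf1N g)
    rw [e1, map_zero]
  have hker : ∀ e ∈ CC X.ρ' (X.perp N) (X.perp P),
      (∀ m ∈ HH X.ρ N Q, inv (fun g h => X.b m (d1 X.ρ' e g h)) = 0) →
        inv (cup11 X.b X.ρ' f1 e) = 0 := by
    rintro e ⟨he, heP, heN⟩ hk
    obtain ⟨e1, he1, he1N, he1Q⟩ := hB (d1 X.ρ' e) (XCT.loc2_d1 X.sm' he) heN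
      (fun g h l => by
        have e2 : d2 X.flip.ρ (d1 X.ρ' e) g h l = 0 := XCT.d2_d1 X.ρ' e g h l
        rw [e2]
        exact (X.perp Q).zero_mem)
      fun m hm hm' => by
        have hm1 : m ∈ Q := by
          rw [← hQQ]
          exact hm
        have hm2 : ∀ g, d0 X.ρ m g ∈ N := by
          intro g
          rw [← hNN]
          exact hm' g
        have e2 : cup20 X.flip.b X.flip.ρ' (d1 X.ρ' e) m = fun g h => X.b m (d1 X.ρ' e g h) := by
          funext g h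
          change X.b (X.ρ (g * h) m) (d1 X.ρ' e g h) = X.b m (d1 X.ρ' e g h)
          have e3 := heN g h _ (hm2 (g * h))
          simp only [d0, map_sub, AddMonoidHom.sub_apply] at e3
          exact sub_eq_zero.1 e3
        rw [e2]
        exact hk m ⟨hm1, hm2⟩
    have e3 : e = (e - e1) + e1 := (sub_add_cancel e e1).symm
    rw [e3, hadd, hzero' e1 he1N, add_zero]
    refine hzero _ (BKND.Loc1.map2 he he1 (· - ·))
      (fun g => (X.perp P).sub_mem (heP g) (hpNP (he1N g))) fun g h => ?_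
    rw [XCT.d1_sub]
    exact he1Q g h
  obtain ⟨m, hm, hme⟩ := (dual hD (fun (m : M) (e : D → M') =>
      inv fun g h => X.b m (d1 X.ρ' e g h)) (HH X.ρ N Q) (CC X.ρ' (X.perp N) (X.perp P))
    (fun m _ m' _ e _ => by
      rw [← map_add]
      congr 1
      funext g h
      simp only [map_add, AddMonoidHom.add_apply, Pi.add_apply])
    (fun m _ e _ e' _ => by
      rw [← map_add]
      congr 1
      funext g h
      simp only [XCT.d1_add, map_add, Pi.add_apply])).2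
    (fun e => inv (cup11 X.b X.ρ' f1 e)) (fun e _ e' _ => hadd e e') hker
  obtain ⟨f2, hf2⟩ : ∃ f2 : D → M, f2 = f1 + d0 X.ρ m := ⟨_, rfl⟩
  have hf2l : Loc1 f2 := by
    rw [hf2]
    exact BKND.Loc1.map2 hf1l (XCT.loc1_d0 X.sm m) (· + ·)
  have hf2N : ∀ g, f2 g ∈ N := by
    intro g
    rw [hf2]
    exact N.add_mem (hf1N g) (hm.2 g)
  have hf2P : ∀ g h, d1 X.ρ f2 g h ∈ P := by
    intro g h
    rw [hf2, XCT.d1_add, XCT.d1_d0, add_zero]
    exact hf1P g h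
  have horth2 : ∀ e ∈ CC X.ρ' (X.perp N) (X.perp P), inv (cup11 X.b X.ρ' f2 e) = 0 := by
    intro e he
    have e1 : cup11 X.b X.ρ' f2 e = cup11 X.b X.ρ' f1 e + cup11 X.b X.ρ' (d0 X.ρ m) e := by
      funext g h
      simp only [cup11, hf2, Pi.add_apply, map_add, AddMonoidHom.add_apply]
    rw [e1, map_add, inv_d0_cup hL X m he.1, hme e he, add_neg_cancel]
  have hstP : ∀ g, ∀ y ∈ X.perp P, X.ρ' g y ∈ X.perp P := fun g y hy => perp_st X hP g hy
  have hZ : (fun g => φ (f2 g)) ∈ BKND.Z1 (kch ψ) := by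
    refine ⟨BKND.Loc1.map hf2l φ, fun g h => ?_⟩
    have e1 := (hl.ker _ (hPN (hf2P g h))).2 (hf2P g h)
    rw [phi_d1 hl.add hN hl.act hf2N] at e1
    change φ (f2 (g * h)) = φ (f2 g) + ((ψ g : kˣ) : k) * φ (f2 h)
    linear_combination -e1
  obtain ⟨a, ha⟩ := hL.one k ψ ψ' hψ hψ' hrel lam hlam _ hZ fun f' hf' => by
    choose s hs hs' using hl.surj'
    have hmem : (fun g => s (f' g)) ∈ CC X.ρ' (X.perp N) (X.perp P) := by
      refine ⟨BKND.Loc1.map hf'.1 s, fun g => hs _, fun g h => ?_⟩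
      have hfs : ∀ g, (fun g => s (f' g)) g ∈ X.perp P := fun g => hs _
      refine (hl.ker' _ ((X.perp P).add_mem ((X.perp P).sub_mem (hstP _ _ (hs _)) (hs _))
        (hs _))).1 ?_
      refine (phi_d1 hl.add' hstP hl.act' hfs g h).trans ?_
      rw [hs', hs', hs', hf'.2 g h]
      change _ - (f' g + ((ψ' g : kˣ) : k) * f' h) + f' g = 0
      ring
    have e1 : cupk ψ' lam (fun g => φ (f2 g)) f' = cup11 X.b X.ρ' f2 fun g => s (f' g) := by
      funext g h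
      simp only [cupk, cup11]
      rw [hl.pair _ (hf2N g) _ (hstP g _ (hs _)), hl.act' g _ (hs _), hs']
    rw [e1]
    exact horth2 _ hmem
  obtain ⟨n, hn, hna⟩ := hl.surj a
  refine ⟨n - m + m₀, Q.add_mem (Q.sub_mem (hNQ hn) hm.1) hm₀, fun g => ?_⟩
  have e1 : f g - d0 X.ρ (n - m + m₀) g = f2 g - d0 X.ρ n g := by
    rw [hf2, hf1, d0_add, d0_sub]
    simp only [Pi.add_apply, Pi.sub_apply]
    abel
  have hdN : d0 X.ρ n g ∈ N := N.sub_mem (hN g n hn) hn
  rw [e1]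
  refine (hl.ker _ (N.sub_mem (hf2N g) hdN)).1 ?_
  rw [phi_sub hl.add (hf2N g) hdN, phi_d0 hl.add hN hl.act hn, hna, sub_eq_zero]
  exact ha g

theorem stepB (hD : StDual) (hL : LocAx p χ inv δ) [Finite M'] (hP : X.Stable P)
    (hN : X.Stable N) (hQ : X.Stable Q) (hPN : P ≤ N) (hNQ : N ≤ Q)
    (hψ : Sm (kch ψ)) (hψ' : Sm (kch ψ')) (hrel : Rel χ ψ ψ') (hlam : lam ≠ 0)
    (hl : IsLine X P N k ψ ψ' lam φ φ')
    (hQQ : X.flip.perp (X.perp Q) = Q) (hNN : X.flip.perp (X.perp N) = N)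
    (hB : SB inv X N Q) (hA : SA inv X.flip (X.perp Q) (X.perp N)) : SB inv X P Q := by
  intro z hz hzQ hzP horth
  have hpNP : X.perp N ≤ X.perp P := fun y hy n hn => hy n (hPN hn)
  obtain ⟨e0, he0, he0Q, he0N⟩ := hB z hz hzQ (fun g h l => hPN (hzP g h l)) fun y hy hy' =>
    horth y (hpNP hy) hy'
  obtain ⟨z1, hz1⟩ : ∃ z1 : D → D → M, z1 = z - d1 X.ρ e0 := ⟨_, rfl⟩
  have hz1l : Loc2 z1 := by
    rw [hz1]
    exact BKND.Loc2.map2 hz (XCT.loc2_d1 X.sm he0) (· - ·)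
  have hz1N : ∀ g h, z1 g h ∈ N := by
    intro g h
    rw [hz1]
    exact he0N g h
  have hz1P : ∀ g h l, d2 X.ρ z1 g h l ∈ P := by
    intro g h l
    rw [hz1, d2_sub, XCT.d2_d1, sub_zero]
    exact hzP g h l
  have hadd : ∀ y y' : M', inv (cup20 X.b X.ρ' z1 (y + y')) =
      inv (cup20 X.b X.ρ' z1 y) + inv (cup20 X.b X.ρ' z1 y') := by
    intro y y'
    rw [← map_add]
    congr 1
    funext g h
    simp only [cup20, Pi.add_apply, map_add]
  have hzero : ∀ y ∈ X.perp P, (∀ g, d0 X.ρ' y g ∈ X.perp Q) →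
      inv (cup20 X.b X.ρ' z1 y) = 0 := by
    intro y hy hy'
    have e1 : cup20 X.b X.ρ' z1 y = cup20 X.b X.ρ' z y - cup20 X.b X.ρ' (d1 X.ρ e0) y := by
      funext g h
      simp only [cup20, hz1, Pi.sub_apply, map_sub, AddMonoidHom.sub_apply]
    have e2 : cup11 X.b X.ρ' e0 (d0 X.ρ' y) = 0 := by
      funext g h
      exact perp_st X hQ g (hy' h) _ (he0Q g)
    rw [e1, map_sub, horth y hy hy', inv_d1_cup hL X he0 y, e2, map_zero, sub_zero]
  have hzero' : ∀ y ∈ X.perp N, inv (cup20 X.b X.ρ' z1 y) = 0 := by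
    intro y hy
    have e1 : cup20 X.b X.ρ' z1 y = 0 := by
      funext g h
      exact perp_st X hN (g * h) hy _ (hz1N g h)
    rw [e1, map_zero]
  have hker : ∀ y ∈ HH X.ρ' (X.perp N) (X.perp P),
      (∀ x ∈ CC X.ρ N Q, inv (cup11 X.b X.ρ' x (d0 X.ρ' y)) = 0) →
        inv (cup20 X.b X.ρ' z1 y) = 0 := by
    rintro y ⟨hy, hy'⟩ hk
    have hdd : ∀ g h, d1 X.ρ' (d0 X.ρ' y) g h ∈ X.perp Q := by
      intro g h
      rw [XCT.d1_d0]
      exact (X.perp Q).zero_mem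
    obtain ⟨m', hm', hm''⟩ := hA (d0 X.ρ' y) (XCT.loc1_d0 X.sm' y) hy' hdd
      fun x hx hxQ hxN => by
        have hx1 : ∀ g, x g ∈ Q := by
          intro g
          rw [← hQQ]
          exact hxQ g
        have hx2 : ∀ g h, d1 X.ρ x g h ∈ N := by
          intro g h
          rw [← hNN]
          exact hxN g h
        rw [inv_anti hL X hN hx (XCT.loc1_d0 X.sm' y) hx1 hx2 hy' hdd, hk x ⟨hx, hx1, hx2⟩,
          neg_zero]
    have e3 : y = (y - m') + m' := (sub_add_cancel y m').symm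
    rw [e3, hadd, hzero' m' hm', add_zero]
    refine hzero _ ((X.perp P).sub_mem hy (hpNP hm')) fun g => ?_
    rw [d0_sub]
    exact hm'' g
  obtain ⟨x, hx, hxe⟩ := (dual hD (fun (y : M') (x : D → M) =>
      inv (cup11 X.b X.ρ' x (d0 X.ρ' y))) (HH X.ρ' (X.perp N) (X.perp P)) (CC X.ρ N Q)
    (fun y _ y' _ x _ => by
      rw [← map_add]
      congr 1
      funext g h
      simp only [cup11, d0_add, map_add, Pi.add_apply])
    (fun y _ x _ x' _ => by
      rw [← map_add]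
      congr 1
      funext g h
      simp only [cup11, map_add, AddMonoidHom.add_apply, Pi.add_apply])).1
    (fun y => inv (cup20 X.b X.ρ' z1 y)) (fun y _ y' _ => hadd y y') hker
  obtain ⟨z2, hz2⟩ : ∃ z2 : D → D → M, z2 = z1 - d1 X.ρ x := ⟨_, rfl⟩
  have hz2l : Loc2 z2 := by
    rw [hz2]
    exact BKND.Loc2.map2 hz1l (XCT.loc2_d1 X.sm hx.1) (· - ·)
  have hz2N : ∀ g h, z2 g h ∈ N := by
    intro g h
    rw [hz2]
    exact N.sub_mem (hz1N g h) (hx.2.2 g h)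
  have hz2P : ∀ g h l, d2 X.ρ z2 g h l ∈ P := by
    intro g h l
    rw [hz2, d2_sub, XCT.d2_d1, sub_zero]
    exact hz1P g h l
  have horth2 : ∀ y ∈ HH X.ρ' (X.perp N) (X.perp P), inv (cup20 X.b X.ρ' z2 y) = 0 := by
    intro y hy
    have e1 : cup20 X.b X.ρ' z2 y = cup20 X.b X.ρ' z1 y - cup20 X.b X.ρ' (d1 X.ρ x) y := by
      funext g h
      simp only [cup20, hz2, Pi.sub_apply, map_sub, AddMonoidHom.sub_apply]
    rw [e1, map_sub, inv_d1_cup hL X hx.1 y, hxe y hy, sub_self]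
  have hstP : ∀ g, ∀ y ∈ X.perp P, X.ρ' g y ∈ X.perp P := fun g y hy => perp_st X hP g hy
  have hZ : (fun g h => φ (z2 g h)) ∈ BKND.Z2 (kch ψ) := by
    refine ⟨BKND.Loc2.map hz2l φ, fun g h l => ?_⟩
    have e1 := (hl.ker _ (hPN (hz2P g h l))).2 (hz2P g h l)
    rw [phi_d2 hl.add hN hl.act hz2N] at e1
    exact e1
  obtain ⟨β, hβ, hβ'⟩ := hL.two k ψ ψ' hψ hψ' hrel lam hlam _ hZ fun y hy => by
    obtain ⟨y', hy', hyy⟩ := hl.surj' y
    have hy1 : ∀ g, ((ψ' g : kˣ) : k) * y = y := fun g => hy g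
    have hmem : y' ∈ HH X.ρ' (X.perp N) (X.perp P) := by
      refine ⟨hy', fun g => (hl.ker' _ ((X.perp P).sub_mem (hstP g _ hy') hy')).1 ?_⟩
      refine (phi_d0 hl.add' hstP hl.act' hy' g).trans ?_
      rw [hyy, hy1, sub_self]
    have e1 : (fun g h => lam (φ (z2 g h) * y)) = cup20 X.b X.ρ' z2 y' := by
      funext g h
      simp only [cup20]
      rw [hl.pair _ (hz2N g h) _ (hstP _ _ hy'), hl.act' _ _ hy', hyy, hy1]
    rw [e1]
    exact horth2 _ hmem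
  choose s hs hs' using hl.surj
  have hsN : ∀ g, (fun g => s (β g)) g ∈ N := fun g => hs _
  have hsl : Loc1 fun g => s (β g) := BKND.Loc1.map hβ s
  refine ⟨(fun g => s (β g)) + x + e0,
    BKND.Loc1.map2 (BKND.Loc1.map2 hsl hx.1 (· + ·)) he0 (· + ·),
    fun g => Q.add_mem (Q.add_mem (hNQ (hs _)) (hx.2.1 g)) (he0Q g), fun g h => ?_⟩
  have e1 : z g h - d1 X.ρ ((fun g => s (β g)) + x + e0) g h =
      z2 g h - d1 X.ρ (fun g => s (β g)) g h := by
    rw [XCT.d1_add, XCT.d1_add, hz2, hz1]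
    simp only [Pi.sub_apply]
    abel
  have hdN : d1 X.ρ (fun g => s (β g)) g h ∈ N :=
    N.add_mem (N.sub_mem (hN g _ (hs _)) (hs _)) (hs _)
  rw [e1]
  refine (hl.ker _ (N.sub_mem (hz2N g h) hdN)).1 ?_
  rw [phi_sub hl.add (hz2N g h) hdN, phi_d1 hl.add hN hl.act hsN, hs', hs', hs', sub_eq_zero]
  exact hβ' g h

end Steps

/-! ### The induction -/

section Ind

theorem two_mul_card_le {R M : Type} [CommRing R] [AddCommGroup M] [Module R M] [Finite M]
    {P Q : Submodule R M} (h : P ≤ Q) {x : M} (hx : x ∈ Q) (hx' : x ∉ P) :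
    2 * Nat.card P ≤ Nat.card Q := by
  have h1 : Nat.card (P ⊕ P) ≤ Nat.card Q := by
    refine Nat.card_le_card_of_injective (fun a : P ⊕ P => Sum.elim
      (fun a : P => (⟨a.1, h a.2⟩ : Q)) (fun a : P => ⟨x + a.1, Q.add_mem hx (h a.2)⟩) a) ?_
    rintro (a | a) (b | b) hab
    · simpa using hab
    · exfalso
      have e1 : a.1 = x + b.1 := congrArg (fun y : Q => y.1) hab
      refine hx' ?_
      have e2 : x = a.1 - b.1 := by rw [e1]; abel
      rw [e2]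
      exact P.sub_mem a.2 b.2
    · exfalso
      have e1 : x + a.1 = b.1 := congrArg (fun y : Q => y.1) hab
      refine hx' ?_
      have e2 : x = b.1 - a.1 := by rw [← e1]; abel
      rw [e2]
      exact P.sub_mem b.2 a.2
    · simpa using hab
  rw [Nat.card_sum] at h1
  omega

variable {R : Type} [CommRing R] {p : ℕ} [Fact p.Prime] {D : Type} [Group D] [TopologicalSpace D]
  [IsTopologicalGroup D] [CompactSpace D] {χ : D →* ℤ_[p]ˣ} {inv : (D → D → QZ p) →+ QZ p}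
  {δ : ℕ}

omit [IsTopologicalGroup D] [CompactSpace D] in
/-- the case `P = Q` -/
theorem triv {M M' : Type} [AddCommGroup M] [Module R M] [AddCommGroup M'] [Module R M']
    (X : Pair R (actA χ) M M') {P Q : Submodule R M} (h : Q ≤ P) :
    SA inv X P Q ∧ SB inv X P Q := by
  refine ⟨fun f _ hf1 _ _ => ⟨0, Q.zero_mem, fun g => ?_⟩, fun z _ hz1 _ _ =>
    ⟨fun _ => 0, BKND.Loc1.const 0, fun _ => Q.zero_mem, fun g h' => ?_⟩⟩
  · have e : d0 X.ρ 0 g = 0 := by simp [d0]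
    rw [e, sub_zero]
    exact h (hf1 g)
  · have e : d1 X.ρ (fun _ => 0) g h' = 0 := by simp [d1]
    rw [e, sub_zero]
    exact h (hz1 g h')

theorem main (hD : StDual) (hPerp : StPerp) (hL : LocAx p χ inv δ) {k : Type} [Field k]
    [Finite k] [Algebra (ZMod p) k] {U : Subgroup D} (hU : IsOpen (U : Set D)) (n : ℕ) :
    ∀ (M M' : Type) [AddCommGroup M] [Module R M] [AddCommGroup M'] [Module R M'] [Finite M]
      (X : Pair R (actA χ) M M'), Lines X k U → Lines X.flip k U →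
      ∀ P Q : Submodule R M, X.Stable P → X.Stable Q → P ≤ Q →
        Nat.card Q ≤ 2 ^ n * Nat.card P → SA inv X P Q ∧ SB inv X P Q := by
  induction n with
  | zero =>
    intro M M' _ _ _ _ _ X h1 h2 P Q hP hQ hPQ hc
    refine triv X fun x hx => ?_
    by_contra hx'
    have h3 := two_mul_card_le hPQ hx hx'
    have h4 : 0 < Nat.card P := Nat.card_pos
    omega
  | succ n ih =>
    intro M M' _ _ _ _ _ X h1 h2 P Q hP hQ hPQ hc
    by_cases hQP : Q ≤ P
    · exact triv X hQP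
    obtain ⟨N, hN, hPN, hNQ, ψ, ψ', lam, φ, φ', hψ, hψ', hlam, hl⟩ :=
      h1 P Q hP hQ (lt_of_le_not_ge hPQ hQP)
    obtain ⟨x, hx, hx1⟩ := hl.surj 1
    have hx' : x ∉ P := fun h => one_ne_zero (hx1.symm.trans ((hl.ker x hx).2 h))
    have hcN := two_mul_card_le hPN hx hx'
    obtain ⟨hpp, -, -, -, hst, hfin⟩ := hPerp R p D (actA χ) M M' X
    obtain ⟨hM', -, hcard⟩ := hfin inferInstance
    have hrel := XLINEB.rel_of_line X χ rfl P N hP hN ψ ψ' lam hlam φ φ' hl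
    have hsm := XLINEB.sm_kch ψ U hU hψ
    have hsm' := XLINEB.sm_kch ψ' U hU hψ'
    have c1 : Nat.card Q ≤ 2 ^ n * Nat.card N := by
      calc Nat.card Q ≤ 2 ^ (n + 1) * Nat.card P := hc
        _ = 2 ^ n * (2 * Nat.card P) := by ring
        _ ≤ 2 ^ n * Nat.card N := Nat.mul_le_mul_left _ hcN
    have c2 : Nat.card (X.perp N) ≤ 2 ^ n * Nat.card (X.perp Q) := by
      have hN0 : 0 < Nat.card N := Nat.card_pos
      refine Nat.le_of_mul_le_mul_left ?_ hN0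
      calc Nat.card N * Nat.card (X.perp N) = Nat.card Q * Nat.card (X.perp Q) := by
            rw [hcard, hcard]
        _ ≤ 2 ^ n * Nat.card N * Nat.card (X.perp Q) := Nat.mul_le_mul_right _ c1
        _ = Nat.card N * (2 ^ n * Nat.card (X.perp Q)) := by ring
    have i1 := ih M M' X h1 h2 N Q hN hQ hNQ c1
    have i2 := ih M' M X.flip h2 h1 (X.perp Q) (X.perp N) (hst Q hQ) (hst N hN)
      (fun y hy n hn => hy n (hNQ hn)) c2
    exact ⟨stepA hD hL hP hN hPN hNQ hsm hsm' hrel hlam hl (hpp Q) (hpp N) i1.1 i2.2,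
      stepB hD hL hP hN hQ hPN hNQ hsm hsm' hrel hlam hl (hpp Q) (hpp N) i1.2 i2.1⟩

end Ind

end LLAB

/-- **Module LAB** (from DUAL, PERP): local duality on `H¹` and `H²`, for subquotients. -/
theorem stLAB (h1 : StDual) (h2 : StPerp) : StLAB := by
  intro R _ p _ D _ _ _ _ χ inv δ hL M M' _ _ _ _ _ X k _ _ _ U hU hl hl' P Q hP hQ hPQ
  have hc : Nat.card Q ≤ 2 ^ Nat.card Q * Nat.card P := by
    have h3 : 0 < Nat.card P := Nat.card_pos
    calc Nat.card Q ≤ 2 ^ Nat.card Q := Nat.lt_two_pow_self.le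
      _ ≤ 2 ^ Nat.card Q * Nat.card P := Nat.le_mul_of_pos_right _ h3
  exact LLAB.main h1 h2 hL hU (Nat.card Q) M M' X hl hl' P Q hP hQ hPQ hc

end BKMet
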