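import Pool.Agent.Lib.MP_7c08ba_nt.Met.StL

set_option autoImplicit false

/-!
Metabolic parity, part L, module LAGR: Lagrangian submodules at all levels.
-/

noncomputable section

namespace BKMet

open BKPar (Loc1 Loc2)
open BKND (Sm)
open Matrix

namespace LLAGR

variable {p : ℕ} [Fact p.Prime] {L : Type} [NormedField L] [NormedAlgebra ℚ_[p] L]

theorem cl_eq_zero (z : ℚ_[p]) : cl p z = 0 ↔ ‖z‖ ≤ 1 := by
  unfold cl
  rw [Submodule.Quotient.mk_eq_zero, LinearMap.mem_range]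
  constructor
  · rintro ⟨a, rfl⟩
    exact PadicInt.norm_le_one a
  · intro h
    exact ⟨⟨z, h⟩, rfl⟩

theorem sym {n : ℕ} {R : Type*} [CommRing R] {B : Matrix (Fin n) (Fin n) R} (hB : Bᵀ = B)
    (x y : Fin n → R) : x ⬝ᵥ (B *ᵥ y) = y ⬝ᵥ (B *ᵥ x) := by
  rw [Matrix.dotProduct_mulVec, dotProduct_comm, ← Matrix.mulVec_transpose, hB]

variable [FiniteDimensional ℚ_[p] L]

theorem rv_surj {n k : ℕ} (v : MK p L n k) : ∃ x, rv p L k x = v := by
  choose x hx using fun i => Ideal.Quotient.mk_surjective (v i)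
  exact ⟨x, funext hx⟩

theorem dvd_iff (k : ℕ) (a : OO p L) :
    pi0 p L ^ k ∣ a ↔ ‖(a : L) / ((pi0 p L : OO p L) : L) ^ k‖ ≤ 1 := by
  have h0 : ((pi0 p L : OO p L) : L) ^ k ≠ 0 := pow_ne_zero _ (pi0_ne p L)
  constructor
  · rintro ⟨b, rfl⟩
    rw [Subring.coe_mul, Subring.coe_pow, mul_div_cancel_left₀ _ h0]
    exact OO.norm_le b
  · intro h
    refine ⟨⟨(a : L) / ((pi0 p L : OO p L) : L) ^ k, h⟩, Subtype.ext ?_⟩
    rw [Subring.coe_mul, Subring.coe_pow]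
    exact (mul_div_cancel₀ _ h0).symm

/-- the submodule `π^m N₀` modulo `π^k` -/
def Lg {n : ℕ} (k m : ℕ) (N₀ : Submodule (OO p L) (Fin n → OO p L)) :
    Submodule (OO p L) (MK p L n k) :=
  N₀.map ((rv p L k).comp (LinearMap.lsmul (OO p L) (Fin n → OO p L) (pi0 p L ^ m)))

theorem mem_Lg {n : ℕ} {k m : ℕ} {N₀ : Submodule (OO p L) (Fin n → OO p L)} {v : MK p L n k} :
    v ∈ Lg k m N₀ ↔ ∃ x ∈ N₀, rv p L k (pi0 p L ^ m • x) = v := Iff.rfl

theorem key {G : Type} [Group G] [TopologicalSpace G] {χ : G →* ℤ_[p]ˣ} {n : ℕ}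
    {ρ ρ' : G →* GL (Fin n) (OO p L)} {B : Matrix (Fin n) (Fin n) (OO p L)} (hB : IsUnit B.det)
    {lam : L →ₗ[ℚ_[p]] ℚ_[p]} (hlam : IsLam p L lam) {k : ℕ}
    {X : Pair (OO p L) (actA χ) (MK p L n k) (MK p L n k)} (hX : IsMk χ lam k ρ ρ' B X)
    (e m : ℕ) (hk : k = m + (m + e)) (N₀ : Submodule (OO p L) (Fin n → OO p L))
    (h1 : ∀ x, pi0 p L ^ e • x ∈ N₀)
    (h2 : ∀ g, ∀ x ∈ N₀, (ρ g : Matrix (Fin n) (Fin n) (OO p L)) *ᵥ x ∈ N₀)
    (h3 : ∀ y, y ∈ N₀ ↔ ∀ x ∈ N₀, pi0 p L ^ e ∣ x ⬝ᵥ (B *ᵥ y)) :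
    X.Stable (Lg k m N₀) ∧ X.perp (Lg k m N₀) = Lg k m N₀ := by
  have hp : ∀ j : ℕ, pi0 p L ^ j ≠ 0 := fun j => pow_ne_zero _ (pi0_ne' p L)
  constructor
  · intro g v hv
    obtain ⟨x, hx, rfl⟩ := mem_Lg.1 hv
    rw [hX.act]
    refine mem_Lg.2 ⟨_, h2 g x hx, ?_⟩
    rw [Matrix.mulVec_smul]
  · have hpair : ∀ x y : Fin n → OO p L, (∀ a : OO p L, X.b (rv p L k (pi0 p L ^ m • a • x))
        (rv p L k y) = 0) ↔ pi0 p L ^ (m + e) ∣ x ⬝ᵥ (B *ᵥ y) := by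
      intro x y
      have e1 : ∀ a : OO p L, X.b (rv p L k (pi0 p L ^ m • a • x)) (rv p L k y) = 0 ↔
          ‖lam ((a : L) * (((pi0 p L ^ m * (x ⬝ᵥ (B *ᵥ y)) : OO p L) : L) /
            ((pi0 p L : OO p L) : L) ^ k))‖ ≤ 1 := by
        intro a
        rw [hX.pair, cl_eq_zero, smul_dotProduct, smul_dotProduct, smul_eq_mul, smul_eq_mul]
        have e2 : (((pi0 p L ^ m * (a * (x ⬝ᵥ (B *ᵥ y))) : OO p L) : L) /
            ((pi0 p L : OO p L) : L) ^ k) =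
            (a : L) * (((pi0 p L ^ m * (x ⬝ᵥ (B *ᵥ y)) : OO p L) : L) /
            ((pi0 p L : OO p L) : L) ^ k) := by
          rw [Subring.coe_mul, Subring.coe_mul, Subring.coe_mul]
          ring
        rw [e2]
      have e3 : (pi0 p L ^ k ∣ pi0 p L ^ m * (x ⬝ᵥ (B *ᵥ y))) ↔
          pi0 p L ^ (m + e) ∣ x ⬝ᵥ (B *ᵥ y) := by
        rw [hk, pow_add, mul_dvd_mul_iff_left (hp m)]
      rw [← e3, dvd_iff, ← hlam]
      exact forall_congr' e1
    ext v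
    obtain ⟨y, rfl⟩ := rv_surj v
    constructor
    · intro hv
      have h4 : ∀ x ∈ N₀, pi0 p L ^ (m + e) ∣ x ⬝ᵥ (B *ᵥ y) := by
        intro x hx
        rw [← hpair]
        intro a
        exact hv _ (mem_Lg.2 ⟨_, N₀.smul_mem a hx, rfl⟩)
      have h5 : ∀ i, ∃ z, (B *ᵥ y) i = pi0 p L ^ m * z := by
        intro i
        have h6 := h4 _ (h1 (Pi.single i 1))
        rw [smul_dotProduct, single_one_dotProduct, smul_eq_mul, add_comm, pow_add,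
          mul_dvd_mul_iff_left (hp e)] at h6
        exact h6
      choose z hz using h5
      have hz' : B *ᵥ y = pi0 p L ^ m • z := funext hz
      have h6 : y = pi0 p L ^ m • (B⁻¹ *ᵥ z) := by
        rw [← Matrix.mulVec_smul, ← hz', Matrix.mulVec_mulVec, Matrix.nonsing_inv_mul _ hB,
          Matrix.one_mulVec]
      refine mem_Lg.2 ⟨B⁻¹ *ᵥ z, ?_, by rw [← h6]⟩
      rw [h3]
      intro x hx
      have h7 := h4 x hx
      rw [h6, Matrix.mulVec_smul, dotProduct_smul, smul_eq_mul, pow_add,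
        mul_dvd_mul_iff_left (hp m)] at h7
      exact h7
    · intro hv
      obtain ⟨w, hw, hwy⟩ := mem_Lg.1 hv
      rw [← hwy]
      intro u hu
      obtain ⟨x, hx, rfl⟩ := mem_Lg.1 hu
      have h4 : pi0 p L ^ (m + e) ∣ x ⬝ᵥ (B *ᵥ (pi0 p L ^ m • w)) := by
        rw [Matrix.mulVec_smul, dotProduct_smul, smul_eq_mul, pow_add]
        exact mul_dvd_mul_left _ ((h3 w).1 hw x hx)
      have h5 := (hpair _ _).2 h4 1
      rwa [one_smul] at h5

end LLAGR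

open LLAGR

theorem stLagr : StLagr := by
  intro p _ L _ _ _ G _ _ χ n ρ ρ' B hBt hB lam hlam N h1 h2 h3 k X hX
  constructor
  · intro u v
    obtain ⟨x, rfl⟩ := rv_surj u
    obtain ⟨y, rfl⟩ := rv_surj v
    rw [hX.pair, hX.pair, sym hBt]
  · rcases Nat.even_or_odd' k with ⟨m, hm | hm⟩
    · exact ⟨Lg k m ⊤, key hB hlam hX 0 m (by omega) ⊤ (fun _ => trivial) (fun _ _ _ => trivial)
        (fun y => ⟨fun _ x _ => by rw [pow_zero]; exact one_dvd _, fun _ => trivial⟩)⟩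
    · refine ⟨Lg k m N, key hB hlam hX 1 m (by omega) N ?_ h2 ?_⟩
      · intro x
        rw [pow_one]
        exact h1 x
      · intro y
        rw [pow_one]
        exact h3 y

end BKMet
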