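import Pool.Agent.Lib.MP_7c08ba_nt.Met.StL

set_option autoImplicit false

/-!
Metabolic parity, part L, module LAM: a functional on `L` for which the ring of integers is its
own dual.
-/

noncomputable section

namespace BKMet

namespace LLAM

variable {p : ℕ} [Fact p.Prime] {L : Type} [NormedField L] [NormedAlgebra ℚ_[p] L]

/-- the dual of the ring of integers -/
def InI (l : L →ₗ[ℚ_[p]] ℚ_[p]) (x : L) : Prop := ∀ a : OO p L, ‖l ((a : L) * x)‖ ≤ 1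

theorem InI.mono {l : L →ₗ[ℚ_[p]] ℚ_[p]} {x y : L} (hx : InI l x) (h : ‖y‖ ≤ ‖x‖) :
    InI l y := by
  intro a
  by_cases hx0 : x = 0
  · rw [hx0, norm_zero] at h
    rw [norm_le_zero_iff.1 h, mul_zero, map_zero, norm_zero]
    exact zero_le_one
  · have h1 : ‖(a : L) * (y / x)‖ ≤ 1 := by
      rw [norm_mul, norm_div]
      have h2 : ‖y‖ / ‖x‖ ≤ 1 := (div_le_one (norm_pos_iff.2 hx0)).2 h
      exact mul_le_one₀ (OO.norm_le a) (by positivity) h2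
    have h3 := hx ⟨(a : L) * (y / x), h1⟩
    have h4 : (a : L) * (y / x) * x = a * y := by
      rw [mul_assoc, div_mul_cancel₀ _ hx0]
    change ‖l ((a : L) * (y / x) * x)‖ ≤ 1 at h3
    rwa [h4] at h3

end LLAM

open LLAM in
/-- Module LAM: a functional on `L` for which the ring of integers is its own dual. -/
theorem stLam : StLam := by
  intro p _ L _ _ _
  set ϖ : L := ((pi0 p L : OO p L) : L) with hϖ
  have hϖ0 : ϖ ≠ 0 := pi0_ne p L
  have hq0 : 0 < ‖ϖ‖ := pi0_pos p L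
  have hq1 : ‖ϖ‖ < 1 := pi0_lt p L
  -- a nonzero functional
  obtain ⟨l, z, hz⟩ : ∃ (l : L →ₗ[ℚ_[p]] ℚ_[p]) (z : L), l z ≠ 0 := by
    by_contra h
    push Not at h
    exact one_ne_zero ((Module.forall_dual_apply_eq_zero_iff ℚ_[p] (1 : L)).1 fun l => h l 1)
  -- bounded
  have hinh : ∃ m : ℤ, InI l (ϖ ^ m) := by
    let lc : L →L[ℚ_[p]] ℚ_[p] := LinearMap.toContinuousLinearMap l
    obtain ⟨n, hn⟩ := exists_pow_lt_of_lt_one (show (0 : ℝ) < (‖lc‖ + 1)⁻¹ by positivity) hq1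
    refine ⟨n, fun a => ?_⟩
    have h1 : ‖l ((a : L) * ϖ ^ (n : ℤ))‖ ≤ ‖lc‖ * ‖(a : L) * ϖ ^ (n : ℤ)‖ := lc.le_opNorm _
    refine h1.trans ?_
    rw [norm_mul, zpow_natCast, norm_pow]
    have h2 : ‖(a : L)‖ * ‖ϖ‖ ^ n ≤ (‖lc‖ + 1)⁻¹ := by
      calc ‖(a : L)‖ * ‖ϖ‖ ^ n ≤ 1 * ‖ϖ‖ ^ n :=
            mul_le_mul_of_nonneg_right (OO.norm_le a) (by positivity)
        _ ≤ (‖lc‖ + 1)⁻¹ := by rw [one_mul]; exact hn.le
    calc ‖lc‖ * (‖(a : L)‖ * ‖ϖ‖ ^ n) ≤ (‖lc‖ + 1) * (‖lc‖ + 1)⁻¹ := by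
          refine mul_le_mul (by linarith) h2 (by positivity) (by positivity)
      _ = 1 := mul_inv_cancel₀ (by positivity)
  have hbdd : ∃ b : ℤ, ∀ m : ℤ, InI l (ϖ ^ m) → b ≤ m := by
    have hp1 : (1 : ℝ) < p := by exact_mod_cast (Fact.out : p.Prime).one_lt
    have hlz : 0 < ‖l z‖ := norm_pos_iff.2 hz
    obtain ⟨J, hJ⟩ := pow_unbounded_of_one_lt (‖l z‖⁻¹) hp1
    set y : L := ((p : ℚ_[p]) ^ J)⁻¹ • z with hy
    have hp0 : ((p : ℚ_[p]) ^ J)⁻¹ ≠ 0 :=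
      inv_ne_zero (pow_ne_zero _ (by exact_mod_cast (Fact.out : p.Prime).ne_zero))
    have hz0 : z ≠ 0 := by
      rintro rfl
      exact hz (map_zero l)
    have hy0 : y ≠ 0 := smul_ne_zero hp0 hz0
    have hly : 1 < ‖l y‖ := by
      rw [hy, map_smul, smul_eq_mul, norm_mul, norm_inv, norm_pow, Padic.norm_p, inv_pow, inv_inv]
      have h1 := mul_lt_mul_of_pos_right hJ hlz
      rwa [inv_mul_cancel₀ hlz.ne'] at h1
    obtain ⟨b, hb⟩ := exists_zpow p L y hy0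
    refine ⟨b, fun m hm => ?_⟩
    by_contra hlt
    rw [not_le] at hlt
    have h1 : ‖y‖ ≤ ‖ϖ ^ m‖ := by
      rw [hb, norm_zpow]
      exact (zpow_le_zpow_iff_right_of_lt_one₀ hq0 hq1).2 hlt.le
    have h2 := (hm.mono h1) 1
    rw [OneMemClass.coe_one, one_mul] at h2
    exact absurd hly (not_lt.2 h2)
  obtain ⟨m₀, hm₀, hmin⟩ := Int.exists_least_of_bdd hbdd hinh
  set x₀ : L := ϖ ^ m₀ with hx₀
  have hx₀0 : x₀ ≠ 0 := zpow_ne_zero _ hϖ0
  have hI : ∀ x : L, InI l x ↔ ‖x‖ ≤ ‖x₀‖ := by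
    intro x
    refine ⟨fun h => ?_, fun h => hm₀.mono h⟩
    by_cases hx : x = 0
    · rw [hx, norm_zero]
      exact norm_nonneg _
    · obtain ⟨m, hm⟩ := exists_zpow p L x hx
      have h1 : InI l (ϖ ^ m) := h.mono (by rw [norm_zpow, hm])
      have h2 := hmin m h1
      rw [hm, hx₀, norm_zpow]
      exact (zpow_le_zpow_iff_right_of_lt_one₀ hq0 hq1).2 h2
  refine ⟨l.comp (LinearMap.mulLeft ℚ_[p] x₀), fun x => ?_⟩
  have h1 : (∀ a : OO p L, ‖(l.comp (LinearMap.mulLeft ℚ_[p] x₀)) ((a : L) * x)‖ ≤ 1) ↔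
      InI l (x₀ * x) := by
    refine forall_congr' fun a => ?_
    rw [LinearMap.comp_apply, LinearMap.mulLeft_apply, mul_left_comm]
  rw [h1, hI, norm_mul]
  exact mul_le_iff_le_one_right (norm_pos_iff.2 hx₀0)

end BKMet
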