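import Pool.Agent.Lib.MP_7c08ba_nt.Met.StL

set_option autoImplicit false

/-!
Metabolic parity, part L: a decreasing sequence of conditions modulo `π^k` on the elements of a
compact module.
-/

noncomputable section

namespace BKMet.LIMA

variable {p : ℕ} [Fact p.Prime] {L : Type} [NormedField L] [NormedAlgebra ℚ_[p] L]
  [FiniteDimensional ℚ_[p] L] {E : Type} [AddCommGroup E] [Module (OO p L) E]

theorem mem_piE {k : ℕ} {x : E} : x ∈ piE p L E k ↔ ∃ e : E, pi0 p L ^ k • e = x := by
  constructor
  · rintro ⟨e, he⟩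
    exact ⟨e, he⟩
  · rintro ⟨e, he⟩
    exact ⟨e, he⟩

theorem piE_zero (x : E) : x ∈ piE p L E 0 := mem_piE.2 ⟨x, by rw [pow_zero, one_smul]⟩

theorem piE_le {k m : ℕ} (h : k ≤ m) : piE p L E m ≤ piE p L E k := by
  intro x hx
  obtain ⟨e, rfl⟩ := mem_piE.1 hx
  refine mem_piE.2 ⟨pi0 p L ^ (m - k) • e, ?_⟩
  rw [smul_smul, ← pow_add, Nat.add_sub_cancel' h]

theorem piE_succ {k : ℕ} {x : E} (h : x ∈ piE p L E k) : pi0 p L • x ∈ piE p L E (k + 1) := by
  obtain ⟨e, rfl⟩ := mem_piE.1 h
  exact mem_piE.2 ⟨e, by rw [smul_smul, ← pow_succ']⟩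

theorem pow_inj (htf : ∀ x : E, pi0 p L • x = 0 → x = 0) (k : ℕ) (x : E)
    (h : pi0 p L ^ k • x = 0) : x = 0 := by
  induction k with
  | zero => rwa [pow_zero, one_smul] at h
  | succ k ih =>
    rw [pow_succ', mul_smul] at h
    exact ih (htf _ h)

theorem smul_tf (htf : ∀ x : E, pi0 p L • x = 0 → x = 0) (a : OO p L) (ha : a ≠ 0) (x : E)
    (h : a • x = 0) : x = 0 := by
  obtain ⟨n, u, hu⟩ := OO.exists_pow p L a ha
  rw [← hu, mul_comm, mul_smul] at h
  have h2 : pi0 p L ^ n • x = 0 := by
    have := congrArg (fun y => ((u⁻¹ : (OO p L)ˣ) : OO p L) • y) h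
    simpa [smul_smul] using this
  exact pow_inj htf n x h2

variable [TopologicalSpace E] [IsTopologicalAddGroup E] [ContinuousSMul (OO p L) E]
  [CompactSpace E] [T2Space E]

theorem isClosed_piE (k : ℕ) : IsClosed (piE p L E k : Set E) := by
  have h : (piE p L E k : Set E) = (fun e : E => pi0 p L ^ k • e) '' Set.univ := by
    ext x
    simp only [SetLike.mem_coe, mem_piE, Set.image_univ, Set.mem_range]
  rw [h]
  exact (isCompact_univ.image (continuous_const_smul _)).isClosed

/-- a submodule which contains a closed submodule with finite index is closed -/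
theorem isClosed_of_relIndex {P Q : Submodule (OO p L) E} (hP : IsClosed (P : Set E)) (hPQ : P ≤ Q)
    (h : P.toAddSubgroup.relIndex Q.toAddSubgroup ≠ 0) : IsClosed (Q : Set E) := by
  classical
  have hfin : Finite (Q.toAddSubgroup ⧸ (P.toAddSubgroup.addSubgroupOf Q.toAddSubgroup)) := by
    have : (P.toAddSubgroup.addSubgroupOf Q.toAddSubgroup).FiniteIndex := ⟨h⟩
    exact AddSubgroup.finite_quotient_of_finiteIndex
  have hU : (Q : Set E) = ⋃ q : (Q.toAddSubgroup ⧸ (P.toAddSubgroup.addSubgroupOf Q.toAddSubgroup)),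
      (fun x : E => x - ((Quotient.out q : Q.toAddSubgroup) : E)) ⁻¹' (P : Set E) := by
    ext x
    simp only [SetLike.mem_coe, Set.mem_iUnion, Set.mem_preimage]
    constructor
    · intro hx
      refine ⟨QuotientAddGroup.mk (⟨x, hx⟩ : Q.toAddSubgroup), ?_⟩
      have h1 := QuotientAddGroup.mk_out_eq_mul (P.toAddSubgroup.addSubgroupOf Q.toAddSubgroup)
        (⟨x, hx⟩ : Q.toAddSubgroup)
      obtain ⟨y, hy⟩ := h1
      have h2 : ((Quotient.out (QuotientAddGroup.mk (s := P.toAddSubgroup.addSubgroupOf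
        Q.toAddSubgroup) (⟨x, hx⟩ : Q.toAddSubgroup)) : Q.toAddSubgroup) : E) =
          x + ((y : Q.toAddSubgroup) : E) := by
        have := congrArg (fun z : Q.toAddSubgroup => (z : E)) hy
        simpa using this
      rw [h2, show x - (x + ((y : Q.toAddSubgroup) : E)) = -((y : Q.toAddSubgroup) : E) by abel]
      exact P.neg_mem y.2
    · rintro ⟨q, hq⟩
      have h1 : ((Quotient.out q : Q.toAddSubgroup) : E) ∈ Q := (Quotient.out q).2
      have := Q.add_mem (hPQ hq) h1
      rwa [sub_add_cancel] at this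
  rw [hU]
  exact isClosed_iUnion_of_finite fun q => hP.preimage (continuous_id.sub continuous_const)

/-- compactness: a coset of a closed submodule which meets all members of a decreasing sequence of
closed submodules meets their intersection -/
theorem meets {P : Submodule (OO p L) E} (hP : IsClosed (P : Set E))
    {Y : ℕ → Submodule (OO p L) E} (hYc : ∀ k, IsClosed (Y k : Set E)) (hdec : ∀ k, Y (k + 1) ≤ Y k)
    (e : E) (h : ∀ k, ∃ y ∈ Y k, e - y ∈ P) : ∃ y, (∀ k, y ∈ Y k) ∧ e - y ∈ P := by
  have h1 : (⋂ k : ℕ, ((Y k : Set E) ∩ (fun y : E => e - y) ⁻¹' (P : Set E))).Nonempty := by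
    refine IsCompact.nonempty_iInter_of_sequence_nonempty_isCompact_isClosed _ ?_ ?_ ?_ ?_
    · exact fun k => Set.inter_subset_inter_left _ (hdec k)
    · intro k
      obtain ⟨y, hy, hy2⟩ := h k
      exact ⟨y, hy, hy2⟩
    · exact ((hYc 0).inter (hP.preimage (continuous_const.sub continuous_id))).isCompact
    · exact fun k => (hYc k).inter (hP.preimage (continuous_const.sub continuous_id))
  obtain ⟨y, hy⟩ := h1
  rw [Set.mem_iInter] at hy
  exact ⟨y, fun k => (hy k).1, (hy 0).2⟩

end BKMet.LIMA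

namespace BKMet

open LIMA

theorem stLimA : StLimA := by
  intro p _ L _ _ _ E _ _ _ _ _ _ _ Y htf hsep hle hdec hpi hfin
  classical
  -- the limit
  set YY : Submodule (OO p L) E := ⨅ k, Y k with hYY
  have mYY : ∀ x, x ∈ YY ↔ ∀ k, x ∈ Y k := fun x => by rw [hYY, Submodule.mem_iInf]
  have hYc : ∀ k, IsClosed (Y k : Set E) := fun k =>
    isClosed_of_relIndex (isClosed_piE k) (hle k) (hfin k)
  have hYYc : IsClosed (YY : Set E) := by
    have : (YY : Set E) = ⋂ k, (Y k : Set E) := by
      ext x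
      simp only [SetLike.mem_coe, mYY, Set.mem_iInter]
    rw [this]
    exact isClosed_iInter hYc
  have hanti : ∀ {k m : ℕ}, k ≤ m → Y m ≤ Y k := by
    intro k m h
    induction h with
    | refl => exact le_rfl
    | step _ ih => exact (hdec _).trans ih
  have hYpi : ∀ x, pi0 p L • x ∈ YY → x ∈ YY := by
    intro x hx
    rw [mYY] at hx ⊢
    exact fun k => (hpi k x).1 (hx (k + 1))
  -- representatives of the cosets of `π E` in `Y 1`
  have hF : Finite ((Y 1).toAddSubgroup ⧸
      ((piE p L E 1).toAddSubgroup.addSubgroupOf (Y 1).toAddSubgroup)) := by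
    have : ((piE p L E 1).toAddSubgroup.addSubgroupOf (Y 1).toAddSubgroup).FiniteIndex :=
      ⟨hfin 1⟩
    exact AddSubgroup.finite_quotient_of_finiteIndex
  obtain ⟨R, hR⟩ : ∃ R : Finset E, ∀ x ∈ Y 1, ∃ e ∈ R, x - e ∈ piE p L E 1 := by
    have := Fintype.ofFinite ((Y 1).toAddSubgroup ⧸
      ((piE p L E 1).toAddSubgroup.addSubgroupOf (Y 1).toAddSubgroup))
    refine ⟨Finset.univ.image fun q : ((Y 1).toAddSubgroup ⧸
      ((piE p L E 1).toAddSubgroup.addSubgroupOf (Y 1).toAddSubgroup)) =>
        ((Quotient.out q : (Y 1).toAddSubgroup) : E), fun x hx => ?_⟩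
    refine ⟨_, Finset.mem_image_of_mem _ (Finset.mem_univ (QuotientAddGroup.mk
      (⟨x, hx⟩ : (Y 1).toAddSubgroup))), ?_⟩
    obtain ⟨y, hy⟩ := QuotientAddGroup.mk_out_eq_mul
      ((piE p L E 1).toAddSubgroup.addSubgroupOf (Y 1).toAddSubgroup)
      (⟨x, hx⟩ : (Y 1).toAddSubgroup)
    have h2 : ((Quotient.out (QuotientAddGroup.mk (s := (piE p L E 1).toAddSubgroup.addSubgroupOf
      (Y 1).toAddSubgroup) (⟨x, hx⟩ : (Y 1).toAddSubgroup)) : (Y 1).toAddSubgroup) : E) =
        x + ((y : (Y 1).toAddSubgroup) : E) := by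
      have := congrArg (fun z : (Y 1).toAddSubgroup => (z : E)) hy
      simpa using this
    rw [h2, show x - (x + ((y : (Y 1).toAddSubgroup) : E)) = -((y : (Y 1).toAddSubgroup) : E) by
      abel]
    exact (piE p L E 1).neg_mem y.2
  -- the level at which the image in `E/π` is constant
  obtain ⟨K, hK1, hK⟩ : ∃ K : ℕ, 1 ≤ K ∧ ∀ k, K ≤ k → ∀ z ∈ Y k, ∃ y ∈ YY, z - y ∈ piE p L E 1 := by
    have h1 : ∀ e : E, ∃ k : ℕ, (∃ y ∈ Y k, e - y ∈ piE p L E 1) →
        ∃ y ∈ YY, e - y ∈ piE p L E 1 := by
      intro e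
      by_cases h : ∀ k, ∃ y ∈ Y k, e - y ∈ piE p L E 1
      · refine ⟨0, fun _ => ?_⟩
        obtain ⟨y, hy, hy2⟩ := meets (isClosed_piE 1) hYc hdec e h
        exact ⟨y, (mYY y).2 hy, hy2⟩
      · push_neg at h
        obtain ⟨k, hk⟩ := h
        exact ⟨k, fun ⟨y, hy, hy2⟩ => absurd hy2 (hk y hy)⟩
    choose κ hκ using h1
    refine ⟨max 1 (R.sup κ), le_max_left _ _, fun k hk z hz => ?_⟩
    obtain ⟨e, he, hze⟩ := hR z (hanti ((le_max_left _ _).trans hk) hz)
    have h2 : κ e ≤ k := (Finset.le_sup he).trans ((le_max_right _ _).trans hk)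
    obtain ⟨y, hy, hy2⟩ := hκ e ⟨z, hanti h2 hz, by
      rw [show e - z = -(z - e) by abel]
      exact (piE p L E 1).neg_mem hze⟩
    refine ⟨y, hy, ?_⟩
    rw [show z - y = (z - e) + (e - y) by abel]
    exact (piE p L E 1).add_mem hze hy2
  have hdiv : ∀ x : E, x ∈ piE p L E 1 → ∃ e : E, pi0 p L • e = x := by
    intro x hx
    obtain ⟨e, he⟩ := mem_piE.1 hx
    exact ⟨e, by rwa [pow_one] at he⟩
  -- `YY` is finitely generated
  have hfg : Module.Finite (OO p L) YY := by
    have h1 : ∀ e : E, ∃ y ∈ YY, (∃ y' ∈ YY, e - y' ∈ piE p L E 1) → e - y ∈ piE p L E 1 := by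
      intro e
      by_cases h : ∃ y' ∈ YY, e - y' ∈ piE p L E 1
      · obtain ⟨y', hy', h2⟩ := h
        exact ⟨y', hy', fun _ => h2⟩
      · exact ⟨0, YY.zero_mem, fun h' => absurd h' h⟩
    choose g hg1 hg2 using h1
    set N : Submodule (OO p L) E := Submodule.span (OO p L) ((R.image g : Finset E) : Set E) with hN
    have hNle : N ≤ YY := by
      rw [hN, Submodule.span_le]
      intro x hx
      rw [Finset.mem_coe, Finset.mem_image] at hx
      obtain ⟨e, -, rfl⟩ := hx
      exact hg1 e
    have hstep : ∀ z ∈ YY, ∃ y ∈ N, ∃ z' ∈ YY, z - y = pi0 p L • z' := by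
      intro z hz
      obtain ⟨e, he, hze⟩ := hR z ((mYY z).1 hz 1)
      have h2 : e - g e ∈ piE p L E 1 := hg2 e ⟨z, hz, by
        rw [show e - z = -(z - e) by abel]
        exact (piE p L E 1).neg_mem hze⟩
      have h3 : z - g e ∈ piE p L E 1 := by
        rw [show z - g e = (z - e) + (e - g e) by abel]
        exact (piE p L E 1).add_mem hze h2
      obtain ⟨z', hz'⟩ := hdiv _ h3
      refine ⟨g e, Submodule.subset_span (Finset.mem_coe.2 (Finset.mem_image_of_mem _ he)), z',
        hYpi z' ?_, hz'.symm⟩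
      rw [hz']
      exact YY.sub_mem hz (hg1 e)
    have hpow : ∀ m : ℕ, ∀ z ∈ YY, ∃ y ∈ N, z - y ∈ piE p L E m := by
      intro m
      induction m with
      | zero => exact fun z _ => ⟨0, N.zero_mem, piE_zero _⟩
      | succ m ih =>
        intro z hz
        obtain ⟨y, hy, z', hz', h4⟩ := hstep z hz
        obtain ⟨y', hy', h5⟩ := ih z' hz'
        refine ⟨y + pi0 p L • y', N.add_mem hy (N.smul_mem _ hy'), ?_⟩
        rw [show z - (y + pi0 p L • y') = (z - y) - pi0 p L • y' by abel, h4, ← smul_sub]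
        exact piE_succ h5
    have hNc : IsClosed (N : Set E) := by
      have h5 : (N : Set E) = (fun a : (((R.image g : Finset E) : Type) → OO p L) => ∑ i, a i • (i : E)) ''
          Set.univ := by
        ext x
        rw [SetLike.mem_coe, hN, Submodule.mem_span_finset', Set.image_univ, Set.mem_range]
      rw [h5]
      refine (isCompact_univ.image ?_).isClosed
      exact continuous_finset_sum _ fun i _ => (continuous_apply i).smul continuous_const
    have hNY : YY = N := by
      refine le_antisymm (fun z hz => ?_) hNle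
      obtain ⟨x, hx, hx2⟩ := meets (Y := fun k => piE p L E k) (P := N) hNc isClosed_piE
        (fun k => piE_le (Nat.le_succ k)) z (fun k => by
          obtain ⟨y, hy, hy2⟩ := hpow k z hz
          exact ⟨z - y, hy2, by rwa [sub_sub_cancel]⟩)
      have hx0 : x = 0 := hsep x hx
      rwa [hx0, sub_zero] at hx2
    rw [hNY, Module.Finite.iff_fg]
    exact ⟨R.image g, rfl⟩
  have htfY : Module.IsTorsionFree (OO p L) YY := by
    refine Module.IsTorsionFree.of_smul_eq_zero fun a x h => ?_
    by_cases ha : a = 0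
    · exact Or.inl ha
    · refine Or.inr (Subtype.ext (smul_tf htf a ha x ?_))
      exact congrArg Subtype.val h
  have hfree : Module.Free (OO p L) YY := Module.free_of_finite_type_torsion_free'
  let b := Module.finBasis (OO p L) YY
  set d := Module.finrank (OO p L) YY with hd
  have hspan : ∀ z ∈ YY, ∃ a : Fin d → OO p L, z = ∑ i, a i • ((b i : YY) : E) := by
    intro z hz
    refine ⟨fun i => b.repr ⟨z, hz⟩ i, ?_⟩
    have := congrArg Subtype.val (b.sum_repr ⟨z, hz⟩)
    rw [Submodule.coe_sum] at this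
    exact this.symm
  have hmem : ∀ a : Fin d → OO p L, ∑ i, a i • ((b i : YY) : E) ∈ YY := fun a =>
    YY.sum_mem fun i _ => YY.smul_mem _ (b i).2
  have hind : ∀ a : Fin d → OO p L, ∑ i, a i • ((b i : YY) : E) = 0 → a = 0 := by
    intro a ha
    have h1 : ∑ i, a i • b i = 0 := by
      apply Subtype.ext
      simpa using ha
    funext i
    exact Fintype.linearIndependent_iff.1 b.linearIndependent a h1 i
  have happ : ∀ m : ℕ, ∀ z ∈ Y (K + m), ∃ y ∈ YY, z - y ∈ piE p L E m := by
    intro m
    induction m with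
    | zero => exact fun z _ => ⟨0, YY.zero_mem, piE_zero _⟩
    | succ m ih =>
      intro z hz
      obtain ⟨y, hy, hy2⟩ := hK _ (by omega) z hz
      obtain ⟨z', hz'⟩ := hdiv _ hy2
      have h1 : z' ∈ Y (K + m) := by
        rw [← hpi (K + m) z', hz']
        exact (Y (K + (m + 1))).sub_mem hz ((mYY y).1 hy _)
      obtain ⟨y', hy', h5⟩ := ih z' h1
      refine ⟨y + pi0 p L • y', YY.add_mem hy (YY.smul_mem _ hy'), ?_⟩
      rw [show z - (y + pi0 p L • y') = (z - y) - pi0 p L • y' by abel, ← hz', ← smul_sub]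
      exact piE_succ h5
  refine ⟨d, fun i => ((b i : YY) : E), K, fun i k => (mYY _).1 (b i).2 k, hind,
    fun z hz => hspan z ((mYY z).2 hz), ?_, ?_⟩
  · intro k z hz
    rcases le_total k K with h | h
    · refine ⟨0, ?_⟩
      simp only [Pi.zero_apply, zero_smul, Finset.sum_const_zero, sub_zero]
      exact piE_le h (mem_piE.2 ⟨z, rfl⟩)
    · obtain ⟨m, rfl⟩ := Nat.exists_eq_add_of_le h
      obtain ⟨y, hy, h1⟩ := happ m z hz
      obtain ⟨a, ha⟩ := hspan _ (YY.smul_mem (pi0 p L ^ K) hy)
      refine ⟨a, ?_⟩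
      rw [← ha, ← smul_sub]
      obtain ⟨e, he⟩ := mem_piE.1 h1
      rw [← he, smul_smul, ← pow_add]
      exact mem_piE.2 ⟨e, rfl⟩
  · intro k hk
    -- multiplication by `π`
    let μ : E →+ E := (LinearMap.lsmul (OO p L) E (pi0 p L)).toAddMonoidHom
    have hμ : ∀ x, μ x = pi0 p L • x := fun x => rfl
    have hμi : Function.Injective μ := by
      rw [injective_iff_map_eq_zero]
      exact fun x hx => htf x hx
    have h1 : (piE p L E (k + 1)).toAddSubgroup = (piE p L E k).toAddSubgroup.map μ := by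
      ext x
      simp only [Submodule.mem_toAddSubgroup, AddSubgroup.mem_map]
      constructor
      · intro hx
        obtain ⟨e, rfl⟩ := mem_piE.1 hx
        exact ⟨pi0 p L ^ k • e, mem_piE.2 ⟨e, rfl⟩, by rw [hμ, smul_smul, ← pow_succ']⟩
      · rintro ⟨y, hy, rfl⟩
        exact piE_succ hy
    have h2 : (Y k).toAddSubgroup.map μ ≤ (Y (k + 1)).toAddSubgroup := by
      rintro _ ⟨y, hy, rfl⟩
      exact (hpi k y).2 hy
    have h3 : (piE p L E (k + 1)).toAddSubgroup ≤ (Y k).toAddSubgroup.map μ := by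
      rw [h1]
      exact AddSubgroup.map_mono (hle k)
    rw [← AddSubgroup.relIndex_mul_relIndex _ _ _ h3 h2, h1,
      AddSubgroup.relIndex_map_map_of_injective _ _ hμi]
    congr 1
    -- the quotient `Y (k + 1) / π Y k`
    let Q := E ⧸ (Y k).toAddSubgroup.map μ
    let mk : E →+ Q := QuotientAddGroup.mk' _
    have hker : mk.ker = (Y k).toAddSubgroup.map μ := QuotientAddGroup.ker_mk' _
    let S : (Fin d → OO p L) →+ E :=
      { toFun := fun a => ∑ i, a i • ((b i : YY) : E)
        map_zero' := by simp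
        map_add' := fun a a' => by simp only [Pi.add_apply, add_smul, Finset.sum_add_distrib] }
    have hS : ∀ a, S a = ∑ i, a i • ((b i : YY) : E) := fun a => rfl
    let res : (Fin d → OO p L) →+ (Fin d → kk p L) :=
      { toFun := fun a i => IsLocalRing.residue (OO p L) (a i)
        map_zero' := by
          funext i
          simp
        map_add' := fun a a' => by
          funext i
          simp }
    have hres : Function.Surjective res := by
      intro a
      choose x hx using fun i => IsLocalRing.residue_surjective (a i)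
      exact ⟨x, funext hx⟩
    have e1 : (mk.comp S).ker = res.ker := by
      ext a
      rw [AddMonoidHom.mem_ker, AddMonoidHom.mem_ker]
      have h4 : (mk.comp S) a = 0 ↔ S a ∈ (Y k).toAddSubgroup.map μ :=
        QuotientAddGroup.eq_zero_iff (S a)
      rw [h4]
      constructor
      · rintro ⟨y, hy, h5⟩
        have h6 : y ∈ YY := hYpi y (by
          rw [← hμ, h5]
          exact hmem a)
        obtain ⟨a', ha'⟩ := hspan y h6
        have h7 : a = fun i => pi0 p L * a' i := by
          have h8 : (fun i => a i - pi0 p L * a' i) = 0 := by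
            apply hind
            simp only [sub_smul, Finset.sum_sub_distrib, mul_smul, ← Finset.smul_sum]
            rw [← ha', ← hS, ← h5, hμ, sub_self]
          funext i
          exact sub_eq_zero.1 (congrFun h8 i)
        funext i
        change IsLocalRing.residue (OO p L) (a i) = 0
        rw [h7, IsLocalRing.residue_eq_zero_iff, pi0_span]
        exact Ideal.mul_mem_right _ _ (Ideal.mem_span_singleton_self _)
      · intro h5
        have h6 : ∀ i, ∃ x : OO p L, a i = pi0 p L * x := by
          intro i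
          have h7 : IsLocalRing.residue (OO p L) (a i) = 0 := congrFun h5 i
          rw [IsLocalRing.residue_eq_zero_iff, pi0_span, Ideal.mem_span_singleton] at h7
          exact h7
        choose x hx using h6
        refine ⟨S x, (mYY _).1 (hmem x) k, ?_⟩
        rw [hμ, hS, hS, Finset.smul_sum]
        refine Finset.sum_congr rfl fun i _ => ?_
        rw [smul_smul, ← hx]
    have e2 : (mk.comp S).range = (Y (k + 1)).toAddSubgroup.map mk := by
      ext x
      constructor
      · rintro ⟨a, rfl⟩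
        exact ⟨S a, (mYY _).1 (hmem a) (k + 1), rfl⟩
      · rintro ⟨z, hz, rfl⟩
        obtain ⟨y, hy, hy2⟩ := hK (k + 1) (by omega) z hz
        obtain ⟨a, ha⟩ := hspan y hy
        refine ⟨a, ?_⟩
        obtain ⟨z', hz'⟩ := hdiv _ hy2
        have h5 : z' ∈ Y k := by
          rw [← hpi k z', hz']
          exact (Y (k + 1)).sub_mem hz ((mYY y).1 hy _)
        change mk (S a) = mk z
        rw [← sub_eq_zero, ← map_sub, ← AddMonoidHom.mem_ker, hker]
        refine ⟨-z', (Y k).neg_mem h5, ?_⟩
        rw [map_neg, hμ, hz', hS, ← ha, neg_sub]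
    rw [← hker, AddSubgroup.relIndex_ker, ← e2, ← AddSubgroup.index_ker, e1, AddSubgroup.index_ker,
      AddMonoidHom.range_eq_top.2 hres, AddSubgroup.card_top, Nat.card_fun, Nat.card_fin]

end BKMet
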