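import Pool.Agent.Lib.MP_7c08ba_nt.Met.StL
import Pool.Agent.Lib.MP_7c08ba_nt.Met.XCT
import Pool.Agent.Lib.MP_7c08ba_nt.ND.Lim2

set_option autoImplicit false

/-!
Metabolic parity, module LIMD: local duality with coefficients in `L`, by passing to the limit.
-/

set_option linter.unusedSectionVars false
set_option linter.overlappingInstances false

noncomputable section

namespace BKMet

open BKPar (Loc1 Loc2)
open BKND (Sm)
open Matrix Filter Topology

namespace LLIMD

variable {p : ℕ} [Fact p.Prime] {L : Type} [NormedField L] [NormedAlgebra ℚ_[p] L]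
  [FiniteDimensional ℚ_[p] L] {n : ℕ}

/-! ### Reduction of vectors -/

theorem rv_apply (k : ℕ) (v : Fin n → OO p L) (i : Fin n) :
    rv p L k v i = Ideal.Quotient.mk _ (v i) := rfl

theorem rv_surjective (k : ℕ) (w : MK p L n k) : ∃ v : Fin n → OO p L, rv p L k v = w := by
  choose v hv using fun i => Ideal.Quotient.mk_surjective (w i)
  exact ⟨v, funext hv⟩

theorem rv_eq_zero_iff (k : ℕ) (v : Fin n → OO p L) :
    rv p L k v = 0 ↔ ∃ u : Fin n → OO p L, pi0 p L ^ k • u = v := by
  constructor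
  · intro h
    have h1 : ∀ i, ∃ c, v i = pi0 p L ^ k * c := fun i => by
      have h1 := congrFun h i
      rw [rv_apply, Pi.zero_apply, Ideal.Quotient.eq_zero_iff_mem,
        Ideal.mem_span_singleton] at h1
      exact h1
    choose u hu using h1
    exact ⟨u, funext fun i => (hu i).symm⟩
  · rintro ⟨u, rfl⟩
    funext i
    rw [rv_apply, Pi.zero_apply, Ideal.Quotient.eq_zero_iff_mem, Ideal.mem_span_singleton]
    exact ⟨u i, rfl⟩

theorem rv_eq_iff (k : ℕ) (v w : Fin n → OO p L) :
    rv p L k v = rv p L k w ↔ ∃ u : Fin n → OO p L, pi0 p L ^ k • u = v - w := by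
  rw [← sub_eq_zero, ← map_sub, rv_eq_zero_iff]

theorem rv_mono {a b : ℕ} (h : a ≤ b) {v w : Fin n → OO p L} (hv : rv p L b v = rv p L b w) :
    rv p L a v = rv p L a w := by
  rw [rv_eq_iff] at hv ⊢
  obtain ⟨u, hu⟩ := hv
  exact ⟨pi0 p L ^ (b - a) • u, by rw [smul_smul, ← pow_add, Nat.add_sub_cancel' h, hu]⟩

theorem pi_smul_inj (v w : Fin n → OO p L) (h : pi0 p L • v = pi0 p L • w) : v = w := by
  funext i
  have h1 := congrFun h i
  rw [Pi.smul_apply, Pi.smul_apply, smul_eq_mul, smul_eq_mul] at h1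
  exact mul_left_cancel₀ (pi0_ne' p L) h1

theorem rv_pi (k : ℕ) (v w : Fin n → OO p L) :
    rv p L (k + 1) (pi0 p L • v) = rv p L (k + 1) (pi0 p L • w) ↔ rv p L k v = rv p L k w := by
  rw [rv_eq_iff, rv_eq_iff]
  constructor
  · rintro ⟨u, hu⟩
    refine ⟨u, pi_smul_inj _ _ ?_⟩
    rw [smul_sub, ← hu, smul_smul, pow_succ']
  · rintro ⟨u, hu⟩
    refine ⟨u, ?_⟩
    rw [← smul_sub, ← hu, smul_smul, pow_succ']

theorem norm_le_of_rv {k : ℕ} {v w : Fin n → OO p L} (h : rv p L k v = rv p L k w) (i : Fin n) :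
    ‖((v i : OO p L) : L) - ((w i : OO p L) : L)‖ ≤ ‖((pi0 p L : OO p L) : L)‖ ^ k := by
  obtain ⟨u, hu⟩ := (rv_eq_iff k v w).1 h
  have h1 := congrFun hu i
  have h2 : ((v i : OO p L) : L) - ((w i : OO p L) : L) =
      ((pi0 p L : OO p L) : L) ^ k * ((u i : OO p L) : L) := by
    have h3 := congrArg (fun x : OO p L => (x : L)) h1
    exact h3.symm
  rw [h2, norm_mul, norm_pow]
  exact mul_le_of_le_one_right (pow_nonneg (norm_nonneg _) _) (OO.norm_le _)

theorem exists_pow_lt {ε : ℝ} (hε : 0 < ε) : ∃ k : ℕ, ‖((pi0 p L : OO p L) : L)‖ ^ k < ε :=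
  exists_pow_lt_of_lt_one hε (pi0_lt p L)

theorem eq_of_rv {v w : Fin n → OO p L} (h : ∀ k, rv p L k v = rv p L k w) : v = w := by
  funext i
  apply Subtype.ext
  rw [← sub_eq_zero, ← norm_le_zero_iff]
  apply le_of_forall_pos_lt_add
  intro ε hε
  obtain ⟨k, hk⟩ := exists_pow_lt (p := p) (L := L) hε
  rw [zero_add]
  exact (norm_le_of_rv (h k) i).trans_lt hk

theorem isLocallyConstant_mk (k : ℕ) : IsLocallyConstant
    (fun x : OO p L => Ideal.Quotient.mk (Ideal.span {pi0 p L ^ k} : Ideal (OO p L)) x) := by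
  rw [IsLocallyConstant.iff_eventually_eq]
  intro v
  have h1 : ∀ᶠ w in 𝓝 v, w - v ∈ (Ideal.span {pi0 p L ^ k} : Ideal (OO p L)) := by
    have h2 : Continuous fun w : OO p L => w - v := continuous_id.sub continuous_const
    have h3 := (OO.isOpen_span p L k).preimage h2
    refine h3.mem_nhds ?_
    change v - v ∈ (Ideal.span {pi0 p L ^ k} : Ideal (OO p L))
    rw [sub_self]
    exact Ideal.zero_mem _
  filter_upwards [h1] with w hw
  exact Ideal.Quotient.eq.2 hw

theorem isLocallyConstant_rv (k : ℕ) :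
    IsLocallyConstant (fun v : Fin n → OO p L => rv p L k v) := by
  rw [IsLocallyConstant.iff_eventually_eq]
  intro v
  have h : ∀ i, ∀ᶠ w in 𝓝 v, Ideal.Quotient.mk (Ideal.span {pi0 p L ^ k} : Ideal (OO p L)) (w i) =
      Ideal.Quotient.mk (Ideal.span {pi0 p L ^ k} : Ideal (OO p L)) (v i) := fun i =>
    ((isLocallyConstant_mk k).comp_continuous (continuous_apply i)).eventually_eq v
  filter_upwards [Filter.eventually_all.2 h] with w hw
  funext i
  exact hw i

theorem continuous_of_rv {X : Type*} [TopologicalSpace X] {f : X → Fin n → OO p L}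
    (h : ∀ k, IsLocallyConstant (fun x => rv p L k (f x))) : Continuous f := by
  rw [continuous_pi_iff]
  intro i
  rw [Metric.continuous_iff']
  intro a ε hε
  obtain ⟨k, hk⟩ := exists_pow_lt (p := p) (L := L) hε
  filter_upwards [(h k).eventually_eq a] with x hx
  rw [Subtype.dist_eq, dist_eq_norm]
  exact (norm_le_of_rv hx i).trans_lt hk

theorem isClosed_rv_eq {X : Type*} [TopologicalSpace X] (k : ℕ) {f g : X → Fin n → OO p L}
    (hf : Continuous f) (hg : Continuous g) : IsClosed {x | rv p L k (f x) = rv p L k (g x)} := by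
  have h1 : {x | rv p L k (f x) = rv p L k (g x)} = {x | rv p L k (f x - g x) = 0} := by
    ext x
    rw [Set.mem_ofPred_eq, Set.mem_ofPred_eq, map_sub, sub_eq_zero]
  rw [h1]
  exact ((isLocallyConstant_rv (p := p) (L := L) (n := n) k).comp_continuous
    (hf.sub hg)).isClosed_fiber 0

/-- the cardinality of `(𝒪/π^k)^n` -/
theorem card_MK (k : ℕ) : Nat.card (MK p L n k) = Nat.card (kk p L) ^ (n * k) := by
  have h1 : Nat.card (OO p L ⧸ (Ideal.span {pi0 p L ^ k} : Ideal (OO p L))) =
      Nat.card (kk p L) ^ k := by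
    have h2 : (Ideal.span {pi0 p L ^ k} : Ideal (OO p L)) =
        (IsLocalRing.maximalIdeal (OO p L)) ^ k := by
      rw [pi0_span, Ideal.span_singleton_pow]
    rw [h2]
    have h3 : IsLocalRing.maximalIdeal (OO p L) ≠ ⊥ := by
      rw [pi0_span, Ne, Ideal.span_singleton_eq_bot]
      exact pi0_ne' p L
    have h4 := cardQuot_pow_of_prime (S := OO p L) (P := IsLocalRing.maximalIdeal (OO p L)) h3
      (i := k)
    exact h4
  rw [Nat.card_fun, h1, Nat.card_eq_fintype_card (α := Fin n), Fintype.card_fin, ← pow_mul,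
    mul_comm]

theorem two_le_q : 2 ≤ Nat.card (kk p L) := by
  have : Finite (kk p L) := instFiniteRes p L
  exact Finite.one_lt_card

theorem mem_piE {E : Type} [AddCommGroup E] [Module (OO p L) E] (k : ℕ) (x : E) :
    x ∈ piE p L E k ↔ ∃ u : E, pi0 p L ^ k • u = x := Iff.rfl

/-! ### Lattices of cocycles -/

section Coc

variable {D : Type} [Group D] [TopologicalSpace D]
  (ρ : D →* GL (Fin n) (OO p L)) (act : ∀ k, D →* AddMonoid.End (MK p L n k))
  (hact : ∀ k g v, act k g (rv p L k v) =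
    rv p L k ((ρ g : Matrix (Fin n) (Fin n) (OO p L)) *ᵥ v))

include hact

theorem act_smul (k : ℕ) (g : D) (a : OO p L) (w : MK p L n k) :
    act k g (a • w) = a • act k g w := by
  obtain ⟨v, rfl⟩ := rv_surjective k w
  rw [← map_smul, hact, hact, Matrix.mulVec_smul, map_smul]

/-- functions which are cocycles modulo `π^k` -/
def Y (k : ℕ) : Submodule (OO p L) (D → Fin n → OO p L) where
  carrier := {z | (fun g => rv p L k (z g)) ∈ BKND.Z1 (act k)}
  add_mem' := by
    intro x y hx hy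
    have h := (BKND.Z1 (act k)).add_mem hx hy
    have e : (fun g => rv p L k ((x + y) g)) =
        (fun g => rv p L k (x g)) + fun g => rv p L k (y g) := by
      funext g
      rw [Pi.add_apply, Pi.add_apply, map_add]
    change (fun g => rv p L k ((x + y) g)) ∈ BKND.Z1 (act k)
    rw [e]
    exact h
  zero_mem' := by
    have h := (BKND.Z1 (act k)).zero_mem
    have e : (fun g => rv p L k ((0 : D → Fin n → OO p L) g)) = 0 := by
      funext g
      rw [Pi.zero_apply, Pi.zero_apply, map_zero]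
    change (fun g => rv p L k ((0 : D → Fin n → OO p L) g)) ∈ BKND.Z1 (act k)
    rw [e]
    exact h
  smul_mem' := by
    rintro a x ⟨h1, h2⟩
    refine ⟨?_, fun g h => ?_⟩
    · have e : (fun g => rv p L k ((a • x) g)) = fun g => a • rv p L k (x g) := by
        funext g
        rw [Pi.smul_apply, map_smul]
      change Loc1 (fun g => rv p L k ((a • x) g))
      rw [e]
      exact BKND.Loc1.map h1 (a • ·)
    · change rv p L k ((a • x) (g * h)) = rv p L k ((a • x) g) + act k g (rv p L k ((a • x) h))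
      have h3 : rv p L k (x (g * h)) = rv p L k (x g) + act k g (rv p L k (x h)) := h2 g h
      rw [Pi.smul_apply, Pi.smul_apply, Pi.smul_apply, map_smul, map_smul, map_smul, h3, smul_add,
        act_smul ρ act hact]

theorem mem_Y (k : ℕ) (z : D → Fin n → OO p L) :
    z ∈ Y ρ act hact k ↔ Loc1 (fun g => rv p L k (z g)) ∧ ∀ g h,
      rv p L k (z (g * h)) =
        rv p L k (z g + (ρ g : Matrix (Fin n) (Fin n) (OO p L)) *ᵥ z h) := by
  constructor
  · rintro ⟨h1, h2⟩
    refine ⟨h1, fun g h => ?_⟩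
    have h3 : rv p L k (z (g * h)) = rv p L k (z g) + act k g (rv p L k (z h)) := h2 g h
    rw [h3, hact, map_add]
  · rintro ⟨h1, h2⟩
    refine ⟨h1, fun g h => ?_⟩
    change rv p L k (z (g * h)) = rv p L k (z g) + act k g (rv p L k (z h))
    rw [hact, ← map_add]
    exact h2 g h

theorem relIndex_Y (k : ℕ) :
    (piE p L (D → Fin n → OO p L) k).toAddSubgroup.relIndex (Y ρ act hact k).toAddSubgroup =
      Nat.card (BKND.Z1 (act k)) := by
  let f : (D → Fin n → OO p L) →+ (D → MK p L n k) :=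
    { toFun := fun z g => rv p L k (z g)
      map_zero' := by
        funext g
        rw [Pi.zero_apply, Pi.zero_apply, map_zero]
      map_add' := by
        intro x y
        funext g
        rw [Pi.add_apply, Pi.add_apply, map_add] }
  have hk : (piE p L (D → Fin n → OO p L) k).toAddSubgroup = f.ker := by
    ext z
    rw [AddMonoidHom.mem_ker]
    constructor
    · rintro ⟨u, hu⟩
      funext g
      change rv p L k (z g) = 0
      rw [rv_eq_zero_iff]
      exact ⟨u g, congrFun hu g⟩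
    · intro h
      have h1 : ∀ g, ∃ u : Fin n → OO p L, pi0 p L ^ k • u = z g := fun g =>
        (rv_eq_zero_iff k (z g)).1 (congrFun h g)
      choose u hu using h1
      exact ⟨u, funext hu⟩
  have hm : (Y ρ act hact k).toAddSubgroup.map f = BKND.Z1 (act k) := by
    ext z
    constructor
    · rintro ⟨x, hx, rfl⟩
      exact hx
    · intro hz
      have h1 : ∀ g, ∃ v : Fin n → OO p L, rv p L k v = z g := fun g => rv_surjective k (z g)
      choose x hx using h1
      have e : (fun g => rv p L k (x g)) = z := funext hx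
      refine ⟨x, ?_, e⟩
      change (fun g => rv p L k (x g)) ∈ BKND.Z1 (act k)
      rw [e]
      exact hz
  rw [hk, AddSubgroup.relIndex_ker, hm]

theorem lattice (hL : StLimA) [IsTopologicalGroup D] [CompactSpace D] [NonarchimedeanGroup D]
    (hfin : ∀ k, Finite (BKND.Z1 (act k))) :
    ∃ (d : ℕ) (y : Fin d → D → Fin n → OO p L) (K : ℕ),
      (∀ i, Continuous (y i)) ∧
      (∀ i g h, y i (g * h) = y i g + (ρ g : Matrix (Fin n) (Fin n) (OO p L)) *ᵥ y i h) ∧
      (∀ z : D → Fin n → OO p L, Continuous z →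
        (∀ g h, z (g * h) = z g + (ρ g : Matrix (Fin n) (Fin n) (OO p L)) *ᵥ z h) →
        ∃ a : Fin d → OO p L, z = ∑ i, a i • y i) ∧
      (∀ k, ∀ z : D → Fin n → OO p L, (fun g => rv p L k (z g)) ∈ BKND.Z1 (act k) →
        ∃ a : Fin d → OO p L, ∀ g,
          rv p L k (pi0 p L ^ K • z g) = rv p L k (∑ i, a i • y i g)) ∧
      ∀ k, K ≤ k → Nat.card (BKND.Z1 (act (k + 1))) =
        Nat.card (BKND.Z1 (act k)) * Nat.card (kk p L) ^ d := by
  obtain ⟨d, y, K, h1, h2, h3, h4, h5⟩ := hL p L (D → Fin n → OO p L) (Y ρ act hact)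
    (by
      intro x hx
      funext g
      apply pi_smul_inj
      rw [Pi.zero_apply, smul_zero]
      exact congrFun hx g)
    (by
      intro x hx
      funext g
      apply eq_of_rv
      intro k
      obtain ⟨u, hu⟩ := hx k
      rw [Pi.zero_apply, map_zero, rv_eq_zero_iff]
      exact ⟨u g, congrFun hu g⟩)
    (by
      rintro k x ⟨u, hu⟩
      rw [mem_Y]
      have h0 : ∀ g, rv p L k (x g) = 0 := by
        intro g
        rw [rv_eq_zero_iff]
        exact ⟨u g, congrFun hu g⟩
      refine ⟨?_, fun g h => ?_⟩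
      · have e : (fun g => rv p L k (x g)) = fun _ => 0 := funext h0
        rw [e]
        exact BKND.Loc1.const 0
      · rw [map_add, h0, h0, zero_add, ← hact, h0, map_zero])
    (by
      intro k x hx
      rw [mem_Y] at hx ⊢
      obtain ⟨⟨W, hW, hW'⟩, hx2⟩ := hx
      exact ⟨⟨W, hW, fun g w hw => rv_mono (Nat.le_succ k) (hW' g w hw)⟩, fun g h =>
        rv_mono (Nat.le_succ k) (hx2 g h)⟩)
    (by
      intro k x
      rw [mem_Y, mem_Y]
      have e : ∀ g h : D, (pi0 p L • x) g + (ρ g : Matrix (Fin n) (Fin n) (OO p L)) *ᵥ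
          (pi0 p L • x) h = pi0 p L • (x g + (ρ g : Matrix (Fin n) (Fin n) (OO p L)) *ᵥ x h) := by
        intro g h
        rw [Pi.smul_apply, Pi.smul_apply, Matrix.mulVec_smul, smul_add]
      refine and_congr ?_ ?_
      · constructor
        · rintro ⟨W, hW, hW'⟩
          exact ⟨W, hW, fun g w hw => (rv_pi k _ _).1 (hW' g w hw)⟩
        · rintro ⟨W, hW, hW'⟩
          exact ⟨W, hW, fun g w hw => (rv_pi k _ _).2 (hW' g w hw)⟩
      · refine forall_congr' fun g => forall_congr' fun h => ?_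
        rw [e, Pi.smul_apply, rv_pi])
    (by
      intro k
      rw [relIndex_Y]
      have := hfin k
      exact Nat.card_pos.ne')
  have h1' : ∀ i k, Loc1 (fun g => rv p L k (y i g)) ∧ ∀ g h, rv p L k (y i (g * h)) =
      rv p L k (y i g + (ρ g : Matrix (Fin n) (Fin n) (OO p L)) *ᵥ y i h) := fun i k =>
    (mem_Y ρ act hact k _).1 (h1 i k)
  refine ⟨d, y, K, fun i => ?_, fun i g h => ?_, fun z hz hz' => ?_, fun k z hz => ?_,
    fun k hk => ?_⟩
  · exact continuous_of_rv fun k => BKPar.Lift.Loc1.isLocallyConstant (h1' i k).1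
  · exact eq_of_rv fun k => (h1' i k).2 g h
  · refine h3 z fun k => ?_
    rw [mem_Y]
    exact ⟨BKPar.Lift.Loc1.of_isLocallyConstant ((isLocallyConstant_rv k).comp_continuous hz),
      fun g h => by rw [hz']⟩
  · obtain ⟨a, u, hu⟩ := h4 k z hz
    refine ⟨a, fun g => ?_⟩
    rw [rv_eq_iff]
    refine ⟨u g, ?_⟩
    have h6 := congrFun hu g
    rw [Pi.sub_apply, Pi.smul_apply, Finset.sum_apply] at h6
    exact h6
  · have h6 := h5 k hk
    rw [relIndex_Y, relIndex_Y] at h6
    exact h6

end Coc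

/-! ### Invariants -/

section Inv

variable {D : Type} [Group D] (ρ : D →* GL (Fin n) (OO p L))
  (act : ∀ k, D →* AddMonoid.End (MK p L n k))
  (hact : ∀ k g v, act k g (rv p L k v) =
    rv p L k ((ρ g : Matrix (Fin n) (Fin n) (OO p L)) *ᵥ v))

/-- vectors which are invariant modulo `π^k` -/
def YI (k : ℕ) : Submodule (OO p L) (Fin n → OO p L) where
  carrier := {v | ∀ g, rv p L k ((ρ g : Matrix (Fin n) (Fin n) (OO p L)) *ᵥ v) = rv p L k v}
  add_mem' := by
    intro x y hx hy g
    rw [Matrix.mulVec_add, map_add, map_add, hx g, hy g]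
  zero_mem' := by
    intro g
    rw [Matrix.mulVec_zero]
  smul_mem' := by
    intro a x hx g
    rw [Matrix.mulVec_smul, map_smul, map_smul, hx g]

theorem mem_YI (k : ℕ) (v : Fin n → OO p L) : v ∈ YI ρ k ↔
    ∀ g, rv p L k ((ρ g : Matrix (Fin n) (Fin n) (OO p L)) *ᵥ v) = rv p L k v := Iff.rfl

include hact in
theorem relIndex_YI (k : ℕ) :
    (piE p L (Fin n → OO p L) k).toAddSubgroup.relIndex (YI ρ k).toAddSubgroup =
      Nat.card (BKND.H0 (act k)) := by
  have hk : (piE p L (Fin n → OO p L) k).toAddSubgroup = (rv p L k).toAddMonoidHom.ker := by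
    ext z
    rw [AddMonoidHom.mem_ker]
    exact (rv_eq_zero_iff k z).symm
  have hm : (YI ρ k).toAddSubgroup.map (rv p L k).toAddMonoidHom = BKND.H0 (act k) := by
    ext z
    constructor
    · rintro ⟨x, hx, rfl⟩ g
      exact (hact k g x).trans (hx g)
    · intro hz
      obtain ⟨x, rfl⟩ := rv_surjective k z
      exact ⟨x, fun g => (hact k g x).symm.trans (hz g), rfl⟩
  rw [hk, AddSubgroup.relIndex_ker, hm]

/-- integral vectors as vectors over `L` -/
def co (v : Fin n → OO p L) : Fin n → L := fun i => ((v i : OO p L) : L)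

theorem co_inj {v w : Fin n → OO p L} (h : co v = co w) : v = w :=
  funext fun i => Subtype.ext (congrFun h i)

theorem co_add (v w : Fin n → OO p L) : co (v + w) = co v + co w := rfl

theorem co_sub (v w : Fin n → OO p L) : co (v - w) = co v - co w := rfl

theorem co_smul (a : OO p L) (v : Fin n → OO p L) : co (a • v) = (a : L) • co v := rfl

theorem co_zero : co (0 : Fin n → OO p L) = 0 := rfl

theorem co_sum {ι : Type} (s : Finset ι) (f : ι → Fin n → OO p L) :
    co (∑ i ∈ s, f i) = ∑ i ∈ s, co (f i) := by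
  classical
  induction s using Finset.induction_on with
  | empty => rfl
  | insert a s ha ih => rw [Finset.sum_insert ha, Finset.sum_insert ha, co_add, ih]

theorem co_dot (v w : Fin n → OO p L) : co v ⬝ᵥ co w = ((v ⬝ᵥ w : OO p L) : L) := by
  unfold dotProduct
  rw [AddSubmonoidClass.coe_finsetSum]
  rfl

theorem co_mulVec (g : GL (Fin n) (OO p L)) (v : Fin n → OO p L) :
    co ((g : Matrix (Fin n) (Fin n) (OO p L)) *ᵥ v) =
      (toL p L n g : Matrix (Fin n) (Fin n) L) *ᵥ co v := by
  funext i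
  exact (co_dot (fun j => (g : Matrix (Fin n) (Fin n) (OO p L)) i j) v).symm

theorem continuous_co : Continuous (co : (Fin n → OO p L) → Fin n → L) :=
  continuous_pi fun i => continuous_subtype_val.comp (continuous_apply i)

include hact in
theorem card_H0 (hL : StLimA) (hinv : NoInv ((toL p L n).comp ρ)) :
    ∃ K : ℕ, ∀ k, K ≤ k → Nat.card (BKND.H0 (act (k + 1))) = Nat.card (BKND.H0 (act k)) := by
  have hfin : ∀ k, Finite (MK p L n k) := fun k => Pi.finite
  obtain ⟨d, y, K, h1, h2, h3, h4, h5⟩ := hL p L (Fin n → OO p L) (YI ρ)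
    (by
      intro x hx
      apply pi_smul_inj
      rw [smul_zero]
      exact hx)
    (by
      intro x hx
      apply eq_of_rv
      intro k
      rw [map_zero, rv_eq_zero_iff]
      exact hx k)
    (by
      rintro k x ⟨u, hu⟩ g
      have h0 : rv p L k x = 0 := (rv_eq_zero_iff k x).2 ⟨u, hu⟩
      rw [← hact, h0, map_zero])
    (by
      intro k x hx g
      exact rv_mono (Nat.le_succ k) (hx g))
    (by
      intro k x
      rw [mem_YI, mem_YI]
      refine forall_congr' fun g => ?_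
      rw [Matrix.mulVec_smul, rv_pi])
    (by
      intro k
      rw [relIndex_YI ρ act hact]
      have := hfin k
      exact Nat.card_pos.ne')
  have hd : d = 0 := by
    by_contra hd
    let i₀ : Fin d := ⟨0, Nat.pos_of_ne_zero hd⟩
    have h6 : ∀ g, (ρ g : Matrix (Fin n) (Fin n) (OO p L)) *ᵥ y i₀ = y i₀ := fun g =>
      eq_of_rv fun k => h1 i₀ k g
    have h7 : co (y i₀) = 0 := by
      apply hinv
      intro g
      rw [MonoidHom.comp_apply, ← co_mulVec, h6]
    have h8 : y i₀ = 0 := co_inj (h7.trans co_zero.symm)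
    have h9 := h2 (Pi.single i₀ 1) (by
      rw [Finset.sum_eq_single i₀]
      · rw [h8, smul_zero]
      · intro j _ hj
        rw [Pi.single_eq_of_ne hj, zero_smul]
      · intro h
        exact absurd (Finset.mem_univ _) h)
    have h10 := congrFun h9 i₀
    rw [Pi.single_eq_same, Pi.zero_apply] at h10
    exact one_ne_zero h10
  refine ⟨K, fun k hk => ?_⟩
  have h6 := h5 k hk
  rw [relIndex_YI ρ act hact, relIndex_YI ρ act hact, hd, pow_zero, mul_one] at h6
  exact h6

end Inv

/-! ### Counting -/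

theorem rank_le {q d n δ K K' : ℕ} (hq : 2 ≤ q) (Z H : ℕ → ℕ)
    (hZ : ∀ k, K ≤ k → Z (k + 1) = Z k * q ^ d) (hZ0 : ∀ k, 0 < Z k)
    (hH : ∀ k, K' ≤ k → H (k + 1) = H k)
    (h : ∀ k, Z k ≤ H k * (q ^ (n * k)) ^ (1 + δ)) : d ≤ (1 + δ) * n := by
  by_contra hcon
  rw [not_le] at hcon
  set M := max K K' with hM
  have h1 : ∀ j, q ^ (d * j) ≤ Z (M + j) := by
    intro j
    induction j with
    | zero =>
      rw [mul_zero, pow_zero]
      exact hZ0 _
    | succ j ih =>
      have e := hZ (M + j) ((le_max_left K K').trans (Nat.le_add_right _ _))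
      rw [← add_assoc, e, mul_add, mul_one, pow_add]
      exact Nat.mul_le_mul_right _ ih
  have h2 : ∀ j, H (M + j) = H M := by
    intro j
    induction j with
    | zero => rfl
    | succ j ih =>
      rw [← add_assoc, hH (M + j) ((le_max_right K K').trans (Nat.le_add_right _ _)), ih]
  have hq0 : 0 < q := by omega
  set C := H M * q ^ (n * M * (1 + δ)) with hC
  have h3 : ∀ j, q ^ j ≤ C := by
    intro j
    have h4 := (h1 j).trans (h (M + j))
    rw [h2, ← pow_mul] at h4
    have h5 : n * (M + j) * (1 + δ) = n * M * (1 + δ) + (1 + δ) * n * j := by ring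
    rw [h5, pow_add, ← mul_assoc] at h4
    have h6 : q ^ ((1 + δ) * n * j) * q ^ j ≤ q ^ (d * j) := by
      rw [← pow_add]
      apply Nat.pow_le_pow_right hq0
      calc (1 + δ) * n * j + j = ((1 + δ) * n + 1) * j := by ring
        _ ≤ d * j := Nat.mul_le_mul_right _ hcon
    have h7 : q ^ ((1 + δ) * n * j) * q ^ j ≤ q ^ ((1 + δ) * n * j) * C := by
      calc q ^ ((1 + δ) * n * j) * q ^ j ≤ C * q ^ ((1 + δ) * n * j) := h6.trans h4
        _ = q ^ ((1 + δ) * n * j) * C := mul_comm _ _
    exact Nat.le_of_mul_le_mul_left h7 (pow_pos hq0 _)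
  exact absurd (h3 C) (not_le.2 (Nat.lt_pow_self (by omega)))

/-! ### Cocycles over `L` -/

section Over

variable {D : Type} [Group D] [TopologicalSpace D] [CompactSpace D]
  (ρ : D →* GL (Fin n) (OO p L))

/-- a cocycle over `L` is integral up to a power of `π` -/
theorem exists_scale (x : D → Fin n → L) (hx : x ∈ BKOdd.Z1 ((toL p L n).comp ρ)) :
    ∃ (N : ℕ) (z : D → Fin n → OO p L), Continuous z ∧
      (∀ g h, z (g * h) = z g + (ρ g : Matrix (Fin n) (Fin n) (OO p L)) *ᵥ z h) ∧
      ∀ g, co (z g) = ((pi0 p L : OO p L) : L) ^ N • x g := by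
  obtain ⟨hc, hx'⟩ := hx
  have h1 : IsCompact (Set.range x) := isCompact_range hc
  obtain ⟨C, hC⟩ := h1.isBounded.exists_norm_le
  have hC1 : ∀ g i, ‖x g i‖ ≤ max C 1 := fun g i =>
    ((norm_le_pi_norm (x g) i).trans (hC _ ⟨g, rfl⟩)).trans (le_max_left _ _)
  have hC0 : 0 < max C 1 := lt_of_lt_of_le one_pos (le_max_right _ _)
  obtain ⟨N, hN⟩ := exists_pow_lt (p := p) (L := L) (inv_pos.2 hC0)
  have hb : ∀ g i, ‖((pi0 p L : OO p L) : L) ^ N * x g i‖ ≤ 1 := by
    intro g i
    rw [norm_mul, norm_pow]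
    calc ‖((pi0 p L : OO p L) : L)‖ ^ N * ‖x g i‖ ≤ (max C 1)⁻¹ * max C 1 :=
          mul_le_mul hN.le (hC1 g i) (norm_nonneg _) (inv_pos.2 hC0).le
      _ = 1 := inv_mul_cancel₀ hC0.ne'
  refine ⟨N, fun g i => ⟨((pi0 p L : OO p L) : L) ^ N * x g i, hb g i⟩, ?_, fun g h => ?_,
    fun g => rfl⟩
  · refine continuous_pi fun i => Continuous.subtype_mk ?_ _
    exact continuous_const.mul ((continuous_apply i).comp hc)
  · apply co_inj
    rw [co_add, co_mulVec]
    have e : ∀ g, co (fun i => (⟨((pi0 p L : OO p L) : L) ^ N * x g i, hb g i⟩ : OO p L)) =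
        ((pi0 p L : OO p L) : L) ^ N • x g := fun g => rfl
    rw [e, e, e, hx', smul_add, ← Matrix.mulVec_smul]
    rfl

end Over

/-! ### The pairing -/

theorem cl_eq (x : ℚ_[p]) : cl p x = Submodule.mkQ (LinearMap.range
    (Algebra.linearMap ℤ_[p] ℚ_[p])) x := rfl

theorem cl_add (x y : ℚ_[p]) : cl p (x + y) = cl p x + cl p y := rfl

theorem cl_sub (x y : ℚ_[p]) : cl p (x - y) = cl p x - cl p y := rfl

theorem cl_mul (u : ℤ_[p]) (x : ℚ_[p]) : cl p ((u : ℚ_[p]) * x) = u • cl p x := rfl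

theorem isLocallyConstant_cl : IsLocallyConstant (fun x : ℚ_[p] => cl p x) := by
  rw [IsLocallyConstant.iff_eventually_eq]
  intro x
  filter_upwards [Metric.ball_mem_nhds x one_pos] with y hy
  rw [mem_ball_iff_norm] at hy
  have h1 : cl p (y - x) = 0 := by
    rw [cl_eq, Submodule.mkQ_apply, Submodule.Quotient.mk_eq_zero]
    exact ⟨⟨y - x, hy.le⟩, rfl⟩
  rw [cl_sub, sub_eq_zero] at h1
  exact h1

end LLIMD

open LLIMD in
theorem stLimD (hL : StLimA) : StLimD := by
  intro p _ L _ _ _ D _ _ _ _ _ χ hχ inv δ hinv n ρ ρ' hρ hρ' hdual lam hlam X hX hfin hfin' hleft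
    hno hno'
  have hact : ∀ k g v, (X k).ρ g (rv p L k v) =
      rv p L k ((ρ g : Matrix (Fin n) (Fin n) (OO p L)) *ᵥ v) := fun k => (hX k).act
  have hact' : ∀ k g v, (X k).ρ' g (rv p L k v) =
      rv p L k ((ρ' g : Matrix (Fin n) (Fin n) (OO p L)) *ᵥ v) := fun k => (hX k).act'
  obtain ⟨d, y, K, hy1, hy2, hy3, hy4, hy5⟩ := lattice ρ (fun k => (X k).ρ) hact hL
    fun k => (hfin k).1
  -- the cocycles over `L`
  have hspan : BKOdd.Z1 ((toL p L n).comp ρ) ≤
      Submodule.span L (Set.range fun (i : Fin d) (g : D) => co (y i g)) := by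
    intro x hx
    obtain ⟨N, z, hz1, hz2, hz3⟩ := exists_scale ρ x hx
    obtain ⟨a, ha⟩ := hy3 z hz1 hz2
    have h1 : x = ∑ i, ((((pi0 p L : OO p L) : L) ^ N)⁻¹ * (a i : L)) •
        (fun g : D => co (y i g)) := by
      funext g
      have h2 := hz3 g
      rw [ha, Finset.sum_apply, co_sum] at h2
      have h3 : ((pi0 p L : OO p L) : L) ^ N ≠ 0 := pow_ne_zero _ (pi0_ne p L)
      have h4 : x g = (((pi0 p L : OO p L) : L) ^ N)⁻¹ • ∑ i, co ((a i • y i) g) := by
        rw [h2, smul_smul, inv_mul_cancel₀ h3, one_smul]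
      rw [h4, Finset.smul_sum, Finset.sum_apply]
      refine Finset.sum_congr rfl fun i _ => ?_
      rw [Pi.smul_apply, Pi.smul_apply, co_smul, smul_smul]
    rw [h1]
    exact Submodule.sum_mem _ fun i _ => Submodule.smul_mem _ _ (Submodule.subset_span ⟨i, rfl⟩)
  have hfd : FiniteDimensional L
      (Submodule.span L (Set.range fun (i : Fin d) (g : D) => co (y i g))) :=
    FiniteDimensional.span_of_finite L (Set.finite_range _)
  have hfd1 : FiniteDimensional L (BKOdd.Z1 ((toL p L n).comp ρ)) :=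
    Submodule.finiteDimensional_of_le hspan
  have hrank : Module.finrank L (BKOdd.Z1 ((toL p L n).comp ρ)) ≤ d := by
    refine (Submodule.finrank_mono hspan).trans ?_
    have h1 := finrank_range_le_card (R := L) (fun (i : Fin d) (g : D) => co (y i g))
    rw [Fintype.card_fin] at h1
    exact h1
  -- counting
  obtain ⟨K', hK'⟩ := card_H0 ρ' (fun k => (X k).ρ') hact' hL hno'
  have hd : d ≤ (1 + δ) * n := by
    refine rank_le (two_le_q (p := p) (L := L)) (fun k => Nat.card (BKND.Z1 (X k).ρ))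
      (fun k => Nat.card (BKND.H0 (X k).ρ')) hy5 (fun k => ?_) hK' (fun k => ?_)
    · have := (hfin k).1
      exact Nat.card_pos
    · have h1 := (hfin k).2
      rw [card_MK] at h1
      exact h1
  refine ⟨hfd1, hrank.trans hd, fun x hx hxy => ?_⟩
  -- the kernel
  obtain ⟨d', y', K₁, hz1, hz2, hz3, hz4, hz5⟩ := lattice ρ' (fun k => (X k).ρ') hact' hL hfin'
  obtain ⟨N, x₀, hx1, hx2, hx3⟩ := exists_scale ρ x hx
  have hy' : ∀ i, (fun g => co (y' i g)) ∈ BKOdd.Z1 ((toL p L n).comp ρ') := by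
    intro i
    refine ⟨continuous_co.comp (hz1 i), fun g h => ?_⟩
    change co (y' i (g * h)) = co (y' i g) + _ *ᵥ co (y' i h)
    rw [hz2, co_add, co_mulVec]
    rfl
  have hβ : ∀ i, ∃ β : D → L, Continuous β ∧ ∀ g h,
      ((x₀ g ⬝ᵥ ((ρ' g : Matrix (Fin n) (Fin n) (OO p L)) *ᵥ y' i h) : OO p L) : L) =
        β g + BKOdd.chL χ L g * β h - β (g * h) := by
    intro i
    have h1 := (CC.B2 (BKOdd.chL χ L)).smul_mem (((pi0 p L : OO p L) : L) ^ N) (hxy _ (hy' i))
    obtain ⟨β, hβ1, hβ2⟩ := h1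
    refine ⟨β, hβ1, fun g h => ?_⟩
    rw [← hβ2 g h, ← co_dot, hx3, co_mulVec, smul_dotProduct]
    rfl
  choose β hβ1 hβ2 using hβ
  have hlamc : Continuous lam := lam.continuous_of_finiteDimensional
  have key : ∀ k, ∃ v : Fin n → OO p L, ∀ g, rv p L k (pi0 p L ^ K₁ • x₀ g) =
      rv p L k ((ρ g : Matrix (Fin n) (Fin n) (OO p L)) *ᵥ v - v) := by
    intro k
    have hf1 : Loc1 (fun g => rv p L k (pi0 p L ^ K₁ • x₀ g)) :=
      BKPar.Lift.Loc1.of_isLocallyConstant
        ((isLocallyConstant_rv k).comp_continuous (hx1.const_smul (pi0 p L ^ K₁)))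
    have hf : (fun g => rv p L k (pi0 p L ^ K₁ • x₀ g)) ∈ BKND.Z1 (X k).ρ := by
      refine ⟨hf1, fun g h => ?_⟩
      change rv p L k (pi0 p L ^ K₁ • x₀ (g * h)) = rv p L k (pi0 p L ^ K₁ • x₀ g) +
        (X k).ρ g (rv p L k (pi0 p L ^ K₁ • x₀ h))
      rw [hact, ← map_add, hx2, smul_add, Matrix.mulVec_smul]
    obtain ⟨m, hm⟩ := hleft k _ hf (by
      intro e he
      have h1 : ∀ g, ∃ v : Fin n → OO p L, rv p L k v = e g := fun g => rv_surjective k (e g)
      choose e₀ he₀ using h1
      have he1 : (fun g => rv p L k (e₀ g)) = e := funext he₀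
      obtain ⟨a, ha⟩ := hz4 k e₀ (by rw [he1]; exact he)
      let θ : D → L := fun g => ∑ i, (a i : L) * β i g
      have hθ : Continuous θ := continuous_finsetSum _ fun i _ => continuous_const.mul (hβ1 i)
      let η : D → QZ p := fun g => cl p (lam (θ g / ((pi0 p L : OO p L) : L) ^ k))
      have hη : Loc1 η := BKPar.Lift.Loc1.of_isLocallyConstant
        (isLocallyConstant_cl.comp_continuous (hlamc.comp (hθ.div_const _)))
      have hcup : cup11 (X k).b (X k).ρ' (fun g => rv p L k (pi0 p L ^ K₁ • x₀ g)) e =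
          d1 (actA χ) η := by
        funext g h
        change (X k).b (rv p L k (pi0 p L ^ K₁ • x₀ g)) ((X k).ρ' g (e h)) =
          actA χ g (η h) - η (g * h) + η g
        rw [map_smul, (X k).bal, ← act_smul ρ' (fun k => (X k).ρ') hact', ← he₀ h, ← map_smul,
          ha h, hact', (hX k).pair, Matrix.one_mulVec]
        have h2 : ((x₀ g ⬝ᵥ ((ρ' g : Matrix (Fin n) (Fin n) (OO p L)) *ᵥ
            ∑ i, a i • y' i h) : OO p L) : L) =
            θ g + BKOdd.chL χ L g * θ h - θ (g * h) := by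
          rw [Matrix.mulVec_sum, dotProduct_sum, AddSubmonoidClass.coe_finsetSum]
          have h3 : ∀ i ∈ (Finset.univ : Finset (Fin d')),
              ((x₀ g ⬝ᵥ ((ρ' g : Matrix (Fin n) (Fin n) (OO p L)) *ᵥ (a i • y' i h)) :
                OO p L) : L) =
              (a i : L) * β i g + BKOdd.chL χ L g * ((a i : L) * β i h) -
                (a i : L) * β i (g * h) := by
            intro i _
            rw [Matrix.mulVec_smul, dotProduct_smul, smul_eq_mul, Subring.coe_mul, hβ2]
            ring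
          rw [Finset.sum_congr rfl h3, Finset.sum_sub_distrib, Finset.sum_add_distrib,
            ← Finset.mul_sum]
        rw [h2]
        have h4 : lam ((θ g + BKOdd.chL χ L g * θ h - θ (g * h)) /
            ((pi0 p L : OO p L) : L) ^ k) =
            lam (θ g / ((pi0 p L : OO p L) : L) ^ k) +
              (((χ g : ℤ_[p]ˣ) : ℤ_[p]) : ℚ_[p]) *
                lam (θ h / ((pi0 p L : OO p L) : L) ^ k) -
              lam (θ (g * h) / ((pi0 p L : OO p L) : L) ^ k) := by
          have h6 : ∀ (c : ℚ_[p]) (u : L), c * lam u = lam (c • u) := fun c u => by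
            rw [map_smul, smul_eq_mul]
          rw [h6, ← map_add, ← map_sub]
          congr 1
          have h5 : BKOdd.chL χ L g =
            algebraMap ℚ_[p] L (((χ g : ℤ_[p]ˣ) : ℤ_[p]) : ℚ_[p]) := rfl
          rw [h5, Algebra.smul_def, sub_div, add_div, mul_div_assoc]
        rw [h4, cl_sub, cl_add, cl_mul]
        change η g + ((χ g : ℤ_[p]ˣ) : ℤ_[p]) • η h - η (g * h) = actA χ g (η h) - η (g * h) + η g
        rw [actA_apply]
        abel
      have hB : cup11 (X k).b (X k).ρ' (fun g => rv p L k (pi0 p L ^ K₁ • x₀ g)) e ∈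
          BKND.B2 (actA χ) := by
        refine ⟨η, hη, fun g h => ?_⟩
        rw [hcup]
        rfl
      have hZ : cup11 (X k).b (X k).ρ' (fun g => rv p L k (pi0 p L ^ K₁ • x₀ g)) e ∈
          BKND.Z2 (actA χ) := by
        refine ⟨XCT.loc2_cup11 _ (X k).sm' hf1 he.1, fun g h l => ?_⟩
        rw [hcup]
        exact XCT.d2_d1 (actA χ) η g h l
      exact (hinv _ hZ).2 hB)
    obtain ⟨v, rfl⟩ := rv_surjective k m
    refine ⟨v, fun g => ?_⟩
    rw [map_sub, ← hact]
    exact hm g
  obtain ⟨v, hv⟩ := BKND.Lim2.exists_mem_all (fun k => {v : Fin n → OO p L | ∀ g,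
      rv p L k (pi0 p L ^ K₁ • x₀ g) =
        rv p L k ((ρ g : Matrix (Fin n) (Fin n) (OO p L)) *ᵥ v - v)})
    (fun k v hv g => rv_mono (Nat.le_succ k) (hv g)) key (by
      intro k
      rw [Set.ofPred_forall]
      exact isClosed_iInter fun g => isClosed_rv_eq k continuous_const
        ((Continuous.matrix_mulVec continuous_const continuous_id).sub continuous_id))
  have hv' : ∀ g, pi0 p L ^ K₁ • x₀ g =
      (ρ g : Matrix (Fin n) (Fin n) (OO p L)) *ᵥ v - v := fun g => eq_of_rv fun k => hv k g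
  have h0 : ((pi0 p L : OO p L) : L) ^ (K₁ + N) ≠ 0 := pow_ne_zero _ (pi0_ne p L)
  refine ⟨(((pi0 p L : OO p L) : L) ^ (K₁ + N))⁻¹ • co v, ?_⟩
  funext g
  rw [BKOdd.cob_apply, Matrix.mulVec_smul, ← smul_sub]
  have h1 := congrArg co (hv' g)
  rw [co_smul, co_sub, co_mulVec, hx3, smul_smul, Subring.coe_pow, ← pow_add] at h1
  rw [MonoidHom.comp_apply, ← h1, smul_smul, inv_mul_cancel₀ h0, one_smul]

end BKMet
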