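import Pool.Agent.Lib.MP_7c08ba_nt.Met.StL
import Pool.Agent.Lib.MP_7c08ba_nt.Par.Lift

set_option autoImplicit false

/-! Metabolic parity, part L: the limit theorem for the relative cocycles of `G`. -/

noncomputable section

namespace BKMet

open BKPar (Loc1 Loc2)
open BKND (Sm)
open Matrix Topology

namespace LLIMG

variable {p : ℕ} [Fact p.Prime] {L : Type} [NormedField L] [NormedAlgebra ℚ_[p] L] {n : ℕ}

/-! ### Vectors over `L` -/

/-- integral vectors as vectors over `L` -/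
def cv (v : Fin n → OO p L) : Fin n → L := fun i => (v i : L)

theorem cv_inj {v w : Fin n → OO p L} (h : cv v = cv w) : v = w :=
  funext fun i => Subtype.ext (congrFun h i)

theorem cv_add (v w : Fin n → OO p L) : cv (v + w) = cv v + cv w := rfl

theorem cv_sub (v w : Fin n → OO p L) : cv (v - w) = cv v - cv w := rfl

theorem cv_zero : cv (0 : Fin n → OO p L) = 0 := rfl

theorem cv_smul (a : OO p L) (v : Fin n → OO p L) : cv (a • v) = (a : L) • cv v := rfl

theorem cv_sum {ι : Type*} (s : Finset ι) (v : ι → Fin n → OO p L) :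
    cv (∑ i ∈ s, v i) = ∑ i ∈ s, cv (v i) := by
  classical
  induction s using Finset.induction_on with
  | empty => simp [cv_zero]
  | insert a s ha ih => rw [Finset.sum_insert ha, Finset.sum_insert ha, cv_add, ih]

theorem cv_mulVec (M : GL (Fin n) (OO p L)) (v : Fin n → OO p L) :
    cv ((M : Matrix (Fin n) (Fin n) (OO p L)) *ᵥ v) =
      ((toL p L n M : GL (Fin n) L) : Matrix (Fin n) (Fin n) L) *ᵥ cv v := by
  funext i
  simp only [cv, Matrix.mulVec, dotProduct]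
  rw [AddSubmonoidClass.coe_finsetSum]
  rfl

theorem exists_cv {v : Fin n → L} (h : ∀ i, ‖v i‖ ≤ 1) : ∃ u : Fin n → OO p L, cv u = v :=
  ⟨fun i => ⟨v i, h i⟩, rfl⟩

theorem continuous_cv : Continuous (cv : (Fin n → OO p L) → Fin n → L) :=
  continuous_pi fun i => continuous_subtype_val.comp (continuous_apply i)

/-! ### Vectors -/

variable [FiniteDimensional ℚ_[p] L]

theorem dvd_iff (k : ℕ) (a : OO p L) :
    pi0 p L ^ k ∣ a ↔ ‖(a : L)‖ ≤ ‖((pi0 p L : OO p L) : L)‖ ^ k := by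
  have h0 := pi0_pos p L
  constructor
  · rintro ⟨b, rfl⟩
    rw [Subring.coe_mul, norm_mul, Subring.coe_pow, norm_pow]
    exact mul_le_of_le_one_right (pow_nonneg (norm_nonneg _) _) (OO.norm_le b)
  · intro h
    refine ⟨⟨(a : L) / ((pi0 p L : OO p L) : L) ^ k, ?_⟩, Subtype.ext ?_⟩
    · change ‖(a : L) / ((pi0 p L : OO p L) : L) ^ k‖ ≤ 1
      rw [norm_div, norm_pow, div_le_one (pow_pos h0 k)]
      exact h
    · rw [Subring.coe_mul, Subring.coe_pow]
      exact (mul_div_cancel₀ _ (pow_ne_zero _ (pi0_ne p L))).symm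

theorem rv_surj (k : ℕ) : Function.Surjective (rv p L (n := n) k) := by
  intro v
  choose w hw using fun i => Ideal.Quotient.mk_surjective (v i)
  exact ⟨w, funext hw⟩

theorem rv_eq_zero_iff' (k : ℕ) (v : Fin n → OO p L) :
    rv p L k v = 0 ↔ ∀ i, pi0 p L ^ k ∣ v i := by
  constructor
  · intro h i
    have h2 : Ideal.Quotient.mk (Ideal.span {pi0 p L ^ k}) (v i) = 0 := congrFun h i
    rwa [Ideal.Quotient.eq_zero_iff_mem, Ideal.mem_span_singleton] at h2
  · intro h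
    funext i
    exact Ideal.Quotient.eq_zero_iff_mem.2 (Ideal.mem_span_singleton.2 (h i))

theorem rv_eq_zero_iff (k : ℕ) (v : Fin n → OO p L) :
    rv p L k v = 0 ↔ ∃ w, pi0 p L ^ k • w = v := by
  rw [rv_eq_zero_iff']
  constructor
  · intro h
    choose y hy using h
    exact ⟨y, funext fun i => (hy i).symm⟩
  · rintro ⟨w, rfl⟩ i
    exact ⟨w i, rfl⟩

theorem rv_pi_smul (k : ℕ) (v : Fin n → OO p L) :
    rv p L (k + 1) (pi0 p L • v) = 0 ↔ rv p L k v = 0 := by
  rw [rv_eq_zero_iff', rv_eq_zero_iff']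
  refine forall_congr' fun i => ?_
  rw [Pi.smul_apply, smul_eq_mul, pow_succ, mul_comm (pi0 p L) (v i)]
  exact mul_dvd_mul_iff_right (pi0_ne' p L)

theorem rv_mono (k : ℕ) {v : Fin n → OO p L} (h : rv p L (k + 1) v = 0) : rv p L k v = 0 := by
  rw [rv_eq_zero_iff'] at h ⊢
  exact fun i => (pow_dvd_pow _ (Nat.le_succ k)).trans (h i)

theorem eq_zero_of_le {x : L} (h : ∀ k : ℕ, ‖x‖ ≤ ‖((pi0 p L : OO p L) : L)‖ ^ k) : x = 0 := by
  have h1 : Filter.Tendsto (fun k : ℕ => ‖((pi0 p L : OO p L) : L)‖ ^ k) Filter.atTop (𝓝 0) :=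
    tendsto_pow_atTop_nhds_zero_of_lt_one (norm_nonneg _) (pi0_lt p L)
  exact norm_le_zero_iff.1 (ge_of_tendsto' h1 h)

theorem eq_zero_of_rv {v : Fin n → OO p L} (h : ∀ k, rv p L k v = 0) : v = 0 := by
  funext i
  refine Subtype.ext (eq_zero_of_le (p := p) fun k => ?_)
  exact (dvd_iff k (v i)).1 ((rv_eq_zero_iff' k v).1 (h k) i)

theorem rv_eq_iff (k : ℕ) (v w : Fin n → OO p L) :
    rv p L k v = rv p L k w ↔ rv p L k (v - w) = 0 := by
  rw [map_sub, sub_eq_zero]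

theorem isLocallyConstant_rv (k : ℕ) :
    IsLocallyConstant (fun v : Fin n → OO p L => rv p L k v) := by
  rw [IsLocallyConstant.iff_eventually_eq]
  intro v
  have h : ∀ i, ∀ᶠ w : Fin n → OO p L in 𝓝 v,
      w i - v i ∈ (Ideal.span {pi0 p L ^ k} : Ideal (OO p L)) := fun i => by
    have h1 : Continuous fun w : Fin n → OO p L => w i - v i :=
      (continuous_apply i).sub continuous_const
    have h2 := (OO.isOpen_span p L k).preimage h1
    refine h2.mem_nhds ?_
    change v i - v i ∈ (Ideal.span {pi0 p L ^ k} : Ideal (OO p L))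
    rw [sub_self]
    exact Ideal.zero_mem _
  filter_upwards [Filter.eventually_all.2 h] with w hw
  funext i
  exact Ideal.Quotient.eq.2 (hw i)

section Top

variable {G : Type} [Group G] [TopologicalSpace G]

/-- reductions of continuous functions are smooth -/
theorem loc1_rv [CompactSpace G] [NonarchimedeanGroup G] {f : G → Fin n → OO p L}
    (hf : Continuous f) (k : ℕ) : Loc1 fun g => rv p L k (f g) :=
  BKPar.Lift.Loc1.of_isLocallyConstant ((isLocallyConstant_rv k).comp_continuous hf)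

/-- functions with smooth reductions are continuous -/
theorem continuous_of_rv [IsTopologicalGroup G] {f : G → Fin n → OO p L} (h : ∀ k, Loc1 fun g => rv p L k (f g)) :
    Continuous f := by
  refine continuous_pi fun i => ?_
  rw [Metric.continuous_iff']
  intro a ε hε
  have h1 : Filter.Tendsto (fun k : ℕ => ‖((pi0 p L : OO p L) : L)‖ ^ k) Filter.atTop (𝓝 0) :=
    tendsto_pow_atTop_nhds_zero_of_lt_one (norm_nonneg _) (pi0_lt p L)
  obtain ⟨k, hk⟩ := ((Metric.tendsto_atTop.1 h1) ε hε)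
  obtain ⟨W, hW, hW'⟩ := h k
  have h2 : (fun x => a⁻¹ * x) ⁻¹' (W : Set G) ∈ 𝓝 a := by
    refine (hW.preimage (continuous_const.mul continuous_id)).mem_nhds ?_
    change a⁻¹ * a ∈ W
    rw [inv_mul_cancel]
    exact W.one_mem
  filter_upwards [h2] with x hx
  have h3 : rv p L k (f x) = rv p L k (f a) := by
    have := hW' a _ hx
    rwa [mul_inv_cancel_left] at this
  rw [rv_eq_iff, rv_eq_zero_iff'] at h3
  have h4 := (dvd_iff k _).1 (h3 i)
  rw [Subtype.dist_eq, dist_eq_norm]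
  refine lt_of_le_of_lt h4 ?_
  have h5 := hk k le_rfl
  rw [Real.dist_eq, sub_zero, abs_of_nonneg (pow_nonneg (norm_nonneg _) _)] at h5
  exact h5

end Top

/-! ### The submodules -/

section Sub

variable {G : Type} {S : Type}

/-- reduction modulo `π^k` -/
def Phi (k : ℕ) : ((G → Fin n → OO p L) × (S → Fin n → OO p L)) →ₗ[OO p L]
    ((G → MK p L n k) × (S → MK p L n k)) where
  toFun x := (fun g => rv p L k (x.1 g), fun w => rv p L k (x.2 w))
  map_add' x y := by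
    refine Prod.ext ?_ ?_
    · funext g
      exact map_add _ _ _
    · funext w
      exact map_add _ _ _
  map_smul' a x := by
    refine Prod.ext ?_ ?_
    · funext g
      exact (rv p L k).map_smul a (x.1 g)
    · funext w
      exact (rv p L k).map_smul a (x.2 w)

theorem Phi_surj (k : ℕ) : Function.Surjective (Phi (p := p) (L := L) (n := n) (G := G) (S := S) k) := by
  rintro ⟨f, m⟩
  choose f' hf' using fun g => rv_surj k (f g)
  choose m' hm' using fun w => rv_surj k (m w)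
  exact ⟨(f', m'), Prod.ext (funext hf') (funext hm')⟩

theorem ker_Phi (k : ℕ) : LinearMap.ker (Phi (p := p) (L := L) (n := n) (G := G) (S := S) k) =
    piE p L ((G → Fin n → OO p L) × (S → Fin n → OO p L)) k := by
  ext x
  rw [LinearMap.mem_ker]
  constructor
  · intro h
    have h1 : ∀ g, ∃ w, pi0 p L ^ k • w = x.1 g := fun g =>
      (rv_eq_zero_iff k _).1 (congrFun (congrArg Prod.fst h) g)
    have h2 : ∀ g, ∃ w, pi0 p L ^ k • w = x.2 g := fun g =>
      (rv_eq_zero_iff k _).1 (congrFun (congrArg Prod.snd h) g)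
    choose f hf using h1
    choose m hm using h2
    exact ⟨(f, m), Prod.ext (funext hf) (funext hm)⟩
  · rintro ⟨y, rfl⟩
    refine Prod.ext ?_ ?_
    · funext g
      exact (rv_eq_zero_iff k _).2 ⟨y.1 g, rfl⟩
    · funext w
      exact (rv_eq_zero_iff k _).2 ⟨y.2 w, rfl⟩

variable [Group G] [TopologicalSpace G] {D : S → Type} [∀ w, Group (D w)] (r : ∀ w, D w →* G)
  (ρ : G →* GL (Fin n) (OO p L))
  {A : Type} [AddCommGroup A] {α : G →* AddMonoid.End A}
  {k : ℕ} (X : Pair (OO p L) α (MK p L n k) (MK p L n k))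
  (hX : ∀ g v, X.ρ g (rv p L k v) =
      rv p L k ((ρ g : Matrix (Fin n) (Fin n) (OO p L)) *ᵥ v))
  (T : Set S) (w0 : S)

/-- the relative cocycles with `m w0 = 0` -/
def Z0 : Submodule (OO p L) ((G → MK p L n k) × (S → MK p L n k)) :=
  X.Zr r T ⊥ ⊤ ⊓ LinearMap.ker ((LinearMap.proj w0).comp
    (LinearMap.snd (OO p L) (G → MK p L n k) (S → MK p L n k)))

theorem mem_Z0 {x : (G → MK p L n k) × (S → MK p L n k)} :
    x ∈ Z0 r X T w0 ↔ x ∈ X.Zr r T ⊥ ⊤ ∧ x.2 w0 = 0 := Iff.rfl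

/-- the inverse image in the integral cochains -/
def YY : Submodule (OO p L) ((G → Fin n → OO p L) × (S → Fin n → OO p L)) :=
  (Z0 r X T w0).comap (Phi k)

include hX in
theorem mem_YY {x : (G → Fin n → OO p L) × (S → Fin n → OO p L)} :
    x ∈ YY r X T w0 ↔ (Loc1 fun g => rv p L k (x.1 g)) ∧
      (∀ g h, rv p L k ((ρ g : Matrix (Fin n) (Fin n) (OO p L)) *ᵥ x.1 h - x.1 (g * h) + x.1 g) =
        0) ∧
      (∀ w ∈ T, ∀ d, rv p L k (x.1 (r w d) -
        ((ρ (r w d) : Matrix (Fin n) (Fin n) (OO p L)) *ᵥ x.2 w - x.2 w)) = 0) ∧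
      (∀ w ∉ T, rv p L k (x.2 w) = 0) ∧ rv p L k (x.2 w0) = 0 := by
  have e1 : ∀ g h, d1 X.ρ (Phi k x).1 g h =
      rv p L k ((ρ g : Matrix (Fin n) (Fin n) (OO p L)) *ᵥ x.1 h - x.1 (g * h) + x.1 g) := by
    intro g h
    change X.ρ g (rv p L k (x.1 h)) - rv p L k (x.1 (g * h)) + rv p L k (x.1 g) = _
    rw [hX, map_add, map_sub]
  have e2 : ∀ w d, (Phi k x).1 (r w d) - d0 X.ρ ((Phi k x).2 w) (r w d) =
      rv p L k (x.1 (r w d) -
        ((ρ (r w d) : Matrix (Fin n) (Fin n) (OO p L)) *ᵥ x.2 w - x.2 w)) := by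
    intro w d
    change rv p L k (x.1 (r w d)) - (X.ρ (r w d) (rv p L k (x.2 w)) - rv p L k (x.2 w)) = _
    rw [hX, map_sub, map_sub]
  constructor
  · rintro ⟨⟨h1, -, h2, h3, h4⟩, h5⟩
    refine ⟨h1, fun g h => ?_, fun w hw d => ?_, h4, h5⟩
    · rw [← e1]
      exact (Submodule.mem_bot _).1 (h2 g h)
    · rw [← e2]
      exact (Submodule.mem_bot _).1 ((h3 w hw).2 d)
  · rintro ⟨h1, h2, h3, h4, h5⟩
    refine ⟨⟨h1, fun g => Submodule.mem_top, fun g h => ?_, fun w hw =>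
      ⟨Submodule.mem_top, fun d => ?_⟩, h4⟩, h5⟩
    · rw [e1, h2]
      exact Submodule.zero_mem _
    · rw [e2, h3 w hw]
      exact Submodule.zero_mem _

/-- the coboundaries and the cocycles with `m w0 = 0` -/
theorem relIndex_Z0 (hw0 : w0 ∈ T) :
    (X.Br T ⊥ ⊤).toAddSubgroup.relIndex (X.Zr r T ⊥ ⊤).toAddSubgroup = Nat.card (Z0 r X T w0) := by
  classical
  have h1 : (X.Br T ⊥ ⊤).toAddSubgroup ⊓ (Z0 r X T w0).toAddSubgroup = ⊥ := by
    rw [eq_bot_iff]
    rintro x ⟨⟨-, ⟨m, -, hm1, hm2⟩, hm3⟩, -, hx2⟩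
    have hx2' : x.2 w0 = 0 := hx2
    have hm : m = 0 := by
      have := (Submodule.mem_bot _).1 (hm2 w0 hw0)
      rw [hx2', zero_sub, neg_eq_zero] at this
      exact this
    subst hm
    rw [AddSubgroup.mem_bot]
    refine Prod.ext ?_ ?_
    · funext g
      have := (Submodule.mem_bot _).1 (hm1 g)
      rw [sub_eq_zero] at this
      rw [this]
      change X.ρ g 0 - 0 = 0
      rw [map_zero, sub_zero]
    · funext w
      by_cases hw : w ∈ T
      · have := (Submodule.mem_bot _).1 (hm2 w hw)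
        rw [sub_zero] at this
        exact this
      · exact hm3 w hw
  have hBZ : (X.Br T ⊥ ⊤) ≤ (X.Zr r T ⊥ ⊤) := by
    rintro x ⟨h1, ⟨m, -, hm1, hm2⟩, hm3⟩
    have e1 : ∀ g, x.1 g = X.ρ g m - m := fun g => by
      have := (Submodule.mem_bot _).1 (hm1 g)
      rwa [sub_eq_zero] at this
    refine ⟨h1, fun g => Submodule.mem_top, fun g h => ?_, fun w hw =>
      ⟨Submodule.mem_top, fun d => ?_⟩, hm3⟩
    · rw [Submodule.mem_bot]
      change X.ρ g (x.1 h) - x.1 (g * h) + x.1 g = 0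
      rw [e1, e1, e1, map_mul, map_sub]
      change _ - (X.ρ g (X.ρ h m) - m) + _ = 0
      abel
    · rw [Submodule.mem_bot, e1]
      have := (Submodule.mem_bot _).1 (hm2 w hw)
      rw [sub_eq_zero] at this
      rw [this]
      exact sub_self _
  have h2 : (X.Zr r T ⊥ ⊤) = X.Br T ⊥ ⊤ ⊔ Z0 r X T w0 := by
    refine le_antisymm ?_ (sup_le hBZ inf_le_left)
    intro x hx
    obtain ⟨W, hW, hW'⟩ := X.sm
    let b : (G → MK p L n k) × (S → MK p L n k) :=
      (d0 X.ρ (x.2 w0), fun w => if w ∈ T then x.2 w0 else 0)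
    have hb : b ∈ X.Br T ⊥ ⊤ := by
      refine ⟨⟨W, hW, fun g w hw => ?_⟩, ⟨x.2 w0, Submodule.mem_top, fun g => ?_, fun w hw => ?_⟩,
        fun w hw => if_neg hw⟩
      · change X.ρ (g * w) (x.2 w0) - x.2 w0 = X.ρ g (x.2 w0) - x.2 w0
        rw [map_mul, hW' w hw, mul_one]
      · rw [Submodule.mem_bot]
        exact sub_self _
      · rw [Submodule.mem_bot]
        change (if w ∈ T then x.2 w0 else 0) - x.2 w0 = 0
        rw [if_pos hw, sub_self]
    rw [Submodule.mem_sup]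
    refine ⟨b, hb, x - b, ⟨Submodule.sub_mem _ hx (hBZ hb), ?_⟩, add_sub_cancel _ _⟩
    change x.2 w0 - (if w0 ∈ T then x.2 w0 else 0) = 0
    rw [if_pos hw0, sub_self]
  rw [h2, Submodule.sup_toAddSubgroup, AddSubgroup.relIndex_sup_left,
    ← AddSubgroup.inf_relIndex_right, h1, AddSubgroup.relIndex_bot_left]
  rfl

theorem relIndex_YY : (piE p L ((G → Fin n → OO p L) × (S → Fin n → OO p L)) k).toAddSubgroup.relIndex
    (YY r X T w0).toAddSubgroup = Nat.card (Z0 r X T w0) := by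
  rw [← ker_Phi]
  have e1 : (LinearMap.ker (Phi (p := p) (L := L) (n := n) (G := G) (S := S) k)).toAddSubgroup =
      (⊥ : AddSubgroup ((G → MK p L n k) × (S → MK p L n k))).comap
        (Phi (p := p) (L := L) (n := n) (G := G) (S := S) k).toAddMonoidHom := by
    ext x
    rfl
  have e2 : (YY r X T w0).toAddSubgroup = (Z0 r X T w0).toAddSubgroup.comap
        (Phi (p := p) (L := L) (n := n) (G := G) (S := S) k).toAddMonoidHom := by
    ext x
    rfl
  rw [e1, e2, AddSubgroup.relIndex_comap, AddSubgroup.map_comap_eq_self_of_surjective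
    (by exact Phi_surj k), AddSubgroup.relIndex_bot_left]
  rfl

end Sub

/-! ### All levels -/

section All

variable {G : Type} [Group G] [TopologicalSpace G] {S : Type} {D : S → Type} [∀ w, Group (D w)]
  (r : ∀ w, D w →* G) (ρ : G →* GL (Fin n) (OO p L))
  {A : Type} [AddCommGroup A] {α : G →* AddMonoid.End A}
  (X : ∀ k, Pair (OO p L) α (MK p L n k) (MK p L n k))
  (hX : ∀ k g v, (X k).ρ g (rv p L k v) =
      rv p L k ((ρ g : Matrix (Fin n) (Fin n) (OO p L)) *ᵥ v))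
  (T : Set S) (w0 : S)

include hX in
theorem YY_succ_le (k : ℕ) : YY r (X (k + 1)) T w0 ≤ YY r (X k) T w0 := by
  intro x hx
  rw [mem_YY r ρ (X (k + 1)) (hX (k + 1))] at hx
  rw [mem_YY r ρ (X k) (hX k)]
  obtain ⟨⟨W, hW, h1⟩, h2, h3, h4, h5⟩ := hx
  refine ⟨⟨W, hW, fun g w hw => ?_⟩, fun g h => rv_mono k (h2 g h),
    fun w hw d => rv_mono k (h3 w hw d), fun w hw => rv_mono k (h4 w hw), rv_mono k h5⟩
  rw [rv_eq_iff]
  exact rv_mono k ((rv_eq_iff _ _ _).1 (h1 g w hw))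

include hX in
theorem pi_smul_mem (k : ℕ) (x : (G → Fin n → OO p L) × (S → Fin n → OO p L)) :
    pi0 p L • x ∈ YY r (X (k + 1)) T w0 ↔ x ∈ YY r (X k) T w0 := by
  rw [mem_YY r ρ (X (k + 1)) (hX (k + 1)), mem_YY r ρ (X k) (hX k)]
  have e1 : ∀ g h, (ρ g : Matrix (Fin n) (Fin n) (OO p L)) *ᵥ (pi0 p L • x).1 h -
      (pi0 p L • x).1 (g * h) + (pi0 p L • x).1 g =
      pi0 p L • ((ρ g : Matrix (Fin n) (Fin n) (OO p L)) *ᵥ x.1 h - x.1 (g * h) + x.1 g) := by
    intro g h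
    change (ρ g : Matrix (Fin n) (Fin n) (OO p L)) *ᵥ (pi0 p L • x.1 h) -
      (pi0 p L • x.1 (g * h)) + (pi0 p L • x.1 g) = _
    rw [Matrix.mulVec_smul, smul_add, smul_sub]
  have e2 : ∀ w d, (pi0 p L • x).1 (r w d) -
      ((ρ (r w d) : Matrix (Fin n) (Fin n) (OO p L)) *ᵥ (pi0 p L • x).2 w - (pi0 p L • x).2 w) =
      pi0 p L • (x.1 (r w d) -
        ((ρ (r w d) : Matrix (Fin n) (Fin n) (OO p L)) *ᵥ x.2 w - x.2 w)) := by
    intro w d
    change (pi0 p L • x.1 (r w d)) -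
      ((ρ (r w d) : Matrix (Fin n) (Fin n) (OO p L)) *ᵥ (pi0 p L • x.2 w) -
        (pi0 p L • x.2 w)) = _
    rw [Matrix.mulVec_smul, smul_sub, smul_sub]
  have e3 : ∀ w, rv p L (k + 1) ((pi0 p L • x).2 w) = 0 ↔ rv p L k (x.2 w) = 0 := fun w =>
    rv_pi_smul k (x.2 w)
  have e4 : (Loc1 fun g => rv p L (k + 1) ((pi0 p L • x).1 g)) ↔
      Loc1 fun g => rv p L k (x.1 g) := by
    have e5 : ∀ g g', rv p L (k + 1) ((pi0 p L • x).1 g) = rv p L (k + 1) ((pi0 p L • x).1 g') ↔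
        rv p L k (x.1 g) = rv p L k (x.1 g') := by
      intro g g'
      rw [rv_eq_iff, rv_eq_iff]
      change rv p L (k + 1) (pi0 p L • x.1 g - pi0 p L • x.1 g') = 0 ↔ _
      rw [← smul_sub, rv_pi_smul]
    constructor
    · rintro ⟨W, hW, h⟩
      exact ⟨W, hW, fun g w hw => (e5 _ _).1 (h g w hw)⟩
    · rintro ⟨W, hW, h⟩
      exact ⟨W, hW, fun g w hw => (e5 _ _).2 (h g w hw)⟩
  simp only [e1, e2, e3, e4, rv_pi_smul]

theorem piE_le_YY (k : ℕ) : piE p L ((G → Fin n → OO p L) × (S → Fin n → OO p L)) k ≤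
    YY r (X k) T w0 := by
  rw [← ker_Phi]
  intro x hx
  change Phi k x ∈ Z0 r (X k) T w0
  rw [LinearMap.mem_ker.1 hx]
  exact Submodule.zero_mem _

/-- integral cochains as cochains over `L` -/
def cE (x : (G → Fin n → OO p L) × (S → Fin n → OO p L)) :
    (G → Fin n → L) × (S → Fin n → L) := (fun g => cv (x.1 g), fun w => cv (x.2 w))

include hX in
theorem mem_all [CompactSpace G] [NonarchimedeanGroup G]
    (y : (G → Fin n → OO p L) × (S → Fin n → OO p L)) :
    (∀ k, y ∈ YY r (X k) T w0) ↔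
      cE y ∈ ZTV ((toL p L n).comp ρ) r T ∧ y.2 w0 = 0 := by
  constructor
  · intro h
    have h' := fun k => (mem_YY r ρ (X k) (hX k) T w0).1 (h k)
    have e1 : ∀ g h, (ρ g : Matrix (Fin n) (Fin n) (OO p L)) *ᵥ y.1 h - y.1 (g * h) + y.1 g =
        0 := fun g h => eq_zero_of_rv fun k => (h' k).2.1 g h
    have e2 : ∀ w ∈ T, ∀ d, y.1 (r w d) -
        ((ρ (r w d) : Matrix (Fin n) (Fin n) (OO p L)) *ᵥ y.2 w - y.2 w) = 0 :=
      fun w hw d => eq_zero_of_rv fun k => (h' k).2.2.1 w hw d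
    refine ⟨⟨⟨continuous_cv.comp (continuous_of_rv fun k => (h' k).1), fun g h => ?_⟩,
      fun w hw d => ?_, fun w hw => ?_⟩, eq_zero_of_rv fun k => (h' k).2.2.2.2⟩
    · change cv (y.1 (g * h)) = cv (y.1 g) +
        ((toL p L n (ρ g) : GL (Fin n) L) : Matrix (Fin n) (Fin n) L) *ᵥ cv (y.1 h)
      rw [← cv_mulVec, ← cv_add]
      congr 1
      have := e1 g h
      rw [sub_add_eq_add_sub, sub_eq_zero] at this
      rw [← this, add_comm]
    · change cv (y.1 (r w d)) = ((toL p L n (ρ (r w d)) : GL (Fin n) L) :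
        Matrix (Fin n) (Fin n) L) *ᵥ cv (y.2 w) - cv (y.2 w)
      rw [← cv_mulVec, ← cv_sub]
      congr 1
      exact sub_eq_zero.1 (e2 w hw d)
    · change cv (y.2 w) = 0
      rw [eq_zero_of_rv fun k => (h' k).2.2.2.1 w hw, cv_zero]
  · rintro ⟨⟨⟨h1, h2⟩, h3, h4⟩, h5⟩ k
    rw [mem_YY r ρ (X k) (hX k)]
    have hc : Continuous y.1 := by
      refine continuous_pi fun i => ?_
      exact continuous_induced_rng.2 ((continuous_apply i).comp h1)
    have e1 : ∀ g h, y.1 (g * h) = y.1 g + (ρ g : Matrix (Fin n) (Fin n) (OO p L)) *ᵥ y.1 h := by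
      intro g h
      apply cv_inj
      rw [cv_add, cv_mulVec]
      exact h2 g h
    have e2 : ∀ w ∈ T, ∀ d, y.1 (r w d) =
        (ρ (r w d) : Matrix (Fin n) (Fin n) (OO p L)) *ᵥ y.2 w - y.2 w := by
      intro w hw d
      apply cv_inj
      rw [cv_sub, cv_mulVec]
      exact h3 w hw d
    refine ⟨loc1_rv hc k, fun g h => ?_, fun w hw d => ?_, fun w hw => ?_, ?_⟩
    · rw [e1]
      rw [show ∀ a b : Fin n → OO p L, a - (b + a) + b = 0 from fun a b => by abel, map_zero]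
    · rw [e2 w hw d, sub_self, map_zero]
    · have : y.2 w = 0 := cv_inj (h4 w hw)
      rw [this, map_zero]
    · rw [h5, map_zero]

end All

/-! ### Boundedness -/

section Bdd

theorem small (C : ℝ) : ∃ j : ℕ, ‖((pi0 p L : OO p L) : L)‖ ^ j * C ≤ 1 := by
  have h1 : Filter.Tendsto (fun k : ℕ => ‖((pi0 p L : OO p L) : L)‖ ^ k * C) Filter.atTop
      (𝓝 (0 * C)) :=
    (tendsto_pow_atTop_nhds_zero_of_lt_one (norm_nonneg _) (pi0_lt p L)).mul_const C
  rw [zero_mul] at h1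
  have h2 := h1.eventually (eventually_le_nhds (zero_lt_one (α := ℝ)))
  exact h2.exists

variable {G : Type} [Group G] [TopologicalSpace G] {S : Type} {D : S → Type} [∀ w, Group (D w)]
  (r : ∀ w, D w →* G) (ρ : G →* GL (Fin n) (OO p L))
  {A : Type} [AddCommGroup A] {α : G →* AddMonoid.End A}
  (X : Pair (OO p L) α (MK p L n 1) (MK p L n 1))
  (hX : ∀ g v, X.ρ g (rv p L 1 v) =
      rv p L 1 ((ρ g : Matrix (Fin n) (Fin n) (OO p L)) *ᵥ v))
  (T : Set S) (w0 : S)

include hX in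
theorem bdd [CompactSpace G] (hfin : Finite (Z0 r X T w0))
    (x : (G → Fin n → L) × (S → Fin n → L)) (hx : x ∈ ZTV ((toL p L n).comp ρ) r T)
    (hx0 : x.2 w0 = 0) : ∃ (j : ℕ) (z : (G → Fin n → OO p L) × (S → Fin n → OO p L)),
      (((pi0 p L : OO p L) : L) ^ j) • x = cE z := by
  classical
  obtain ⟨⟨hc, -⟩, hT, hnT⟩ := hx
  obtain ⟨C, hC⟩ := isCompact_univ.exists_bound_of_continuousOn hc.continuousOn
  obtain ⟨j1, hj1⟩ := small (p := p) (L := L) C
  set ϖ : L := ((pi0 p L : OO p L) : L) with hϖ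
  have hϖ0 : ϖ ≠ 0 := pi0_ne p L
  have hϖ1 : ‖ϖ‖ ≤ 1 := (pi0_lt p L).le
  have hf1 : ∀ g i, ‖ϖ ^ j1 * x.1 g i‖ ≤ 1 := by
    intro g i
    rw [norm_mul, norm_pow]
    refine le_trans (mul_le_mul_of_nonneg_left ?_ (pow_nonneg (norm_nonneg _) _)) hj1
    exact (norm_le_pi_norm (x.1 g) i).trans (hC g (Set.mem_univ g))
  have hex : ∀ w, ∃ j : ℕ, ∀ i, ‖ϖ ^ j * (ϖ ^ j1 * x.2 w i)‖ ≤ 1 := by
    intro w
    obtain ⟨j, hj⟩ := small (p := p) (L := L) ‖(ϖ ^ j1) • x.2 w‖
    refine ⟨j, fun i => ?_⟩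
    rw [norm_mul, norm_pow]
    refine le_trans (mul_le_mul_of_nonneg_left ?_ (pow_nonneg (norm_nonneg _) _)) hj
    exact norm_le_pi_norm ((ϖ ^ j1) • x.2 w) i
  let jj : S → ℕ := fun w => Nat.find (hex w)
  have hjj : ∀ w i, ‖ϖ ^ (jj w) * (ϖ ^ j1 * x.2 w i)‖ ≤ 1 := fun w => Nat.find_spec (hex w)
  have hjz : ∀ w, x.2 w = 0 → jj w = 0 := by
    intro w hw
    rw [Nat.find_eq_zero]
    intro i
    rw [hw]
    simp
  choose v' hv' using fun w => exists_cv (p := p) (v := fun i => ϖ ^ (jj w) * (ϖ ^ j1 * x.2 w i))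
    (hjj w)
  have hv0 : ∀ w, jj w ≠ 0 → rv p L 1 (v' w) ≠ 0 := by
    intro w hw h
    obtain ⟨u, hu⟩ := (rv_eq_zero_iff 1 _).1 h
    refine Nat.find_min (hex w) (m := jj w - 1) (by
      change jj w - 1 < jj w
      omega) ?_
    intro i
    have e1 : ϖ * (u i : L) = ϖ ^ (jj w) * (ϖ ^ j1 * x.2 w i) := by
      have := congrFun (hv' w) i
      rw [← hu, pow_one] at this
      exact this
    have e2 : ϖ ^ (jj w) = ϖ * ϖ ^ (jj w - 1) := by
      rw [← pow_succ']
      congr 1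
      omega
    rw [e2, mul_assoc] at e1
    rw [← mul_left_cancel₀ hϖ0 e1]
    exact OO.norm_le (u i)
  have hmemT : ∀ w, jj w ≠ 0 → w ∈ T := by
    intro w hw
    by_contra h
    exact hw (hjz w (hnT w h))
  have hbad : {w | jj w ≠ 0}.Finite := by
    have hF : ∀ w : {w | jj w ≠ 0}, ((0 : G → MK p L n 1),
        (Pi.single w.1 (rv p L 1 (v' w.1)) : S → MK p L n 1)) ∈ Z0 r X T w0 := by
      rintro ⟨w, hw⟩
      have hwT := hmemT w hw
      have hw0 : w ≠ w0 := fun h => hw (hjz w (h ▸ hx0))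
      have hd : ∀ d, X.ρ (r w d) (rv p L 1 (v' w)) - rv p L 1 (v' w) = 0 := by
        intro d
        rw [hX, ← map_sub, rv_eq_zero_iff']
        intro i
        rw [dvd_iff]
        have e1 : cv ((ρ (r w d) : Matrix (Fin n) (Fin n) (OO p L)) *ᵥ v' w - v' w) =
            (ϖ ^ (jj w)) • ((ϖ ^ j1) • x.1 (r w d)) := by
          rw [cv_sub, cv_mulVec, hv', hT w hwT d]
          change ((toL p L n (ρ (r w d)) : GL (Fin n) L) : Matrix (Fin n) (Fin n) L) *ᵥ
            ((ϖ ^ (jj w)) • ((ϖ ^ j1) • x.2 w)) - ((ϖ ^ (jj w)) • ((ϖ ^ j1) • x.2 w)) =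
            (ϖ ^ (jj w)) • ((ϖ ^ j1) • (((toL p L n (ρ (r w d)) : GL (Fin n) L) :
              Matrix (Fin n) (Fin n) L) *ᵥ x.2 w - x.2 w))
          rw [Matrix.mulVec_smul, Matrix.mulVec_smul, smul_sub, smul_sub]
        have e2 := congrFun e1 i
        change ((((ρ (r w d) : Matrix (Fin n) (Fin n) (OO p L)) *ᵥ v' w - v' w) i : OO p L) : L) =
          ϖ ^ (jj w) * (ϖ ^ j1 * x.1 (r w d) i) at e2
        rw [e2, norm_mul, norm_pow, pow_one]
        calc ‖ϖ‖ ^ jj w * ‖ϖ ^ j1 * x.1 (r w d) i‖ ≤ ‖ϖ‖ ^ jj w * 1 :=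
              mul_le_mul_of_nonneg_left (hf1 _ _) (pow_nonneg (norm_nonneg _) _)
          _ ≤ ‖ϖ‖ := by
            rw [mul_one]
            exact pow_le_of_le_one (norm_nonneg _) hϖ1 hw
      refine ⟨⟨⟨⊤, isOpen_univ, fun _ _ _ => rfl⟩, fun g => Submodule.mem_top, fun g h => ?_,
        fun w' hw' => ⟨Submodule.mem_top, fun d => ?_⟩, fun w' hw' => ?_⟩, ?_⟩
      · rw [Submodule.mem_bot]
        change X.ρ g 0 - 0 + 0 = 0
        rw [map_zero, sub_zero, add_zero]
      · rw [Submodule.mem_bot]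
        change 0 - (X.ρ (r w' d) ((Pi.single w (rv p L 1 (v' w)) : S → MK p L n 1) w') -
          (Pi.single w (rv p L 1 (v' w)) : S → MK p L n 1) w') = 0
        by_cases h : w' = w
        · subst h
          rw [Pi.single_eq_same, hd, sub_zero]
        · rw [Pi.single_eq_of_ne h, map_zero, sub_zero, sub_zero]
      · change (Pi.single w (rv p L 1 (v' w)) : S → MK p L n 1) w' = 0
        exact Pi.single_eq_of_ne (show w' ≠ w from fun h => hw' (h ▸ hwT)) _
      · change (Pi.single w (rv p L 1 (v' w)) : S → MK p L n 1) w0 = 0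
        exact Pi.single_eq_of_ne hw0.symm _
    refine Set.finite_coe_iff.1 (Finite.of_injective
      (fun w => (⟨_, hF w⟩ : Z0 r X T w0)) ?_)
    intro w w' h
    have h1 : (Pi.single w.1 (rv p L 1 (v' w.1)) : S → MK p L n 1) =
        Pi.single w'.1 (rv p L 1 (v' w'.1)) := congrArg (fun z => (Subtype.val z).2) h
    by_contra hne
    have hne' : w.1 ≠ w'.1 := fun h => hne (Subtype.ext h)
    have h2 := congrFun h1 w.1
    rw [Pi.single_eq_same, Pi.single_eq_of_ne hne'] at h2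
    exact hv0 w.1 w.2 h2
  obtain ⟨J, hJ⟩ : ∃ J, ∀ w, jj w ≤ J := by
    obtain ⟨J, hJ⟩ := (hbad.image jj).bddAbove
    refine ⟨J, fun w => ?_⟩
    by_cases h : jj w = 0
    · rw [h]
      exact Nat.zero_le _
    · exact hJ ⟨w, h, rfl⟩
  have hm : ∀ w i, ‖ϖ ^ (J + j1) * x.2 w i‖ ≤ 1 := by
    intro w i
    have e1 : ϖ ^ (J + j1) * x.2 w i = ϖ ^ (J - jj w) * (ϖ ^ (jj w) * (ϖ ^ j1 * x.2 w i)) := by
      rw [← mul_assoc, ← mul_assoc, ← pow_add, ← pow_add]
      congr 2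
      have := hJ w
      omega
    rw [e1, norm_mul, norm_pow]
    exact mul_le_one₀ (pow_le_one₀ (norm_nonneg _) hϖ1) (norm_nonneg _) (hjj w i)
  have hf : ∀ g i, ‖ϖ ^ (J + j1) * x.1 g i‖ ≤ 1 := by
    intro g i
    rw [pow_add, mul_assoc, norm_mul, norm_pow]
    exact mul_le_one₀ (pow_le_one₀ (norm_nonneg _) hϖ1) (norm_nonneg _) (hf1 g i)
  choose f hf' using fun g => exists_cv (p := p) (v := fun i => ϖ ^ (J + j1) * x.1 g i) (hf g)
  choose m hm' using fun w => exists_cv (p := p) (v := fun i => ϖ ^ (J + j1) * x.2 w i) (hm w)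
  exact ⟨J + j1, (f, m), Prod.ext (funext fun g => (hf' g).symm) (funext fun w => (hm' w).symm)⟩

end Bdd

/-! ### Dimension -/

section Dim

variable {G : Type} [Group G] [TopologicalSpace G] {S : Type} {D : S → Type} [∀ w, Group (D w)]
  (r : ∀ w, D w →* G) (ρ : G →* GL (Fin n) (OO p L)) (T : Set S) (w0 : S)

open Classical in
/-- the coboundaries and the combinations of `d` elements -/
def Th1 : (Fin n → L) →ₗ[L] ((G → Fin n → L) × (S → Fin n → L)) where
  toFun v := (fun g => ((toL p L n (ρ g) : GL (Fin n) L) : Matrix (Fin n) (Fin n) L) *ᵥ v - v,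
    fun w => if w ∈ T then v else 0)
  map_add' v v' := by
    refine Prod.ext ?_ ?_
    · funext g
      change _ *ᵥ (v + v') - (v + v') = (_ *ᵥ v - v) + (_ *ᵥ v' - v')
      rw [Matrix.mulVec_add]
      abel
    · funext w
      change (if w ∈ T then v + v' else 0) = (if w ∈ T then v else 0) + (if w ∈ T then v' else 0)
      split_ifs <;> simp
  map_smul' a v := by
    refine Prod.ext ?_ ?_
    · funext g
      change _ *ᵥ (a • v) - a • v = a • (_ *ᵥ v - v)
      rw [Matrix.mulVec_smul, smul_sub]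
    · funext w
      change (if w ∈ T then a • v else 0) = a • (if w ∈ T then v else 0)
      split_ifs <;> simp

omit [FiniteDimensional ℚ_[p] L] [Group G] [TopologicalSpace G] in
theorem cE_inj {x y : (G → Fin n → OO p L) × (S → Fin n → OO p L)} (h : cE x = cE y) : x = y :=
  Prod.ext (funext fun g => cv_inj (congrFun (congrArg Prod.fst h) g))
    (funext fun w => cv_inj (congrFun (congrArg Prod.snd h) w))

omit [FiniteDimensional ℚ_[p] L] [Group G] [TopologicalSpace G] in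
theorem cE_smul (a : OO p L) (x : (G → Fin n → OO p L) × (S → Fin n → OO p L)) :
    cE (a • x) = (a : L) • cE x := rfl

omit [FiniteDimensional ℚ_[p] L] [Group G] [TopologicalSpace G] in
theorem cE_sum {ι : Type*} (s : Finset ι) (v : ι → (G → Fin n → OO p L) × (S → Fin n → OO p L)) :
    cE (∑ i ∈ s, v i) = ∑ i ∈ s, cE (v i) := by
  classical
  induction s using Finset.induction_on with
  | empty => rfl
  | insert a s ha ih =>
    rw [Finset.sum_insert ha, Finset.sum_insert ha, ← ih]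
    rfl

omit [FiniteDimensional ℚ_[p] L] in
theorem continuous_toL (hρ : Continuous ρ) : Continuous fun g =>
    ((toL p L n (ρ g) : GL (Fin n) L) : Matrix (Fin n) (Fin n) L) := by
  have h1 : Continuous fun g => (ρ g : Matrix (Fin n) (Fin n) (OO p L)) :=
    Units.continuous_val.comp hρ
  exact h1.matrix_map continuous_subtype_val

omit [FiniteDimensional ℚ_[p] L] in
theorem Th1_mem (hρ : Continuous ρ) (v : Fin n → L) :
    Th1 ρ T v ∈ ZTV ((toL p L n).comp ρ) r T := by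
  classical
  refine ⟨⟨?_, fun g h => ?_⟩, fun w hw d => ?_, fun w hw => ?_⟩
  · exact ((continuous_toL ρ hρ).matrix_mulVec continuous_const).sub continuous_const
  · change ((toL p L n (ρ (g * h)) : GL (Fin n) L) : Matrix (Fin n) (Fin n) L) *ᵥ v - v =
      (((toL p L n (ρ g) : GL (Fin n) L) : Matrix (Fin n) (Fin n) L) *ᵥ v - v) +
      ((toL p L n (ρ g) : GL (Fin n) L) : Matrix (Fin n) (Fin n) L) *ᵥ
      (((toL p L n (ρ h) : GL (Fin n) L) : Matrix (Fin n) (Fin n) L) *ᵥ v - v)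
    rw [map_mul, map_mul, Units.val_mul, Matrix.mulVec_sub, Matrix.mulVec_mulVec]
    abel
  · change ((toL p L n (ρ (r w d)) : GL (Fin n) L) : Matrix (Fin n) (Fin n) L) *ᵥ v - v =
      ((toL p L n (ρ (r w d)) : GL (Fin n) L) : Matrix (Fin n) (Fin n) L) *ᵥ
        (if w ∈ T then v else 0) - (if w ∈ T then v else 0)
    rw [if_pos hw]
  · exact if_neg hw

theorem exists_bdd {d : ℕ} (a : Fin d → L) : ∃ (j : ℕ) (b : Fin d → OO p L),
    ∀ i, (b i : L) = ((pi0 p L : OO p L) : L) ^ j * a i := by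
  obtain ⟨j, hj⟩ := small (p := p) (L := L) ‖a‖
  refine ⟨j, fun i => ⟨((pi0 p L : OO p L) : L) ^ j * a i, ?_⟩, fun i => rfl⟩
  change ‖((pi0 p L : OO p L) : L) ^ j * a i‖ ≤ 1
  rw [norm_mul, norm_pow]
  exact le_trans (mul_le_mul_of_nonneg_left (norm_le_pi_norm a i)
    (pow_nonneg (norm_nonneg _) _)) hj

variable {A : Type} [AddCommGroup A] {α : G →* AddMonoid.End A}
  (X : ∀ k, Pair (OO p L) α (MK p L n k) (MK p L n k))
  (hX : ∀ k g v, (X k).ρ g (rv p L k v) =
      rv p L k ((ρ g : Matrix (Fin n) (Fin n) (OO p L)) *ᵥ v))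

include hX in
theorem dim [CompactSpace G] [NonarchimedeanGroup G] (hρ : Continuous ρ) (hw0 : w0 ∈ T)
    (hfin : Finite (Z0 r (X 1) T w0)) {d : ℕ}
    (y : Fin d → (G → Fin n → OO p L) × (S → Fin n → OO p L))
    (hy : ∀ i k, y i ∈ YY r (X k) T w0)
    (hind : ∀ a : Fin d → OO p L, ∑ i, a i • y i = 0 → a = 0)
    (hgen : ∀ z, (∀ k, z ∈ YY r (X k) T w0) → ∃ a : Fin d → OO p L, z = ∑ i, a i • y i) :
    FiniteDimensional L (ZTV ((toL p L n).comp ρ) r T) ∧
      Module.finrank L (ZTV ((toL p L n).comp ρ) r T) = n + d := by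
  classical
  have hy' := fun i => (mem_all r ρ X hX T w0 (y i)).1 (hy i)
  set ϖ : L := ((pi0 p L : OO p L) : L) with hϖ
  have hϖ0 : ϖ ≠ 0 := pi0_ne p L
  let Θ : ((Fin n → L) × (Fin d → L)) →ₗ[L] ((G → Fin n → L) × (S → Fin n → L)) :=
    (Th1 ρ T).coprod (Fintype.linearCombination L fun i => cE (y i))
  have hΘ : ∀ v a, Θ (v, a) = Th1 ρ T v + ∑ i, a i • cE (y i) := by
    intro v a
    simp only [Θ, LinearMap.coprod_apply, Fintype.linearCombination_apply]
  have hsum0 : ∀ a : Fin d → L, (∑ i, a i • cE (y i)).2 w0 = 0 := by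
    intro a
    have e : (∑ i, a i • cE (y i)).2 w0 = ∑ i, a i • (cE (y i)).2 w0 := by
      rw [Prod.snd_sum, Finset.sum_apply]
      rfl
    rw [e]
    refine Finset.sum_eq_zero fun i _ => ?_
    change a i • cv ((y i).2 w0) = 0
    rw [(hy' i).2, cv_zero, smul_zero]
  have hinj : Function.Injective Θ := by
    rw [← LinearMap.ker_eq_bot, eq_bot_iff]
    rintro ⟨v, a⟩ h
    rw [LinearMap.mem_ker, hΘ] at h
    have h1 : v = 0 := by
      have := congrFun (congrArg Prod.snd h) w0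
      rw [Prod.snd_add, Pi.add_apply, hsum0, add_zero] at this
      change (if w0 ∈ T then v else 0) = 0 at this
      rwa [if_pos hw0] at this
    subst h1
    rw [map_zero, zero_add] at h
    obtain ⟨j, b, hb⟩ := exists_bdd (p := p) a
    have h2 : ∑ i, b i • y i = 0 := by
      apply cE_inj
      rw [cE_sum]
      have e : ∑ i, cE (b i • y i) = ϖ ^ j • ∑ i, a i • cE (y i) := by
        rw [Finset.smul_sum]
        refine Finset.sum_congr rfl fun i _ => ?_
        rw [cE_smul, hb, mul_smul]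
      rw [e, h, smul_zero]
      rfl
    have h3 := hind b h2
    have h4 : a = 0 := by
      funext i
      have := hb i
      rw [h3] at this
      have h5 : (0 : L) = ϖ ^ j * a i := this
      exact (mul_eq_zero.1 h5.symm).resolve_left (pow_ne_zero _ hϖ0)
    rw [h4]
    exact Submodule.zero_mem _
  have hrange : LinearMap.range Θ = ZTV ((toL p L n).comp ρ) r T := by
    refine le_antisymm ?_ ?_
    · rintro _ ⟨⟨v, a⟩, rfl⟩
      rw [hΘ]
      exact Submodule.add_mem _ (Th1_mem r ρ T hρ v)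
        (Submodule.sum_mem _ fun i _ => Submodule.smul_mem _ _ (hy' i).1)
    · intro x hx
      have hx' : x - Th1 ρ T (x.2 w0) ∈ ZTV ((toL p L n).comp ρ) r T :=
        Submodule.sub_mem _ hx (Th1_mem r ρ T hρ _)
      have hx0 : (x - Th1 ρ T (x.2 w0)).2 w0 = 0 := by
        change x.2 w0 - (if w0 ∈ T then x.2 w0 else 0) = 0
        rw [if_pos hw0, sub_self]
      obtain ⟨j, z, hz⟩ := bdd r ρ (X 1) (hX 1) T w0 hfin _ hx' hx0
      have hz' : ∀ k, z ∈ YY r (X k) T w0 := by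
        rw [mem_all r ρ X hX T w0]
        refine ⟨hz ▸ Submodule.smul_mem _ _ hx', cv_inj ?_⟩
        have := congrFun (congrArg Prod.snd hz) w0
        rw [Prod.smul_snd, Pi.smul_apply, hx0, smul_zero] at this
        rw [cv_zero, this]
        rfl
      obtain ⟨a, ha⟩ := hgen z hz'
      refine ⟨(x.2 w0, fun i => (ϖ ^ j)⁻¹ * (a i : L)), ?_⟩
      rw [hΘ]
      have e : ∑ i, ((ϖ ^ j)⁻¹ * (a i : L)) • cE (y i) = (ϖ ^ j)⁻¹ • cE z := by
        rw [ha, cE_sum, Finset.smul_sum]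
        refine Finset.sum_congr rfl fun i _ => ?_
        rw [cE_smul, mul_smul]
      rw [e, ← hz, smul_smul, inv_mul_cancel₀ (pow_ne_zero _ hϖ0), one_smul]
      abel
  rw [← hrange]
  refine ⟨inferInstance, ?_⟩
  rw [LinearMap.finrank_range_of_inj hinj, Module.finrank_prod, Module.finrank_fin_fun,
    Module.finrank_fin_fun]

end Dim

/-! ### Change of basis -/

section Conj

variable {G : Type} [Group G] [TopologicalSpace G] {S : Type} {D : S → Type} [∀ w, Group (D w)]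
  (r : ∀ w, D w →* G) (V : G →* GL (Fin n) L) (S₀ : GL (Fin n) L)
  (ρ : G →* GL (Fin n) (OO p L)) (hV : ∀ g, toL p L n (ρ g) = S₀ * V g * S₀⁻¹) (T : Set S)

/-- change of basis -/
def CS : ((G → Fin n → L) × (S → Fin n → L)) →ₗ[L] ((G → Fin n → L) × (S → Fin n → L)) where
  toFun x := (fun g => (S₀ : Matrix (Fin n) (Fin n) L) *ᵥ x.1 g,
    fun w => (S₀ : Matrix (Fin n) (Fin n) L) *ᵥ x.2 w)
  map_add' x y := by
    refine Prod.ext ?_ ?_
    · funext g
      exact Matrix.mulVec_add (S₀ : Matrix (Fin n) (Fin n) L) (x.1 g) (y.1 g)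
    · funext w
      exact Matrix.mulVec_add (S₀ : Matrix (Fin n) (Fin n) L) (x.2 w) (y.2 w)
  map_smul' a x := by
    refine Prod.ext ?_ ?_
    · funext g
      exact Matrix.mulVec_smul (S₀ : Matrix (Fin n) (Fin n) L) a (x.1 g)
    · funext w
      exact Matrix.mulVec_smul (S₀ : Matrix (Fin n) (Fin n) L) a (x.2 w)

omit [Group G] [TopologicalSpace G] in
theorem CS_inv (x : (G → Fin n → L) × (S → Fin n → L)) : CS S₀⁻¹ (CS S₀ x) = x := by
  refine Prod.ext ?_ ?_
  · funext g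
    change ((S₀⁻¹ : GL (Fin n) L) : Matrix (Fin n) (Fin n) L) *ᵥ
      ((S₀ : Matrix (Fin n) (Fin n) L) *ᵥ x.1 g) = x.1 g
    rw [Matrix.mulVec_mulVec, ← Units.val_mul, inv_mul_cancel, Units.val_one, Matrix.one_mulVec]
  · funext w
    change ((S₀⁻¹ : GL (Fin n) L) : Matrix (Fin n) (Fin n) L) *ᵥ
      ((S₀ : Matrix (Fin n) (Fin n) L) *ᵥ x.2 w) = x.2 w
    rw [Matrix.mulVec_mulVec, ← Units.val_mul, inv_mul_cancel, Units.val_one, Matrix.one_mulVec]

theorem CS_mem {V V' : G →* GL (Fin n) L} (hVV : ∀ g, V' g * S₀ = S₀ * V g)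
    {x : (G → Fin n → L) × (S → Fin n → L)} (hx : x ∈ ZTV V r T) : CS S₀ x ∈ ZTV V' r T := by
  obtain ⟨⟨h1, h2⟩, h3, h4⟩ := hx
  have hVV' : ∀ g v, (V' g : Matrix (Fin n) (Fin n) L) *ᵥ
      ((S₀ : Matrix (Fin n) (Fin n) L) *ᵥ v) =
      (S₀ : Matrix (Fin n) (Fin n) L) *ᵥ ((V g : Matrix (Fin n) (Fin n) L) *ᵥ v) := by
    intro g v
    rw [Matrix.mulVec_mulVec, ← Units.val_mul, hVV, Units.val_mul, ← Matrix.mulVec_mulVec]
  refine ⟨⟨?_, fun g h => ?_⟩, fun w hw d => ?_, fun w hw => ?_⟩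
  · exact continuous_const.matrix_mulVec h1
  · change (S₀ : Matrix (Fin n) (Fin n) L) *ᵥ x.1 (g * h) =
      (S₀ : Matrix (Fin n) (Fin n) L) *ᵥ x.1 g + (V' g : Matrix (Fin n) (Fin n) L) *ᵥ
        ((S₀ : Matrix (Fin n) (Fin n) L) *ᵥ x.1 h)
    rw [h2, Matrix.mulVec_add, hVV']
  · change (S₀ : Matrix (Fin n) (Fin n) L) *ᵥ x.1 (r w d) =
      (V' (r w d) : Matrix (Fin n) (Fin n) L) *ᵥ ((S₀ : Matrix (Fin n) (Fin n) L) *ᵥ x.2 w) -
        (S₀ : Matrix (Fin n) (Fin n) L) *ᵥ x.2 w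
    rw [h3 w hw d, Matrix.mulVec_sub, hVV']
  · change (S₀ : Matrix (Fin n) (Fin n) L) *ᵥ x.2 w = 0
    rw [h4 w hw, Matrix.mulVec_zero]

/-- the isomorphism -/
def CSe {V V' : G →* GL (Fin n) L} (hVV : ∀ g, V' g * S₀ = S₀ * V g) :
    ZTV V r T ≃ₗ[L] ZTV V' r T where
  toFun x := ⟨CS S₀ x, CS_mem r S₀ T hVV x.2⟩
  map_add' x y := Subtype.ext (map_add _ _ _)
  map_smul' a x := Subtype.ext (map_smul _ _ _)
  invFun x := ⟨CS S₀⁻¹ x, CS_mem r S₀⁻¹ T (V := V') (V' := V) (fun g => by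
    rw [eq_inv_mul_iff_mul_eq, ← mul_assoc, ← hVV, mul_assoc, mul_inv_cancel, mul_one]) x.2⟩
  left_inv x := Subtype.ext (CS_inv S₀ _)
  right_inv x := Subtype.ext (by
    have := CS_inv S₀⁻¹ x.1
    rwa [inv_inv] at this)

end Conj

end LLIMG

open LLIMG in
theorem stLimG (h : StLimA) : StLimG := by
  intro p _ L _ _ _ G _ _ _ _ _ S D _ r n V S₀ ρ hρ hV A _ α X hX T hT hfin
  obtain ⟨w0, hw0⟩ := hT
  have hcard : ∀ k, ((X k).Br T ⊥ ⊤).toAddSubgroup.relIndex ((X k).Zr r T ⊥ ⊤).toAddSubgroup =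
      Nat.card (Z0 r (X k) T w0) := fun k => relIndex_Z0 r (X k) T w0 hw0
  have hfin1 : Finite (Z0 r (X 1) T w0) := by
    refine Nat.finite_of_card_ne_zero ?_
    rw [← hcard]
    exact hfin 1
  obtain ⟨d, y, K, hy, hind, hgen, -, hK⟩ := h p L
    ((G → Fin n → OO p L) × (S → Fin n → OO p L)) (fun k => YY r (X k) T w0)
    (fun x hx => by
      have h1 : ∀ v : Fin n → OO p L, pi0 p L • v = 0 → v = 0 := fun v hv => by
        funext i
        have := congrFun hv i
        exact (mul_eq_zero.1 this).resolve_left (pi0_ne' p L)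
      exact Prod.ext (funext fun g => h1 _ (congrFun (congrArg Prod.fst hx) g))
        (funext fun w => h1 _ (congrFun (congrArg Prod.snd hx) w)))
    (fun x hx => by
      have h1 : ∀ k, Phi k x = 0 := fun k => by
        have := hx k
        rw [← ker_Phi] at this
        exact LinearMap.mem_ker.1 this
      exact Prod.ext (funext fun g => eq_zero_of_rv fun k => congrFun (congrArg Prod.fst (h1 k)) g)
        (funext fun w => eq_zero_of_rv fun k => congrFun (congrArg Prod.snd (h1 k)) w))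
    (fun k => piE_le_YY r X T w0 k)
    (fun k => YY_succ_le r ρ X hX T w0 k)
    (fun k x => pi_smul_mem r ρ X hX T w0 k x)
    (fun k => by
      rw [relIndex_YY, ← hcard]
      exact hfin k)
  obtain ⟨hd1, hd2⟩ := dim r ρ T w0 X hX hρ hw0 hfin1 y hy hind hgen
  let e : ZTV V r T ≃ₗ[L] ZTV ((toL p L n).comp ρ) r T := CSe r S₀ T (fun g => by
    change toL p L n (ρ g) * S₀ = S₀ * V g
    rw [hV, inv_mul_cancel_right])
  have hfd : FiniteDimensional L (ZTV V r T) := e.symm.finiteDimensional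
  have hfr : Module.finrank L (ZTV V r T) = n + d := by
    rw [e.finrank_eq, hd2]
  refine ⟨hfd, by omega, K, fun k hk => ?_⟩
  have h1 := hK k hk
  rw [relIndex_YY, relIndex_YY] at h1
  rw [hcard, hcard, h1, hfr, pow_add]
  ring

end BKMet
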