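import Pool.Agent.Lib.MP_7c08ba_nt.Met.StL

set_option autoImplicit false

/-!
Metabolic parity, module LINK: one dimensional subquotients of `(𝒪/π^k)^n`.
-/

noncomputable section

namespace BKMet

open Matrix

namespace LLINK

variable {p : ℕ} [Fact p.Prime] {L : Type} [NormedField L] [NormedAlgebra ℚ_[p] L]
  [FiniteDimensional ℚ_[p] L] {n : ℕ}

theorem rv_surj (k : ℕ) (m : MK p L n k) : ∃ v : Fin n → OO p L, rv p L k v = m := by
  refine ⟨fun i => (Ideal.Quotient.mk_surjective (m i)).choose, ?_⟩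
  funext i
  exact (Ideal.Quotient.mk_surjective (m i)).choose_spec

theorem rv_pow (k : ℕ) (v : Fin n → OO p L) : rv p L k (pi0 p L ^ k • v) = 0 := by
  funext i
  change Ideal.Quotient.mk (Ideal.span {pi0 p L ^ k}) (pi0 p L ^ k * v i) = 0
  rw [Ideal.Quotient.eq_zero_iff_mem, Ideal.mem_span_singleton]
  exact dvd_mul_right _ _

end LLINK

open LLINK

/-- **Module LINK.** -/
theorem stLink (h : StLines) : StLink := by
  intro p _ L _ _ _ G _ n ρ Ψ hE D _ _ f χ ρ' B lam k X hX U hU hχ hΨ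
  have hfin : Finite (MK p L n k) := Pi.finite
  refine h (OO p L) p D χ (MK p L n k) (MK p L n k) X instAlgRes U hU hχ ?_
  intro P Q hP hQ hPQ
  obtain ⟨m₀, hm₀Q, hm₀P⟩ := SetLike.exists_of_lt hPQ
  obtain ⟨v₀, rfl⟩ := rv_surj k m₀
  have hst : ∀ N : Submodule (OO p L) (MK p L n k), X.Stable N →
      ∀ g ∈ Set.range f, ∀ x ∈ N.comap (rv p L k),
        (ρ g : Matrix (Fin n) (Fin n) (OO p L)) *ᵥ x ∈ N.comap (rv p L k) := by
    rintro N hN _ ⟨d, rfl⟩ x hx
    rw [Submodule.mem_comap] at hx ⊢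
    have e := hX.act d x
    rw [MonoidHom.comp_apply] at e
    rw [← e]
    exact hN d _ hx
  obtain ⟨x, hxQ, hxP, hpx, ψ, hψ, hψ'⟩ := hE (Set.range f) (P.comap (rv p L k))
    (Q.comap (rv p L k)) (hst P hP) (hst Q hQ)
    (lt_of_le_of_ne (Submodule.comap_mono hPQ.le) fun heq => hm₀P (by
      rw [← Submodule.mem_comap, heq, Submodule.mem_comap]
      exact hm₀Q))
    ⟨k, fun x => by
      rw [Submodule.mem_comap, rv_pow]
      exact P.zero_mem⟩
  rw [Submodule.mem_comap] at hxQ hxP hpx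
  refine ⟨rv p L k x, hxQ, hxP, ?_, ψ.comp f, fun u hu => hΨ ψ hψ u hu, ?_⟩
  · intro a ha
    rw [pi0_span, Ideal.mem_span_singleton] at ha
    obtain ⟨b, rfl⟩ := ha
    rw [mul_comm, mul_smul, ← LinearMap.map_smul]
    exact P.smul_mem b hpx
  · intro d a ha
    have e := hψ' (f d) ⟨d, rfl⟩ a ha
    rw [Submodule.mem_comap, map_sub, LinearMap.map_smul] at e
    have e2 := hX.act d x
    rw [MonoidHom.comp_apply] at e2
    rw [e2]
    exact e

end BKMet
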