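import Pool.Agent.Lib.MP_7c08ba_nt.Met.StL

set_option autoImplicit false

/-!
Metabolic parity, part L, module TRI: triangular representations have eigenvectors.
-/

noncomputable section

namespace BKMet

open Matrix

namespace LTRI

/-! ### Generalities -/

theorem exists_last {Pr : ℕ → Prop} (h0 : Pr 0) {N : ℕ} (hN : ¬ Pr N) :
    ∃ s < N, Pr s ∧ ¬ Pr (s + 1) := by
  by_contra hcon
  push Not at hcon
  refine hN ?_
  have h : ∀ s, s ≤ N → Pr s := by
    intro s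
    induction s with
    | zero => intro _; exact h0
    | succ s ih => intro hs; exact hcon s hs (ih (by omega))
  exact h N le_rfl

variable {p : ℕ} [Fact p.Prime] {L : Type} [NormedField L] [NormedAlgebra ℚ_[p] L]
  {G : Type} [Group G] {n : ℕ}

section

variable (p) in
include p in
theorem sum_lt {ι : Type*} (s : Finset ι) (f : ι → L) {c : ℝ} (hc : 0 < c)
    (h : ∀ i ∈ s, ‖f i‖ < c) : ‖∑ i ∈ s, f i‖ < c := by
  have hu := BKND.DG.ultra (p := p) L
  refine Finset.sum_induction f (fun x => ‖x‖ < c) (fun a b ha hb => ?_) ?_ h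
  · exact (IsUltrametricDist.norm_add_le_max a b).trans_lt (max_lt ha hb)
  · rw [norm_zero]
    exact hc

variable (p) in
include p in
theorem sum_le {ι : Type*} (s : Finset ι) (f : ι → L) {c : ℝ} (hc : 0 ≤ c)
    (h : ∀ i ∈ s, ‖f i‖ ≤ c) : ‖∑ i ∈ s, f i‖ ≤ c := by
  have hu := BKND.DG.ultra (p := p) L
  refine Finset.sum_induction f (fun x => ‖x‖ ≤ c) (fun a b ha hb => ?_) ?_ h
  · exact (IsUltrametricDist.norm_add_le_max a b).trans (max_le ha hb)
  · rw [norm_zero]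
    exact hc

end

/-! ### The diagonal characters -/

/-- the matrices in the basis given by `A` -/
def MM (V : G →* GL (Fin n) L) (A : GL (Fin n) L) (g : G) : Matrix (Fin n) (Fin n) L :=
  ((A * V g * A⁻¹ : GL (Fin n) L) : Matrix (Fin n) (Fin n) L)

omit [Fact p.Prime] [NormedAlgebra ℚ_[p] L] in
theorem MM_one (V : G →* GL (Fin n) L) (A : GL (Fin n) L) : MM V A 1 = 1 := by
  unfold MM
  rw [map_one, mul_one, mul_inv_cancel]
  rfl

theorem MM_mul (V : G →* GL (Fin n) L) (A : GL (Fin n) L) (g h : G) :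
    MM V A (g * h) = MM V A g * MM V A h := by
  unfold MM
  have e : A * V (g * h) * A⁻¹ = (A * V g * A⁻¹) * (A * V h * A⁻¹) := by
    rw [map_mul]
    group
  rw [e]
  rfl

variable (p) in
/-- a diagonal entry -/
def dO {V : G →* GL (Fin n) L} {A : GL (Fin n) L} (hT : Tri V A) (i : Fin n) (g : G) : OO p L :=
  ⟨MM V A g i i, (hT g i i).1⟩

variable (p) in
include p in
theorem dO_mul {V : G →* GL (Fin n) L} {A : GL (Fin n) L} (hT : Tri V A) (i : Fin n) (g h : G) :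
    ‖MM V A (g * h) i i - MM V A g i i * MM V A h i i‖ < 1 := by
  have e : MM V A (g * h) i i - MM V A g i i * MM V A h i i =
      ∑ j ∈ Finset.univ.erase i, MM V A g i j * MM V A h j i := by
    rw [MM_mul, Matrix.mul_apply, ← Finset.add_sum_erase _ _ (Finset.mem_univ i)]
    ring
  rw [e]
  refine sum_lt p _ _ one_pos fun j hj => ?_
  rw [norm_mul]
  rcases lt_or_gt_of_ne (Finset.ne_of_mem_erase hj) with h1 | h1
  · have h2 : ‖MM V A g i j‖ < 1 := (hT g i j).2 h1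
    have h3 : ‖MM V A h j i‖ ≤ 1 := (hT h j i).1
    exact mul_lt_one_of_nonneg_of_lt_one_left (norm_nonneg _) h2 h3
  · have h2 : ‖MM V A h j i‖ < 1 := (hT h j i).2 h1
    have h3 : ‖MM V A g i j‖ ≤ 1 := (hT g i j).1
    exact mul_lt_one_of_nonneg_of_lt_one_right h3 (norm_nonneg _) h2

variable (p) in
/-- a diagonal character -/
def psi {V : G →* GL (Fin n) L} {A : GL (Fin n) L} (hT : Tri V A) (i : Fin n) :
    G →* (kk p L)ˣ :=
  MonoidHom.toHomUnits
    { toFun := fun g => IsLocalRing.residue (OO p L) (dO p hT i g)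
      map_one' := by
        have e : dO p hT i 1 = 1 := Subtype.ext (by
          change MM V A 1 i i = 1
          rw [MM_one, Matrix.one_apply_eq])
        rw [e, map_one]
      map_mul' := fun g h => by
        rw [← map_mul, ← sub_eq_zero, ← map_sub, IsLocalRing.residue_eq_zero_iff, OO.mem_max]
        exact dO_mul p hT i g h }

theorem psi_spec {V : G →* GL (Fin n) L} {A : GL (Fin n) L} (hT : Tri V A) (i : Fin n) (g : G)
    (a : OO p L) (ha : (a : L) = MM V A g i i) :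
    IsLocalRing.residue (OO p L) a = ((psi p hT i g : (kk p L)ˣ) : kk p L) := by
  have e : a = dO p hT i g := Subtype.ext ha
  rw [e]
  rfl

/-! ### Coordinates -/

/-- the coordinates of a vector -/
def yv (C : GL (Fin n) L) (x : Fin n → OO p L) : Fin n → L :=
  (C : Matrix (Fin n) (Fin n) L) *ᵥ fun i => (x i : L)

theorem yv_sub (C : GL (Fin n) L) (x x' : Fin n → OO p L) : yv C (x - x') = yv C x - yv C x' := by
  unfold yv
  rw [← Matrix.mulVec_sub]
  rfl

theorem yv_smul (C : GL (Fin n) L) (a : OO p L) (x : Fin n → OO p L) :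
    yv C (a • x) = (a : L) • yv C x := by
  unfold yv
  rw [← Matrix.mulVec_smul]
  rfl

theorem coe_mulVec (N : GL (Fin n) (OO p L)) (x : Fin n → OO p L) :
    (fun i => (((N : Matrix (Fin n) (Fin n) (OO p L)) *ᵥ x) i : L)) =
      ((toL p L n N : GL (Fin n) L) : Matrix (Fin n) (Fin n) L) *ᵥ fun i => (x i : L) := by
  funext i
  exact RingHom.map_mulVec (OO p L).subtype (N : Matrix (Fin n) (Fin n) (OO p L)) x i

theorem yv_act {V : G →* GL (Fin n) L} {A S : GL (Fin n) L} {ρ : G →* GL (Fin n) (OO p L)}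
    (hρ : ∀ g, toL p L n (ρ g) = S * V g * S⁻¹) (g : G) (x : Fin n → OO p L) :
    yv (A * S⁻¹) ((ρ g : Matrix (Fin n) (Fin n) (OO p L)) *ᵥ x) =
      MM V A g *ᵥ yv (A * S⁻¹) x := by
  unfold yv
  rw [coe_mulVec, Matrix.mulVec_mulVec]
  unfold MM
  rw [Matrix.mulVec_mulVec, hρ]
  congr 1
  have e : (A * S⁻¹) * (S * V g * S⁻¹) = (A * V g * A⁻¹) * (A * S⁻¹) := by group
  exact congrArg (fun z : GL (Fin n) L => (z : Matrix (Fin n) (Fin n) L)) e

/-- the filtration -/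
def inL (C : GL (Fin n) L) (k : L) (j : ℕ) (x : Fin n → OO p L) : Prop :=
  (∀ i, ‖yv C x i‖ ≤ ‖k‖) ∧ ∀ i : Fin n, n ≤ (i : ℕ) + j → ‖yv C x i‖ < ‖k‖

/-- a bound of the coordinates -/
theorem yv_le (C : GL (Fin n) L) : ∃ B : ℝ, ∀ (x : Fin n → OO p L) (i : Fin n),
    ‖yv C x i‖ ≤ B := by
  refine ⟨∑ i, ∑ j, ‖(C : Matrix (Fin n) (Fin n) L) i j‖, fun x i => ?_⟩
  have e : yv C x i = ∑ j, (C : Matrix (Fin n) (Fin n) L) i j * (x j : L) := rfl
  have h1 : ‖yv C x i‖ ≤ ∑ j, ‖(C : Matrix (Fin n) (Fin n) L) i j‖ := by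
    rw [e]
    refine (norm_sum_le _ _).trans (Finset.sum_le_sum fun j _ => ?_)
    rw [norm_mul]
    exact mul_le_of_le_one_right (norm_nonneg _) (OO.norm_le (x j))
  refine h1.trans ?_
  exact Finset.single_le_sum (f := fun i => ∑ j, ‖(C : Matrix (Fin n) (Fin n) L) i j‖)
    (fun i _ => Finset.sum_nonneg fun j _ => norm_nonneg _) (Finset.mem_univ i)

/-- a bound of the vector by the coordinates -/
theorem le_yv (C : GL (Fin n) L) : ∃ B : ℝ, 0 ≤ B ∧ ∀ (x : Fin n → OO p L) (c : ℝ), 0 ≤ c →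
    (∀ i, ‖yv C x i‖ ≤ c) → ∀ i, ‖(x i : L)‖ ≤ B * c := by
  set D : Matrix (Fin n) (Fin n) L := ((C⁻¹ : GL (Fin n) L) : Matrix (Fin n) (Fin n) L) with hD
  refine ⟨∑ i, ∑ j, ‖D i j‖, by positivity, fun x c hc h i => ?_⟩
  have e : (fun i => (x i : L)) = D *ᵥ yv C x := by
    unfold yv
    rw [Matrix.mulVec_mulVec, hD]
    have e2 : ((C⁻¹ : GL (Fin n) L) : Matrix (Fin n) (Fin n) L) *
        (C : Matrix (Fin n) (Fin n) L) = 1 := by
      have := congrArg (fun z : GL (Fin n) L => (z : Matrix (Fin n) (Fin n) L))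
        (inv_mul_cancel C)
      exact this
    rw [e2, Matrix.one_mulVec]
  have e3 : (x i : L) = ∑ j, D i j * yv C x j := congrFun e i
  rw [e3, Finset.sum_mul]
  have h1 : ‖∑ j, D i j * yv C x j‖ ≤ (∑ j, ‖D i j‖) * c := by
    rw [Finset.sum_mul]
    refine (norm_sum_le _ _).trans (Finset.sum_le_sum fun j _ => ?_)
    rw [norm_mul]
    exact mul_le_mul_of_nonneg_left (h j) (norm_nonneg _)
  refine h1.trans ?_
  exact Finset.single_le_sum (f := fun i => (∑ j, ‖D i j‖) * c)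
    (fun i _ => by positivity) (Finset.mem_univ i)

variable [FiniteDimensional ℚ_[p] L]

variable (p L) in
include p in
theorem exists_large (B : ℝ) : ∃ k : L, k ≠ 0 ∧ B ≤ ‖k‖ := by
  have h0 := pi0_pos p L
  have h1 := pi0_lt p L
  obtain ⟨T, hT⟩ := exists_pow_lt_of_lt_one (show (0 : ℝ) < 1 / (|B| + 1) by positivity) h1
  refine ⟨(((pi0 p L : OO p L) : L) ^ T)⁻¹, inv_ne_zero (pow_ne_zero _ (pi0_ne p L)), ?_⟩
  rw [norm_inv, norm_pow]
  have h2 : |B| + 1 < (‖((pi0 p L : OO p L) : L)‖ ^ T)⁻¹ := by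
    rw [lt_inv_comm₀ (by positivity) (pow_pos h0 T)]
    simpa using hT
  linarith [le_abs_self B]

theorem le_mul_pi {x k : L} (hk : k ≠ 0) (h : ‖x‖ < ‖k‖) : ‖x‖ ≤ ‖k * (pi0 p L : OO p L)‖ := by
  have h0 : 0 < ‖k‖ := norm_pos_iff.2 hk
  have h1 := pi0_max p L (x / k) (by rwa [norm_div, div_lt_one h0])
  rw [norm_div, div_le_iff₀ h0] at h1
  rw [norm_mul]
  linarith

theorem inL_n {C : GL (Fin n) L} {k : L} (hk : k ≠ 0) {x : Fin n → OO p L}
    (h : inL C k n x) : inL C (k * (pi0 p L : OO p L)) 0 x := by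
  refine ⟨fun i => le_mul_pi hk (h.2 i (by omega)), fun i hi => ?_⟩
  have := i.2
  omega

theorem inL_pi {C : GL (Fin n) L} {k : L} (hk : k ≠ 0) {j : ℕ} {x : Fin n → OO p L}
    (h : inL C k j x) (j' : ℕ) : inL C k j' (pi0 p L • x) := by
  have h0 : 0 < ‖k‖ := norm_pos_iff.2 hk
  have h1 := pi0_lt p L
  have h2 : ∀ i, ‖yv C (pi0 p L • x) i‖ < ‖k‖ := by
    intro i
    rw [yv_smul, Pi.smul_apply, smul_eq_mul, norm_mul]
    calc ‖((pi0 p L : OO p L) : L)‖ * ‖yv C x i‖ ≤ ‖((pi0 p L : OO p L) : L)‖ * ‖k‖ :=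
          mul_le_mul_of_nonneg_left (h.1 i) (norm_nonneg _)
      _ < 1 * ‖k‖ := mul_lt_mul_of_pos_right h1 h0
      _ = ‖k‖ := one_mul _
  exact ⟨fun i => (h2 i).le, fun i _ => h2 i⟩

omit [FiniteDimensional ℚ_[p] L] in
theorem inL_act {V : G →* GL (Fin n) L} {A S : GL (Fin n) L} (hT : Tri V A)
    {ρ : G →* GL (Fin n) (OO p L)} (hρ : ∀ g, toL p L n (ρ g) = S * V g * S⁻¹) {k : L}
    (hk : k ≠ 0) {j : ℕ} {i : Fin n} (hi : (i : ℕ) + (j + 1) = n) {x : Fin n → OO p L}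
    (h : inL (A * S⁻¹) k j x) (g : G) (a : OO p L)
    (ha : IsLocalRing.residue (OO p L) a = ((psi p hT i g : (kk p L)ˣ) : kk p L)) :
    inL (A * S⁻¹) k (j + 1) ((ρ g : Matrix (Fin n) (Fin n) (OO p L)) *ᵥ x - a • x) := by
  have h0 : 0 < ‖k‖ := norm_pos_iff.2 hk
  have hu := BKND.DG.ultra (p := p) L
  have hy : ∀ i' : Fin n, yv (A * S⁻¹)
      ((ρ g : Matrix (Fin n) (Fin n) (OO p L)) *ᵥ x - a • x) i' =
      ∑ j' : Fin n, (MM V A g i' j' - if i' = j' then (a : L) else 0) * yv (A * S⁻¹) x j' := by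
    intro i'
    rw [yv_sub, yv_act hρ, yv_smul, Pi.sub_apply, Pi.smul_apply, smul_eq_mul]
    simp only [sub_mul, Finset.sum_sub_distrib, ite_mul, zero_mul]
    rw [Finset.sum_ite_eq Finset.univ i']
    simp only [Finset.mem_univ, if_true]
    rfl
  have hE : ∀ i' j' : Fin n, ‖MM V A g i' j' - if i' = j' then (a : L) else 0‖ ≤ 1 := by
    intro i' j'
    rw [sub_eq_add_neg]
    refine (IsUltrametricDist.norm_add_le_max _ _).trans (max_le (hT g i' j').1 ?_)
    rw [norm_neg]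
    split_ifs
    · exact OO.norm_le a
    · rw [norm_zero]
      exact zero_le_one
  have hii : ‖MM V A g i i - (a : L)‖ < 1 := by
    have h1 : IsLocalRing.residue (OO p L) (dO p hT i g - a) = 0 := by
      rw [map_sub, ha, sub_eq_zero]
      exact psi_spec hT i g (dO p hT i g) rfl
    rw [IsLocalRing.residue_eq_zero_iff, OO.mem_max] at h1
    exact h1
  refine ⟨fun i' => ?_, fun i' hi' => ?_⟩
  · rw [hy]
    refine sum_le p _ _ h0.le fun j' _ => ?_
    rw [norm_mul]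
    calc _ ≤ 1 * ‖k‖ := mul_le_mul (hE i' j') (h.1 j') (norm_nonneg _) zero_le_one
      _ = ‖k‖ := one_mul _
  · rw [hy]
    refine sum_lt p _ _ h0 fun j' _ => ?_
    rw [norm_mul]
    have hsmall : ‖MM V A g i' j' - if i' = j' then (a : L) else 0‖ < 1 →
        ‖MM V A g i' j' - if i' = j' then (a : L) else 0‖ * ‖yv (A * S⁻¹) x j'‖ < ‖k‖ := by
      intro h1
      calc ‖MM V A g i' j' - if i' = j' then (a : L) else 0‖ * ‖yv (A * S⁻¹) x j'‖ ≤
            ‖MM V A g i' j' - if i' = j' then (a : L) else 0‖ * ‖k‖ :=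
            mul_le_mul_of_nonneg_left (h.1 j') (norm_nonneg _)
        _ < 1 * ‖k‖ := mul_lt_mul_of_pos_right h1 h0
        _ = ‖k‖ := one_mul _
    have hbig : n ≤ (j' : ℕ) + j →
        ‖MM V A g i' j' - if i' = j' then (a : L) else 0‖ * ‖yv (A * S⁻¹) x j'‖ < ‖k‖ := by
      intro h1
      calc _ ≤ 1 * ‖yv (A * S⁻¹) x j'‖ := mul_le_mul_of_nonneg_right (hE i' j') (norm_nonneg _)
        _ = ‖yv (A * S⁻¹) x j'‖ := one_mul _
        _ < ‖k‖ := h.2 j' h1
    rcases lt_trichotomy j' i' with h1 | h1 | h1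
    · refine hsmall ?_
      rw [if_neg (ne_of_gt h1), sub_zero]
      exact (hT g i' j').2 h1
    · subst h1
      by_cases h2 : j' = i
      · subst h2
        refine hsmall ?_
        rw [if_pos rfl]
        exact hii
      · refine hbig ?_
        have h3 : (j' : ℕ) ≠ (i : ℕ) := fun e => h2 (Fin.ext e)
        omega
    · refine hbig ?_
      have h2 : (i' : ℕ) < (j' : ℕ) := h1
      omega

end LTRI

open LTRI in
/-- Module TRI: triangular representations have eigenvectors. -/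
theorem stTri : StTri := by
  intro p _ L _ _ _ G _ n V A hT
  refine ⟨fun i => ⟨psi p hT i, fun g a ha => psi_spec hT i g a ha⟩, ?_⟩
  intro S ρ hρ H P Q hP hQ hPQ hN
  obtain ⟨N, hN⟩ := hN
  set C : GL (Fin n) L := A * S⁻¹ with hC
  obtain ⟨B, hB⟩ := yv_le (p := p) C
  obtain ⟨κ, hκ0, hκ⟩ := exists_large p L B
  obtain ⟨B', hB'0, hB'⟩ := le_yv (p := p) C
  have h0 := pi0_pos p L
  have h1 := pi0_lt p L
  have hκp : 0 < ‖κ‖ := norm_pos_iff.2 hκ0
  obtain ⟨s₀, hs₀⟩ := exists_pow_lt_of_lt_one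
    (show (0 : ℝ) < ‖((pi0 p L : OO p L) : L)‖ ^ N / ((B' + 1) * ‖κ‖) by positivity) h1
  have hk0 : ∀ s : ℕ, κ * ((pi0 p L : OO p L) : L) ^ s ≠ 0 := fun s =>
    mul_ne_zero hκ0 (pow_ne_zero _ (pi0_ne p L))
  -- the largest `s`
  obtain ⟨s, -, ⟨x₁, hx₁Q, hx₁P, hx₁⟩, hs⟩ := exists_last
    (Pr := fun s => ∃ x ∈ Q, x ∉ P ∧ inL C (κ * ((pi0 p L : OO p L) : L) ^ s) 0 x) (by
      obtain ⟨x, hxQ, hxP⟩ := SetLike.exists_of_lt hPQ
      refine ⟨x, hxQ, hxP, ?_⟩
      rw [pow_zero, mul_one]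
      exact ⟨fun i => (hB x i).trans hκ, fun i hi => by have := i.2; omega⟩) (N := s₀) (by
      rintro ⟨x, hxQ, hxP, hx⟩
      refine hxP ?_
      have h2 := hB' x _ (norm_nonneg _) hx.1
      have h3 : ∀ i, ‖(x i : L)‖ ≤ ‖((pi0 p L : OO p L) : L)‖ ^ N := by
        intro i
        refine (h2 i).trans ?_
        rw [norm_mul, norm_pow]
        have h4 : 0 < (B' + 1) * ‖κ‖ := by positivity
        rw [lt_div_iff₀ h4] at hs₀
        have h5 : 0 ≤ ‖κ‖ * ‖((pi0 p L : OO p L) : L)‖ ^ s₀ := by positivity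
        nlinarith
      have h4 : ∀ i, ‖(x i : L) / ((pi0 p L : OO p L) : L) ^ N‖ ≤ 1 := by
        intro i
        rw [norm_div, norm_pow, div_le_one (pow_pos h0 N)]
        exact h3 i
      have h5 : x = pi0 p L ^ N • (fun i => (⟨(x i : L) / ((pi0 p L : OO p L) : L) ^ N, h4 i⟩ :
          OO p L)) := by
        funext i
        refine Subtype.ext ?_
        rw [Pi.smul_apply, smul_eq_mul, Subring.coe_mul, Subring.coe_pow]
        exact (mul_div_cancel₀ _ (pow_ne_zero _ (pi0_ne p L))).symm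
      rw [h5]
      exact hN _)
  set k : L := κ * ((pi0 p L : OO p L) : L) ^ s with hk
  have hkne : k ≠ 0 := hk0 s
  -- the largest `j`
  obtain ⟨j, hjn, ⟨x, hxQ, hxP, hx⟩, hj⟩ := exists_last
    (Pr := fun j => ∃ x ∈ Q, x ∉ P ∧ inL C k j x) ⟨x₁, hx₁Q, hx₁P, hx₁⟩ (N := n) (by
      rintro ⟨x, hxQ, hxP, hx⟩
      refine hs ⟨x, hxQ, hxP, ?_⟩
      rw [pow_succ, ← mul_assoc]
      exact inL_n hkne hx)
  have hmem : ∀ z ∈ Q, inL C k (j + 1) z → z ∈ P := by
    intro z hz hz'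
    by_contra hzP
    exact hj ⟨z, hz, hzP, hz'⟩
  refine ⟨x, hxQ, hxP, hmem _ (Q.smul_mem _ hxQ) (inL_pi hkne hx _),
    psi p hT ⟨n - (j + 1), by omega⟩, ⟨⟨n - (j + 1), by omega⟩, fun g a ha => psi_spec hT _ g a ha⟩,
    fun g hg a ha => ?_⟩
  refine hmem _ (Q.sub_mem (hQ g hg x hxQ) (Q.smul_mem _ hxQ)) ?_
  exact inL_act hT hρ hkne (by change n - (j + 1) + (j + 1) = n; omega) hx g a ha

end BKMet
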