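import Pool.Agent.Lib.MP_7c08ba_nt.Met.LocStmts
import Pool.Agent.Lib.MP_7c08ba_nt.Odd.KumZ
import Pool.Agent.Lib.MP_7c08ba_nt.Odd.CycL

set_option autoImplicit false

/-!
Module CYP: the cyclotomic character of `ℚ_p` is surjective.
-/

noncomputable section

namespace BKLoc2

open BKOdd Polynomial

namespace CYPAux

variable (p : ℕ) [Fact p.Prime]

theorem irreducible_int (n : ℕ) : Irreducible ((cyclotomic (p ^ (n + 1)) ℤ_[p]).comp (X + 1)) := by
  have hp : p.Prime := Fact.out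
  obtain ⟨f, hf⟩ : ∃ f : ℤ[X], f = (cyclotomic (p ^ (n + 1)) ℤ).comp (X + 1) := ⟨_, rfl⟩
  have hE : f.IsEisensteinAt (Ideal.span {(p : ℤ)}) := by
    rw [hf]
    exact cyclotomic_prime_pow_comp_X_add_one_isEisensteinAt p n
  have hm : f.Monic := by
    rw [hf]
    have h1 : (X + 1 : ℤ[X]) = X + C 1 := by simp
    rw [h1]
    exact (cyclotomic.monic _ ℤ).comp (monic_X_add_C 1) (by rw [natDegree_X_add_C]; exact one_ne_zero)
  have hmap : (cyclotomic (p ^ (n + 1)) ℤ_[p]).comp (X + 1) = f.map (Int.castRingHom ℤ_[p]) := by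
    rw [hf, Polynomial.map_comp, map_cyclotomic]
    simp
  have hdeg : f.natDegree = (p ^ (n + 1)).totient := by
    rw [hf, natDegree_comp, natDegree_cyclotomic]
    have h1 : (X + 1 : ℤ[X]) = X + C 1 := by simp
    rw [h1, natDegree_X_add_C, mul_one]
  have hmm : (f.map (Int.castRingHom ℤ_[p])).Monic := hm.map _
  have hpr : (Ideal.span {(p : ℤ_[p])}).IsPrime := by
    rw [← PadicInt.maximalIdeal_eq_span_p]
    infer_instance
  rw [hmap]
  refine (Monic.isEisensteinAt_of_mem_of_notMem hmm hpr.ne_top ?_ ?_).irreducible hpr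
    hmm.isPrimitive ?_
  · intro m hlt
    rw [hm.natDegree_map] at hlt
    rw [coeff_map]
    have h2 := hE.mem hlt
    rw [Ideal.mem_span_singleton] at h2 ⊢
    obtain ⟨c, hc⟩ := h2
    rw [hc]
    exact ⟨(c : ℤ_[p]), by simp⟩
  · rw [← hmap, coeff_zero_eq_eval_zero, eval_comp]
    have h3 : eval (0 : ℤ_[p]) (X + 1) = 1 := by simp
    rw [h3, eval_one_cyclotomic_prime_pow, Ideal.span_singleton_pow, Ideal.mem_span_singleton]
    rintro ⟨c, hc⟩
    have hp0 : (p : ℤ_[p]) ≠ 0 := by exact_mod_cast hp.ne_zero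
    have h4 : (1 : ℤ_[p]) = p * c := by
      apply mul_left_cancel₀ hp0
      linear_combination hc
    exact PadicInt.prime_p.not_unit (IsUnit.of_mul_eq_one c h4.symm)
  · rw [hm.natDegree_map, hdeg]
    exact Nat.totient_pos.2 (pow_pos hp.pos _)

theorem irreducible_field (n : ℕ) : Irreducible (cyclotomic (p ^ (n + 1)) ℚ_[p]) := by
  have h1 := irreducible_int p n
  have h2 : (cyclotomic (p ^ (n + 1)) ℤ_[p]).comp (X + 1) =
      algEquivAevalXAddC (1 : ℤ_[p]) (cyclotomic (p ^ (n + 1)) ℤ_[p]) := by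
    rw [algEquivAevalXAddC_apply, map_one, ← comp_eq_aeval]
  rw [h2, MulEquiv.irreducible_iff] at h1
  rw [(cyclotomic.monic _ _).irreducible_iff_irreducible_map_fraction_map (K := ℚ_[p]),
    map_cyclotomic] at h1
  exact h1

/-- the residues of the character -/
theorem exists_res (n : ℕ) (u : ℤ_[p]ˣ) : ∃ g : GQ p,
    PadicInt.toZModPow n ((cyL p p g : ℤ_[p]ˣ) : ℤ_[p]) =
      PadicInt.toZModPow n ((u : ℤ_[p]ˣ) : ℤ_[p]) := by
  have hp : p.Prime := Fact.out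
  cases n with
  | zero =>
    refine ⟨1, ?_⟩
    have : Subsingleton (ZMod (p ^ 0)) := by
      rw [pow_zero]
      infer_instance
    exact Subsingleton.elim _ _
  | succ n =>
    have hne' : NeZero (p ^ (n + 1)) := ⟨pow_ne_zero _ hp.ne_zero⟩
    have hne : NeZero (((p ^ (n + 1) : ℕ)) : PadicAlgCl p) := ⟨by
      rw [Nat.cast_ne_zero]
      exact pow_ne_zero _ hp.ne_zero⟩
    have hne2 : NeZero (((p ^ (n + 1) : ℕ)) : ℚ_[p]) := ⟨by
      rw [Nat.cast_ne_zero]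
      exact pow_ne_zero _ hp.ne_zero⟩
    obtain ⟨ξ, hξ⟩ := HasEnoughRootsOfUnity.exists_primitiveRoot (PadicAlgCl p) (p ^ (n + 1))
    have hu : IsUnit (PadicInt.toZModPow (n + 1) ((u : ℤ_[p]ˣ) : ℤ_[p])) := u.isUnit.map _
    have hcop : (PadicInt.toZModPow (n + 1) ((u : ℤ_[p]ˣ) : ℤ_[p])).val.Coprime (p ^ (n + 1)) := by
      have h1 := ZMod.val_coe_unit_coprime hu.unit
      rwa [IsUnit.unit_spec] at h1
    have hξ' := hξ.pow_of_coprime _ hcop
    have hconj : IsConjRoot ℚ_[p]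
        (ξ ^ (PadicInt.toZModPow (n + 1) ((u : ℤ_[p]ˣ) : ℤ_[p])).val) ξ := by
      unfold IsConjRoot
      rw [← hξ.minpoly_eq_cyclotomic_of_irreducible (irreducible_field p n),
        ← hξ'.minpoly_eq_cyclotomic_of_irreducible (irreducible_field p n)]
    obtain ⟨g, hg⟩ := isConjRoot_iff_exists_algEquiv.1 hconj
    refine ⟨g, ?_⟩
    have h2 : g ξ = ξ ^ (PadicInt.toZModPow (n + 1) ((cyL p p g : ℤ_[p]ˣ) : ℤ_[p])).val :=
      CycLAux.act (n + 1) ξ hξ.pow_eq_one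
        (MulSemiringAction.toRingAut (GQ p) (PadicAlgCl p) g)
    rw [hg] at h2
    exact (ZMod.val_injective _ (hξ.pow_inj (ZMod.val_lt _) (ZMod.val_lt _) h2)).symm

end CYPAux

open CYPAux

/-- Module CYP: the cyclotomic character of `ℚ_p` is surjective. -/
theorem stCyP : StCyP := by
  intro p _ u
  have hcont : Continuous (cyL p p) := cyclotomicCharacter.continuous p ℚ_[p] (PadicAlgCl p)
  have hc : ∀ n, IsClosed {g : GQ p | PadicInt.toZModPow n ((cyL p p g : ℤ_[p]ˣ) : ℤ_[p]) =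
      PadicInt.toZModPow n ((u : ℤ_[p]ˣ) : ℤ_[p])} := fun n =>
    (KumZAux.isClosed_res n ((u : ℤ_[p]ˣ) : ℤ_[p])).preimage
      (Units.continuous_val.comp hcont)
  have h1 : (⋂ n : ℕ, {g : GQ p | PadicInt.toZModPow n ((cyL p p g : ℤ_[p]ˣ) : ℤ_[p]) =
      PadicInt.toZModPow n ((u : ℤ_[p]ˣ) : ℤ_[p])}).Nonempty := by
    refine IsCompact.nonempty_iInter_of_sequence_nonempty_isCompact_isClosed _ (fun n => ?_)
      (fun n => exists_res p n u) (hc 0).isCompact hc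
    intro g hg
    have hg' : PadicInt.toZModPow (n + 1) ((cyL p p g : ℤ_[p]ˣ) : ℤ_[p]) =
      PadicInt.toZModPow (n + 1) ((u : ℤ_[p]ˣ) : ℤ_[p]) := hg
    show PadicInt.toZModPow n ((cyL p p g : ℤ_[p]ˣ) : ℤ_[p]) =
      PadicInt.toZModPow n ((u : ℤ_[p]ˣ) : ℤ_[p])
    rw [← PadicInt.cast_toZModPow n (n + 1) (Nat.le_succ n), hg',
      PadicInt.cast_toZModPow n (n + 1) (Nat.le_succ n)]
  obtain ⟨g, hg⟩ := h1
  refine ⟨g, Units.ext (PadicInt.ext_of_toZModPow.1 fun n => ?_)⟩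
  exact Set.mem_iInter.1 hg n

end BKLoc2
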