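import Pool.Agent.Lib.MP_7c08ba_nt.Met.LocStmts
import Pool.Agent.Lib.MP_7c08ba_nt.Odd.TR
import Pool.Agent.Lib.MP_7c08ba_nt.Odd.KumZ
import Pool.Agent.Lib.MP_7c08ba_nt.Odd.Desc
import Pool.Agent.Lib.MP_7c08ba_nt.Odd.CycL

set_option autoImplicit false

/-!
Module CRI: transfer to the Galois group of `ℚ_l` is injective on classes of exponent `p`.
-/

noncomputable section

namespace BKLoc2

open BKOdd
open BKMet (QZ actA)

namespace CrIAux

variable {p : ℕ} [Fact p.Prime]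

theorem continuous_toZMod (p : ℕ) [Fact p.Prime] :
    Continuous (PadicInt.toZMod : ℤ_[p] →+* ZMod p) := by
  have h1 : ∀ x : ℤ_[p], IsOpen {y : ℤ_[p] | PadicInt.toZMod y = PadicInt.toZMod x} := by
    intro x
    have h2 : {y : ℤ_[p] | PadicInt.toZMod y = PadicInt.toZMod x} =
        {y : ℤ_[p] | ‖y - x‖ < 1} := by
      ext y
      rw [Set.mem_ofPred_eq, Set.mem_ofPred_eq, ← sub_eq_zero, ← map_sub]
      have h3 : PadicInt.toZMod (y - x) = 0 ↔ y - x ∈ IsLocalRing.maximalIdeal ℤ_[p] := by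
        rw [← PadicInt.ker_toZMod, RingHom.mem_ker]
      rw [h3, IsLocalRing.mem_maximalIdeal, PadicInt.mem_nonunits]
    rw [h2]
    exact isOpen_lt (continuous_norm.comp (continuous_id.sub continuous_const)) continuous_const
  rw [continuous_discrete_rng]
  intro b
  by_cases hb : ∃ x : ℤ_[p], PadicInt.toZMod x = b
  · obtain ⟨x, rfl⟩ := hb
    exact h1 x
  · have : (PadicInt.toZMod : ℤ_[p] →+* ZMod p) ⁻¹' {b} = ∅ := by
      ext y
      simp only [Set.mem_preimage, Set.mem_singleton_iff, Set.mem_empty_iff_false, iff_false]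
      exact fun h => hb ⟨y, h⟩
    rw [this]
    exact isOpen_empty

/-- compatible roots of unity exist -/
theorem exists_sys (Ω : Type) [Field Ω] [IsAlgClosed Ω] [CharZero Ω] :
    ∃ z : ℕ → Ω, Sys p z := by
  have hp : p.Prime := Fact.out
  obtain ⟨ζ, hζ⟩ : ∃ ζ : Ω, IsPrimitiveRoot ζ p := by
    have : NeZero ((p : ℕ) : Ω) := ⟨by
      rw [Nat.cast_ne_zero]
      exact hp.ne_zero⟩
    exact HasEnoughRootsOfUnity.exists_primitiveRoot Ω p
  obtain ⟨Z, hZ0, hZ1, hZ⟩ := KumZAux.exists_seq (p := p) 1 ζ hζ.pow_eq_one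
  refine ⟨Z, fun k => ?_, hZ⟩
  cases k with
  | zero => rw [hZ0, pow_zero]; exact IsPrimitiveRoot.one
  | succ k =>
    have h1 : Z (k + 1) ^ p ^ k = ζ := by
      have := KumZAux.seq_pow (p := p) hZ 1 k
      rwa [add_comm 1 k, hZ1] at this
    rw [IsPrimitiveRoot.iff_orderOf]
    refine orderOf_eq_prime_pow ?_ ?_
    · rw [h1]
      exact hζ.ne_one hp.one_lt
    · rw [pow_succ, pow_mul, h1, hζ.pow_eq_one]

theorem cl_eq_zero {x : ℚ_[p]} : cl p x = 0 ↔ ‖x‖ ≤ 1 := by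
  unfold cl
  rw [Submodule.Quotient.mk_eq_zero]
  constructor
  · rintro ⟨y, rfl⟩
    exact y.2
  · intro h
    exact ⟨⟨x, h⟩, rfl⟩

/-- some quotient `r / p ^ m` has order exactly `p` modulo `ℤ_p` -/
theorem exists_level {r : ℤ_[p]} (hr : r ≠ 0) : ∃ m : ℕ,
    cl p ((r : ℚ_[p]) / (p : ℚ_[p]) ^ m) ≠ 0 ∧
      p • cl p ((r : ℚ_[p]) / (p : ℚ_[p]) ^ m) = 0 := by
  have hp : p.Prime := Fact.out
  have hp0 : (p : ℚ_[p]) ≠ 0 := by
    rw [Nat.cast_ne_zero]
    exact hp.ne_zero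
  have hn : ∀ m : ℕ, ‖(r : ℚ_[p]) / (p : ℚ_[p]) ^ m‖ = (p : ℝ) ^ (-(r.valuation : ℤ) + m) := by
    intro m
    rw [norm_div, norm_pow, Padic.norm_p, inv_pow, div_inv_eq_mul,
      PadicInt.padic_norm_e_of_padicInt, PadicInt.norm_eq_zpow_neg_valuation hr, ← zpow_natCast,
      ← zpow_add₀ (Nat.cast_ne_zero.mpr hp.ne_zero)]
  have h1p : (1 : ℝ) < p := by exact_mod_cast hp.one_lt
  refine ⟨r.valuation + 1, ?_, ?_⟩
  · rw [Ne, cl_eq_zero, hn, not_le]
    have : (-(r.valuation : ℤ) + ((r.valuation + 1 : ℕ) : ℤ)) = 1 := by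
      push_cast
      ring
    rw [this, zpow_one]
    exact h1p
  · have e1 : p • cl p ((r : ℚ_[p]) / (p : ℚ_[p]) ^ (r.valuation + 1)) =
        cl p ((r : ℚ_[p]) / (p : ℚ_[p]) ^ r.valuation) := by
      unfold cl
      rw [← Submodule.Quotient.mk_smul]
      congr 1
      rw [nsmul_eq_mul, pow_succ]
      field_simp
    rw [e1, cl_eq_zero, hn]
    have : (-(r.valuation : ℤ) + (r.valuation : ℤ)) = 0 := by ring
    rw [this, zpow_zero]

/-- a class of order `p` gives a nontrivial class with coefficients `𝔽_p(χ)` -/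
theorem exists_class {V : Type} [Group V] [TopologicalSpace V] [IsTopologicalGroup V]
    [CompactSpace V] [NonarchimedeanGroup V] {χ : V →* ℤ_[p]ˣ} (hχ : Continuous χ) (hPA : StPA)
    {inv : (V → V → QZ p) →+ QZ p}
    (hinv : ∀ α ∈ BKND.Z2 (actA χ), inv α = 0 ↔ α ∈ BKND.B2 (actA χ))
    {α : V → V → QZ p} (hα : α ∈ BKND.Z2 (actA χ)) (h1 : inv α ≠ 0) (h2 : p • inv α = 0) :
    ∃ z ∈ CC.Z2 (chm χ), z ∉ CC.B2 (chm χ) := by
  obtain ⟨p1, -, p3, -, -⟩ := hPA p V χ hχ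
  have h3 : p • α ∈ BKND.B2 (actA χ) := by
    rw [← hinv _ (nsmul_mem hα p), map_nsmul, h2]
  obtain ⟨z, hz, hz'⟩ := p1 α hα h3
  refine ⟨z, hz, fun hzB => h1 ?_⟩
  have h4 : α ∈ BKND.B2 (actA χ) := by
    have h5 := add_mem hz' (p3 z hzB)
    rwa [sub_add_cancel] at h5
  exact (hinv α hα).2 h4

theorem cyL_nat_pow_ne {l : ℕ} (hl : l.Prime) {u : ℤ_[p]ˣ} (hu : ((u : ℤ_[p]ˣ) : ℤ_[p]) = l) :
    u ^ (p - 1) ≠ 1 := by
  have hp : p.Prime := Fact.out
  intro h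
  have h1 : ((l ^ (p - 1) : ℕ) : ℤ_[p]) = ((1 : ℕ) : ℤ_[p]) := by
    have := congrArg (fun x : ℤ_[p]ˣ => (x : ℤ_[p])) h
    simp only [Units.val_pow_eq_pow_val, hu, Units.val_one] at this
    push_cast
    exact this
  have h2 := Nat.cast_injective h1
  have h3 : p - 1 ≠ 0 := by
    have := hp.two_le
    omega
  have h4 := Nat.one_lt_pow h3 hl.one_lt
  omega

end CrIAux

open CrIAux in
/-- There is a nontrivial class in `H²(GQ l, 𝔽_p(χ))`. -/
theorem exists_ne_B2 (h1 : StInvL) (h3 : StPA) (h4 : StKPE) (h5 : StSC) (h7 : StLam)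
    (p l : ℕ) [Fact p.Prime] [Fact l.Prime] (hp2 : p ≠ 2) :
    ∃ z ∈ CC.Z2 (chm (cyL p l)), z ∉ CC.B2 (chm (cyL p l)) := by
  have hp : p.Prime := Fact.out
  have hl : l.Prime := Fact.out
  obtain ⟨⟨lam, hlam⟩, hL⟩ := h7 p hp2
  obtain ⟨-, -, hL3, -, -⟩ := hL lam hlam
  obtain ⟨z, hz⟩ := exists_sys (p := p) (PadicAlgCl l)
  obtain ⟨k1, k2, k3, k4, -, -⟩ := h4 p ℚ_[l] (PadicAlgCl l) (GQ l) (MonoidHom.id _)
    continuous_id z hz
  have hχ : Continuous (cyL p l) := k1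
  have hθ : IsHom (fun g : GQ l => lam (cyL p l g)) :=
    ⟨hlam.cont.comp hχ, fun g h => by rw [map_mul, hlam.mul]⟩
  obtain ⟨s1, -, -, -, -, -⟩ := h5 p (GQ l) (cyL p l) hχ _ hθ
  -- the final step
  have key : ∀ (inv : (GQ l → GQ l → QZ p) →+ QZ p),
      (∀ α ∈ BKND.Z2 (actA (cyL p l)), inv α = 0 ↔ α ∈ BKND.B2 (actA (cyL p l))) →
      ∀ κ : GQ l → ℤ_[p], κ ∈ CC.Z1 (chZ (cyL p l)) → ∀ r : ℤ_[p], r ≠ 0 →
      (∀ m : ℕ, inv (sc κ (fun g => lam (cyL p l g)) m) =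
        cl p ((r : ℚ_[p]) / (p : ℚ_[p]) ^ m)) →
      ∃ z ∈ CC.Z2 (chm (cyL p l)), z ∉ CC.B2 (chm (cyL p l)) := by
    intro inv hinv κ hκ r hr hm
    obtain ⟨m, hm1, hm2⟩ := exists_level hr
    refine exists_class hχ h3 hinv (s1 κ hκ m) ?_ ?_
    · rw [hm m]
      exact hm1
    · rw [hm m]
      exact hm2
  by_cases hlp : l = p
  · subst hlp
    obtain ⟨inv, hinv, hf⟩ := h1.2 l hp2 lam hlam z hz
    -- the unit `1 + p`
    have hu : IsUnit (1 + (l : ℤ_[l])) := by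
      rw [PadicInt.isUnit_iff]
      have h8 : ‖(l : ℤ_[l])‖ < 1 := by
        rw [PadicInt.norm_def]
        exact_mod_cast Padic.norm_p_lt_one (p := l)
      rw [PadicInt.norm_add_eq_max_of_ne, norm_one, max_eq_left h8.le]
      rw [norm_one]
      exact h8.ne'
    obtain ⟨u, hu⟩ := hu
    have e1 : PadicInt.toZMod ((u : ℤ_[l]ˣ) : ℤ_[l]) = 1 := by
      rw [hu, map_add, map_one, map_natCast, ZMod.natCast_self, add_zero]
    have e2 : PadicInt.toZModPow 2 ((u : ℤ_[l]ˣ) : ℤ_[l]) ≠ 1 := by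
      rw [hu, map_add, map_one, map_natCast]
      intro h8
      have h9 : ((l : ℕ) : ZMod (l ^ 2)) = 0 := by
        linear_combination h8
      rw [ZMod.natCast_eq_zero_iff] at h9
      have h10 := Nat.le_of_dvd hl.pos h9
      have h11 : l ^ 2 = l * l := by ring
      have h12 := hl.one_lt
      nlinarith
    have hr : -lam u ≠ 0 := by
      intro h8
      have h9 : lam u = 0 := by
        rw [← neg_neg (lam u), h8, neg_zero]
      exact hlam.ne u e1 e2 (by rw [h9, map_zero])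
    have ha : (algebraMap ℚ_[l] (PadicAlgCl l) ((u : ℤ_[l]ˣ) : ℤ_[l])) ≠ 0 := by
      rw [Ne, FaithfulSMul.algebraMap_eq_zero_iff]
      intro h8
      exact u.ne_zero (Subtype.ext h8)
    have hF : Fx (MonoidHom.id (GQ l))
        (algebraMap ℚ_[l] (PadicAlgCl l) ((u : ℤ_[l]ˣ) : ℤ_[l])) := fun v => v.commutes _
    obtain ⟨κ, hκ⟩ := k3 _ ha hF
    refine key inv hinv κ (k4 _ κ ha hκ) (-lam u) hr fun m => ?_
    exact hf _ u 0 (by rw [zpow_zero, mul_one]) κ hκ m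
  · -- `l ≠ p`
    have hlp' : l ≠ p := hlp
    have hu : IsUnit (l : ℤ_[p]) := by
      rw [PadicInt.isUnit_iff]
      have h8 : ¬ p ∣ l := fun h => hlp ((Nat.prime_dvd_prime_iff_eq hp hl).1 h).symm
      refine le_antisymm (PadicInt.norm_le_one _) ?_
      have h9 := (PadicInt.norm_int_lt_one_iff_dvd (p := p) (l : ℤ)).not
      rw [not_lt] at h9
      have h10 := h9.2 (fun h => h8 (by exact_mod_cast h))
      rwa [Int.cast_natCast] at h10
    obtain ⟨u, hu⟩ := hu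
    obtain ⟨inv, hinv, hf⟩ := h1.1 p l hp2 hlp' lam hlam u hu z hz
    have hl0 : ((l : ℕ) : ℚ_[l]) ≠ 0 := by
      rw [Nat.cast_ne_zero]
      exact hl.ne_zero
    have ha : algebraMap ℚ_[l] (PadicAlgCl l) (l : ℚ_[l]) ≠ 0 := by
      rw [Ne, FaithfulSMul.algebraMap_eq_zero_iff]
      exact hl0
    have hF : Fx (MonoidHom.id (GQ l)) (algebraMap ℚ_[l] (PadicAlgCl l) (l : ℚ_[l])) :=
      fun v => v.commutes _
    obtain ⟨κ, hκ⟩ := k3 _ ha hF
    have hr : lam u ≠ 0 := fun h8 => cyL_nat_pow_ne hl hu ((hL3 u).1 h8)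
    refine key inv hinv κ (k4 _ κ ha hκ) (lam u) hr fun m => ?_
    rw [hf _ hl0 κ hκ m, Padic.valuation_p]
    push_cast
    rw [one_mul]

open CrIAux in
/-- Module CRI. -/
theorem stCrI (h1 : StInvL) (h2 : StLnX) (h3 : StPA) (h4 : StKPE) (h5 : StSC) (h7 : StLam) :
    StCrI := by
  intro p l _ _ hp2 H hHn hHo hHi ζ hζ hHζ w hw hcor
  have hp : p.Prime := Fact.out
  obtain ⟨z₀, hz₀, hz₀B⟩ := exists_ne_B2 h1 h3 h4 h5 h7 p l hp2
  obtain ⟨z, hz⟩ := exists_sys (p := p) (PadicAlgCl l)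
  obtain ⟨k1, k2, -, -, -, -⟩ := h4 p ℚ_[l] (PadicAlgCl l) (GQ l) (MonoidHom.id _)
    continuous_id z hz
  have hχ : Continuous (cyL p l) := k1
  have hchm : Continuous (chm (cyL p l)) :=
    (continuous_toZMod p).comp (Units.continuous_val.comp hχ)
  have hfin : Finite (GQ l ⧸ H) := Subgroup.quotient_finite_of_isOpen H hHo
  obtain ⟨-, -, t3, t4, -⟩ := stTR.{0} (GQ l) H hHo hfin (ZMod p) (chm (cyL p l)) hchm
  -- the character is trivial on `H`
  have hone : chm ((cyL p l).comp H.subtype) = (1 : H →* ZMod p) := by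
    ext h
    have hz1 : (h : GQ l) (z 1) = z 1 := by
      have h8 : z 1 ^ p = 1 := by
        have := (hz.prim 1).pow_eq_one
        rwa [pow_one] at this
      obtain ⟨i, -, hi⟩ := hζ.eq_pow_of_pow_eq_one h8
      rw [← hi, map_pow, hHζ h h.2]
    have h9 := k2 1 (h : GQ l)
    have h9' : (h : GQ l) (z 1) =
      z 1 ^ (PadicInt.toZModPow 1 ((cyL p l (h : GQ l) : ℤ_[p]ˣ) : ℤ_[p])).val := h9
    rw [hz1] at h9'
    have hprim : IsPrimitiveRoot (z 1) (p ^ 1) := hz.prim 1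
    have h10 : (PadicInt.toZModPow 1 ((cyL p l (h : GQ l) : ℤ_[p]ˣ) : ℤ_[p])).val = 1 := by
      have h11 : z 1 ^ 1 =
        z 1 ^ (PadicInt.toZModPow 1 ((cyL p l (h : GQ l) : ℤ_[p]ˣ) : ℤ_[p])).val := by
        rw [pow_one]; exact h9'
      have : NeZero (p ^ 1) := ⟨pow_ne_zero _ hp.ne_zero⟩
      exact (hprim.pow_inj (by rw [pow_one]; exact hp.one_lt) (ZMod.val_lt _) h11).symm
    show PadicInt.toZMod ((cyL p l (h : GQ l) : ℤ_[p]ˣ) : ℤ_[p]) = 1
    rw [CycLAux.toZMod_eq, h10, Nat.cast_one]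
  have hZ0H : (fun a b : H => z₀ a b) ∈ CC.Z2 (1 : H →* ZMod p) := by
    rw [← hone]
    refine ⟨?_, fun a b c => hz₀.2 a b c⟩
    exact hz₀.1.comp (continuous_subtype_val.prodMap continuous_subtype_val)
  have hcomp : (chm (cyL p l)).comp H.subtype = (1 : H →* ZMod p) := hone
  have hidx : (H.index : ZMod p) ≠ 0 := by
    rw [Ne, ZMod.natCast_eq_zero_iff]
    exact hHi
  have hZ0B : (fun a b : H => z₀ a b) ∉ CC.B2 (1 : H →* ZMod p) := by
    intro h8
    rw [← hcomp] at h8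
    have h9 := (CC.B2 (chm (cyL p l))).sub_mem (t3 _ h8) (t4 z₀ hz₀)
    rw [sub_sub_cancel] at h9
    exact hz₀B ((Submodule.smul_mem_iff _ hidx).1 h9)
  have : NonarchimedeanGroup H := nonarch_subgroup H
  have : CompactSpace H := isCompact_iff_compactSpace.mp
    (Subgroup.isClosed_of_isOpen H hHo).isCompact
  have hLine := h2 p l hp2 H H.subtype hHo.isOpenEmbedding_subtypeVal
  unfold LineX at hLine
  rw [hone] at hLine
  obtain ⟨a, ha⟩ := hLine _ hZ0H w hw hZ0B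
  have hlin : cor2 H (chm (cyL p l)) (w - a • fun b c : H => z₀ b c) =
      cor2 H (chm (cyL p l)) w - a • cor2 H (chm (cyL p l)) (fun b c : H => z₀ b c) := by
    funext g g'
    have : Fintype (GQ l ⧸ H) := Fintype.ofFinite _
    simp only [cor2, Pi.sub_apply, Pi.smul_apply, smul_eq_mul, finsum_eq_sum_of_fintype,
      Finset.mul_sum, ← Finset.sum_sub_distrib]
    exact Finset.sum_congr rfl fun q _ => by ring
  have h8 : cor2 H (chm (cyL p l)) (w - a • fun b c : H => z₀ b c) ∈ CC.B2 (chm (cyL p l)) := by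
    refine t3 _ ?_
    rw [hcomp]
    exact ha
  rw [hlin] at h8
  have h9 : a • cor2 H (chm (cyL p l)) (fun b c : H => z₀ b c) ∈ CC.B2 (chm (cyL p l)) := by
    have := (CC.B2 (chm (cyL p l))).sub_mem hcor h8
    rwa [sub_sub_cancel] at this
  have ha0 : a = 0 := by
    by_contra ha0
    have h10 := (Submodule.smul_mem_iff _ ha0).1 h9
    have h11 := (CC.B2 (chm (cyL p l))).sub_mem h10 (t4 z₀ hz₀)
    rw [sub_sub_cancel] at h11
    exact hz₀B ((Submodule.smul_mem_iff _ hidx).1 h11)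
  rw [ha0, zero_smul, sub_zero] at ha
  exact ha

end BKLoc2
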