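import Pool.Agent.Lib.MP_7c08ba_nt.Met.LocStmts
import Pool.Agent.Lib.MP_7c08ba_nt.Odd.TR
import Pool.Agent.Lib.MP_7c08ba_nt.Par.Lift

set_option autoImplicit false

/-!
Module CRN: the Kummer cocycle of a norm, and products which vanish.
-/

noncomputable section

namespace BKLoc2

open BKOdd
open BKMet (QZ actA)

namespace CrNAux

section Cl

variable {p : ℕ} [Fact p.Prime]

/-- the map `x ↦ cl (x / p ^ m)` -/
def fm (p : ℕ) [Fact p.Prime] (m : ℕ) : ℤ_[p] →ₗ[ℤ_[p]] QZ p :=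
  (Submodule.mkQ _).comp (LinearMap.toSpanSingleton ℤ_[p] ℚ_[p] ((p : ℚ_[p]) ^ m)⁻¹)

theorem fm_apply (m : ℕ) (x : ℤ_[p]) : fm p m x = cl p ((x : ℚ_[p]) / (p : ℚ_[p]) ^ m) := by
  change Submodule.Quotient.mk (x • ((p : ℚ_[p]) ^ m)⁻¹) = cl p _
  rw [Algebra.smul_def, div_eq_mul_inv]
  rfl

theorem sc_eq {G : Type*} [Group G] (κ θ : G → ℤ_[p]) (m : ℕ) (g h : G) :
    sc κ θ m g h = fm p m (κ g * θ h) := (fm_apply m _).symm

theorem fm_zero_of_dvd {m : ℕ} {x : ℤ_[p]} (h : (p : ℤ_[p]) ^ m ∣ x) : fm p m x = 0 := by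
  obtain ⟨y, rfl⟩ := h
  rw [fm_apply, cl, Submodule.Quotient.mk_eq_zero]
  refine ⟨y, ?_⟩
  have hp : ((p : ℚ_[p]) ^ m) ≠ 0 := pow_ne_zero _ (by exact_mod_cast (Fact.out : p.Prime).ne_zero)
  rw [PadicInt.coe_mul, PadicInt.coe_pow, PadicInt.coe_natCast, mul_div_cancel_left₀ _ hp]
  rfl

theorem locConst_fm (m : ℕ) : IsLocallyConstant (fm p m) := by
  rw [IsLocallyConstant.iff_exists_open]
  intro x
  have hp : (0 : ℝ) < (p : ℝ) ^ (-(m : ℤ)) :=
    zpow_pos (by exact_mod_cast (Fact.out : p.Prime).pos) _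
  refine ⟨Metric.closedBall x ((p : ℝ) ^ (-(m : ℤ))), ?_, ?_, ?_⟩
  · exact IsUltrametricDist.isOpen_closedBall x hp.ne'
  · exact Metric.mem_closedBall_self hp.le
  · intro y hy
    rw [Metric.mem_closedBall, dist_eq_norm, PadicInt.norm_le_pow_iff_mem_span_pow,
      Ideal.mem_span_singleton] at hy
    have h := fm_zero_of_dvd hy
    rw [map_sub, sub_eq_zero] at h
    exact h

theorem actA_fm {G : Type*} [Group G] (χ : G →* ℤ_[p]ˣ) (g : G) (m : ℕ) (x : ℤ_[p]) :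
    actA χ g (fm p m x) = fm p m (chZ χ g * x) := by
  rw [BKMet.actA_apply, ← map_smul]
  rfl

end Cl

section Kum

variable {p : ℕ} [Fact p.Prime] {k Ω : Type} [Field k] [Field Ω] [Algebra k Ω]

omit [Fact p.Prime] in
theorem pow_congr {z : ℕ → Ω} (hz : Sys p z) (n : ℕ) {i j : ℕ}
    (h : (i : ZMod (p ^ n)) = (j : ZMod (p ^ n))) : z n ^ i = z n ^ j := by
  have h1 : z n ^ (p ^ n) = 1 := (hz.prim n).pow_eq_one
  have h2 : i % p ^ n = j % p ^ n := (ZMod.natCast_eq_natCast_iff' i j (p ^ n)).1 h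
  rw [pow_eq_pow_mod i h1, pow_eq_pow_mod j h1, h2]

/-- the corestriction of a Kummer cocycle is a Kummer cocycle of the norm -/
theorem isKP_cor {V : Type} [Group V] {e : V →* (Ω ≃ₐ[k] Ω)} {z : ℕ → Ω} (hz : Sys p z)
    (hχ : ∀ n v, e v (z n) =
      z n ^ (PadicInt.toZModPow n ((cy p k Ω (e v) : ℤ_[p]ˣ) : ℤ_[p])).val)
    {U : Subgroup V} [Fintype (V ⧸ U)] {c : Ω} {μ : U → ℤ_[p]}
    (hμ : IsKP (e.comp U.subtype) z c μ) :
    IsKP e z (∏ q : V ⧸ U, e q.out c) (cor1 U (chZ ((cy p k Ω).comp e)) μ) := by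
  obtain ⟨y, hy0, hyp, hy⟩ := hμ
  refine ⟨fun n => ∏ q : V ⧸ U, e q.out (y n), ?_, fun n => ?_, fun n v => ?_⟩
  · simp only [hy0]
  · rw [← Finset.prod_pow]
    refine Finset.prod_congr rfl fun q _ => ?_
    rw [← map_pow, hyp]
  · have hne : NeZero (p ^ n) := ⟨pow_ne_zero _ (Fact.out : p.Prime).ne_zero⟩
    have h1 : ∀ q : V ⧸ U, e v (e q.out (y n)) =
        z n ^ ((PadicInt.toZModPow n (chZ ((cy p k Ω).comp e) (v • q).out)).val *
          (PadicInt.toZModPow n (μ (hh U v q))).val) * e (v • q).out (y n) := by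
      intro q
      have h2 : v * q.out = (v • q).out * (hh U v q : V) := (out_mul_hh U v q).symm
      rw [← AlgEquiv.mul_apply, ← map_mul, h2, map_mul, AlgEquiv.mul_apply]
      have h3 : e (hh U v q : V) (y n) =
          z n ^ (PadicInt.toZModPow n (μ (hh U v q))).val * y n := hy n (hh U v q)
      rw [h3, map_mul, map_pow, hχ, ← pow_mul]
      rfl
    rw [map_prod, Finset.prod_congr rfl fun q _ => h1 q, Finset.prod_mul_distrib,
      Finset.prod_pow_eq_pow_sum]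
    congr 1
    · apply pow_congr hz
      rw [cor1_eq, ZMod.natCast_zmod_val, map_sum, Nat.cast_sum]
      refine Finset.sum_congr rfl fun q _ => ?_
      rw [Nat.cast_mul, ZMod.natCast_zmod_val, ZMod.natCast_zmod_val, map_mul]
    · exact Equiv.prod_comp (MulAction.toPerm v : Equiv.Perm (V ⧸ U)) (fun q => e q.out (y n))

end Kum

end CrNAux

open CrNAux in
/-- Module CRN. -/
theorem stCrN (h1 : StTRM) (h2 : StKPE) (h3 : StSC) : StCrN := by
  intro p _ k Ω _ _ _ _ _ _ V _ _ _ _ _ e he z hz U hU c hc hcU N hN θ hθ m κ hκ μ hμ hB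
  have hfin : Finite (V ⧸ U) := Subgroup.quotient_finite_of_isOpen U hU
  have iF : Fintype (V ⧸ U) := Fintype.ofFinite _
  obtain ⟨k1, k2, -, -, -, k6⟩ := h2 p k Ω V e he.continuous z hz
  set χ : V →* ℤ_[p]ˣ := (cy p k Ω).comp e with hχ
  have heU : Continuous (e.comp U.subtype) := he.continuous.comp continuous_subtype_val
  obtain ⟨-, -, -, u4, -, -⟩ := h2 p k Ω U (e.comp U.subtype) heU z hz
  have hμZ : μ ∈ CC.Z1 ((chZ χ).comp U.subtype) := u4 c μ hc hμ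
  have hN0 : N = ∏ q : V ⧸ U, e q.out c := by
    rw [hN, finprod_eq_prod_of_fintype]
  have hNne : N ≠ 0 := by
    rw [hN0, Finset.prod_ne_zero_iff]
    intro q _ h
    exact hc ((map_eq_zero_iff _ (e q.out).injective).1 h)
  have hcor : IsKP e z N (cor1 U (chZ χ) μ) := by
    rw [hN0]
    exact isKP_cor hz k2 hμ
  obtain ⟨d, hd⟩ := k6 N (cor1 U (chZ χ) μ) κ hNne hcor hκ
  obtain ⟨-, s2, -, s4, -, -⟩ := h3 p V χ k1 θ hθ
  have hχc : Continuous (chZ χ) := Units.continuous_val.comp k1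
  have hθZ : θ ∈ CC.Z1 (1 : V →* ℤ_[p]) :=
    ⟨hθ.cont, fun g h => by rw [hθ.mul, MonoidHom.one_apply, one_mul]⟩
  obtain ⟨-, -, -, -, t5⟩ := stTR V U hU hfin ℤ_[p] (chZ χ) hχc
  obtain ⟨β, hβc, hβ⟩ := t5 μ hμZ θ hθZ
  -- the transfer of the product
  have hcor2 : ∀ g g' : V, corM2 U (actA χ) (sc μ (fun u => θ u) m) g g' =
      fm p m (cor2 U (chZ χ) (CC.cup μ (fun x : U => θ x)) g g') := by
    intro g g'
    unfold corM2 cor2
    rw [finsum_eq_sum_of_fintype, finsum_eq_sum_of_fintype, map_sum]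
    refine Finset.sum_congr rfl fun q _ => ?_
    rw [sc_eq, actA_fm]
    rfl
  have hB2 : corM2 U (actA χ) (sc μ (fun u => θ u) m) ∈ BKND.B2 (actA χ) :=
    (h1 V U hU hfin PUnit PUnit (QZ p) 1 1 (actA χ) 0 ⟨⊤, isOpen_univ, fun _ _ => rfl⟩
      (fun _ => ⟨⊤, isOpen_univ, fun _ _ => rfl⟩)
      (fun g _ _ => (map_zero (actA χ g)).symm)).2.2.1 _ hB
  have hdiff : corM2 U (actA χ) (sc μ (fun u => θ u) m) - sc (cor1 U (chZ χ) μ) θ m ∈
      BKND.B2 (actA χ) := by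
    refine ⟨fun g => fm p m (β g), ?_, fun g g' => ?_⟩
    · exact BKPar.Lift.Loc1.of_isLocallyConstant ((locConst_fm m).comp_continuous hβc)
    · have h4 := hβ g g'
      rw [actA_fm, Pi.sub_apply, Pi.sub_apply, hcor2, sc_eq, ← map_sub]
      have h5 : cor2 U (chZ χ) (CC.cup μ (fun x : U => θ x)) g g' -
          cor1 U (chZ χ) μ g * θ g' = chZ χ g * β g' - β (g * g') + β g := by
        have h6 : cor2 U (chZ χ) (CC.cup μ (fun x : U => θ x)) g g' -
          cor1 U (chZ χ) μ g * θ g' = β g + chZ χ g * β g' - β (g * g') := h4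
        rw [h6]
        ring
      rw [h5, map_add, map_sub]
  have hcB : sc (cor1 U (chZ χ) μ) θ m ∈ BKND.B2 (actA χ) := by
    have h4 := (BKND.B2 (actA χ)).sub_mem hB2 hdiff
    rwa [sub_sub_cancel] at h4
  have hkB : sc (κ - cor1 U (chZ χ) μ) θ m ∈ BKND.B2 (actA χ) := s4 _ d hd m
  have h4 := (BKND.B2 (actA χ)).add_mem hkB hcB
  rwa [← s2, sub_add_cancel] at h4

end BKLoc2
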