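import Pool.Agent.Lib.MP_7c08ba_nt.Met.LocStmts

set_option autoImplicit false

/-!
Module EIG: the quotient of the numbers of equivariant homomorphisms to `X / p` and to `X` does
not change when `X` is replaced by a subgroup of finite index.
-/

noncomputable section

namespace BKLoc2

namespace EigAux

/-! ### counting -/

section Count

variable {A B C D E : Type*} [AddCommGroup A] [AddCommGroup B] [AddCommGroup C]
  [AddCommGroup D] [AddCommGroup E]

theorem card_eq (f : A →+ B) : Nat.card A = Nat.card f.ker * Nat.card f.range := by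
  rw [← AddSubgroup.index_ker, AddSubgroup.card_mul_index]

theorem six (f1 : A →+ B) (f2 : B →+ C) (f3 : C →+ D) (f4 : D →+ E) (f5 : E →+ C)
    (h1 : Function.Injective f1) (h2 : f2.ker = f1.range) (h3 : f3.ker = f2.range)
    (h4 : f4.ker = f3.range) (h5 : f5.ker = f4.range) (h6 : Function.Surjective f5) :
    Nat.card E * Nat.card A = Nat.card D * Nat.card B := by
  have e1 : Nat.card A = Nat.card f1.range :=
    Nat.card_congr (AddMonoidHom.ofInjective h1).toEquiv
  have e2 := card_eq f2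
  have e3 := card_eq f3
  have e4 := card_eq f4
  have e5 := card_eq f5
  have e6 : Nat.card f5.range = Nat.card C := by
    rw [AddMonoidHom.range_eq_top.2 h6]
    exact Nat.card_congr AddSubgroup.topEquiv.toEquiv
  rw [h2, ← e1] at e2
  rw [h3] at e3
  rw [h4] at e4
  rw [h5, e6, e3] at e5
  rw [e5, e4, e2]
  ring

end Count

theorem end_mul {A : Type*} [AddCommGroup A] (f g : AddMonoid.End A) (x : A) :
    (f * g) x = f (g x) := rfl

/-! ### equivariant homomorphisms -/

section Equi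

variable {Δ : Type} [Group Δ] {N : Type} [AddCommGroup N] (ρ : Δ →* AddMonoid.End N)

/-- equivariant homomorphisms -/
def EH {A : Type} [AddCommGroup A] (a : Δ →* AddMonoid.End A) : AddSubgroup (N →+ A) where
  carrier := {f | ∀ d n, f (ρ d n) = a d (f n)}
  add_mem' := by
    intro f g hf hg d n
    rw [AddMonoidHom.add_apply, AddMonoidHom.add_apply, hf d n, hg d n, map_add]
  zero_mem' := fun d n => by simp
  neg_mem' := by
    intro f hf d n
    rw [AddMonoidHom.neg_apply, AddMonoidHom.neg_apply, hf d n, map_neg]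

theorem ht_eq {A : Type} [AddCommGroup A] (a : Δ →* AddMonoid.End A) :
    ht ρ a = Nat.card (EH ρ a) := rfl

variable {ρ} {A B : Type} [AddCommGroup A] [AddCommGroup B] {a : Δ →* AddMonoid.End A}
  {b : Δ →* AddMonoid.End B}

/-- composition with an equivariant homomorphism -/
def post (u : A →+ B) (hu : ∀ d x, u (a d x) = b d (u x)) : EH ρ a →+ EH ρ b :=
  AddMonoidHom.mk' (fun f => ⟨u.comp f.1, fun d n => by
    rw [AddMonoidHom.comp_apply, AddMonoidHom.comp_apply, f.2 d n, hu]⟩) (by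
    intro f g
    apply Subtype.ext
    ext n
    simp)

theorem post_apply (u : A →+ B) (hu : ∀ d x, u (a d x) = b d (u x)) (f : EH ρ a) (n : N) :
    (post u hu f).1 n = u (f.1 n) := rfl

theorem post_injective (u : A →+ B) (hu : ∀ d x, u (a d x) = b d (u x))
    (h : Function.Injective u) : Function.Injective (post (ρ := ρ) u hu) := by
  intro f g hfg
  apply Subtype.ext
  ext n
  apply h
  rw [← post_apply u hu, ← post_apply u hu, hfg]

/-- lifting -/
theorem lift (p : ℕ) [Fact p.Prime] [Finite Δ] (hΔ : ¬ p ∣ Nat.card Δ)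
    (hN : ∀ n : N, p • n = 0) (hA : ∀ x : A, p • x = 0) (u : A →+ B)
    (hu : ∀ d x, u (a d x) = b d (u x)) (f : N →+ B) (hf : ∀ d n, f (ρ d n) = b d (f n))
    (him : ∀ n, ∃ x, u x = f n) : ∃ g : EH ρ a, ∀ n, u (g.1 n) = f n := by
  have hp : p.Prime := Fact.out
  have := Fintype.ofFinite Δ
  -- a homomorphism which lifts `f`
  obtain ⟨g0, hg0⟩ : ∃ g0 : N →+ A, ∀ n, u (g0 n) = f n := by
    obtain ⟨iN⟩ : Nonempty (Module (ZMod p) N) := ⟨AddCommGroup.zmodModule hN⟩
    obtain ⟨iA⟩ : Nonempty (Module (ZMod p) A) := ⟨AddCommGroup.zmodModule hA⟩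
    have hR : ∀ x : u.range, p • x = 0 := by
      rintro ⟨_, x, rfl⟩
      apply Subtype.ext
      show p • u x = 0
      rw [← map_nsmul, hA, map_zero]
    obtain ⟨iR⟩ : Nonempty (Module (ZMod p) u.range) := ⟨AddCommGroup.zmodModule hR⟩
    obtain ⟨g1, hg1⟩ : ∃ g1 : A →ₗ[ZMod p] u.range, ∀ x, (g1 x : B) = u x :=
      ⟨u.rangeRestrict.toZModLinearMap p, fun x => rfl⟩
    obtain ⟨g2, hg2⟩ : ∃ g2 : N →ₗ[ZMod p] u.range, ∀ x, (g2 x : B) = f x :=
      ⟨(f.codRestrict u.range fun n => him n).toZModLinearMap p, fun x => rfl⟩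
    have hs1 : Function.Surjective g1 := by
      rintro ⟨_, x, rfl⟩
      exact ⟨x, Subtype.ext (hg1 x)⟩
    obtain ⟨h, hh⟩ := Module.projective_lifting_property g1 g2 hs1
    refine ⟨h.toAddMonoidHom, fun n => ?_⟩
    have h1 := congrArg Subtype.val (DFunLike.congr_fun hh n)
    rw [hg2] at h1
    rw [← h1, LinearMap.comp_apply, hg1]
    rfl
  -- the average
  obtain ⟨m, hm⟩ : ∃ m : ℕ, ∃ c : ℕ, m * Fintype.card Δ = 1 + p * c := by
    have h1 : Nat.Coprime (Fintype.card Δ) p := by
      rw [Nat.coprime_comm, hp.coprime_iff_not_dvd, ← Nat.card_eq_fintype_card]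
      exact hΔ
    have h2 : ((Fintype.card Δ : ℕ) : ZMod p) ≠ 0 := by
      rw [Ne, ZMod.natCast_eq_zero_iff, ← Nat.card_eq_fintype_card]
      exact hΔ
    obtain ⟨m, hm⟩ : ∃ m : ℕ, ((m * Fintype.card Δ : ℕ) : ZMod p) = ((1 : ℕ) : ZMod p) := by
      refine ⟨(((Fintype.card Δ : ℕ) : ZMod p)⁻¹).val, ?_⟩
      rw [Nat.cast_mul, ZMod.natCast_val, ZMod.cast_id, inv_mul_cancel₀ h2, Nat.cast_one]
    rw [ZMod.natCast_eq_natCast_iff] at hm
    refine ⟨m + p, ?_⟩
    have hc : 0 < Fintype.card Δ := Fintype.card_pos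
    have h3 : 1 ≤ (m + p) * Fintype.card Δ := Nat.one_le_iff_ne_zero.2
      (Nat.mul_ne_zero (by have := hp.pos; omega) hc.ne')
    have h4 : 1 ≡ (m + p) * Fintype.card Δ [MOD p] := by
      rw [add_mul]
      refine hm.symm.trans ?_
      have h5 : m * Fintype.card Δ + 0 ≡ m * Fintype.card Δ + p * Fintype.card Δ [MOD p] :=
        Nat.ModEq.add_left _ ((Nat.modEq_zero_iff_dvd.2 (dvd_mul_right p _)).symm)
      rwa [add_zero] at h5
    obtain ⟨c, hc⟩ := (Nat.modEq_iff_dvd' h3).1 h4
    exact ⟨c, by omega⟩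
  obtain ⟨c, hc⟩ := hm
  refine ⟨⟨AddMonoidHom.mk' (fun n => m • ∑ d : Δ, a d (g0 (ρ d⁻¹ n))) ?_, ?_⟩, ?_⟩
  · intro x y
    simp only [map_add, Finset.sum_add_distrib, smul_add]
  · intro e n
    show m • ∑ d : Δ, a d (g0 (ρ d⁻¹ (ρ e n))) = a e (m • ∑ d : Δ, a d (g0 (ρ d⁻¹ n)))
    rw [map_nsmul, map_sum]
    congr 1
    rw [← Equiv.sum_comp (Equiv.mulLeft e) (fun d => a d (g0 (ρ d⁻¹ (ρ e n))))]
    refine Finset.sum_congr rfl fun d _ => ?_
    have h1 : ρ (e * d)⁻¹ (ρ e n) = ρ d⁻¹ n := by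
      rw [← end_mul, ← map_mul, mul_inv_rev, inv_mul_cancel_right]
    show a (e * d) (g0 (ρ (e * d)⁻¹ (ρ e n))) = a e (a d (g0 (ρ d⁻¹ n)))
    rw [h1, map_mul, end_mul]
  · intro n
    show u (m • ∑ d : Δ, a d (g0 (ρ d⁻¹ n))) = f n
    rw [map_nsmul, map_sum]
    have h1 : ∀ d ∈ (Finset.univ : Finset Δ), u (a d (g0 (ρ d⁻¹ n))) = f n := fun d _ => by
      rw [hu, hg0, ← hf, ← end_mul, ← map_mul, mul_inv_cancel, map_one]
      rfl
    rw [Finset.sum_congr rfl h1, Finset.sum_const, Finset.card_univ, smul_smul, hc, add_smul,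
      one_smul, mul_comm, mul_smul, ← map_nsmul, hN, map_zero, smul_zero, add_zero]

end Equi

/-! ### quotients and submodules -/

section Quot

variable {Δ : Type} [Group Δ] {X : Type} [AddCommGroup X] (a : Δ →* AddMonoid.End X)
  (P : AddSubgroup X) (hP : ∀ d, ∀ x ∈ P, a d x ∈ P)

/-- the action on the quotient -/
def qa : Δ →* AddMonoid.End (X ⧸ P) where
  toFun d := QuotientAddGroup.map P P (a d) (fun x hx => hP d x hx)
  map_one' := by
    refine AddMonoidHom.ext fun q => ?_
    obtain ⟨x, rfl⟩ := QuotientAddGroup.mk_surjective q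
    show (QuotientAddGroup.mk (a 1 x) : X ⧸ P) = QuotientAddGroup.mk x
    rw [map_one]
    rfl
  map_mul' := by
    intro d e
    refine AddMonoidHom.ext fun q => ?_
    obtain ⟨x, rfl⟩ := QuotientAddGroup.mk_surjective q
    show (QuotientAddGroup.mk (a (d * e) x) : X ⧸ P) = QuotientAddGroup.mk (a d (a e x))
    rw [map_mul]
    rfl

theorem qa_mk (d : Δ) (x : X) : qa a P hP d (QuotientAddGroup.mk x) =
    QuotientAddGroup.mk (a d x) := rfl

/-- the action on a submodule -/
def sa : Δ →* AddMonoid.End P where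
  toFun d := AddMonoidHom.mk' (fun x => ⟨a d x, hP d x x.2⟩) (by
    intro x y
    apply Subtype.ext
    show a d ((x : X) + y) = a d x + a d y
    rw [map_add])
  map_one' := by
    ext x
    show a 1 (x : X) = x
    rw [map_one]
    rfl
  map_mul' := by
    intro d e
    ext x
    show a (d * e) (x : X) = a d (a e x)
    rw [map_mul]
    rfl

theorem sa_coe (d : Δ) (x : P) : ((sa a P hP d x : P) : X) = a d x := rfl

theorem PP_stable (p : ℕ) (d : Δ) : ∀ x ∈ PP p X, a d x ∈ PP p X := by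
  rintro _ ⟨x, rfl⟩
  refine ⟨a d x, ?_⟩
  show p • a d x = a d (p • x)
  rw [map_nsmul]

theorem hq_eq {N : Type} [AddCommGroup N] (ρ : Δ →* AddMonoid.End N) (p : ℕ) :
    hq p ρ a = Nat.card (EH ρ (qa a (PP p X) (PP_stable a p))) := by
  refine Nat.card_congr (Equiv.subtypeEquivRight fun f => ?_)
  constructor
  · intro h d n
    obtain ⟨x, hx⟩ := QuotientAddGroup.mk_surjective (f n)
    rw [h d n x hx.symm, ← hx, qa_mk]
  · intro h d n x hx
    rw [h d n, hx, qa_mk]

end Quot

theorem mem_PP {p : ℕ} {X : Type*} [AddCommGroup X] {x : X} : x ∈ PP p X ↔ ∃ y : X, p • y = x :=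
  Iff.rfl

section Main

variable {p : ℕ} [Fact p.Prime] {Δ : Type} [Group Δ] [Finite Δ] {N : Type} [AddCommGroup N]
  {ρ : Δ →* AddMonoid.End N} {X Y : Type} [AddCommGroup X] [AddCommGroup Y]
  {a : Δ →* AddMonoid.End X} {a' : Δ →* AddMonoid.End Y} {i : Y →+ X}

omit [Finite Δ] in
theorem range_stable (hia : ∀ d y, i (a' d y) = a d (i y)) (d : Δ) :
    ∀ x ∈ i.range, a d x ∈ i.range := by
  rintro _ ⟨y, rfl⟩
  exact ⟨a' d y, hia d y⟩

/-- the map of the quotients -/
def jm (p : ℕ) (i : Y →+ X) : Y ⧸ PP p Y →+ X ⧸ PP p X :=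
  QuotientAddGroup.map (PP p Y) (PP p X) i (by
    rintro _ ⟨y, rfl⟩
    exact ⟨i y, (map_nsmul i p y).symm⟩)

omit [Fact p.Prime] in
theorem jm_mk (y : Y) : jm p i (QuotientAddGroup.mk y) = QuotientAddGroup.mk (i y) := rfl

omit [Fact p.Prime] in
theorem quot_nsmul (x : X ⧸ PP p X) : p • x = 0 := by
  obtain ⟨x, rfl⟩ := QuotientAddGroup.mk_surjective x
  rw [← QuotientAddGroup.mk_nsmul, QuotientAddGroup.eq_zero_iff]
  exact ⟨x, rfl⟩

omit [Fact p.Prime] [Finite Δ] in
theorem jm_equi (hia : ∀ d y, i (a' d y) = a d (i y)) (d : Δ) (y : Y ⧸ PP p Y) :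
    jm p i (qa a' (PP p Y) (PP_stable a' p) d y) = qa a (PP p X) (PP_stable a p) d (jm p i y) := by
  obtain ⟨y, rfl⟩ := QuotientAddGroup.mk_surjective y
  rw [qa_mk, jm_mk, jm_mk, qa_mk, hia]

omit [Fact p.Prime] in
/-- finiteness of `X / p` -/
theorem finite_quot (hidx : i.range.index ≠ 0) (hY : Finite (Y ⧸ PP p Y)) :
    Finite (X ⧸ PP p X) := by
  have h1 : i.range ≤ (jm p i).range.comap (QuotientAddGroup.mk' (PP p X)) := by
    rintro _ ⟨y, rfl⟩
    exact ⟨QuotientAddGroup.mk y, rfl⟩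
  have h2 : ((jm p i).range.comap (QuotientAddGroup.mk' (PP p X))).index ≠ 0 := by
    have : i.range.FiniteIndex := ⟨hidx⟩
    exact (AddSubgroup.finiteIndex_of_le h1).index_ne_zero
  rw [AddSubgroup.index_comap_of_surjective _ (QuotientAddGroup.mk'_surjective _)] at h2
  have h3 : Nat.card (X ⧸ PP p X) ≠ 0 := by
    rw [← AddSubgroup.card_mul_index (jm p i).range]
    refine mul_ne_zero ?_ h2
    have : Finite (jm p i).range := Set.finite_range (jm p i)
    exact Nat.card_pos.ne'
  exact Nat.finite_of_card_ne_zero h3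

/-- the case in which `X / Y` is killed by `p` -/
theorem case2 (hΔ : ¬ p ∣ Nat.card Δ) (hN : ∀ n : N, p • n = 0) (hi : Function.Injective i)
    (hia : ∀ d y, i (a' d y) = a d (i y)) (hpX : ∀ x : X, p • x ∈ i.range) :
    hq p ρ a * ht ρ a' = hq p ρ a' * ht ρ a := by
  rw [hq_eq, hq_eq, ht_eq, ht_eq]
  choose s' hs' using hpX
  obtain ⟨s, hs⟩ : ∃ s : X →+ Y, ∀ x, i (s x) = p • x :=
    ⟨AddMonoidHom.mk' s' (fun x y => hi (by rw [hs', map_add, hs', hs', smul_add])), hs'⟩
  -- the maps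
  obtain ⟨C, hC⟩ : ∃ C : AddSubgroup X, C = i.range := ⟨_, rfl⟩
  have hCs : ∀ d, ∀ x ∈ C, a d x ∈ C := by
    rw [hC]
    exact range_stable hia
  have hCi : ∀ x, x ∈ C ↔ ∃ y, i y = x := fun x => by rw [hC]; rfl
  have hpC : ∀ x : X ⧸ C, p • x = 0 := fun x => by
    obtain ⟨x, rfl⟩ := QuotientAddGroup.mk_surjective x
    rw [← QuotientAddGroup.mk_nsmul, QuotientAddGroup.eq_zero_iff, hCi]
    exact ⟨s x, hs x⟩
  have hsC : ∀ y, s (i y) = p • y := fun y => hi (by rw [hs, map_nsmul])
  have hsa : ∀ d x, s (a d x) = a' d (s x) := fun d x => hi (by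
    rw [hs, hia, hs, map_nsmul])
  obtain ⟨δ, hδ⟩ : ∃ δ : X ⧸ C →+ Y ⧸ PP p Y, ∀ x : X,
      δ (QuotientAddGroup.mk x) = QuotientAddGroup.mk (s x) :=
    ⟨QuotientAddGroup.map C (PP p Y) s (by
      intro x hx
      obtain ⟨y, rfl⟩ := (hCi x).1 hx
      exact ⟨y, (hsC y).symm⟩), fun x => rfl⟩
  obtain ⟨π, hπ⟩ : ∃ π : X ⧸ PP p X →+ X ⧸ C, ∀ x : X,
      π (QuotientAddGroup.mk x) = QuotientAddGroup.mk x :=
    ⟨QuotientAddGroup.map (PP p X) C (AddMonoidHom.id X) (by
      rintro _ ⟨x, rfl⟩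
      exact (hCi _).2 ⟨s x, hs x⟩), fun x => rfl⟩
  have hδe : ∀ d x, δ (qa a C hCs d x) = qa a' (PP p Y) (PP_stable a' p) d (δ x) := by
    intro d x
    obtain ⟨x, rfl⟩ := QuotientAddGroup.mk_surjective x
    rw [qa_mk, hδ, hδ, qa_mk, hsa]
  have hπe : ∀ d x, π (qa a (PP p X) (PP_stable a p) d x) = qa a C hCs d (π x) := by
    intro d x
    obtain ⟨x, rfl⟩ := QuotientAddGroup.mk_surjective x
    rw [qa_mk, hπ, hπ, qa_mk]
  have hme : ∀ d x, QuotientAddGroup.mk' C (a d x) = qa a C hCs d (QuotientAddGroup.mk' C x) :=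
    fun d x => rfl
  refine six (post (ρ := ρ) i hia) (post (QuotientAddGroup.mk' C) hme) (post δ hδe)
    (post (jm p i) (jm_equi hia)) (post π hπe) (post_injective i hia hi) ?_ ?_ ?_ ?_ ?_
  · -- exactness at `X`
    ext f
    rw [AddMonoidHom.mem_ker, AddMonoidHom.mem_range]
    constructor
    · intro h
      have h1 : ∀ n, ∃ y, i y = f.1 n := fun n => by
        have h2 := DFunLike.congr_fun (congrArg Subtype.val h) n
        exact (hCi _).1 ((QuotientAddGroup.eq_zero_iff _).1 h2)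
      choose g hg using h1
      refine ⟨⟨AddMonoidHom.mk' g (fun x y => hi (by rw [hg, map_add, map_add, hg, hg])),
        fun d n => hi ?_⟩, ?_⟩
      · show i (g (ρ d n)) = i (a' d (g n))
        rw [hg, hia, hg, f.2 d n]
      · apply Subtype.ext
        ext n
        exact hg n
    · rintro ⟨g, rfl⟩
      apply Subtype.ext
      ext n
      show (QuotientAddGroup.mk (i (g.1 n)) : X ⧸ C) = 0
      rw [QuotientAddGroup.eq_zero_iff, hCi]
      exact ⟨_, rfl⟩
  · -- exactness at `X / Y`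
    ext f
    rw [AddMonoidHom.mem_ker, AddMonoidHom.mem_range]
    constructor
    · intro h
      obtain ⟨T, hT⟩ : ∃ T : AddSubgroup X, T = (nsmulAddMonoidHom (α := X) p).ker := ⟨_, rfl⟩
      have hTm : ∀ x, x ∈ T ↔ p • x = 0 := fun x => by rw [hT]; rfl
      have hTs : ∀ d, ∀ x ∈ T, a d x ∈ T := fun d x hx => by
        rw [hTm] at hx ⊢
        rw [← map_nsmul, hx, map_zero]
      obtain ⟨g, hg⟩ := lift (a := sa a T hTs) (b := qa a C hCs) p hΔ hN
        (fun x => Subtype.ext ((hTm x).1 x.2))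
        ((QuotientAddGroup.mk' C).comp T.subtype) (fun d x => rfl) f.1 f.2 (fun n => by
          obtain ⟨x, hx⟩ := QuotientAddGroup.mk_surjective (f.1 n)
          have h2 : δ (f.1 n) = 0 := DFunLike.congr_fun (congrArg Subtype.val h) n
          rw [← hx, hδ, QuotientAddGroup.eq_zero_iff] at h2
          obtain ⟨y, hy⟩ := h2
          have hy' : p • y = s x := hy
          refine ⟨⟨x - i y, ?_⟩, ?_⟩
          · rw [hTm, smul_sub, ← map_nsmul, hy', hs, sub_self]
          · rw [← hx]
            show (QuotientAddGroup.mk (x - i y) : X ⧸ C) = QuotientAddGroup.mk x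
            rw [QuotientAddGroup.mk_sub, (QuotientAddGroup.eq_zero_iff (i y)).2
              ((hCi _).2 ⟨y, rfl⟩), sub_zero])
      refine ⟨⟨T.subtype.comp g.1, fun d n => ?_⟩, ?_⟩
      · show ((g.1 (ρ d n) : T) : X) = a d (g.1 n)
        rw [g.2 d n]
        rfl
      · apply Subtype.ext
        ext n
        exact hg n
    · rintro ⟨g, rfl⟩
      apply Subtype.ext
      ext n
      show δ (QuotientAddGroup.mk (g.1 n)) = 0
      rw [hδ]
      have h1 : s (g.1 n) = 0 := hi (by rw [hs, ← map_nsmul, hN, map_zero, map_zero])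
      rw [h1]
      rfl
  · -- exactness at `Y / p`
    ext f
    rw [AddMonoidHom.mem_ker, AddMonoidHom.mem_range]
    constructor
    · intro h
      obtain ⟨g, hg⟩ := lift (a := qa a C hCs) (b := qa a' (PP p Y) (PP_stable a' p)) p hΔ hN hpC
        δ hδe f.1 f.2 (fun n => by
          obtain ⟨y, hy⟩ := QuotientAddGroup.mk_surjective (f.1 n)
          have h2 : jm p i (f.1 n) = 0 := DFunLike.congr_fun (congrArg Subtype.val h) n
          rw [← hy, jm_mk, QuotientAddGroup.eq_zero_iff] at h2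
          obtain ⟨x, hx⟩ := h2
          have hx' : p • x = i y := hx
          refine ⟨QuotientAddGroup.mk x, ?_⟩
          rw [hδ, ← hy]
          congr 1
          exact hi (by rw [hs, hx']))
      exact ⟨g, Subtype.ext (AddMonoidHom.ext hg)⟩
    · rintro ⟨g, rfl⟩
      apply Subtype.ext
      ext n
      show jm p i (δ (g.1 n)) = 0
      obtain ⟨x, hx⟩ := QuotientAddGroup.mk_surjective (g.1 n)
      rw [← hx, hδ, jm_mk, QuotientAddGroup.eq_zero_iff]
      exact ⟨x, (hs x).symm⟩
  · -- exactness at `X / p`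
    ext f
    rw [AddMonoidHom.mem_ker, AddMonoidHom.mem_range]
    constructor
    · intro h
      obtain ⟨g, hg⟩ := lift (a := qa a' (PP p Y) (PP_stable a' p))
        (b := qa a (PP p X) (PP_stable a p)) p hΔ hN quot_nsmul
        (jm p i) (jm_equi hia) f.1 f.2 (fun n => by
          obtain ⟨x, hx⟩ := QuotientAddGroup.mk_surjective (f.1 n)
          have h2 : π (f.1 n) = 0 := DFunLike.congr_fun (congrArg Subtype.val h) n
          rw [← hx, hπ, QuotientAddGroup.eq_zero_iff, hCi] at h2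
          obtain ⟨y, hy⟩ := h2
          exact ⟨QuotientAddGroup.mk y, by rw [jm_mk, hy, hx]⟩)
      exact ⟨g, Subtype.ext (AddMonoidHom.ext hg)⟩
    · rintro ⟨g, rfl⟩
      apply Subtype.ext
      ext n
      show π (jm p i (g.1 n)) = 0
      obtain ⟨y, hy⟩ := QuotientAddGroup.mk_surjective (g.1 n)
      rw [← hy, jm_mk, hπ, QuotientAddGroup.eq_zero_iff, hCi]
      exact ⟨y, rfl⟩
  · -- surjectivity
    intro f
    obtain ⟨g, hg⟩ := lift (a := qa a (PP p X) (PP_stable a p)) (b := qa a C hCs) p hΔ hN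
      quot_nsmul π hπe f.1 f.2 (fun n => by
        obtain ⟨x, hx⟩ := QuotientAddGroup.mk_surjective (f.1 n)
        exact ⟨QuotientAddGroup.mk x, by rw [hπ, hx]⟩)
    exact ⟨g, Subtype.ext (AddMonoidHom.ext hg)⟩

/-- the case in which `p` is invertible on `X / Y` -/
theorem case1 (hΔ : ¬ p ∣ Nat.card Δ) (hN : ∀ n : N, p • n = 0) (hi : Function.Injective i)
    (hia : ∀ d y, i (a' d y) = a d (i y)) (h1 : ∀ x : X, p • x ∈ i.range → x ∈ i.range)
    (h2 : ∀ x : X, ∃ y x', x = i y + p • x') :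
    hq p ρ a * ht ρ a' = hq p ρ a' * ht ρ a := by
  rw [hq_eq, hq_eq, ht_eq, ht_eq]
  congr 1
  · refine (Nat.card_congr (Equiv.ofBijective (post (jm p i) (jm_equi hia))
      ⟨post_injective _ _ ?_, ?_⟩)).symm
    · rw [injective_iff_map_eq_zero]
      intro y hy
      obtain ⟨y, rfl⟩ := QuotientAddGroup.mk_surjective y
      rw [jm_mk, QuotientAddGroup.eq_zero_iff] at hy
      obtain ⟨x, hx⟩ := hy
      have hx' : p • x = i y := hx
      obtain ⟨y', rfl⟩ := h1 x ⟨y, hx'.symm⟩
      rw [QuotientAddGroup.eq_zero_iff]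
      refine ⟨y', hi ?_⟩
      show i (p • y') = i y
      rw [map_nsmul, hx']
    · intro f
      obtain ⟨g, hg⟩ := lift (a := qa a' (PP p Y) (PP_stable a' p))
        (b := qa a (PP p X) (PP_stable a p)) p hΔ hN quot_nsmul
        (jm p i) (jm_equi hia) f.1 f.2 (fun n => by
          obtain ⟨x, hx⟩ := QuotientAddGroup.mk_surjective (f.1 n)
          obtain ⟨y, x', hyx⟩ := h2 x
          refine ⟨QuotientAddGroup.mk y, ?_⟩
          have h5 : (QuotientAddGroup.mk (p • x') : X ⧸ PP p X) = 0 :=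
            (QuotientAddGroup.eq_zero_iff _).2 ⟨x', rfl⟩
          rw [jm_mk, ← hx, hyx, QuotientAddGroup.mk_add, h5, add_zero])
      exact ⟨g, Subtype.ext (AddMonoidHom.ext hg)⟩
  · refine Nat.card_congr (Equiv.ofBijective (post i hia) ⟨post_injective _ _ hi, ?_⟩)
    intro f
    have h3 : ∀ n, ∃ y, i y = f.1 n := fun n => h1 (f.1 n) ⟨0, by
      rw [map_zero, ← map_nsmul, hN, map_zero]⟩
    choose g hg using h3
    refine ⟨⟨AddMonoidHom.mk' g (fun x y => hi (by rw [hg, map_add, map_add, hg, hg])),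
      fun d n => hi ?_⟩, ?_⟩
    · show i (g (ρ d n)) = i (a' d (g n))
      rw [hg, hia, hg, f.2 d n]
    · apply Subtype.ext
      ext n
      exact hg n

end Main

end EigAux

open EigAux in
/-- Module EIG. -/
theorem stEig : StEig := by
  intro p _ Δ _ _ hΔ N _ _ hN ρ X Y _ _ a a' i hi hia hidx hYp hXt
  refine ⟨finite_quot hidx hYp, ?_⟩
  have hp : p.Prime := Fact.out
  have key : ∀ m : ℕ, ∀ (X Y : Type) [AddCommGroup X] [AddCommGroup Y]
      (a : Δ →* AddMonoid.End X) (a' : Δ →* AddMonoid.End Y) (i : Y →+ X),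
      Function.Injective i → (∀ d y, i (a' d y) = a d (i y)) → i.range.index ≠ 0 →
      Finite (Y ⧸ PP p Y) → Finite {x : X // p • x = 0} → i.range.index = m →
      hq p ρ a * ht ρ a' = hq p ρ a' * ht ρ a := by
    intro m
    induction m using Nat.strong_induction_on with
    | _ m ih =>
      intro X Y _ _ a a' i hi hia hidx hYp hXt hm
      have hfi : i.range.FiniteIndex := ⟨hidx⟩
      obtain ⟨Z, hZ⟩ : ∃ Z : AddSubgroup X, Z = i.range ⊔ PP p X := ⟨_, rfl⟩
      have hZm : ∀ x, x ∈ Z ↔ ∃ y x', x = i y + p • x' := fun x => by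
        rw [hZ, AddSubgroup.mem_sup]
        constructor
        · rintro ⟨_, ⟨y, rfl⟩, _, ⟨x', rfl⟩, rfl⟩
          exact ⟨y, x', rfl⟩
        · rintro ⟨y, x', rfl⟩
          exact ⟨_, ⟨y, rfl⟩, _, ⟨x', rfl⟩, rfl⟩
      by_cases hZt : Z = ⊤
      · -- `p` is surjective on `X / Y`
        refine case1 hΔ hN hi hia (fun x hx => ?_) (fun x => (hZm x).1 (by rw [hZt]; trivial))
        have hfin : Finite (X ⧸ i.range) := inferInstance
        have hsurj : Function.Surjective (fun q : X ⧸ i.range => p • q) := by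
          intro q
          obtain ⟨x, rfl⟩ := QuotientAddGroup.mk_surjective q
          obtain ⟨y, x', rfl⟩ := (hZm x).1 (by rw [hZt]; trivial)
          refine ⟨QuotientAddGroup.mk x', ?_⟩
          show p • (QuotientAddGroup.mk x' : X ⧸ i.range) = _
          have h5 : (QuotientAddGroup.mk (i y) : X ⧸ i.range) = 0 :=
            (QuotientAddGroup.eq_zero_iff _).2 ⟨y, rfl⟩
          rw [QuotientAddGroup.mk_add, h5, zero_add]
          rfl
        have hinj : Function.Injective (fun q : X ⧸ i.range => p • q) :=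
          Finite.injective_iff_surjective.2 hsurj
        have h1 : (QuotientAddGroup.mk x : X ⧸ i.range) = 0 := by
          refine hinj ?_
          show p • (QuotientAddGroup.mk x : X ⧸ i.range) = p • 0
          rw [smul_zero, ← QuotientAddGroup.mk_nsmul, QuotientAddGroup.eq_zero_iff]
          exact hx
        exact (QuotientAddGroup.eq_zero_iff x).1 h1
      · have hZs : ∀ d, ∀ x ∈ Z, a d x ∈ Z := fun d x hx => by
          obtain ⟨y, x', rfl⟩ := (hZm x).1 hx
          refine (hZm _).2 ⟨a' d y, a d x', ?_⟩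
          rw [map_add, hia, map_nsmul]
        have hiZ : ∀ y, i y ∈ Z := fun y => (hZm _).2 ⟨y, 0, by rw [smul_zero, add_zero]⟩
        have hle : i.range ≤ Z := by
          rintro _ ⟨y, rfl⟩
          exact hiZ y
        have hrel := AddSubgroup.relIndex_mul_index hle
        have hZi : Z.index ≠ 0 := fun h => hidx (by rw [← hrel, h, mul_zero])
        have hr0 : i.range.relIndex Z ≠ 0 := fun h => hidx (by rw [← hrel, h, zero_mul])
        have hZ1 : Z.index ≠ 1 := fun h => hZt (AddSubgroup.index_eq_one.1 h)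
        obtain ⟨i', hi'⟩ : ∃ i' : Y →+ Z, ∀ y, ((i' y : Z) : X) = i y :=
          ⟨i.codRestrict Z hiZ, fun y => rfl⟩
        have hi'r : i'.range = i.range.addSubgroupOf Z := by
          ext z
          rw [AddSubgroup.mem_addSubgroupOf]
          constructor
          · rintro ⟨y, rfl⟩
            exact ⟨y, (hi' y).symm⟩
          · rintro ⟨y, hy⟩
            exact ⟨y, Subtype.ext (by rw [hi', hy])⟩
        have hi'x : i'.range.index = i.range.relIndex Z := by rw [hi'r]; rfl
        have hlt : i'.range.index < m := by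
          rw [hi'x, ← hm, ← hrel]
          exact lt_mul_of_one_lt_right (Nat.pos_of_ne_zero hr0) (by omega)
        have hi'i : Function.Injective i' := fun y y' h => hi (by
          rw [← hi', ← hi', h])
        have hi'a : ∀ d y, i' (a' d y) = sa a Z hZs d (i' y) := fun d y => Subtype.ext (by
          rw [hi', sa_coe, hi', hia])
        have hZt' : Finite {x : Z // p • x = 0} := by
          refine Finite.of_injective (fun x : {x : Z // p • x = 0} =>
            (⟨(x.1 : X), by
              have h1 := congrArg (Subtype.val) x.2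
              exact h1⟩ : {x : X // p • x = 0})) ?_
          intro x y hxy
          have h5 : ((x.1 : Z) : X) = ((y.1 : Z) : X) := by
            have h6 := congrArg Subtype.val hxy
            exact h6
          exact Subtype.ext (Subtype.ext h5)
        have h1 := ih _ hlt Z Y (sa a Z hZs) a' i' hi'i hi'a (by rw [hi'x]; exact hr0) hYp hZt' rfl
        have h2 : hq p ρ a * ht ρ (sa a Z hZs) = hq p ρ (sa a Z hZs) * ht ρ a :=
          case2 (i := Z.subtype) hΔ hN Subtype.val_injective (fun d z => rfl) (fun x => by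
            rw [AddSubgroup.range_subtype]
            exact (hZm _).2 ⟨0, x, by rw [map_zero, zero_add]⟩)
        have hZp : Finite (Z ⧸ PP p Z) := finite_quot (i := i') (by rw [hi'x]; exact hr0) hYp
        have h3 : hq p ρ (sa a Z hZs) ≠ 0 := by
          rw [hq_eq]
          have : Finite (N →+ Z ⧸ PP p Z) := DFunLike.finite _
          exact Nat.card_pos.ne'
        have h4 : ht ρ (sa a Z hZs) ≠ 0 := by
          rw [ht_eq]
          have : Finite (EH ρ (sa a Z hZs)) := by
            refine Finite.of_injective (fun f : EH ρ (sa a Z hZs) =>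
              (fun n : N => (⟨f.1 n, by rw [← map_nsmul, hN, map_zero]⟩ :
                {x : Z // p • x = 0}))) ?_
            intro f g hfg
            apply Subtype.ext
            ext n
            have h5 : f.1 n = g.1 n := congrArg Subtype.val (congrFun hfg n)
            rw [h5]
          exact Nat.card_pos.ne'
        refine mul_left_cancel₀ (mul_ne_zero h3 h4) ?_
        calc hq p ρ (sa a Z hZs) * ht ρ (sa a Z hZs) * (hq p ρ a * ht ρ a') =
            (hq p ρ a * ht ρ (sa a Z hZs)) * (hq p ρ (sa a Z hZs) * ht ρ a') := by ring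
          _ = (hq p ρ (sa a Z hZs) * ht ρ a) * (hq p ρ a' * ht ρ (sa a Z hZs)) := by rw [h1, h2]
          _ = _ := by ring
  exact key _ X Y a a' i hi hia hidx hYp hXt rfl

end BKLoc2
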