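import Pool.Agent.Lib.MP_7c08ba_nt.Met.LocStmts

/-!
# Module FREE: the regular representation
-/

set_option autoImplicit false

noncomputable section

namespace BKLoc2

namespace FreeAux

/-- the dual of a finite vector space -/
theorem card_dual (p : ℕ) [Fact p.Prime] (N : Type) [AddCommGroup N] [Finite N]
    [Module (ZMod p) N] : Nat.card (N →ₗ[ZMod p] ZMod p) = Nat.card N := by
  have : Module.Finite (ZMod p) N := Module.Finite.of_finite
  have h2 : Nat.card (Module.Dual (ZMod p) N) =
      Nat.card (ZMod p) ^ Module.finrank (ZMod p) (Module.Dual (ZMod p) N) :=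
    Module.natCard_eq_pow_finrank
  have h1 : Nat.card N = Nat.card (ZMod p) ^ Module.finrank (ZMod p) N :=
    Module.natCard_eq_pow_finrank
  rw [Subspace.dual_finrank_eq] at h2
  rw [h1]
  exact h2

/-- the number of homomorphisms to `ℤ/p` of an elementary abelian group -/
theorem card_hom (p : ℕ) [Fact p.Prime] (N : Type) [AddCommGroup N] [Finite N]
    (hN : ∀ n : N, p • n = 0) : Nat.card (N →+ ZMod p) = Nat.card N := by
  let _ : Module (ZMod p) N := AddCommGroup.zmodModule hN
  have e : (N →+ ZMod p) ≃ (N →ₗ[ZMod p] ZMod p) :=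
    { toFun := fun f => AddMonoidHom.toZModLinearMap p f
      invFun := fun f => f.toAddMonoidHom
      left_inv := fun f => by ext n; rfl
      right_inv := fun f => by ext n; rfl }
  rw [Nat.card_congr e]
  exact card_dual p N

end FreeAux

theorem stFree : StFree := by
  intro p _ Δ _ _ N _ _ hN ρ X _ a φ hφ hker heq
  -- the induced isomorphism
  have hk : φ.ker = PP p X := by
    ext x
    rw [AddMonoidHom.mem_ker]
    exact hker x
  set ψ : X ⧸ PP p X →+ (Δ → ZMod p) := QuotientAddGroup.lift (PP p X) φ (by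
    intro x hx
    exact (hker x).2 hx) with hψ
  have hψmk : ∀ x : X, ψ (QuotientAddGroup.mk x) = φ x := fun x => rfl
  have hψinj : Function.Injective ψ := by
    rw [injective_iff_map_eq_zero]
    intro y
    induction y using QuotientAddGroup.induction_on with
    | H x =>
      intro h
      rw [hψmk] at h
      exact (QuotientAddGroup.eq_zero_iff x).2 ((hker x).1 h)
  have hψsurj : Function.Surjective ψ := by
    intro y
    obtain ⟨x, rfl⟩ := hφ y
    exact ⟨QuotientAddGroup.mk x, hψmk x⟩
  set E : X ⧸ PP p X ≃+ (Δ → ZMod p) := AddEquiv.ofBijective ψ ⟨hψinj, hψsurj⟩ with hE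
  have hEmk : ∀ x : X, E (QuotientAddGroup.mk x) = φ x := fun x => rfl
  rw [← FreeAux.card_hom p N hN]
  unfold hq
  -- the inverse map
  have key : ∀ f : N →+ X ⧸ PP p X, (∀ d n x, f n = QuotientAddGroup.mk x →
      f (ρ d n) = QuotientAddGroup.mk (a d x)) →
      ∀ n τ, E (f n) τ = E (f (ρ τ⁻¹ n)) 1 := by
    intro f hf n τ
    obtain ⟨x, hx⟩ := QuotientAddGroup.mk_surjective (f n)
    rw [hf τ⁻¹ n x hx.symm, ← hx, hEmk, hEmk, heq]
    simp
  refine Nat.card_congr (Equiv.ofBijective
    (fun f => ((Pi.evalAddMonoidHom (fun _ : Δ => ZMod p) 1).comp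
      ((E : X ⧸ PP p X →+ (Δ → ZMod p)).comp f.1) : N →+ ZMod p)) ⟨?_, ?_⟩)
  · rintro ⟨f, hf⟩ ⟨f', hf'⟩ h
    apply Subtype.ext
    ext n
    apply E.injective
    funext τ
    rw [key f hf, key f' hf']
    exact DFunLike.congr_fun h (ρ τ⁻¹ n)
  · intro g
    let F : N →+ (Δ → ZMod p) :=
      { toFun := fun n τ => g (ρ τ⁻¹ n)
        map_zero' := by funext τ; simp
        map_add' := by intro n n'; funext τ; simp }
    have hF : ∀ n τ, F n τ = g (ρ τ⁻¹ n) := fun n τ => rfl
    refine ⟨⟨(E.symm : (Δ → ZMod p) →+ X ⧸ PP p X).comp F, ?_⟩, ?_⟩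
    · intro d n x hx
      have hx' : E.symm (F n) = QuotientAddGroup.mk x := hx
      have h1 : F n = φ x := by
        rw [← hEmk, ← hx', AddEquiv.apply_symm_apply]
      show E.symm (F (ρ d n)) = QuotientAddGroup.mk (a d x)
      rw [AddEquiv.symm_apply_eq, hEmk]
      funext τ
      rw [heq, ← h1, hF, hF]
      congr 1
      have : (d⁻¹ * τ)⁻¹ = τ⁻¹ * d := by group
      rw [this, map_mul]
      rfl
    · ext n
      show E (E.symm (F n)) 1 = g n
      rw [AddEquiv.apply_symm_apply, hF]
      simp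

end BKLoc2
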