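import Pool.Agent.Lib.MP_7c08ba_nt.Met.LocStmts

set_option autoImplicit false

/-!
Parity without rigidity, local part, module INV: construction of the local invariant, extension
by divisibility.
-/

noncomputable section

namespace BKLoc2

open BKOdd
open BKMet (QZ actA)

namespace InvAux

section Coeff

variable (p : ℕ) [Fact p.Prime]

/-- `cl` as a homomorphism -/
def clh : ℚ_[p] →+ QZ p :=
  (Submodule.mkQ (LinearMap.range (Algebra.linearMap ℤ_[p] ℚ_[p]))).toAddMonoidHom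

theorem clh_apply (x : ℚ_[p]) : clh p x = cl p x := rfl

theorem clh_surjective : Function.Surjective (clh p) := Submodule.mkQ_surjective _

theorem clh_eq_zero {x : ℚ_[p]} : clh p x = 0 ↔ ∃ y : ℤ_[p], (y : ℚ_[p]) = x := by
  change Submodule.Quotient.mk x = 0 ↔ _
  rw [Submodule.Quotient.mk_eq_zero, LinearMap.mem_range]
  rfl

/-- divisibility -/
theorem baer : Module.Baer ℤ (QZ p) := by
  let _ : DivisibleBy (QZ p) ℤ :=
    Function.Surjective.divisibleBy (clh p) (clh_surjective p) fun a n => map_zsmul (clh p) n a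
  exact Module.Baer.of_divisible (QZ p)

theorem clh_div_eq_zero {y : ℤ_[p]} {m : ℕ} :
    clh p ((y : ℚ_[p]) / (p : ℚ_[p]) ^ m) = 0 ↔ (p : ℤ_[p]) ^ m ∣ y := by
  have hp : (p : ℚ_[p]) ^ m ≠ 0 :=
    pow_ne_zero _ (by exact_mod_cast (Fact.out : p.Prime).ne_zero)
  rw [clh_eq_zero]
  constructor
  · rintro ⟨z, hz⟩
    refine ⟨z, ?_⟩
    apply PadicInt.ext
    push_cast
    rw [hz, mul_div_cancel₀ _ hp]
  · rintro ⟨z, rfl⟩
    refine ⟨z, ?_⟩
    push_cast
    rw [mul_div_cancel_left₀ _ hp]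

end Coeff

section Abs

variable {p : ℕ} [Fact p.Prime]

/-- The abstract statement. -/
theorem abs {H : Type} [AddCommGroup H] (T : AddSubgroup H) {X : Type} [AddCommGroup X]
    (r : X →+ ℤ_[p]) (s : ℕ → X →+ H) (hs : ∀ m x, s m x ∈ T)
    (hb : ∀ m x, p • s (m + 1) x = s m x)
    (hc : ∀ m x, s m x = 0 ↔ (p : ℤ_[p]) ^ m ∣ r x) (hr : ∃ x, r x ≠ 0)
    (hT : ∀ t ∈ T, ∃ n : ℕ, p ^ n • t = 0)
    (hl : ∀ t ∈ T, ∀ t' ∈ T, p • t = 0 → p • t' = 0 → t ≠ 0 → ∃ a : ℕ, t' = a • t) :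
    ∃ inv : H →+ QZ p, (∀ t ∈ T, inv t = 0 ↔ t = 0) ∧
      ∀ m x, inv (s m x) = cl p ((r x : ℚ_[p]) / (p : ℚ_[p]) ^ m) := by
  classical
  have hp0 : (p : ℚ_[p]) ≠ 0 := by exact_mod_cast (Fact.out : p.Prime).ne_zero
  -- change of the denominator
  have hbj : ∀ (j m : ℕ) (x : X), p ^ j • s (m + j) x = s m x := by
    intro j
    induction j with
    | zero => intro m x; simp
    | succ j ih =>
      intro m x
      rw [pow_succ, mul_smul, ← add_assoc, hb, ih]
  have hbx : ∀ (j m : ℕ) (x : X), s m x = s (m + j) (p ^ j • x) := by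
    intro j m x
    rw [map_nsmul, hbj]
  -- a generator of the elements killed by `p`
  obtain ⟨x₀, v, h0, hv⟩ : ∃ (x₀ : X) (v : ℕ), s (v + 1) x₀ ≠ 0 ∧ p • s (v + 1) x₀ = 0 := by
    obtain ⟨x, hx⟩ := hr
    have hex : ∃ m, s m x ≠ 0 := by
      have hp : ¬ IsUnit (p : ℤ_[p]) := (PadicInt.prime_p).not_isUnit
      obtain ⟨n, hn⟩ := FiniteMultiplicity.of_not_isUnit hp hx
      exact ⟨n + 1, fun h => hn ((hc _ _).1 h)⟩
    have h1 := Nat.find_spec hex
    have h2 : Nat.find hex ≠ 0 := by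
      intro h
      rw [h] at h1
      exact h1 ((hc 0 x).2 (by simp))
    obtain ⟨v, hv⟩ := Nat.exists_eq_succ_of_ne_zero h2
    rw [hv] at h1
    refine ⟨x, v, h1, ?_⟩
    rw [hb]
    by_contra h3
    have := Nat.find_min' hex h3
    omega
  -- every element is of the form `s m x`
  have hsurj : ∀ n : ℕ, ∀ t ∈ T, p ^ n • t = 0 → ∃ (m : ℕ) (x : X), t = s m x := by
    intro n
    induction n with
    | zero =>
      intro t _ ht
      rw [pow_zero, one_smul] at ht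
      exact ⟨0, 0, by rw [ht, map_zero]⟩
    | succ n ih =>
      intro t htT ht
      obtain ⟨m, y, hy⟩ := ih (p • t) (T.nsmul_mem htT p) (by rw [← mul_smul, ← pow_succ, ht])
      have h1 : p • (t - s (m + 1) y) = 0 := by
        rw [smul_sub, hb, hy, sub_self]
      obtain ⟨a, ha⟩ := hl _ (hs (v + 1) x₀) _ (T.sub_mem htT (hs (m + 1) y)) hv h1 h0
      have h2 : t = s (m + 1) y + s (v + 1) (a • x₀) := by
        rw [map_nsmul, ← ha]
        abel
      refine ⟨m + 1 + (v + 1), p ^ (v + 1) • y + p ^ (m + 1) • (a • x₀), ?_⟩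
      rw [map_add, ← hbx, h2, add_comm (m + 1) (v + 1), ← hbx]
  have hsurj' : ∀ t : T, ∃ q : ℕ × X, (t : H) = s q.1 q.2 := by
    intro t
    obtain ⟨n, hn⟩ := hT t t.2
    obtain ⟨m, x, h⟩ := hsurj n t t.2 hn
    exact ⟨(m, x), h⟩
  choose q hq using hsurj'
  -- the formula does not depend on the choice
  have key : ∀ (m n : ℕ) (x y : X), s m x = s n y →
      clh p ((r x : ℚ_[p]) / (p : ℚ_[p]) ^ m) = clh p ((r y : ℚ_[p]) / (p : ℚ_[p]) ^ n) := by
    intro m n x y h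
    have h1 : s (m + n) (p ^ n • x - p ^ m • y) = 0 := by
      rw [map_sub, ← hbx, add_comm m n, ← hbx, h, sub_self]
    have h2 := (hc _ _).1 h1
    rw [← sub_eq_zero, ← map_sub, ← (clh_div_eq_zero p).2 h2]
    congr 1
    rw [map_sub, map_nsmul, map_nsmul]
    push_cast
    rw [nsmul_eq_mul, nsmul_eq_mul]
    push_cast
    rw [div_sub_div _ _ (pow_ne_zero _ hp0) (pow_ne_zero _ hp0), pow_add]
    ring
  let f : T →+ QZ p := AddMonoidHom.mk'
    (fun t => clh p ((r (q t).2 : ℚ_[p]) / (p : ℚ_[p]) ^ (q t).1)) (by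
      intro t t'
      have h1 : s (q (t + t')).1 (q (t + t')).2 =
          s ((q t).1 + (q t').1) (p ^ (q t').1 • (q t).2 + p ^ (q t).1 • (q t').2) := by
        rw [← hq, map_add, ← hbx, add_comm (q t).1 (q t').1, ← hbx, ← hq, ← hq]
        rfl
      rw [key _ _ _ _ h1, ← map_add]
      congr 1
      rw [map_add, map_nsmul, map_nsmul]
      push_cast
      rw [nsmul_eq_mul, nsmul_eq_mul]
      push_cast
      rw [div_add_div _ _ (pow_ne_zero _ hp0) (pow_ne_zero _ hp0), pow_add]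
      ring)
  have hf : ∀ t : T, f t = clh p ((r (q t).2 : ℚ_[p]) / (p : ℚ_[p]) ^ (q t).1) := fun _ => rfl
  obtain ⟨F, hF⟩ := (baer p).extension_property_addMonoidHom T.subtype
    (Subtype.val_injective) f
  have hF' : ∀ t : T, F t = f t := fun t => DFunLike.congr_fun hF t
  refine ⟨F, fun t ht => ?_, fun m x => ?_⟩
  · rw [hF' ⟨t, ht⟩, hf, clh_div_eq_zero, ← hc, ← hq]
  · rw [hF' ⟨s m x, hs m x⟩, hf]
    exact key _ _ _ _ (hq ⟨s m x, hs m x⟩).symm

end Abs

section Im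

variable {p : ℕ} [Fact p.Prime]

theorem cl_mod (k : ℕ) : cl p (((k % p : ℕ) : ℚ_[p]) / p) = cl p ((k : ℚ_[p]) / p) := by
  have hp0 : (p : ℚ_[p]) ≠ 0 := by exact_mod_cast (Fact.out : p.Prime).ne_zero
  rw [← clh_apply, ← clh_apply, ← sub_eq_zero, ← map_sub, clh_eq_zero]
  refine ⟨-((k / p : ℕ) : ℤ_[p]), ?_⟩
  have h := congrArg (Nat.cast : ℕ → ℚ_[p]) (Nat.mod_add_div k p)
  push_cast at h ⊢
  rw [← sub_div, eq_div_iff hp0]
  linear_combination -h

theorem im_add {G : Type*} (z w : G → G → ZMod p) : im (z + w) = im z + im w := by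
  funext g h
  change cl p (((z g h + w g h).val : ℚ_[p]) / p) =
    cl p (((z g h).val : ℚ_[p]) / p) + cl p (((w g h).val : ℚ_[p]) / p)
  rw [ZMod.val_add, cl_mod, Nat.cast_add, add_div]
  exact map_add (clh p) _ _

theorem im_smul {G : Type*} (a : ZMod p) (z : G → G → ZMod p) : im (a • z) = a.val • im z := by
  funext g h
  change cl p (((a * z g h).val : ℚ_[p]) / p) = a.val • cl p (((z g h).val : ℚ_[p]) / p)
  rw [ZMod.val_mul, cl_mod, Nat.cast_mul, mul_div_assoc, ← nsmul_eq_mul]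
  exact map_nsmul (clh p) _ _

end Im

end InvAux

open InvAux in
/-- Module INV: construction of the invariant. -/
theorem stInv (h1 : StPA) : StInv := by
  intro p _ V _ _ _ _ _ χ hχ hL X _ r S hS hadd hdiv hzero hr
  obtain ⟨hp1, -, hp3, -, hp5⟩ := h1 p V χ hχ
  set B := BKND.B2 (actA χ) with hB
  let π : (V → V → QZ p) →+ (V → V → QZ p) ⧸ B := QuotientAddGroup.mk' B
  have hπ : ∀ α, π α = 0 ↔ α ∈ B := fun α => QuotientAddGroup.eq_zero_iff α
  let s : ℕ → X →+ (V → V → QZ p) ⧸ B := fun m => AddMonoidHom.mk' (fun x => π (S x m)) (by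
    intro x y
    have h := (hπ _).2 (hadd x y m)
    rw [map_sub, map_sub] at h
    rw [← sub_eq_zero, ← h]
    abel)
  have hs : ∀ m x, s m x = π (S x m) := fun _ _ => rfl
  obtain ⟨F, hF1, hF2⟩ := InvAux.abs ((BKND.Z2 (actA χ)).map π) r s
    (fun m x => ⟨S x m, hS x m, rfl⟩)
    (fun m x => by
      rw [hs, hs, ← map_nsmul, ← sub_eq_zero, ← map_sub]
      exact (hπ _).2 (hdiv x m))
    (fun m x => by rw [hs, hπ]; exact hzero x m) hr
    (by
      rintro _ ⟨α, hα, rfl⟩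
      obtain ⟨n, hn⟩ := hp5 α hα
      exact ⟨n, by rw [← map_nsmul, hn, map_zero]⟩)
    (by
      rintro _ ⟨α, hα, rfl⟩ _ ⟨α', hα', rfl⟩ h2 h3 h4
      rw [← map_nsmul, hπ] at h2 h3
      obtain ⟨z, hz, hz'⟩ := hp1 α hα h2
      obtain ⟨w, hw, hw'⟩ := hp1 α' hα' h3
      have e1 : π α = π (im z) := by
        rw [← sub_eq_zero, ← map_sub]
        exact (hπ _).2 hz'
      have e2 : π α' = π (im w) := by
        rw [← sub_eq_zero, ← map_sub]
        exact (hπ _).2 hw'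
      obtain ⟨a, ha⟩ := hL z hz w hw (fun h5 => h4 (by rw [e1, hπ]; exact hp3 z h5))
      refine ⟨a.val, ?_⟩
      rw [e1, e2, ← map_nsmul, ← im_smul]
      have h6 : im w = im (w - a • z) + im (a • z) := by
        rw [← im_add, sub_add_cancel]
      rw [h6, map_add, (hπ _).2 (hp3 _ ha), zero_add])
  refine ⟨F.comp π, fun α hα => ?_, fun x m => ?_⟩
  · rw [AddMonoidHom.comp_apply, hF1 _ ⟨α, hα, rfl⟩, hπ]
  · rw [AddMonoidHom.comp_apply, ← hs, hF2]

end BKLoc2
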