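import Pool.Agent.Lib.MP_7c08ba_nt.Met.LocStmts

set_option autoImplicit false

/-! Parity without rigidity, local part: the invariant of `ℚ_l` with the explicit formula. -/

noncomputable section

namespace BKLoc2

open BKOdd
open BKMet (QZ actA)

namespace InvLAux

/-- the Galois group of `ℚ_l` is nonarchimedean -/
theorem nonarch (l : ℕ) [Fact l.Prime] : NonarchimedeanGroup (GQ l) where
  is_nonarchimedean := by
    intro U hU
    rw [krullTopology_mem_nhds_one_iff] at hU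
    obtain ⟨E, hE, hEU⟩ := hU
    exact ⟨⟨E.fixingSubgroup, E.fixingSubgroup_isOpen⟩, hEU⟩

/-- multiples of a compatible system -/
theorem smul_iff {p : ℕ} [Fact p.Prime] {Q : Type*} [AddCommGroup Q] (t : ℕ → Q)
    (h0 : t 0 = 0) (h1 : ∀ m, p • t (m + 1) = t m) (r : ℤ_[p])
    (h2 : ∀ m, t m = 0 ↔ (p : ℤ_[p]) ^ m ∣ r) (i : ℤ) (m : ℕ) :
    i • t m = 0 ↔ (p : ℤ_[p]) ^ m ∣ (i : ℤ_[p]) * r := by
  have h3 : ∀ j m, p ^ j • t (m + j) = t m := by
    intro j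
    induction j with
    | zero => intro m; simp
    | succ j ih =>
      intro m
      rw [pow_succ, mul_smul, ← add_assoc, h1, ih]
  have h4 : ∀ m, p ^ m • t m = 0 := fun m => by
    have := h3 m 0
    rwa [zero_add, h0] at this
  rcases eq_or_ne i 0 with rfl | hi
  · simp
  obtain ⟨s, j, hj, rfl⟩ : ∃ (s : ℕ) (j : ℤ), ¬ (p : ℤ) ∣ j ∧ i = (p : ℤ) ^ s * j := by
    have hf : FiniteMultiplicity (p : ℤ) i := Int.finiteMultiplicity_iff.2
      ⟨by simpa using (Fact.out : p.Prime).ne_one, hi⟩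
    obtain ⟨j, hj, hj'⟩ := hf.exists_eq_pow_mul_and_not_dvd
    exact ⟨_, j, hj', hj⟩
  have hju : IsUnit ((j : ℤ) : ℤ_[p]) := by
    rw [PadicInt.isUnit_iff]
    have := (PadicInt.norm_int_lt_one_iff_dvd (p := p) j).not.2 hj
    exact le_antisymm (PadicInt.norm_le_one _) (not_lt.1 this)
  have hjc : ∀ x : Q, p ^ m • x = 0 → (j • x = 0 ↔ x = 0) := by
    intro x hx
    refine ⟨fun h => ?_, fun h => by rw [h, smul_zero]⟩
    have hc : IsCoprime j ((p : ℤ) ^ m) := by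
      refine IsCoprime.pow_right ?_
      exact ((Nat.prime_iff_prime_int.1 (Fact.out : p.Prime)).coprime_iff_not_dvd.2 hj).symm
    obtain ⟨a, b, hab⟩ := hc
    calc x = (a * j + b * (p : ℤ) ^ m) • x := by rw [hab, one_smul]
      _ = 0 := by
        rw [add_smul, mul_smul, mul_smul, h, smul_zero, zero_add]
        have : ((p : ℤ) ^ m) • x = 0 := by
          rw [← hx, ← natCast_zsmul]
          push_cast
          rfl
        rw [this, smul_zero]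
  have e1 : ((p : ℤ) ^ s * j) • t m = j • (p ^ s • t m) := by
    rw [mul_comm, mul_smul, ← natCast_zsmul (t m) (p ^ s)]
    push_cast
    rfl
  have e2 : p ^ m • (p ^ s • t m) = 0 := by
    rw [smul_comm, h4, smul_zero]
  rw [e1, hjc _ e2]
  have e3 : ((p : ℤ_[p]) ^ m ∣ (((p : ℤ) ^ s * j : ℤ) : ℤ_[p]) * r) ↔
      (p : ℤ_[p]) ^ m ∣ (p : ℤ_[p]) ^ s * r := by
    push_cast
    rw [mul_right_comm]
    exact hju.dvd_mul_right
  rw [e3]
  rcases le_total s m with hsm | hsm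
  · obtain ⟨k, rfl⟩ := Nat.exists_eq_add_of_le' hsm
    rw [h3, h2, pow_add, mul_comm ((p : ℤ_[p]) ^ k)]
    exact (mul_dvd_mul_iff_left (pow_ne_zero _ (by
      exact_mod_cast (Fact.out : p.Prime).ne_zero))).symm
  · obtain ⟨k, rfl⟩ := Nat.exists_eq_add_of_le hsm
    refine iff_of_true ?_ (Dvd.dvd.mul_right (pow_dvd_pow _ (Nat.le_add_right _ _)) _)
    rw [pow_add, mul_comm, mul_smul, h4, smul_zero]

variable {p l : ℕ} [Fact p.Prime] [Fact l.Prime]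

/-- the classes of the products -/
theorem psi (h7 : StKPE) (h8 : StSC) (z : ℕ → PadicAlgCl l) (hz : Sys p z)
    (θ : GQ l → ℤ_[p]) (hθ : IsHom θ) :
    ∃ Ψ : ℕ → Additive ℚ_[l]ˣ →+ ((GQ l → GQ l → QZ p) ⧸ BKND.B2 (actA (cyL p l))),
      (∀ (x : ℚ_[l]ˣ) (κ : GQ l → ℤ_[p]), IsKP (MonoidHom.id (GQ l)) z
        (algebraMap ℚ_[l] (PadicAlgCl l) (x : ℚ_[l])) κ → ∀ m,
        sc κ θ m ∈ BKND.Z2 (actA (cyL p l)) ∧
        (QuotientAddGroup.mk (sc κ θ m) : (GQ l → GQ l → QZ p) ⧸ BKND.B2 (actA (cyL p l))) =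
          Ψ m (Additive.ofMul x)) ∧
      (∀ x : ℚ_[l]ˣ, ∃ κ : GQ l → ℤ_[p], IsKP (MonoidHom.id (GQ l)) z
        (algebraMap ℚ_[l] (PadicAlgCl l) (x : ℚ_[l])) κ) ∧
      (∀ m x, p • Ψ (m + 1) x = Ψ m x) ∧ (∀ x, Ψ 0 x = 0) := by
  have hna := nonarch l
  obtain ⟨hc, -, k1, k2, k3, k4⟩ := h7 p ℚ_[l] (PadicAlgCl l) (GQ l) (MonoidHom.id (GQ l))
    continuous_id z hz
  obtain ⟨s1, s2, s3, s4, s5, -⟩ := h8 p (GQ l) (cyL p l) hc θ hθ
  have hne : ∀ x : ℚ_[l]ˣ, algebraMap ℚ_[l] (PadicAlgCl l) (x : ℚ_[l]) ≠ 0 := fun x => by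
    simp
  have hex : ∀ x : ℚ_[l]ˣ, ∃ κ : GQ l → ℤ_[p], IsKP (MonoidHom.id (GQ l)) z
      (algebraMap ℚ_[l] (PadicAlgCl l) (x : ℚ_[l])) κ := fun x =>
    k1 _ (hne x) (fun v => AlgEquiv.commutes v _)
  choose K hK using hex
  have huniq : ∀ (x : ℚ_[l]ˣ) (κ μ : GQ l → ℤ_[p]), IsKP (MonoidHom.id (GQ l)) z
      (algebraMap ℚ_[l] (PadicAlgCl l) (x : ℚ_[l])) κ → IsKP (MonoidHom.id (GQ l)) z
      (algebraMap ℚ_[l] (PadicAlgCl l) (x : ℚ_[l])) μ → ∀ m,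
      (QuotientAddGroup.mk (sc κ θ m) : (GQ l → GQ l → QZ p) ⧸ BKND.B2 (actA (cyL p l))) =
        QuotientAddGroup.mk (sc μ θ m) := by
    intro x κ μ hκ hμ m
    obtain ⟨c, hc'⟩ := k4 _ κ μ (hne x) hκ hμ
    have e1 : sc μ θ m = sc κ θ m + sc (μ - κ) θ m := by
      rw [← s2, add_sub_cancel]
    rw [QuotientAddGroup.eq, e1]
    simpa using s4 (μ - κ) c (fun v => hc' v) m
  refine ⟨fun m => AddMonoidHom.mk' (fun x => QuotientAddGroup.mk (sc (K x.toMul) θ m)) ?_,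
    fun x κ hκ m => ⟨s1 κ (k2 _ _ (hne x) hκ) m, ?_⟩, fun x => ⟨K x, hK x⟩, fun m x => ?_,
    fun x => ?_⟩
  · intro x y
    rw [← QuotientAddGroup.mk_add, ← s2]
    refine huniq (x.toMul * y.toMul) _ _ (hK _) ?_ m
    have := k3 _ _ _ _ (hne x.toMul) (hne y.toMul) (hK x.toMul) (hK y.toMul)
    rwa [← map_mul, ← Units.val_mul] at this
  · exact huniq x _ _ hκ (hK x) m
  · change p • (QuotientAddGroup.mk (sc (K x.toMul) θ (m + 1)) :
      (GQ l → GQ l → QZ p) ⧸ BKND.B2 (actA (cyL p l))) = QuotientAddGroup.mk (sc (K x.toMul) θ m)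
    rw [← s3 (K x.toMul) m 1, pow_one]
    rfl
  · change (QuotientAddGroup.mk (sc (K x.toMul) θ 0) :
      (GQ l → GQ l → QZ p) ⧸ BKND.B2 (actA (cyL p l))) = 0
    rw [s5 _ 0 (fun v => by simp)]
    rfl

/-- the invariant -/
theorem assemble (h1 : StInv) (h2 : StLnX) (h7 : StKPE) (hp : p ≠ 2)
    (z : ℕ → PadicAlgCl l) (hz : Sys p z) (θ : GQ l → ℤ_[p])
    (r : Additive ℚ_[l]ˣ →+ ℤ_[p]) (hr : ∃ x, r x ≠ 0)
    (Ψ : ℕ → Additive ℚ_[l]ˣ →+ ((GQ l → GQ l → QZ p) ⧸ BKND.B2 (actA (cyL p l))))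
    (hΨ : ∀ (x : ℚ_[l]ˣ) (κ : GQ l → ℤ_[p]), IsKP (MonoidHom.id (GQ l)) z
        (algebraMap ℚ_[l] (PadicAlgCl l) (x : ℚ_[l])) κ → ∀ m,
        sc κ θ m ∈ BKND.Z2 (actA (cyL p l)) ∧
        (QuotientAddGroup.mk (sc κ θ m) : (GQ l → GQ l → QZ p) ⧸ BKND.B2 (actA (cyL p l))) =
          Ψ m (Additive.ofMul x))
    (hex : ∀ x : ℚ_[l]ˣ, ∃ κ : GQ l → ℤ_[p], IsKP (MonoidHom.id (GQ l)) z
        (algebraMap ℚ_[l] (PadicAlgCl l) (x : ℚ_[l])) κ)
    (hΨp : ∀ m x, p • Ψ (m + 1) x = Ψ m x)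
    (hr' : ∀ x m, Ψ m x = 0 ↔ (p : ℤ_[p]) ^ m ∣ r x) :
    ∃ inv : (GQ l → GQ l → QZ p) →+ QZ p,
      (∀ α ∈ BKND.Z2 (actA (cyL p l)), inv α = 0 ↔ α ∈ BKND.B2 (actA (cyL p l))) ∧
      ∀ (x : ℚ_[l]ˣ) (κ : GQ l → ℤ_[p]), IsKP (MonoidHom.id (GQ l)) z
        (algebraMap ℚ_[l] (PadicAlgCl l) (x : ℚ_[l])) κ → ∀ m : ℕ,
        inv (sc κ θ m) = cl p ((r (Additive.ofMul x) : ℚ_[p]) / (p : ℚ_[p]) ^ m) := by
  have hna := nonarch l
  obtain ⟨hc, -⟩ := h7 p ℚ_[l] (PadicAlgCl l) (GQ l) (MonoidHom.id (GQ l)) continuous_id z hz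
  have hL : LineX (cyL p l) := h2 p l hp (GQ l) (MonoidHom.id (GQ l))
    Topology.IsOpenEmbedding.id
  choose K hK using hex
  have hm : ∀ (x : Additive ℚ_[l]ˣ) m, (QuotientAddGroup.mk (sc (K x.toMul) θ m) :
      (GQ l → GQ l → QZ p) ⧸ BKND.B2 (actA (cyL p l))) = Ψ m x := fun x m =>
    (hΨ x.toMul (K x.toMul) (hK _) m).2
  have hq : ∀ α : GQ l → GQ l → QZ p, α ∈ BKND.B2 (actA (cyL p l)) ↔
      (QuotientAddGroup.mk α : (GQ l → GQ l → QZ p) ⧸ BKND.B2 (actA (cyL p l))) = 0 :=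
    fun α => (QuotientAddGroup.eq_zero_iff α).symm
  obtain ⟨inv, i1, i2⟩ := h1 p (GQ l) (cyL p l) hc hL (Additive ℚ_[l]ˣ) r
    (fun x m => sc (K x.toMul) θ m) (fun x m => (hΨ x.toMul (K x.toMul) (hK _) m).1)
    (fun x y m => by
      rw [hq, QuotientAddGroup.mk_sub, QuotientAddGroup.mk_sub, hm, hm, hm, map_add]
      abel)
    (fun x m => by
      rw [hq, QuotientAddGroup.mk_sub, QuotientAddGroup.mk_nsmul, hm, hm, hΨp, sub_self])
    (fun x m => by rw [hq, hm, hr']) hr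
  refine ⟨inv, i1, fun x κ hκ m => ?_⟩
  have i3 : inv (sc (K x) θ m) = cl p ((r (Additive.ofMul x) : ℚ_[p]) / (p : ℚ_[p]) ^ m) :=
    i2 (Additive.ofMul x) m
  rw [← i3]
  have e1 := (hΨ x κ hκ m)
  have e2 := (hΨ x (K x) (hK x) m)
  rw [← sub_eq_zero, ← map_sub, i1 _ (sub_mem e1.1 e2.1), hq, QuotientAddGroup.mk_sub, e1.2]
  exact sub_eq_zero.2 e2.2.symm

/-- the homomorphism given by a logarithm -/
theorem isHom {lam : ℤ_[p]ˣ → ℤ_[p]} (hlam : IsLam lam) (h7 : StKPE)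
    (z : ℕ → PadicAlgCl l) (hz : Sys p z) : IsHom (fun g : GQ l => lam (cyL p l g)) := by
  obtain ⟨hc, -⟩ := h7 p ℚ_[l] (PadicAlgCl l) (GQ l) (MonoidHom.id (GQ l)) continuous_id z hz
  refine ⟨hlam.cont.comp hc, fun g h => ?_⟩
  rw [map_mul, hlam.mul]

end InvLAux

open InvLAux

theorem stInvL (h1 : StInv) (h2 : StLnX) (h3 : StRLa) (h4 : StRLb) (h5 : StRPa) (h6 : StRPb)
    (h7 : StKPE) (h8 : StSC) (h9 : StLam) : StInvL := by
  refine ⟨?_, ?_⟩
  · intro p l _ _ hp hl lam hlam u hu z hz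
    have hθ := isHom (l := l) hlam h7 z hz
    obtain ⟨Ψ, hΨ, hex, hΨp, hΨ0⟩ := psi h7 h8 z hz _ hθ
    obtain ⟨-, h9'⟩ := h9 p hp
    obtain ⟨-, -, l3, -, -⟩ := h9' lam hlam
    have hl0 : (l : ℚ_[l]) ≠ 0 := by exact_mod_cast (Fact.out : l.Prime).ne_zero
    -- the class of `l`
    have hL : ∀ m, Ψ m (Additive.ofMul (Units.mk0 (l : ℚ_[l]) hl0)) = 0 ↔
        (p : ℤ_[p]) ^ m ∣ lam u := by
      intro m
      obtain ⟨κ, hκ⟩ := hex (Units.mk0 (l : ℚ_[l]) hl0)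
      rw [← (hΨ _ κ hκ m).2, QuotientAddGroup.eq_zero_iff]
      refine h4 p l hp hl lam hlam u hu z hz κ ?_ m
      simpa using hκ
    have hU : ∀ (x : ℚ_[l]ˣ), ‖(x : ℚ_[l])‖ = 1 → ∀ m, Ψ m (Additive.ofMul x) = 0 := by
      intro x hx m
      obtain ⟨κ, hκ⟩ := hex x
      rw [← (hΨ _ κ hκ m).2, QuotientAddGroup.eq_zero_iff]
      exact h3 p l hl z hz _ hx κ hκ _ hθ m
    let r : Additive ℚ_[l]ˣ →+ ℤ_[p] := AddMonoidHom.mk'
      (fun x => (((x.toMul : ℚ_[l]ˣ) : ℚ_[l]).valuation : ℤ_[p]) * lam u) (by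
        intro x y
        rw [toMul_add, Units.val_mul, Padic.valuation_mul (Units.ne_zero _) (Units.ne_zero _)]
        push_cast
        ring)
    have hru : lam u ≠ 0 := by
      intro h
      rw [l3] at h
      have h' := congrArg (fun v : ℤ_[p]ˣ => (v : ℤ_[p])) h
      simp only [Units.val_pow_eq_pow_val, hu, Units.val_one] at h'
      have h'' : l ^ (p - 1) = 1 := by exact_mod_cast h'
      rcases pow_eq_one_iff.1 h'' with this | this
      · exact (Fact.out : l.Prime).ne_one this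
      · have := (Fact.out : p.Prime).two_le
        omega
    have hr : ∃ x, r x ≠ 0 := by
      refine ⟨Additive.ofMul (Units.mk0 (l : ℚ_[l]) hl0), ?_⟩
      change (((l : ℚ_[l]).valuation : ℤ) : ℤ_[p]) * lam u ≠ 0
      rw [Padic.valuation_p]
      simpa using hru
    have hr' : ∀ x m, Ψ m x = 0 ↔ (p : ℤ_[p]) ^ m ∣ r x := by
      intro x m
      obtain ⟨x, rfl⟩ := Additive.ofMul.surjective x
      set i := ((x : ℚ_[l]ˣ) : ℚ_[l]).valuation with hi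
      have e1 : x = (x * (Units.mk0 (l : ℚ_[l]) hl0) ^ (-i)) * (Units.mk0 (l : ℚ_[l]) hl0) ^ i := by
        rw [mul_assoc, ← zpow_add]
        simp
      have e2 : Ψ m (Additive.ofMul x) =
          i • Ψ m (Additive.ofMul (Units.mk0 (l : ℚ_[l]) hl0)) := by
        conv_lhs => rw [e1]
        rw [ofMul_mul, map_add, hU, zero_add, ofMul_zpow, map_zsmul]
        rw [Units.val_mul, norm_mul, Padic.norm_eq_zpow_neg_valuation (Units.ne_zero x)]
        simp only [Units.val_zpow_eq_zpow_val, Units.val_mk0, norm_zpow, Padic.norm_p, ← hi]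
        rw [inv_zpow', neg_neg, ← zpow_add₀ (by exact_mod_cast (Fact.out : l.Prime).ne_zero)]
        simp
      rw [e2, smul_iff (fun m => Ψ m (Additive.ofMul (Units.mk0 (l : ℚ_[l]) hl0))) (hΨ0 _)
        (fun m => hΨp m _) (lam u) hL i m]
      rfl
    obtain ⟨inv, i1, i2⟩ := assemble h1 h2 h7 hp z hz _ r hr Ψ hΨ hex hΨp hr'
    refine ⟨inv, i1, fun a ha κ hκ m => ?_⟩
    exact i2 (Units.mk0 a ha) κ hκ m
  · intro p _ hp lam hlam z hz
    have hθ := isHom (l := p) hlam h7 z hz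
    obtain ⟨Ψ, hΨ, hex, hΨp, hΨ0⟩ := psi h7 h8 z hz _ hθ
    obtain ⟨-, h9'⟩ := h9 p hp
    obtain ⟨-, -, l3, -, -⟩ := h9' lam hlam
    have hp0 : (p : ℚ_[p]) ≠ 0 := by exact_mod_cast (Fact.out : p.Prime).ne_zero
    have hp0' : (p : ℝ) ≠ 0 := by exact_mod_cast (Fact.out : p.Prime).ne_zero
    have hP : ∀ m, Ψ m (Additive.ofMul (Units.mk0 (p : ℚ_[p]) hp0)) = 0 := by
      intro m
      obtain ⟨κ, hκ⟩ := hex (Units.mk0 (p : ℚ_[p]) hp0)
      rw [← (hΨ _ κ hκ m).2, QuotientAddGroup.eq_zero_iff]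
      refine h5 p hp lam hlam z hz κ ?_ m
      simpa using hκ
    -- the unit part
    have hup : ∀ x : ℚ_[p]ˣ, ‖((x : ℚ_[p]) * (p : ℚ_[p]) ^ (-(x : ℚ_[p]).valuation))‖ = 1 := by
      intro x
      rw [norm_mul, Padic.norm_eq_zpow_neg_valuation (Units.ne_zero x), norm_zpow, Padic.norm_p,
        inv_zpow', neg_neg, ← zpow_add₀ hp0']
      simp
    let up : ℚ_[p]ˣ → ℤ_[p]ˣ := fun x => PadicInt.mkUnits (hup x)
    have hupv : ∀ x : ℚ_[p]ˣ, (((up x : ℤ_[p]ˣ) : ℤ_[p]) : ℚ_[p]) =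
        (x : ℚ_[p]) * (p : ℚ_[p]) ^ (-(x : ℚ_[p]).valuation) := fun x => rfl
    have hupm : ∀ x y, up (x * y) = up x * up y := by
      intro x y
      refine Units.ext (PadicInt.ext ?_)
      rw [hupv, Units.val_mul (up x), PadicInt.coe_mul, hupv, hupv, Units.val_mul,
        Padic.valuation_mul (Units.ne_zero _) (Units.ne_zero _), neg_add, zpow_add₀ hp0]
      ring
    have hupu : ∀ (x : ℚ_[p]ˣ) (u : ℤ_[p]ˣ) (i : ℤ),
        (x : ℚ_[p]) = ((u : ℤ_[p]ˣ) : ℤ_[p]) * (p : ℚ_[p]) ^ i → up x = u := by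
      intro x u i hx
      have hun : ‖(((u : ℤ_[p]ˣ) : ℤ_[p]) : ℚ_[p])‖ = 1 := by
        simp
      have hu0 : (((u : ℤ_[p]ˣ) : ℤ_[p]) : ℚ_[p]) ≠ 0 := by
        intro h
        rw [h] at hun
        simp at hun
      have hv : (x : ℚ_[p]).valuation = i := by
        rw [hx, Padic.valuation_mul hu0 (zpow_ne_zero _ hp0), Padic.valuation_zpow,
          Padic.valuation_p]
        have : (((u : ℤ_[p]ˣ) : ℤ_[p]) : ℚ_[p]).valuation = 0 := by
          have h := Padic.norm_eq_zpow_neg_valuation hu0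
          rw [hun] at h
          have h' := (zpow_eq_one_iff_right₀ (by positivity)
            (by exact_mod_cast (Fact.out : p.Prime).ne_one)).1 h.symm
          omega
        rw [this]
        simp
      refine Units.ext (PadicInt.ext ?_)
      rw [hupv, hv, hx, mul_assoc, ← zpow_add₀ hp0]
      simp
    let r : Additive ℚ_[p]ˣ →+ ℤ_[p] := AddMonoidHom.mk'
      (fun x => -lam (up x.toMul)) (by
        intro x y
        rw [toMul_add, hupm, hlam.mul]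
        ring)
    have hr' : ∀ x m, Ψ m x = 0 ↔ (p : ℤ_[p]) ^ m ∣ r x := by
      intro x m
      obtain ⟨x, rfl⟩ := Additive.ofMul.surjective x
      set i := ((x : ℚ_[p]ˣ) : ℚ_[p]).valuation with hi
      have e1 : x = (x * (Units.mk0 (p : ℚ_[p]) hp0) ^ (-i)) * (Units.mk0 (p : ℚ_[p]) hp0) ^ i := by
        rw [mul_assoc, ← zpow_add]
        simp
      have e2 : Ψ m (Additive.ofMul x) =
          Ψ m (Additive.ofMul (x * (Units.mk0 (p : ℚ_[p]) hp0) ^ (-i))) := by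
        conv_lhs => rw [e1]
        rw [ofMul_mul, map_add, ofMul_zpow i (Units.mk0 (p : ℚ_[p]) hp0), map_zsmul, hP,
          smul_zero, add_zero]
      obtain ⟨κ, hκ⟩ := hex (x * (Units.mk0 (p : ℚ_[p]) hp0) ^ (-i))
      rw [e2, ← (hΨ _ κ hκ m).2, QuotientAddGroup.eq_zero_iff]
      change _ ↔ (p : ℤ_[p]) ^ m ∣ -lam (up x)
      rw [dvd_neg]
      refine h6 p hp lam hlam z hz (up x) κ ?_ m
      rw [hupv]
      simpa using hκ
    have hr : ∃ x, r x ≠ 0 := by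
      have hn : ‖(1 + p : ℤ_[p])‖ = 1 := by
        have h := PadicInt.norm_add_eq_max_of_ne (p := p) (q := (1 : ℤ_[p])) (r := (p : ℤ_[p]))
          (by
            rw [norm_one, PadicInt.norm_p]
            exact ((inv_lt_one_of_one_lt₀
              (by exact_mod_cast (Fact.out : p.Prime).one_lt)).ne').symm.symm)
        rw [h, norm_one, PadicInt.norm_p, max_eq_left]
        exact (inv_lt_one_of_one_lt₀
              (by exact_mod_cast (Fact.out : p.Prime).one_lt)).le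
      obtain ⟨u, hu⟩ := PadicInt.isUnit_iff.2 hn
      have hu0 : (((u : ℤ_[p]ˣ) : ℤ_[p]) : ℚ_[p]) ≠ 0 := by
        intro h
        exact Units.ne_zero u (PadicInt.ext h)
      refine ⟨Additive.ofMul (Units.mk0 _ hu0), ?_⟩
      change -lam (up (Units.mk0 _ hu0)) ≠ 0
      rw [hupu (Units.mk0 _ hu0) u 0 (by simp), neg_ne_zero]
      intro h
      rw [l3] at h
      have h' := congrArg (fun v : ℤ_[p]ˣ => (v : ℤ_[p])) h
      simp only [Units.val_pow_eq_pow_val, hu, Units.val_one] at h'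
      have h'' : (1 + p) ^ (p - 1) = 1 := by exact_mod_cast h'
      rcases pow_eq_one_iff.1 h'' with h3 | h3
      · have := (Fact.out : p.Prime).two_le
        omega
      · have := (Fact.out : p.Prime).two_le
        omega
    obtain ⟨inv, i1, i2⟩ := assemble h1 h2 h7 hp z hz _ r hr Ψ hΨ hex hΨp hr'
    refine ⟨inv, i1, fun a u i ha κ hκ m => ?_⟩
    have hu0 : (((u : ℤ_[p]ˣ) : ℤ_[p]) : ℚ_[p]) ≠ 0 := by
      intro h
      exact Units.ne_zero u (PadicInt.ext h)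
    have ha0 : a ≠ 0 := by
      rw [ha]
      exact mul_ne_zero hu0 (zpow_ne_zero _ hp0)
    have := i2 (Units.mk0 a ha0) κ hκ m
    rw [this]
    change cl p (((-lam (up (Units.mk0 a ha0)) : ℤ_[p]) : ℚ_[p]) / (p : ℚ_[p]) ^ m) = _
    rw [hupu (Units.mk0 a ha0) u i ha]

end BKLoc2
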