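import Pool.Agent.Lib.MP_7c08ba_nt.Met.LocStmts
import Pool.Agent.Lib.MP_7c08ba_nt.Odd.Kum
import Pool.Agent.Lib.MP_7c08ba_nt.Odd.H90
import Pool.Agent.Lib.MP_7c08ba_nt.Odd.CycL

set_option autoImplicit false

/-!
Module KH: Kummer description of the first cohomology of a module which is trivial on a normal
subgroup of index prime to `p`.
-/

noncomputable section

namespace BKLoc2

open BKOdd
open BKMet (QZ actA)
open BKPar (Loc1)

namespace KHAux

/-! ### the elements of order `p` of `ℚ_p / ℤ_p` -/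

section QZ

variable {p : ℕ} [Fact p.Prime]

lemma cl_add (x y : ℚ_[p]) : cl p (x + y) = cl p x + cl p y := rfl

lemma cl_sub (x y : ℚ_[p]) : cl p (x - y) = cl p x - cl p y := rfl

lemma cl_smul (u : ℤ_[p]) (x : ℚ_[p]) : u • cl p x = cl p ((u : ℚ_[p]) * x) := by
  have h : (u : ℚ_[p]) * x = u • x := (Algebra.smul_def u x).symm
  rw [h]
  rfl

lemma cl_eq_zero {x : ℚ_[p]} : cl p x = 0 ↔ ∃ u : ℤ_[p], (u : ℚ_[p]) = x := by
  rw [cl, Submodule.Quotient.mk_eq_zero, LinearMap.mem_range]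
  rfl

lemma exists_mul {z : ℤ_[p]} (h : PadicInt.toZMod z = 0) : ∃ w : ℤ_[p], z = p * w := by
  rw [← RingHom.mem_ker, PadicInt.ker_toZMod, PadicInt.maximalIdeal_eq_span_p,
    Ideal.mem_span_singleton] at h
  exact h

lemma p_ne : (p : ℚ_[p]) ≠ 0 := by
  rw [Nat.cast_ne_zero]
  exact (Fact.out : p.Prime).ne_zero

/-- the isomorphism from `ℤ/p` to the elements of order `p` -/
def jz (c : ZMod p) : QZ p := cl p ((c.val : ℚ_[p]) / p)

lemma jz_toZMod (z : ℤ_[p]) : cl p ((z : ℚ_[p]) / p) = jz (PadicInt.toZMod z) := by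
  have h : PadicInt.toZMod (z - ((PadicInt.toZMod z).val : ℤ_[p])) = 0 := by
    rw [map_sub, map_natCast, ZMod.natCast_val, ZMod.cast_id, sub_self]
  obtain ⟨w, hw⟩ := exists_mul h
  rw [← sub_eq_zero, jz, ← cl_sub, cl_eq_zero]
  refine ⟨w, ?_⟩
  have h2 := congrArg (fun t : ℤ_[p] => (t : ℚ_[p])) hw
  simp only [PadicInt.coe_sub, PadicInt.coe_natCast, PadicInt.coe_mul] at h2
  rw [← sub_div, h2, mul_div_cancel_left₀ _ p_ne]

lemma toZMod_surj (c : ZMod p) : ∃ z : ℤ_[p], PadicInt.toZMod z = c :=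
  ZMod.ringHom_surjective PadicInt.toZMod c

lemma jz_add (c d : ZMod p) : jz (c + d) = jz c + jz d := by
  obtain ⟨z, rfl⟩ := toZMod_surj c
  obtain ⟨w, rfl⟩ := toZMod_surj d
  rw [← map_add, ← jz_toZMod, ← jz_toZMod, ← jz_toZMod, ← cl_add, PadicInt.coe_add, add_div]

lemma jz_smul (u : ℤ_[p]) (c : ZMod p) : u • jz c = jz (PadicInt.toZMod u * c) := by
  obtain ⟨z, rfl⟩ := toZMod_surj c
  rw [← map_mul, ← jz_toZMod, ← jz_toZMod, cl_smul, PadicInt.coe_mul, mul_div_assoc]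

lemma jz_zero : jz (0 : ZMod p) = 0 := by
  have h := jz_add (0 : ZMod p) 0
  rw [add_zero] at h
  exact left_eq_add.1 h

lemma jz_eq_zero {c : ZMod p} (h : jz c = 0) : c = 0 := by
  obtain ⟨z, rfl⟩ := toZMod_surj c
  rw [← jz_toZMod, cl_eq_zero] at h
  obtain ⟨u, hu⟩ := h
  have h2 : z = p * u := by
    apply PadicInt.ext
    rw [PadicInt.coe_mul, PadicInt.coe_natCast, hu, mul_div_cancel₀ _ p_ne]
  rw [h2, map_mul, map_natCast, CharP.cast_eq_zero, zero_mul]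

lemma jz_inj {c d : ZMod p} (h : jz c = jz d) : c = d := by
  have h2 : jz (c - d) + jz d = jz d := by rw [← jz_add, sub_add_cancel, h]
  exact sub_eq_zero.1 (jz_eq_zero (add_eq_right.1 h2))

lemma jz_surj {x : QZ p} (h : p • x = 0) : ∃ c, jz c = x := by
  obtain ⟨y, rfl⟩ := Submodule.Quotient.mk_surjective _ x
  have h2 : cl p (p • y) = 0 := h
  rw [cl_eq_zero] at h2
  obtain ⟨u, hu⟩ := h2
  refine ⟨PadicInt.toZMod u, ?_⟩
  rw [← jz_toZMod, hu, nsmul_eq_mul, mul_div_cancel_left₀ _ p_ne]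
  rfl

end QZ

/-! ### perfect pairings -/

section Perf

variable {p : ℕ} [Fact p.Prime] {N N' : Type} [AddCommGroup N] [AddCommGroup N']

lemma left_inj {b : N →+ N' →+ QZ p} (hl : ∀ n, (∀ n', b n n' = 0) → n = 0) {n m : N}
    (h : ∀ n', b n n' = b m n') : n = m := by
  refine sub_eq_zero.1 (hl _ fun n' => ?_)
  rw [map_sub, AddMonoidHom.sub_apply, h, sub_self]

lemma right_inj {b : N →+ N' →+ QZ p} (hr : ∀ n', (∀ n, b n n' = 0) → n' = 0) {n' m' : N'}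
    (h : ∀ n, b n n' = b n m') : n' = m' := by
  refine sub_eq_zero.1 (hr _ fun n => ?_)
  rw [map_sub, h, sub_self]

omit [Fact p.Prime] in
lemma perf0 {K : Type} [Field K] [Module K N] [Module K N'] [FiniteDimensional K N]
    (B : N →ₗ[K] N' →ₗ[K] K) (h1 : ∀ n, (∀ n', B n n' = 0) → n = 0)
    (h2 : ∀ n', (∀ n, B n n' = 0) → n' = 0) (F : N' →ₗ[K] K) : ∃ n, ∀ n', B n n' = F n' := by
  have h3 : Function.Injective B := by
    rw [injective_iff_map_eq_zero]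
    intro n hn
    refine h1 n fun n' => ?_
    rw [hn, LinearMap.zero_apply]
  have h4 : Function.Injective B.flip := by
    rw [injective_iff_map_eq_zero]
    intro n' hn
    refine h2 n' fun n => ?_
    rw [← LinearMap.flip_apply, hn, LinearMap.zero_apply]
  obtain ⟨n, hn⟩ := (LinearMap.IsPerfPair.of_injective h3 h4).bijective_left.2 F
  exact ⟨n, fun n' => by rw [hn]⟩

lemma perf1 [Module (ZMod p) N] [Module (ZMod p) N'] [Finite N] (c : N → N' → ZMod p)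
    (hc1 : ∀ x y z, c (x + y) z = c x z + c y z) (hc2 : ∀ x y z, c x (y + z) = c x y + c x z)
    (h1 : ∀ n, (∀ n', c n n' = 0) → n = 0) (h2 : ∀ n', (∀ n, c n n' = 0) → n' = 0)
    (f : N' → ZMod p) (hf : ∀ x y, f (x + y) = f x + f y) : ∃ n, ∀ n', c n n' = f n' :=
  perf0 (K := ZMod p) (LinearMap.mk₂ (ZMod p) c hc1
    (fun a x z => ZMod.map_smul (AddMonoidHom.mk' (fun x => c x z) fun x y => hc1 x y z) a x)
    hc2 (fun a x z => ZMod.map_smul (AddMonoidHom.mk' (c x) (hc2 x)) a z)) h1 h2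
    { toFun := f
      map_add' := hf
      map_smul' := fun a x => ZMod.map_smul (AddMonoidHom.mk' f hf) a x }

lemma perf [Finite N] [Finite N'] (b : N →+ N' →+ QZ p) (hN : ∀ n : N, p • n = 0)
    (hN' : ∀ n : N', p • n = 0) (hl : ∀ n, (∀ n', b n n' = 0) → n = 0)
    (hr : ∀ n', (∀ n, b n n' = 0) → n' = 0) (φ : N' →+ QZ p) : ∃ n, ∀ n', b n n' = φ n' := by
  have hb : ∀ n n', ∃ c : ZMod p, jz c = b n n' := fun n n' => jz_surj (by
    rw [← map_nsmul, hN', map_zero])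
  choose c hc using hb
  have hf : ∀ n', ∃ c : ZMod p, jz c = φ n' := fun n' => jz_surj (by
    rw [← map_nsmul, hN', map_zero])
  choose f hf using hf
  obtain ⟨n, hn⟩ := @perf1 p _ N N' _ _ (AddCommGroup.zmodModule hN)
    (AddCommGroup.zmodModule hN') _ c
    (fun x y z => jz_inj (by rw [jz_add, hc, hc, hc, map_add, AddMonoidHom.add_apply]))
    (fun x y z => jz_inj (by rw [jz_add, hc, hc, hc, map_add]))
    (fun n hn => hl n fun n' => by rw [← hc, hn, jz_zero])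
    (fun n' hn => hr n' fun n => by rw [← hc, hn, jz_zero]) f
    (fun x y => jz_inj (by rw [jz_add, hf, hf, hf, map_add]))
  exact ⟨n, fun n' => by rw [← hc, hn, hf]⟩

end Perf

/-! ### Kummer characters -/

section Kum

variable {k Ω : Type} [Field k] [Field Ω] [Algebra k Ω] {V : Type} [Group V]
  {e : V →* (Ω ≃ₐ[k] Ω)} {p : ℕ} [Fact p.Prime] {ζ : Ω}

lemma pow_val_mul (hζ : IsPrimitiveRoot ζ p) (x y : ZMod p) :
    ζ ^ (x * y).val = (ζ ^ x.val) ^ y.val := by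
  rw [← pow_mul, ZMod.val_mul]
  conv_rhs => rw [← Nat.mod_add_div (x.val * y.val) p, pow_add, pow_mul, hζ.pow_eq_one, one_pow,
    mul_one]

lemma act_zeta [IsAlgClosed Ω] [CharZero Ω] (hζ : IsPrimitiveRoot ζ p) (g : Ω ≃ₐ[k] Ω) :
    g ζ = ζ ^ (PadicInt.toZMod ((cy p k Ω g : ℤ_[p]ˣ) : ℤ_[p])).val := by
  have h1 : g ζ = ζ ^ (((cy p k Ω g : ℤ_[p]ˣ) : ℤ_[p]).toZModPow 1).val :=
    CycLAux.act 1 ζ (by rw [pow_one]; exact hζ.pow_eq_one)
      (MulSemiringAction.toRingAut (Ω ≃ₐ[k] Ω) Ω g)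
  have h2 : (PadicInt.toZMod ((cy p k Ω g : ℤ_[p]ˣ) : ℤ_[p])).val =
      (((cy p k Ω g : ℤ_[p]ˣ) : ℤ_[p]).toZModPow 1).val % p := by
    rw [CycLAux.toZMod_eq, ZMod.val_natCast]
  rw [h1, h2]
  conv_lhs => rw [← Nat.div_add_mod (((cy p k Ω g : ℤ_[p]ˣ) : ℤ_[p]).toZModPow 1).val p]
  rw [pow_add, pow_mul, hζ.pow_eq_one, one_pow, one_mul]

lemma toZMod_cy [IsAlgClosed Ω] [CharZero Ω] (hζ : IsPrimitiveRoot ζ p) {g : Ω ≃ₐ[k] Ω}
    (hg : g ζ = ζ) : PadicInt.toZMod ((cy p k Ω g : ℤ_[p]ˣ) : ℤ_[p]) = 1 := by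
  have h1 : Fact (1 < p) := ⟨(Fact.out : p.Prime).one_lt⟩
  apply KumAux.pow_val_inj hζ
  rw [← act_zeta hζ, hg, ZMod.val_one, pow_one]

omit [Fact p.Prime] in
lemma isKum_mul_pow {a c : Ω} {κ : V → ZMod p} (h : IsKum e ζ a κ) (hc : c ≠ 0) (hF : Fx e c) :
    IsKum e ζ (a * c ^ p) κ := by
  obtain ⟨y, hy, hya, hκ⟩ := h
  refine ⟨y * c, mul_ne_zero hy hc, by rw [mul_pow, hya], fun v => ?_⟩
  rw [map_mul, hκ, hF]
  ring

omit [Fact p.Prime] in
lemma exists_fix {a a' : Ω} {κ : V → ZMod p} (h : IsKum e ζ a κ) (h' : IsKum e ζ a' κ) :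
    ∃ c : Ω, c ≠ 0 ∧ Fx e c ∧ a' = a * c ^ p := by
  obtain ⟨y, hy, hya, hκ⟩ := h
  obtain ⟨z, hz, hza, hκ'⟩ := h'
  refine ⟨z / y, div_ne_zero hz hy, fun v => ?_, ?_⟩
  · have h0 : ζ ^ (κ v).val ≠ 0 := by
      intro h0
      have := hκ v
      rw [h0, zero_mul, map_eq_zero] at this
      exact hy this
    rw [map_div₀, hκ, hκ', mul_div_mul_left _ _ h0]
  · rw [div_pow, hya, hza, mul_div_cancel₀]
    rw [← hya]
    exact pow_ne_zero _ hy

lemma isKum_one : IsKum e ζ 1 (0 : V → ZMod p) :=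
  ⟨1, one_ne_zero, one_pow _, fun v => by simp⟩

/-- conjugation -/
def cj {H : Subgroup V} (hH : H.Normal) (v : V) (h : H) : H :=
  ⟨v⁻¹ * h * v, by simpa using hH.conj_mem h h.2 v⁻¹⟩

lemma isKum_conj [IsAlgClosed Ω] [CharZero Ω] (hζ : IsPrimitiveRoot ζ p) {H : Subgroup V}
    (hH : H.Normal) {a : Ω} {κ : H → ZMod p} (h : IsKum (e.comp H.subtype) ζ a κ) (v : V) :
    IsKum (e.comp H.subtype) ζ (e v a)
      (fun g => PadicInt.toZMod ((cy p k Ω (e v) : ℤ_[p]ˣ) : ℤ_[p]) * κ (cj hH v g)) := by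
  obtain ⟨y, hy, hya, hκ⟩ := h
  refine ⟨e v y, ?_, by rw [← map_pow, hya], fun g => ?_⟩
  · rw [Ne, map_eq_zero]
    exact hy
  · have h1 : (e.comp H.subtype) g (e v y) = e v ((e.comp H.subtype) (cj hH v g) y) := by
      change e (g : V) (e v y) = e v (e (v⁻¹ * g * v) y)
      rw [← AlgEquiv.mul_apply, ← AlgEquiv.mul_apply, ← map_mul, ← map_mul]
      congr 2
      group
    rw [h1, hκ, map_mul, map_pow, act_zeta hζ (e v), pow_val_mul hζ]

lemma fix_conj {H : Subgroup V} (hH : H.Normal) {a : Ω} (h : ∀ g ∈ H, e g a = a) (v : V) :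
    ∀ g ∈ H, e g (e v a) = e v a := by
  intro g hg
  have h1 : e g (e v a) = e v (e (v⁻¹ * g * v) a) := by
    rw [← AlgEquiv.mul_apply, ← AlgEquiv.mul_apply, ← map_mul, ← map_mul]
    congr 2
    group
  rw [h1, h (v⁻¹ * g * v) (cj hH v ⟨g, hg⟩).2]

end Kum

/-! ### cocycles -/

section Coc

variable {V : Type} [Group V] {N : Type} [AddCommGroup N] {ρ : V →* AddMonoid.End N}

lemma end_mul (g h : V) (n : N) : ρ (g * h) n = ρ g (ρ h n) := by
  rw [map_mul]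
  rfl

lemma end_one (n : N) : ρ 1 n = n := by
  rw [map_one]
  rfl

lemma coc_one {x : V → N} (hx : ∀ g h, x (g * h) = x g + ρ g (x h)) : x 1 = 0 := by
  have h := hx 1 1
  rw [mul_one, end_one] at h
  exact left_eq_add.1 h

lemma coc_conj {x : V → N} (hx : ∀ g h, x (g * h) = x g + ρ g (x h)) {H : Subgroup V}
    (hρ : ∀ h ∈ H, ρ h = 1) (v : V) {g : V} (hg : g ∈ H) :
    x g = ρ v (x (v⁻¹ * g * v)) := by
  have h1 : ρ g (x v) = x v := by
    rw [hρ g hg]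
    rfl
  rw [mul_assoc, hx v⁻¹, hx g, h1, map_add, ← end_mul, mul_inv_cancel, end_one]
  have h2 := hx v v⁻¹
  rw [mul_inv_cancel, coc_one hx] at h2
  have h3 : ρ v (x v⁻¹) = - x v := by
    rw [eq_neg_iff_add_eq_zero, add_comm]
    exact h2.symm
  rw [h3]
  abel

lemma smul_quot {H : Subgroup V} (hH : H.Normal) {g : V} (hg : g ∈ H) (q : V ⧸ H) :
    g • q = q := by
  induction q using QuotientGroup.induction_on with
  | H r =>
    have h1 : g • (r : V ⧸ H) = ((g * r : V) : V ⧸ H) := rfl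
    rw [h1, QuotientGroup.eq]
    have h2 := hH.conj_mem _ (H.inv_mem hg) r⁻¹
    rw [inv_inv] at h2
    rw [mul_inv_rev]
    exact h2

lemma hh_eq {H : Subgroup V} (hH : H.Normal) (g : H) (q : V ⧸ H) :
    hh H g q = cj hH q.out g := by
  apply Subtype.ext
  change (((g : V) • q).out)⁻¹ * (g * q.out) = q.out⁻¹ * g * q.out
  rw [smul_quot hH g.2, mul_assoc]

lemma corM_eq {H : Subgroup V} (hH : H.Normal) [Finite (V ⧸ H)] {x : H → N}
    (hx : ∀ v g, x g = ρ v (x (cj hH v g))) (g : H) : corM H ρ x g = H.index • x g := by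
  have := Fintype.ofFinite (V ⧸ H)
  rw [corM, finsum_eq_sum_of_fintype]
  have h1 : ∀ q : V ⧸ H, ρ ((g : V) • q).out (x (hh H g q)) = x g := fun q => by
    rw [hh_eq hH, smul_quot hH g.2, ← hx]
  simp only [h1, Finset.sum_const, Finset.card_univ, Subgroup.index, Nat.card_eq_fintype_card]

end Coc

end KHAux

open KHAux

/-- Module KH. -/
theorem stKH (h1 : StTRM) : StKH := by
  intro p _ k Ω _ _ _ _ _ _ V _ _ _ _ _ e he ζ hζ H hHn hHo hHi hζH N N' _ _ _ _ ρ ρ' b hN hN'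
    hP hρ KR hKR
  have hp : p.Prime := Fact.out
  have hHi0 : H.index ≠ 0 := fun h => hHi (by rw [h]; exact dvd_zero p)
  have hfin : Finite (V ⧸ H) := by
    by_contra hc
    rw [not_finite_iff_infinite] at hc
    exact hHi0 (Nat.card_eq_zero_of_infinite)
  have hb : ∀ n n', ∃ c : ZMod p, jz c = b n n' := fun n n' => jz_surj (by
    rw [← map_nsmul, hN', map_zero])
  have hact : ∀ g n n', b (ρ g n) (ρ' g n') = (((cy p k Ω (e g) : ℤ_[p]ˣ) : ℤ_[p])) • b n n' :=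
    hP.eqv
  have hρ1 : ∀ h ∈ H, ∀ n, ρ h n = n := fun h hh n => by
    rw [hρ h hh]
    rfl
  have hρ'1 : ∀ h ∈ H, ∀ n', ρ' h n' = n' := fun h hh n' => right_inj hP.right fun n => by
    obtain ⟨c, hc⟩ := hb n n'
    have h2 := hact h n n'
    rw [hρ1 h hh, ← hc, jz_smul, toZMod_cy hζ (hζH h hh), one_mul, hc] at h2
    exact h2
  have hρ' : ∀ h ∈ H, ρ' h = 1 := fun h hh => by
    ext n'
    exact hρ'1 h hh n'
  have hsm : BKND.Sm ρ := ⟨H, hHo, hρ⟩
  have hsm' : BKND.Sm ρ' := ⟨H, hHo, hρ'⟩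
  have hF : Fx (e.comp H.subtype) ζ := fun h => hζH h h.2
  have heH : Topology.IsOpenEmbedding (e.comp H.subtype) :=
    he.comp hHo.isOpenEmbedding_subtypeVal
  obtain ⟨K1, K2, K3, K4, -⟩ := stKum stH90 k Ω H (e.comp H.subtype) heH p ζ hζ hF
  -- the first statement
  have E1 : ∀ x ∈ BKND.Z1 ρ, ∀ n', ∃ a, KR x n' a := by
    rintro x ⟨hx, hx'⟩ n'
    have h2 : ∀ g : H, ∃ c : ZMod p, jz c = b (x g) n' := fun g => hb _ _
    choose κ hκ using h2
    have h3 : κ ∈ CC.Z1 (1 : H →* ZMod p) := by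
      obtain ⟨W, hW, hW'⟩ := hx
      refine ⟨KumAux.smooth_continuous ⟨W.comap H.subtype, hW.preimage continuous_subtype_val,
        fun g u hu => jz_inj ?_⟩, fun g g' => jz_inj ?_⟩
      · rw [hκ, hκ, Subgroup.coe_mul, hW' g u hu]
      · rw [MonoidHom.one_apply, one_mul, jz_add, hκ, hκ, hκ, Subgroup.coe_mul, hx',
          hρ1 g g.2, map_add, AddMonoidHom.add_apply]
    obtain ⟨a, ha, ha', ha''⟩ := K2 κ h3
    exact ⟨a, (hKR _ _ _).2 ⟨ha, fun h hh => ha' ⟨h, hh⟩, κ, ha'', fun g => (hκ g).symm⟩⟩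
  have E2 : ∀ x ∈ BKND.Z1 ρ, ∀ n' a, KR x n' a → ∀ a', KR x n' a' ↔
      ∃ c : Ω, c ≠ 0 ∧ (∀ h ∈ H, e h c = c) ∧ a' = a * c ^ p := by
    intro x hx n' a ha a'
    obtain ⟨ha0, haH, κ, hκ, hκb⟩ := (hKR _ _ _).1 ha
    constructor
    · intro ha'
      obtain ⟨ha0', haH', κ', hκ', hκb'⟩ := (hKR _ _ _).1 ha'
      have h2 : κ' = κ := by
        funext g
        apply jz_inj
        exact (hκb' g).symm.trans (hκb g)
      rw [h2] at hκ'
      obtain ⟨c, hc, hc', hc''⟩ := exists_fix hκ hκ'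
      exact ⟨c, hc, fun h hh => hc' ⟨h, hh⟩, hc''⟩
    · rintro ⟨c, hc, hcH, rfl⟩
      refine (hKR _ _ _).2 ⟨mul_ne_zero ha0 (pow_ne_zero _ hc), fun h hh => ?_, κ,
        isKum_mul_pow hκ hc fun h => hcH h h.2, hκb⟩
      rw [map_mul, map_pow, haH h hh, hcH h hh]
  have E3 : ∀ x ∈ BKND.Z1 ρ, ∀ n' m' a a', KR x n' a → KR x m' a' →
      KR x (n' + m') (a * a') := by
    intro x hx n' m' a a' ha ha'
    obtain ⟨ha0, haH, κ, hκ, hκb⟩ := (hKR _ _ _).1 ha
    obtain ⟨ha0', haH', κ', hκ', hκb'⟩ := (hKR _ _ _).1 ha'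
    refine (hKR _ _ _).2 ⟨mul_ne_zero ha0 ha0', fun h hh => ?_, κ + κ', K3 _ _ _ _ hκ hκ',
      fun g => ?_⟩
    · rw [map_mul, haH h hh, haH' h hh]
    · rw [map_add, hκb, hκb']
      exact (jz_add _ _).symm
  have E4 : ∀ x ∈ BKND.Z1 ρ, ∀ n' a v, KR x n' a → KR x (ρ' v n') (e v a) := by
    rintro x ⟨hx, hx'⟩ n' a v ha
    obtain ⟨ha0, haH, κ, hκ, hκb⟩ := (hKR _ _ _).1 ha
    refine (hKR _ _ _).2 ⟨?_, fix_conj hHn haH v, _, isKum_conj hζ hHn hκ v, fun g => ?_⟩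
    · rw [Ne, map_eq_zero]
      exact ha0
    · rw [coc_conj hx' hρ v g.2, hact]
      have h2 := hκb (cj hHn v g)
      change b (x (v⁻¹ * g * v)) n' = jz _ at h2
      rw [h2, jz_smul]
      rfl
  have E5 : ∀ x ∈ BKND.Z1 ρ, ∀ y ∈ BKND.Z1 ρ, ∀ n' a a', KR x n' a → KR y n' a' →
      KR (x + y) n' (a * a') := by
    intro x hx y hy n' a a' ha ha'
    obtain ⟨ha0, haH, κ, hκ, hκb⟩ := (hKR _ _ _).1 ha
    obtain ⟨ha0', haH', κ', hκ', hκb'⟩ := (hKR _ _ _).1 ha'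
    refine (hKR _ _ _).2 ⟨mul_ne_zero ha0 ha0', fun h hh => ?_, κ + κ', K3 _ _ _ _ hκ hκ',
      fun g => ?_⟩
    · rw [map_mul, haH h hh, haH' h hh]
    · rw [Pi.add_apply, map_add, AddMonoidHom.add_apply, hκb, hκb']
      exact (jz_add _ _).symm
  have E6 : ∀ x ∈ BKND.Z1 ρ, (∀ n', KR x n' 1) ↔ x ∈ BKND.B1 ρ := by
    intro x hx
    constructor
    · intro h
      have h2 := ((h1 V H hHo hfin N N' (QZ p) ρ ρ' (actA ((cy p k Ω).comp e)) b hsm'
        (fun n' => ⟨H, hHo, fun w hw => hρ'1 w hw n'⟩) hP.eqv).2.2.2.2.2 p hp hHi hN hsm).1 x hx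
      refine h2 ⟨0, fun g => ?_⟩
      rw [map_zero, sub_zero]
      refine hP.left _ fun n' => ?_
      obtain ⟨-, -, κ, hκ, hκb⟩ := (hKR _ _ _).1 (h n')
      have h3 : κ = 0 := K4 _ _ _ hκ isKum_one
      rw [hκb, h3]
      exact jz_zero
    · rintro ⟨m, hm⟩ n'
      refine (hKR _ _ _).2 ⟨one_ne_zero, fun h _ => map_one _, 0, isKum_one, fun g => ?_⟩
      rw [hm, hρ1 g g.2, sub_self, map_zero, AddMonoidHom.zero_apply]
      exact jz_zero.symm
  refine ⟨E1, E2, E3, E4, E5, E6, ?_⟩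
  intro A hA hA1 hA2
  have h2 : ∀ n', ∃ κ ∈ CC.Z1 (1 : H →* ZMod p), IsKum (e.comp H.subtype) ζ (A n') κ :=
    fun n' => K1 _ (hA n').1 fun h => (hA n').2 h h.2
  choose κ hκZ hκ using h2
  have hκadd : ∀ n' m', κ (n' + m') = κ n' + κ m' := by
    intro n' m'
    obtain ⟨c, hc, hc'⟩ := hA1 n' m'
    have hc0 : c ≠ 0 := by
      rintro rfl
      rw [zero_pow hp.ne_zero, mul_zero] at hc'
      exact (hA _).1 hc'
    refine K4 _ _ _ (hκ _) ?_
    rw [hc']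
    exact isKum_mul_pow (K3 _ _ _ _ (hκ n') (hκ m')) hc0 fun h => hc h h.2
  have hκeq : ∀ v n' g, κ (ρ' v n') g =
      PadicInt.toZMod ((cy p k Ω (e v) : ℤ_[p]ˣ) : ℤ_[p]) * κ n' (cj hHn v g) := by
    intro v n' g
    obtain ⟨c, hc, hc'⟩ := hA2 v n'
    have hc0 : c ≠ 0 := by
      rintro rfl
      rw [zero_pow hp.ne_zero, mul_zero] at hc'
      exact (hA _).1 hc'
    have h4 := isKum_mul_pow (isKum_conj hζ hHn (hκ n') v) hc0 fun h => hc h h.2
    rw [← hc'] at h4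
    exact congrFun (K4 _ _ _ (hκ _) h4) g
  have h3 : ∀ g : H, ∃ n, ∀ n', b n n' = jz (κ n' g) := fun g =>
    perf b hN hN' hP.left hP.right (AddMonoidHom.mk' (fun n' => jz (κ n' g)) fun x y => by
      rw [hκadd, Pi.add_apply, jz_add])
  choose x0 hx0 using h3
  have hx0mul : ∀ g g', x0 (g * g') = x0 g + x0 g' := by
    intro g g'
    refine left_inj hP.left fun n' => ?_
    rw [map_add, AddMonoidHom.add_apply, hx0, hx0, hx0, ← jz_add, (hκZ n').2,
      MonoidHom.one_apply, one_mul]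
  have hx0eq : ∀ v g, x0 g = ρ v (x0 (cj hHn v g)) := by
    intro v g
    refine left_inj hP.left fun n' => ?_
    have h4 : n' = ρ' v (ρ' v⁻¹ n') := by
      rw [← end_mul, mul_inv_cancel, end_one]
    conv_rhs => rw [h4]
    rw [hact, hx0 (cj hHn v g), jz_smul, ← hκeq, ← h4, hx0]
  have hx0Z : x0 ∈ BKND.Z1 (ρ.comp H.subtype) := by
    have hx01 : x0 1 = 0 := by
      have h4 := hx0mul 1 1
      rw [mul_one] at h4
      exact left_eq_add.1 h4
    let W : Subgroup H :=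
      { carrier := {g | x0 g = 0}
        mul_mem' := by
          intro g g' hg hg'
          change x0 (g * g') = 0
          rw [hx0mul, hg, hg', add_zero]
        one_mem' := hx01
        inv_mem' := by
          intro g hg
          change x0 g⁻¹ = 0
          have h4 := hx0mul g g⁻¹
          rw [mul_inv_cancel, hx01, hg, zero_add] at h4
          exact h4.symm }
    have hW : (W : Set H) = ⋂ n', (κ n') ⁻¹' {0} := by
      ext g
      rw [Set.mem_iInter]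
      constructor
      · intro hg n'
        have hg' : x0 g = 0 := hg
        have h4 := hx0 g n'
        rw [hg', map_zero, AddMonoidHom.zero_apply] at h4
        exact jz_eq_zero h4.symm
      · intro hg
        change x0 g = 0
        refine hP.left _ fun n' => ?_
        have h4 : κ n' g = 0 := hg n'
        rw [hx0, h4, jz_zero]
    refine ⟨⟨W, ?_, fun g w hw => ?_⟩, fun g g' => ?_⟩
    · rw [hW]
      exact isOpen_iInter_of_finite fun n' => (isOpen_discrete _).preimage (hκZ n').1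
    · have hw' : x0 w = 0 := hw
      rw [hx0mul, hw', add_zero]
    · rw [hx0mul]
      congr 1
      exact (hρ1 g g.2 _).symm
  have h5 := (h1 V H hHo hfin N' N (QZ p) ρ' ρ (actA ((cy p k Ω).comp e)) b.flip hsm
    (fun n => ⟨H, hHo, fun w hw => hρ1 w hw n⟩) (fun g n n' => hP.eqv g n' n)).1 x0 hx0Z
  obtain ⟨m, hm⟩ : ∃ m : ℕ, (m : ZMod p) * (H.index : ZMod p) = 1 := by
    have h6 : (H.index : ZMod p) ≠ 0 := by
      rw [Ne, ZMod.natCast_eq_zero_iff]
      exact hHi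
    obtain ⟨m, hm⟩ := ZMod.natCast_zmod_surjective (n := p) ((H.index : ZMod p)⁻¹)
    exact ⟨m, by rw [hm, inv_mul_cancel₀ h6]⟩
  refine ⟨m • corM H ρ x0, (BKND.Z1 ρ).nsmul_mem h5 m, fun n' => ?_⟩
  refine (hKR _ _ _).2 ⟨(hA n').1, (hA n').2, κ n', hκ n', fun g => ?_⟩
  have h6 : (m • corM H ρ x0) (g : V) = x0 g := by
    rw [Pi.smul_apply, corM_eq hHn hx0eq, smul_smul]
    have h7 : ((m * H.index : ℕ) : ZMod p) = ((1 : ℕ) : ZMod p) := by
      rw [Nat.cast_mul, hm, Nat.cast_one]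
    have h8 := (ZMod.natCast_eq_natCast_iff' _ _ _).1 h7
    rw [Nat.mod_eq_of_lt hp.one_lt] at h8
    conv_lhs => rw [← Nat.div_add_mod (m * H.index) p]
    rw [add_smul, mul_comm, mul_smul, hN, smul_zero, zero_add, h8, one_smul]
  rw [h6, hx0]
  rfl

end BKLoc2
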