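import Pool.Agent.Lib.MP_7c08ba_nt.Met.LocStmts
import Pool.Agent.Lib.MP_7c08ba_nt.Odd.KumZ

set_option autoImplicit false

/-!
Module KPE: Kummer cocycles with values in `ℤ_p(χ)` over any field of characteristic zero.
-/

noncomputable section

namespace BKLoc2

open BKOdd

namespace KPEAux

open BKOdd.KumZAux

section basic

variable {p : ℕ} [hpf : Fact p.Prime] {Ω : Type} [Field Ω] {z : ℕ → Ω}

lemma sys_mod (hz : Sys p z) (k n : ℕ) : z k ^ (n % p ^ k) = z k ^ n := by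
  conv_rhs => rw [← Nat.mod_add_div n (p ^ k), pow_add, pow_mul, (hz.prim k).pow_eq_one, one_pow,
    mul_one]

lemma sys_add (hz : Sys p z) (k : ℕ) (x y : ZMod (p ^ k)) :
    z k ^ (x + y).val = z k ^ x.val * z k ^ y.val := by
  haveI : NeZero (p ^ k) := ⟨pow_ne_zero _ hpf.out.ne_zero⟩
  rw [← pow_add, ZMod.val_add, sys_mod hz]

lemma sys_mul (hz : Sys p z) (k : ℕ) (x y : ZMod (p ^ k)) :
    z k ^ (x * y).val = (z k ^ x.val) ^ y.val := by
  haveI : NeZero (p ^ k) := ⟨pow_ne_zero _ hpf.out.ne_zero⟩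
  rw [← pow_mul, ZMod.val_mul, sys_mod hz]

lemma sys_inj (hz : Sys p z) (k : ℕ) {t : Ω} (ht : t ≠ 0) (x y : ZMod (p ^ k))
    (h : z k ^ x.val * t = z k ^ y.val * t) : x = y := by
  haveI : NeZero (p ^ k) := ⟨pow_ne_zero _ hpf.out.ne_zero⟩
  exact ZMod.val_injective _ ((hz.prim k).pow_inj (ZMod.val_lt x) (ZMod.val_lt y)
    (mul_right_cancel₀ ht h))

lemma sys_ne (hz : Sys p z) (k : ℕ) : z k ≠ 0 := by
  haveI : NeZero (p ^ k) := ⟨pow_ne_zero _ hpf.out.ne_zero⟩
  exact (hz.prim k).ne_zero (NeZero.ne _)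

lemma seq_ne {a : Ω} (ha : a ≠ 0) {y : ℕ → Ω} (h0 : y 0 = a) (h : ∀ n, y (n + 1) ^ p = y n)
    (k : ℕ) : y k ≠ 0 := by
  intro hk
  have h1 := seq_pow (p := p) h 0 k
  rw [zero_add, hk, h0, zero_pow (pow_ne_zero _ hpf.out.ne_zero)] at h1
  exact ha h1.symm

lemma seq_top {a : Ω} {y : ℕ → Ω} (h0 : y 0 = a) (h : ∀ n, y (n + 1) ^ p = y n)
    (k : ℕ) : y k ^ p ^ k = a := by
  have := seq_pow (p := p) h 0 k
  rwa [zero_add, h0] at this

/-- the exponents which describe the quotient of two compatible systems are compatible -/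
lemma comp_of (hz : Sys p z) {y y' : ℕ → Ω} (hne : ∀ k, y k ≠ 0)
    (h : ∀ n, y (n + 1) ^ p = y n) (h' : ∀ n, y' (n + 1) ^ p = y' n)
    (K : ∀ k : ℕ, ZMod (p ^ k)) (hK : ∀ k, y' k = z k ^ (K k).val * y k) (k : ℕ) :
    ((K (k + 1)).val : ZMod (p ^ k)) = K k := by
  haveI : NeZero (p ^ k) := ⟨pow_ne_zero _ hpf.out.ne_zero⟩
  apply sys_inj hz k (hne k)
  rw [← hK k, ZMod.val_natCast, sys_mod hz, ← h' k, hK (k + 1), mul_pow, h k]
  congr 1
  rw [← hz.pow k, ← pow_mul, ← pow_mul, mul_comm]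

end basic

section galois

variable {p : ℕ} [hpf : Fact p.Prime] {k Ω : Type} [Field k] [Field Ω] [Algebra k Ω]
  [CharZero Ω] [IsAlgClosed Ω] {z : ℕ → Ω}

lemma cy_spec (hz : Sys p z) (g : Ω ≃ₐ[k] Ω) (n : ℕ) :
    g (z n) = z n ^ (PadicInt.toZModPow n ((cy p k Ω g : ℤ_[p]ˣ) : ℤ_[p])).val := by
  have hE : ∀ i : ℕ, HasEnoughRootsOfUnity Ω (p ^ i) := fun i => by
    have : NeZero (((p ^ i : ℕ)) : Ω) := ⟨by
      rw [Nat.cast_ne_zero]
      exact pow_ne_zero _ hpf.out.ne_zero⟩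
    infer_instance
  exact cyclotomicCharacter.spec p (MulSemiringAction.toRingAut (Ω ≃ₐ[k] Ω) Ω g) (z n)
    (hz.prim n).pow_eq_one

variable {V : Type} [Group V] (e : V →* (Ω ≃ₐ[k] Ω))

lemma cocyc (hz : Sys p z) {a : Ω} (ha : a ≠ 0) {κ : V → ℤ_[p]} {y : ℕ → Ω} (h0 : y 0 = a)
    (hy : ∀ n, y (n + 1) ^ p = y n)
    (hv : ∀ n v, e v (y n) = z n ^ (PadicInt.toZModPow n (κ v)).val * y n) (v w : V) :
    κ (v * w) = κ v + ((cy p k Ω (e v) : ℤ_[p]ˣ) : ℤ_[p]) * κ w := by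
  refine PadicInt.ext_of_toZModPow.1 fun n => ?_
  apply sys_inj hz n (seq_ne ha h0 hy n)
  rw [← hv, map_mul, AlgEquiv.mul_apply, hv n w, map_mul, map_pow, cy_spec hz (e v) n, hv n v,
    map_add, map_mul, sys_add hz, sys_mul hz]
  ring

end galois

end KPEAux

open KPEAux BKOdd.KumZAux in
/-- Module KPE -/
theorem stKPE : StKPE := by
  intro p _ k Ω _ _ _ _ _ _ V _ _ _ e he z hz
  have hp : p.Prime := Fact.out
  refine ⟨(cyclotomicCharacter.continuous p k Ω).comp he, fun n v => cy_spec hz (e v) n, ?_, ?_,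
    ?_, ?_⟩
  · -- existence
    intro a ha hFa
    obtain ⟨y1, hy1⟩ := IsAlgClosed.exists_pow_nat_eq a hp.pos
    obtain ⟨Y, hY0, -, hY⟩ := exists_seq (p := p) a y1 hy1
    have hne := seq_ne ha hY0 hY
    have hex : ∀ v n, ∃ c : ZMod (p ^ n), e v (Y n) = z n ^ c.val * Y n := by
      intro v n
      haveI : NeZero (p ^ n) := ⟨pow_ne_zero _ hp.ne_zero⟩
      obtain ⟨i, hi, h⟩ := (hz.prim n).eq_pow_of_pow_eq_one (ξ := e v (Y n) / Y n) (by
        rw [div_pow, ← map_pow, seq_top hY0 hY, hFa v, div_self ha])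
      exact ⟨(i : ZMod (p ^ n)), by
        rw [ZMod.val_natCast_of_lt hi, h, div_mul_cancel₀ _ (hne n)]⟩
    choose K hK using hex
    have hcomp : ∀ v n, ((K v (n + 1)).val : ZMod (p ^ n)) = K v n := fun v n =>
      comp_of hz hne hY (y' := fun n => e v (Y n)) (fun n => by
        change e v (Y (n + 1)) ^ p = e v (Y n)
        rw [← map_pow, hY]) (K v) (hK v) n
    choose κ hκ using fun v => exists_lim (K v) (hcomp v)
    exact ⟨κ, Y, hY0, hY, fun n v => by rw [hκ v n, hK v n]⟩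
  · -- the cocycle
    rintro a κ ha ⟨y, h0, hy, hv⟩
    have hcoc := cocyc e hz ha h0 hy hv
    refine ⟨continuous_of fun n => KumAux.smooth_continuous ?_, fun v w => hcoc v w⟩
    have hfin : FiniteDimensional k (IntermediateField.adjoin k {y n}) :=
      IntermediateField.adjoin.finiteDimensional (Algebra.IsIntegral.isIntegral (y n))
    refine ⟨(IntermediateField.adjoin k {y n}).fixingSubgroup.comap e,
      (IntermediateField.fixingSubgroup_isOpen _).preimage he, fun g u hu => ?_⟩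
    have h4 : e u (y n) = y n :=
      (IntermediateField.mem_fixingSubgroup_iff _ _).1 (Subgroup.mem_comap.1 hu) (y n)
        (IntermediateField.mem_adjoin_simple_self k (y n))
    have h5 : PadicInt.toZModPow n (κ u) = 0 := by
      apply sys_inj hz n (seq_ne ha h0 hy n)
      rw [← hv, h4, ZMod.val_zero, pow_zero, one_mul]
    change PadicInt.toZModPow n (κ (g * u)) = PadicInt.toZModPow n (κ g)
    rw [hcoc, map_add, map_mul, h5, mul_zero, add_zero]
  · -- products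
    rintro a b κ μ ha hb ⟨y, h0, hy, hv⟩ ⟨y', h0', hy', hv'⟩
    refine ⟨fun n => y n * y' n, ?_, fun n => ?_, fun n v => ?_⟩
    · change y 0 * y' 0 = a * b
      rw [h0, h0']
    · change (y (n + 1) * y' (n + 1)) ^ p = y n * y' n
      rw [mul_pow, hy, hy']
    · change e v (y n * y' n) = z n ^ (PadicInt.toZModPow n (κ v + μ v)).val * (y n * y' n)
      rw [map_mul, hv, hv', map_add, sys_add hz]
      ring
  · -- two cocycles of the same element
    rintro a κ μ ha ⟨y, h0, hy, hv⟩ ⟨y', h0', hy', hv'⟩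
    have hne := seq_ne ha h0 hy
    have hex : ∀ n, ∃ c : ZMod (p ^ n), y' n = z n ^ c.val * y n := by
      intro n
      haveI : NeZero (p ^ n) := ⟨pow_ne_zero _ hp.ne_zero⟩
      obtain ⟨i, hi, h⟩ := (hz.prim n).eq_pow_of_pow_eq_one (ξ := y' n / y n) (by
        rw [div_pow, seq_top h0' hy', seq_top h0 hy, div_self ha])
      exact ⟨(i : ZMod (p ^ n)), by
        rw [ZMod.val_natCast_of_lt hi, h, div_mul_cancel₀ _ (hne n)]⟩
    choose K hK using hex
    obtain ⟨c, hc⟩ := exists_lim K (comp_of hz hne hy hy' K hK)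
    refine ⟨c, fun v => ?_⟩
    have h6 : μ v + c = κ v + ((cy p k Ω (e v) : ℤ_[p]ˣ) : ℤ_[p]) * c := by
      refine PadicInt.ext_of_toZModPow.1 fun n => ?_
      apply sys_inj hz n (hne n)
      have e1 : e v (y' n) = z n ^ (PadicInt.toZModPow n (μ v)).val * (z n ^ (K n).val * y n) := by
        rw [hv' n v, ← hK n]
      have e2 : e v (y' n) = (z n ^ (PadicInt.toZModPow n
          ((cy p k Ω (e v) : ℤ_[p]ˣ) : ℤ_[p])).val) ^ (K n).val *
          (z n ^ (PadicInt.toZModPow n (κ v)).val * y n) := by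
        rw [hK n, map_mul, map_pow, cy_spec hz (e v) n, hv n v]
      rw [map_add, map_add, map_mul, hc n, sys_add hz, sys_add hz, sys_mul hz]
      linear_combination e2 - e1
    change μ v - κ v = (((cy p k Ω (e v) : ℤ_[p]ˣ) : ℤ_[p]) - 1) * c
    linear_combination h6

end BKLoc2
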