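import Pool.Agent.Lib.MP_7c08ba_nt.Met.LocStmts
import Pool.Agent.Lib.MP_7c08ba_nt.Odd.Kum
import Pool.Agent.Lib.MP_7c08ba_nt.Odd.H90
import Pool.Agent.Lib.MP_7c08ba_nt.Odd.Chain

set_option autoImplicit false

/-!
Module LK: the multiplicative group of a finite extension of `ℚ_l`, `l ≠ p`, which contains the
`p`-th roots of unity.
-/

noncomputable section

namespace BKLoc2

open BKOdd

namespace LKAux

section grp

variable {A : Type*} [CommGroup A]

theorem idx (p : ℕ) (W : Subgroup A) (hW : W.index ≠ 0)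
    (hd : W ⊓ (powMonoidHom p : A →* A).ker = ⊥) :
    (powMonoidHom p : A →* A).range.index =
      (W.map (powMonoidHom p)).relIndex W * Nat.card (powMonoidHom p : A →* A).ker := by
  set f : A →* A := powMonoidHom p with hf
  have h1 : (W.map f).relIndex W * W.index = (W.map f).index := by
    refine Subgroup.relIndex_mul_index ?_
    rintro _ ⟨x, hx, rfl⟩
    exact W.pow_mem hx p
  have h2 : (W.map f).index = (W ⊔ f.ker).index * f.range.index := W.index_map f
  have h3 : W.relIndex (W ⊔ f.ker) * (W ⊔ f.ker).index = W.index :=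
    Subgroup.relIndex_mul_index le_sup_left
  have h4 : W.relIndex (W ⊔ f.ker) = Nat.card f.ker := by
    rw [Subgroup.relIndex_sup_left, ← Subgroup.inf_relIndex_right, hd,
      Subgroup.relIndex_bot_left]
  have h5 : (W ⊔ f.ker).index ≠ 0 := fun h0 => hW (by rw [← h3, h0, mul_zero])
  apply Nat.eq_of_mul_eq_mul_left (Nat.pos_of_ne_zero h5)
  rw [← h2, ← h1, ← h3, h4]
  ring

theorem relIdx (p : ℕ) [Fact p.Prime] (U : Subgroup A) (L : A)
    (hU : ∀ v ∈ U, ∃ w ∈ U, w ^ p = v) (hL : ∀ m : ℤ, L ^ m ∈ U → m = 0) :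
    ((U ⊔ Subgroup.zpowers L).map (powMonoidHom p)).relIndex (U ⊔ Subgroup.zpowers L) = p := by
  set W := U ⊔ Subgroup.zpowers L with hW
  set W1 := W.map (powMonoidHom p) with hW1
  have hUW : U ≤ W1 := by
    intro v hv
    obtain ⟨w, hw, rfl⟩ := hU v hv
    exact ⟨w, hW ▸ (le_sup_left : U ≤ U ⊔ Subgroup.zpowers L) hw, rfl⟩
  have hmem : ∀ n : ℤ, L ^ n ∈ W1 ↔ (p : ℤ) ∣ n := by
    intro n
    constructor
    · rintro ⟨x, hx, hxn⟩
      have hx' : x ∈ U ⊔ Subgroup.zpowers L := hx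
      obtain ⟨v, hv, y, ⟨m, hm⟩, rfl⟩ := Subgroup.mem_sup.1 hx'
      have hm' : L ^ m = y := hm
      subst hm'
      have h1 : (v * L ^ m) ^ p = L ^ n := hxn
      have h2 : L ^ (n - p * m) ∈ U := by
        have h3 : L ^ (n - p * m) = v ^ p := by
          rw [zpow_sub, ← h1, mul_pow, ← zpow_natCast, ← zpow_natCast, ← zpow_mul, mul_comm m]
          rw [mul_inv_cancel_right]
        rw [h3]
        exact U.pow_mem hv p
      have h3 := hL _ h2
      exact ⟨m, by linarith⟩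
    · rintro ⟨m, rfl⟩
      refine ⟨L ^ m, ?_, ?_⟩
      · exact (le_sup_right : Subgroup.zpowers L ≤ U ⊔ Subgroup.zpowers L) ⟨m, rfl⟩
      · show (L ^ m) ^ p = _
        rw [← zpow_natCast, ← zpow_mul, mul_comm]
  have e1 : W = Subgroup.zpowers L ⊔ W1 := by
    apply le_antisymm
    · rw [hW]
      exact sup_le (hUW.trans le_sup_right) le_sup_left
    · refine sup_le (hW ▸ le_sup_right) ?_
      rintro _ ⟨x, hx, rfl⟩
      exact W.pow_mem hx p
  rw [e1, Subgroup.relIndex_sup_right]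
  have e2 : Subgroup.zpowers L = (⊤ : Subgroup (Multiplicative ℤ)).map (zpowersHom A L) := by
    rw [← MonoidHom.range_eq_map]
    rfl
  rw [e2, ← Subgroup.relIndex_comap, Subgroup.relIndex_top_right]
  let g : Multiplicative ℤ →* Multiplicative (ZMod p) :=
    AddMonoidHom.toMultiplicative (Int.castAddHom (ZMod p))
  have e3 : W1.comap (zpowersHom A L) = g.ker := by
    ext n
    rw [Subgroup.mem_comap, MonoidHom.mem_ker]
    have h1 : zpowersHom A L n = L ^ (Multiplicative.toAdd n) := rfl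
    rw [h1, hmem, ← ZMod.intCast_zmod_eq_zero_iff_dvd]
    exact Iff.rfl
  rw [e3, Subgroup.index_ker]
  have e4 : g.range = ⊤ := by
    rw [MonoidHom.range_eq_top]
    intro x
    obtain ⟨m, hm⟩ := ZMod.intCast_surjective (Multiplicative.toAdd x)
    exact ⟨Multiplicative.ofAdd m, congrArg Multiplicative.ofAdd hm⟩
  rw [e4, Subgroup.card_top]
  show Nat.card (ZMod p) = p
  rw [Nat.card_eq_fintype_card, ZMod.card]

end grp

section norm

open Polynomial

variable {k : Type*} [Field k]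

theorem mem_NmA {p : ℕ} {a : k} {b : kˣ} :
    b ∈ NmA p k a ↔ ∃ x : AdjoinRoot (X ^ p - C a : k[X]), IsUnit x ∧ Algebra.norm k x = b := by
  constructor
  · rintro ⟨x, hx⟩
    exact ⟨x, x.isUnit, by rw [← hx]; rfl⟩
  · rintro ⟨x, ⟨y, rfl⟩, hx⟩
    exact ⟨y, Units.ext hx⟩

theorem monic_f {p : ℕ} (hp : p ≠ 0) (a : k) : (X ^ p - C a : k[X]).Monic :=
  monic_X_pow_sub_C a hp

theorem finrank_f {p : ℕ} (hp : p ≠ 0) (a : k) :
    Module.finrank k (AdjoinRoot (X ^ p - C a : k[X])) = p := by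
  rw [(AdjoinRoot.powerBasis' (monic_f hp a)).finrank, AdjoinRoot.powerBasis'_dim,
    natDegree_X_pow_sub_C]

theorem norm_root {p : ℕ} (hp : Odd p) (a : k) :
    Algebra.norm k (AdjoinRoot.root (X ^ p - C a : k[X])) = a := by
  have hp0 : p ≠ 0 := by rintro rfl; exact (by decide : ¬ Odd 0) hp
  have h := Algebra.PowerBasis.norm_gen_eq_coeff_zero_minpoly
    (AdjoinRoot.powerBasis' (monic_f hp0 a))
  rw [AdjoinRoot.powerBasis'_gen, AdjoinRoot.powerBasis'_dim] at h
  have h2 : minpoly k (AdjoinRoot.root (X ^ p - C a : k[X])) = X ^ p - C a := by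
    rw [AdjoinRoot.minpoly_root (monic_f hp0 a).ne_zero, (monic_f hp0 a).leadingCoeff, inv_one,
      C_1, mul_one]
  rw [h2, natDegree_X_pow_sub_C, hp.neg_one_pow] at h
  rw [h]
  simp [hp0.symm, coeff_X_pow]

theorem nmA_pow {p : ℕ} (hp : p ≠ 0) [CharZero k] (c : k) (hc : c ≠ 0) :
    NmA p k (c ^ p) = ⊤ := by
  rw [eq_top_iff]
  intro b _
  rw [mem_NmA]
  set f : k[X] := X ^ p - C (c ^ p) with hf
  have hm : f.Monic := monic_f hp _
  have hroot : aeval c f = 0 := by simp [hf]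
  have hroot' : f.IsRoot c := by simp [hf]
  have : Module.Free k (AdjoinRoot f) := Module.Free.of_basis (AdjoinRoot.powerBasis' hm).basis
  have : Module.Finite k (AdjoinRoot f) := (AdjoinRoot.powerBasis' hm).finite
  set g : k[X] := f /ₘ (X - C c) with hg
  have hfg : (X - C c) * g = f := mul_divByMonic_eq_iff_isRoot.2 hroot'
  have hgc : g.eval c = p * c ^ (p - 1) := by
    have h1 : derivative f = g + (X - C c) * derivative g := by
      rw [← hfg, derivative_mul, derivative_sub, derivative_X, derivative_C, sub_zero, one_mul]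
    have h2 := congrArg (eval c) h1
    rw [eval_add, eval_mul, eval_sub, eval_X, eval_C, sub_self, zero_mul, add_zero] at h2
    rw [← h2, hf, derivative_sub, derivative_C, sub_zero, derivative_X_pow]
    simp
  have hg0 : g.eval c ≠ 0 := by
    rw [hgc]
    exact mul_ne_zero (by exact_mod_cast hp) (pow_ne_zero _ hc)
  let ev : AdjoinRoot f →ₐ[k] k := AdjoinRoot.liftAlgHom f (Algebra.ofId k k) c hroot
  have hev : ∀ q : k[X], ev (AdjoinRoot.mk f q) = q.eval c := by
    intro q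
    have h1 : ev (AdjoinRoot.root f) = c := AdjoinRoot.liftAlgHom_root f (Algebra.ofId k k) c hroot
    rw [← AdjoinRoot.aeval_eq, ← Polynomial.aeval_algHom_apply, h1, coe_aeval_eq_eval]
  set ε : AdjoinRoot f := (g.eval c)⁻¹ • AdjoinRoot.mk f g with hε
  have hmul : ∀ x : AdjoinRoot f, x * ε = ev x • ε := by
    intro x
    obtain ⟨q, rfl⟩ := AdjoinRoot.mk_surjective x
    rw [hev, hε, mul_smul_comm, smul_comm]
    congr 1
    have h1 : (X - C c) ∣ q - C (q.eval c) := dvd_iff_isRoot.2 (by simp)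
    obtain ⟨r, hr⟩ := h1
    have h2 : AdjoinRoot.mk f (q * g) = AdjoinRoot.mk f (C (q.eval c) * g) := by
      rw [AdjoinRoot.mk_eq_mk, ← sub_mul, hr, mul_right_comm, hfg]
      exact dvd_mul_right _ _
    rw [← map_mul, h2, map_mul, AdjoinRoot.mk_C, ← AdjoinRoot.algebraMap_eq, Algebra.smul_def]
  have hevε : ev ε = 1 := by
    rw [hε, map_smul, hev, smul_eq_mul, inv_mul_cancel₀ hg0]
  have hεε : ε * ε = ε := by rw [hmul, hevε, one_smul]
  refine ⟨1 + ((b : k) - 1) • ε, ?_, ?_⟩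
  · refine IsUnit.of_mul_eq_one (1 + ((b : k)⁻¹ - 1) • ε) ?_
    have h1 : (1 + ((b : k) - 1) • ε) * (1 + ((b : k)⁻¹ - 1) • ε) =
        1 + (((b : k) - 1) + ((b : k)⁻¹ - 1) + ((b : k) - 1) * ((b : k)⁻¹ - 1)) • ε := by
      rw [mul_add, add_mul, add_mul, smul_mul_smul_comm, hεε, add_smul, add_smul]
      simp only [mul_one, one_mul]
      abel
    rw [h1]
    have h2 : ((b : k) - 1) + ((b : k)⁻¹ - 1) + ((b : k) - 1) * ((b : k)⁻¹ - 1) = 0 := by
      have hb : (b : k) ≠ 0 := b.ne_zero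
      field_simp
      ring
    rw [h2, zero_smul, add_zero]
  · rw [Algebra.norm_apply]
    have h1 : Algebra.lmul k (AdjoinRoot f) (1 + ((b : k) - 1) • ε) =
        LinearMap.transvection (((b : k) - 1) • ev.toLinearMap) ε := by
      ext x
      rw [LinearMap.transvection.apply]
      show (1 + ((b : k) - 1) • ε) * x = x + (((b : k) - 1) • ev x) • ε
      rw [add_mul, one_mul, smul_mul_assoc, mul_comm ε x, hmul, smul_smul, smul_eq_mul]
    rw [h1, LinearMap.transvection.det]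
    show 1 + ((b : k) - 1) • ev ε = b
    rw [hevε, smul_eq_mul, mul_one]
    ring

theorem nmA_unit {p : ℕ} (hp : Odd p) (a c : kˣ) (i : ℕ) : a ^ i * c ^ p ∈ NmA p k (a : k) := by
  have hp0 : p ≠ 0 := by rintro rfl; exact (by decide : ¬ Odd 0) hp
  rw [mem_NmA]
  have hr : IsUnit (AdjoinRoot.root (X ^ p - C (a : k) : k[X])) := by
    have h1 : (AdjoinRoot.root (X ^ p - C (a : k) : k[X])) ^ p =
        algebraMap k _ (a : k) := by
      have h2 := AdjoinRoot.eval₂_root (X ^ p - C (a : k) : k[X])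
      rw [eval₂_sub, eval₂_X_pow, eval₂_C, sub_eq_zero] at h2
      rw [h2]
      rfl
    have h3 : IsUnit ((AdjoinRoot.root (X ^ p - C (a : k) : k[X])) ^ p) := by
      rw [h1]
      exact a.isUnit.map _
    exact (isUnit_pow_iff hp0).1 h3
  refine ⟨(AdjoinRoot.root (X ^ p - C (a : k) : k[X])) ^ i * algebraMap k _ (c : k),
    (hr.pow i).mul (c.isUnit.map _), ?_⟩
  have : Module.Free k (AdjoinRoot (X ^ p - C (a : k) : k[X])) :=
    Module.Free.of_basis (AdjoinRoot.powerBasis' (monic_f hp0 (a : k))).basis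
  rw [map_mul, map_pow, norm_root hp, Algebra.norm_algebraMap, finrank_f hp0]
  simp

end norm

section field

variable {p l : ℕ} [Fact p.Prime] [Fact l.Prime]
  {k : IntermediateField ℚ_[l] (PadicAlgCl l)}

/-- the prime `l` as a unit of `k` -/
def Lu (k : IntermediateField ℚ_[l] (PadicAlgCl l)) : kˣ :=
  Units.mk0 (l : k) (by exact_mod_cast (Fact.out : l.Prime).ne_zero)

/-- the units of absolute value one -/
def OO (k : IntermediateField ℚ_[l] (PadicAlgCl l)) : Subgroup kˣ where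
  carrier := {x | ‖((x : k) : PadicAlgCl l)‖ = 1}
  one_mem' := by
    show ‖(((1 : kˣ) : k) : PadicAlgCl l)‖ = 1
    simp
  mul_mem' := by
    intro a b ha hb
    show ‖(((a * b : kˣ) : k) : PadicAlgCl l)‖ = 1
    have ha' : ‖((a : k) : PadicAlgCl l)‖ = 1 := ha
    have hb' : ‖((b : k) : PadicAlgCl l)‖ = 1 := hb
    rw [Units.val_mul, MulMemClass.coe_mul, norm_mul, ha', hb', one_mul]
  inv_mem' := by
    intro a ha
    show ‖(((a⁻¹ : kˣ) : k) : PadicAlgCl l)‖ = 1
    have ha' : ‖((a : k) : PadicAlgCl l)‖ = 1 := ha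
    rw [Units.val_inv_eq_inv_val]
    show ‖(((a : k) : PadicAlgCl l))⁻¹‖ = 1
    rw [norm_inv, ha', inv_one]

theorem mem_OO {x : kˣ} : x ∈ OO k ↔ ‖((x : k) : PadicAlgCl l)‖ = 1 := Iff.rfl

theorem mem_k {x : PadicAlgCl l} : x ∈ k ↔ ∀ h ∈ k.fixingSubgroup, h x = x := by
  rw [← IntermediateField.mem_fixedField_iff, InfiniteGalois.fixedField_fixingSubgroup]

/-- the structure of the multiplicative group -/
theorem facts (h1 : StLsT) (hlp : l ≠ p) [FiniteDimensional ℚ_[l] k] :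
    ∃ U : Subgroup kˣ, (∀ v : kˣ, v ∈ U ↔ ‖((v : k) : PadicAlgCl l) - 1‖ < 1) ∧
      (∃ S : Set kˣ, S.Finite ∧ ∀ x : kˣ, ∃ s ∈ S, ∃ v ∈ U, ∃ m : ℤ, x = s * v * Lu k ^ m) ∧
      (∀ v ∈ U, ∃ w ∈ U, w ^ p = v) ∧ ∀ v ∈ U, v ^ p = 1 → v = 1 := by
  obtain ⟨U, hU, ⟨S, hS, hcov⟩, hdiv, hone⟩ := h1 p l hlp k.fixingSubgroup
    (IntermediateField.fixingSubgroup_isOpen k)
  let i : kˣ →* (PadicAlgCl l)ˣ := Units.map (algebraMap k (PadicAlgCl l)).toMonoidHom
  have hi : ∀ x : kˣ, ((i x : (PadicAlgCl l)ˣ) : PadicAlgCl l) = ((x : k) : PadicAlgCl l) :=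
    fun x => rfl
  have hinj : Function.Injective i := by
    intro x y h
    have h2 : ((x : k) : PadicAlgCl l) = ((y : k) : PadicAlgCl l) := by
      rw [← hi, ← hi, h]
    exact Units.ext (Subtype.ext h2)
  have hfix : ∀ x : kˣ, ∀ h ∈ k.fixingSubgroup, h ((x : k) : PadicAlgCl l) = (x : k) :=
    fun x => mem_k.1 (x : k).2
  have hlift : ∀ w : (PadicAlgCl l)ˣ, (∀ h ∈ k.fixingSubgroup, h (w : PadicAlgCl l) = w) →
      ∃ x : kˣ, i x = w := by
    intro w hw
    refine ⟨Units.mk0 ⟨(w : PadicAlgCl l), mem_k.2 hw⟩ ?_, Units.ext rfl⟩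
    intro h0
    exact w.ne_zero (congrArg Subtype.val h0)
  refine ⟨U.comap i, ?_, ⟨i ⁻¹' S, hS.preimage hinj.injOn, ?_⟩, ?_, ?_⟩
  · intro v
    rw [Subgroup.mem_comap, hU]
    exact ⟨fun h => h.2, fun h => ⟨hfix v, h⟩⟩
  · intro x
    obtain ⟨s, hs, v, hv, m, hx⟩ := hcov (i x) (hfix x)
    obtain ⟨v', rfl⟩ := hlift v ((hU v).1 hv).1
    have h2 : s = i (x * v'⁻¹ * (Lu k ^ m)⁻¹) := by
      apply Units.ext
      have h3 : (i x : (PadicAlgCl l)ˣ) = s * i v' * i (Lu k ^ m) := by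
        apply Units.ext
        rw [hx, Units.val_mul, Units.val_mul, map_zpow, Units.val_zpow_eq_zpow_val]
        rfl
      rw [map_mul, map_mul, h3, map_inv, map_inv, mul_right_comm (s * i v') _ _,
        mul_inv_cancel_right, mul_inv_cancel_right]
    refine ⟨x * v'⁻¹ * (Lu k ^ m)⁻¹, ?_, v', hv, m, ?_⟩
    rotate_left
    · rw [mul_right_comm (x * v'⁻¹) _ _, inv_mul_cancel_right, inv_mul_cancel_right]
    show i _ ∈ S
    rw [← h2]
    exact hs
  · intro v hv
    obtain ⟨w, hw, hwv⟩ := hdiv (i v) hv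
    obtain ⟨w', rfl⟩ := hlift w ((hU w).1 hw).1
    exact ⟨w', hw, hinj (by rw [map_pow, hwv])⟩
  · intro v hv hv1
    exact hinj (by rw [map_one]; exact hone (i v) hv (by rw [← map_pow, hv1, map_one]))

theorem norm_Lu_lt : ‖(((Lu k : kˣ) : k) : PadicAlgCl l)‖ < 1 := by
  have h1 : (((Lu k : kˣ) : k) : PadicAlgCl l) = (((l : ℚ_[l]) : ℚ_[l]) : PadicAlgCl l) := by
    show (((l : k)) : PadicAlgCl l) = _
    push_cast
    rfl
  rw [h1, PadicAlgCl.norm_extends]
  exact Padic.norm_p_lt_one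

theorem Lu_pow {m : ℤ} (h : Lu k ^ m ∈ OO k) : m = 0 := by
  rw [mem_OO] at h
  have h1 : (((Lu k ^ m : kˣ) : k) : PadicAlgCl l) = (((Lu k : kˣ) : k) : PadicAlgCl l) ^ m := by
    rw [Units.val_zpow_eq_zpow_val]
    exact map_zpow₀ (algebraMap k (PadicAlgCl l)) _ _
  rw [h1, norm_zpow] at h
  have h2 : 0 < ‖(((Lu k : kˣ) : k) : PadicAlgCl l)‖ :=
    norm_pos_iff.2 fun h0 => (Lu k).ne_zero (Subtype.ext h0)
  exact (zpow_eq_one_iff_right₀ h2.le norm_Lu_lt.ne).1 h

theorem one_unit {v : kˣ} (h : ‖((v : k) : PadicAlgCl l) - 1‖ < 1) : v ∈ OO k := by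
  rw [mem_OO]
  have h1 := IsUltrametricDist.norm_add_eq_max_of_norm_ne_norm
    (x := ((v : k) : PadicAlgCl l) - 1) (y := 1) (by rw [norm_one]; exact h.ne)
  rw [sub_add_cancel, norm_one, max_eq_right h.le] at h1
  exact h1

/-- the kernel of the `p`-th power -/
theorem card_ker {ζ : k} (hζ : IsPrimitiveRoot ζ p) :
    Nat.card (powMonoidHom p : kˣ →* kˣ).ker = p := by
  have hp : 0 < p := (Fact.out : p.Prime).pos
  have : NeZero p := ⟨hp.ne'⟩
  have h1 : (powMonoidHom p : kˣ →* kˣ).ker = rootsOfUnity p k := by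
    ext x
    rw [MonoidHom.mem_ker, mem_rootsOfUnity]
    rfl
  rw [h1, hζ.card_rootsOfUnity]

theorem pow_eq_one_OO {x : kˣ} {n : ℕ} (hn : n ≠ 0) (h : x ^ n ∈ OO k) : x ∈ OO k := by
  rw [mem_OO] at h ⊢
  have h1 : (((x ^ n : kˣ) : k) : PadicAlgCl l) = ((x : k) : PadicAlgCl l) ^ n := by
    rw [Units.val_pow_eq_pow_val]
    rfl
  rw [h1, norm_pow] at h
  exact (pow_eq_one_iff_of_nonneg (norm_nonneg _) hn).1 h

theorem card_ker_OO {ζ : k} (hζ : IsPrimitiveRoot ζ p) :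
    Nat.card (powMonoidHom p : OO k →* OO k).ker = p := by
  have hp : p ≠ 0 := (Fact.out : p.Prime).ne_zero
  have h1 : (powMonoidHom p : OO k →* OO k).ker.map (OO k).subtype =
      (powMonoidHom p : kˣ →* kˣ).ker := by
    ext x
    rw [Subgroup.mem_map]
    constructor
    · rintro ⟨y, hy, rfl⟩
      exact congrArg (fun z : OO k => (z : kˣ)) hy
    · intro hx
      have hx' : x ^ p = 1 := hx
      exact ⟨⟨x, pow_eq_one_OO hp (by rw [hx']; exact (OO k).one_mem)⟩, Subtype.ext hx', rfl⟩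
  have h2 := card_ker hζ
  rw [← h1] at h2
  exact (Nat.card_congr ((powMonoidHom p : OO k →* OO k).ker.equivMapOfInjective (OO k).subtype
    Subtype.val_injective).toEquiv).trans h2

/-- (1) -/
theorem part1 (h1 : StLsT) (hlp : l ≠ p) [FiniteDimensional ℚ_[l] k] {ζ : k}
    (hζ : IsPrimitiveRoot ζ p) :
    (powMonoidHom p : kˣ →* kˣ).range.index = p ^ 2 ∧
      (powMonoidHom p : OO k →* OO k).range.index = p := by
  obtain ⟨U, hU, ⟨S, hS, hcov⟩, hdiv, hone⟩ := facts (k := k) h1 hlp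
  have hUO : U ≤ OO k := fun v hv => one_unit ((hU v).1 hv)
  have hL : ∀ m : ℤ, Lu k ^ m ∈ U → m = 0 := fun m hm => Lu_pow (hUO hm)
  set W := U ⊔ Subgroup.zpowers (Lu k) with hW
  have hWmem : ∀ x, x ∈ W ↔ ∃ v ∈ U, ∃ m : ℤ, v * Lu k ^ m = x := by
    intro x
    rw [hW, Subgroup.mem_sup]
    constructor
    · rintro ⟨v, hv, y, ⟨m, rfl⟩, h⟩
      exact ⟨v, hv, m, h⟩
    · rintro ⟨v, hv, m, h⟩
      exact ⟨v, hv, _, ⟨m, rfl⟩, h⟩
  have hWi : W.index ≠ 0 := by
    have hfin : Finite S := hS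
    have h2 : Function.Surjective (fun s : S => (QuotientGroup.mk (s : kˣ) : kˣ ⧸ W)) := by
      intro y
      obtain ⟨x, rfl⟩ := QuotientGroup.mk_surjective y
      obtain ⟨s, hs, v, hv, m, hx⟩ := hcov x
      refine ⟨⟨s, hs⟩, ?_⟩
      rw [QuotientGroup.eq]
      refine (hWmem _).2 ⟨v, hv, m, ?_⟩
      rw [hx, mul_assoc, inv_mul_cancel_left]
    have h3 : Finite (kˣ ⧸ W) := Finite.of_surjective _ h2
    exact Subgroup.index_ne_zero_of_finite
  have hker : ∀ x ∈ W, x ^ p = 1 → x = 1 := by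
    intro x hx hx1
    obtain ⟨v, hv, m, rfl⟩ := (hWmem x).1 hx
    have h2 : Lu k ^ (m * p) ∈ U := by
      have h3 : Lu k ^ (m * p) = (v ^ p)⁻¹ := by
        rw [mul_pow] at hx1
        rw [zpow_mul, zpow_natCast]
        exact eq_inv_of_mul_eq_one_right hx1
      rw [h3]
      exact U.inv_mem (U.pow_mem hv p)
    have h3 : m * p = 0 := hL _ h2
    have h4 : m = 0 := by
      rcases mul_eq_zero.1 h3 with h | h
      · exact h
      · exact absurd (by exact_mod_cast h) (Fact.out : p.Prime).ne_zero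
    subst h4
    rw [zpow_zero, mul_one] at hx1 ⊢
    exact hone v hv hx1
  constructor
  · have hd : W ⊓ (powMonoidHom p : kˣ →* kˣ).ker = ⊥ := by
      rw [eq_bot_iff]
      intro x hx
      exact hker x hx.1 hx.2
    rw [idx p W hWi hd, hW, relIdx p U (Lu k) hdiv hL, card_ker hζ, sq]
  · have hrel : U.relIndex (OO k) ≠ 0 := by
      have h2 : W ⊓ OO k = U ⊓ OO k := by
        apply le_antisymm
        · rintro x ⟨hx, hxO⟩
          obtain ⟨v, hv, m, rfl⟩ := (hWmem x).1 hx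
          have h3 : Lu k ^ m ∈ OO k := by
            have h4 := (OO k).mul_mem ((OO k).inv_mem (hUO hv)) hxO
            rwa [inv_mul_cancel_left] at h4
          rw [Lu_pow h3, zpow_zero, mul_one]
          exact ⟨hv, hUO hv⟩
        · exact inf_le_inf_right _ (hW ▸ le_sup_left)
      rw [← Subgroup.inf_relIndex_right, ← h2, Subgroup.inf_relIndex_right]
      intro h0
      have h5 := Subgroup.relIndex_dvd_index_of_normal W (OO k)
      rw [h0, zero_dvd_iff] at h5
      exact hWi h5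
    have hd : U.subgroupOf (OO k) ⊓ (powMonoidHom p : OO k →* OO k).ker = ⊥ := by
      rw [eq_bot_iff]
      rintro x ⟨hx1, hx2⟩
      have h3 : (x : kˣ) ∈ U := hx1
      have h4 : (x : kˣ) ^ p = 1 := congrArg (fun z : OO k => (z : kˣ)) hx2
      exact Subtype.ext (hone _ h3 h4)
    have hmap : (U.subgroupOf (OO k)).map (powMonoidHom p) = U.subgroupOf (OO k) := by
      apply le_antisymm
      · rintro _ ⟨x, hx, rfl⟩
        exact (U.subgroupOf (OO k)).pow_mem hx p
      · intro x hx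
        obtain ⟨w, hw, hwx⟩ := hdiv x hx
        exact ⟨⟨w, hUO hw⟩, hw, Subtype.ext hwx⟩
    rw [idx p (U.subgroupOf (OO k)) hrel hd, hmap, Subgroup.relIndex_self, one_mul,
      card_ker_OO hζ]

/-- (2), (3) -/
theorem part2 (h1 : StLsT) (hlp : l ≠ p) [FiniteDimensional ℚ_[l] k] {ζ : k}
    (hζ : IsPrimitiveRoot ζ p) :
    (∀ u w : kˣ, u ∈ OO k → w ∈ OO k → (¬ ∃ c : kˣ, c ^ p = u) →
      ∃ (i : ℕ) (c : kˣ), w = u ^ i * c ^ p) ∧
    ∃ u : kˣ, u ∈ OO k ∧ ¬ ∃ c : kˣ, c ^ p = u := by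
  have hp : p ≠ 0 := (Fact.out : p.Prime).ne_zero
  have hidx := (part1 h1 hlp hζ).2
  have hcard : Nat.card (OO k ⧸ (powMonoidHom p : OO k →* OO k).range) = p := hidx
  have hpow : ∀ u : OO k, (∃ c : kˣ, c ^ p = u) → u ∈ (powMonoidHom p : OO k →* OO k).range := by
    rintro u ⟨c, hc⟩
    exact ⟨⟨c, pow_eq_one_OO hp (by rw [hc]; exact u.2)⟩, Subtype.ext hc⟩
  constructor
  · intro u w hu hw hno
    have h2 : (QuotientGroup.mk (⟨u, hu⟩ : OO k) :
        OO k ⧸ (powMonoidHom p : OO k →* OO k).range) ≠ 1 := by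
      intro h3
      rw [QuotientGroup.eq_one_iff] at h3
      obtain ⟨c, hc⟩ := h3
      exact hno ⟨c, congrArg (fun z : OO k => (z : kˣ)) hc⟩
    obtain ⟨i, hi⟩ := mem_powers_of_prime_card (G := OO k ⧸ (powMonoidHom p : OO k →* OO k).range)
      hcard (g' := QuotientGroup.mk (⟨w, hw⟩ : OO k)) h2
    have hi' : (QuotientGroup.mk ((⟨u, hu⟩ : OO k) ^ i) :
        OO k ⧸ (powMonoidHom p : OO k →* OO k).range) = QuotientGroup.mk (⟨w, hw⟩ : OO k) := hi
    rw [QuotientGroup.eq] at hi'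
    obtain ⟨c, hc⟩ := hi'
    refine ⟨i, c, ?_⟩
    have h3 : ((c : kˣ)) ^ p = (u ^ i)⁻¹ * w := congrArg (fun z : OO k => (z : kˣ)) hc
    rw [h3, mul_inv_cancel_left]
  · have hnt : Nontrivial (OO k ⧸ (powMonoidHom p : OO k →* OO k).range) := by
      have hfin : Finite (OO k ⧸ (powMonoidHom p : OO k →* OO k).range) :=
        Nat.finite_of_card_ne_zero (by rw [hcard]; exact hp)
      rw [← Finite.one_lt_card_iff_nontrivial, hcard]
      exact (Fact.out : p.Prime).one_lt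
    obtain ⟨y, hy⟩ := exists_ne (1 : OO k ⧸ (powMonoidHom p : OO k →* OO k).range)
    obtain ⟨u, rfl⟩ := QuotientGroup.mk_surjective y
    refine ⟨u, u.2, fun h => hy ?_⟩
    rw [QuotientGroup.eq_one_iff]
    exact hpow u h

end field

section main

open Polynomial

variable {p l : ℕ} [Fact p.Prime] [Fact l.Prime]
  {k : IntermediateField ℚ_[l] (PadicAlgCl l)}

/-- an element of the group of `k` as an automorphism over `k` -/
def toK (v : k.fixingSubgroup) : PadicAlgCl l ≃ₐ[k] PadicAlgCl l :=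
  IntermediateField.fixingSubgroupEquiv k v

theorem toK_apply (v : k.fixingSubgroup) (x : PadicAlgCl l) : toK v x = (v : GQ l) x := rfl

theorem mem_range {f : k[X]} [Fact (Irreducible f)] (φ : AdjoinRoot f →ₐ[k] PadicAlgCl l)
    {c : PadicAlgCl l} (hc : ∀ v : k.fixingSubgroup,
      (v : GQ l) (φ (AdjoinRoot.root f)) = φ (AdjoinRoot.root f) → (v : GQ l) c = c) :
    ∃ x, φ x = c := by
  have h1 : c ∈ φ.fieldRange := by
    rw [← InfiniteGalois.fixedField_fixingSubgroup φ.fieldRange,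
      IntermediateField.mem_fixedField_iff]
    intro τ hτ
    have h2 := hc ((IntermediateField.fixingSubgroupEquiv k).symm τ)
      ((IntermediateField.mem_fixingSubgroup_iff _ _).1 hτ _ ⟨AdjoinRoot.root f, rfl⟩)
    exact h2
  exact h1

omit [Fact p.Prime] in
theorem norm_prod {f : k[X]} [Fact (Irreducible f)] [Module.Finite k (AdjoinRoot f)]
    (φ : AdjoinRoot f →ₐ[k] PadicAlgCl l) (hf : Module.finrank k (AdjoinRoot f) = p)
    {ζ : PadicAlgCl l} (hζ : IsPrimitiveRoot ζ p) (σ : k.fixingSubgroup)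
    (h0 : φ (AdjoinRoot.root f) ≠ 0)
    (hσ : ∀ i : ℕ, ((σ ^ i : k.fixingSubgroup) : GQ l) (φ (AdjoinRoot.root f)) =
      ζ ^ i * φ (AdjoinRoot.root f)) (x : AdjoinRoot f) :
    ∏ i ∈ Finset.range p, ((σ ^ i : k.fixingSubgroup) : GQ l) (φ x) =
      algebraMap k (PadicAlgCl l) (Algebra.norm k x) := by
  have hψ : Function.Bijective (fun i : Fin p => ((toK (σ ^ (i : ℕ))).toAlgHom.comp φ)) := by
    rw [Fintype.bijective_iff_injective_and_card]
    refine ⟨?_, ?_⟩
    · intro i j hij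
      have h := congrArg (fun ψ : AdjoinRoot f →ₐ[k] PadicAlgCl l => ψ (AdjoinRoot.root f)) hij
      change ((σ ^ (i : ℕ) : k.fixingSubgroup) : GQ l) (φ (AdjoinRoot.root f)) =
        ((σ ^ (j : ℕ) : k.fixingSubgroup) : GQ l) (φ (AdjoinRoot.root f)) at h
      rw [hσ, hσ] at h
      exact Fin.ext (hζ.pow_inj i.2 j.2 (mul_right_cancel₀ h0 h))
    · rw [Fintype.card_fin, AlgHom.card, hf]
  rw [Algebra.norm_eq_prod_embeddings, Finset.prod_range]
  exact Function.Bijective.prod_comp hψ (fun ψ => ψ x)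

theorem nmA_index (h2 : StNT) (hlp : l ≠ p) [FiniteDimensional ℚ_[l] k] {ζ : k}
    (hζ : IsPrimitiveRoot ζ p) (a : kˣ) (ha : ¬ ∃ c : kˣ, c ^ p = a) :
    (NmA p k (a : k)).index = p := by
  have hp : p.Prime := Fact.out
  have hζ' : IsPrimitiveRoot (ζ : PadicAlgCl l) p :=
    hζ.map_of_injective (f := algebraMap k (PadicAlgCl l)) (algebraMap k _).injective
  set e : k.fixingSubgroup →* GQ l := k.fixingSubgroup.subtype with he0
  have he : Topology.IsOpenEmbedding e :=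
    (IntermediateField.fixingSubgroup_isOpen k).isOpenEmbedding_subtypeVal
  have hFx : ∀ x : PadicAlgCl l, Fx e x ↔ x ∈ k := fun x => by
    rw [mem_k]
    exact ⟨fun h v hv => h ⟨v, hv⟩, fun h v => h v v.2⟩
  obtain ⟨K1, -, -, -, K5⟩ := stKum stH90 ℚ_[l] (PadicAlgCl l) k.fixingSubgroup e he p
    (ζ : PadicAlgCl l) hζ' ((hFx _).2 ζ.2)
  have ha0 : ((a : k) : PadicAlgCl l) ≠ 0 := fun h => a.ne_zero (Subtype.ext h)
  obtain ⟨κ, hκ, y, hy0, hya, hy⟩ := K1 ((a : k) : PadicAlgCl l) ha0 ((hFx _).2 (a : k).2)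
  have hκ0 : κ ≠ 0 := by
    intro h0
    obtain ⟨b, hb, hba⟩ := (K5 _ κ ⟨y, hy0, hya, hy⟩).1 h0
    have hbk : b ∈ k := (hFx b).1 hb
    refine ha ⟨Units.mk0 ⟨b, hbk⟩ ?_, Units.ext (Subtype.ext hba)⟩
    intro h
    have h' : b = 0 := congrArg Subtype.val h
    rw [h', zero_pow hp.ne_zero] at hba
    exact ha0 hba.symm
  have hirr : Irreducible (X ^ p - C (a : k) : k[X]) := by
    refine X_pow_sub_C_irreducible_of_prime hp fun b hb => ha ?_
    refine ⟨Units.mk0 b ?_, Units.ext hb⟩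
    rintro rfl
    rw [zero_pow hp.ne_zero] at hb
    exact a.ne_zero hb.symm
  have : Fact (Irreducible (X ^ p - C (a : k) : k[X])) := ⟨hirr⟩
  have : Module.Finite k (AdjoinRoot (X ^ p - C (a : k) : k[X])) :=
    (AdjoinRoot.powerBasis' (monic_f hp.ne_zero (a : k))).finite
  have hroot : eval₂ (Algebra.ofId k (PadicAlgCl l) : k →+* PadicAlgCl l) y
      (X ^ p - C (a : k) : k[X]) = 0 := by
    rw [eval₂_sub, eval₂_X_pow, eval₂_C, hya, sub_eq_zero]
    rfl
  let φ : AdjoinRoot (X ^ p - C (a : k) : k[X]) →ₐ[k] PadicAlgCl l :=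
    AdjoinRoot.liftAlgHom _ (Algebra.ofId k _) y hroot
  have hφ : φ (AdjoinRoot.root (X ^ p - C (a : k) : k[X])) = y :=
    AdjoinRoot.liftAlgHom_root _ (Algebra.ofId k _) y hroot
  obtain ⟨σ, hσ⟩ := Chain.exists_eq_one hκ hκ0
  set H : Subgroup k.fixingSubgroup := (Chain.mhom κ hκ).ker with hH
  have hmemH : ∀ v, v ∈ H ↔ (v : GQ l) y = y := by
    intro v
    rw [hH, Chain.mem_mhom_ker]
    have h3 : (v : GQ l) y = (ζ : PadicAlgCl l) ^ (κ v).val * y := hy v
    constructor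
    · intro h
      rw [h3, h, ZMod.val_zero, pow_zero, one_mul]
    · intro h
      apply KumAux.pow_val_inj hζ'
      apply mul_right_cancel₀ hy0
      rw [← h3, h, ZMod.val_zero, pow_zero, one_mul]
  have hσi : ∀ i : ℕ, ((σ ^ i : k.fixingSubgroup) : GQ l) y = (ζ : PadicAlgCl l) ^ i * y := by
    intro i
    have h3 : ((σ ^ i : k.fixingSubgroup) : GQ l) y =
        (ζ : PadicAlgCl l) ^ (κ (σ ^ i)).val * y := hy (σ ^ i)
    rw [h3, Chain.z1_pow hκ, hσ, mul_one, ZMod.val_natCast]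
    congr 1
    conv_rhs => rw [← Nat.mod_add_div i p, pow_add, pow_mul, hζ'.pow_eq_one, one_pow, mul_one]
  have hprod := norm_prod (p := p) φ (finrank_f hp.ne_zero (a : k)) hζ' σ
    (by rw [hφ]; exact hy0) (by rw [hφ]; exact hσi)
  let i : kˣ →* (PadicAlgCl l)ˣ := Units.map (algebraMap k (PadicAlgCl l)).toMonoidHom
  have hi : Function.Injective i := by
    intro x x' h
    have h3 : ((x : k) : PadicAlgCl l) = ((x' : k) : PadicAlgCl l) :=
      congrArg (fun u : (PadicAlgCl l)ˣ => (u : PadicAlgCl l)) h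
    exact Units.ext (Subtype.ext h3)
  have hS : ∀ Y : (PadicAlgCl l)ˣ, Y ∈ (⊤ : Subgroup kˣ).map i ↔ Fx e (Y : PadicAlgCl l) := by
    intro Y
    rw [hFx, Subgroup.mem_map]
    constructor
    · rintro ⟨x, -, rfl⟩
      exact (x : k).2
    · intro h
      refine ⟨Units.mk0 ⟨(Y : PadicAlgCl l), h⟩ ?_, Subgroup.mem_top _, Units.ext rfl⟩
      intro h0
      exact Y.ne_zero (congrArg Subtype.val h0)
  have hT : ∀ Y : (PadicAlgCl l)ˣ, Y ∈ (NmA p k (a : k)).map i ↔
      IsNm e p H σ (Y : PadicAlgCl l) := by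
    intro Y
    rw [Subgroup.mem_map]
    constructor
    · rintro ⟨b, hb, rfl⟩
      obtain ⟨x, hx, hxb⟩ := mem_NmA.1 hb
      refine ⟨φ x, ?_, ?_, ?_⟩
      · exact (hx.map φ).ne_zero
      · intro h hh
        have h3 : (toK h).toAlgHom.comp φ = φ := by
          apply AdjoinRoot.algHom_ext
          show (h : GQ l) (φ (AdjoinRoot.root _)) = φ (AdjoinRoot.root _)
          rw [hφ]
          exact (hmemH h).1 hh
        exact DFunLike.congr_fun h3 x
      · have h3 := hprod x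
        rw [hxb] at h3
        exact h3
    · rintro ⟨c, hc0, hc, hcY⟩
      obtain ⟨x, hx⟩ := mem_range φ (c := c) (fun v hv => hc v ((hmemH v).2 (by
        rw [hφ] at hv
        exact hv)))
      have hx0 : x ≠ 0 := by
        rintro rfl
        rw [map_zero] at hx
        exact hc0 hx.symm
      have hxu : IsUnit x := hx0.isUnit
      have h3 := hprod x
      rw [hx] at h3
      have h4 : algebraMap k (PadicAlgCl l) (Algebra.norm k x) = Y := h3.symm.trans hcY
      refine ⟨(hxu.map (Algebra.norm k)).unit, mem_NmA.2 ⟨x, hxu, rfl⟩, Units.ext h4⟩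
  have h5 := h2 p l hlp k.fixingSubgroup e he H inferInstance (Chain.mhom_ker_open hκ)
    (Chain.mhom_ker_index hκ hκ0) σ (by
      rw [hH, Chain.mem_mhom_ker, hσ]
      exact one_ne_zero) _ _ hS hT
  rw [Subgroup.relIndex_map_map_of_injective _ _ hi, Subgroup.relIndex_top_right] at h5
  exact h5

end main

end LKAux

open LKAux

theorem stLK (h1 : StLsT) (h2 : StNT) : StLK := by
  intro p l _ _ hp2 hlp k _ ζ hζ
  have hodd : Odd p := (Fact.out : p.Prime).odd_of_ne_two hp2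
  have hp0 : p ≠ 0 := (Fact.out : p.Prime).ne_zero
  have hpow : ∀ a : kˣ, (∃ c : kˣ, c ^ p = a) → NmA p k (a : k) = ⊤ := by
    rintro a ⟨c, rfl⟩
    rw [Units.val_pow_eq_pow_val]
    exact nmA_pow hp0 (c : k) c.ne_zero
  obtain ⟨h3, h4⟩ := part2 h1 hlp hζ
  refine ⟨(part1 h1 hlp hζ).1, fun u w hu hw hno => h3 u w hu hw hno, h4,
    fun a ha => nmA_index h2 hlp hζ a ha, hpow, ?_⟩
  intro a b ha hb
  by_cases hc : ∃ c : kˣ, c ^ p = a
  · rw [hpow a hc]
    exact Subgroup.mem_top b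
  · obtain ⟨i, c, rfl⟩ := h3 a b ha hb hc
    exact nmA_unit hodd a c i

end BKLoc2
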