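import Pool.Agent.Lib.MP_7c08ba_nt.Met.LocStmts
import Pool.Agent.Lib.MP_7c08ba_nt.Odd.Chain
import Pool.Agent.Lib.MP_7c08ba_nt.Odd.H90
import Pool.Agent.Lib.MP_7c08ba_nt.Odd.Kum
import Pool.Agent.Lib.MP_7c08ba_nt.Odd.L1
import Pool.Agent.Lib.MP_7c08ba_nt.Odd.L3
import Pool.Agent.Lib.MP_7c08ba_nt.Odd.Norm
import Pool.Agent.Lib.MP_7c08ba_nt.Odd.TR
import Pool.Agent.Lib.MP_7c08ba_nt.Odd.Conv
import Pool.Agent.Lib.MP_7c08ba_nt.Odd.Cyc

set_option autoImplicit false

/-!
Module LNX: the second cohomology of open subgroups of the Galois group of `ℚ_l` with coefficients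
`𝔽_p(χ)` is at most one-dimensional.
-/

noncomputable section

namespace BKLoc2

open BKOdd

namespace LNXAux

theorem chain : StChain :=
  stChain stTR.{0} stH90 (stKum stH90) (stL1 stH90 (stKum stH90)) (stL3 stH90 (stKum stH90)) stNorm

theorem continuous_toZMod {p : ℕ} [Fact p.Prime] :
    Continuous (PadicInt.toZMod : ℤ_[p] →+* ZMod p) := by
  refine IsLocallyConstant.continuous ((IsLocallyConstant.iff_eventually_eq _).2 fun x => ?_)
  filter_upwards [Metric.ball_mem_nhds x one_pos] with y hy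
  rw [← sub_eq_zero, ← map_sub, ← RingHom.mem_ker, PadicInt.ker_toZMod,
    PadicInt.maximalIdeal_eq_span_p]
  rw [Metric.mem_ball, dist_eq_norm] at hy
  have h1 := (PadicInt.norm_lt_one_iff_dvd (y - x)).1 hy
  exact Ideal.mem_span_singleton.2 h1

theorem continuous_chm {p : ℕ} [Fact p.Prime] {G : Type*} [Group G] [TopologicalSpace G]
    (χ : G →* ℤ_[p]ˣ) (h : Continuous χ) : Continuous (chm χ) :=
  continuous_toZMod.comp (Units.continuous_val.comp h)

theorem enough (p l : ℕ) [Fact p.Prime] [Fact l.Prime] (i : ℕ) :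
    HasEnoughRootsOfUnity (PadicAlgCl l) (p ^ i) := by
  have : NeZero (((p ^ i : ℕ)) : PadicAlgCl l) := ⟨by
    rw [Nat.cast_ne_zero]
    exact pow_ne_zero _ (Fact.out : p.Prime).ne_zero⟩
  infer_instance

theorem exists_zeta (p l : ℕ) [Fact p.Prime] [Fact l.Prime] :
    ∃ ζ : PadicAlgCl l, IsPrimitiveRoot ζ p := by
  haveI := enough p l 1
  have h := HasEnoughRootsOfUnity.exists_primitiveRoot (PadicAlgCl l) (p ^ 1)
  rwa [pow_one] at h

theorem zeta_fix {p l : ℕ} [Fact p.Prime] [Fact l.Prime] {ζ : PadicAlgCl l}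
    (hζ : IsPrimitiveRoot ζ p) (g : GQ l)
    (h : PadicInt.toZMod ((cyL p l g : ℤ_[p]ˣ) : ℤ_[p]) = 1) : g ζ = ζ := by
  have hE : ∀ i : ℕ, HasEnoughRootsOfUnity (PadicAlgCl l) (p ^ i) := enough p l
  have h2 : g ζ = ζ ^ (PadicInt.toZModPow 1 ((cyL p l g : ℤ_[p]ˣ) : ℤ_[p])).val :=
    cyclotomicCharacter.spec p (MulSemiringAction.toRingAut (GQ l) (PadicAlgCl l) g) (n := 1) ζ
      (by rw [pow_one]; exact hζ.pow_eq_one)
  have h3 := CycAux.toZMod_eq ((cyL p l g : ℤ_[p]ˣ) : ℤ_[p])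
  rw [h] at h3
  have h4 : (((PadicInt.toZModPow 1 ((cyL p l g : ℤ_[p]ˣ) : ℤ_[p])).val : ℕ) : ZMod p) =
      ((1 : ℕ) : ZMod p) := by rw [← h3, Nat.cast_one]
  rw [ZMod.natCast_eq_natCast_iff] at h4
  rw [h2]
  conv_rhs => rw [← pow_one ζ]
  exact pow_eq_pow_of_modEq h4 hζ.pow_eq_one

theorem exists_normal {V : Type*} [Group V] [TopologicalSpace V] [IsTopologicalGroup V]
    [CompactSpace V] (W : Subgroup V) (hW : IsOpen (W : Set V)) :
    ∃ N : Subgroup V, N.Normal ∧ IsOpen (N : Set V) ∧ N ≤ W := by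
  have hfin : Finite (V ⧸ W) := Subgroup.quotient_finite_of_isOpen W hW
  have hfi : W.FiniteIndex := Subgroup.finiteIndex_of_finite_quotient
  have hcl : IsClosed (W.normalCore : Set V) :=
    W.normalCore_isClosed (Subgroup.isClosed_of_isOpen W hW)
  have hfi' : W.normalCore.FiniteIndex := Subgroup.finiteIndex_normalCore W
  exact ⟨W.normalCore, inferInstance, Subgroup.isOpen_of_isClosed_of_finiteIndex _ hcl,
    W.normalCore_le⟩

end LNXAux

open LNXAux in
/-- Module LNX -/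
theorem stLnX (h1 : StChT) : StLnX := by
  intro p l _ _ hp2 V _ _ _ _ _ e he
  have hp : p.Prime := Fact.out
  set χ : V →* ℤ_[p]ˣ := (cyL p l).comp e with hχ
  have hχc : Continuous χ :=
    (cyclotomicCharacter.continuous p ℚ_[l] (PadicAlgCl l)).comp he.continuous
  have hmc : Continuous (chm χ) := continuous_chm χ hχc
  intro z hz z' hz' hzn
  obtain ⟨W0, hW0, hW0z⟩ := Conv.cont2_iff.1 hz.1
  obtain ⟨W1, hW1, hW1z⟩ := Conv.cont2_iff.1 hz'.1
  have hK : IsOpen ((chm χ).ker : Set V) := by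
    have h := (isOpen_discrete ({1} : Set (ZMod p))).preimage hmc
    convert h using 1
    ext g
    exact MonoidHom.mem_ker
  obtain ⟨N, hNn, hNo, hNle⟩ := exists_normal (W0 ⊓ W1 ⊓ (chm χ).ker) (by
    rw [Subgroup.coe_inf, Subgroup.coe_inf]
    exact (hW0.inter hW1).inter hK)
  have hfin : Finite (V ⧸ N) := Subgroup.quotient_finite_of_isOpen N hNo
  let S : Sylow p (V ⧸ N) := default
  let P : Subgroup V := (S : Subgroup (V ⧸ N)).comap (QuotientGroup.mk' N)
  have hNP : N ≤ P := by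
    intro g hg
    change QuotientGroup.mk' N g ∈ (S : Subgroup (V ⧸ N))
    have h2 : QuotientGroup.mk' N g = 1 := (QuotientGroup.eq_one_iff g).2 hg
    rw [h2]
    exact one_mem _
  have hPo : IsOpen (P : Set V) := Subgroup.isOpen_mono hNP hNo
  have hidx : ¬ p ∣ P.index := by
    have h2 : P.index = (S : Subgroup (V ⧸ N)).index :=
      Subgroup.index_comap_of_surjective _ (QuotientGroup.mk'_surjective N)
    rw [h2]
    exact S.not_dvd_index
  have hPK : ∀ g ∈ P, chm χ g = 1 := by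
    intro g hg
    have hg' : QuotientGroup.mk' N g ∈ (S : Subgroup (V ⧸ N)) := hg
    obtain ⟨k, hk⟩ := S.2 ⟨_, hg'⟩
    have h2 : QuotientGroup.mk' N (g ^ p ^ k) = 1 := by
      rw [map_pow]
      exact congrArg Subtype.val hk
    have h3 : g ^ p ^ k ∈ N := (QuotientGroup.eq_one_iff _).1 h2
    have h4 : chm χ (g ^ p ^ k) = 1 := (hNle h3).2
    rw [map_pow, ZMod.pow_card_pow] at h4
    exact h4
  have hcomp : (chm χ).comp P.subtype = 1 := by
    ext g
    exact hPK g g.2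
  have hres : ∀ w ∈ CC.Z2 (chm χ), (fun a b : P => w a b) ∈ CC.Z2 (1 : P →* ZMod p) := by
    intro w hw
    refine ⟨hw.1.comp (f := fun x : P × P => ((x.1 : V), (x.2 : V))) (by fun_prop),
      fun a b c => ?_⟩
    have h2 := hw.2 a b c
    rw [hPK a a.2] at h2
    exact h2
  have hspl : ∀ (w : V → V → ZMod p) (W' : Subgroup V), N ≤ W' →
      (∀ g h, ∀ u ∈ W', ∀ u' ∈ W', w (g * u) (h * u') = w g h) →
      Spl p P (fun a b : P => w a b) := by
    intro w W' hNW' hw
    refine ⟨N.subgroupOf P, inferInstance, hNo.preimage continuous_subtype_val, ?_, ?_⟩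
    · have h2 : (N.subgroupOf P).index = Nat.card (S : Subgroup (V ⧸ N)) := by
        have h3 : N = (⊥ : Subgroup (V ⧸ N)).comap (QuotientGroup.mk' N) := by
          rw [MonoidHom.comap_bot, QuotientGroup.ker_mk']
        have h4 : N.relIndex P = (⊥ : Subgroup (V ⧸ N)).relIndex (S : Subgroup (V ⧸ N)) := by
          conv_lhs => rw [h3]
          rw [Subgroup.relIndex_comap, Subgroup.map_comap_eq_self_of_surjective
            (QuotientGroup.mk'_surjective N)]
        have h5 : (N.subgroupOf P).index = N.relIndex P := rfl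
        rw [h5, h4, Subgroup.relIndex_bot_left]
      obtain ⟨m, hm⟩ := IsPGroup.iff_card.1 S.2
      exact ⟨m, by rw [h2, hm]⟩
    · refine ⟨fun _ => w 1 1, continuous_const, fun a b => ?_⟩
      have ha : ((a : P) : V) ∈ W' := hNW' a.2
      have hb : ((b : P) : V) ∈ W' := hNW' b.2
      have h2 := hw 1 1 _ ha _ hb
      rw [one_mul, one_mul] at h2
      change w ((a : P) : V) ((b : P) : V) = _
      rw [h2, MonoidHom.one_apply, one_mul, add_sub_cancel_right]
  obtain ⟨ζ, hζ⟩ := exists_zeta p l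
  have heP : Topology.IsOpenEmbedding (e.comp P.subtype) := by
    have h2 := he.comp hPo.isOpenEmbedding_subtypeVal
    exact h2
  have hfx : Fx (e.comp P.subtype) ζ := fun g => zeta_fix hζ (e g) (hPK g g.2)
  have hline : LineP p P := by
    by_cases hl : l = p
    · subst hl
      exact (chain l P (e.comp P.subtype) heP ζ hζ hfx).1
    · exact (h1 p l hp2 hl P (e.comp P.subtype) heP ζ hζ hfx).1
  have hfinP : Finite (V ⧸ P) := Subgroup.quotient_finite_of_isOpen P hPo
  obtain ⟨-, -, hT1, hT2, -⟩ := stTR.{0} V P hPo hfinP (ZMod p) (chm χ) hmc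
  have hcores : ∀ w ∈ CC.Z2 (chm χ), (fun a b : P => w a b) ∈ CC.B2 (1 : P →* ZMod p) →
      w ∈ CC.B2 (chm χ) := by
    intro w hw hwB
    have h2 := hT1 _ (by rw [hcomp]; exact hwB)
    have h3 := (CC.B2 (chm χ)).sub_mem h2 (hT2 w hw)
    rw [sub_sub_cancel] at h3
    have h4 : ((P.index : ℕ) : ZMod p) ≠ 0 := by
      rw [Ne, ZMod.natCast_eq_zero_iff]
      exact hidx
    have h5 := (CC.B2 (chm χ)).smul_mem (((P.index : ℕ) : ZMod p)⁻¹) h3
    rwa [smul_smul, inv_mul_cancel₀ h4, one_smul] at h5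
  have hN0 : N ≤ W0 := fun g hg => (hNle hg).1.1
  have hN1 : N ≤ W1 := fun g hg => (hNle hg).1.2
  have hzP : (fun a b : P => z a b) ∉ CC.B2 (1 : P →* ZMod p) := fun h => hzn (hcores z hz h)
  obtain ⟨a, ha⟩ := hline _ (hres z hz) _ (hres z' hz') (hspl z W0 hN0 hW0z)
    (hspl z' W1 hN1 hW1z) hzP
  exact ⟨a, hcores _ ((CC.Z2 (chm χ)).sub_mem hz' ((CC.Z2 (chm χ)).smul_mem a hz)) ha⟩

end BKLoc2
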