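import Pool.Agent.Lib.MP_7c08ba_nt.Met.LocStmts
import Pool.Agent.Lib.MP_7c08ba_nt.Odd.Norm

set_option autoImplicit false

/-!
Parity without rigidity, local part, module LSP: the multiplicative group of a finite Galois
extension of `ℚ_p`, as a module over the Galois group.
-/

noncomputable section

namespace BKLoc2

open BKOdd

namespace LSPAux

open BKGen.NormIdx BKGen.LocalCount Module

section Abs

variable (p : ℕ) [hp : Fact p.Prime] (E : Type) [NormedField E] [IsUltrametricDist E]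
  [NormedAlgebra ℚ_[p] E] [FiniteDimensional ℚ_[p] E] [IsGalois ℚ_[p] E]

/-- the stronger conditions on `m` -/
structure SC (m : ℕ) : Prop where
  cond : Cond p ℚ_[p] E m
  sq2 : ∀ (z : E) (j : ℕ), m ≤ j → ‖z‖ ≤ (‖th ℚ_[p] E‖ * (p : ℝ)⁻¹ ^ j) ^ 2 →
    z ∈ L p ℚ_[p] E (j + 2)

theorem exists_SC : ∃ m, SC p E m := by
  obtain ⟨C, hC, hb⟩ := bdd p ℚ_[p] E
  have hp1 : (1 : ℝ) < p := by exact_mod_cast hp.out.one_lt
  have hr : (p : ℝ)⁻¹ < 1 := inv_lt_one_of_one_lt₀ hp1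
  have hr0 : (0 : ℝ) < (p : ℝ)⁻¹ := by positivity
  set A := ‖th ℚ_[p] E‖ with hA
  have hA0 : 0 ≤ A := norm_nonneg _
  obtain ⟨m, hm⟩ := exists_small p (C * A ^ 2 + A) 2
  have h0 : 0 ≤ (p : ℝ)⁻¹ ^ m := by positivity
  have key : ∀ (z : E) (j : ℕ), m ≤ j → ‖z‖ ≤ (A * (p : ℝ)⁻¹ ^ j) ^ 2 →
      z ∈ L p ℚ_[p] E (j + 2) := by
    intro z j hj hz τ
    have h1 : C * A ^ 2 * (p : ℝ)⁻¹ ^ j ≤ (p : ℝ)⁻¹ ^ 2 := by
      calc C * A ^ 2 * (p : ℝ)⁻¹ ^ j ≤ C * A ^ 2 * (p : ℝ)⁻¹ ^ m := by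
            gcongr C * A ^ 2 * ?_
            exact pow_le_pow_of_le_one hr0.le hr.le hj
        _ ≤ (C * A ^ 2 + A) * (p : ℝ)⁻¹ ^ m := by
            gcongr
            linarith
        _ ≤ (p : ℝ)⁻¹ ^ 2 := hm
    calc ‖co ℚ_[p] E τ z‖ ≤ C * ‖z‖ := hb τ z
      _ ≤ C * (A * (p : ℝ)⁻¹ ^ j) ^ 2 := by gcongr
      _ = (C * A ^ 2 * (p : ℝ)⁻¹ ^ j) * (p : ℝ)⁻¹ ^ j := by ring
      _ ≤ (p : ℝ)⁻¹ ^ 2 * (p : ℝ)⁻¹ ^ j := by gcongr
      _ = (p : ℝ)⁻¹ ^ (j + 2) := by ring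
  refine ⟨m, ⟨⟨fun τ x => norm_aut p ℚ_[p] E τ x, ?_, ?_⟩, key⟩⟩
  · intro z j hj hz
    exact L_anti (Nat.le_succ _) (key z j hj hz)
  · calc A * (p : ℝ)⁻¹ ^ m ≤ (C * A ^ 2 + A) * (p : ℝ)⁻¹ ^ m := by
          gcongr
          have : 0 ≤ C * A ^ 2 := by positivity
          linarith
      _ ≤ _ := hm

variable {p E} {m : ℕ}

/-- the `p`-th power is multiplication by `p`, modulo higher terms -/
theorem pow_sub (h : SC p E m) {j : ℕ} {x : E} (hx : x ∈ L p ℚ_[p] E (m + j)) :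
    (1 + x) ^ p - 1 - (p : E) * x ∈ L p ℚ_[p] E (m + j + 2) := by
  have h1 : (1 + x) - 1 ∈ L p ℚ_[p] E (m + j) := by
    rwa [add_sub_cancel_left]
  have h2 : ‖1 + x‖ = 1 := h.cond.norm_one h1
  have hx' : ‖x‖ ≤ ‖th ℚ_[p] E‖ * (p : ℝ)⁻¹ ^ (m + j) := norm_le h.cond.iso hx
  have e : ∀ n : ℕ, (1 + x) ^ n - 1 = x * ∑ i ∈ Finset.range n, (1 + x) ^ i := by
    intro n
    have := mul_geom_sum (1 + x) n
    rw [add_sub_cancel_left] at this
    exact this.symm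
  have e2 : (1 + x) ^ p - 1 - (p : E) * x =
      x * ∑ i ∈ Finset.range p, ((1 + x) ^ i - 1) := by
    rw [e, Finset.sum_sub_distrib, Finset.sum_const, Finset.card_range, nsmul_eq_mul, mul_one]
    ring
  have h3 : ∀ n : ℕ, ‖∑ i ∈ Finset.range n, (1 + x) ^ i‖ ≤ 1 := by
    intro n
    apply IsUltrametricDist.norm_sum_le_of_forall_le_of_nonneg zero_le_one
    intro i _
    rw [norm_pow, h2, one_pow]
  have h4 : ‖∑ i ∈ Finset.range p, ((1 + x) ^ i - 1)‖ ≤ ‖x‖ := by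
    apply IsUltrametricDist.norm_sum_le_of_forall_le_of_nonneg (norm_nonneg _)
    intro i _
    rw [e, norm_mul]
    exact mul_le_of_le_one_right (norm_nonneg _) (h3 i)
  rw [e2]
  apply h.sq2 _ _ (Nat.le_add_right m j)
  rw [norm_mul, pow_two]
  gcongr
  exact h4.trans hx'

omit [IsUltrametricDist E] [FiniteDimensional ℚ_[p] E] [IsGalois ℚ_[p] E] in
theorem algebraMap_p : algebraMap ℚ_[p] E (p : ℚ_[p]) = (p : E) := map_natCast _ _

theorem p_mul_mem {j : ℕ} {x : E} :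
    (p : E) * x ∈ L p ℚ_[p] E (j + 1) ↔ x ∈ L p ℚ_[p] E j := by
  have hp1 : (1 : ℝ) < p := by exact_mod_cast hp.out.one_lt
  have hr0 : (0 : ℝ) < (p : ℝ)⁻¹ := by positivity
  rw [mem_L, mem_L]
  apply forall_congr'
  intro τ
  rw [← algebraMap_p, co_smul, norm_mul, algebraMap_p, norm_p p E, pow_succ']
  exact mul_le_mul_iff_right₀ hr0

theorem pow_mem (h : SC p E m) {j : ℕ} {v : Eˣ} (hv : v ∈ V h.cond j) :
    v ^ p ∈ V h.cond (j + 1) := by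
  rw [mem_V] at hv ⊢
  have h1 := pow_sub h hv
  rw [add_sub_cancel] at h1
  have h2 : (p : E) * ((v : E) - 1) ∈ L p ℚ_[p] E (m + j + 1) := p_mul_mem.2 hv
  have e : ((v ^ p : Eˣ) : E) - 1 =
      ((v : E) ^ p - 1 - (p : E) * ((v : E) - 1)) + (p : E) * ((v : E) - 1) := by
    rw [Units.val_pow_eq_pow_val]
    ring
  rw [e]
  exact add_mem (L_anti (Nat.le_succ _) h1) h2

theorem root_step (h : SC p E m) {j : ℕ} {v : Eˣ} (hv : v ∈ V h.cond (j + 1)) :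
    ∃ w ∈ V h.cond j, v / w ^ p ∈ V h.cond (j + 2) := by
  have hpE := p_ne_zero p E
  set x : E := (p : E)⁻¹ * ((v : E) - 1) with hx
  have hpx : (p : E) * x = (v : E) - 1 := mul_inv_cancel_left₀ hpE _
  have hxL : x ∈ L p ℚ_[p] E (m + j) := by
    rw [← p_mul_mem, hpx]
    exact hv
  obtain ⟨w, hw, hw'⟩ := exists_unit h.cond hxL
  refine ⟨w, hw, div_mem_V (pow_mem h hw) ?_⟩
  have h1 := pow_sub h hxL
  have e : (v : E) - (w ^ p : Eˣ) = -((1 + x) ^ p - 1 - (p : E) * x) := by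
    rw [Units.val_pow_eq_pow_val, hw', hpx]
    ring
  rw [e]
  exact neg_mem h1

theorem root_all (h : SC p E m) (n : ℕ) {v : Eˣ} (hv : v ∈ V h.cond 1) :
    ∃ w ∈ V h.cond 0, v / w ^ p ∈ V h.cond (n + 1) := by
  have anti : ∀ i, V h.cond i ≤ V h.cond 0 := by
    intro i
    induction i with
    | zero => exact le_rfl
    | succ i ih => exact (V_succ_le h.cond i).trans ih
  induction n with
  | zero =>
    exact ⟨1, one_mem _, by rwa [one_pow, div_one]⟩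
  | succ n ih =>
    obtain ⟨w, hw, hw'⟩ := ih
    obtain ⟨u, hu, hu'⟩ := root_step h hw'
    refine ⟨w * u, mul_mem hw (anti n hu), ?_⟩
    rwa [mul_pow, ← div_div]

theorem root_V (h : SC p E m) {v : Eˣ} (hv : v ∈ V h.cond 1) :
    ∃ w ∈ V h.cond 0, w ^ p = v := by
  obtain ⟨M, hM⟩ := root h.cond
  obtain ⟨w, hw, hw'⟩ := root_all h M hv
  obtain ⟨u, hu, hu'⟩ := hM _ (V_succ_le h.cond M hw')
  refine ⟨w * u, mul_mem hw hu, ?_⟩
  rw [mul_pow, hu', mul_div_cancel]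

/-- the coordinate, divided by `p ^ m` -/
def cf (m : ℕ) (x : E) (τ : Gal(E/ℚ_[p])) : ℚ_[p] :=
  (IsGalois.normalBasis ℚ_[p] E).repr x τ / (p : ℚ_[p]) ^ m

omit [IsUltrametricDist E] in
theorem norm_cf (x : E) (τ : Gal(E/ℚ_[p])) :
    ‖cf m x τ‖ = ‖co ℚ_[p] E τ x‖ * (p : ℝ) ^ m := by
  rw [cf, norm_div, norm_pow, norm_p p ℚ_[p], co_apply, norm_algebraMap', inv_pow,
    div_inv_eq_mul]

theorem cf_le {x : E} {j : ℕ} :
    x ∈ L p ℚ_[p] E (m + j) ↔ ∀ τ : Gal(E/ℚ_[p]), ‖cf m x τ‖ ≤ (p : ℝ)⁻¹ ^ j := by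
  have hp0 : (0 : ℝ) < p := by exact_mod_cast hp.out.pos
  rw [mem_L]
  apply forall_congr'
  intro τ
  rw [norm_cf, pow_add, ← le_div_iff₀ (by positivity), mul_comm, div_eq_mul_inv, inv_pow,
    inv_pow]

omit [IsUltrametricDist E] in
theorem cf_add (x y : E) (τ : Gal(E/ℚ_[p])) : cf m (x + y) τ = cf m x τ + cf m y τ := by
  rw [cf, cf, cf, map_add, Finsupp.add_apply, add_div]

/-- a `p`-adic integer from its value -/
def mkZ (y : ℚ_[p]) (h : ‖y‖ ≤ 1) : ℤ_[p] := ⟨y, h⟩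

theorem mkZ_add (y z : ℚ_[p]) (hy : ‖y‖ ≤ 1) (hz : ‖z‖ ≤ 1) (h : ‖y + z‖ ≤ 1) :
    mkZ (y + z) h = mkZ y hy + mkZ z hz := rfl

theorem norm_mkZ (y : ℚ_[p]) (h : ‖y‖ ≤ 1) : ‖mkZ y h‖ = ‖y‖ := rfl

open Classical in
/-- the reduction -/
def rd (m : ℕ) (x : E) (τ : Gal(E/ℚ_[p])) : ZMod p :=
  if h : ‖cf m x τ‖ ≤ 1 then PadicInt.toZMod (mkZ (cf m x τ) h) else 0

theorem L_cf {x : E} (hx : x ∈ L p ℚ_[p] E m) (τ : Gal(E/ℚ_[p])) : ‖cf m x τ‖ ≤ 1 := by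
  have h := (cf_le (j := 0)).1 hx τ
  rwa [pow_zero] at h

theorem rd_eq {x : E} (hx : x ∈ L p ℚ_[p] E m) (τ : Gal(E/ℚ_[p])) :
    rd m x τ = PadicInt.toZMod (mkZ (cf m x τ) (L_cf hx τ)) := by
  rw [rd, dif_pos (L_cf hx τ)]

theorem rd_add {x y : E} (hx : x ∈ L p ℚ_[p] E m) (hy : y ∈ L p ℚ_[p] E m)
    (τ : Gal(E/ℚ_[p])) : rd m (x + y) τ = rd m x τ + rd m y τ := by
  rw [rd_eq hx, rd_eq hy, rd_eq (add_mem hx hy), ← map_add]
  congr 1
  exact Subtype.ext (cf_add x y τ)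

theorem rd_zero_iff {x : E} (hx : x ∈ L p ℚ_[p] E m) :
    (∀ τ : Gal(E/ℚ_[p]), rd m x τ = 0) ↔ x ∈ L p ℚ_[p] E (m + 1) := by
  rw [cf_le]
  apply forall_congr'
  intro τ
  rw [rd_eq hx, toZMod_eq_zero_iff, pow_one, norm_mkZ]

omit [IsUltrametricDist E] in
theorem rd_map (g : Gal(E/ℚ_[p])) (x : E) (τ : Gal(E/ℚ_[p])) :
    rd m (g x) τ = rd m x (g⁻¹ * τ) := by
  have h : cf m (g x) τ = cf m x (g⁻¹ * τ) := by
    have h1 := co_map ℚ_[p] E g τ x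
    rw [co_apply, co_apply] at h1
    rw [cf, cf, (algebraMap ℚ_[p] E).injective h1]
  rw [rd, rd]
  simp only [h]

theorem rd_surj (f : Gal(E/ℚ_[p]) → ZMod p) :
    ∃ x ∈ L p ℚ_[p] E m, ∀ τ, rd m x τ = f τ := by
  have hp0 : (0 : ℝ) < p := by exact_mod_cast hp.out.pos
  have hpq : (p : ℚ_[p]) ^ m ≠ 0 := pow_ne_zero _ (by exact_mod_cast hp.out.ne_zero)
  have : NeZero p := ⟨hp.out.ne_zero⟩
  set x : E := ∑ τ : Gal(E/ℚ_[p]),
    algebraMap ℚ_[p] E (((f τ).val : ℚ_[p]) * (p : ℚ_[p]) ^ m) * τ (th ℚ_[p] E) with hx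
  have hr : ∀ τ, (IsGalois.normalBasis ℚ_[p] E).repr x τ =
      ((f τ).val : ℚ_[p]) * (p : ℚ_[p]) ^ m := by
    intro τ
    have h1 := co_uniq ℚ_[p] E (fun τ => ((f τ).val : ℚ_[p]) * (p : ℚ_[p]) ^ m) τ
    rw [co_apply] at h1
    exact (algebraMap ℚ_[p] E).injective h1
  have hc : ∀ τ, cf m x τ = ((f τ).val : ℚ_[p]) := by
    intro τ
    rw [cf, hr, mul_div_cancel_right₀ _ hpq]
  have hxL : x ∈ L p ℚ_[p] E m := by
    have h1 : x ∈ L p ℚ_[p] E (m + 0) := by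
      rw [cf_le]
      intro τ
      rw [hc, pow_zero]
      exact_mod_cast Padic.norm_int_le_one ((f τ).val : ℤ)
    exact h1
  refine ⟨x, hxL, fun τ => ?_⟩
  rw [rd_eq hxL]
  have h2 : mkZ (cf m x τ) (L_cf hxL τ) = (((f τ).val : ℕ) : ℤ_[p]) := by
    apply Subtype.ext
    change cf m x τ = _
    rw [hc]
    exact (PadicInt.coe_natCast _).symm
  rw [h2, map_natCast, ZMod.natCast_zmod_val]

/-- the statement for the field `E` -/
theorem abs (p : ℕ) [hp : Fact p.Prime] (E : Type) [NormedField E] [IsUltrametricDist E]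
    [NormedAlgebra ℚ_[p] E] [FiniteDimensional ℚ_[p] E] [IsGalois ℚ_[p] E] :
    ∃ U : Subgroup Eˣ,
      (∀ v ∈ U, ‖(v : E)‖ = 1) ∧
      (∀ v ∈ U, ∀ (g : Gal(E/ℚ_[p])) (w : Eˣ), (w : E) = g v → w ∈ U) ∧
      (∃ S : Set Eˣ, S.Finite ∧ ∀ x : Eˣ, ∃ s ∈ S, ∃ v ∈ U, ∃ m : ℤ,
        (x : E) = s * v * (p : E) ^ m) ∧
      (∀ v ∈ U, v ^ p = 1 → v = 1) ∧
      ∃ φ : Eˣ → (Gal(E/ℚ_[p]) → ZMod p),
        (∀ v ∈ U, ∀ w ∈ U, φ (v * w) = φ v + φ w) ∧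
        (∀ f, ∃ v ∈ U, φ v = f) ∧ (∀ v ∈ U, φ v = 0 ↔ ∃ w ∈ U, w ^ p = v) ∧
        ∀ v ∈ U, ∀ (g : Gal(E/ℚ_[p])) (w : Eˣ), (w : E) = g v →
          ∀ τ, φ w τ = φ v (g⁻¹ * τ) := by
  obtain ⟨m, h⟩ := exists_SC p E
  refine ⟨V h.cond 0, fun v hv => h.cond.norm_one hv, ?_, ?_, root_one h.cond, ?_⟩
  · intro v hv g w hw
    have h1 : w = sg g v := Units.ext hw
    rw [h1]
    exact sg_mem h.cond g hv
  · have hfin : Finite (Eˣ ⧸ BB h.cond) :=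
      (Subgroup.finiteIndex_iff_finite_quotient).1 ⟨index_BB h.cond⟩
    refine ⟨Set.range (fun q : Eˣ ⧸ BB h.cond => q.out), Set.finite_range _, fun x => ?_⟩
    have h1 : ((x : Eˣ ⧸ BB h.cond)).out⁻¹ * x ∈ BB h.cond := by
      rw [← QuotientGroup.eq, QuotientGroup.out_eq']
    obtain ⟨v, hv, a, ha⟩ := mem_BB.1 h1
    refine ⟨_, ⟨(x : Eˣ ⧸ BB h.cond), rfl⟩, v, hv, a, ?_⟩
    have h2 : x = (x : Eˣ ⧸ BB h.cond).out * (v * pu p E ^ a) := by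
      rw [ha, mul_inv_cancel_left]
    have h3 := congrArg (fun u : Eˣ => (u : E)) h2
    simp only [Units.val_mul, Units.val_zpow_eq_zpow_val] at h3
    rw [mul_assoc]
    exact h3
  · refine ⟨fun v => rd m ((v : E) - 1), ?_, ?_, ?_, ?_⟩
    · intro v hv w hw
      have hv' : (v : E) - 1 ∈ L p ℚ_[p] E m := hv
      have hw' : (w : E) - 1 ∈ L p ℚ_[p] E m := hw
      have h1 : ((v : E) - 1) * ((w : E) - 1) ∈ L p ℚ_[p] E (m + 0 + 1) :=
        h.cond.sq' (norm_le h.cond.iso hv) (norm_le h.cond.iso hw)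
      have h2 : ((v : E) - 1) * ((w : E) - 1) ∈ L p ℚ_[p] E m := L_anti (Nat.le_succ _) h1
      funext τ
      change rd m (((v * w : Eˣ) : E) - 1) τ = rd m ((v : E) - 1) τ + rd m ((w : E) - 1) τ
      have e : ((v * w : Eˣ) : E) - 1 =
          ((v : E) - 1) + ((w : E) - 1) + ((v : E) - 1) * ((w : E) - 1) := by
        rw [Units.val_mul]; ring
      rw [e, rd_add (add_mem hv' hw') h2, rd_add hv' hw', (rd_zero_iff h2).2 h1 τ, add_zero]
    · intro f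
      obtain ⟨x, hx, hx'⟩ := rd_surj (m := m) (E := E) f
      obtain ⟨v, hv, hv'⟩ := exists_unit h.cond (j := 0) hx
      refine ⟨v, hv, ?_⟩
      funext τ
      change rd m ((v : E) - 1) τ = f τ
      rw [hv', add_sub_cancel_left, hx']
    · intro v hv
      have hv' : (v : E) - 1 ∈ L p ℚ_[p] E m := hv
      have h1 : rd (p := p) m ((v : E) - 1) = 0 ↔ v ∈ V h.cond 1 := by
        rw [mem_V, ← rd_zero_iff hv', funext_iff]
        rfl
      change rd (p := p) m ((v : E) - 1) = 0 ↔ _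
      rw [h1]
      constructor
      · exact root_V h
      · rintro ⟨w, hw, rfl⟩
        exact pow_mem h hw
    · intro v hv g w hw τ
      change rd m ((w : E) - 1) τ = rd m ((v : E) - 1) (g⁻¹ * τ)
      rw [hw, ← rd_map, map_sub, map_one]

end Abs

end LSPAux

open LSPAux BKGen.NormIdx in
/-- Module LSP: the multiplicative group of a finite Galois extension of `ℚ_p`. -/
theorem stLsP : StLsP := by
  intro p hp H hN hH
  let CH : ClosedSubgroup (GQ p) := ⟨H, H.isClosed_of_isOpen hH⟩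
  let E : IntermediateField ℚ_[p] (PadicAlgCl p) := IntermediateField.fixedField H
  have hfix : E.fixingSubgroup = H := InfiniteGalois.fixingSubgroup_fixedField CH
  have hmem : ∀ x : PadicAlgCl p, x ∈ E ↔ ∀ h ∈ H, h x = x := fun x =>
    IntermediateField.mem_fixedField_iff _ _
  have hfin : FiniteDimensional ℚ_[p] E := by
    rw [← InfiniteGalois.isOpen_iff_finite, hfix]
    exact hH
  have hgal : IsGalois ℚ_[p] E := by
    rw [← InfiniteGalois.normal_iff_isGalois, hfix]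
    exact hN
  have : CH.Normal := hN
  let e : GQ p ⧸ H ≃* Gal(E/ℚ_[p]) := InfiniteGalois.normalAutEquivQuotient CH
  have he : ∀ (g : GQ p) (x : E), ((e (QuotientGroup.mk g) x : E) : PadicAlgCl p) = g x := by
    intro g x
    exact AlgEquiv.restrictNormal_commutes g E x
  obtain ⟨U, hU1, hU2, ⟨S, hS, hS'⟩, hU4, φ, hφ1, hφ2, hφ3, hφ4⟩ := LSPAux.abs p E
  let ι : (E : Type)ˣ →* (PadicAlgCl p)ˣ := Units.map ((E.val.toRingHom : E →* PadicAlgCl p))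
  have hι : Function.Injective ι := Units.map_injective E.val.toRingHom.injective
  have hιv : ∀ x : (E : Type)ˣ, ((ι x : (PadicAlgCl p)ˣ) : PadicAlgCl p) =
      ((x : E) : PadicAlgCl p) := fun x => rfl
  have hlift : ∀ Y : (PadicAlgCl p)ˣ, (∀ h ∈ H, h (Y : PadicAlgCl p) = Y) → ∃ y, ι y = Y := by
    intro Y hY
    have h1 : (Y : PadicAlgCl p) ∈ E := (hmem _).2 hY
    have h2 : (⟨Y, h1⟩ : E) ≠ 0 := by
      intro h3
      exact Y.ne_zero (congrArg Subtype.val h3)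
    exact ⟨Units.mk0 _ h2, Units.ext rfl⟩
  have hact : ∀ (v : (E : Type)ˣ) (g : GQ p) (w : (PadicAlgCl p)ˣ),
      (w : PadicAlgCl p) = g (ι v : (PadicAlgCl p)ˣ) →
      ∃ w0 : (E : Type)ˣ, (w0 : E) = e (QuotientGroup.mk g) v ∧ ι w0 = w := by
    intro v g w hw
    refine ⟨sg (e (QuotientGroup.mk g)) v, rfl, ?_⟩
    apply Units.ext
    rw [hw, hιv, sg_val, he, hιv]
  have hinv : ∀ v, Function.invFun ι (ι v) = v := Function.leftInverse_invFun hι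
  refine ⟨U.map ι, ?_, ?_, ?_, ?_, fun v τ => φ (Function.invFun ι v) (e τ), ?_, ?_, ?_, ?_⟩
  · rintro _ ⟨v, hv, rfl⟩
    exact ⟨(hmem _).1 (v : E).2, hU1 v hv⟩
  · rintro _ ⟨v, hv, rfl⟩ g w hw
    obtain ⟨w0, hw0, rfl⟩ := hact v g w hw
    exact ⟨w0, hU2 v hv _ w0 hw0, rfl⟩
  · refine ⟨ι '' S, hS.image _, fun x hx => ?_⟩
    obtain ⟨y, rfl⟩ := hlift x hx
    obtain ⟨s, hs, v, hv, m, hm⟩ := hS' y
    refine ⟨ι s, ⟨s, hs, rfl⟩, ι v, ⟨v, hv, rfl⟩, m, ?_⟩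
    have h3 := congrArg E.val hm
    rw [map_mul, map_mul, map_zpow₀, map_natCast] at h3
    exact h3
  · rintro _ ⟨v, hv, rfl⟩ h1
    rw [← map_pow] at h1
    have h2 : v ^ p = 1 := hι (by rw [h1, map_one])
    rw [hU4 v hv h2, map_one]
  · rintro _ ⟨v, hv, rfl⟩ _ ⟨w, hw, rfl⟩
    funext τ
    change φ (Function.invFun ι (ι v * ι w)) (e τ) =
      φ (Function.invFun ι (ι v)) (e τ) + φ (Function.invFun ι (ι w)) (e τ)
    rw [← map_mul, hinv, hinv, hinv, hφ1 v hv w hw, Pi.add_apply]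
  · intro f
    obtain ⟨v, hv, hv'⟩ := hφ2 (fun τ => f (e.symm τ))
    refine ⟨ι v, ⟨v, hv, rfl⟩, ?_⟩
    funext τ
    change φ (Function.invFun ι (ι v)) (e τ) = f τ
    rw [hinv, hv']
    exact congrArg f (MulEquiv.symm_apply_apply e τ)
  · rintro _ ⟨v, hv, rfl⟩
    have h1 : (fun τ => φ (Function.invFun ι (ι v)) (e τ)) = 0 ↔ φ v = 0 := by
      rw [hinv]
      constructor
      · intro h
        funext τ
        have := congrFun h (e.symm τ)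
        rwa [MulEquiv.apply_symm_apply] at this
      · intro h
        rw [h]
        rfl
    change (fun τ => φ (Function.invFun ι (ι v)) (e τ)) = 0 ↔ _
    rw [h1, hφ3 v hv]
    constructor
    · rintro ⟨w, hw, rfl⟩
      exact ⟨ι w, ⟨w, hw, rfl⟩, (map_pow ι w p).symm⟩
    · rintro ⟨_, ⟨w, hw, rfl⟩, h2⟩
      refine ⟨w, hw, hι ?_⟩
      rw [map_pow, h2]
  · rintro _ ⟨v, hv, rfl⟩ g w hw τ
    obtain ⟨w0, hw0, rfl⟩ := hact v g w hw
    change φ (Function.invFun ι (ι w0)) (e τ) =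
      φ (Function.invFun ι (ι v)) (e ((QuotientGroup.mk g)⁻¹ * τ))
    rw [hinv, hinv, hφ4 v hv _ w0 hw0, map_mul, map_inv]

end BKLoc2
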