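import Pool.Agent.Lib.MP_7c08ba_nt.Met.LocStmts
import Pool.Agent.Lib.MP_7c08ba_nt.Odd.Norm

set_option autoImplicit false

/-!
Parity without rigidity, local part, module LST: the multiplicative group of a finite extension of
`ℚ_l` and the prime `p ≠ l`.
-/

noncomputable section

namespace BKLoc2

open BKOdd BKOdd.NormAux

namespace LSTAux

variable {l : ℕ} [Fact l.Prime]

/-- the norm is invariant under the Galois group -/
theorem norm_gal (h : GQ l) (x : PadicAlgCl l) : ‖h x‖ = ‖x‖ :=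
  (spectralNorm_eq_of_equiv h x).symm

theorem norm_prime {p : ℕ} (hp : p.Prime) (hl : l ≠ p) : ‖(p : PadicAlgCl l)‖ = 1 := by
  have h1 : ‖((p : ℚ_[l]) : PadicAlgCl l)‖ = ‖(p : ℚ_[l])‖ := PadicAlgCl.norm_extends l _
  rw [Padic.norm_natCast_eq_one_iff.2 ((Nat.coprime_primes Fact.out hp).2 hl)] at h1
  rw [map_natCast] at h1
  exact h1

theorem norm_l : ‖(l : PadicAlgCl l)‖ = (l : ℝ)⁻¹ := by
  have h1 : ‖((l : ℚ_[l]) : PadicAlgCl l)‖ = ‖(l : ℚ_[l])‖ := PadicAlgCl.norm_extends l _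
  rw [Padic.norm_p] at h1
  rw [map_natCast] at h1
  exact h1

theorem norm_one_of {x : PadicAlgCl l} (h : ‖x - 1‖ < 1) : ‖x‖ = 1 := by
  have h1 : ‖(x - 1) + 1‖ = max ‖x - 1‖ ‖(1 : PadicAlgCl l)‖ :=
    IsUltrametricDist.norm_add_eq_max_of_norm_ne_norm (by rw [norm_one]; exact h.ne)
  rwa [sub_add_cancel, norm_one, max_eq_right h.le] at h1

theorem mul_lt {x y : PadicAlgCl l} (hx : ‖x - 1‖ < 1) (hy : ‖y - 1‖ < 1) :
    ‖x * y - 1‖ < 1 := by
  have e : x * y - 1 = x * (y - 1) + (x - 1) := by ring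
  rw [e]
  refine (IsUltrametricDist.norm_add_le_max _ _).trans_lt (max_lt ?_ hx)
  rw [norm_mul, norm_one_of hx, one_mul]
  exact hy

theorem inv_lt {x : PadicAlgCl l} (hx : ‖x - 1‖ < 1) : ‖x⁻¹ - 1‖ < 1 := by
  have h0 : x ≠ 0 := by
    rintro rfl
    simp at hx
  have e : x⁻¹ - 1 = -(x⁻¹ * (x - 1)) := by
    field_simp
    ring
  rw [e, norm_neg, norm_mul, norm_inv, norm_one_of hx, inv_one, one_mul]
  exact hx

theorem pow_lt {x : PadicAlgCl l} (hx : ‖x - 1‖ < 1) (n : ℕ) : ‖x ^ n - 1‖ < 1 := by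
  induction n with
  | zero => simp
  | succ n ih =>
    rw [pow_succ]
    exact mul_lt ih hx

/-- no roots of unity of order `p` among the principal units -/
theorem no_torsion {p : ℕ} (hp : p.Prime) (hl : l ≠ p) {x : PadicAlgCl l} (hx : ‖x - 1‖ < 1)
    (h : x ^ p = 1) : x = 1 := by
  have h1 : (∑ i ∈ Finset.range p, x ^ i) * (x - 1) = 0 := by
    rw [geom_sum_mul, h, sub_self]
  rcases mul_eq_zero.1 h1 with h2 | h2
  · exfalso
    have h3 : ‖∑ i ∈ Finset.range p, (x ^ i - 1)‖ < 1 := by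
      have : (Finset.range p).Nonempty := ⟨0, Finset.mem_range.2 hp.pos⟩
      obtain ⟨i, -, hi⟩ := IsUltrametricDist.exists_norm_finsetSum_le_of_nonempty this
        (fun i => x ^ i - 1)
      exact hi.trans_lt (pow_lt hx i)
    rw [Finset.sum_sub_distrib, h2, Finset.sum_const, Finset.card_range, zero_sub, norm_neg,
      nsmul_eq_mul, mul_one, norm_prime hp hl] at h3
    exact lt_irrefl _ h3
  · exact sub_eq_zero.1 h2

/-- existence of `p`-th roots -/
theorem exists_root {p : ℕ} (hp : p.Prime) {v : PadicAlgCl l} (hv : ‖v - 1‖ < 1) :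
    ∃ w : PadicAlgCl l, w ^ p = v ∧ ‖w - 1‖ < 1 := by
  obtain ⟨w, hw⟩ := IsAlgClosed.exists_pow_nat_eq v hp.pos
  have : NeZero (p : PadicAlgCl l) := ⟨by exact_mod_cast hp.ne_zero⟩
  obtain ⟨ζ, hζ⟩ := HasEnoughRootsOfUnity.exists_primitiveRoot (PadicAlgCl l) p
  have h1 : v - 1 = ∏ μ ∈ Polynomial.nthRootsFinset p (1 : PadicAlgCl l), (w - μ * 1) := by
    rw [← hζ.pow_sub_pow_eq_prod_sub_mul _ _ hp.pos, hw, one_pow]
  obtain ⟨μ, hμ, hlt⟩ : ∃ μ ∈ Polynomial.nthRootsFinset p (1 : PadicAlgCl l),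
      ‖w - μ * 1‖ < 1 := by
    by_contra! hcon
    rw [h1, norm_prod] at hv
    exact absurd hv (not_lt.2 (Finset.prod_induction _
      (fun r : ℝ => 1 ≤ r) (fun a b ha hb => one_le_mul_of_one_le_of_one_le ha hb) le_rfl hcon))
  rw [Polynomial.mem_nthRootsFinset hp.pos] at hμ
  rw [mul_one] at hlt
  have hμ1 : ‖μ‖ = 1 := by
    have := congrArg norm hμ
    rw [norm_pow, norm_one] at this
    exact (pow_eq_one_iff_of_nonneg (norm_nonneg _) hp.ne_zero).1 this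
  have hμ0 : μ ≠ 0 := by
    rintro rfl
    simp at hμ1
  refine ⟨w * μ⁻¹, ?_, ?_⟩
  · rw [mul_pow, inv_pow, hμ, hw, inv_one, mul_one]
  · have e : w * μ⁻¹ - 1 = μ⁻¹ * (w - μ) := by
      field_simp
    rw [e, norm_mul, norm_inv, hμ1, inv_one, one_mul]
    exact hlt

/-- finitely many representatives -/
theorem exists_finite (E : IntermediateField ℚ_[l] (PadicAlgCl l)) [FiniteDimensional ℚ_[l] E] :
    ∃ T : Finset E, (∀ s ∈ T, s ≠ 0) ∧ ∀ y : E, (l : ℝ)⁻¹ ≤ ‖y‖ → ‖y‖ ≤ 1 →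
      ∃ s ∈ T, ‖y - s‖ < ‖s‖ := by
  have : ProperSpace E := FiniteDimensional.proper ℚ_[l] E
  have hl : (0 : ℝ) < (l : ℝ)⁻¹ := inv_pos.2 (by exact_mod_cast (Fact.out : l.Prime).pos)
  have hK : IsCompact (Metric.closedBall (0 : E) 1 ∩ {y : E | (l : ℝ)⁻¹ ≤ ‖y‖}) :=
    (isCompact_closedBall _ _).inter_right (isClosed_le continuous_const continuous_norm)
  obtain ⟨T, hT, hcov⟩ := hK.elim_nhds_subcover (fun s => Metric.ball s ‖s‖) (by
    rintro s ⟨-, hs⟩
    exact Metric.ball_mem_nhds _ (hl.trans_le hs))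
  refine ⟨T, ?_, ?_⟩
  · intro s hs h0
    have := (hT s hs).2
    rw [h0, Set.mem_ofPred_eq, norm_zero] at this
    exact absurd this (not_le.2 hl)
  · intro y h1 h2
    have := hcov ⟨by rwa [Metric.mem_closedBall, dist_zero_right], h1⟩
    rw [Set.mem_iUnion₂] at this
    obtain ⟨s, hs, hys⟩ := this
    rw [Metric.mem_ball, dist_eq_norm] at hys
    exact ⟨s, hs, hys⟩

/-- the principal units -/
def UU (H : Subgroup (GQ l)) : Subgroup (PadicAlgCl l)ˣ where
  carrier := {v | (∀ h ∈ H, h (v : PadicAlgCl l) = v) ∧ ‖(v : PadicAlgCl l) - 1‖ < 1}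
  one_mem' := ⟨fun h _ => by rw [Units.val_one, map_one], by simp⟩
  mul_mem' := by
    rintro a b ⟨ha, ha'⟩ ⟨hb, hb'⟩
    refine ⟨fun h hh => ?_, ?_⟩
    · rw [Units.val_mul, map_mul, ha h hh, hb h hh]
    · rw [Units.val_mul]
      exact mul_lt ha' hb'
  inv_mem' := by
    rintro a ⟨ha, ha'⟩
    refine ⟨fun h hh => ?_, ?_⟩
    · rw [Units.val_inv_eq_inv_val, map_inv₀, ha h hh]
    · rw [Units.val_inv_eq_inv_val]
      exact inv_lt ha'

end LSTAux

open LSTAux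

theorem stLsT : StLsT := by
  classical
  intro p l hp hl' hlp H hH
  have hl0 : (0 : ℝ) < l := by exact_mod_cast hl'.out.pos
  have hl1 : (1 : ℝ) < l := by exact_mod_cast hl'.out.one_lt
  have hl2 : (l : PadicAlgCl l) ≠ 0 := by exact_mod_cast hl'.out.ne_zero
  refine ⟨UU H, fun v => Iff.rfl, ?_, ?_, ?_⟩
  · have hfin : FiniteDimensional ℚ_[l] (EH (MonoidHom.id (GQ l)) H) :=
      finite_EH Topology.IsOpenEmbedding.id hH
    obtain ⟨T, hT0, hT⟩ := exists_finite (EH (MonoidHom.id (GQ l)) H)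
    refine ⟨{x | ∃ s ∈ T, (x : PadicAlgCl l) = (s : PadicAlgCl l)}, ?_, ?_⟩
    · refine Set.Finite.of_finite_image (f := fun x : (PadicAlgCl l)ˣ => (x : PadicAlgCl l))
        ((T.finite_toSet.image fun s : EH (MonoidHom.id (GQ l)) H => (s : PadicAlgCl l)).subset ?_)
        (fun x _ y _ h => Units.ext h)
      rintro _ ⟨x, ⟨s, hs, hx⟩, rfl⟩
      exact ⟨s, hs, hx.symm⟩
    · intro x hx
      obtain ⟨n, hn1, hn2⟩ := exists_mem_Ioc_zpow (norm_pos_iff.2 x.ne_zero) hl1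
      have hxE : (x : PadicAlgCl l) ∈ EH (MonoidHom.id (GQ l)) H := (mem_EH _ _).2 hx
      have hyE : (x : PadicAlgCl l) * (l : PadicAlgCl l) ^ (n + 1) ∈
          EH (MonoidHom.id (GQ l)) H :=
        mul_mem hxE (zpow_mem (natCast_mem _ l) _)
      have hny : ‖(x : PadicAlgCl l) * (l : PadicAlgCl l) ^ (n + 1)‖ =
          ‖(x : PadicAlgCl l)‖ * ((l : ℝ) ^ (n + 1))⁻¹ := by
        rw [norm_mul, norm_zpow, norm_l, inv_zpow]
      have hlpos : (0 : ℝ) < (l : ℝ) ^ (n + 1) := zpow_pos hl0 _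
      obtain ⟨s, hs, hlt⟩ := hT ⟨_, hyE⟩
        (by
          change (l : ℝ)⁻¹ ≤ ‖(x : PadicAlgCl l) * (l : PadicAlgCl l) ^ (n + 1)‖
          rw [hny, ← div_eq_mul_inv, le_div_iff₀ hlpos, zpow_add_one₀ hl0.ne']
          rw [mul_comm ((l : ℝ) ^ n), inv_mul_cancel_left₀ hl0.ne']
          exact hn1.le)
        (by
          change ‖(x : PadicAlgCl l) * (l : PadicAlgCl l) ^ (n + 1)‖ ≤ 1
          rw [hny, ← div_eq_mul_inv, div_le_one hlpos]
          exact hn2)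
      have hs0 : (s : PadicAlgCl l) ≠ 0 := fun h => hT0 s hs (Subtype.ext h)
      have hlt' : ‖(x : PadicAlgCl l) * (l : PadicAlgCl l) ^ (n + 1) - (s : PadicAlgCl l)‖ <
          ‖(s : PadicAlgCl l)‖ := hlt
      refine ⟨Units.mk0 (s : PadicAlgCl l) hs0, ⟨s, hs, rfl⟩,
        (Units.mk0 (s : PadicAlgCl l) hs0)⁻¹ * (x * Units.mk0 (l : PadicAlgCl l) hl2 ^ (n + 1)), ⟨?_, ?_⟩,
        -(n + 1), ?_⟩
      · intro h hh
        have e1 : h (s : PadicAlgCl l) = s := (mem_EH _ _).1 s.2 h hh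
        have e2 := hx h hh
        rw [Units.val_mul, Units.val_mul, Units.val_inv_eq_inv_val, Units.val_zpow_eq_zpow_val,
          Units.val_mk0, Units.val_mk0, map_mul, map_mul, map_inv₀, map_zpow₀, e1, e2,
          map_natCast]
      · have e : (((Units.mk0 (s : PadicAlgCl l) hs0)⁻¹ *
            (x * Units.mk0 (l : PadicAlgCl l) hl2 ^ (n + 1)) : (PadicAlgCl l)ˣ) :
            PadicAlgCl l) - 1 =
            (s : PadicAlgCl l)⁻¹ * ((x : PadicAlgCl l) * (l : PadicAlgCl l) ^ (n + 1) - s) := by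
          rw [Units.val_mul, Units.val_mul, Units.val_inv_eq_inv_val, Units.val_zpow_eq_zpow_val,
            Units.val_mk0, Units.val_mk0, mul_sub, inv_mul_cancel₀ hs0]
        rw [e, norm_mul, norm_inv, inv_mul_lt_iff₀ (norm_pos_iff.2 hs0), mul_one]
        exact hlt'
      · rw [Units.val_mul, Units.val_mul, Units.val_inv_eq_inv_val, Units.val_zpow_eq_zpow_val,
          Units.val_mk0, Units.val_mk0, mul_inv_cancel_left₀ hs0, zpow_neg, mul_assoc,
          mul_inv_cancel₀ (zpow_ne_zero _ hl2), mul_one]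
  · rintro v ⟨hv, hv1⟩
    obtain ⟨w, hw, hw1⟩ := exists_root hp.out hv1
    have hw0 : w ≠ 0 := by
      rintro rfl
      rw [zero_pow hp.out.ne_zero] at hw
      exact v.ne_zero hw.symm
    refine ⟨Units.mk0 w hw0, ⟨fun h hh => ?_, hw1⟩, Units.ext ?_⟩
    · rw [Units.val_mk0]
      have h1 : ‖h w - 1‖ < 1 := by
        have : h w - 1 = h (w - 1) := by rw [map_sub, map_one]
        rw [this, norm_gal]
        exact hw1
      have h2 : (h w * w⁻¹) ^ p = 1 := by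
        rw [mul_pow, inv_pow, ← map_pow, hw, hv h hh, mul_inv_cancel₀ v.ne_zero]
      have h3 := no_torsion hp.out hlp (mul_lt h1 (inv_lt hw1)) h2
      rwa [mul_inv_eq_one₀ hw0] at h3
    · rw [Units.val_pow_eq_pow_val, Units.val_mk0, hw]
  · rintro v ⟨-, hv1⟩ hvp
    apply Units.ext
    apply no_torsion hp.out hlp hv1
    rw [← Units.val_pow_eq_pow_val, hvp, Units.val_one]

end BKLoc2
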