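import Pool.Agent.Lib.MP_7c08ba_nt.Met.LocStmts

set_option autoImplicit false

/-!
Module LOC: the local axioms of the arithmetic theorem, from the invariant (INVL), the order of
`H¹` (N3) and the two dualities (N4, N5).
-/

noncomputable section

namespace BKLoc2

open BKMet (QZ actA actA_apply kch kch_apply Rel cupk LocAx)
open BKPar (Loc1 Loc2)
open BKND (Sm)

namespace LocAux

variable {p : ℕ} [hp : Fact p.Prime]

/-! ### a nonzero functional -/

theorem p_smul_cl : p • cl p ((1 : ℚ_[p]) / p) = 0 := by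
  have hp0 : (p : ℚ_[p]) ≠ 0 := by exact_mod_cast hp.out.ne_zero
  have h1 : p • cl p ((1 : ℚ_[p]) / p) = cl p (p • ((1 : ℚ_[p]) / p)) := rfl
  rw [h1, nsmul_eq_mul, mul_div_cancel₀ _ hp0]
  refine (Submodule.Quotient.mk_eq_zero _).2 ⟨1, ?_⟩
  simp

theorem cl_ne_zero : cl p ((1 : ℚ_[p]) / p) ≠ 0 := by
  intro h
  obtain ⟨y, hy⟩ := (Submodule.Quotient.mk_eq_zero _).1 h
  have hp0 : (p : ℚ_[p]) ≠ 0 := by exact_mod_cast hp.out.ne_zero
  have h2 : ((p : ℤ_[p]) * y : ℤ_[p]) = 1 := by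
    apply Subtype.coe_injective
    have hy' : ((y : ℤ_[p]) : ℚ_[p]) = 1 / p := hy
    push_cast
    rw [hy', mul_div_cancel₀ _ hp0]
  exact PadicInt.prime_p.not_unit (IsUnit.of_mul_eq_one _ h2)

theorem exists_lam (k : Type) [Field k] [Algebra (ZMod p) k] : ∃ lam : k →+ QZ p, lam ≠ 0 := by
  obtain ⟨f, hf⟩ : ∃ f : Module.Dual (ZMod p) k, f 1 ≠ 0 := by
    by_contra h
    push Not at h
    exact one_ne_zero ((Module.forall_dual_apply_eq_zero_iff (ZMod p) (1 : k)).1 h)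
  let i : ZMod p →+ QZ p := ZMod.lift p ⟨zmultiplesHom (QZ p) (cl p ((1 : ℚ_[p]) / p)), by
    rw [zmultiplesHom_apply, natCast_zsmul]
    exact p_smul_cl⟩
  have hi : i 1 = cl p ((1 : ℚ_[p]) / p) := by
    have h : i ((1 : ℤ) : ZMod p) = zmultiplesHom (QZ p) (cl p ((1 : ℚ_[p]) / p)) 1 :=
      ZMod.lift_coe p _ (1 : ℤ)
    rw [Int.cast_one] at h
    rw [h, zmultiplesHom_apply, one_zsmul]
  refine ⟨i.comp f.toAddMonoidHom, fun h => ?_⟩
  have h1 := DFunLike.congr_fun h ((f 1)⁻¹ • (1 : k))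
  rw [AddMonoidHom.comp_apply, AddMonoidHom.zero_apply] at h1
  have h2 : f.toAddMonoidHom ((f 1)⁻¹ • (1 : k)) = 1 := by
    change f ((f 1)⁻¹ • (1 : k)) = 1
    rw [map_smul, smul_eq_mul, inv_mul_cancel₀ hf]
  rw [h2, hi] at h1
  exact cl_ne_zero h1

/-! ### the pairing -/

section pairing

variable {k : Type} [Field k] [Algebra (ZMod p) k]

theorem p_smul (x : k) : p • x = 0 := by
  have h : ((p : ℕ) : k) = 0 := by
    rw [← map_natCast (algebraMap (ZMod p) k), CharP.cast_eq_zero, map_zero]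
  rw [nsmul_eq_mul, h, zero_mul]

theorem lam_smul (lam : k →+ QZ p) (c : ℤ_[p]) (x : k) :
    lam (algebraMap (ZMod p) k (PadicInt.toZMod c) * x) = c • lam x := by
  obtain ⟨y, hy⟩ : ∃ y, c = ((PadicInt.toZMod c).val : ℤ_[p]) + p * y := by
    have h1 : c - ((PadicInt.toZMod c).val : ℤ_[p]) ∈ RingHom.ker (PadicInt.toZMod (p := p)) := by
      rw [RingHom.mem_ker, map_sub, map_natCast, ZMod.natCast_zmod_val, sub_self]
    rw [PadicInt.ker_toZMod, PadicInt.maximalIdeal_eq_span_p, Ideal.mem_span_singleton] at h1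
    obtain ⟨y, hy⟩ := h1
    exact ⟨y, by rw [← hy]; ring⟩
  have h1 : algebraMap (ZMod p) k (PadicInt.toZMod c) * x = (PadicInt.toZMod c).val • x := by
    rw [nsmul_eq_mul, ← map_natCast (algebraMap (ZMod p) k), ZMod.natCast_zmod_val]
  have h0 : p • lam x = 0 := by
    rw [← map_nsmul, p_smul (p := p) x, map_zero]
  have h2 : c • lam x = (PadicInt.toZMod c).val • lam x := by
    conv_lhs => rw [hy]
    rw [add_smul, Nat.cast_smul_eq_nsmul, mul_comm (p : ℤ_[p]) y, mul_smul,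
      Nat.cast_smul_eq_nsmul, h0, smul_zero, add_zero]
  rw [h1, map_nsmul, h2]

/-- the pairing -/
def bk (lam : k →+ QZ p) : k →+ k →+ QZ p :=
  (AddMonoidHom.compHom lam).comp AddMonoidHom.mul

theorem bk_apply (lam : k →+ QZ p) (x y : k) : bk lam x y = lam (x * y) := rfl

variable {G : Type} [Group G]

theorem act_lam {χ : G →* ℤ_[p]ˣ} {ψ ψ' : G →* kˣ} (h : Rel χ ψ ψ') (lam : k →+ QZ p) (g : G)
    (x : k) : actA χ g (lam x) = lam (((ψ g : kˣ) : k) * ((ψ' g : kˣ) : k) * x) := by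
  rw [h g, lam_smul, actA_apply]

theorem pair {χ : G →* ℤ_[p]ˣ} {ψ ψ' : G →* kˣ} (h : Rel χ ψ ψ') {lam : k →+ QZ p}
    (hlam : lam ≠ 0) : Pair χ (kch ψ) (kch ψ') (bk lam) := by
  refine ⟨fun g n n' => ?_, fun n hn => ?_, fun n hn => ?_⟩
  · rw [bk_apply, bk_apply, act_lam h, kch_apply, kch_apply]
    congr 1
    ring
  · by_contra h0
    apply hlam
    ext y
    have := hn (n⁻¹ * y)
    rwa [bk_apply, mul_inv_cancel_left₀ h0] at this
  · by_contra h0
    apply hlam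
    ext y
    have := hn (y * n⁻¹)
    rwa [bk_apply, inv_mul_cancel_right₀ h0] at this

variable [TopologicalSpace G]

theorem tame [IsTopologicalGroup G] [Finite k] {ψ : G →* kˣ} (h : Sm (kch ψ)) :
    Tame p (kch ψ) := by
  obtain ⟨W, hW, hW1⟩ := h
  have hle : W ≤ ψ.ker := by
    intro w hw
    have h1 := DFunLike.congr_fun (hW1 w hw) (1 : k)
    rw [kch_apply, mul_one] at h1
    exact Units.ext h1
  have hdvd : ψ.ker.index ∣ Nat.card kˣ := by
    rw [Subgroup.index_ker]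
    exact Subgroup.card_subgroup_dvd_card _
  refine ⟨ψ.ker, inferInstance, Subgroup.isOpen_mono hle hW, ?_, ?_, ?_⟩
  · exact ne_zero_of_dvd_ne_zero Nat.card_pos.ne' hdvd
  · intro hp1
    have h2 := hp1.trans hdvd
    rw [Nat.card_units] at h2
    have h3 : p ∣ Nat.card k := by
      have hch : CharP k p := charP_of_injective_algebraMap (algebraMap (ZMod p) k).injective p
      have := Fintype.ofFinite k
      rw [Nat.card_eq_fintype_card]
      obtain ⟨n, hn, hn'⟩ := FiniteField.card k p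
      rw [hn']
      exact dvd_pow_self p n.ne_zero
    have h4 : 1 ≤ Nat.card k := Nat.card_pos
    have h5 : p ∣ 1 := by
      have := (Nat.dvd_sub h3 h2)
      rwa [Nat.sub_sub_self h4] at this
    exact hp.out.one_lt.ne' (Nat.dvd_one.1 h5)
  · intro g hg
    ext x
    rw [kch_apply, MonoidHom.mem_ker.1 hg, Units.val_one, one_mul]
    rfl

/-! ### cup products are cocycles -/

theorem sm_iff {ψ : G →* kˣ} (h : Sm (kch ψ)) :
    ∃ W : Subgroup G, IsOpen (W : Set G) ∧ ∀ g, ∀ w ∈ W, ψ (g * w) = ψ g := by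
  obtain ⟨W, hW, hW1⟩ := h
  refine ⟨W, hW, fun g w hw => ?_⟩
  have h1 := DFunLike.congr_fun (hW1 w hw) (1 : k)
  rw [kch_apply, mul_one] at h1
  rw [map_mul, show ψ w = 1 from Units.ext h1, mul_one]

theorem cup_mem {χ : G →* ℤ_[p]ˣ} {ψ ψ' : G →* kˣ} (hψ' : Sm (kch ψ')) (h : Rel χ ψ ψ')
    (lam : k →+ QZ p) {x y : G → k} (hx : x ∈ BKND.Z1 (kch ψ)) (hy : y ∈ BKND.Z1 (kch ψ')) :
    cupk ψ' lam x y ∈ BKND.Z2 (actA χ) := by
  obtain ⟨⟨W1, hW1, hx1⟩, hx2⟩ := hx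
  obtain ⟨⟨W2, hW2, hy1⟩, hy2⟩ := hy
  obtain ⟨W3, hW3, hw3⟩ := sm_iff hψ'
  refine ⟨⟨W1 ⊓ W2 ⊓ W3, ?_, fun g g' w hw w' hw' => ?_⟩, fun g g' l => ?_⟩
  · rw [Subgroup.coe_inf, Subgroup.coe_inf]
    exact (hW1.inter hW2).inter hW3
  · unfold cupk
    rw [hx1 g w hw.1.1, hw3 g w hw.2, hy1 g' w' hw'.1.2]
  · unfold cupk
    rw [act_lam h, hx2, hy2, ← map_sub, ← map_add, ← map_sub, kch_apply, kch_apply, map_mul,
      Units.val_mul]
    rw [show ((ψ g : kˣ) : k) * ((ψ' g : kˣ) : k) * (x g' * (((ψ' g' : kˣ) : k) * y l)) -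
      (x g + ((ψ g : kˣ) : k) * x g') * (((ψ' g : kˣ) : k) * ((ψ' g' : kˣ) : k) * y l) +
      x g * (((ψ' g : kˣ) : k) * (y g' + ((ψ' g' : kˣ) : k) * y l)) -
      x g * (((ψ' g : kˣ) : k) * y g') = 0 by ring, map_zero]

theorem mul_mem {χ : G →* ℤ_[p]ˣ} {ψ ψ' : G →* kˣ} (h : Rel χ ψ ψ')
    (lam : k →+ QZ p) {z : G → G → k} (hz : z ∈ BKND.Z2 (kch ψ)) {y : k}
    (hy : y ∈ BKND.H0 (kch ψ')) : (fun g h => lam (z g h * y)) ∈ BKND.Z2 (actA χ) := by
  obtain ⟨hz1, hz2⟩ := hz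
  refine ⟨BKND.Loc2.map hz1 (fun t => lam (t * y)), fun g g' l => ?_⟩
  have h1 : ((ψ' g : kˣ) : k) * y = y := hy g
  have h2 := hz2 g g' l
  rw [kch_apply] at h2
  rw [act_lam h, ← map_sub, ← map_add, ← map_sub]
  rw [show ((ψ g : kˣ) : k) * ((ψ' g : kˣ) : k) * (z g' l * y) - z (g * g') l * y +
    z g (g' * l) * y - z g g' * y = ((ψ g : kˣ) : k) * z g' l * (((ψ' g : kˣ) : k) * y) -
      z (g * g') l * y + z g (g' * l) * y - z g g' * y by ring, h1,
    show ((ψ g : kˣ) : k) * z g' l * y - z (g * g') l * y + z g (g' * l) * y - z g g' * y =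
      (((ψ g : kˣ) : k) * z g' l - z (g * g') l + z g (g' * l) - z g g') * y by ring, h2,
    zero_mul, map_zero]

/-! ### counting -/

theorem card_B1 [Finite k] (ψ : G →* kˣ) :
    Nat.card (BKND.B1 (kch ψ)) * Nat.card (BKND.H0 (kch ψ)) = Nat.card k := by
  let f : k →+ (G → k) :=
    { toFun := fun m g => kch ψ g m - m
      map_zero' := by
        funext g
        simp
      map_add' := fun m n => by
        funext g
        simp only [map_add, Pi.add_apply]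
        abel }
  have h1 : f.range = BKND.B1 (kch ψ) := by
    ext x
    constructor
    · rintro ⟨m, rfl⟩
      exact ⟨m, fun g => rfl⟩
    · rintro ⟨m, hm⟩
      exact ⟨m, funext fun g => (hm g).symm⟩
  have h2 : f.ker = BKND.H0 (kch ψ) := by
    ext m
    constructor
    · intro hm g
      exact sub_eq_zero.1 (congrFun hm g)
    · intro hm
      rw [AddMonoidHom.mem_ker]
      funext g
      exact sub_eq_zero.2 (hm g)
  have h3 := AddSubgroup.card_mul_index f.ker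
  rw [AddSubgroup.index_ker, h1, h2] at h3
  rw [← h3, mul_comm]

theorem B1_le {ψ : G →* kˣ} (h : Sm (kch ψ)) : BKND.B1 (kch ψ) ≤ BKND.Z1 (kch ψ) := by
  rintro x ⟨m, hm⟩
  obtain ⟨W, hW, hW1⟩ := sm_iff h
  refine ⟨⟨W, hW, fun g w hw => ?_⟩, fun g g' => ?_⟩
  · rw [hm, hm, kch_apply, kch_apply, hW1 g w hw]
  · rw [hm, hm, hm, kch_apply, kch_apply, kch_apply, kch_apply, map_mul, Units.val_mul]
    ring

end pairing

theorem card_Z1 {G : Type} [Group G] [TopologicalSpace G] {k : Type} [Field k]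
    [Algebra (ZMod p) k] [Finite k] {ψ : G →* kˣ} (h : Sm (kch ψ)) {n : ℕ}
    (hn : (BKND.B1 (kch ψ)).relIndex (BKND.Z1 (kch ψ)) = Nat.card (BKND.H0 (kch ψ)) * n) :
    Nat.card (BKND.Z1 (kch ψ)) = n * Nat.card k := by
  have h1 := AddSubgroup.relIndex_mul_relIndex ⊥ (BKND.B1 (kch ψ)) (BKND.Z1 (kch ψ)) bot_le
    (B1_le h)
  rw [AddSubgroup.relIndex_bot_left, AddSubgroup.relIndex_bot_left, hn] at h1
  rw [← h1, ← card_B1 ψ]
  ring

end LocAux

open LocAux in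
theorem locAx (h2 : StN3) (h3 : StN4) (h4 : StN5) (p l : ℕ) [Fact p.Prime] [Fact l.Prime]
    (hp2 : p ≠ 2) (inv : (BKOdd.GQ l → BKOdd.GQ l → QZ p) →+ QZ p)
    (hinv : ∀ α ∈ BKND.Z2 (actA (cyL p l)), inv α = 0 ↔ α ∈ BKND.B2 (actA (cyL p l)))
    (δ : ℕ) (hδ : ∀ n : ℕ, (if l = p then n else 1) = n ^ δ) :
    LocAx p (BKMet.cycL p l) inv δ := by
  refine ⟨hinv, ?_, ?_, ?_⟩
  · intro k _ _ _ ψ ψ' hψ hψ' hrel lam hlam f hf hcup
    refine h4 p l hp2 k k (kch ψ) (kch ψ') (bk lam) p_smul p_smul (tame hψ) (tame hψ')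
      (pair hrel hlam) f hf fun y hy => ?_
    exact (hinv _ (cup_mem hψ' hrel lam hf hy)).1 (hcup y hy)
  · intro k _ _ _ ψ ψ' hψ hψ' hrel lam hlam z hz hcup
    refine h3 p l hp2 k k (kch ψ) (kch ψ') (bk lam) p_smul p_smul (tame hψ) (tame hψ')
      (pair hrel hlam) z hz fun y hy => ?_
    exact (hinv _ (mul_mem hrel lam hz hy)).1 (hcup y hy)
  · intro k _ _ _ ψ ψ' hψ hψ' hrel
    obtain ⟨lam, hlam⟩ := exists_lam (p := p) k
    have h5 := h2 p l hp2 k k (kch ψ) (kch ψ') (bk lam) p_smul p_smul (tame hψ) (tame hψ')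
      (pair hrel hlam)
    rw [mul_assoc] at h5
    rw [card_Z1 (p := p) hψ h5, hδ, pow_add, pow_one]
    ring

/-- Module LOC. -/
theorem stLoc (h1 : StInvL) (h2 : StN3) (h3 : StN4) (h4 : StN5) : StLoc := by
  refine ⟨?_, ?_⟩
  · intro p l _ _ hp2 hlp lam hlam u hu z hz
    obtain ⟨inv, hinv, hval⟩ := h1.1 p l hp2 hlp lam hlam u hu z hz
    exact ⟨inv, locAx h2 h3 h4 p l hp2 inv hinv 0 (fun n => by rw [if_neg hlp, pow_zero]), hval⟩
  · intro p _ hp2 lam hlam z hz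
    obtain ⟨inv, hinv, hval⟩ := h1.2 p hp2 lam hlam z hz
    exact ⟨inv, locAx h2 h3 h4 p p hp2 inv hinv 1 (fun n => by rw [if_pos rfl, pow_one]), hval⟩

end BKLoc2
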