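import Pool.Agent.Lib.MP_7c08ba_nt.Met.LocStmts
import Pool.Agent.Lib.MP_7c08ba_nt.Met.LPA
import Pool.Agent.Lib.MP_7c08ba_nt.Odd.CycL
import Pool.Agent.Lib.MP_7c08ba_nt.Odd.Desc

set_option autoImplicit false

/-!
Module N3: the order of `H¹(ℚ_l, N)`.
-/

noncomputable section

namespace BKLoc2

open BKOdd
open BKMet (QZ actA)
open BKPar (Loc1 Loc2)

namespace N3Aux

variable {p l : ℕ} [hp : Fact p.Prime] [Fact l.Prime]

/-! ### the common kernel -/

theorem index_inf {G : Type*} [Group G] (H K : Subgroup G) [H.Normal]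
    (hH : H.index ≠ 0) (hH' : ¬ p ∣ H.index) (hK : K.index ≠ 0) (hK' : ¬ p ∣ K.index) :
    (H ⊓ K).index ≠ 0 ∧ ¬ p ∣ (H ⊓ K).index := by
  have h1 : (H ⊓ K).index ∣ H.index * K.index := by
    rw [← Subgroup.relIndex_mul_index (inf_le_right : H ⊓ K ≤ K), Subgroup.inf_relIndex_right]
    exact Nat.mul_dvd_mul_right (Subgroup.relIndex_dvd_index_of_normal H K) _
  refine ⟨ne_zero_of_dvd_ne_zero (mul_ne_zero hH hK) h1, fun h => ?_⟩
  rcases (Nat.Prime.dvd_mul hp.out).1 (h.trans h1) with h2 | h2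
  · exact hH' h2
  · exact hK' h2

theorem ζ_act {ζ : PadicAlgCl l} (hζ : IsPrimitiveRoot ζ p) (g : GQ l) :
    g ζ = ζ ^ (chm (cyL p l) g).val := by
  have h1 : g ζ = ζ ^ (((cyL p l g : ℤ_[p]ˣ) : ℤ_[p]).toZModPow 1).val :=
    CycLAux.act 1 ζ (by rw [pow_one]; exact hζ.pow_eq_one)
      (MulSemiringAction.toRingAut (GQ l) (PadicAlgCl l) g)
  have h2 : (chm (cyL p l) g).val = (((cyL p l g : ℤ_[p]ˣ) : ℤ_[p]).toZModPow 1).val % p := by
    have h3 : chm (cyL p l) g = ((((cyL p l g : ℤ_[p]ˣ) : ℤ_[p]).toZModPow 1).val : ZMod p) :=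
      CycLAux.toZMod_eq _
    rw [h3, ZMod.val_natCast]
  rw [h1, h2]
  conv_lhs => rw [← Nat.div_add_mod (((cyL p l g : ℤ_[p]ˣ) : ℤ_[p]).toZModPow 1).val p]
  rw [pow_add, pow_mul, hζ.pow_eq_one, one_pow, one_mul]

/-- the subgroup fixing the roots of unity of order `p` -/
theorem exists_mu {ζ : PadicAlgCl l} (hζ : IsPrimitiveRoot ζ p) :
    ∃ H : Subgroup (GQ l), H.Normal ∧ IsOpen (H : Set (GQ l)) ∧ H.index ≠ 0 ∧ ¬ p ∣ H.index ∧
      ∀ h ∈ H, h ζ = ζ := by
  let f : GQ l →* (ZMod p)ˣ := (Units.map (PadicInt.toZMod (p := p) : ℤ_[p] →* ZMod p)).comp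
    (cyL p l)
  have hf : ∀ g, ((f g : (ZMod p)ˣ) : ZMod p) = chm (cyL p l) g := fun g => rfl
  have hdvd : f.ker.index ∣ Nat.card (ZMod p)ˣ := by
    rw [Subgroup.index_ker]
    exact Subgroup.card_subgroup_dvd_card _
  have hcard : Nat.card (ZMod p)ˣ = p - 1 := by
    rw [Nat.card_eq_fintype_card, ZMod.card_units]
  have hfix : ∀ g, g ∈ f.ker ↔ g ζ = ζ := by
    intro g
    have : Fact (1 < p) := ⟨hp.out.one_lt⟩
    rw [MonoidHom.mem_ker, ζ_act hζ]
    constructor
    · intro h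
      have h1 : chm (cyL p l) g = 1 := by rw [← hf, h, Units.val_one]
      rw [h1, ZMod.val_one, pow_one]
    · intro h
      have h3 : (chm (cyL p l) g).val = 1 :=
        hζ.pow_inj (ZMod.val_lt _) hp.out.one_lt (by rw [pow_one, h])
      apply Units.ext
      rw [hf, Units.val_one]
      apply ZMod.val_injective
      rw [h3, ZMod.val_one]
  refine ⟨f.ker, inferInstance, ?_, ?_, ?_, fun h hh => (hfix h).1 hh⟩
  · have h1 : (f.ker : Set (GQ l)) =
        ((IntermediateField.adjoin ℚ_[l] {ζ}).fixingSubgroup : Set (GQ l)) := by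
      ext g
      rw [SetLike.mem_coe, SetLike.mem_coe, hfix, IntermediateField.mem_fixingSubgroup_iff]
      constructor
      · intro h x hx
        have h2 : IntermediateField.adjoin ℚ_[l] {ζ} ≤
            IntermediateField.fixedField (Subgroup.zpowers g) := by
          rw [IntermediateField.adjoin_simple_le_iff, IntermediateField.mem_fixedField_iff]
          rintro f ⟨n, rfl⟩
          have h4 : g ∈ MulAction.stabilizer (GQ l) ζ := h
          exact (MulAction.stabilizer (GQ l) ζ).zpow_mem h4 n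
        have h3 := h2 hx
        rw [IntermediateField.mem_fixedField_iff] at h3
        exact h3 g (Subgroup.mem_zpowers g)
      · intro h
        exact h ζ (IntermediateField.mem_adjoin_simple_self _ _)
    rw [h1]
    have : FiniteDimensional ℚ_[l] (IntermediateField.adjoin ℚ_[l] {ζ}) :=
      IntermediateField.adjoin.finiteDimensional (Algebra.IsIntegral.isIntegral ζ)
    exact IntermediateField.fixingSubgroup_isOpen _
  · exact ne_zero_of_dvd_ne_zero (by rw [hcard]; have := hp.out.two_le; omega) hdvd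
  · intro h
    have h1 := h.trans hdvd
    rw [hcard] at h1
    have h2 := Nat.le_of_dvd (by have := hp.out.two_le; omega) h1
    have := hp.out.two_le
    omega

theorem exists_H {N N' : Type*} [AddCommGroup N] [AddCommGroup N']
    {ρ : GQ l →* AddMonoid.End N} {ρ' : GQ l →* AddMonoid.End N'} (hρ : Tame p ρ)
    (hρ' : Tame p ρ') {ζ : PadicAlgCl l} (hζ : IsPrimitiveRoot ζ p) :
    ∃ H : Subgroup (GQ l), H.Normal ∧ IsOpen (H : Set (GQ l)) ∧ H.index ≠ 0 ∧ ¬ p ∣ H.index ∧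
      (∀ h ∈ H, h ζ = ζ) ∧ (∀ h ∈ H, ρ h = 1) ∧ ∀ h ∈ H, ρ' h = 1 := by
  obtain ⟨H1, n1, o1, i1, d1, r1⟩ := hρ
  obtain ⟨H2, n2, o2, i2, d2, r2⟩ := hρ'
  obtain ⟨H3, n3, o3, i3, d3, r3⟩ := exists_mu hζ
  obtain ⟨i4, d4⟩ := index_inf H1 H2 i1 d1 i2 d2
  obtain ⟨i5, d5⟩ := index_inf (H1 ⊓ H2) H3 i4 d4 i3 d3
  refine ⟨H1 ⊓ H2 ⊓ H3, inferInstance, ?_, i5, d5, fun h hh => r3 h hh.2, fun h hh => r1 h hh.1.1,
    fun h hh => r2 h hh.1.2⟩
  rw [Subgroup.coe_inf, Subgroup.coe_inf]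
  exact (o1.inter o2).inter o3

/-! ### finite modules -/

theorem card_dual (M : Type) [AddCommGroup M] [Module (ZMod p) M] [Finite M] :
    Nat.card (M →ₗ[ZMod p] ZMod p) = Nat.card M := by
  have h1 : Nat.card M = Nat.card (ZMod p) ^ Module.finrank (ZMod p) M :=
    Module.natCard_eq_pow_finrank
  have h2 : Nat.card (M →ₗ[ZMod p] ZMod p) =
      Nat.card (ZMod p) ^ Module.finrank (ZMod p) (M →ₗ[ZMod p] ZMod p) :=
    Module.natCard_eq_pow_finrank
  have h3 : Module.finrank (ZMod p) (M →ₗ[ZMod p] ZMod p) = Module.finrank (ZMod p) M :=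
    Subspace.dual_finrank_eq
  rw [h1, h2, h3]

theorem card_hom (M : Type) [AddCommGroup M] [Finite M] (hM : ∀ m : M, p • m = 0) :
    Nat.card (M →+ ZMod p) = Nat.card M := by
  let _ : Module (ZMod p) M := AddCommGroup.zmodModule hM
  rw [← card_dual (p := p) M]
  exact Nat.card_congr
    { toFun := fun f => f.toZModLinearMap p
      invFun := fun g => g.toAddMonoidHom
      left_inv := fun f => rfl
      right_inv := fun g => rfl }

theorem exists_inv {d : ℕ} (hd : ¬ p ∣ d) : ∃ e : ℕ, ∀ (M : Type) [AddCommGroup M],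
    (∀ m : M, p • m = 0) → ∀ n : M, e • (d • n) = n := by
  obtain ⟨e, he⟩ : ∃ e : ℕ, (e * d) ≡ 1 [MOD p] := by
    have hc : Nat.Coprime d p := ((Nat.Prime.coprime_iff_not_dvd hp.out).2 hd).symm
    obtain ⟨e, -, he⟩ := Nat.exists_mul_mod_eq_one_of_coprime hc hp.out.one_lt
    refine ⟨e, ?_⟩
    rw [Nat.ModEq, mul_comm, he, Nat.mod_eq_of_lt hp.out.one_lt]
  refine ⟨e, fun M _ hM n => ?_⟩
  rw [smul_smul]
  obtain ⟨k, hk⟩ := (Nat.modEq_iff_dvd.1 he.symm : (p : ℤ) ∣ _)
  have h1 : ((e * d : ℕ) : ℤ) = 1 + p * k := by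
    push_cast at hk ⊢
    linarith
  have h2 : (e * d) • n = ((e * d : ℕ) : ℤ) • n := (natCast_zsmul _ _).symm
  rw [h2, h1, add_zsmul, one_zsmul, mul_comm, mul_zsmul, natCast_zsmul, hM, smul_zero,
    add_zero]

section Inv

variable {Δ : Type*} [Group Δ] [Finite Δ] {M : Type} [AddCommGroup M] [Finite M]
  (ρ : Δ →* AddMonoid.End M)

/-- the invariants -/
def Iv : AddSubgroup M where
  carrier := {m | ∀ d, ρ d m = m}
  add_mem' := by
    intro a b ha hb d
    rw [map_add, ha d, hb d]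
  zero_mem' := fun d => map_zero _
  neg_mem' := by
    intro a ha d
    rw [map_neg, ha d]

theorem card_inv (hM : ∀ m : M, p • m = 0) (hΔ : ¬ p ∣ Nat.card Δ) :
    Nat.card {f : M →+ ZMod p // ∀ d n, f (ρ d n) = f n} = Nat.card (Iv ρ) := by
  have : Fintype Δ := Fintype.ofFinite Δ
  obtain ⟨e, he⟩ := exists_inv hΔ
  have hact : ∀ d d' m, ρ d (ρ d' m) = ρ (d * d') m := by
    intro d d' m
    rw [map_mul]
    rfl
  let avg : M →+ Iv ρ :=
    { toFun := fun m => ⟨e • ∑ d, ρ d m, by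
        intro d'
        rw [map_nsmul, map_sum]
        simp only [hact]
        congr 1
        exact Equiv.sum_comp (Equiv.mulLeft d') (fun d => ρ d m)⟩
      map_zero' := by
        apply Subtype.ext
        simp
      map_add' := by
        intro x y
        apply Subtype.ext
        simp [Finset.sum_add_distrib] }
  have havg : ∀ m : Iv ρ, avg m = m := by
    intro m
    apply Subtype.ext
    change e • ∑ d, ρ d (m : M) = m
    have h1 : ∑ d, ρ d (m : M) = Nat.card Δ • (m : M) := by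
      rw [Finset.sum_congr rfl fun d _ => m.2 d, Finset.sum_const, Finset.card_univ,
        Nat.card_eq_fintype_card]
    rw [h1, he M hM]
  have havg2 : ∀ d m, avg (ρ d m) = avg m := by
    intro d' m
    apply Subtype.ext
    change e • ∑ d, ρ d (ρ d' m) = e • ∑ d, ρ d m
    simp only [hact]
    congr 1
    exact Equiv.sum_comp (Equiv.mulRight d') (fun d => ρ d m)
  have E : {f : M →+ ZMod p // ∀ d n, f (ρ d n) = f n} ≃ (Iv ρ →+ ZMod p) :=
    { toFun := fun f => f.1.comp (Iv ρ).subtype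
      invFun := fun g => ⟨g.comp avg, fun d n => by
        rw [AddMonoidHom.comp_apply, AddMonoidHom.comp_apply, havg2]⟩
      left_inv := by
        rintro ⟨f, hf⟩
        apply Subtype.ext
        ext m
        change f (e • ∑ d, ρ d m) = f m
        rw [map_nsmul, map_sum, Finset.sum_congr rfl fun d _ => hf d m, Finset.sum_const,
          Finset.card_univ, ← Nat.card_eq_fintype_card]
        exact he (ZMod p) (fun m => by rw [nsmul_eq_mul, CharP.cast_eq_zero, zero_mul]) _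
      right_inv := by
        intro g
        ext m
        change g (avg m) = g m
        rw [havg] }
  rw [Nat.card_congr E]
  exact card_hom _ fun m => Subtype.ext (hM m)

end Inv

/-! ### the abstract Kummer description -/

omit hp in
theorem card_kum {FF Δ N' X : Type} [AddCommGroup FF] [Group Δ] [AddCommGroup N']
    [AddCommGroup X] (Z B : AddSubgroup FF) (ρ : Δ →* AddMonoid.End N')
    (a : Δ →* AddMonoid.End X) (K : FF → N' → X → Prop)
    (h1 : ∀ x ∈ Z, ∀ n, ∃ c, K x n c)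
    (h2 : ∀ x ∈ Z, ∀ n c, K x n c → ∀ c', K x n c' ↔ c' - c ∈ PP p X)
    (h3 : ∀ x ∈ Z, ∀ n m c c', K x n c → K x m c' → K x (n + m) (c + c'))
    (h4 : ∀ x ∈ Z, ∀ n c d, K x n c → K x (ρ d n) (a d c))
    (h5 : ∀ x ∈ Z, ∀ y ∈ Z, ∀ n c c', K x n c → K y n c' → K (x + y) n (c + c'))
    (h6 : ∀ x ∈ Z, (∀ n, K x n 0) ↔ x ∈ B)
    (h7 : ∀ A : N' → X, (∀ n m, A (n + m) - (A n + A m) ∈ PP p X) →
      (∀ d n, A (ρ d n) - a d (A n) ∈ PP p X) → ∃ x ∈ Z, ∀ n, K x n (A n)) :
    B.relIndex Z = hq p ρ a := by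
  have key : ∀ x ∈ Z, ∀ n c c', K x n c → K x n c' →
      (QuotientAddGroup.mk c : X ⧸ PP p X) = QuotientAddGroup.mk c' := by
    intro x hx n c c' hc hc'
    rw [QuotientAddGroup.eq, neg_add_eq_sub]
    exact (h2 x hx n c hc c').1 hc'
  choose F hF using h1
  let Φ : Z →+ (N' →+ X ⧸ PP p X) :=
    { toFun := fun x =>
        { toFun := fun n => QuotientAddGroup.mk (F x x.2 n)
          map_zero' := by
            have e := h3 x x.2 0 0 _ _ (hF x x.2 0) (hF x x.2 0)
            rw [add_zero] at e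
            have e2 := key x x.2 0 _ _ e (hF x x.2 0)
            rw [QuotientAddGroup.mk_add] at e2
            exact left_eq_add.mp e2.symm
          map_add' := by
            intro n m
            rw [← QuotientAddGroup.mk_add]
            exact key x x.2 _ _ _ (hF x x.2 (n + m)) (h3 x x.2 n m _ _ (hF x x.2 n) (hF x x.2 m)) }
      map_zero' := by
        ext n
        change (QuotientAddGroup.mk (F _ _ n) : X ⧸ PP p X) = 0
        have e := h5 _ (0 : Z).2 _ (0 : Z).2 n _ _ (hF _ (0 : Z).2 n) (hF _ (0 : Z).2 n)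
        have e0 : ((0 : Z) : FF) + ((0 : Z) : FF) = ((0 : Z) : FF) := by simp
        rw [e0] at e
        have e2 := key _ (0 : Z).2 n _ _ e (hF _ (0 : Z).2 n)
        rw [QuotientAddGroup.mk_add] at e2
        exact left_eq_add.mp e2.symm
      map_add' := by
        intro x y
        ext n
        change (QuotientAddGroup.mk (F _ _ n) : X ⧸ PP p X) =
          QuotientAddGroup.mk (F _ _ n) + QuotientAddGroup.mk (F _ _ n)
        rw [← QuotientAddGroup.mk_add]
        exact key _ (x + y).2 n _ _ (hF _ (x + y).2 n)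
          (h5 _ x.2 _ y.2 n _ _ (hF _ x.2 n) (hF _ y.2 n)) }
  have hΦ : ∀ (x : Z) n, Φ x n = QuotientAddGroup.mk (F x x.2 n) := fun x n => rfl
  have hker : Φ.ker = B.addSubgroupOf Z := by
    ext x
    rw [AddMonoidHom.mem_ker, AddSubgroup.mem_addSubgroupOf, ← h6 x x.2]
    constructor
    · intro h n
      have h8 : Φ x n = 0 := by rw [h]; rfl
      rw [hΦ, QuotientAddGroup.eq_zero_iff] at h8
      rw [h2 x x.2 n _ (hF x x.2 n) 0, zero_sub]
      exact neg_mem h8
    · intro h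
      ext n
      rw [hΦ]
      change _ = (0 : X ⧸ PP p X)
      rw [← QuotientAddGroup.mk_zero]
      exact key x x.2 n _ _ (hF x x.2 n) (h n)
  have hran : (Φ.range : Set (N' →+ X ⧸ PP p X)) = {f | ∀ d n x, f n = QuotientAddGroup.mk x →
      f (ρ d n) = QuotientAddGroup.mk (a d x)} := by
    ext f
    constructor
    · rintro ⟨x, rfl⟩ d n c hc
      rw [hΦ] at hc ⊢
      have h8 : K x n c := by
        rw [h2 x x.2 n _ (hF x x.2 n) c, ← neg_add_eq_sub, ← QuotientAddGroup.eq]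
        exact hc
      exact key x x.2 _ _ _ (hF x x.2 _) (h4 x x.2 n c d h8)
    · intro hf
      choose A hA using fun n => QuotientAddGroup.mk_surjective (f n)
      have e1 : ∀ n m, A (n + m) - (A n + A m) ∈ PP p X := by
        intro n m
        rw [← neg_add_eq_sub, ← QuotientAddGroup.eq, QuotientAddGroup.mk_add, hA, hA, hA, map_add]
      have e2 : ∀ d n, A (ρ d n) - a d (A n) ∈ PP p X := by
        intro d n
        rw [← neg_add_eq_sub, ← QuotientAddGroup.eq, hA]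
        exact (hf d n (A n) (hA n).symm).symm
      obtain ⟨x, hx, hK⟩ := h7 A e1 e2
      refine ⟨⟨x, hx⟩, ?_⟩
      ext n
      rw [hΦ, ← hA n]
      exact key x hx n _ _ (hF x hx n) (hK n)
  have h9 : B.relIndex Z = Nat.card Φ.range := by
    rw [AddSubgroup.relIndex, ← hker, AddSubgroup.index_ker]
  rw [h9, hq]
  exact Nat.card_congr (Equiv.setCongr hran)

/-! ### products -/

section Prod

variable {Δ N X Y : Type} [Group Δ] [AddCommGroup N] [AddCommGroup X] [AddCommGroup Y]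
  (ρ : Δ →* AddMonoid.End N) (a : Δ →* AddMonoid.End X) (b : Δ →* AddMonoid.End Y)

/-- the action on a product -/
def pr : Δ →* AddMonoid.End (X × Y) where
  toFun d := AddMonoidHom.prodMap (a d) (b d)
  map_one' := by
    rw [map_one, map_one]
    ext x <;> rfl
  map_mul' d d' := by
    rw [map_mul, map_mul]
    ext x <;> rfl

theorem pr_apply (d : Δ) (x : X × Y) : pr a b d x = (a d x.1, b d x.2) := rfl

theorem ht_prod : ht ρ (pr a b) = ht ρ a * ht ρ b := by
  rw [ht, ht, ht, ← Nat.card_prod]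
  exact Nat.card_congr
    { toFun := fun f => (⟨(AddMonoidHom.fst X Y).comp f.1, fun d n => by
          change (f.1 (ρ d n)).1 = a d (f.1 n).1
          rw [f.2, pr_apply]⟩, ⟨(AddMonoidHom.snd X Y).comp f.1, fun d n => by
          change (f.1 (ρ d n)).2 = b d (f.1 n).2
          rw [f.2, pr_apply]⟩)
      invFun := fun g => ⟨g.1.1.prod g.2.1, fun d n => by
          change (g.1.1 (ρ d n), g.2.1 (ρ d n)) = (a d (g.1.1 n), b d (g.2.1 n))
          rw [g.1.2, g.2.2]⟩
      left_inv := fun f => rfl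
      right_inv := fun g => rfl }

theorem hq_eq (p : ℕ) {Q : Type} [AddCommGroup Q] (π : X →+ Q) (hπ : Function.Surjective π)
    (hk : ∀ x, π x = 0 ↔ x ∈ PP p X) (q : Δ →* AddMonoid.End Q)
    (hq' : ∀ d x, π (a d x) = q d (π x)) : hq p ρ a = ht ρ q := by
  have hle : PP p X ≤ π.ker := fun x hx => (hk x).2 hx
  let π' : X ⧸ PP p X →+ Q := QuotientAddGroup.lift (PP p X) π hle
  have hπ' : ∀ x, π' (QuotientAddGroup.mk x) = π x := fun x => rfl
  have hbij : Function.Bijective π' := by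
    constructor
    · rw [injective_iff_map_eq_zero]
      intro x hx
      obtain ⟨x, rfl⟩ := QuotientAddGroup.mk_surjective x
      rw [hπ', hk] at hx
      exact (QuotientAddGroup.eq_zero_iff x).2 hx
    · intro y
      obtain ⟨x, rfl⟩ := hπ y
      exact ⟨QuotientAddGroup.mk x, rfl⟩
  let E : X ⧸ PP p X ≃+ Q := AddEquiv.ofBijective π' hbij
  have hE : ∀ x, E (QuotientAddGroup.mk x) = π x := fun x => rfl
  rw [hq, ht]
  exact Nat.card_congr
    { toFun := fun f => ⟨E.toAddMonoidHom.comp f.1, fun d n => by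
          obtain ⟨x, hx⟩ := QuotientAddGroup.mk_surjective (f.1 n)
          change E (f.1 (ρ d n)) = q d (E (f.1 n))
          rw [f.2 d n x hx.symm, ← hx, hE, hE, hq']⟩
      invFun := fun g => ⟨E.symm.toAddMonoidHom.comp g.1, fun d n x hx => by
          change E.symm (g.1 (ρ d n)) = _
          change E.symm (g.1 n) = _ at hx
          rw [AddEquiv.symm_apply_eq] at hx ⊢
          rw [g.2, hx, hE, hE, hq']⟩
      left_inv := fun f => by
        apply Subtype.ext
        ext n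
        exact E.symm_apply_apply _
      right_inv := fun g => by
        apply Subtype.ext
        ext n
        exact E.apply_symm_apply _ }

theorem mem_PP (p : ℕ) (x : X) : x ∈ PP p X ↔ ∃ y, p • y = x := Iff.rfl

/-- the action on the quotient by `p` -/
def aq (p : ℕ) : Δ →* AddMonoid.End (X ⧸ PP p X) where
  toFun d := QuotientAddGroup.map (PP p X) (PP p X) (a d) (by
    rintro x ⟨y, rfl⟩
    exact ⟨a d y, (map_nsmul (a d) p y).symm⟩)
  map_one' := by
    refine DFunLike.ext _ _ fun x => ?_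
    obtain ⟨x, rfl⟩ := QuotientAddGroup.mk_surjective x
    change (QuotientAddGroup.mk (a 1 x) : X ⧸ PP p X) = _
    rw [map_one]
    rfl
  map_mul' d d' := by
    refine DFunLike.ext _ _ fun x => ?_
    obtain ⟨x, rfl⟩ := QuotientAddGroup.mk_surjective x
    change (QuotientAddGroup.mk (a (d * d') x) : X ⧸ PP p X) = _
    rw [map_mul]
    rfl

theorem hq_aq (p : ℕ) : hq p ρ a = ht ρ (aq a p) :=
  hq_eq ρ a p (QuotientAddGroup.mk' (PP p X)) (QuotientAddGroup.mk'_surjective _)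
    (fun x => QuotientAddGroup.eq_zero_iff x) _ fun _ _ => rfl

theorem hq_prod (p : ℕ) : hq p ρ (pr a b) = hq p ρ a * hq p ρ b := by
  rw [hq_aq ρ a p, hq_aq ρ b p, ← ht_prod]
  refine hq_eq ρ (pr a b) p (AddMonoidHom.prodMap (QuotientAddGroup.mk' (PP p X))
    (QuotientAddGroup.mk' (PP p Y))) ?_ ?_ _ fun d x => rfl
  · rintro ⟨x, y⟩
    obtain ⟨x, rfl⟩ := QuotientAddGroup.mk_surjective x
    obtain ⟨y, rfl⟩ := QuotientAddGroup.mk_surjective y
    exact ⟨(x, y), rfl⟩
  · rintro ⟨x, y⟩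
    rw [AddMonoidHom.coe_prodMap, Prod.map_apply, Prod.mk_eq_zero, QuotientAddGroup.mk'_apply,
      QuotientAddGroup.mk'_apply, QuotientAddGroup.eq_zero_iff, QuotientAddGroup.eq_zero_iff,
      mem_PP, mem_PP, mem_PP]
    constructor
    · rintro ⟨⟨x', rfl⟩, y', rfl⟩
      exact ⟨(x', y'), rfl⟩
    · rintro ⟨⟨x', y'⟩, h⟩
      exact ⟨⟨x', congrArg Prod.fst h⟩, y', congrArg Prod.snd h⟩

theorem finite_prod (p : ℕ) (h1 : Finite (X ⧸ PP p X)) (h2 : Finite (Y ⧸ PP p Y)) :
    Finite ((X × Y) ⧸ PP p (X × Y)) := by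
  refine Finite.of_injective (fun z => (QuotientAddGroup.map (PP p (X × Y)) (PP p X)
    (AddMonoidHom.fst X Y) (by
      rintro x ⟨y, rfl⟩
      exact ⟨y.1, rfl⟩) z, QuotientAddGroup.map (PP p (X × Y)) (PP p Y)
    (AddMonoidHom.snd X Y) (by
      rintro x ⟨y, rfl⟩
      exact ⟨y.2, rfl⟩) z)) fun z w h => ?_
  obtain ⟨z, rfl⟩ := QuotientAddGroup.mk_surjective z
  obtain ⟨w, rfl⟩ := QuotientAddGroup.mk_surjective w
  have h3 : (QuotientAddGroup.mk z.1 : X ⧸ PP p X) = QuotientAddGroup.mk w.1 :=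
    congrArg Prod.fst h
  have h4 : (QuotientAddGroup.mk z.2 : Y ⧸ PP p Y) = QuotientAddGroup.mk w.2 :=
    congrArg Prod.snd h
  rw [QuotientAddGroup.eq, mem_PP] at h3 h4 ⊢
  obtain ⟨a, ha⟩ := h3
  obtain ⟨b, hb⟩ := h4
  exact ⟨(a, b), Prod.ext ha hb⟩

omit hp in
theorem hq_int [hp : Fact p.Prime] [Finite Δ] [Finite N] (hN : ∀ n : N, p • n = 0)
    (hΔ : ¬ p ∣ Nat.card Δ) :
    hq p ρ (1 : Δ →* AddMonoid.End ℤ) = Nat.card (Iv ρ) := by
  rw [hq_eq ρ (1 : Δ →* AddMonoid.End ℤ) p (Int.castAddHom (ZMod p)) (ZMod.intCast_surjective) ?_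
    (1 : Δ →* AddMonoid.End (ZMod p)) fun d x => rfl, ht]
  · exact card_inv ρ hN hΔ
  · intro x
    rw [mem_PP, Int.coe_castAddHom, ZMod.intCast_zmod_eq_zero_iff_dvd]
    constructor
    · rintro ⟨c, hc⟩
      exact ⟨c, by rw [hc, nsmul_eq_mul]⟩
    · rintro ⟨c, hc⟩
      exact ⟨c, by rw [← hc, nsmul_eq_mul]⟩

theorem ht_one [Finite N] {p : ℕ} (hN : ∀ n : N, p • n = 0) (hX : ∀ x : X, p • x = 0 → x = 0) :
    ht ρ a = 1 := by
  have : Subsingleton {f : N →+ X // ∀ d n, f (ρ d n) = a d (f n)} := by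
    refine ⟨fun f g => ?_⟩
    apply Subtype.ext
    ext n
    rw [hX (f.1 n) (by rw [← map_nsmul, hN, map_zero]),
      hX (g.1 n) (by rw [← map_nsmul, hN, map_zero])]
  have h0 : Nonempty {f : N →+ X // ∀ d n, f (ρ d n) = a d (f n)} :=
    ⟨⟨0, fun d n => by simp⟩⟩
  exact Nat.card_of_subsingleton h0.some

theorem hq_one {p : ℕ} (hX : ∀ x : X, ∃ y, p • y = x) : hq p ρ a = 1 := by
  have hX' : Subsingleton (X ⧸ PP p X) := by
    refine ⟨fun x y => ?_⟩
    obtain ⟨x, rfl⟩ := QuotientAddGroup.mk_surjective x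
    obtain ⟨y, rfl⟩ := QuotientAddGroup.mk_surjective y
    rw [QuotientAddGroup.eq]
    exact hX _
  rw [hq_aq, ht]
  have : Subsingleton {f : N →+ X ⧸ PP p X // ∀ d n, f (ρ d n) = aq a p d (f n)} := by
    refine ⟨fun f g => ?_⟩
    apply Subtype.ext
    ext n
    exact Subsingleton.elim _ _
  have h0 : Nonempty {f : N →+ X ⧸ PP p X // ∀ d n, f (ρ d n) = aq a p d (f n)} :=
    ⟨⟨0, fun d n => Subsingleton.elim _ _⟩⟩
  exact Nat.card_of_subsingleton h0.some

end Prod

/-! ### the group acting on units -/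

section Units

variable (H : Subgroup (GQ l))

/-- the action of the Galois group on units -/
def um (g : GQ l) : (PadicAlgCl l)ˣ →* (PadicAlgCl l)ˣ :=
  Units.map ((g : PadicAlgCl l ≃ₐ[ℚ_[l]] PadicAlgCl l) : PadicAlgCl l →* PadicAlgCl l)

omit hp in
theorem um_val (g : GQ l) (x : (PadicAlgCl l)ˣ) : ((um g x : (PadicAlgCl l)ˣ) : PadicAlgCl l) =
    g (x : PadicAlgCl l) := rfl

/-- a group of units which is stable under the Galois group and fixed by `H` -/
structure Stb (W : Subgroup (PadicAlgCl l)ˣ) : Prop where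
  st : ∀ g : GQ l, ∀ x ∈ W, um g x ∈ W
  fx : ∀ x ∈ W, ∀ h ∈ H, h (x : PadicAlgCl l) = x

variable {H} {W : Subgroup (PadicAlgCl l)ˣ}

/-- the action of the Galois group on `W` -/
def act1 (hW : Stb H W) : GQ l →* AddMonoid.End (Additive W) where
  toFun g := MonoidHom.toAdditive (((um g).comp W.subtype).codRestrict W fun x => hW.st g x x.2)
  map_one' := by
    ext x
    rfl
  map_mul' g h := by
    ext x
    rfl

variable [H.Normal]

/-- the action of the quotient on `W` -/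
def act2 (hW : Stb H W) : GQ l ⧸ H →* AddMonoid.End (Additive W) :=
  QuotientGroup.lift H (act1 hW) (by
    intro h hh
    refine DFunLike.ext _ _ fun x => ?_
    apply Additive.toMul.injective
    apply Subtype.ext
    apply Units.ext
    exact hW.fx _ (Additive.toMul x).2 h hh)

omit hp in
theorem act2_val (hW : Stb H W) (g : GQ l) (x : Additive W) :
    (((Additive.toMul (act2 hW (g : GQ l ⧸ H) x) : W) : (PadicAlgCl l)ˣ) : PadicAlgCl l) =
      g (((Additive.toMul x : W) : (PadicAlgCl l)ˣ) : PadicAlgCl l) := rfl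

variable (H) in
omit [H.Normal] in
/-- the units of the field fixed by `H` -/
def SS : Subgroup (PadicAlgCl l)ˣ where
  carrier := {x | ∀ h ∈ H, h (x : PadicAlgCl l) = x}
  mul_mem' := by
    intro x y hx hy h hh
    rw [Units.val_mul, map_mul, hx h hh, hy h hh]
  one_mem' := fun h _ => map_one _
  inv_mem' := by
    intro x hx h hh
    rw [Units.val_inv_eq_inv_val, map_inv₀, hx h hh]

omit hp [H.Normal] in
theorem mem_SS {x : (PadicAlgCl l)ˣ} : x ∈ SS H ↔ ∀ h ∈ H, h (x : PadicAlgCl l) = x := Iff.rfl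

omit hp in
theorem fx_st {g : GQ l} {x : PadicAlgCl l} (hx : ∀ h ∈ H, h x = x) :
    ∀ h ∈ H, h (g x) = g x := by
  intro h hh
  have h1 : g⁻¹ * h * g ∈ H := by
    have := ‹H.Normal›.conj_mem h hh g⁻¹
    rwa [inv_inv] at this
  have h2 : h (g x) = g ((g⁻¹ * h * g) x) := by
    have h3 : h * g = g * (g⁻¹ * h * g) := by group
    exact DFunLike.congr_fun h3 x
  rw [h2, hx _ h1]

omit hp in
theorem stb_SS : Stb H (SS H) where
  st := fun _ _ hx => mem_SS.2 (fx_st (mem_SS.1 hx))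
  fx := fun _ hx => hx

theorem card_H1 (h1 : StKH) (hH : IsOpen (H : Set (GQ l))) (hpH : ¬ p ∣ H.index)
    {ζ : PadicAlgCl l} (hζ : IsPrimitiveRoot ζ p) (hζH : ∀ h ∈ H, h ζ = ζ)
    {N N' : Type} [AddCommGroup N] [AddCommGroup N'] [Finite N] [Finite N']
    {ρ : GQ l →* AddMonoid.End N} {ρ' : GQ l →* AddMonoid.End N'} {b : N →+ N' →+ QZ p}
    (hN : ∀ n : N, p • n = 0) (hN' : ∀ n : N', p • n = 0) (hb : Pair (cyL p l) ρ ρ' b)
    (hρ : ∀ h ∈ H, ρ h = 1) (hρ' : ∀ h ∈ H, ρ' h = 1) :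
    (BKND.B1 ρ).relIndex (BKND.Z1 ρ) =
      hq p (QuotientGroup.lift H ρ' hρ') (act2 (stb_SS (H := H))) := by
  set KR : (GQ l → N) → N' → PadicAlgCl l → Prop := fun x n' a => a ≠ 0 ∧
    (∀ h ∈ H, (MonoidHom.id (GQ l)) h a = a) ∧
      ∃ κ : H → ZMod p, IsKum ((MonoidHom.id (GQ l)).comp H.subtype) ζ a κ ∧
        ∀ h : H, b (x h) n' = cl p (((κ h).val : ℚ_[p]) / p) with hKR
  obtain ⟨k1, k2, k3, k4, k5, k6, k7⟩ := h1 p ℚ_[l] (PadicAlgCl l) (GQ l) (MonoidHom.id (GQ l))
    Topology.IsOpenEmbedding.id ζ hζ H inferInstance hH hpH hζH N N' ρ ρ' b hN hN' hb hρ KR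
    (fun _ _ _ => Iff.rfl)
  have hne : ∀ {x n' a}, KR x n' a → a ≠ 0 := fun h => h.1
  have hfx : ∀ {x n' a}, KR x n' a → ∀ h ∈ H, h a = a := fun h => h.2.1
  have hpp : ∀ c c' : Additive (SS H), (∃ d : PadicAlgCl l, d ≠ 0 ∧ (∀ h ∈ H, h d = d) ∧
      (((Additive.toMul c' : SS H) : (PadicAlgCl l)ˣ) : PadicAlgCl l) =
        ((Additive.toMul c : SS H) : (PadicAlgCl l)ˣ) * d ^ p) ↔
      c' - c ∈ PP p (Additive (SS H)) := by
    intro c c'
    rw [mem_PP]
    constructor
    · rintro ⟨d, hd, hd', e⟩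
      refine ⟨Additive.ofMul ⟨Units.mk0 d hd, hd'⟩, ?_⟩
      rw [eq_sub_iff_add_eq']
      apply Additive.toMul.injective
      apply Subtype.ext
      apply Units.ext
      exact e.symm
    · rintro ⟨d, hd⟩
      refine ⟨((Additive.toMul d : SS H) : (PadicAlgCl l)ˣ), Units.ne_zero _,
        (Additive.toMul d).2, ?_⟩
      rw [eq_sub_iff_add_eq'] at hd
      rw [← hd]
      rfl
  refine card_kum (BKND.Z1 ρ) (BKND.B1 ρ) _ _
    (fun x n' (c : Additive (SS H)) => KR x n' ((Additive.toMul c : SS H) : (PadicAlgCl l)ˣ))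
    ?_ ?_ ?_ ?_ ?_ ?_ ?_
  · intro x hx n'
    obtain ⟨a, ha⟩ := k1 x hx n'
    exact ⟨Additive.ofMul ⟨Units.mk0 a (hne ha), hfx ha⟩, ha⟩
  · intro x hx n' c hc c'
    rw [k2 x hx n' _ hc, ← hpp]
    rfl
  · intro x hx n' m' c c' hc hc'
    exact k3 x hx n' m' _ _ hc hc'
  · intro x hx n' c d hc
    obtain ⟨v, rfl⟩ := QuotientGroup.mk_surjective d
    exact k4 x hx n' _ v hc
  · intro x hx y hy n' c c' hc hc'
    exact k5 x hx y hy n' _ _ hc hc'
  · intro x hx
    exact k6 x hx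
  · intro A hA1 hA2
    refine k7 (fun n' => ((Additive.toMul (A n') : SS H) : (PadicAlgCl l)ˣ))
      (fun n' => ⟨Units.ne_zero _, (Additive.toMul (A n')).2⟩) (fun n' m' => ?_) fun v n' => ?_
    · obtain ⟨d, -, hd, e⟩ := (hpp _ _).2 (hA1 n' m')
      exact ⟨d, hd, e⟩
    · obtain ⟨d, -, hd, e⟩ := (hpp _ _).2 (hA2 (QuotientGroup.mk v) n')
      exact ⟨d, hd, e⟩

end Units

/-! ### norms -/

section Nrm

omit hp in
theorem norm_gal (g : GQ l) (x : PadicAlgCl l) : ‖g x‖ = ‖x‖ :=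
  (spectralNorm_eq_of_equiv g x).symm

omit hp in
theorem norm_one_of_sub {x : PadicAlgCl l} (h : ‖x - 1‖ < 1) : ‖x‖ = 1 := by
  have h1 : ‖(x - 1) + 1‖ = max ‖x - 1‖ ‖(1 : PadicAlgCl l)‖ :=
    IsUltrametricDist.norm_add_eq_max_of_norm_ne_norm (by rw [norm_one]; exact h.ne)
  rw [sub_add_cancel, norm_one] at h1
  rw [h1, max_eq_right h.le]

omit hp in
theorem norm_l : ‖(l : PadicAlgCl l)‖ = (l : ℝ)⁻¹ := by
  have h1 : ‖algebraMap ℚ_[l] (PadicAlgCl l) (l : ℚ_[l])‖ = ‖(l : ℚ_[l])‖ :=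
    PadicAlgCl.norm_extends l (l : ℚ_[l])
  rw [Padic.norm_p, map_natCast] at h1
  exact h1

omit hp in
theorem norm_zpow_inj {m : ℤ} (h : ‖(l : PadicAlgCl l) ^ m‖ = 1) : m = 0 := by
  rw [norm_zpow, norm_l, inv_zpow, inv_eq_one, zpow_eq_one_iff_right₀ (Nat.cast_nonneg _)] at h
  · exact h
  · have := (Fact.out : l.Prime).one_lt
    exact_mod_cast this.ne'

end Nrm

section Main

variable {H : Subgroup (GQ l)} [H.Normal] {N' : Type} [AddCommGroup N'] [Finite N']

omit hp in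
theorem l_ne : (l : PadicAlgCl l) ≠ 0 := by
  exact_mod_cast (Fact.out : l.Prime).ne_zero

/-- the element `l` -/
def ul : (PadicAlgCl l)ˣ := Units.mk0 (l : PadicAlgCl l) l_ne

omit hp in
theorem ul_val : ((ul : (PadicAlgCl l)ˣ) : PadicAlgCl l) = l := rfl

omit hp in
theorem ul_fix (g : GQ l) : g ((ul : (PadicAlgCl l)ˣ) : PadicAlgCl l) =
    ((ul : (PadicAlgCl l)ˣ) : PadicAlgCl l) := by
  rw [ul_val, map_natCast]

theorem main (h2 : StEig) (hi : H.index ≠ 0) (hpH : ¬ p ∣ H.index)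
    (hN' : ∀ n : N', p • n = 0) (ρ' : GQ l ⧸ H →* AddMonoid.End N')
    {U : Subgroup (PadicAlgCl l)ˣ} (hU : Stb H U)
    (hU1 : ∀ v ∈ U, ‖(v : PadicAlgCl l)‖ = 1)
    (hS : ∃ S : Set (PadicAlgCl l)ˣ, S.Finite ∧ ∀ x : (PadicAlgCl l)ˣ,
        (∀ h ∈ H, h (x : PadicAlgCl l) = x) → ∃ s ∈ S, ∃ v ∈ U, ∃ m : ℤ,
        (x : PadicAlgCl l) = s * v * (l : PadicAlgCl l) ^ m)
    (ht' : ∀ v ∈ U, v ^ p = 1 → v = 1) (hf : Finite (Additive U ⧸ PP p (Additive U))) :
    hq p ρ' (act2 (stb_SS (H := H))) =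
      hq p ρ' (act2 hU) * Nat.card (Iv ρ') * ht ρ' (act2 (stb_SS (H := H))) := by
  have hfinΔ : Finite (GQ l ⧸ H) := Nat.finite_of_card_ne_zero hi
  have hcard : ¬ p ∣ Nat.card (GQ l ⧸ H) := hpH
  have hle : U ≤ SS H := fun x hx => mem_SS.2 (hU.fx x hx)
  have hul : ul ∈ SS H := mem_SS.2 fun h _ => ul_fix h
  let i : Additive U × ℤ →+ Additive (SS H) :=
    AddMonoidHom.coprod (MonoidHom.toAdditive (Subgroup.inclusion hle))
      (zmultiplesHom (Additive (SS H)) (Additive.ofMul ⟨ul, hul⟩))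
  have hiv : ∀ y : Additive U × ℤ, (((Additive.toMul (i y) : SS H) : (PadicAlgCl l)ˣ) :
      PadicAlgCl l) = ((Additive.toMul y.1 : U) : (PadicAlgCl l)ˣ) *
        (l : PadicAlgCl l) ^ y.2 := by
    intro y
    change ((((Subgroup.inclusion hle (Additive.toMul y.1) : SS H) *
      (⟨ul, hul⟩ : SS H) ^ y.2 : SS H) : (PadicAlgCl l)ˣ) : PadicAlgCl l) = _
    rw [Subgroup.coe_mul, Subgroup.coe_zpow, Units.val_mul, Units.val_zpow_eq_zpow_val]
    rfl
  have hi1 : Function.Injective i := by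
    rw [injective_iff_map_eq_zero]
    rintro ⟨v, m⟩ h
    have h3 := hiv (v, m)
    rw [h] at h3
    change (1 : PadicAlgCl l) = _ at h3
    have h4 := congrArg norm h3
    rw [norm_one, norm_mul, hU1 _ (Additive.toMul v).2, one_mul] at h4
    have h5 := norm_zpow_inj h4.symm
    simp only at h5
    subst h5
    rw [zpow_zero, mul_one] at h3
    refine Prod.ext ?_ rfl
    apply Additive.toMul.injective
    apply Subtype.ext
    apply Units.ext
    exact h3.symm
  have hi2 : ∀ d y, i (pr (act2 hU) (1 : GQ l ⧸ H →* AddMonoid.End ℤ) d y) =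
      act2 (stb_SS (H := H)) d (i y) := by
    rintro d ⟨v, m⟩
    obtain ⟨g, rfl⟩ := QuotientGroup.mk_surjective d
    apply Additive.toMul.injective
    apply Subtype.ext
    apply Units.ext
    rw [act2_val, hiv, hiv, map_mul, map_zpow₀, map_natCast]
    rfl
  have hi3 : i.range.index ≠ 0 := by
    obtain ⟨S, hSf, hS⟩ := hS
    classical
    have hfs : Finite S := hSf
    have hfin : Finite (Additive (SS H) ⧸ i.range) := by
      refine Finite.of_surjective (fun s : S => if h : (s : (PadicAlgCl l)ˣ) ∈ SS H then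
        (QuotientAddGroup.mk (Additive.ofMul (⟨s, h⟩ : SS H)) : Additive (SS H) ⧸ i.range)
          else 0) fun x => ?_
      obtain ⟨x, rfl⟩ := QuotientAddGroup.mk_surjective x
      obtain ⟨s, hs, v, hv, m, e⟩ := hS ((Additive.toMul x : SS H) : (PadicAlgCl l)ˣ)
        (Additive.toMul x).2
      have hs' : s ∈ SS H := by
        have h3 : s = ((Additive.toMul x : SS H) : (PadicAlgCl l)ˣ) * v⁻¹ * (ul ^ m)⁻¹ := by
          rw [eq_mul_inv_iff_mul_eq, eq_mul_inv_iff_mul_eq]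
          apply Units.ext
          rw [e, Units.val_mul, Units.val_mul, Units.val_zpow_eq_zpow_val, ul_val]
          ring
        rw [h3]
        exact mul_mem (mul_mem (Additive.toMul x).2 (inv_mem (hle hv)))
          (inv_mem (zpow_mem hul m))
      refine ⟨⟨s, hs⟩, ?_⟩
      simp only [hs', dif_pos]
      rw [QuotientAddGroup.eq]
      refine ⟨(Additive.ofMul (⟨v, hv⟩ : U), m), ?_⟩
      rw [eq_neg_add_iff_add_eq]
      apply Additive.toMul.injective
      apply Subtype.ext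
      apply Units.ext
      change (s : PadicAlgCl l) * (((Additive.toMul (i (Additive.ofMul (⟨v, hv⟩ : U), m)) : SS H) :
        (PadicAlgCl l)ˣ) : PadicAlgCl l) = _
      rw [hiv, e]
      change (s : PadicAlgCl l) * ((v : PadicAlgCl l) * _) = _
      ring
    rw [AddSubgroup.index]
    exact Nat.card_pos.ne'
  have hY : ∀ y : Additive U × ℤ, p • y = 0 → y = 0 := by
    rintro ⟨v, m⟩ h
    have h3 : p • v = 0 := congrArg Prod.fst h
    have h4 : p • m = 0 := congrArg Prod.snd h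
    refine Prod.ext ?_ ?_
    · have h5 := ht' _ (Additive.toMul v).2 (congrArg (fun x : Additive U =>
        ((Additive.toMul x : U) : (PadicAlgCl l)ˣ)) h3)
      apply Additive.toMul.injective
      apply Subtype.ext
      exact h5
    · rw [nsmul_eq_mul, mul_eq_zero] at h4
      rcases h4 with h4 | h4
      · exact absurd h4 (by exact_mod_cast (Fact.out : p.Prime).ne_zero)
      · exact h4
  have hf2 : Finite (ℤ ⧸ PP p ℤ) := by
    have h3 : NeZero p := ⟨(Fact.out : p.Prime).ne_zero⟩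
    refine Finite.of_injective (QuotientAddGroup.lift (PP p ℤ) (Int.castAddHom (ZMod p)) ?_) ?_
    · rintro x ⟨y, rfl⟩
      change ((p • y : ℤ) : ZMod p) = 0
      rw [nsmul_eq_mul, Int.cast_mul, Int.cast_natCast, ZMod.natCast_self, zero_mul]
    · rw [injective_iff_map_eq_zero]
      intro x hx
      obtain ⟨x, rfl⟩ := QuotientAddGroup.mk_surjective x
      change ((x : ℤ) : ZMod p) = 0 at hx
      rw [ZMod.intCast_zmod_eq_zero_iff_dvd] at hx
      obtain ⟨c, hc⟩ := hx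
      rw [QuotientAddGroup.eq_zero_iff]
      exact ⟨c, by rw [hc]; exact nsmul_eq_mul _ _⟩
  have hf3 : Finite {x : Additive (SS H) // p • x = 0} := by
    have h3 : NeZero p := ⟨(Fact.out : p.Prime).ne_zero⟩
    have h4 : Finite (rootsOfUnity p (PadicAlgCl l)) := inferInstance
    refine Finite.of_injective (fun x : {x : Additive (SS H) // p • x = 0} =>
      (⟨((Additive.toMul x.1 : SS H) : (PadicAlgCl l)ˣ), by
        rw [mem_rootsOfUnity]
        exact congrArg (fun x : Additive (SS H) =>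
          ((Additive.toMul x : SS H) : (PadicAlgCl l)ˣ)) x.2⟩ :
        rootsOfUnity p (PadicAlgCl l))) fun x y h => ?_
    apply Subtype.ext
    apply Additive.toMul.injective
    apply Subtype.ext
    exact congrArg (fun z : rootsOfUnity p (PadicAlgCl l) => (z : (PadicAlgCl l)ˣ)) h
  obtain ⟨-, h3⟩ := h2 p (GQ l ⧸ H) hcard N' hN' ρ' (Additive (SS H)) (Additive U × ℤ)
    (act2 (stb_SS (H := H))) (pr (act2 hU) 1) i hi1 hi2 hi3 (finite_prod p hf hf2) hf3
  rw [ht_one ρ' _ hN' hY, mul_one, hq_prod, hq_int ρ' hN' hcard] at h3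
  exact h3

end Main

/-! ### the pairing -/

section Pairing

variable {N N' : Type} [AddCommGroup N] [AddCommGroup N'] [Finite N] [Finite N']
  {ρ : GQ l →* AddMonoid.End N} {ρ' : GQ l →* AddMonoid.End N'} {b : N →+ N' →+ QZ p}
  (hN : ∀ n : N, p • n = 0) (hN' : ∀ n : N', p • n = 0) (hb : Pair (cyL p l) ρ ρ' b)

/-- the pairing with values in `ℤ/p` -/
def bz (hN : ∀ n : N, p • n = 0) (b : N →+ N' →+ QZ p) : N →+ N' →+ ZMod p :=
  AddMonoidHom.mk' (fun n => AddMonoidHom.mk' (fun n' => PAAux.t (b n n')) (by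
    intro x y
    have h1 : ∀ x, p • b n x = 0 := fun x => by
      rw [← AddMonoidHom.smul_apply, ← map_nsmul, hN, map_zero, AddMonoidHom.zero_apply]
    apply PAAux.j_inj
    rw [PAAux.j_add, PAAux.j_t (h1 _), PAAux.j_t (h1 _), PAAux.j_t (h1 _), map_add])) (by
    intro m n
    have h1 : ∀ n x, p • b n x = 0 := fun n x => by
      rw [← AddMonoidHom.smul_apply, ← map_nsmul, hN, map_zero, AddMonoidHom.zero_apply]
    ext x
    apply PAAux.j_inj
    change PAAux.j (PAAux.t (b (m + n) x)) = PAAux.j (PAAux.t (b m x) + PAAux.t (b n x))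
    rw [PAAux.j_add, PAAux.j_t (h1 _ _), PAAux.j_t (h1 _ _), PAAux.j_t (h1 _ _), map_add,
      AddMonoidHom.add_apply])

include hN in
omit [Finite N] [Finite N'] in
theorem j_bz (n : N) (n' : N') : PAAux.j (bz hN b n n') = b n n' := by
  refine PAAux.j_t ?_
  rw [← AddMonoidHom.smul_apply, ← map_nsmul, hN, map_zero, AddMonoidHom.zero_apply]

include hN hN' hb in
theorem bz_bij : Function.Bijective (bz hN b : N → (N' →+ ZMod p)) ∧
    Nat.card N = Nat.card N' := by
  have i1 : Function.Injective (bz hN b : N → (N' →+ ZMod p)) := by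
    rw [injective_iff_map_eq_zero]
    intro n hn
    refine hb.left n fun n' => ?_
    rw [← j_bz hN, hn, AddMonoidHom.zero_apply]
    rw [← sub_self (0 : ZMod p), PAAux.j_sub, sub_self]
  have i2 : Function.Injective ((bz hN b).flip : N' → (N →+ ZMod p)) := by
    rw [injective_iff_map_eq_zero]
    intro n' hn
    refine hb.right n' fun n => ?_
    have h1 : bz hN b n n' = 0 := DFunLike.congr_fun hn n
    rw [← j_bz hN, h1]
    rw [← sub_self (0 : ZMod p), PAAux.j_sub, sub_self]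
  have f1 : Finite (N' →+ ZMod p) := by
    have h3 : NeZero p := ⟨(Fact.out : p.Prime).ne_zero⟩
    exact Finite.of_injective (fun f : N' →+ ZMod p => (f : N' → ZMod p)) DFunLike.coe_injective
  have f2 : Finite (N →+ ZMod p) := by
    have h3 : NeZero p := ⟨(Fact.out : p.Prime).ne_zero⟩
    exact Finite.of_injective (fun f : N →+ ZMod p => (f : N → ZMod p)) DFunLike.coe_injective
  have c1 := Nat.card_le_card_of_injective _ i1
  have c2 := Nat.card_le_card_of_injective _ i2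
  rw [card_hom N' hN'] at c1
  rw [card_hom N hN] at c2
  have c3 := le_antisymm c1 c2
  exact ⟨i1.bijective_of_nat_card_le (by rw [card_hom N' hN']; exact c2), c3⟩

include hb in
omit [Finite N] [Finite N'] in
theorem bz_eqv (g : GQ l) (n : N) (n' : N') :
    bz hN b (ρ g n) (ρ' g n') = chm (cyL p l) g * bz hN b n n' := by
  apply PAAux.j_inj
  rw [j_bz hN, hb.eqv, ← j_bz hN, PAAux.actA_j]

variable {H : Subgroup (GQ l)} {ζ : PadicAlgCl l}

/-- the root of unity as an element of `SS H` -/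
def zs (hζ : IsPrimitiveRoot ζ p) (hζH : ∀ h ∈ H, h ζ = ζ) : Additive (SS H) :=
  Additive.ofMul ⟨Units.mk0 ζ (hζ.ne_zero hp.out.ne_zero), hζH⟩

theorem zs_val (hζ : IsPrimitiveRoot ζ p) (hζH : ∀ h ∈ H, h ζ = ζ) (k : ℕ) :
    (((Additive.toMul (k • zs hζ hζH) : SS H) : (PadicAlgCl l)ˣ) : PadicAlgCl l) = ζ ^ k := rfl

theorem p_zs (hζ : IsPrimitiveRoot ζ p) (hζH : ∀ h ∈ H, h ζ = ζ) : p • zs hζ hζH = 0 := by
  apply Additive.toMul.injective
  apply Subtype.ext
  apply Units.ext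
  exact hζ.pow_eq_one

/-- the isomorphism of `ℤ/p` with the roots of unity -/
def zt (hζ : IsPrimitiveRoot ζ p) (hζH : ∀ h ∈ H, h ζ = ζ) : ZMod p →+ Additive (SS H) :=
  ZMod.lift p ⟨zmultiplesHom _ (zs hζ hζH), by
    change (p : ℤ) • zs hζ hζH = 0
    rw [natCast_zsmul, p_zs]⟩

theorem zt_nat (hζ : IsPrimitiveRoot ζ p) (hζH : ∀ h ∈ H, h ζ = ζ) (k : ℕ) :
    zt hζ hζH (k : ZMod p) = k • zs hζ hζH := by
  have h1 : ((k : ℤ) : ZMod p) = (k : ZMod p) := by norm_cast
  rw [← h1, zt, ZMod.lift_coe]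
  change (k : ℤ) • zs hζ hζH = _
  rw [natCast_zsmul]

theorem zt_val (hζ : IsPrimitiveRoot ζ p) (hζH : ∀ h ∈ H, h ζ = ζ) (c : ZMod p) :
    (((Additive.toMul (zt hζ hζH c) : SS H) : (PadicAlgCl l)ˣ) : PadicAlgCl l) = ζ ^ c.val := by
  conv_lhs => rw [← ZMod.natCast_zmod_val c, zt_nat]
  rfl

theorem zt_inj (hζ : IsPrimitiveRoot ζ p) (hζH : ∀ h ∈ H, h ζ = ζ) :
    Function.Injective (zt hζ hζH) := by
  intro c d h
  have h1 := congrArg (fun x : Additive (SS H) =>
    (((Additive.toMul x : SS H) : (PadicAlgCl l)ˣ) : PadicAlgCl l)) h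
  simp only [zt_val] at h1
  exact ZMod.val_injective p (hζ.pow_inj (ZMod.val_lt _) (ZMod.val_lt _) h1)

theorem exists_zt (hζ : IsPrimitiveRoot ζ p) (hζH : ∀ h ∈ H, h ζ = ζ) {x : Additive (SS H)}
    (hx : p • x = 0) : ∃ c, zt hζ hζH c = x := by
  have h1 : (((Additive.toMul x : SS H) : (PadicAlgCl l)ˣ) : PadicAlgCl l) ^ p = 1 :=
    congrArg (fun x : Additive (SS H) =>
      (((Additive.toMul x : SS H) : (PadicAlgCl l)ˣ) : PadicAlgCl l)) hx
  have h3 : NeZero p := ⟨(Fact.out : p.Prime).ne_zero⟩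
  obtain ⟨i, -, hi⟩ := hζ.eq_pow_of_pow_eq_one h1
  refine ⟨i, ?_⟩
  apply Additive.toMul.injective
  apply Subtype.ext
  apply Units.ext
  rw [zt_nat, zs_val, hi]

theorem act2_zt [H.Normal] (hζ : IsPrimitiveRoot ζ p) (hζH : ∀ h ∈ H, h ζ = ζ) (g : GQ l)
    (c : ZMod p) : act2 (stb_SS (H := H)) (g : GQ l ⧸ H) (zt hζ hζH c) =
      zt hζ hζH (chm (cyL p l) g * c) := by
  apply Additive.toMul.injective
  apply Subtype.ext
  apply Units.ext
  rw [act2_val, zt_val, zt_val, map_pow, ζ_act hζ, ← pow_mul, ZMod.val_mul]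
  conv_lhs => rw [← Nat.div_add_mod ((chm (cyL p l) g).val * c.val) p]
  rw [pow_add, pow_mul, hζ.pow_eq_one, one_pow, one_mul]

include hN hN' hb in
theorem ht_SS [H.Normal] (hζ : IsPrimitiveRoot ζ p) (hζH : ∀ h ∈ H, h ζ = ζ)
    (hρ' : ∀ h ∈ H, ρ' h = 1) :
    ht (QuotientGroup.lift H ρ' hρ') (act2 (stb_SS (H := H))) = Nat.card (BKND.H0 ρ) := by
  rw [ht]
  refine (Nat.card_congr (Equiv.ofBijective (fun n : BKND.H0 ρ =>
    (⟨(zt hζ hζH).comp (bz hN b n), fun d n' => ?_⟩ :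
    {f : N' →+ Additive (SS H) // ∀ d n', f (QuotientGroup.lift H ρ' hρ' d n') =
      act2 (stb_SS (H := H)) d (f n')})) ⟨?_, ?_⟩)).symm
  · obtain ⟨g, rfl⟩ := QuotientGroup.mk_surjective d
    change zt hζ hζH (bz hN b n (ρ' g n')) = act2 _ (g : GQ l ⧸ H) (zt hζ hζH (bz hN b n n'))
    rw [act2_zt, ← bz_eqv hN hb]
    have h1 : ρ g (n : N) = n := n.2 g
    rw [h1]
  · intro n m h
    apply Subtype.ext
    apply (bz_bij hN hN' hb).1.1
    ext n'
    apply zt_inj hζ hζH
    exact DFunLike.congr_fun (congrArg Subtype.val h) n'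
  · rintro ⟨F, hF⟩
    have h1 : ∀ n', ∃ c, zt hζ hζH c = F n' := fun n' => exists_zt hζ hζH (by
      rw [← map_nsmul, hN', map_zero])
    choose f hf using h1
    let f' : N' →+ ZMod p := AddMonoidHom.mk' f (by
      intro x y
      apply zt_inj hζ hζH
      rw [map_add, hf, hf, hf, map_add])
    obtain ⟨n, hn⟩ := (bz_bij hN hN' hb).1.2 f'
    have hn' : ∀ n', bz hN b n n' = f n' := fun n' => DFunLike.congr_fun hn n'
    refine ⟨⟨n, fun g => ?_⟩, ?_⟩
    · apply (bz_bij hN hN' hb).1.1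
      ext n'
      have h2 : n' = ρ' g (ρ' g⁻¹ n') := by
        change n' = (ρ' g * ρ' g⁻¹) n'
        rw [← map_mul, mul_inv_cancel, map_one]
        rfl
      rw [h2, bz_eqv hN hb, hn', hn']
      apply zt_inj hζ hζH
      rw [← act2_zt, hf, hf]
      exact (hF (g : GQ l ⧸ H) _).symm
    · apply Subtype.ext
      refine DFunLike.ext _ _ fun n' => ?_
      change zt hζ hζH (bz hN b n n') = F n'
      rw [hn', hf]

omit hp [Fact l.Prime] [Finite N'] in
theorem card_Iv {G : Type} [Group G] {H : Subgroup G} [H.Normal] {ρ' : G →* AddMonoid.End N'}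
    (hρ' : ∀ h ∈ H, ρ' h = 1) :
    Nat.card (Iv (QuotientGroup.lift H ρ' hρ')) = Nat.card (BKND.H0 ρ') := by
  refine Nat.card_congr (Equiv.subtypeEquivRight fun n' => ?_)
  constructor
  · intro h g
    exact h (g : G ⧸ H)
  · intro h d
    obtain ⟨g, rfl⟩ := QuotientGroup.mk_surjective d
    exact h g

end Pairing

end N3Aux

open N3Aux in
/-- Module N3. -/
theorem stN3 (h1 : StKH) (h2 : StEig) (h3 : StFree) (h4 : StLsT) (h5 : StLsP) : StN3 := by
  intro p l _ _ _ N N' _ _ _ _ ρ ρ' b hN hN' hρ hρ' hb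
  obtain ⟨ζ, hζ⟩ : ∃ ζ : PadicAlgCl l, IsPrimitiveRoot ζ p := by
    have h3 : NeZero (p : PadicAlgCl l) :=
      ⟨by exact_mod_cast (Fact.out : p.Prime).ne_zero⟩
    exact HasEnoughRootsOfUnity.exists_primitiveRoot _ _
  obtain ⟨H, hHn, hHo, hi, hpH, hζH, r1, r2⟩ := exists_H hρ hρ' hζ
  have hfinΔ : Finite (GQ l ⧸ H) := Nat.finite_of_card_ne_zero hi
  rw [card_H1 h1 hHo hpH hζ hζH hN hN' hb r1 r2]
  by_cases hl : l = p
  · subst hl
    rw [if_pos rfl]
    obtain ⟨U, hU1, hU2, hS, ht', φ, f1, f2, f3, f4⟩ := h5 l H hHo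
    have hU : Stb H U := ⟨fun g x hx => hU2 x hx g _ rfl, fun x hx => (hU1 x hx).1⟩
    let φ' : Additive U →+ (GQ l ⧸ H → ZMod l) := AddMonoidHom.mk'
      (fun v => φ ((Additive.toMul v : U) : (PadicAlgCl l)ˣ))
      (fun v w => f1 _ (Additive.toMul v).2 _ (Additive.toMul w).2)
    have e1 : Function.Surjective φ' := by
      intro f
      obtain ⟨v, hv, e⟩ := f2 f
      exact ⟨Additive.ofMul ⟨v, hv⟩, e⟩
    have e2 : ∀ x, φ' x = 0 ↔ x ∈ PP l (Additive U) := by
      intro x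
      rw [mem_PP]
      refine (f3 _ (Additive.toMul x).2).trans ?_
      constructor
      · rintro ⟨w, hw, e⟩
        refine ⟨Additive.ofMul ⟨w, hw⟩, ?_⟩
        apply Additive.toMul.injective
        apply Subtype.ext
        exact e
      · rintro ⟨w, rfl⟩
        exact ⟨_, (Additive.toMul w).2, rfl⟩
    have e3 : ∀ d x τ, φ' (act2 hU d x) τ = φ' x (d⁻¹ * τ) := by
      intro d x τ
      obtain ⟨g, rfl⟩ := QuotientGroup.mk_surjective d
      exact f4 _ (Additive.toMul x).2 g _ rfl τ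
    have hfin : Finite (Additive U ⧸ PP l (Additive U)) := by
      have h6 : NeZero l := ⟨(Fact.out : l.Prime).ne_zero⟩
      refine Finite.of_injective (QuotientAddGroup.lift (PP l (Additive U)) φ'
        fun x hx => (e2 x).2 hx) ?_
      rw [injective_iff_map_eq_zero]
      intro x hx
      obtain ⟨x, rfl⟩ := QuotientAddGroup.mk_surjective x
      exact (QuotientAddGroup.eq_zero_iff x).2 ((e2 x).1 hx)
    rw [main h2 hi hpH hN' _ hU (fun v hv => (hU1 v hv).2) hS ht' hfin,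
      h3 l (GQ l ⧸ H) N' hN' _ _ _ φ' e1 e2 e3, ht_SS hN hN' hb hζ hζH r2, card_Iv r2,
      (bz_bij hN hN' hb).2]
    ring
  · rw [if_neg hl]
    obtain ⟨U, hU1, hS, hd, ht'⟩ := h4 p l hl H hHo
    have hU : Stb H U := by
      refine ⟨fun g x hx => ?_, fun x hx => ((hU1 x).1 hx).1⟩
      obtain ⟨h6, h7⟩ := (hU1 x).1 hx
      refine (hU1 _).2 ⟨fx_st h6, ?_⟩
      have h8 : g (x : PadicAlgCl l) - 1 = g ((x : PadicAlgCl l) - 1) := by
        rw [map_sub, map_one]
      rw [um_val, h8, norm_gal]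
      exact h7
    have hdiv : ∀ x : Additive U, ∃ y, p • y = x := by
      intro x
      obtain ⟨w, hw, e⟩ := hd _ (Additive.toMul x).2
      refine ⟨Additive.ofMul ⟨w, hw⟩, ?_⟩
      apply Additive.toMul.injective
      apply Subtype.ext
      exact e
    have hfin : Finite (Additive U ⧸ PP p (Additive U)) := by
      have : Subsingleton (Additive U ⧸ PP p (Additive U)) := by
        refine ⟨fun x y => ?_⟩
        obtain ⟨x, rfl⟩ := QuotientAddGroup.mk_surjective x
        obtain ⟨y, rfl⟩ := QuotientAddGroup.mk_surjective y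
        rw [QuotientAddGroup.eq]
        exact hdiv _
      infer_instance
    rw [main h2 hi hpH hN' _ hU (fun v hv => norm_one_of_sub ((hU1 v).1 hv).2) hS ht' hfin,
      hq_one _ _ hdiv, ht_SS hN hN' hb hζ hζH r2, card_Iv r2]
    ring

end BKLoc2
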