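import Pool.Agent.Lib.MP_7c08ba_nt.Met.LocStmts
import Pool.Agent.Lib.MP_7c08ba_nt.Par.Lift

set_option autoImplicit false

/-!
Module SC: the products `κ ∪ θ / p ^ m`.
-/

noncomputable section

namespace BKLoc2

open BKOdd
open BKMet (QZ actA)
open BKPar (Loc1 Loc2)

namespace SCAux

variable {p : ℕ} [Fact p.Prime]

/-- the class of `x / p ^ m` -/
def fm (m : ℕ) (x : ℤ_[p]) : QZ p := cl p ((x : ℚ_[p]) / (p : ℚ_[p]) ^ m)

theorem cl_add (x y : ℚ_[p]) : cl p (x + y) = cl p x + cl p y := Submodule.Quotient.mk_add _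

theorem cl_sub (x y : ℚ_[p]) : cl p (x - y) = cl p x - cl p y := Submodule.Quotient.mk_sub _

theorem cl_coe (x : ℤ_[p]) : cl p (x : ℚ_[p]) = 0 := by
  unfold cl
  rw [Submodule.Quotient.mk_eq_zero]
  exact ⟨x, rfl⟩

theorem cl_smul (r : ℤ_[p]) (x : ℚ_[p]) : r • cl p x = cl p ((r : ℚ_[p]) * x) := by
  unfold cl
  rw [← Submodule.Quotient.mk_smul]
  rfl

theorem cl_nsmul (n : ℕ) (x : ℚ_[p]) : n • cl p x = cl p ((n : ℚ_[p]) * x) := by
  unfold cl
  rw [← Submodule.Quotient.mk_smul, nsmul_eq_mul]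

theorem fm_add (m : ℕ) (x y : ℤ_[p]) : fm m (x + y) = fm m x + fm m y := by
  unfold fm
  rw [← cl_add, PadicInt.coe_add, add_div]

theorem fm_sub (m : ℕ) (x y : ℤ_[p]) : fm m (x - y) = fm m x - fm m y := by
  unfold fm
  rw [← cl_sub, PadicInt.coe_sub, sub_div]

theorem fm_smul (m : ℕ) (r x : ℤ_[p]) : r • fm m x = fm m (r * x) := by
  unfold fm
  rw [cl_smul, PadicInt.coe_mul, mul_div_assoc]

theorem fm_dvd {m : ℕ} {x : ℤ_[p]} (h : (p : ℤ_[p]) ^ m ∣ x) : fm m x = 0 := by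
  obtain ⟨y, rfl⟩ := h
  have h0 : (p : ℚ_[p]) ^ m ≠ 0 := pow_ne_zero _ (by exact_mod_cast (Fact.out : p.Prime).ne_zero)
  unfold fm
  rw [PadicInt.coe_mul, PadicInt.coe_pow, PadicInt.coe_natCast, mul_comm, mul_div_assoc,
    div_self h0, mul_one]
  exact cl_coe y

theorem fm_pow (m j : ℕ) (x : ℤ_[p]) : p ^ j • fm (m + j) x = fm m x := by
  have h0 : (p : ℚ_[p]) ≠ 0 := by exact_mod_cast (Fact.out : p.Prime).ne_zero
  unfold fm
  rw [cl_nsmul]
  congr 1
  push_cast
  rw [pow_add]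
  field_simp

theorem fm_locallyConstant (m : ℕ) : IsLocallyConstant (fm (p := p) m) := by
  rw [IsLocallyConstant.iff_eventually_eq]
  intro x
  have h1 : Metric.closedBall x ((p : ℝ) ^ (-(m : ℤ))) ∈ nhds x := by
    refine Metric.closedBall_mem_nhds x ?_
    have := (Fact.out : p.Prime).pos
    positivity
  filter_upwards [h1] with y hy
  rw [Metric.mem_closedBall, dist_eq_norm, PadicInt.norm_le_pow_iff_mem_span_pow,
    Ideal.mem_span_singleton] at hy
  have h2 := fm_dvd hy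
  rw [fm_sub] at h2
  exact sub_eq_zero.1 h2

theorem sc_apply {G : Type*} [Group G] (κ θ : G → ℤ_[p]) (m : ℕ) (g h : G) :
    sc κ θ m g h = fm m (κ g * θ h) := rfl

end SCAux

open SCAux

/-- Module SC: the products `κ ∪ θ / p ^ m`. -/
theorem stSC : StSC := by
  intro p _ V _ _ _ _ _ χ _ θ hθ
  refine ⟨fun κ hκ m => ?_, fun κ μ m => ?_, fun κ m j => ?_, fun κ c hc m => ?_,
    fun κ m h => ?_, fun κ m h => ?_⟩
  · obtain ⟨h1, h2⟩ := hκ
    refine ⟨?_, fun g h k => ?_⟩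
    · refine BKPar.Lift.Loc2.of_isLocallyConstant ?_
      have h3 : Continuous fun x : V × V => κ x.1 * θ x.2 :=
        (h1.comp continuous_fst).mul (hθ.cont.comp continuous_snd)
      exact (fm_locallyConstant m).comp_continuous h3
    · rw [BKMet.actA_apply]
      simp only [sc_apply]
      rw [fm_smul, ← fm_sub, ← fm_add, ← fm_sub]
      have e : ((χ g : ℤ_[p]ˣ) : ℤ_[p]) * (κ h * θ k) - κ (g * h) * θ k + κ g * θ (h * k) -
          κ g * θ h = 0 := by
        rw [h2, hθ.mul]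
        show _ * _ - (κ g + ((χ g : ℤ_[p]ˣ) : ℤ_[p]) * κ h) * θ k + _ - _ = _
        ring
      rw [e]
      exact fm_dvd (dvd_zero _)
  · funext g h
    show sc (κ + μ) θ m g h = sc κ θ m g h + sc μ θ m g h
    simp only [sc_apply]
    rw [← fm_add, Pi.add_apply, add_mul]
  · funext g h
    show p ^ j • sc κ θ (m + j) g h = sc κ θ m g h
    simp only [sc_apply]
    rw [fm_pow]
  · refine ⟨fun g => fm m (c * θ g), ?_, fun g h => ?_⟩
    · refine BKPar.Lift.Loc1.of_isLocallyConstant ?_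
      exact (fm_locallyConstant m).comp_continuous (continuous_const.mul hθ.cont)
    · rw [BKMet.actA_apply, sc_apply, fm_smul, ← fm_sub, ← fm_add, hc, hθ.mul]
      congr 1
      show (((χ g : ℤ_[p]ˣ) : ℤ_[p]) - 1) * c * θ h = _
      ring
  · funext g k
    rw [sc_apply]
    exact fm_dvd (Dvd.dvd.mul_left (h k) _)
  · funext g k
    rw [sc_apply]
    exact fm_dvd (Dvd.dvd.mul_right (h g) _)

end BKLoc2
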