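import Pool.Agent.Lib.MP_7c08ba_nt.Met.LocStmts
import Pool.Agent.Lib.MP_7c08ba_nt.Odd.TR

set_option autoImplicit false

/-!
Module TRM: transfer for modules.
-/

noncomputable section

namespace BKLoc2

open BKOdd
open BKPar (Loc1 Loc2)

namespace TRMAux

variable {G : Type*} [Group G] (H : Subgroup G)

theorem sum_smul_eq {M : Type*} [AddCommGroup M] [Fintype (G ⧸ H)] (g : G) (F : G ⧸ H → M) :
    ∑ q : G ⧸ H, F (g • q) = ∑ q : G ⧸ H, F q :=
  Equiv.sum_comp (MulAction.toPerm g : Equiv.Perm (G ⧸ H)) F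

section Eq

variable {M : Type*} [AddCommGroup M] (a : G →* AddMonoid.End M)

theorem corM_eq [Fintype (G ⧸ H)] (f : H → M) (g : G) :
    corM H a f g = ∑ q : G ⧸ H, a (g • q).out (f (hh H g q)) :=
  finsum_eq_sum_of_fintype _

theorem corM2_eq [Fintype (G ⧸ H)] (w : H → H → M) (g g' : G) :
    corM2 H a w g g' =
      ∑ q : G ⧸ H, a (g • (g' • q)).out (w (hh H g (g' • q)) (hh H g' q)) := by
  rw [corM2, finsum_eq_sum_of_fintype]
  simp only [mul_smul]

theorem a_hh (g : G) (q : G ⧸ H) (m : M) :
    a (g • q).out (a (hh H g q : G) m) = a g (a q.out m) := by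
  have h := out_mul_hh H g q
  have h1 : a ((g • q).out * (hh H g q : G)) m = a (g * q.out) m := by rw [h]
  rw [map_mul, map_mul] at h1
  exact h1

end Eq

/-! ### smoothness -/

section Smooth

variable [TopologicalSpace G] [IsTopologicalGroup G]

theorem exists_W (hH : IsOpen (H : Set G)) [Finite (G ⧸ H)] (W' : Subgroup H)
    (hW' : IsOpen (W' : Set H)) :
    ∃ W : Subgroup G, IsOpen (W : Set G) ∧ ∀ w ∈ W, ∀ q : G ⧸ H, ∃ w' ∈ W',
      ∀ g, (g * w) • q = g • q ∧ hh H (g * w) q = hh H g q * w' := by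
  set U : Subgroup G := W'.map H.subtype with hU
  have hUo : IsOpen (U : Set G) := by
    rw [hU, Subgroup.coe_map]
    exact hH.isOpenMap_subtype_val _ hW'
  refine ⟨⨅ q : G ⧸ H, U.comap (MulAut.conj (q.out⁻¹)).toMonoidHom, ?_, ?_⟩
  · rw [Subgroup.coe_iInf]
    refine isOpen_iInter_of_finite fun q => ?_
    rw [Subgroup.coe_comap]
    refine hUo.preimage ?_
    change Continuous fun x : G => q.out⁻¹ * x * (q.out⁻¹)⁻¹
    fun_prop
  · intro w hw q
    have h1 : (q.out⁻¹ * w * (q.out⁻¹)⁻¹) ∈ U := (Subgroup.mem_iInf.1 hw) q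
    rw [inv_inv] at h1
    obtain ⟨w', hw', hw2⟩ := h1
    have hwq : w * q.out = q.out * (w' : G) := by
      have : (w' : G) = q.out⁻¹ * w * q.out := hw2
      rw [this]
      group
    have hq : w • q = q := by
      conv_lhs => rw [← QuotientGroup.out_eq' q]
      conv_rhs => rw [← QuotientGroup.out_eq' q]
      change ((w * q.out : G) : G ⧸ H) = _
      rw [hwq, QuotientGroup.eq]
      rw [mul_inv_rev, mul_assoc, inv_mul_cancel, mul_one]
      exact H.inv_mem w'.2
    refine ⟨w', hw', fun g => ?_⟩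
    have h2 : (g * w) • q = g • q := by rw [mul_smul, hq]
    refine ⟨h2, ?_⟩
    apply Subtype.ext
    change (((g * w) • q).out)⁻¹ * (g * w * q.out) = ((g • q).out)⁻¹ * (g * q.out) * (w' : G)
    rw [h2, mul_assoc g w, hwq]
    group

theorem loc1_sum (hH : IsOpen (H : Set G)) [Fintype (G ⧸ H)] {M X : Type*} [AddCommGroup M]
    {f : H → X} (hf : Loc1 f) (F : G ⧸ H → G ⧸ H → X → M) :
    Loc1 fun g : G => ∑ q : G ⧸ H, F q (g • q) (f (hh H g q)) := by
  obtain ⟨W', hW', h⟩ := hf
  obtain ⟨W, hW, hh'⟩ := exists_W H hH W' hW'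
  refine ⟨W, hW, fun g w hw => ?_⟩
  refine Finset.sum_congr rfl fun q _ => ?_
  obtain ⟨w', hw', h3⟩ := hh' w hw q
  rw [(h3 g).1, (h3 g).2, h _ _ hw']

theorem loc2_sum (hH : IsOpen (H : Set G)) [Fintype (G ⧸ H)] {M X : Type*} [AddCommGroup M]
    {f : H → H → X} (hf : Loc2 f) (F : G ⧸ H → X → M) :
    Loc2 fun g g' : G => ∑ q : G ⧸ H, F (g • (g' • q)) (f (hh H g (g' • q)) (hh H g' q)) := by
  obtain ⟨W', hW', h⟩ := hf
  obtain ⟨W, hW, hh'⟩ := exists_W H hH W' hW'
  refine ⟨W, hW, fun g g' w hw v hv => ?_⟩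
  refine Finset.sum_congr rfl fun q _ => ?_
  obtain ⟨v', hv', h3⟩ := hh' v hv q
  rw [(h3 g').1, (h3 g').2]
  obtain ⟨w', hw', h4⟩ := hh' w hw (g' • q)
  rw [(h4 g).1, (h4 g).2, h _ _ _ hw' _ hv']

end Smooth

/-! ### the basic identity -/

section Two

variable {M : Type*} [AddCommGroup M] (a : G →* AddMonoid.End M)

/-- the homotopy -/
def ga (α : G → G → M) (g : G) (q : G ⧸ H) : M := α (g • q).out (hh H g q) - α g q.out

theorem ga_eq {α : G → G → M}
    (hα : ∀ g h k, a g (α h k) - α (g * h) k + α g (h * k) - α g h = 0) (g g' : G) (q : G ⧸ H) :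
    a (g • (g' • q)).out (α (hh H g (g' • q)) (hh H g' q)) =
      a g (ga H α g' q) + α g g' - ga H α (g * g') q + ga H α g (g' • q) := by
  have h1 := hα (g • (g' • q)).out (hh H g (g' • q)) (hh H g' q)
  have h2 := hα g (g' • q).out (hh H g' q)
  have h3 := hα g g' q.out
  rw [out_mul_hh] at h1 h2
  simp only [ga, map_sub]
  rw [hh_mul, mul_smul, Subgroup.coe_mul]
  rw [sub_eq_zero] at h1 h2 h3
  have e1 : a (g • (g' • q)).out (α (hh H g (g' • q)) (hh H g' q)) =
      α (g • (g' • q)).out (hh H g (g' • q)) -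
        α (g • (g' • q)).out (hh H g (g' • q) * hh H g' q) +
        α (g * (g' • q).out) (hh H g' q) := by
    rw [← h1]
    abel
  have e2 : α (g * (g' • q).out) (hh H g' q) =
      a g (α (g' • q).out (hh H g' q)) + α g (g' * q.out) - α g (g' • q).out := by
    rw [← h2]
    abel
  have e3 : α g (g' * q.out) = α g g' - a g (α g' q.out) + α (g * g') q.out := by
    rw [← h3]
    abel
  rw [e1, e2, e3]
  abel

end Two

end TRMAux

open TRMAux

/-- Module TRM. -/
theorem stTRM : StTRM := by
  intro G _ _ _ _ H hH hfin N N' A _ _ _ ρ ρ' a b _ _ hb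
  have hF : Fintype (G ⧸ H) := Fintype.ofFinite _
  -- coboundaries
  have hcob : ∀ (M : Type) [AddCommGroup M] (τ : G →* AddMonoid.End M) (β : H → M) (g g' : G),
      corM2 H τ (fun h h' : H => τ h (β h') - β (h * h') + β h) g g' =
        τ g (corM H τ β g') - corM H τ β (g * g') + corM H τ β g := by
    intro M _ τ β g g'
    simp only [corM2_eq, corM_eq]
    rw [← sum_smul_eq H g' (fun q => τ (g • q).out (β (hh H g q))), map_sum,
      ← Finset.sum_sub_distrib, ← Finset.sum_add_distrib]
    refine Finset.sum_congr rfl fun q _ => ?_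
    rw [map_add, map_sub, a_hh, hh_mul, mul_smul]
  have hB2 : ∀ (M : Type) [AddCommGroup M] (τ : G →* AddMonoid.End M),
      ∀ w ∈ BKND.B2 (τ.comp H.subtype), corM2 H τ w ∈ BKND.B2 τ := by
    rintro M _ τ w ⟨β, hβ, hw⟩
    refine ⟨corM H τ β, ?_, fun g g' => ?_⟩
    · have h1 := loc1_sum H hH hβ (fun _ q x => τ q.out x)
      have h2 : corM H τ β = fun g => ∑ q : G ⧸ H, τ (g • q).out (β (hh H g q)) := by
        funext g
        exact corM_eq H τ β g
      rw [h2]
      exact h1
    · rw [← hcob M τ β g g']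
      congr 1
      funext h h'
      exact hw h h'
  refine ⟨?_, ?_, hB2 A a, ?_, ?_, ?_⟩
  · rintro y ⟨hy, hy'⟩
    refine ⟨?_, fun g g' => ?_⟩
    · have h1 := loc1_sum H hH hy (fun _ q x => ρ' q.out x)
      have h2 : corM H ρ' y = fun g => ∑ q : G ⧸ H, ρ' (g • q).out (y (hh H g q)) := by
        funext g
        exact corM_eq H ρ' y g
      rw [h2]
      exact h1
    · simp only [corM_eq]
      rw [← sum_smul_eq H g' (fun q => ρ' (g • q).out (y (hh H g q))), map_sum,
        ← Finset.sum_add_distrib]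
      refine Finset.sum_congr rfl fun q _ => ?_
      have h1 := hy' (hh H g (g' • q)) (hh H g' q)
      simp only [MonoidHom.comp_apply, Subgroup.coe_subtype] at h1
      rw [hh_mul, h1, map_add, mul_smul, a_hh]
  · intro w w'
    funext g g'
    simp only [Pi.add_apply, corM2_eq, map_add, Finset.sum_add_distrib]
  · rintro x ⟨hx, hx'⟩ y ⟨hy, hy'⟩
    set β : G → A := fun g => ∑ q : G ⧸ H, b (x (g • q).out) (ρ' (g • q).out (y (hh H g q)))
      with hβ
    refine ⟨β, ?_, fun g g' => ?_⟩
    · exact loc1_sum H hH hy (fun _ q v => b (x q.out) (ρ' q.out v))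
    · simp only [Pi.sub_apply, corM2_eq, corM_eq, hβ]
      rw [← sum_smul_eq H g' (fun q => b (x (g • q).out) (ρ' (g • q).out (y (hh H g q)))),
        map_sum, map_sum, map_sum, ← Finset.sum_sub_distrib, ← Finset.sum_sub_distrib,
        ← Finset.sum_add_distrib]
      refine Finset.sum_congr rfl fun q _ => ?_
      set r2 := (g • (g' • q)).out with hr2
      set r1 := (g' • q).out with hr1
      set h1 := hh H g (g' • q) with hh1
      set h2 := hh H g' q with hh2
      have e1 : ρ r2 (x h1) = x g + ρ g (x r1) - x r2 := by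
        have h3 : r2 * (h1 : G) = g * r1 := out_mul_hh H g (g' • q)
        have h4 := hx' r2 h1
        rw [h3, hx'] at h4
        rw [h4]
        abel
      have e2 : ρ' r2 (ρ' h1 (y h2)) = ρ' g (ρ' r1 (y h2)) := a_hh H ρ' g (g' • q) (y h2)
      have e3 : y (hh H (g * g') q) = y h1 + ρ' h1 (y h2) := by
        rw [hh_mul]
        exact hy' h1 h2
      rw [← hb, e1, e2, e3, mul_smul, ← hr2, map_add, e2, ← hb]
      simp only [map_add, map_sub, AddMonoidHom.add_apply, AddMonoidHom.sub_apply]
      abel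
  · rintro α ⟨hα, hα'⟩ n' hn'
    set β : G → A := fun g => ∑ q : G ⧸ H, b (ga H α g q) (ρ' (g • q).out n') with hβ
    refine ⟨β, ?_, fun g g' => ?_⟩
    · obtain ⟨W1, hW1, hl1⟩ := hα
      have hα2 : Loc1 (fun h : H => fun x : G => α x h) := by
        refine ⟨W1.comap H.subtype, ?_, fun h w hw => ?_⟩
        · exact hW1.preimage continuous_subtype_val
        · funext x
          have := hl1 x h 1 W1.one_mem (w : G) hw
          rwa [mul_one] at this
      have h1 := loc1_sum H hH hα2 (fun _ q v => b (v q.out) (ρ' q.out n'))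
      have hα3 : Loc1 (fun g : G => fun x : G => α g x) := by
        refine ⟨W1, hW1, fun g w hw => ?_⟩
        funext x
        have := hl1 g x w hw 1 W1.one_mem
        rwa [mul_one] at this
      have h2 : Loc1 (fun g : G => ∑ q : G ⧸ H, b (α g q.out) (ρ' (g • q).out n')) := by
        obtain ⟨W3, hW3, hl3⟩ := hα3
        obtain ⟨W4, hW4, hl4⟩ := exists_W H hH ⊤ isOpen_univ
        refine ⟨W3 ⊓ W4, ?_, fun g w hw => ?_⟩
        · rw [Subgroup.coe_inf]
          exact hW3.inter hW4
        · refine Finset.sum_congr rfl fun q _ => ?_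
          obtain ⟨w', -, h5⟩ := hl4 w hw.2 q
          have h6 : α (g * w) q.out = α g q.out := congrFun (hl3 g w hw.1) q.out
          rw [(h5 g).1, h6]
      have h3 := BKND.Loc1.map2 h1 h2 (fun u v => u - v)
      refine (congrArg Loc1 ?_).mp h3
      funext g
      rw [hβ, ← Finset.sum_sub_distrib]
      refine Finset.sum_congr rfl fun q _ => ?_
      simp only [ga, map_sub, AddMonoidHom.sub_apply]
    · have hinv : ∀ (g : G) (q : G ⧸ H), ρ' (g • q).out n' = ρ' g (ρ' q.out n') := by
        intro g q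
        rw [← a_hh H ρ' g q n', hn' _ (hh H g q).2]
      simp only [Pi.sub_apply, corM2_eq, hβ, finsum_eq_sum_of_fintype]
      have hs : ∑ q : G ⧸ H, ρ' q.out n' = ∑ q : G ⧸ H, ρ' (g • (g' • q)).out n' := by
        rw [sum_smul_eq H g' (fun q => ρ' (g • q).out n'), sum_smul_eq H g (fun q => ρ' q.out n')]
      rw [hs, ← sum_smul_eq H g' (fun q => b (ga H α g q) (ρ' (g • q).out n')),
        map_sum, map_sum, ← Finset.sum_sub_distrib, ← Finset.sum_sub_distrib,
        ← Finset.sum_add_distrib]
      refine Finset.sum_congr rfl fun q _ => ?_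
      have e1 := ga_eq H ρ hα' g g' q
      have e2 : ρ' (g • (g' • q)).out n' = ρ' g (ρ' (g' • q).out n') := by
        rw [hinv, hinv]
      have e3 : a (g • (g' • q)).out (b (α (hh H g (g' • q)) (hh H g' q)) n') =
          b (ρ g (ga H α g' q) + α g g' - ga H α (g * g') q + ga H α g (g' • q))
            (ρ' (g • (g' • q)).out n') := by
        rw [← hb, e1]
      have e4 : a g (b (ga H α g' q) (ρ' (g' • q).out n')) =
          b (ρ g (ga H α g' q)) (ρ' (g • (g' • q)).out n') := by
        rw [e2, hb]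
      rw [e3, e4, mul_smul]
      simp only [map_add, map_sub, AddMonoidHom.add_apply, AddMonoidHom.sub_apply]
      abel
  · intro p hp hpi hN hsm
    obtain ⟨e, he⟩ : ∃ e : ℕ, (e * H.index) ≡ 1 [MOD p] := by
      have hc : Nat.Coprime H.index p := ((Nat.Prime.coprime_iff_not_dvd hp).2 hpi).symm
      obtain ⟨e, -, he⟩ := Nat.exists_mul_mod_eq_one_of_coprime hc hp.one_lt
      refine ⟨e, ?_⟩
      rw [Nat.ModEq, mul_comm, he, Nat.mod_eq_of_lt hp.one_lt]
    have hcan : ∀ n : N, e • (H.index • n) = n := by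
      intro n
      rw [smul_smul]
      obtain ⟨k, hk⟩ := (Nat.modEq_iff_dvd.1 he.symm : (p : ℤ) ∣ _)
      have h1 : ((e * H.index : ℕ) : ℤ) = 1 + p * k := by
        push_cast at hk ⊢
        linarith
      have h2 : (e * H.index) • n = ((e * H.index : ℕ) : ℤ) • n := (natCast_zsmul _ _).symm
      rw [h2, h1, add_zsmul, one_zsmul, mul_comm, mul_zsmul, natCast_zsmul, hN, smul_zero,
        add_zero]
    refine ⟨?_, ?_⟩
    · rintro x ⟨hx, hx'⟩ ⟨m, hm⟩
      set y : G → N := fun g => x g - (ρ g m - m) with hy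
      have hyc : ∀ g g', y (g * g') = y g + ρ g (y g') := by
        intro g g'
        have e0 : ρ (g * g') m = ρ g (ρ g' m) := by
          rw [map_mul]
          rfl
        simp only [hy, hx', e0, map_sub]
        abel
      have hyH : ∀ h : H, y h = 0 := by
        intro h
        have := hm h
        simp only [MonoidHom.comp_apply, Subgroup.coe_subtype] at this
        simp only [hy, this, sub_self]
      have hyr : ∀ (g : G) (q : G ⧸ H), y (g * q.out) = y (g • q).out := by
        intro g q
        rw [← out_mul_hh, hyc, hyH, map_zero, add_zero]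
      set s : N := ∑ q : G ⧸ H, y q.out with hs
      have h1 : ∀ g, ρ g s = s - H.index • y g := by
        intro g
        have h2 : ρ g s = ∑ q : G ⧸ H, (y (g • q).out - y g) := by
          rw [hs, map_sum]
          refine Finset.sum_congr rfl fun q _ => ?_
          rw [← hyr, hyc]
          abel
        rw [h2, Finset.sum_sub_distrib, sum_smul_eq H g (fun q => y q.out), Finset.sum_const,
          Finset.card_univ, Subgroup.index, Nat.card_eq_fintype_card]
      refine ⟨m - e • s, fun g => ?_⟩
      have h3 : y g = e • s - ρ g (e • s) := by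
        rw [map_nsmul, h1, smul_sub, hcan]
        abel
      have h4 : x g = y g + (ρ g m - m) := by
        simp only [hy]
        abel
      rw [h4, h3, map_sub]
      abel
    · rintro α ⟨hα, hα'⟩ hB
      have h1 := hB2 N ρ _ hB
      have h2 : corM2 H ρ (fun g h : H => α g h) - H.index • α ∈ BKND.B2 ρ := by
        refine ⟨fun g => ∑ q : G ⧸ H, ga H α g q, ?_, fun g g' => ?_⟩
        · obtain ⟨W1, hW1, hl1⟩ := hα
          have hα2 : Loc1 (fun h : H => fun x : G => α x h) := by
            refine ⟨W1.comap H.subtype, ?_, fun h w hw => ?_⟩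
            · exact hW1.preimage continuous_subtype_val
            · funext x
              have := hl1 x h 1 W1.one_mem (w : G) hw
              rwa [mul_one] at this
          have h1 := loc1_sum H hH hα2 (fun _ q v => v q.out)
          have h2 : Loc1 (fun g : G => ∑ q : G ⧸ H, α g q.out) := by
            refine ⟨W1, hW1, fun g w hw => ?_⟩
            refine Finset.sum_congr rfl fun q _ => ?_
            have := hl1 g q.out w hw 1 W1.one_mem
            rwa [mul_one] at this
          have h3 := BKND.Loc1.map2 h1 h2 (fun u v => u - v)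
          refine (congrArg Loc1 ?_).mp h3
          funext g
          rw [← Finset.sum_sub_distrib]
          rfl
        · simp only [Pi.sub_apply, Pi.smul_apply, corM2_eq]
          have hcard : H.index • α g g' = ∑ q : G ⧸ H, α g g' := by
            rw [Finset.sum_const, Finset.card_univ, Subgroup.index, Nat.card_eq_fintype_card]
          rw [hcard, ← sum_smul_eq H g' (fun q => ga H α g q), map_sum,
            ← Finset.sum_sub_distrib, ← Finset.sum_sub_distrib, ← Finset.sum_add_distrib]
          refine Finset.sum_congr rfl fun q _ => ?_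
          rw [ga_eq H ρ hα' g g' q]
          abel
      have h3 : H.index • α ∈ BKND.B2 ρ := by
        have := (BKND.B2 ρ).sub_mem h1 h2
        rwa [sub_sub_cancel] at this
      have h4 := (BKND.B2 ρ).nsmul_mem h3 e
      have h5 : e • (H.index • α) = α := by
        funext g g'
        exact hcan (α g g')
      rwa [h5] at h4

end BKLoc2
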