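import Pool.Agent.Lib.MP_7c08ba_nt.Met.LPA
import Pool.Agent.Lib.MP_7c08ba_nt.Met.LTRM
import Pool.Agent.Lib.MP_7c08ba_nt.Met.LSC
import Pool.Agent.Lib.MP_7c08ba_nt.Odd.Desc

set_option autoImplicit false

/-!
Parity without rigidity, local part, module N4: duality `H²(N) × H⁰(N')` for tame modules.
-/

noncomputable section

namespace BKLoc2

open BKOdd
open BKMet (QZ actA)
open BKPar (Loc1 Loc2)

namespace N4Aux

theorem prim_step {p : ℕ} [hp : Fact p.Prime] {Ω : Type*} [Field Ω] [IsAlgClosed Ω] [CharZero Ω]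
    {n : ℕ} {x : Ω} (hx : IsPrimitiveRoot x (p ^ n)) :
    ∃ y : Ω, IsPrimitiveRoot y (p ^ (n + 1)) ∧ y ^ p = x := by
  have hne : NeZero ((p ^ (n + 1) : ℕ) : Ω) :=
    ⟨Nat.cast_ne_zero.2 (pow_ne_zero _ hp.out.ne_zero)⟩
  obtain ⟨y, hy⟩ := HasEnoughRootsOfUnity.exists_primitiveRoot Ω (p ^ (n + 1))
  have hyp : IsPrimitiveRoot (y ^ p) (p ^ n) :=
    hy.pow (pow_pos hp.out.pos _) (by rw [pow_succ, mul_comm])
  have : NeZero (p ^ n) := ⟨pow_ne_zero _ hp.out.ne_zero⟩
  rcases Nat.eq_zero_or_pos n with h0 | h0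
  · subst h0
    refine ⟨y, hy, ?_⟩
    rw [pow_zero] at hx hyp
    rw [IsPrimitiveRoot.one_right_iff.1 hx, IsPrimitiveRoot.one_right_iff.1 hyp]
  · obtain ⟨i, hi, hco, he⟩ := (hyp.isPrimitiveRoot_iff).1 hx
    refine ⟨y ^ i, hy.pow_of_coprime i ?_, ?_⟩
    · have h1 : i.Coprime p := Nat.Coprime.coprime_dvd_right (dvd_pow_self p h0.ne') hco
      exact Nat.Coprime.pow_right _ h1
    · rw [← pow_mul, mul_comm, pow_mul, he]

theorem exists_sys (p : ℕ) [hp : Fact p.Prime] (Ω : Type*) [Field Ω] [IsAlgClosed Ω]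
    [CharZero Ω] : ∃ z : ℕ → Ω, Sys p z := by
  let F : (n : ℕ) → {x : Ω // IsPrimitiveRoot x (p ^ n)} := fun n =>
    Nat.rec ⟨1, by rw [pow_zero]; exact IsPrimitiveRoot.one⟩
      (fun n x => ⟨(prim_step x.2).choose, (prim_step x.2).choose_spec.1⟩) n
  refine ⟨fun n => (F n).1, fun n => (F n).2, fun n => ?_⟩
  exact (prim_step (F n).2).choose_spec.2

theorem t_add {p : ℕ} [Fact p.Prime] {x y : QZ p} (hx : p • x = 0) (hy : p • y = 0) :
    PAAux.t (x + y) = PAAux.t x + PAAux.t y := by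
  apply PAAux.j_inj
  rw [PAAux.j_add, PAAux.j_t hx, PAAux.j_t hy, PAAux.j_t (by rw [smul_add, hx, hy, add_zero])]

theorem j_zero {p : ℕ} [Fact p.Prime] : PAAux.j (0 : ZMod p) = 0 := by
  have h := PAAux.j_sub (0 : ZMod p) 0
  rwa [sub_self, sub_self] at h

theorem t_nsmul {p : ℕ} [Fact p.Prime] (k : ℕ) (x : QZ p) (hx : p • x = 0) :
    PAAux.t (k • x) = (k : ZMod p) * PAAux.t x := by
  induction k with
  | zero =>
    rw [zero_smul, Nat.cast_zero, zero_mul]
    apply PAAux.j_inj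
    rw [PAAux.j_t (smul_zero _), j_zero]
  | succ k ih =>
    rw [succ_nsmul, t_add (by rw [smul_comm, hx, smul_zero]) hx, ih, Nat.cast_succ, add_mul,
      one_mul]

theorem zmod_smul {p : ℕ} [Fact p.Prime] {M : Type*} [AddCommGroup M] [Module (ZMod p) M]
    (c : ZMod p) (x : M) : c • x = c.val • x := by
  rw [← Nat.cast_smul_eq_nsmul (ZMod p), ZMod.natCast_zmod_val]

section

variable {p : ℕ} [hp : Fact p.Prime] {N N' : Type} [AddCommGroup N] [AddCommGroup N']
  [Module (ZMod p) N] [Module (ZMod p) N']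

theorem p_smul' {M : Type*} [AddCommGroup M] [Module (ZMod p) M] (x : M) : p • x = 0 := by
  rw [← Nat.cast_smul_eq_nsmul (ZMod p), ZMod.natCast_self, zero_smul]

omit [Module (ZMod p) N] in
theorem hb (b : N →+ N' →+ QZ p) (n : N) (n' : N') : p • b n n' = 0 := by
  rw [← map_nsmul, p_smul', map_zero]

/-- the pairing with values in `ℤ/p` -/
def Bl (b : N →+ N' →+ QZ p) : N →ₗ[ZMod p] (N' →ₗ[ZMod p] ZMod p) := LinearMap.mk₂ (ZMod p)
  (fun n n' => PAAux.t (b n n'))
  (fun x y n' => by rw [map_add, AddMonoidHom.add_apply, t_add (hb b _ _) (hb b _ _)])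
  (fun c x n' => by
    rw [zmod_smul, map_nsmul, AddMonoidHom.nsmul_apply, t_nsmul _ _ (hb b _ _),
      ZMod.natCast_zmod_val, smul_eq_mul])
  (fun n x y => by rw [map_add, t_add (hb b _ _) (hb b _ _)])
  (fun c n x => by
    rw [zmod_smul, map_nsmul, t_nsmul _ _ (hb b _ _), ZMod.natCast_zmod_val, smul_eq_mul])

theorem Bl_apply (b : N →+ N' →+ QZ p) (n : N) (n' : N') : Bl b n n' = PAAux.t (b n n') := rfl

theorem exists_dual' [Finite N] (b : N →+ N' →+ QZ p) (hl : ∀ n, (∀ n', b n n' = 0) → n = 0)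
    (hr : ∀ n', (∀ n, b n n' = 0) → n' = 0) :
    ∃ (d : ℕ) (e : Fin d → N) (e' : Fin d → N'),
      ∀ n, n = ∑ i, (PAAux.t (b n (e' i))).val • e i := by
  have ht0 : ∀ n n', PAAux.t (b n n') = 0 → b n n' = 0 := by
    intro n n' h
    rw [← PAAux.j_t (hb b n n'), h, j_zero]
  have h1 : Function.Injective (Bl b) := by
    rw [← LinearMap.ker_eq_bot, LinearMap.ker_eq_bot']
    intro n hn
    apply hl
    intro n'
    apply ht0
    rw [← Bl_apply, hn, LinearMap.zero_apply]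
  have h2 : Function.Injective (Bl b).flip := by
    rw [← LinearMap.ker_eq_bot, LinearMap.ker_eq_bot']
    intro n' hn'
    apply hr
    intro n
    apply ht0
    rw [← Bl_apply, ← LinearMap.flip_apply, hn', LinearMap.zero_apply]
  have : FiniteDimensional (ZMod p) N := Module.Finite.of_finite
  have hP : (Bl b).IsPerfPair := LinearMap.IsPerfPair.of_injective h1 h2
  let bas := Module.finBasis (ZMod p) N
  have h3 : ∀ i, ∃ n', (Bl b).flip n' = bas.coord i := fun i => hP.bijective_right.2 _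
  choose e' he' using h3
  refine ⟨_, bas, e', fun n => ?_⟩
  conv_lhs => rw [← bas.sum_repr n]
  refine Finset.sum_congr rfl fun i _ => ?_
  have h4 : bas.repr n i = PAAux.t (b n (e' i)) := by
    rw [← Bl_apply, ← LinearMap.flip_apply, he']
    rfl
  rw [h4, zmod_smul]

end

/-- bases and dual bases -/
theorem exists_dual {p : ℕ} [hp : Fact p.Prime] {N N' : Type} [AddCommGroup N] [AddCommGroup N']
    [Finite N] (hN : ∀ n : N, p • n = 0) (hN' : ∀ n : N', p • n = 0)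
    (b : N →+ N' →+ QZ p) (hl : ∀ n, (∀ n', b n n' = 0) → n = 0)
    (hr : ∀ n', (∀ n, b n n' = 0) → n' = 0) :
    ∃ (d : ℕ) (e : Fin d → N) (e' : Fin d → N'),
      ∀ n, n = ∑ i, (PAAux.t (b n (e' i))).val • e i := by
  let _ : Module (ZMod p) N := AddCommGroup.zmodModule hN
  let _ : Module (ZMod p) N' := AddCommGroup.zmodModule hN'
  exact exists_dual' b hl hr

theorem val_add_smul {p : ℕ} [Fact p.Prime] {M : Type*} [AddCommGroup M]
    (hM : ∀ x : M, p • x = 0) (a b : ZMod p) (x : M) :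
    (a + b).val • x = a.val • x + b.val • x := by
  let _ : Module (ZMod p) M := AddCommGroup.zmodModule hM
  rw [← zmod_smul, ← zmod_smul, ← zmod_smul, add_smul]

theorem inf_index {G : Type*} [Group G] {p : ℕ} (hp : p.Prime) (H K : Subgroup G) [H.Normal]
    (h1 : ¬ p ∣ H.index) (h2 : ¬ p ∣ K.index) : ¬ p ∣ (H ⊓ K).index := by
  rw [← Subgroup.relIndex_mul_index (inf_le_right : H ⊓ K ≤ K), Subgroup.inf_relIndex_right,
    hp.dvd_mul, not_or]
  exact ⟨fun h => h1 (h.trans (Subgroup.relIndex_dvd_index_of_normal H K)), h2⟩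

theorem cont_chm {p : ℕ} [Fact p.Prime] {G : Type*} [Group G] [TopologicalSpace G]
    [CompactSpace G] [NonarchimedeanGroup G] {χ : G →* ℤ_[p]ˣ}
    (hχ : Continuous χ) : Continuous (chm χ) :=
  (BKPar.Lift.Loc1.isLocallyConstant
    (BKND.loc1_toZMod (Units.continuous_val.comp hχ))).continuous

/-- an open normal subgroup of index prime to `p` which acts trivially -/
theorem exists_H {p : ℕ} [hp : Fact p.Prime] {G : Type} [Group G] [TopologicalSpace G]
    [CompactSpace G] [NonarchimedeanGroup G] {χ : G →* ℤ_[p]ˣ}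
    (hχ : Continuous χ) {N N' : Type} [AddCommGroup N] [AddCommGroup N']
    {ρ : G →* AddMonoid.End N} {ρ' : G →* AddMonoid.End N'} (h1 : Tame p ρ) (h2 : Tame p ρ') :
    ∃ H : Subgroup G, H.Normal ∧ IsOpen (H : Set G) ∧ ¬ p ∣ H.index ∧
      (∀ h ∈ H, ρ h = 1) ∧ (∀ h ∈ H, ρ' h = 1) ∧ ∀ h ∈ H, chm χ h = 1 := by
  obtain ⟨H1, n1, o1, i1, d1, t1⟩ := h1
  obtain ⟨H2, n2, o2, i2, d2, t2⟩ := h2
  let φ : G →* (ZMod p)ˣ := (Units.map ((PadicInt.toZMod (p := p)) : ℤ_[p] →* ZMod p)).comp χ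
  have hφ : ∀ g, ((φ g : (ZMod p)ˣ) : ZMod p) = chm χ g := fun g => rfl
  have n3 : φ.ker.Normal := inferInstance
  have o3 : IsOpen (φ.ker : Set G) := by
    have h4 : (φ.ker : Set G) = chm χ ⁻¹' {1} := by
      ext g
      rw [SetLike.mem_coe, MonoidHom.mem_ker, Set.mem_preimage, Set.mem_singleton_iff, ← hφ,
        Units.val_eq_one]
    rw [h4]
    exact (isOpen_discrete {(1 : ZMod p)}).preimage (cont_chm hχ)
  have d3 : ¬ p ∣ φ.ker.index := by
    rw [Subgroup.index_ker]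
    intro h
    have h5 := h.trans (Subgroup.card_subgroup_dvd_card φ.range)
    rw [Nat.card_eq_fintype_card, ZMod.card_units] at h5
    have h6 := Nat.le_of_dvd (by have := hp.out.one_lt; omega) h5
    have := hp.out.one_lt
    omega
  refine ⟨H1 ⊓ (H2 ⊓ φ.ker), inferInstance, ?_, ?_, ?_, ?_, ?_⟩
  · rw [Subgroup.coe_inf, Subgroup.coe_inf]
    exact o1.inter (o2.inter o3)
  · exact inf_index hp.out _ _ d1 (inf_index hp.out _ _ d2 d3)
  · exact fun h hh => t1 h hh.1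
  · exact fun h hh => t2 h hh.2.1
  · intro h hh
    rw [← hφ, MonoidHom.mem_ker.1 hh.2.2, Units.val_one]

theorem open_id (G : Type) [Group G] [TopologicalSpace G] :
    Topology.IsOpenEmbedding (MonoidHom.id G) := Topology.IsOpenEmbedding.id

/-- divisibility of one-cocycles -/
theorem div_Z1 (h4 : StZ1A) (h5 : StKPE) (p l : ℕ) [hp : Fact p.Prime] [Fact l.Prime] :
    ∀ β ∈ BKND.Z1 (actA (cyL p l)), ∃ β' ∈ BKND.Z1 (actA (cyL p l)), β = p • β' := by
  intro β hβ
  obtain ⟨z, hz⟩ := exists_sys p (PadicAlgCl l)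
  obtain ⟨a, ha, -, κ, hκ, n, hn⟩ := h4 p ℚ_[l] (PadicAlgCl l) (GQ l) (MonoidHom.id _)
    (open_id _) z hz β hβ
  obtain ⟨-, -, -, hκ1, -, -⟩ := h5 p ℚ_[l] (PadicAlgCl l) (GQ l) (MonoidHom.id _)
    (open_id _).continuous z hz
  have hk := hκ1 a κ ha hκ
  refine ⟨fun v => SCAux.fm (n + 1) (κ v), ⟨BKPar.Lift.Loc1.of_isLocallyConstant
    ((SCAux.fm_locallyConstant (n + 1)).comp_continuous hk.1), fun g h => ?_⟩, ?_⟩
  · change SCAux.fm (n + 1) (κ (g * h)) = _
    rw [hk.2 g h, SCAux.fm_add, BKMet.actA_apply, SCAux.fm_smul]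
    rfl
  · funext v
    rw [hn v]
    have h6 := SCAux.fm_pow n 1 (κ v)
    rw [pow_one] at h6
    exact h6.symm

theorem fix_root (h5 : StKPE) (p l : ℕ) [hp : Fact p.Prime] [Fact l.Prime] {z : ℕ → PadicAlgCl l}
    (hz : Sys p z) {g : GQ l} (hg : chm (cyL p l) g = 1) : g (z 1) = z 1 := by
  have h6 := (h5 p ℚ_[l] (PadicAlgCl l) (GQ l) (MonoidHom.id _) (open_id _).continuous z hz).2.1
    1 g
  have h7 : PadicInt.toZModPow 1 ((cyL p l g : ℤ_[p]ˣ) : ℤ_[p]) = 1 := by
    obtain ⟨y, hy⟩ := BKND.exists_toZMod ((cyL p l g : ℤ_[p]ˣ) : ℤ_[p])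
    have h8 : PadicInt.toZMod ((cyL p l g : ℤ_[p]ˣ) : ℤ_[p]) = 1 := hg
    have hf : Fact (1 < p) := ⟨hp.out.one_lt⟩
    rw [h8, ZMod.val_one] at hy
    have h9 : PadicInt.toZModPow 1 ((cyL p l g : ℤ_[p]ˣ) : ℤ_[p]) =
        PadicInt.toZModPow 1 (1 : ℤ_[p]) := by
      rw [BKND.toZModPow_eq_iff]
      refine ⟨y, ?_⟩
      rw [hy]
      push_cast
      ring
    rw [h9, map_one]
  have h8 : (PadicInt.toZModPow 1 ((cyL p l g : ℤ_[p]ˣ) : ℤ_[p])).val = 1 := by
    rw [h7]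
    have hf : Fact (1 < p ^ 1) := ⟨by rw [pow_one]; exact hp.out.one_lt⟩
    exact ZMod.val_one _
  have h9 : g (z 1) = z 1 ^ (PadicInt.toZModPow 1 ((cyL p l g : ℤ_[p]ˣ) : ℤ_[p])).val := h6
  rw [h9, h8, pow_one]

/-- transfer of cochains with values in `ℤ/p` and in `ℚ_p/ℤ_p` -/
theorem im_cor2 {p : ℕ} [hp : Fact p.Prime] {G : Type} [Group G] (H : Subgroup G)
    [Finite (G ⧸ H)] (χ : G →* ℤ_[p]ˣ) (w : H → H → ZMod p) :
    im (cor2 H (chm χ) w) = corM2 H (actA χ) (fun g h => PAAux.j (w g h)) := by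
  have hF : Fintype (G ⧸ H) := Fintype.ofFinite _
  let J : ZMod p →+ QZ p := AddMonoidHom.mk' PAAux.j PAAux.j_add
  funext g g'
  rw [PAAux.im_eq, cor2_eq, TRMAux.corM2_eq]
  change J _ = _
  rw [map_sum]
  refine Finset.sum_congr rfl fun q _ => ?_
  change PAAux.j _ = _
  rw [PAAux.actA_j]

end N4Aux

open N4Aux

/-- Module N4: `H²(N) × H⁰(N')`. -/
theorem stN4 (h1 : StTRM) (h2 : StCrI) (h3 : StPA) (h4 : StZ1A) (h5 : StKPE) : StN4 := by
  intro p l hp _ hp2 N N' _ _ _ _ ρ ρ' b hN hN' hT hT' hP α hα hα0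
  obtain ⟨z, hz⟩ := exists_sys p (PadicAlgCl l)
  have hχ : Continuous (cyL p l) :=
    (h5 p ℚ_[l] (PadicAlgCl l) (GQ l) (MonoidHom.id _) (open_id _).continuous z hz).1
  obtain ⟨H, hn, ho, hd, hρ, hρ', hc⟩ := exists_H hχ hT hT'
  have hfin : Finite (GQ l ⧸ H) := H.quotient_finite_of_isOpen ho
  have cH : CompactSpace H := isCompact_iff_compactSpace.1 (H.isClosed_of_isOpen ho).isCompact
  have nH : NonarchimedeanGroup H := nonarch_subgroup H
  have hSm : BKND.Sm ρ := ⟨H, ho, hρ⟩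
  have hSm' : BKND.Sm ρ' := ⟨H, ho, hρ'⟩
  have hTR := h1 (GQ l) H ho hfin N N' (QZ p) ρ ρ' (actA (cyL p l)) b hSm'
    (fun n' => ⟨H, ho, fun w hw => by rw [hρ' w hw]; rfl⟩) hP.eqv
  have hpb : ∀ n n', p • b n n' = 0 := by
    intro n n'
    rw [← map_nsmul, hN', map_zero]
  have key : ∀ n' : N', (fun g h : H => PAAux.t (b (α g h) n')) ∈ CC.B2 (1 : H →* ZMod p) := by
    intro n'
    set w0 : H → H → ZMod p := fun g h => PAAux.t (b (α g h) n') with hw0
    have hj : ∀ g h : H, PAAux.j (w0 g h) = b (α g h) n' := fun g h => PAAux.j_t (hpb _ _)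
    have hz0 : w0 ∈ CC.Z2 (1 : H →* ZMod p) := by
      refine ⟨Conv.cont2_iff.2 ?_, fun g h k => ?_⟩
      · obtain ⟨W, hW, hW'⟩ := hα.1
        refine ⟨W.subgroupOf H, hW.preimage continuous_subtype_val,
          fun g h w hw w' hw' => ?_⟩
        change PAAux.t (b (α ((g : GQ l) * w) ((h : GQ l) * w')) n') = _
        rw [hW' _ _ _ (Subgroup.mem_subgroupOf.1 hw) _ (Subgroup.mem_subgroupOf.1 hw')]
      · apply PAAux.j_inj
        rw [MonoidHom.one_apply, one_mul, PAAux.j_add, PAAux.j_add, hj, hj, hj, hj]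
        have h6 := hα.2 (g : GQ l) (h : GQ l) (k : GQ l)
        rw [hρ _ g.2] at h6
        have h7 : α (h : GQ l) k + α (g : GQ l) ((h : GQ l) * k) =
            α ((g : GQ l) * h) k + α (g : GQ l) h := by
          rw [← sub_eq_zero, ← h6]
          change _ = α (h : GQ l) k - _ + _ - _
          abel
        have h8 := congrArg (fun x => b x n') h7
        simp only [map_add, AddMonoidHom.add_apply] at h8
        exact h8
    have hs0 : (∑ᶠ q : GQ l ⧸ H, ρ' q.out n') ∈ BKND.H0 ρ' := by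
      have hF : Fintype (GQ l ⧸ H) := Fintype.ofFinite _
      intro g
      rw [finsum_eq_sum_of_fintype, map_sum,
        ← TRMAux.sum_smul_eq H g (fun q => ρ' q.out n')]
      refine Finset.sum_congr rfl fun q _ => ?_
      have h6 := TRMAux.a_hh H ρ' g q n'
      rw [hρ' _ (hh H g q).2] at h6
      exact h6.symm
    have h8 := hα0 _ hs0
    have h9 := hTR.2.2.2.2.1 α hα n' (fun h hh => by rw [hρ' h hh]; rfl)
    have h10 := (BKND.B2 (actA (cyL p l))).add_mem h9 h8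
    rw [sub_add_cancel] at h10
    have h11 : im (cor2 H (chm (cyL p l)) w0) ∈ BKND.B2 (actA (cyL p l)) := by
      rw [im_cor2]
      simp only [hj]
      exact h10
    have hch1 : (chm (cyL p l)).comp H.subtype = 1 := by
      ext h
      exact hc h h.2
    have h12 : cor2 H (chm (cyL p l)) w0 ∈ CC.Z2 (chm (cyL p l)) := by
      refine (stTR (GQ l) H ho hfin (ZMod p) (chm (cyL p l)) (cont_chm hχ)).2.1 w0 ?_
      rw [hch1]
      exact hz0
    have h13 := (h3 p (GQ l) (cyL p l) hχ).2.2.2.1 (div_Z1 h4 h5 p l) _ h12 h11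
    have hζ : IsPrimitiveRoot (z 1) p := by
      have := hz.prim 1
      rwa [pow_one] at this
    exact h2 p l hp2 H hn ho hd (z 1) hζ (fun h hh => fix_root h5 p l hz (hc h hh)) w0 hz0 h13
  obtain ⟨d, e, e', he⟩ := exists_dual hN hN' b hP.left hP.right
  choose f hf hf' using fun i => key (e' i)
  have hres : (fun g h : H => α g h) ∈ BKND.B2 (ρ.comp H.subtype) := by
    refine ⟨fun h => ∑ i, (f i h).val • e i, ?_, fun g h => ?_⟩
    · have h6 : IsLocallyConstant (fun (h : H) (i : Fin d) => f i h) :=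
        (IsLocallyConstant.iff_continuous _).2 (continuous_pi hf)
      exact BKPar.Lift.Loc1.of_isLocallyConstant
        (h6.comp (fun c : Fin d → ZMod p => ∑ i, (c i).val • e i))
    · have h6 : (ρ.comp H.subtype) g = 1 := hρ g g.2
      rw [h6]
      change α (g : GQ l) (h : GQ l) = (∑ i, (f i h).val • e i) -
        (∑ i, (f i (g * h)).val • e i) + ∑ i, (f i g).val • e i
      conv_lhs => rw [he (α (g : GQ l) (h : GQ l))]
      rw [← sub_eq_zero, ← Finset.sum_sub_distrib, ← Finset.sum_add_distrib,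
        ← Finset.sum_sub_distrib]
      refine Finset.sum_eq_zero fun i _ => ?_
      have h7 : PAAux.t (b (α (g : GQ l) (h : GQ l)) (e' i)) + f i (g * h) = f i g + f i h := by
        have h8 := hf' i g h
        simp only [MonoidHom.one_apply, one_mul] at h8
        rw [h8]
        ring
      have h8 := congrArg (fun c : ZMod p => c.val • e i) h7
      simp only [val_add_smul hN] at h8
      rw [sub_eq_zero, ← sub_eq_iff_eq_add.2 h8.symm]
      abel
  exact (hTR.2.2.2.2.2 p hp.out hd hN hSm).2 α hα hres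

end BKLoc2
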