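import Pool.Agent.Lib.MP_7c08ba_nt.Met.LN4
import Pool.Agent.Lib.MP_7c08ba_nt.Met.LLNX

set_option autoImplicit false

/-!
Parity without rigidity, local part, module N5: duality `H¹(N) × H¹(N')` for tame modules.
-/

noncomputable section

namespace BKLoc2

open BKOdd
open BKMet (QZ actA)
open BKPar (Loc1 Loc2)

namespace N5Aux

open N4Aux

/-- nondegeneracy of the cup product on homomorphisms to `ℤ/p` -/
theorem nonDeg (h6 : StChT) (p l : ℕ) [Fact p.Prime] [Fact l.Prime] (hp2 : p ≠ 2) (V : Type)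
    [Group V] [TopologicalSpace V] [IsTopologicalGroup V] (e : V →* GQ l)
    (he : Topology.IsOpenEmbedding e) (ζ : PadicAlgCl l) (hζ : IsPrimitiveRoot ζ p)
    (hF : Fx e ζ) : NonDeg p V := by
  by_cases hl : l = p
  · subst hl
    exact (LNXAux.chain l V e he ζ hζ hF).2
  · exact (h6 p l hp2 hl V e he ζ hζ hF).2

theorem j_mul {p : ℕ} [Fact p.Prime] (c a : ZMod p) : PAAux.j (c * a) = c.val • PAAux.j a := by
  have h := map_nsmul (AddMonoidHom.mk' PAAux.j PAAux.j_add : ZMod p →+ QZ p) c.val a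
  rw [nsmul_eq_mul, ZMod.natCast_zmod_val] at h
  exact h

end N5Aux

open N4Aux N5Aux

/-- Module N5: `H¹(N) × H¹(N')`. -/
theorem stN5 (h1 : StTRM) (h2 : StCrI) (h3 : StPA) (h4 : StZ1A) (h5 : StKPE) (h6 : StChT) :
    StN5 := by
  intro p l hp _ hp2 N N' _ _ _ _ ρ ρ' b hN hN' hT hT' hP x hx hx0
  obtain ⟨z, hz⟩ := exists_sys p (PadicAlgCl l)
  have hχ : Continuous (cyL p l) :=
    (h5 p ℚ_[l] (PadicAlgCl l) (GQ l) (MonoidHom.id _) (open_id _).continuous z hz).1
  obtain ⟨H, hn, ho, hd, hρ, hρ', hc⟩ := exists_H hχ hT hT'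
  have hfin : Finite (GQ l ⧸ H) := H.quotient_finite_of_isOpen ho
  have cH : CompactSpace H := isCompact_iff_compactSpace.1 (H.isClosed_of_isOpen ho).isCompact
  have nH : NonarchimedeanGroup H := nonarch_subgroup H
  have hSm : BKND.Sm ρ := ⟨H, ho, hρ⟩
  have hSm' : BKND.Sm ρ' := ⟨H, ho, hρ'⟩
  have hTR := h1 (GQ l) H ho hfin N N' (QZ p) ρ ρ' (actA (cyL p l)) b hSm'
    (fun n' => ⟨H, ho, fun w hw => by rw [hρ' w hw]; rfl⟩) hP.eqv
  have hζ : IsPrimitiveRoot (z 1) p := by
    have := hz.prim 1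
    rwa [pow_one] at this
  have hfix : ∀ h ∈ H, h (z 1) = z 1 := fun h hh => fix_root h5 p l hz (hc h hh)
  have hnd : NonDeg p H := nonDeg h6 p l hp2 H H.subtype ho.isOpenEmbedding_subtypeVal (z 1) hζ
    (fun h => hfix h h.2)
  have hpb : ∀ n n', p • b n n' = 0 := by
    intro n n'
    rw [← map_nsmul, hN', map_zero]
  have hch1 : (chm (cyL p l)).comp H.subtype = 1 := by
    ext h
    exact hc h h.2
  have key : ∀ (n' : N') (h : H), b (x h) n' = 0 := by
    intro n'
    set κ : H → ZMod p := fun h => PAAux.t (b (x h) n') with hκ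
    have hj : ∀ h : H, PAAux.j (κ h) = b (x h) n' := fun h => PAAux.j_t (hpb _ _)
    have hκ1 : κ ∈ CC.Z1 (1 : H →* ZMod p) := by
      refine ⟨Conv.cont1_iff.2 ?_, fun g h => ?_⟩
      · obtain ⟨W, hW, hW'⟩ := hx.1
        refine ⟨W.subgroupOf H, hW.preimage continuous_subtype_val, fun g w hw => ?_⟩
        change PAAux.t (b (x ((g : GQ l) * w)) n') = _
        rw [hW' _ _ (Subgroup.mem_subgroupOf.1 hw)]
      · apply PAAux.j_inj
        rw [MonoidHom.one_apply, one_mul, PAAux.j_add, hj, hj, hj]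
        have h7 := hx.2 (g : GQ l) (h : GQ l)
        rw [hρ _ g.2] at h7
        change b (x ((g : GQ l) * h)) n' = _
        rw [h7, map_add, AddMonoidHom.add_apply]
        rfl
    have hκ0 : κ = 0 := by
      by_contra hne
      obtain ⟨φ, hφ, hφ'⟩ := hnd κ hκ1 hne
      apply hφ'
      apply Chain.cup_comm_mem hκ1 hφ
      set y0 : H → N' := fun h => (φ h).val • n' with hy0
      have hy0Z : y0 ∈ BKND.Z1 (ρ'.comp H.subtype) := by
        refine ⟨BKND.Loc1.map (Conv.cont1_iff.1 hφ.1) (fun c : ZMod p => c.val • n'),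
          fun g h => ?_⟩
        rw [show (ρ'.comp H.subtype) g = 1 from hρ' g g.2]
        change (φ (g * h)).val • n' = (φ g).val • n' + (φ h).val • n'
        rw [Chain.z1_mul hφ, val_add_smul hN']
      have h8 := hx0 _ (hTR.1 y0 hy0Z)
      have h9 := hTR.2.2.2.1 x hx y0 hy0Z
      have h10 := (BKND.B2 (actA (cyL p l))).add_mem h9 h8
      rw [sub_add_cancel] at h10
      have h11 : im (cor2 H (chm (cyL p l)) (CC.cup κ φ)) ∈ BKND.B2 (actA (cyL p l)) := by
        rw [im_cor2]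
        have h12 : (fun g h : H => PAAux.j (CC.cup κ φ g h)) =
            fun g h : H => b (x g) (ρ' g (y0 h)) := by
          funext g h
          rw [hρ' g g.2]
          change PAAux.j (κ g * φ h) = b (x g) ((φ h).val • n')
          rw [map_nsmul, ← hj g, mul_comm, j_mul]
        rw [h12]
        exact h10
      have hz0 : CC.cup κ φ ∈ CC.Z2 (1 : H →* ZMod p) := CC.cup_mem_Z2 hκ1 hφ
      have h12 : cor2 H (chm (cyL p l)) (CC.cup κ φ) ∈ CC.Z2 (chm (cyL p l)) := by
        refine (stTR (GQ l) H ho hfin (ZMod p) (chm (cyL p l)) (cont_chm hχ)).2.1 _ ?_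
        rw [hch1]
        exact hz0
      have h13 := (h3 p (GQ l) (cyL p l) hχ).2.2.2.1 (div_Z1 h4 h5 p l) _ h12 h11
      exact h2 p l hp2 H hn ho hd (z 1) hζ hfix _ hz0 h13
    intro h
    rw [← hj h, hκ0]
    exact j_zero
  have hres : (fun h : H => x h) ∈ BKND.B1 (ρ.comp H.subtype) := by
    refine ⟨0, fun h => ?_⟩
    rw [map_zero, sub_zero]
    exact hP.left _ fun n' => key n' h
  exact (hTR.2.2.2.2.2 p hp.out hd hN hSm).1 x hx hres

end BKLoc2
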