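import Pool.Agent.Lib.MP_7c08ba_nt.Met.LocStmts
import Pool.Agent.Lib.MP_7c08ba_nt.Odd.L3
import Pool.Agent.Lib.MP_7c08ba_nt.Odd.H90
import Pool.Agent.Lib.MP_7c08ba_nt.Odd.Kum
import Pool.Agent.Lib.MP_7c08ba_nt.Odd.CycL

set_option autoImplicit false

/-!
Module NMO: if the product of the Kummer cocycle of `Y` and `θ / p` vanishes then `Y` is a norm.
-/

noncomputable section

namespace BKLoc2

open BKOdd
open BKMet (QZ actA)

namespace NmOAux

variable {p : ℕ} [Fact p.Prime]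

/-! ### reduction of coefficients -/

lemma dvd_iff (x : ℤ_[p]) : (p : ℤ_[p]) ∣ x ↔ PadicInt.toZMod x = 0 := by
  rw [← RingHom.mem_ker, PadicInt.ker_toZMod, PadicInt.maximalIdeal_eq_span_p,
    Ideal.mem_span_singleton]

lemma cl_eq_of_dvd {x y : ℤ_[p]} (n : ℕ) (h : (p : ℤ_[p]) ^ n ∣ x - y) :
    cl p ((x : ℚ_[p]) / (p : ℚ_[p]) ^ n) = cl p ((y : ℚ_[p]) / (p : ℚ_[p]) ^ n) := by
  have hp : (p : ℚ_[p]) ≠ 0 := by
    exact_mod_cast (Fact.out : p.Prime).ne_zero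
  rw [cl, cl, Submodule.Quotient.eq]
  obtain ⟨c, hc⟩ := h
  refine ⟨c, ?_⟩
  have h1 : ((x : ℤ_[p]) : ℚ_[p]) - (y : ℚ_[p]) = (p : ℚ_[p]) ^ n * (c : ℚ_[p]) := by
    rw [← PadicInt.coe_sub, hc, PadicInt.coe_mul, PadicInt.coe_pow, PadicInt.coe_natCast]
  rw [← sub_div, h1, mul_div_cancel_left₀ _ (pow_ne_zero _ hp)]
  rfl

lemma cl_add (x y : ℚ_[p]) : cl p (x + y) = cl p x + cl p y := rfl

lemma cl_smul (c : ℤ_[p]) (x : ℚ_[p]) : cl p ((c : ℚ_[p]) * x) = c • cl p x := rfl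

/-- the product is the image of a product with values in `ℤ/p` -/
lemma sc_eq_im {G : Type*} [Group G] (κ θ : G → ℤ_[p]) :
    sc κ θ 1 = im (CC.cup (fun g => PadicInt.toZMod (κ g)) (fun g => PadicInt.toZMod (θ g))) := by
  funext g h
  have h1 : im (CC.cup (fun g => PadicInt.toZMod (κ g)) (fun g => PadicInt.toZMod (θ g))) g h =
      cl p ((((PadicInt.toZMod (κ g * θ h)).val : ℤ_[p]) : ℚ_[p]) / (p : ℚ_[p]) ^ 1) := by
    rw [im, CC.cup, map_mul, PadicInt.coe_natCast, pow_one]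
  rw [h1, sc]
  refine cl_eq_of_dvd 1 ?_
  rw [pow_one, dvd_iff, map_sub, map_natCast, ZMod.natCast_val, ZMod.cast_id, sub_self]

lemma continuous_toZMod : Continuous (PadicInt.toZMod : ℤ_[p] →+* ZMod p) := by
  have h1 : ∀ x : ℤ_[p], IsOpen {y : ℤ_[p] | PadicInt.toZMod y = PadicInt.toZMod x} := by
    intro x
    have h2 : {y : ℤ_[p] | PadicInt.toZMod y = PadicInt.toZMod x} =
        {y : ℤ_[p] | ‖y - x‖ < 1} := by
      ext y
      rw [Set.mem_ofPred_eq, Set.mem_ofPred_eq, ← sub_eq_zero, ← map_sub]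
      have h3 : PadicInt.toZMod (y - x) = 0 ↔ y - x ∈ IsLocalRing.maximalIdeal ℤ_[p] := by
        rw [← PadicInt.ker_toZMod, RingHom.mem_ker]
      rw [h3, IsLocalRing.mem_maximalIdeal, PadicInt.mem_nonunits]
    rw [h2]
    exact isOpen_lt (continuous_norm.comp (continuous_id.sub continuous_const)) continuous_const
  rw [continuous_discrete_rng]
  intro b
  by_cases hb : ∃ x : ℤ_[p], PadicInt.toZMod x = b
  · obtain ⟨x, rfl⟩ := hb
    exact h1 x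
  · have : (PadicInt.toZMod : ℤ_[p] →+* ZMod p) ⁻¹' {b} = ∅ := by
      ext y
      simp only [Set.mem_preimage, Set.mem_singleton_iff, Set.mem_empty_iff_false, iff_false]
      exact fun h => hb ⟨y, h⟩
    rw [this]
    exact isOpen_empty

lemma isOpen_dvd {X : Type*} [TopologicalSpace X] {f : X → ℤ_[p]} (hf : Continuous f) (n : ℕ) :
    IsOpen {x | (p : ℤ_[p]) ^ n ∣ f x} := by
  have hp : 0 < (p : ℝ) := by exact_mod_cast (Fact.out : p.Prime).pos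
  have h1 : {x | (p : ℤ_[p]) ^ n ∣ f x} = f ⁻¹' (Metric.closedBall 0 ((p : ℝ) ^ (-n : ℤ))) := by
    ext x
    show (p : ℤ_[p]) ^ n ∣ f x ↔ dist (f x) 0 ≤ _
    rw [dist_zero_right, PadicInt.norm_le_pow_iff_mem_span_pow, Ideal.mem_span_singleton]
  rw [h1]
  exact (IsUltrametricDist.isOpen_closedBall _ (zpow_ne_zero _ hp.ne')).preimage hf

/-- cocycles with values in `ℚ_p / ℤ_p (χ)` which come from `ℤ_p(χ)` -/
lemma mem_Z1 {V : Type*} [Group V] [TopologicalSpace V] [IsTopologicalGroup V]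
    {χ : V →* ℤ_[p]ˣ} {κ : V → ℤ_[p]} (hκ : κ ∈ CC.Z1 (chZ χ)) (n : ℕ) :
    (fun v => cl p ((κ v : ℚ_[p]) / (p : ℚ_[p]) ^ n)) ∈ BKND.Z1 (actA χ) := by
  obtain ⟨hc, hm⟩ := hκ
  have hm' : ∀ g h, κ (g * h) = κ g + ((χ g : ℤ_[p]ˣ) : ℤ_[p]) * κ h := hm
  have hone : κ 1 = 0 := by
    have h1 := hm' 1 1
    rw [mul_one, map_one, Units.val_one, one_mul] at h1
    exact left_eq_add.1 h1
  have hco : ∀ g h, cl p ((κ (g * h) : ℚ_[p]) / (p : ℚ_[p]) ^ n) =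
      cl p ((κ g : ℚ_[p]) / (p : ℚ_[p]) ^ n) +
        ((χ g : ℤ_[p]ˣ) : ℤ_[p]) • cl p ((κ h : ℚ_[p]) / (p : ℚ_[p]) ^ n) := fun g h => by
    rw [← cl_smul, ← cl_add, hm', PadicInt.coe_add, PadicInt.coe_mul, add_div, mul_div_assoc]
  refine ⟨⟨{ carrier := {v | (p : ℤ_[p]) ^ n ∣ κ v}
             mul_mem' := ?_
             one_mem' := ?_
             inv_mem' := ?_ }, isOpen_dvd hc n, ?_⟩, fun g h => hco g h⟩
  · intro a b ha hb
    show (p : ℤ_[p]) ^ n ∣ κ (a * b)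
    rw [hm']
    exact dvd_add ha (hb.mul_left _)
  · show (p : ℤ_[p]) ^ n ∣ κ 1
    rw [hone]
    exact dvd_zero _
  · intro a ha
    show (p : ℤ_[p]) ^ n ∣ κ a⁻¹
    have h1 := hm' a⁻¹ a
    rw [inv_mul_cancel, hone] at h1
    have h2 : κ a⁻¹ = -(((χ a⁻¹ : ℤ_[p]ˣ) : ℤ_[p]) * κ a) := by
      linear_combination -h1
    rw [h2]
    exact ((show (p : ℤ_[p]) ^ n ∣ κ a from ha).mul_left _).neg_right
  · intro g w hw
    show cl p ((κ (g * w) : ℚ_[p]) / (p : ℚ_[p]) ^ n) = cl p ((κ g : ℚ_[p]) / (p : ℚ_[p]) ^ n)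
    refine cl_eq_of_dvd n ?_
    rw [hm', add_sub_cancel_left]
    exact (show (p : ℤ_[p]) ^ n ∣ κ w from hw).mul_left _

/-- `cl` of one `p`-th -/
lemma nsmul_cl (x : ℚ_[p]) (n : ℕ) :
    p • cl p (x / (p : ℚ_[p]) ^ (n + 1)) = cl p (x / (p : ℚ_[p]) ^ n) := by
  have hp : (p : ℚ_[p]) ≠ 0 := by
    exact_mod_cast (Fact.out : p.Prime).ne_zero
  have h1 : p • cl p (x / (p : ℚ_[p]) ^ (n + 1)) = cl p (p • (x / (p : ℚ_[p]) ^ (n + 1))) := rfl
  rw [h1, nsmul_eq_mul, pow_succ']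
  congr 1
  field_simp

/-! ### norms -/

section Norms

variable {k Ω : Type} [Field k] [Field Ω] [Algebra k Ω] {V : Type} [Group V]
  {e : V →* (Ω ≃ₐ[k] Ω)}

/-- elements congruent modulo `H` act in the same way -/
lemma act_eq {H : Subgroup V} {c : Ω} (hc : ∀ h ∈ H, e h c = c) {a b : V} (h : a⁻¹ * b ∈ H) :
    e a c = e b c := by
  have h1 := hc _ h
  have h2 : e a (e (a⁻¹ * b) c) = e b c := by
    rw [← AlgEquiv.mul_apply, ← map_mul, mul_inv_cancel_left]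
  rw [← h2, h1]

omit [Fact p.Prime] in
/-- the norms are a group -/
lemma isNm_zpow {H : Subgroup V} {σ : V} {Y : Ω} (hY0 : Y ≠ 0) (hY : Fx e Y) (d : ℕ)
    (hd : Nat.Coprime d p) (h : IsNm e p H σ (Y ^ d)) : IsNm e p H σ Y := by
  obtain ⟨c, hc0, hcH, hcn⟩ := h
  obtain ⟨u, v, huv⟩ : ∃ u v : ℤ, (d : ℤ) * u + p * v = 1 := by
    have h1 : IsCoprime (d : ℤ) (p : ℤ) := Nat.isCoprime_iff_coprime.2 hd
    obtain ⟨a, b, hab⟩ := h1
    exact ⟨a, b, by linear_combination hab⟩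
  refine ⟨c ^ u * Y ^ v, mul_ne_zero (zpow_ne_zero _ hc0) (zpow_ne_zero _ hY0), fun h hh => ?_, ?_⟩
  · rw [map_mul, map_zpow₀, map_zpow₀, hcH h hh, hY]
  · have h1 : ∀ i, e (σ ^ i) (c ^ u * Y ^ v) = (e (σ ^ i) c) ^ u * Y ^ v := fun i => by
      rw [map_mul, map_zpow₀, map_zpow₀, hY]
    rw [Finset.prod_congr rfl fun i _ => h1 i, Finset.prod_mul_distrib, Finset.prod_const,
      Finset.card_range, Finset.prod_zpow, hcn, ← zpow_natCast, ← zpow_natCast, ← zpow_mul,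
      ← zpow_mul, ← zpow_add₀ hY0, mul_comm v, huv, zpow_one]

end Norms

end NmOAux

open NmOAux in
/-- Module NMO. -/
theorem stNmO (h1 : StPA) (h2 : StZ1A) (h3 : StKPE) : StNmO := by
  intro p _ k Ω _ _ _ _ _ _ V _ _ _ _ _ e he z hz θ hθ σ hσ H hH Y hY0 hYf κ hκ hsc
  have hp : p.Prime := Fact.out
  have hl3 : StL3 := stL3 stH90 (stKum stH90)
  obtain ⟨hχc, hzact, -, hK1, -, -⟩ := h3 p k Ω V e he.continuous z hz
  obtain ⟨χ, hχ⟩ : ∃ χ : V →* ℤ_[p]ˣ, (cy p k Ω).comp e = χ := ⟨_, rfl⟩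
  have hχv : ∀ v, cy p k Ω (e v) = χ v := fun v => by rw [← hχ]; rfl
  have hκ1 := hK1 Y κ hY0 hκ
  have hz1a := h2 p k Ω V e he z hz
  rw [hχ] at hχc hK1 hκ1 hsc hz1a
  simp only [hχv] at hzact
  -- the reduction
  obtain ⟨κ', hκ'⟩ : ∃ κ' : V → ZMod p, ∀ v, κ' v = PadicInt.toZMod (κ v) := ⟨_, fun _ => rfl⟩
  obtain ⟨θ', hθ'⟩ : ∃ θ' : V → ZMod p, ∀ v, θ' v = PadicInt.toZMod (θ v) := ⟨_, fun _ => rfl⟩
  have hκ'1 : κ' ∈ CC.Z1 (chm χ) := by
    refine ⟨?_, fun g h => ?_⟩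
    · rw [show κ' = fun v => PadicInt.toZMod (κ v) from funext hκ']
      exact continuous_toZMod.comp hκ1.1
    · rw [hκ', hκ', hκ', hκ1.2, map_add, map_mul]
      rfl
  have hθ'm : ∀ g h, θ' (g * h) = θ' g + θ' h := fun g h => by
    rw [hθ', hθ', hθ', hθ.mul, map_add]
  have hθ'c : Continuous θ' := by
    rw [show θ' = fun v => PadicInt.toZMod (θ v) from funext hθ']
    exact continuous_toZMod.comp hθ.cont
  have hθ'1 : θ' ∈ CC.Z1 (1 : V →* ZMod p) :=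
    ⟨hθ'c, fun g h => by rw [hθ'm, MonoidHom.one_apply, one_mul]⟩
  have hHθ : ∀ g, g ∈ H ↔ θ' g = 0 := fun g => by rw [hH, dvd_iff, hθ']
  have hB2 : CC.cup κ' θ' ∈ CC.B2 (chm χ) := by
    refine (h1 p V χ hχc).2.2.2.1 (fun β hβ => ?_) _ (CC.cup_mem_Z2 hκ'1 hθ'1) ?_
    · obtain ⟨a, ha0, haf, μ, hμ, n, hn⟩ := hz1a β hβ
      have hμ1 := hK1 a μ ha0 hμ
      refine ⟨_, mem_Z1 hμ1 (n + 1), ?_⟩
      funext v
      rw [hn v, Pi.smul_apply, nsmul_cl]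
    · have h5 := sc_eq_im κ θ
      rw [show κ' = fun v => PadicInt.toZMod (κ v) from funext hκ',
        show θ' = fun v => PadicInt.toZMod (θ v) from funext hθ', ← h5]
      exact hsc
  obtain ⟨γ, hγc, hγ⟩ := hB2
  -- the subgroup `V'`
  obtain ⟨ω, hω⟩ : ∃ ω : V →* (ZMod p)ˣ, ∀ v,
      ((ω v : (ZMod p)ˣ) : ZMod p) = PadicInt.toZMod ((χ v : ℤ_[p]ˣ) : ℤ_[p]) :=
    ⟨(Units.map (PadicInt.toZMod : ℤ_[p] →+* ZMod p).toMonoidHom).comp χ, fun v => rfl⟩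
  have hωker : ∀ v, v ∈ ω.ker ↔ chm χ v = 1 := fun v => by
    rw [MonoidHom.mem_ker, ← Units.val_inj, hω, Units.val_one]
    rfl
  have hchmc : Continuous (chm χ) :=
    continuous_toZMod.comp (Units.continuous_val.comp hχc)
  have hopen : IsOpen (ω.ker : Set V) := by
    have h5 : (ω.ker : Set V) = (chm χ) ⁻¹' {1} := by
      ext v
      exact hωker v
    rw [h5]
    exact (isOpen_discrete _).preimage hchmc
  have he' : Topology.IsOpenEmbedding (e.comp ω.ker.subtype) := by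
    rw [MonoidHom.coe_comp]
    exact he.comp hopen.isOpenEmbedding_subtypeVal
  have hζ : IsPrimitiveRoot (z 1) p := by
    have h5 := hz.prim 1
    rwa [pow_one] at h5
  have hred : ∀ x : ℤ_[p], (z 1) ^ (PadicInt.toZModPow 1 x).val =
      (z 1) ^ (PadicInt.toZMod x).val := fun x => by
    rw [CycLAux.toZMod_eq x, ZMod.val_natCast]
    exact pow_eq_pow_mod _ hζ.pow_eq_one
  have hfix : Fx (e.comp ω.ker.subtype) (z 1) := fun v => by
    have h5 := hzact 1 (v : V)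
    rw [hred] at h5
    have h6 : PadicInt.toZMod ((χ (v : V) : ℤ_[p]ˣ) : ℤ_[p]) = 1 := (hωker v).1 v.2
    have : Fact (1 < p) := ⟨hp.one_lt⟩
    rw [h6, ZMod.val_one, pow_one] at h5
    exact h5
  -- the element `σ'`
  obtain ⟨N, hN⟩ : ∃ N : ℕ, N = (p - 1) * (p - 1) := ⟨_, rfl⟩
  have hNp : ((N : ℕ) : ZMod p) = 1 := by
    rw [hN, Nat.cast_mul, Nat.cast_sub hp.one_lt.le, ZMod.natCast_self, Nat.cast_one]
    ring
  have hσ' : σ ^ N ∈ ω.ker := by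
    rw [MonoidHom.mem_ker, map_pow, hN, pow_mul, ZMod.units_pow_card_sub_one_eq_one]
  have hθpow : ∀ i : ℕ, θ' (σ ^ i) = i := fun i => by
    refine L3.chi_pow hθ'm ?_ i
    rw [hθ', hσ, map_one]
  have hθσ : θ' (σ ^ N) = 1 := by rw [hθpow, hNp]
  obtain ⟨y, hy0, hyp, hyact⟩ := hκ
  have hyY : y 1 ^ p = Y := by
    have h5 := hyp 0
    rw [hy0] at h5
    exact h5
  have hy1 : y 1 ≠ 0 := by
    intro h5
    rw [h5, zero_pow hp.ne_zero] at hyY
    exact hY0 hyY.symm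
  -- the norm over `V'`
  obtain ⟨c, hc0, hcH, hcn⟩ := (hl3 k Ω ω.ker (e.comp ω.ker.subtype) he' p (z 1) hζ hfix
    (fun v => θ' v) ⟨hθ'c.comp continuous_subtype_val, fun g h => by
      show θ' ((g : V) * (h : V)) = θ' g + (1 : ω.ker →* ZMod p) g * θ' h
      rw [hθ'm, MonoidHom.one_apply, one_mul]⟩ (H.subgroupOf ω.ker)
    (fun g => by rw [Subgroup.mem_subgroupOf, hHθ]) ⟨σ ^ N, hσ'⟩ hθσ Y hY0
    (fun v => hYf v) (fun v => κ' v) ⟨y 1, hy1, hyY, fun v => by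
      have h5 := hyact 1 (v : V)
      rw [hred, ← hκ'] at h5
      exact h5⟩).1 ⟨fun v => γ v, hγc.comp continuous_subtype_val, fun g h => by
      have h5 := hγ (g : V) (h : V)
      have h6 : chm χ (g : V) = 1 := (hωker g).1 g.2
      rw [h6] at h5
      rw [MonoidHom.one_apply]
      exact h5⟩
  have hcn' : ∏ i ∈ Finset.range p, e ((σ ^ N) ^ i) c = Y := hcn
  have hcH' : ∀ h ∈ H ⊓ ω.ker, e h c = c := fun h hh =>
    hcH ⟨h, hh.2⟩ hh.1
  -- the product over the cosets of `H`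
  obtain ⟨K, hK⟩ : ∃ K : Subgroup H, K = (ω.comp H.subtype).ker := ⟨_, rfl⟩
  have hKm : ∀ h : H, h ∈ K ↔ (h : V) ∈ ω.ker := fun h => by rw [hK]; rfl
  have hidx : K.index ∣ p - 1 := by
    rw [hK, Subgroup.index_ker]
    refine (Subgroup.card_subgroup_dvd_card _).trans ?_
    rw [Nat.card_eq_fintype_card, ZMod.card_units_eq_totient, Nat.totient_prime hp]
  have hp1 : p - 1 ≠ 0 := by
    have := hp.two_le
    omega
  have hK0 : K.index ≠ 0 := fun h5 => by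
    rw [h5, zero_dvd_iff] at hidx
    exact hp1 hidx
  have hKf : K.FiniteIndex := ⟨hK0⟩
  have hfin : Finite (H ⧸ K) := inferInstance
  have := Fintype.ofFinite (H ⧸ K)
  have hcop : Nat.Coprime (Fintype.card (H ⧸ K)) p := by
    rw [← Nat.card_eq_fintype_card]
    have h5 : Nat.Coprime (p - 1) p := by
      rw [Nat.coprime_comm]
      exact (hp.coprime_iff_not_dvd).2 fun h6 => by
        have := Nat.le_of_dvd (by omega) h6
        have := hp.pos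
        omega
    exact Nat.Coprime.coprime_dvd_left hidx h5
  refine isNm_zpow hY0 hYf _ hcop ?_
  have hHn : ∀ g : V, ∀ h ∈ H, g⁻¹ * h * g ∈ H := fun g h hh => by
    have h1g : θ' (g⁻¹ * g) = 0 := by
      have h5 := hθ'm 1 1
      rw [mul_one] at h5
      rw [inv_mul_cancel]
      exact left_eq_add.1 h5
    rw [hθ'm] at h1g
    rw [hHθ, hθ'm, hθ'm, (hHθ h).1 hh]
    linear_combination h1g
  have hinv : ∀ h ∈ H, e h (∏ q : H ⧸ K, e (q.out : V) c) = ∏ q : H ⧸ K, e (q.out : V) c := by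
    intro h hh
    rw [map_prod]
    have h5 : ∀ q : H ⧸ K, e h (e (q.out : V) c) = e (((⟨h, hh⟩ : H) • q).out : V) c := fun q => by
      rw [← AlgEquiv.mul_apply, ← map_mul]
      refine (act_eq hcH' ?_).symm
      have h6 : (((⟨h, hh⟩ : H) • q).out)⁻¹ * (⟨h, hh⟩ * q.out) ∈ K := by
        rw [← QuotientGroup.eq, QuotientGroup.out_eq']
        conv_lhs => rw [← QuotientGroup.out_eq' q]
        rfl
      exact ⟨((((⟨h, hh⟩ : H) • q).out)⁻¹ * (⟨h, hh⟩ * q.out)).2, (hKm _).1 h6⟩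
    rw [Finset.prod_congr rfl fun q _ => h5 q]
    exact Equiv.prod_comp (MulAction.toPerm (⟨h, hh⟩ : H) : Equiv.Perm (H ⧸ K))
      (fun q => e (q.out : V) c)
  have hθinv : ∀ g : V, θ' g⁻¹ = -θ' g := fun g => by
    have h5 := hθ'm 1 1
    rw [mul_one] at h5
    have h6 := hθ'm g⁻¹ g
    rw [inv_mul_cancel, left_eq_add.1 h5] at h6
    linear_combination -h6
  refine ⟨∏ q : H ⧸ K, e (q.out : V) c, Finset.prod_ne_zero_iff.2 fun q _ => ?_, hinv, ?_⟩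
  · rw [Ne, EmbeddingLike.map_eq_zero_iff]
    exact hc0
  · -- the norm
    have hpowk : ∀ i : ℕ, (σ ^ N) ^ i ∈ ω.ker := fun i => ω.ker.pow_mem hσ' i
    have h5 : ∀ i ∈ Finset.range p, e (σ ^ i) (∏ q : H ⧸ K, e (q.out : V) c) =
        ∏ q : H ⧸ K, e (q.out : V) (e ((σ ^ N) ^ i) c) := fun i _ => by
      have h6 : (σ ^ i)⁻¹ * (σ ^ N) ^ i ∈ H := by
        rw [hHθ, hθ'm, hθinv, ← pow_mul, hθpow, hθpow, Nat.cast_mul, hNp]
        ring
      rw [act_eq hinv h6, map_prod]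
      refine Finset.prod_congr rfl fun q _ => ?_
      rw [← AlgEquiv.mul_apply, ← AlgEquiv.mul_apply, ← map_mul, ← map_mul]
      refine act_eq hcH' ⟨?_, ?_⟩
      · show ((σ ^ N) ^ i * (q.out : V))⁻¹ * ((q.out : V) * (σ ^ N) ^ i) ∈ H
        rw [hHθ, hθ'm, hθinv, hθ'm, hθ'm]
        ring
      · show ((σ ^ N) ^ i * (q.out : V))⁻¹ * ((q.out : V) * (σ ^ N) ^ i) ∈ ω.ker
        rw [MonoidHom.mem_ker]
        simp only [map_mul, map_inv, (MonoidHom.mem_ker).1 (hpowk i)]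
        group
    rw [Finset.prod_congr rfl h5, Finset.prod_comm]
    have h6 : ∀ q : H ⧸ K, ∏ i ∈ Finset.range p, e (q.out : V) (e ((σ ^ N) ^ i) c) = Y := fun q => by
      rw [← map_prod, hcn', hYf]
    rw [Finset.prod_congr rfl fun q _ => h6 q, Finset.prod_const, Finset.card_univ]

end BKLoc2
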