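import Pool.Agent.Lib.MP_7c08ba_nt.Met.LocStmts

set_option autoImplicit false

/-!
Parity without rigidity, local part, module RLA: products with the Kummer cocycle of a unit of
`ℚ_l`, `l ≠ p`.
-/

noncomputable section

namespace BKLoc2

open BKOdd
open BKMet (QZ actA)

namespace RLAAux

section Kummer

variable {p : ℕ} [Fact p.Prime] {k Ω : Type} [Field k] [Field Ω] [Algebra k Ω] [IsGalois k Ω]
  [IsAlgClosed Ω] [CharZero Ω] {V : Type} [Group V] [TopologicalSpace V]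
  [IsTopologicalGroup V] {e : V →* (Ω ≃ₐ[k] Ω)}

omit [IsGalois k Ω] [IsAlgClosed Ω] [CharZero Ω] [TopologicalSpace V] [IsTopologicalGroup V] in
theorem isKP_one (z : ℕ → Ω) : IsKP e z (1 : Ω) (0 : V → ℤ_[p]) := by
  refine ⟨fun _ => 1, rfl, fun _ => one_pow _, fun n v => ?_⟩
  rw [map_one, Pi.zero_apply, map_zero, ZMod.val_zero, pow_zero, one_mul]

theorem isKP_pow (h1 : StKPE) (he : Continuous e) {z : ℕ → Ω} (hz : Sys p z) {a : Ω}
    {κ : V → ℤ_[p]} (ha : a ≠ 0) (hκ : IsKP e z a κ) (n : ℕ) : IsKP e z (a ^ n) (n • κ) := by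
  obtain ⟨-, -, -, -, h5, -⟩ := h1 p k Ω V e he z hz
  induction n with
  | zero =>
    rw [pow_zero, zero_nsmul]
    exact isKP_one z
  | succ n ih =>
    rw [pow_succ, succ_nsmul]
    exact h5 _ _ _ _ (pow_ne_zero n ha) ha ih hκ

end Kummer

section Pro

variable {p : ℕ} [Fact p.Prime] {V : Type} [Group V] [TopologicalSpace V] [IsTopologicalGroup V]
    [CompactSpace V] [NonarchimedeanGroup V] {χ : V →* ℤ_[p]ˣ}

theorem sc_nsmul (h2 : StSC) (hχ : Continuous χ) {θ : V → ℤ_[p]} (hθ : IsHom θ)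
    (κ : V → ℤ_[p]) (m n : ℕ) : sc (n • κ) θ m = n • sc κ θ m := by
  obtain ⟨-, h3, -, -, -, h6⟩ := h2 p V χ hχ θ hθ
  induction n with
  | zero =>
    rw [zero_nsmul, zero_nsmul]
    exact h6 _ _ fun v => by rw [Pi.zero_apply]; exact dvd_zero _
  | succ n ih => rw [succ_nsmul, succ_nsmul, h3, ih]

/-- the main step -/
theorem main_step (h2 : StSC) (hχ : Continuous χ) {θ : V → ℤ_[p]} (hθ : IsHom θ)
    {κ μ : V → ℤ_[p]} {N s n m : ℕ} (hN : N = p ^ s * n) (hn : ¬ p ∣ n) {c : ℤ_[p]}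
    (hc : ∀ v, (N • κ) v - (p ^ (m + s) • μ) v = (chZ χ v - 1) * c) :
    sc κ θ m ∈ BKND.B2 (actA χ) := by
  have hp : p.Prime := Fact.out
  obtain ⟨-, h3, h4, h5, -, h6⟩ := h2 p V χ hχ θ hθ
  have e1 : N • κ = p ^ (m + s) • μ + (N • κ - p ^ (m + s) • μ) := by abel
  have e2 : sc (N • κ) θ (m + s) ∈ BKND.B2 (actA χ) := by
    rw [e1, h3]
    refine add_mem ?_ (h5 _ c hc _)
    rw [h6 (p ^ (m + s) • μ) (m + s) fun v => ?_]
    · exact zero_mem _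
    · refine ⟨μ v, ?_⟩
      rw [Pi.smul_apply, nsmul_eq_mul]
      push_cast
      rfl
  have e3 : sc (N • κ) θ (m + s) = n • sc κ θ m := by
    rw [sc_nsmul h2 hχ hθ, hN, mul_comm, mul_smul, h4]
  rw [e3] at e2
  have e4 : p ^ m • sc κ θ m = 0 := by
    have := h4 κ 0 m
    rw [zero_add] at this
    rw [this]
    exact h6 _ _ fun v => by rw [pow_zero]; exact one_dvd _
  have hcop : Nat.Coprime n (p ^ m) :=
    Nat.Coprime.pow_right _ (Nat.Coprime.symm ((Nat.Prime.coprime_iff_not_dvd hp).2 hn))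
  have hb : (n : ℤ) * Nat.gcdA n (p ^ m) + ((p ^ m : ℕ) : ℤ) * Nat.gcdB n (p ^ m) = 1 := by
    rw [← Nat.gcd_eq_gcd_ab, hcop.gcd_eq_one]
    rfl
  have e5 : sc κ θ m = Nat.gcdA n (p ^ m) • (n • sc κ θ m) +
      Nat.gcdB n (p ^ m) • (p ^ m • sc κ θ m) := by
    rw [← natCast_zsmul (sc κ θ m) n, ← natCast_zsmul (sc κ θ m) (p ^ m), ← mul_smul, ← mul_smul,
      ← add_smul, mul_comm, mul_comm (Nat.gcdB _ _), hb, one_smul]
  rw [e5, e4, smul_zero, add_zero]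
  exact zsmul_mem e2 _

end Pro

/-- the power of order `l - 1` of a unit -/
theorem pow_sub_one {l : ℕ} [Fact l.Prime] {a : ℚ_[l]} (ha : ‖a‖ = 1) :
    ‖a ^ (l - 1) - 1‖ < 1 := by
  set b : ℤ_[l] := ⟨a, ha.le⟩ with hb
  have h1 : PadicInt.toZMod b ≠ 0 := by
    intro h
    have h2 : b ∈ RingHom.ker (PadicInt.toZMod (p := l)) := h
    rw [PadicInt.ker_toZMod, IsLocalRing.mem_maximalIdeal, PadicInt.mem_nonunits] at h2
    exact absurd h2 (by rw [PadicInt.norm_def]; exact not_lt.2 ha.ge)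
  have h3 : b ^ (l - 1) - 1 ∈ RingHom.ker (PadicInt.toZMod (p := l)) := by
    rw [RingHom.mem_ker, map_sub, map_pow, map_one, ZMod.pow_card_sub_one_eq_one h1, sub_self]
  rw [PadicInt.ker_toZMod, IsLocalRing.mem_maximalIdeal, PadicInt.mem_nonunits,
    PadicInt.norm_def] at h3
  have e : ((b ^ (l - 1) - 1 : ℤ_[l]) : ℚ_[l]) = a ^ (l - 1) - 1 := by
    rw [PadicInt.coe_sub, PadicInt.coe_pow, PadicInt.coe_one]
  rwa [e] at h3

/-- roots of the power -/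
theorem exists_root_pow (h3 : StLsT) {p l : ℕ} [Fact p.Prime] [Fact l.Prime] (hlp : l ≠ p)
    {a : ℚ_[l]} (ha : ‖a‖ = 1) (K : ℕ) : ∃ w : PadicAlgCl l, w ≠ 0 ∧
      (∀ g : GQ l, g w = w) ∧ w ^ p ^ K = (algebraMap ℚ_[l] (PadicAlgCl l) a) ^ (l - 1) := by
  obtain ⟨U, hU, -, hdiv, -⟩ := h3 p l hlp ⊤ isOpen_univ
  have ha0 : a ≠ 0 := by
    rintro rfl
    simp at ha
  have hA0 : algebraMap ℚ_[l] (PadicAlgCl l) a ≠ 0 := (map_ne_zero _).2 ha0
  set v : (PadicAlgCl l)ˣ := Units.mk0 _ (pow_ne_zero (l - 1) hA0) with hv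
  have hvv : (v : PadicAlgCl l) = algebraMap ℚ_[l] (PadicAlgCl l) a ^ (l - 1) := rfl
  have hvU : v ∈ U := by
    rw [hU, hvv]
    refine ⟨fun h _ => by rw [map_pow, h.commutes], ?_⟩
    have e : (algebraMap ℚ_[l] (PadicAlgCl l) a) ^ (l - 1) - 1 =
        algebraMap ℚ_[l] (PadicAlgCl l) (a ^ (l - 1) - 1) := by
      rw [map_sub, map_pow, map_one]
    rw [e]
    have := PadicAlgCl.norm_extends l (a ^ (l - 1) - 1)
    exact this.trans_lt (pow_sub_one ha)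
  have hK : ∃ w ∈ U, w ^ p ^ K = v := by
    induction K with
    | zero => exact ⟨v, hvU, by rw [pow_zero, pow_one]⟩
    | succ K ih =>
      obtain ⟨w, hw, hwv⟩ := ih
      obtain ⟨w', hw', hww⟩ := hdiv w hw
      exact ⟨w', hw', by rw [pow_succ', pow_mul, hww, hwv]⟩
  obtain ⟨w, hw, hwv⟩ := hK
  refine ⟨w, w.ne_zero, fun g => ((hU w).1 hw).1 g (Subgroup.mem_top g), ?_⟩
  rw [← Units.val_pow_eq_pow_val, hwv, hvv]

theorem nonarch (l : ℕ) [Fact l.Prime] : NonarchimedeanGroup (GQ l) where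
  is_nonarchimedean U hU := by
    obtain ⟨E, hE, hEU⟩ := krullTopology_mem_nhds_one_iff ℚ_[l] (PadicAlgCl l) U |>.1 hU
    exact ⟨⟨E.fixingSubgroup, IntermediateField.fixingSubgroup_isOpen E⟩, hEU⟩

end RLAAux

open RLAAux

theorem stRLa (h1 : StKPE) (h2 : StSC) (h3 : StLsT) : StRLa := by
  intro p l hp hl hlp z hz a ha κ hκ θ hθ m
  have ha0 : a ≠ 0 := by
    rintro rfl
    simp at ha
  have hA0 : algebraMap ℚ_[l] (PadicAlgCl l) a ≠ 0 := (map_ne_zero _).2 ha0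
  have hN0 : l - 1 ≠ 0 := by
    have := hl.out.one_lt
    omega
  obtain ⟨s, n, hn, hN⟩ := Nat.exists_eq_pow_mul_and_not_dvd hN0 p hp.out.ne_one
  obtain ⟨w, hw0, hw, hwv⟩ := exists_root_pow h3 hlp ha (m + s)
  obtain ⟨k1, -, k3, -, -, k6⟩ := h1 p ℚ_[l] (PadicAlgCl l) (GQ l) (MonoidHom.id (GQ l))
    continuous_id z hz
  obtain ⟨μ, hμ⟩ := k3 w hw0 hw
  have := nonarch l
  have p1 := isKP_pow h1 continuous_id hz hA0 hκ (l - 1)
  have p2 := isKP_pow h1 continuous_id hz hw0 hμ (p ^ (m + s))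
  rw [hwv] at p2
  obtain ⟨c, hc⟩ := k6 _ _ _ (pow_ne_zero _ hA0) p2 p1
  exact main_step h2 k1 hθ hN hn hc

end BKLoc2
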