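import Pool.Agent.Lib.MP_7c08ba_nt.Met.LocStmts

set_option autoImplicit false

/-!
Module RLB: products with the Kummer cocycle of `l` over `ℚ_l`, with values in `ℚ_p / ℤ_p (χ)`,
`l ≠ p`.
-/

noncomputable section

namespace BKLoc2

open BKOdd
open BKMet (QZ actA)

namespace RLBAux

/-- the Galois group of `ℚ_l` is nonarchimedean -/
theorem nonarch (l : ℕ) [Fact l.Prime] : NonarchimedeanGroup (GQ l) where
  is_nonarchimedean := by
    intro U hU
    rw [krullTopology_mem_nhds_one_iff] at hU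
    obtain ⟨E, hE, hEU⟩ := hU
    exact ⟨⟨E.fixingSubgroup, E.fixingSubgroup_isOpen⟩, hEU⟩

variable {p : ℕ} [Fact p.Prime]

/-! ### cochains -/

section cochains

variable {V : Type} [Group V] [TopologicalSpace V]

theorem B2_smul (χ : V →* ℤ_[p]ˣ) (c : ℤ_[p]) {α : V → V → QZ p}
    (h : α ∈ BKND.B2 (actA χ)) : (fun g h => c • α g h) ∈ BKND.B2 (actA χ) := by
  obtain ⟨β, hβ, hβ'⟩ := h
  refine ⟨fun g => c • β g, BKND.Loc1.map hβ (fun x => c • x), fun g h => ?_⟩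
  simp only [hβ', smul_add, smul_sub, BKMet.actA_apply]
  rw [smul_comm]

omit [TopologicalSpace V] [Group V] in
theorem sc_smul (κ θ : V → ℤ_[p]) (c : ℤ_[p]) (m : ℕ) :
    sc κ (fun g => c * θ g) m = fun g h => c • sc κ θ m g h := by
  funext g h
  change cl p _ = c • cl p _
  have h1 : ∀ x : ℚ_[p], c • cl p x = cl p ((c : ℚ_[p]) * x) := fun x => rfl
  rw [h1]
  congr 1
  push_cast
  ring

omit [TopologicalSpace V] [Group V] in
theorem sc_shift (κ θ : V → ℤ_[p]) (t m : ℕ) :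
    sc κ (fun g => (p : ℤ_[p]) ^ t * θ g) (t + m) = sc κ θ m := by
  have hp : (p : ℚ_[p]) ≠ 0 := by
    exact_mod_cast (Fact.out : p.Prime).ne_zero
  funext g h
  change cl p _ = cl p _
  congr 1
  push_cast
  rw [pow_add]
  field_simp

omit [Group V] in
theorem cont_div {θ θ' : V → ℤ_[p]} (t : ℕ) (h : ∀ g, θ g = (p : ℤ_[p]) ^ t * θ' g)
    (hc : Continuous θ) : Continuous θ' := by
  have hp : (p : ℤ_[p]) ≠ 0 := by
    exact_mod_cast (Fact.out : p.Prime).ne_zero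
  have h1 : Topology.IsClosedEmbedding (fun x : ℤ_[p] => (p : ℤ_[p]) ^ t * x) :=
    Continuous.isClosedEmbedding (by fun_prop) (mul_right_injective₀ (pow_ne_zero _ hp))
  rw [h1.toIsEmbedding.continuous_iff]
  have h2 : (fun x : ℤ_[p] => (p : ℤ_[p]) ^ t * x) ∘ θ' = θ := by
    funext g
    exact (h g).symm
  rw [h2]
  exact hc

/-- the reduction of a homomorphism -/
def red {θ : V → ℤ_[p]} (hθ : IsHom θ) : V →* Multiplicative (ZMod p) :=
  MonoidHom.mk' (fun g => Multiplicative.ofAdd (PadicInt.toZMod (θ g))) fun g h => by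
    rw [hθ.mul, map_add, ofAdd_add]

theorem dvd_iff (x : ℤ_[p]) : (p : ℤ_[p]) ∣ x ↔ PadicInt.toZMod x = 0 := by
  rw [← RingHom.mem_ker, PadicInt.ker_toZMod, PadicInt.maximalIdeal_eq_span_p,
    Ideal.mem_span_singleton]

theorem mem_ker {θ : V → ℤ_[p]} (hθ : IsHom θ) (g : V) :
    g ∈ (red hθ).ker ↔ (p : ℤ_[p]) ∣ θ g := by
  rw [dvd_iff, MonoidHom.mem_ker]
  exact ofAdd_eq_one

theorem isOpen_ker {θ : V → ℤ_[p]} (hθ : IsHom θ) : IsOpen ((red hθ).ker : Set V) := by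
  have h1 : ((red hθ).ker : Set V) = θ ⁻¹' {x | ‖x‖ < 1} := by
    ext g
    rw [SetLike.mem_coe, mem_ker, Set.mem_preimage, Set.mem_ofPred_eq,
      PadicInt.norm_lt_one_iff_dvd]
  rw [h1]
  exact (isOpen_lt continuous_norm continuous_const).preimage hθ.cont

theorem index_ker {θ : V → ℤ_[p]} (hθ : IsHom θ) {σ : V} (hσ : θ σ = 1) :
    (red hθ).ker.index = p := by
  have h1 : Function.Surjective (red hθ) := by
    intro x
    refine ⟨σ ^ (Multiplicative.toAdd x).val, ?_⟩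
    rw [map_pow]
    change (Multiplicative.ofAdd (PadicInt.toZMod (θ σ))) ^ _ = x
    rw [hσ, map_one, ← ofAdd_nsmul, nsmul_eq_mul, mul_one, ZMod.natCast_zmod_val]
    rfl
  rw [Subgroup.index_ker, MonoidHom.range_eq_top.2 h1]
  simp

end cochains

/-! ### norms -/

section norms

variable {k Ω : Type*} [Field k] [Field Ω] [Algebra k Ω] {V : Type*} [Group V]
  (e : V →* (Ω ≃ₐ[k] Ω))

/-- the fixed elements -/
def fxS : Subgroup Ωˣ where
  carrier := {Y | Fx e (Y : Ω)}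
  mul_mem' := by
    intro a b ha hb v
    rw [Units.val_mul, map_mul, ha v, hb v]
  one_mem' := fun v => by rw [Units.val_one, map_one]
  inv_mem' := by
    intro a ha v
    rw [Units.val_inv_eq_inv_val, map_inv₀, ha v]

/-- the norms -/
def nmS (q : ℕ) (H : Subgroup V) (σ : V) : Subgroup Ωˣ where
  carrier := {Y | IsNm e q H σ (Y : Ω)}
  mul_mem' := by
    rintro a b ⟨c, hc, hc1, hc2⟩ ⟨d, hd, hd1, hd2⟩
    refine ⟨c * d, mul_ne_zero hc hd, fun h hh => by rw [map_mul, hc1 h hh, hd1 h hh], ?_⟩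
    simp only [map_mul, Finset.prod_mul_distrib, hc2, hd2, Units.val_mul]
  one_mem' := ⟨1, one_ne_zero, fun h _ => map_one _, by simp⟩
  inv_mem' := by
    rintro a ⟨c, hc, hc1, hc2⟩
    refine ⟨c⁻¹, inv_ne_zero hc, fun h hh => by rw [map_inv₀, hc1 h hh], ?_⟩
    simp only [map_inv₀, Finset.prod_inv_distrib, hc2, Units.val_inv_eq_inv_val]

end norms

end RLBAux

open RLBAux

theorem stRLb (h1 : StFr) (h2 : StLam) (h3 : StRLa) (h4 : StKPE) (h5 : StSC) (_h6 : StPA)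
    (_h7 : StZ1A) (h8 : StNmO) (h9 : StNT) : StRLb := by
  intro p l hpf hlf hp hlp lam hlam u hu z hz κ hκ m
  have hna := nonarch l
  have hpp : p.Prime := hpf.out
  have hlprime : l.Prime := hlf.out
  have hp0 : (p : ℤ_[p]) ≠ 0 := by exact_mod_cast hpp.ne_zero
  obtain ⟨hc, -, k1, k2, k3, k4⟩ := h4 p ℚ_[l] (PadicAlgCl l) (GQ l) (MonoidHom.id (GQ l))
    continuous_id z hz
  have hθ : IsHom (fun g : GQ l => lam (cyL p l g)) := by
    refine ⟨hlam.cont.comp hc, fun g h => ?_⟩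
    rw [map_mul, hlam.mul]
  obtain ⟨-, -, l0, l1, -⟩ := (h2 p hp).2 lam hlam
  obtain ⟨⟨σ, hσ⟩, hfr⟩ := h1 p l hlp
  -- `lam u = w * p ^ t`
  have hlu : lam u ≠ 0 := by
    intro h
    have e1 := (l0 u).1 h
    have e2 : ((u ^ (p - 1) : ℤ_[p]ˣ) : ℤ_[p]) = 1 := by rw [e1, Units.val_one]
    rw [Units.val_pow_eq_pow_val, hu] at e2
    have e3 : l ^ (p - 1) = 1 := by exact_mod_cast e2
    have e4 := Nat.one_lt_pow (n := p - 1) (by have := hpp.two_le; omega) hlprime.one_lt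
    omega
  obtain ⟨t, w, hw⟩ : ∃ (t : ℕ) (w : ℤ_[p]ˣ), lam u = w * (p : ℤ_[p]) ^ t :=
    ⟨_, _, PadicInt.unitCoeff_spec hlu⟩
  have hut : (p : ℤ_[p]) ^ t ∣ lam u := ⟨w, by rw [hw, mul_comm]⟩
  have hdvd : ∀ g : GQ l, (p : ℤ_[p]) ^ t ∣ lam (cyL p l g) := by
    intro g
    rw [l1]
    obtain ⟨i, hi⟩ := hfr g (t + 1)
    rw [Units.val_pow_eq_pow_val, map_pow, hi, ← pow_mul, mul_comm, pow_mul]
    have e1 := (l1 u t).1 hut
    rw [Units.val_pow_eq_pow_val, map_pow, hu, map_natCast] at e1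
    rw [e1, one_pow]
  have hiff : (p : ℤ_[p]) ^ m ∣ lam u ↔ m ≤ t := by
    constructor
    · intro h
      by_contra hlt
      push Not at hlt
      obtain ⟨j, rfl⟩ := Nat.exists_eq_add_of_lt hlt
      rw [hw, mul_comm, Units.dvd_mul_right, pow_dvd_pow_iff hp0] at h
      · omega
      · rw [PadicInt.isUnit_iff]
        have := PadicInt.norm_lt_one_iff_dvd (p : ℤ_[p])
        intro h'
        have h'' : ‖(p : ℤ_[p])‖ < 1 := this.2 dvd_rfl
        exact absurd h' h''.ne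
    · exact fun h => (pow_dvd_pow _ h).trans hut
  rw [hiff]
  obtain ⟨-, -, s3, -, s5, -⟩ := h5 p (GQ l) (cyL p l) hc _ hθ
  constructor
  swap
  · intro h
    rw [s5 κ m fun v => (pow_dvd_pow _ h).trans (hdvd v)]
    exact zero_mem _
  intro hB
  by_contra hlt
  push Not at hlt
  obtain ⟨j, rfl⟩ := Nat.exists_eq_add_of_lt hlt
  -- `θ'`
  choose θ' hθ' using hdvd
  have hθ'c : Continuous θ' := cont_div t hθ' hθ.cont
  have hθ'h : IsHom θ' := by
    refine ⟨hθ'c, fun g h => ?_⟩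
    have e1 := hθ.mul g h
    simp only [hθ'] at e1
    rw [← mul_add] at e1
    exact mul_left_cancel₀ (pow_ne_zero _ hp0) e1
  have hσu : cyL p l σ = u := Units.ext (by rw [hσ, hu])
  have hθ'σ : θ' σ = w := by
    have e1 := hθ' σ
    rw [hσu, hw, mul_comm] at e1
    exact (mul_left_cancel₀ (pow_ne_zero _ hp0) e1).symm
  -- the product with `θ'`
  have hB1 : sc κ θ' 1 ∈ BKND.B2 (actA (cyL p l)) := by
    obtain ⟨-, -, s3', -, -, -⟩ := h5 p (GQ l) (cyL p l) hc _ hθ'h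
    rw [← s3' κ 1 j]
    refine nsmul_mem ?_ _
    have e1 : (fun g : GQ l => lam (cyL p l g)) = fun g => (p : ℤ_[p]) ^ t * θ' g :=
      funext hθ'
    rw [e1] at hB
    have e2 := sc_shift κ θ' t (1 + j)
    have e3 : t + (1 + j) = t + j + 1 := by ring
    rw [e3] at e2
    rw [e2] at hB
    exact hB
  set θ₁ : GQ l → ℤ_[p] := fun g => ((w⁻¹ : ℤ_[p]ˣ) : ℤ_[p]) * θ' g with hθ₁
  have hθ₁h : IsHom θ₁ := by
    refine ⟨continuous_const.mul hθ'c, fun g h => ?_⟩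
    simp only [hθ₁, hθ'h.mul, mul_add]
  have hθ₁σ : θ₁ σ = 1 := by
    simp only [hθ₁, hθ'σ, Units.inv_mul]
  have hB2 : sc κ θ₁ 1 ∈ BKND.B2 (actA (cyL p l)) := by
    rw [hθ₁, sc_smul]
    exact B2_smul _ _ hB1
  -- the norms
  set H : Subgroup (GQ l) := (red hθ₁h).ker with hH
  have hHm : ∀ g, g ∈ H ↔ (p : ℤ_[p]) ∣ θ₁ g := mem_ker hθ₁h
  have hnm : ∀ (Y : PadicAlgCl l) (μ : GQ l → ℤ_[p]), Y ≠ 0 → Fx (MonoidHom.id (GQ l)) Y →
      IsKP (MonoidHom.id (GQ l)) z Y μ → sc μ θ₁ 1 ∈ BKND.B2 (actA (cyL p l)) →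
      IsNm (MonoidHom.id (GQ l)) p H σ Y := fun Y μ hY hFY hμ hsc =>
    h8 p ℚ_[l] (PadicAlgCl l) (GQ l) (MonoidHom.id (GQ l)) Topology.IsOpenEmbedding.id z hz
      θ₁ hθ₁h σ hθ₁σ H hHm Y hY hFY μ hμ hsc
  have hl0 : (l : PadicAlgCl l) ≠ 0 := by exact_mod_cast hlprime.ne_zero
  have hlF : Fx (MonoidHom.id (GQ l)) (l : PadicAlgCl l) := fun v => map_natCast _ _
  have hnl := hnm _ κ hl0 hlF hκ hB2
  have hna : ∀ a : ℚ_[l], ‖a‖ = 1 →
      IsNm (MonoidHom.id (GQ l)) p H σ (algebraMap ℚ_[l] (PadicAlgCl l) a) := by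
    intro a ha
    have ha0 : a ≠ 0 := by
      rintro rfl
      simp at ha
    have ha1 : algebraMap ℚ_[l] (PadicAlgCl l) a ≠ 0 := by simpa using ha0
    have ha2 : Fx (MonoidHom.id (GQ l)) (algebraMap ℚ_[l] (PadicAlgCl l) a) :=
      fun v => AlgEquiv.commutes _ _
    obtain ⟨μ, hμ⟩ := k1 _ ha1 ha2
    exact hnm _ μ ha1 ha2 hμ (h3 p l hlp z hz a ha μ hμ θ₁ hθ₁h 1)
  have hST : fxS (MonoidHom.id (GQ l)) ≤ nmS (MonoidHom.id (GQ l)) p H σ := by
    intro Y hY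
    have hY' : ∀ f : GQ l, f (Y : PadicAlgCl l) = Y := fun f => hY f
    obtain ⟨y, hy⟩ := (InfiniteGalois.mem_range_algebraMap_iff_fixed (Y : PadicAlgCl l)).2 hY'
    have hy0 : y ≠ 0 := by
      rintro rfl
      rw [map_zero] at hy
      exact Y.ne_zero hy.symm
    have hlQ : (l : ℚ_[l]) ≠ 0 := by exact_mod_cast hlprime.ne_zero
    have hnorm : ‖y * (l : ℚ_[l]) ^ (-y.valuation)‖ = 1 := by
      rw [norm_mul, norm_zpow, Padic.norm_p, Padic.norm_eq_zpow_neg_valuation hy0, inv_zpow,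
        ← zpow_neg, ← zpow_add₀ (by exact_mod_cast hlprime.ne_zero)]
      simp
    have hm1 := hna _ hnorm
    have ha0 : algebraMap ℚ_[l] (PadicAlgCl l) (y * (l : ℚ_[l]) ^ (-y.valuation)) ≠ 0 := by
      have : y * (l : ℚ_[l]) ^ (-y.valuation) ≠ 0 := mul_ne_zero hy0 (zpow_ne_zero _ hlQ)
      exact (map_ne_zero (algebraMap ℚ_[l] (PadicAlgCl l))).2 this
    have e1 : Y = Units.mk0 _ ha0 * (Units.mk0 _ hl0) ^ y.valuation := by
      apply Units.ext
      rw [Units.val_mul, Units.val_zpow_eq_zpow_val, Units.val_mk0, Units.val_mk0, map_mul,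
        map_zpow₀, map_natCast, mul_assoc, ← zpow_add₀ hl0, neg_add_cancel, zpow_zero, mul_one,
        hy]
    rw [e1]
    exact mul_mem hm1 (zpow_mem hnl _)
  have hσH : σ ∉ H := by
    rw [hHm, hθ₁σ]
    intro h
    exact absurd (PadicInt.norm_lt_one_iff_dvd (1 : ℤ_[p]) |>.2 h) (by simp)
  have hrel := h9 p l hlp (GQ l) (MonoidHom.id (GQ l)) Topology.IsOpenEmbedding.id H
    inferInstance (isOpen_ker hθ₁h) (index_ker hθ₁h hθ₁σ) σ hσH
    (fxS (MonoidHom.id (GQ l))) (nmS (MonoidHom.id (GQ l)) p H σ) (fun _ => Iff.rfl)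
    (fun _ => Iff.rfl)
  rw [Subgroup.relIndex_eq_one.2 hST] at hrel
  exact hpp.one_lt.ne hrel

end BKLoc2
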