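import Pool.Agent.Lib.MP_7c08ba_nt.Met.LocStmts

set_option autoImplicit false

/-!
Module RPA: products with the Kummer cocycle of `p` vanish: `p` is a norm from all layers of the
cyclotomic extension of `ℚ_p`.
-/

noncomputable section

namespace BKLoc2

open BKOdd Polynomial
open BKMet (QZ actA)

namespace RPAAux

/-- the Galois group of `ℚ_l` is nonarchimedean -/
theorem nonarch (l : ℕ) [Fact l.Prime] : NonarchimedeanGroup (GQ l) where
  is_nonarchimedean := by
    intro U hU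
    rw [krullTopology_mem_nhds_one_iff] at hU
    obtain ⟨E, hE, hEU⟩ := hU
    exact ⟨⟨E.fixingSubgroup, E.fixingSubgroup_isOpen⟩, hEU⟩

/-- an open subgroup is nonarchimedean -/
theorem nonarch_sub {G : Type*} [Group G] [TopologicalSpace G] [NonarchimedeanGroup G]
    (U : Subgroup G) : NonarchimedeanGroup U where
  is_nonarchimedean := by
    intro W hW
    rw [nhds_subtype_eq_comap, Filter.mem_comap] at hW
    obtain ⟨T, hT, hTW⟩ := hW
    obtain ⟨O, hO⟩ := NonarchimedeanGroup.is_nonarchimedean T (by simpa using hT)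
    refine ⟨⟨(O : Subgroup G).comap U.subtype, ?_⟩, ?_⟩
    · exact O.isOpen.preimage continuous_subtype_val
    · intro x hx
      exact hTW (hO hx)

variable (p : ℕ) [Fact p.Prime]

/-- reduction of units -/
def red (n : ℕ) : ℤ_[p]ˣ →* (ZMod (p ^ n))ˣ :=
  Units.map (PadicInt.toZModPow n : ℤ_[p] →+* ZMod (p ^ n)).toMonoidHom

theorem red_surj (n : ℕ) : Function.Surjective (red p (n + 1)) := by
  have hp : p.Prime := Fact.out
  have : Fact (1 < p ^ (n + 1)) := ⟨one_lt_pow₀ hp.one_lt (Nat.succ_ne_zero n)⟩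
  have hs : Function.Surjective (PadicInt.toZModPow (n + 1) : ℤ_[p] →+* ZMod (p ^ (n + 1))) :=
    ZMod.ringHom_surjective _
  exact IsLocalRing.surjective_units_map_of_local_ringHom _ hs (IsLocalHom.of_surjective _ hs)

/-- the residue class of one is open -/
theorem isOpen_res (k : ℕ) : IsOpen {x : ℤ_[p] | PadicInt.toZModPow k x = 1} := by
  have hp : p.Prime := Fact.out
  have h1 : {x : ℤ_[p] | PadicInt.toZModPow k x = 1} =
      Metric.closedBall (1 : ℤ_[p]) ((p : ℝ) ^ (-k : ℤ)) := by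
    ext x
    rw [Metric.mem_closedBall, dist_eq_norm, PadicInt.norm_le_pow_iff_mem_span_pow,
      ← PadicInt.ker_toZModPow, RingHom.mem_ker, map_sub, map_one, sub_eq_zero]
    rfl
  rw [h1]
  refine IsUltrametricDist.isOpen_closedBall _ (ne_of_gt ?_)
  have := hp.pos
  positivity

/-- the product of `1 - z ^ j` over the units -/
theorem prod_units (n : ℕ) {Ω : Type*} [Field Ω] {z : Ω} (hz : IsPrimitiveRoot z (p ^ (n + 1))) :
    ∏ j : (ZMod (p ^ (n + 1)))ˣ, (1 - z ^ ((j : (ZMod (p ^ (n + 1)))ˣ) : ZMod (p ^ (n + 1))).val)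
      = (p : Ω) := by
  classical
  have hp : p.Prime := Fact.out
  have : NeZero (p ^ (n + 1)) := ⟨pow_ne_zero _ hp.ne_zero⟩
  have hpos : 0 < p ^ (n + 1) := pow_pos hp.pos _
  have h1 : eval 1 (cyclotomic (p ^ (n + 1)) Ω) = p := eval_one_cyclotomic_prime_pow n
  rw [cyclotomic_eq_prod_X_sub_primitiveRoots hz, eval_prod] at h1
  rw [← h1]
  simp only [eval_sub, eval_X, eval_C]
  refine Finset.prod_bij (fun j _ => z ^ ((j : (ZMod (p ^ (n + 1)))ˣ) : ZMod (p ^ (n + 1))).val)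
    ?_ ?_ ?_ ?_
  · intro j _
    rw [mem_primitiveRoots hpos]
    exact hz.pow_of_coprime _ (ZMod.val_coe_unit_coprime j)
  · intro i _ j _ h
    have h2 := hz.pow_inj (ZMod.val_lt _) (ZMod.val_lt _) h
    exact Units.ext (ZMod.val_injective _ h2)
  · intro w hw
    rw [mem_primitiveRoots hpos] at hw
    obtain ⟨i, hi, hi'⟩ := (hz.isPrimitiveRoot_iff).1 hw
    refine ⟨ZMod.unitOfCoprime i hi'.1, Finset.mem_univ _, ?_⟩
    rw [ZMod.coe_unitOfCoprime, ZMod.val_natCast, Nat.mod_eq_of_lt hi]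
    exact hi'.2
  · intro j _
    rfl

end RPAAux

open RPAAux

/-- Module RPA: products with the Kummer cocycle of `p`. -/
theorem stRPa (h1 : StCyP) (h2 : StCrN) (h3 : StLam) (h4 : StKPE) (h5 : StSC) : StRPa := by
  intro p _ hp2 lam hlam z hz κ hκ m
  have hp : p.Prime := Fact.out
  have : NeZero (p ^ (m + 1)) := ⟨pow_ne_zero _ hp.ne_zero⟩
  have : Fact (1 < p ^ (m + 1)) := ⟨one_lt_pow₀ hp.one_lt (Nat.succ_ne_zero m)⟩
  have := nonarch p
  have hK := h4 p ℚ_[p] (PadicAlgCl p) (GQ p) (MonoidHom.id (GQ p)) continuous_id z hz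
  have hcont : Continuous (cyL p p) := hK.1
  have hact : ∀ (n : ℕ) (v : GQ p), v (z n) =
      z n ^ (PadicInt.toZModPow n ((cyL p p v : ℤ_[p]ˣ) : ℤ_[p])).val := hK.2.1
  obtain ⟨φ, hφ⟩ : ∃ φ : GQ p →* (ZMod (p ^ (m + 1)))ˣ, φ = (red p (m + 1)).comp (cyL p p) :=
    ⟨_, rfl⟩
  have hφs : Function.Surjective φ := by
    rw [hφ]
    exact (red_surj p m).comp (h1 p)
  have hφv : ∀ v, ((φ v : (ZMod (p ^ (m + 1)))ˣ) : ZMod (p ^ (m + 1))) =
      PadicInt.toZModPow (m + 1) ((cyL p p v : ℤ_[p]ˣ) : ℤ_[p]) := fun v => by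
    rw [hφ]
    rfl
  have hmem : ∀ v, v ∈ φ.ker ↔
      PadicInt.toZModPow (m + 1) ((cyL p p v : ℤ_[p]ˣ) : ℤ_[p]) = 1 := fun v => by
    rw [MonoidHom.mem_ker, ← Units.val_inj, hφv, Units.val_one]
  have hopen : IsOpen (φ.ker : Set (GQ p)) := by
    have h7 : (φ.ker : Set (GQ p)) = (fun v : GQ p => ((cyL p p v : ℤ_[p]ˣ) : ℤ_[p])) ⁻¹'
        {x : ℤ_[p] | PadicInt.toZModPow (m + 1) x = 1} := by
      ext v
      exact hmem v
    rw [h7]
    exact (isOpen_res p (m + 1)).preimage (Units.continuous_val.comp hcont)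
  have hzne : z (m + 1) ≠ 1 := (hz.prim (m + 1)).ne_one (Fact.out : 1 < p ^ (m + 1))
  have hc : (1 - z (m + 1)) ≠ 0 := sub_ne_zero.2 (Ne.symm hzne)
  have hfix : ∀ u ∈ φ.ker, u (1 - z (m + 1)) = 1 - z (m + 1) := by
    intro u hu
    rw [map_sub, map_one, hact, (hmem u).1 hu, ZMod.val_one, pow_one]
  have hprod : (p : PadicAlgCl p) = ∏ᶠ q : GQ p ⧸ φ.ker, q.out (1 - z (m + 1)) := by
    have h6 : ∀ q : GQ p ⧸ φ.ker, q.out (1 - z (m + 1)) =
        1 - z (m + 1) ^ ((QuotientGroup.quotientKerEquivOfSurjective φ hφs q :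
          (ZMod (p ^ (m + 1)))ˣ) : ZMod (p ^ (m + 1))).val := by
      intro q
      have h7 : QuotientGroup.quotientKerEquivOfSurjective φ hφs q = φ q.out := by
        conv_lhs => rw [← QuotientGroup.out_eq' q]
        rfl
      rw [h7, map_sub, map_one, hact, hφv]
    simp only [h6]
    refine Eq.trans ?_ (finprod_comp_equiv
      (QuotientGroup.quotientKerEquivOfSurjective φ hφs).toEquiv
      (f := fun j : (ZMod (p ^ (m + 1)))ˣ => 1 - z (m + 1) ^
        ((j : (ZMod (p ^ (m + 1)))ˣ) : ZMod (p ^ (m + 1))).val)).symm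
    rw [finprod_eq_prod_of_fintype, prod_units p m (hz.prim (m + 1))]
  have hθ : IsHom (fun g : GQ p => lam (cyL p p g)) :=
    ⟨hlam.cont.comp hcont, fun g h => by rw [map_mul, hlam.mul]⟩
  have : NonarchimedeanGroup φ.ker := nonarch_sub φ.ker
  have : CompactSpace φ.ker :=
    isCompact_iff_compactSpace.1 (Subgroup.isClosed_of_isOpen _ hopen).isCompact
  have hKU := h4 p ℚ_[p] (PadicAlgCl p) φ.ker ((MonoidHom.id (GQ p)).comp φ.ker.subtype)
    continuous_subtype_val z hz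
  obtain ⟨μ, hμ⟩ := hKU.2.2.1 (1 - z (m + 1)) hc (fun v => hfix v v.2)
  have hθU : IsHom (fun g : φ.ker => lam (cyL p p (g : GQ p))) :=
    ⟨hθ.cont.comp continuous_subtype_val, fun g h => hθ.mul g h⟩
  have hdvd : ∀ g : φ.ker, (p : ℤ_[p]) ^ m ∣ lam (cyL p p (g : GQ p)) := by
    intro g
    rw [((h3 p hp2).2 lam hlam).2.2.2.1]
    rw [Units.val_pow_eq_pow_val, map_pow, (hmem g).1 g.2, one_pow]
  have hsc : sc μ (fun g : φ.ker => lam (cyL p p (g : GQ p))) m = 0 :=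
    (h5 p φ.ker (((cy p ℚ_[p] (PadicAlgCl p)).comp (MonoidHom.id (GQ p))).comp φ.ker.subtype)
      (hcont.comp continuous_subtype_val) _ hθU).2.2.2.2.1 μ m hdvd
  refine h2 p ℚ_[p] (PadicAlgCl p) (GQ p) (MonoidHom.id (GQ p)) Topology.IsOpenEmbedding.id z hz
    φ.ker hopen (1 - z (m + 1)) hc hfix _ hprod _ hθ m κ hκ μ hμ ?_
  rw [hsc]
  exact AddSubgroup.zero_mem _

end BKLoc2
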