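import Pool.Agent.Lib.MP_7c08ba_nt.Met.LSC
import Pool.Agent.Lib.MP_7c08ba_nt.Odd.H90

set_option autoImplicit false

/-!
Module Z1A: one-cocycles with values in `ℚ_p / ℤ_p (χ)` are Kummer cocycles.
-/

noncomputable section

namespace BKLoc2

open BKOdd
open BKMet (QZ actA)
open BKPar (Loc1 Loc2)
open SCAux

namespace Z1AAux

variable {p : ℕ} [Fact p.Prime]

theorem fm_eq_zero {m : ℕ} {x : ℤ_[p]} : fm m x = 0 ↔ (p : ℤ_[p]) ^ m ∣ x := by
  refine ⟨fun h => ?_, fm_dvd⟩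
  have h0 : (p : ℚ_[p]) ^ m ≠ 0 := pow_ne_zero _ (by exact_mod_cast (Fact.out : p.Prime).ne_zero)
  unfold fm cl at h
  rw [Submodule.Quotient.mk_eq_zero] at h
  obtain ⟨y, hy⟩ := h
  have hy' : (y : ℚ_[p]) = (x : ℚ_[p]) / (p : ℚ_[p]) ^ m := hy
  rw [eq_div_iff h0] at hy'
  refine ⟨y, ?_⟩
  apply Subtype.ext
  rw [← hy', mul_comm]
  push_cast
  rfl

theorem dvd_iff {m : ℕ} {x : ℤ_[p]} : (p : ℤ_[p]) ^ m ∣ x ↔ PadicInt.toZModPow m x = 0 := by
  rw [← RingHom.mem_ker, PadicInt.ker_toZModPow, Ideal.mem_span_singleton]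

/-- an element killed by `p ^ n` -/
theorem exists_fm {n : ℕ} {y : QZ p} (h : p ^ n • y = 0) : ∃ b : ℤ_[p], y = fm n b := by
  have h0 : (p : ℚ_[p]) ^ n ≠ 0 := pow_ne_zero _ (by exact_mod_cast (Fact.out : p.Prime).ne_zero)
  obtain ⟨x, rfl⟩ := Submodule.Quotient.mk_surjective _ y
  have h1 : cl p (((p ^ n : ℕ) : ℚ_[p]) * x) = 0 := by
    rw [← cl_nsmul]
    exact h
  unfold cl at h1
  rw [Submodule.Quotient.mk_eq_zero] at h1
  obtain ⟨b, hb⟩ := h1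
  have hb' : (b : ℚ_[p]) = ((p ^ n : ℕ) : ℚ_[p]) * x := hb
  refine ⟨b, ?_⟩
  unfold fm cl
  congr 1
  rw [eq_div_iff h0, hb']
  push_cast
  ring

theorem exists_kill (y : QZ p) : ∃ n : ℕ, p ^ n • y = 0 := by
  have hp : p.Prime := Fact.out
  obtain ⟨x, rfl⟩ := Submodule.Quotient.mk_surjective _ y
  have hx : ∃ n : ℕ, ‖((p ^ n : ℕ) : ℚ_[p]) * x‖ ≤ 1 := by
    have hp1 : (1 : ℝ) < p := by exact_mod_cast hp.one_lt
    obtain ⟨n, hn⟩ := pow_unbounded_of_one_lt ‖x‖ hp1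
    refine ⟨n, ?_⟩
    rw [norm_mul, Nat.cast_pow, norm_pow, Padic.norm_p, inv_pow,
      inv_mul_le_iff₀ (by positivity), mul_one]
    exact hn.le
  obtain ⟨n, hn⟩ := hx
  refine ⟨n, ?_⟩
  have h1 : cl p (((p ^ n : ℕ) : ℚ_[p]) * x) = 0 := cl_coe ⟨_, hn⟩
  rw [← cl_nsmul] at h1
  exact h1

theorem kill_mono {y : QZ p} {m n : ℕ} (h : p ^ m • y = 0) (hmn : m ≤ n) : p ^ n • y = 0 := by
  obtain ⟨j, rfl⟩ := Nat.exists_eq_add_of_le hmn
  rw [pow_add, mul_comm, mul_smul, h, smul_zero]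

theorem exists_kill_all {V : Type*} [Group V] [TopologicalSpace V] [IsTopologicalGroup V]
    [CompactSpace V] {β : V → QZ p} (h : Loc1 β) : ∃ n : ℕ, ∀ v, p ^ n • β v = 0 := by
  classical
  obtain ⟨W, hW, hW'⟩ := h
  have hfin : Finite (V ⧸ W) := W.quotient_finite_of_isOpen hW
  let _ : Fintype (V ⧸ W) := Fintype.ofFinite _
  choose m hm using fun y : QZ p => exists_kill y
  refine ⟨∑ q : V ⧸ W, m (β q.out), fun v => ?_⟩
  have h1 : β v = β (QuotientGroup.mk v : V ⧸ W).out := by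
    have h2 : v⁻¹ * (QuotientGroup.mk v : V ⧸ W).out ∈ W := by
      rw [← QuotientGroup.eq, QuotientGroup.out_eq']
    have h3 := hW' v _ h2
    rw [mul_inv_cancel_left] at h3
    exact h3.symm
  rw [h1]
  exact kill_mono (hm _) (Finset.single_le_sum (f := fun q : V ⧸ W => m (β q.out))
    (fun _ _ => Nat.zero_le _) (Finset.mem_univ _))

/-! ### powers of the roots of unity -/

section Zn

variable {Ω : Type*} [Field Ω] {z : ℕ → Ω}

/-- the power with a `p`-adic exponent -/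
def Zx (z : ℕ → Ω) (n : ℕ) (x : ℤ_[p]) : Ω := z n ^ (PadicInt.toZModPow n x).val

instance (n : ℕ) : NeZero (p ^ n) := ⟨pow_ne_zero _ (Fact.out : p.Prime).ne_zero⟩

theorem zmod (hz : Sys p z) (n a : ℕ) : z n ^ (a % p ^ n) = z n ^ a := by
  conv_rhs => rw [← Nat.mod_add_div a (p ^ n), pow_add, pow_mul, (hz.prim n).pow_eq_one, one_pow,
    mul_one]

theorem Zx_add (hz : Sys p z) (n : ℕ) (x y : ℤ_[p]) : Zx z n (x + y) = Zx z n x * Zx z n y := by
  unfold Zx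
  rw [map_add, ← pow_add, ZMod.val_add, zmod hz]

theorem Zx_mul (hz : Sys p z) (n : ℕ) (x y : ℤ_[p]) :
    Zx z n (x * y) = Zx z n x ^ (PadicInt.toZModPow n y).val := by
  unfold Zx
  rw [map_mul, ← pow_mul, ZMod.val_mul, zmod hz]

theorem Zx_zero (n : ℕ) : Zx z n (0 : ℤ_[p]) = 1 := by
  unfold Zx
  rw [map_zero, ZMod.val_zero, pow_zero]

theorem Zx_nat (hz : Sys p z) (n i : ℕ) : Zx z n (i : ℤ_[p]) = z n ^ i := by
  unfold Zx
  rw [map_natCast, ZMod.val_natCast, zmod hz]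

theorem z_ne (hz : Sys p z) (n : ℕ) : z n ≠ 0 :=
  (hz.prim n).ne_zero (pow_ne_zero _ (Fact.out : p.Prime).ne_zero)

theorem Zx_ne (hz : Sys p z) (n : ℕ) (x : ℤ_[p]) : Zx z n x ≠ 0 := pow_ne_zero _ (z_ne hz n)

theorem Zx_pow (hz : Sys p z) (n : ℕ) (x : ℤ_[p]) : Zx z n x ^ p ^ n = 1 := by
  unfold Zx
  rw [← pow_mul, mul_comm, pow_mul, (hz.prim n).pow_eq_one, one_pow]

theorem Zx_succ (hz : Sys p z) (n : ℕ) (x : ℤ_[p]) : Zx z (n + 1) x ^ p = Zx z n x := by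
  unfold Zx
  rw [← pow_mul, mul_comm, pow_mul, hz.pow]
  have h2 : ((PadicInt.toZModPow (n + 1) x).val : ZMod (p ^ n)) = PadicInt.toZModPow n x := by
    rw [← PadicInt.cast_toZModPow n (n + 1) (Nat.le_succ n) x]
    exact ZMod.natCast_val _
  rw [← h2, ZMod.val_natCast, zmod hz]

theorem Zx_inj (hz : Sys p z) {n : ℕ} {x y : ℤ_[p]} (h : Zx z n x = Zx z n y) :
    fm n x = fm n y := by
  have h1 : PadicInt.toZModPow n x = PadicInt.toZModPow n y :=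
    ZMod.val_injective _ ((hz.prim n).pow_inj (ZMod.val_lt _) (ZMod.val_lt _) h)
  rw [← sub_eq_zero, ← fm_sub, fm_eq_zero, dvd_iff, map_sub, h1, sub_self]

theorem Zx_congr {n : ℕ} {x y : ℤ_[p]} (h : fm n x = fm n y) : Zx z n x = Zx z n y := by
  rw [← sub_eq_zero, ← fm_sub, fm_eq_zero, dvd_iff, map_sub, sub_eq_zero] at h
  unfold Zx
  rw [h]

end Zn

section KP

variable {k Ω : Type*} [Field k] [Field Ω] [Algebra k Ω] {V : Type*} [Group V]
    {e : V →* (Ω ≃ₐ[k] Ω)} {z : ℕ → Ω}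

/-- the Kummer cocycles of `1` -/
theorem kp_one (hz : Sys p z) (χ : V → ℤ_[p]) (hχ : ∀ n v, e v (z n) = Zx z n (χ v))
    (c : ℤ_[p]) : IsKP e z 1 fun v => (χ v - 1) * c := by
  refine ⟨fun n => Zx z n c, ?_, fun n => Zx_succ hz n c, fun n v => ?_⟩
  · have h1 := (hz.prim 0).pow_eq_one
    rw [pow_zero, pow_one] at h1
    show z 0 ^ _ = 1
    rw [h1, one_pow]
  · show e v (z n ^ (PadicInt.toZModPow n c).val) = Zx z n ((χ v - 1) * c) * Zx z n c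
    rw [map_pow, hχ, ← Zx_mul hz, ← Zx_add hz]
    congr 1
    ring

end KP

end Z1AAux

open Z1AAux

/-- Module Z1A: one-cocycles with values in `ℚ_p / ℤ_p (χ)` are Kummer cocycles. -/
theorem stZ1A (h1 : StKPE) : StZ1A := by
  classical
  intro p _ k Ω _ _ _ _ _ _ V _ _ _ _ _ e he z hz β hβ
  obtain ⟨-, hcyc, hex, -, hmul, -⟩ := h1 p k Ω V e he.continuous z hz
  obtain ⟨χ, hχ⟩ : ∃ χ : V → ℤ_[p], ∀ v, χ v = ((cy p k Ω (e v) : ℤ_[p]ˣ) : ℤ_[p]) :=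
    ⟨_, fun _ => rfl⟩
  have hcyc' : ∀ n v, e v (z n) = Zx z n (χ v) := fun n v => by
    rw [hcyc n v, hχ v]
    rfl
  obtain ⟨hsm, hcoc⟩ := hβ
  have hcoc' : ∀ g h, β (g * h) = β g + χ g • β h := fun g h => by
    rw [hcoc, BKMet.actA_apply, hχ]
    rfl
  obtain ⟨n, hn⟩ := exists_kill_all hsm
  obtain ⟨B, hB⟩ : ∃ B : QZ p → ℤ_[p], ∀ v, β v = fm n (B (β v)) := by
    refine ⟨fun y => if h : ∃ b : ℤ_[p], y = fm n b then h.choose else 0, fun v => ?_⟩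
    have h2 : ∃ b : ℤ_[p], β v = fm n b := exists_fm (hn v)
    have h3 : (if h : ∃ b : ℤ_[p], β v = fm n b then h.choose else 0) = h2.choose := dif_pos h2
    exact h2.choose_spec.trans (congrArg (fm n) h3.symm)
  obtain ⟨w, hw0, hw⟩ := stH90 k Ω V e he (fun v => Zx z n (B (β v))) (fun v => Zx_ne hz n _)
    (by
      obtain ⟨W, hW, hW'⟩ := hsm
      exact ⟨W, hW, fun g u hu => congrArg (fun y => Zx z n (B y)) (hW' g u hu)⟩)
    (fun v v' => by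
      have h2 : fm n (B (β (v * v'))) = fm n (B (β v) + χ v * B (β v')) := by
        rw [← hB, hcoc', fm_add, ← fm_smul, ← hB, ← hB]
      show Zx z n (B (β (v * v'))) = _
      rw [Zx_congr h2, Zx_add hz, Zx_mul hz]
      congr 1
      show _ = e v (z n ^ (PadicInt.toZModPow n (B (β v'))).val)
      rw [map_pow, hcyc'])
  have ha0 : w ^ p ^ n ≠ 0 := pow_ne_zero _ hw0
  have hFa : Fx e (w ^ p ^ n) := fun v => by
    rw [map_pow, ← hw v, mul_pow, Zx_pow hz, one_mul]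
  obtain ⟨κ, hκ⟩ := hex _ ha0 hFa
  obtain ⟨y, hy0, hy, hyv⟩ := id hκ
  have hyn : y n ^ p ^ n = w ^ p ^ n := by
    have h2 : ∀ j, y j ^ p ^ j = y 0 := by
      intro j
      induction j with
      | zero => simp
      | succ j ih => rw [pow_succ', pow_mul, hy, ih]
    rw [h2, hy0]
  obtain ⟨i, -, hi⟩ := (hz.prim n).eq_pow_of_pow_eq_one (ξ := y n / w) (by
    rw [div_pow, hyn, div_self ha0])
  have hyw : y n = z n ^ i * w := by
    rw [hi, div_mul_cancel₀ _ hw0]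
  have hμ := kp_one (e := e) hz χ hcyc' (-(i : ℤ_[p]))
  have hsum := hmul _ 1 _ _ ha0 one_ne_zero hκ hμ
  rw [mul_one] at hsum
  refine ⟨_, ha0, hFa, _, hsum, n, fun v => ?_⟩
  show β v = fm n (κ v + (χ v - 1) * -(i : ℤ_[p]))
  rw [hB v]
  apply Zx_inj hz
  -- the identity of the exponents
  have e1 : Zx z n (κ v) * (z n ^ i * w) = Zx z n (χ v) ^ i * (Zx z n (B (β v)) * w) := by
    have h3 := hyv n v
    rw [hyw, map_mul, map_pow, hcyc', ← hw v] at h3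
    exact h3.symm
  have e2 : Zx z n (κ v) * z n ^ i = Zx z n (χ v) ^ i * Zx z n (B (β v)) := by
    apply mul_right_cancel₀ hw0
    linear_combination e1
  have e3 : Zx z n (χ v) ^ i = Zx z n (χ v * (i : ℤ_[p])) := by
    rw [mul_comm, Zx_mul hz, Zx_nat hz, ← pow_mul, mul_comm, pow_mul]
    rfl
  have e4 : Zx z n (κ v + (χ v - 1) * -(i : ℤ_[p])) * Zx z n (χ v * (i : ℤ_[p])) =
      Zx z n (κ v) * z n ^ i := by
    rw [← Zx_nat hz, ← Zx_add hz, ← Zx_add hz]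
    congr 1
    ring
  apply mul_right_cancel₀ (Zx_ne hz n (χ v * (i : ℤ_[p])))
  rw [e4, e2, e3, mul_comm]

end BKLoc2
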