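import Pool.Agent.Lib.MP_7c08ba_nt.Met.LCHT
import Pool.Agent.Lib.MP_7c08ba_nt.Met.LCYP
import Pool.Agent.Lib.MP_7c08ba_nt.Met.LCrI
import Pool.Agent.Lib.MP_7c08ba_nt.Met.LCrN
import Pool.Agent.Lib.MP_7c08ba_nt.Met.LEig
import Pool.Agent.Lib.MP_7c08ba_nt.Met.LFR
import Pool.Agent.Lib.MP_7c08ba_nt.Met.LFree
import Pool.Agent.Lib.MP_7c08ba_nt.Met.LInv
import Pool.Agent.Lib.MP_7c08ba_nt.Met.LInvL
import Pool.Agent.Lib.MP_7c08ba_nt.Met.LInvV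
import Pool.Agent.Lib.MP_7c08ba_nt.Met.LKH
import Pool.Agent.Lib.MP_7c08ba_nt.Met.LKPE
import Pool.Agent.Lib.MP_7c08ba_nt.Met.LLK
import Pool.Agent.Lib.MP_7c08ba_nt.Met.LLNX
import Pool.Agent.Lib.MP_7c08ba_nt.Met.LLSP
import Pool.Agent.Lib.MP_7c08ba_nt.Met.LLST
import Pool.Agent.Lib.MP_7c08ba_nt.Met.LLoc
import Pool.Agent.Lib.MP_7c08ba_nt.Met.LN3
import Pool.Agent.Lib.MP_7c08ba_nt.Met.LN4
import Pool.Agent.Lib.MP_7c08ba_nt.Met.LN5
import Pool.Agent.Lib.MP_7c08ba_nt.Met.LNT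
import Pool.Agent.Lib.MP_7c08ba_nt.Met.LNmO
import Pool.Agent.Lib.MP_7c08ba_nt.Met.LPA
import Pool.Agent.Lib.MP_7c08ba_nt.Met.LRLA
import Pool.Agent.Lib.MP_7c08ba_nt.Met.LRLB
import Pool.Agent.Lib.MP_7c08ba_nt.Met.LRPA
import Pool.Agent.Lib.MP_7c08ba_nt.Met.LRPB
import Pool.Agent.Lib.MP_7c08ba_nt.Met.LSC
import Pool.Agent.Lib.MP_7c08ba_nt.Met.LTRM
import Pool.Agent.Lib.MP_7c08ba_nt.Met.LZ1A
import Pool.Agent.Lib.MP_7c08ba_nt.Met.LocLam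

set_option autoImplicit false

/-!
Assembly of the local part.
-/

namespace BKLoc2

theorem aZ1A : StZ1A := stZ1A stKPE

theorem aCrN : StCrN := stCrN stTRM stKPE stSC

theorem aNmO : StNmO := stNmO stPA aZ1A stKPE

theorem aNT : StNT := stNT stLsT

theorem aChT : StChT := stChT aNT

theorem aLnX : StLnX := stLnX aChT

theorem aRLa : StRLa := stRLa stKPE stSC stLsT

theorem aRLb : StRLb := stRLb stFr stLam aRLa stKPE stSC stPA aZ1A aNmO aNT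

theorem aRPa : StRPa := stRPa stCyP aCrN stLam stKPE stSC

theorem aRPb : StRPb := stRPb aRPa stCyP stLam stKPE stSC stPA aZ1A aNmO

theorem aInv : StInv := stInv stPA

theorem aInvL : StInvL :=
  stInvL aInv aLnX aRLa aRLb aRPa aRPb stKPE stSC stLam

theorem aInvV : StInvV :=
  stInvV aCrN aRLa aRLb aRPa aRPb stKPE stSC stLam

theorem aCrI : StCrI := stCrI aInvL aLnX stPA stKPE stSC stLam

theorem aN4 : StN4 := stN4 stTRM aCrI stPA aZ1A stKPE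

theorem aN5 : StN5 := stN5 stTRM aCrI stPA aZ1A stKPE aChT

theorem aKH : StKH := stKH stTRM

theorem aN3 : StN3 := stN3 aKH stEig stFree stLsT stLsP

theorem aLoc : StLoc := stLoc aInvL aN3 aN4 aN5

theorem aLK : StLK := stLK stLsT aNT

end BKLoc2

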