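import Pool.Agent.Lib.MP_7c08ba_nt.Met.StN
import Pool.Agent.Lib.MP_7c08ba_nt.Odd.Conj

set_option autoImplicit false

/-!
Parity without rigidity, module NSD: the diagonal characters are not conjugate self-dual.
-/

noncomputable section

namespace BKMet

open Matrix BKGen

namespace NNSD

/-- the two embeddings of a quadratic field -/
theorem emb2 {F : Type} [Field F] [NumberField F] (hF : Module.finrank ℚ F = 2) {C : Type}
    [Field C] [IsAlgClosed C] [CharZero C] (f g h : F →+* C) (hne : f ≠ g) : h = f ∨ h = g := by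
  classical
  have hcard : Fintype.card (F →+* C) = 2 := by
    rw [NumberField.Embeddings.card F C, hF]
  by_contra hcon
  rw [not_or] at hcon
  have h4 : 2 < Fintype.card (F →+* C) :=
    Fintype.two_lt_card_iff.mpr ⟨f, g, h, hne, fun e => hcon.1 e.symm, fun e => hcon.2 e.symm⟩
  omega

/-- a sum of small elements is small -/
theorem sum_lt {E : Type} [NormedField E] [IsUltrametricDist E] {κ : Type} (s : Finset κ)
    (f : κ → E) (h : ∀ i ∈ s, ‖f i‖ < 1) : ‖∑ i ∈ s, f i‖ < 1 := by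
  classical
  induction s using Finset.induction_on with
  | empty => simp
  | insert a s ha ih =>
    rw [Finset.sum_insert ha]
    exact (IsUltrametricDist.norm_add_le_max _ _).trans_lt
      (max_lt (h a (Finset.mem_insert_self _ _)) (ih fun i hi => h i (Finset.mem_insert_of_mem hi)))

/-- the norm of a prime number different from `l` -/
theorem norm_prime (l : ℕ) [Fact l.Prime] {p : ℕ} (hp : p.Prime) (hlp : l ≠ p) {E : Type}
    [NormedField E] [NormedAlgebra ℚ_[l] E] : ‖(p : E)‖ = 1 := by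
  have e : (p : E) = algebraMap ℚ_[l] E (((p : ℤ_[l]) : ℚ_[l])) := by
    rw [PadicInt.coe_natCast, map_natCast]
  rw [e, norm_algebraMap']
  refine le_antisymm (PadicInt.norm_le_one _) (not_lt.1 fun h => hlp ?_)
  have h1 : ‖((p : ℤ) : ℤ_[l])‖ < 1 := by
    rw [Int.cast_natCast]
    exact h
  have h2 := (PadicInt.norm_int_lt_one_iff_dvd (p : ℤ)).1 h1
  exact (Nat.prime_dvd_prime_iff_eq Fact.out hp).1 (by exact_mod_cast h2)

/-- roots of unity of order prime to `l` in the same residue class are equal -/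
theorem root_eq {l p : ℕ} [Fact l.Prime] (hp : p.Prime) (hlp : l ≠ p) {x y : PadicAlgCl l}
    (hx : x ^ p = 1) (hy : y ^ p = 1) (h : ‖y - x‖ < 1) : y = x := by
  have hu : IsUltrametricDist (PadicAlgCl l) := IsUltrametricDist.of_normedAlgebra ℚ_[l]
  have hx0 : x ≠ 0 := by
    rintro rfl
    rw [zero_pow hp.ne_zero] at hx
    exact zero_ne_one hx
  have hnx : ‖x‖ = 1 := by
    have h1 : ‖x‖ ^ p = 1 := by rw [← norm_pow, hx, norm_one]
    exact (pow_eq_one_iff_of_nonneg (norm_nonneg x) hp.ne_zero).1 h1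
  have hq1 : ‖y / x - 1‖ < 1 := by
    have e : y / x - 1 = (y - x) / x := by
      rw [sub_div, div_self hx0]
    rw [e, norm_div, hnx, div_one]
    exact h
  have hqp : (y / x) ^ p = 1 := by rw [div_pow, hx, hy, div_one]
  have hnq : ‖y / x‖ = 1 := by
    have h1 : ‖y / x‖ ^ p = 1 := by rw [← norm_pow, hqp, norm_one]
    exact (pow_eq_one_iff_of_nonneg (norm_nonneg _) hp.ne_zero).1 h1
  by_contra hne
  have hq' : y / x - 1 ≠ 0 := by
    intro h0
    exact hne ((div_eq_one_iff_eq hx0).1 (sub_eq_zero.1 h0))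
  have hs : ∑ i ∈ Finset.range p, (y / x) ^ i = 0 := by
    have h1 := geom_sum_mul (y / x) p
    rw [hqp, sub_self] at h1
    exact (mul_eq_zero.1 h1).resolve_right hq'
  have hb : ∀ i : ℕ, ‖(y / x) ^ i - 1‖ < 1 := by
    intro i
    induction i with
    | zero => simp
    | succ i ih =>
      have e : (y / x) ^ (i + 1) - 1 = (y / x) ^ i * (y / x - 1) + ((y / x) ^ i - 1) := by ring
      rw [e]
      refine (IsUltrametricDist.norm_add_le_max _ _).trans_lt (max_lt ?_ ih)
      rw [norm_mul, norm_pow, hnq, one_pow, one_mul]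
      exact hq1
  have hp1 : ‖(p : PadicAlgCl l)‖ < 1 := by
    have e : (p : PadicAlgCl l) = -∑ i ∈ Finset.range p, ((y / x) ^ i - 1) := by
      rw [Finset.sum_sub_distrib, hs]
      simp
    rw [e, norm_neg]
    exact sum_lt _ _ fun i _ => hb i
  rw [norm_prime l hp hlp] at hp1
  exact lt_irrefl _ hp1

/-- diagonal entries of matrices which are triangular modulo the maximal ideal -/
theorem diag_mul {E : Type} [NormedField E] [IsUltrametricDist E] {n : ℕ}
    {M N : Matrix (Fin n) (Fin n) E}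
    (hM : ∀ i j, ‖M i j‖ ≤ 1 ∧ (j < i → ‖M i j‖ < 1))
    (hN : ∀ i j, ‖N i j‖ ≤ 1 ∧ (j < i → ‖N i j‖ < 1)) (h : M * N = 1) (i : Fin n) :
    ‖M i i * N i i - 1‖ < 1 := by
  have h1 : ∑ k, M i k * N k i = 1 := by
    have h0 := congrFun (congrFun h i) i
    rwa [Matrix.mul_apply, Matrix.one_apply_eq] at h0
  have h2 : M i i * N i i - 1 = -∑ k ∈ Finset.univ.erase i, M i k * N k i := by
    rw [← h1, ← Finset.add_sum_erase _ _ (Finset.mem_univ i)]
    ring
  rw [h2, norm_neg]
  refine sum_lt _ _ fun k hk => ?_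
  have hki : k ≠ i := Finset.ne_of_mem_erase hk
  rw [norm_mul]
  rcases lt_or_gt_of_ne hki with h3 | h3
  · exact (mul_le_of_le_one_right (norm_nonneg _) (hN k i).1).trans_lt ((hM i k).2 h3)
  · exact (mul_le_of_le_one_left (norm_nonneg _) (hM i k).1).trans_lt ((hN k i).2 h3)

theorem exists_zeta (p : ℕ) [Fact p.Prime] (F : Type) [Field F] [CharZero F] :
    ∃ ζ : AlgebraicClosure F, IsPrimitiveRoot ζ p := by
  have hE : HasEnoughRootsOfUnity (AlgebraicClosure F) p := by
    have : NeZero ((p : ℕ) : AlgebraicClosure F) := ⟨by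
      rw [Nat.cast_ne_zero]
      exact (Fact.out : p.Prime).ne_zero⟩
    infer_instance
  exact HasEnoughRootsOfUnity.exists_primitiveRoot (AlgebraicClosure F) p

/-- the cyclotomic character of an element which inverts the roots of unity of order `p` -/
theorem cyc_neg {p : ℕ} [Fact p.Prime] {F : Type} [Field F] [CharZero F]
    {ζ : AlgebraicClosure F} (hζ : IsPrimitiveRoot ζ p) (g : GF F) (hg : g ζ = ζ⁻¹) :
    ‖((cycF p F g : ℤ_[p]ˣ) : ℤ_[p]) + 1‖ < 1 := by
  have hE : ∀ i : ℕ, HasEnoughRootsOfUnity (AlgebraicClosure F) (p ^ i) := fun i => by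
    have : NeZero (((p ^ i : ℕ)) : AlgebraicClosure F) := ⟨by
      rw [Nat.cast_ne_zero]
      exact pow_ne_zero _ (Fact.out : p.Prime).ne_zero⟩
    infer_instance
  have h2 : g ζ = ζ ^ (PadicInt.toZModPow 1 ((cycF p F g : ℤ_[p]ˣ) : ℤ_[p])).val :=
    cyclotomicCharacter.spec p (MulSemiringAction.toRingAut (GF F) (AlgebraicClosure F) g)
      (n := 1) ζ (by rw [pow_one]; exact hζ.pow_eq_one)
  have hz0 : ζ ≠ 0 := hζ.ne_zero (Fact.out : p.Prime).ne_zero
  have h3 : ζ ^ ((PadicInt.toZModPow 1 ((cycF p F g : ℤ_[p]ˣ) : ℤ_[p])).val + 1) = 1 := by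
    rw [pow_succ, ← h2, hg, inv_mul_cancel₀ hz0]
  have h4 := hζ.dvd_of_pow_eq_one _ h3
  have hne : NeZero (p ^ 1) := ⟨by rw [pow_one]; exact (Fact.out : p.Prime).ne_zero⟩
  have h5 : PadicInt.toZModPow 1 (((cycF p F g : ℤ_[p]ˣ) : ℤ_[p]) + 1) = 0 := by
    rw [map_add, map_one]
    have h6 : (((PadicInt.toZModPow 1 ((cycF p F g : ℤ_[p]ˣ) : ℤ_[p])).val + 1 : ℕ) :
        ZMod (p ^ 1)) = 0 := by
      rw [ZMod.natCast_eq_zero_iff]
      exact (pow_one p).dvd.trans h4
    rwa [Nat.cast_add, ZMod.natCast_zmod_val, Nat.cast_one] at h6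
  have h7 : ((cycF p F g : ℤ_[p]ˣ) : ℤ_[p]) + 1 ∈ RingHom.ker (PadicInt.toZModPow (p := p) 1) :=
    h5
  rw [PadicInt.ker_toZModPow, pow_one, Ideal.mem_span_singleton] at h7
  exact (PadicInt.norm_lt_one_iff_dvd _).2 h7

end NNSD

open NNSD in
/-- Module NSD: the diagonal characters are not conjugate self-dual. -/
theorem stNsd (hram : StRam) : StNsd := by
  intro p _ hp F _ _ hF hreal hsp c σ hcs L _ _ _ n V hV A hA i
  obtain ⟨l, hl, j, t, τ, ht, ⟨a, ha⟩, hin⟩ := hram F hF
  have hpp : p.Prime := Fact.out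
  obtain ⟨s, hs⟩ := hcs.hσ
  have hσσ : ∀ x, σ (σ x) = x := by
    intro x
    apply (algebraMap F (AlgebraicClosure F)).injective
    rw [← hcs.h, ← hcs.h, hcs.hc]
  -- `F` does not split at `l`
  have hns : ¬ Splits F l := by
    rintro ⟨_, ⟨f⟩⟩
    have hne : (algebraMap ℚ_[l] (PadicAlgCl l)).comp f ≠
        ((algebraMap ℚ_[l] (PadicAlgCl l)).comp f).comp (σ : F →+* F) := by
      intro h0
      exact hs (((algebraMap ℚ_[l] (PadicAlgCl l)).comp f).injective
        (RingHom.congr_fun h0 s)).symm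
    have hfix : t (j (algebraMap F (AlgebraicClosure F) a)) =
        j (algebraMap F (AlgebraicClosure F) a) := by
      rcases emb2 hF _ _ (j.comp (algebraMap F (AlgebraicClosure F))) hne with h2 | h2
      · have h3 : j (algebraMap F _ a) = algebraMap ℚ_[l] (PadicAlgCl l) (f a) :=
          RingHom.congr_fun h2 a
        rw [h3, AlgEquiv.commutes]
      · have h3 : j (algebraMap F _ a) = algebraMap ℚ_[l] (PadicAlgCl l) (f (σ a)) :=
          RingHom.congr_fun h2 a
        rw [h3, AlgEquiv.commutes]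
    exact ha (j.injective (by rw [ht, hfix]))
  have hlp : l ≠ p := by
    rintro rfl
    exact hns hsp
  -- `τ` is `σ` on `F`
  have hτσ : ∀ b : F, τ (algebraMap F (AlgebraicClosure F) b) =
      algebraMap F (AlgebraicClosure F) (σ b) := by
    have hne : algebraMap F (AlgebraicClosure F) ≠
        (algebraMap F (AlgebraicClosure F)).comp (σ : F →+* F) := by
      intro h0
      exact hs ((algebraMap F (AlgebraicClosure F)).injective (RingHom.congr_fun h0 s)).symm
    rcases emb2 hF _ _ ((τ : AlgebraicClosure F →+* AlgebraicClosure F).comp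
      (algebraMap F (AlgebraicClosure F))) hne with h2 | h2
    · exact absurd (RingHom.congr_fun h2 a) ha
    · exact fun b => RingHom.congr_fun h2 b
  -- the element of the Galois group
  let g : GF F := AlgEquiv.ofRingEquiv (f := τ.trans c) (fun b => by
    change c (τ (algebraMap F _ b)) = _
    rw [hτσ, hcs.h, hσσ])
  have hg : ∀ z, g z = c (τ z) := fun z => rfl
  have hcg : ∀ z, (BKOdd.conj c σ hcs.h g * g) z = τ (τ z) := by
    intro z
    change c (c (τ (c.symm (c (τ z))))) = τ (τ z)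
    rw [RingEquiv.symm_apply_apply, hcs.hc]
  have hI : BKOdd.conj c σ hcs.h g * g ∈ Inert F (AlgebraicClosure F) j := by
    have hu : IsUltrametricDist (PadicAlgCl l) := IsUltrametricDist.of_normedAlgebra ℚ_[l]
    intro x hx
    rw [hcg]
    have h1 := hin x hx
    have h2 : ‖j (τ x)‖ ≤ 1 := by
      have e : j (τ x) = j (τ x - x) + j x := by rw [← map_add, sub_add_cancel]
      rw [e]
      exact (IsUltrametricDist.norm_add_le_max _ _).trans (max_le h1.le hx)
    have h3 := hin (τ x) h2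
    have e : j (τ (τ x) - x) = j (τ (τ x) - τ x) + j (τ x - x) := by
      rw [← map_add, sub_add_sub_cancel]
    rw [e]
    exact (IsUltrametricDist.norm_add_le_max _ _).trans_lt (max_lt h3 h1)
  have hV1 := hV l hns j _ hI
  rw [map_mul] at hV1
  have huL : IsUltrametricDist L := IsUltrametricDist.of_normedAlgebra ℚ_[p]
  have hMN : ((A * V (BKOdd.conj c σ hcs.h g) * A⁻¹ : GL (Fin n) L) : Matrix (Fin n) (Fin n) L) *
      ((A * V g * A⁻¹ : GL (Fin n) L) : Matrix (Fin n) (Fin n) L) = 1 := by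
    rw [← Units.val_mul]
    have e : (A * V (BKOdd.conj c σ hcs.h g) * A⁻¹) * (A * V g * A⁻¹) =
        A * (V (BKOdd.conj c σ hcs.h g) * V g) * A⁻¹ := by group
    rw [e, hV1, mul_one, mul_inv_cancel]
    rfl
  have h1 := diag_mul (hA _) (hA _) hMN i
  refine ⟨g, ?_⟩
  obtain ⟨ζ, hζ⟩ := exists_zeta p F
  have hcz : c ζ = ζ⁻¹ := (BKOdd.stConj p hp F hF hreal ζ hζ c σ hcs).2.2.2.2
  have hτp : (τ ζ) ^ p = 1 := by rw [← map_pow, hζ.pow_eq_one, map_one]
  have hjζ : (j ζ) ^ p = 1 := by rw [← map_pow, hζ.pow_eq_one, map_one]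
  have hjτ : (j (τ ζ)) ^ p = 1 := by rw [← map_pow, hτp, map_one]
  have hn : ‖j ζ‖ = 1 := by
    have h2 : ‖j ζ‖ ^ p = 1 := by rw [← norm_pow, hjζ, norm_one]
    exact (pow_eq_one_iff_of_nonneg (norm_nonneg _) hpp.ne_zero).1 h2
  have hτz : τ ζ = ζ := j.injective (root_eq hpp hlp hjζ hjτ (by
    rw [← map_sub]
    exact hin ζ hn.le))
  have h2 := cyc_neg hζ g (by rw [hg, hτz, hcz])
  have h3 : ‖BKOdd.chL (cycF p F) L g + 1‖ < 1 := by
    have e : BKOdd.chL (cycF p F) L g + 1 = algebraMap ℚ_[p] L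
        ((((cycF p F g : ℤ_[p]ˣ) : ℤ_[p]) + 1 : ℤ_[p]) : ℚ_[p]) := by
      rw [PadicInt.coe_add, PadicInt.coe_one, map_add, map_one]
      rfl
    rw [e, norm_algebraMap']
    exact h2
  have h4 : ‖(2 : L)‖ = 1 := by
    have h5 := norm_prime p Nat.prime_two hp (E := L)
    rwa [Nat.cast_ofNat] at h5
  generalize ((A * V (BKOdd.conj c σ hcs.h g) * A⁻¹ : GL (Fin n) L) :
    Matrix (Fin n) (Fin n) L) i i = x at h1 ⊢
  generalize ((A * V g * A⁻¹ : GL (Fin n) L) : Matrix (Fin n) (Fin n) L) i i = y at h1 ⊢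
  generalize BKOdd.chL (cycF p F) L g = z at h3 ⊢
  have e : y * x - z = ((x * y - 1) - (z + 1)) + 2 := by ring
  have h5 : ‖(x * y - 1) - (z + 1)‖ < 1 := by
    rw [sub_eq_add_neg]
    exact (IsUltrametricDist.norm_add_le_max _ _).trans_lt
      (max_lt h1 (by rw [norm_neg]; exact h3))
  rw [e, IsUltrametricDist.norm_add_eq_max_of_norm_ne_norm (by rw [h4]; exact h5.ne), h4]
  exact max_eq_right h5.le

end BKMet
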