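import Pool.Agent.Lib.MP_7c08ba_nt.Met.XAll
import Pool.Agent.Lib.MP_7c08ba_nt.Met.LocAll
import Pool.Agent.Lib.MP_7c08ba_nt.Met.LLAM
import Pool.Agent.Lib.MP_7c08ba_nt.Met.LMK
import Pool.Agent.Lib.MP_7c08ba_nt.Met.LTRI
import Pool.Agent.Lib.MP_7c08ba_nt.Met.LLATT
import Pool.Agent.Lib.MP_7c08ba_nt.Met.LLAGR
import Pool.Agent.Lib.MP_7c08ba_nt.Met.LLINK
import Pool.Agent.Lib.MP_7c08ba_nt.Met.LLIMG
import Pool.Agent.Lib.MP_7c08ba_nt.Met.LLAB
import Pool.Agent.Lib.MP_7c08ba_nt.Met.LLE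
import Pool.Agent.Lib.MP_7c08ba_nt.Met.LLIMD
import Pool.Agent.Lib.MP_7c08ba_nt.Met.LLV
import Pool.Agent.Lib.MP_7c08ba_nt.Met.LHOD
import Pool.Agent.Lib.MP_7c08ba_nt.Met.LRL
import Pool.Agent.Lib.MP_7c08ba_nt.Met.LLA
import Pool.Agent.Lib.MP_7c08ba_nt.Met.FGAM
import Pool.Agent.Lib.MP_7c08ba_nt.Met.FPARX
import Pool.Agent.Lib.MP_7c08ba_nt.Met.FLOCX
import Pool.Agent.Lib.MP_7c08ba_nt.Met.FZID
import Pool.Agent.Lib.MP_7c08ba_nt.Met.FCUPX
import Pool.Agent.Lib.MP_7c08ba_nt.Met.FMAINX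
import Pool.Agent.Lib.MP_7c08ba_nt.Met.FLINEQ
import Pool.Agent.Lib.MP_7c08ba_nt.Met.FU0
import Pool.Agent.Lib.MP_7c08ba_nt.Met.FCRYM
import Pool.Agent.Lib.MP_7c08ba_nt.Met.FHODM
import Pool.Agent.Lib.MP_7c08ba_nt.Met.FPARM
import Pool.Agent.Lib.MP_7c08ba_nt.Met.FDESC
import Pool.Agent.Lib.MP_7c08ba_nt.Met.FUNR
import Pool.Agent.Lib.MP_7c08ba_nt.Met.LLIMA
import Pool.Agent.Lib.MP_7c08ba_nt.Met.NNSD
import Pool.Agent.Lib.MP_7c08ba_nt.Met.NRAM
import Pool.Agent.Lib.MP_7c08ba_nt.Odd.LineL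

set_option autoImplicit false

/-!
Metabolic parity: assembly.
-/

namespace BKMet.All

open BKMet

theorem lam : StLam := stLam
theorem mk : StMk := stMk
theorem tri : StTri := stTri
theorem latt : StLatt := stLatt tri
theorem lagr : StLagr := stLagr
theorem link : StLink := stLink lines
theorem lab : StLAB := stLAB dual perp
theorem le' : StLE := stLE lab dual perp
theorem hod : StHod := stHod BKOdd.stLineL
theorem limA : StLimA := stLimA
theorem limD : StLimD := stLimD limA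
theorem limG : StLimG := stLimG limA
theorem lV : StLV := stLV lam mk tri link lab le' limD
theorem gam : StGam := stGam
theorem parX : StParX := stParX lam mk tri latt lagr link limG gam
theorem locX : StLocX := stLocX lV tri
theorem mainX : StMainX := stMainX parX locX stZid (stCupX stRL) hod stLA
theorem lineQ : StLineQ :=
  stLineQ BKLoc2.aLnX BKLoc2.aRPb BKLoc2.stKPE BKLoc2.stPA BKLoc2.stLam
theorem u0 : StU0 := stU0 tri
theorem parM (h : StArith) : StParM :=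
  stParM h mainX tri lineQ u0 stDescM stUnrM stCrysM stHodM
theorem nsd : StNsd := stNsd stRam
theorem parN (h : StArith) : StParN := stParN (parM h) nsd

end BKMet.All
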