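import Pool.Agent.Lib.MP_7c08ba_nt.Met.StF

set_option autoImplicit false
set_option linter.unusedSectionVars false

/-!
Metabolic parity, part F: the parity theorem for groups (assembly).
-/

noncomputable section

namespace BKMet

open BKPar (Loc1 Loc2)
open BKND (Sm)
open Matrix

namespace FMAINX

theorem mem_map_sub {K X : Type*} [Field K] [AddCommGroup X] [Module K X] (E : Submodule K X)
    (Q : Submodule K E) (x : X) : x ∈ Q.map E.subtype ↔ ∃ hx : x ∈ E, (⟨x, hx⟩ : E) ∈ Q := by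
  constructor
  · rintro ⟨⟨y, hy⟩, hQ, rfl⟩
    exact ⟨hy, hQ⟩
  · rintro ⟨hx, hQ⟩
    exact ⟨⟨x, hx⟩, hQ, rfl⟩

/-- dimension of a subspace of a subspace -/
theorem finrank_sub {K X : Type*} [Field K] [AddCommGroup X] [Module K X] (E : Submodule K X)
    (Q : Submodule K E) (W : Submodule K X) (h : ∀ x, x ∈ W ↔ ∃ hx : x ∈ E, (⟨x, hx⟩ : E) ∈ Q) :
    Module.finrank K W = Module.finrank K Q := by
  have e : W = Q.map E.subtype := by
    ext x
    rw [h]
    constructor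
    · rintro ⟨hx, hQ⟩
      exact ⟨⟨x, hx⟩, hQ, rfl⟩
    · rintro ⟨⟨y, hy⟩, hQ, rfl⟩
      exact ⟨hy, hQ⟩
  rw [e]
  exact (LinearEquiv.finrank_eq (Submodule.equivMapOfInjective _ E.injective_subtype Q)).symm

section Rep

variable {L : Type} [NormedField L] {G : Type} [Group G] [TopologicalSpace G] {D : Type} [Group D]
  [TopologicalSpace D] {n : ℕ}

theorem dualC_apply (V : G →* GL (Fin n) L) (c : G →* G) (B : GL (Fin n) L) (g : G) :
    dualC V c B g = B * V (c g) * B⁻¹ := rfl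

theorem dualC_mulVec (V : G →* GL (Fin n) L) (c : G →* G) (B : GL (Fin n) L) (g : G)
    (v : Fin n → L) :
    ((dualC V c B g : GL (Fin n) L) : Matrix (Fin n) (Fin n) L) *ᵥ
      ((B : Matrix (Fin n) (Fin n) L) *ᵥ v) =
    (B : Matrix (Fin n) (Fin n) L) *ᵥ ((V (c g) : Matrix (Fin n) (Fin n) L) *ᵥ v) := by
  rw [dualC_apply, Units.val_mul, Units.val_mul, Matrix.mulVec_mulVec, Matrix.mulVec_mulVec,
    Matrix.mul_assoc, Matrix.mul_assoc, ← Units.val_mul, inv_mul_cancel, Units.val_one,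
    Matrix.mul_one]

theorem B_inj (B : GL (Fin n) L) {v w : Fin n → L}
    (h : (B : Matrix (Fin n) (Fin n) L) *ᵥ v = (B : Matrix (Fin n) (Fin n) L) *ᵥ w) : v = w := by
  have h1 := congrArg (fun u => ((B⁻¹ : GL (Fin n) L) : Matrix (Fin n) (Fin n) L) *ᵥ u) h
  simpa only [Matrix.mulVec_mulVec, ← Units.val_mul, inv_mul_cancel, Units.val_one,
    Matrix.one_mulVec] using h1

theorem B_surj (B : GL (Fin n) L) (v : Fin n → L) :
    (B : Matrix (Fin n) (Fin n) L) *ᵥ (((B⁻¹ : GL (Fin n) L) : Matrix (Fin n) (Fin n) L) *ᵥ v) =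
      v := by
  rw [Matrix.mulVec_mulVec, ← Units.val_mul, mul_inv_cancel, Units.val_one, Matrix.one_mulVec]

theorem noInv_dualC {V : G →* GL (Fin n) L} {c : G →* G} (B : GL (Fin n) L) {r : D →* G}
    (h : NoInv ((V.comp c).comp r)) : NoInv ((dualC V c B).comp r) := by
  intro v hv
  have h1 : ((B⁻¹ : GL (Fin n) L) : Matrix (Fin n) (Fin n) L) *ᵥ v = 0 := by
    apply h
    intro d
    apply B_inj B
    have h2 := hv d
    change ((dualC V c B (r d) : GL (Fin n) L) : Matrix (Fin n) (Fin n) L) *ᵥ v = v at h2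
    rw [← B_surj B v, dualC_mulVec] at h2
    exact h2.trans (by rw [B_surj])
  rw [← B_surj B v, h1, Matrix.mulVec_zero]

theorem continuous_dualC {V : G →* GL (Fin n) L} (hV : Continuous V) {c : G →* G}
    (hc : Continuous c) (B : GL (Fin n) L) : Continuous (dualC V c B) := by
  have h1 : Continuous fun g => V (c g) := hV.comp hc
  exact (continuous_const.mul h1).mul continuous_const

/-- the restriction of the cocycles -/
def resA (V : G →* GL (Fin n) L) (r : D →* G) (hr : Continuous r) :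
    BKOdd.Z1 V →ₗ[L] BKOdd.Z1 (V.comp r) where
  toFun x := ⟨fun d => (x : G → Fin n → L) (r d), x.2.1.comp hr, fun g h => by
    change (x : G → Fin n → L) (r (g * h)) = _
    rw [map_mul]
    exact x.2.2 (r g) (r h)⟩
  map_add' x y := rfl
  map_smul' a x := rfl

/-- the conjugate restriction of the cocycles -/
def resB (V : G →* GL (Fin n) L) (c : G →* G) (hc : Continuous c) (B : GL (Fin n) L) (r : D →* G)
    (hr : Continuous r) :
    BKOdd.Z1 V →ₗ[L] BKOdd.Z1 ((dualC V c B).comp r) where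
  toFun x := ⟨fun d => (B : Matrix (Fin n) (Fin n) L) *ᵥ (x : G → Fin n → L) (c (r d)),
    Continuous.matrix_mulVec continuous_const (x.2.1.comp (hc.comp hr)), fun g h => by
    change (B : Matrix (Fin n) (Fin n) L) *ᵥ (x : G → Fin n → L) (c (r (g * h))) =
      (B : Matrix (Fin n) (Fin n) L) *ᵥ (x : G → Fin n → L) (c (r g)) +
      ((dualC V c B (r g) : GL (Fin n) L) : Matrix (Fin n) (Fin n) L) *ᵥ
        ((B : Matrix (Fin n) (Fin n) L) *ᵥ (x : G → Fin n → L) (c (r h)))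
    rw [map_mul, map_mul, x.2.2, Matrix.mulVec_add, dualC_mulVec]⟩
  map_add' x y := by
    apply Subtype.ext
    funext d
    exact Matrix.mulVec_add (B : Matrix (Fin n) (Fin n) L) ((x : G → Fin n → L) (c (r d)))
      ((y : G → Fin n → L) (c (r d)))
  map_smul' a x := by
    apply Subtype.ext
    funext d
    exact Matrix.mulVec_smul (B : Matrix (Fin n) (Fin n) L) a ((x : G → Fin n → L) (c (r d)))

theorem resA_coe (V : G →* GL (Fin n) L) (r : D →* G) (hr : Continuous r) (x : BKOdd.Z1 V) :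
    ((resA V r hr x : BKOdd.Z1 (V.comp r)) : D → Fin n → L) =
      fun d => (x : G → Fin n → L) (r d) := rfl

theorem resB_coe (V : G →* GL (Fin n) L) (c : G →* G) (hc : Continuous c) (B : GL (Fin n) L)
    (r : D →* G) (hr : Continuous r) (x : BKOdd.Z1 V) :
    ((resB V c hc B r hr x : BKOdd.Z1 ((dualC V c B).comp r)) : D → Fin n → L) =
      fun d => (B : Matrix (Fin n) (Fin n) L) *ᵥ (x : G → Fin n → L) (c (r d)) := rfl

/-- coboundaries for the dual representation -/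
theorem mem_B1_dualC (V : G →* GL (Fin n) L) (c : G →* G) (B : GL (Fin n) L) (r : D →* G)
    (y : D → Fin n → L) :
    (fun d => (B : Matrix (Fin n) (Fin n) L) *ᵥ y d) ∈ BKOdd.B1 ((dualC V c B).comp r) ↔
      y ∈ BKOdd.B1 ((V.comp c).comp r) := by
  constructor
  · rintro ⟨v, hv⟩
    refine ⟨((B⁻¹ : GL (Fin n) L) : Matrix (Fin n) (Fin n) L) *ᵥ v, ?_⟩
    funext d
    apply B_inj B
    have h1 := congrFun hv d
    change ((dualC V c B (r d) : GL (Fin n) L) : Matrix (Fin n) (Fin n) L) *ᵥ v - v =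
      (B : Matrix (Fin n) (Fin n) L) *ᵥ y d at h1
    rw [← h1]
    change (B : Matrix (Fin n) (Fin n) L) *ᵥ ((V (c (r d)) : Matrix (Fin n) (Fin n) L) *ᵥ
      (((B⁻¹ : GL (Fin n) L) : Matrix (Fin n) (Fin n) L) *ᵥ v) -
        ((B⁻¹ : GL (Fin n) L) : Matrix (Fin n) (Fin n) L) *ᵥ v) = _
    rw [Matrix.mulVec_sub, ← dualC_mulVec, B_surj]
  · rintro ⟨v, hv⟩
    refine ⟨(B : Matrix (Fin n) (Fin n) L) *ᵥ v, ?_⟩
    funext d
    have h1 := congrFun hv d
    change (V (c (r d)) : Matrix (Fin n) (Fin n) L) *ᵥ v - v = y d at h1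
    rw [← h1, Matrix.mulVec_sub]
    change ((dualC V c B (r d) : GL (Fin n) L) : Matrix (Fin n) (Fin n) L) *ᵥ
      ((B : Matrix (Fin n) (Fin n) L) *ᵥ v) - (B : Matrix (Fin n) (Fin n) L) *ᵥ v = _
    rw [dualC_mulVec]

theorem isDual_dualC {p : ℕ} [Fact p.Prime] [NormedAlgebra ℚ_[p] L] {χ : G →* ℤ_[p]ˣ}
    {V : G →* GL (Fin n) L} {c : G →* G} {B : GL (Fin n) L}
    (h : IsDual χ V (V.comp c) (B : Matrix (Fin n) (Fin n) L)) (r : D →* G) :
    IsDual (χ.comp r) (V.comp r) ((dualC V c B).comp r) 1 := by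
  intro d
  have h1 := h (r d)
  change (V (r d) : Matrix (Fin n) (Fin n) L)ᵀ * (B : Matrix (Fin n) (Fin n) L) *
    (V (c (r d)) : Matrix (Fin n) (Fin n) L) = BKOdd.chL χ L (r d) •
      (B : Matrix (Fin n) (Fin n) L) at h1
  change (V (r d) : Matrix (Fin n) (Fin n) L)ᵀ * 1 *
    ((B * V (c (r d)) * B⁻¹ : GL (Fin n) L) : Matrix (Fin n) (Fin n) L) =
      BKOdd.chL χ L (r d) • 1
  rw [Matrix.mul_one, Units.val_mul, Units.val_mul, ← Matrix.mul_assoc, ← Matrix.mul_assoc, h1,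
    Matrix.smul_mul, ← Units.val_mul, mul_inv_cancel, Units.val_one]

theorem finrank_B1_noInv {σ : D →* GL (Fin n) L} (h : NoInv σ) :
    Module.finrank L (BKOdd.B1 σ) = n := by
  have h1 := BKOdd.finrank_B1 (ρ := σ)
  have h2 : BKOdd.inv σ Set.univ = ⊥ := by
    rw [eq_bot_iff]
    intro v hv
    exact h v fun g => hv g trivial
  rw [h2, finrank_bot, add_zero] at h1
  exact h1

end Rep

end FMAINX

open FMAINX in
theorem stMainX (h1 : StParX) (h2 : StLocX) (h3 : StZid) (h4 : StCupX) (h5 : StHod)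
    (h6 : StLA) : StMainX := by
  intro p _ hp L _ _ _ ι _ G _ _ _ _ _ D _ _ _ _ _ r c χ inv δ U hS n V A B hP hI hI' i₀ hδ hex
    hLine Zf s s' hH
  obtain ⟨i₁, hi₁⟩ := hex
  classical
  -- the numbers `δ`
  have hδ0 : ∀ i, i ≠ i₀ → δ i = 0 := by
    intro i hi
    have e1 := Finset.add_sum_erase Finset.univ δ (Finset.mem_univ i₀)
    rw [hS.sum, hδ] at e1
    have e2 : ∑ x ∈ Finset.univ.erase i₀, δ x = 0 := by omega
    exact Finset.sum_eq_zero_iff.mp e2 i (Finset.mem_erase.mpr ⟨hi, Finset.mem_univ i⟩)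
  have hch : CharZero L := charZero_of_injective_algebraMap (algebraMap ℚ_[p] L).injective
  -- the local theorem
  obtain ⟨hLV, hL0⟩ := h2 p L ι G D r c χ inv δ U hS n V A B hP hI hI'
  have hZB : ∀ i, i ≠ i₀ → BKOdd.Z1 (V.comp (r i)) ≤ BKOdd.B1 (V.comp (r i)) ∧
      BKOdd.Z1 ((V.comp c).comp (r i)) ≤ BKOdd.B1 ((V.comp c).comp (r i)) :=
    fun i hi => hL0 i (hδ0 i hi)
  have hLV0 := hLV i₀
  rw [hδ] at hLV0
  have hc1 : Continuous (V.comp (r i₀)) := hP.cont.comp (hS.cont_r i₀)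
  have hc2 : Continuous ((dualC V c B).comp (r i₀)) :=
    (continuous_dualC hP.cont hS.cont_c B).comp (hS.cont_r i₀)
  have hn2 : NoInv ((dualC V c B).comp (r i₀)) := noInv_dualC B (hI' i₀)
  obtain ⟨hss, hcl, hcl', hz, hz', Λ, hΛ, -, hΛB, hΛB', hΛZ⟩ :=
    h5 p L (D i₀) (χ.comp (r i₀)) (hS.cont_χ.comp (hS.cont_r i₀)) hLine n (V.comp (r i₀))
      ((dualC V c B).comp (r i₀)) hc1 hc2 (isDual_dualC hP.dual (r i₀)) (hI i₀) hn2 hLV0 Zf s s' hH
  have hf1 : FiniteDimensional L (BKOdd.Z1 (V.comp (r i₀))) := hLV0.fin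
  have hf2 : FiniteDimensional L (BKOdd.Z1 ((dualC V c B).comp (r i₀))) := hLV0.fin'
  -- the global theorem
  obtain ⟨⟨-, hpar⟩, hT⟩ := h1 p hp L ι G D r c χ inv δ U hS n V A B hP
  obtain ⟨hT1, hT2, hT3⟩ := hT {(i₁, false)} (Set.singleton_nonempty _)
    ⟨(i₁, true), by simp⟩
  have hsum : (∑ w : ι × Bool, if w ∈ ({(i₁, false)} : Set (ι × Bool)) then δ w.1 else 0) = 0 := by
    apply Finset.sum_eq_zero
    intro w _
    split_ifs with hw
    · rw [Set.mem_singleton_iff.mp hw]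
      exact hδ0 i₁ hi₁
    · rfl
  have hT4 : Module.finrank L (ZTV V (rr r c) {(i₁, false)}) =
      Module.finrank L (ZTV (V.comp c) (rr r c) {(i₁, false)}ᶜ) + n := by
    rw [← hT3]
    convert (Nat.add_zero _).symm using 2
    rw [Nat.mul_eq_zero]
    right
    convert hsum
  obtain ⟨hfZ, hfr, hW1, hW2⟩ := h3 L ι G D r hS.cont_r c hS.cont_c hS.inv_c n V hP.cont hI hI'
    i₀ i₁ hi₁ hZB hT1
  -- linear algebra
  have hB1 : Module.finrank L ((BKOdd.B1 (V.comp (r i₀))).submoduleOf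
      (BKOdd.Z1 (V.comp (r i₀)))) = n :=
    (finrank_sub (BKOdd.Z1 (V.comp (r i₀))) _ (BKOdd.B1 (V.comp (r i₀)))
      fun x => ⟨fun hx => ⟨BKOdd.B1_le hc1 hx, hx⟩, fun ⟨_, hx⟩ => hx⟩).symm.trans
      (finrank_B1_noInv (hI i₀))
  have hPd : Module.finrank L ((Zf (V.comp (r i₀))).submoduleOf
      (BKOdd.Z1 (V.comp (r i₀)))) = s + n := by
    have hfd : FiniteDimensional L (Zf (V.comp (r i₀))) :=
      Submodule.finiteDimensional_of_le hH.zz
    have e1 := BKOdd.finrank_cls hc1 (Zf (V.comp (r i₀))) hH.bz hH.zz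
    rw [hcl, finrank_B1_noInv (hI i₀)] at e1
    exact (finrank_sub (BKOdd.Z1 (V.comp (r i₀))) _ (Zf (V.comp (r i₀)))
      fun x => ⟨fun hx => ⟨hH.zz hx, hx⟩, fun ⟨_, hx⟩ => hx⟩).symm.trans e1.symm
  have key := h6 L two_ne_zero (BKOdd.Z1 V) (BKOdd.Z1 (V.comp (r i₀)))
    (BKOdd.Z1 ((dualC V c B).comp (r i₀))) (resA V (r i₀) (hS.cont_r i₀))
    (resB V c hS.cont_c B (r i₀) (hS.cont_r i₀))
    (BKOdd.pairZ (V.comp (r i₀)) ((dualC V c B).comp (r i₀)) Λ)
    ((BKOdd.B1 (V.comp (r i₀))).submoduleOf (BKOdd.Z1 (V.comp (r i₀))))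
    ((BKOdd.B1 ((dualC V c B).comp (r i₀))).submoduleOf (BKOdd.Z1 ((dualC V c B).comp (r i₀))))
    (fun w => (hΛB w w.2).trans ⟨fun h w' => h w' w'.2, fun h y hy => h ⟨y, hy⟩⟩)
    (fun w => (hΛB' w w.2).trans ⟨fun h w' => h w' w'.2, fun h y hy => h ⟨y, hy⟩⟩)
    (fun x y => by
      have e1 := hΛ _ (h4 p L ι G D r c χ inv δ U hS n V B hP.cont hP.symm hP.dual i₀ hLine hZB
        x x.2 y y.2)
      rw [map_add] at e1
      exact eq_neg_of_add_eq_zero_left e1)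
    (by
      have e1 := hW1 ((((BKOdd.B1 (V.comp (r i₀))).submoduleOf (BKOdd.Z1 (V.comp (r i₀)))).comap
        (resA V (r i₀) (hS.cont_r i₀)) ⊓ ((BKOdd.B1 ((dualC V c B).comp (r i₀))).submoduleOf
        (BKOdd.Z1 ((dualC V c B).comp (r i₀)))).comap (resB V c hS.cont_c B (r i₀)
        (hS.cont_r i₀))).map (BKOdd.Z1 V).subtype) fun x => by
          rw [mem_map_sub]
          constructor
          · rintro ⟨hx, hx1, hx2⟩
            exact ⟨hx, hx1, (mem_B1_dualC V c B (r i₀) _).mp hx2⟩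
          · rintro ⟨hx, hx1, hx2⟩
            exact ⟨hx, hx1, (mem_B1_dualC V c B (r i₀) _).mpr hx2⟩
      have e2 := finrank_sub (BKOdd.Z1 V) _ _ (mem_map_sub (BKOdd.Z1 V)
        (((BKOdd.B1 (V.comp (r i₀))).submoduleOf (BKOdd.Z1 (V.comp (r i₀)))).comap
        (resA V (r i₀) (hS.cont_r i₀)) ⊓ ((BKOdd.B1 ((dualC V c B).comp (r i₀))).submoduleOf
        (BKOdd.Z1 ((dualC V c B).comp (r i₀)))).comap (resB V c hS.cont_c B (r i₀)
        (hS.cont_r i₀))))
      omega)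
    ((Zf (V.comp (r i₀))).submoduleOf (BKOdd.Z1 (V.comp (r i₀))))
    ((Zf ((dualC V c B).comp (r i₀))).submoduleOf (BKOdd.Z1 ((dualC V c B).comp (r i₀))))
    (fun x hx => hH.bz hx)
    (fun w => (hΛZ w w.2).trans ⟨fun h w' hw' => h w' hw', fun h y hy => h ⟨y, hH.zz hy⟩ hy⟩)
  have e3 := hW2 ((((BKOdd.B1 (V.comp (r i₀))).submoduleOf (BKOdd.Z1 (V.comp (r i₀)))).comap
    (resA V (r i₀) (hS.cont_r i₀))).map (BKOdd.Z1 V).subtype) fun x => by
      rw [mem_map_sub]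
      constructor
      · rintro ⟨hx, hx1⟩
        exact ⟨hx, hx1⟩
      · rintro ⟨hx, hx1⟩
        exact ⟨hx, hx1⟩
  have e4 := finrank_sub (BKOdd.Z1 V) _ _ (mem_map_sub (BKOdd.Z1 V)
    (((BKOdd.B1 (V.comp (r i₀))).submoduleOf (BKOdd.Z1 (V.comp (r i₀)))).comap
    (resA V (r i₀) (hS.cont_r i₀))))
  refine ⟨hfZ, hss, hf1, hf2, hcl, hcl', hZB, ?_⟩
  intro W hW
  have e5 := finrank_sub (BKOdd.Z1 V)
    (((Zf (V.comp (r i₀))).submoduleOf (BKOdd.Z1 (V.comp (r i₀)))).comap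
      (resA V (r i₀) (hS.cont_r i₀)) ⊓
    ((Zf ((dualC V c B).comp (r i₀))).submoduleOf (BKOdd.Z1 ((dualC V c B).comp (r i₀)))).comap
      (resB V c hS.cont_c B (r i₀) (hS.cont_r i₀))) W fun x => by
      rw [hW]
      constructor
      · rintro ⟨hx, hx1, hx2⟩
        exact ⟨hx, hx1, hx2⟩
      · rintro ⟨hx, hx1, hx2⟩
        exact ⟨hx, hx1, hx2⟩
  omega

end BKMet
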