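import Pool.Agent.Lib.MP_7c08ba_nt.Gen.SUnits
import Pool.Agent.Lib.MP_7c08ba_nt.Gen.RT.Emb

set_option autoImplicit false

/-!
Hasse norm theorem in degree `p`: definitions. Norm groups of Kummer extensions, a chosen embedding
`emb v` of the number field `E` into the algebraic closure of `ℚ_l` for every prime `v`, the
completion `kv v`.
-/

noncomputable section

namespace BKGlob2

open NumberField IsDedekindDomain Polynomial BKGen BKGen.SUnits

/-- `x` is a `p`-th power in `k` -/
def IsPw (p : ℕ) {k : Type} [Field k] (x : k) : Prop := ∃ y : k, y ^ p = x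

/-- the group of norms of the units of the algebra `k[X] / (X ^ p - a)` -/
def Nm (p : ℕ) (k : Type) [Field k] (a : k) : Subgroup kˣ :=
  (Units.map (Algebra.norm k : AdjoinRoot (X ^ p - C a : k[X]) →* k)).range

/-- the subgroup of `p`-th powers -/
def Pw (p : ℕ) (k : Type) [Field k] : Subgroup kˣ := (powMonoidHom p : kˣ →* kˣ).range

section Comp

variable {E : Type} [Field E] {l : ℕ} [Fact l.Prime]

/-- the field `E` in its completion -/
def toC (j : E →+* PadicAlgCl l) : E →+* comp l j :=
  j.codRestrict (comp l j).toSubfield fun x =>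
    IntermediateField.subset_adjoin _ _ (Set.mem_range_self x)

theorem toC_val (j : E →+* PadicAlgCl l) (x : E) : ((toC j x : comp l j) : PadicAlgCl l) = j x := rfl

/-- the units of `E` in the completion -/
def toU (j : E →+* PadicAlgCl l) : Eˣ →* (comp l j)ˣ := Units.map (toC j).toMonoidHom

theorem toU_val (j : E →+* PadicAlgCl l) (x : Eˣ) :
    (((toU j x : (comp l j)ˣ) : comp l j) : PadicAlgCl l) = j (x : E) := rfl

end Comp

section Emb

variable {E : Type} [Field E] [NumberField E] (v : HeightOneSpectrum (𝓞 E))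

/-- every prime of `E` is given by an embedding -/
theorem exists_pl : ∃ (l : ℕ) (_ : Fact l.Prime) (j : E →+* PadicAlgCl l), pl j = v := by
  have hne : v.asIdeal ≠ ⊥ := v.ne_bot
  have hN : Ideal.absNorm v.asIdeal ≠ 1 := by
    rw [Ne, Ideal.absNorm_eq_one_iff]
    exact v.isPrime.ne_top
  -- a prime number in `v`
  have h1 : ∃ l : ℕ, l.Prime ∧ (l : 𝓞 E) ∈ v.asIdeal := by
    have h2 : ((Ideal.absNorm v.asIdeal : ℕ) : 𝓞 E) ∈ v.asIdeal := Ideal.absNorm_mem _
    have h0 : Ideal.absNorm v.asIdeal ≠ 0 := by
      rw [Ne, Ideal.absNorm_eq_zero_iff]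
      exact hne
    rw [← Nat.prod_primeFactorsList h0, Nat.cast_list_prod] at h2
    have := v.isPrime
    have h3 : ∃ x ∈ ((Ideal.absNorm v.asIdeal).primeFactorsList.map (Nat.cast : ℕ → 𝓞 E)),
        x ∈ v.asIdeal := by
      by_contra hcon
      push Not at hcon
      have key : ∀ L : List (𝓞 E), (∀ x ∈ L, x ∉ v.asIdeal) → L.prod ∉ v.asIdeal := by
        intro L
        induction L with
        | nil =>
          intro _ h
          rw [List.prod_nil] at h
          exact this.ne_top ((Ideal.eq_top_iff_one _).2 h)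
        | cons x L ih =>
          intro h hm
          rw [List.prod_cons] at hm
          rcases this.mem_or_mem hm with h' | h'
          · exact h x (List.mem_cons_self) h'
          · exact ih (fun y hy => h y (List.mem_cons_of_mem _ hy)) h'
      exact key _ hcon h2
    obtain ⟨x, hx, hxv⟩ := h3
    obtain ⟨l, hl, rfl⟩ := List.mem_map.1 hx
    exact ⟨l, Nat.prime_of_mem_primeFactorsList hl, hxv⟩
  obtain ⟨l, hl, hlv⟩ := h1
  have : Fact l.Prime := ⟨hl⟩
  have := v.isPrime
  obtain ⟨j, hj⟩ := RT.exists_emb v.asIdeal hne hlv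
  refine ⟨l, ⟨hl⟩, j, ?_⟩
  apply HeightOneSpectrum.ext
  rw [hj]
  rfl

/-- the residue characteristic of `v` -/
def chr : ℕ := (exists_pl v).choose

instance factChr : Fact (chr v).Prime := (exists_pl v).choose_spec.choose

/-- an embedding of `E` which gives `v` -/
def emb : E →+* PadicAlgCl (chr v) := (exists_pl v).choose_spec.choose_spec.choose

theorem pl_emb : pl (emb v) = v := (exists_pl v).choose_spec.choose_spec.choose_spec

/-- the completion of `E` at `v` -/
abbrev kv : IntermediateField ℚ_[chr v] (PadicAlgCl (chr v)) := comp (chr v) (emb v)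

/-- the units of `E` in the units of the completion at `v` -/
def loc : Eˣ →* (kv v)ˣ := toU (emb v)

theorem loc_val (x : Eˣ) : (((loc v x : (kv v)ˣ) : kv v) : PadicAlgCl (chr v)) = emb v (x : E) := rfl

end Emb

end BKGlob2
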