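import Pool.Agent.Lib.MP_7c08ba_nt.Met.GStmts

set_option autoImplicit false

/-!
The Hasse norm theorem in degree `p`, module EA: the Galois group of a Kummer extension.
-/

noncomputable section

namespace BKGlob2

open NumberField IsDedekindDomain Polynomial BKGen BKGen.SUnits

namespace EAAux

variable {p : ℕ} {E N : Type} [Field E] [NumberField E] [Field N] [NumberField N] [Algebra E N]
  {ζ : E} {a : Eˣ} {α : N}

theorem irr (h : Kum p ζ a α) : Irreducible (X ^ p - C (a : E) : E[X]) :=
  X_pow_sub_C_irreducible_of_prime h.prime fun b hb => h.notpw ⟨b, hb⟩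

theorem prim (h : Kum p ζ a α) : (primitiveRoots p E).Nonempty :=
  ⟨ζ, (mem_primitiveRoots h.prime.pos).2 h.root⟩

theorem splitting (h : Kum p ζ a α) : IsSplittingField E N (X ^ p - C (a : E)) := by
  constructor
  · rw [Polynomial.map_sub, Polynomial.map_pow, Polynomial.map_C, Polynomial.map_X]
    exact X_pow_sub_C_splits_of_isPrimitiveRoot
      (h.root.map_of_injective (algebraMap E N).injective) h.pow
  · rw [eq_top_iff, ← IntermediateField.top_toSubalgebra, ← h.top,
      IntermediateField.adjoin_simple_toSubalgebra_of_isAlgebraic (IsAlgebraic.of_finite E α)]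
    apply Algebra.adjoin_mono
    rw [Set.singleton_subset_iff, mem_rootSet_of_ne (X_pow_sub_C_ne_zero h.prime.pos (a : E)),
      aeval_def, eval₂_sub, eval₂_X_pow, eval₂_C, h.pow, sub_self]

theorem alpha_ne (h : Kum p ζ a α) : α ≠ 0 := by
  rintro rfl
  have h1 := h.pow
  rw [zero_pow h.prime.ne_zero] at h1
  exact a.ne_zero ((map_eq_zero (algebraMap E N)).1 h1.symm)

end EAAux

open EAAux

theorem stEA : StEA := by
  intro p E N _ _ _ _ _ ζ a α h
  have := splitting h
  have : NeZero p := ⟨h.prime.ne_zero⟩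
  have hgal : IsGalois E N := isGalois_of_isSplittingField_X_pow_sub_C (prim h) (irr h) N
  set f := autEquivZmod (irr h) N h.root with hf
  set σ : N ≃ₐ[E] N := f.symm (Multiplicative.ofAdd (1 : ZMod p)) with hσ
  have hσα : σ α = algebraMap E N ζ * α := by
    have h1 := autEquivZmod_symm_apply_natCast (irr h) N h.pow h.root 1
    rw [Nat.cast_one, pow_one, Algebra.smul_def] at h1
    exact h1
  have hall : ∀ τ : N ≃ₐ[E] N, ∃ i < p, τ = σ ^ i := by
    intro τ
    refine ⟨(Multiplicative.toAdd (f τ)).val, ZMod.val_lt _, ?_⟩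
    apply f.injective
    rw [map_pow, hσ, MulEquiv.apply_symm_apply, ← ofAdd_nsmul, nsmul_one, ZMod.natCast_zmod_val,
      ofAdd_toAdd]
  have hpow : σ ^ p = 1 := by
    apply f.injective
    rw [map_pow, hσ, MulEquiv.apply_symm_apply, ← ofAdd_nsmul, nsmul_one, ZMod.natCast_self,
      ofAdd_zero, map_one]
  refine ⟨hgal, finrank_of_isSplittingField_X_pow_sub_C (prim h) (irr h) N, ⟨σ, hσα, hall, hpow⟩,
    fun c hc => ?_⟩
  obtain ⟨y, hy⟩ := hc
  by_cases hc0 : c = 0
  · exact ⟨0, 0, by rw [hc0, zero_pow h.prime.ne_zero, mul_zero]⟩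
  have hy0 : y ≠ 0 := by
    rintro rfl
    rw [zero_pow h.prime.ne_zero] at hy
    exact hc0 ((map_eq_zero (algebraMap E N)).1 hy.symm)
  have h1 : (σ y / y) ^ p = 1 := by
    rw [div_pow, ← map_pow, hy, AlgEquiv.commutes, div_self]
    exact (map_ne_zero (algebraMap E N)).2 hc0
  have hζN : IsPrimitiveRoot (algebraMap E N ζ) p :=
    h.root.map_of_injective (algebraMap E N).injective
  obtain ⟨i, _, hi⟩ := hζN.eq_pow_of_pow_eq_one h1
  have hα0 := alpha_ne h
  have hσy : σ y = algebraMap E N ζ ^ i * y := by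
    rw [hi, div_mul_cancel₀ _ hy0]
  have hfix : σ (y / α ^ i) = y / α ^ i := by
    rw [map_div₀, map_pow, hσα, hσy, mul_pow]
    rw [mul_div_mul_left]
    exact pow_ne_zero _ (hζN.ne_zero h.prime.ne_zero)
  have hfix' : ∀ (n : ℕ), (σ ^ n) (y / α ^ i) = y / α ^ i := by
    intro n
    induction n with
    | zero => rfl
    | succ n ih => rw [pow_succ, AlgEquiv.mul_apply, hfix, ih]
  have hmem : y / α ^ i ∈ Set.range (algebraMap E N) := by
    rw [IsGalois.mem_range_algebraMap_iff_fixed]
    intro τ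
    obtain ⟨n, _, rfl⟩ := hall τ
    exact hfix' n
  obtain ⟨d, hd⟩ := hmem
  refine ⟨i, d, (algebraMap E N).injective ?_⟩
  rw [map_mul, map_pow, map_pow, hd, div_pow, ← h.pow, ← hy, ← pow_mul, ← pow_mul, mul_comm i p,
    mul_div_cancel₀]
  exact pow_ne_zero _ hα0

end BKGlob2
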