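import Pool.Agent.Lib.MP_7c08ba_nt.Met.GStmts
import Pool.Agent.Lib.MP_7c08ba_nt.Gen.Local

set_option autoImplicit false

/-!
Module EB: the number of primes of the Kummer extension `N` above a prime of `E`.
-/

noncomputable section

namespace BKGlob2

open NumberField IsDedekindDomain Polynomial BKGen BKGen.SUnits

namespace EBAux

variable {E N : Type} [Field E] [NumberField E] [Field N] [NumberField N] [Algebra E N]

/-- the embeddings of `N` which extend `j` -/
abbrev Ext {l : ℕ} [Fact l.Prime] (N : Type) [Field N] [Algebra E N] (j : E →+* PadicAlgCl l) :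
    Type :=
  {g : N →+* PadicAlgCl l // g.comp (algebraMap E N) = j}

omit [NumberField N] in
/-- the number of embeddings of `N` which extend `j` -/
theorem card_ext {l : ℕ} [Fact l.Prime] [FiniteDimensional E N] (j : E →+* PadicAlgCl l) :
    Nat.card (Ext N j) = Module.finrank E N := by
  let _ : Algebra E (PadicAlgCl l) := j.toAlgebra
  have h1 : Nat.card (N →ₐ[E] PadicAlgCl l) = Module.finrank E N := by
    rw [Nat.card_eq_fintype_card]
    exact AlgHom.card E N (PadicAlgCl l)
  rw [← h1]
  refine Nat.card_congr ⟨fun g => ⟨g.1, fun x => ?_⟩, fun g => ⟨g.toRingHom, ?_⟩, fun g => ?_,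
    fun g => ?_⟩
  · exact RingHom.congr_fun g.2 x
  · ext x
    exact g.commutes x
  · rfl
  · rfl

/-- the place of an extension -/
theorem over_pl {l : ℕ} [Fact l.Prime] {j : E →+* PadicAlgCl l} (g : Ext N j) :
    Over (pl j) (pl g.1) := by
  unfold Over
  ext x
  have e : j (algebraMap (𝓞 E) E x) = g.1 (algebraMap E N (algebraMap (𝓞 E) E x)) :=
    (RingHom.congr_fun g.2 _).symm
  rw [Ideal.mem_comap, mem_pl, mem_pl, e]
  rfl

/-- every place above `pl j` is given by an extension of `j` -/
theorem exists_ext (h1 : StPA) {l : ℕ} [Fact l.Prime] (j : E →+* PadicAlgCl l)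
    (w : HeightOneSpectrum (𝓞 N)) (hw : Over (pl j) w) : ∃ g : Ext N j, pl g.1 = w := by
  have hl : (l : 𝓞 N) ∈ w.asIdeal := by
    have h2 : (l : 𝓞 E) ∈ (pl j).asIdeal := l_mem_plI j
    rw [← hw, Ideal.mem_comap, map_natCast] at h2
    exact h2
  have := w.isPrime
  obtain ⟨g, hg⟩ := RT.exists_emb w.asIdeal w.ne_bot hl
  have hgw : pl g = w := by
    apply HeightOneSpectrum.ext
    rw [hg]
    rfl
  have h3 : pl (g.comp (algebraMap E N)) = pl j := by
    apply HeightOneSpectrum.ext
    rw [← hw, ← hgw]
    ext x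
    rw [Ideal.mem_comap, mem_pl, mem_pl]
    rfl
  obtain ⟨t, ht⟩ := h1 E l _ _ h3
  refine ⟨⟨(t : PadicAlgCl l →+* PadicAlgCl l).comp g, ?_⟩, ?_⟩
  · ext x
    exact (ht x).symm
  · rw [← hgw]
    apply HeightOneSpectrum.ext
    ext x
    rw [mem_pl, mem_pl]
    change ‖t (g _)‖ < 1 ↔ _
    rw [norm_equiv]

omit [NumberField E] [NumberField N] in
/-- an embedding of `N` is determined by the embedding of `E` and the image of `α` -/
theorem ext_eq {l : ℕ} [Fact l.Prime] {α : N} (htop : IntermediateField.adjoin E {α} = ⊤)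
    {g g' : N →+* PadicAlgCl l} (h : g.comp (algebraMap E N) = g'.comp (algebraMap E N))
    (hα : g α = g' α) : g = g' := by
  let _ : Algebra E (PadicAlgCl l) := (g.comp (algebraMap E N)).toAlgebra
  let f : N →ₐ[E] PadicAlgCl l := ⟨g, fun x => rfl⟩
  let f' : N →ₐ[E] PadicAlgCl l := ⟨g', fun x => (RingHom.congr_fun h x).symm⟩
  have hE : ∀ x : N, f x = f' x := by
    have hle : (⊤ : IntermediateField E N) ≤ IntermediateField.adjoin E {α} := htop.ge
    intro x
    have hx : x ∈ IntermediateField.adjoin E {α} := hle IntermediateField.mem_top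
    induction hx using IntermediateField.adjoin_induction with
    | mem y hy =>
      rw [Set.mem_singleton_iff.1 hy]
      exact hα
    | algebraMap y => rw [f.commutes, f'.commutes]
    | add y z _ _ h1 h2 => rw [map_add, map_add, h1, h2]
    | inv y _ h1 => rw [map_inv₀, map_inv₀, h1]
    | mul y z _ _ h1 h2 => rw [map_mul, map_mul, h1, h2]
  ext x
  exact hE x

end EBAux

open EBAux in
/-- Module EB. -/
theorem stEB (h1 : StPA) (h2 : StEA) : StEB := by
  classical
  intro p E N _ _ _ _ _ ζ a α hK v
  obtain ⟨hgal, hrk, -, -⟩ := h2 p E N ζ a α hK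
  have hp0 : p ≠ 0 := hK.prime.ne_zero
  have hfd : FiniteDimensional E N := Module.finite_of_finrank_pos (by rw [hrk]; omega)
  have hcard : Nat.card (Ext N (emb v)) = p := by rw [card_ext, hrk]
  have hgα : ∀ g : Ext N (emb v), g.1 α ^ p = emb v (a : E) := by
    intro g
    rw [← map_pow, hK.pow]
    exact RingHom.congr_fun g.2 _
  -- the map from the embeddings to the primes
  let F : Ext N (emb v) → {w : HeightOneSpectrum (𝓞 N) // Over v w} := fun g =>
    ⟨pl g.1, by
      have := over_pl g
      rwa [pl_emb] at this⟩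
  have hF : Function.Surjective F := by
    rintro ⟨w, hw⟩
    obtain ⟨g, hg⟩ := exists_ext h1 (emb v) w (by rwa [pl_emb])
    exact ⟨g, Subtype.ext hg⟩
  have hζk : ∀ x : E, emb v x ∈ kv v := fun x => mem_comp (emb v) x
  constructor
  · rintro ⟨y, hy⟩
    have hy' : ((y : kv v) : PadicAlgCl (chr v)) ^ p = emb v (a : E) := by
      have := congrArg (fun z : kv v => (z : PadicAlgCl (chr v))) hy
      simpa [loc_val] using this
    have hinj : Function.Injective F := by
      intro g g' hgg
      have hpl : pl g.1 = pl g'.1 := congrArg Subtype.val hgg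
      obtain ⟨t, ht⟩ := h1 N (chr v) g.1 g'.1 hpl
      -- `t` fixes the completion
      have htE : ∀ x : E, t (emb v x) = emb v x := by
        intro x
        have e1 : g.1 (algebraMap E N x) = emb v x := RingHom.congr_fun g.2 x
        have e2 : g'.1 (algebraMap E N x) = emb v x := RingHom.congr_fun g'.2 x
        rw [← e1, ← ht, e2, e1]
      have htk : ∀ z ∈ kv v, t z = z := by
        intro z hz
        induction hz using IntermediateField.adjoin_induction with
        | mem y hy =>
          obtain ⟨x, rfl⟩ := hy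
          exact htE x
        | algebraMap y => exact t.commutes y
        | add y z _ _ h1 h2 => rw [map_add, h1, h2]
        | inv y _ h1 => rw [map_inv₀, h1]
        | mul y z _ _ h1 h2 => rw [map_mul, h1, h2]
      -- the image of `α` lies in the completion
      have hy0 : ((y : kv v) : PadicAlgCl (chr v)) ≠ 0 := by
        intro h0
        rw [h0, zero_pow hp0] at hy'
        exact a.ne_zero ((map_eq_zero (emb v)).1 hy'.symm)
      have : NeZero p := ⟨hp0⟩
      have hroot : IsPrimitiveRoot (emb v ζ) p := hK.root.map_of_injective (emb v).injective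
      have hmem : g.1 α ∈ kv v := by
        have h3 : (g.1 α / y) ^ p = 1 := by
          rw [div_pow, hgα, hy', div_self]
          exact fun h0 => a.ne_zero ((map_eq_zero (emb v)).1 h0)
        obtain ⟨i, -, hi⟩ := hroot.eq_pow_of_pow_eq_one h3
        have h4 : g.1 α = emb v ζ ^ i * y := by
          rw [hi, div_mul_cancel₀ _ hy0]
        rw [h4]
        exact mul_mem (pow_mem (hζk ζ) i) y.2
      have hα : g.1 α = g'.1 α := by rw [ht, htk _ hmem]
      exact Subtype.ext (ext_eq hK.top (g.2.trans g'.2.symm) hα)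
    rw [← Nat.card_congr (Equiv.ofBijective F ⟨hinj, hF⟩), hcard]
  · intro hnot
    have hsub : ∀ g g' : Ext N (emb v), F g = F g' := by
      intro g g'
      apply Subtype.ext
      change pl g.1 = pl g'.1
      set a' : kv v := ((loc v a : (kv v)ˣ) : kv v) with ha'
      have hirr : Irreducible (X ^ p - C a' : (kv v)[X]) :=
        X_pow_sub_C_irreducible_of_prime hK.prime fun b hb => hnot ⟨b, hb⟩
      have hmin : ∀ g : Ext N (emb v), minpoly (kv v) (g.1 α) = X ^ p - C a' := by
        intro g
        refine (minpoly.eq_of_irreducible_of_monic hirr ?_ (monic_X_pow_sub_C _ hp0)).symm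
        rw [map_sub, map_pow, aeval_X, aeval_C, hgα]
        exact sub_eq_zero_of_eq rfl
      have hconj : IsConjRoot (kv v) (g'.1 α) (g.1 α) := by
        rw [isConjRoot_def, hmin, hmin]
      obtain ⟨t, ht⟩ := isConjRoot_iff_exists_algEquiv.1 hconj
      have h3 : (t : PadicAlgCl (chr v) →+* PadicAlgCl (chr v)).comp g.1 = g'.1 := by
        refine ext_eq hK.top ?_ ?_
        · rw [g'.2]
          ext x
          change t (g.1 (algebraMap E N x)) = _
          have e1 : g.1 (algebraMap E N x) = emb v x := RingHom.congr_fun g.2 x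
          rw [e1]
          exact t.commutes (⟨emb v x, hζk x⟩ : kv v)
        · exact ht
      apply HeightOneSpectrum.ext
      ext x
      rw [mem_pl, mem_pl, ← h3]
      change _ ↔ ‖t (g.1 _)‖ < 1
      rw [← norm_equiv (t.restrictScalars ℚ_[chr v])]
      rfl
    have hne : Nonempty (Ext N (emb v)) := by
      have : Finite (Ext N (emb v)) := Nat.finite_of_card_ne_zero (by rw [hcard]; exact hp0)
      by_contra hcon
      rw [not_nonempty_iff] at hcon
      rw [Nat.card_of_isEmpty] at hcard
      exact hp0 hcard.symm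
    obtain ⟨g⟩ := hne
    rw [Nat.card_eq_one_iff_unique]
    refine ⟨⟨fun w w' => ?_⟩, ⟨F g⟩⟩
    obtain ⟨g1, rfl⟩ := hF w
    obtain ⟨g2, rfl⟩ := hF w'
    exact hsub g1 g2

end BKGlob2
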