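import Pool.Agent.Lib.MP_7c08ba_nt.Met.GStmts
import Pool.Agent.Lib.MP_7c08ba_nt.ThR.Unr

set_option autoImplicit false

/-!
Module EC: primes which are unramified in a Kummer extension of prime degree.
-/

noncomputable section

namespace BKGlob2

open NumberField IsDedekindDomain Polynomial BKGen BKGen.SUnits

namespace EC

section Val

variable {E N : Type} [Field E] [NumberField E] [Field N] [NumberField N] [Algebra E N]

/-- valuations of elements of `E` at an unramified prime of `N` -/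
theorem val_of_ram {v : HeightOneSpectrum (𝓞 E)} {w : HeightOneSpectrum (𝓞 N)} (h : Over v w)
    (hr : w.asIdeal.ramificationIdx (𝓞 E) = 1) (x : E) :
    w.valuation N (algebraMap E N x) = v.valuation E x := by
  have hlo : w.asIdeal.LiesOver v.asIdeal := ⟨h.symm⟩
  rw [← HeightOneSpectrum.valuation_liesOver N v w,
    Ideal.ramificationIdx'_eq_ramificationIdx v.asIdeal w.asIdeal v.ne_bot, hr, pow_one]

omit [NumberField E] [NumberField N] in
theorem mem_iff {v : HeightOneSpectrum (𝓞 E)} {w : HeightOneSpectrum (𝓞 N)} (h : Over v w)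
    (x : 𝓞 E) : algebraMap (𝓞 E) (𝓞 N) x ∈ w.asIdeal ↔ x ∈ v.asIdeal := by
  rw [← h, Ideal.mem_comap]

end Val

/-- All values of the place `j` lie in the completion of `K`. -/
theorem mem_comp {p l : ℕ} [hp : Fact p.Prime] [Fact l.Prime] {K M : Type} [Field K] [Field M]
    [Algebra K M] {ζ : K} (hζ : IsPrimitiveRoot ζ p) {a : K} (ha : a ≠ 0) {α : M}
    (hα : α ^ p = algebraMap K M a) (hadj : IntermediateField.adjoin K {α} = ⊤)
    (j : M →+* PadicAlgCl l) {β : PadicAlgCl l} (hβ : β ∈ comp l (j.comp (algebraMap K M)))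
    (hβa : β ^ p = j (algebraMap K M a)) (x : M) :
    j x ∈ comp l (j.comp (algebraMap K M)) := by
  have hK : ∀ y : K, j (algebraMap K M y) ∈ comp l (j.comp (algebraMap K M)) := fun y =>
    IntermediateField.subset_adjoin ℚ_[l] _ ⟨y, rfl⟩
  have hja : j (algebraMap K M a) ≠ 0 := by
    rw [Ne, map_eq_zero, map_eq_zero]
    exact ha
  have hβ0 : β ≠ 0 := by
    rintro rfl
    rw [zero_pow hp.out.ne_zero] at hβa
    exact hja hβa.symm
  have h1 : (j α / β) ^ p = 1 := by
    rw [div_pow, ← map_pow, hα, hβa, div_self hja]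
  have h2 : IsPrimitiveRoot (j (algebraMap K M ζ)) p :=
    (hζ.map_of_injective (algebraMap K M).injective).map_of_injective j.injective
  have : NeZero p := ⟨hp.out.ne_zero⟩
  obtain ⟨i, -, hi⟩ := h2.eq_pow_of_pow_eq_one h1
  have h3 : j α ∈ comp l (j.comp (algebraMap K M)) := by
    have h4 : j α = (j (algebraMap K M ζ)) ^ i * β := by
      rw [hi, div_mul_cancel₀ _ hβ0]
    rw [h4]
    exact mul_mem (pow_mem (hK ζ) i) hβ
  let E : IntermediateField K M :=
    ((comp l (j.comp (algebraMap K M))).toSubfield.comap j).toIntermediateField fun y => hK y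
  have h5 : IntermediateField.adjoin K {α} ≤ E := by
    rw [IntermediateField.adjoin_le_iff, Set.singleton_subset_iff]
    exact h3
  rw [hadj] at h5
  exact h5 (IntermediateField.mem_top (x := x))

section Main

variable {p : ℕ} {E N : Type} [Field E] [NumberField E] [Field N] [NumberField N] [Algebra E N]
  {ζ : E} {a : Eˣ} {α : N}

/-- the case of local `p`-th powers -/
theorem split (h1 : StPA) (hK : Kum p ζ a α) (v : HeightOneSpectrum (𝓞 E))
    (hv : IsPw p ((loc v a : (kv v)ˣ) : kv v)) (w : HeightOneSpectrum (𝓞 N)) (hw : Over v w) :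
    w.asIdeal.ramificationIdx (𝓞 E) = 1 := by
  have : Fact p.Prime := ⟨hK.prime⟩
  have hlv : ((chr v : ℕ) : 𝓞 E) ∈ v.asIdeal := by
    have h := l_mem_plI (emb v)
    have h2 : plI (emb v) = v.asIdeal := congrArg HeightOneSpectrum.asIdeal (pl_emb v)
    rw [h2] at h
    exact h
  have hlw : ((chr v : ℕ) : 𝓞 N) ∈ w.asIdeal := by
    have h := (mem_iff hw ((chr v : ℕ) : 𝓞 E)).2 hlv
    rwa [map_natCast] at h
  have := w.isPrime
  obtain ⟨j, hj⟩ := RT.exists_emb w.asIdeal w.ne_bot hlw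
  have hjw : ∀ x : 𝓞 N, x ∈ w.asIdeal ↔ ‖j (algebraMap (𝓞 N) N x)‖ < 1 := by
    intro x
    rw [hj]
    exact Iff.rfl
  have hpl : pl (emb v) = pl (j.comp (algebraMap E N)) := by
    rw [pl_emb]
    apply HeightOneSpectrum.ext
    ext x
    rw [mem_pl, ← mem_iff hw, hjw]
    rfl
  obtain ⟨t, ht⟩ := h1 E (chr v) (emb v) (j.comp (algebraMap E N)) hpl
  obtain ⟨y, hy⟩ := hv
  have hmap : (comp (chr v) (emb v)).map (t : PadicAlgCl (chr v) →ₐ[ℚ_[chr v]] PadicAlgCl (chr v)) ≤
      comp (chr v) (j.comp (algebraMap E N)) := by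
    unfold BKGen.comp
    rw [IntermediateField.adjoin_map, IntermediateField.adjoin_le_iff]
    rintro _ ⟨_, ⟨x, rfl⟩, rfl⟩
    apply IntermediateField.subset_adjoin
    exact ⟨x, ht x⟩
  have hβ : t (y : PadicAlgCl (chr v)) ∈ comp (chr v) (j.comp (algebraMap E N)) :=
    hmap ⟨y, y.2, rfl⟩
  have hβa : (t (y : PadicAlgCl (chr v))) ^ p = j (algebraMap E N (a : E)) := by
    have h2 := congrArg (fun z : kv v => (z : PadicAlgCl (chr v))) hy
    change (y : PadicAlgCl (chr v)) ^ p = emb v (a : E) at h2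
    rw [← map_pow, h2, ← ht]
    rfl
  have hmem := mem_comp hK.root a.ne_zero hK.pow hK.top j hβ hβa
  have hjp : Genus.primeOf j = w.asIdeal := by
    ext x
    rw [Genus.mem_primeOf, hjw]
  rw [← hjp]
  apply Genus.ramificationIdx_of_norm
  intro x
  obtain ⟨b, hb⟩ := norm_comp _ (hmem x)
  exact ⟨b, hb⟩

/-- the tame case -/
theorem tame (h2 : StEA) (hK : Kum p ζ a α) (v : HeightOneSpectrum (𝓞 E))
    (hpv : (p : 𝓞 E) ∉ v.asIdeal) (hv : UPw p v a) (w : HeightOneSpectrum (𝓞 N))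
    (hw : Over v w) : w.asIdeal.ramificationIdx (𝓞 E) = 1 := by
  have hp : p.Prime := hK.prime
  obtain ⟨hgal, hfin, ⟨σ, hσ, -, -⟩, -⟩ := h2 p E N ζ a α hK
  have hcard : Nat.card (N ≃ₐ[E] N) = p := by
    rw [IsGalois.card_aut_eq_finrank, hfin]
  obtain ⟨b, hb⟩ := hv
  obtain ⟨n, d, hnd⟩ := HeightOneSpectrum.exists_primeCompl_mul_eq_of_integer v
    ((a * (b ^ p)⁻¹ : Eˣ) : E) hb.le
  have hdv : (d : 𝓞 E) ∉ v.asIdeal := d.2
  have hvd : v.valuation E (algebraMap (𝓞 E) E (d : 𝓞 E)) = 1 := by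
    rw [HeightOneSpectrum.valuation_eq_one_iff_notMem]; exact hdv
  have hnv : n ∉ v.asIdeal := by
    have h : v.valuation E (algebraMap (𝓞 E) E n) = 1 := by
      rw [← hnd, map_mul, hb, hvd, one_mul]
    rwa [HeightOneSpectrum.valuation_eq_one_iff_notMem] at h
  have hb0 : algebraMap E N (b : E) ≠ 0 := by
    rw [Ne, map_eq_zero]
    exact b.ne_zero
  -- the integral generator
  set γ : N := α / algebraMap E N (b : E) * algebraMap E N (algebraMap (𝓞 E) E (d : 𝓞 E)) with hγ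
  have hγp : γ ^ p = algebraMap (𝓞 N) N
      (algebraMap (𝓞 E) (𝓞 N) (n * (d : 𝓞 E) ^ (p - 1))) := by
    rw [hγ, mul_pow, div_pow, hK.pow]
    have h3 : algebraMap (𝓞 N) N (algebraMap (𝓞 E) (𝓞 N) (n * (d : 𝓞 E) ^ (p - 1))) =
        algebraMap E N (algebraMap (𝓞 E) E (n * (d : 𝓞 E) ^ (p - 1))) := by
      rw [← IsScalarTower.algebraMap_apply, ← IsScalarTower.algebraMap_apply]
    rw [h3, map_mul (algebraMap (𝓞 E) E), ← hnd, Units.val_mul, Units.val_inv_eq_inv_val,
      Units.val_pow_eq_pow_val]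
    obtain ⟨m, rfl⟩ := Nat.exists_eq_succ_of_ne_zero hp.ne_zero
    rw [Nat.succ_sub_one]
    simp only [map_mul, map_inv₀, map_pow, Nat.succ_eq_add_one]
    rw [div_eq_mul_inv, pow_succ (algebraMap E N (algebraMap (𝓞 E) E (d : 𝓞 E))) m]
    ring
  have hγint : IsIntegral ℤ γ := by
    refine IsIntegral.of_pow hp.pos ?_
    rw [hγp]
    exact RingOfIntegers.isIntegral_coe _
  let γo : 𝓞 N := ⟨γ, hγint⟩
  have hγo : γo ^ p = algebraMap (𝓞 E) (𝓞 N) (n * (d : 𝓞 E) ^ (p - 1)) := by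
    apply RingOfIntegers.ext
    exact (map_pow (algebraMap (𝓞 N) N) γo p).trans hγp
  have hvp := v.isPrime
  have hwp := w.isPrime
  have hγw : γo ∉ w.asIdeal := by
    intro h
    have h3 : γo ^ p ∈ w.asIdeal := Ideal.pow_mem_of_mem _ h p hp.pos
    rw [hγo, mem_iff hw] at h3
    rcases hvp.mem_or_mem h3 with h4 | h4
    · exact hnv h4
    · exact hdv (hvp.mem_of_pow_mem _ h4)
  -- the root of unity
  have hζint : IsIntegral ℤ ζ := hK.root.isIntegral hp.pos
  let ζo : 𝓞 E := ⟨ζ, hζint⟩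
  have hζo : ζo ^ p = 1 := by
    apply RingOfIntegers.ext
    exact (map_pow (algebraMap (𝓞 E) E) ζo p).trans (hK.root.pow_eq_one.trans (map_one _).symm)
  have hζ1 : ζo ≠ 1 := by
    intro h
    exact hK.root.ne_one hp.one_lt (congrArg (fun z : 𝓞 E => (z : E)) h)
  have hζw : algebraMap (𝓞 E) (𝓞 N) ζo - 1 ∉ w.asIdeal := by
    intro h
    have h3 : ζo - 1 ∈ v.asIdeal := by
      rw [← mem_iff hw, map_sub, map_one]
      exact h
    exact hpv (BKThR.Unr.prime_mem hζo hζ1 h3)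
  refine Genus.ramificationIdx_eq_one hp hcard (σ := σ) hwp w.ne_bot ⟨γo, fun hmem => ?_⟩
  have h4 : σ • γo - γo = (algebraMap (𝓞 E) (𝓞 N) ζo - 1) * γo := by
    apply RingOfIntegers.ext
    change σ γ - γ = (algebraMap (𝓞 N) N (algebraMap (𝓞 E) (𝓞 N) ζo) - 1) * γ
    have h5 : algebraMap (𝓞 N) N (algebraMap (𝓞 E) (𝓞 N) ζo) = algebraMap E N ζ := by
      rw [← IsScalarTower.algebraMap_apply (𝓞 E) (𝓞 N) N, IsScalarTower.algebraMap_apply (𝓞 E) E N]
      rfl
    rw [h5, hγ]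
    simp only [map_mul, map_div₀, AlgEquiv.commutes, hσ]
    ring
  rw [h4] at hmem
  rcases hwp.mem_or_mem hmem with h5 | h5
  · exact hζw h5
  · exact hγw h5

end Main

end EC

/-- Module EC. -/
theorem stEC (h1 : StPA) (h2 : StEA) : StEC := by
  intro p E N _ _ _ _ _ ζ a α hK v hv w hw x
  refine EC.val_of_ram hw ?_ x
  rcases hv with hv | ⟨hpv, hv⟩
  · exact EC.split h1 hK v hv w hw
  · exact EC.tame h2 hK v hpv hv w hw

end BKGlob2
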