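import Pool.Agent.Lib.MP_7c08ba_nt.Met.GEF

set_option autoImplicit false

/-!
Module ED: the first cohomology of the group of `S`-units of a Kummer extension is trivial
(Hilbert 90), if the primes outside `S` are principal up to `S` and unramified.
-/

noncomputable section

namespace BKGlob2

open NumberField IsDedekindDomain HeightOneSpectrum Polynomial BKGen BKGen.SUnits
open scoped Pointwise IntermediateField

namespace EDAux

variable {E N : Type} [Field E] [NumberField E] [Field N] [NumberField N] [Algebra E N]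

/-- Kummer extensions are Galois extensions -/
theorem isGalois_of_kum {p : ℕ} {ζ : E} {a : Eˣ} {α : N} (h : Kum p ζ a α) : IsGalois E N := by
  have hp0 : p ≠ 0 := h.prime.ne_zero
  have hpos : 0 < p := h.prime.pos
  have : IsSplittingField E N (X ^ p - C (a : E)) := by
    constructor
    · rw [Polynomial.map_sub, Polynomial.map_pow, Polynomial.map_C, Polynomial.map_X]
      exact X_pow_sub_C_splits_of_isPrimitiveRoot
        (h.root.map_of_injective (algebraMap E N).injective) h.pow
    · rw [eq_top_iff, ← IntermediateField.top_toSubalgebra, ← h.top,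
        IntermediateField.adjoin_simple_toSubalgebra_of_isAlgebraic (IsAlgebraic.of_finite E α)]
      apply Algebra.adjoin_mono
      rw [Set.singleton_subset_iff, mem_rootSet_of_ne (X_pow_sub_C_ne_zero hpos (a : E)),
        aeval_def, eval₂_sub, eval₂_X_pow, eval₂_C, h.pow, sub_self]
  refine IsGalois.of_separable_splitting_field (p := X ^ p - C (a : E)) ?_
  exact separable_X_pow_sub_C (a : E) (Nat.cast_ne_zero.2 hp0) a.ne_zero

theorem over_unique {v v' : HeightOneSpectrum (𝓞 E)} {w : HeightOneSpectrum (𝓞 N)} (h : Over v w)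
    (h' : Over v' w) : v = v' := HeightOneSpectrum.ext (h.symm.trans h')

theorem exists_over (w : HeightOneSpectrum (𝓞 N)) : ∃ v : HeightOneSpectrum (𝓞 E), Over v w :=
  ⟨w.under (𝓞 E), rfl⟩

/-- the Galois group acts transitively on the primes above `v` -/
theorem exists_gw [IsGalois E N] {v : HeightOneSpectrum (𝓞 E)} {w w' : HeightOneSpectrum (𝓞 N)}
    (h : Over v w) (h' : Over v w') : ∃ τ : N ≃ₐ[E] N, w' = EFAux.gw τ w := by
  have := w.isPrime
  have := w'.isPrime
  obtain ⟨τ, hτ⟩ := Algebra.IsInvariant.exists_smul_of_under_eq (𝓞 E) (𝓞 N) (N ≃ₐ[E] N)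
    w.asIdeal w'.asIdeal (h.trans h'.symm)
  exact ⟨τ, HeightOneSpectrum.ext hτ⟩

/-- the set of the primes with nontrivial valuation is finite -/
theorem finite_bad (y : Nˣ) :
    {w : HeightOneSpectrum (𝓞 N) | w.valuation N (y : N) ≠ 1}.Finite := by
  have h1 := HeightOneSpectrum.Support.finite (𝓞 N) (y : N)
  have h2 := HeightOneSpectrum.Support.finite (𝓞 N) ((y : N)⁻¹)
  refine (h1.union h2).subset fun v hv => ?_
  rcases lt_or_gt_of_ne (show v.valuation N (y : N) ≠ 1 from hv) with h | h
  · right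
    change 1 < v.valuation N ((y : N)⁻¹)
    rw [map_inv₀]
    exact (one_lt_inv₀ (zero_lt_iff.2 ((Valuation.ne_zero_iff _).2 y.ne_zero))).2 h
  · left
    exact h

/-- an element of `N` with the same valuations at all primes above `v` has the valuations of an
element of `E` -/
theorem exists_base {S : Set (HeightOneSpectrum (𝓞 E))} (hP : Prin S)
    (hur : ∀ v ∉ S, ∀ w : HeightOneSpectrum (𝓞 N), Over v w → ∀ x : E,
      w.valuation N (algebraMap E N x) = v.valuation E x) (T : Finset (HeightOneSpectrum (𝓞 E))) :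
    ∀ y : Nˣ, (∀ v ∉ S, v ∉ T → ∀ w : HeightOneSpectrum (𝓞 N), Over v w →
      w.valuation N (y : N) = 1) →
    (∀ v ∉ S, ∀ w w' : HeightOneSpectrum (𝓞 N), Over v w → Over v w' →
      w.valuation N (y : N) = w'.valuation N (y : N)) →
    ∃ x : Eˣ, ∀ v ∉ S, ∀ w : HeightOneSpectrum (𝓞 N), Over v w →
      w.valuation N (y : N) = w.valuation N (algebraMap E N (x : E)) := by
  classical
  induction T using Finset.induction_on with
  | empty =>
    intro y hy _
    refine ⟨1, fun v hv w hw => ?_⟩
    rw [hy v hv (Finset.notMem_empty v) w hw, Units.val_one, map_one, map_one]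
  | insert v₀ T _ ih =>
    intro y hy hy'
    by_cases h0 : v₀ ∈ S ∨ ∀ w : HeightOneSpectrum (𝓞 N), Over v₀ w → w.valuation N (y : N) = 1
    · refine ih y (fun v hv hvT w hw => ?_) hy'
      rcases eq_or_ne v v₀ with rfl | hne
      · exact h0.resolve_left hv w hw
      · exact hy v hv (by simp [hne, hvT]) w hw
    · push Not at h0
      obtain ⟨h0S, w₀, hw₀, -⟩ := h0
      obtain ⟨π, hπ1, hπ2⟩ := hP v₀ h0S
      have hy0 : w₀.valuation N (y : N) ≠ 0 := (Valuation.ne_zero_iff _).2 y.ne_zero
      obtain ⟨j, hj⟩ : ∃ j : ℤ, w₀.valuation N (y : N) = WithZero.exp j :=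
        ⟨_, (WithZero.exp_log hy0).symm⟩
      set P : Nˣ := Units.map (algebraMap E N : E →* N) π with hPdef
      have hPval : ((P : Nˣ) : N) = algebraMap E N (π : E) := rfl
      have hval : ∀ w : HeightOneSpectrum (𝓞 N), w.valuation N ((y * P ^ j : Nˣ) : N) =
          w.valuation N (y : N) * w.valuation N (algebraMap E N (π : E)) ^ j := by
        intro w
        rw [Units.val_mul, map_mul, Units.val_zpow_eq_zpow_val, map_zpow₀, hPval]
      have hnew : ∀ v ∉ S, v ≠ v₀ → ∀ w : HeightOneSpectrum (𝓞 N), Over v w →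
          w.valuation N ((y * P ^ j : Nˣ) : N) = w.valuation N (y : N) := by
        intro v hv hvv w hw
        rw [hval, hur v hv w hw, hπ2 v hv hvv, one_zpow, mul_one]
      have hnew0 : ∀ w : HeightOneSpectrum (𝓞 N), Over v₀ w →
          w.valuation N ((y * P ^ j : Nˣ) : N) = 1 := by
        intro w hw
        rw [hval, hur v₀ h0S w hw, hπ1, hy' v₀ h0S w w₀ hw hw₀, hj, ← WithZero.exp_zsmul,
          ← WithZero.exp_add]
        simp
      obtain ⟨x, hx⟩ := ih (y * P ^ j) (fun v hv hvT w hw => by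
        rcases eq_or_ne v v₀ with rfl | hne
        · exact hnew0 w hw
        · rw [hnew v hv hne w hw]
          exact hy v hv (by simp [hne, hvT]) w hw) (fun v hv w w' hw hw' => by
        rcases eq_or_ne v v₀ with rfl | hne
        · rw [hnew0 w hw, hnew0 w' hw']
        · rw [hnew v hv hne w hw, hnew v hv hne w' hw']
          exact hy' v hv w w' hw hw')
      refine ⟨x * π ^ (-j), fun v hv w hw => ?_⟩
      have h1 := hx v hv w hw
      rw [hval] at h1
      have hne0 : w.valuation N (algebraMap E N (π : E)) ≠ 0 :=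
        (Valuation.ne_zero_iff _).2 ((_root_.map_ne_zero _).2 π.ne_zero)
      rw [Units.val_mul, map_mul, map_mul, ← h1, Units.val_zpow_eq_zpow_val, map_zpow₀, map_zpow₀,
        zpow_neg, mul_assoc, mul_inv_cancel₀ (zpow_ne_zero _ hne0), mul_one]

end EDAux

open EDAux in
/-- Module ED. -/
theorem stED : StED := by
  classical
  intro p E N _ _ _ _ _ ζ a α hK S hP hur σ hσ u hu hnu
  have hgal : IsGalois E N := isGalois_of_kum hK
  have hz : ∀ τ : N ≃ₐ[E] N, τ ∈ Subgroup.zpowers σ := by
    intro τ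
    obtain ⟨i, _, hi⟩ := hσ τ
    exact ⟨(i : ℤ), by simp [hi]⟩
  have hcyc : IsCyclic (N ≃ₐ[E] N) := ⟨σ, hz⟩
  have hnu' : Algebra.norm E (u : N) = 1 := by
    have := congrArg Units.val hnu
    exact this
  obtain ⟨z, hzu⟩ := groupCohomology.exists_div_of_norm_eq_one (K := E) (L := N) hz hnu'
  -- the solution in the units of the field
  obtain ⟨y, hy⟩ : ∃ y : Nˣ, y = z⁻¹ := ⟨_, rfl⟩
  have hyu : ((u * y : Nˣ) : N) = σ (y : N) := by
    have h0 : σ (z : N) ≠ 0 := (_root_.map_ne_zero σ).2 z.ne_zero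
    have h1 : (z : N) ≠ 0 := z.ne_zero
    rw [Units.val_mul, hy, ← hzu, Units.val_inv_eq_inv_val, map_inv₀]
    field_simp
  have hnotS : ∀ {v : HeightOneSpectrum (𝓞 E)} {w : HeightOneSpectrum (𝓞 N)}, v ∉ S →
      Over v w → w ∉ Above N S := by
    rintro v w hv hw ⟨v', hv', hw'⟩
    rw [over_unique hw hw'] at hv
    exact hv hv'
  have hwσ : ∀ v ∉ S, ∀ w : HeightOneSpectrum (𝓞 N), Over v w →
      w.valuation N (σ (y : N)) = w.valuation N (y : N) := by
    intro v hv w hw
    rw [← hyu, Units.val_mul, map_mul]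
    have h1 : w.valuation N (u : N) = 1 := hu w (hnotS hv hw)
    rw [h1, one_mul]
  have hwi : ∀ v ∉ S, ∀ i : ℕ, ∀ w : HeightOneSpectrum (𝓞 N), Over v w →
      (EFAux.gw (σ ^ i) w).valuation N (y : N) = w.valuation N (y : N) := by
    intro v hv i
    induction i with
    | zero =>
      intro w _
      rw [pow_zero, EFAux.gw_one]
    | succ i ih =>
      intro w hw
      have h1 := ih _ (EFAux.over_gw (σ := σ) hw)
      rw [EFAux.gw_gw, ← pow_succ] at h1
      rw [h1, ← hwσ v hv _ (EFAux.over_gw (σ := σ) hw), EFAux.val_gw]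
  have hconst : ∀ v ∉ S, ∀ w w' : HeightOneSpectrum (𝓞 N), Over v w → Over v w' →
      w.valuation N (y : N) = w'.valuation N (y : N) := by
    intro v hv w w' hw hw'
    obtain ⟨τ, rfl⟩ := exists_gw hw hw'
    obtain ⟨i, _, rfl⟩ := hσ τ
    exact (hwi v hv i w hw).symm
  -- the primes below the support
  have hfin : {v : HeightOneSpectrum (𝓞 E) | ∃ w : HeightOneSpectrum (𝓞 N),
      w.valuation N (y : N) ≠ 1 ∧ Over v w}.Finite := by
    have h1 : {v : HeightOneSpectrum (𝓞 E) | ∃ w : HeightOneSpectrum (𝓞 N),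
        w.valuation N (y : N) ≠ 1 ∧ Over v w} =
        ⋃ w ∈ {w : HeightOneSpectrum (𝓞 N) | w.valuation N (y : N) ≠ 1},
          {v : HeightOneSpectrum (𝓞 E) | Over v w} := by
      ext v
      simp
    rw [h1]
    exact (finite_bad y).biUnion fun w _ => Set.Subsingleton.finite
      fun v hv v' hv' => over_unique hv hv'
  obtain ⟨x, hx⟩ := exists_base hP hur hfin.toFinset y (fun v _ hvT w hw => by
    by_contra hcon
    exact hvT (hfin.mem_toFinset.2 ⟨w, hcon, hw⟩)) hconst
  refine ⟨y * (Units.map (algebraMap E N : E →* N) x)⁻¹, ?_, ?_⟩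
  · intro w hw
    obtain ⟨v, hv⟩ := exists_over (E := E) w
    have hvS : v ∉ S := fun h => hw ⟨v, h, hv⟩
    change w.valuation N ((y * (Units.map (algebraMap E N : E →* N) x)⁻¹ : Nˣ) : N) = 1
    have h2 : w.valuation N (algebraMap E N (x : E)) ≠ 0 :=
      (Valuation.ne_zero_iff _).2 ((_root_.map_ne_zero _).2 x.ne_zero)
    rw [Units.val_mul, map_mul, hx v hvS w hv, Units.val_inv_eq_inv_val, map_inv₀]
    exact mul_inv_cancel₀ h2
  · apply Units.ext
    have h1 : ((Units.map (algebraMap E N : E →* N) x : Nˣ) : N) = algebraMap E N (x : E) := rfl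
    have h2 : ((Units.map (σ : N →* N) (y * (Units.map (algebraMap E N : E →* N) x)⁻¹) : Nˣ) : N) =
        σ ((y * (Units.map (algebraMap E N : E →* N) x)⁻¹ : Nˣ) : N) := rfl
    have h3 : (((Units.map (algebraMap E N : E →* N) x)⁻¹ : Nˣ) : N) =
        (algebraMap E N (x : E))⁻¹ := by rw [Units.val_inv_eq_inv_val, h1]
    rw [h2, ← mul_assoc, Units.val_mul, hyu, Units.val_mul, map_mul, h3, map_inv₀, σ.commutes]

end BKGlob2
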