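import Pool.Agent.Lib.MP_7c08ba_nt.Met.GStmts

set_option autoImplicit false

/-!
Module EF: every element of `E` which is a unit at the places outside `S` that do not split in the
Kummer extension `N` is the product of an `S`-unit and a norm.
-/

noncomputable section

namespace BKGlob2

open NumberField IsDedekindDomain HeightOneSpectrum Polynomial BKGen BKGen.SUnits
open scoped Pointwise

namespace EFAux

section gal

variable {E N : Type} [Field E] [NumberField E] [Field N] [NumberField N] [Algebra E N]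

theorem coe_smul_int (σ : N ≃ₐ[E] N) (x : 𝓞 N) : ((σ • x : 𝓞 N) : N) = σ (x : N) := rfl

/-- the action of the Galois group on the primes -/
def gw (σ : N ≃ₐ[E] N) (w : HeightOneSpectrum (𝓞 N)) : HeightOneSpectrum (𝓞 N) where
  asIdeal := σ • w.asIdeal
  isPrime := by
    have := w.isPrime
    exact inferInstance
  ne_bot := by
    intro h
    apply w.ne_bot
    rw [← inv_smul_smul σ w.asIdeal, h]
    rw [eq_bot_iff]
    intro x hx
    rw [Ideal.mem_inv_pointwise_smul_iff, Ideal.mem_bot] at hx
    rw [Ideal.mem_bot]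
    exact (smul_eq_zero_iff_eq σ).1 hx

theorem gw_asIdeal (σ : N ≃ₐ[E] N) (w : HeightOneSpectrum (𝓞 N)) :
    (gw σ w).asIdeal = σ • w.asIdeal := rfl

theorem gw_gw (σ τ : N ≃ₐ[E] N) (w : HeightOneSpectrum (𝓞 N)) :
    gw σ (gw τ w) = gw (σ * τ) w := by
  ext1
  rw [gw_asIdeal, gw_asIdeal, gw_asIdeal, mul_smul]

theorem gw_one (w : HeightOneSpectrum (𝓞 N)) : gw (1 : N ≃ₐ[E] N) w = w := by
  ext1
  rw [gw_asIdeal, one_smul]

theorem intVal_gw (σ : N ≃ₐ[E] N) (w : HeightOneSpectrum (𝓞 N)) (x : 𝓞 N) :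
    (gw σ w).intValuation (σ • x) = w.intValuation x := by
  have hle : ∀ n : ℕ, (gw σ w).intValuation (σ • x) ≤ WithZero.exp (-(n : ℤ)) ↔
      w.intValuation x ≤ WithZero.exp (-(n : ℤ)) := by
    intro n
    rw [intValuation_le_pow_iff_mem, intValuation_le_pow_iff_mem, gw_asIdeal, ← smul_pow',
      Ideal.smul_mem_pointwise_smul_iff]
  by_cases hx : x = 0
  · rw [hx, smul_zero, map_zero, map_zero]
  have hx' : σ • x ≠ 0 := (smul_ne_zero_iff_ne σ).mpr hx
  have h1 := w.intValuation_if_neg hx
  have h2 := (gw σ w).intValuation_if_neg hx'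
  apply le_antisymm
  · rw [h1]
    exact (hle _).mpr h1.le
  · rw [h2]
    exact (hle _).mp h2.le

theorem val_gw (σ : N ≃ₐ[E] N) (w : HeightOneSpectrum (𝓞 N)) (z : N) :
    (gw σ w).valuation N (σ z) = w.valuation N z := by
  obtain ⟨x, y, hy, rfl⟩ := IsFractionRing.div_surjective (A := 𝓞 N) z
  rw [map_div₀, map_div₀, map_div₀]
  have h : ∀ x : 𝓞 N, (gw σ w).valuation N (σ (algebraMap (𝓞 N) N x)) =
      w.valuation N (algebraMap (𝓞 N) N x) := by
    intro x
    rw [← coe_smul_int, valuation_of_algebraMap, valuation_of_algebraMap, intVal_gw]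
  rw [h, h]

theorem over_gw {σ : N ≃ₐ[E] N} {v : HeightOneSpectrum (𝓞 E)} {w : HeightOneSpectrum (𝓞 N)}
    (h : Over v w) : Over v (gw σ w) := by
  unfold Over at h ⊢
  rw [← h]
  ext x
  rw [Ideal.mem_comap, Ideal.mem_comap, gw_asIdeal]
  have h1 : σ • (algebraMap (𝓞 E) (𝓞 N) x) = algebraMap (𝓞 E) (𝓞 N) x := by
    apply RingOfIntegers.ext
    rw [coe_smul_int]
    exact σ.commutes (x : E)
  conv_lhs => rw [← h1]
  exact Ideal.smul_mem_pointwise_smul_iff

/-- the permutation of the primes above `v` -/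
def perm (v : HeightOneSpectrum (𝓞 E)) (σ : N ≃ₐ[E] N) :
    {w : HeightOneSpectrum (𝓞 N) // Over v w} ≃ {w : HeightOneSpectrum (𝓞 N) // Over v w} where
  toFun w := ⟨gw σ w.1, over_gw w.2⟩
  invFun w := ⟨gw σ⁻¹ w.1, over_gw w.2⟩
  left_inv w := by
    apply Subtype.ext
    change gw σ⁻¹ (gw σ w.1) = w.1
    rw [gw_gw, inv_mul_cancel, gw_one]
  right_inv w := by
    apply Subtype.ext
    change gw σ (gw σ⁻¹ w.1) = w.1
    rw [gw_gw, mul_inv_cancel, gw_one]

/-- the product of the valuations above `v` -/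
def F (v : HeightOneSpectrum (𝓞 E)) [Fintype {w : HeightOneSpectrum (𝓞 N) // Over v w}] (z : N) :
    WithZero (Multiplicative ℤ) :=
  ∏ w : {w : HeightOneSpectrum (𝓞 N) // Over v w}, w.1.valuation N z

variable (v : HeightOneSpectrum (𝓞 E)) [Fintype {w : HeightOneSpectrum (𝓞 N) // Over v w}]

theorem F_gal (σ : N ≃ₐ[E] N) (z : N) : F v (σ z) = F v z := by
  unfold F
  exact (Fintype.prod_equiv (perm v σ) _ _ fun w => (val_gw σ w.1 z).symm).symm

theorem F_norm [IsGalois E N] [FiniteDimensional E N] (z : N) :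
    F v (algebraMap E N (Algebra.norm E z)) = F v z ^ Module.finrank E N := by
  rw [Algebra.norm_eq_prod_automorphisms]
  have h : F v (∏ σ : N ≃ₐ[E] N, σ z) = ∏ σ : N ≃ₐ[E] N, F v (σ z) := by
    unfold F
    rw [Finset.prod_comm]
    exact Finset.prod_congr rfl fun w _ => map_prod _ _ _
  rw [h, Finset.prod_congr rfl fun σ _ => F_gal v σ z, Finset.prod_const, Finset.card_univ,
    ← Nat.card_eq_fintype_card, IsGalois.card_aut_eq_finrank]

/-- a norm with `F v = 1` is a unit at `v` -/
theorem val_eq_one_of_F [Nonempty {w : HeightOneSpectrum (𝓞 N) // Over v w}] {x : E}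
    (h : F v (algebraMap E N x) = 1) : v.valuation E x = 1 := by
  have key : ∀ w : {w : HeightOneSpectrum (𝓞 N) // Over v w}, ∃ e : ℕ, e ≠ 0 ∧
      w.1.valuation N (algebraMap E N x) = v.valuation E x ^ e := by
    intro w
    have hl : w.1.asIdeal.LiesOver v.asIdeal := ⟨w.2.symm⟩
    exact ⟨_, Ideal.IsDedekindDomain.ramificationIdx'_ne_zero_of_liesOver w.1.asIdeal v.ne_bot,
      (valuation_liesOver N v w.1 x).symm⟩
  choose e he he' using key
  unfold F at h
  rw [Finset.prod_congr rfl fun w _ => he' w, Finset.prod_pow_eq_pow_sum] at h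
  obtain ⟨w⟩ := ‹Nonempty {w : HeightOneSpectrum (𝓞 N) // Over v w}›
  have h0 : ∑ w, e w ≠ 0 := fun h0 => he w (Finset.sum_eq_zero_iff.1 h0 w (Finset.mem_univ w))
  refine (pow_left_inj₀ zero_le zero_le h0).1 ?_
  rw [h, one_pow]

end gal

end EFAux

open EFAux in
/-- Module EF. -/
theorem stEF (hA : StEA) (hB : StEB) (hC : StEC) : StEF := by
  classical
  intro p E N _ _ _ _ _ ζ a α hK S hP y hy
  obtain ⟨hgal, hrk, -, -⟩ := hA p E N ζ a α hK
  have hp0 : p ≠ 0 := hK.prime.ne_zero
  have hfd : FiniteDimensional E N := Module.finite_of_finrank_pos (by rw [hrk]; omega)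
  have hcard : ∀ v : HeightOneSpectrum (𝓞 E),
      Nat.card {w : HeightOneSpectrum (𝓞 N) // Over v w} ≠ 0 := by
    intro v
    by_cases h : IsPw p ((loc v a : (kv v)ˣ) : kv v)
    · rw [(hB p E N ζ a α hK v).1 h]
      exact hp0
    · rw [(hB p E N ζ a α hK v).2 h]
      exact one_ne_zero
  have hfin : ∀ v : HeightOneSpectrum (𝓞 E), Finite {w : HeightOneSpectrum (𝓞 N) // Over v w} :=
    fun v => Nat.finite_of_card_ne_zero (hcard v)
  have hne : ∀ v : HeightOneSpectrum (𝓞 E), Nonempty {w : HeightOneSpectrum (𝓞 N) // Over v w} := by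
    intro v
    have := hfin v
    by_contra hcon
    rw [not_nonempty_iff] at hcon
    exact hcard v Nat.card_of_isEmpty
  have hft : ∀ v : HeightOneSpectrum (𝓞 E), Fintype {w : HeightOneSpectrum (𝓞 N) // Over v w} :=
    fun v => Fintype.ofFinite _
  -- elements with prescribed norm
  have hnorm : ∀ v ∉ S, IsPw p ((loc v a : (kv v)ˣ) : kv v) → ∃ n : Nˣ,
      v.valuation E ((nrm E N n : Eˣ) : E) = WithZero.exp (-1 : ℤ) ∧
      ∀ v' ∉ S, v' ≠ v → v'.valuation E ((nrm E N n : Eˣ) : E) = 1 := by
    intro v hv hpw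
    obtain ⟨w₀⟩ := hne v
    have huniq : ∀ {v v' : HeightOneSpectrum (𝓞 E)} {w : HeightOneSpectrum (𝓞 N)}, Over v w →
        Over v' w → v = v' := fun h h' => HeightOneSpectrum.ext (h.symm.trans h')
    have hnot : ∀ {v : HeightOneSpectrum (𝓞 E)} {w : HeightOneSpectrum (𝓞 N)}, v ∉ S →
        Over v w → w ∉ Above N (S : Set (HeightOneSpectrum (𝓞 E))) := by
      rintro v w hv hw ⟨v', hv', hw'⟩
      rw [huniq hw hw'] at hv
      exact hv hv'
    obtain ⟨n, hn1, hn2⟩ := hP w₀.1 (hnot hv w₀.2)
    refine ⟨n, ?_, ?_⟩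
    · have h1 := F_norm (N := N) v (n : N)
      have h2 : F v (n : N) = WithZero.exp (-1 : ℤ) := by
        unfold F
        rw [Finset.prod_eq_single w₀ ?_ ?_, hn1]
        · intro w _ hw
          exact hn2 w.1 (hnot hv w.2) (fun h => hw (Subtype.ext h))
        · intro h
          exact absurd (Finset.mem_univ _) h
      have h3 : F v (algebraMap E N (Algebra.norm E (n : N))) =
          v.valuation E (Algebra.norm E (n : N)) ^ p := by
        unfold F
        rw [Finset.prod_congr rfl fun w _ => hC p E N ζ a α hK v (Or.inl hpw) w.1 w.2 _,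
          Finset.prod_const, Finset.card_univ, ← Nat.card_eq_fintype_card,
          (hB p E N ζ a α hK v).1 hpw]
      rw [h3, h2, hrk] at h1
      exact (pow_left_inj₀ zero_le zero_le hp0).1 h1
    · intro v' hv' hvv
      have h1 := F_norm (N := N) v' (n : N)
      have h2 : F v' (n : N) = 1 := by
        unfold F
        refine Finset.prod_eq_one fun w _ => ?_
        refine hn2 w.1 (hnot hv' w.2) fun h => hvv ?_
        have h3 : Over v w.1 := by
          rw [h]
          exact w₀.2
        exact huniq w.2 h3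
      rw [h2, one_pow] at h1
      have := hne v'
      exact val_eq_one_of_F v' h1
  -- induction on the set of the bad primes
  have hind : ∀ (T : Finset (HeightOneSpectrum (𝓞 E))) (y : Eˣ),
      (∀ v ∉ S, v ∉ T → v.valuation E (y : E) = 1) →
      (∀ v ∉ S, v.valuation E (y : E) = 1 ∨ IsPw p ((loc v a : (kv v)ˣ) : kv v)) →
      ∃ u ∈ (S : Set (HeightOneSpectrum (𝓞 E))).unit E, ∃ n : Nˣ, y = u * nrm E N n := by
    intro T
    induction T using Finset.induction_on with
    | empty =>
      intro y hy _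
      refine ⟨y, ?_, 1, by rw [map_one, mul_one]⟩
      intro v hv
      exact hy v hv (Finset.notMem_empty v)
    | insert v₀ T _ ih =>
      intro y hy hy'
      by_cases h0 : v₀ ∈ S ∨ v₀.valuation E (y : E) = 1
      · refine ih y (fun v hv hvT => ?_) hy'
        rcases eq_or_ne v v₀ with rfl | hne'
        · exact h0.resolve_left hv
        · exact hy v hv (by simp [hne', hvT])
      · push Not at h0
        obtain ⟨h0S, h01⟩ := h0
        have hpw := (hy' v₀ h0S).resolve_left h01
        obtain ⟨n, hn1, hn2⟩ := hnorm v₀ h0S hpw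
        have hy0 : v₀.valuation E (y : E) ≠ 0 := (Valuation.ne_zero_iff _).2 y.ne_zero
        obtain ⟨j, hj⟩ : ∃ j : ℤ, v₀.valuation E (y : E) = WithZero.exp j :=
          ⟨_, (WithZero.exp_log hy0).symm⟩
        have hval : ∀ v : HeightOneSpectrum (𝓞 E), v.valuation E
            (((y * nrm E N n ^ j : Eˣ)) : E) = v.valuation E (y : E) *
              v.valuation E ((nrm E N n : Eˣ) : E) ^ j := by
          intro v
          rw [Units.val_mul, map_mul, Units.val_zpow_eq_zpow_val, map_zpow₀]
        have hnew : ∀ v ∉ S, v ≠ v₀ → v.valuation E (((y * nrm E N n ^ j : Eˣ)) : E) =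
            v.valuation E (y : E) := by
          intro v hv hvv
          rw [hval, hn2 v hv hvv, one_zpow, mul_one]
        have hnew0 : v₀.valuation E (((y * nrm E N n ^ j : Eˣ)) : E) = 1 := by
          rw [hval, hn1, hj, ← WithZero.exp_zsmul, ← WithZero.exp_add]
          simp
        obtain ⟨u, hu, m, hm⟩ := ih (y * nrm E N n ^ j) (fun v hv hvT => by
          rcases eq_or_ne v v₀ with rfl | hne'
          · exact hnew0
          · rw [hnew v hv hne']
            exact hy v hv (by simp [hne', hvT])) (fun v hv => by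
          rcases eq_or_ne v v₀ with rfl | hne'
          · exact Or.inl hnew0
          · rw [hnew v hv hne']
            exact hy' v hv)
        refine ⟨u, hu, m * n ^ (-j), ?_⟩
        rw [map_mul, map_zpow, ← mul_assoc, ← hm, zpow_neg, mul_inv_cancel_right]
  have hbad : {v : HeightOneSpectrum (𝓞 E) | v.valuation E (y : E) ≠ 1}.Finite := by
    have h1 := HeightOneSpectrum.Support.finite (𝓞 E) (y : E)
    have h2 := HeightOneSpectrum.Support.finite (𝓞 E) ((y : E)⁻¹)
    refine (h1.union h2).subset fun v hv => ?_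
    rcases lt_or_gt_of_ne (show v.valuation E (y : E) ≠ 1 from hv) with h | h
    · right
      change 1 < v.valuation E ((y : E)⁻¹)
      rw [map_inv₀]
      exact (one_lt_inv₀ (zero_lt_iff.2 ((Valuation.ne_zero_iff _).2 y.ne_zero))).2 h
    · left
      exact h
  refine hind hbad.toFinset y (fun v _ hv => ?_) hy
  by_contra hcon
  exact hv (hbad.mem_toFinset.2 hcon)

end BKGlob2
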