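import Pool.Agent.Lib.MP_7c08ba_nt.Met.GStmts
import Pool.Agent.Lib.MP_7c08ba_nt.Met.GEF

set_option autoImplicit false

/-!
Module EE: the number of `S`-units modulo norms of `S`-units.
-/

noncomputable section

namespace BKGlob2

open NumberField IsDedekindDomain HeightOneSpectrum Polynomial BKGen BKGen.SUnits

namespace EEAux

section ov

variable {E N : Type} [Field E] [NumberField E] [Field N] [NumberField N] [Algebra E N]

theorem over_uniq {v v' : HeightOneSpectrum (𝓞 E)} {w : HeightOneSpectrum (𝓞 N)}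
    (h : Over v w) (h' : Over v' w) : v = v' := HeightOneSpectrum.ext (h.symm.trans h')

theorem over_under (w : HeightOneSpectrum (𝓞 N)) :
    Over (HeightOneSpectrum.under (𝓞 E) w) w := rfl

theorem not_above {S : Set (HeightOneSpectrum (𝓞 E))} {v : HeightOneSpectrum (𝓞 E)}
    {w : HeightOneSpectrum (𝓞 N)} (hv : v ∉ S) (h : Over v w) : w ∉ Above N S := by
  rintro ⟨v', hv', hw'⟩
  rw [over_uniq h hw'] at hv
  exact hv hv'

theorem mem_unit {K : Type} [Field K] [NumberField K] {S : Set (HeightOneSpectrum (𝓞 K))}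
    {x : Kˣ} : x ∈ S.unit K ↔ ∀ v ∉ S, v.valuation K (x : K) = 1 := Iff.rfl

/-- the `S`-units are stable under the Galois group -/
theorem gal_mem {S : Set (HeightOneSpectrum (𝓞 E))} (σ : N ≃ₐ[E] N) {x : Nˣ}
    (hx : x ∈ (Above N S).unit N) : Units.map (σ : N →* N) x ∈ (Above N S).unit N := by
  rw [mem_unit] at hx ⊢
  intro w hw
  have h1 : EFAux.gw σ⁻¹ w ∉ Above N S := by
    rintro ⟨v, hv, h⟩
    refine hw ⟨v, hv, ?_⟩
    have h2 := EFAux.over_gw (σ := σ) h
    rwa [EFAux.gw_gw, mul_inv_cancel, EFAux.gw_one] at h2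
  have h3 := EFAux.val_gw σ (EFAux.gw σ⁻¹ w) (x : N)
  rw [EFAux.gw_gw, mul_inv_cancel, EFAux.gw_one] at h3
  exact h3.trans (hx _ h1)

/-- the automorphism of the group of `S`-units -/
def sg (S : Set (HeightOneSpectrum (𝓞 E))) (σ : N ≃ₐ[E] N) :
    (Above N S).unit N →* (Above N S).unit N where
  toFun x := ⟨Units.map (σ : N →* N) x.1, gal_mem σ x.2⟩
  map_one' := Subtype.ext (map_one _)
  map_mul' x y := Subtype.ext (map_mul (Units.map (σ : N →* N)) x.1 y.1)

theorem sg_iter (S : Set (HeightOneSpectrum (𝓞 E))) (σ : N ≃ₐ[E] N) (i : ℕ)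
    (x : (Above N S).unit N) : (((((sg S σ : _ → _)^[i] x) : (Above N S).unit N) : Nˣ) : N) =
      (σ ^ i) ((x : Nˣ) : N) := by
  induction i with
  | zero => rfl
  | succ i ih =>
    rw [Function.iterate_succ_apply', pow_succ']
    show σ (((((sg S σ : _ → _)^[i] x) : (Above N S).unit N) : Nˣ) : N) = _
    rw [ih]
    rfl

/-- the norm of a field element in a cyclic extension -/
theorem norm_prod [FiniteDimensional E N] [IsGalois E N] {p : ℕ} (hp : Module.finrank E N = p)
    {σ : N ≃ₐ[E] N} (hτ : ∀ τ : N ≃ₐ[E] N, ∃ i < p, τ = σ ^ i) (x : N) :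
    algebraMap E N (Algebra.norm E x) = ∏ i ∈ Finset.range p, (σ ^ i) x := by
  classical
  rw [Algebra.norm_eq_prod_automorphisms]
  have hinj : Function.Surjective (fun i : Fin p => σ ^ (i : ℕ)) := by
    intro τ
    obtain ⟨i, hi, h⟩ := hτ τ
    exact ⟨⟨i, hi⟩, h.symm⟩
  have hcard : Fintype.card (Fin p) = Fintype.card (N ≃ₐ[E] N) := by
    rw [Fintype.card_fin, ← Nat.card_eq_fintype_card, IsGalois.card_aut_eq_finrank, hp]
  have hbij := (Fintype.bijective_iff_surjective_and_card _).2 ⟨hinj, hcard⟩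
  rw [Finset.prod_range fun i => (σ ^ i) x]
  exact (Fintype.prod_bijective _ hbij (fun i : Fin p => (σ ^ (i : ℕ)) x) (fun τ => τ x)
    fun i => rfl).symm

end ov

end EEAux

open EEAux in
/-- Module EE. -/
theorem stEE (hH : StHerb) (hSB : StSB) (hA : StEA) (hB : StEB) (hC : StEC) (hD : StED) :
    StEE := by
  classical
  intro p E N _ _ _ _ _ ζ a α hK S hP hS
  obtain ⟨hgal, hrk, ⟨σ, -, hτ, hσp⟩, -⟩ := hA p E N ζ a α hK
  have hp0 : p ≠ 0 := hK.prime.ne_zero
  have hfd : FiniteDimensional E N := Module.finite_of_finrank_pos (by rw [hrk]; omega)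
  have hcard : ∀ v : HeightOneSpectrum (𝓞 E),
      Nat.card {w : HeightOneSpectrum (𝓞 N) // Over v w} ≠ 0 := by
    intro v
    by_cases h : IsPw p ((loc v a : (kv v)ˣ) : kv v)
    · rw [(hB p E N ζ a α hK v).1 h]
      exact hp0
    · rw [(hB p E N ζ a α hK v).2 h]
      exact one_ne_zero
  have hfin : ∀ v : HeightOneSpectrum (𝓞 E), {w : HeightOneSpectrum (𝓞 N) | Over v w}.Finite :=
    fun v => Nat.finite_of_card_ne_zero (hcard v)
  have hne : ∀ v : HeightOneSpectrum (𝓞 E), ∃ w : HeightOneSpectrum (𝓞 N), Over v w := by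
    intro v
    by_contra hcon
    push Not at hcon
    have : IsEmpty {w : HeightOneSpectrum (𝓞 N) // Over v w} := ⟨fun w => hcon w.1 w.2⟩
    exact hcard v Nat.card_of_isEmpty
  set SN : Set (HeightOneSpectrum (𝓞 N)) := Above N (S : Set (HeightOneSpectrum (𝓞 E))) with hSN
  -- the primes above `S`
  set T : Finset (HeightOneSpectrum (𝓞 N)) := S.biUnion fun v => (hfin v).toFinset with hT
  have hTS : (T : Set (HeightOneSpectrum (𝓞 N))) = SN := by
    ext w
    rw [hT, Finset.mem_coe, Finset.mem_biUnion]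
    constructor
    · rintro ⟨v, hv, hw⟩
      exact ⟨v, hv, (hfin v).mem_toFinset.1 hw⟩
    · rintro ⟨v, hv, hw⟩
      exact ⟨v, hv, (hfin v).mem_toFinset.2 hw⟩
  have hTcard : T.card = ∑ v ∈ S, if IsPw p ((loc v a : (kv v)ˣ) : kv v) then p else 1 := by
    rw [hT, Finset.card_biUnion]
    · refine Finset.sum_congr rfl fun v _ => ?_
      have h1 : (hfin v).toFinset.card = Nat.card {w : HeightOneSpectrum (𝓞 N) // Over v w} := by
        rw [← Set.ncard_eq_toFinset_card _ (hfin v)]
        rfl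
      rw [h1]
      split_ifs with h
      · exact (hB p E N ζ a α hK v).1 h
      · exact (hB p E N ζ a α hK v).2 h
    · intro v _ v' _ hvv
      rw [Function.onFun, Finset.disjoint_left]
      intro w hw hw'
      exact hvv (over_uniq ((hfin v).mem_toFinset.1 hw) ((hfin v').mem_toFinset.1 hw'))
  set t : ℕ := Nat.card {v : S // ¬ IsPw p ((loc v.1 a : (kv v.1)ˣ) : kv v.1)} with ht
  have ht' : t = (S.filter fun v => ¬ IsPw p ((loc v a : (kv v)ˣ) : kv v)).card := by
    rw [ht, Nat.card_eq_fintype_card, Fintype.card_subtype]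
    rw [← Finset.card_map (Function.Embedding.subtype fun v => v ∈ S)]
    congr 1
    ext v
    simp only [Finset.mem_map, Finset.mem_filter, Finset.mem_univ, true_and,
      Function.Embedding.subtype_apply]
    constructor
    · rintro ⟨x, hx, rfl⟩
      exact ⟨x.2, hx⟩
    · rintro ⟨h1, h2⟩
      exact ⟨⟨v, h1⟩, h2, rfl⟩
  have htle : t ≤ S.card := by
    rw [ht']
    exact Finset.card_filter_le _ _
  have hTcard' : T.card + p * t = p * S.card + t := by
    have h1 : T.card = (S.filter fun v => IsPw p ((loc v a : (kv v)ˣ) : kv v)).card * p +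
        (S.filter fun v => ¬ IsPw p ((loc v a : (kv v)ˣ) : kv v)).card := by
      rw [hTcard, Finset.sum_ite, Finset.sum_const, Finset.sum_const, smul_eq_mul, smul_eq_mul,
        mul_one]
    have h2 : (S.filter fun v => IsPw p ((loc v a : (kv v)ˣ) : kv v)).card +
        (S.filter fun v => ¬ IsPw p ((loc v a : (kv v)ˣ) : kv v)).card = S.card :=
      Finset.card_filter_add_card_filter_not _
    rw [← ht'] at h1 h2
    rw [h1, ← h2]
    ring
  -- the groups of `S`-units
  have hζN : IsPrimitiveRoot (algebraMap E N ζ) p :=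
    hK.root.map_of_injective (algebraMap E N).injective
  obtain ⟨f1, r1, -, -⟩ := hSB p hK.prime hK.odd N (algebraMap E N ζ) hζN T
  rw [hTS] at f1 r1
  obtain ⟨f0, r0, -, hev⟩ := hSB p hK.prime hK.odd E ζ hK.root S
  have hval : ∀ v ∉ (S : Set (HeightOneSpectrum (𝓞 E))), ∀ w : HeightOneSpectrum (𝓞 N),
      Over v w → ∀ x : E, w.valuation N (algebraMap E N x) = v.valuation E x :=
    fun v hv w hw x => hC p E N ζ a α hK v (hS v hv) w hw x
  -- the automorphism
  set A : Subgroup Nˣ := SN.unit N with hAdef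
  set s : A →* A := sg (S : Set (HeightOneSpectrum (𝓞 E))) σ with hs
  have hsp : ∀ x, (⇑s)^[p] x = x := by
    intro x
    apply Subtype.ext
    apply Units.ext
    rw [hs, sg_iter, hσp]
    rfl
  have hsfix : ∀ x : A, s x = x ↔ σ ((x : Nˣ) : N) = ((x : Nˣ) : N) := by
    intro x
    rw [Subtype.ext_iff, Units.ext_iff]
    rfl
  -- the norm
  have hNm : ∀ x : A, (((Herb.Nm s p x : A) : Nˣ) : N) =
      algebraMap E N ((nrm E N (x : Nˣ) : Eˣ) : E) := by
    intro x
    have h1 : algebraMap E N ((nrm E N (x : Nˣ) : Eˣ) : E) =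
        ∏ i ∈ Finset.range p, (σ ^ i) ((x : Nˣ) : N) := norm_prod hrk hτ _
    rw [h1, Herb.Nm_apply, Subgroup.val_finsetProd, Units.coe_prod]
    exact Finset.prod_congr rfl fun i _ => sg_iter _ _ i x
  set ι : Eˣ →* Nˣ := Units.map (algebraMap E N : E →* N) with hι
  have hιinj : Function.Injective ι := Units.map_injective (algebraMap E N).injective
  -- fixed elements
  have hfix : ((Herb.Dm s).ker).map A.subtype =
      (((S : Set (HeightOneSpectrum (𝓞 E))).unit E)).map ι := by
    ext x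
    rw [Subgroup.mem_map, Subgroup.mem_map]
    constructor
    · rintro ⟨y, hy, rfl⟩
      rw [Herb.mem_ker_Dm, hsfix] at hy
      have h1 : ∀ τ : N ≃ₐ[E] N, τ ((y : Nˣ) : N) = ((y : Nˣ) : N) := by
        intro τ
        obtain ⟨i, -, rfl⟩ := hτ τ
        induction i with
        | zero => rfl
        | succ i ih =>
          rw [pow_succ', AlgEquiv.mul_apply, ih, hy]
      obtain ⟨e, he⟩ := (IsGalois.mem_range_algebraMap_iff_fixed ((y : Nˣ) : N)).2 h1
      have he0 : e ≠ 0 := by
        rintro rfl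
        rw [map_zero] at he
        exact (y : Nˣ).ne_zero he.symm
      refine ⟨Units.mk0 e he0, ?_, ?_⟩
      · rw [mem_unit]
        intro v hv
        obtain ⟨w, hw⟩ := hne v
        have h2 := hval v hv w hw e
        rw [he] at h2
        rw [Units.val_mk0, ← h2]
        exact y.2 w (not_above hv hw)
      · apply Units.ext
        exact he
    · rintro ⟨e, he, rfl⟩
      have hmem : ι e ∈ A := by
        rw [hAdef, mem_unit]
        intro w hw
        have hv : HeightOneSpectrum.under (𝓞 E) w ∉ (S : Set (HeightOneSpectrum (𝓞 E))) :=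
          fun h => hw ⟨_, h, over_under w⟩
        exact (hval _ hv w (over_under w) e).trans (he _ hv)
      refine ⟨⟨ι e, hmem⟩, ?_, rfl⟩
      rw [Herb.mem_ker_Dm, hsfix]
      exact σ.commutes (e : E)
  have hrange : ((Herb.Nm s p).range).map A.subtype = (A.map (nrm E N)).map ι := by
    ext x
    rw [Subgroup.mem_map, Subgroup.mem_map]
    constructor
    · rintro ⟨_, ⟨y, rfl⟩, rfl⟩
      refine ⟨nrm E N (y : Nˣ), Subgroup.mem_map_of_mem _ y.2, ?_⟩
      apply Units.ext
      exact (hNm y).symm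
    · rintro ⟨_, ⟨y, hy, rfl⟩, rfl⟩
      refine ⟨Herb.Nm s p ⟨y, hy⟩, ⟨_, rfl⟩, ?_⟩
      apply Units.ext
      exact hNm ⟨y, hy⟩
  have hrel : ((Herb.Nm s p).range).relIndex ((Herb.Dm s).ker) =
      (A.map (nrm E N)).relIndex ((S : Set (HeightOneSpectrum (𝓞 E))).unit E) := by
    rw [← Subgroup.relIndex_map_map_of_injective _ _ A.subtype_injective, hfix, hrange,
      Subgroup.relIndex_map_map_of_injective _ _ hιinj]
  -- the first cohomology
  have hone : ((Herb.Dm s).range).relIndex ((Herb.Nm s p).ker) = 1 := by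
    rw [Subgroup.relIndex_eq_one]
    intro u hu
    have h1 : nrm E N (u : Nˣ) = 1 := by
      apply hιinj
      rw [map_one]
      apply Units.ext
      have h2 := hNm u
      rw [MonoidHom.mem_ker] at hu
      rw [hu] at h2
      exact h2.symm
    obtain ⟨y, hy, hyu⟩ := hD p E N ζ a α hK (S : Set (HeightOneSpectrum (𝓞 E))) hP hval σ hτ
      (u : Nˣ) u.2 h1
    refine ⟨⟨y, hy⟩, ?_⟩
    rw [Herb.Dm_apply, div_eq_iff_eq_mul]
    apply Subtype.ext
    exact hyu.symm
  -- the ranks
  have hA0 : Module.finrank ℤ (Additive (Herb.Dm s).ker) =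
      Module.finrank ℤ (Additive ((S : Set (HeightOneSpectrum (𝓞 E))).unit E)) := by
    let e1 : (Herb.Dm s).ker ≃* ((Herb.Dm s).ker).map A.subtype :=
      ((Herb.Dm s).ker).equivMapOfInjective A.subtype A.subtype_injective
    let e2 : ((S : Set (HeightOneSpectrum (𝓞 E))).unit E) ≃*
        (((S : Set (HeightOneSpectrum (𝓞 E))).unit E)).map ι :=
      ((S : Set (HeightOneSpectrum (𝓞 E))).unit E).equivMapOfInjective ι hιinj
    let e3 : ((Herb.Dm s).ker).map A.subtype ≃*
        (((S : Set (HeightOneSpectrum (𝓞 E))).unit E)).map ι := MulEquiv.subgroupCongr hfix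
    exact ((e1.trans (e3.trans e2.symm)).toAdditive.toIntLinearEquiv).finrank_eq
  obtain ⟨b, hb1, hb2, -⟩ := hH A p hK.prime s hsp ((Herb.Dm s).ker) (fun x => Herb.mem_ker_Dm)
  rw [hone, one_mul, hrel, hA0] at hb2
  rw [hA0] at hb1
  have hdeg : Module.finrank ℚ N = Module.finrank ℚ E * p := by
    rw [← hrk, Module.finrank_mul_finrank ℚ E N]
  obtain ⟨m, hm⟩ := hev
  have hm2 : Module.finrank ℚ E / 2 = m := by omega
  have hN2 : Module.finrank ℚ N / 2 = m * p := by
    rw [hdeg, hm, mul_assoc, Nat.mul_div_cancel_left _ (by norm_num)]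
  rw [hm2] at r0
  rw [hN2] at r1
  set rA := Module.finrank ℤ (Additive A)
  set rE := Module.finrank ℤ (Additive ((S : Set (HeightOneSpectrum (𝓞 E))).unit E))
  have hp1 : 0 < p - 1 := Nat.sub_pos_of_lt hK.prime.one_lt
  obtain ⟨p', hp'⟩ : ∃ p', p = p' + 1 := ⟨p - 1, by have := hK.prime.pos; omega⟩
  have hbt : b + t = rE + 1 := by
    rw [hp', Nat.add_sub_cancel] at hb1
    rw [hp'] at hTcard' r1
    have hp'0 : 0 < p' := by
      have := hK.prime.two_le
      omega
    have key : p' * (b + t) = p' * (rE + 1) := by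
      have e1 : rA + 1 + (p' + 1) * t = m * (p' + 1) + (p' + 1) * S.card + t := by
        rw [r1, add_assoc, hTcard']
        ring
      rw [hb1] at e1
      have e2 : rE + 1 = m + S.card := r0
      have e3 : (rE + 1) + p' * b + p' * t = (m + S.card) + p' * (m + S.card) := by
        nlinarith [e1]
      rw [← e2] at e3
      nlinarith [e3]
    exact Nat.eq_of_mul_eq_mul_left hp'0 key
  have hfinal : (A.map (nrm E N)).relIndex ((S : Set (HeightOneSpectrum (𝓞 E))).unit E) * p *
      p ^ b = p ^ t * p ^ b := by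
    have : (A.map (nrm E N)).relIndex ((S : Set (HeightOneSpectrum (𝓞 E))).unit E) * p * p ^ b =
        ((A.map (nrm E N)).relIndex ((S : Set (HeightOneSpectrum (𝓞 E))).unit E) * p ^ b) * p := by
      ring
    rw [this, hb2, ← pow_succ, ← hbt, add_comm, pow_add]
  exact Nat.eq_of_mul_eq_mul_right (pow_pos hK.prime.pos b) hfinal

end BKGlob2
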