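import Pool.Agent.Lib.MP_7c08ba_nt.Met.GStmts

set_option autoImplicit false

/-!
Module EG: a finite set of primes with `Prin` for `E` and `N`.
-/

noncomputable section

namespace BKGlob2

open NumberField IsDedekindDomain Polynomial BKGen BKGen.SUnits

namespace EGAux

variable {E N : Type} [Field E] [NumberField E] [Field N] [NumberField N] [Algebra E N]

/-- the prime below `w` -/
theorem exists_below (w : HeightOneSpectrum (𝓞 N)) : ∃ v : HeightOneSpectrum (𝓞 E), Over v w := by
  have h1 : (w.asIdeal.comap (algebraMap (𝓞 E) (𝓞 N))).IsPrime := by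
    have := w.isPrime
    exact Ideal.comap_isPrime _ _
  have h2 : w.asIdeal.comap (algebraMap (𝓞 E) (𝓞 N)) ≠ ⊥ := by
    have := w.isPrime
    exact Ideal.comap_ne_bot_of_integral_mem (I := w.asIdeal) (x := _)
      (Submodule.exists_mem_ne_zero_of_ne_bot w.ne_bot).choose_spec.2
      (Submodule.exists_mem_ne_zero_of_ne_bot w.ne_bot).choose_spec.1
      (Algebra.IsIntegral.isIntegral _)
  exact ⟨⟨_, h1, h2⟩, rfl⟩

end EGAux

open EGAux

theorem stEG (hSA : StSA) : StEG := by
  classical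
  intro E N _ _ _ _ _ T
  obtain ⟨hmE, hE⟩ := hSA E
  obtain ⟨hmN, hN⟩ := hSA N
  obtain ⟨S₁, hTS, hS₁⟩ := hE T
  obtain ⟨S₂, -, hS₂⟩ := hN ∅
  choose b hb using fun w : HeightOneSpectrum (𝓞 N) => exists_below (E := E) w
  refine ⟨S₁ ∪ S₂.image b, hTS.trans Finset.subset_union_left, hmE _ _ ?_ hS₁, hmN _ _ ?_ hS₂⟩
  · rw [Finset.coe_union]
    exact Set.subset_union_left
  · intro w hw
    refine ⟨b w, ?_, hb w⟩
    rw [Finset.mem_coe, Finset.mem_union]
    exact Or.inr (Finset.mem_image_of_mem _ hw)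

end BKGlob2
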