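import Pool.Agent.Lib.MP_7c08ba_nt.Met.GStmts

set_option autoImplicit false

/-!
The Hasse norm theorem in degree `p`, module FI, the first inequality: not all local classes modulo
norms come from `S`-units.
-/

noncomputable section

namespace BKGlob2

open NumberField IsDedekindDomain Polynomial BKGen BKGen.SUnits

namespace FIAux

/-- the index of a product of subgroups -/
theorem index_pi {ι : Type*} [Fintype ι] {G : ι → Type*} [∀ i, Group (G i)]
    (H : ∀ i, Subgroup (G i)) : (Subgroup.pi Set.univ H).index = ∏ i, (H i).index := by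
  simp_rw [Subgroup.index, ← Nat.card_pi]
  refine Nat.card_congr
    ((Quotient.congrRight (fun x y ↦ ?_)).trans (Setoid.piQuotientEquiv _).symm)
  rw [QuotientGroup.leftRel_pi]

/-- the completions are finite extensions -/
theorem fd {E : Type} [Field E] [NumberField E] {l : ℕ} [Fact l.Prime] (j : E →+* PadicAlgCl l) :
    FiniteDimensional ℚ_[l] (comp l j) := by
  have h : comp l j = IntermediateField.adjoin ℚ_[l]
      (Set.range fun i => j (Module.finBasis ℚ E i)) := by
    apply le_antisymm
    · refine IntermediateField.adjoin_le_iff.2 ?_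
      rintro _ ⟨x, rfl⟩
      rw [← (Module.finBasis ℚ E).sum_repr x, map_sum]
      refine sum_mem fun i _ => ?_
      rw [map_rat_smul j, Rat.smul_def]
      exact mul_mem (SubfieldClass.ratCast_mem _ _)
        (IntermediateField.subset_adjoin _ _ (Set.mem_range_self i))
    · refine IntermediateField.adjoin.mono _ _ _ ?_
      rintro _ ⟨i, rfl⟩
      exact Set.mem_range_self _
  rw [h]
  have : Finite (Set.range fun i => j (Module.finBasis ℚ E i)) := Set.finite_range _
  exact IntermediateField.finiteDimensional_adjoin fun x _ =>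
    (Algebra.IsAlgebraic.isAlgebraic x).isIntegral

end FIAux

open FIAux in
/-- Module FI, the first inequality. -/
theorem stFI (h1 : StEE) (h2 : StEX) (h3 : StLB) (h4 : StNA1) (h5 : StNA3) (h6 : StNA4) :
    StFI := by
  intro p hp hp2 E iE iN ζ hζ a hna S hS hv htop
  obtain ⟨N, iN1, iN2, iN3, α, hK⟩ := h2 p hp hp2 E ζ hζ a hna
  classical
  have hpf : Fact p.Prime := ⟨hp⟩
  have hee := h1 p E N ζ a α hK S hS hv
  -- the local indices
  have hloc : ∀ v : HeightOneSpectrum (𝓞 E), (Nm p (kv v) ((loc v a : (kv v)ˣ) : kv v)).index =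
      if IsPw p ((loc v a : (kv v)ˣ) : kv v) then 1 else p := by
    intro v
    have hζv : IsPrimitiveRoot (toC (emb v) ζ) p := hζ.map_of_injective (toC (emb v)).injective
    have := fd (emb v)
    split_ifs with h
    · rw [Subgroup.index_eq_one, eq_top_iff]
      intro b _
      exact h4 p hp (kv v) _ hζv (loc v a) b h
    · exact h3 p (chr v) (kv v) _ hζv (loc v a) h
  have hidx : (Subgroup.pi Set.univ fun v : S =>
      Nm p (kv v.1) ((loc v.1 a : (kv v.1)ˣ) : kv v.1)).index =
        p ^ Nat.card {v : S // ¬ IsPw p ((loc v.1 a : (kv v.1)ˣ) : kv v.1)} := by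
    rw [index_pi]
    simp only [hloc]
    rw [Finset.prod_ite, Finset.prod_const_one, one_mul, Finset.prod_const,
      Nat.card_eq_fintype_card, Fintype.card_subtype]
  -- the units
  have hrel : ((Subgroup.pi Set.univ fun v : S =>
      Nm p (kv v.1) ((loc v.1 a : (kv v.1)ˣ) : kv v.1)).comap (diag S)).relIndex
        ((S : Set (HeightOneSpectrum (𝓞 E))).unit E) =
      p ^ Nat.card {v : S // ¬ IsPw p ((loc v.1 a : (kv v.1)ˣ) : kv v.1)} := by
    rw [← hidx, Subgroup.relIndex_comap, ← Subgroup.relIndex_sup_right,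
      ← Subgroup.relIndex_top_right]
    exact congrArg _ htop
  have hle : ((Above N (S : Set (HeightOneSpectrum (𝓞 E)))).unit N).map (nrm E N) ≤
      (Subgroup.pi Set.univ fun v : S =>
        Nm p (kv v.1) ((loc v.1 a : (kv v.1)ˣ) : kv v.1)).comap (diag S) := by
    rintro _ ⟨n, -, rfl⟩
    rw [Subgroup.mem_comap, Subgroup.mem_pi]
    intro v _
    have h9 : nrm E N n ∈ Nm p E (a : E) := by
      rw [h5 p hp E N (a : E) α hK.notpw hK.pow hK.top]
      exact ⟨n, rfl⟩
    exact h6 p hp E (kv v.1) (toC (emb v.1)) (a : E) _ h9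
  have hdvd := Subgroup.relIndex_dvd_of_le_left
    ((S : Set (HeightOneSpectrum (𝓞 E))).unit E) hle
  rw [hrel] at hdvd
  obtain ⟨m, hm⟩ := hdvd
  rw [hm] at hee
  have hpos : 0 < p ^ Nat.card {v : S // ¬ IsPw p ((loc v.1 a : (kv v.1)ˣ) : kv v.1)} :=
    pow_pos hp.pos _
  have h10 : m * p = 1 := by
    refine Nat.eq_of_mul_eq_mul_left hpos ?_
    rw [← mul_assoc, hee, mul_one]
  exact hp.one_lt.ne' (Nat.eq_one_of_mul_eq_one_left h10)

end BKGlob2
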