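import Pool.Agent.Lib.MP_7c08ba_nt.Met.GStmts

set_option autoImplicit false

/-! Module FP: `(S ∪ T)`-units which are `p`-th powers at the places in `S`. -/

noncomputable section

namespace BKGlob2

open NumberField IsDedekindDomain Polynomial BKGen BKGen.SUnits

namespace FPAux

variable {E : Type} [Field E] [NumberField E]

/-- valuation one means norm one -/
theorem norm_one_iff (h : StPB) (v : HeightOneSpectrum (𝓞 E)) (x : Eˣ) :
    ‖emb v (x : E)‖ = 1 ↔ v.valuation E (x : E) = 1 := by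
  have := (h E (chr v) (emb v)).2.1 x
  rwa [pl_emb] at this

/-- the absolute values of the completion are powers of that of an element of valuation
`exp (-1)` -/
theorem exists_zpow (h : StPB) (v : HeightOneSpectrum (𝓞 E)) (π : Eˣ)
    (hπ : v.valuation E (π : E) = WithZero.exp (-1 : ℤ)) (y : (kv v)ˣ) :
    ∃ n : ℤ, ‖((y : kv v) : PadicAlgCl (chr v))‖ = ‖emb v ((π ^ n : Eˣ) : E)‖ := by
  obtain ⟨z, hz⟩ := (h E (chr v) (emb v)).2.2 y
  have hz0 : v.valuation E (z : E) ≠ 0 := by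
    rw [Ne, Valuation.zero_iff]
    exact z.ne_zero
  have hk : v.valuation E (z : E) = WithZero.exp (WithZero.log (v.valuation E (z : E))) :=
    (WithZero.exp_log hz0).symm
  set k : ℤ := WithZero.log (v.valuation E (z : E)) with hkdef
  refine ⟨-k, ?_⟩
  have h1 : v.valuation E ((z * (π ^ (-k))⁻¹ : Eˣ) : E) = 1 := by
    rw [Units.val_mul, map_mul, Units.val_inv_eq_inv_val, map_inv₀, Units.val_zpow_eq_zpow_val,
      map_zpow₀, hπ, hk, ← WithZero.exp_zsmul, ← WithZero.exp_neg, ← WithZero.exp_add]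
    simp
  have h2 := (norm_one_iff h v _).2 h1
  rw [Units.val_mul, map_mul, norm_mul, Units.val_inv_eq_inv_val, map_inv₀, norm_inv] at h2
  have h3 : ‖emb v ((π ^ (-k) : Eˣ) : E)‖ ≠ 0 := by
    rw [norm_ne_zero_iff]
    exact (_root_.map_ne_zero _).2 (Units.ne_zero _)
  rw [← hz]
  field_simp at h2
  exact h2

end FPAux

open FPAux in
theorem stFP (h1 : StFI) (h2 : StNA1) (h3 : StNA2) (h4 : StPB) (h5 : StSA) : StFP := by
  classical
  intro p hp hp2 E _ _ ζ hζ S T hST hpS hPrin hH x hx1 hx2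
  by_contra hx
  have hP' : Prin ((S ∪ T : Finset (HeightOneSpectrum (𝓞 E))) :
      Set (HeightOneSpectrum (𝓞 E))) :=
    (h5 E).1 _ _ (Finset.coe_subset.2 Finset.subset_union_left) hPrin
  refine h1 p hp hp2 E ζ hζ x hx (S ∪ T) hP' ?_ ?_
  · intro v hv
    rw [Finset.mem_union, not_or] at hv
    refine Or.inr ⟨fun h => hv.1 (hpS v h), 1, ?_⟩
    rw [one_pow, inv_one, mul_one]
    exact hx1 v hv.1 hv.2
  · rw [eq_top_iff]
    intro y _
    -- extension to all places
    let Y : ∀ v : HeightOneSpectrum (𝓞 E), (kv v)ˣ := fun v =>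
      if h : v ∈ S ∪ T then y ⟨v, h⟩ else 1
    have hY : ∀ v : ((S ∪ T : Finset (HeightOneSpectrum (𝓞 E)))), Y v.1 = y v := fun v =>
      dif_pos v.2
    have hTS : ∀ v ∈ T, v ∉ S := fun v hv hvS => Finset.disjoint_left.1 hST hvS hv
    have hpi : ∀ v : HeightOneSpectrum (𝓞 E), ∃ π : Eˣ, v ∈ T →
        v.valuation E (π : E) = WithZero.exp (-1 : ℤ) ∧
        ∀ w ∉ S, w ≠ v → w.valuation E (π : E) = 1 := by
      intro v
      by_cases hv : v ∈ T
      · obtain ⟨π, h⟩ := hPrin v (fun h => hTS v hv (Finset.mem_coe.1 h))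
        exact ⟨π, fun _ => ⟨h.1, fun w hw => h.2 w (fun h' => hw (Finset.mem_coe.1 h'))⟩⟩
      · exact ⟨1, fun h => absurd h hv⟩
    choose π hπ using hpi
    have hn : ∀ v : HeightOneSpectrum (𝓞 E), ∃ n : ℤ, v ∈ T →
        ‖(((Y v : (kv v)ˣ) : kv v) : PadicAlgCl (chr v))‖ = ‖emb v ((π v ^ n : Eˣ) : E)‖ := by
      intro v
      by_cases hv : v ∈ T
      · obtain ⟨n, h⟩ := exists_zpow h4 v (π v) (hπ v hv).1 (Y v)
        exact ⟨n, fun _ => h⟩
      · exact ⟨0, fun h => absurd h hv⟩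
    choose n hn using hn
    set t : Eˣ := ∏ w ∈ T, π w ^ n w with ht
    -- the absolute values of `t`
    have htT : ∀ v ∈ T, ‖emb v (t : E)‖ =
        ‖(((Y v : (kv v)ˣ) : kv v) : PadicAlgCl (chr v))‖ := by
      intro v hv
      have e1 : ‖emb v (t : E)‖ = ∏ w ∈ T, ‖emb v ((π w ^ n w : Eˣ) : E)‖ := by
        rw [ht, Units.coe_prod, map_prod, norm_prod]
      rw [e1, Finset.prod_eq_single v ?_ (fun h => absurd hv h), hn v hv]
      intro w hw hwv
      rw [norm_one_iff h4, Units.val_zpow_eq_zpow_val, map_zpow₀,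
        (hπ w hw).2 v (hTS v hv) (Ne.symm hwv), one_zpow]
    have htu : t ∈ ((S ∪ T : Finset (HeightOneSpectrum (𝓞 E))) :
        Set (HeightOneSpectrum (𝓞 E))).unit E := by
      intro v hv
      rw [Finset.mem_coe, Finset.mem_union, not_or] at hv
      rw [ht, Units.coe_prod, map_prod]
      refine Finset.prod_eq_one fun w hw => ?_
      rw [Units.val_zpow_eq_zpow_val, map_zpow₀, (hπ w hw).2 v hv.1 ?_, one_zpow]
      rintro rfl
      exact hv.2 hw
    -- the unit `u`
    obtain ⟨u, hu, huT⟩ := hH (fun v => Y v * (loc v t)⁻¹) (by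
      intro v hv
      have e1 : ((((Y v * (loc v t)⁻¹ : (kv v)ˣ)) : kv v) : PadicAlgCl (chr v)) =
          (((Y v : (kv v)ˣ) : kv v) : PadicAlgCl (chr v)) * (emb v (t : E))⁻¹ := by
        rw [Units.val_mul, Units.val_inv_eq_inv_val]
        rfl
      show ‖((((Y v * (loc v t)⁻¹ : (kv v)ˣ)) : kv v) : PadicAlgCl (chr v))‖ = 1
      rw [e1, norm_mul, norm_inv, htT v hv, mul_inv_cancel₀]
      rw [norm_ne_zero_iff]
      intro h0
      exact (Y v).ne_zero (Subtype.ext h0))
    have huu : u ∈ ((S ∪ T : Finset (HeightOneSpectrum (𝓞 E))) :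
        Set (HeightOneSpectrum (𝓞 E))).unit E := by
      intro v hv
      rw [Finset.mem_coe, Finset.mem_union, not_or] at hv
      exact hu v (fun h => hv.1 (Finset.mem_coe.1 h))
    unfold PS
    rw [Subgroup.mem_sup]
    refine ⟨diag (S ∪ T) (t * u), Subgroup.mem_map_of_mem _ (mul_mem htu huu),
      (diag (S ∪ T) (t * u))⁻¹ * y, ?_, mul_inv_cancel_left _ _⟩
    rw [Subgroup.mem_pi]
    intro v _
    rcases Finset.mem_union.1 v.2 with hv | hv
    · refine h2 p hp (kv v.1) (toC (emb v.1) ζ) (hζ.map_of_injective (toC (emb v.1)).injective)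
        _ _ (hx2 v.1 hv)
    · refine h3 p hp (kv v.1) _ ?_
      obtain ⟨c, hc⟩ := huT v.1 hv
      have hc0 : c ≠ 0 := by
        rintro rfl
        rw [zero_pow hp.ne_zero] at hc
        exact Units.ne_zero _ hc.symm
      refine ⟨Units.mk0 c hc0, ?_⟩
      apply Units.ext
      show c ^ p = _
      rw [hc]
      congr 1
      show Y v.1 * (loc v.1 t)⁻¹ * (loc v.1 u)⁻¹ = (loc v.1 (t * u))⁻¹ * y v
      rw [hY, map_mul, mul_inv, mul_comm (_ * _) (y v), mul_assoc]

end BKGlob2
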