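import Pool.Agent.Lib.MP_7c08ba_nt.Met.GStmts

set_option autoImplicit false

/-!
The Hasse norm theorem for Kummer extensions of prime degree: the second inequality.
-/

noncomputable section

namespace BKGlob2

open NumberField IsDedekindDomain Polynomial BKGen BKGen.SUnits

namespace FSAux

/-- The index of a product of subgroups (dependent version). -/
theorem index_pi_dep {ι : Type*} [Fintype ι] {G : ι → Type*} [∀ i, Group (G i)]
    (H : ∀ i, Subgroup (G i)) : (Subgroup.pi Set.univ H).index = ∏ i, (H i).index := by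
  simp_rw [Subgroup.index, ← Nat.card_pi]
  refine Nat.card_congr
    ((Quotient.congrRight (fun x y => ?_)).trans (Setoid.piQuotientEquiv _).symm)
  rw [QuotientGroup.leftRel_pi]

theorem isPw_of_mem_Pw {p : ℕ} {k : Type} [Field k] {x : kˣ} (h : x ∈ Pw p k) :
    IsPw p (x : k) := by
  obtain ⟨y, rfl⟩ := h
  exact ⟨y, by simp⟩

/-- Counting: let `U` be a subgroup whose image contains, up to the subgroup `P`, only elements of
`M`, and such that the elements of `U` with image in `P` are the elements of `V`. -/
theorem index_dvd {A G : Type*} [CommGroup A] [CommGroup G] (f : A →* G) (U : Subgroup A)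
    (P M : Subgroup G) (hPM : P ≤ M) (hUM : U.map f ≤ M) (p m n : ℕ) (hp : p ≠ 0)
    (hP : P.index = p ^ n) (hU : (P.comap f).relIndex U = p ^ m) (hnm : n = m + 1) :
    M.index ∣ p := by
  have h1 : P.relIndex (U.map f ⊔ P) = p ^ m := by
    rw [Subgroup.relIndex_sup_right, ← Subgroup.relIndex_comap, hU]
  have h2 : P.relIndex (U.map f ⊔ P) * (U.map f ⊔ P).index = P.index :=
    Subgroup.relIndex_mul_index le_sup_right
  have h3 : (U.map f ⊔ P).index = p := by
    rw [h1, hP, hnm, pow_succ] at h2
    exact Nat.eq_of_mul_eq_mul_left (pow_pos (Nat.pos_of_ne_zero hp) m) h2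
  rw [← h3]
  exact Subgroup.index_dvd_of_le (sup_le hUM hPM)

end FSAux

open FSAux in
/-- Module FS, the second inequality. -/
theorem stFS (hEF : StEF) (hFP : StFP) (hFT : StFT) (hNA2 : StNA2) (hNA3 : StNA3)
    (hNA4 : StNA4) (hPC : StPC) (hSB : StSB) : StFS := by
  intro p E N _ _ _ _ _ ζ a α hK S hS hS' hpS haS
  have hp : p.Prime := hK.prime
  have : Fact p.Prime := ⟨hp⟩
  classical
  obtain ⟨T, hdisj, hcard, hTa, -, hsurj⟩ :=
    hFT p hp hK.odd E ζ hK.root S hpS a haS hK.notpw
  -- the `S ∪ T`-units
  set U : Subgroup Eˣ := ((S ∪ T : Finset (HeightOneSpectrum (𝓞 E))) :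
    Set (HeightOneSpectrum (𝓞 E))).unit E with hU
  have hdvd : (PS p S a).index ∣ p := by
    refine index_dvd (diag S) U (Subgroup.pi Set.univ fun v : S => Pw p (kv v.1)) (PS p S a)
      ?_ ?_ p (Module.finrank ℚ E / 2 + (S ∪ T).card) (2 * S.card + Module.finrank ℚ E)
      hp.ne_zero ?_ ?_ ?_
    · refine le_trans ?_ le_sup_right
      intro x hx v hv
      exact hNA2 p hp (kv v.1) _ (hx v hv)
    · rintro _ ⟨y, hy, rfl⟩
      obtain ⟨u, hu, n, hyn⟩ := hEF p E N ζ a α hK S hS' y (by
        intro v hv
        by_cases hvT : v ∈ T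
        · exact Or.inr (hTa v hvT)
        · left
          refine hy v ?_
          rw [Finset.coe_union]
          rintro (h | h)
          · exact hv h
          · exact hvT h)
      rw [hyn, map_mul]
      refine mul_mem (Subgroup.mem_sup_left ⟨u, hu, rfl⟩) (Subgroup.mem_sup_right ?_)
      intro v _
      have h1 : nrm E N n ∈ Nm p E (a : E) := by
        rw [hNA3 p hp E N (a : E) α hK.notpw hK.pow hK.top]
        exact ⟨n, rfl⟩
      exact hNA4 p hp E (kv v.1) (toC (emb v.1)) (a : E) (nrm E N n) h1
    · rw [index_pi_dep, ← hPC p E ζ hK.root S hpS]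
      exact Finset.prod_coe_sort S fun v => (Pw p (kv v)).index
    · have h1 := (hSB p hp hK.odd E ζ hK.root (S ∪ T)).2.2.1
      rw [← h1]
      rw [Subgroup.relIndex]
      congr 1
      ext ⟨x, hx⟩
      rw [Subgroup.mem_subgroupOf, Subgroup.mem_comap]
      constructor
      · intro h
        obtain ⟨c, hc⟩ := hFP p hp hK.odd E ζ hK.root S T hdisj hpS hS hsurj x
          (by
            intro v hv hv'
            refine hx v ?_
            rw [Finset.coe_union]
            rintro (h | h)
            · exact hv h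
            · exact hv' h)
          (by
            intro v hv
            exact isPw_of_mem_Pw (h ⟨v, hv⟩ (Set.mem_univ _)))
        have hc0 : c ≠ 0 := by
          rintro rfl
          rw [zero_pow hp.ne_zero] at hc
          exact x.ne_zero hc.symm
        refine ⟨⟨Units.mk0 c hc0, ?_⟩, ?_⟩
        · intro v hv
          have h2 := hx v hv
          rw [← hc, map_pow] at h2
          exact (pow_eq_one_iff_left hp.ne_zero).1 h2
        · apply Subtype.ext
          apply Units.ext
          simpa using hc
      · rintro ⟨⟨y, hy⟩, hyx⟩ v _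
        have h2 : y ^ p = x := congrArg Subtype.val hyx
        refine ⟨loc v.1 y, ?_⟩
        rw [powMonoidHom_apply, ← map_pow, h2]
        rfl
    · rw [Finset.card_union_of_disjoint hdisj]
      obtain ⟨e, he⟩ := (hSB p hp hK.odd E ζ hK.root S).2.2.2
      omega
  constructor
  · intro h
    rw [h, zero_dvd_iff] at hdvd
    exact hp.ne_zero hdvd
  · exact Nat.le_of_dvd hp.pos hdvd

end BKGlob2
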