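import Pool.Agent.Lib.MP_7c08ba_nt.Met.GStmts

set_option autoImplicit false

/-!
The Hasse norm theorem in degree `p`, module FT: the auxiliary primes.
-/

noncomputable section

namespace BKGlob2

open NumberField IsDedekindDomain Polynomial BKGen BKGen.SUnits

namespace FTAux

/-- the index of the intersection with a subgroup with cyclic quotient of prime order -/
theorem index_aux {G : Type*} [CommGroup G] {p : ℕ} [hp : Fact p.Prime] (Q D : Subgroup G) {w : G}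
    (hwQ : w ∈ Q) (hwD : w ∉ D) (hwp : w ^ p ∈ D) (h : ∀ u ∈ Q, ∃ i : ℕ, u * (w ^ i)⁻¹ ∈ D) :
    (D ⊓ Q).index = p * Q.index := by
  rw [← Subgroup.relIndex_mul_index (inf_le_right : D ⊓ Q ≤ Q), Subgroup.inf_relIndex_right]
  congr 1
  have h1 : orderOf (QuotientGroup.mk ⟨w, hwQ⟩ : Q ⧸ D.subgroupOf Q) = p := by
    apply orderOf_eq_prime
    · rw [← QuotientGroup.mk_pow, QuotientGroup.eq_one_iff, Subgroup.mem_subgroupOf]
      exact hwp
    · rw [Ne, QuotientGroup.eq_one_iff, Subgroup.mem_subgroupOf]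
      exact hwD
  have h2 : orderOf (QuotientGroup.mk ⟨w, hwQ⟩ : Q ⧸ D.subgroupOf Q) =
      Nat.card (Q ⧸ D.subgroupOf Q) := by
    apply orderOf_eq_card_of_forall_mem_zpowers
    intro y
    obtain ⟨⟨u, hu⟩, rfl⟩ := QuotientGroup.mk_surjective y
    obtain ⟨i, hi⟩ := h u hu
    refine ⟨(i : ℤ), ?_⟩
    show (QuotientGroup.mk ⟨w, hwQ⟩ : Q ⧸ D.subgroupOf Q) ^ (i : ℤ) = _
    rw [zpow_natCast, ← QuotientGroup.mk_pow, QuotientGroup.eq, Subgroup.mem_subgroupOf]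
    show (w ^ i)⁻¹ * u ∈ D
    rw [mul_comm]
    exact hi
  have h3 : D.relIndex Q = Nat.card (Q ⧸ D.subgroupOf Q) := rfl
  rw [h3, ← h2, h1]

section Transfer

variable {E : Type} [Field E] [NumberField E]

theorem chr_eq {l l' : ℕ} [hl : Fact l.Prime] [hl' : Fact l'.Prime] (j : E →+* PadicAlgCl l)
    (j' : E →+* PadicAlgCl l') (h : pl j = pl j') : l = l' := by
  by_contra hne
  have h1 : (l : 𝓞 E) ∈ (pl j).asIdeal := l_mem_plI j
  have h2 : (l' : 𝓞 E) ∈ (pl j).asIdeal := by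
    rw [h]
    exact l_mem_plI j'
  have h3 : IsCoprime (l : ℤ) (l' : ℤ) :=
    Nat.isCoprime_iff_coprime.2 ((Nat.coprime_primes hl.out hl'.out).2 hne)
  obtain ⟨u, v, huv⟩ := h3
  have h4 : (u : 𝓞 E) * l + v * l' = 1 := by exact_mod_cast congrArg (Int.cast : ℤ → 𝓞 E) huv
  have h5 : (1 : 𝓞 E) ∈ (pl j).asIdeal := by
    rw [← h4]
    exact Ideal.add_mem _ (Ideal.mul_mem_left _ _ h1) (Ideal.mul_mem_left _ _ h2)
  exact (pl j).isPrime.ne_top ((Ideal.eq_top_iff_one _).2 h5)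

/-- `p`-th powers in the completion -/
theorem isPw_comp {K : Type} [Field K] {p l : ℕ} [hl : Fact l.Prime] (j : K →+* PadicAlgCl l)
    (x : K) : IsPw p (toC j x) ↔ ∃ y ∈ comp l j, y ^ p = j x := by
  constructor
  · rintro ⟨y, hy⟩
    refine ⟨(y : PadicAlgCl l), y.2, ?_⟩
    rw [← toC_val, ← hy, SubmonoidClass.coe_pow]
  · rintro ⟨y, hy, h⟩
    refine ⟨⟨y, hy⟩, Subtype.ext ?_⟩
    rw [SubmonoidClass.coe_pow, toC_val]
    exact h

theorem loc_toC (v : HeightOneSpectrum (𝓞 E)) (x : Eˣ) :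
    ((loc v x : (kv v)ˣ) : kv v) = toC (emb v) (x : E) := rfl

theorem cast_aux {l : ℕ} [hl : Fact l.Prime] {k : IntermediateField ℚ_[l] (PadicAlgCl l)}
    {x y c : k} {i p : ℕ} (h : y = x ^ i * c ^ p) :
    (y : PadicAlgCl l) = (x : PadicAlgCl l) ^ i * (c : PadicAlgCl l) ^ p := by
  rw [h, MulMemClass.coe_mul, SubmonoidClass.coe_pow, SubmonoidClass.coe_pow]

/-- being a `p`-th power in the completion only depends on the prime -/
theorem isPw_transfer (hPA : StPA) {p l l' : ℕ} [hl : Fact l.Prime] [hl' : Fact l'.Prime]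
    (j : E →+* PadicAlgCl l) (j' : E →+* PadicAlgCl l') (h : pl j = pl j') {x : E}
    (hx : IsPw p (toC j x)) : IsPw p (toC j' x) := by
  obtain rfl := chr_eq j j' h
  obtain ⟨t, ht⟩ := hPA E l j j' h
  obtain ⟨y, hy, hyx⟩ := (isPw_comp j x).1 hx
  have hmap : (comp l j).map (t : PadicAlgCl l →ₐ[ℚ_[l]] PadicAlgCl l) ≤ comp l j' := by
    unfold BKGen.comp
    rw [IntermediateField.adjoin_map, IntermediateField.adjoin_le_iff]
    rintro _ ⟨_, ⟨x, rfl⟩, rfl⟩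
    apply IntermediateField.subset_adjoin
    exact ⟨x, ht x⟩
  refine (isPw_comp j' x).2 ⟨t y, hmap ⟨y, hy, rfl⟩, ?_⟩
  rw [← map_pow, hyx, ht]

/-- finitely many primes of `N` above the primes in `S` -/
theorem finite_above {N : Type} [Field N] [NumberField N] [Algebra E N]
    (S : Finset (HeightOneSpectrum (𝓞 E))) :
    {w : HeightOneSpectrum (𝓞 N) | pl ((emb w).comp (algebraMap E N)) ∈ S}.Finite := by
  have h0 : ∀ v : HeightOneSpectrum (𝓞 E),
      v.asIdeal.map (algebraMap (𝓞 E) (𝓞 N)) ≠ 0 := by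
    intro v
    rw [Ne, Ideal.zero_eq_bot,
      Ideal.map_eq_bot_iff_of_injective (FaithfulSMul.algebraMap_injective (𝓞 E) (𝓞 N))]
    exact v.ne_bot
  have h1 : (⋃ v ∈ S, {w : HeightOneSpectrum (𝓞 N) |
      w.asIdeal ∣ v.asIdeal.map (algebraMap (𝓞 E) (𝓞 N))}).Finite :=
    S.finite_toSet.biUnion fun v _ => Ideal.finite_factors (h0 v)
  refine h1.subset fun w hw => ?_
  rw [Set.mem_iUnion₂]
  refine ⟨_, hw, ?_⟩
  show w.asIdeal ∣ _
  rw [Ideal.dvd_iff_le, Ideal.map_le_iff_le_comap]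
  intro x hx
  rw [mem_pl] at hx
  rw [Ideal.mem_comap, ← pl_emb w, mem_pl]
  exact hx

/-- the completion of the smaller field -/
theorem comp_le {K N : Type} [Field K] [Field N] [Algebra K N] {l : ℕ} [hl : Fact l.Prime]
    (j : N →+* PadicAlgCl l) : comp l (j.comp (algebraMap K N)) ≤ comp l j := by
  unfold BKGen.comp
  rw [IntermediateField.adjoin_le_iff]
  rintro _ ⟨x, rfl⟩
  exact IntermediateField.subset_adjoin _ _ ⟨algebraMap K N x, rfl⟩

/-- local version of the next theorem -/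
theorem key_local (hLD : StLD) (hPA : StPA) (hPB : StPB) {p : ℕ} [hp : Fact p.Prime] {ζ : E}
    (hζ : IsPrimitiveRoot ζ p) (S : Finset (HeightOneSpectrum (𝓞 E)))
    (hpS : ∀ v, (p : 𝓞 E) ∈ v.asIdeal → v ∈ S) {a u : Eˣ}
    (ha : ∀ v ∉ S, v.valuation E (a : E) = 1) (hu : ∀ v ∉ S, v.valuation E (u : E) = 1)
    (h : ∀ v ∉ S, IsPw p (toC (emb v) (a : E)) → IsPw p (toC (emb v) (u : E)))
    {N : Type} [Field N] [Algebra E N] {α : N} (hα : α ^ p = algebraMap E N (a : E)) {l : ℕ}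
    [hl : Fact l.Prime] (f : N →+* PadicAlgCl l) (hv : pl (f.comp (algebraMap E N)) ∉ S) :
    IsPw p (toC f (algebraMap E N (u : E))) := by
  obtain ⟨j, hj⟩ : ∃ j : E →+* PadicAlgCl l, j = f.comp (algebraMap E N) := ⟨_, rfl⟩
  have hle : comp l j ≤ comp l f := by
    rw [hj]
    exact comp_le f
  rw [← hj] at hv
  have hju : ∀ x : E, f (algebraMap E N x) = j x := by
    intro x
    rw [hj, RingHom.comp_apply]
  rw [isPw_comp, hju]
  by_cases hc : IsPw p (toC j (a : E))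
  · have h1 := isPw_transfer hPA _ (emb (pl j)) (pl_emb (pl j)).symm hc
    obtain ⟨y, hy, hyu⟩ := (isPw_comp j _).1 (isPw_transfer hPA _ j (pl_emb (pl j)) (h _ hv h1))
    exact ⟨y, hle hy, hyu⟩
  · have hfd : FiniteDimensional ℚ_[l] (comp l j) := (hPB E l j).1
    have hlp : l ≠ p := by
      rintro rfl
      exact hv (hpS _ (l_mem_plI j))
    have hn : ∀ x : Eˣ, (pl j).valuation E (x : E) = 1 →
        ‖(((toU j x : (comp l j)ˣ) : comp l j) : PadicAlgCl l)‖ = 1 := by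
      intro x hx
      rw [toU_val]
      exact ((hPB E l j).2.1 x).2 hx
    obtain ⟨i, c, hic⟩ := (hLD p l hlp (comp l j) (toC j ζ)
      (hζ.map_of_injective (toC j).injective)).2 (toU j a) (toU j u) (hn a (ha _ hv))
      (hn u (hu _ hv)) hc
    have h1 := cast_aux hic
    rw [toU_val, toU_val] at h1
    have hfα : f α ∈ comp l f := IntermediateField.subset_adjoin _ _ ⟨α, rfl⟩
    refine ⟨(f α) ^ i * (c : PadicAlgCl l), mul_mem (pow_mem hfα i) (hle c.2), ?_⟩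
    rw [h1, mul_pow, ← pow_mul, mul_comm i p, pow_mul, ← map_pow, hα, hju]

/-- `S`-units which are `p`-th powers wherever `a` is a `p`-th power -/
theorem key (hFF : StFF) (hEA : StEA) (hEX : StEX) (hLD : StLD) (hPA : StPA) (hPB : StPB) {p : ℕ}
    (hp : p.Prime) (hp2 : p ≠ 2) {ζ : E} (hζ : IsPrimitiveRoot ζ p)
    (S : Finset (HeightOneSpectrum (𝓞 E))) (hpS : ∀ v, (p : 𝓞 E) ∈ v.asIdeal → v ∈ S) {a u : Eˣ}
    (ha : ∀ v ∉ S, v.valuation E (a : E) = 1) (hna : ¬ IsPw p (a : E))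
    (hu : ∀ v ∉ S, v.valuation E (u : E) = 1)
    (h : ∀ v ∉ S, IsPw p ((loc v a : (kv v)ˣ) : kv v) → IsPw p ((loc v u : (kv v)ˣ) : kv v)) :
    ∃ (i : ℕ) (c : E), (u : E) = (a : E) ^ i * c ^ p := by
  have hpf : Fact p.Prime := ⟨hp⟩
  obtain ⟨N, iN1, iN2, iN3, α, hK⟩ := hEX p hp hp2 E ζ hζ a hna
  obtain ⟨-, -, -, hlast⟩ := hEA p E N ζ a α hK
  apply hlast
  have huN : ((Units.map (algebraMap E N : E →* N) u : Nˣ) : N) = algebraMap E N (u : E) := rfl
  rw [← huN]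
  refine hFF p hp hp2 N (algebraMap E N ζ) (hζ.map_of_injective (algebraMap E N).injective)
    (Units.map (algebraMap E N : E →* N) u) (finite_above (N := N) S).toFinset (fun w hw => ?_)
  rw [Set.Finite.mem_toFinset] at hw
  rw [loc_toC, huN]
  exact key_local hLD hPA hPB hζ S hpS ha hu (fun v hv hx => h v hv hx) hK.pow (emb w) hw

end Transfer

section Main

variable {E : Type} [Field E] [NumberField E]

/-- the `S`-units -/
abbrev GS (S : Finset (HeightOneSpectrum (𝓞 E))) : Subgroup Eˣ :=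
  (S : Set (HeightOneSpectrum (𝓞 E))).unit E

theorem isPw_iff {p : ℕ} (hp : p ≠ 0) {k : Type} [Field k] (z : kˣ) :
    z ∈ Pw p k ↔ IsPw p (z : k) := by
  constructor
  · rintro ⟨y, rfl⟩
    exact ⟨(y : k), (Units.val_pow_eq_pow_val y p).symm⟩
  · rintro ⟨c, hc⟩
    have hc0 : c ≠ 0 := by
      rintro rfl
      rw [zero_pow hp] at hc
      exact z.ne_zero hc.symm
    refine ⟨Units.mk0 c hc0, Units.ext ?_⟩
    change ((Units.mk0 c hc0 ^ p : kˣ) : k) = z
    rw [Units.val_pow_eq_pow_val]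
    exact hc

/-- the `S`-units which are `p`-th powers at `v` -/
def DD (p : ℕ) (S : Finset (HeightOneSpectrum (𝓞 E))) (v : HeightOneSpectrum (𝓞 E)) :
    Subgroup (GS S) := (Pw p (kv v)).comap ((loc v).comp (GS S).subtype)

theorem mem_DD {p : ℕ} (hp : p ≠ 0) {S : Finset (HeightOneSpectrum (𝓞 E))}
    {v : HeightOneSpectrum (𝓞 E)} {u : GS S} :
    u ∈ DD p S v ↔ IsPw p ((loc v (u : Eˣ) : (kv v)ˣ) : kv v) := by
  rw [DD, Subgroup.mem_comap, isPw_iff hp]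
  rfl

/-- the choice of the auxiliary primes -/
theorem choose {p : ℕ} [hp : Fact p.Prime] (S : Finset (HeightOneSpectrum (𝓞 E)))
    (V : Set (HeightOneSpectrum (𝓞 E))) (P : Subgroup (GS S))
    (hPV : ∀ u, u ∈ P ↔ ∀ v ∈ V, u ∈ DD p S v) {r : ℕ} (hr : P.index = p ^ r)
    (hn : ∀ v ∈ V, ∀ u : GS S,
      ‖(((loc v (u : Eˣ) : (kv v)ˣ) : kv v) : PadicAlgCl (chr v))‖ = 1)
    (hL : ∀ v ∈ V, ∀ x y : (kv v)ˣ, ‖((x : kv v) : PadicAlgCl (chr v))‖ = 1 →
      ‖((y : kv v) : PadicAlgCl (chr v))‖ = 1 → ¬ IsPw p (x : kv v) →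
      ∃ (i : ℕ) (c : kv v), (y : kv v) = (x : kv v) ^ i * c ^ p) :
    ∀ n ≤ r, ∃ T : Finset (HeightOneSpectrum (𝓞 E)), (∀ v ∈ T, v ∈ V) ∧ T.card = n ∧
      (⨅ v ∈ T, DD p S v).index = p ^ n ∧
      ∀ x : ∀ v : HeightOneSpectrum (𝓞 E), (kv v)ˣ,
        (∀ v ∈ T, ‖(((x v : (kv v)ˣ) : kv v) : PadicAlgCl (chr v))‖ = 1) →
        ∃ u : GS S, ∀ v ∈ T, IsPw p (((x v * (loc v (u : Eˣ))⁻¹ : (kv v)ˣ)) : kv v) := by
  classical
  have hp0 : p ≠ 0 := hp.out.ne_zero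
  intro n
  induction n with
  | zero =>
    intro _
    refine ⟨∅, by simp, rfl, by simp, fun x _ => ⟨1, by simp⟩⟩
  | succ n ih =>
    intro hnr
    obtain ⟨T, hTV, hTn, hTi, hTs⟩ := ih (by omega)
    have hPQ : P ≤ ⨅ v ∈ T, DD p S v := by
      intro u hu
      rw [Subgroup.mem_iInf]
      intro v
      rw [Subgroup.mem_iInf]
      intro hv
      exact (hPV u).1 hu v (hTV v hv)
    have hne : ¬ (⨅ v ∈ T, DD p S v) ≤ P := by
      intro hle
      have h1 := le_antisymm hle hPQ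
      rw [h1, hr] at hTi
      have h2 := Nat.pow_right_injective hp.out.two_le hTi
      omega
    obtain ⟨w, hwQ, hwP⟩ := SetLike.not_le_iff_exists.1 hne
    rw [hPV] at hwP
    push Not at hwP
    obtain ⟨v₀, hv₀, hwv⟩ := hwP
    have hmemQ : ∀ {u : GS S}, u ∈ (⨅ v ∈ T, DD p S v) ↔ ∀ v ∈ T, u ∈ DD p S v := by
      intro u
      rw [Subgroup.mem_iInf]
      refine forall_congr' fun v => ?_
      rw [Subgroup.mem_iInf]
    have hv₀T : v₀ ∉ T := fun h => hwv (hmemQ.1 hwQ v₀ h)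
    have hwn : ¬ IsPw p ((loc v₀ (w : Eˣ) : (kv v₀)ˣ) : kv v₀) := fun h =>
      hwv ((mem_DD hp0).2 h)
    refine ⟨insert v₀ T, ?_, ?_, ?_, ?_⟩
    · intro v hv
      rcases Finset.mem_insert.1 hv with rfl | hv
      · exact hv₀
      · exact hTV v hv
    · rw [Finset.card_insert_of_notMem hv₀T, hTn]
    · rw [Finset.iInf_insert, index_aux (p := p) _ _ hwQ hwv, hTi, pow_succ, mul_comm]
      · rw [mem_DD hp0]
        refine ⟨((loc v₀ (w : Eˣ) : (kv v₀)ˣ) : kv v₀), ?_⟩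
        rw [← Units.val_pow_eq_pow_val, ← map_pow]
        rfl
      · intro u _
        obtain ⟨i, c, hic⟩ := hL v₀ hv₀ _ (loc v₀ (u : Eˣ)) (hn v₀ hv₀ w) (hn v₀ hv₀ u) hwn
        refine ⟨i, ?_⟩
        rw [mem_DD hp0]
        refine ⟨c, ?_⟩
        have e1 : loc v₀ ((u * (w ^ i)⁻¹ : GS S) : Eˣ) =
            loc v₀ (u : Eˣ) * (loc v₀ (w : Eˣ) ^ i)⁻¹ := by
          rw [← map_pow, ← map_inv, ← map_mul]
          rfl
        rw [e1, Units.val_mul, hic, Units.val_inv_eq_inv_val, Units.val_pow_eq_pow_val]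
        field_simp
    · intro x hx
      obtain ⟨u, hu⟩ := hTs x fun v hv => hx v (Finset.mem_insert_of_mem hv)
      have h1 : ‖(((x v₀ * (loc v₀ (u : Eˣ))⁻¹ : (kv v₀)ˣ) : kv v₀) :
          PadicAlgCl (chr v₀))‖ = 1 := by
        have e1 : (((x v₀ * (loc v₀ (u : Eˣ))⁻¹ : (kv v₀)ˣ) : kv v₀) : PadicAlgCl (chr v₀)) =
            (((x v₀ : (kv v₀)ˣ) : kv v₀) : PadicAlgCl (chr v₀)) *
              (((loc v₀ (u : Eˣ) : (kv v₀)ˣ) : kv v₀) : PadicAlgCl (chr v₀))⁻¹ := by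
          rw [Units.val_mul, Units.val_inv_eq_inv_val]
          rfl
        rw [e1, norm_mul, norm_inv, hx v₀ (Finset.mem_insert_self _ _), hn v₀ hv₀ u, inv_one,
          mul_one]
      obtain ⟨i, c, hic⟩ := hL v₀ hv₀ _ _ (hn v₀ hv₀ w) h1 hwn
      refine ⟨u * w ^ i, fun v hv => ?_⟩
      have e1 : (x v * (loc v ((u * w ^ i : GS S) : Eˣ))⁻¹ : (kv v)ˣ) =
          (x v * (loc v (u : Eˣ))⁻¹) * (loc v (w : Eˣ) ^ i)⁻¹ := by
        have e2 : loc v ((u * w ^ i : GS S) : Eˣ) = loc v (u : Eˣ) * loc v (w : Eˣ) ^ i := by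
          rw [← map_pow, ← map_mul]
          rfl
        rw [e2, mul_inv, mul_assoc]
      rw [e1]
      rcases Finset.mem_insert.1 hv with rfl | hv
      · refine ⟨c, ?_⟩
        rw [Units.val_mul, hic, Units.val_inv_eq_inv_val, Units.val_pow_eq_pow_val]
        field_simp
      · obtain ⟨b, hb⟩ := hu v hv
        obtain ⟨d, hd⟩ := (mem_DD hp0).1 (hmemQ.1 hwQ v hv)
        refine ⟨b * (d ^ i)⁻¹, ?_⟩
        rw [mul_pow, hb, inv_pow, ← pow_mul, mul_comm i p, pow_mul, hd]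
        conv_rhs => rw [Units.val_mul, Units.val_inv_eq_inv_val, Units.val_pow_eq_pow_val]

end Main

end FTAux

open FTAux in
/-- Module FT: the auxiliary primes. -/
theorem stFT (h1 : StFF) (h2 : StEA) (h3 : StEX) (h4 : StLD) (h5 : StPA) (h6 : StPB)
    (h7 : StSB) : StFT := by
  intro p hp hp2 E iE iN ζ hζ S hpS a ha hna
  have hpf : Fact p.Prime := ⟨hp⟩
  have hp0 : p ≠ 0 := hp.ne_zero
  set V : Set (HeightOneSpectrum (𝓞 E)) :=
    {v | v ∉ S ∧ IsPw p ((loc v a : (kv v)ˣ) : kv v)} with hV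
  set P : Subgroup (GS S) := ⨅ v ∈ V, DD p S v with hP
  have hPV : ∀ u, u ∈ P ↔ ∀ v ∈ V, u ∈ DD p S v := by
    intro u
    rw [hP, Subgroup.mem_iInf]
    refine forall_congr' fun v => ?_
    rw [Subgroup.mem_iInf]
  have hval : ∀ u : GS S, ∀ v ∉ S, v.valuation E ((u : Eˣ) : E) = 1 := fun u v hv => u.2 v hv
  have hkey : ∀ u ∈ P, ∃ (i : ℕ) (c : E), ((u : Eˣ) : E) = (a : E) ^ i * c ^ p := by
    intro u hu
    refine key h1 h2 h3 h4 h5 h6 hp hp2 hζ S hpS (hval ⟨a, ha⟩) hna (hval u) fun v hv hva => ?_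
    exact (mem_DD hp0).1 ((hPV u).1 hu v ⟨hv, hva⟩)
  -- the index of `P`
  obtain ⟨-, -, hidx, -⟩ := h7 p hp hp2 E ζ hζ S
  set R : Subgroup (GS S) := (powMonoidHom p : GS S →* GS S).range with hR
  have hRP : R ≤ P := by
    rintro _ ⟨x, rfl⟩
    rw [hPV]
    intro v _
    rw [mem_DD hp0]
    refine ⟨((loc v (x : Eˣ) : (kv v)ˣ) : kv v), ?_⟩
    rw [← Units.val_pow_eq_pow_val, ← map_pow]
    rfl
  have hPidx : R.index = p * P.index := by
    have e1 : R = R ⊓ P := (inf_eq_left.2 hRP).symm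
    conv_lhs => rw [e1]
    refine index_aux P R (w := ⟨a, ha⟩) ?_ ?_ ⟨_, rfl⟩ ?_
    · rw [hPV]
      intro v hv
      exact (mem_DD hp0).2 hv.2
    · rintro ⟨x, hx⟩
      refine hna ⟨((x : Eˣ) : E), ?_⟩
      rw [← Units.val_pow_eq_pow_val]
      exact congrArg (fun z : GS S => ((z : Eˣ) : E)) hx
    · intro u hu
      obtain ⟨i, c, hic⟩ := hkey u hu
      have hc0 : c ≠ 0 := by
        rintro rfl
        rw [zero_pow hp0, mul_zero] at hic
        exact (u : Eˣ).ne_zero hic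
      have e2 : (u : Eˣ) * (a ^ i)⁻¹ = (Units.mk0 c hc0) ^ p := by
        apply Units.ext
        rw [Units.val_mul, Units.val_inv_eq_inv_val, Units.val_pow_eq_pow_val,
          Units.val_pow_eq_pow_val, Units.val_mk0, hic]
        have ha0 : (a : E) ≠ 0 := a.ne_zero
        field_simp
      have hcS : Units.mk0 c hc0 ∈ GS S := by
        intro v hv
        apply val_eq_one_of_pow hp0
        rw [← e2]
        exact (mul_mem u.2 (inv_mem (pow_mem ha i)) : (u : Eˣ) * (a ^ i)⁻¹ ∈ GS S) v hv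
      exact ⟨i, ⟨Units.mk0 c hc0, hcS⟩, Subtype.ext e2.symm⟩
  rw [hidx] at hPidx
  have hs : 1 ≤ Module.finrank ℚ E / 2 + S.card := by
    by_contra hs
    have h0 : Module.finrank ℚ E / 2 + S.card = 0 := by omega
    rw [h0, pow_zero] at hPidx
    have := Nat.eq_one_of_mul_eq_one_right hPidx.symm
    exact hp.one_lt.ne' this
  obtain ⟨r, hr⟩ : ∃ r, Module.finrank ℚ E / 2 + S.card = r + 1 := ⟨_, (Nat.sub_add_cancel hs).symm⟩
  have hPr : P.index = p ^ r := by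
    rw [hr, pow_succ, mul_comm] at hPidx
    exact (Nat.eq_of_mul_eq_mul_left hp.pos hPidx).symm
  -- local facts
  have hchr : ∀ v ∈ V, chr v ≠ p := by
    intro v hv hlp
    refine hv.1 (hpS v ?_)
    have h := l_mem_plI (emb v)
    have h' : plI (emb v) = v.asIdeal := congrArg HeightOneSpectrum.asIdeal (pl_emb v)
    rw [h', hlp] at h
    exact h
  have hn : ∀ v ∈ V, ∀ u : GS S,
      ‖(((loc v (u : Eˣ) : (kv v)ˣ) : kv v) : PadicAlgCl (chr v))‖ = 1 := by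
    intro v hv u
    have h := (h6 E (chr v) (emb v)).2.1 (u : Eˣ)
    rw [pl_emb] at h
    exact h.2 (hval u v hv.1)
  have hL : ∀ v ∈ V, ∀ x y : (kv v)ˣ, ‖((x : kv v) : PadicAlgCl (chr v))‖ = 1 →
      ‖((y : kv v) : PadicAlgCl (chr v))‖ = 1 → ¬ IsPw p (x : kv v) →
      ∃ (i : ℕ) (c : kv v), (y : kv v) = (x : kv v) ^ i * c ^ p := by
    intro v hv
    have hfd : FiniteDimensional ℚ_[chr v] (kv v) := (h6 E (chr v) (emb v)).1
    exact (h4 p (chr v) (hchr v hv) (kv v) (toC (emb v) ζ)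
      (hζ.map_of_injective (toC (emb v)).injective)).2
  obtain ⟨T, hTV, hTr, hTi, hTs⟩ := choose S V P hPV hPr hn hL r le_rfl
  have hPQ : P ≤ ⨅ v ∈ T, DD p S v := by
    intro u hu
    rw [Subgroup.mem_iInf]
    intro v
    rw [Subgroup.mem_iInf]
    intro hv
    exact (hPV u).1 hu v (hTV v hv)
  have hQP : (⨅ v ∈ T, DD p S v) ≤ P := by
    have h := Subgroup.relIndex_mul_index hPQ
    rw [hTi, hPr] at h
    have h' : P.relIndex (⨅ v ∈ T, DD p S v) = 1 := by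
      have hpos : 0 < p ^ r := pow_pos hp.pos r
      exact Nat.eq_of_mul_eq_mul_right hpos (by rw [h, one_mul])
    exact Subgroup.relIndex_eq_one.1 h'
  refine ⟨T, ?_, ?_, fun v hv => (hTV v hv).2, ?_, ?_⟩
  · rw [Finset.disjoint_left]
    intro v hvS hvT
    exact (hTV v hvT).1 hvS
  · rw [hTr, hr]
  · intro u hu h
    refine hkey ⟨u, hu⟩ (hQP ?_)
    rw [Subgroup.mem_iInf]
    intro v
    rw [Subgroup.mem_iInf]
    intro hv
    exact (mem_DD hp0).2 (h v hv)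
  · intro x hx
    obtain ⟨u, hu⟩ := hTs x hx
    exact ⟨u, u.2, hu⟩

end BKGlob2
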