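import Pool.Agent.Lib.MP_7c08ba_nt.Met.GStmts
import Pool.Agent.Lib.MP_7c08ba_nt.ThR.Herb

/-!
Module HERB: the Herbrand quotient of a finitely generated abelian group with an automorphism of
prime order.
-/

set_option autoImplicit false

namespace BKGlob2

namespace HerbAux

open Subgroup BKGen BKGen.Herb Module

section Q

variable {M : Type} [CommGroup M]

theorem card_eq (H : Subgroup M) : (⊥ : Subgroup M).relIndex H = Nat.card H :=
  relIndex_bot_left H

/-- `[M : f M] / |ker f|` is multiplicative. -/
theorem q_mul (f g : M →* M) :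
    (f.comp g).range.index * (Nat.card f.ker * Nat.card g.ker) =
      f.range.index * g.range.index * Nat.card (f.comp g).ker := by
  have h1 : (f.comp g).range = g.range.map f := (MonoidHom.map_range f g).symm
  have h2 : (g.range.map f).relIndex f.range * f.range.index = (g.range.map f).index :=
    relIndex_mul_index (by rintro _ ⟨x, -, rfl⟩; exact ⟨x, rfl⟩)
  have h3 := index_eq f g.range
  have h4 : Nat.card (f.comp g).ker = Nat.card g.ker * Nat.card (g.range ⊓ f.ker : Subgroup M) := by
    have e := relIndex_eq g (bot_le : ⊥ ≤ (f.comp g).ker)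
    have e1 : (f.comp g).ker ⊓ g.ker = g.ker := by
      apply inf_eq_right.2
      intro x hx
      rw [MonoidHom.mem_ker] at hx ⊢
      rw [MonoidHom.comp_apply, hx, map_one]
    have e2 : (f.comp g).ker.map g = g.range ⊓ f.ker := by
      rw [← MonoidHom.comap_ker, Subgroup.map_comap_eq]
    rw [e1, e2, bot_inf_eq, Subgroup.map_bot, card_eq, card_eq, card_eq] at e
    exact e
  have h5 : Nat.card f.ker = Nat.card (g.range ⊓ f.ker : Subgroup M) *
      (g.range ⊓ f.ker).relIndex f.ker := by
    have e := relIndex_mul_relIndex ⊥ (g.range ⊓ f.ker) f.ker bot_le inf_le_right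
    rw [card_eq, card_eq] at e
    exact e.symm
  rw [h1, ← h2, h4, h3]
  conv_lhs => rw [h5]
  ring

/-- iterates -/
def itr (f : M →* M) : ℕ → (M →* M)
  | 0 => MonoidHom.id M
  | k + 1 => f.comp (itr f k)

theorem itr_apply (f : M →* M) (k : ℕ) (x : M) : itr f k x = (⇑f)^[k] x := by
  induction k with
  | zero => rfl
  | succ k ih =>
    rw [Function.iterate_succ_apply', ← ih]
    rfl

theorem q_itr (f : M →* M) (hf : Nat.card f.ker ≠ 0) (k : ℕ) :
    (itr f k).range.index * Nat.card f.ker ^ k = f.range.index ^ k * Nat.card (itr f k).ker ∧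
      Nat.card (itr f k).ker ≠ 0 := by
  induction k with
  | zero =>
    have h1 : (itr f 0).range = ⊤ := by
      rw [MonoidHom.range_eq_top]
      exact fun x => ⟨x, rfl⟩
    have h2 : (itr f 0).ker = ⊥ := by
      rw [MonoidHom.ker_eq_bot_iff]
      exact fun x y h => h
    rw [h1, h2]
    simp
  | succ k ih =>
    obtain ⟨ih1, ih2⟩ := ih
    have h1 := q_mul f (itr f k)
    have h2 : Nat.card (itr f (k + 1)).ker ≠ 0 := by
      have e := relIndex_eq (itr f k) (bot_le : ⊥ ≤ (itr f (k + 1)).ker)
      have e1 : (itr f (k + 1)).ker ⊓ (itr f k).ker = (itr f k).ker := by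
        apply inf_eq_right.2
        intro x hx
        rw [MonoidHom.mem_ker] at hx ⊢
        change f (itr f k x) = 1
        rw [hx, map_one]
      rw [e1, bot_inf_eq, Subgroup.map_bot, card_eq, card_eq, card_eq] at e
      rw [e]
      refine mul_ne_zero ih2 ?_
      have hfin : Finite f.ker := Nat.finite_of_card_ne_zero hf
      have hle : (itr f (k + 1)).ker.map (itr f k) ≤ f.ker := by
        rintro _ ⟨x, hx, rfl⟩
        exact hx
      have : Finite ((itr f (k + 1)).ker.map (itr f k) : Subgroup M) :=
        Finite.of_injective _ (Subgroup.inclusion_injective hle)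
      exact Nat.card_pos.ne'
    refine ⟨?_, h2⟩
    have h3 : (itr f (k + 1)).range.index * (Nat.card f.ker * Nat.card (itr f k).ker) =
      f.range.index * (itr f k).range.index * Nat.card (itr f (k + 1)).ker := h1
    apply Nat.eq_of_mul_eq_mul_right (Nat.pos_of_ne_zero ih2)
    calc (itr f (k + 1)).range.index * Nat.card f.ker ^ (k + 1) * Nat.card (itr f k).ker
        = ((itr f (k + 1)).range.index * (Nat.card f.ker * Nat.card (itr f k).ker)) *
            Nat.card f.ker ^ k := by ring
      _ = f.range.index * ((itr f k).range.index * Nat.card f.ker ^ k) *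
            Nat.card (itr f (k + 1)).ker := by rw [h3]; ring
      _ = _ := by rw [ih1]; ring

end Q

section Poly

open Polynomial

theorem poly_G (p : ℕ) [Fact p.Prime] : ∃ G H : ℤ[X],
    ((X : ℤ[X]) - 1) ^ (p - 1) = (∑ i ∈ Finset.range p, X ^ i) + C (p : ℤ) * G ∧
    G = -1 + (X - 1) * H := by
  have hp : p.Prime := Fact.out
  have h1 : C (p : ℤ) ∣ ((X : ℤ[X]) - 1) ^ (p - 1) - ∑ i ∈ Finset.range p, X ^ i := by
    rw [C_dvd_iff_dvd_coeff]
    intro i
    rw [← ZMod.intCast_zmod_eq_zero_iff_dvd]
    have h2 := BKThR.HerbAux.poly_id p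
    have h3 : (((X : ℤ[X]) - 1) ^ (p - 1) - ∑ i ∈ Finset.range p, X ^ i).map
        (Int.castRingHom (ZMod p)) = 0 := by
      rw [Polynomial.map_sub, Polynomial.map_pow, Polynomial.map_sub, Polynomial.map_one,
        Polynomial.map_X, Polynomial.map_sum, h2]
      simp
    have h4 := congrArg (fun q => coeff q i) h3
    rw [coeff_map] at h4
    simpa using h4
  obtain ⟨G, hG⟩ := h1
  have h5 := Polynomial.X_sub_C_dvd_sub_C_eval (a := (1 : ℤ)) (p := G)
  obtain ⟨H, hH⟩ := h5
  refine ⟨G, H, ?_, ?_⟩
  · rw [← hG]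
    ring
  · have h6 : G.eval 1 = -1 := by
      have h7 := congrArg (Polynomial.eval 1) hG
      have h8 : p - 1 ≠ 0 := by
        have := hp.two_le
        omega
      simp only [eval_sub, eval_pow, eval_X, eval_one, sub_self, zero_pow h8, eval_finsetSum,
        one_pow, Finset.sum_const, Finset.card_range, nsmul_eq_mul, mul_one, eval_mul, eval_C,
        zero_sub] at h7
      have h9 : (p : ℤ) ≠ 0 := by exact_mod_cast hp.ne_zero
      apply mul_left_cancel₀ h9
      rw [← h7]
      ring
    rw [h6] at hH
    rw [C_1] at hH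
    rw [← hH]
    simp

end Poly

section Main

variable {M : Type} [CommGroup M]

theorem exists_gh (p : ℕ) [Fact p.Prime] (σ : M →* M) (hN : ∀ x, Herb.Nm σ p x = 1) :
    ∃ g h : M →* M, (∀ x, (⇑(Dm σ))^[p - 1] x = g x ^ p) ∧ (∀ x, g x = x⁻¹ * Dm σ (h x)) ∧
      (∀ x, h (Dm σ x) = Dm σ (h x)) ∧ ∀ x, g (Dm σ x) = Dm σ (g x) := by
  obtain ⟨G, H, h1, h2⟩ := poly_G p
  let s : AddMonoid.End (Additive M) := MonoidHom.toAdditive σ
  have hs : ∀ (n : ℕ) (x : M), (s ^ n) (Additive.ofMul x) = Additive.ofMul ((⇑σ)^[n] x) := by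
    intro n
    induction n with
    | zero => intro x; rfl
    | succ n ih =>
      intro x
      rw [pow_succ', Function.iterate_succ_apply']
      change s ((s ^ n) (Additive.ofMul x)) = _
      rw [ih]
      rfl
  have hd : ∀ (n : ℕ) (x : M), ((s - 1) ^ n) (Additive.ofMul x) =
      Additive.ofMul ((⇑(Dm σ))^[n] x) := by
    intro n
    induction n with
    | zero => intro x; rfl
    | succ n ih =>
      intro x
      rw [pow_succ', Function.iterate_succ_apply']
      change (s - 1) (((s - 1) ^ n) (Additive.ofMul x)) = _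
      rw [ih]
      rfl
  let g : M →* M := MonoidHom.toAdditive.symm (Polynomial.aeval s G : AddMonoid.End (Additive M))
  let h : M →* M := MonoidHom.toAdditive.symm (Polynomial.aeval s H : AddMonoid.End (Additive M))
  have hg : ∀ x, (Polynomial.aeval s G : AddMonoid.End (Additive M)) (Additive.ofMul x) =
      Additive.ofMul (g x) := fun x => rfl
  have hh : ∀ x, (Polynomial.aeval s H : AddMonoid.End (Additive M)) (Additive.ofMul x) =
      Additive.ofMul (h x) := fun x => rfl
  have hX : (Polynomial.aeval s (Polynomial.X - 1 : Polynomial ℤ) :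
      AddMonoid.End (Additive M)) = s - 1 := by simp
  have hcomm : ∀ q : Polynomial ℤ, (Polynomial.aeval s q : AddMonoid.End (Additive M)) * (s - 1) =
      (s - 1) * Polynomial.aeval s q := by
    intro q
    rw [← hX, ← map_mul, ← map_mul, mul_comm]
  have hd1 : ∀ x : M, (s - 1) (Additive.ofMul x) = Additive.ofMul (Dm σ x) := fun x => rfl
  refine ⟨g, h, ?_, ?_, ?_, ?_⟩
  · intro x
    have e := congrArg (fun q => (Polynomial.aeval s q : AddMonoid.End (Additive M))
      (Additive.ofMul x)) h1
    simp only [map_pow, hX, map_add, map_mul, map_sum, Polynomial.aeval_X] at e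
    rw [hd] at e
    have e1 : (∑ i ∈ Finset.range p, s ^ i : AddMonoid.End (Additive M)) (Additive.ofMul x) = 0 := by
      have e2 : (∑ i ∈ Finset.range p, s ^ i : AddMonoid.End (Additive M)) (Additive.ofMul x) =
          ∑ i ∈ Finset.range p, (s ^ i) (Additive.ofMul x) :=
        AddMonoidHom.finsetSum_apply _ _ _
      rw [e2, Finset.sum_congr rfl fun i _ => hs i x, ← ofMul_prod, ← Nm_apply, hN]
      rfl
    apply Additive.ofMul.injective
    rw [e]
    change (∑ i ∈ Finset.range p, s ^ i : AddMonoid.End (Additive M)) (Additive.ofMul x) +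
      (Polynomial.aeval s (Polynomial.C (p : ℤ)) : AddMonoid.End (Additive M))
        ((Polynomial.aeval s G : AddMonoid.End (Additive M)) (Additive.ofMul x)) = _
    rw [e1, zero_add, hg, Polynomial.aeval_C, ofMul_pow]
    simp
  · intro x
    have e := congrArg (fun q => (Polynomial.aeval s q : AddMonoid.End (Additive M))
      (Additive.ofMul x)) h2
    simp only [map_add, map_mul, hX, map_neg, map_one] at e
    apply Additive.ofMul.injective
    rw [← hg, e]
    rfl
  · intro x
    have e := congrArg (fun q : AddMonoid.End (Additive M) => q (Additive.ofMul x)) (hcomm H)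
    exact Additive.ofMul.injective e
  · intro x
    have e := congrArg (fun q : AddMonoid.End (Additive M) => q (Additive.ofMul x)) (hcomm G)
    exact Additive.ofMul.injective e

/-- the elements killed by `p` in a finitely generated group are finite in number -/
theorem finite_tors [Module.Finite ℤ (Additive M)] (p : ℕ) (hp : p ≠ 0) :
    Finite (powMonoidHom p : M →* M).ker := by
  have h1 : Module.Finite ℤ (Submodule.torsion ℤ (Additive M)) := inferInstance
  have h2 : Finite (Submodule.torsion ℤ (Additive M)) :=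
    Module.finite_of_fg_torsion _ Submodule.torsion_isTorsion
  have hmem : ∀ x : (powMonoidHom p : M →* M).ker,
      Additive.ofMul (x : M) ∈ Submodule.torsion ℤ (Additive M) := by
    intro x
    have hx : (x : M) ^ p = 1 := x.2
    rw [Submodule.mem_torsion_iff]
    refine ⟨⟨(p : ℤ), ?_⟩, ?_⟩
    · rw [mem_nonZeroDivisors_iff_ne_zero]
      exact_mod_cast hp
    · change (p : ℤ) • Additive.ofMul (x : M) = 0
      rw [natCast_zsmul, ← ofMul_pow, hx]
      rfl
  apply Finite.of_injective (fun x : (powMonoidHom p : M →* M).ker =>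
    (⟨Additive.ofMul (x : M), hmem x⟩ : Submodule.torsion ℤ (Additive M)))
  intro x y hxy
  have := congrArg Subtype.val hxy
  exact Subtype.ext (Additive.ofMul.injective this)

/-- the number of classes modulo `p`-th powers -/
theorem index_pow [Module.Finite ℤ (Additive M)] (p : ℕ) (hp : p ≠ 0) :
    (powMonoidHom p : M →* M).range.index =
      p ^ finrank ℤ (Additive M) * Nat.card (powMonoidHom p : M →* M).ker := by
  have h := SUnits.index_pR p hp (Additive M)
  have h1 : (SUnits.pR p (Additive M)).index = (powMonoidHom p : M →* M).range.index := rfl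
  have h2 : Nat.card {x : Additive M // p • x = 0} = Nat.card (powMonoidHom p : M →* M).ker := rfl
  rw [h1, h2] at h
  exact h

/-- The case of trivial norm. -/
theorem cyc [Module.Finite ℤ (Additive M)] (p : ℕ) (hp : p.Prime) (σ : M →* M)
    (hN : ∀ x, Herb.Nm σ p x = 1) :
    ∃ b : ℕ, finrank ℤ (Additive M) = (p - 1) * b ∧
      (Dm σ).range.index = p ^ b * Nat.card (Dm σ).ker ∧ Nat.card (Dm σ).ker ≠ 0 := by
  have : Fact p.Prime := ⟨hp⟩
  obtain ⟨g, h, e1, e2, e3, e4⟩ := exists_gh p σ hN
  set P : M →* M := powMonoidHom p with hP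
  set D : M →* M := Dm σ with hD
  have hPfin : Finite P.ker := finite_tors p hp.ne_zero
  -- the kernel of `D`
  have hDP : ∀ x ∈ D.ker, x ^ p = 1 := by
    intro x hx
    have h1 : σ x = x := mem_ker_Dm.1 hx
    rw [← Nm_of_fix (n := p) h1, hN]
  have hDle : D.ker ≤ P.ker := fun x hx => hDP x hx
  have hDfin : Finite D.ker := Finite.of_injective _ (Subgroup.inclusion_injective hDle)
  have hDcard : Nat.card D.ker ≠ 0 := Nat.card_pos.ne'
  have hPcard : Nat.card P.ker ≠ 0 := Nat.card_pos.ne'
  obtain ⟨v, hv⟩ : ∃ v, Nat.card D.ker = p ^ v := by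
    apply IsPGroup.iff_card.1
    intro x
    refine ⟨1, ?_⟩
    rw [pow_one]
    exact Subtype.ext (hDP x x.2)
  -- the range of `D`
  have hPidx := index_pow (M := M) p hp.ne_zero
  rw [← hP] at hPidx
  have hPne : P.range.index ≠ 0 := by
    rw [hPidx]
    exact mul_ne_zero (pow_pos hp.pos _).ne' hPcard
  have hPD : P.range ≤ D.range := by
    rintro _ ⟨x, rfl⟩
    obtain ⟨z, -, hz⟩ := pow_eq (σ := σ) (⊤ : Subgroup M) (fun _ _ => mem_top _) (mem_top x) p
    rw [← Herb.Nm_apply, hN, one_mul] at hz
    exact ⟨z, hz.symm⟩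
  have hDne : D.range.index ≠ 0 := by
    intro h0
    have := index_dvd_of_le hPD
    rw [h0] at this
    exact hPne (zero_dvd_iff.1 this)
  obtain ⟨u, hu⟩ : ∃ u, D.range.index = p ^ u := by
    have hfin : Finite (M ⧸ D.range) := index_ne_zero_iff_finite.1 hDne
    have h1 := (IsPGroup.iff_card (p := p) (G := M ⧸ D.range)).1 (by
      intro x
      obtain ⟨y, rfl⟩ := QuotientGroup.mk_surjective x
      refine ⟨1, ?_⟩
      rw [pow_one, ← QuotientGroup.mk_pow]
      exact (QuotientGroup.eq_one_iff _).2 (hPD ⟨y, rfl⟩))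
    obtain ⟨u, hu⟩ := h1
    exact ⟨u, by rw [← hu]; exact index_eq_card _⟩
  -- `g` is bijective
  have hgs : g.range = ⊤ := by
    have h1 : ∀ (k : ℕ) (x : M), ∃ y z, x = g y * (⇑D)^[k] z := by
      intro k
      induction k with
      | zero => intro x; exact ⟨1, x, by simp⟩
      | succ k ih =>
        intro x
        obtain ⟨y, z, hyz⟩ := ih x
        have h2 : z = (g z)⁻¹ * D (h z) := by
          rw [e2 z, mul_inv_rev, inv_inv]
          have := inv_mul_cancel_left (D (h z)) z
          rw [mul_comm (D (h z))⁻¹ z, mul_assoc, inv_mul_cancel, mul_one]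
        have h3 : ∀ (n : ℕ) (w : M), (⇑D)^[n] (g w) = g ((⇑D)^[n] w) := by
          intro n
          induction n with
          | zero => intro w; rfl
          | succ n ihn =>
            intro w
            rw [Function.iterate_succ_apply', Function.iterate_succ_apply', ihn, e4]
        refine ⟨y * ((⇑D)^[k] z)⁻¹, h z, ?_⟩
        rw [Function.iterate_succ_apply]
        conv_lhs => rw [hyz, h2]
        rw [iterate_map_mul, iterate_map_inv, h3, map_mul, map_inv, mul_assoc]
    rw [MonoidHom.range_eq_top]
    intro x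
    obtain ⟨y, z, hyz⟩ := h1 (p - 1) x
    refine ⟨y * z ^ p, ?_⟩
    rw [hyz, e1, map_mul, map_pow]
  have hgi : g.ker = ⊥ := by
    rw [eq_bot_iff]
    intro x hx
    rw [MonoidHom.mem_ker] at hx
    have h1 : x = D (h x) := by
      have := e2 x
      rw [hx] at this
      exact (inv_mul_eq_one.1 this.symm)
    have h2 : ∀ (n : ℕ), x = (⇑h)^[n] ((⇑D)^[n] x) := by
      intro n
      have h3 : ∀ (n : ℕ) (w : M), h ((⇑D)^[n] w) = (⇑D)^[n] (h w) := by
        intro n
        induction n with
        | zero => intro w; rfl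
        | succ n ihn =>
          intro w
          rw [Function.iterate_succ_apply', Function.iterate_succ_apply', e3, ihn]
      induction n with
      | zero => rfl
      | succ n ih =>
        rw [Function.iterate_succ_apply, h3, Function.iterate_succ_apply, ← h1]
        exact ih
    have h4 := h2 (p - 1)
    rw [e1, hx, one_pow, iterate_map_one] at h4
    exact mem_bot.2 h4
  -- counting
  have hfac : itr D (p - 1) = P.comp g := by
    ext x
    rw [itr_apply, e1]
    rfl
  have c1 := q_mul P g
  have c2 := q_itr D hDcard (p - 1)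
  rw [hfac] at c2
  rw [hgs, hgi, index_top, card_bot, mul_one, mul_one] at c1
  obtain ⟨c2, c3⟩ := c2
  -- `[M : D M] ^ (p - 1) = p ^ m * |ker D| ^ (p - 1)`
  have c4 : D.range.index ^ (p - 1) = p ^ finrank ℤ (Additive M) * Nat.card D.ker ^ (p - 1) := by
    apply Nat.eq_of_mul_eq_mul_right (Nat.pos_of_ne_zero (mul_ne_zero hPcard c3))
    calc D.range.index ^ (p - 1) * (Nat.card P.ker * Nat.card (P.comp g).ker)
        = (D.range.index ^ (p - 1) * Nat.card (P.comp g).ker) * Nat.card P.ker := by ring
      _ = ((P.comp g).range.index * Nat.card P.ker) * Nat.card D.ker ^ (p - 1) := by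
          rw [← c2]; ring
      _ = _ := by rw [c1, hPidx]; ring
  rw [hu, hv, ← pow_mul, ← pow_mul, ← pow_add] at c4
  have c5 := Nat.pow_right_injective hp.two_le c4
  have hp1 : 0 < p - 1 := by
    have := hp.two_le
    omega
  have huv : v ≤ u := by
    apply Nat.le_of_mul_le_mul_right _ hp1
    omega
  obtain ⟨b, rfl⟩ := Nat.exists_eq_add_of_le huv
  refine ⟨b, ?_, ?_, hDcard⟩
  · rw [add_mul] at c5
    rw [mul_comm (p - 1) b]
    omega
  · rw [hu, hv, ← pow_add, add_comm]

end Main

section Rank

/-- finite-index-like comparison of ranks -/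
theorem finrank_eq {V : Type} [AddCommGroup V] [Module.Finite ℤ V] (P Q : Submodule ℤ V)
    (h : P ≤ Q) (n : ℕ) (hn : n ≠ 0) (hQ : ∀ x ∈ Q, n • x ∈ P) : finrank ℤ P = finrank ℤ Q := by
  let P' : Submodule ℤ Q := Submodule.comap (Submodule.subtype Q) P
  have h1 := P'.finrank_quotient_add_finrank
  have h2 : Module.IsTorsion ℤ (Q ⧸ P') := by
    intro x
    obtain ⟨y, rfl⟩ := Submodule.Quotient.mk_surjective _ x
    refine ⟨⟨(n : ℤ), ?_⟩, ?_⟩
    · rw [mem_nonZeroDivisors_iff_ne_zero]
      exact_mod_cast hn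
    · change (n : ℤ) • (Submodule.Quotient.mk y : Q ⧸ P') = 0
      rw [← Submodule.Quotient.mk_smul, Submodule.Quotient.mk_eq_zero]
      change (n : ℤ) • (y : V) ∈ P
      rw [natCast_zsmul]
      exact hQ y y.2
  rw [h2.finrank_eq_zero, zero_add] at h1
  rw [← h1]
  exact (LinearEquiv.finrank_eq (Submodule.comapSubtypeEquivOfLe h)).symm

end Rank

end HerbAux

open HerbAux BKGen BKGen.Herb Subgroup Module in
theorem stHerb : StHerb := by
  intro A _ _ p hp σ hσ A₀ hA₀
  have hA₀' : A₀ = (Dm σ).ker := by
    ext x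
    rw [hA₀, mem_ker_Dm]
  subst hA₀'
  set D : A →* A := Dm σ with hD
  set N : A →* A := Herb.Nm σ p with hN
  have hNA : IsNoetherian ℤ (Additive A) := inferInstance
  -- the kernel of the norm
  have hst : ∀ x ∈ N.ker, σ x ∈ N.ker := by
    intro x hx
    rw [MonoidHom.mem_ker] at hx ⊢
    rw [hN, Herb.Nm_map hσ]
    exact hx
  let σK : N.ker →* N.ker := (σ.comp N.ker.subtype).codRestrict N.ker fun x => hst x x.2
  have hσK : ∀ x : N.ker, ((σK x : N.ker) : A) = σ x := fun x => rfl
  have hσKi : ∀ (n : ℕ) (x : N.ker), (((⇑σK)^[n] x : N.ker) : A) = (⇑σ)^[n] (x : A) := by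
    intro n
    induction n with
    | zero => intro x; rfl
    | succ n ih =>
      intro x
      rw [Function.iterate_succ_apply', Function.iterate_succ_apply', hσK, ih]
  have hNK : ∀ x, Herb.Nm σK p x = 1 := by
    intro x
    apply Subtype.ext
    rw [Herb.Nm_apply]
    have h1 : ((∏ i ∈ Finset.range p, (⇑σK)^[i] x : N.ker) : A) =
        ∏ i ∈ Finset.range p, (⇑σ)^[i] (x : A) := by
      rw [← Subgroup.coe_subtype, map_prod]
      exact Finset.prod_congr rfl fun i _ => hσKi i x
    rw [h1]
    exact x.2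
  let iK : Additive N.ker →ₗ[ℤ] Additive A :=
    (MonoidHom.toAdditive N.ker.subtype).toIntLinearMap
  have hiK : Function.Injective iK := fun x y h => Subtype.ext h
  have hKf : Module.Finite ℤ (Additive N.ker) := Module.Finite.of_injective iK hiK
  let iD : Additive D.ker →ₗ[ℤ] Additive A :=
    (MonoidHom.toAdditive D.ker.subtype).toIntLinearMap
  have hiD : Function.Injective iD := fun x y h => Subtype.ext h
  have hDf : Module.Finite ℤ (Additive D.ker) := Module.Finite.of_injective iD hiD
  obtain ⟨b, hb1, hb2, hb3⟩ := cyc p hp σK hNK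
  refine ⟨b, ?_, ?_⟩
  · -- the ranks
    let L : Additive A →ₗ[ℤ] Additive A := (MonoidHom.toAdditive D).toIntLinearMap
    have r1 := (LinearMap.ker L).finrank_quotient_add_finrank
    rw [(LinearMap.quotKerEquivRange L).finrank_eq] at r1
    have r2 : finrank ℤ (LinearMap.ker L) = finrank ℤ (Additive D.ker) := by
      have e : LinearMap.range iD = LinearMap.ker L := by
        ext x
        rw [LinearMap.mem_range, LinearMap.mem_ker]
        constructor
        · rintro ⟨y, rfl⟩
          exact (Additive.toMul y).2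
        · intro hx
          exact ⟨Additive.ofMul (⟨Additive.toMul x, hx⟩ : D.ker), rfl⟩
      rw [← e]
      exact LinearMap.finrank_range_of_inj hiD
    have r3 : finrank ℤ (LinearMap.range iK) = finrank ℤ (Additive N.ker) :=
      LinearMap.finrank_range_of_inj hiK
    have r4 : finrank ℤ (LinearMap.range L) = finrank ℤ (LinearMap.range iK) := by
      apply finrank_eq _ _ _ p hp.ne_zero
      · rintro _ ⟨y, rfl⟩
        obtain ⟨z, -, hz⟩ := pow_eq (σ := σ) (⊤ : Subgroup A) (fun _ _ => mem_top _)
          (mem_top ((Additive.toMul y : N.ker) : A)) p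
        have h2 : ∏ i ∈ Finset.range p, (⇑σ)^[i] ((Additive.toMul y : N.ker) : A) = 1 :=
          (Additive.toMul y : N.ker).2
        rw [h2, one_mul] at hz
        exact ⟨Additive.ofMul z, hz.symm⟩
      · rintro _ ⟨y, rfl⟩
        exact ⟨Additive.ofMul (⟨D (Additive.toMul y), Herb.Nm_Dm hσ _⟩ : N.ker), rfl⟩
    rw [← r1, r2, r4, r3, hb1, add_comm]
  · -- the indices
    set c := Nat.card (N.ker ⊓ D.ker : Subgroup A) with hc
    have k1 : (N.ker.map D).relIndex N.ker = p ^ b * c := by
      have e1 : (N.ker.map D).subgroupOf N.ker = (Dm σK).range := by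
        ext x
        rw [mem_subgroupOf]
        constructor
        · rintro ⟨z, hz, hzx⟩
          exact ⟨⟨z, hz⟩, Subtype.ext hzx⟩
        · rintro ⟨z, rfl⟩
          exact ⟨z, z.2, rfl⟩
      have e2 : Nat.card (Dm σK).ker = c := by
        apply Nat.card_congr
        refine ⟨fun x => ⟨((x : N.ker) : A), (x : N.ker).2, ?_⟩, fun x => ⟨⟨x, x.2.1⟩, ?_⟩,
          fun x => rfl, fun x => rfl⟩
        · have := x.2
          exact congrArg Subtype.val this
        · exact Subtype.ext x.2.2
      rw [Subgroup.relIndex, e1, hb2, e2]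
    have k1' : c ≠ 0 := by
      have e2 : Nat.card (Dm σK).ker = c := by
        apply Nat.card_congr
        refine ⟨fun x => ⟨((x : N.ker) : A), (x : N.ker).2, ?_⟩, fun x => ⟨⟨x, x.2.1⟩, ?_⟩,
          fun x => rfl, fun x => rfl⟩
        · have := x.2
          exact congrArg Subtype.val this
        · exact Subtype.ext x.2.2
      rw [← e2]
      exact hb3
    have hNfix : ∀ x ∈ D.ker, N x = x ^ p := fun x hx => Herb.Nm_of_fix (mem_ker_Dm.1 hx)
    have k2 : (D.ker.map N).relIndex D.ker = p ^ finrank ℤ (Additive D.ker) * c := by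
      have e1 : (D.ker.map N).subgroupOf D.ker = (powMonoidHom p : D.ker →* D.ker).range := by
        ext x
        rw [mem_subgroupOf]
        constructor
        · rintro ⟨z, hz, hzx⟩
          refine ⟨⟨z, hz⟩, Subtype.ext ?_⟩
          rw [← hzx, hNfix z hz]
          rfl
        · rintro ⟨z, rfl⟩
          exact ⟨z, z.2, hNfix z z.2⟩
      have e2 : Nat.card (powMonoidHom p : D.ker →* D.ker).ker = c := by
        apply Nat.card_congr
        refine ⟨fun x => ⟨((x : D.ker) : A), ?_, (x : D.ker).2⟩, fun x => ⟨⟨x, x.2.2⟩, ?_⟩,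
          fun x => rfl, fun x => rfl⟩
        · have h1 : ((x : D.ker) : A) ^ p = 1 := congrArg Subtype.val x.2
          change N _ = 1
          rw [hNfix _ (x : D.ker).2, h1]
        · have h1 : N (x : A) = 1 := x.2.1
          rw [hNfix _ x.2.2] at h1
          exact Subtype.ext h1
      rw [Subgroup.relIndex, e1, index_pow p hp.ne_zero, e2]
    have hDN : D.range ≤ N.ker := by
      rintro _ ⟨x, rfl⟩
      exact Herb.Nm_Dm hσ x
    have hND : N.range ≤ D.ker := by
      rintro _ ⟨x, rfl⟩
      exact Herb.Dm_Nm hσ x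
    have k3 : (N.ker.map D).relIndex D.range * D.range.relIndex N.ker =
        (N.ker.map D).relIndex N.ker :=
      relIndex_mul_relIndex _ _ _ (by rintro _ ⟨x, -, rfl⟩; exact ⟨x, rfl⟩) hDN
    have k4 : (D.ker.map N).relIndex N.range * N.range.relIndex D.ker =
        (D.ker.map N).relIndex D.ker :=
      relIndex_mul_relIndex _ _ _ (by rintro _ ⟨x, -, rfl⟩; exact ⟨x, rfl⟩) hND
    have k5 : (N.ker.map D).relIndex D.range = (N.ker ⊔ D.ker).index := by
      rw [MonoidHom.range_eq_map, relIndex_map_map, top_sup_eq, relIndex_top_right]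
    have k6 : (D.ker.map N).relIndex N.range = (N.ker ⊔ D.ker).index := by
      rw [MonoidHom.range_eq_map, relIndex_map_map, top_sup_eq, relIndex_top_right, sup_comm]
    rw [k5, k1] at k3
    rw [k6, k2] at k4
    set i := (N.ker ⊔ D.ker).index with hi
    have hne : i * D.range.relIndex N.ker ≠ 0 := by
      rw [k3]
      exact mul_ne_zero (pow_pos hp.pos _).ne' k1'
    have hi0 : i ≠ 0 := left_ne_zero_of_mul hne
    refine ⟨?_, right_ne_zero_of_mul hne⟩
    apply Nat.eq_of_mul_eq_mul_left (Nat.pos_of_ne_zero hi0)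
    calc i * (N.range.relIndex D.ker * p ^ b)
        = (i * N.range.relIndex D.ker) * p ^ b := by ring
      _ = p ^ finrank ℤ (Additive D.ker) * (p ^ b * c) := by rw [k4]; ring
      _ = p ^ finrank ℤ (Additive D.ker) * (i * D.range.relIndex N.ker) := by rw [k3]
      _ = _ := by ring

end BKGlob2
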