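import Pool.Agent.Lib.MP_7c08ba_nt.Met.GStmts
import Pool.Agent.Lib.MP_7c08ba_nt.Gen.LocalCount

set_option autoImplicit false

/-!
Module LA: the number of classes modulo `p`-th powers in a finite extension of `ℚ_l` which contains
the `p`-th roots of unity.
-/

noncomputable section

namespace BKGlob2

open NumberField IsDedekindDomain Polynomial BKGen BKGen.SUnits

namespace LAx

open BKGen.LocalCount Module

section

variable (l : ℕ) [hl : Fact l.Prime] (E : Type*) [NormedField E] [IsUltrametricDist E]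
variable (p : ℕ) [hp : Fact p.Prime]

omit hp in
/-- the power map is a similarity near one -/
theorem pow_diff' {x y : E} (hx : ‖x - 1‖ ≤ (l : ℝ)⁻¹ ^ 2) (hy : ‖y - 1‖ ≤ (l : ℝ)⁻¹ ^ 2) :
    ‖x ^ p - y ^ p - (p : E) * (x - y)‖ ≤ (l : ℝ)⁻¹ ^ 2 * ‖x - y‖ := by
  have hx1 : ‖x‖ = 1 := norm_eq_one_of_sub (lt_of_le_of_lt hx (radius_lt_one l 1))
  have hy1 : ‖y‖ = 1 := norm_eq_one_of_sub (lt_of_le_of_lt hy (radius_lt_one l 1))
  have hx0 : x ≠ 0 := by intro h; rw [h, norm_zero] at hx1; exact zero_ne_one hx1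
  have hy0 : y ≠ 0 := by intro h; rw [h, norm_zero] at hy1; exact zero_ne_one hy1
  have h1 : x ^ p - y ^ p - (p : E) * (x - y) =
      (∑ i ∈ Finset.range p, (x ^ i * y ^ (p - 1 - i) - 1)) * (x - y) := by
    rw [Finset.sum_sub_distrib, sub_mul, geom_sum₂_mul]
    simp
  rw [h1, norm_mul]
  gcongr
  apply IsUltrametricDist.norm_sum_le_of_forall_le_of_nonneg (by positivity)
  intro i _
  have hxU : Units.mk0 x hx0 ∈ U l E 1 := hx
  have hyU : Units.mk0 y hy0 ∈ U l E 1 := hy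
  have h2 := (U l E 1).mul_mem ((U l E 1).pow_mem hxU i) ((U l E 1).pow_mem hyU (p - 1 - i))
  rw [mem_U] at h2
  simpa using h2

/-- the `p`-th power map on the units of norm one -/
noncomputable def pw : un E →* un E := powMonoidHom p

theorem range_subgroupOf' : (powMonoidHom p : Eˣ →* Eˣ).range.subgroupOf (un E) =
    (pw E p).range := by
  ext u
  rw [Subgroup.mem_subgroupOf]
  constructor
  · rintro ⟨y, hy⟩
    have hy' : y ^ p = (u : Eˣ) := hy
    have h1 : ‖((u : Eˣ) : E)‖ = 1 := (mem_un E _).mp u.2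
    rw [← hy', Units.val_pow_eq_pow_val, norm_pow] at h1
    have h2 : ‖(y : E)‖ = 1 := (pow_eq_one_iff_of_nonneg (norm_nonneg _) hp.out.ne_zero).mp h1
    refine ⟨⟨y, h2⟩, ?_⟩
    apply Subtype.ext
    exact hy'
  · rintro ⟨y, hy⟩
    exact ⟨y.1, congrArg Subtype.val hy⟩

omit [IsUltrametricDist E] in
theorem card_ker' : Nat.card (pw E p).ker = Nat.card (rootsOfUnity p E) := by
  apply Nat.card_congr
  refine ⟨fun u => ⟨u.1.1, ?_⟩, fun u => ⟨⟨u.1, ?_⟩, ?_⟩, fun u => rfl, fun u => rfl⟩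
  · rw [mem_rootsOfUnity]
    exact congrArg Subtype.val (show (u.1 : un E) ^ p = 1 from u.2)
  · have h1 : (u.1 : Eˣ) ^ p = 1 := (mem_rootsOfUnity _ _).mp u.2
    have h2 : ‖((u.1 : Eˣ) : E)‖ ^ p = 1 := by
      rw [← norm_pow, ← Units.val_pow_eq_pow_val, h1, Units.val_one, norm_one]
    exact (pow_eq_one_iff_of_nonneg (norm_nonneg _) hp.out.ne_zero).mp h2
  · rw [MonoidHom.mem_ker]
    apply Subtype.ext
    exact (mem_rootsOfUnity _ _).mp u.2

variable [NormedAlgebra ℚ_[l] E]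

omit [IsUltrametricDist E] in
variable {l p} in
theorem norm_p' (hlp : l ≠ p) : ‖(p : E)‖ = 1 := by
  have h : ((p : ℕ) : E) = algebraMap ℚ_[l] E (p : ℚ_[l]) := by simp
  rw [h, norm_algebraMap']
  rw [Padic.norm_natCast_eq_one_iff]
  exact (Nat.coprime_primes hl.out hp.out).2 hlp

variable {l p} in
theorem pow_inj' (hlp : l ≠ p) {u : Eˣ} (hu : u ∈ U l E 1) (h : u ^ p = 1) : u = 1 := by
  rw [mem_U] at hu
  have h0 : ‖(1 : E) - 1‖ ≤ (l : ℝ)⁻¹ ^ 2 := by rw [sub_self, norm_zero]; positivity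
  have h1 := pow_diff' l E p hu h0
  have h2 : (u : E) ^ p = 1 := by
    rw [← Units.val_pow_eq_pow_val, h, Units.val_one]
  rw [h2, one_pow, sub_self, zero_sub, norm_neg, norm_mul, norm_p' E hlp, one_mul] at h1
  have h3 : ‖(u : E) - 1‖ = 0 := by
    by_contra hne
    have hpos : 0 < ‖(u : E) - 1‖ := lt_of_le_of_ne (norm_nonneg _) (Ne.symm hne)
    have h5 : (l : ℝ)⁻¹ ^ 2 < 1 := radius_lt_one l 1
    nlinarith
  apply Units.ext
  rw [Units.val_one]
  exact sub_eq_zero.mp (norm_eq_zero.mp h3)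

variable [FiniteDimensional ℚ_[l] E]

variable {l p} in
theorem exists_pow' (hlp : l ≠ p) {v : Eˣ} (hv : v ∈ U l E 1) : ∃ u ∈ U l E 1, u ^ p = v := by
  rw [mem_U] at hv
  have hl0 : (0 : ℝ) < l := by exact_mod_cast hl.out.pos
  have hl1 : (1 : ℝ) < l := by exact_mod_cast hl.out.one_lt
  have hpn := norm_p' (l := l) E hlp
  have hpE : (p : E) ≠ 0 := by
    intro h
    rw [h, norm_zero] at hpn
    exact zero_ne_one hpn
  have : CompleteSpace E := FiniteDimensional.complete ℚ_[l] E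
  let s : Set E := {x | ‖x - 1‖ ≤ (l : ℝ)⁻¹ ^ 2}
  have hs : IsClosed s := isClosed_le (by fun_prop) continuous_const
  let f : E → E := fun x => x - (p : E)⁻¹ * (x ^ p - (v : E))
  have hf : ∀ x ∈ s, ∀ y ∈ s, ‖f x - f y‖ ≤ (l : ℝ)⁻¹ ^ 2 * ‖x - y‖ := by
    intro x hx y hy
    have h1 : f x - f y = -((p : E)⁻¹ * (x ^ p - y ^ p - (p : E) * (x - y))) := by
      change (x - (p : E)⁻¹ * (x ^ p - (v : E))) - (y - (p : E)⁻¹ * (y ^ p - (v : E))) = _
      have h2 : (p : E)⁻¹ * ((p : E) * (x - y)) = x - y := inv_mul_cancel_left₀ hpE _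
      rw [mul_sub (p : E)⁻¹ (x ^ p - y ^ p), h2]
      ring
    rw [h1, norm_neg, norm_mul, norm_inv, hpn, inv_one, one_mul]
    exact pow_diff' l E p hx hy
  have h1s : (1 : E) ∈ s := by
    change ‖(1 : E) - 1‖ ≤ _
    rw [sub_self, norm_zero]; positivity
  have hlt : (l : ℝ)⁻¹ ^ 2 < 1 := radius_lt_one l 1
  have hmaps : Set.MapsTo f s s := by
    intro x hx
    change ‖f x - 1‖ ≤ _
    have h2 : f x - 1 = (f x - f 1) + (f 1 - 1) := by ring
    rw [h2]
    refine (IsUltrametricDist.norm_add_le_max _ _).trans (max_le ?_ ?_)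
    · refine (hf x hx 1 h1s).trans ?_
      calc (l : ℝ)⁻¹ ^ 2 * ‖x - 1‖ ≤ 1 * (l : ℝ)⁻¹ ^ 2 := by
            gcongr
            exact hx
        _ = (l : ℝ)⁻¹ ^ 2 := one_mul _
    · have h3 : f 1 - 1 = (p : E)⁻¹ * ((v : E) - 1) := by
        change (1 - (p : E)⁻¹ * (1 ^ p - (v : E))) - 1 = _
        rw [one_pow]; ring
      rw [h3, norm_mul, norm_inv, hpn, inv_one, one_mul]
      exact hv
  have hKc : ((((l : NNReal)⁻¹) ^ 2 : NNReal) : ℝ) = (l : ℝ)⁻¹ ^ 2 := by simp
  have hK : (l : NNReal)⁻¹ ^ 2 < 1 := by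
    rw [← NNReal.coe_lt_coe, hKc, NNReal.coe_one]
    exact hlt
  have hcontr : ContractingWith ((l : NNReal)⁻¹ ^ 2) (hmaps.restrict f s s) := by
    refine ⟨hK, ?_⟩
    apply LipschitzWith.of_dist_le_mul
    intro x y
    rw [Subtype.dist_eq, Subtype.dist_eq, dist_eq_norm, dist_eq_norm, hKc]
    exact hf x.1 x.2 y.1 y.2
  obtain ⟨y, hys, hfix, -⟩ := ContractingWith.exists_fixedPoint' hs.isComplete hmaps hcontr h1s
    (edist_ne_top _ _)
  have hyv : y ^ p = (v : E) := by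
    have h2 : y - (p : E)⁻¹ * (y ^ p - (v : E)) = y := hfix
    have h3 : (p : E)⁻¹ * (y ^ p - (v : E)) = 0 := by
      have := sub_eq_self.mp h2
      exact this
    have h4 := (mul_eq_zero.mp h3).resolve_left (inv_ne_zero hpE)
    exact sub_eq_zero.mp h4
  have hy0 : y ≠ 0 := by
    intro h
    rw [h, zero_pow hp.out.ne_zero] at hyv
    exact v.ne_zero hyv.symm
  refine ⟨Units.mk0 y hy0, hys, ?_⟩
  apply Units.ext
  rw [Units.val_pow_eq_pow_val, Units.val_mk0, hyv]

variable {l p} in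
theorem index_pw' (hlp : l ≠ p) : (pw E p).range.index = Nat.card (pw E p).ker := by
  let H : Subgroup (un E) := (U l E 1).subgroupOf (un E)
  have hidx : idx l (ball E) = l ^ finrank ℚ_[l] E := idx_ball
  have hidx0 : idx l (ball E) ≠ 0 := by rw [hidx]; exact pow_ne_zero _ hl.out.ne_zero
  have hHidx : H.index ≠ 0 := relIndex_U_un l E hidx0
  have hmap : H.map (pw E p) = H := by
    ext v
    constructor
    · rintro ⟨u, hu, rfl⟩
      exact (U l E 1).pow_mem (Subgroup.mem_subgroupOf.mp hu) p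
    · intro hv
      obtain ⟨u, hu, huv⟩ := exists_pow' E hlp (Subgroup.mem_subgroupOf.mp hv)
      refine ⟨⟨u, U_le_un l E 1 hu⟩, hu, ?_⟩
      apply Subtype.ext
      exact huv
  have hinf : H ⊓ (pw E p).ker = ⊥ := by
    rw [eq_bot_iff]
    rintro u ⟨hu, huk⟩
    have h1 : (u : Eˣ) ^ p = 1 := by
      have : pw E p u = 1 := huk
      exact congrArg Subtype.val this
    rw [Subgroup.mem_bot]
    apply Subtype.ext
    exact pow_inj' E hlp hu h1
  have e2 := Subgroup.index_map H (pw E p)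
  have e3 : Nat.card (pw E p).ker * (H ⊔ (pw E p).ker).index = H.index := by
    rw [← Subgroup.relIndex_mul_index (le_sup_left : H ≤ H ⊔ (pw E p).ker)]
    congr 1
    rw [Subgroup.relIndex_sup_left, ← Subgroup.inf_relIndex_right, hinf,
      Subgroup.relIndex_bot_left]
  have hb : (H ⊔ (pw E p).ker).index ≠ 0 := by
    intro h
    rw [h, mul_zero] at e3
    exact hHidx e3.symm
  rw [hmap, ← e3] at e2
  apply Nat.eq_of_mul_eq_mul_left (Nat.pos_of_ne_zero hb)
  rw [← e2]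
  ring

include hl in
theorem index_sup' : ((powMonoidHom p : Eˣ →* Eˣ).range ⊔ un E).index = p := by
  have : NeZero p := ⟨hp.out.ne_zero⟩
  have e1 := Subgroup.index_map (powMonoidHom p : Eˣ →* Eˣ).range (val l E)
  have e2 := Subgroup.index_map (val l E).range (powMonoidHom p)
  have h1 : (powMonoidHom p : Eˣ →* Eˣ).range.map (val l E) =
      (val l E).range.map (powMonoidHom p) := by
    ext x
    constructor
    · rintro ⟨_, ⟨y, rfl⟩, rfl⟩
      refine ⟨val l E y, ⟨y, rfl⟩, ?_⟩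
      change (val l E y) ^ p = val l E (y ^ p)
      rw [map_pow]
    · rintro ⟨_, ⟨y, rfl⟩, rfl⟩
      refine ⟨y ^ p, ⟨y, rfl⟩, ?_⟩
      change val l E (y ^ p) = (val l E y) ^ p
      rw [map_pow]
  have h2 : (powMonoidHom p : Multiplicative ℤ →* Multiplicative ℤ).ker = ⊥ := by
    rw [eq_bot_iff]
    intro x hx
    have hx' : x ^ p = 1 := hx
    rw [Subgroup.mem_bot]
    apply Multiplicative.toAdd.injective
    have h3 : Multiplicative.toAdd (x ^ p) = 0 := by rw [hx']; rfl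
    rw [toAdd_pow, smul_eq_zero] at h3
    rcases h3 with h3 | h3
    · exact absurd h3 hp.out.ne_zero
    · rw [h3]; rfl
  rw [h1] at e1
  rw [h2, sup_bot_eq, pow_int_range, e1, val_ker, mul_comm] at e2
  exact Nat.eq_of_mul_eq_mul_left (Nat.pos_of_ne_zero (val_range_index l E)) e2

variable {l p} in
/-- the case `l ≠ p` -/
theorem index_range' (hlp : l ≠ p) {ζ : E} (hζ : IsPrimitiveRoot ζ p) :
    (powMonoidHom p : Eˣ →* Eˣ).range.index = p ^ 2 := by
  have : NeZero p := ⟨hp.out.ne_zero⟩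
  rw [← Subgroup.relIndex_mul_index
    (le_sup_left : (powMonoidHom p : Eˣ →* Eˣ).range ≤ (powMonoidHom p : Eˣ →* Eˣ).range ⊔ un E),
    Subgroup.relIndex_sup_left, index_sup' l E p]
  have h1 : (powMonoidHom p : Eˣ →* Eˣ).range.relIndex (un E) = (pw E p).range.index := by
    rw [Subgroup.relIndex, range_subgroupOf']
  rw [h1, index_pw' E hlp, card_ker', hζ.card_rootsOfUnity]
  ring

variable {l p} in
/-- units modulo `p`-th powers, the case `l ≠ p` -/
theorem index_pw_units (hlp : l ≠ p) {ζ : E} (hζ : IsPrimitiveRoot ζ p) :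
    (pw E p).range.index = p := by
  have : NeZero p := ⟨hp.out.ne_zero⟩
  rw [index_pw' E hlp, card_ker', hζ.card_rootsOfUnity]

end

end LAx

theorem stLA : StLA := by
  intro p l _ _ k _ ζ hζ
  by_cases h : l = p
  · subst h
    rw [if_pos rfl, Subgroup.index_eq_card, add_comm]
    exact BKGen.LocalCount.card_localField l k hζ
  · rw [if_neg h, add_zero]
    exact LAx.index_range' k h hζ

end BKGlob2
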