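import Pool.Agent.Lib.MP_7c08ba_nt.Odd.LStmts
import Pool.Agent.Lib.MP_7c08ba_nt.Met.Arith

set_option autoImplicit false

/-!
Parity without rigidity, local part: cohomology of the Galois groups of the `l`-adic numbers with
coefficients in `ℚ_p / ℤ_p (χ)` and in finite modules. Definitions and statements of the modules.
-/

noncomputable section

namespace BKLoc2

open BKOdd
open BKMet (QZ actA)

/-! ### definitions -/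

section Defs

variable (p : ℕ) [Fact p.Prime]

/-- the class of `x` in `ℚ_p / ℤ_p` -/
def cl (x : ℚ_[p]) : QZ p := Submodule.Quotient.mk x

variable {p} {G : Type*} [Group G]

/-- the cup product of `κ` with `θ / p ^ m` -/
def sc (κ θ : G → ℤ_[p]) (m : ℕ) : G → G → QZ p :=
  fun g h => cl p (((κ g * θ h : ℤ_[p]) : ℚ_[p]) / (p : ℚ_[p]) ^ m)

/-- a two-cochain with values in `ℤ/p` as a two-cochain with values in `ℚ_p / ℤ_p` -/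
def im (z : G → G → ZMod p) : G → G → QZ p :=
  fun g h => cl p (((z g h).val : ℚ_[p]) / p)

/-- the cyclotomic character of a Galois group -/
def cy (p : ℕ) [Fact p.Prime] (k Ω : Type) [Field k] [Field Ω] [Algebra k Ω] :
    (Ω ≃ₐ[k] Ω) →* ℤ_[p]ˣ :=
  (cyclotomicCharacter Ω p).comp (MulSemiringAction.toRingAut (Ω ≃ₐ[k] Ω) Ω)

/-- the cyclotomic character of the Galois group of `ℚ_l` with values in `ℤ_p` -/
abbrev cyL (p l : ℕ) [Fact p.Prime] [Fact l.Prime] : GQ l →* ℤ_[p]ˣ :=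
  cy p ℚ_[l] (PadicAlgCl l)

/-- compatible roots of unity -/
structure Sys (p : ℕ) {Ω : Type*} [Field Ω] (z : ℕ → Ω) : Prop where
  prim : ∀ n, IsPrimitiveRoot (z n) (p ^ n)
  pow : ∀ n, z (n + 1) ^ p = z n

/-- `κ` is the Kummer cocycle with values in `ℤ_p(χ)` of a compatible system of roots of `a` -/
def IsKP {k Ω : Type*} [Field k] [Field Ω] [Algebra k Ω] {V : Type*} [Group V]
    (e : V →* (Ω ≃ₐ[k] Ω)) (z : ℕ → Ω) (a : Ω) (κ : V → ℤ_[p]) : Prop :=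
  ∃ y : ℕ → Ω, y 0 = a ∧ (∀ n, y (n + 1) ^ p = y n) ∧
    ∀ n v, e v (y n) = z n ^ (PadicInt.toZModPow n (κ v)).val * y n

/-- a logarithm -/
structure IsLam (lam : ℤ_[p]ˣ → ℤ_[p]) : Prop where
  cont : Continuous lam
  mul : ∀ u v, lam (u * v) = lam u + lam v
  ne : ∀ u : ℤ_[p]ˣ, PadicInt.toZMod ((u : ℤ_[p]ˣ) : ℤ_[p]) = 1 →
    PadicInt.toZModPow 2 ((u : ℤ_[p]ˣ) : ℤ_[p]) ≠ 1 → PadicInt.toZMod (lam u) ≠ 0

/-- `H²(V, 𝔽_p(χ))` is at most one-dimensional -/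
def LineX {G : Type*} [Group G] [TopologicalSpace G] (χ : G →* ℤ_[p]ˣ) : Prop :=
  ∀ z ∈ CC.Z2 (chm χ), ∀ z' ∈ CC.Z2 (chm χ), z ∉ CC.B2 (chm χ) →
    ∃ a : ZMod p, z' - a • z ∈ CC.B2 (chm χ)

/-- a continuous homomorphism to `ℤ_p` -/
structure IsHom {V : Type*} [Group V] [TopologicalSpace V] (θ : V → ℤ_[p]) : Prop where
  cont : Continuous θ
  mul : ∀ g h, θ (g * h) = θ g + θ h

/-- the action on `N` is trivial on an open normal subgroup of index prime to `p` -/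
def Tame (p : ℕ) {V : Type*} [Group V] [TopologicalSpace V] {N : Type*} [AddCommGroup N]
    (ρ : V →* AddMonoid.End N) : Prop :=
  ∃ H : Subgroup V, H.Normal ∧ IsOpen (H : Set V) ∧ H.index ≠ 0 ∧ ¬ p ∣ H.index ∧
    ∀ h ∈ H, ρ h = 1

/-- a perfect equivariant pairing of finite modules into `ℚ_p / ℤ_p (χ)` -/
structure Pair {V : Type*} [Group V] (χ : V →* ℤ_[p]ˣ) {N N' : Type*} [AddCommGroup N]
    [AddCommGroup N'] (ρ : V →* AddMonoid.End N) (ρ' : V →* AddMonoid.End N')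
    (b : N →+ N' →+ QZ p) : Prop where
  eqv : ∀ g n n', b (ρ g n) (ρ' g n') = actA χ g (b n n')
  left : ∀ n, (∀ n', b n n' = 0) → n = 0
  right : ∀ n', (∀ n, b n n' = 0) → n' = 0

end Defs

/-! ### transfer -/

section Cor

variable {G : Type*} [Group G] (H : Subgroup G) {M : Type*} [AddCommGroup M]

/-- transfer of functions of one variable -/
def corM (a : G →* AddMonoid.End M) (f : H → M) (g : G) : M :=
  ∑ᶠ q : G ⧸ H, a (g • q).out (f (hh H g q))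

/-- transfer of functions of two variables -/
def corM2 (a : G →* AddMonoid.End M) (w : H → H → M) (g g' : G) : M :=
  ∑ᶠ q : G ⧸ H, a ((g * g') • q).out (w (hh H g (g' • q)) (hh H g' q))

end Cor

/-! ### abstract modules -/

/-- Module PA: comparison of the coefficients `ℤ/p` and `ℚ_p / ℤ_p`. -/
def StPA : Prop :=
  ∀ (p : ℕ) [Fact p.Prime] (V : Type) [Group V] [TopologicalSpace V] [IsTopologicalGroup V]
    [CompactSpace V] [NonarchimedeanGroup V] (χ : V →* ℤ_[p]ˣ), Continuous χ →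
    (∀ α ∈ BKND.Z2 (actA χ), p • α ∈ BKND.B2 (actA χ) →
      ∃ z ∈ CC.Z2 (chm χ), α - im z ∈ BKND.B2 (actA χ)) ∧
    (∀ z ∈ CC.Z2 (chm χ), im z ∈ BKND.Z2 (actA χ)) ∧
    (∀ z ∈ CC.B2 (chm χ), im z ∈ BKND.B2 (actA χ)) ∧
    ((∀ β ∈ BKND.Z1 (actA χ), ∃ β' ∈ BKND.Z1 (actA χ), β = p • β') →
      ∀ z ∈ CC.Z2 (chm χ), im z ∈ BKND.B2 (actA χ) → z ∈ CC.B2 (chm χ)) ∧
    (∀ α ∈ BKND.Z2 (actA χ), ∃ n : ℕ, p ^ n • α = 0)

/-- Module SC: the products `κ ∪ θ / p ^ m`. -/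
def StSC : Prop :=
  ∀ (p : ℕ) [Fact p.Prime] (V : Type) [Group V] [TopologicalSpace V] [IsTopologicalGroup V]
    [CompactSpace V] [NonarchimedeanGroup V] (χ : V →* ℤ_[p]ˣ), Continuous χ →
    ∀ θ : V → ℤ_[p], IsHom θ →
    (∀ κ ∈ CC.Z1 (chZ χ), ∀ m, sc κ θ m ∈ BKND.Z2 (actA χ)) ∧
    (∀ (κ μ : V → ℤ_[p]) (m : ℕ), sc (κ + μ) θ m = sc κ θ m + sc μ θ m) ∧
    (∀ (κ : V → ℤ_[p]) (m j : ℕ), p ^ j • sc κ θ (m + j) = sc κ θ m) ∧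
    (∀ (κ : V → ℤ_[p]) (c : ℤ_[p]), (∀ v, κ v = (chZ χ v - 1) * c) → ∀ m,
      sc κ θ m ∈ BKND.B2 (actA χ)) ∧
    (∀ (κ : V → ℤ_[p]) (m : ℕ), (∀ v, (p : ℤ_[p]) ^ m ∣ θ v) → sc κ θ m = 0) ∧
    (∀ (κ : V → ℤ_[p]) (m : ℕ), (∀ v, (p : ℤ_[p]) ^ m ∣ κ v) → sc κ θ m = 0)

/-- Module INV: construction of the invariant. -/
def StInv : Prop :=
  ∀ (p : ℕ) [Fact p.Prime] (V : Type) [Group V] [TopologicalSpace V] [IsTopologicalGroup V]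
    [CompactSpace V] [NonarchimedeanGroup V] (χ : V →* ℤ_[p]ˣ), Continuous χ → LineX χ →
    ∀ (X : Type) [AddCommGroup X] (r : X →+ ℤ_[p]) (S : X → ℕ → V → V → QZ p),
    (∀ x m, S x m ∈ BKND.Z2 (actA χ)) →
    (∀ x y m, S (x + y) m - S x m - S y m ∈ BKND.B2 (actA χ)) →
    (∀ x m, p • S x (m + 1) - S x m ∈ BKND.B2 (actA χ)) →
    (∀ x m, S x m ∈ BKND.B2 (actA χ) ↔ (p : ℤ_[p]) ^ m ∣ r x) → (∃ x, r x ≠ 0) →
    ∃ inv : (V → V → QZ p) →+ QZ p,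
      (∀ α ∈ BKND.Z2 (actA χ), inv α = 0 ↔ α ∈ BKND.B2 (actA χ)) ∧
      ∀ x m, inv (S x m) = cl p ((r x : ℚ_[p]) / (p : ℚ_[p]) ^ m)

/-! ### Kummer theory (any field of characteristic zero) -/

/-- Module KPE: Kummer cocycles with values in `ℤ_p(χ)`. -/
def StKPE : Prop :=
  ∀ (p : ℕ) [Fact p.Prime] (k Ω : Type) [Field k] [Field Ω] [Algebra k Ω] [IsGalois k Ω]
    [IsAlgClosed Ω] [CharZero Ω] (V : Type) [Group V] [TopologicalSpace V]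
    [IsTopologicalGroup V] (e : V →* (Ω ≃ₐ[k] Ω)), Continuous e → ∀ z : ℕ → Ω, Sys p z →
    Continuous ((cy p k Ω).comp e) ∧
    (∀ n v, e v (z n) =
      z n ^ (PadicInt.toZModPow n ((cy p k Ω (e v) : ℤ_[p]ˣ) : ℤ_[p])).val) ∧
    (∀ a : Ω, a ≠ 0 → Fx e a → ∃ κ : V → ℤ_[p], IsKP e z a κ) ∧
    (∀ (a : Ω) (κ : V → ℤ_[p]), a ≠ 0 → IsKP e z a κ →
      κ ∈ CC.Z1 (chZ ((cy p k Ω).comp e))) ∧
    (∀ (a b : Ω) (κ μ : V → ℤ_[p]), a ≠ 0 → b ≠ 0 → IsKP e z a κ → IsKP e z b μ →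
      IsKP e z (a * b) (κ + μ)) ∧
    (∀ (a : Ω) (κ μ : V → ℤ_[p]), a ≠ 0 → IsKP e z a κ → IsKP e z a μ →
      ∃ c : ℤ_[p], ∀ v, μ v - κ v = (chZ ((cy p k Ω).comp e) v - 1) * c)

/-- Module Z1A: one-cocycles with values in `ℚ_p / ℤ_p (χ)` are Kummer cocycles. -/
def StZ1A : Prop :=
  ∀ (p : ℕ) [Fact p.Prime] (k Ω : Type) [Field k] [Field Ω] [Algebra k Ω] [IsGalois k Ω]
    [IsAlgClosed Ω] [CharZero Ω] (V : Type) [Group V] [TopologicalSpace V]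
    [IsTopologicalGroup V] [CompactSpace V] [NonarchimedeanGroup V] (e : V →* (Ω ≃ₐ[k] Ω)),
    Topology.IsOpenEmbedding e → ∀ z : ℕ → Ω, Sys p z →
    ∀ β ∈ BKND.Z1 (actA ((cy p k Ω).comp e)), ∃ a : Ω, a ≠ 0 ∧ Fx e a ∧
      ∃ κ : V → ℤ_[p], IsKP e z a κ ∧
      ∃ n : ℕ, ∀ v, β v = cl p ((κ v : ℚ_[p]) / (p : ℚ_[p]) ^ n)

/-- Module CRN: the Kummer cocycle of a norm, and products which vanish. `N` is the norm of `c`. -/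
def StCrN : Prop :=
  ∀ (p : ℕ) [Fact p.Prime] (k Ω : Type) [Field k] [Field Ω] [Algebra k Ω] [IsGalois k Ω]
    [IsAlgClosed Ω] [CharZero Ω] (V : Type) [Group V] [TopologicalSpace V]
    [IsTopologicalGroup V] [CompactSpace V] [NonarchimedeanGroup V] (e : V →* (Ω ≃ₐ[k] Ω)),
    Topology.IsOpenEmbedding e → ∀ z : ℕ → Ω, Sys p z →
    ∀ U : Subgroup V, IsOpen (U : Set V) → ∀ c : Ω, c ≠ 0 → (∀ u ∈ U, e u c = c) →
    ∀ N : Ω, N = ∏ᶠ q : V ⧸ U, e q.out c → ∀ θ : V → ℤ_[p], IsHom θ → ∀ m : ℕ,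
    ∀ κ : V → ℤ_[p], IsKP e z N κ →
    ∀ μ : U → ℤ_[p], IsKP (e.comp U.subtype) z c μ →
    sc μ (fun u => θ u) m ∈ BKND.B2 (actA (((cy p k Ω).comp e).comp U.subtype)) →
    sc κ θ m ∈ BKND.B2 (actA ((cy p k Ω).comp e))

/-- Module NMO: if the product of `κ` and `θ / p` vanishes then `Y` is a norm (from L3). -/
def StNmO : Prop :=
  ∀ (p : ℕ) [Fact p.Prime] (k Ω : Type) [Field k] [Field Ω] [Algebra k Ω] [IsGalois k Ω]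
    [IsAlgClosed Ω] [CharZero Ω] (V : Type) [Group V] [TopologicalSpace V]
    [IsTopologicalGroup V] [CompactSpace V] [NonarchimedeanGroup V] (e : V →* (Ω ≃ₐ[k] Ω)),
    Topology.IsOpenEmbedding e → ∀ z : ℕ → Ω, Sys p z →
    ∀ θ : V → ℤ_[p], IsHom θ → ∀ σ : V, θ σ = 1 → ∀ H : Subgroup V,
    (∀ g, g ∈ H ↔ (p : ℤ_[p]) ∣ θ g) → ∀ Y : Ω, Y ≠ 0 → Fx e Y →
    ∀ κ : V → ℤ_[p], IsKP e z Y κ → sc κ θ 1 ∈ BKND.B2 (actA ((cy p k Ω).comp e)) →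
    IsNm e p H σ Y

/-! ### local fields -/

/-- Module NT: the norm index in degree `p` over extensions of `ℚ_l`, `l ≠ p` (from NORMB and
H90). -/
def StNT : Prop :=
  ∀ (p l : ℕ) [Fact p.Prime] [Fact l.Prime], l ≠ p → ∀ (V : Type) [Group V]
    [TopologicalSpace V] [IsTopologicalGroup V]
    (e : V →* GQ l), Topology.IsOpenEmbedding e → ∀ H : Subgroup V, H.Normal →
    IsOpen (H : Set V) → H.index = p → ∀ σ : V, σ ∉ H →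
    ∀ S T : Subgroup (PadicAlgCl l)ˣ, (∀ Y, Y ∈ S ↔ Fx e (Y : PadicAlgCl l)) →
    (∀ Y, Y ∈ T ↔ IsNm e p H σ (Y : PadicAlgCl l)) → T.relIndex S = p

/-- Module CHT: the chain theorem for `l ≠ p` (from TR, KUM, L1, L3, NT; copy of CHAIN). -/
def StChT : Prop :=
  ∀ (p l : ℕ) [Fact p.Prime] [Fact l.Prime], p ≠ 2 → l ≠ p → ∀ (V : Type) [Group V]
    [TopologicalSpace V] [IsTopologicalGroup V] (e : V →* GQ l), Topology.IsOpenEmbedding e →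
    ∀ ζ : PadicAlgCl l, IsPrimitiveRoot ζ p → Fx e ζ → LineP p V ∧ NonDeg p V

/-- Module LNX: the second cohomology of open subgroups of the Galois group of `ℚ_l` with
coefficients `𝔽_p(χ)` is at most one-dimensional (from CHAIN, CHT, TR and Sylow subgroups). -/
def StLnX : Prop :=
  ∀ (p l : ℕ) [Fact p.Prime] [Fact l.Prime], p ≠ 2 → ∀ (V : Type) [Group V]
    [TopologicalSpace V] [IsTopologicalGroup V] [CompactSpace V] [NonarchimedeanGroup V]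
    (e : V →* GQ l), Topology.IsOpenEmbedding e → LineX ((cyL p l).comp e)

/-- Module FR: the cyclotomic character of `ℚ_l` with values in `ℤ_p`, `l ≠ p`. -/
def StFr : Prop :=
  ∀ (p l : ℕ) [Fact p.Prime] [Fact l.Prime], l ≠ p →
    (∃ g : GQ l, ((cyL p l g : ℤ_[p]ˣ) : ℤ_[p]) = l) ∧
    ∀ (g : GQ l) (n : ℕ), ∃ i : ℕ,
      PadicInt.toZModPow n ((cyL p l g : ℤ_[p]ˣ) : ℤ_[p]) = (l : ZMod (p ^ n)) ^ i

/-- Module CYP: the cyclotomic character of `ℚ_p` is surjective. -/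
def StCyP : Prop := ∀ (p : ℕ) [Fact p.Prime], Function.Surjective (cyL p p)

/-- Module LAM: properties of the logarithm. -/
def StLam : Prop :=
  ∀ (p : ℕ) [Fact p.Prime], p ≠ 2 → (∃ lam : ℤ_[p]ˣ → ℤ_[p], IsLam lam) ∧
    ∀ lam : ℤ_[p]ˣ → ℤ_[p], IsLam lam → lam 1 = 0 ∧
    (∀ (u : ℤ_[p]ˣ) (n : ℕ), lam (u ^ n) = n * lam u) ∧
    (∀ u : ℤ_[p]ˣ, lam u = 0 ↔ u ^ (p - 1) = 1) ∧
    (∀ (u : ℤ_[p]ˣ) (m : ℕ), (p : ℤ_[p]) ^ m ∣ lam u ↔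
      PadicInt.toZModPow (m + 1) (((u ^ (p - 1) : ℤ_[p]ˣ)) : ℤ_[p]) = 1) ∧
    (∀ (u : ℤ_[p]ˣ) (m : ℕ), (p : ℤ_[p]) ^ m ∣ lam u ↔
      ∃ v w : ℤ_[p]ˣ, v ^ (p - 1) = 1 ∧ u = v * w ^ p ^ m)

/-- Module RLA: products with the Kummer cocycle of a unit of `ℚ_l`, `l ≠ p` (from KPE, SC). -/
def StRLa : Prop :=
  ∀ (p l : ℕ) [Fact p.Prime] [Fact l.Prime], l ≠ p →
    ∀ z : ℕ → PadicAlgCl l, Sys p z → ∀ a : ℚ_[l], ‖a‖ = 1 → ∀ κ : GQ l → ℤ_[p],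
    IsKP (MonoidHom.id (GQ l)) z (algebraMap ℚ_[l] (PadicAlgCl l) a) κ →
    ∀ θ : GQ l → ℤ_[p], IsHom θ → ∀ m : ℕ, sc κ θ m ∈ BKND.B2 (actA (cyL p l))

/-- Module RLB: products with the Kummer cocycle of `l` for `l ≠ p` (from FR, LAM, RLA, KPE, SC,
Z1A, NMO, NT). -/
def StRLb : Prop :=
  ∀ (p l : ℕ) [Fact p.Prime] [Fact l.Prime], p ≠ 2 → l ≠ p →
    ∀ lam : ℤ_[p]ˣ → ℤ_[p], IsLam lam → ∀ u : ℤ_[p]ˣ, ((u : ℤ_[p]ˣ) : ℤ_[p]) = l →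
    ∀ z : ℕ → PadicAlgCl l, Sys p z → ∀ κ : GQ l → ℤ_[p],
    IsKP (MonoidHom.id (GQ l)) z (l : PadicAlgCl l) κ → ∀ m : ℕ,
    (sc κ (fun g => lam (cyL p l g)) m ∈ BKND.B2 (actA (cyL p l)) ↔ (p : ℤ_[p]) ^ m ∣ lam u)

/-- Module RPA: products with the Kummer cocycle of `p` (from CYP, CRN, LAM, KPE, SC). -/
def StRPa : Prop :=
  ∀ (p : ℕ) [Fact p.Prime], p ≠ 2 →
    ∀ lam : ℤ_[p]ˣ → ℤ_[p], IsLam lam →
    ∀ z : ℕ → PadicAlgCl p, Sys p z → ∀ κ : GQ p → ℤ_[p],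
    IsKP (MonoidHom.id (GQ p)) z (p : PadicAlgCl p) κ → ∀ m : ℕ,
    sc κ (fun g => lam (cyL p p g)) m ∈ BKND.B2 (actA (cyL p p))

/-- Module RPB: products with the Kummer cocycles of units for `l = p` (from RPA, CYP, LAM, KPE, SC,
NMO, NORM). -/
def StRPb : Prop :=
  ∀ (p : ℕ) [Fact p.Prime], p ≠ 2 →
    ∀ lam : ℤ_[p]ˣ → ℤ_[p], IsLam lam →
    ∀ z : ℕ → PadicAlgCl p, Sys p z → ∀ u : ℤ_[p]ˣ, ∀ κ : GQ p → ℤ_[p],
    IsKP (MonoidHom.id (GQ p)) z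
      (algebraMap ℚ_[p] (PadicAlgCl p) ((u : ℤ_[p]ˣ) : ℤ_[p])) κ → ∀ m : ℕ,
    (sc κ (fun g => lam (cyL p p g)) m ∈ BKND.B2 (actA (cyL p p)) ↔ (p : ℤ_[p]) ^ m ∣ lam u)

/-- Module INVL: the invariant of `ℚ_l` (from INV, LNX, RLA, RLB, RPA, RPB, KPE, SC, LAM): for `l ≠ p` with
`r = v_l(a) λ(l)`, and for `l = p` with `r = -λ(a / p ^ v_p(a))`. -/
def StInvL : Prop :=
  (∀ (p l : ℕ) [Fact p.Prime] [Fact l.Prime], p ≠ 2 → l ≠ p →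
    ∀ lam : ℤ_[p]ˣ → ℤ_[p], IsLam lam → ∀ u : ℤ_[p]ˣ, ((u : ℤ_[p]ˣ) : ℤ_[p]) = l →
    ∀ z : ℕ → PadicAlgCl l, Sys p z →
    ∃ inv : (GQ l → GQ l → QZ p) →+ QZ p,
      (∀ α ∈ BKND.Z2 (actA (cyL p l)), inv α = 0 ↔ α ∈ BKND.B2 (actA (cyL p l))) ∧
      ∀ a : ℚ_[l], a ≠ 0 → ∀ κ : GQ l → ℤ_[p],
        IsKP (MonoidHom.id (GQ l)) z (algebraMap ℚ_[l] (PadicAlgCl l) a) κ → ∀ m : ℕ,
        inv (sc κ (fun g => lam (cyL p l g)) m) =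
          cl p ((((a.valuation : ℤ) * lam u : ℤ_[p]) : ℚ_[p]) / (p : ℚ_[p]) ^ m)) ∧
  (∀ (p : ℕ) [Fact p.Prime], p ≠ 2 →
    ∀ lam : ℤ_[p]ˣ → ℤ_[p], IsLam lam → ∀ z : ℕ → PadicAlgCl p, Sys p z →
    ∃ inv : (GQ p → GQ p → QZ p) →+ QZ p,
      (∀ α ∈ BKND.Z2 (actA (cyL p p)), inv α = 0 ↔ α ∈ BKND.B2 (actA (cyL p p))) ∧
      ∀ (a : ℚ_[p]) (u : ℤ_[p]ˣ) (i : ℤ), a = ((u : ℤ_[p]ˣ) : ℤ_[p]) * (p : ℚ_[p]) ^ i →
        ∀ κ : GQ p → ℤ_[p],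
        IsKP (MonoidHom.id (GQ p)) z (algebraMap ℚ_[p] (PadicAlgCl p) a) κ → ∀ m : ℕ,
        inv (sc κ (fun g => lam (cyL p p g)) m) =
          cl p ((((-lam u : ℤ_[p])) : ℚ_[p]) / (p : ℚ_[p]) ^ m))

/-- Module INVV: subgroups (places of residue degree or ramification index greater than one; from
CRN, INVL). -/
def StInvV : Prop :=
  (∀ (p l : ℕ) [Fact p.Prime] [Fact l.Prime], p ≠ 2 → l ≠ p →
    ∀ lam : ℤ_[p]ˣ → ℤ_[p], IsLam lam → ∀ v : ℤ_[p]ˣ, ((v : ℤ_[p]ˣ) : ℤ_[p]) = l →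
    ∀ z : ℕ → PadicAlgCl l, Sys p z →
    ∀ U : Subgroup (GQ l), IsOpen (U : Set (GQ l)) → ∀ c : PadicAlgCl l, c ≠ 0 →
    (∀ u ∈ U, u c = c) → ∀ μ : U → ℤ_[p], IsKP U.subtype z c μ → ∀ m : ℕ,
    sc μ (fun u => lam (cyL p l u)) m ∈ BKND.B2 (actA ((cyL p l).comp U.subtype)) →
    ∃ a : ℚ_[l], a ≠ 0 ∧ algebraMap ℚ_[l] (PadicAlgCl l) a = ∏ᶠ q : GQ l ⧸ U, q.out c ∧
      (p : ℤ_[p]) ^ m ∣ (a.valuation : ℤ) * lam v) ∧
  (∀ (p : ℕ) [Fact p.Prime], p ≠ 2 →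
    ∀ lam : ℤ_[p]ˣ → ℤ_[p], IsLam lam → ∀ z : ℕ → PadicAlgCl p, Sys p z →
    ∀ U : Subgroup (GQ p), IsOpen (U : Set (GQ p)) → ∀ c : PadicAlgCl p, c ≠ 0 →
    (∀ u ∈ U, u c = c) → ∀ μ : U → ℤ_[p], IsKP U.subtype z c μ → ∀ m : ℕ,
    sc μ (fun u => lam (cyL p p u)) m ∈ BKND.B2 (actA ((cyL p p).comp U.subtype)) →
    ∃ (v : ℤ_[p]ˣ) (i : ℤ), algebraMap ℚ_[p] (PadicAlgCl p)
        (((v : ℤ_[p]ˣ) : ℤ_[p]) * (p : ℚ_[p]) ^ i) = ∏ᶠ q : GQ p ⧸ U, q.out c ∧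
      (p : ℤ_[p]) ^ m ∣ lam v)

/-! ### duality for tame modules -/

/-- Module CRI: transfer to `GQ l` is injective on classes of exponent `p` (from LNX, TR, PA and
the existence of a nontrivial class by INVL). -/
def StCrI : Prop :=
  ∀ (p l : ℕ) [Fact p.Prime] [Fact l.Prime], p ≠ 2 → ∀ H : Subgroup (GQ l), H.Normal →
    IsOpen (H : Set (GQ l)) → ¬ p ∣ H.index → ∀ ζ : PadicAlgCl l, IsPrimitiveRoot ζ p →
    (∀ h ∈ H, h ζ = ζ) → ∀ w ∈ CC.Z2 (1 : H →* ZMod p),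
    cor2 H (chm (cyL p l)) w ∈ CC.B2 (chm (cyL p l)) → w ∈ CC.B2 (1 : H →* ZMod p)

/-- Module N4: `H²(N) × H⁰(N')` (from CRI). -/
def StN4 : Prop :=
  ∀ (p l : ℕ) [Fact p.Prime] [Fact l.Prime], p ≠ 2 →
    ∀ (N N' : Type) [AddCommGroup N] [AddCommGroup N'] [Finite N] [Finite N']
    (ρ : GQ l →* AddMonoid.End N) (ρ' : GQ l →* AddMonoid.End N') (b : N →+ N' →+ QZ p),
    (∀ n : N, p • n = 0) → (∀ n : N', p • n = 0) → Tame p ρ → Tame p ρ' →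
    Pair (cyL p l) ρ ρ' b →
    ∀ α ∈ BKND.Z2 ρ, (∀ n' ∈ BKND.H0 ρ', (fun g h => b (α g h) n') ∈ BKND.B2 (actA (cyL p l))) →
    α ∈ BKND.B2 ρ

/-- Module N5: `H¹(N) × H¹(N')` (from CRI, CHAIN, CHT). -/
def StN5 : Prop :=
  ∀ (p l : ℕ) [Fact p.Prime] [Fact l.Prime], p ≠ 2 →
    ∀ (N N' : Type) [AddCommGroup N] [AddCommGroup N'] [Finite N] [Finite N']
    (ρ : GQ l →* AddMonoid.End N) (ρ' : GQ l →* AddMonoid.End N') (b : N →+ N' →+ QZ p),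
    (∀ n : N, p • n = 0) → (∀ n : N', p • n = 0) → Tame p ρ → Tame p ρ' →
    Pair (cyL p l) ρ ρ' b →
    ∀ x ∈ BKND.Z1 ρ, (∀ y ∈ BKND.Z1 ρ', (fun g h => b (x g) (ρ' g (y h))) ∈
      BKND.B2 (actA (cyL p l))) → x ∈ BKND.B1 ρ

/-- Module TRM: transfer for modules. -/
def StTRM : Prop :=
  ∀ (G : Type) [Group G] [TopologicalSpace G] [IsTopologicalGroup G] [NonarchimedeanGroup G]
    (H : Subgroup G), IsOpen (H : Set G) → Finite (G ⧸ H) →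
    ∀ (N N' A : Type) [AddCommGroup N] [AddCommGroup N'] [AddCommGroup A]
    (ρ : G →* AddMonoid.End N) (ρ' : G →* AddMonoid.End N') (a : G →* AddMonoid.End A)
    (b : N →+ N' →+ A), BKND.Sm ρ' → (∀ n' : N', ∃ W : Subgroup G, IsOpen (W : Set G) ∧
      ∀ w ∈ W, ρ' w n' = n') →
    (∀ g n n', b (ρ g n) (ρ' g n') = a g (b n n')) →
    (∀ y ∈ BKND.Z1 (ρ'.comp H.subtype), corM H ρ' y ∈ BKND.Z1 ρ') ∧
    (∀ w w' : H → H → A, corM2 H a (w + w') = corM2 H a w + corM2 H a w') ∧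
    (∀ w ∈ BKND.B2 (a.comp H.subtype), corM2 H a w ∈ BKND.B2 a) ∧
    (∀ x ∈ BKND.Z1 ρ, ∀ y ∈ BKND.Z1 (ρ'.comp H.subtype),
      corM2 H a (fun g h : H => b (x g) (ρ' g (y h))) -
        (fun g h => b (x g) (ρ' g (corM H ρ' y h))) ∈ BKND.B2 a) ∧
    (∀ α ∈ BKND.Z2 ρ, ∀ n' : N', (∀ h ∈ H, ρ' h n' = n') →
      corM2 H a (fun g h : H => b (α g h) n') -
        (fun g h => b (α g h) (∑ᶠ q : G ⧸ H, ρ' q.out n')) ∈ BKND.B2 a) ∧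
    (∀ p : ℕ, p.Prime → ¬ p ∣ H.index → (∀ n : N, p • n = 0) → BKND.Sm ρ →
      (∀ x ∈ BKND.Z1 ρ, (fun h : H => x h) ∈ BKND.B1 (ρ.comp H.subtype) → x ∈ BKND.B1 ρ) ∧
      (∀ α ∈ BKND.Z2 ρ, (fun g h : H => α g h) ∈ BKND.B2 (ρ.comp H.subtype) →
        α ∈ BKND.B2 ρ))

/-! ### counting -/

/-- the subgroup `p X` -/
def PP (p : ℕ) (X : Type*) [AddCommGroup X] : AddSubgroup X :=
  (nsmulAddMonoidHom (α := X) p).range

/-- the number of equivariant homomorphisms from `N` to `X / p` -/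
def hq (p : ℕ) {Δ N X : Type*} [Group Δ] [AddCommGroup N] [AddCommGroup X]
    (ρ : Δ →* AddMonoid.End N) (a : Δ →* AddMonoid.End X) : ℕ :=
  Nat.card {f : N →+ X ⧸ PP p X // ∀ d n x, f n = QuotientAddGroup.mk x →
    f (ρ d n) = QuotientAddGroup.mk (a d x)}

/-- the number of equivariant homomorphisms from `N` to `X` -/
def ht {Δ N X : Type*} [Group Δ] [AddCommGroup N] [AddCommGroup X]
    (ρ : Δ →* AddMonoid.End N) (a : Δ →* AddMonoid.End X) : ℕ :=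
  Nat.card {f : N →+ X // ∀ d n, f (ρ d n) = a d (f n)}

/-- Module EIG: the quotient of the numbers of equivariant homomorphisms to `X / p` and to `X` does
not change when `X` is replaced by a subgroup `Y` of finite index. -/
def StEig : Prop :=
  ∀ (p : ℕ) [Fact p.Prime] (Δ : Type) [Group Δ] [Finite Δ], ¬ p ∣ Nat.card Δ →
    ∀ (N : Type) [AddCommGroup N] [Finite N], (∀ n : N, p • n = 0) →
    ∀ (ρ : Δ →* AddMonoid.End N) (X Y : Type) [AddCommGroup X] [AddCommGroup Y]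
    (a : Δ →* AddMonoid.End X) (a' : Δ →* AddMonoid.End Y) (i : Y →+ X),
    Function.Injective i → (∀ d y, i (a' d y) = a d (i y)) → i.range.index ≠ 0 →
    Finite (Y ⧸ PP p Y) → Finite {x : X // p • x = 0} →
    Finite (X ⧸ PP p X) ∧ hq p ρ a * ht ρ a' = hq p ρ a' * ht ρ a

/-- Module FREE: the case in which `X / p` is the regular representation. -/
def StFree : Prop :=
  ∀ (p : ℕ) [Fact p.Prime] (Δ : Type) [Group Δ] [Finite Δ]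
    (N : Type) [AddCommGroup N] [Finite N], (∀ n : N, p • n = 0) →
    ∀ (ρ : Δ →* AddMonoid.End N) (X : Type) [AddCommGroup X] (a : Δ →* AddMonoid.End X)
    (φ : X →+ (Δ → ZMod p)), Function.Surjective φ → (∀ x, φ x = 0 ↔ x ∈ PP p X) →
    (∀ d x τ, φ (a d x) τ = φ x (d⁻¹ * τ)) → hq p ρ a = Nat.card N

/-- Module KH: Kummer description of `H¹(V, N)` for `N` trivial on a normal subgroup `H` of index
prime to `p` which fixes the `p`-th roots of unity: homomorphisms from the dual module to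
`E* / p`, `E` the field fixed by `H`. Any field of characteristic zero. -/
def StKH : Prop :=
  ∀ (p : ℕ) [Fact p.Prime] (k Ω : Type) [Field k] [Field Ω] [Algebra k Ω] [IsGalois k Ω]
    [IsAlgClosed Ω] [CharZero Ω] (V : Type) [Group V] [TopologicalSpace V]
    [IsTopologicalGroup V] [CompactSpace V] [NonarchimedeanGroup V] (e : V →* (Ω ≃ₐ[k] Ω)),
    Topology.IsOpenEmbedding e → ∀ ζ : Ω, IsPrimitiveRoot ζ p →
    ∀ H : Subgroup V, H.Normal → IsOpen (H : Set V) → ¬ p ∣ H.index → (∀ h ∈ H, e h ζ = ζ) →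
    ∀ (N N' : Type) [AddCommGroup N] [AddCommGroup N'] [Finite N] [Finite N']
    (ρ : V →* AddMonoid.End N) (ρ' : V →* AddMonoid.End N') (b : N →+ N' →+ QZ p),
    (∀ n : N, p • n = 0) → (∀ n : N', p • n = 0) → Pair ((cy p k Ω).comp e) ρ ρ' b →
    (∀ h ∈ H, ρ h = 1) →
    ∀ KR : (V → N) → N' → Ω → Prop, (∀ x n' a, KR x n' a ↔ a ≠ 0 ∧ (∀ h ∈ H, e h a = a) ∧
      ∃ κ : H → ZMod p, IsKum (e.comp H.subtype) ζ a κ ∧
        ∀ h : H, b (x h) n' = cl p (((κ h).val : ℚ_[p]) / p)) →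
    (∀ x ∈ BKND.Z1 ρ, ∀ n', ∃ a, KR x n' a) ∧
    (∀ x ∈ BKND.Z1 ρ, ∀ n' a, KR x n' a → ∀ a', KR x n' a' ↔
      ∃ c : Ω, c ≠ 0 ∧ (∀ h ∈ H, e h c = c) ∧ a' = a * c ^ p) ∧
    (∀ x ∈ BKND.Z1 ρ, ∀ n' m' a a', KR x n' a → KR x m' a' → KR x (n' + m') (a * a')) ∧
    (∀ x ∈ BKND.Z1 ρ, ∀ n' a v, KR x n' a → KR x (ρ' v n') (e v a)) ∧
    (∀ x ∈ BKND.Z1 ρ, ∀ y ∈ BKND.Z1 ρ, ∀ n' a a', KR x n' a → KR y n' a' →
      KR (x + y) n' (a * a')) ∧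
    (∀ x ∈ BKND.Z1 ρ, (∀ n', KR x n' 1) ↔ x ∈ BKND.B1 ρ) ∧
    (∀ A : N' → Ω, (∀ n', A n' ≠ 0 ∧ ∀ h ∈ H, e h (A n') = A n') →
      (∀ n' m', ∃ c : Ω, (∀ h ∈ H, e h c = c) ∧ A (n' + m') = A n' * A m' * c ^ p) →
      (∀ v n', ∃ c : Ω, (∀ h ∈ H, e h c = c) ∧ A (ρ' v n') = e v (A n') * c ^ p) →
      ∃ x ∈ BKND.Z1 ρ, ∀ n', KR x n' (A n'))

/-- Module LST: the multiplicative group of a finite extension `E` of `ℚ_l`, `l ≠ p` (`E` is the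
field fixed by `H`, and `U` is the group of principal units). -/
def StLsT : Prop :=
  ∀ (p l : ℕ) [Fact p.Prime] [Fact l.Prime], l ≠ p → ∀ H : Subgroup (GQ l),
    IsOpen (H : Set (GQ l)) →
    ∃ U : Subgroup (PadicAlgCl l)ˣ,
      (∀ v : (PadicAlgCl l)ˣ, v ∈ U ↔ (∀ h ∈ H, h (v : PadicAlgCl l) = v) ∧
        ‖(v : PadicAlgCl l) - 1‖ < 1) ∧
      (∃ S : Set (PadicAlgCl l)ˣ, S.Finite ∧ ∀ x : (PadicAlgCl l)ˣ,
        (∀ h ∈ H, h (x : PadicAlgCl l) = x) → ∃ s ∈ S, ∃ v ∈ U, ∃ m : ℤ,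
        (x : PadicAlgCl l) = s * v * (l : PadicAlgCl l) ^ m) ∧
      (∀ v ∈ U, ∃ w ∈ U, w ^ p = v) ∧ (∀ v ∈ U, v ^ p = 1 → v = 1)

/-- Module LSP: the multiplicative group of a finite Galois extension `E` of `ℚ_p` (from
NormIndex). -/
def StLsP : Prop :=
  ∀ (p : ℕ) [Fact p.Prime] (H : Subgroup (GQ p)) [H.Normal], IsOpen (H : Set (GQ p)) →
    ∃ U : Subgroup (PadicAlgCl p)ˣ,
      (∀ v ∈ U, (∀ h ∈ H, h (v : PadicAlgCl p) = v) ∧ ‖(v : PadicAlgCl p)‖ = 1) ∧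
      (∀ v ∈ U, ∀ (g : GQ p) (w : (PadicAlgCl p)ˣ), (w : PadicAlgCl p) = g v → w ∈ U) ∧
      (∃ S : Set (PadicAlgCl p)ˣ, S.Finite ∧ ∀ x : (PadicAlgCl p)ˣ,
        (∀ h ∈ H, h (x : PadicAlgCl p) = x) → ∃ s ∈ S, ∃ v ∈ U, ∃ m : ℤ,
        (x : PadicAlgCl p) = s * v * (p : PadicAlgCl p) ^ m) ∧
      (∀ v ∈ U, v ^ p = 1 → v = 1) ∧
      ∃ φ : (PadicAlgCl p)ˣ → (GQ p ⧸ H → ZMod p),
        (∀ v ∈ U, ∀ w ∈ U, φ (v * w) = φ v + φ w) ∧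
        (∀ f, ∃ v ∈ U, φ v = f) ∧ (∀ v ∈ U, φ v = 0 ↔ ∃ w ∈ U, w ^ p = v) ∧
        ∀ v ∈ U, ∀ (g : GQ p) (w : (PadicAlgCl p)ˣ), (w : PadicAlgCl p) = g v →
          ∀ τ : GQ p ⧸ H, φ w τ = φ v ((QuotientGroup.mk g)⁻¹ * τ)

/-- Module N3: the order of `H¹(ℚ_l, N)` (from KH, EIG, FREE, LST, LSP). -/
def StN3 : Prop :=
  ∀ (p l : ℕ) [Fact p.Prime] [Fact l.Prime], p ≠ 2 →
    ∀ (N N' : Type) [AddCommGroup N] [AddCommGroup N'] [Finite N] [Finite N']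
    (ρ : GQ l →* AddMonoid.End N) (ρ' : GQ l →* AddMonoid.End N') (b : N →+ N' →+ QZ p),
    (∀ n : N, p • n = 0) → (∀ n : N', p • n = 0) → Tame p ρ → Tame p ρ' →
    Pair (cyL p l) ρ ρ' b →
    (BKND.B1 ρ).relIndex (BKND.Z1 ρ) =
      Nat.card (BKND.H0 ρ) * Nat.card (BKND.H0 ρ') * (if l = p then Nat.card N else 1)

/-- **The local part** (from INVL, N3, N4, N5). -/
def StLoc : Prop :=
  (∀ (p l : ℕ) [Fact p.Prime] [Fact l.Prime], p ≠ 2 → l ≠ p →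
    ∀ lam : ℤ_[p]ˣ → ℤ_[p], IsLam lam → ∀ u : ℤ_[p]ˣ, ((u : ℤ_[p]ˣ) : ℤ_[p]) = l →
    ∀ z : ℕ → PadicAlgCl l, Sys p z →
    ∃ inv : (GQ l → GQ l → QZ p) →+ QZ p, BKMet.LocAx p (BKMet.cycL p l) inv 0 ∧
      ∀ a : ℚ_[l], a ≠ 0 → ∀ κ : GQ l → ℤ_[p],
        IsKP (MonoidHom.id (GQ l)) z (algebraMap ℚ_[l] (PadicAlgCl l) a) κ → ∀ m : ℕ,
        inv (sc κ (fun g => lam (cyL p l g)) m) =
          cl p ((((a.valuation : ℤ) * lam u : ℤ_[p]) : ℚ_[p]) / (p : ℚ_[p]) ^ m)) ∧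
  (∀ (p : ℕ) [Fact p.Prime], p ≠ 2 →
    ∀ lam : ℤ_[p]ˣ → ℤ_[p], IsLam lam → ∀ z : ℕ → PadicAlgCl p, Sys p z →
    ∃ inv : (GQ p → GQ p → QZ p) →+ QZ p, BKMet.LocAx p (BKMet.cycL p p) inv 1 ∧
      ∀ (a : ℚ_[p]) (u : ℤ_[p]ˣ) (i : ℤ), a = ((u : ℤ_[p]ˣ) : ℤ_[p]) * (p : ℚ_[p]) ^ i →
        ∀ κ : GQ p → ℤ_[p],
        IsKP (MonoidHom.id (GQ p)) z (algebraMap ℚ_[p] (PadicAlgCl p) a) κ → ∀ m : ℕ,
        inv (sc κ (fun g => lam (cyL p p g)) m) =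
          cl p ((((-lam u : ℤ_[p])) : ℚ_[p]) / (p : ℚ_[p]) ^ m))

/-! ### facts for the global part -/

/-- the norms from `k[X] / (X ^ p - a)` -/
def NmA (p : ℕ) (k : Type*) [Field k] (a : k) : Subgroup kˣ :=
  (Units.map (Algebra.norm k : AdjoinRoot (Polynomial.X ^ p - Polynomial.C a) →* k)).range

/-- Module LK: the multiplicative group of a finite extension of `ℚ_l`, `l ≠ p`, which contains
the `p`-th roots of unity (from LST, NT). -/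
def StLK : Prop :=
  ∀ (p l : ℕ) [Fact p.Prime] [Fact l.Prime], p ≠ 2 → l ≠ p →
    ∀ (k : IntermediateField ℚ_[l] (PadicAlgCl l)) [FiniteDimensional ℚ_[l] k] (ζ : k),
    IsPrimitiveRoot ζ p →
    Nat.card (kˣ ⧸ (powMonoidHom p : kˣ →* kˣ).range) = p ^ 2 ∧
    (∀ u w : kˣ, ‖((u : k) : PadicAlgCl l)‖ = 1 → ‖((w : k) : PadicAlgCl l)‖ = 1 →
      (¬ ∃ c : kˣ, c ^ p = u) → ∃ (i : ℕ) (c : kˣ), w = u ^ i * c ^ p) ∧
    (∃ u : kˣ, ‖((u : k) : PadicAlgCl l)‖ = 1 ∧ ¬ ∃ c : kˣ, c ^ p = u) ∧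
    (∀ a : kˣ, (¬ ∃ c : kˣ, c ^ p = a) → (NmA p k (a : k)).index = p) ∧
    (∀ a : kˣ, (∃ c : kˣ, c ^ p = a) → NmA p k (a : k) = ⊤) ∧
    (∀ a b : kˣ, ‖((a : k) : PadicAlgCl l)‖ = 1 → ‖((b : k) : PadicAlgCl l)‖ = 1 →
      b ∈ NmA p k (a : k))

end BKLoc2
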