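import Pool.Agent.Lib.MP_7c08ba_nt.Met.GStmts
import Pool.Agent.Lib.MP_7c08ba_nt.Met.LocStmts
import Pool.Agent.Lib.MP_7c08ba_nt.Odd.Norm

/-!
Module LB: the local norm index for Kummer extensions of degree `p` of `l`-adic fields, from the
norm index in terms of Galois groups (`stNorm` for `l = p`, module NT of the local part for
`l ≠ p`).
-/

set_option autoImplicit false

noncomputable section

namespace BKGlob2

open Module Polynomial BKOdd

namespace LBAux

section

variable {p l : ℕ} [hp : Fact p.Prime] [hl : Fact l.Prime]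
  (k : IntermediateField ℚ_[l] (PadicAlgCl l)) [FiniteDimensional ℚ_[l] k]

/-- the elements which fix `α` -/
def HH (α : PadicAlgCl l) : Subgroup k.fixingSubgroup :=
  (MulAction.stabilizer (GQ l) α).subgroupOf k.fixingSubgroup

omit [FiniteDimensional ℚ_[l] k] in
theorem mem_HH {α : PadicAlgCl l} {v : k.fixingSubgroup} :
    v ∈ HH k α ↔ (v : GQ l) α = α := Iff.rfl

omit [FiniteDimensional ℚ_[l] k] in
theorem fix_k (v : k.fixingSubgroup) {x : PadicAlgCl l} (hx : x ∈ k) : (v : GQ l) x = x := by
  have h := v.2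
  rw [IntermediateField.mem_fixingSubgroup_iff] at h
  exact h x hx

theorem isOpen_fix : IsOpen (k.fixingSubgroup : Set (GQ l)) :=
  IntermediateField.fixingSubgroup_isOpen k

theorem isOpenEmb : Topology.IsOpenEmbedding (k.fixingSubgroup.subtype) :=
  (isOpen_fix k).isOpenEmbedding_subtypeVal

omit [FiniteDimensional ℚ_[l] k] in
theorem isOpen_HH (α : PadicAlgCl l) : IsOpen (HH k α : Set k.fixingSubgroup) := by
  have hα : IsIntegral ℚ_[l] α := (Algebra.IsAlgebraic.isAlgebraic α).isIntegral
  have : FiniteDimensional ℚ_[l] (IntermediateField.adjoin ℚ_[l] {α}) :=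
    IntermediateField.adjoin.finiteDimensional hα
  have h1 : IsOpen ((IntermediateField.adjoin ℚ_[l] {α}).fixingSubgroup : Set (GQ l)) :=
    IntermediateField.fixingSubgroup_isOpen _
  have h2 : IsOpen ((MulAction.stabilizer (GQ l) α : Subgroup (GQ l)) : Set (GQ l)) := by
    apply Subgroup.isOpen_mono _ h1
    intro g hg
    rw [IntermediateField.mem_fixingSubgroup_iff] at hg
    exact hg α (IntermediateField.mem_adjoin_simple_self _ α)
  exact h2.preimage continuous_subtype_val

omit [FiniteDimensional ℚ_[l] k] in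
/-- an element fixed by the whole group is in `k` -/
theorem mem_of_fix {x : PadicAlgCl l} (h : ∀ v : k.fixingSubgroup, (v : GQ l) x = x) : x ∈ k := by
  rw [← InfiniteGalois.fixedField_fixingSubgroup k, IntermediateField.mem_fixedField_iff]
  exact fun g hg => h ⟨g, hg⟩

variable {k} {ζ : k} (hζ : IsPrimitiveRoot ζ p) {a : kˣ} (hnp : ¬ IsPw p (a : k))
  {α : PadicAlgCl l} (hα : α ^ p = ((a : k) : PadicAlgCl l))

include hζ in
omit [FiniteDimensional ℚ_[l] k] hp in
theorem prim : IsPrimitiveRoot (ζ : PadicAlgCl l) p :=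
  hζ.map_of_injective (f := k.val) k.val.injective

include hα in
omit [FiniteDimensional ℚ_[l] k] hp in
theorem alpha_ne [hp : Fact p.Prime] : α ≠ 0 := by
  rintro rfl
  rw [zero_pow hp.out.ne_zero] at hα
  exact a.ne_zero (Subtype.ext hα.symm)

/-- the Kummer character -/
def chi (hζ : IsPrimitiveRoot ζ p) (hα : α ^ p = ((a : k) : PadicAlgCl l)) :
    k.fixingSubgroup →* rootsOfUnity p (PadicAlgCl l) where
  toFun v := ⟨Units.mk0 ((v : GQ l) α / α) (div_ne_zero ((_root_.map_ne_zero _).2 (alpha_ne hα))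
    (alpha_ne hα)), by
      rw [mem_rootsOfUnity]
      apply Units.ext
      rw [Units.val_pow_eq_pow_val, Units.val_mk0, div_pow, ← map_pow, hα, fix_k k v (a : k).2,
        div_self, Units.val_one]
      rw [← hα]
      exact pow_ne_zero _ (alpha_ne hα)⟩
  map_one' := by
    apply Subtype.ext
    apply Units.ext
    change (1 : GQ l) α / α = 1
    rw [AlgEquiv.one_apply, div_self (alpha_ne hα)]
  map_mul' v w := by
    apply Subtype.ext
    apply Units.ext
    change ((v : GQ l) * (w : GQ l)) α / α = ((v : GQ l) α / α) * ((w : GQ l) α / α)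
    have h1 : ((w : GQ l) α / α) ^ p = 1 := by
      rw [div_pow, ← map_pow, hα, fix_k k w (a : k).2, div_self]
      rw [← hα]
      exact pow_ne_zero _ (alpha_ne hα)
    obtain ⟨i, -, hi⟩ := (prim hζ).eq_pow_of_pow_eq_one h1
    have h2 : (v : GQ l) ((w : GQ l) α / α) = (w : GQ l) α / α := by
      rw [← hi, map_pow, fix_k k v ζ.2]
    rw [AlgEquiv.mul_apply]
    have h3 : (w : GQ l) α = ((w : GQ l) α / α) * α := (div_mul_cancel₀ _ (alpha_ne hα)).symm
    conv_lhs => rw [h3, map_mul, h2]
    ring

omit [FiniteDimensional ℚ_[l] k] in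
theorem chi_val (v : k.fixingSubgroup) :
    (((chi hζ hα v : rootsOfUnity p (PadicAlgCl l)) : (PadicAlgCl l)ˣ) : PadicAlgCl l) =
      (v : GQ l) α / α := rfl

omit [FiniteDimensional ℚ_[l] k] in
theorem ker_chi : (chi hζ hα).ker = HH k α := by
  ext v
  rw [MonoidHom.mem_ker, mem_HH]
  constructor
  · intro h
    have h1 := chi_val hζ hα v
    rw [h] at h1
    have h2 : (1 : PadicAlgCl l) = (v : GQ l) α / α := h1
    rw [eq_comm, div_eq_one_iff_eq (alpha_ne hα)] at h2
    exact h2
  · intro h
    apply Subtype.ext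
    apply Units.ext
    rw [chi_val, h, div_self (alpha_ne hα)]
    rfl

include hζ hnp hα in
omit [FiniteDimensional ℚ_[l] k] in
theorem index_HH : (HH k α).index = p := by
  rw [← ker_chi hζ hα, Subgroup.index_ker]
  have hprim := prim hζ
  have : NeZero p := ⟨hp.out.ne_zero⟩
  have hc : Nat.card (rootsOfUnity p (PadicAlgCl l)) = p := by
    exact hprim.card_rootsOfUnity
  have h1 : Nat.card (chi hζ hα).range ∣ p := by
    have := Subgroup.card_subgroup_dvd_card (chi hζ hα).range
    rwa [hc] at this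
  rcases (Nat.dvd_prime hp.out).1 h1 with h2 | h2
  · exfalso
    apply hnp
    have h3 : (chi hζ hα).range = ⊥ := Subgroup.eq_bot_of_card_eq _ h2
    have h4 : ∀ v : k.fixingSubgroup, (v : GQ l) α = α := by
      intro v
      have h5 : chi hζ hα v ∈ (chi hζ hα).range := ⟨v, rfl⟩
      rw [h3, Subgroup.mem_bot] at h5
      have h6 : v ∈ (chi hζ hα).ker := h5
      rwa [ker_chi] at h6
    exact ⟨⟨α, mem_of_fix k h4⟩, Subtype.ext hα⟩
  · exact h2

/-! ### norms -/

/-- the field `k(α)` -/
abbrev NN (k : IntermediateField ℚ_[l] (PadicAlgCl l)) (α : PadicAlgCl l) :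
    IntermediateField k (PadicAlgCl l) := IntermediateField.adjoin k {α}

/-- the generator -/
def gen (k : IntermediateField ℚ_[l] (PadicAlgCl l)) (α : PadicAlgCl l) : NN k α :=
  ⟨α, IntermediateField.mem_adjoin_simple_self k α⟩

omit [FiniteDimensional ℚ_[l] k] hp in
theorem adjoin_gen : IntermediateField.adjoin k {gen k α} = ⊤ := by
  apply IntermediateField.map_injective (NN k α).val
  rw [IntermediateField.adjoin_map, Set.image_singleton, ← AlgHom.fieldRange_eq_map,
    IntermediateField.fieldRange_val]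
  rfl

include hα in
omit [FiniteDimensional ℚ_[l] k] hp in
theorem gen_pow : gen k α ^ p = algebraMap k (NN k α) (a : k) := Subtype.ext hα

include hnp in
omit [FiniteDimensional ℚ_[l] k] in
theorem irr : Irreducible (X ^ p - C (a : k) : k[X]) :=
  X_pow_sub_C_irreducible_of_prime hp.out fun b hb => hnp ⟨b, hb⟩

include hnp hα in
omit [FiniteDimensional ℚ_[l] k] in
theorem minpoly_eq : minpoly k α = X ^ p - C (a : k) := by
  symm
  apply minpoly.eq_of_irreducible_of_monic (irr hnp)
  · rw [map_sub, map_pow, aeval_X, aeval_C, hα]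
    exact sub_self _
  · exact monic_X_pow_sub_C _ hp.out.ne_zero

include hα in
omit [FiniteDimensional ℚ_[l] k] in
theorem integral_alpha : IsIntegral k α := by
  refine ⟨X ^ p - C (a : k), monic_X_pow_sub_C _ hp.out.ne_zero, ?_⟩
  rw [eval₂_sub, eval₂_pow, eval₂_X, eval₂_C, hα]
  exact sub_self _

include hnp hα in
omit [FiniteDimensional ℚ_[l] k] in
theorem finrank_NN : finrank k (NN k α) = p := by
  rw [IntermediateField.adjoin.finrank (integral_alpha hα), minpoly_eq hnp hα,
    natDegree_X_pow_sub_C]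

omit [FiniteDimensional ℚ_[l] k] hp in
theorem pow_fix (σ : k.fixingSubgroup) (i : ℕ) (x : PadicAlgCl l) :
    (IntermediateField.fixingSubgroupEquiv k σ ^ i) x =
      (k.fixingSubgroup.subtype (σ ^ i)) x := by
  rw [← map_pow]
  rfl

include hζ hnp hα in
omit [FiniteDimensional ℚ_[l] k] in
theorem norm_prod {σ : k.fixingSubgroup} (hσ : σ ∉ HH k α) (c : NN k α) :
    ((Algebra.norm k c : k) : PadicAlgCl l) =
      ∏ i ∈ Finset.range p, (k.fixingSubgroup.subtype (σ ^ i)) (c : PadicAlgCl l) := by
  have hfd : FiniteDimensional k (NN k α) :=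
    IntermediateField.adjoin.finiteDimensional (integral_alpha hα)
  have h0 := Algebra.norm_eq_prod_embeddings k (PadicAlgCl l) c
  have h1 : algebraMap k (PadicAlgCl l) (Algebra.norm k c) =
    ((Algebra.norm k c : k) : PadicAlgCl l) := rfl
  rw [← h1, h0]
  set τ := IntermediateField.fixingSubgroupEquiv k σ with hτ
  let E : Fin p → (NN k α →ₐ[k] PadicAlgCl l) := fun i =>
    ((τ ^ (i : ℕ)).toAlgHom).comp (NN k α).val
  have hE : ∀ (i : Fin p) (x : NN k α), E i x =
      (k.fixingSubgroup.subtype (σ ^ (i : ℕ))) (x : PadicAlgCl l) := fun i x =>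
    pow_fix σ i x
  -- the root of unity
  have hα0 : α ≠ 0 := alpha_ne hα
  set ω : PadicAlgCl l := (σ : GQ l) α / α with hω
  have hωp : ω ^ p = 1 := by
    rw [hω, div_pow, ← map_pow, hα, fix_k k σ (a : k).2, div_self]
    rw [← hα]
    exact pow_ne_zero _ hα0
  have hω1 : ω ≠ 1 := by
    intro h
    apply hσ
    rw [mem_HH]
    rwa [hω, div_eq_one_iff_eq hα0] at h
  have hωprim : IsPrimitiveRoot ω p := by
    have h2 := orderOf_eq_prime hωp hω1
    rw [← h2]
    exact IsPrimitiveRoot.orderOf ω
  have hωfix : (σ : GQ l) ω = ω := by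
    obtain ⟨i, -, hi⟩ := (prim hζ).eq_pow_of_pow_eq_one hωp
    rw [← hi, map_pow, fix_k k σ ζ.2]
  have hit : ∀ i : ℕ, (k.fixingSubgroup.subtype (σ ^ i)) α = ω ^ i * α := by
    intro i
    induction i with
    | zero =>
      rw [pow_zero, pow_zero, map_one, AlgEquiv.one_apply, one_mul]
    | succ i ih =>
      rw [pow_succ', map_mul, AlgEquiv.mul_apply, ih, map_mul, map_pow]
      change ((σ : GQ l) ω) ^ i * (σ : GQ l) α = _
      rw [hωfix]
      have h3 : (σ : GQ l) α = ω * α := (div_mul_cancel₀ _ hα0).symm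
      rw [h3]
      ring
  have hinj : Function.Injective E := by
    intro i j hij
    have h2 := DFunLike.congr_fun hij (gen k α)
    rw [hE, hE] at h2
    change (k.fixingSubgroup.subtype (σ ^ (i : ℕ))) α =
      (k.fixingSubgroup.subtype (σ ^ (j : ℕ))) α at h2
    rw [hit, hit] at h2
    have h3 := mul_right_cancel₀ hα0 h2
    exact Fin.ext (hωprim.pow_inj i.2 j.2 h3)
  have hcard : Fintype.card (NN k α →ₐ[k] PadicAlgCl l) = p := by
    rw [AlgHom.card, finrank_NN hnp hα]
  have hbij : Function.Bijective E := by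
    rw [Fintype.bijective_iff_injective_and_card]
    refine ⟨hinj, ?_⟩
    rw [hcard, Fintype.card_fin]
  rw [← Function.Bijective.prod_comp hbij, Finset.prod_range]
  exact Finset.prod_congr rfl fun i _ => hE i c

include hζ hnp hα in
omit [FiniteDimensional ℚ_[l] k] in
theorem nm_iff (h3 : StNA3) {σ : k.fixingSubgroup} (hσ : σ ∉ HH k α) (b : kˣ) :
    b ∈ Nm p k (a : k) ↔
      IsNm k.fixingSubgroup.subtype p (HH k α) σ ((b : k) : PadicAlgCl l) := by
  rw [h3 p hp.out k (NN k α) (a : k) (gen k α) hnp (gen_pow hα) adjoin_gen]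
  constructor
  · rintro ⟨c, rfl⟩
    refine ⟨((c : NN k α) : PadicAlgCl l), ?_, ?_, (norm_prod hζ hnp hα hσ (c : NN k α)).symm⟩
    · intro h
      exact c.ne_zero (Subtype.ext h)
    · intro h hh
      -- fixed by `H`
      have h4 : NN k α ≤ IntermediateField.fixedField
          (Subgroup.zpowers (IntermediateField.fixingSubgroupEquiv k h)) := by
        rw [IntermediateField.adjoin_simple_le_iff, IntermediateField.mem_fixedField_iff]
        intro g hg
        obtain ⟨n, rfl⟩ := Subgroup.mem_zpowers_iff.1 hg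
        have h5 : IntermediateField.fixingSubgroupEquiv k h ∈
            MulAction.stabilizer (PadicAlgCl l ≃ₐ[k] PadicAlgCl l) α := hh
        exact zpow_mem h5 n
      have h5 := h4 (c : NN k α).2
      rw [IntermediateField.mem_fixedField_iff] at h5
      exact h5 _ (Subgroup.mem_zpowers _)
  · rintro ⟨c, hc0, hc, hcb⟩
    have hcN : c ∈ NN k α := by
      rw [← InfiniteGalois.fixedField_fixingSubgroup (NN k α),
        IntermediateField.mem_fixedField_iff]
      intro g hg
      rw [IntermediateField.mem_fixingSubgroup_iff] at hg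
      have hgα := hg α (IntermediateField.mem_adjoin_simple_self k α)
      have := hc ((IntermediateField.fixingSubgroupEquiv k).symm g) (by
        rw [mem_HH]
        exact hgα)
      exact this
    have hc1 : (⟨c, hcN⟩ : NN k α) ≠ 0 := fun h => hc0 (congrArg Subtype.val h)
    refine ⟨Units.mk0 _ hc1, ?_⟩
    apply Units.ext
    apply Subtype.ext
    change ((Algebra.norm k (⟨c, hcN⟩ : NN k α) : k) : PadicAlgCl l) = _
    rw [norm_prod hζ hnp hα hσ, ← hcb]

end

end LBAux

open LBAux

theorem stLB (h3 : StNA3) (hNT : BKLoc2.StNT) : StLB := by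
  intro p l hp hl k _ ζ hζ a hnp
  obtain ⟨α, hα⟩ := IsAlgClosed.exists_pow_nat_eq ((a : k) : PadicAlgCl l) hp.out.pos
  have hidx := index_HH hζ hnp hα
  have hnorm : (HH k α).Normal := by
    rw [← ker_chi hζ hα]
    infer_instance
  obtain ⟨σ, hσ⟩ : ∃ σ, σ ∉ HH k α := by
    by_contra hcon
    push Not at hcon
    have h1 : HH k α = ⊤ := by
      rw [Subgroup.eq_top_iff']
      exact hcon
    rw [h1, Subgroup.index_top] at hidx
    exact hp.out.one_lt.ne hidx
  let ι : kˣ →* (PadicAlgCl l)ˣ := Units.map (k.val.toRingHom : k →* PadicAlgCl l)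
  have hι : Function.Injective ι := Units.map_injective k.val.toRingHom.injective
  have hS : ∀ Y, Y ∈ (⊤ : Subgroup kˣ).map ι ↔
      Fx k.fixingSubgroup.subtype (Y : PadicAlgCl l) := by
    intro Y
    constructor
    · rintro ⟨y, -, rfl⟩
      exact fun v => fix_k k v (y : k).2
    · intro hY
      have h1 := mem_of_fix k hY
      have h2 : (⟨Y, h1⟩ : k) ≠ 0 := fun h => Y.ne_zero (congrArg Subtype.val h)
      exact ⟨Units.mk0 _ h2, Subgroup.mem_top _, Units.ext rfl⟩
  have hT : ∀ Y, Y ∈ (Nm p k (a : k)).map ι ↔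
      IsNm k.fixingSubgroup.subtype p (HH k α) σ (Y : PadicAlgCl l) := by
    intro Y
    constructor
    · rintro ⟨y, hy, rfl⟩
      exact (nm_iff hζ hnp hα h3 hσ y).1 hy
    · intro hY
      have h1 : Fx k.fixingSubgroup.subtype (Y : PadicAlgCl l) := by
        obtain ⟨c, hc0, hc, hcb⟩ := hY
        have hcN : c ∈ NN k α := by
          rw [← InfiniteGalois.fixedField_fixingSubgroup (NN k α),
            IntermediateField.mem_fixedField_iff]
          intro g hg
          rw [IntermediateField.mem_fixingSubgroup_iff] at hg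
          have hgα := hg α (IntermediateField.mem_adjoin_simple_self k α)
          have := hc ((IntermediateField.fixingSubgroupEquiv k).symm g) (by
            rw [mem_HH]
            exact hgα)
          exact this
        intro v
        rw [← hcb, ← norm_prod hζ hnp hα hσ (⟨c, hcN⟩ : NN k α)]
        exact fix_k k v (Subtype.mem _)
      obtain ⟨y, -, rfl⟩ := (hS Y).2 h1
      exact ⟨y, (nm_iff hζ hnp hα h3 hσ y).2 hY, rfl⟩
  have hmain : ((Nm p k (a : k)).map ι).relIndex ((⊤ : Subgroup kˣ).map ι) = p := by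
    by_cases hlp : l = p
    · subst hlp
      exact stNorm l k.fixingSubgroup k.fixingSubgroup.subtype (isOpenEmb k) (HH k α) hnorm
        (isOpen_HH k α) hidx σ hσ _ _ hS hT
    · exact hNT p l hlp k.fixingSubgroup k.fixingSubgroup.subtype (isOpenEmb k) (HH k α) hnorm
        (isOpen_HH k α) hidx σ hσ _ _ hS hT
  rwa [Subgroup.relIndex_map_map_of_injective _ _ hι, Subgroup.relIndex_top_right] at hmain

end BKGlob2
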