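import Pool.Agent.Lib.MP_7c08ba_nt.Met.GLA

set_option autoImplicit false

/-!
Module LD: for `l ≠ p` there are `p` classes of units modulo `p`-th powers.
-/

noncomputable section

namespace BKGlob2

open NumberField IsDedekindDomain Polynomial BKGen BKGen.SUnits

namespace LDx

open BKGen.LocalCount Module

variable {l : ℕ} [hl : Fact l.Prime] {E : Type} [NormedField E] [IsUltrametricDist E]
variable {p : ℕ} [hp : Fact p.Prime]

theorem mem_range_iff (u : un E) : u ∈ (LAx.pw E p).range ↔ IsPw p ((u : Eˣ) : E) := by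
  constructor
  · rintro ⟨y, hy⟩
    refine ⟨((y : Eˣ) : E), ?_⟩
    have h1 : ((y : Eˣ)) ^ p = (u : Eˣ) := congrArg Subtype.val hy
    rw [← h1, Units.val_pow_eq_pow_val]
  · rintro ⟨y, hy⟩
    have hy0 : y ≠ 0 := by
      intro h
      rw [h, zero_pow hp.out.ne_zero] at hy
      exact (u : Eˣ).ne_zero hy.symm
    have h1 : ‖((u : Eˣ) : E)‖ = 1 := (mem_un E _).mp u.2
    rw [← hy, norm_pow] at h1
    have h2 : ‖y‖ = 1 := (pow_eq_one_iff_of_nonneg (norm_nonneg _) hp.out.ne_zero).mp h1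
    refine ⟨⟨Units.mk0 y hy0, h2⟩, ?_⟩
    apply Subtype.ext
    apply Units.ext
    change (y : E) ^ p = ((u : Eˣ) : E)
    rw [hy]

variable [NormedAlgebra ℚ_[l] E] [FiniteDimensional ℚ_[l] E]

include l in
theorem main (hlp : l ≠ p) {ζ : E} (hζ : IsPrimitiveRoot ζ p) :
    (∃ x : Eˣ, ‖(x : E)‖ = 1 ∧ ¬ IsPw p (x : E)) ∧
    ∀ x y : Eˣ, ‖(x : E)‖ = 1 → ‖(y : E)‖ = 1 → ¬ IsPw p (x : E) →
      ∃ (i : ℕ) (c : E), (y : E) = (x : E) ^ i * c ^ p := by
  have hidx := LAx.index_pw_units (l := l) E hlp hζ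
  constructor
  · by_contra hcon
    push Not at hcon
    have htop : (LAx.pw E p).range = ⊤ := by
      rw [eq_top_iff]
      intro u _
      rw [mem_range_iff]
      exact hcon u.1 u.2
    rw [htop, Subgroup.index_top] at hidx
    exact hp.out.one_lt.ne hidx
  · intro x y hx hy hxp
    set u : un E := ⟨x, hx⟩ with hu
    set w : un E := ⟨y, hy⟩ with hw
    have hcard : Nat.card (un E ⧸ (LAx.pw E p).range) = p := by
      rw [← Subgroup.index_eq_card]
      exact hidx
    have hne : (QuotientGroup.mk u : un E ⧸ (LAx.pw E p).range) ≠ 1 := by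
      intro h
      rw [QuotientGroup.eq_one_iff, mem_range_iff] at h
      exact hxp h
    obtain ⟨i, hi⟩ := mem_powers_of_prime_card (p := p) hcard
      (g' := (QuotientGroup.mk w : un E ⧸ (LAx.pw E p).range)) hne
    have hi' : (QuotientGroup.mk (u ^ i) : un E ⧸ (LAx.pw E p).range) = QuotientGroup.mk w := hi
    rw [QuotientGroup.eq] at hi'
    obtain ⟨c, hc⟩ := hi'
    refine ⟨i, ((c : Eˣ) : E), ?_⟩
    have h1 : w = u ^ i * c ^ p := by
      have : c ^ p = (u ^ i)⁻¹ * w := hc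
      rw [this, mul_inv_cancel_left]
    have h2 : ((w : Eˣ) : E) = (((u ^ i * c ^ p : un E) : Eˣ) : E) := by rw [h1]
    exact h2

end LDx

theorem stLD : StLD := by
  intro p l _ _ hlp k _ ζ hζ
  exact LDx.main (l := l) (E := k) hlp hζ

end BKGlob2
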