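import Pool.Agent.Lib.MP_7c08ba_nt.Met.GStmts
import Pool.Agent.Lib.MP_7c08ba_nt.Gen.Local

set_option autoImplicit false

/-!
Module LE: elements near `1` are `p`-th powers.
-/

noncomputable section

namespace BKGlob2

open Polynomial

namespace LEAux

variable {p l : ℕ} [Fact p.Prime] [Fact l.Prime]

theorem norm_root {ζ : PadicAlgCl l} (h : ζ ^ p = 1) : ‖ζ‖ = 1 := by
  have h1 : ‖ζ‖ ^ p = 1 := by rw [← norm_pow, h, norm_one]
  exact (pow_eq_one_iff_of_nonneg (norm_nonneg _) (Fact.out : p.Prime).ne_zero).1 h1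

theorem norm_pow_sub_one {ζ : PadicAlgCl l} (h : ‖ζ‖ = 1) (i : ℕ) : ‖ζ ^ i - 1‖ ≤ ‖ζ - 1‖ := by
  induction i with
  | zero => simp
  | succ i ih =>
    have e : ζ ^ (i + 1) - 1 = ζ * (ζ ^ i - 1) + (ζ - 1) := by ring
    rw [e]
    refine (IsUltrametricDist.norm_add_le_max _ _).trans (max_le ?_ le_rfl)
    rw [norm_mul, h, one_mul]
    exact ih

/-- roots of unity near `1` are `1` -/
theorem root_eq_one {ζ : PadicAlgCl l} (h : ζ ^ p = 1) (h1 : ‖ζ - 1‖ < ‖(p : PadicAlgCl l)‖) :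
    ζ = 1 := by
  by_contra hne
  have h2 : ∑ i ∈ Finset.range p, ζ ^ i = 0 := by
    have h3 := geom_sum_mul ζ p
    rw [h, sub_self] at h3
    exact (mul_eq_zero.1 h3).resolve_right (sub_ne_zero.2 hne)
  have h3 : (p : PadicAlgCl l) = -∑ i ∈ Finset.range p, (ζ ^ i - 1) := by
    rw [Finset.sum_sub_distrib, h2]
    simp
  have h4 : ‖(p : PadicAlgCl l)‖ ≤ ‖ζ - 1‖ := by
    conv_lhs => rw [h3, norm_neg]
    exact IsUltrametricDist.norm_sum_le_of_forall_le_of_nonneg (norm_nonneg _)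
      fun i _ => norm_pow_sub_one (norm_root h) i
  exact absurd h1 (not_lt.2 h4)

/-- a `p`-th root near `1` -/
theorem exists_near {x : PadicAlgCl l} {δ : ℝ} (hδ : 0 < δ) (hx : ‖x - 1‖ < δ ^ p) :
    ∃ y : PadicAlgCl l, y ^ p = x ∧ ‖y - 1‖ < δ := by
  have hp : p.Prime := Fact.out
  obtain ⟨y₀, hy₀⟩ := IsAlgClosed.exists_pow_nat_eq x hp.pos
  have : NeZero p := ⟨hp.ne_zero⟩
  obtain ⟨ζ, hζ⟩ := HasEnoughRootsOfUnity.exists_primitiveRoot (PadicAlgCl l) p
  have h1 := congrArg (Polynomial.eval y₀) (X_pow_sub_one_eq_prod hp.pos hζ)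
  rw [eval_prod] at h1
  simp only [eval_sub, eval_pow, eval_X, eval_one, eval_C, hy₀] at h1
  obtain ⟨η, hη, hlt⟩ : ∃ η ∈ nthRootsFinset p (1 : PadicAlgCl l), ‖y₀ - η‖ < δ := by
    by_contra hcon
    push Not at hcon
    have h2 : δ ^ p ≤ ‖x - 1‖ := by
      have h3 : δ ^ p = ∏ _η ∈ nthRootsFinset p (1 : PadicAlgCl l), δ := by
        rw [Finset.prod_const, hζ.card_nthRootsFinset]
      rw [h1, norm_prod, h3]
      exact Finset.prod_le_prod (fun _ _ => hδ.le) hcon
    exact absurd hx (not_lt.2 h2)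
  have hη1 : η ^ p = 1 := (mem_nthRootsFinset hp.pos _).1 hη
  have hη0 : η ≠ 0 := by
    rintro rfl
    rw [zero_pow hp.ne_zero] at hη1
    exact zero_ne_one hη1
  refine ⟨y₀ * η⁻¹, ?_, ?_⟩
  · rw [mul_pow, inv_pow, hη1, inv_one, mul_one, hy₀]
  · have e : y₀ * η⁻¹ - 1 = (y₀ - η) * η⁻¹ := by
      rw [sub_mul, mul_inv_cancel₀ hη0]
    rw [e, norm_mul, norm_inv, norm_root hη1, inv_one, mul_one]
    exact hlt

end LEAux

open LEAux

theorem stLE : StLE := by
  intro p l _ _ k _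
  have hp : p.Prime := Fact.out
  have hp0 : (0 : ℝ) < ‖(p : PadicAlgCl l)‖ := norm_pos_iff.2 (Nat.cast_ne_zero.2 hp.ne_zero)
  refine ⟨‖(p : PadicAlgCl l)‖ ^ p, pow_pos hp0 _, fun x hx => ?_⟩
  obtain ⟨y, hy, hy1⟩ := exists_near hp0 hx
  have hyk : y ∈ k := by
    rw [← InfiniteGalois.fixedField_fixingSubgroup k, IntermediateField.mem_fixedField_iff]
    intro t ht
    by_cases hy0 : y = 0
    · rw [hy0, map_zero]
    · have h1 : (t y) ^ p = (x : PadicAlgCl l) := by
        rw [← map_pow, hy]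
        exact (IntermediateField.mem_fixingSubgroup_iff k t).1 ht x x.2
      have h2 : (t y * y⁻¹) ^ p = 1 := by
        rw [mul_pow, inv_pow, h1, ← hy, mul_inv_cancel₀ (pow_ne_zero _ hy0)]
      have h3 : ‖y‖ = 1 := by
        have h4 : ‖y - 1‖ < 1 := hy1.trans_le (by
          have := BKGen.norm_equiv (l := l) AlgEquiv.refl 0
          have h5 : (p : PadicAlgCl l) = algebraMap ℚ_[l] (PadicAlgCl l) (p : ℚ_[l]) := by simp
          rw [h5]
          refine (PadicAlgCl.norm_extends l (p : ℚ_[l])).le.trans ?_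
          exact_mod_cast Padic.norm_int_le_one (p := l) (p : ℤ))
        have h5 : y = (y - 1) + 1 := by ring
        rw [h5, IsUltrametricDist.norm_add_eq_max_of_norm_ne_norm (by rw [norm_one]; exact h4.ne),
          norm_one]
        exact max_eq_right h4.le
      have h4 : ‖t y * y⁻¹ - 1‖ < ‖(p : PadicAlgCl l)‖ := by
        have e : t y * y⁻¹ - 1 = (t (y - 1) - (y - 1)) * y⁻¹ := by
          rw [map_sub, map_one]
          field_simp
          ring
        rw [e, norm_mul, norm_inv, h3, inv_one, mul_one, sub_eq_add_neg]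
        refine (IsUltrametricDist.norm_add_le_max _ _).trans_lt (max_lt ?_ ?_)
        · rw [BKGen.norm_equiv]
          exact hy1
        · rw [norm_neg]
          exact hy1
      have h5 := root_eq_one h2 h4
      field_simp at h5
      exact h5
  exact ⟨⟨y, hyk⟩, Subtype.ext hy⟩

end BKGlob2
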