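import Pool.Agent.Lib.MP_7c08ba_nt.Met.GStmts

set_option autoImplicit false

/-!
The Hasse norm theorem in degree `p`, module NA1: if `a` is a `p`-th power, then every element is
a norm of the algebra `k[X] / (X ^ p - a)`.
-/

noncomputable section

namespace BKGlob2

open NumberField IsDedekindDomain Polynomial BKGen BKGen.SUnits

namespace NA1Aux

/-- the norm of the algebra of functions -/
theorem norm_fun (k : Type) [Field k] (n : ℕ) (y : Fin n → k) :
    Algebra.norm k y = ∏ i, y i := by
  rw [Algebra.norm_eq_matrix_det (Pi.basisFun k (Fin n)) y, ← Matrix.det_diagonal]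
  congr 1
  ext i j
  rw [Algebra.leftMulMatrix_eq_repr_mul, Pi.basisFun_repr, Pi.basisFun_apply, Pi.mul_apply,
    Matrix.diagonal_apply, Pi.single_apply]
  by_cases h : i = j
  · rw [if_pos h, if_pos h, mul_one]
  · rw [if_neg h, if_neg h, mul_zero]

/-- the algebra `k[X] / (X ^ p - c ^ p)` is an algebra of functions -/
theorem exists_equiv (p : ℕ) (hp : p.Prime) (k : Type) [Field k] (ζ : k)
    (hζ : IsPrimitiveRoot ζ p) (a c : k) (hc : c ≠ 0) (hca : c ^ p = a) :
    Nonempty (AdjoinRoot (X ^ p - C a : k[X]) ≃ₐ[k] (Fin p → k)) := by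
  set f : k[X] := X ^ p - C a with hf
  have hmon : f.Monic := monic_X_pow_sub_C a hp.ne_zero
  have hdeg : f.natDegree = p := natDegree_X_pow_sub_C
  set x : Fin p → k := fun i => c * ζ ^ (i : ℕ) with hx
  have hxp : x ^ p = fun _ => a := by
    funext i
    rw [Pi.pow_apply, hx]
    simp only
    rw [mul_pow, hca, ← pow_mul, mul_comm (i : ℕ), pow_mul, hζ.pow_eq_one, one_pow, mul_one]
  have hroot : f.eval₂ (Algebra.ofId k (Fin p → k) : k →+* (Fin p → k)) x = 0 := by
    rw [hf, eval₂_sub, eval₂_X_pow, eval₂_C, hxp]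
    funext i
    simp [Algebra.ofId_apply]
  set Φ := AdjoinRoot.liftAlgHom f (Algebra.ofId k (Fin p → k)) x hroot with hΦ
  have hxinj : Function.Injective x := by
    intro i j hij
    have h1 : c * ζ ^ (i : ℕ) = c * ζ ^ (j : ℕ) := hij
    exact Fin.ext (hζ.pow_inj i.2 j.2 (mul_left_cancel₀ hc h1))
  have hΦmk : ∀ (g : k[X]) (i : Fin p), Φ (AdjoinRoot.mk f g) i = g.eval (x i) := by
    intro g i
    rw [hΦ, AdjoinRoot.liftAlgHom_mk]
    change Pi.evalRingHom (fun _ : Fin p => k) i
      (g.eval₂ (Algebra.ofId k (Fin p → k) : k →+* (Fin p → k)) x) = _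
    rw [Polynomial.hom_eval₂]
    rfl
  have hinj : Function.Injective Φ := by
    rw [injective_iff_map_eq_zero]
    intro z hz
    obtain ⟨g, rfl⟩ := AdjoinRoot.mk_surjective z
    have h1 : AdjoinRoot.mk f g = AdjoinRoot.mk f (g %ₘ f) := by
      rw [AdjoinRoot.mk_eq_mk, modByMonic_eq_sub_mul_div, sub_sub_cancel]
      exact Dvd.intro _ rfl
    rw [h1] at hz ⊢
    have h2 : g %ₘ f = 0 := by
      refine Polynomial.eq_zero_of_natDegree_lt_card_of_eval_eq_zero (g %ₘ f) hxinj
        (fun i => ?_) ?_
      · rw [← hΦmk, hz]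
        rfl
      · rw [Fintype.card_fin]
        have := natDegree_modByMonic_lt g hmon (by
          intro h
          rw [h, natDegree_one] at hdeg
          exact hp.ne_zero hdeg.symm)
        rwa [hdeg] at this
    rw [h2, map_zero]
  have hfin : Module.finrank k (AdjoinRoot f) = Module.finrank k (Fin p → k) := by
    rw [(AdjoinRoot.powerBasis' hmon).finrank, AdjoinRoot.powerBasis'_dim, hdeg,
      Module.finrank_fin_fun]
  have hfd : FiniteDimensional k (AdjoinRoot f) := (AdjoinRoot.powerBasis' hmon).finite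
  have hsurj : Function.Surjective Φ :=
    (LinearMap.injective_iff_surjective_of_finrank_eq_finrank (f := Φ.toLinearMap) hfin).1 hinj
  exact ⟨AlgEquiv.ofBijective Φ ⟨hinj, hsurj⟩⟩

end NA1Aux

open NA1Aux in
/-- Module NA1: if `a` is a `p`-th power, then every element is a norm. -/
theorem stNA1 : StNA1 := by
  intro p hp k _ ζ hζ a b ⟨c, hc⟩
  have hc0 : c ≠ 0 := by
    rintro rfl
    rw [zero_pow hp.ne_zero] at hc
    exact a.ne_zero hc.symm
  obtain ⟨e⟩ := exists_equiv p hp k ζ hζ (a : k) c hc0 hc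
  have hp0 : 0 < p := hp.pos
  set i0 : Fin p := ⟨0, hp0⟩ with hi0
  set y : Fin p → k := Function.update (fun _ => 1) i0 (b : k) with hy
  set y' : Fin p → k := Function.update (fun _ => 1) i0 ((b⁻¹ : kˣ) : k) with hy'
  have hyy : y * y' = 1 := by
    funext i
    rw [Pi.mul_apply, Pi.one_apply]
    by_cases h : i = i0
    · subst h
      rw [hy, hy', Function.update_self, Function.update_self, Units.mul_inv]
    · rw [hy, hy', Function.update_of_ne h, Function.update_of_ne h, mul_one]
  have hyy' : y' * y = 1 := by rw [mul_comm, hyy]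
  refine ⟨⟨e.symm y, e.symm y', ?_, ?_⟩, ?_⟩
  · rw [← map_mul, hyy, map_one]
  · rw [← map_mul, hyy', map_one]
  · ext
    change Algebra.norm k (e.symm y) = (b : k)
    rw [Algebra.norm_eq_of_algEquiv, norm_fun, Finset.prod_eq_single i0]
    · rw [hy, Function.update_self]
    · intro i _ h
      rw [hy, Function.update_of_ne h]
    · intro h
      exact absurd (Finset.mem_univ _) h

end BKGlob2
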