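import Pool.Agent.Lib.MP_7c08ba_nt.Met.GStmts

set_option autoImplicit false

/-!
Module NA2: `p`-th powers are norms.
-/

noncomputable section

namespace BKGlob2

open Polynomial

/-- Module NA2. -/
theorem stNA2 : StNA2 := by
  intro p hp k _ a
  rintro _ ⟨c, rfl⟩
  have hm : (X ^ p - C a : k[X]).Monic := monic_X_pow_sub_C a hp.ne_zero
  refine ⟨Units.map (algebraMap k (AdjoinRoot (X ^ p - C a : k[X])) : k →* _) c, ?_⟩
  apply Units.ext
  change Algebra.norm k (algebraMap k (AdjoinRoot (X ^ p - C a : k[X])) (c : k)) = (c : k) ^ p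
  rw [Algebra.norm_algebraMap_of_basis (AdjoinRoot.powerBasis' hm).basis, Fintype.card_fin,
    AdjoinRoot.powerBasis'_dim, natDegree_X_pow_sub_C]

end BKGlob2
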