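import Pool.Agent.Lib.MP_7c08ba_nt.Met.GStmts

set_option autoImplicit false

/-!
Module NA3: the norm group is the group of norms of the field `k(a^{1/p})`.
-/

noncomputable section

namespace BKGlob2

open Polynomial

namespace NA3Aux

/-- the isomorphism with the field `k(a^{1/p})` -/
theorem exists_equiv {p : ℕ} (hp : p.Prime) {k N : Type} [Field k] [Field N] [Algebra k N] {a : k}
    {α : N} (ha : ¬ IsPw p a) (hα : α ^ p = algebraMap k N a)
    (htop : IntermediateField.adjoin k {α} = ⊤) :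
    Nonempty (AdjoinRoot (X ^ p - C a : k[X]) ≃ₐ[k] N) := by
  haveI : Fact (Irreducible (X ^ p - C a : k[X])) :=
    ⟨X_pow_sub_C_irreducible_of_prime hp fun b hb => ha ⟨b, hb⟩⟩
  have h0 : (X ^ p - C a : k[X]).eval₂ (Algebra.ofId k N : k →ₐ[k] N) α = 0 := by
    rw [eval₂_sub, eval₂_X_pow, eval₂_C, hα]
    exact sub_self _
  let f : AdjoinRoot (X ^ p - C a : k[X]) →ₐ[k] N := AdjoinRoot.liftAlgHom _ (Algebra.ofId k N) α h0
  have hroot : f (AdjoinRoot.root _) = α := AdjoinRoot.lift_root h0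
  refine ⟨AlgEquiv.ofBijective f ⟨f.toRingHom.injective, ?_⟩⟩
  intro y
  have h1 : IntermediateField.adjoin k {α} ≤ f.fieldRange := by
    rw [IntermediateField.adjoin_simple_le_iff]
    exact ⟨_, hroot⟩
  rw [htop] at h1
  exact h1 (show y ∈ (⊤ : IntermediateField k N) from trivial)

end NA3Aux

/-- Module NA3. -/
theorem stNA3 : StNA3 := by
  intro p hp k N _ _ _ a α ha hα htop
  obtain ⟨e⟩ := NA3Aux.exists_equiv hp ha hα htop
  ext b
  constructor
  · rintro ⟨x, hx⟩
    refine ⟨Units.map (e : AdjoinRoot (X ^ p - C a : k[X]) →* N) x, ?_⟩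
    rw [← hx]
    apply Units.ext
    exact Algebra.norm_eq_of_algEquiv e _
  · rintro ⟨y, hy⟩
    refine ⟨Units.map (e.symm : N →* AdjoinRoot (X ^ p - C a : k[X])) y, ?_⟩
    rw [← hy]
    apply Units.ext
    exact Algebra.norm_eq_of_algEquiv e.symm _

end BKGlob2
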