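import Pool.Agent.Lib.MP_7c08ba_nt.Met.GStmts

set_option autoImplicit false

/-!
Hasse norm theorem in degree `p`, module NA4: norm groups are functorial.
-/

noncomputable section

namespace BKGlob2

open Polynomial

namespace NA4Aux

variable {R S : Type*} [CommRing R] [CommRing S] [Nontrivial R] [Nontrivial S]

/-- the norm of `R[X] / g` commutes with the change of rings -/
theorem norm_map (f : R →+* S) {g : R[X]} {g' : S[X]} (hg : g.Monic) (h : g.map f = g')
    (x : AdjoinRoot g) :
    Algebra.norm S (AdjoinRoot.map f g g' (dvd_of_eq h.symm) x) = f (Algebra.norm R x) := by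
  subst h
  have hg' : (g.map f).Monic := hg.map f
  have hdeg : (g.map f).natDegree = g.natDegree := hg.natDegree_map f
  let b := AdjoinRoot.powerBasisAux' hg
  let b' := (AdjoinRoot.powerBasisAux' hg').reindex (finCongr hdeg)
  obtain ⟨P, rfl⟩ := AdjoinRoot.mk_surjective x
  have e0 : AdjoinRoot.map f g (g.map f) (dvd_of_eq rfl) (AdjoinRoot.mk g P) =
      AdjoinRoot.mk (g.map f) (P.map f) := by
    have : (AdjoinRoot.map f g (g.map f) (dvd_of_eq rfl)).comp (AdjoinRoot.mk g) =
        (AdjoinRoot.mk (g.map f)).comp (Polynomial.mapRingHom f) := by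
      apply Polynomial.ringHom_ext
      · intro a
        simp
      · simp
    exact RingHom.congr_fun this P
  have e1 : ∀ (Q : R[X]) (i : Fin g.natDegree),
      b'.repr (AdjoinRoot.mk (g.map f) (Q.map f)) i = f (b.repr (AdjoinRoot.mk g Q) i) := by
    intro Q i
    rw [Module.Basis.repr_reindex_apply, AdjoinRoot.powerBasisAux'_repr_apply_to_fun,
      AdjoinRoot.powerBasisAux'_repr_apply_to_fun, AdjoinRoot.modByMonicHom_mk,
      AdjoinRoot.modByMonicHom_mk, ← Polynomial.map_modByMonic f hg, Polynomial.coeff_map]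
    rfl
  have e2 : ∀ j, b j = AdjoinRoot.mk g (X ^ (j : ℕ)) := by
    intro j
    have := (AdjoinRoot.powerBasis' hg).basis_eq_pow j
    rw [AdjoinRoot.powerBasis'_gen] at this
    rw [map_pow, AdjoinRoot.mk_X]
    exact this
  have e3 : ∀ j, b' j = AdjoinRoot.mk (g.map f) ((X ^ (j : ℕ) : R[X]).map f) := by
    intro j
    have := (AdjoinRoot.powerBasis' hg').basis_eq_pow ((finCongr hdeg).symm j)
    rw [AdjoinRoot.powerBasis'_gen] at this
    rw [Polynomial.map_pow, Polynomial.map_X, map_pow, AdjoinRoot.mk_X, Module.Basis.reindex_apply]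
    exact this
  rw [Algebra.norm_eq_matrix_det b, Algebra.norm_eq_matrix_det b', RingHom.map_det]
  congr 1
  ext i j
  rw [RingHom.mapMatrix_apply, Matrix.map_apply, Algebra.leftMulMatrix_eq_repr_mul,
    Algebra.leftMulMatrix_eq_repr_mul, e2, e3, e0, ← map_mul, ← map_mul,
    ← Polynomial.map_mul, e1]

end NA4Aux

open NA4Aux

theorem stNA4 : StNA4 := by
  intro p hp k k' _ _ f a b hb
  obtain ⟨x, rfl⟩ := hb
  have h : (X ^ p - C a : k[X]).map f = X ^ p - C (f a) := by
    rw [Polynomial.map_sub, Polynomial.map_pow, Polynomial.map_X, Polynomial.map_C]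
  refine ⟨Units.map (AdjoinRoot.map f (X ^ p - C a) (X ^ p - C (f a)) (dvd_of_eq h.symm) :
    AdjoinRoot (X ^ p - C a : k[X]) →* AdjoinRoot (X ^ p - C (f a) : k'[X])) x, ?_⟩
  apply Units.ext
  exact norm_map f (monic_X_pow_sub_C a hp.ne_zero) h (x : AdjoinRoot (X ^ p - C a : k[X]))

end BKGlob2
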