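import Pool.Agent.Lib.MP_7c08ba_nt.Met.GStmts

set_option autoImplicit false

/-!
Hasse norm theorem in degree `p`, module NA5: the norm group depends only on the class modulo
`p`-th powers.
-/

noncomputable section

namespace BKGlob2

open Polynomial

namespace NA5Aux

variable {k : Type*} [Field k] {p : ℕ}

/-- `X ↦ c X` -/
def hm (a a' c : k) (h : a = a' * c ^ p) :
    AdjoinRoot (X ^ p - C a : k[X]) →ₐ[k] AdjoinRoot (X ^ p - C a' : k[X]) :=
  AdjoinRoot.liftAlgHom _ (Algebra.ofId k _)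
    (algebraMap k _ c * AdjoinRoot.root (X ^ p - C a' : k[X])) (by
      have h1 := AdjoinRoot.eval₂_root (X ^ p - C a' : k[X])
      rw [eval₂_sub, eval₂_X_pow, eval₂_C, sub_eq_zero] at h1
      rw [eval₂_sub, eval₂_X_pow, eval₂_C, mul_pow, h1, h, sub_eq_zero]
      change algebraMap k _ c ^ p * algebraMap k _ a' = algebraMap k _ (a' * c ^ p)
      rw [map_mul, map_pow, mul_comm])

theorem hm_root (a a' c : k) (h : a = a' * c ^ p) :
    hm a a' c h (AdjoinRoot.root _) =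
      algebraMap k _ c * AdjoinRoot.root (X ^ p - C a' : k[X]) := by
  unfold hm
  exact AdjoinRoot.liftAlgHom_root _ _ _ _

theorem hm_comp (a a' c c' : k) (h : a = a' * c ^ p) (h' : a' = a * c' ^ p) (hc : c * c' = 1) :
    (hm a' a c' h').comp (hm a a' c h) = AlgHom.id k _ := by
  apply AdjoinRoot.algHom_ext
  rw [AlgHom.comp_apply, hm_root, map_mul, hm_root, AlgHom.commutes, ← mul_assoc, ← map_mul, hc,
    map_one, one_mul, AlgHom.id_apply]

/-- the isomorphism -/
def eqv (a a' c c' : k) (h : a = a' * c ^ p) (h' : a' = a * c' ^ p) (hc : c * c' = 1) :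
    AdjoinRoot (X ^ p - C a : k[X]) ≃ₐ[k] AdjoinRoot (X ^ p - C a' : k[X]) :=
  AlgEquiv.ofAlgHom (hm a a' c h) (hm a' a c' h')
    (hm_comp a' a c' c h' h (by rw [mul_comm, hc])) (hm_comp a a' c c' h h' hc)

end NA5Aux

open NA5Aux

theorem NA5Aux.le (p : ℕ) (k : Type) [Field k] (a a' c : k) (hc : c ≠ 0) (h : a = a' * c ^ p) :
    Nm p k a ≤ Nm p k a' := by
  rintro _ ⟨x, rfl⟩
  have h' : a' = a * c⁻¹ ^ p := by
    rw [h, mul_assoc, ← mul_pow, mul_inv_cancel₀ hc, one_pow, mul_one]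
  let e := eqv a a' c c⁻¹ h h' (mul_inv_cancel₀ hc)
  refine ⟨Units.map (e : AdjoinRoot (X ^ p - C a : k[X]) →* AdjoinRoot (X ^ p - C a' : k[X])) x,
    ?_⟩
  apply Units.ext
  exact Algebra.norm_eq_of_algEquiv e (x : AdjoinRoot (X ^ p - C a : k[X]))

theorem stNA5 : StNA5 := by
  intro p hp k _ a c hc
  apply le_antisymm
  · exact NA5Aux.le p k _ _ c hc rfl
  · refine NA5Aux.le p k _ _ c⁻¹ (inv_ne_zero hc) ?_
    rw [mul_assoc, ← mul_pow, mul_inv_cancel₀ hc, one_pow, mul_one]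

end BKGlob2
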