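import Pool.Agent.Lib.MP_7c08ba_nt.Met.GStmts

set_option autoImplicit false

/-!
Module PA: embeddings which give the same prime are conjugate.
-/

noncomputable section

namespace BKGlob2

open NumberField IsDedekindDomain Polynomial BKGen BKGen.SUnits

namespace PAM

variable {E : Type} [Field E] [NumberField E] {l : ℕ} [Fact l.Prime]

/-- a polynomial with coefficients in `ℚ_l` which vanishes at `j x` vanishes at `j' x` -/
theorem aeval_zero {j j' : E →+* PadicAlgCl l} (h : ∀ y, ‖j y‖ = ‖j' y‖) (x : E)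
    (P : ℚ_[l][X]) (hP : aeval (j x) P = 0) : aeval (j' x) P = 0 := by
  by_contra hne
  have hε : 0 < ‖aeval (j' x) P‖ := norm_pos_iff.2 hne
  set ε : ℝ := ‖aeval (j' x) P‖ with hεd
  set d : ℕ := P.natDegree + 1 with hd
  set C : ℝ := 1 + ∑ i ∈ Finset.range d, (‖j x‖ ^ i) with hC
  have hC1 : ∀ i ∈ Finset.range d, ‖j x‖ ^ i ≤ C := by
    intro i hi
    have := Finset.single_le_sum (f := fun i => ‖j x‖ ^ i) (fun i _ => by positivity) hi
    linarith
  have hC0 : 0 < C := by
    have : 0 ≤ ∑ i ∈ Finset.range d, (‖j x‖ ^ i) := Finset.sum_nonneg fun i _ => by positivity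
    linarith
  have hr : ∀ i : ℕ, ∃ r : ℚ, ‖P.coeff i - (r : ℚ_[l])‖ < ε / 2 / C := fun i =>
    Padic.rat_dense l (P.coeff i) (div_pos (half_pos hε) hC0)
  choose r hr using hr
  set y : E := ∑ i ∈ Finset.range d, ((r i : ℚ) : E) * x ^ i with hy
  have key : ∀ f : E →+* PadicAlgCl l, ‖f x‖ = ‖j x‖ → ‖aeval (f x) P - f y‖ < ε := by
    intro f hf
    have e1 : aeval (f x) P - f y = ∑ i ∈ Finset.range d,
        algebraMap ℚ_[l] (PadicAlgCl l) (P.coeff i - (r i : ℚ_[l])) * f x ^ i := by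
      rw [aeval_eq_sum_range, hy, map_sum, ← Finset.sum_sub_distrib]
      refine Finset.sum_congr rfl fun i _ => ?_
      rw [map_mul, map_pow, map_ratCast, map_sub, map_ratCast, Algebra.smul_def, sub_mul]
    rw [e1]
    refine (IsUltrametricDist.norm_sum_le_of_forall_le_of_nonneg (half_pos hε).le
      fun i hi => ?_).trans_lt (half_lt_self hε)
    rw [norm_mul, norm_pow, hf]
    have h1 : ‖algebraMap ℚ_[l] (PadicAlgCl l) (P.coeff i - (r i : ℚ_[l]))‖ =
        ‖P.coeff i - (r i : ℚ_[l])‖ := PadicAlgCl.norm_extends l _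
    rw [h1]
    calc ‖P.coeff i - (r i : ℚ_[l])‖ * ‖j x‖ ^ i ≤ ‖P.coeff i - (r i : ℚ_[l])‖ * C := by
          gcongr
          exact hC1 i hi
      _ ≤ ε / 2 / C * C := by
          gcongr
          exact (hr i).le
      _ = ε / 2 := div_mul_cancel₀ _ hC0.ne'
  have k1 := key j rfl
  have k2 := key j' (h x).symm
  rw [hP, zero_sub, norm_neg, h] at k1
  have k3 : ‖aeval (j' x) P‖ < ε := by
    have e : aeval (j' x) P = (aeval (j' x) P - j' y) + j' y := by ring
    rw [e]
    exact (IsUltrametricDist.norm_add_le_max _ _).trans_lt (max_lt k2 k1)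
  exact lt_irrefl _ k3

theorem minpoly_eq {j j' : E →+* PadicAlgCl l} (h : ∀ y, ‖j y‖ = ‖j' y‖) (x : E) :
    minpoly ℚ_[l] (j x) = minpoly ℚ_[l] (j' x) := by
  have hi : IsIntegral ℚ_[l] (j x) := Algebra.IsIntegral.isIntegral _
  exact minpoly.eq_of_irreducible_of_monic (minpoly.irreducible hi)
    (aeval_zero h x _ (minpoly.aeval _ _)) (minpoly.monic hi)

end PAM

open PAM in
/-- Module PA: embeddings which give the same prime are conjugate. -/
theorem stPA : StPA := by
  intro E iF iN l hl j j' hjj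
  have h : ∀ y, ‖j y‖ = ‖j' y‖ := norm_eq_of_pl_eq hjj
  obtain ⟨x, hx⟩ := Field.exists_primitive_element ℚ E
  obtain ⟨t, ht⟩ := isConjRoot_iff_exists_algEquiv.1 (show IsConjRoot ℚ_[l] (j' x) (j x) from
    (minpoly_eq h x).symm)
  refine ⟨t, fun y => ?_⟩
  have hy : y ∈ IntermediateField.adjoin ℚ {x} := by
    rw [hx]
    exact IntermediateField.mem_top
  induction hy using IntermediateField.adjoin_induction with
  | mem z hz =>
    rw [Set.mem_singleton_iff.1 hz, ht]
  | algebraMap q =>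
    rw [eq_ratCast, map_ratCast, map_ratCast, map_ratCast]
  | add a b _ _ ha hb => rw [map_add, map_add, map_add, ha, hb]
  | inv a _ ha => rw [map_inv₀, map_inv₀, map_inv₀, ha]
  | mul a b _ _ ha hb => rw [map_mul, map_mul, map_mul, ha, hb]

end BKGlob2
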