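import Pool.Agent.Lib.MP_7c08ba_nt.Met.GStmts
import Pool.Agent.Lib.MP_7c08ba_nt.Gen.GenusPlace

set_option autoImplicit false

/-!
Module PB: the completions are finite extensions; norms and valuations.
-/

noncomputable section

namespace BKGlob2

open NumberField IsDedekindDomain BKGen BKGen.SUnits

namespace PBAux

variable {E : Type} [Field E] [NumberField E] {l : ℕ} [Fact l.Prime] (j : E →+* PadicAlgCl l)

omit [NumberField E] in
theorem isIntegral_j [CharZero E] [Algebra.IsAlgebraic ℚ E] (x : E) :
    IsIntegral ℚ_[l] (j x) :=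
  (Algebra.IsAlgebraic.isAlgebraic (R := ℚ_[l]) (j x)).isIntegral

theorem fd : FiniteDimensional ℚ_[l] (comp l j) := by
  let b := Module.finBasis ℚ E
  let s : Set (PadicAlgCl l) := Set.range fun i => j (b i)
  have hs : s.Finite := Set.finite_range _
  have hfs : FiniteDimensional ℚ_[l] (IntermediateField.adjoin ℚ_[l] s) := by
    have : Finite s := hs
    exact IntermediateField.finiteDimensional_adjoin fun x _ =>
      (Algebra.IsAlgebraic.isAlgebraic (R := ℚ_[l]) x).isIntegral
  have heq : comp l j = IntermediateField.adjoin ℚ_[l] s := by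
    apply le_antisymm
    · unfold comp
      rw [IntermediateField.adjoin_le_iff]
      rintro _ ⟨x, rfl⟩
      rw [← b.sum_repr x, map_sum]
      refine sum_mem fun i _ => ?_
      rw [Algebra.smul_def, map_mul]
      refine mul_mem ?_ (IntermediateField.subset_adjoin _ _ ⟨i, rfl⟩)
      rw [eq_ratCast, map_ratCast]
      have h1 : ((b.repr x i : ℚ) : PadicAlgCl l) =
          algebraMap ℚ_[l] (PadicAlgCl l) ((b.repr x i : ℚ) : ℚ_[l]) := by
        rw [map_ratCast]
      rw [h1]
      exact IntermediateField.algebraMap_mem _ _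
    · rw [IntermediateField.adjoin_le_iff]
      rintro _ ⟨i, rfl⟩
      exact IntermediateField.subset_adjoin _ _ ⟨b i, rfl⟩
  rw [heq]
  exact hfs

/-- the closure of the image -/
def clo : IntermediateField ℚ_[l] (PadicAlgCl l) where
  toSubalgebra :=
    { toSubsemiring := (j.fieldRange.topologicalClosure).toSubring.toSubsemiring
      algebraMap_mem' := by
        intro r
        show algebraMap ℚ_[l] (PadicAlgCl l) r ∈ closure (j.fieldRange : Set (PadicAlgCl l))
        have hc : Continuous (algebraMap ℚ_[l] (PadicAlgCl l)) := continuous_algebraMap _ _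
        have h1 : r ∈ closure (Set.range ((↑) : ℚ → ℚ_[l])) := Padic.denseRange_ratCast l r
        have h2 := hc.closure_preimage_subset (j.fieldRange : Set (PadicAlgCl l))
        apply h2
        refine closure_mono ?_ h1
        rintro _ ⟨q, rfl⟩
        show algebraMap ℚ_[l] (PadicAlgCl l) (q : ℚ_[l]) ∈ j.fieldRange
        rw [map_ratCast]
        exact ⟨(q : E), map_ratCast j q⟩ }
  inv_mem' := fun x hx => (j.fieldRange.topologicalClosure).inv_mem hx

theorem comp_le_clo : comp l j ≤ clo j := by
  unfold comp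
  rw [IntermediateField.adjoin_le_iff]
  rintro _ ⟨x, rfl⟩
  exact subset_closure (s := (j.fieldRange : Set (PadicAlgCl l))) ⟨x, rfl⟩

theorem exists_norm_eq (y : comp l j) (hy : y ≠ 0) :
    ∃ x : E, ‖j x‖ = ‖(y : PadicAlgCl l)‖ := by
  have h1 : (y : PadicAlgCl l) ∈ closure (j.fieldRange : Set (PadicAlgCl l)) :=
    comp_le_clo j y.2
  have hy0 : (y : PadicAlgCl l) ≠ 0 := fun h => hy (Subtype.ext h)
  obtain ⟨_, ⟨x, rfl⟩, hx⟩ := Metric.mem_closure_iff.1 h1 ‖(y : PadicAlgCl l)‖
    (norm_pos_iff.2 hy0)
  refine ⟨x, ?_⟩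
  rw [dist_eq_norm] at hx
  have h2 : ‖(y : PadicAlgCl l) + -j x‖ < max ‖(y : PadicAlgCl l)‖ ‖-j x‖ := by
    rw [← sub_eq_add_neg]
    exact lt_max_of_lt_left hx
  have h3 := IsUltrametricDist.norm_eq_of_add_norm_lt_max h2
  rw [norm_neg] at h3
  exact h3.symm

end PBAux

theorem stPB : StPB := by
  intro E _ _ l _ j
  refine ⟨PBAux.fd j, ?_, ?_⟩
  · intro x
    constructor
    · intro h
      have hs : pl j = Genus.spec j := by
        apply HeightOneSpectrum.ext
        rfl
      rw [hs]
      exact Genus.val_eq_one_of_norm j h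
    · intro h
      exact norm_eq_of_val j h
  · intro y
    obtain ⟨x, hx⟩ := PBAux.exists_norm_eq j (y : comp l j) y.ne_zero
    have hx0 : x ≠ 0 := by
      rintro rfl
      rw [map_zero, norm_zero] at hx
      have : ((y : comp l j) : PadicAlgCl l) = 0 := norm_eq_zero.1 hx.symm
      exact y.ne_zero (Subtype.ext this)
    exact ⟨Units.mk0 x hx0, hx⟩

end BKGlob2
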