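import Pool.Agent.Lib.MP_7c08ba_nt.Met.GStmts

set_option autoImplicit false

/-!
The Hasse norm theorem for Kummer extensions of prime degree `p` of number fields: module PC, the
sum of the local degrees.
-/

noncomputable section

namespace BKGlob2

open NumberField IsDedekindDomain Polynomial BKGen BKGen.SUnits

namespace GPC

section Loc

variable {E : Type} [Field E] {l : ℕ} [Fact l.Prime]

theorem fd_comp [NumberField E] (j : E →+* PadicAlgCl l) :
    FiniteDimensional ℚ_[l] (comp l j) := by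
  classical
  let b := Module.finBasis ℚ E
  let S : Set (PadicAlgCl l) := Set.range fun i => j (b i)
  have hS : comp l j = IntermediateField.adjoin ℚ_[l] S := by
    apply le_antisymm
    · rw [BKGen.comp, IntermediateField.adjoin_le_iff]
      rintro _ ⟨x, rfl⟩
      rw [← b.sum_repr x, map_sum]
      refine sum_mem fun i _ => ?_
      rw [Rat.smul_def, map_mul, map_ratCast]
      refine mul_mem ?_ (IntermediateField.subset_adjoin _ _ ⟨i, rfl⟩)
      exact SubfieldClass.ratCast_mem _ _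
    · rw [IntermediateField.adjoin_le_iff]
      rintro _ ⟨i, rfl⟩
      exact IntermediateField.subset_adjoin _ _ ⟨b i, rfl⟩
  rw [hS]
  have : Finite S := Set.finite_range _
  apply IntermediateField.finiteDimensional_adjoin
  intro x _
  exact Algebra.IsIntegral.isIntegral x

/-- algebra homomorphisms from a subextension are isometries -/
theorem norm_hom (k : IntermediateField ℚ_[l] (PadicAlgCl l)) (φ : k →ₐ[ℚ_[l]] PadicAlgCl l)
    (y : k) : ‖φ y‖ = ‖(y : PadicAlgCl l)‖ := by
  rw [← PadicAlgCl.spectralNorm_eq, ← PadicAlgCl.spectralNorm_eq]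
  unfold spectralNorm
  congr 1
  rw [minpoly.algHom_eq φ φ.injective y]
  exact (minpoly.algHom_eq k.val k.val.injective y).symm

theorem pl_ext [NumberField E] {j j' : E →+* PadicAlgCl l} (h : ∀ x, ‖j x‖ = ‖j' x‖) :
    pl j = pl j' := by
  apply HeightOneSpectrum.ext
  ext a
  rw [mem_pl, mem_pl, h]

/-- the embeddings which give the same place -/
def fib [NumberField E] (j₀ : E →+* PadicAlgCl l) (φ : comp l j₀ →ₐ[ℚ_[l]] PadicAlgCl l) :
    {j : E →+* PadicAlgCl l // pl j = pl j₀} :=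
  ⟨(φ : comp l j₀ →+* PadicAlgCl l).comp (toC j₀), pl_ext fun x => norm_hom _ φ (toC j₀ x)⟩

theorem card_fib [NumberField E] (h1 : StPA) (j₀ : E →+* PadicAlgCl l) :
    Nat.card {j : E →+* PadicAlgCl l // pl j = pl j₀} = Module.finrank ℚ_[l] (comp l j₀) := by
  have := fd_comp j₀
  have hb : Function.Bijective (fib j₀) := by
    constructor
    · intro φ φ' h
      apply IntermediateField.adjoin_algHom_ext
      rintro _ ⟨x, rfl⟩
      have h2 := congrArg (fun f : {j : E →+* PadicAlgCl l // pl j = pl j₀} => f.1 x) h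
      exact h2
    · rintro ⟨j, hj⟩
      obtain ⟨t, ht⟩ := h1 E l j₀ j hj.symm
      refine ⟨(t : PadicAlgCl l →ₐ[ℚ_[l]] PadicAlgCl l).comp (comp l j₀).val, ?_⟩
      apply Subtype.ext
      ext x
      exact (ht x).symm
  rw [← Nat.card_eq_of_bijective _ hb, Nat.card_eq_fintype_card]
  exact AlgHom.card ℚ_[l] (comp l j₀) (PadicAlgCl l)

end Loc

section Glob

variable {E : Type} [Field E] [NumberField E]

theorem card_eq (h1 : StPA) (v : HeightOneSpectrum (𝓞 E)) (l : ℕ) [Fact l.Prime]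
    (h : chr v = l) :
    Nat.card {j : E →+* PadicAlgCl l // pl j = v} = Module.finrank ℚ_[chr v] (kv v) := by
  subst h
  have h2 := card_fib h1 (emb v)
  rw [pl_emb v] at h2
  exact h2

theorem chr_mem (v : HeightOneSpectrum (𝓞 E)) : ((chr v : ℕ) : 𝓞 E) ∈ v.asIdeal := by
  have h := l_mem_plI (emb v)
  have h2 : plI (emb v) = v.asIdeal := congrArg HeightOneSpectrum.asIdeal (pl_emb v)
  rwa [h2] at h

theorem chr_eq (v : HeightOneSpectrum (𝓞 E)) (l : ℕ) [hl : Fact l.Prime]
    (h : (l : 𝓞 E) ∈ v.asIdeal) : chr v = l := by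
  by_contra hne
  have hc : IsCoprime ((chr v : ℕ) : ℤ) (l : ℤ) :=
    Nat.isCoprime_iff_coprime.2 ((Nat.coprime_primes (factChr v).out hl.out).2 hne)
  obtain ⟨a, b, hab⟩ := hc
  have h1 : (1 : 𝓞 E) ∈ v.asIdeal := by
    have h2 : (a : 𝓞 E) * ((chr v : ℕ) : 𝓞 E) + (b : 𝓞 E) * (l : 𝓞 E) = 1 := by
      exact_mod_cast congrArg (fun z : ℤ => (z : 𝓞 E)) hab
    rw [← h2]
    exact add_mem (Ideal.mul_mem_left _ _ (chr_mem v)) (Ideal.mul_mem_left _ _ h)
  exact v.isPrime.ne_top ((Ideal.eq_top_iff_one _).2 h1)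

theorem mem_of_pl {l : ℕ} [Fact l.Prime] {v : HeightOneSpectrum (𝓞 E)} {j : E →+* PadicAlgCl l}
    (h : pl j = v) : (l : 𝓞 E) ∈ v.asIdeal := by
  rw [← h]
  exact l_mem_plI j

theorem card_if (h1 : StPA) (v : HeightOneSpectrum (𝓞 E)) (l : ℕ) [Fact l.Prime] :
    Nat.card {j : E →+* PadicAlgCl l // pl j = v} =
      if chr v = l then Module.finrank ℚ_[chr v] (kv v) else 0 := by
  split_ifs with h
  · exact card_eq h1 v l h
  · have : IsEmpty {j : E →+* PadicAlgCl l // pl j = v} :=
      ⟨fun j => h (chr_eq v l (mem_of_pl j.2))⟩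
    exact Nat.card_of_isEmpty

theorem card_emb (l : ℕ) [Fact l.Prime] :
    Nat.card (E →+* PadicAlgCl l) = Module.finrank ℚ E := by
  rw [Nat.card_congr (RingHom.equivRatAlgHom (R := E) (S := PadicAlgCl l)),
    Nat.card_eq_fintype_card]
  exact AlgHom.card ℚ E (PadicAlgCl l)

theorem sum_deg (h1 : StPA) (p : ℕ) [Fact p.Prime] (S : Finset (HeightOneSpectrum (𝓞 E)))
    (hS : ∀ v : HeightOneSpectrum (𝓞 E), (p : 𝓞 E) ∈ v.asIdeal → v ∈ S) :
    ∑ v ∈ S, (if chr v = p then Module.finrank ℚ_[chr v] (kv v) else 0) =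
      Module.finrank ℚ E := by
  classical
  have hfin : Finite (E →+* PadicAlgCl p) :=
    Finite.of_equiv _ (RingHom.equivRatAlgHom (R := E) (S := PadicAlgCl p)).symm
  have : Fintype (E →+* PadicAlgCl p) := Fintype.ofFinite _
  have h2 := Finset.card_eq_sum_card_fiberwise (s := (Finset.univ : Finset (E →+* PadicAlgCl p)))
    (f := fun j => pl j) (t := S) fun j _ => hS _ (mem_of_pl rfl)
  rw [Finset.card_univ, ← Nat.card_eq_fintype_card, card_emb] at h2
  rw [h2]
  refine Finset.sum_congr rfl fun v _ => ?_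
  rw [← card_if h1 v p, Nat.card_eq_fintype_card, Fintype.card_subtype]

end Glob

end GPC

open GPC in
/-- Module PC -/
theorem stPC (h1 : StPA) (h2 : StLA) : StPC := by
  intro p hp E _ _ ζ hζ S hS
  have h3 : ∀ v ∈ S, (Pw p (kv v)).index =
      p ^ (2 + if chr v = p then Module.finrank ℚ_[chr v] (kv v) else 0) := by
    intro v _
    have := fd_comp (emb v)
    exact h2 p (chr v) (kv v) (toC (emb v) ζ) (hζ.map_of_injective (toC (emb v)).injective)
  rw [Finset.prod_congr rfl h3, Finset.prod_pow_eq_pow_sum, Finset.sum_add_distrib, sum_deg h1 p S hS,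
    Finset.sum_const, smul_eq_mul, mul_comm S.card 2]

end BKGlob2
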