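import Pool.Agent.Lib.MP_7c08ba_nt.Met.GStmts

/-!
Module PD: weak approximation.
-/

set_option autoImplicit false

noncomputable section

namespace BKGlob2

open NumberField IsDedekindDomain BKGen BKGen.SUnits

namespace PDAux

section Dense

variable {E : Type} [Field E] {l : ℕ} [Fact l.Prime]

/-- `E` is dense in its completion. -/
theorem dense_comp (j : E →+* PadicAlgCl l) {x : PadicAlgCl l} (hx : x ∈ comp l j) {δ : ℝ}
    (hδ : 0 < δ) : ∃ z : E, ‖x - j z‖ < δ := by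
  let S : Subfield (PadicAlgCl l) := j.fieldRange.topologicalClosure
  have hS : ∀ y, y ∈ S ↔ y ∈ closure (Set.range j) := fun y => Iff.rfl
  have hcont : Continuous (algebraMap ℚ_[l] (PadicAlgCl l)) := by
    have h1 : Isometry (algebraMap ℚ_[l] (PadicAlgCl l)) := by
      apply AddMonoidHomClass.isometry_of_norm
      intro y
      exact PadicAlgCl.norm_extends l y
    exact h1.continuous
  have hQ : ∀ y : ℚ_[l], algebraMap ℚ_[l] (PadicAlgCl l) y ∈ S := by
    intro y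
    rw [hS]
    have h1 : y ∈ closure (Set.range (Rat.cast : ℚ → ℚ_[l])) := by
      rw [Padic.denseRange_ratCast l |>.closure_range]
      trivial
    have h2 := image_closure_subset_closure_image hcont ⟨y, h1, rfl⟩
    refine closure_mono ?_ h2
    rintro _ ⟨_, ⟨q, rfl⟩, rfl⟩
    refine ⟨(q : E), ?_⟩
    rw [map_ratCast, map_ratCast]
  let S' : IntermediateField ℚ_[l] (PadicAlgCl l) := S.toIntermediateField hQ
  have h3 : comp l j ≤ S' := by
    rw [comp, IntermediateField.adjoin_le_iff]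
    rintro _ ⟨y, rfl⟩
    exact subset_closure ⟨y, rfl⟩
  have h4 : x ∈ closure (Set.range j) := h3 hx
  rw [Metric.mem_closure_iff] at h4
  obtain ⟨_, ⟨z, rfl⟩, hz⟩ := h4 δ hδ
  exact ⟨z, by rwa [dist_eq_norm] at hz⟩

end Dense

section Abs

variable {E : Type} [Field E] [NumberField E]

/-- the absolute value of a place -/
def av (v : HeightOneSpectrum (𝓞 E)) : AbsoluteValue E ℝ where
  toFun x := ‖emb v x‖
  map_mul' x y := by
    change ‖emb v (x * y)‖ = ‖emb v x‖ * ‖emb v y‖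
    rw [map_mul, norm_mul]
  nonneg' x := norm_nonneg _
  eq_zero' x := by
    change ‖emb v x‖ = 0 ↔ x = 0
    rw [norm_eq_zero, map_eq_zero]
  add_le' x y := by
    change ‖emb v (x + y)‖ ≤ ‖emb v x‖ + ‖emb v y‖
    rw [map_add]
    exact norm_add_le _ _

theorem av_apply (v : HeightOneSpectrum (𝓞 E)) (x : E) : av v x = ‖emb v x‖ := rfl

theorem mem_iff (v : HeightOneSpectrum (𝓞 E)) (a : 𝓞 E) :
    a ∈ v.asIdeal ↔ av v (algebraMap (𝓞 E) E a) < 1 := by
  have h := mem_pl (emb v) a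
  rwa [pl_emb] at h

theorem av_nontrivial (v : HeightOneSpectrum (𝓞 E)) : (av v).IsNontrivial := by
  refine ⟨((chr v : ℕ) : E), ?_, ?_⟩
  · exact_mod_cast (factChr v).out.ne_zero
  · rw [av_apply, map_natCast]
    exact norm_self_lt.ne

theorem av_not_equiv {v w : HeightOneSpectrum (𝓞 E)} (h : v ≠ w) : ¬ (av v).IsEquiv (av w) := by
  intro he
  apply h
  apply HeightOneSpectrum.ext
  ext a
  rw [mem_iff, mem_iff]
  exact he.lt_one_iff

end Abs

end PDAux

open PDAux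

theorem stPD (hLE : StLE) (hPB : StPB) : StPD := by
  intro p hp E _ _ T x
  classical
  rcases T.eq_empty_or_nonempty with hT | ⟨v₀, hv₀⟩
  · subst hT
    exact ⟨1, fun v hv => absurd hv (Finset.notMem_empty v)⟩
  have hfd : ∀ v : HeightOneSpectrum (𝓞 E), FiniteDimensional ℚ_[chr v] (kv v) := fun v =>
    (hPB E (chr v) (emb v)).1
  have h1 : ∀ v : HeightOneSpectrum (𝓞 E), ∃ ε : ℝ, 0 < ε ∧ ε ≤ 1 ∧
      ∀ x : kv v, ‖((x : kv v) : PadicAlgCl (chr v)) - 1‖ < ε → IsPw p x := by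
    intro v
    obtain ⟨ε, hε, h⟩ := hLE p (chr v) (kv v)
    exact ⟨min ε 1, lt_min hε one_pos, min_le_right _ _, fun y hy =>
      h y (lt_of_lt_of_le hy (min_le_left _ _))⟩
  choose ε hε hε1 hpw using h1
  have hx0 : ∀ v, 0 < ‖(((x v : (kv v)ˣ) : kv v) : PadicAlgCl (chr v))‖ := by
    intro v
    rw [norm_pos_iff]
    intro h
    exact (x v).ne_zero (Subtype.ext h)
  have h2 : ∀ v, ∃ z : E, ‖(((x v : (kv v)ˣ) : kv v) : PadicAlgCl (chr v)) - emb v z‖ <
      ε v * ‖(((x v : (kv v)ˣ) : kv v) : PadicAlgCl (chr v))‖ := fun v =>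
    dense_comp (emb v) (x v : kv v).2 (mul_pos (hε v) (hx0 v))
  choose z hz using h2
  -- simultaneous approximation
  have hd := AbsoluteValue.denseRange_algebraMap_pi (F := E) (ι := T) (v := fun v : T => av v.1)
    (fun v => av_nontrivial v.1) (fun v w hvw => av_not_equiv (fun h => hvw (Subtype.ext h)))
  obtain ⟨r, hr, hr'⟩ : ∃ r : ℝ, 0 < r ∧ ∀ v ∈ T,
      r ≤ ε v * ‖(((x v : (kv v)ˣ) : kv v) : PadicAlgCl (chr v))‖ := by
    obtain ⟨w, hw, hmin⟩ := T.exists_min_image (fun v =>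
      ε v * ‖(((x v : (kv v)ˣ) : kv v) : PadicAlgCl (chr v))‖) ⟨v₀, hv₀⟩
    exact ⟨_, mul_pos (hε w) (hx0 w), hmin⟩
  obtain ⟨y, hy⟩ := Metric.denseRange_iff.1 hd
    (fun v : T => WithAbs.toAbs (av v.1) (z v.1)) r hr
  have hy' : ∀ v ∈ T, ‖emb v (z v) - emb v y‖ < r := by
    intro v hv
    have h3 := (dist_pi_lt_iff hr).1 hy ⟨v, hv⟩
    rw [dist_eq_norm] at h3
    have h4 : ‖WithAbs.toAbs (av v) (z v) - WithAbs.toAbs (av v) y‖ < r := h3
    rw [← WithAbs.toAbs_sub, WithAbs.norm_toAbs_eq, av_apply, map_sub] at h4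
    exact h4
  have hclose : ∀ v ∈ T, ‖(((x v : (kv v)ˣ) : kv v) : PadicAlgCl (chr v)) - emb v y‖ <
      ε v * ‖(((x v : (kv v)ˣ) : kv v) : PadicAlgCl (chr v))‖ := by
    intro v hv
    have h3 : (((x v : (kv v)ˣ) : kv v) : PadicAlgCl (chr v)) - emb v y =
        ((((x v : (kv v)ˣ) : kv v) : PadicAlgCl (chr v)) - emb v (z v)) +
          (emb v (z v) - emb v y) := by ring
    rw [h3]
    exact lt_of_le_of_lt (IsUltrametricDist.norm_add_le_max _ _)
      (max_lt (hz v) (lt_of_lt_of_le (hy' v hv) (hr' v hv)))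
  have hnorm : ∀ v ∈ T, ‖emb v y‖ = ‖(((x v : (kv v)ˣ) : kv v) : PadicAlgCl (chr v))‖ := by
    intro v hv
    have h3 : ‖(((x v : (kv v)ˣ) : kv v) : PadicAlgCl (chr v)) - emb v y‖ <
        ‖(((x v : (kv v)ˣ) : kv v) : PadicAlgCl (chr v))‖ :=
      lt_of_lt_of_le (hclose v hv) (mul_le_of_le_one_left (hx0 v).le (hε1 v))
    have h4 := IsUltrametricDist.norm_eq_of_add_norm_lt_max
      (x := (((x v : (kv v)ˣ) : kv v) : PadicAlgCl (chr v))) (y := - emb v y)
      (by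
        rw [← sub_eq_add_neg]
        exact lt_of_lt_of_le h3 (le_max_left _ _))
    rw [norm_neg] at h4
    exact h4.symm
  have hy0 : y ≠ 0 := by
    rintro rfl
    have h3 := hnorm v₀ hv₀
    rw [map_zero, norm_zero] at h3
    exact (hx0 v₀).ne h3
  refine ⟨Units.mk0 y hy0, fun v hv => hpw v _ ?_⟩
  have hjy : emb v y ≠ 0 := (map_ne_zero _).2 hy0
  have h3 : ((((x v * (loc v (Units.mk0 y hy0))⁻¹ : (kv v)ˣ)) : kv v) : PadicAlgCl (chr v)) =
      (((x v : (kv v)ˣ) : kv v) : PadicAlgCl (chr v)) / emb v y := by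
    rw [Units.val_mul, MulMemClass.coe_mul, Units.val_inv_eq_inv_val, div_eq_mul_inv]
    rfl
  rw [h3, div_sub_one hjy, norm_div, hnorm v hv, div_lt_iff₀ (hx0 v)]
  exact hclose v hv

end BKGlob2
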