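import Pool.Agent.Lib.MP_7c08ba_nt.Met.GStmts

set_option autoImplicit false

/-!
The Hasse norm theorem in degree `p`, module SA: finite sets of primes which generate the class
group.
-/

noncomputable section

namespace BKGlob2

open NumberField IsDedekindDomain Polynomial BKGen BKGen.SUnits

namespace SAAux

variable {E : Type} [Field E] [NumberField E]

/-- the exponent of `w` in the factorisation of `I` -/
def cnt (w : HeightOneSpectrum (𝓞 E)) (I : Ideal (𝓞 E)) : ℕ :=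
  (Associates.mk w.asIdeal).count (Associates.mk I).factors

theorem cnt_mul (w : HeightOneSpectrum (𝓞 E)) {I J : Ideal (𝓞 E)} (hI : I ≠ 0) (hJ : J ≠ 0) :
    cnt w (I * J) = cnt w I + cnt w J := by
  unfold cnt
  rw [← Associates.mk_mul_mk]
  exact Associates.count_mul (Associates.mk_ne_zero.2 hI) (Associates.mk_ne_zero.2 hJ)
    w.associates_irreducible

theorem cnt_eq_zero (w : HeightOneSpectrum (𝓞 E)) {I : Ideal (𝓞 E)} (hI : I ≠ 0)
    (h : ¬ w.asIdeal ∣ I) : cnt w I = 0 := by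
  by_contra hne
  exact h ((Associates.count_ne_zero_iff_dvd hI w.irreducible).1 hne)

theorem cnt_self (w : HeightOneSpectrum (𝓞 E)) : cnt w w.asIdeal = 1 :=
  Associates.count_self w.associates_irreducible

theorem val_eq (w : HeightOneSpectrum (𝓞 E)) {x : 𝓞 E} (hx : x ≠ 0) :
    w.valuation E (algebraMap (𝓞 E) E x) = WithZero.exp (-(cnt w (Ideal.span {x}) : ℤ)) := by
  rw [HeightOneSpectrum.valuation_of_algebraMap, HeightOneSpectrum.intValuation_if_neg _ hx]
  rfl

theorem not_dvd {v w : HeightOneSpectrum (𝓞 E)} (h : w ≠ v) : ¬ w.asIdeal ∣ v.asIdeal := by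
  intro hd
  have h1 : v.asIdeal ≤ w.asIdeal := Ideal.dvd_iff_le.1 hd
  have h2 : v.asIdeal.IsMaximal := v.isMaximal
  exact h (HeightOneSpectrum.ext (h2.eq_of_le w.isPrime.ne_top h1).symm)

/-- the elements attached to a relation between classes -/
theorem exists_el (v : HeightOneSpectrum (𝓞 E)) (J : Ideal (𝓞 E)) (hJ : J ≠ 0) {x y : 𝓞 E}
    (hx : x ≠ 0) (hy : y ≠ 0) (h : Ideal.span {x} * v.asIdeal = Ideal.span {y} * J) :
    ∃ t : Eˣ, (¬ v.asIdeal ∣ J → v.valuation E (t : E) = WithZero.exp (-1 : ℤ)) ∧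
      ∀ w : HeightOneSpectrum (𝓞 E), w ≠ v → ¬ w.asIdeal ∣ J → w.valuation E (t : E) = 1 := by
  have hxE : algebraMap (𝓞 E) E x ≠ 0 := by
    rw [Ne, FaithfulSMul.algebraMap_eq_zero_iff]
    exact hx
  have hyE : algebraMap (𝓞 E) E y ≠ 0 := by
    rw [Ne, FaithfulSMul.algebraMap_eq_zero_iff]
    exact hy
  have hsx : Ideal.span {x} ≠ 0 := by
    rw [Ne, Ideal.zero_eq_bot, Ideal.span_singleton_eq_bot]
    exact hx
  have hsy : Ideal.span {y} ≠ 0 := by
    rw [Ne, Ideal.zero_eq_bot, Ideal.span_singleton_eq_bot]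
    exact hy
  have hc : ∀ w : HeightOneSpectrum (𝓞 E), cnt w (Ideal.span {x}) + cnt w v.asIdeal =
      cnt w (Ideal.span {y}) + cnt w J := by
    intro w
    rw [← cnt_mul w hsx v.ne_bot, ← cnt_mul w hsy hJ, h]
  refine ⟨Units.mk0 (algebraMap (𝓞 E) E y / algebraMap (𝓞 E) E x) (div_ne_zero hyE hxE),
    fun hv => ?_, fun w hw hv => ?_⟩
  · rw [Units.val_mk0, map_div₀, val_eq v hx, val_eq v hy, ← WithZero.exp_sub]
    have h1 := hc v
    rw [cnt_self, cnt_eq_zero v hJ hv] at h1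
    congr 1
    omega
  · rw [Units.val_mk0, map_div₀, val_eq w hx, val_eq w hy, ← WithZero.exp_sub]
    have h1 := hc w
    rw [cnt_eq_zero w v.ne_bot (not_dvd hw), cnt_eq_zero w hJ hv] at h1
    have h2 : -(cnt w (Ideal.span {y}) : ℤ) - -(cnt w (Ideal.span {x}) : ℤ) = 0 := by omega
    rw [h2, WithZero.exp_zero]

end SAAux

open SAAux in
/-- Module SA: every finite set of primes is contained in a finite set with `Prin`, and supersets
of sets with `Prin` have `Prin`. -/
theorem stSA : StSA := by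
  intro E _ _
  refine ⟨?_, ?_⟩
  · intro S S' hSS hS v hv
    obtain ⟨x, hx1, hx2⟩ := hS v (fun h => hv (hSS h))
    exact ⟨x, hx1, fun w hw hwv => hx2 w (fun h => hw (hSS h)) hwv⟩
  · intro T
    classical
    choose J hJ using (ClassGroup.mk0_surjective (R := 𝓞 E))
    have hJ0 : ∀ C, ((J C : Ideal (𝓞 E))) ≠ 0 := fun C => nonZeroDivisors.ne_zero (J C).2
    have hfin : ∀ C, {w : HeightOneSpectrum (𝓞 E) | w.asIdeal ∣ (J C : Ideal (𝓞 E))}.Finite :=
      fun C => Ideal.finite_factors (hJ0 C)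
    refine ⟨T ∪ Finset.univ.biUnion fun C => (hfin C).toFinset, Finset.subset_union_left, ?_⟩
    intro v hv
    have hnd : ∀ w : HeightOneSpectrum (𝓞 E),
        w ∉ ((T ∪ Finset.univ.biUnion fun C => (hfin C).toFinset :
          Finset (HeightOneSpectrum (𝓞 E))) : Set (HeightOneSpectrum (𝓞 E))) →
        ∀ C, ¬ w.asIdeal ∣ (J C : Ideal (𝓞 E)) := by
      intro w hw C hd
      refine hw ?_
      rw [Finset.mem_coe, Finset.mem_union]
      right
      rw [Finset.mem_biUnion]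
      exact ⟨C, Finset.mem_univ C, (hfin C).mem_toFinset.2 hd⟩
    set V : nonZeroDivisors (Ideal (𝓞 E)) :=
      ⟨v.asIdeal, mem_nonZeroDivisors_of_ne_zero v.ne_bot⟩ with hV
    obtain ⟨x, y, hx, hy, hxy⟩ := ClassGroup.mk0_eq_mk0_iff.1 (hJ (ClassGroup.mk0 V)).symm
    obtain ⟨t, ht1, ht2⟩ := exists_el v (J (ClassGroup.mk0 V) : Ideal (𝓞 E)) (hJ0 _) hx hy hxy
    exact ⟨t, ht1 (hnd v hv _), fun w hw hwv => ht2 w hwv (hnd w hw _)⟩

end BKGlob2
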