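import Pool.Agent.Lib.MP_7c08ba_nt.Met.GStmts

set_option autoImplicit false

/-!
Module SB of the Hasse norm theorem in degree `p`: the group of `S`-units of a field with a
primitive `p`-th root of unity, `p` odd.
-/

namespace BKGlob2

open NumberField IsDedekindDomain Polynomial BKGen BKGen.SUnits

namespace SBAux

variable {E : Type} [Field E]

/-- a field with a primitive `p`-th root of unity, `p` odd, has no real embedding -/
theorem isEmpty_real {p : ℕ} (hp : p.Prime) (hp2 : p ≠ 2) {ζ : E} (hζ : IsPrimitiveRoot ζ p) :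
    IsEmpty (E →+* ℝ) := by
  refine ⟨fun f => ?_⟩
  have h1 : f ζ ^ p = 1 := by rw [← map_pow, hζ.pow_eq_one, map_one]
  have h2 : f ζ = 1 := by
    have hodd : Odd p := hp.odd_of_ne_two hp2
    exact hodd.strictMono_pow.injective (by simpa using h1)
  have h3 : ζ = 1 := f.injective (by rw [h2, map_one])
  have h4 := hζ.eq_orderOf
  rw [h3, orderOf_one] at h4
  exact hp.one_lt.ne' h4

theorem two_dvd [NumberField E] (hK : IsEmpty (E →+* ℝ)) : 2 ∣ Module.finrank ℚ E := by
  classical
  have hc : IsTotallyComplex E := ⟨fun v => by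
    by_contra h
    rw [InfinitePlace.not_isComplex_iff_isReal] at h
    exact hK.false (v.embedding_of_isReal h)⟩
  have h2 := IsTotallyComplex.finrank (K := E)
  rw [h2]
  exact dvd_mul_right _ _

end SBAux

/-- Module SB: the group of `S`-units of a field with a primitive `p`-th root of unity, `p` odd. -/
theorem stSB : StSB := by
  intro p hp hp2 E _ _ ζ hζ S
  have hfact : Fact p.Prime := ⟨hp⟩
  have hK := SBAux.isEmpty_real hp hp2 hζ
  have hr := rank_of_isEmpty E hK
  have hS : Nat.card ((S : Set (HeightOneSpectrum (𝓞 E)))) = S.card := by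
    rw [Nat.card_coe_set_eq, Set.ncard_coe_finset]
  have hF : Finite ((S : Set (HeightOneSpectrum (𝓞 E)))) := inferInstance
  refine ⟨finite_sunits E _, ?_, ?_, SBAux.two_dvd hK⟩
  · rw [finrank_sunits, hS]
    omega
  · have h := card_sunits E p hζ (S : Set (HeightOneSpectrum (𝓞 E)))
    rw [hS] at h
    rw [Subgroup.index, h]
    congr 1
    omega

end BKGlob2
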