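import Pool.Agent.Lib.MP_7c08ba_nt.Met.GBase
import Pool.Agent.Lib.MP_7c08ba_nt.Odd.Herbrand

set_option autoImplicit false

/-!
The Hasse norm theorem for Kummer extensions of prime degree `p` of number fields: statements of
the modules.
-/

noncomputable section

namespace BKGlob2

open NumberField IsDedekindDomain Polynomial BKGen BKGen.SUnits

/-! ### Algebra -/

/-- Module HERB: the Herbrand quotient of a finitely generated abelian group with an automorphism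
of prime order `p`. -/
def StHerb : Prop :=
  ∀ (A : Type) [CommGroup A] [Module.Finite ℤ (Additive A)] (p : ℕ), p.Prime → ∀ (σ : A →* A),
    (∀ x, (⇑σ)^[p] x = x) → ∀ (A₀ : Subgroup A), (∀ x, x ∈ A₀ ↔ σ x = x) →
    ∃ b : ℕ, Module.finrank ℤ (Additive A) = Module.finrank ℤ (Additive A₀) + (p - 1) * b ∧
      (Herb.Nm σ p).range.relIndex (Herb.Dm σ).ker * p ^ b =
        (Herb.Dm σ).range.relIndex (Herb.Nm σ p).ker * p ^ Module.finrank ℤ (Additive A₀) ∧
      (Herb.Dm σ).range.relIndex (Herb.Nm σ p).ker ≠ 0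

/-- Module NA1: if `a` is a `p`-th power, then every element is a norm. -/
def StNA1 : Prop :=
  ∀ (p : ℕ), p.Prime → ∀ (k : Type) [Field k] (ζ : k), IsPrimitiveRoot ζ p → ∀ a b : kˣ,
    IsPw p (a : k) → b ∈ Nm p k (a : k)

/-- Module NA2: `p`-th powers are norms. -/
def StNA2 : Prop :=
  ∀ (p : ℕ), p.Prime → ∀ (k : Type) [Field k] (a : k), Pw p k ≤ Nm p k a

/-- Module NA3: the norm group is the group of norms of the field `k(a^{1/p})`. -/
def StNA3 : Prop :=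
  ∀ (p : ℕ), p.Prime → ∀ (k N : Type) [Field k] [Field N] [Algebra k N] (a : k) (α : N),
    ¬ IsPw p a → α ^ p = algebraMap k N a → IntermediateField.adjoin k {α} = ⊤ →
    Nm p k a = (Units.map (Algebra.norm k : N →* k)).range

/-- Module NA4: norm groups are functorial. -/
def StNA4 : Prop :=
  ∀ (p : ℕ), p.Prime → ∀ (k k' : Type) [Field k] [Field k'] (f : k →+* k') (a : k) (b : kˣ),
    b ∈ Nm p k a → Units.map (f : k →* k') b ∈ Nm p k' (f a)

/-- Module NA5: `Nm a` depends only on `a` modulo `p`-th powers. -/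
def StNA5 : Prop :=
  ∀ (p : ℕ), p.Prime → ∀ (k : Type) [Field k] (a c : k), c ≠ 0 → Nm p k (a * c ^ p) = Nm p k a

/-! ### Local fields -/

/-- Module LA: the number of classes modulo `p`-th powers. -/
def StLA : Prop :=
  ∀ (p l : ℕ) [Fact p.Prime] [Fact l.Prime] (k : IntermediateField ℚ_[l] (PadicAlgCl l))
    [FiniteDimensional ℚ_[l] k] (ζ : k), IsPrimitiveRoot ζ p →
    (Pw p k).index = p ^ (2 + if l = p then Module.finrank ℚ_[l] k else 0)

/-- Module LB: the norm index. -/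
def StLB : Prop :=
  ∀ (p l : ℕ) [Fact p.Prime] [Fact l.Prime] (k : IntermediateField ℚ_[l] (PadicAlgCl l))
    [FiniteDimensional ℚ_[l] k] (ζ : k), IsPrimitiveRoot ζ p → ∀ a : kˣ, ¬ IsPw p (a : k) →
    (Nm p k (a : k)).index = p

/-- Module LC: for `l ≠ p` units are norms in extensions generated by roots of units. -/
def StLC : Prop :=
  ∀ (p l : ℕ) [Fact p.Prime] [Fact l.Prime], l ≠ p → ∀ (k : IntermediateField ℚ_[l] (PadicAlgCl l))
    [FiniteDimensional ℚ_[l] k] (ζ : k), IsPrimitiveRoot ζ p → ∀ a b : kˣ,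
    ‖((a : k) : PadicAlgCl l)‖ = 1 → ‖((b : k) : PadicAlgCl l)‖ = 1 → b ∈ Nm p k (a : k)

/-- Module LD: for `l ≠ p` there are `p` classes of units modulo `p`-th powers. -/
def StLD : Prop :=
  ∀ (p l : ℕ) [Fact p.Prime] [Fact l.Prime], l ≠ p → ∀ (k : IntermediateField ℚ_[l] (PadicAlgCl l))
    [FiniteDimensional ℚ_[l] k] (ζ : k), IsPrimitiveRoot ζ p →
    (∃ x : kˣ, ‖((x : k) : PadicAlgCl l)‖ = 1 ∧ ¬ IsPw p (x : k)) ∧
    ∀ x y : kˣ, ‖((x : k) : PadicAlgCl l)‖ = 1 → ‖((y : k) : PadicAlgCl l)‖ = 1 →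
      ¬ IsPw p (x : k) → ∃ (i : ℕ) (c : k), (y : k) = (x : k) ^ i * c ^ p

/-- Module LE: elements near `1` are `p`-th powers. -/
def StLE : Prop :=
  ∀ (p l : ℕ) [Fact p.Prime] [Fact l.Prime] (k : IntermediateField ℚ_[l] (PadicAlgCl l))
    [FiniteDimensional ℚ_[l] k], ∃ ε : ℝ, 0 < ε ∧
    ∀ x : k, ‖((x : k) : PadicAlgCl l) - 1‖ < ε → IsPw p x

/-! ### Places -/

/-- Module PA: embeddings which give the same prime are conjugate. -/
def StPA : Prop :=
  ∀ (E : Type) [Field E] [NumberField E] (l : ℕ) [Fact l.Prime] (j j' : E →+* PadicAlgCl l),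
    pl j = pl j' → ∃ t : PadicAlgCl l ≃ₐ[ℚ_[l]] PadicAlgCl l, ∀ x, j' x = t (j x)

/-- Module PB: the completions are finite extensions (with `comp_fd` below it gives an instance),
and the norm of the embedding is determined by the valuation. -/
def StPB : Prop :=
  ∀ (E : Type) [Field E] [NumberField E] (l : ℕ) [Fact l.Prime] (j : E →+* PadicAlgCl l),
    FiniteDimensional ℚ_[l] (comp l j) ∧
    (∀ x : Eˣ, ‖j (x : E)‖ = 1 ↔ (pl j).valuation E (x : E) = 1) ∧
    ∀ y : (comp l j)ˣ, ∃ x : Eˣ, ‖j (x : E)‖ = ‖((y : comp l j) : PadicAlgCl l)‖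

/-- Module PC: the sum of the local degrees (in product form, together with LA). -/
def StPC : Prop :=
  ∀ (p : ℕ) [Fact p.Prime] (E : Type) [Field E] [NumberField E] (ζ : E), IsPrimitiveRoot ζ p →
    ∀ S : Finset (HeightOneSpectrum (𝓞 E)), (∀ v, (p : 𝓞 E) ∈ v.asIdeal → v ∈ S) →
    ∏ v ∈ S, (Pw p (kv v)).index = p ^ (2 * S.card + Module.finrank ℚ E)

/-- Module PD: weak approximation. -/
def StPD : Prop :=
  ∀ (p : ℕ) [Fact p.Prime] (E : Type) [Field E] [NumberField E]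
    (T : Finset (HeightOneSpectrum (𝓞 E))) (x : ∀ v : HeightOneSpectrum (𝓞 E), (kv v)ˣ),
    ∃ y : Eˣ, ∀ v ∈ T, IsPw p (((x v * (loc v y)⁻¹ : (kv v)ˣ)) : kv v)

section SU

variable {E : Type} [Field E] [NumberField E]

/-- all ideals are principal up to the primes in `S` -/
def Prin (S : Set (HeightOneSpectrum (𝓞 E))) : Prop :=
  ∀ v ∉ S, ∃ x : Eˣ, v.valuation E (x : E) = WithZero.exp (-1 : ℤ) ∧
    ∀ w ∉ S, w ≠ v → w.valuation E (x : E) = 1

/-- the valuation of `a` at `v` is divisible by `p` -/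
def UPw (p : ℕ) (v : HeightOneSpectrum (𝓞 E)) (a : Eˣ) : Prop :=
  ∃ b : Eˣ, v.valuation E ((a * (b ^ p)⁻¹ : Eˣ) : E) = 1

/-- the units outside `S` in the product of the completions at the places in `S` -/
def diag (S : Finset (HeightOneSpectrum (𝓞 E))) : Eˣ →* (∀ v : S, (kv v.1)ˣ) :=
  Pi.monoidHom fun v : S => loc v.1

/-- the subgroup generated by the `S`-units and the local norm groups -/
def PS (p : ℕ) (S : Finset (HeightOneSpectrum (𝓞 E))) (a : Eˣ) :
    Subgroup (∀ v : S, (kv v.1)ˣ) :=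
  ((S : Set (HeightOneSpectrum (𝓞 E))).unit E).map (diag S) ⊔
    Subgroup.pi Set.univ fun v : S => Nm p (kv v.1) ((loc v.1 a : (kv v.1)ˣ) : kv v.1)

end SU

/-- Module SA: every finite set of primes is contained in a finite set with `Prin`, and supersets of
sets with `Prin` have `Prin`. -/
def StSA : Prop :=
  ∀ (E : Type) [Field E] [NumberField E],
    (∀ S S' : Set (HeightOneSpectrum (𝓞 E)), S ⊆ S' → Prin S → Prin S') ∧
    ∀ T : Finset (HeightOneSpectrum (𝓞 E)), ∃ S : Finset (HeightOneSpectrum (𝓞 E)), T ⊆ S ∧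
      Prin (S : Set (HeightOneSpectrum (𝓞 E)))

/-- Module SB: the group of `S`-units of a field with a primitive `p`-th root of unity, `p` odd. -/
def StSB : Prop :=
  ∀ (p : ℕ), p.Prime → p ≠ 2 → ∀ (E : Type) [Field E] [NumberField E] (ζ : E),
    IsPrimitiveRoot ζ p → ∀ S : Finset (HeightOneSpectrum (𝓞 E)),
    Module.Finite ℤ (Additive ((S : Set (HeightOneSpectrum (𝓞 E))).unit E)) ∧
    Module.finrank ℤ (Additive ((S : Set (HeightOneSpectrum (𝓞 E))).unit E)) + 1 =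
      Module.finrank ℚ E / 2 + S.card ∧
    (powMonoidHom p : (S : Set (HeightOneSpectrum (𝓞 E))).unit E →*
      (S : Set (HeightOneSpectrum (𝓞 E))).unit E).range.index =
        p ^ (Module.finrank ℚ E / 2 + S.card) ∧
    2 ∣ Module.finrank ℚ E

/-! ### Kummer extensions of number fields -/

section Ext

variable {E N : Type} [Field E] [NumberField E] [Field N] [NumberField N] [Algebra E N]

/-- the prime `w` lies above `v` -/
def Over (v : HeightOneSpectrum (𝓞 E)) (w : HeightOneSpectrum (𝓞 N)) : Prop :=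
  w.asIdeal.comap (algebraMap (𝓞 E) (𝓞 N)) = v.asIdeal

/-- the primes above the primes in `S` -/
def Above (N : Type) [Field N] [NumberField N] [Algebra E N]
    (S : Set (HeightOneSpectrum (𝓞 E))) : Set (HeightOneSpectrum (𝓞 N)) :=
  {w | ∃ v ∈ S, Over v w}

/-- the norm of units of fields -/
def nrm (E N : Type) [Field E] [Field N] [Algebra E N] : Nˣ →* Eˣ :=
  Units.map (Algebra.norm E : N →* E)

/-- `N = E(α)`, `α ^ p = a`, `a` is not a `p`-th power in `E`, which contains the primitive `p`-th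
root of unity `ζ`, `p` odd -/
structure Kum (p : ℕ) (ζ : E) (a : Eˣ) (α : N) : Prop where
  prime : p.Prime
  odd : p ≠ 2
  root : IsPrimitiveRoot ζ p
  notpw : ¬ IsPw p (a : E)
  pow : α ^ p = algebraMap E N (a : E)
  top : IntermediateField.adjoin E {α} = ⊤

end Ext

/-- Module EX: existence of the Kummer extension. -/
def StEX : Prop :=
  ∀ (p : ℕ), p.Prime → p ≠ 2 → ∀ (E : Type) [Field E] [NumberField E] (ζ : E),
    IsPrimitiveRoot ζ p → ∀ a : Eˣ, ¬ IsPw p (a : E) →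
    ∃ (N : Type) (_ : Field N) (_ : NumberField N) (_ : Algebra E N) (α : N), Kum p ζ a α

/-- Module EA: the Galois group. -/
def StEA : Prop :=
  ∀ (p : ℕ) (E N : Type) [Field E] [NumberField E] [Field N] [NumberField N] [Algebra E N]
    (ζ : E) (a : Eˣ) (α : N), Kum p ζ a α →
    IsGalois E N ∧ Module.finrank E N = p ∧
    (∃ σ : N ≃ₐ[E] N, σ α = algebraMap E N ζ * α ∧ (∀ τ : N ≃ₐ[E] N, ∃ i < p, τ = σ ^ i) ∧
      σ ^ p = 1) ∧
    ∀ c : E, IsPw p (algebraMap E N c) → ∃ (i : ℕ) (d : E), c = (a : E) ^ i * d ^ p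

/-- Module EB: the number of primes above a prime. -/
def StEB : Prop :=
  ∀ (p : ℕ) (E N : Type) [Field E] [NumberField E] [Field N] [NumberField N] [Algebra E N]
    (ζ : E) (a : Eˣ) (α : N), Kum p ζ a α → ∀ v : HeightOneSpectrum (𝓞 E),
    (IsPw p ((loc v a : (kv v)ˣ) : kv v) → Nat.card {w : HeightOneSpectrum (𝓞 N) // Over v w} = p) ∧
    (¬ IsPw p ((loc v a : (kv v)ˣ) : kv v) →
      Nat.card {w : HeightOneSpectrum (𝓞 N) // Over v w} = 1)

/-- Module EC: unramified primes. -/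
def StEC : Prop :=
  ∀ (p : ℕ) (E N : Type) [Field E] [NumberField E] [Field N] [NumberField N] [Algebra E N]
    (ζ : E) (a : Eˣ) (α : N), Kum p ζ a α → ∀ v : HeightOneSpectrum (𝓞 E),
    (IsPw p ((loc v a : (kv v)ˣ) : kv v) ∨ (p : 𝓞 E) ∉ v.asIdeal ∧ UPw p v a) →
    ∀ w : HeightOneSpectrum (𝓞 N), Over v w → ∀ x : E,
      w.valuation N (algebraMap E N x) = v.valuation E x

/-- Module ED: the first cohomology of the `S`-units. -/
def StED : Prop :=
  ∀ (p : ℕ) (E N : Type) [Field E] [NumberField E] [Field N] [NumberField N] [Algebra E N]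
    (ζ : E) (a : Eˣ) (α : N), Kum p ζ a α → ∀ (S : Set (HeightOneSpectrum (𝓞 E))), Prin S →
    (∀ v ∉ S, ∀ w : HeightOneSpectrum (𝓞 N), Over v w → ∀ x : E,
      w.valuation N (algebraMap E N x) = v.valuation E x) →
    ∀ σ : N ≃ₐ[E] N, (∀ τ : N ≃ₐ[E] N, ∃ i < p, τ = σ ^ i) →
    ∀ u ∈ (Above N S).unit N, nrm E N u = 1 →
      ∃ y ∈ (Above N S).unit N, u * y = Units.map (σ : N →* N) y

/-- Module EE: the number of `S`-units modulo norms of `S`-units (from HERB, SB, EA, EB, EC, ED). -/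
def StEE : Prop :=
  ∀ (p : ℕ) (E N : Type) [Field E] [NumberField E] [Field N] [NumberField N] [Algebra E N]
    (ζ : E) (a : Eˣ) (α : N), Kum p ζ a α → ∀ (S : Finset (HeightOneSpectrum (𝓞 E))),
    Prin (S : Set (HeightOneSpectrum (𝓞 E))) →
    (∀ v ∉ S, IsPw p ((loc v a : (kv v)ˣ) : kv v) ∨ (p : 𝓞 E) ∉ v.asIdeal ∧ UPw p v a) →
    ((((Above N (S : Set (HeightOneSpectrum (𝓞 E)))).unit N).map (nrm E N)).relIndex
      ((S : Set (HeightOneSpectrum (𝓞 E))).unit E)) * p =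
      p ^ Nat.card {v : S // ¬ IsPw p ((loc v.1 a : (kv v.1)ˣ) : kv v.1)}

/-- Module EF: `S`-units of `E` and norms. -/
def StEF : Prop :=
  ∀ (p : ℕ) (E N : Type) [Field E] [NumberField E] [Field N] [NumberField N] [Algebra E N]
    (ζ : E) (a : Eˣ) (α : N), Kum p ζ a α → ∀ (S : Finset (HeightOneSpectrum (𝓞 E))),
    Prin (Above N (S : Set (HeightOneSpectrum (𝓞 E)))) →
    ∀ y : Eˣ, (∀ v ∉ S, v.valuation E (y : E) = 1 ∨ IsPw p ((loc v a : (kv v)ˣ) : kv v)) →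
    ∃ u ∈ (S : Set (HeightOneSpectrum (𝓞 E))).unit E, ∃ n : Nˣ, y = u * nrm E N n

/-- Module EG: a finite set of primes with `Prin` for `E` and `N`. -/
def StEG : Prop :=
  ∀ (E N : Type) [Field E] [NumberField E] [Field N] [NumberField N] [Algebra E N]
    (T : Finset (HeightOneSpectrum (𝓞 E))), ∃ S : Finset (HeightOneSpectrum (𝓞 E)), T ⊆ S ∧
    Prin (S : Set (HeightOneSpectrum (𝓞 E))) ∧ Prin (Above N (S : Set (HeightOneSpectrum (𝓞 E))))

/-! ### The two inequalities -/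

/-- Module FI, the first inequality: not all local classes modulo norms come from `S`-units (from
EE, EX, LB, NA1, NA3, NA4). -/
def StFI : Prop :=
  ∀ (p : ℕ), p.Prime → p ≠ 2 → ∀ (E : Type) [Field E] [NumberField E] (ζ : E),
    IsPrimitiveRoot ζ p → ∀ a : Eˣ, ¬ IsPw p (a : E) →
    ∀ (S : Finset (HeightOneSpectrum (𝓞 E))), Prin (S : Set (HeightOneSpectrum (𝓞 E))) →
    (∀ v ∉ S, IsPw p ((loc v a : (kv v)ˣ) : kv v) ∨ (p : 𝓞 E) ∉ v.asIdeal ∧ UPw p v a) →
    PS p S a ≠ ⊤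

/-- Module FF: an element which is a `p`-th power at almost all places is a `p`-th power (from FI,
EF, EG, EX, PD, NA2, NA3, NA4). -/
def StFF : Prop :=
  ∀ (p : ℕ), p.Prime → p ≠ 2 → ∀ (E : Type) [Field E] [NumberField E] (ζ : E),
    IsPrimitiveRoot ζ p → ∀ (a : Eˣ) (T : Finset (HeightOneSpectrum (𝓞 E))),
    (∀ v ∉ T, IsPw p ((loc v a : (kv v)ˣ) : kv v)) → IsPw p (a : E)

/-- Module FT: the auxiliary primes (from FF for `E(a^{1/p})`, EA, EX, LD, PA, PB, SB). -/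
def StFT : Prop :=
  ∀ (p : ℕ), p.Prime → p ≠ 2 → ∀ (E : Type) [Field E] [NumberField E] (ζ : E),
    IsPrimitiveRoot ζ p → ∀ (S : Finset (HeightOneSpectrum (𝓞 E))),
    (∀ v, (p : 𝓞 E) ∈ v.asIdeal → v ∈ S) →
    ∀ a ∈ (S : Set (HeightOneSpectrum (𝓞 E))).unit E, ¬ IsPw p (a : E) →
    ∃ T : Finset (HeightOneSpectrum (𝓞 E)), Disjoint S T ∧
      T.card + 1 = Module.finrank ℚ E / 2 + S.card ∧
      (∀ v ∈ T, IsPw p ((loc v a : (kv v)ˣ) : kv v)) ∧
      (∀ u ∈ (S : Set (HeightOneSpectrum (𝓞 E))).unit E,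
        (∀ v ∈ T, IsPw p ((loc v u : (kv v)ˣ) : kv v)) →
        ∃ (i : ℕ) (c : E), (u : E) = (a : E) ^ i * c ^ p) ∧
      ∀ x : ∀ v : HeightOneSpectrum (𝓞 E), (kv v)ˣ,
        (∀ v ∈ T, ‖(((x v : (kv v)ˣ) : kv v) : PadicAlgCl (chr v))‖ = 1) →
        ∃ u ∈ (S : Set (HeightOneSpectrum (𝓞 E))).unit E,
          ∀ v ∈ T, IsPw p (((x v * (loc v u)⁻¹ : (kv v)ˣ)) : kv v)

/-- Module FP: `(S ∪ T)`-units which are `p`-th powers at the places in `S` (from FI, NA1, NA2, PB,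
SA). -/
def StFP : Prop :=
  ∀ (p : ℕ), p.Prime → p ≠ 2 → ∀ (E : Type) [Field E] [NumberField E] (ζ : E),
    IsPrimitiveRoot ζ p → ∀ (S T : Finset (HeightOneSpectrum (𝓞 E))), Disjoint S T →
    (∀ v, (p : 𝓞 E) ∈ v.asIdeal → v ∈ S) → Prin (S : Set (HeightOneSpectrum (𝓞 E))) →
    (∀ x : ∀ v : HeightOneSpectrum (𝓞 E), (kv v)ˣ,
      (∀ v ∈ T, ‖(((x v : (kv v)ˣ) : kv v) : PadicAlgCl (chr v))‖ = 1) →
      ∃ u ∈ (S : Set (HeightOneSpectrum (𝓞 E))).unit E,
        ∀ v ∈ T, IsPw p (((x v * (loc v u)⁻¹ : (kv v)ˣ)) : kv v)) →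
    ∀ x : Eˣ, (∀ v ∉ S, v ∉ T → v.valuation E (x : E) = 1) →
      (∀ v ∈ S, IsPw p ((loc v x : (kv v)ˣ) : kv v)) → IsPw p (x : E)

/-- Module FS, the second inequality (from EF, EG, FP, FT, LA, NA2, NA3, NA4, PC, SB). -/
def StFS : Prop :=
  ∀ (p : ℕ) (E N : Type) [Field E] [NumberField E] [Field N] [NumberField N] [Algebra E N]
    (ζ : E) (a : Eˣ) (α : N), Kum p ζ a α → ∀ (S : Finset (HeightOneSpectrum (𝓞 E))),
    Prin (S : Set (HeightOneSpectrum (𝓞 E))) →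
    Prin (Above N (S : Set (HeightOneSpectrum (𝓞 E)))) →
    (∀ v, (p : 𝓞 E) ∈ v.asIdeal → v ∈ S) → a ∈ (S : Set (HeightOneSpectrum (𝓞 E))).unit E →
    (PS p S a).index ≠ 0 ∧ (PS p S a).index ≤ p

/-- Module HN, **the Hasse norm theorem** (from EE, EG, EX, FS, LB, NA1, NA3, NA5). -/
def StHN : Prop :=
  ∀ (p : ℕ), p.Prime → p ≠ 2 → ∀ (E : Type) [Field E] [NumberField E] (ζ : E),
    IsPrimitiveRoot ζ p → ∀ a b : Eˣ,
    (∀ v : HeightOneSpectrum (𝓞 E), loc v b ∈ Nm p (kv v) ((loc v a : (kv v)ˣ) : kv v)) →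
    b ∈ Nm p E (a : E)

end BKGlob2
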