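import Pool.Agent.Lib.MP_7c08ba_nt.Met.HStmts
import Pool.Agent.Lib.MP_7c08ba_nt.Odd.Desc
import Pool.Agent.Lib.MP_7c08ba_nt.Odd.KumG

set_option autoImplicit false
set_option linter.unusedSectionVars false

/-!
Module AR: the arithmetic theorem `StArith`.
-/

noncomputable section

namespace BKGlob2

open NumberField IsDedekindDomain BKGen
open BKOdd (Fx IsKum IsNm chm chZ ConjHyp)
open BKLoc2 (cl sc im cy cyL Sys IsKP IsLam IsHom StLoc hq ht PP StLam)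
open BKMet (QZ actA kch Rel GF GQ cycF cycL IsConj RS GS Pl Splits pb1 pb2 LocAx GlobAx StArith)
open BKPar (Loc1 Loc2)

namespace AR

/-! ### coefficients -/

theorem qz_tors {p : ℕ} [Fact p.Prime] (m : QZ p) : ∃ n : ℕ, p ^ n • m = 0 := by
  obtain ⟨x, rfl⟩ := Submodule.Quotient.mk_surjective _ m
  obtain ⟨n, hn⟩ : ∃ n : ℕ, ‖x * (p : ℚ_[p]) ^ n‖ ≤ 1 := by
    by_cases hx : x = 0
    · exact ⟨0, by simp [hx]⟩
    · have hp1 : (1 : ℝ) < p := by exact_mod_cast (Fact.out : p.Prime).one_lt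
      obtain ⟨n, hn⟩ := pow_unbounded_of_one_lt ‖x‖ hp1
      refine ⟨n, ?_⟩
      rw [norm_mul, norm_pow, Padic.norm_p, inv_pow]
      have h0 : (0 : ℝ) < (p : ℝ) ^ n := by positivity
      rw [← div_eq_mul_inv, div_le_one h0]
      exact hn.le
  refine ⟨n, ?_⟩
  rw [← Submodule.Quotient.mk_smul, Submodule.Quotient.mk_eq_zero]
  refine ⟨⟨x * (p : ℚ_[p]) ^ n, hn⟩, ?_⟩
  change x * (p : ℚ_[p]) ^ n = _
  rw [nsmul_eq_mul, Nat.cast_pow, mul_comm]

theorem actA_fix {p : ℕ} [Fact p.Prime] {G : Type*} [Group G] (χ : G →* ℤ_[p]ˣ) {n : ℕ}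
    {m : QZ p} (hm : p ^ n • m = 0) {g : G}
    (hg : PadicInt.toZModPow n ((χ g : ℤ_[p]ˣ) : ℤ_[p]) = 1) : actA χ g m = m := by
  rw [BKMet.actA_apply]
  have h1 : ((χ g : ℤ_[p]ˣ) : ℤ_[p]) - 1 ∈ Ideal.span {(p : ℤ_[p]) ^ n} := by
    rw [← PadicInt.ker_toZModPow, RingHom.mem_ker, map_sub, hg, map_one, sub_self]
  obtain ⟨c, hc⟩ := Ideal.mem_span_singleton.1 h1
  have h2 : ((χ g : ℤ_[p]ˣ) : ℤ_[p]) = 1 + c * (p : ℤ_[p]) ^ n := by
    rw [mul_comm, ← hc]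
    ring
  have h3 : ((p : ℤ_[p]) ^ n) • m = 0 := by
    have : ((p : ℤ_[p]) ^ n) • m = (p ^ n : ℕ) • m := by
      rw [← Nat.cast_smul_eq_nsmul ℤ_[p], Nat.cast_pow]
    rw [this, hm]
  rw [h2, add_smul, one_smul, mul_smul, h3, smul_zero, add_zero]

/-! ### the groups -/

section Groups

variable {F : Type} [Field F] {P : Set ℕ}

/-- open sets of `GS F P` -/
theorem isOpen_GS {W : Set (GS F P)}
    (h : IsOpen ((QuotientGroup.mk : GF F → GS F P) ⁻¹' W)) : IsOpen W :=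
  (QuotientGroup.isQuotientMap_mk (N := RS F P)).isOpen_preimage.1 h

theorem sm_actA (p : ℕ) [Fact p.Prime] (χ : GS F P →* ℤ_[p]ˣ)
    (hχ : ∀ g : GF F, χ (QuotientGroup.mk g) = cycF p F g) (m : QZ p) :
    ∃ W : Subgroup (GS F P), IsOpen (W : Set (GS F P)) ∧ ∀ w ∈ W, actA χ w m = m := by
  obtain ⟨n, hn⟩ := qz_tors m
  let W : Subgroup (GS F P) :=
    { carrier := {w | PadicInt.toZModPow n ((χ w : ℤ_[p]ˣ) : ℤ_[p]) = 1}
      one_mem' := by
        change PadicInt.toZModPow n ((χ 1 : ℤ_[p]ˣ) : ℤ_[p]) = 1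
        rw [map_one, Units.val_one, map_one]
      mul_mem' := by
        intro a b ha hb
        change PadicInt.toZModPow n ((χ (a * b) : ℤ_[p]ˣ) : ℤ_[p]) = 1
        change PadicInt.toZModPow n ((χ a : ℤ_[p]ˣ) : ℤ_[p]) = 1 at ha
        change PadicInt.toZModPow n ((χ b : ℤ_[p]ˣ) : ℤ_[p]) = 1 at hb
        rw [map_mul, Units.val_mul, map_mul, ha, hb, one_mul]
      inv_mem' := by
        intro a ha
        change PadicInt.toZModPow n ((χ a⁻¹ : ℤ_[p]ˣ) : ℤ_[p]) = 1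
        change PadicInt.toZModPow n ((χ a : ℤ_[p]ˣ) : ℤ_[p]) = 1 at ha
        have h1 : ((χ a⁻¹ : ℤ_[p]ˣ) : ℤ_[p]) * ((χ a : ℤ_[p]ˣ) : ℤ_[p]) = 1 := by
          rw [← Units.val_mul, ← map_mul, inv_mul_cancel, map_one, Units.val_one]
        have h2 := congrArg (PadicInt.toZModPow n) h1
        rwa [map_mul, ha, mul_one, map_one] at h2 }
  refine ⟨W, isOpen_GS ?_, fun w hw => actA_fix χ hn hw⟩
  have h1 : IsOpen {g : GF F | PadicInt.toZModPow n ((cycF p F g : ℤ_[p]ˣ) : ℤ_[p]) = 1} := by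
    have h2 : Continuous (cycF p F) := cyclotomicCharacter.continuous p F (AlgebraicClosure F)
    exact BKOdd.KumG.isOpen_preimage_toZModPow (Units.continuous_val.comp h2) n 1
  have h2 : ((QuotientGroup.mk : GF F → GS F P) ⁻¹' (W : Set (GS F P))) =
      {g : GF F | PadicInt.toZModPow n ((cycF p F g : ℤ_[p]ˣ) : ℤ_[p]) = 1} := by
    ext g
    change PadicInt.toZModPow n ((χ (QuotientGroup.mk g) : ℤ_[p]ˣ) : ℤ_[p]) = 1 ↔
      PadicInt.toZModPow n ((cycF p F g : ℤ_[p]ˣ) : ℤ_[p]) = 1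
    rw [hχ]
  rw [h2]
  exact h1

theorem sm_kch {U : Subgroup (GF F)} (hU : IsOpen (U : Set (GF F))) {k : Type} [Field k]
    (ψ : GS F P →* kˣ) (hψ : ∀ g ∈ U, ψ (QuotientGroup.mk g) = 1) (m : k) :
    ∃ W : Subgroup (GS F P), IsOpen (W : Set (GS F P)) ∧ ∀ w ∈ W, kch ψ w m = m := by
  refine ⟨U.map (QuotientGroup.mk' (RS F P)), ?_, ?_⟩
  · have h1 : IsOpenMap (QuotientGroup.mk : GF F → GS F P) := QuotientGroup.isOpenMap_coe
    exact h1 _ hU
  · rintro _ ⟨g, hg, rfl⟩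
    rw [BKMet.kch_apply]
    have h1 : ψ ((QuotientGroup.mk' (RS F P)) g) = 1 := hψ g hg
    rw [h1, Units.val_one, one_mul]

theorem RS_mono {P' : Set ℕ} (h : P ⊆ P') : RS F P' ≤ RS F P := by
  unfold RS
  refine Subgroup.topologicalClosure_mono (Subgroup.normalClosure_mono ?_)
  rintro g ⟨l, hl, j, hlP, hg⟩
  exact ⟨l, hl, j, fun h' => hlP (h h'), hg⟩

theorem inert_mem {l : ℕ} [Fact l.Prime] (hl : l ∉ P) (j : AlgebraicClosure F →+* PadicAlgCl l)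
    {g : GF F} (hg : g ∈ Inert F (AlgebraicClosure F) j) : g ∈ RS F P := by
  refine Subgroup.le_topologicalClosure _ (Subgroup.subset_normalClosure ?_)
  exact ⟨l, inferInstance, j, hl, hg⟩

end Groups

section Key

variable {F : Type} [Field F] [NumberField F] (hCP : StCP) (hCV : StCV) (Λ : Pl F)
  (c : GS F Λ.P →* GS F Λ.P) (cc : GF F →* GF F)
  (hccc : ∀ g : GF F, c (QuotientGroup.mk g) = QuotientGroup.mk (cc g)) (hcccont : Continuous cc)

theorem mk_cont {P : Set ℕ} : Continuous (QuotientGroup.mk' (RS F P)) :=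
  QuotientGroup.continuous_mk

include hccc in
theorem loc_true (i : Λ.ι) (t : GQ (Λ.l i)) :
    Λ.loc (QuotientGroup.mk' (RS F Λ.P)) c (i, true) t =
      QuotientGroup.mk' (RS F Λ.P) (cc (Λ.r i t)) := hccc _

omit [NumberField F] in
theorem loc_false (i : Λ.ι) (t : GQ (Λ.l i)) :
    Λ.loc (QuotientGroup.mk' (RS F Λ.P)) c (i, false) t =
      QuotientGroup.mk' (RS F Λ.P) (Λ.r i t) := rfl

include hccc hcccont in
theorem loc_cont (w : Λ.ι × Bool) :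
    Continuous (Λ.loc (QuotientGroup.mk' (RS F Λ.P)) c w) := by
  obtain ⟨i, b⟩ := w
  cases b
  · have h1 : (Λ.loc (QuotientGroup.mk' (RS F Λ.P)) c (i, false) : GQ (Λ.l i) → GS F Λ.P) =
        fun t => QuotientGroup.mk' (RS F Λ.P) (Λ.r i t) := by
      funext t
      exact loc_false Λ c i t
    exact h1 ▸ mk_cont.comp (Λ.cont i)
  · have h1 : (Λ.loc (QuotientGroup.mk' (RS F Λ.P)) c (i, true) : GQ (Λ.l i) → GS F Λ.P) =
        fun t => QuotientGroup.mk' (RS F Λ.P) (cc (Λ.r i t)) := by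
      funext t
      exact loc_true Λ c cc hccc i t
    exact h1 ▸ mk_cont.comp (hcccont.comp (Λ.cont i))

include hccc in
theorem exists_b (i : Λ.ι) (j : AlgebraicClosure F →+* PadicAlgCl (Λ.l i)) (g : GF F)
    (s : Cp (MonoidHom.id (GF F)) j →* GQ (Λ.l i))
    (hgs : (∀ d, fs (MonoidHom.id (GF F)) j d = g⁻¹ * Λ.r i (s d) * g) ∨
        (∀ d, fs (MonoidHom.id (GF F)) j d = g⁻¹ * cc (Λ.r i (s d)) * g)) :
    ∃ b : Bool, ∀ d, dc Λ.P j d = (QuotientGroup.mk' (RS F Λ.P) g)⁻¹ *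
      Λ.loc (QuotientGroup.mk' (RS F Λ.P)) c (i, b) (s d) *
        QuotientGroup.mk' (RS F Λ.P) g := by
  rcases hgs with h | h
  · refine ⟨false, fun d => ?_⟩
    have e1 : dc Λ.P j d = QuotientGroup.mk' (RS F Λ.P) (fs (MonoidHom.id (GF F)) j d) := rfl
    have e2 := congrArg (QuotientGroup.mk' (RS F Λ.P)) (h d)
    rw [map_mul, map_mul, map_inv] at e2
    exact e1.trans e2
  · refine ⟨true, fun d => ?_⟩
    have e1 : dc Λ.P j d = QuotientGroup.mk' (RS F Λ.P) (fs (MonoidHom.id (GF F)) j d) := rfl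
    have e2 := congrArg (QuotientGroup.mk' (RS F Λ.P)) (h d)
    rw [map_mul, map_mul, map_inv, ← loc_true Λ c cc hccc] at e2
    exact e1.trans e2

include hCP in
omit hCV in
theorem cp_facts {l : ℕ} [Fact l.Prime] (j : AlgebraicClosure F →+* PadicAlgCl l) :
    CompactSpace (Cp (MonoidHom.id (GF F)) j) ∧ Continuous (fs (MonoidHom.id (GF F)) j) := by
  have hcp := hCP F (AlgebraicClosure F) (GF F) (MonoidHom.id (GF F))
    Topology.IsOpenEmbedding.id l j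
  exact ⟨hcp.2.2.1, hcp.2.1⟩

include hCP hCV hccc hcccont in
/-- local conditions at all places over the primes in `P` -/
theorem key2 (i : Λ.ι) (j : AlgebraicClosure F →+* PadicAlgCl (Λ.l i))
    (hpl : ∃ (g : GF F) (s : Cp (MonoidHom.id (GF F)) j →* GQ (Λ.l i)), Continuous s ∧
      ((∀ d, fs (MonoidHom.id (GF F)) j d = g⁻¹ * Λ.r i (s d) * g) ∨
        (∀ d, fs (MonoidHom.id (GF F)) j d = g⁻¹ * cc (Λ.r i (s d)) * g)))
    (M : Type) [AddCommGroup M] (ρ : GS F Λ.P →* AddMonoid.End M)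
    (hρ : ∀ m : M, ∃ W : Subgroup (GS F Λ.P), IsOpen (W : Set (GS F Λ.P)) ∧
      ∀ w ∈ W, ρ w m = m) (z : GS F Λ.P → GS F Λ.P → M) (hz : z ∈ BKND.Z2 ρ)
    (hw : ∀ w, pb2 (Λ.loc (QuotientGroup.mk' (RS F Λ.P)) c w) z ∈
      BKND.B2 (ρ.comp (Λ.loc (QuotientGroup.mk' (RS F Λ.P)) c w))) :
    pb2 (dc Λ.P j) z ∈ BKND.B2 (ρ.comp (dc Λ.P j)) := by
  obtain ⟨g, s, hs, hgs⟩ := hpl
  obtain ⟨hcp1, hcp2⟩ := cp_facts hCP j
  obtain ⟨b, hb⟩ := exists_b Λ c cc hccc i j g s hgs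
  have h1 := hCV (GS F Λ.P) (Λ.D (i, b)) (Cp (MonoidHom.id (GF F)) j)
    (Λ.loc (QuotientGroup.mk' (RS F Λ.P)) c (i, b)) (dc Λ.P j) s
    (loc_cont Λ c cc hccc hcccont _) (mk_cont.comp hcp2) hs
    (QuotientGroup.mk' (RS F Λ.P) g) hb M ρ hρ
  exact h1.1 z hz (hw (i, b))

include hCP hCV hccc hcccont in
/-- local conditions at all places over the primes in `P` -/
theorem key1 (i : Λ.ι) (j : AlgebraicClosure F →+* PadicAlgCl (Λ.l i))
    (hpl : ∃ (g : GF F) (s : Cp (MonoidHom.id (GF F)) j →* GQ (Λ.l i)), Continuous s ∧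
      ((∀ d, fs (MonoidHom.id (GF F)) j d = g⁻¹ * Λ.r i (s d) * g) ∨
        (∀ d, fs (MonoidHom.id (GF F)) j d = g⁻¹ * cc (Λ.r i (s d)) * g)))
    (M : Type) [AddCommGroup M] (ρ : GS F Λ.P →* AddMonoid.End M)
    (hρ : ∀ m : M, ∃ W : Subgroup (GS F Λ.P), IsOpen (W : Set (GS F Λ.P)) ∧
      ∀ w ∈ W, ρ w m = m) (z : GS F Λ.P → M) (hz : z ∈ BKND.Z1 ρ)
    (hw : ∀ w, pb1 (Λ.loc (QuotientGroup.mk' (RS F Λ.P)) c w) z ∈
      BKND.B1 (ρ.comp (Λ.loc (QuotientGroup.mk' (RS F Λ.P)) c w))) :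
    pb1 (dc Λ.P j) z ∈ BKND.B1 (ρ.comp (dc Λ.P j)) := by
  obtain ⟨g, s, hs, hgs⟩ := hpl
  obtain ⟨hcp1, hcp2⟩ := cp_facts hCP j
  obtain ⟨b, hb⟩ := exists_b Λ c cc hccc i j g s hgs
  have h1 := hCV (GS F Λ.P) (Λ.D (i, b)) (Cp (MonoidHom.id (GF F)) j)
    (Λ.loc (QuotientGroup.mk' (RS F Λ.P)) c (i, b)) (dc Λ.P j) s
    (loc_cont Λ c cc hccc hcccont _) (mk_cont.comp hcp2) hs
    (QuotientGroup.mk' (RS F Λ.P) g) hb M ρ hρ
  exact h1.2 z hz (hw (i, b))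

end Key

end AR

open AR

theorem stAR (hLI : StLI) (hLam : StLam) (hCY : StCY) (hCP : StCP) (hCJ : StCJ) (hCV : StCV)
    (hPL : StPL) (hPR : StPR) (hSA : StSA) (hTW : StTW) (hON : StON) (hCA : StCA) (hRE : StRE)
    (hUN : StUN) : StArith := by
  intro p _ hp F _ _ hF2 hFreal hFp c₀ hc₀ P₀ hP₀fin hP₀split hpP₀ U₀ hU₀n hU₀o hU₀i hU₀ab hU₀r
    hU₀ζ hU₀c
  classical
  -- the field fixed by `U₀`
  have hU₀cl : IsClosed (U₀ : Set (GF F)) := U₀.isClosed_of_isOpen hU₀o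
  have hfix : (IntermediateField.fixedField U₀).fixingSubgroup = U₀ :=
    InfiniteGalois.fixingSubgroup_fixedField (⟨U₀, hU₀cl⟩ : ClosedSubgroup (GF F))
  let E : IntermediateField F (AlgebraicClosure F) := IntermediateField.fixedField U₀
  have hEfd : FiniteDimensional F E := by
    rw [← InfiniteGalois.isOpen_iff_finite]
    change IsOpen ((IntermediateField.fixedField U₀).fixingSubgroup : Set (GF F))
    rw [hfix]
    exact hU₀o
  have hEnf : NumberField E := NumberField.of_module_finite F E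
  have hE : ∀ x, x ∈ E ↔ ∀ g ∈ U₀, g x = x := fun x => by
    rw [IntermediateField.mem_fixedField_iff]
  -- the primes
  obtain ⟨P₁, hP₁fin, ⟨l₁, hl₁⟩, hP₁, hPrin⟩ := hPR E P₀ hP₀fin
  have hsplit : ∀ l ∈ P₀ ∪ P₁, Splits F l := by
    rintro l (hl | hl)
    · exact hP₀split l hl
    · obtain ⟨-, hF, ⟨f⟩⟩ := hP₁ l hl
      exact ⟨hF, ⟨f.comp (algebraMap F E)⟩⟩
  obtain ⟨Λ, hΛ⟩ := hPL F (P₀ ∪ P₁) (hP₀fin.union hP₁fin) hsplit
  have hPsub : P₀ ⊆ Λ.P := by rw [hΛ]; exact Set.subset_union_left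
  have hpΛ : p ∈ Λ.P := hPsub hpP₀
  refine ⟨Λ, hPsub, ⟨l₁, ?_, ?_⟩, ?_⟩
  · rw [hΛ]; exact Or.inr hl₁
  · rintro rfl
    exact (hP₁ l₁ hl₁).1 hpP₀
  have hsplitΛ : ∀ i, Splits F (Λ.l i) := fun i => hsplit _ (by rw [← hΛ]; exact ⟨i, rfl⟩)
  have hsit : Sit p F Λ.P U₀ E :=
    { odd := hp
      memP := hpΛ
      finP := by rw [hΛ]; exact hP₀fin.union hP₁fin
      prime := fun l hl => by
        obtain ⟨h, -⟩ := hsplit l (by rw [← hΛ]; exact hl)
        exact h.out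
      open' := hU₀o
      normal := hU₀n
      index := hU₀i
      ram := (RS_mono hPsub).trans hU₀r
      root := hU₀ζ
      field := hE
      prin := by
        refine (hSA E).1 _ _ ?_ hPrin
        rintro v ⟨l, hl, hv⟩
        exact ⟨l, by rw [hΛ]; exact Or.inr hl, hv⟩ }
  intro χ c hχ hc
  obtain ⟨⟨cc, hcc⟩, hall⟩ := hCJ F hF2 hFreal c₀ hc₀
  obtain ⟨hcccont, hcc2, -, hccp, hplaces⟩ := hall cc hcc
  have hccc : ∀ g : GF F, c (QuotientGroup.mk g) = QuotientGroup.mk (cc g) := fun g =>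
    hc g (cc g) fun z => hcc.eq g z
  have hχcc : ∀ g : GF F, cycF p F (cc g) = cycF p F g := (hccp p hp).1
  have hsiq : Siq p F U₀ E Λ c₀ cc := ⟨hsit, hF2, hFreal, hcc⟩
  -- the invariants
  obtain ⟨⟨lam, hlam⟩, -⟩ := hLam p hp
  obtain ⟨⟨z, hz⟩, -⟩ := hCY p F (AlgebraicClosure F) F (AlgebraicClosure F)
  have hzi : ∀ i, Sys p (fun n => Λ.j i (z n)) := fun i =>
    { prim := fun n => (hz.prim n).map_of_injective (Λ.j i).injective
      pow := fun n => by rw [← map_pow, hz.pow] }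
  choose inv hinv hInvL using fun i => hLI p hp lam hlam (Λ.l i) (fun n => Λ.j i (z n)) (hzi i)
  have hmk : Continuous (QuotientGroup.mk' (RS F Λ.P)) := QuotientGroup.continuous_mk
  have hUmap : ∀ {k : Type} [Field k] (ψ : GS F Λ.P →* kˣ),
      (∀ u ∈ U₀.map (QuotientGroup.mk' (RS F Λ.P)), ψ u = 1) →
      ∀ g ∈ U₀, ψ (QuotientGroup.mk g) = 1 := fun ψ h g hg => h _ ⟨g, hg, rfl⟩
  refine ⟨inv, ?_, ?_, ?_⟩
  · exact hinv
  · refine ⟨?_, ?_, ?_⟩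
    · intro k _ _ _ ψ hψ z hz hw
      refine hTW p F Λ.P U₀ E hsit k ψ (hUmap ψ hψ) z hz ?_
      rintro l hlF ⟨i, rfl⟩ j
      exact key2 hCP hCV Λ c cc hccc hcccont i j (hplaces Λ i j) k (kch ψ)
        (sm_kch hU₀o ψ (hUmap ψ hψ)) z hz hw
    · intro k _ _ _ ψ hψ f hf hw
      refine hON p F Λ.P U₀ E hsit k ψ (hUmap ψ hψ) f hf ?_
      rintro l hlF ⟨i, rfl⟩ j
      exact key1 hCP hCV Λ c cc hccc hcccont i j (hplaces Λ i j) k (kch ψ)
        (sm_kch hU₀o ψ (hUmap ψ hψ)) f hf hw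
    · intro k _ _ _ ψ ψ' hψ hψ' hrel
      exact hCA p F U₀ E Λ c₀ cc hsiq χ c hχ hccc k ψ ψ' (hUmap ψ hψ) (hUmap ψ' hψ') hrel
  · intro z₂ hz₂
    -- inflation to `GF F`
    have hinf : pb2 (QuotientGroup.mk' (RS F Λ.P)) z₂ ∈ BKND.Z2 (actA (cycF p F)) := by
      obtain ⟨⟨W, hW, hW'⟩, h2⟩ := hz₂
      refine ⟨⟨W.comap (QuotientGroup.mk' (RS F Λ.P)), hW.preimage hmk, ?_⟩, ?_⟩
      · intro g h w hw w' hw'
        change z₂ (QuotientGroup.mk' _ (g * w)) (QuotientGroup.mk' _ (h * w')) = _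
        rw [map_mul, map_mul]
        exact hW' _ _ _ hw _ hw'
      · intro g h k
        have h3 := h2 (QuotientGroup.mk' _ g) (QuotientGroup.mk' _ h) (QuotientGroup.mk' _ k)
        have h4 : ∀ x : QZ p, actA χ (QuotientGroup.mk' (RS F Λ.P) g) x =
            actA (cycF p F) g x := by
          intro x
          rw [BKMet.actA_apply, BKMet.actA_apply]
          congr 2
          exact hχ g
        rw [h4] at h3
        exact h3
    have hrec := hRE p hp F hF2 hFreal c₀ cc hcc Λ hsplitΛ hpΛ lam hlam z hz inv hInvL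
      (pb2 (QuotientGroup.mk' (RS F Λ.P)) z₂) hinf ?_
    · rw [← hrec]
      refine Finset.sum_congr rfl fun i _ => ?_
      have e1 : pb2 (Λ.loc (QuotientGroup.mk' (RS F Λ.P)) c (i, false)) z₂ =
          pb2 (Λ.r i) (pb2 (QuotientGroup.mk' (RS F Λ.P)) z₂) := rfl
      have e2 : pb2 (Λ.loc (QuotientGroup.mk' (RS F Λ.P)) c (i, true)) z₂ =
          pb2 (cc.comp (Λ.r i)) (pb2 (QuotientGroup.mk' (RS F Λ.P)) z₂) := by
        funext t t'
        change z₂ (c (QuotientGroup.mk (Λ.r i t))) (c (QuotientGroup.mk (Λ.r i t'))) =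
          z₂ (QuotientGroup.mk (cc (Λ.r i t))) (QuotientGroup.mk (cc (Λ.r i t')))
        rw [hccc, hccc]
      rw [e1, e2]
    · intro l _ hl j
      have hlp : l ≠ p := fun h => hl (h ▸ hpΛ)
      have h1 := hUN p hp F (AlgebraicClosure F) (GF F) (MonoidHom.id (GF F))
        Topology.IsOpenEmbedding.id l hlp j (GS F Λ.P) (QuotientGroup.mk' (RS F Λ.P)) hmk
        (fun v hv => (QuotientGroup.eq_one_iff v).2 (inert_mem hl j hv)) (QZ p) (actA χ)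
        qz_tors (sm_actA p χ hχ) z₂ hz₂
      have e1 : actA ((cycF p F).comp (fs (MonoidHom.id (GF F)) j)) =
          (actA χ).comp ((QuotientGroup.mk' (RS F Λ.P)).comp (fs (MonoidHom.id (GF F)) j)) := by
        refine MonoidHom.ext fun d => AddMonoidHom.ext fun x => ?_
        change ((cycF p F (fs (MonoidHom.id (GF F)) j d) : ℤ_[p]ˣ) : ℤ_[p]) • x =
          ((χ (QuotientGroup.mk (fs (MonoidHom.id (GF F)) j d)) : ℤ_[p]ˣ) : ℤ_[p]) • x
        rw [hχ]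
      rw [e1]
      exact h1

end BKGlob2
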