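import Pool.Agent.Lib.MP_7c08ba_nt.Met.HStmts

set_option autoImplicit false

/-!
Parity without rigidity, global part 2, module CA: the global Euler characteristic.
-/

noncomputable section

namespace BKGlob2

open NumberField IsDedekindDomain BKGen
open BKOdd (Fx IsKum IsNm chm chZ ConjHyp)
open BKLoc2 (cl sc im cy cyL Sys IsKP IsLam IsHom StLoc hq ht PP)
open BKMet (QZ actA kch Rel GF GQ cycF cycL IsConj RS GS Pl Splits pb1 pb2 LocAx GlobAx StArith
  kch_apply)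
open BKPar (Loc1 Loc2)

namespace CAAux

theorem mem_H0 {G : Type*} [Group G] {k : Type*} [Field k] (ψ : G →* kˣ) (m : k) :
    m ∈ BKND.H0 (kch ψ) ↔ ∀ g, ((ψ g : kˣ) : k) * m = m := Iff.rfl

/-- the invariants of the trivial group -/
theorem card_H0_bot {G : Type*} [Group G] {k : Type*} [Field k] (ψ : G →* kˣ) :
    Nat.card (BKND.H0 (kch (ψ.comp (⊥ : Subgroup G).subtype))) = Nat.card k := by
  have h : BKND.H0 (kch (ψ.comp (⊥ : Subgroup G).subtype)) = ⊤ := by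
    rw [eq_top_iff]
    intro m _
    rw [mem_H0]
    rintro ⟨g, hg⟩
    obtain rfl := Subgroup.mem_bot.1 hg
    rw [MonoidHom.comp_apply]
    change ((ψ 1 : kˣ) : k) * m = m
    rw [map_one, Units.val_one, one_mul]
  rw [h]
  exact Nat.card_congr AddSubgroup.topEquiv.toEquiv

/-- invariants of a range -/
theorem H0_range {G D : Type*} [Group G] [Group D] {k : Type*} [Field k] (ψ : G →* kˣ)
    (f : D →* G) (ψ' : D →* kˣ) (h : ∀ d, ψ (f d) = ψ' d) :
    BKND.H0 (kch (ψ.comp f.range.subtype)) = BKND.H0 (kch ψ') := by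
  ext m
  rw [mem_H0, mem_H0]
  constructor
  · intro hm d
    rw [← h d]
    exact hm ⟨f d, d, rfl⟩
  · rintro hm ⟨_, d, rfl⟩
    change ((ψ (f d) : kˣ) : k) * m = m
    rw [h d]
    exact hm d

end CAAux

open CAAux in
/-- Module CA: the global Euler characteristic. -/
theorem stCA (h1 : StUA) (h2 : StCE) (h3 : StCT) (h4 : StCG) (h5 : StCU) : StCA := by
  intro p hp F iF iN U E iE Λ c₀ cc hS χ c hχ hc k ik1 ik2 ik3 ψ ψ' hψ hψ' hR
  have hnorm : U.Normal := hS.sit.normal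
  obtain ⟨a, ha⟩ := h1 F Λ.P U
  -- the character of the quotient
  have hle : U ≤ (ψ'.comp (QuotientGroup.mk' (RS F Λ.P))).ker := by
    intro g hg
    exact hψ' g hg
  let ψ₀ : GF F ⧸ U →* kˣ := QuotientGroup.lift U (ψ'.comp (QuotientGroup.mk' (RS F Λ.P))) hle
  have hψ₀ : ∀ g : GF F, ψ₀ (QuotientGroup.mk g) = ψ' (QuotientGroup.mk g) := fun g => rfl
  have e1 := h2 p F Λ.P U E hS.sit k ψ ψ' ψ₀ hψ hψ₀ χ hχ hR a ha
  obtain ⟨hfin, e2⟩ := h3 p F Λ.P U E hS.sit k ψ ψ' ψ₀ hψ hψ₀ χ hχ hR a ha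
  obtain ⟨g, hg1, hg2, hg3⟩ := h5 p F U E Λ c₀ cc hS a ha
  have hidx : U.index ≠ 0 := by
    intro h0
    apply hS.sit.index
    rw [h0]
    exact dvd_zero p
  have : U.FiniteIndex := ⟨hidx⟩
  have : Finite (GF F ⧸ U) := Subgroup.finite_quotient_of_finiteIndex
  have hcard : ¬ p ∣ Nat.card (GF F ⧸ U) := hS.sit.index
  have e3 := h4 p (GF F ⧸ U) hcard (Additive (US F Λ.P U)) a (Option (Λ.ι × Bool)) (Dx U Λ cc)
    g hg1 hg2 hg3 hfin k ψ₀
  rw [Fintype.prod_option] at e3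
  have e4 : Nat.card (BKND.H0 (kch (ψ₀.comp (Dx U Λ cc none).subtype))) = Nat.card k :=
    card_H0_bot ψ₀
  have e5 : ∀ w : Λ.ι × Bool, BKND.H0 (kch (ψ₀.comp (Dx U Λ cc (some w)).subtype)) =
      BKND.H0 (kch (ψ'.comp (Λ.loc (QuotientGroup.mk' (RS F Λ.P)) c w))) := by
    intro w
    refine H0_range ψ₀ _ _ fun t => ?_
    obtain ⟨i, b⟩ := w
    cases b with
    | false => rfl
    | true =>
      change ψ' (QuotientGroup.mk (cc (Λ.r i t))) = ψ' (c (QuotientGroup.mk (Λ.r i t)))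
      rw [hc]
  have e6 : BKND.H0 (kch ψ₀) = BKND.H0 (kch ψ') := by
    ext m
    rw [mem_H0, mem_H0]
    constructor
    · intro hm d
      obtain ⟨d, rfl⟩ := QuotientGroup.mk_surjective d
      rw [← hψ₀]
      exact hm _
    · intro hm d
      obtain ⟨d, rfl⟩ := QuotientGroup.mk_surjective d
      rw [hψ₀]
      exact hm _
  rw [e4, e6, e2] at e3
  simp only [e5] at e3
  have hpos : 0 < Nat.card (BKND.H0 (kch ψ)) := Nat.card_pos
  refine Nat.eq_of_mul_eq_mul_left hpos ?_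
  calc Nat.card (BKND.H0 (kch ψ)) * (Nat.card (BKND.Z1 (kch ψ)) * Nat.card (BKND.H0 (kch ψ')))
      = (Nat.card (BKND.Z1 (kch ψ)) * Nat.card (BKND.H0 (kch ψ))) *
          Nat.card (BKND.H0 (kch ψ')) := by ring
    _ = Nat.card k * (hq p (kch ψ₀) a * Nat.card (BKND.H0 (kch ψ'))) := by rw [e1]; ring
    _ = _ := by rw [e3]; ring

end BKGlob2
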