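import Pool.Agent.Lib.MP_7c08ba_nt.Met.HON
import Pool.Agent.Lib.MP_7c08ba_nt.Met.LN3
import Pool.Agent.Lib.MP_7c08ba_nt.Met.LLoc
import Pool.Agent.Lib.MP_7c08ba_nt.Met.GPB
import Pool.Agent.Lib.MP_7c08ba_nt.Met.LKH

set_option autoImplicit false

/-!
Module CE: the Kummer description of `Z¹(GS F P, k(ψ))`. The cocycles of `GS F P` are the cocycles
of `GF F` which vanish on `RS F P`; by Kummer theory (module KH) they correspond, up to
coboundaries, to the equivariant homomorphisms from `k(ψ')` to the group of `S`-units modulo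
`p`-th powers.
-/

noncomputable section

namespace BKGlob2

open NumberField IsDedekindDomain BKGen
open BKOdd (Fx IsKum IsNm chm chZ ConjHyp)
open BKLoc2 (cl sc im cy cyL Sys IsKP IsLam IsHom StLoc hq ht PP)
open BKMet (QZ actA kch Rel GF GQ cycF cycL IsConj RS GS Pl Splits pb1 pb2 LocAx GlobAx StArith)
open BKPar (Loc1 Loc2)

namespace CEAux

/-! ### units outside `P` up to `p`-th powers -/

section Units

open BKGen.SUnits

variable {E : Type} [Field E] [NumberField E]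

/-- the set of the primes with nontrivial valuation is finite -/
theorem finite_bad (y : Eˣ) :
    {w : HeightOneSpectrum (𝓞 E) | w.valuation E (y : E) ≠ 1}.Finite := by
  have h1 := HeightOneSpectrum.Support.finite (𝓞 E) (y : E)
  have h2 := HeightOneSpectrum.Support.finite (𝓞 E) ((y : E)⁻¹)
  refine (h1.union h2).subset fun v hv => ?_
  rcases lt_or_gt_of_ne (show v.valuation E (y : E) ≠ 1 from hv) with h | h
  · right
    change 1 < v.valuation E ((y : E)⁻¹)
    rw [map_inv₀]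
    exact (one_lt_inv₀ (zero_lt_iff.2 ((Valuation.ne_zero_iff _).2 y.ne_zero))).2 h
  · left
    exact h

/-- if the valuations of `a` outside `S` are divisible by `p` then `a` is a unit outside `S` times
a `p`-th power -/
theorem exists_root {S : Set (HeightOneSpectrum (𝓞 E))} (hP : Prin S) (p : ℕ)
    (T : Finset (HeightOneSpectrum (𝓞 E))) : ∀ a : Eˣ,
    (∀ v ∉ S, v ∉ T → v.valuation E (a : E) = 1) → (∀ v ∉ S, UPw p v a) →
    ∃ c : Eˣ, ∀ v ∉ S, v.valuation E ((a * (c ^ p)⁻¹ : Eˣ) : E) = 1 := by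
  classical
  induction T using Finset.induction_on with
  | empty =>
    intro a ha _
    refine ⟨1, fun v hv => ?_⟩
    rw [one_pow, inv_one, mul_one]
    exact ha v hv (Finset.notMem_empty v)
  | insert v₀ T _ ih =>
    intro a ha ha'
    by_cases h0 : v₀ ∈ S
    · refine ih a (fun v hv hvT => ha v hv ?_) ha'
      rw [Finset.mem_insert, not_or]
      exact ⟨fun h => hv (h ▸ h0), hvT⟩
    · obtain ⟨π, hπ1, hπ2⟩ := hP v₀ h0
      obtain ⟨b, hb⟩ := ha' v₀ h0
      have hb0 : v₀.valuation E (b : E) ≠ 0 := (Valuation.ne_zero_iff _).2 b.ne_zero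
      obtain ⟨j, hj⟩ : ∃ j : ℤ, v₀.valuation E (b : E) = WithZero.exp j :=
        ⟨_, (WithZero.exp_log hb0).symm⟩
      have hval : ∀ v : HeightOneSpectrum (𝓞 E),
          v.valuation E ((a * (π ^ j) ^ p : Eˣ) : E) =
            v.valuation E (a : E) * (v.valuation E (π : E) ^ j) ^ p := by
        intro v
        rw [Units.val_mul, map_mul, Units.val_pow_eq_pow_val, map_pow,
          Units.val_zpow_eq_zpow_val, map_zpow₀]
      have h00 : v₀.valuation E ((a * (π ^ j) ^ p : Eˣ) : E) = 1 := by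
        have e1 : v₀.valuation E (a : E) = WithZero.exp j ^ p := by
          have e2 : a = (a * (b ^ p)⁻¹) * b ^ p := by rw [inv_mul_cancel_right]
          have e3 : (a : E) = ((a * (b ^ p)⁻¹ : Eˣ) : E) * (b : E) ^ p := by
            conv_lhs => rw [e2]
            rw [Units.val_mul, Units.val_pow_eq_pow_val]
          rw [e3, map_mul, hb, one_mul, map_pow, hj]
        rw [hval, e1, hπ1, ← mul_pow, ← WithZero.exp_zsmul, ← WithZero.exp_add]
        simp
      have h01 : ∀ v ∉ S, v ≠ v₀ →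
          v.valuation E ((a * (π ^ j) ^ p : Eˣ) : E) = v.valuation E (a : E) := by
        intro v hv hvv
        rw [hval, hπ2 v hv hvv, one_zpow, one_pow, mul_one]
      obtain ⟨c, hc⟩ := ih (a * (π ^ j) ^ p) (fun v hv hvT => by
        rcases eq_or_ne v v₀ with rfl | hne
        · exact h00
        · rw [h01 v hv hne]
          exact ha v hv (by simp [hne, hvT])) (fun v hv => by
        obtain ⟨b', hb'⟩ := ha' v hv
        refine ⟨b' * π ^ j, ?_⟩
        have e4 : a * (π ^ j) ^ p * ((b' * π ^ j) ^ p)⁻¹ = a * (b' ^ p)⁻¹ := by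
          rw [mul_pow, mul_inv, mul_assoc a, mul_comm ((b' ^ p)⁻¹), ← mul_assoc ((π ^ j) ^ p),
            mul_inv_cancel, one_mul]
        rw [e4]
        exact hb')
      refine ⟨c * (π ^ j)⁻¹, fun v hv => ?_⟩
      have e5 : a * ((c * (π ^ j)⁻¹) ^ p)⁻¹ = a * (π ^ j) ^ p * (c ^ p)⁻¹ := by
        rw [mul_pow, mul_inv, inv_pow, inv_inv, mul_assoc, mul_comm ((c ^ p)⁻¹)]
      rw [e5]
      exact hc v hv

theorem notMem_SP {P : Set ℕ} (hPp : ∀ l ∈ P, l.Prime) {l : ℕ} [Fact l.Prime] (hl : l ∉ P)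
    (j : E →+* PadicAlgCl l) : pl j ∉ SP E P := by
  rintro ⟨l', hl', h⟩
  have hnd : ¬ l ∣ l' := by
    intro h1
    exact hl (((Nat.prime_dvd_prime_iff_eq Fact.out (hPp l' hl')).1 h1) ▸ hl')
  rw [mem_pl, map_natCast, map_natCast, norm_natCast_eq_one hnd] at h
  exact lt_irrefl _ h

theorem exists_unit {p : ℕ} (hp : p.Prime) {P : Set ℕ} (hPp : ∀ l ∈ P, l.Prime)
    (hP : Prin (SP E P)) (a : Eˣ)
    (h : ∀ (l : ℕ) [Fact l.Prime], l ∉ P → ∀ j : E →+* PadicAlgCl l, ∃ b : E,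
      ‖j (a : E)‖ = ‖j b‖ ^ p) :
    ∃ c : Eˣ, ∀ (l : ℕ) [Fact l.Prime], l ∉ P → ∀ j : E →+* PadicAlgCl l,
      ‖j ((a * (c ^ p)⁻¹ : Eˣ) : E)‖ = 1 := by
  obtain ⟨c, hc⟩ := exists_root hP p (finite_bad a).toFinset a (fun v _ hv => by
    by_contra h1
    exact hv ((finite_bad a).mem_toFinset.2 h1)) (fun v hv => by
    obtain ⟨l, _, j, rfl⟩ := exists_pl v
    have hl : l ∉ P := fun hl => hv ⟨l, hl, l_mem_plI j⟩
    obtain ⟨b, hb⟩ := h l hl j
    have hb0 : b ≠ 0 := by
      rintro rfl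
      rw [map_zero, norm_zero, zero_pow hp.ne_zero, norm_eq_zero, map_eq_zero] at hb
      exact a.ne_zero hb
    refine ⟨Units.mk0 b hb0, ((stPB E l j).2.1 _).1 ?_⟩
    rw [Units.val_mul, Units.val_inv_eq_inv_val, Units.val_pow_eq_pow_val, Units.val_mk0,
      map_mul, map_inv₀, map_pow, norm_mul, norm_inv, norm_pow, hb]
    refine mul_inv_cancel₀ (pow_ne_zero _ ?_)
    rw [norm_ne_zero_iff, Ne, map_eq_zero]
    exact hb0)
  refine ⟨c, fun l _ hl j => ((stPB E l j).2.1 _).2 (hc _ (notMem_SP hPp hl j))⟩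

end Units

/-! ### inflation -/

/-- the cocycles which vanish on `R` -/
def ZR {Γ M : Type*} [Group Γ] [TopologicalSpace Γ] [AddCommGroup M] (R : Subgroup Γ)
    (ρ : Γ →* AddMonoid.End M) : AddSubgroup (Γ → M) where
  carrier := {x | x ∈ BKND.Z1 ρ ∧ ∀ r ∈ R, x r = 0}
  add_mem' := by
    rintro x y ⟨h1, h2⟩ ⟨h3, h4⟩
    refine ⟨add_mem h1 h3, fun r hr => ?_⟩
    rw [Pi.add_apply, h2 r hr, h4 r hr, add_zero]
  zero_mem' := ⟨zero_mem _, fun _ _ => rfl⟩
  neg_mem' := by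
    rintro x ⟨h1, h2⟩
    refine ⟨neg_mem h1, fun r hr => ?_⟩
    rw [Pi.neg_apply, h2 r hr, neg_zero]

theorem mem_ZR {Γ M : Type*} [Group Γ] [TopologicalSpace Γ] [AddCommGroup M] {R : Subgroup Γ}
    {ρ : Γ →* AddMonoid.End M} {x : Γ → M} : x ∈ ZR R ρ ↔ x ∈ BKND.Z1 ρ ∧ ∀ r ∈ R, x r = 0 :=
  Iff.rfl

theorem card_inf {Γ M : Type*} [Group Γ] [TopologicalSpace Γ] [IsTopologicalGroup Γ]
    [AddCommGroup M] (R : Subgroup Γ) [R.Normal] (ρ : Γ ⧸ R →* AddMonoid.End M)
    (ρ' : Γ →* AddMonoid.End M) (hρ : ∀ g, ρ' g = ρ (QuotientGroup.mk g)) :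
    Nat.card (BKND.Z1 ρ) = Nat.card (ZR R ρ') := by
  let φ : BKND.Z1 ρ → ZR R ρ' := fun f => ⟨fun g => f.1 (QuotientGroup.mk g), by
    obtain ⟨⟨W, hW, hWf⟩, hf⟩ := f.2
    refine ⟨⟨⟨W.comap (QuotientGroup.mk' R), hW.preimage QuotientGroup.continuous_mk,
      fun g w hw => ?_⟩, fun g h => ?_⟩, fun r hr => ?_⟩
    · exact hWf (QuotientGroup.mk g) (QuotientGroup.mk w) hw
    · rw [hρ]
      exact hf (QuotientGroup.mk g) (QuotientGroup.mk h)
    · have h1 : (QuotientGroup.mk r : Γ ⧸ R) = 1 := (QuotientGroup.eq_one_iff r).2 hr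
      change f.1 (QuotientGroup.mk r) = 0
      rw [h1]
      have h2 := hf 1 1
      rw [mul_one, map_one] at h2
      change f.1 1 = f.1 1 + f.1 1 at h2
      exact left_eq_add.1 h2⟩
  refine Nat.card_eq_of_bijective φ ⟨fun f f' h => ?_, fun x => ?_⟩
  · apply Subtype.ext
    funext y
    obtain ⟨g, rfl⟩ := QuotientGroup.mk_surjective y
    exact congrFun (congrArg Subtype.val h) g
  · obtain ⟨⟨⟨W, hW, hWx⟩, hx⟩, hxR⟩ := x.2
    have hR : ∀ g, ∀ r ∈ R, x.1 (g * r) = x.1 g := by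
      intro g r hr
      rw [hx, hxR r hr, map_zero, add_zero]
    have hout : ∀ g : Γ, x.1 (Quotient.out (QuotientGroup.mk g : Γ ⧸ R)) = x.1 g := by
      intro g
      have h1 : (QuotientGroup.mk g : Γ ⧸ R) =
          QuotientGroup.mk (Quotient.out (QuotientGroup.mk g : Γ ⧸ R)) :=
        (QuotientGroup.out_eq' _).symm
      have h2 := QuotientGroup.eq.1 h1
      have h3 := hR g _ h2
      rw [mul_inv_cancel_left] at h3
      exact h3
    refine ⟨⟨fun y => x.1 (Quotient.out y), ⟨W.map (QuotientGroup.mk' R), ?_, ?_⟩, ?_⟩, ?_⟩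
    · rw [Subgroup.coe_map]
      exact QuotientGroup.isOpenMap_coe _ hW
    · rintro g w ⟨w, hw', rfl⟩
      obtain ⟨g, rfl⟩ := QuotientGroup.mk_surjective g
      change x.1 (Quotient.out (QuotientGroup.mk (g * w) : Γ ⧸ R)) =
        x.1 (Quotient.out (QuotientGroup.mk g : Γ ⧸ R))
      rw [hout, hout]
      exact hWx g w hw'
    · intro g h
      obtain ⟨g, rfl⟩ := QuotientGroup.mk_surjective g
      obtain ⟨h, rfl⟩ := QuotientGroup.mk_surjective h
      change x.1 (Quotient.out (QuotientGroup.mk (g * h) : Γ ⧸ R)) =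
        x.1 (Quotient.out (QuotientGroup.mk g : Γ ⧸ R)) +
          ρ (QuotientGroup.mk g) (x.1 (Quotient.out (QuotientGroup.mk h : Γ ⧸ R)))
      rw [hout, hout, hout, ← hρ]
      exact hx g h
    · apply Subtype.ext
      funext g
      exact hout g

/-! ### cocycles which vanish on the inertia groups -/

theorem vanish {F : Type} [Field F] {P : Set ℕ} {U : Subgroup (GF F)} [U.Normal]
    (hU : IsOpen (U : Set (GF F))) (hR : RS F P ≤ U) {M : Type} [AddCommGroup M]
    {ρ : GF F →* AddMonoid.End M} (hρ : ∀ g ∈ U, ρ g = 1) {x : GF F → M} (hx : x ∈ BKND.Z1 ρ)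
    (h : ∀ g ∈ BKMet.InertAway F P, x g = 0) : ∀ r ∈ RS F P, x r = 0 := by
  obtain ⟨⟨W, hW, hWx⟩, hx2⟩ := hx
  have hx1 : x 1 = 0 := by
    have h2 := hx2 1 1
    rw [mul_one, map_one] at h2
    exact left_eq_add.1 h2
  have hxU : ∀ g ∈ U, ∀ h, x (g * h) = x g + x h := by
    intro g hg h
    rw [hx2, hρ g hg]
    rfl
  let N : Subgroup (GF F) :=
    { carrier := {g | g ∈ U ∧ x g = 0}
      mul_mem' := by
        rintro g h ⟨h1, h2⟩ ⟨h3, h4⟩
        exact ⟨mul_mem h1 h3, by rw [hxU g h1, h2, h4, add_zero]⟩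
      one_mem' := ⟨one_mem _, hx1⟩
      inv_mem' := by
        rintro g ⟨h1, h2⟩
        refine ⟨inv_mem h1, ?_⟩
        have h3 := hxU g h1 g⁻¹
        rw [mul_inv_cancel, hx1, h2, zero_add] at h3
        exact h3.symm }
  have hN : N.Normal := by
    constructor
    rintro g ⟨h1, h2⟩ t
    refine ⟨‹U.Normal›.conj_mem g h1 t, ?_⟩
    have h3 : x (t * g * t⁻¹) = x t + ρ t (x (g * t⁻¹)) := by
      rw [mul_assoc]
      exact hx2 _ _
    have h4 := hx2 t t⁻¹
    rw [mul_inv_cancel, hx1] at h4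
    rw [h3, hxU g h1, h2, zero_add, ← h4]
  have hNc : IsClosed (N : Set (GF F)) := by
    have h1 : IsClosed {g : GF F | x g = 0} := by
      rw [← isOpen_compl_iff]
      rw [isOpen_iff_forall_mem_open]
      intro g hg
      refine ⟨(fun g' => g⁻¹ * g') ⁻¹' (W : Set (GF F)), ?_, ?_, ?_⟩
      · intro g' hg' h0
        have h2 := hWx g _ hg'
        rw [mul_inv_cancel_left] at h2
        exact hg (h2.symm.trans h0)
      · exact hW.preimage (continuous_const.mul continuous_id)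
      · rw [Set.mem_preimage, inv_mul_cancel]
        exact W.one_mem
    exact (U.isClosed_of_isOpen hU).inter h1
  have hle : RS F P ≤ N := by
    refine Subgroup.topologicalClosure_minimal _ ?_ hNc
    refine Subgroup.normalClosure_le_normal ?_
    intro g hg
    refine ⟨hR ?_, h g hg⟩
    exact Subgroup.le_topologicalClosure _ (Subgroup.subset_normalClosure hg)
  intro r hr
  exact (hle hr).2

/-- inertia acts trivially on the `p`-th roots of units -/
theorem kappa_zero {p l : ℕ} [hp : Fact p.Prime] [hl : Fact l.Prime] (hlp : l ≠ p)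
    {F : Type} [Field F] {ζ : AlgebraicClosure F} (hζ : IsPrimitiveRoot ζ p)
    (j : AlgebraicClosure F →+* PadicAlgCl l) {g : GF F}
    (hg : g ∈ Inert F (AlgebraicClosure F) j) {y : AlgebraicClosure F} {c : ZMod p}
    (hy : ‖j (y ^ p)‖ = 1) (h : g y = ζ ^ c.val * y) : c = 0 := by
  have hy1 : ‖j y‖ = 1 := by
    rw [map_pow, norm_pow] at hy
    exact (pow_eq_one_iff_of_nonneg (norm_nonneg _) hp.out.ne_zero).1 hy
  have h1 := hg y hy1.le
  have h2 : j (g y - y) = (j ζ ^ c.val - 1) * j y := by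
    rw [h, map_sub, map_mul, map_pow]
    ring
  rw [h2, norm_mul, hy1, mul_one] at h1
  have hnd : ¬ l ∣ p := fun h3 => hlp ((Nat.prime_dvd_prime_iff_eq hl.out hp.out).1 h3)
  have h4 : j ζ ^ c.val = 1 := by
    by_contra hne
    have h5 : (j ζ ^ c.val) ^ p = 1 := by
      rw [← pow_mul, mul_comm, pow_mul, ← map_pow j, hζ.pow_eq_one, map_one, one_pow]
    rw [norm_root_sub_one hnd h5 hne] at h1
    exact lt_irrefl _ h1
  have h5 : ζ ^ c.val = 1 := by
    apply j.injective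
    rw [map_pow, h4, map_one]
  have h6 := (hζ.pow_eq_one_iff_dvd _).1 h5
  have h7 : c.val = 0 := Nat.eq_zero_of_dvd_of_lt h6 (ZMod.val_lt c)
  exact (ZMod.val_eq_zero c).1 h7

end CEAux

open CEAux ON in
/-- Module CE. -/
theorem stCE (h1 : BKLoc2.StKH) : StCE := by
  intro p _ F _ _ P U _ E _ hS k _ _ _ ψ ψ' ψ₀ hψ hψ₀ χ hχ hrel a ha
  have : CharZero (AlgebraicClosure F) := charZero_of_injective_algebraMap
    (algebraMap F (AlgebraicClosure F)).injective
  have hpp : p.Prime := Fact.out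
  obtain ⟨ζ, hζ⟩ := exists_zeta p F
  have hζU : ∀ g ∈ U, g ζ = ζ := fun g hg => zeta_fix hζ g (hS.root g hg)
  have : Normal E (AlgebraicClosure F) := Normal.tower_top_of_normal F E (AlgebraicClosure F)
  -- the characters of `GF F`
  obtain ⟨Ψ, hΨ⟩ : ∃ Ψ : GF F →* kˣ, ∀ g, Ψ g = ψ (QuotientGroup.mk g) :=
    ⟨ψ.comp (QuotientGroup.mk' (RS F P)), fun _ => rfl⟩
  obtain ⟨Ψ', hΨ'⟩ : ∃ Ψ' : GF F →* kˣ, ∀ g, Ψ' g = ψ' (QuotientGroup.mk g) :=
    ⟨ψ'.comp (QuotientGroup.mk' (RS F P)), fun _ => rfl⟩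
  have hrel' : Rel (cycF p F) Ψ Ψ' := by
    intro g
    rw [hΨ, hΨ', ← hχ]
    exact hrel (QuotientGroup.mk g)
  obtain ⟨lam, hlam⟩ := BKLoc2.LocAux.exists_lam (p := p) k
  have hpair := BKLoc2.LocAux.pair hrel' hlam
  have hk : ∀ x : k, p • x = 0 := BKLoc2.LocAux.p_smul
  have hρU : ∀ g ∈ U, kch Ψ g = 1 := by
    intro g hg
    refine AddMonoidHom.ext fun x => ?_
    change ((Ψ g : kˣ) : k) * x = x
    rw [hΨ, hψ g hg, Units.val_one, one_mul]
  have hSm : BKND.Sm (kch Ψ) := ⟨U, hS.open', hρU⟩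
  set b := BKLoc2.LocAux.bk lam with hb
  set KR : (GF F → k) → k → AlgebraicClosure F → Prop := fun x n' a => a ≠ 0 ∧
    (∀ h ∈ U, (MonoidHom.id (GF F)) h a = a) ∧
      ∃ κ : U → ZMod p, IsKum ((MonoidHom.id (GF F)).comp U.subtype) ζ a κ ∧
        ∀ h : U, b (x h) n' = cl p (((κ h).val : ℚ_[p]) / p) with hKR
  obtain ⟨k1, k2, k3, k4, k5, k6, k7⟩ := h1 p F (AlgebraicClosure F) (GF F)
    (MonoidHom.id (GF F)) Topology.IsOpenEmbedding.id ζ hζ U inferInstance hS.open' hS.index hζU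
    k k (kch Ψ) (kch Ψ') b hk hk hpair hρU KR (fun _ _ _ => Iff.rfl)
  have hne : ∀ {x n' a}, KR x n' a → a ≠ 0 := fun h => h.1
  have hfx : ∀ {x n' a}, KR x n' a → ∀ h ∈ U, h a = a := fun h => h.2.1
  -- `p`-th powers in the group of units
  have hpp' : ∀ c c' : Additive (US F P U), (∃ d : AlgebraicClosure F, d ≠ 0 ∧
      (∀ h ∈ U, (MonoidHom.id (GF F)) h d = d) ∧
      (((Additive.toMul c' : US F P U) : (AlgebraicClosure F)ˣ) : AlgebraicClosure F) =
        ((Additive.toMul c : US F P U) : (AlgebraicClosure F)ˣ) * d ^ p) ↔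
      c' - c ∈ PP p (Additive (US F P U)) := by
    intro c c'
    rw [BKLoc2.N3Aux.mem_PP]
    constructor
    · rintro ⟨d, hd, hd', e⟩
      refine ⟨Additive.ofMul ⟨Units.mk0 d hd, hd', fun l _ hl j => ?_⟩, ?_⟩
      · have h2 := (Additive.toMul c).2.2 l hl j
        have h3 := (Additive.toMul c').2.2 l hl j
        rw [e, map_mul, norm_mul, h2, one_mul, map_pow, norm_pow] at h3
        exact (pow_eq_one_iff_of_nonneg (norm_nonneg _) hpp.ne_zero).1 h3
      · rw [eq_sub_iff_add_eq']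
        apply Additive.toMul.injective
        apply Subtype.ext
        apply Units.ext
        exact e.symm
    · rintro ⟨d, hd⟩
      refine ⟨((Additive.toMul d : US F P U) : (AlgebraicClosure F)ˣ), Units.ne_zero _,
        (Additive.toMul d).2.1, ?_⟩
      rw [eq_sub_iff_add_eq'] at hd
      rw [← hd]
      rfl
  -- the count
  have key : (BKND.B1 (kch Ψ)).relIndex (ZR (RS F P) (kch Ψ)) = hq p (kch ψ₀) a := by
    refine BKLoc2.N3Aux.card_kum (ZR (RS F P) (kch Ψ)) (BKND.B1 (kch Ψ)) (kch ψ₀) a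
      (fun x n' (c : Additive (US F P U)) =>
        KR x n' ((Additive.toMul c : US F P U) : (AlgebraicClosure F)ˣ)) ?_ ?_ ?_ ?_ ?_ ?_ ?_
    · intro x hx n'
      obtain ⟨α, hα⟩ := k1 x hx.1 n'
      obtain ⟨hα0, hαf, κ, ⟨y, hy0, hyα, hyv⟩, hκ⟩ := id hα
      have hαE : α ∈ E := (hS.field α).2 hαf
      have hαE0 : (⟨α, hαE⟩ : E) ≠ 0 := fun h => hα0 (congrArg Subtype.val h)
      obtain ⟨c, hc⟩ := exists_unit hpp hS.prime hS.prin (Units.mk0 ⟨α, hαE⟩ hαE0) (by
        intro l _ hl j'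
        obtain ⟨j, rfl⟩ := exists_lift E j'
        have h3 : ∀ σ ∈ Inert E (AlgebraicClosure F) j, σ y = y := by
          intro σ hσ
          have hσU : (σ.restrictScalars F : GF F) ∈ U := restrict_mem hS.open' hS.field σ
          have hσR : (σ.restrictScalars F : GF F) ∈ RS F P := by
            refine Subgroup.le_topologicalClosure _ (Subgroup.subset_normalClosure ?_)
            exact ⟨l, inferInstance, j, hl, hσ⟩
          have h4 := hκ ⟨_, hσU⟩
          have h5 : x (σ.restrictScalars F : GF F) = 0 := hx.2 _ hσR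
          rw [h5, map_zero, AddMonoidHom.zero_apply] at h4
          have h6 : κ ⟨_, hσU⟩ = 0 := by
            have h7 : BKLoc2.KHAux.jz (κ ⟨_, hσU⟩) = 0 := h4.symm
            exact BKLoc2.KHAux.jz_eq_zero h7
          have h8 := hyv ⟨_, hσU⟩
          rw [h6, ZMod.val_zero, pow_zero, one_mul] at h8
          exact h8
        obtain ⟨b', hb'⟩ := norm_of_fixed_inert j y h3
        refine ⟨b', ?_⟩
        change ‖j α‖ = ‖j (algebraMap E (AlgebraicClosure F) b')‖ ^ p
        rw [← hb', ← norm_pow, ← map_pow, hyα])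
      set u : Eˣ := Units.mk0 ⟨α, hαE⟩ hαE0 * (c ^ p)⁻¹ with hu
      have hu0 : ((u : E) : AlgebraicClosure F) ≠ 0 := by
        intro h
        exact u.ne_zero (Subtype.ext h)
      refine ⟨Additive.ofMul ⟨Units.mk0 ((u : E) : AlgebraicClosure F) hu0,
        (hS.field _).1 (u : E).2, fun l _ hl j => ?_⟩, ?_⟩
      · exact hc l hl (j.comp (algebraMap E (AlgebraicClosure F)))
      · refine (k2 x hx.1 n' α hα _).2 ⟨((c⁻¹ : Eˣ) : E), ?_, ?_, ?_⟩
        · intro h
          exact (c⁻¹ : Eˣ).ne_zero (Subtype.ext h)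
        · exact (hS.field _).1 ((c⁻¹ : Eˣ) : E).2
        · change ((u : E) : AlgebraicClosure F) = α * (((c⁻¹ : Eˣ) : E) : AlgebraicClosure F) ^ p
          rw [hu, ← inv_pow, Units.val_mul, Units.val_pow_eq_pow_val]
          rfl
    · intro x hx n' c hc c'
      rw [k2 x hx.1 n' _ hc, ← hpp']
    · intro x hx n' m' c c' hc hc'
      exact k3 x hx.1 n' m' _ _ hc hc'
    · intro x hx n' c d hc
      obtain ⟨v, rfl⟩ := QuotientGroup.mk_surjective d
      have h2 := k4 x hx.1 n' _ v hc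
      have h3 : kch ψ₀ (QuotientGroup.mk v) n' = kch Ψ' v n' := by
        rw [BKMet.kch_apply, BKMet.kch_apply, hψ₀, hΨ']
      change KR x (kch ψ₀ (QuotientGroup.mk v) n') _
      rw [h3, ha]
      exact h2
    · intro x hx y hy n' c c' hc hc'
      exact k5 x hx.1 y hy.1 n' _ _ hc hc'
    · intro x hx
      exact k6 x hx.1
    · intro A hA1 hA2
      obtain ⟨x, hx, hxA⟩ := k7
        (fun n' => ((Additive.toMul (A n') : US F P U) : (AlgebraicClosure F)ˣ))
        (fun n' => ⟨Units.ne_zero _, (Additive.toMul (A n')).2.1⟩) (fun n' m' => by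
          obtain ⟨d, -, hd, e⟩ := (hpp' _ _).2 (hA1 n' m')
          exact ⟨d, hd, e⟩) (fun v n' => by
          obtain ⟨d, -, hd, e⟩ := (hpp' _ _).2 (hA2 (QuotientGroup.mk v) n')
          refine ⟨d, hd, ?_⟩
          have h3 : kch ψ₀ (QuotientGroup.mk v) n' = kch Ψ' v n' := by
            rw [BKMet.kch_apply, BKMet.kch_apply, hψ₀, hΨ']
          rw [h3, ha] at e
          exact e)
      refine ⟨x, ⟨hx, ?_⟩, hxA⟩
      refine vanish hS.open' hS.ram hρU hx ?_
      rintro g ⟨l, _, j, hl, hg⟩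
      have hlp : l ≠ p := by
        rintro rfl
        exact hl hS.memP
      have hgU : g ∈ U := by
        apply hS.ram
        refine Subgroup.le_topologicalClosure _ (Subgroup.subset_normalClosure ?_)
        exact ⟨l, inferInstance, j, hl, hg⟩
      refine hpair.left _ fun n' => ?_
      obtain ⟨-, -, κ, ⟨y, hy0, hyα, hyv⟩, hκ⟩ := hxA n'
      have h2 : κ ⟨g, hgU⟩ = 0 := by
        refine kappa_zero hlp hζ j hg (y := y) ?_ (hyv ⟨g, hgU⟩)
        rw [hyα]
        exact (Additive.toMul (A n')).2.2 l hl j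
      have h3 := hκ ⟨g, hgU⟩
      rw [h2, ZMod.val_zero, Nat.cast_zero, zero_div] at h3
      rw [h3]
      rfl
  -- counting
  have hB : BKND.B1 (kch Ψ) ≤ ZR (RS F P) (kch Ψ) := by
    intro x hx
    refine ⟨BKLoc2.LocAux.B1_le hSm hx, fun r hr => ?_⟩
    obtain ⟨m, hm⟩ := hx
    rw [hm, hρU r (hS.ram hr)]
    exact sub_self m
  have hc1 : Nat.card (BKND.Z1 (kch ψ)) = Nat.card (ZR (RS F P) (kch Ψ)) := by
    refine card_inf (RS F P) (kch ψ) (kch Ψ) fun g => ?_
    refine AddMonoidHom.ext fun x => ?_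
    change ((Ψ g : kˣ) : k) * x = ((ψ (QuotientGroup.mk g) : kˣ) : k) * x
    rw [hΨ]
  have hc2 : BKND.H0 (kch ψ) = BKND.H0 (kch Ψ) := by
    ext m
    constructor
    · intro h g
      have h2 := h (QuotientGroup.mk g)
      rw [BKMet.kch_apply] at h2 ⊢
      rw [hΨ]
      exact h2
    · intro h g
      obtain ⟨g, rfl⟩ := QuotientGroup.mk_surjective g
      have h2 := h g
      rw [BKMet.kch_apply] at h2 ⊢
      rw [hΨ] at h2
      exact h2
  have h2 := AddSubgroup.relIndex_mul_relIndex ⊥ (BKND.B1 (kch Ψ)) (ZR (RS F P) (kch Ψ)) bot_le hB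
  rw [AddSubgroup.relIndex_bot_left, AddSubgroup.relIndex_bot_left, key] at h2
  rw [hc1, hc2, ← h2, ← BKLoc2.LocAux.card_B1 Ψ]
  ring

end BKGlob2
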