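import Pool.Agent.Lib.MP_7c08ba_nt.Met.HStmts

set_option autoImplicit false

/-!
Module CG: the number of equivariant homomorphisms, by comparison with a permutation module.
-/

noncomputable section

namespace BKGlob2

open BKLoc2 (hq ht PP StEig)
open BKMet (kch)

namespace CGAux

/-! ### products -/

section Prod

variable {Δ N X Y : Type} [Group Δ] [AddCommGroup N] [AddCommGroup X] [AddCommGroup Y]
  (ρ : Δ →* AddMonoid.End N) (a : Δ →* AddMonoid.End X) (b : Δ →* AddMonoid.End Y)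

/-- the action on a product -/
def pr : Δ →* AddMonoid.End (X × Y) where
  toFun d := AddMonoidHom.prodMap (a d) (b d)
  map_one' := by
    rw [map_one, map_one]
    ext x <;> rfl
  map_mul' d d' := by
    rw [map_mul, map_mul]
    ext x <;> rfl

theorem pr_apply (d : Δ) (x : X × Y) : pr a b d x = (a d x.1, b d x.2) := rfl

theorem ht_prod : ht ρ (pr a b) = ht ρ a * ht ρ b := by
  rw [ht, ht, ht, ← Nat.card_prod]
  exact Nat.card_congr
    { toFun := fun f => (⟨(AddMonoidHom.fst X Y).comp f.1, fun d n => by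
          change (f.1 (ρ d n)).1 = a d (f.1 n).1
          rw [f.2, pr_apply]⟩, ⟨(AddMonoidHom.snd X Y).comp f.1, fun d n => by
          change (f.1 (ρ d n)).2 = b d (f.1 n).2
          rw [f.2, pr_apply]⟩)
      invFun := fun g => ⟨g.1.1.prod g.2.1, fun d n => by
          change (g.1.1 (ρ d n), g.2.1 (ρ d n)) = (a d (g.1.1 n), b d (g.2.1 n))
          rw [g.1.2, g.2.2]⟩
      left_inv := fun f => rfl
      right_inv := fun g => rfl }

theorem mem_PP (p : ℕ) (x : X) : x ∈ PP p X ↔ ∃ y, p • y = x := Iff.rfl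

/-- the quotient by `p` -/
theorem exists_equiv (p : ℕ) {Q : Type} [AddCommGroup Q] (π : X →+ Q)
    (hπ : Function.Surjective π) (hk : ∀ x, π x = 0 ↔ x ∈ PP p X) :
    ∃ E : X ⧸ PP p X ≃+ Q, ∀ x, E (QuotientAddGroup.mk x) = π x := by
  have hle : PP p X ≤ π.ker := fun x hx => (hk x).2 hx
  let π' : X ⧸ PP p X →+ Q := QuotientAddGroup.lift (PP p X) π hle
  have hπ' : ∀ x, π' (QuotientAddGroup.mk x) = π x := fun x => rfl
  have hbij : Function.Bijective π' := by
    constructor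
    · rw [injective_iff_map_eq_zero]
      intro x hx
      obtain ⟨x, rfl⟩ := QuotientAddGroup.mk_surjective x
      rw [hπ', hk] at hx
      exact (QuotientAddGroup.eq_zero_iff x).2 hx
    · intro y
      obtain ⟨x, rfl⟩ := hπ y
      exact ⟨QuotientAddGroup.mk x, rfl⟩
  exact ⟨AddEquiv.ofBijective π' hbij, fun x => rfl⟩

theorem hq_eq (p : ℕ) {Q : Type} [AddCommGroup Q] (π : X →+ Q) (hπ : Function.Surjective π)
    (hk : ∀ x, π x = 0 ↔ x ∈ PP p X) (q : Δ →* AddMonoid.End Q)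
    (hq' : ∀ d x, π (a d x) = q d (π x)) : hq p ρ a = ht ρ q := by
  obtain ⟨E, hE⟩ := exists_equiv p π hπ hk
  rw [hq, ht]
  exact Nat.card_congr
    { toFun := fun f => ⟨E.toAddMonoidHom.comp f.1, fun d n => by
          obtain ⟨x, hx⟩ := QuotientAddGroup.mk_surjective (f.1 n)
          change E (f.1 (ρ d n)) = q d (E (f.1 n))
          rw [f.2 d n x hx.symm, ← hx, hE, hE, hq']⟩
      invFun := fun g => ⟨E.symm.toAddMonoidHom.comp g.1, fun d n x hx => by
          change E.symm (g.1 (ρ d n)) = _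
          change E.symm (g.1 n) = _ at hx
          rw [AddEquiv.symm_apply_eq] at hx ⊢
          rw [g.2, hx, hE, hE, hq']⟩
      left_inv := fun f => by
        apply Subtype.ext
        ext n
        exact E.symm_apply_apply _
      right_inv := fun g => by
        apply Subtype.ext
        ext n
        exact E.apply_symm_apply _ }

/-- the action on the quotient by `p` -/
def aq (p : ℕ) : Δ →* AddMonoid.End (X ⧸ PP p X) where
  toFun d := QuotientAddGroup.map (PP p X) (PP p X) (a d) (by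
    rintro x ⟨y, rfl⟩
    exact ⟨a d y, (map_nsmul (a d) p y).symm⟩)
  map_one' := by
    refine DFunLike.ext _ _ fun x => ?_
    obtain ⟨x, rfl⟩ := QuotientAddGroup.mk_surjective x
    change (QuotientAddGroup.mk (a 1 x) : X ⧸ PP p X) = _
    rw [map_one]
    rfl
  map_mul' d d' := by
    refine DFunLike.ext _ _ fun x => ?_
    obtain ⟨x, rfl⟩ := QuotientAddGroup.mk_surjective x
    change (QuotientAddGroup.mk (a (d * d') x) : X ⧸ PP p X) = _
    rw [map_mul]
    rfl

theorem hq_aq (p : ℕ) : hq p ρ a = ht ρ (aq a p) :=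
  hq_eq ρ a p (QuotientAddGroup.mk' (PP p X)) (QuotientAddGroup.mk'_surjective _)
    (fun x => QuotientAddGroup.eq_zero_iff x) _ fun _ _ => rfl

theorem hq_prod (p : ℕ) : hq p ρ (pr a b) = hq p ρ a * hq p ρ b := by
  rw [hq_aq ρ a p, hq_aq ρ b p, ← ht_prod]
  refine hq_eq ρ (pr a b) p (AddMonoidHom.prodMap (QuotientAddGroup.mk' (PP p X))
    (QuotientAddGroup.mk' (PP p Y))) ?_ ?_ _ fun d x => rfl
  · rintro ⟨x, y⟩
    obtain ⟨x, rfl⟩ := QuotientAddGroup.mk_surjective x
    obtain ⟨y, rfl⟩ := QuotientAddGroup.mk_surjective y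
    exact ⟨(x, y), rfl⟩
  · rintro ⟨x, y⟩
    rw [AddMonoidHom.coe_prodMap, Prod.map_apply, Prod.mk_eq_zero, QuotientAddGroup.mk'_apply,
      QuotientAddGroup.mk'_apply, QuotientAddGroup.eq_zero_iff, QuotientAddGroup.eq_zero_iff,
      mem_PP, mem_PP, mem_PP]
    constructor
    · rintro ⟨⟨x', rfl⟩, y', rfl⟩
      exact ⟨(x', y'), rfl⟩
    · rintro ⟨⟨x', y'⟩, h⟩
      exact ⟨⟨x', congrArg Prod.fst h⟩, y', congrArg Prod.snd h⟩

theorem ht_one {p : ℕ} (hN : ∀ n : N, p • n = 0) (hX : ∀ x : X, p • x = 0 → x = 0) :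
    ht ρ a = 1 := by
  have : Subsingleton {f : N →+ X // ∀ d n, f (ρ d n) = a d (f n)} := by
    refine ⟨fun f g => ?_⟩
    apply Subtype.ext
    ext n
    rw [hX (f.1 n) (by rw [← map_nsmul, hN, map_zero]),
      hX (g.1 n) (by rw [← map_nsmul, hN, map_zero])]
  have h0 : Nonempty {f : N →+ X // ∀ d n, f (ρ d n) = a d (f n)} :=
    ⟨⟨0, fun d n => by simp⟩⟩
  exact Nat.card_of_subsingleton h0.some

end Prod

/-! ### homomorphisms to `ℤ/p` -/

section Dual

variable {p : ℕ} [Fact p.Prime]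

theorem card_dual (N : Type) [AddCommGroup N] [Finite N]
    [Module (ZMod p) N] : Nat.card (N →ₗ[ZMod p] ZMod p) = Nat.card N := by
  have : Module.Finite (ZMod p) N := Module.Finite.of_finite
  have h2 : Nat.card (Module.Dual (ZMod p) N) =
      Nat.card (ZMod p) ^ Module.finrank (ZMod p) (Module.Dual (ZMod p) N) :=
    Module.natCard_eq_pow_finrank
  have h1 : Nat.card N = Nat.card (ZMod p) ^ Module.finrank (ZMod p) N :=
    Module.natCard_eq_pow_finrank
  rw [Subspace.dual_finrank_eq] at h2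
  rw [h1]
  exact h2

/-- the number of homomorphisms to `ℤ/p` of an elementary abelian group -/
theorem card_hom (N : Type) [AddCommGroup N] [Finite N]
    (hN : ∀ n : N, p • n = 0) : Nat.card (N →+ ZMod p) = Nat.card N := by
  let _ : Module (ZMod p) N := AddCommGroup.zmodModule hN
  have e : (N →+ ZMod p) ≃ (N →ₗ[ZMod p] ZMod p) :=
    { toFun := fun f => AddMonoidHom.toZModLinearMap p f
      invFun := fun f => f.toAddMonoidHom
      left_inv := fun f => by ext n; rfl
      right_inv := fun f => by ext n; rfl }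
  rw [Nat.card_congr e]
  exact card_dual N

variable {k : Type} [Field k] [Algebra (ZMod p) k]

theorem nsmul_zero (x : k) : p • x = 0 := by
  have h1 : (p : k) = 0 := by
    have h2 := congrArg (algebraMap (ZMod p) k) (CharP.cast_eq_zero (ZMod p) p)
    rwa [map_natCast, map_zero] at h2
  rw [nsmul_eq_mul, h1, zero_mul]

/-- equivariant homomorphisms to `ℤ/p` with trivial action -/
theorem card_triv [Finite k] {G : Type} [Group G] (ψ : G →* kˣ) :
    ht (kch ψ) (1 : G →* AddMonoid.End (ZMod p)) = Nat.card (BKND.H0 (kch ψ)) := by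
  by_cases h : ∀ g, ψ g = 1
  · have h1 : ht (kch ψ) (1 : G →* AddMonoid.End (ZMod p)) = Nat.card (k →+ ZMod p) := by
      rw [ht]
      refine Nat.card_congr (Equiv.subtypeUnivEquiv fun f d n => ?_)
      rw [BKMet.kch_apply, h d, Units.val_one, one_mul]
      rfl
    have h2 : Nat.card (BKND.H0 (kch ψ)) = Nat.card k := by
      refine Nat.card_congr (Equiv.subtypeUnivEquiv fun m => ?_)
      intro g
      rw [BKMet.kch_apply, h g, Units.val_one, one_mul]
    rw [h1, h2, card_hom k nsmul_zero]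
  · push Not at h
    obtain ⟨g, hg⟩ := h
    have hu : ((ψ g : kˣ) : k) - 1 ≠ 0 := by
      intro h1
      apply hg
      ext
      rw [Units.val_one]
      exact sub_eq_zero.1 h1
    have h1 : ht (kch ψ) (1 : G →* AddMonoid.End (ZMod p)) = 1 := by
      rw [ht]
      have : Subsingleton {f : k →+ ZMod p // ∀ d n, f (kch ψ d n) =
          (1 : G →* AddMonoid.End (ZMod p)) d (f n)} := by
        have key : ∀ f : {f : k →+ ZMod p // ∀ d n, f (kch ψ d n) =
            (1 : G →* AddMonoid.End (ZMod p)) d (f n)}, ∀ n, f.1 n = 0 := by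
          intro f n
          have h2 := f.2 g ((((ψ g : kˣ) : k) - 1)⁻¹ * n)
          change f.1 (kch ψ g ((((ψ g : kˣ) : k) - 1)⁻¹ * n)) =
            f.1 ((((ψ g : kˣ) : k) - 1)⁻¹ * n) at h2
          rw [BKMet.kch_apply, ← sub_eq_zero, ← map_sub] at h2
          have h3 : ((ψ g : kˣ) : k) * ((((ψ g : kˣ) : k) - 1)⁻¹ * n) -
              (((ψ g : kˣ) : k) - 1)⁻¹ * n = n := by
            field_simp
          rwa [h3] at h2
        refine ⟨fun f f' => ?_⟩
        apply Subtype.ext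
        ext n
        rw [key, key]
      exact Nat.card_of_subsingleton ⟨0, fun d n => by simp⟩
    have h2 : Nat.card (BKND.H0 (kch ψ)) = 1 := by
      have : Subsingleton (BKND.H0 (kch ψ)) := by
        have key : ∀ m : BKND.H0 (kch ψ), (m : k) = 0 := by
          intro m
          have h3 := m.2 g
          rw [BKMet.kch_apply] at h3
          have h4 : (((ψ g : kˣ) : k) - 1) * (m : k) = 0 := by
            rw [sub_mul, one_mul, h3, sub_self]
          exact (mul_eq_zero.1 h4).resolve_left hu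
        refine ⟨fun m m' => ?_⟩
        apply Subtype.ext
        rw [key, key]
      exact Nat.card_of_subsingleton 0
    rw [h1, h2]

end Dual

/-! ### permutation modules -/

section Perm

variable {Δ : Type} [Group Δ] (T : Type) [MulAction Δ T] (R : Type) [AddCommGroup R]

/-- the permutation module -/
def pm : Δ →* AddMonoid.End (T → R) where
  toFun d := AddMonoidHom.mk' (fun y t => y (d⁻¹ • t)) fun _ _ => rfl
  map_one' := by
    refine DFunLike.ext _ _ fun y => ?_
    funext t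
    change y ((1 : Δ)⁻¹ • t) = y t
    rw [inv_one, one_smul]
  map_mul' d d' := by
    refine DFunLike.ext _ _ fun y => ?_
    funext t
    change y ((d * d')⁻¹ • t) = y (d'⁻¹ • d⁻¹ • t)
    rw [mul_inv_rev, mul_smul]

theorem pm_apply (d : Δ) (y : T → R) (t : T) : pm T R d y t = y (d⁻¹ • t) := rfl

end Perm

section Main

variable {p : ℕ} [Fact p.Prime] {Δ : Type} [Group Δ] {W : Type} [Fintype W]
  (D : W → Subgroup Δ) {k : Type} [Field k]

/-- Frobenius reciprocity -/
theorem frob [Finite Δ] (ψ : Δ →* kˣ) :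
    ht (kch ψ) (pm (Δ := Δ) (Σ w, Δ ⧸ D w) (ZMod p)) =
      ∏ w, ht (kch (ψ.comp (D w).subtype)) (1 : D w →* AddMonoid.End (ZMod p)) := by
  simp only [ht]
  rw [← Nat.card_pi]
  let Φ : {f : k →+ ((Σ w, Δ ⧸ D w) → ZMod p) // ∀ d n, f (kch ψ d n) =
      pm (Δ := Δ) (Σ w, Δ ⧸ D w) (ZMod p) d (f n)} →
      ∀ w, {f : k →+ ZMod p // ∀ d n, f (kch (ψ.comp (D w).subtype) d n) =
        (1 : D w →* AddMonoid.End (ZMod p)) d (f n)} := fun F w =>
    ⟨(Pi.evalAddMonoidHom (fun _ : (Σ w, Δ ⧸ D w) => ZMod p) ⟨w, ((1 : Δ) : Δ ⧸ D w)⟩).comp F.1,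
      by
        intro d n
        change F.1 (kch ψ (d : Δ) n) ⟨w, ((1 : Δ) : Δ ⧸ D w)⟩ =
          F.1 n ⟨w, ((1 : Δ) : Δ ⧸ D w)⟩
        rw [F.2, pm_apply]
        have h1 : ((d : Δ)⁻¹ • (⟨w, ((1 : Δ) : Δ ⧸ D w)⟩ : Σ w, Δ ⧸ D w)) =
            ⟨w, ((1 : Δ) : Δ ⧸ D w)⟩ := by
          have h2 : (((d : Δ)⁻¹ * (1 : Δ) : Δ) : Δ ⧸ D w) = ((1 : Δ) : Δ ⧸ D w) := by
            rw [QuotientGroup.eq]
            simp
          exact congrArg (Sigma.mk w) h2
        rw [h1]⟩
  have hΦ : ∀ F w n, (Φ F w).1 n = F.1 n ⟨w, ((1 : Δ) : Δ ⧸ D w)⟩ := fun _ _ _ => rfl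
  refine Nat.card_congr (Equiv.ofBijective Φ ⟨?_, ?_⟩)
  · intro F F' h
    apply Subtype.ext
    refine DFunLike.ext _ _ fun n => ?_
    funext x
    obtain ⟨w, t⟩ := x
    obtain ⟨τ, rfl⟩ := QuotientGroup.mk_surjective t
    have key : ∀ G : {f : k →+ ((Σ w, Δ ⧸ D w) → ZMod p) // ∀ d n, f (kch ψ d n) =
        pm (Δ := Δ) (Σ w, Δ ⧸ D w) (ZMod p) d (f n)},
        G.1 n ⟨w, (τ : Δ ⧸ D w)⟩ = (Φ G w).1 (kch ψ τ⁻¹ n) := by
      intro G
      rw [hΦ, G.2, pm_apply, inv_inv]
      have h1 : (τ • (⟨w, ((1 : Δ) : Δ ⧸ D w)⟩ : Σ w, Δ ⧸ D w)) = ⟨w, (τ : Δ ⧸ D w)⟩ := by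
        have h2 : ((τ * (1 : Δ) : Δ) : Δ ⧸ D w) = (τ : Δ ⧸ D w) := by
          rw [mul_one]
        exact congrArg (Sigma.mk w) h2
      rw [h1]
    rw [key, key, h]
  · intro G
    have hG : ∀ w (d : Δ), d ∈ D w → ∀ n, (G w).1 (kch ψ d n) = (G w).1 n := by
      intro w d hd n
      exact (G w).2 ⟨d, hd⟩ n
    have hout : ∀ w (τ : Δ) (n : k), (G w).1 (kch ψ ((τ : Δ ⧸ D w).out)⁻¹ n) =
        (G w).1 (kch ψ τ⁻¹ n) := by
      intro w τ n
      have h1 : (τ : Δ ⧸ D w).out⁻¹ * τ ∈ D w := by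
        rw [← QuotientGroup.eq, QuotientGroup.out_eq']
      have h2 := hG w _ h1 (kch ψ τ⁻¹ n)
      rw [← h2]
      congr 1
      change _ = (kch ψ ((τ : Δ ⧸ D w).out⁻¹ * τ) * kch ψ τ⁻¹) n
      rw [← map_mul, mul_inv_cancel_right]
    refine ⟨⟨AddMonoidHom.mk' (fun n x => (G x.1).1 (kch ψ (x.2.out)⁻¹ n)) ?_, ?_⟩, ?_⟩
    · intro n n'
      funext x
      change (G x.1).1 (kch ψ (x.2.out)⁻¹ (n + n')) = _
      rw [map_add, map_add]
      rfl
    · intro d n
      funext x
      obtain ⟨w, t⟩ := x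
      obtain ⟨τ, rfl⟩ := QuotientGroup.mk_surjective t
      change (G w).1 (kch ψ ((τ : Δ ⧸ D w).out)⁻¹ (kch ψ d n)) =
        (G w).1 (kch ψ (((d⁻¹ * τ : Δ) : Δ ⧸ D w).out)⁻¹ n)
      rw [hout, hout]
      congr 1
      change (kch ψ τ⁻¹ * kch ψ d) n = _
      rw [← map_mul, mul_inv_rev, inv_inv]
    · funext w
      apply Subtype.ext
      refine DFunLike.ext _ _ fun n => ?_
      change (G w).1 (kch ψ (((1 : Δ) : Δ ⧸ D w).out)⁻¹ n) = _
      rw [hout, inv_one, map_one]
      rfl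

/-- reduction modulo `p` of functions -/
def red (p : ℕ) (T : Type) : (T → ℤ) →+ (T → ZMod p) :=
  AddMonoidHom.mk' (fun y t => (y t : ZMod p)) fun y z => by
    funext t
    exact Int.cast_add _ _

omit [Fact p.Prime] in
theorem red_surj (T : Type) : Function.Surjective (red p T) := by
  intro y
  choose z hz using fun t => ZMod.intCast_surjective (y t)
  exact ⟨z, funext hz⟩

theorem red_ker (T : Type) (y : T → ℤ) : red p T y = 0 ↔ y ∈ PP p (T → ℤ) := by
  rw [mem_PP]
  constructor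
  · intro h
    have h1 : ∀ t, ∃ c : ℤ, y t = p * c := by
      intro t
      have h2 : ((y t : ℤ) : ZMod p) = 0 := congrFun h t
      exact (ZMod.intCast_zmod_eq_zero_iff_dvd _ _).1 h2
    choose c hc using h1
    refine ⟨c, ?_⟩
    funext t
    rw [Pi.smul_apply, nsmul_eq_mul, hc t]
  · rintro ⟨c, rfl⟩
    funext t
    change (((p • c) t : ℤ) : ZMod p) = 0
    rw [Pi.smul_apply, nsmul_eq_mul]
    push_cast
    rw [CharP.cast_eq_zero, zero_mul]

/-- the linear combinations -/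
def lc {T X : Type} [Fintype T] [AddCommGroup X] (G : T → X) : (T → ℤ) →+ X :=
  AddMonoidHom.mk' (fun y => ∑ t, y t • G t) fun y z => by
    simp only [Pi.add_apply, add_smul, Finset.sum_add_distrib]

theorem lc_apply {T X : Type} [Fintype T] [AddCommGroup X] (G : T → X) (y : T → ℤ) :
    lc G y = ∑ t, y t • G t := rfl

end Main

end CGAux

open CGAux in
/-- Module CG. -/
theorem stCG (h1 : StEig) : StCG := by
  intro p hp Δ _ _ hΔ X _ a W _ D g hg hli hidx hfin k _ _ _ ψ
  have := Fintype.ofFinite (Σ w, Δ ⧸ D w)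
  set T := Σ w, Δ ⧸ D w with hT
  set G : T → X × ℤ := fun x => g x.1 x.2 with hG
  have hN : ∀ n : k, p • n = 0 := nsmul_zero
  have hGd : ∀ (d : Δ) (t : T), G (d • t) = pr a 1 d (G t) := fun d t => hg d t.1 t.2
  have hinj : Function.Injective (lc G) := by
    rw [injective_iff_map_eq_zero]
    intro y hy
    funext t
    exact Fintype.linearIndependent_iff.1 hli y hy t
  have hequi : ∀ (d : Δ) (y : T → ℤ), lc G (pm T ℤ d y) = pr a 1 d (lc G y) := by
    intro d y
    rw [lc_apply, lc_apply, map_sum]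
    refine Fintype.sum_equiv (MulAction.toPerm d⁻¹ : Equiv.Perm T) _ _ fun t => ?_
    change pm T ℤ d y t • G t = pr a 1 d (y (d⁻¹ • t) • G (d⁻¹ • t))
    rw [map_zsmul, ← hGd, smul_inv_smul]
    rfl
  have hle : AddSubgroup.closure (Set.range G) ≤ (lc G).range := by
    rw [AddSubgroup.closure_le]
    rintro _ ⟨t, rfl⟩
    classical
    refine ⟨Pi.single t 1, ?_⟩
    rw [lc_apply, Finset.sum_eq_single t]
    · rw [Pi.single_eq_same, one_smul]
    · intro b _ hb
      rw [Pi.single_eq_of_ne hb, zero_smul]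
    · intro h
      exact absurd (Finset.mem_univ t) h
  have hidx' : (lc G).range.index ≠ 0 := by
    have : (AddSubgroup.closure (Set.range G)).FiniteIndex := ⟨hidx⟩
    exact (AddSubgroup.finiteIndex_of_le hle).index_ne_zero
  have hfinY : Finite ((T → ℤ) ⧸ PP p (T → ℤ)) := by
    obtain ⟨E, -⟩ := exists_equiv p (red p T) (red_surj T) (red_ker T)
    exact Finite.of_equiv _ E.symm.toEquiv
  have hfinX : Finite {x : X × ℤ // p • x = 0} := by
    have hz : ∀ x : {x : X × ℤ // p • x = 0}, p • x.1.1 = 0 ∧ x.1.2 = 0 := by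
      rintro ⟨⟨x, m⟩, h⟩
      have h2 := congrArg Prod.fst h
      have h3 := congrArg Prod.snd h
      refine ⟨h2, ?_⟩
      change p • m = 0 at h3
      rw [nsmul_eq_mul] at h3
      exact (mul_eq_zero.1 h3).resolve_left (by exact_mod_cast hp.out.ne_zero)
    refine Finite.of_injective
      (fun x : {x : X × ℤ // p • x = 0} => (⟨x.1.1, (hz x).1⟩ : {x : X // p • x = 0})) ?_
    intro x y h
    apply Subtype.ext
    refine Prod.ext (congrArg Subtype.val h) ?_
    rw [(hz x).2, (hz y).2]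
  have key := (h1 p Δ hΔ k hN (kch ψ) (X × ℤ) (T → ℤ) (pr a 1) (pm T ℤ) (lc G) hinj hequi hidx'
    hfinY hfinX).2
  have hint : ∀ x : ℤ, p • x = 0 → x = 0 := by
    intro x hx
    rw [nsmul_eq_mul] at hx
    exact (mul_eq_zero.1 hx).resolve_left (by exact_mod_cast hp.out.ne_zero)
  have e1 : ht (kch ψ) (pm (Δ := Δ) T ℤ) = 1 := by
    refine ht_one (kch ψ) _ hN fun x hx => ?_
    funext t
    exact hint _ (congrFun hx t)
  have e2 : ht (kch ψ) (1 : Δ →* AddMonoid.End ℤ) = 1 := ht_one (kch ψ) _ hN hint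
  have e3 : hq p (kch ψ) (1 : Δ →* AddMonoid.End ℤ) = Nat.card (BKND.H0 (kch ψ)) := by
    rw [← card_triv (p := p) ψ]
    refine hq_eq (kch ψ) (1 : Δ →* AddMonoid.End ℤ) p (Int.castAddHom (ZMod p))
      (ZMod.intCast_surjective) ?_ (1 : Δ →* AddMonoid.End (ZMod p)) fun d x => rfl
    intro x
    rw [mem_PP, Int.coe_castAddHom, ZMod.intCast_zmod_eq_zero_iff_dvd]
    constructor
    · rintro ⟨c, hc⟩
      exact ⟨c, by rw [hc, nsmul_eq_mul]⟩
    · rintro ⟨c, hc⟩
      exact ⟨c, by rw [← hc, nsmul_eq_mul]⟩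
  have e4 : hq p (kch ψ) (pm (Δ := Δ) T ℤ) =
      ∏ w, Nat.card (BKND.H0 (kch (ψ.comp (D w).subtype))) := by
    rw [hq_eq (kch ψ) (pm (Δ := Δ) T ℤ) p (red p T) (red_surj T) (red_ker T)
      (pm (Δ := Δ) T (ZMod p)) fun d x => rfl, frob D ψ]
    exact Finset.prod_congr rfl fun w _ => card_triv (p := p) _
  rw [e1, mul_one, e4, ht_prod, e2, mul_one, hq_prod, e3] at key
  exact key

end BKGlob2
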