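import Pool.Agent.Lib.MP_7c08ba_nt.Met.HStmts
import Pool.Agent.Lib.MP_7c08ba_nt.Odd.Conj
import Pool.Agent.Lib.MP_7c08ba_nt.Odd.Place

set_option autoImplicit false

/-!
Parity without rigidity, global part 2, module CJ: complex conjugation, and the two places over a
prime which splits.
-/

noncomputable section

namespace BKGlob2

open NumberField IsDedekindDomain BKGen
open BKOdd (Fx IsKum IsNm chm chZ ConjHyp)
open BKLoc2 (cl sc im cy cyL Sys IsKP IsLam IsHom StLoc hq ht PP)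
open BKMet (QZ actA kch Rel GF GQ cycF cycL IsConj RS GS Pl Splits pb1 pb2 LocAx GlobAx StArith)
open BKPar (Loc1 Loc2)

namespace CJAux

section

variable {F : Type} [Field F] [NumberField F]

theorem normal (hF : Module.finrank ℚ F = 2) : Normal ℚ F := by
  have : Algebra.IsQuadraticExtension ℚ F := ⟨hF⟩
  exact Algebra.IsQuadraticExtension.normal ℚ F

/-- the restriction of `c₀` to `F` -/
theorem exists_sig (hF : Module.finrank ℚ F = 2)
    (c₀ : AlgebraicClosure F ≃+* AlgebraicClosure F) :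
    ∃ σ : F ≃ₐ[ℚ] F, ∀ a, c₀ (algebraMap F (AlgebraicClosure F) a) =
      algebraMap F (AlgebraicClosure F) (σ a) := by
  have := normal hF
  let c : AlgebraicClosure F ≃ₐ[ℚ] AlgebraicClosure F :=
    AlgEquiv.ofRingEquiv (f := c₀) (fun r => by
      rw [eq_ratCast, map_ratCast])
  refine ⟨c.restrictNormal F, fun a => ?_⟩
  rw [AlgEquiv.restrictNormal_commutes]
  rfl

theorem hyp {c₀ : AlgebraicClosure F ≃+* AlgebraicClosure F} (hc : IsConj c₀) {σ : F ≃ₐ[ℚ] F}
    (hσ : ∀ a, c₀ (algebraMap F (AlgebraicClosure F) a) =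
      algebraMap F (AlgebraicClosure F) (σ a)) : ConjHyp c₀ (σ : F ≃+* F) := by
  refine ⟨hσ, ?_, hc.1⟩
  obtain ⟨a, ha⟩ := hc.2
  refine ⟨a, fun h => ha ?_⟩
  rw [hσ]
  exact congrArg _ h

/-- the norm is rational -/
theorem norm_rat (hF : Module.finrank ℚ F = 2) (σ : F ≃ₐ[ℚ] F) (h1 : σ ≠ 1) (a : F) :
    ∃ b : ℚ, algebraMap ℚ F b = a * σ a := by
  have := normal hF
  have : IsGalois ℚ F := ⟨⟩
  have hcard : Nat.card (F ≃ₐ[ℚ] F) = 2 := by
    rw [IsGalois.card_aut_eq_finrank, hF]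
  obtain ⟨τ, -, hτ⟩ := (Nat.card_eq_two_iff' (1 : F ≃ₐ[ℚ] F)).1 hcard
  have hall : ∀ f : F ≃ₐ[ℚ] F, f = 1 ∨ f = σ := by
    intro f
    by_cases hf : f = 1
    · exact Or.inl hf
    · exact Or.inr ((hτ f hf).trans (hτ σ h1).symm)
  have hσσ : σ * σ = 1 := by
    rcases hall (σ * σ) with h | h
    · exact h
    · exact absurd (mul_eq_left.1 h) h1
  have h2 : a * σ a ∈ Set.range (algebraMap ℚ F) := by
    rw [IsGalois.mem_range_algebraMap_iff_fixed]
    intro f
    rcases hall f with rfl | rfl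
    · rfl
    · have h3 : f (f a) = a := by
        rw [← AlgEquiv.mul_apply, hσσ, AlgEquiv.one_apply]
      rw [map_mul, h3, mul_comm]
  obtain ⟨b, hb⟩ := h2
  exact ⟨b, hb⟩

/-- square roots of `-1` -/
theorem conj_i {c₀ : AlgebraicClosure F ≃+* AlgebraicClosure F} {σ : F ≃+* F}
    (hcs : ConjHyp c₀ σ) (i : AlgebraicClosure F) (hi : i ^ 2 = -1) : c₀ i = -i := by
  obtain ⟨a, ha⟩ := hcs.hσ
  have hσσ : ∀ x, σ (σ x) = x := by
    intro x
    apply (algebraMap F (AlgebraicClosure F)).injective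
    rw [← hcs.h, ← hcs.h, hcs.hc]
  have hs : a - σ a ≠ 0 := by
    intro h
    exact ha (sub_eq_zero.mp h).symm
  have hs' : σ (a - σ a) = -(a - σ a) := by
    rw [map_sub, hσσ]
    ring
  exact BKPar.Conj.apply_i hcs.h hs hs' hcs.hc i hi

end

/-- complex conjugation inverts the roots of unity of `p`-power order -/
theorem conj_sys {Ω : Type} [Field Ω] [IsAlgClosed Ω] [CharZero Ω] {c : Ω ≃+* Ω}
    (hc : ∀ x, c (c x) = x) (hci : ∀ i : Ω, i ^ 2 = -1 → c i = -i) (p : ℕ)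
    (hp : p.Prime) (hp2 : p ≠ 2) (n : ℕ) (ζ : Ω) (hζ : IsPrimitiveRoot ζ (p ^ n)) :
    c ζ = ζ⁻¹ := by
  have hζ0 : ζ ≠ 0 := hζ.ne_zero (pow_ne_zero _ hp.ne_zero)
  set y := ζ * c ζ with hy
  have hcy : c y = y := by
    rw [hy, map_mul, hc, mul_comm]
  have hyp : y ^ p ^ n = 1 := by
    rw [hy, mul_pow, ← map_pow, hζ.pow_eq_one, map_one, one_mul]
  have hord : orderOf y ∣ p ^ n := orderOf_dvd_of_pow_eq_one hyp
  obtain ⟨k, -, hk⟩ := (Nat.dvd_prime_pow hp).1 hord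
  have hy1 : y = 1 := by
    rcases Nat.eq_zero_or_pos k with h0 | h0
    · rw [h0, pow_zero] at hk
      exact orderOf_eq_one_iff.1 hk
    · exfalso
      have h1 : IsPrimitiveRoot y (p ^ k) := by
        rw [← hk]
        exact IsPrimitiveRoot.orderOf y
      have h2 : IsPrimitiveRoot (y ^ p ^ (k - 1)) p := by
        refine h1.pow (pow_pos hp.pos k) ?_
        rw [← pow_succ]
        congr 1
        omega
      refine BKOdd.Conj.not_fixed hc hci p hp hp2 _ h2 ?_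
      rw [map_pow, hcy]
  exact eq_inv_of_mul_eq_one_right hy1

end CJAux

open CJAux in
theorem stCJ : StCJ := by
  intro F iF iN hF _ c₀ hc
  obtain ⟨σ, hσ⟩ := exists_sig hF c₀
  have hcs := hyp hc hσ
  have hci := fun i hi => conj_i hcs i hi
  have hsymm : ∀ x, c₀.symm x = c₀ x := fun x => by
    rw [RingEquiv.symm_apply_eq, hc.1]
  refine ⟨⟨BKOdd.conj c₀ (σ : F ≃+* F) hcs.h, ⟨hc, fun g z => ?_⟩⟩, ?_⟩
  · rw [BKOdd.Conj.conj_apply, RingEquiv.symm_apply_apply]
  intro cc hcc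
  have hcc' : cc = BKOdd.conj c₀ (σ : F ≃+* F) hcs.h := by
    ext g x
    have h1 := hcc.eq g (c₀ x)
    rw [hc.1] at h1
    rw [h1, BKOdd.Conj.conj_apply, hsymm]
  refine ⟨?_, ?_, ?_, ?_, ?_⟩
  · rw [hcc', BKOdd.Conj.conj_eq]
    exact BKOdd.Conj.continuous_conjO c₀ (σ : F ≃+* F) hcs.h
  · intro g
    rw [hcc']
    exact BKOdd.Conj.conj_conj hcs.h hc.1 g
  · intro a
    refine ⟨σ a, hσ a, norm_rat hF σ ?_ a⟩
    rintro rfl
    obtain ⟨b, hb⟩ := hc.2
    exact hb (hσ b)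
  · intro p hp hp2
    refine ⟨fun g => ?_, fun z hz n => ?_⟩
    · rw [hcc']
      exact BKOdd.Conj.cyc_conj hcs.h p g
    · exact conj_sys hc.1 hci p hp.out hp2 n (z n) (hz.prim n)
  · intro Λ i j
    have hs : Continuous (sn (MonoidHom.id (GF F)) j) :=
      continuous_snd.comp continuous_subtype_val
    rcases BKOdd.two_places hF (Λ.j i) c₀ (σ : F ≃+* F) hcs j with ⟨g, hg⟩ | ⟨g, hg⟩
    · refine ⟨g, sn (MonoidHom.id (GF F)) j, hs, Or.inl fun d => ?_⟩
      rw [eq_comm, mul_assoc, inv_mul_eq_iff_eq_mul]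
      ext z
      apply (Λ.j i).injective
      have h1 := Cp_rel (MonoidHom.id (GF F)) j d z
      rw [MonoidHom.id_apply, hg, hg, ← Λ.spec] at h1
      exact h1.symm
    · refine ⟨g, sn (MonoidHom.id (GF F)) j, hs, Or.inr fun d => ?_⟩
      rw [eq_comm, mul_assoc, inv_mul_eq_iff_eq_mul]
      ext z
      have h1 := Cp_rel (MonoidHom.id (GF F)) j d z
      rw [MonoidHom.id_apply, hg, hg, ← Λ.spec] at h1
      have h2 := (Λ.j i).injective h1
      have h3 : g (fs (MonoidHom.id (GF F)) j d z) =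
          c₀ (Λ.r i (sn (MonoidHom.id (GF F)) j d) (c₀ (g z))) := by
        rw [← h2, hc.1]
      have h4 := hcc.eq (Λ.r i (sn (MonoidHom.id (GF F)) j d)) (c₀ (g z))
      rw [hc.1] at h4
      change cc (Λ.r i (sn (MonoidHom.id (GF F)) j d)) (g z) =
        g (fs (MonoidHom.id (GF F)) j d z)
      rw [h4, h3]

end BKGlob2
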