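import Pool.Agent.Lib.MP_7c08ba_nt.Met.HStmts
import Pool.Agent.Lib.MP_7c08ba_nt.Glob.Emb
import Pool.Agent.Lib.MP_7c08ba_nt.Odd.Adm

set_option autoImplicit false

/-!
Module CP: the decomposition groups.
-/

noncomputable section

namespace BKGlob2

open NumberField BKGen
open BKOdd (Fx)
open BKMet (GQ)

namespace CPAux

/-- the completions are finite extensions -/
theorem fd {E : Type} [Field E] [NumberField E] {l : ℕ} [Fact l.Prime]
    (j : E →+* PadicAlgCl l) : FiniteDimensional ℚ_[l] (comp l j) := by
  let b := Module.finBasis ℚ E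
  let s : Set (PadicAlgCl l) := Set.range fun i => j (b i)
  have hs : s.Finite := Set.finite_range _
  have hfs : FiniteDimensional ℚ_[l] (IntermediateField.adjoin ℚ_[l] s) := by
    have : Finite s := hs
    exact IntermediateField.finiteDimensional_adjoin fun x _ =>
      (Algebra.IsAlgebraic.isAlgebraic (R := ℚ_[l]) x).isIntegral
  have heq : comp l j = IntermediateField.adjoin ℚ_[l] s := by
    apply le_antisymm
    · unfold comp
      rw [IntermediateField.adjoin_le_iff]
      rintro _ ⟨x, rfl⟩
      rw [← b.sum_repr x, map_sum]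
      refine sum_mem fun i _ => ?_
      rw [Algebra.smul_def, map_mul]
      refine mul_mem ?_ (IntermediateField.subset_adjoin _ _ ⟨i, rfl⟩)
      rw [eq_ratCast, map_ratCast]
      have h1 : ((b.repr x i : ℚ) : PadicAlgCl l) =
          algebraMap ℚ_[l] (PadicAlgCl l) ((b.repr x i : ℚ) : ℚ_[l]) := by
        rw [map_ratCast]
      rw [h1]
      exact IntermediateField.algebraMap_mem _ _
    · rw [IntermediateField.adjoin_le_iff]
      rintro _ ⟨i, rfl⟩
      exact IntermediateField.subset_adjoin _ _ ⟨b i, rfl⟩
  rw [heq]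
  exact hfs

/-- the Galois group of `ℚ_l` is nonarchimedean -/
theorem nonarch (l : ℕ) [Fact l.Prime] : NonarchimedeanGroup (GQ l) where
  is_nonarchimedean := by
    intro U hU
    rw [krullTopology_mem_nhds_one_iff] at hU
    obtain ⟨E, hE, hEU⟩ := hU
    exact ⟨⟨E.fixingSubgroup, E.fixingSubgroup_isOpen⟩, hEU⟩

/-- a subgroup is nonarchimedean -/
theorem nonarch_sub {G : Type*} [Group G] [TopologicalSpace G] [NonarchimedeanGroup G]
    (U : Subgroup G) : NonarchimedeanGroup U where
  is_nonarchimedean := by
    intro W hW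
    rw [nhds_subtype_eq_comap, Filter.mem_comap] at hW
    obtain ⟨T, hT, hTW⟩ := hW
    obtain ⟨O, hO⟩ := NonarchimedeanGroup.is_nonarchimedean T (by simpa using hT)
    refine ⟨⟨(O : Subgroup G).comap U.subtype, ?_⟩, ?_⟩
    · exact O.isOpen.preimage continuous_subtype_val
    · intro x hx
      exact hTW (hO hx)

section Main

variable {k Ω : Type} [Field k] [Field Ω] [Algebra k Ω] [IsGalois k Ω] [IsAlgClosed Ω]
  [CharZero Ω] {V : Type} [Group V] [TopologicalSpace V] [IsTopologicalGroup V] [CompactSpace V]
  {e : V →* (Ω ≃ₐ[k] Ω)} {l : ℕ} [Fact l.Prime]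

/-- the decomposition group is closed -/
theorem isClosed_Cp [CharZero k] (he : Topology.IsOpenEmbedding e) (j : Ω →+* PadicAlgCl l) :
    IsClosed (Cp e j : Set (V × GQ l)) := by
  have hac : IsAlgClosure k Ω := ⟨inferInstance, inferInstance⟩
  have h0 : Continuous fun q : V × GQ l => (e q.1, q.2) :=
    (he.continuous.comp continuous_fst).prodMk continuous_snd
  exact (BKGlob.isClosed_cpt (F := k) j).preimage h0

/-- the range of `e` is the group of automorphisms which fix the fixed field -/
theorem mem_range_of_fix (he : Topology.IsOpenEmbedding e) {E : IntermediateField k Ω}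
    (hE : ∀ x, x ∈ E ↔ Fx e x) {s : Ω ≃ₐ[k] Ω} (hs : ∀ x ∈ E, s x = x) : ∃ v, e v = s := by
  have hc : IsClosed (e.range : Set (Ω ≃ₐ[k] Ω)) := by
    apply Subgroup.isClosed_of_isOpen
    rw [MonoidHom.coe_range]
    exact he.isOpen_range
  have h1 : (IntermediateField.fixedField e.range).fixingSubgroup = e.range :=
    InfiniteGalois.fixingSubgroup_fixedField (⟨e.range, hc⟩ : ClosedSubgroup (Ω ≃ₐ[k] Ω))
  have h2 : s ∈ (IntermediateField.fixedField e.range).fixingSubgroup := by
    rw [IntermediateField.mem_fixingSubgroup_iff]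
    intro x hx
    rw [IntermediateField.mem_fixedField_iff] at hx
    exact hs x ((hE x).2 fun v => hx (e v) ⟨v, rfl⟩)
  rw [h1] at h2
  exact h2

theorem numberField [NumberField k] (he : Topology.IsOpenEmbedding e)
    {E : IntermediateField k Ω} (hE : ∀ x, x ∈ E ↔ Fx e x) : NumberField E := by
  have h1 : IsOpen E.fixingSubgroup.carrier := by
    have h2 : (E.fixingSubgroup.carrier) = Set.range e := by
      ext s
      constructor
      · intro hs
        exact mem_range_of_fix he hE fun x hx => (IntermediateField.mem_fixingSubgroup_iff E s).1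
          hs x hx
      · rintro ⟨v, rfl⟩
        exact (IntermediateField.mem_fixingSubgroup_iff E _).2 fun x hx => (hE x).1 hx v
    rw [h2]
    exact he.isOpen_range
  have h2 : FiniteDimensional k E := (InfiniteGalois.isOpen_iff_finite E).1 h1
  have h3 : CharZero E := charZero_of_injective_algebraMap (algebraMap k E).injective
  exact NumberField.of_module_finite k E

/-- an automorphism which fixes the completion comes from the decomposition group -/
theorem exists_Cp (he : Topology.IsOpenEmbedding e) {E : IntermediateField k Ω}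
    (hE : ∀ x, x ∈ E ↔ Fx e x) (j : Ω →+* PadicAlgCl l) {t : GQ l}
    (ht : ∀ y ∈ comp l (j.comp (algebraMap E Ω)), t y = y) : ∃ d : Cp e j, sn e j d = t := by
  let C := comp l (j.comp (algebraMap E Ω))
  let t' : PadicAlgCl l ≃ₐ[C] PadicAlgCl l := AlgEquiv.ofRingEquiv (f := t.toRingEquiv)
    fun a => ht a a.2
  obtain ⟨σ, hσ⟩ := BKGen.exists_restrict (K := E) j t'
  obtain ⟨v, hv⟩ := mem_range_of_fix he hE (s := σ.restrictScalars k)
    fun x hx => σ.commutes (⟨x, hx⟩ : E)
  refine ⟨⟨(v, t), fun z => ?_⟩, rfl⟩
  change j (e v z) = t (j z)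
  rw [hv]
  exact hσ z

theorem fixes {E : IntermediateField k Ω}
    (hE : ∀ x, x ∈ E ↔ Fx e x) (j : Ω →+* PadicAlgCl l) (d : Cp e j) {y : PadicAlgCl l}
    (hy : y ∈ comp l (j.comp (algebraMap E Ω))) : sn e j d y = y := by
  induction hy using IntermediateField.adjoin_induction with
  | mem x hx =>
    obtain ⟨a, rfl⟩ := hx
    have h1 := Cp_rel e j d (algebraMap E Ω a)
    have h2 : e (fs e j d) (algebraMap E Ω a) = algebraMap E Ω a := (hE _).1 a.2 (fs e j d)
    rw [h2] at h1
    exact h1.symm
  | algebraMap x => exact AlgEquiv.commutes _ _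
  | add x y _ _ hx hy => rw [map_add, hx, hy]
  | inv x _ hx => rw [map_inv₀, hx]
  | mul x y _ _ hx hy => rw [map_mul, hx, hy]

end Main

end CPAux

open CPAux

/-- Module CP. -/
theorem stCP : StCP := by
  intro k Ω _ _ _ _ _ _ _ V _ _ _ _ _ e he l _ j
  have hcl := isClosed_Cp he j
  have hcomp : CompactSpace (Cp e j) := isCompact_iff_compactSpace.1 hcl.isCompact
  have hsc : Continuous (sn e j) := continuous_snd.comp continuous_subtype_val
  have hfc : Continuous (fs e j) := continuous_fst.comp continuous_subtype_val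
  have hinj : Function.Injective (sn e j) := by
    rw [injective_iff_map_eq_one]
    rintro ⟨⟨v, t⟩, hvt⟩ ht
    change t = 1 at ht
    subst ht
    have h1 : v = 1 := by
      apply he.injective
      apply AlgEquiv.ext
      intro x
      apply j.injective
      rw [map_one]
      exact hvt x
    subst h1
    rfl
  -- the fixed field of `V`
  let E₀ : IntermediateField k Ω := IntermediateField.fixedField e.range
  have hE₀ : ∀ x, x ∈ E₀ ↔ Fx e x := by
    intro x
    rw [IntermediateField.mem_fixedField_iff]
    constructor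
    · intro h v
      exact h (e v) ⟨v, rfl⟩
    · rintro h _ ⟨v, rfl⟩
      exact h v
  have hnf : NumberField E₀ := numberField he hE₀
  have hfd := fd (j.comp (algebraMap E₀ Ω))
  have hrange : Set.range (sn e j) =
      ((comp l (j.comp (algebraMap E₀ Ω))).fixingSubgroup : Set (GQ l)) := by
    ext t
    constructor
    · rintro ⟨d, rfl⟩
      exact (IntermediateField.mem_fixingSubgroup_iff _ _).2 fun y hy => fixes hE₀ j d hy
    · intro ht
      exact exists_Cp he hE₀ j fun y hy => (IntermediateField.mem_fixingSubgroup_iff _ _).1 ht y hy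
  have hemb : Topology.IsOpenEmbedding (sn e j) := by
    refine ⟨(hsc.isClosedEmbedding hinj).isEmbedding, ?_⟩
    rw [hrange]
    exact IntermediateField.fixingSubgroup_isOpen _
  have hna := nonarch l
  refine ⟨hemb, hfc, hcomp, nonarch_sub (Cp e j), fun E hE => ⟨numberField he hE, fun y => ?_⟩⟩
  constructor
  · intro hy d
    exact fixes hE j d hy
  · intro hy
    have h4 : y ∈ Set.range (algebraMap (comp l (j.comp (algebraMap E Ω))) (PadicAlgCl l)) := by
      rw [InfiniteGalois.mem_range_algebraMap_iff_fixed]
      intro τ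
      obtain ⟨d, hd⟩ := exists_Cp he hE j (t := τ.restrictScalars ℚ_[l]) fun y hy =>
        τ.commutes (⟨y, hy⟩ : comp l (j.comp (algebraMap E Ω)))
      have h5 := hy d
      rw [hd] at h5
      exact h5
    obtain ⟨z, hz⟩ := h4
    rw [← hz]
    exact z.2

end BKGlob2
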