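import Pool.Agent.Lib.MP_7c08ba_nt.Met.HStmts

set_option autoImplicit false

/-!
Module CU: the structure of the group of `S`-units.
-/

noncomputable section

namespace BKGlob2

open NumberField IsDedekindDomain BKGen
open BKMet (QZ actA kch Rel GF GQ cycF cycL IsConj RS GS Pl Splits pb1 pb2 LocAx GlobAx StArith)

namespace CUaux

section gen

variable {Δ : Type} [Group Δ]

lemma out_smul (D : Subgroup Δ) (d : Δ) (t : Δ ⧸ D) : ∃ h ∈ D, (d • t).out = d * t.out * h := by
  have h1 : d • t = (QuotientGroup.mk (d * t.out) : Δ ⧸ D) := by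
    conv_lhs => rw [← QuotientGroup.out_eq' t]
    rfl
  obtain ⟨h, hh⟩ := QuotientGroup.mk_out_eq_mul D (d * t.out)
  exact ⟨h, h.2, by rw [h1, hh]⟩

lemma mk_out_bot (d : Δ) : (QuotientGroup.mk d : Δ ⧸ (⊥ : Subgroup Δ)).out = d := by
  obtain ⟨h, hh⟩ := QuotientGroup.mk_out_eq_mul (⊥ : Subgroup Δ) d
  have h2 : (h : Δ) = 1 := (Subgroup.mem_bot).mp h.2
  rw [hh, h2, mul_one]

lemma bij_bot : Function.Bijective (fun d : Δ => (QuotientGroup.mk d : Δ ⧸ (⊥ : Subgroup Δ))) := by
  constructor
  · intro a b h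
    have := congrArg Quotient.out h
    change (QuotientGroup.mk a : Δ ⧸ (⊥ : Subgroup Δ)).out =
      (QuotientGroup.mk b : Δ ⧸ (⊥ : Subgroup Δ)).out at this
    rwa [mk_out_bot, mk_out_bot] at this
  · intro t
    exact ⟨t.out, QuotientGroup.out_eq' t⟩

lemma index_ne {M : Type} [AddCommGroup M] [Module.Finite ℤ M] {I : Type} [Fintype I] {v : I → M}
    (hv : LinearIndependent ℤ v) (hc : Fintype.card I = Module.finrank ℤ M) :
    (AddSubgroup.closure (Set.range v)).index ≠ 0 := by
  set N : Submodule ℤ M := Submodule.span ℤ (Set.range v) with hN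
  have h1 : Module.finrank ℤ N = Fintype.card I := finrank_span_eq_card hv
  have h2 := Submodule.finrank_quotient_add_finrank N
  have h3 : Module.finrank ℤ (M ⧸ N) = 0 := by omega
  have h4 : Module.IsTorsion ℤ (M ⧸ N) := Module.finrank_eq_zero_iff_isTorsion.mp h3
  have h5 : Finite (M ⧸ N) := Module.finite_of_fg_torsion _ h4
  have h6 : AddSubgroup.closure (Set.range v) = N.toAddSubgroup := by
    rw [hN, Submodule.span_int_eq_addSubgroupClosure]
  rw [h6]
  have h7 : Finite (M ⧸ N.toAddSubgroup) := h5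
  rw [AddSubgroup.index]
  exact Nat.card_pos.ne'

lemma finrank_prodZ {M : Type} [AddCommGroup M] [Module.Finite ℤ M] :
    Module.finrank ℤ (M × ℤ) = Module.finrank ℤ M + 1 := by
  have h := Submodule.finrank_quotient_add_finrank (LinearMap.ker (LinearMap.fst ℤ M ℤ))
  have h1 : Module.finrank ℤ ((M × ℤ) ⧸ LinearMap.ker (LinearMap.fst ℤ M ℤ)) =
      Module.finrank ℤ M :=
    LinearEquiv.finrank_eq (LinearMap.quotKerEquivOfSurjective (LinearMap.fst ℤ M ℤ)
      LinearMap.fst_surjective)
  have h2 : Module.finrank ℤ (LinearMap.ker (LinearMap.fst ℤ M ℤ)) = 1 := by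
    rw [LinearMap.ker_fst]
    rw [← LinearEquiv.finrank_eq (LinearEquiv.ofInjective (LinearMap.inr ℤ M ℤ)
      LinearMap.inr_injective), Module.finrank_self]
  rw [← h, h1, h2]

end gen

section US

variable {F : Type} [Field F] {P : Set ℕ} {U : Subgroup (GF F)}

/-- the value of an element of `US` -/
def vl (x : Additive (US F P U)) : AlgebraicClosure F :=
  ((x.toMul : (AlgebraicClosure F)ˣ) : AlgebraicClosure F)

lemma vl_ne (x : Additive (US F P U)) : vl x ≠ 0 := Units.ne_zero _

/-- logarithm of the absolute value -/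
def LN {L : Type} [NormedField L] (ψ : AlgebraicClosure F →+* L) : Additive (US F P U) →+ ℝ where
  toFun x := Real.log ‖ψ (vl x)‖
  map_zero' := by
    have : vl (0 : Additive (US F P U)) = 1 := rfl
    rw [this, map_one, norm_one, Real.log_one]
  map_add' x y := by
    have h : vl (x + y) = vl x * vl y := rfl
    rw [h, map_mul, norm_mul, Real.log_mul]
    · exact norm_ne_zero_iff.mpr ((map_ne_zero ψ).mpr (vl_ne x))
    · exact norm_ne_zero_iff.mpr ((map_ne_zero ψ).mpr (vl_ne y))

lemma LN_apply {L : Type} [NormedField L] (ψ : AlgebraicClosure F →+* L)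
    (x : Additive (US F P U)) : LN ψ x = Real.log ‖ψ (vl x)‖ := rfl

lemma fix_eq {u : AlgebraicClosure F} (hu : ∀ g ∈ U, g u = u) {g h : GF F}
    (hgh : (QuotientGroup.mk g : GF F ⧸ U) = QuotientGroup.mk h) : g u = h u := by
  have h1 : g⁻¹ * h ∈ U := QuotientGroup.eq.mp hgh
  have h2 := hu _ h1
  calc g u = g ((g⁻¹ * h) u) := by rw [h2]
    _ = (g * (g⁻¹ * h)) u := (AlgEquiv.mul_apply _ _ _).symm
    _ = h u := by rw [mul_inv_cancel_left]

lemma vl_act [U.Normal] {a : GF F ⧸ U →* AddMonoid.End (Additive (US F P U))}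
    (ha : IsAct F P U a) (d : GF F ⧸ U) (x : Additive (US F P U)) :
    vl (a d x) = d.out (vl x) := by
  have h := ha d.out x
  rw [QuotientGroup.out_eq'] at h
  exact h

end US

end CUaux

open CUaux in
theorem stCU (hMU : StMU) (hMI : StMI) (hPW : StPW) (hPN : StPN) (hRK : StRK) : StCU := by
  classical
  intro p _ F _ _ U _ E _ Λ c₀ cc hS a ha
  have hU : IsOpen (U : Set (GF F)) := hS.sit.open'
  have hidx : U.index ≠ 0 := by
    intro h
    have := hS.sit.index
    rw [h] at this
    exact this (dvd_zero p)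
  have hfinΔ : Finite (GF F ⧸ U) := by
    rw [Subgroup.index] at hidx
    exact (Nat.card_ne_zero.mp hidx).2
  let _ : Fintype (GF F ⧸ U) := Fintype.ofFinite _
  -- an embedding in ℂ
  obtain ⟨σ⟩ : Nonempty (F →+* ℂ) := inferInstance
  let _ : Algebra F ℂ := σ.toAlgebra
  let φ : AlgebraicClosure F →+* ℂ :=
    (IsAlgClosed.lift (R := F) (M := ℂ) (S := AlgebraicClosure F) :
      AlgebraicClosure F →ₐ[F] ℂ).toRingHom
  obtain ⟨u, hu0, huU, hul, huφ, huP⟩ := hMU F hS.quad hS.imag U hU φ
  choose π hπ0 hπU hπD hπl hπw hπ1 using hPW p F U E Λ c₀ cc hS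
  -- the elements of US
  let uu : Additive (US F Λ.P U) := Additive.ofMul ⟨Units.mk0 u hu0, huU, fun l _ _ j => hul l j⟩
  let pp : Λ.ι × Bool → Additive (US F Λ.P U) := fun w =>
    Additive.ofMul ⟨Units.mk0 (π w) (hπ0 w), hπU w, fun l _ hl j => hπl w l hl j⟩
  have vu : vl uu = u := rfl
  have vp : ∀ w, vl (pp w) = π w := fun w => rfl
  let b : Option (Λ.ι × Bool) → Additive (US F Λ.P U) := fun w => w.elim uu pp
  let ε : Option (Λ.ι × Bool) → ℤ := fun w => w.elim 1 (fun _ => 0)
  have hb : ∀ w, ∀ h ∈ Dx U Λ cc w, a h (b w) = b w := by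
    intro w h hh
    rcases w with _ | w
    · have : h = 1 := Subgroup.mem_bot.mp hh
      rw [this, map_one]
      rfl
    · obtain ⟨τ, hτ⟩ := hh
      have h1 : (QuotientGroup.mk (Λ.loc (MonoidHom.id (GF F)) cc w τ) : GF F ⧸ U) = h := hτ
      apply Additive.toMul.injective
      apply Subtype.ext
      apply Units.ext
      have h2 : vl (a h (pp w)) = vl (pp w) := by
        rw [vl_act ha, vp]
        have h3 : (QuotientGroup.mk h.out : GF F ⧸ U) =
            QuotientGroup.mk (Λ.loc (MonoidHom.id (GF F)) cc w τ) := by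
          rw [QuotientGroup.out_eq', h1]
        rw [fix_eq (hπU w) h3]
        exact hπD w τ
      exact h2
  let g : ∀ w : Option (Λ.ι × Bool), ((GF F ⧸ U) ⧸ Dx U Λ cc w) → Additive (US F Λ.P U) × ℤ :=
    fun w t => (a t.out (b w), ε w)
  have hfin : ∀ w : Option (Λ.ι × Bool), Finite ((GF F ⧸ U) ⧸ Dx U Λ cc w) := fun w =>
    inferInstance
  let _ : ∀ w : Option (Λ.ι × Bool), Fintype ((GF F ⧸ U) ⧸ Dx U Λ cc w) := fun w =>
    Fintype.ofFinite _
  have hlin : LinearIndependent ℤ (fun x : Σ w, (GF F ⧸ U) ⧸ Dx U Λ cc w => g x.1 x.2) := by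
    rw [Fintype.linearIndependent_iff]
    intro c hc
    have hc1 : ∑ x : (Σ w, (GF F ⧸ U) ⧸ Dx U Λ cc w), c x • (a x.2.out (b x.1)) = 0 := by
      have := congrArg Prod.fst hc
      rw [Prod.fst_sum] at this
      exact this
    have hc2 : ∑ x : (Σ w, (GF F ⧸ U) ⧸ Dx U Λ cc w), c x * ε x.1 = 0 := by
      have := congrArg Prod.snd hc
      rw [Prod.snd_sum] at this
      exact this
    -- a logarithm applied to the relation
    have hL : ∀ {L : Type} [NormedField L] (ψ : AlgebraicClosure F →+* L),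
        ∑ x : (Σ w, (GF F ⧸ U) ⧸ Dx U Λ cc w),
          (c x : ℝ) * Real.log ‖ψ (x.2.out.out (vl (b x.1)))‖ = 0 := by
      intro L _ ψ
      have h := congrArg (LN (P := Λ.P) (U := U) ψ) hc1
      rw [map_sum, map_zero] at h
      rw [← h]
      refine Finset.sum_congr rfl fun x _ => ?_
      rw [map_zsmul, LN_apply, vl_act ha, zsmul_eq_mul]
    -- the coefficients of the elements `π`
    have hs : ∀ (w₀ : Λ.ι × Bool) (t₀ : (GF F ⧸ U) ⧸ Dx U Λ cc (some w₀)),
        c ⟨some w₀, t₀⟩ = 0 := by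
      intro w₀ t₀
      set g' : GF F := (t₀.out⁻¹).out with hg'
      have hg'm : (QuotientGroup.mk g' : GF F ⧸ U) = t₀.out⁻¹ := QuotientGroup.out_eq' _
      have h := hL ((jw Λ c₀ w₀).comp (g' : AlgebraicClosure F →+* AlgebraicClosure F))
      rw [Finset.sum_eq_single (⟨some w₀, t₀⟩ : Σ w, (GF F ⧸ U) ⧸ Dx U Λ cc w)] at h
      · rcases mul_eq_zero.mp h with h1 | h1
        · exact_mod_cast h1
        · exfalso
          have h2 : g' (t₀.out.out (π w₀)) = π w₀ := by
            have h3 : (QuotientGroup.mk (g' * t₀.out.out) : GF F ⧸ U) = QuotientGroup.mk 1 := by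
              rw [QuotientGroup.mk_mul, hg'm, QuotientGroup.out_eq', inv_mul_cancel]
              rfl
            have h4 := fix_eq (hπU w₀) h3
            rw [AlgEquiv.mul_apply] at h4
            exact h4
          have h3 : Real.log ‖jw Λ c₀ w₀ (g' (t₀.out.out (π w₀)))‖ = 0 := h1
          rw [h2] at h3
          have h4 : 0 < ‖jw Λ c₀ w₀ (π w₀)‖ :=
            norm_pos_iff.mpr ((map_ne_zero _).mpr (hπ0 w₀))
          exact absurd h3 (Real.log_neg h4 (hπw w₀)).ne
      · rintro ⟨w, t⟩ - hne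
        have key : ‖jw Λ c₀ w₀ (g' (t.out.out (vl (b w))))‖ = 1 := by
          rcases w with _ | w
          · exact hul (Λ.l w₀.1) (((jw Λ c₀ w₀).comp
              (g' : AlgebraicClosure F →+* AlgebraicClosure F)).comp
                (t.out.out : AlgebraicClosure F →+* AlgebraicClosure F))
          · have h5 := hπ1 w w₀ (g' * t.out.out)
            rw [AlgEquiv.mul_apply] at h5
            refine h5 ?_
            by_cases hw : w₀ = w
            · right
              subst hw
              rw [QuotientGroup.mk_mul, hg'm, QuotientGroup.out_eq']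
              intro h6
              apply hne
              have h7 : (QuotientGroup.mk t₀.out : (GF F ⧸ U) ⧸ Dx U Λ cc (some w₀)) =
                  QuotientGroup.mk t.out := QuotientGroup.eq.mpr h6
              rw [QuotientGroup.out_eq', QuotientGroup.out_eq'] at h7
              rw [h7]
            · exact Or.inl hw
        have key' : Real.log ‖((jw Λ c₀ w₀).comp
            (g' : AlgebraicClosure F →+* AlgebraicClosure F)) (t.out.out (vl (b w)))‖ = 0 := by
          change Real.log ‖jw Λ c₀ w₀ (g' (t.out.out (vl (b w))))‖ = 0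
          rw [key, Real.log_one]
        rw [key', mul_zero]
      · intro h
        exact absurd (Finset.mem_univ _) h
    -- the coefficients of the unit
    set x : (GF F ⧸ U) → ℤ := fun d => c ⟨none, (QuotientGroup.mk d : (GF F ⧸ U) ⧸ (⊥ : Subgroup _))⟩
      with hx
    have hred : ∀ f : (Σ w, (GF F ⧸ U) ⧸ Dx U Λ cc w) → ℝ,
        ∑ y : (Σ w, (GF F ⧸ U) ⧸ Dx U Λ cc w), (c y : ℝ) * f y =
          ∑ d : GF F ⧸ U, (x d : ℝ) *
            f ⟨none, (QuotientGroup.mk d : (GF F ⧸ U) ⧸ (⊥ : Subgroup _))⟩ := by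
      intro f
      rw [Fintype.sum_sigma, Fintype.sum_option]
      have h0 : ∑ w : Λ.ι × Bool, ∑ t : (GF F ⧸ U) ⧸ Dx U Λ cc (some w),
          (c ⟨some w, t⟩ : ℝ) * f ⟨some w, t⟩ = 0 := by
        refine Finset.sum_eq_zero fun w _ => Finset.sum_eq_zero fun t _ => ?_
        rw [hs w t]
        simp
      rw [h0, add_zero]
      have hb := Fintype.sum_bijective
        (fun d : GF F ⧸ U => (QuotientGroup.mk d : (GF F ⧸ U) ⧸ Dx U Λ cc none))
        (bij_bot (Δ := GF F ⧸ U))
        (fun d => (x d : ℝ) * f ⟨none, (QuotientGroup.mk d : (GF F ⧸ U) ⧸ Dx U Λ cc none)⟩)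
        (fun t => (c ⟨none, t⟩ : ℝ) * f ⟨none, t⟩) (fun d => rfl)
      exact hb.symm
    have hx0 : ∀ d, x d = 0 := by
      have hm := hMI (GF F ⧸ U) (fun d => Real.log ‖φ (d.out u)‖) (by
        intro d hd
        have h1 : d.out ∉ U := by
          intro h
          apply hd
          rw [← QuotientGroup.out_eq' d]
          exact (QuotientGroup.eq_one_iff _).mpr h
        refine Real.log_neg ?_ (huφ _ h1)
        exact norm_pos_iff.mpr ((map_ne_zero _).mpr ((map_ne_zero _).mpr hu0))) (by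
        rw [finprod_eq_prod_of_fintype] at huP
        rw [← Real.log_prod, huP, Real.log_one]
        intro d _
        exact norm_ne_zero_iff.mpr ((map_ne_zero _).mpr ((map_ne_zero _).mpr hu0))) x (by
        intro d'
        have h1 := hL (φ.comp ((d'⁻¹).out : AlgebraicClosure F →+* AlgebraicClosure F))
        rw [hred] at h1
        rw [← h1]
        refine Finset.sum_congr rfl fun d _ => ?_
        have h2 : ((d'⁻¹ * d).out : GF F) u = (d'⁻¹).out (d.out u) := by
          have h3 : (QuotientGroup.mk (d'⁻¹ * d).out : GF F ⧸ U) =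
              QuotientGroup.mk ((d'⁻¹).out * d.out) := by
            rw [QuotientGroup.mk_mul, QuotientGroup.out_eq', QuotientGroup.out_eq',
              QuotientGroup.out_eq']
          rw [fix_eq huU h3, AlgEquiv.mul_apply]
        have h4 : (QuotientGroup.mk d : (GF F ⧸ U) ⧸ (⊥ : Subgroup (GF F ⧸ U))).out = d :=
          mk_out_bot d
        change Real.log ‖φ ((d'⁻¹ * d).out u)‖ * (x d : ℝ) = (x d : ℝ) *
          Real.log ‖φ ((d'⁻¹).out
            ((QuotientGroup.mk d : (GF F ⧸ U) ⧸ (⊥ : Subgroup (GF F ⧸ U))).out.out u))‖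
        rw [h4, h2, mul_comm])
      have hsum : ∑ d : GF F ⧸ U, x d = 0 := by
        have h1 := hred (fun y => (ε y.1 : ℝ))
        have h2 : ∑ y : (Σ w, (GF F ⧸ U) ⧸ Dx U Λ cc w), (c y : ℝ) * (ε y.1 : ℝ) = 0 := by
          exact_mod_cast hc2
        rw [h2] at h1
        have h3 : ∑ d : GF F ⧸ U, (x d : ℝ) * ((1 : ℤ) : ℝ) = 0 := h1.symm
        have h4 : ((∑ d : GF F ⧸ U, x d : ℤ) : ℝ) = 0 := by
          rw [Int.cast_sum]
          rw [← h3]
          refine Finset.sum_congr rfl fun d _ => by simp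
        exact_mod_cast h4
      have h1 : (Fintype.card (GF F ⧸ U) : ℤ) * x 1 = 0 := by
        rw [← hsum, Finset.sum_congr rfl fun d _ => hm d, Finset.sum_const, Finset.card_univ,
          nsmul_eq_mul]
      have h2 : x 1 = 0 := by
        rcases mul_eq_zero.mp h1 with h | h
        · exfalso
          have : Fintype.card (GF F ⧸ U) ≠ 0 := Fintype.card_ne_zero
          exact this (by exact_mod_cast h)
        · exact h
      intro d
      rw [hm d, h2]
    rintro ⟨w, t⟩
    rcases w with _ | w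
    · have h := hx0 (t.out)
      have h1 : (QuotientGroup.mk t.out : (GF F ⧸ U) ⧸ (⊥ : Subgroup (GF F ⧸ U))) = t :=
        QuotientGroup.out_eq' t
      simp only [hx] at h
      rw [h1] at h
      exact h
    · exact hs w t
  refine ⟨g, ?_, hlin, ?_⟩
  · intro d w t
    obtain ⟨h, hh, he⟩ := out_smul (Dx U Λ cc w) d t
    change (a (d • t).out (b w), ε w) = (a d (a t.out (b w)), ε w)
    rw [he, map_mul, map_mul]
    change (a d (a t.out (a h (b w))), ε w) = _
    rw [hb w h hh]
  · obtain ⟨hF, hr⟩ := hRK p F hS.quad Λ.P U E hS.sit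
    have hN := hPN p F U E Λ c₀ cc hS
    have := hF
    refine index_ne hlin ?_
    have h1 : Module.finrank ℤ (Additive (US F Λ.P U) × ℤ) =
        Module.finrank ℤ (Additive (US F Λ.P U)) + 1 := finrank_prodZ
    rw [h1, hr, hN, Fintype.card_sigma, Fintype.sum_option]
    have h2 : Fintype.card ((GF F ⧸ U) ⧸ Dx U Λ cc none) = U.index := by
      have h3 : Fintype.card (GF F ⧸ U) = Fintype.card ((GF F ⧸ U) ⧸ Dx U Λ cc none) :=
        Fintype.card_of_bijective (bij_bot (Δ := GF F ⧸ U))
      rw [← h3, Subgroup.index, Nat.card_eq_fintype_card]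
    rw [h2]
    congr 1
    refine Finset.sum_congr rfl fun w _ => ?_
    exact (Nat.card_eq_fintype_card (α := (GF F ⧸ U) ⧸ Dx U Λ cc (some w))).symm

end BKGlob2
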