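import Pool.Agent.Lib.MP_7c08ba_nt.Met.HStmts

set_option autoImplicit false

/-!
Parity without rigidity, global part 2, module CV: conjugate homomorphisms.
-/

noncomputable section

namespace BKGlob2

open NumberField IsDedekindDomain BKGen
open BKMet (pb1 pb2)
open BKPar (Loc1 Loc2)

namespace CVx

variable {G : Type} [Group G] {M : Type} [AddCommGroup M]
  (ρ : G →* AddMonoid.End M)

/-- conjugation of a two-cocycle -/
theorem conj2 {z : G → G → M}
    (hz : ∀ g h k, ρ g (z h k) - z (g * h) k + z g (h * k) - z g h = 0) (g x y : G) :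
    ρ g (z (g⁻¹ * x * g) (g⁻¹ * y * g)) = z x y -
      ρ x (z y g - z g (g⁻¹ * y * g)) + (z (x * y) g - z g (g⁻¹ * (x * y) * g)) -
      (z x g - z g (g⁻¹ * x * g)) := by
  have h1 := hz g (g⁻¹ * x * g) (g⁻¹ * y * g)
  have h2 := hz x g (g⁻¹ * y * g)
  have h3 := hz x y g
  have e1 : g * (g⁻¹ * x * g) = x * g := by group
  have e2 : g * (g⁻¹ * y * g) = y * g := by group
  have e3 : g⁻¹ * x * g * (g⁻¹ * y * g) = g⁻¹ * (x * y) * g := by group
  rw [e1, e3] at h1
  rw [e2] at h2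
  rw [map_sub]
  have h4 : ρ g (z (g⁻¹ * x * g) (g⁻¹ * y * g)) = (ρ g (z (g⁻¹ * x * g) (g⁻¹ * y * g)) -
      z (x * g) (g⁻¹ * y * g) + z g (g⁻¹ * (x * y) * g) - z g (g⁻¹ * x * g)) -
      (ρ x (z g (g⁻¹ * y * g)) - z (x * g) (g⁻¹ * y * g) + z x (y * g) - z x g) +
      (ρ x (z y g) - z (x * y) g + z x (y * g) - z x y) + (z x y -
      (ρ x (z y g) - ρ x (z g (g⁻¹ * y * g))) + (z (x * y) g - z g (g⁻¹ * (x * y) * g)) -
      (z x g - z g (g⁻¹ * x * g))) := by abel
  rw [h4, h1, h2, h3]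
  abel

end CVx

theorem stCV : StCV := by
  intro G D D' _ _ _ _ _ _ _ _ _ f f' s hf hf' hs g hg M _ ρ _
  have hgg : ∀ m : M, ρ g⁻¹ (ρ g m) = m := by
    intro m
    have h : ρ g⁻¹ (ρ g m) = (ρ g⁻¹ * ρ g) m := rfl
    rw [h, ← map_mul, inv_mul_cancel, map_one]
    rfl
  have hmul : ∀ (a b : G) (m : M), ρ a (ρ b m) = ρ (a * b) m := by
    intro a b m
    rw [map_mul]
    rfl
  constructor
  · rintro z ⟨⟨W, hW, hzW⟩, hz⟩ ⟨β, ⟨V, hV, hβV⟩, hβ⟩
    set h : G → M := fun x => z x g - z g (g⁻¹ * x * g) with hh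
    refine ⟨fun d => ρ g⁻¹ (β (s d) - h (f (s d))), ?_, ?_⟩
    · refine ⟨V.comap s ⊓ (W.comap (f.comp s) ⊓ W.comap f'), ?_, ?_⟩
      · rw [Subgroup.coe_inf, Subgroup.coe_inf]
        exact (hV.preimage hs).inter ((hW.preimage (hf.comp hs)).inter (hW.preimage hf'))
      · rintro d w ⟨hw1, hw2, hw3⟩
        have hw1' : s w ∈ V := hw1
        have hw2' : f (s w) ∈ W := hw2
        have hw3' : f' w ∈ W := hw3
        have e1 : β (s (d * w)) = β (s d) := by rw [map_mul, hβV _ _ hw1']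
        have e2 : z (f (s (d * w))) g = z (f (s d)) g := by
          have h1 := hzW (f (s d)) g (f (s w)) hw2' 1 W.one_mem
          rw [mul_one] at h1
          rw [map_mul, map_mul, h1]
        have e3 : z g (g⁻¹ * f (s (d * w)) * g) = z g (g⁻¹ * f (s d) * g) := by
          rw [← hg, ← hg, map_mul]
          have h1 := hzW g (f' d) 1 W.one_mem (f' w) hw3'
          rwa [mul_one] at h1
        change ρ g⁻¹ (β (s (d * w)) - (z (f (s (d * w))) g - z g (g⁻¹ * f (s (d * w)) * g))) =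
          ρ g⁻¹ (β (s d) - (z (f (s d)) g - z g (g⁻¹ * f (s d) * g)))
        rw [e1, e2, e3]
    · intro d d'
      have h1 := CVx.conj2 ρ hz g (f (s d)) (f (s d'))
      have h2 : z (f (s d)) (f (s d')) = ρ (f (s d)) (β (s d')) - β (s d * s d') + β (s d) :=
        hβ (s d) (s d')
      rw [← hg, ← hg, h2] at h1
      have h3 := congrArg (ρ g⁻¹) h1
      rw [hgg] at h3
      change z (f' d) (f' d') = ρ (f' d) (ρ g⁻¹ (β (s d') - h (f (s d')))) -
        ρ g⁻¹ (β (s (d * d')) - h (f (s (d * d')))) + ρ g⁻¹ (β (s d) - h (f (s d)))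
      have e4 : ρ (f' d) (ρ g⁻¹ (β (s d') - h (f (s d')))) =
          ρ g⁻¹ (ρ (f (s d)) (β (s d') - h (f (s d')))) := by
        rw [hmul, hmul, hg]
        congr 2
        group
      rw [h3, e4, ← map_sub, ← map_add]
      congr 1
      simp only [hh, map_mul, map_sub, hg]
      abel
  · rintro z ⟨_, hz⟩ ⟨m, hm⟩
    refine ⟨ρ g⁻¹ (m + z g), fun d => ?_⟩
    have h1 : z 1 = 0 := by
      have h := hz 1 1
      rw [mul_one, map_one] at h
      have h' : z 1 = z 1 + z 1 := h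
      exact left_eq_add.mp h'
    have h2 : z g⁻¹ = - ρ g⁻¹ (z g) := by
      have h := hz g⁻¹ g
      rw [inv_mul_cancel, h1] at h
      exact eq_neg_of_add_eq_zero_left h.symm
    have h3 : z (f (s d)) = ρ (f (s d)) m - m := hm (s d)
    change z (f' d) = ρ (f' d) (ρ g⁻¹ (m + z g)) - ρ g⁻¹ (m + z g)
    have e4 : ρ (f' d) (ρ g⁻¹ (m + z g)) = ρ g⁻¹ (ρ (f (s d)) (m + z g)) := by
      rw [hmul, hmul, hg]
      congr 2
      group
    rw [e4, hg, mul_assoc, hz, hz, h2, h3]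
    simp only [map_sub, map_add]
    abel

end BKGlob2
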