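import Pool.Agent.Lib.MP_7c08ba_nt.Met.HStmts
import Pool.Agent.Lib.MP_7c08ba_nt.Gen.GenusPlace

set_option autoImplicit false

/-!
Parity without rigidity, global part 2, module FR: an open subgroup contains the inertia groups of
almost all places.
-/

noncomputable section

namespace BKGlob2

open NumberField BKGen
open BKMet (GF)

namespace FRAux

variable {F : Type} [Field F] [NumberField F]

/-- the algebraic closure of a number field is algebraic over the integers -/
theorem isAlgebraic_int (x : AlgebraicClosure F) : IsAlgebraic ℤ x := by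
  have : Algebra.IsAlgebraic ℚ F := Algebra.IsAlgebraic.of_finite ℚ F
  have : Algebra.IsAlgebraic ℚ (AlgebraicClosure F) := Algebra.IsAlgebraic.trans ℚ F _
  have h1 : IsAlgebraic ℚ x := Algebra.IsAlgebraic.isAlgebraic x
  exact (IsFractionRing.isAlgebraic_iff ℤ ℚ (AlgebraicClosure F)).2 h1

/-- every algebraic number has an integral multiple -/
theorem exists_integral (x : AlgebraicClosure F) : ∃ N : ℕ, N ≠ 0 ∧
    IsIntegral ℤ ((N : AlgebraicClosure F) * x) := by
  obtain ⟨y, hy, hy'⟩ := (isAlgebraic_int x).exists_integral_multiple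
  refine ⟨y.natAbs, Int.natAbs_ne_zero.2 hy, ?_⟩
  rw [zsmul_eq_mul] at hy'
  rcases Int.natAbs_eq y with h | h
  · rw [h, Int.cast_natCast] at hy'
    exact hy'
  · rw [h, Int.cast_neg, Int.cast_natCast, neg_mul] at hy'
    simpa using hy'.neg

/-- a nonzero algebraic number is not small at almost all primes -/
theorem exists_bad (x : AlgebraicClosure F) : ∃ N : ℕ, N ≠ 0 ∧ ∀ (l : ℕ) [Fact l.Prime], ¬ l ∣ N →
    ∀ j : AlgebraicClosure F →+* PadicAlgCl l, x ≠ 0 → ¬ ‖j x‖ < 1 := by
  obtain ⟨N, hN, hint⟩ := exists_integral x⁻¹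
  refine ⟨N, hN, fun l _ hl j hx hlt => ?_⟩
  have h1 : ‖j ((N : AlgebraicClosure F) * x⁻¹)‖ ≤ 1 :=
    Genus.norm_le_one_of_integral (hint.map j.toIntAlgHom)
  have h2 : j ((N : AlgebraicClosure F) * x⁻¹) * j x = (N : PadicAlgCl l) := by
    rw [← map_mul, mul_assoc, inv_mul_cancel₀ hx, mul_one, map_natCast]
  have h3 := norm_natCast_eq_one hl
  rw [← h2, norm_mul] at h3
  have h4 : ‖j ((N : AlgebraicClosure F) * x⁻¹)‖ * ‖j x‖ < 1 :=
    (mul_le_of_le_one_left (norm_nonneg _) h1).trans_lt hlt
  exact absurd h3 h4.ne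

end FRAux

open FRAux

/-- Module FR: the elements of an open subgroup contain the inertia groups of almost all places. -/
theorem stFR : StFR := by
  intro F _ _ W hW
  have h1 : (W : Set (GF F)) ∈ nhds (1 : GF F) := hW.mem_nhds W.one_mem
  rw [krullTopology_mem_nhds_one_iff] at h1
  obtain ⟨E, hE, hEW⟩ := h1
  have := hE
  choose D hD hDint using fun x : AlgebraicClosure F => exists_integral x
  choose N hN hNbad using fun x : AlgebraicClosure F => exists_bad x
  obtain ⟨θ, hθ⟩ : ∃ θ : Fin (Module.finrank F E) → AlgebraicClosure F, ∀ i, θ i =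
      (D ((Module.finBasis F E i : E) : AlgebraicClosure F) : AlgebraicClosure F) *
        ((Module.finBasis F E i : E) : AlgebraicClosure F) := ⟨_, fun _ => rfl⟩
  have hθint : ∀ i, IsIntegral ℤ (θ i) := fun i => by rw [hθ i]; exact hDint _
  refine ⟨⋃ i, ⋃ r ∈ (minpoly F (θ i)).rootSet (AlgebraicClosure F), {l | l ∣ N (r - θ i)}, ?_, ?_⟩
  · refine Set.finite_iUnion fun i => ?_
    refine Set.Finite.biUnion (Polynomial.rootSet_finite _ _) fun r _ => ?_
    refine (Set.finite_le_nat (N (r - θ i))).subset fun l hl => ?_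
    exact Nat.le_of_dvd (Nat.pos_of_ne_zero (hN _)) hl
  · intro l _ hl j g hg
    apply hEW
    have h2 : ∀ i, g (θ i) = θ i := by
      intro i
      by_contra hne
      have h3 : g (θ i) ∈ (minpoly F (θ i)).rootSet (AlgebraicClosure F) := by
        rw [Polynomial.mem_rootSet]
        refine ⟨minpoly.ne_zero (Algebra.IsIntegral.isIntegral (θ i)), ?_⟩
        rw [Polynomial.aeval_algHom_apply, minpoly.aeval, map_zero]
      have h4 : ¬ l ∣ N (g (θ i) - θ i) := fun hd => hl (by
        rw [Set.mem_iUnion]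
        exact ⟨i, Set.mem_biUnion h3 hd⟩)
      exact hNbad _ l h4 j (sub_ne_zero.2 hne)
        (hg (θ i) (Genus.norm_le_one_of_integral ((hθint i).map j.toIntAlgHom)))
    have h5 : ∀ i, g ((Module.finBasis F E i : E) : AlgebraicClosure F) =
        ((Module.finBasis F E i : E) : AlgebraicClosure F) := by
      intro i
      have h6 := h2 i
      rw [hθ i, map_mul, map_natCast] at h6
      exact mul_left_cancel₀ (Nat.cast_ne_zero.2 (hD _)) h6
    show g ∈ E.fixingSubgroup
    rw [IntermediateField.mem_fixingSubgroup_iff]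
    intro x hx
    have h7 := (Module.finBasis F E).sum_repr ⟨x, hx⟩
    have h8 : x = ∑ i, ((Module.finBasis F E).repr ⟨x, hx⟩ i) •
        ((Module.finBasis F E i : E) : AlgebraicClosure F) := by
      have h9 := congrArg E.val h7
      rw [map_sum] at h9
      exact h9.symm.trans (Finset.sum_congr rfl fun i _ => rfl)
    rw [h8, map_sum]
    refine Finset.sum_congr rfl fun i _ => ?_
    rw [Algebra.smul_def, map_mul, h5, AlgEquiv.commutes]

end BKGlob2
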