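import Pool.Agent.Lib.MP_7c08ba_nt.Met.HStmts
import Pool.Agent.Lib.MP_7c08ba_nt.Met.LFR
import Pool.Agent.Lib.MP_7c08ba_nt.Gen.Unram

set_option autoImplicit false

/-!
Module FRB: Frobenius and inertia for open subgroups of the Galois group of `ℚ_l`.
-/

noncomputable section

namespace BKGlob2

open BKGen
open BKMet (GQ)

namespace FRBAux

open BKLoc2.FRAux Pool.Agent.Lib.MP_c385f6_ag.RT

variable {l : ℕ} [Fact l.Prime]

/-- automorphisms which fix the roots of unity of order `N` -/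
def KN (l : ℕ) [Fact l.Prime] (N : ℕ) : Subgroup (GQ l) where
  carrier := {g | ∀ ξ : PadicAlgCl l, ξ ^ N = 1 → g ξ = ξ}
  one_mem' := fun _ _ => rfl
  mul_mem' := by
    intro a b ha hb ξ h
    rw [AlgEquiv.mul_apply, hb ξ h, ha ξ h]
  inv_mem' := by
    intro a ha ξ h
    have h1 := ha ξ h
    calc a⁻¹ ξ = a⁻¹ (a ξ) := by rw [h1]
      _ = ξ := by rw [← AlgEquiv.mul_apply, inv_mul_cancel, AlgEquiv.one_apply]

/-- automorphisms which fix the roots of unity of order prime to `l` -/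
def I0 (l : ℕ) [Fact l.Prime] : Subgroup (GQ l) where
  carrier := {g | ∀ n : ℕ, ¬ l ∣ n → ∀ ξ : PadicAlgCl l, ξ ^ n = 1 → g ξ = ξ}
  one_mem' := fun _ _ _ _ => rfl
  mul_mem' := by
    intro a b ha hb n hn ξ h
    rw [AlgEquiv.mul_apply, hb n hn ξ h, ha n hn ξ h]
  inv_mem' := by
    intro a ha n hn ξ h
    have h1 := ha n hn ξ h
    calc a⁻¹ ξ = a⁻¹ (a ξ) := by rw [h1]
      _ = ξ := by rw [← AlgEquiv.mul_apply, inv_mul_cancel, AlgEquiv.one_apply]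

theorem I0_normal : (I0 l).Normal := by
  refine ⟨fun a ha g n hn ξ h => ?_⟩
  have h1 : (g⁻¹ ξ) ^ n = 1 := by rw [← map_pow, h, map_one]
  rw [AlgEquiv.mul_apply, AlgEquiv.mul_apply, ha n hn _ h1, ← AlgEquiv.mul_apply, mul_inv_cancel,
    AlgEquiv.one_apply]

theorem norm_le_sub {x y : PadicAlgCl l} : ‖x - y‖ ≤ max ‖x‖ ‖y‖ := norm_sub_le_max

theorem mem_I0_iff (g : GQ l) :
    g ∈ I0 l ↔ g ∈ Inert ℚ_[l] (PadicAlgCl l) (RingHom.id (PadicAlgCl l)) := by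
  constructor
  · intro hg x hx
    change ‖x‖ ≤ 1 at hx
    change ‖g x - x‖ < 1
    have hiso : ∀ z, ‖g z‖ = ‖z‖ := fun z => norm_equiv g z
    rcases lt_or_eq_of_le hx with hlt | heq
    · exact norm_sub_le_max.trans_lt (max_lt (by rw [hiso]; exact hlt) hlt)
    · obtain ⟨N, ζ, hN, hζ, hxζ⟩ := exists_root_near x heq
      have hζU : g ζ = ζ := hg N hN ζ hζ
      have h3 : g x - x = g (x - ζ) - (x - ζ) := by
        rw [map_sub, hζU]; ring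
      rw [h3]
      exact norm_sub_le_max.trans_lt (max_lt (by rw [hiso]; exact hxζ) hxζ)
  · intro hg n hn ξ h
    have hn0 : n ≠ 0 := by rintro rfl; exact hn (dvd_zero _)
    by_contra hne
    have h1 := hg ξ (norm_root hn0 h).le
    change ‖g ξ - ξ‖ < 1 at h1
    have h2 : (g ξ) ^ n = 1 := by rw [← map_pow, h, map_one]
    rw [norm_root_sub hn h2 h hne] at h1
    exact lt_irrefl _ h1

theorem exists_prim {N : ℕ} (hN : ¬ l ∣ N) : ∃ ζ : PadicAlgCl l, IsPrimitiveRoot ζ N := by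
  have hN0 : N ≠ 0 := by rintro rfl; exact hN (dvd_zero _)
  have : NeZero ((N : ℕ) : PadicAlgCl l) := ⟨by rwa [Nat.cast_ne_zero]⟩
  exact HasEnoughRootsOfUnity.exists_primitiveRoot (PadicAlgCl l) N

theorem frobN {N : ℕ} (hN : ¬ l ∣ N) :
    ∃ g : GQ l, ∀ ξ : PadicAlgCl l, ξ ^ N = 1 → g ξ = ξ ^ l := by
  have hN0 : N ≠ 0 := by rintro rfl; exact hN (dvd_zero _)
  have hl : l.Prime := Fact.out
  obtain ⟨ζ, hζ⟩ := exists_prim hN
  obtain ⟨σ, hσ⟩ := FrobAux.frob_one ℚ_[l] (PadicAlgCl l) (nv l) (nv_na l) (nv_b l) l 1 hl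
        (nv_l l) (fun m ζ h => (root_of (nv l) (nv_na l) l hl (nv_l l)).2 m ζ h) (fermat l)
        hN0 hN hζ.pow_eq_one
  rw [pow_one] at hσ
  refine ⟨σ, fun ξ h => ?_⟩
  have : NeZero N := ⟨hN0⟩
  obtain ⟨i, -, rfl⟩ := hζ.eq_pow_of_pow_eq_one h
  rw [map_pow, hσ, ← pow_mul, ← pow_mul, mul_comm]

theorem powN {N : ℕ} (hN : ¬ l ∣ N) (g : GQ l) :
    ∃ i : ℕ, ∀ ξ : PadicAlgCl l, ξ ^ N = 1 → g ξ = ξ ^ l ^ i := by
  have hN0 : N ≠ 0 := by rintro rfl; exact hN (dvd_zero _)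
  have hl : l.Prime := Fact.out
  obtain ⟨ζ, hζ⟩ := exists_prim hN
  have hcop : N.Coprime l := ((Nat.Prime.coprime_iff_not_dvd hl).2 hN).symm
  obtain ⟨j, hj⟩ := exists_pow (nv l) (nv_na l) (l := l) (nv_l l) (g : PadicAlgCl l ≃+* PadicAlgCl l)
      (fun x => nv_i l g x) hN0 hcop hζ.pow_eq_one
  have h1 : g ζ = ζ ^ l ^ j := by
    refine eq_of_close hN0 hN ?_ ?_ hj
    · rw [← map_pow, hζ.pow_eq_one, map_one]
    · rw [← pow_mul, mul_comm, pow_mul, hζ.pow_eq_one, one_pow]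
  refine ⟨j, fun ξ h => ?_⟩
  have : NeZero N := ⟨hN0⟩
  obtain ⟨i, -, rfl⟩ := hζ.eq_pow_of_pow_eq_one h
  rw [map_pow, h1, ← pow_mul, ← pow_mul, mul_comm]

theorem isClosed_eval (x y : PadicAlgCl l) : IsClosed {g : GQ l | g x = y} := by
  rw [← isOpen_compl_iff, isOpen_iff_mem_nhds]
  intro g hg
  have h3 : IsOpen (MulAction.stabilizer (GQ l) x : Set (GQ l)) :=
    stabilizer_isOpen_of_isIntegral x
  refine Filter.mem_of_superset ((h3.preimage (continuous_const_mul g⁻¹)).mem_nhds ?_) ?_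
  · change g⁻¹ * g ∈ MulAction.stabilizer (GQ l) x
    rw [inv_mul_cancel]
    exact Subgroup.one_mem _
  · intro t ht h
    apply hg
    have h8 : (g⁻¹ * t) x = x := ht
    have h9 : t x = g x := by
      rw [AlgEquiv.mul_apply] at h8
      have h10 := congrArg g h8
      rwa [← AlgEquiv.mul_apply, mul_inv_cancel, AlgEquiv.one_apply] at h10
    change g x = y
    rw [← h9]
    exact h

/-- compactness -/
theorem inter_nonempty (C : ℕ → Set (GQ l)) (hc : ∀ N, ¬ l ∣ N → IsClosed (C N))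
    (hn : ∀ N, ¬ l ∣ N → (C N).Nonempty) (hm : ∀ N M, ¬ l ∣ N → ¬ l ∣ M → N ∣ M → C M ⊆ C N) :
    ∃ g, ∀ N, ¬ l ∣ N → g ∈ C N := by
  have hl : l.Prime := Fact.out
  have : Nonempty {N : ℕ // ¬ l ∣ N} := ⟨⟨1, fun h => hl.one_lt.ne' (Nat.dvd_one.1 h)⟩⟩
  obtain ⟨g, hg⟩ := IsCompact.nonempty_iInter_of_directed_nonempty_isCompact_isClosed
    (fun N : {N : ℕ // ¬ l ∣ N} => C N.1)
    (by
      rintro ⟨N, hN⟩ ⟨M, hM⟩
      have hNM : ¬ l ∣ N * M := fun h => (hl.dvd_mul.1 h).elim hN hM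
      exact ⟨⟨N * M, hNM⟩, hm _ _ hN hNM (dvd_mul_right _ _), hm _ _ hM hNM (dvd_mul_left _ _)⟩)
    (fun N => hn N.1 N.2) (fun N => (hc N.1 N.2).isCompact) (fun N => hc N.1 N.2)
  exact ⟨g, fun N hN => Set.mem_iInter.1 hg ⟨N, hN⟩⟩

theorem exists_frob : ∃ g : GQ l, ∀ N : ℕ, ¬ l ∣ N → ∀ ξ : PadicAlgCl l, ξ ^ N = 1 →
    g ξ = ξ ^ l := by
  refine inter_nonempty (fun N => {g | ∀ ξ : PadicAlgCl l, ξ ^ N = 1 → g ξ = ξ ^ l}) ?_
    (fun N hN => frobN hN) ?_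
  · intro N _
    simp only [Set.ofPred_forall]
    exact isClosed_iInter fun ξ => isClosed_iInter fun _ => isClosed_eval ξ _
  · rintro N M _ _ ⟨c, rfl⟩ g hg ξ h
    exact hg ξ (by rw [pow_mul, h, one_pow])

theorem isClosed_KN (N : ℕ) : IsClosed (KN l N : Set (GQ l)) := by
  have h1 : (KN l N : Set (GQ l)) = ⋂ ξ : PadicAlgCl l, ⋂ _ : ξ ^ N = 1, {g | g ξ = ξ} := by
    ext g
    simp only [Set.mem_iInter]
    rfl
  rw [h1]
  exact isClosed_iInter fun ξ => isClosed_iInter fun _ => isClosed_eval ξ _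

/-- every element is a power of Frobenius up to inertia and a given open subgroup -/
theorem dense_frob {φ : GQ l} (hφ : ∀ n : ℕ, ∀ N : ℕ, ¬ l ∣ N → ∀ ξ : PadicAlgCl l, ξ ^ N = 1 →
    (φ ^ n) ξ = ξ ^ l ^ n) (W : Subgroup (GQ l)) (hW : IsOpen (W : Set (GQ l))) (g : GQ l) :
    ∃ n : ℕ, ∃ i ∈ I0 l, ∃ w ∈ W, g = φ ^ n * i * w := by
  set S : Set (GQ l) := {x | ∃ i ∈ I0 l, ∃ w ∈ W, x = i * w} with hS
  have hSo : IsOpen S := by
    have h1 : S = ⋃ i : GQ l, ⋃ _ : i ∈ I0 l, (fun x => i⁻¹ * x) ⁻¹' (W : Set (GQ l)) := by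
      ext x
      simp only [Set.mem_iUnion, Set.mem_preimage, SetLike.mem_coe, hS, Set.mem_ofPred_eq]
      constructor
      · rintro ⟨i, hi, w, hw, rfl⟩
        exact ⟨i, hi, by rwa [inv_mul_cancel_left]⟩
      · rintro ⟨i, hi, hw⟩
        exact ⟨i, hi, _, hw, by rw [mul_inv_cancel_left]⟩
    rw [h1]
    exact isOpen_iUnion fun i => isOpen_iUnion fun _ => hW.preimage (continuous_const_mul i⁻¹)
  obtain ⟨N, hN, hNS⟩ : ∃ N : ℕ, ¬ l ∣ N ∧ (KN l N : Set (GQ l)) ⊆ S := by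
    by_contra hcon
    push Not at hcon
    obtain ⟨x, hx⟩ := inter_nonempty (fun N => (KN l N : Set (GQ l)) ∩ Sᶜ)
      (fun N _ => (isClosed_KN N).inter hSo.isClosed_compl)
      (fun N hN => by
        obtain ⟨x, hx, hx'⟩ := Set.not_subset.1 (hcon N hN)
        exact ⟨x, hx, hx'⟩)
      (by
        rintro N M _ _ ⟨c, rfl⟩ x ⟨hx, hx'⟩
        exact ⟨fun ξ h => hx ξ (by rw [pow_mul, h, one_pow]), hx'⟩)
    have h1 : ¬ l ∣ 1 := fun h => (Fact.out : l.Prime).one_lt.ne' (Nat.dvd_one.1 h)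
    apply (hx 1 h1).2
    exact ⟨x, fun n hn ξ h => (hx n hn).1 ξ h, 1, W.one_mem, (mul_one x).symm⟩
  obtain ⟨n, hn⟩ := powN hN g
  have h1 : (φ ^ n)⁻¹ * g ∈ S := by
    apply hNS
    intro ξ h
    rw [AlgEquiv.mul_apply, hn ξ h, ← hφ n N hN ξ h, ← AlgEquiv.mul_apply, inv_mul_cancel,
      AlgEquiv.one_apply]
  obtain ⟨i, hi, w, hw, h⟩ := h1
  exact ⟨n, i, hi, w, hw, by rw [mul_assoc, ← h, mul_inv_cancel_left]⟩

end FRBAux

open FRBAux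

/-- Module FRB -/
theorem stFRB : StFRB := by
  intro l _ V _ _ _ _ e he
  have hl : l.Prime := Fact.out
  obtain ⟨φ₀, hφ₀⟩ := exists_frob (l := l)
  have hpow : ∀ n : ℕ, ∀ N : ℕ, ¬ l ∣ N → ∀ ξ : PadicAlgCl l, ξ ^ N = 1 →
      (φ₀ ^ n) ξ = ξ ^ l ^ n := by
    intro n N hN ξ h
    induction n with
    | zero => rw [pow_zero, pow_zero, pow_one, AlgEquiv.one_apply]
    | succ n ih =>
      rw [pow_succ, AlgEquiv.mul_apply, hφ₀ N hN ξ h, map_pow, ih, ← pow_mul, ← pow_succ]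
  have hnor : (I0 l).Normal := I0_normal
  have hUo : IsOpen (e.range : Set (GQ l)) := by
    rw [MonoidHom.coe_range]
    exact he.isOpen_range
  set U₀ : Subgroup (GQ l) := e.range ⊔ I0 l with hU₀
  have hmem : ∀ x, x ∈ U₀ ↔ ∃ v : V, ∃ i ∈ I0 l, x = e v * i := by
    intro x
    rw [hU₀, Subgroup.mem_sup_of_normal_right]
    constructor
    · rintro ⟨_, ⟨v, rfl⟩, i, hi, h⟩
      exact ⟨v, i, hi, h.symm⟩
    · rintro ⟨v, i, hi, h⟩
      exact ⟨e v, ⟨v, rfl⟩, i, hi, h.symm⟩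
  have hex : ∃ f : ℕ, 0 < f ∧ φ₀ ^ f ∈ U₀ := by
    have : Finite (GQ l ⧸ e.range) := Subgroup.quotient_finite_of_isOpen _ hUo
    have : e.range.FiniteIndex := Subgroup.finiteIndex_of_finite_quotient
    obtain ⟨n, hn, -, h⟩ := Subgroup.exists_pow_mem_of_index_ne_zero
      (H := e.range) Subgroup.FiniteIndex.index_ne_zero φ₀
    exact ⟨n, hn, Subgroup.mem_sup_left h⟩
  classical
  set f := Nat.find hex with hf
  obtain ⟨hf0, hfU⟩ := Nat.find_spec hex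
  have hmin : ∀ n : ℕ, φ₀ ^ n ∈ U₀ → f ∣ n := by
    intro n hn
    by_contra hnd
    have h1 : 0 < n % f := Nat.pos_of_ne_zero fun h => hnd (Nat.dvd_of_mod_eq_zero h)
    have h2 : φ₀ ^ (n % f) ∈ U₀ := by
      have h3 : φ₀ ^ n = (φ₀ ^ f) ^ (n / f) * φ₀ ^ (n % f) := by
        rw [← pow_mul, ← pow_add, Nat.div_add_mod]
      rw [h3] at hn
      exact (U₀.mul_mem_cancel_left (U₀.pow_mem hfU _)).1 hn
    exact Nat.find_min hex (Nat.mod_lt n hf0) ⟨h1, h2⟩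
  obtain ⟨φ, i₁, hi₁, hφ⟩ := (hmem _).1 hfU
  have hφ1 : ∀ n : ℕ, ¬ l ∣ n → ∀ ξ : PadicAlgCl l, ξ ^ n = 1 → e φ ξ = ξ ^ l ^ f := by
    intro n hn ξ h
    rw [← hpow f n hn ξ h]
    have h2 : φ₀ ^ f = e φ * i₁ := hφ
    rw [h2, AlgEquiv.mul_apply, hi₁ n hn ξ h]
  have hφq : ∀ q : ℕ, ∀ n : ℕ, ¬ l ∣ n → ∀ ξ : PadicAlgCl l, ξ ^ n = 1 →
      ((e φ) ^ q) ξ = (φ₀ ^ (f * q)) ξ := by
    intro q n hn ξ h
    rw [hpow _ n hn ξ h]
    induction q with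
    | zero => rw [pow_zero, mul_zero, pow_zero, pow_one, AlgEquiv.one_apply]
    | succ q ih =>
      rw [pow_succ, AlgEquiv.mul_apply, hφ1 n hn ξ h, map_pow, ih, ← pow_mul, ← pow_add,
        mul_add, mul_one]
  refine ⟨φ, f, hf0.ne', hφ1, fun n hn ξ h i hi => (mem_I0_iff i).2 hi n hn ξ h, ?_⟩
  intro W hW d
  have hW' : IsOpen ((W.map e : Subgroup (GQ l)) : Set (GQ l)) := by
    rw [Subgroup.coe_map]
    exact he.isOpenMap _ hW
  obtain ⟨n, i, hi, w, ⟨w₁, hw₁, rfl⟩, hd⟩ := dense_frob hpow (W.map e) hW' (e d)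
  have h1 : φ₀ ^ n ∈ U₀ := by
    have h2 : φ₀ ^ n = e d * (e w₁)⁻¹ * i⁻¹ := by
      rw [hd]
      group
    rw [h2, ← map_inv, ← map_mul]
    exact U₀.mul_mem (Subgroup.mem_sup_left ⟨_, rfl⟩)
      (Subgroup.mem_sup_right ((I0 l).inv_mem hi))
  obtain ⟨q, rfl⟩ := hmin n h1
  refine ⟨q, (φ ^ q)⁻¹ * d * w₁⁻¹, ?_, w₁, hw₁, by group⟩
  rw [← mem_I0_iff]
  have h3 : e ((φ ^ q)⁻¹ * d * w₁⁻¹) = ((e φ) ^ q)⁻¹ * φ₀ ^ (f * q) * i := by
    rw [map_mul, map_mul, map_inv, map_inv, map_pow, hd]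
    group
  rw [h3]
  refine (I0 l).mul_mem ?_ hi
  intro m hm ξ h
  rw [AlgEquiv.mul_apply, ← hφq q m hm ξ h, ← AlgEquiv.mul_apply, inv_mul_cancel,
    AlgEquiv.one_apply]

end BKGlob2
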