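import Pool.Agent.Lib.MP_7c08ba_nt.Met.HStmts
import Pool.Agent.Lib.MP_7c08ba_nt.Odd.H90
import Pool.Agent.Lib.MP_7c08ba_nt.Odd.Kum
import Pool.Agent.Lib.MP_7c08ba_nt.Odd.L1
import Pool.Agent.Lib.MP_7c08ba_nt.Odd.L3

set_option autoImplicit false

/-!
Parity without rigidity, global part 2: the Hasse principle for `H²(V, ℤ/p)`, one step.
-/

noncomputable section

namespace BKGlob2

open NumberField IsDedekindDomain BKGen
open BKOdd (Fx IsKum IsNm)
open BKMet (GQ pb2)

namespace HQ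

/-- the character of a normal open subgroup of index `p` -/
theorem exists_char {p : ℕ} [Fact p.Prime] {V : Type} [Group V] [TopologicalSpace V]
    [IsTopologicalGroup V] (H : Subgroup V) (hn : H.Normal) (ho : IsOpen (H : Set V))
    (hi : H.index = p) :
    ∃ χ ∈ CC.Z1 (1 : V →* ZMod p), (∀ g, g ∈ H ↔ χ g = 0) ∧ ∃ σ : V, χ σ = 1 := by
  have hc : Nat.card (V ⧸ H) = p := hi
  have hc' : Nat.card (Multiplicative (ZMod p)) = p := by
    rw [Nat.card_congr Multiplicative.toAdd, Nat.card_zmod]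
  let f : V ⧸ H ≃* Multiplicative (ZMod p) := mulEquivOfPrimeCardEq hc hc'
  let χ : V → ZMod p := fun g => Multiplicative.toAdd (f (QuotientGroup.mk g))
  have hmul : ∀ g h, χ (g * h) = χ g + χ h := by
    intro g h
    change Multiplicative.toAdd (f (QuotientGroup.mk (g * h))) = _
    rw [QuotientGroup.mk_mul, map_mul, toAdd_mul]
  have hker : ∀ g, g ∈ H ↔ χ g = 0 := by
    intro g
    rw [← QuotientGroup.eq_one_iff]
    constructor
    · intro h
      change Multiplicative.toAdd (f (QuotientGroup.mk g)) = 0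
      rw [h, map_one, toAdd_one]
    · intro h
      have h1 : f (QuotientGroup.mk g) = 1 := by
        apply Multiplicative.toAdd.injective
        rw [toAdd_one]
        exact h
      exact (map_eq_one_iff f f.injective).1 h1
  refine ⟨χ, ⟨?_, fun g h => ?_⟩, hker, ?_⟩
  · rw [continuous_iff_continuousAt]
    intro g
    have h1 : ∀ᶠ x in nhds g, χ x = χ g := by
      have h2 : (fun x : V => g⁻¹ * x) ⁻¹' (H : Set V) ∈ nhds g := by
        refine (ho.preimage (continuous_const.mul continuous_id)).mem_nhds ?_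
        change g⁻¹ * g ∈ H
        rw [inv_mul_cancel]
        exact H.one_mem
      filter_upwards [h2] with x hx
      have h3 : χ (g⁻¹ * x) = 0 := (hker _).1 hx
      have h4 : χ x = χ g + χ (g⁻¹ * x) := by
        rw [← hmul, mul_inv_cancel_left]
      rw [h4, h3, add_zero]
    exact (continuousAt_const (y := χ g)).congr (h1.mono fun x h => h.symm)
  · rw [MonoidHom.one_apply, one_mul]
    exact hmul g h
  · obtain ⟨q, hq⟩ := f.surjective (Multiplicative.ofAdd (1 : ZMod p))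
    obtain ⟨σ, rfl⟩ := QuotientGroup.mk_surjective q
    refine ⟨σ, ?_⟩
    change Multiplicative.toAdd (f (QuotientGroup.mk σ)) = 1
    rw [hq, toAdd_ofAdd]

/-- restriction of coboundaries -/
theorem pb2_mem {p : ℕ} {D G : Type} [Group D] [TopologicalSpace D] [Group G]
    [TopologicalSpace G] (f : D →* G) (hf : Continuous f) {z : G → G → ZMod p}
    (hz : z ∈ CC.B2 (1 : G →* ZMod p)) : pb2 f z ∈ CC.B2 (1 : D →* ZMod p) := by
  obtain ⟨b, hb, hb'⟩ := hz
  refine ⟨fun d => b (f d), hb.comp hf, fun g h => ?_⟩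
  change z (f g) (f h) = b (f g) + _ * b (f h) - b (f (g * h))
  rw [hb', map_mul]
  rfl

end HQ

open HQ in
/-- Module HQ: the Hasse principle, one step. -/
theorem stHQ (hLN : StLN) (hHN : StHN) (hNB : StNB) (hCP : StCP) : StHQ := by
  intro p _ hp2 k Ω _ _ _ _ _ _ _ V _ _ _ _ _ e he ζ hζ hfz H hn ho hi z hz hlc hH
  obtain ⟨χ, hχ, hχH, σ, hσ⟩ := exists_char H hn ho hi
  have hχ0 : χ ≠ 0 := by
    rintro rfl
    exact zero_ne_one hσ
  obtain ⟨ψ, hψ, hzψ⟩ := BKOdd.stL1 BKOdd.stH90 (BKOdd.stKum BKOdd.stH90) k Ω V e he p ζ hζ hfz χ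
    hχ hχ0 H hχH z hz hH
  obtain ⟨-, kum2, -, -, -⟩ := BKOdd.stKum BKOdd.stH90 k Ω V e he p ζ hζ hfz
  obtain ⟨Y, hY0, hYf, hYk⟩ := kum2 ψ hψ
  obtain ⟨X, hX0, hXf, hXk⟩ := kum2 χ hχ
  -- the fixed field
  let E : IntermediateField k Ω := IntermediateField.fixedField e.range
  have hE : ∀ x, x ∈ E ↔ Fx e x := by
    intro x
    rw [IntermediateField.mem_fixedField_iff]
    constructor
    · intro h v
      exact h (e v) ⟨v, rfl⟩
    · rintro h _ ⟨v, rfl⟩
      exact h v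
  have halg : Algebra.IsAlgebraic k Ω := inferInstance
  have halgE : Algebra.IsAlgebraic E Ω := Algebra.IsAlgebraic.tower_top (K := k) E
  have hEN : NumberField E := by
    have : Algebra.IsAlgebraic ℚ Ω := Algebra.IsAlgebraic.trans ℚ k Ω
    let j : Ω →+* PadicAlgCl 2 := (IsAlgClosed.lift : Ω →ₐ[ℚ] PadicAlgCl 2).toRingHom
    exact ((hCP k Ω V e he 2 j).2.2.2.2 E hE).1
  let X' : Eˣ := Units.mk0 ⟨X, (hE X).2 hXf⟩ (fun h => hX0 (congrArg Subtype.val h))
  let Y' : Eˣ := Units.mk0 ⟨Y, (hE Y).2 hYf⟩ (fun h => hY0 (congrArg Subtype.val h))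
  have hζE : ζ ∈ E := (hE ζ).2 hfz
  have hζ' : IsPrimitiveRoot (⟨ζ, hζE⟩ : E) p :=
    IsPrimitiveRoot.of_map_of_injective (f := algebraMap E Ω) hζ (algebraMap E Ω).injective
  -- local conditions
  have hloc : ∀ (l : ℕ) [Fact l.Prime] (j : Ω →+* PadicAlgCl l),
      toU (j.comp (algebraMap E Ω)) Y' ∈ Nm p (comp l (j.comp (algebraMap E Ω)))
        (toC (j.comp (algebraMap E Ω)) (X' : E)) := by
    intro l _ j
    refine hLN p k Ω V e he ζ hζ E hE hζE X' Y' χ ψ hXk hYk l j ?_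
    have h1 := hlc l j
    have h2 : pb2 (fs e j) (z - CC.cup ψ χ) ∈ CC.B2 (1 : Cp e j →* ZMod p) :=
      pb2_mem (fs e j) (hCP k Ω V e he l j).2.1 hzψ
    have h3 := (CC.B2 (1 : Cp e j →* ZMod p)).sub_mem h1 h2
    convert h3 using 1
    funext a b
    change CC.cup ψ χ (fs e j a) (fs e j b) = z (fs e j a) (fs e j b) -
      (z (fs e j a) (fs e j b) - CC.cup ψ χ (fs e j a) (fs e j b))
    ring
  have hN : Y' ∈ Nm p E (X' : E) := by
    refine hHN p Fact.out hp2 E _ hζ' X' Y' fun v => ?_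
    let : Algebra E (PadicAlgCl (chr v)) := (emb v).toAlgebra
    let j' : Ω →ₐ[E] PadicAlgCl (chr v) := IsAlgClosed.lift
    have hj : (j' : Ω →+* PadicAlgCl (chr v)).comp (algebraMap E Ω) = emb v := by
      ext x
      exact j'.commutes x
    have h1 := hloc (chr v) (j' : Ω →+* PadicAlgCl (chr v))
    rw [hj] at h1
    exact h1
  have hIs : IsNm e p H σ Y := (hNB p k Ω V e he ζ hζ E hE hζE X' Y' χ hXk H hχH σ hσ).2 hN
  have hcup := (BKOdd.stL3 BKOdd.stH90 (BKOdd.stKum BKOdd.stH90) k Ω V e he p ζ hζ hfz χ hχ H hχH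
    σ hσ Y hY0 hYf ψ hYk).2 hIs
  have := (CC.B2 (1 : V →* ZMod p)).add_mem hzψ hcup
  rwa [sub_add_cancel] at this

end BKGlob2
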