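import Pool.Agent.Lib.MP_7c08ba_nt.Met.HStmts
import Pool.Agent.Lib.MP_7c08ba_nt.Met.LN4
import Pool.Agent.Lib.MP_7c08ba_nt.Odd.TR
import Pool.Agent.Lib.MP_7c08ba_nt.Odd.CycL

set_option autoImplicit false

/-!
Parity without rigidity, global part 2, module HX: the Hasse principle for `H²(V, 𝔽_p(χ))`.
-/

noncomputable section

namespace BKGlob2

open NumberField IsDedekindDomain BKGen
open BKOdd (Fx IsKum IsNm chm chZ ConjHyp stTR cor2 nonarch_subgroup)
open BKLoc2 (cl sc im cy cyL Sys IsKP IsLam IsHom StLoc hq ht PP)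
open BKMet (QZ actA kch Rel GF GQ cycF cycL IsConj RS GS Pl Splits pb1 pb2 LocAx GlobAx StArith)
open BKPar (Loc1 Loc2)

namespace HX

section

variable {k Ω : Type} [Field k] [Field Ω] [Algebra k Ω] {V : Type} [Group V]
  (e : V →* (Ω ≃ₐ[k] Ω)) (H : Subgroup V) {l : ℕ} [Fact l.Prime] (j : Ω →+* PadicAlgCl l)

/-- the decomposition group in a subgroup -/
def io (x : Cp (e.comp H.subtype) j) : Cp e j := ⟨((x.1.1 : V), x.1.2), fun z => x.2 z⟩

theorem io_mul (x y : Cp (e.comp H.subtype) j) : io e H j (x * y) = io e H j x * io e H j y := rfl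

theorem io_cont [TopologicalSpace V] : Continuous (io e H j) := by
  unfold io
  fun_prop

end

/-- elements of the kernel of the cyclotomic character modulo `p` fix the roots of unity -/
theorem fix {p : ℕ} [hp : Fact p.Prime] {k Ω : Type} [Field k] [Field Ω] [Algebra k Ω]
    [IsAlgClosed Ω] [CharZero Ω] {ζ : Ω} (hζ : IsPrimitiveRoot ζ p) (g : Ω ≃ₐ[k] Ω)
    (h : PadicInt.toZMod ((cy p k Ω g : ℤ_[p]ˣ) : ℤ_[p]) = 1) : g ζ = ζ := by
  have h1 : g ζ = ζ ^ (((cy p k Ω g : ℤ_[p]ˣ) : ℤ_[p]).toZModPow 1).val :=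
    BKOdd.CycLAux.act 1 ζ (by rw [pow_one]; exact hζ.pow_eq_one)
      (MulSemiringAction.toRingAut (Ω ≃ₐ[k] Ω) Ω g)
  have h2 : (PadicInt.toZMod ((cy p k Ω g : ℤ_[p]ˣ) : ℤ_[p])).val =
      (((cy p k Ω g : ℤ_[p]ˣ) : ℤ_[p]).toZModPow 1).val % p := by
    rw [BKOdd.CycLAux.toZMod_eq, ZMod.val_natCast]
  have hf : Fact (1 < p) := ⟨hp.out.one_lt⟩
  rw [h, ZMod.val_one] at h2
  rw [h1]
  conv_lhs => rw [← Nat.div_add_mod (((cy p k Ω g : ℤ_[p]ˣ) : ℤ_[p]).toZModPow 1).val p, ← h2]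
  rw [pow_add, pow_mul, hζ.pow_eq_one, one_pow, one_mul, pow_one]

end HX

open HX

/-- Module HX: the Hasse principle for `H²(V, 𝔽_p(χ))`. -/
theorem stHX (h : StHP) : StHX := by
  intro p hp hp2 k Ω _ _ _ _ _ _ _ V _ _ _ _ _ e he z hz hl
  set χ : V →* ℤ_[p]ˣ := (cy p k Ω).comp e with hχ
  have hχc : Continuous χ := (cyclotomicCharacter.continuous p k Ω).comp he.continuous
  have hcc : Continuous (chm χ) := BKLoc2.N4Aux.cont_chm hχc
  let φ : V →* (ZMod p)ˣ := (Units.map ((PadicInt.toZMod (p := p)) : ℤ_[p] →* ZMod p)).comp χ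
  have hφ : ∀ g, ((φ g : (ZMod p)ˣ) : ZMod p) = chm χ g := fun g => rfl
  set H : Subgroup V := φ.ker with hH
  have ho : IsOpen (H : Set V) := by
    have h4 : (H : Set V) = chm χ ⁻¹' {1} := by
      ext g
      rw [SetLike.mem_coe, hH, MonoidHom.mem_ker, Set.mem_preimage, Set.mem_singleton_iff, ← hφ,
        Units.val_eq_one]
    rw [h4]
    exact (isOpen_discrete {(1 : ZMod p)}).preimage hcc
  have hd : ¬ p ∣ H.index := by
    rw [hH, Subgroup.index_ker]
    intro h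
    have h5 := h.trans (Subgroup.card_subgroup_dvd_card φ.range)
    rw [Nat.card_eq_fintype_card, ZMod.card_units] at h5
    have h6 := Nat.le_of_dvd (by have := hp.out.one_lt; omega) h5
    have := hp.out.one_lt
    omega
  have hc1 : ∀ v ∈ H, chm χ v = 1 := by
    intro v hv
    rw [← hφ, MonoidHom.mem_ker.1 hv, Units.val_one]
  have hfin : Finite (V ⧸ H) := H.quotient_finite_of_isOpen ho
  have cH : CompactSpace H := isCompact_iff_compactSpace.1 (H.isClosed_of_isOpen ho).isCompact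
  have nH : NonarchimedeanGroup H := nonarch_subgroup H
  have hch1 : (chm χ).comp H.subtype = 1 := by
    ext v
    exact hc1 v v.2
  have hne : NeZero ((p : ℕ) : Ω) := ⟨Nat.cast_ne_zero.2 hp.out.ne_zero⟩
  obtain ⟨ζ, hζ⟩ := HasEnoughRootsOfUnity.exists_primitiveRoot Ω p
  have he0 : Topology.IsOpenEmbedding (e.comp H.subtype) := he.comp ho.isOpenEmbedding_subtypeVal
  have hfx : Fx (e.comp H.subtype) ζ := fun v => fix hζ (e v) (hc1 v v.2)
  have hz0 : (fun a b : H => z a b) ∈ CC.Z2 (1 : H →* ZMod p) := by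
    refine ⟨hz.1.comp (by fun_prop : Continuous fun x : H × H => ((x.1 : V), (x.2 : V))),
      fun a b c => ?_⟩
    have h1 := hz.2 (a : V) b c
    rw [hc1 a a.2] at h1
    exact h1
  have hlc : LC (e.comp H.subtype) (fun a b : H => z a b) := by
    intro l _ j
    obtain ⟨f, hf, hf'⟩ := hl l j
    refine ⟨fun x => f (io e H j x), hf.comp (io_cont e H j), fun x y => ?_⟩
    have h1 := hf' (io e H j x) (io e H j y)
    have h2 : chm (χ.comp (fs e j)) (io e H j x) = 1 := hc1 _ x.1.1.2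
    rw [h2, ← io_mul] at h1
    exact h1
  have h1 := h p hp2 k Ω H (e.comp H.subtype) he0 ζ hζ hfx _ hz0 hlc
  obtain ⟨-, -, t3, t4, -⟩ := stTR V H ho hfin (ZMod p) (chm χ) hcc
  have h2 := t3 _ (by rw [hch1]; exact h1)
  have h3 := t4 z hz
  have h4 : (H.index : ZMod p) • z ∈ CC.B2 (chm χ) := by
    have := (CC.B2 (chm χ)).sub_mem h2 h3
    rwa [sub_sub_cancel] at this
  have h5 : (H.index : ZMod p) ≠ 0 := by
    rwa [Ne, ZMod.natCast_eq_zero_iff]
  have h6 := (CC.B2 (chm χ)).smul_mem (H.index : ZMod p)⁻¹ h4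
  rwa [smul_smul, inv_mul_cancel₀ h5, one_smul] at h6

end BKGlob2
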