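import Pool.Agent.Lib.MP_7c08ba_nt.Met.HStmts

set_option autoImplicit false

/-!
Parity without rigidity, global part 2, module KL: classes of `ℚ_l` vanish far up in the cyclotomic
extension.
-/

noncomputable section

namespace BKGlob2

open BKOdd (Fx IsKum IsNm chm chZ ConjHyp)
open BKLoc2 (cl sc im cy cyL Sys IsKP IsLam IsHom)
open BKMet (QZ actA GQ)
open BKPar (Loc1 Loc2)

namespace KLAux

variable {p : ℕ} [Fact p.Prime]

theorem cl_nsmul (n : ℕ) (x : ℚ_[p]) : n • cl p x = cl p ((n : ℚ_[p]) * x) := by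
  unfold cl
  rw [← Submodule.Quotient.mk_smul, nsmul_eq_mul]

theorem cl_eq {x y : ℚ_[p]} (h : ‖x - y‖ ≤ 1) : cl p x = cl p y := by
  unfold cl
  rw [Submodule.Quotient.eq]
  exact ⟨⟨x - y, h⟩, rfl⟩

theorem cl_surj (y : QZ p) : ∃ x : ℚ_[p], cl p x = y := Submodule.Quotient.mk_surjective _ y

/-- natural multiples of the classes of `r / p ^ m` are everything -/
theorem approx {r : ℤ_[p]} (hr : r ≠ 0) (y : QZ p) :
    ∃ c m : ℕ, c • cl p ((r : ℚ_[p]) / (p : ℚ_[p]) ^ m) = y := by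
  obtain ⟨x, rfl⟩ := cl_surj y
  have hr' : (r : ℚ_[p]) ≠ 0 := fun h => hr (PadicInt.ext h)
  have hp : (p : ℚ_[p]) ≠ 0 := by exact_mod_cast (Fact.out : p.Prime).ne_zero
  have hp1 : (1 : ℝ) < p := by exact_mod_cast (Fact.out : p.Prime).one_lt
  obtain ⟨m, hm⟩ := pow_unbounded_of_one_lt ‖x / (r : ℚ_[p])‖ hp1
  have h1 : ‖(p : ℚ_[p]) ^ m * (x / (r : ℚ_[p]))‖ ≤ 1 := by
    rw [norm_mul, norm_pow, Padic.norm_p, inv_pow, inv_mul_le_iff₀ (by positivity), mul_one]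
    exact hm.le
  set q : ℤ_[p] := ⟨(p : ℚ_[p]) ^ m * (x / (r : ℚ_[p])), h1⟩ with hq
  have hq' : (q : ℚ_[p]) = (p : ℚ_[p]) ^ m * (x / (r : ℚ_[p])) := rfl
  refine ⟨q.appr m, m, ?_⟩
  rw [cl_nsmul]
  apply cl_eq
  have h2 := PadicInt.appr_spec m q
  rw [Ideal.mem_span_singleton] at h2
  obtain ⟨w, hw⟩ := h2
  have hx : x = (r : ℚ_[p]) * (q : ℚ_[p]) / (p : ℚ_[p]) ^ m := by
    rw [hq']
    field_simp
  have hw' : (q : ℚ_[p]) - (q.appr m : ℚ_[p]) = (p : ℚ_[p]) ^ m * (w : ℚ_[p]) := by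
    have e := congrArg (fun t : ℤ_[p] => (t : ℚ_[p])) hw
    push_cast at e
    exact e
  have h3 : ((q.appr m : ℕ) : ℚ_[p]) * ((r : ℚ_[p]) / (p : ℚ_[p]) ^ m) - x =
      ((-(r * w) : ℤ_[p]) : ℚ_[p]) := by
    rw [hx]
    push_cast
    have e : ((q.appr m : ℕ) : ℚ_[p]) = (q : ℚ_[p]) - (p : ℚ_[p]) ^ m * (w : ℚ_[p]) := by
      rw [← hw']
      ring
    rw [e]
    field_simp
    ring
  rw [h3]
  exact PadicInt.norm_le_one _

/-- products vanish if `θ` is divisible by `p ^ m` -/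
theorem sc_zero {G : Type*} {κ θ : G → ℤ_[p]} {m : ℕ} {g h : G} (hd : (p : ℤ_[p]) ^ m ∣ θ h) :
    cl p (((κ g * θ h : ℤ_[p]) : ℚ_[p]) / (p : ℚ_[p]) ^ m) = 0 := by
  obtain ⟨w, hw⟩ := hd
  have hp : (p : ℚ_[p]) ≠ 0 := by exact_mod_cast (Fact.out : p.Prime).ne_zero
  have h0 : cl p (0 : ℚ_[p]) = 0 := Submodule.Quotient.mk_zero _
  rw [← h0]
  apply cl_eq
  have e : ((κ g * θ h : ℤ_[p]) : ℚ_[p]) / (p : ℚ_[p]) ^ m - 0 = ((κ g * w : ℤ_[p]) : ℚ_[p]) := by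
    rw [hw]
    push_cast
    field_simp
    ring
  rw [e]
  exact PadicInt.norm_le_one _

/-- the conclusion from the invariant -/
theorem fin {l : ℕ} [Fact l.Prime] {lam : ℤ_[p]ˣ → ℤ_[p]}
    (inv : (GQ l → GQ l → QZ p) →+ QZ p)
    (hinv : ∀ α ∈ BKND.Z2 (actA (cyL p l)), inv α = 0 ↔ α ∈ BKND.B2 (actA (cyL p l)))
    (κ : GQ l → ℤ_[p])
    (hZ : ∀ m, sc κ (fun g => lam (cyL p l g)) m ∈ BKND.Z2 (actA (cyL p l)))
    {r : ℤ_[p]} (hr : r ≠ 0)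
    (hf : ∀ m : ℕ, inv (sc κ (fun g => lam (cyL p l g)) m) =
      cl p ((r : ℚ_[p]) / (p : ℚ_[p]) ^ m)) :
    ∀ α ∈ BKND.Z2 (actA (cyL p l)), ∃ M₀ : ℕ, ∀ M ≥ M₀, ∀ U : Subgroup (GQ l),
    (∀ g, g ∈ U ↔ (p : ℤ_[p]) ^ M ∣ lam (cyL p l g)) →
    (fun a b : U => α a b) ∈ BKND.B2 (actA ((cyL p l).comp U.subtype)) := by
  intro α hα
  obtain ⟨c, m, hc⟩ := approx hr (inv α)
  have h1 : α - c • sc κ (fun g => lam (cyL p l g)) m ∈ BKND.Z2 (actA (cyL p l)) :=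
    sub_mem hα (nsmul_mem (hZ m) c)
  have h2 : α - c • sc κ (fun g => lam (cyL p l g)) m ∈ BKND.B2 (actA (cyL p l)) := by
    rw [← hinv _ h1, map_sub, map_nsmul, hf, hc, sub_self]
  obtain ⟨β, ⟨W, hW, hW'⟩, hβ⟩ := h2
  refine ⟨m, fun M hM U hU => ⟨fun u => β u, ⟨W.comap U.subtype, ?_, fun g w hw => ?_⟩,
    fun a b => ?_⟩⟩
  · exact hW.preimage continuous_subtype_val
  · exact hW' _ _ hw
  · have e1 := hβ a b
    have e2 : sc κ (fun g => lam (cyL p l g)) m (a : GQ l) (b : GQ l) = 0 := by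
      change cl p (((κ (a : GQ l) * (fun g => lam (cyL p l g)) (b : GQ l) : ℤ_[p]) : ℚ_[p]) /
        (p : ℚ_[p]) ^ m) = 0
      exact sc_zero (κ := κ) (θ := fun g => lam (cyL p l g)) (g := (a : GQ l)) (h := (b : GQ l))
        ((pow_dvd_pow _ hM).trans ((hU b).1 b.2))
    rw [Pi.sub_apply, Pi.sub_apply, Pi.smul_apply, Pi.smul_apply, e2, smul_zero, sub_zero] at e1
    exact e1

/-- the Galois group of `ℚ_l` is nonarchimedean -/
theorem nonarch (l : ℕ) [Fact l.Prime] : NonarchimedeanGroup (GQ l) where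
  is_nonarchimedean := by
    intro U hU
    rw [krullTopology_mem_nhds_one_iff] at hU
    obtain ⟨E, hE, hEU⟩ := hU
    exact ⟨⟨E.fixingSubgroup, E.fixingSubgroup_isOpen⟩, hEU⟩

/-- a logarithm does not vanish at natural numbers greater than one -/
theorem lam_ne (h : BKLoc2.StLam) (hp : p ≠ 2) {lam : ℤ_[p]ˣ → ℤ_[p]} (hlam : IsLam lam)
    {u : ℤ_[p]ˣ} {a : ℕ} (hu : ((u : ℤ_[p]ˣ) : ℤ_[p]) = a) (ha : 1 < a) : lam u ≠ 0 := by
  intro h0
  obtain ⟨-, h'⟩ := h p hp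
  obtain ⟨-, -, l3, -⟩ := h' lam hlam
  rw [l3] at h0
  have e := congrArg (fun v : ℤ_[p]ˣ => (v : ℤ_[p])) h0
  simp only [Units.val_pow_eq_pow_val, hu, Units.val_one] at e
  have e' : a ^ (p - 1) = 1 := by exact_mod_cast e
  rcases pow_eq_one_iff.1 e' with h1 | h1
  · omega
  · have := (Fact.out : p.Prime).two_le
    omega

end KLAux

open KLAux

/-- Module KL: classes of `ℚ_l` vanish far up in the cyclotomic extension. -/
theorem stKL (h1 : BKLoc2.StInvL) (h2 : BKLoc2.StSC) (h3 : BKLoc2.StKPE) (h4 : StCY)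
    (h5 : BKLoc2.StLam) : StKL := by
  intro p l _ _ hp lam hlam
  have hna := nonarch l
  obtain ⟨⟨z, hz⟩, -⟩ := h4 p ℚ_[l] (PadicAlgCl l) ℚ_[l] (PadicAlgCl l)
  obtain ⟨hc, -, k1, k2, -, -⟩ := h3 p ℚ_[l] (PadicAlgCl l) (GQ l) (MonoidHom.id (GQ l))
    continuous_id z hz
  have hθ : IsHom (fun g : GQ l => lam (cyL p l g)) :=
    ⟨hlam.cont.comp hc, fun g h => by rw [map_mul, hlam.mul]⟩
  obtain ⟨s1, -⟩ := h2 p (GQ l) (cyL p l) hc _ hθ
  have hK : ∀ a : ℚ_[l], a ≠ 0 → ∃ κ : GQ l → ℤ_[p], IsKP (MonoidHom.id (GQ l)) z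
      (algebraMap ℚ_[l] (PadicAlgCl l) a) κ ∧
      ∀ m, sc κ (fun g => lam (cyL p l g)) m ∈ BKND.Z2 (actA (cyL p l)) := by
    intro a ha
    have ha' : algebraMap ℚ_[l] (PadicAlgCl l) a ≠ 0 := by simpa using ha
    obtain ⟨κ, hκ⟩ := k1 _ ha' (fun v => AlgEquiv.commutes v _)
    exact ⟨κ, hκ, s1 κ (k2 _ _ ha' hκ)⟩
  by_cases hlp : l = p
  · subst hlp
    obtain ⟨inv, i1, i2⟩ := h1.2 l hp lam hlam z hz
    have hn : ‖((1 + l : ℕ) : ℤ_[l])‖ = 1 := by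
      have h := PadicInt.norm_add_eq_max_of_ne (p := l) (q := (1 : ℤ_[l])) (r := (l : ℤ_[l]))
        (by
          rw [norm_one, PadicInt.norm_p]
          exact (inv_lt_one_of_one_lt₀
            (by exact_mod_cast (Fact.out : l.Prime).one_lt)).ne')
      push_cast
      rw [h, norm_one, PadicInt.norm_p, max_eq_left]
      exact (inv_lt_one_of_one_lt₀
            (by exact_mod_cast (Fact.out : l.Prime).one_lt)).le
    obtain ⟨u, hu⟩ := PadicInt.isUnit_iff.2 hn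
    have hu0 : (((u : ℤ_[l]ˣ) : ℤ_[l]) : ℚ_[l]) ≠ 0 := by
      intro h
      exact Units.ne_zero u (PadicInt.ext h)
    obtain ⟨κ, hκ, hZ⟩ := hK _ hu0
    have hru : lam u ≠ 0 := lam_ne h5 hp hlam hu (by
      have := (Fact.out : l.Prime).one_lt
      omega)
    refine fin inv i1 κ hZ (r := -lam u) (neg_ne_zero.2 hru) (fun m => ?_)
    exact i2 _ u 0 (by simp) κ hκ m
  · have hn : ‖((l : ℕ) : ℤ_[p])‖ = 1 := by
      have h := PadicInt.norm_int_lt_one_iff_dvd (p := p) (l : ℤ)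
      have h' : ¬ (p : ℤ) ∣ (l : ℤ) := by
        rw [Int.natCast_dvd_natCast, Nat.prime_dvd_prime_iff_eq (Fact.out : p.Prime)
          (Fact.out : l.Prime)]
        exact fun e => hlp e.symm
      have h3 := h.not.2 h'
      push_cast at h3
      exact le_antisymm (PadicInt.norm_le_one _) (not_lt.1 h3)
    obtain ⟨u, hu⟩ := PadicInt.isUnit_iff.2 hn
    obtain ⟨inv, i1, i2⟩ := h1.1 p l hp hlp lam hlam u hu z hz
    have hl0 : (l : ℚ_[l]) ≠ 0 := by exact_mod_cast (Fact.out : l.Prime).ne_zero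
    obtain ⟨κ, hκ, hZ⟩ := hK _ hl0
    have hru : lam u ≠ 0 := lam_ne h5 hp hlam hu (Fact.out : l.Prime).one_lt
    refine fin inv i1 κ hZ hru (fun m => ?_)
    have e := i2 _ hl0 κ hκ m
    rw [e, Padic.valuation_p]
    simp

end BKGlob2
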