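import Pool.Agent.Lib.MP_7c08ba_nt.Met.HStmts

set_option autoImplicit false

/-! Module LI: the local invariants. -/

noncomputable section

namespace BKGlob2

open BKLoc2 (cl sc im cy cyL Sys IsKP IsLam IsHom StLoc hq ht PP)
open BKMet (QZ actA kch Rel GF GQ cycF cycL IsConj RS GS Pl Splits pb1 pb2 LocAx GlobAx StArith)

namespace LIAux

variable {p : ℕ} [Fact p.Prime]

theorem cl_add (x y : ℚ_[p]) : cl p (x + y) = cl p x + cl p y := rfl

theorem pp_ne : (p : ℚ_[p]) ≠ 0 := by exact_mod_cast (Fact.out : p.Prime).ne_zero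

/-- every nonzero element is a unit times a power of `p` -/
theorem exists_unit {a : ℚ_[p]} (ha : a ≠ 0) :
    ∃ (u : ℤ_[p]ˣ) (i : ℤ), a = ((u : ℤ_[p]ˣ) : ℤ_[p]) * (p : ℚ_[p]) ^ i := by
  have h1 : ‖a * (p : ℚ_[p]) ^ (-a.valuation)‖ = 1 := by
    rw [norm_mul, Padic.norm_p_zpow, Padic.norm_eq_zpow_neg_valuation ha, neg_neg, ← zpow_add₀
      (by exact_mod_cast (Fact.out : p.Prime).ne_zero), neg_add_cancel, zpow_zero]
  refine ⟨PadicInt.mkUnits h1, a.valuation, ?_⟩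
  rw [PadicInt.mkUnits_eq, mul_assoc, ← zpow_add₀ pp_ne, neg_add_cancel, zpow_zero, mul_one]

theorem unit_eq {u v : ℤ_[p]ˣ} {i j : ℤ}
    (h : (((u : ℤ_[p]ˣ) : ℤ_[p]) : ℚ_[p]) * (p : ℚ_[p]) ^ i =
      ((v : ℤ_[p]ˣ) : ℤ_[p]) * (p : ℚ_[p]) ^ j) : u = v := by
  have h1 := congrArg norm h
  have n1 : ∀ w : ℤ_[p]ˣ, ‖(((w : ℤ_[p]ˣ) : ℤ_[p]) : ℚ_[p])‖ = 1 := fun w => by
    rw [← PadicInt.norm_def]
    exact PadicInt.norm_units w
  rw [norm_mul, norm_mul, n1, n1, one_mul, one_mul, Padic.norm_p_zpow, Padic.norm_p_zpow] at h1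
  have h2 : (1 : ℝ) < p := by exact_mod_cast (Fact.out : p.Prime).one_lt
  have h3 : -i = -j := zpow_right_injective₀ (by positivity) h2.ne' h1
  have h4 : i = j := by omega
  subst h4
  have h5 := mul_right_cancel₀ (zpow_ne_zero i pp_ne) h
  exact Units.ext (Subtype.coe_injective h5)

/-- the unit given by a prime `l ≠ p` -/
theorem exists_prime_unit {l : ℕ} (hl : l.Prime) (h : l ≠ p) :
    ∃ u : ℤ_[p]ˣ, ((u : ℤ_[p]ˣ) : ℤ_[p]) = l := by
  have hu : IsUnit (l : ℤ_[p]) := by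
    rw [PadicInt.isUnit_iff, PadicInt.norm_natCast_eq_one_iff]
    exact (Nat.coprime_primes (Fact.out : p.Prime) hl).2 h.symm
  exact ⟨hu.unit, rfl⟩

end LIAux

open LIAux in
theorem stLI (h : StLoc) : StLI := by
  intro p _ hp lam hlam l _ z hz
  by_cases hl : l = p
  · subst hl
    obtain ⟨inv, h1, h2⟩ := h.2 l hp lam hlam z hz
    refine ⟨inv, ?_, h1.inv_eq, fun h' => absurd rfl h', ?_⟩
    · rw [if_pos rfl]
      exact h1
    · intro _ u a a₁ a₂ ha ha0 hu κ₁ κ₂ hκ₁ hκ₂ m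
      have ha0' : (a : ℚ_[l]) ≠ 0 := by exact_mod_cast ha0
      have n1 : a₁ ≠ 0 := fun h0 => ha0' (by rw [← ha, h0, zero_mul])
      have n2 : a₂ ≠ 0 := fun h0 => ha0' (by rw [← ha, h0, mul_zero])
      obtain ⟨u₁, i₁, e₁⟩ := exists_unit n1
      obtain ⟨u₂, i₂, e₂⟩ := exists_unit n2
      have e3 : u₁ * u₂ = u := by
        refine unit_eq (i := i₁ + i₂) (j := padicValRat l a) ?_
        rw [← hu, ← ha, e₁, e₂, zpow_add₀ pp_ne]
        push_cast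
        ring
      rw [h2 a₁ u₁ i₁ e₁ κ₁ hκ₁ m, h2 a₂ u₂ i₂ e₂ κ₂ hκ₂ m, ← cl_add, ← e3, hlam.mul]
      congr 1
      push_cast
      ring
  · obtain ⟨u, hu⟩ := exists_prime_unit (Fact.out : l.Prime) hl
    obtain ⟨inv, h1, h2⟩ := h.1 p l hp hl lam hlam u hu z hz
    refine ⟨inv, ?_, h1.inv_eq, ?_, fun h' => absurd h' hl⟩
    · rw [if_neg hl]
      exact h1
    · intro _ v hv a ha κ hκ m
      have : v = u := Units.ext (hv.trans hu.symm)
      rw [this]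
      exact h2 a ha κ hκ m

end BKGlob2
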