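import Pool.Agent.Lib.MP_7c08ba_nt.Met.HStmts
import Pool.Agent.Lib.MP_7c08ba_nt.Odd.Kum
import Pool.Agent.Lib.MP_7c08ba_nt.Odd.L3
import Pool.Agent.Lib.MP_7c08ba_nt.Odd.H90

set_option autoImplicit false

/-!
Module LN: if the product of the Kummer characters of `Y` and `X` vanishes at the place `j` then
`Y` is a local norm.
-/

noncomputable section

namespace BKGlob2

open NumberField IsDedekindDomain BKGen
open BKOdd (Fx IsKum IsNm chm chZ ConjHyp)
open BKLoc2 (cl sc im cy cyL Sys IsKP IsLam IsHom StLoc hq ht PP)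
open BKMet (QZ actA kch Rel GF GQ cycF cycL IsConj RS GS Pl Splits pb1 pb2 LocAx GlobAx StArith)
open BKPar (Loc1 Loc2)

namespace LNAux

variable {k Ω : Type} [Field k] [Field Ω] [Algebra k Ω] {V : Type} [Group V]
  (e : V →* (Ω ≃ₐ[k] Ω)) {l : ℕ} [Fact l.Prime] (j : Ω →+* PadicAlgCl l)

/-- Kummer characters pass to the decomposition group. -/
theorem isKum_loc {p : ℕ} {ζ a : Ω} {χ : V → ZMod p} (h : IsKum e ζ a χ) :
    IsKum (sn e j) (j ζ) (j a) (pb1 (fs e j) χ) := by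
  obtain ⟨y, hy, hya, h1⟩ := h
  refine ⟨j y, (map_ne_zero j).2 hy, by rw [← map_pow, hya], fun d => ?_⟩
  rw [← Cp_rel, h1, map_mul, map_pow]
  rfl

/-- Fixed elements are fixed by the decomposition group. -/
theorem fx_loc {x : Ω} (h : Fx e x) : Fx (sn e j) (j x) := by
  intro d
  rw [← Cp_rel, h]

end LNAux

open LNAux

theorem stLN (hCP : StCP) (hNB : StNB) (hNA1 : StNA1) : StLN := by
  intro p _ k Ω _ _ _ _ _ _ _ V _ _ _ _ _ e he ζ hζ E hE hζE X Y χ ψ hχ hψ l _ j hcup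
  have hp : p.Prime := Fact.out
  obtain ⟨hsn, hfs, hCc, hCn, hC⟩ := hCP k Ω V e he l j
  obtain ⟨hNF, hcomp⟩ := hC E hE
  have hζ' : IsPrimitiveRoot (j ζ) p := hζ.map_of_injective j.injective
  have hζF : Fx (sn e j) (j ζ) := fx_loc e j ((hE ζ).1 hζE)
  set j' : E →+* PadicAlgCl l := j.comp (algebraMap E Ω) with hj'
  have hχ' : IsKum (sn e j) (j ζ) (j ((X : E) : Ω)) (pb1 (fs e j) χ) := isKum_loc e j hχ
  have hψ' : IsKum (sn e j) (j ζ) (j ((Y : E) : Ω)) (pb1 (fs e j) ψ) := isKum_loc e j hψ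
  have hX0 : ((X : E) : Ω) ≠ 0 := by
    intro h
    exact X.ne_zero (Subtype.ext h)
  have hY0 : ((Y : E) : Ω) ≠ 0 := by
    intro h
    exact Y.ne_zero (Subtype.ext h)
  have hXF : Fx (sn e j) (j ((X : E) : Ω)) := fx_loc e j ((hE _).1 (X : E).2)
  have hYF : Fx (sn e j) (j ((Y : E) : Ω)) := fx_loc e j ((hE _).1 (Y : E).2)
  obtain ⟨K1, -, -, K4, K5⟩ := BKOdd.stKum BKOdd.stH90 ℚ_[l] (PadicAlgCl l) (Cp e j) (sn e j) hsn
    p (j ζ) hζ' hζF
  obtain ⟨κ, hκZ, hκ⟩ := K1 _ ((map_ne_zero j).2 hX0) hXF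
  have hκe : κ = pb1 (fs e j) χ := K4 _ _ _ hκ hχ'
  rw [hκe] at hκZ
  have hζC : j ζ ∈ comp l j' := (hcomp _).2 hζF
  by_cases h0 : pb1 (fs e j) χ = 0
  · -- `X` is a `p`-th power locally
    obtain ⟨b, hbF, hb⟩ := (K5 _ _ hχ').1 h0
    have hbC : b ∈ comp l j' := (hcomp _).2 hbF
    have hζ'' : IsPrimitiveRoot (⟨j ζ, hζC⟩ : comp l j') p := by
      apply IsPrimitiveRoot.of_map_of_injective (f := algebraMap (comp l j') (PadicAlgCl l))
      · exact hζ'
      · exact (algebraMap (comp l j') (PadicAlgCl l)).injective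
    refine hNA1 p hp (comp l j') ⟨j ζ, hζC⟩ hζ'' (toU j' X) (toU j' Y) ⟨⟨b, hbC⟩, ?_⟩
    apply Subtype.ext
    exact hb
  · -- `X` is not a `p`-th power locally
    obtain ⟨s, hs⟩ : ∃ s, pb1 (fs e j) χ s ≠ 0 := by
      by_contra hcon
      push Not at hcon
      exact h0 (funext hcon)
    set χ' : Cp e j → ZMod p := pb1 (fs e j) χ with hχ'def
    have hadd : ∀ g h, χ' (g * h) = χ' g + χ' h := fun g h => by
      have := hκZ.2 g h
      simpa only [MonoidHom.one_apply, one_mul] using this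
    have hone : χ' 1 = 0 := by
      have h1 := hadd 1 1
      rw [mul_one] at h1
      exact left_eq_add.1 h1
    have hpow : ∀ (g : Cp e j) (n : ℕ), χ' (g ^ n) = n * χ' g := by
      intro g n
      induction n with
      | zero => rw [pow_zero, hone, Nat.cast_zero, zero_mul]
      | succ n ih => rw [pow_succ, hadd, ih]; push_cast; ring
    let H : Subgroup (Cp e j) :=
      { carrier := {g | χ' g = 0}
        one_mem' := hone
        mul_mem' := by
          intro a b ha hb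
          change χ' (a * b) = 0
          rw [hadd, show χ' a = 0 from ha, show χ' b = 0 from hb, add_zero]
        inv_mem' := by
          intro a ha
          change χ' a⁻¹ = 0
          have h1 := hadd a a⁻¹
          rw [mul_inv_cancel, hone, show χ' a = 0 from ha, zero_add] at h1
          exact h1.symm }
    have hH : ∀ g, g ∈ H ↔ χ' g = 0 := fun g => Iff.rfl
    let σ : Cp e j := s ^ (χ' s)⁻¹.val
    have hσ : χ' σ = 1 := by
      change χ' (s ^ (χ' s)⁻¹.val) = 1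
      rw [hpow, ZMod.natCast_val, ZMod.cast_id]
      exact inv_mul_cancel₀ hs
    have h3 := BKOdd.stL3 BKOdd.stH90 (BKOdd.stKum BKOdd.stH90) ℚ_[l] (PadicAlgCl l) (Cp e j)
      (sn e j) hsn p (j ζ) hζ' hζF χ' hκZ H hH σ hσ (j ((Y : E) : Ω)) ((map_ne_zero j).2 hY0) hYF
      (pb1 (fs e j) ψ) hψ'
    have h4 : IsNm (sn e j) p H σ (j ((Y : E) : Ω)) := h3.1 hcup
    exact (hNB p ℚ_[l] (PadicAlgCl l) (Cp e j) (sn e j) hsn (j ζ) hζ' (comp l j') hcomp hζC
      (toU j' X) (toU j' Y) χ' hχ' H hH σ hσ).1 h4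

end BKGlob2
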