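import Pool.Agent.Lib.MP_7c08ba_nt.Met.HStmts
import Pool.Agent.Lib.MP_7c08ba_nt.Met.LZ1A
import Pool.Agent.Lib.MP_7c08ba_nt.Met.LKPE
import Pool.Agent.Lib.MP_7c08ba_nt.Met.LPA
import Pool.Agent.Lib.MP_7c08ba_nt.Odd.L1

set_option autoImplicit false
set_option linter.overlappingInstances false

/-!
Module LX: classes which vanish on the kernel of `θ` modulo `p ^ M` are products of a Kummer
cocycle with `θ / p ^ M`.
-/

noncomputable section

namespace BKGlob2

open Topology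
open BKOdd (Fx Smooth)
open BKLoc2 (cl sc cy Sys IsKP IsHom)
open BKMet (QZ actA)
open BKPar (Loc1 Loc2)
open BKLoc2.SCAux BKLoc2.Z1AAux
open BKOdd.L1 (act act_val ext_val ix hp ix_lt hp_mul chi_hp ix_ker hp_ker ix_mul chi_inv chi_one)

namespace LXM

/-! ### the embedding of `ℚ_p / ℤ_p` into the multiplicative group -/

section Th

variable {p : ℕ} [Fact p.Prime]

theorem fm_up (n j : ℕ) (b : ℤ_[p]) : fm (n + j) ((p : ℤ_[p]) ^ j * b) = fm n b := by
  have h0 : (p : ℚ_[p]) ≠ 0 := by exact_mod_cast (Fact.out : p.Prime).ne_zero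
  unfold fm
  congr 1
  push_cast
  rw [pow_add]
  field_simp

theorem exists_common (x y : QZ p) : ∃ (n : ℕ) (b c : ℤ_[p]), x = fm n b ∧ y = fm n c := by
  obtain ⟨n, hn⟩ := exists_kill x
  obtain ⟨m, hm⟩ := exists_kill y
  obtain ⟨b, hb⟩ := exists_fm (kill_mono hn (le_max_left n m))
  obtain ⟨c, hc⟩ := exists_fm (kill_mono hm (le_max_right n m))
  exact ⟨max n m, b, c, hb, hc⟩

variable {Ω : Type} [Field Ω] {z : ℕ → Ω} (hz : Sys p z)

include hz

theorem Zx_natMul (n i : ℕ) (x : ℤ_[p]) : Zx z n ((i : ℤ_[p]) * x) = Zx z n x ^ i := by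
  induction i with
  | zero => rw [Nat.cast_zero, zero_mul, Zx_zero, pow_zero]
  | succ i ih => rw [Nat.cast_succ, add_mul, one_mul, Zx_add hz, ih, pow_succ]

theorem Zx_up (n j : ℕ) (b : ℤ_[p]) : Zx z (n + j) ((p : ℤ_[p]) ^ j * b) = Zx z n b := by
  induction j with
  | zero => rw [pow_zero, one_mul, add_zero]
  | succ j ih =>
    have h1 := Zx_succ hz (n + j) ((p : ℤ_[p]) ^ j * b)
    rw [← Zx_natMul hz, ← mul_assoc, ← pow_succ', ih] at h1
    exact h1

theorem Zx_wd {n m : ℕ} {b c : ℤ_[p]} (h : fm n b = fm m c) : Zx z n b = Zx z m c := by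
  rw [← Zx_up hz n m b, ← Zx_up hz m n c, add_comm m n]
  apply Zx_congr
  rw [fm_up, h, add_comm n m, fm_up]

omit hz in
theorem exists_rep (x : QZ p) : ∃ w : ℕ × ℤ_[p], x = fm w.1 w.2 := by
  obtain ⟨n, b, _, hb, _⟩ := exists_common x x
  exact ⟨⟨n, b⟩, hb⟩

/-- the embedding -/
def th : QZ p →+ Additive Ωˣ where
  toFun x := Additive.ofMul (Units.mk0 (Zx z (exists_rep x).choose.1 (exists_rep x).choose.2)
    (Zx_ne hz _ _))
  map_zero' := by
    apply ext_val
    have h1 : fm 0 (0 : ℤ_[p]) = 0 := fm_dvd (by simp)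
    have h2 := Zx_wd hz (h1.trans (exists_rep (0 : QZ p)).choose_spec)
    change Zx z _ _ = 1
    rw [← h2, Zx_zero]
  map_add' x y := by
    apply ext_val
    obtain ⟨n, b, c, hb, hc⟩ := exists_common x y
    have h1 := Zx_wd hz (hb.symm.trans (exists_rep x).choose_spec)
    have h2 := Zx_wd hz (hc.symm.trans (exists_rep y).choose_spec)
    have h3 : fm n (b + c) = x + y := by rw [fm_add, ← hb, ← hc]
    have h4 := Zx_wd hz (h3.trans (exists_rep (x + y)).choose_spec)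
    change Zx z _ _ = Zx z _ _ * Zx z _ _
    rw [← h1, ← h2, ← h4, Zx_add hz]

theorem th_fm (n : ℕ) (b : ℤ_[p]) : ((th hz (fm n b)).toMul : Ω) = Zx z n b :=
  (Zx_wd hz (exists_rep (fm n b)).choose_spec).symm

theorem th_inj {x y : QZ p} (h : th hz x = th hz y) : x = y := by
  obtain ⟨n, b, c, rfl, rfl⟩ := exists_common x y
  apply Zx_inj hz
  rw [← th_fm hz, ← th_fm hz, h]

theorem th_surj {N : ℕ} {x : Additive Ωˣ} (h : p ^ N • x = 0) : ∃ c, th hz c = x := by
  have h1 : ((x.toMul : Ω)) ^ p ^ N = 1 := by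
    have := congrArg (fun y : Additive Ωˣ => (y.toMul : Ω)) h
    simpa using this
  obtain ⟨i, -, hi'⟩ := (hz.prim N).eq_pow_of_pow_eq_one h1
  refine ⟨fm N (i : ℤ_[p]), ext_val ?_⟩
  rw [th_fm, Zx_nat hz, hi']

end Th

section Act

variable {p : ℕ} [Fact p.Prime] {k Ω : Type} [Field k] [Field Ω] [Algebra k Ω] [IsAlgClosed Ω]
  [CharZero Ω] {V : Type} [Group V] {e : V →* (Ω ≃ₐ[k] Ω)} {z : ℕ → Ω} (hz : Sys p z)

theorem act_th (g : V) (x : QZ p) :
    act e g (th hz x) = th hz (actA ((cy p k Ω).comp e) g x) := by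
  obtain ⟨n, b, _, rfl, _⟩ := exists_common x x
  apply ext_val
  rw [act_val, th_fm, BKMet.actA_apply, fm_smul, th_fm]
  unfold Zx
  rw [map_pow, BKLoc2.KPEAux.cy_spec hz (e g) n, map_mul]
  exact (BKLoc2.KPEAux.sys_mul hz n _ _).symm

end Act

/-! ### smoothness -/

section Smth

variable {V : Type} [Group V] [TopologicalSpace V] [IsTopologicalGroup V] {n : ℕ} [NeZero n]
  {χ : V → ZMod n} {s : V}

/-- conjugates by the powers of `s` -/
theorem exists_conj (hχ : ∀ g h, χ (g * h) = χ g + χ h) {H : Subgroup V}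
    (hH : ∀ g, g ∈ H ↔ χ g = 0) (hHo : IsOpen (H : Set V)) (W : Subgroup V)
    (hW : IsOpen (W : Set V)) :
    ∃ U : Subgroup V, IsOpen (U : Set V) ∧ ∀ g, ∀ u ∈ U, ix χ (g * u) = ix χ g ∧
      ∃ w ∈ W, hp χ s (g * u) = hp χ s g * w := by
  have h1 : ∀ i : ℕ, IsOpen ((W.comap (MulAut.conj (s ^ i)).toMonoidHom : Subgroup V) : Set V) :=
    fun i => hW.preimage ((continuous_const.mul continuous_id).mul continuous_const)
  refine ⟨(⨅ i ∈ Finset.range n, W.comap (MulAut.conj (s ^ i)).toMonoidHom) ⊓ H, ?_, ?_⟩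
  · have h2 : (((⨅ i ∈ Finset.range n, W.comap (MulAut.conj (s ^ i)).toMonoidHom) ⊓ H :
        Subgroup V) : Set V) =
        (⋂ i ∈ Finset.range n, ((W.comap (MulAut.conj (s ^ i)).toMonoidHom : Subgroup V) :
          Set V)) ∩ H := by
      simp
    rw [h2]
    exact (isOpen_biInter_finset fun i _ => h1 i).inter hHo
  · intro g u hu
    have hui : ∀ i < n, s ^ i * u * (s ^ i)⁻¹ ∈ W := by
      intro i hi
      have h2 := (Subgroup.mem_inf.mp hu).1
      rw [Subgroup.mem_iInf] at h2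
      have h3 := h2 i
      rw [Subgroup.mem_iInf] at h3
      exact h3 (Finset.mem_range.mpr hi)
    have hχu : χ (g * u) = χ g := by
      rw [hχ, (hH u).1 (Subgroup.mem_inf.mp hu).2, add_zero]
    have hix : ix χ (g * u) = ix χ g := by
      unfold ix
      rw [hχu]
    refine ⟨hix, s ^ ix χ g * u * (s ^ ix χ g)⁻¹, hui _ (ix_lt g), ?_⟩
    unfold hp
    rw [hix]
    group

/-- a function of `hp g` and `ix g` -/
theorem smooth_hp (hχ : ∀ g h, χ (g * h) = χ g + χ h) {H : Subgroup V}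
    (hH : ∀ g, g ∈ H ↔ χ g = 0) (hHo : IsOpen (H : Set V)) {X : Type*} (f : V → ℕ → X)
    (W : Subgroup V) (hW : IsOpen (W : Set V))
    (hf : ∀ g, ∀ w ∈ W, ∀ i < n, f (g * w) i = f g i) :
    Smooth fun g => f (hp χ s g) (ix χ g) := by
  obtain ⟨U, hU, hU'⟩ := exists_conj (s := s) hχ hH hHo W hW
  refine ⟨U, hU, fun g u hu => ?_⟩
  obtain ⟨h1, w, hw, h2⟩ := hU' g u hu
  show f (hp χ s (g * u)) (ix χ (g * u)) = f (hp χ s g) (ix χ g)
  rw [h1, h2, hf _ w hw _ (ix_lt g)]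

end Smth

/-! ### step one -/

section StepOne

variable {V : Type} [Group V] [TopologicalSpace V] [IsTopologicalGroup V] [CompactSpace V]
  [NonarchimedeanGroup V] {n : ℕ} [NeZero n] {χ : V → ZMod n} {s : V} {A : Type} [AddCommGroup A] {ρ : V →* AddMonoid.End A}

theorem step_one (hχ : ∀ g h, χ (g * h) = χ g + χ h) (hs : χ s = 1)
    (H : Subgroup V) (hH : ∀ g, g ∈ H ↔ χ g = 0) (hHo : IsOpen (H : Set V))
    (hsm : ∀ F : V → A, Loc1 F → Loc2 fun g h => ρ g (F h)) {z : V → V → A}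
    (hz : z ∈ BKND.Z2 ρ) (hzH : (fun a b : H => z a b) ∈ BKND.B2 (ρ.comp H.subtype)) :
    ∃ z₁ ∈ BKND.Z2 ρ, z - z₁ ∈ BKND.B2 ρ ∧ ∀ h g, χ h = 0 → z₁ h g = 0 := by
  obtain ⟨β, hβc, hβ⟩ := hzH
  have hcoc : ∀ g h k, ρ g (z h k) - z (g * h) k + z g (h * k) - z g h = 0 := hz.2
  have hβ' : ∀ a b : H, z a b = ρ a (β b) - β (a * b) + β a := hβ
  have hmem : ∀ g, hp χ s g ∈ H := fun g => (hH _).mpr (chi_hp hχ hs g)
  obtain ⟨F, hF⟩ : ∃ F : V → A, ∀ g, F g =
      β ⟨hp χ s g, hmem g⟩ - z (hp χ s g) (s ^ ix χ g) + z 1 1 := ⟨_, fun _ => rfl⟩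
  have hFs : Loc1 F := by
    classical
    obtain ⟨W₁, hW₁, hW₁'⟩ := hβc
    obtain ⟨W₂, hW₂, hW₂'⟩ := hz.1
    have e1 : F = fun g => (fun (g : V) (i : ℕ) =>
        (if h : g ∈ H then β ⟨g, h⟩ else 0) - z g (s ^ i) + z 1 1) (hp χ s g) (ix χ g) := by
      funext g
      rw [hF]
      simp only
      rw [dif_pos (hmem g)]
    rw [e1]
    refine smooth_hp hχ hH hHo (fun (g : V) (i : ℕ) =>
        (if h : g ∈ H then β ⟨g, h⟩ else 0) - z g (s ^ i) + z 1 1) (W₁.map H.subtype ⊓ W₂) ?_ ?_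
    · rw [Subgroup.coe_inf]
      refine IsOpen.inter ?_ hW₂
      rw [Subgroup.coe_map]
      exact hHo.isOpenMap_subtype_val _ hW₁
    · intro g w hw i _
      obtain ⟨⟨v, hv, rfl⟩, hw2⟩ := hw
      have h2 : z (g * H.subtype v) (s ^ i) = z g (s ^ i) := by
        have := hW₂' g (s ^ i) _ hw2 1 W₂.one_mem
        rwa [mul_one] at this
      rw [h2]
      by_cases hg : g ∈ H
      · have h3 : g * H.subtype v ∈ H := H.mul_mem hg v.2
        rw [dif_pos hg, dif_pos h3]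
        have h4 := hW₁' ⟨g, hg⟩ v hv
        have h5 : (⟨g * H.subtype v, h3⟩ : H) = ⟨g, hg⟩ * v := rfl
        rw [h5, h4]
      · have h3 : g * H.subtype v ∉ H := fun h => hg (by
          have := H.mul_mem h (H.inv_mem v.2)
          rwa [Subgroup.subtype_apply, mul_inv_cancel_right] at this)
        rw [dif_neg hg, dif_neg h3]
  have hB : (fun g h => ρ g (F h) - F (g * h) + F g) ∈ BKND.B2 ρ := ⟨F, hFs, fun g h => rfl⟩
  have hBZ : (fun g h => ρ g (F h) - F (g * h) + F g) ∈ BKND.Z2 ρ := by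
    refine ⟨?_, fun g h k => ?_⟩
    · exact BKND.Loc2.map2 (BKND.Loc2.map2 (hsm F hFs) (BKND.loc2_mul hFs) (· - ·))
        (BKND.loc2_left hFs) (· + ·)
    · simp only [map_add, map_sub, BKND.act_mul, mul_assoc]
      abel
  refine ⟨z - (fun g h => ρ g (F h) - F (g * h) + F g), (BKND.Z2 ρ).sub_mem hz hBZ, ?_, ?_⟩
  · rw [sub_sub_cancel]
    exact hB
  · intro h g h0
    have hh : h ∈ H := (hH h).mpr h0
    have hix : ix χ h = 0 := by
      unfold ix
      rw [h0, ZMod.val_zero]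
    have hhp : hp χ s h = h := by
      unfold hp
      rw [hix, pow_zero, inv_one, mul_one]
    have hz1 : z h 1 = ρ h (z 1 1) := by
      have := hcoc h 1 1
      rw [mul_one, mul_one, sub_add_cancel] at this
      exact (sub_eq_zero.1 this).symm
    have e1 : F h = β ⟨h, hh⟩ - ρ h (z 1 1) + z 1 1 := by
      have e2 : β ⟨hp χ s h, hmem h⟩ = β ⟨h, hh⟩ := by
        congr 1
        exact Subtype.ext hhp
      rw [hF, e2, hhp, hix, pow_zero, hz1]
    have e3 : F (h * g) = β (⟨h, hh⟩ * ⟨hp χ s g, hmem g⟩) -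
        z (h * hp χ s g) (s ^ ix χ g) + z 1 1 := by
      have e2 : β ⟨hp χ s (h * g), hmem (h * g)⟩ = β (⟨h, hh⟩ * ⟨hp χ s g, hmem g⟩) := by
        congr 1
        exact Subtype.ext (hp_ker hχ h0 g)
      rw [hF, e2, hp_ker hχ h0, ix_ker hχ h0]
    have e4 := hβ' ⟨h, hh⟩ ⟨hp χ s g, hmem g⟩
    have e5 := hcoc h (hp χ s g) (s ^ ix χ g)
    rw [hp_mul] at e5
    simp only [Pi.sub_apply]
    rw [e1, e3, hF g, map_add, map_sub]
    have e6 : z h g = z h (hp χ s g) + z (h * hp χ s g) (s ^ ix χ g) -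
        ρ h (z (hp χ s g) (s ^ ix χ g)) := by
      rw [← sub_eq_zero, ← e5]
      abel
    rw [e6]
    simp only at e4
    rw [e4]
    abel

end StepOne

end LXM

open LXM

/-- Module LX: classes which vanish on the kernel of `θ` modulo `p ^ M` are products of a Kummer
cocycle with `θ / p ^ M`. -/
theorem stLX : StLX := by
  intro p _ k Ω _ _ _ _ _ _ V _ _ _ _ _ e he z hz θ hθ s hs M H hH α hα hαH
  have hpp : p.Prime := Fact.out
  have hne : NeZero (p ^ M) := ⟨pow_ne_zero _ hpp.ne_zero⟩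
  obtain ⟨ch, hch⟩ : ∃ ch : V →* ℤ_[p]ˣ, ch = (cy p k Ω).comp e := ⟨_, rfl⟩
  have hchc : Continuous ch := by
    rw [hch]
    exact (cyclotomicCharacter.continuous p k Ω).comp he.continuous
  have hat : ∀ g x, act e g (th hz x) = th hz (actA ch g x) := fun g x => by
    rw [hch]
    exact act_th hz g x
  -- the character modulo `p ^ M`
  obtain ⟨χ, hχd⟩ : ∃ χ : V → ZMod (p ^ M), ∀ g, χ g = PadicInt.toZModPow M (θ g) :=
    ⟨_, fun _ => rfl⟩
  have hχ : ∀ g h, χ (g * h) = χ g + χ h := fun g h => by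
    rw [hχd, hχd, hχd, hθ.mul, map_add]
  have hχs : χ s = 1 := by rw [hχd, hs, map_one]
  have hHχ : ∀ g, g ∈ H ↔ χ g = 0 := fun g => by rw [hH, dvd_iff, hχd]
  have hHo : IsOpen (H : Set V) := by
    obtain ⟨W, hW, hW'⟩ := BKND.Red.loc1_of_continuous (f := θ) hθ.cont M id
    refine Subgroup.isOpen_mono (H₁ := W) ?_ hW
    intro w hw
    rw [hHχ, hχd]
    have h1 : PadicInt.toZModPow M (θ (1 * w)) = PadicInt.toZModPow M (θ 1) := hW' 1 w hw
    have h2 : θ 1 = 0 := by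
      have := hθ.mul 1 1
      rw [mul_one] at this
      exact left_eq_add.mp this
    rw [one_mul, h2, map_zero] at h1
    exact h1
  have hlr : ∀ g, (ix χ g : ZMod (p ^ M)) = PadicInt.toZModPow M (θ g) := fun g => by
    unfold ix
    rw [hχd, ZMod.natCast_zmod_val]
  have heH : IsOpenEmbedding (e.comp H.subtype) := BKOdd.L1.open_sub he H hHo
  rw [← hch] at hα
  have hαH' : (fun a b : H => α a b) ∈ BKND.B2 ((actA ch).comp H.subtype) := by
    rw [hch]
    exact hαH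
  -- step 1
  obtain ⟨α₁, hα₁, hαα₁, hl₁⟩ := step_one hχ hχs H hHχ hHo
    (fun F hF => BKLoc2.PAAux.loc2_actA hchc hF) hα hαH'
  have hcoc₁ : ∀ g h k, actA ch g (α₁ h k) + α₁ g (h * k) = α₁ (g * h) k + α₁ g h := by
    intro g h k
    rw [← sub_eq_zero, ← hα₁.2 g h k]
    abel
  -- step 2: Hilbert 90 on `H`
  have hw : ∀ g, ∃ w, ∀ h, χ h = 0 → th hz (α₁ g h) = act e g (act e h w) - act e g w := by
    intro g
    obtain ⟨f, hf⟩ : ∃ f : V → QZ p, ∀ h, f h = actA ch g⁻¹ (α₁ g h) := ⟨_, fun _ => rfl⟩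
    have hfc : ∀ h, χ h = 0 → ∀ k, χ k = 0 → f (h * k) = f h + actA ch h (f k) := by
      intro h h0 k k0
      have h6 : χ (g * h * g⁻¹) = 0 := by
        rw [hχ, hχ, chi_inv hχ, h0]
        ring
      have h7 := hcoc₁ (g * h * g⁻¹) g k
      rw [hl₁ _ _ h6, hl₁ _ _ h6, inv_mul_cancel_right, add_zero, add_zero] at h7
      have h8 := hcoc₁ g h k
      rw [hl₁ h k h0, map_zero, zero_add, ← h7] at h8
      rw [hf, h8, map_add, hf, hf, ← BKND.act_mul, ← BKND.act_mul, add_comm]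
      congr 3
      group
    obtain ⟨w, hw0, hw⟩ := BKOdd.stH90 k Ω H (e.comp H.subtype) heH
      (fun v => ((th hz (f v)).toMul : Ω)) (fun v => Units.ne_zero _)
      (by
        obtain ⟨W, hW, hW'⟩ := hα₁.1
        refine ⟨W.comap H.subtype, hW.preimage continuous_subtype_val, fun v u hu => ?_⟩
        have h1 : f ((v * u : H) : V) = f v := by
          rw [hf, hf]
          congr 1
          have := hW' g v 1 W.one_mem u hu
          rwa [mul_one] at this
        exact congrArg (fun x => ((th hz x).toMul : Ω)) h1)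
      (fun v w => by
        have h1 := hfc v ((hHχ _).1 v.2) w ((hHχ _).1 w.2)
        change ((th hz (f (v * w))).toMul : Ω) = _
        rw [h1, map_add, ← hat, toMul_add, Units.val_mul, act_val]
        rfl)
    refine ⟨Additive.ofMul (Units.mk0 w hw0), fun h h0 => ?_⟩
    have h2 : th hz (f h) + Additive.ofMul (Units.mk0 w hw0) =
        act e h (Additive.ofMul (Units.mk0 w hw0)) := by
      apply ext_val
      rw [toMul_add, Units.val_mul, act_val]
      exact hw ⟨h, (hHχ h).mpr h0⟩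
    have h3 : th hz (f h) = act e h (Additive.ofMul (Units.mk0 w hw0)) -
        Additive.ofMul (Units.mk0 w hw0) := by
      rw [← h2, add_sub_cancel_right]
    have h4 : α₁ g h = actA ch g (f h) := by
      rw [hf, ← BKND.act_mul, mul_inv_cancel, BKND.act_one]
    rw [h4, ← hat, h3, map_sub]
  obtain ⟨Y, c, E, hY, hmain⟩ := BKOdd.L1.step_two (act e) hχ hχs (fun g h => th hz (α₁ g h))
    (fun g h k => by rw [hat, ← map_add, ← map_add, hcoc₁])
    (fun h g h0 => by rw [hl₁ h g h0, map_zero]) hw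
  -- the element `a`
  refine ⟨((((-Y).toMul : Ωˣ)) : Ω), Units.ne_zero _, fun v => ?_, fun κ hκ => ?_⟩
  · rw [← act_val, map_neg, hY]
  obtain ⟨y, hy0, hy, hyv⟩ := hκ
  have hyM : ∀ j, y j ^ p ^ j = y 0 := by
    intro j
    induction j with
    | zero => simp
    | succ j ih => rw [pow_succ', pow_mul, hy, ih]
  have hyne : y M ≠ 0 := by
    intro h
    have h1 := hyM M
    rw [h, zero_pow (pow_ne_zero _ hpp.ne_zero), hy0] at h1
    exact (Units.ne_zero _) h1.symm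
  obtain ⟨y', hy'⟩ : ∃ y' : Additive Ωˣ, y' = Additive.ofMul (Units.mk0 (y M) hyne) := ⟨_, rfl⟩
  have hy1 : p ^ M • y' = -Y := by
    apply ext_val
    rw [toMul_nsmul, Units.val_pow_eq_pow_val, hy']
    exact (hyM M).trans hy0
  have hy2 : ∀ v, act e v y' = th hz (fm M (κ v)) + y' := by
    intro v
    apply ext_val
    rw [act_val, toMul_add, Units.val_mul, th_fm, hy']
    exact hyv M v
  -- the cochain
  obtain ⟨C, hC⟩ : ∃ C : V → Additive Ωˣ, ∀ g, C g =
      act e (hp χ s g) (c (ix χ g)) - E (ix χ g) := ⟨_, fun _ => rfl⟩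
  have hCs : Smooth C := by
    have h1 : ∀ i : ℕ, ∃ U : Subgroup V, IsOpen (U : Set V) ∧
        ∀ g, ∀ u ∈ U, e (g * u) (((c i).toMul : Ωˣ) : Ω) = e g (((c i).toMul : Ωˣ) : Ω) :=
      fun i => BKOdd.L1.smooth_act he _
    choose U hU hU' using h1
    have e1 : C = fun g => (fun (g : V) (i : ℕ) => act e g (c i) - E i) (hp χ s g) (ix χ g) := by
      funext g
      rw [hC]
    rw [e1]
    refine smooth_hp hχ hHχ hHo (fun (g : V) (i : ℕ) => act e g (c i) - E i)
      (⨅ i ∈ Finset.range (p ^ M), U i) ?_ ?_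
    · have h2 : ((⨅ i ∈ Finset.range (p ^ M), U i : Subgroup V) : Set V) =
          ⋂ i ∈ Finset.range (p ^ M), (U i : Set V) := by
        simp
      rw [h2]
      exact isOpen_biInter_finset fun i _ => hU i
    · intro g w hw i hi
      have hwi : w ∈ U i := by
        rw [Subgroup.mem_iInf] at hw
        have h3 := hw i
        rw [Subgroup.mem_iInf] at h3
        exact h3 (Finset.mem_range.mpr hi)
      change act e (g * w) (c i) - E i = act e g (c i) - E i
      congr 1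
      apply ext_val
      rw [act_val, act_val]
      exact hU' i g w hwi
  obtain ⟨Γ, hΓ⟩ : ∃ Γ : V → Additive Ωˣ, ∀ g, Γ g = C g - ix χ g • y' := ⟨_, fun _ => rfl⟩
  have hΓs : Smooth Γ := by
    have h1 : Smooth (ix χ) := ⟨H, hHo, fun g u hu => by
      unfold ix
      rw [hχ, (hHχ u).1 hu, add_zero]⟩
    have h2 : Γ = fun g => (fun x : Additive Ωˣ × ℕ => x.1 - x.2 • y') (C g, ix χ g) := by
      funext g
      rw [hΓ]
    rw [h2]
    exact BKOdd.L1.smooth_comp (BKOdd.L1.smooth_pair hCs h1)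
      (fun x : Additive Ωˣ × ℕ => x.1 - x.2 • y')
  have hdΓ : ∀ g h, Γ g + act e g (Γ h) - Γ (g * h) = th hz ((α₁ - sc κ θ M) g h) := by
    intro g h
    have h1 := hmain g h
    have h2 : th hz (sc κ θ M g h) = ix χ h • th hz (fm M (κ g)) := by
      rw [← map_nsmul, sc_apply]
      congr 1
      have h3 : ix χ h • fm M (κ g) = fm M (κ g * (ix χ h : ℤ_[p])) := by
        rw [mul_comm, ← fm_smul, Nat.cast_smul_eq_nsmul]
      rw [h3, ← sub_eq_zero, ← fm_sub, fm_eq_zero, dvd_iff, ← mul_sub, map_mul, map_sub,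
        map_natCast, hlr, sub_self, mul_zero]
    have h3 : (if p ^ M ≤ ix χ g + ix χ h then Y else 0) =
        ix χ (g * h) • y' - ix χ g • y' - ix χ h • y' := by
      rw [ix_mul hχ, ← neg_neg Y, ← hy1]
      split_ifs with hle
      · have h4 : ix χ g + ix χ h = p ^ M + (ix χ g + ix χ h - p ^ M) := by omega
        have h5 : ix χ g • y' + ix χ h • y' = p ^ M • y' + (ix χ g + ix χ h - p ^ M) • y' := by
          rw [← add_smul, ← add_smul, ← h4]
        rw [sub_sub, h5]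
        abel
      · rw [add_smul]
        abel
    have h4 : (α₁ - sc κ θ M) g h = α₁ g h - sc κ θ M g h := rfl
    rw [h4, map_sub, h2]
    have h5 : th hz (α₁ g h) = (ix χ (g * h) • y' - ix χ g • y' - ix χ h • y') +
        (C g + act e g (C h) - C (g * h)) := by
      rw [← h3, hC, hC, hC]
      exact h1
    rw [h5, hΓ, hΓ, hΓ, map_sub, map_nsmul, hy2, nsmul_add]
    abel
  -- all values are killed by a power of `p`
  obtain ⟨N, hN⟩ : ∃ N : ℕ, ∀ g h, p ^ N • (α₁ - sc κ θ M) g h = 0 := by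
    obtain ⟨N₁, hN₁⟩ := BKLoc2.PAAux.exists_pow2 hα₁.1
    have h1 : ∀ g h, p ^ M • sc κ θ M g h = 0 := by
      intro g h
      have h2 := fm_pow 0 M (κ g * θ h)
      rw [zero_add] at h2
      rw [sc_apply, h2]
      exact fm_dvd (by simp)
    refine ⟨max N₁ M, fun g h => ?_⟩
    have h4 : (α₁ - sc κ θ M) g h = α₁ g h - sc κ θ M g h := rfl
    rw [h4, smul_sub, kill_mono (hN₁ g h) (le_max_left _ _), kill_mono (h1 g h) (le_max_right _ _),
      sub_zero]
  -- Hilbert 90 for the `p ^ N`-th power of `Γ`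
  have hpN : 0 < p ^ N := pow_pos hpp.pos _
  have hg1 : ∀ v, (((Γ v).toMul : Ωˣ) : Ω) ^ p ^ N ≠ 0 := fun v => pow_ne_zero _ (Units.ne_zero _)
  have hg2 : Smooth fun v => (((Γ v).toMul : Ωˣ) : Ω) ^ p ^ N :=
    BKOdd.L1.smooth_comp hΓs (fun x => ((x.toMul : Ωˣ) : Ω) ^ p ^ N)
  have hg3 : ∀ v w, (((Γ (v * w)).toMul : Ωˣ) : Ω) ^ p ^ N =
      (((Γ v).toMul : Ωˣ) : Ω) ^ p ^ N * e v ((((Γ w).toMul : Ωˣ) : Ω) ^ p ^ N) := by
    intro v w
    have h1 : p ^ N • (Γ v + act e v (Γ w) - Γ (v * w)) = 0 := by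
      rw [hdΓ, ← map_nsmul, hN, map_zero]
    have h2 : p ^ N • Γ (v * w) = p ^ N • Γ v + p ^ N • act e v (Γ w) := by
      rw [nsmul_sub, nsmul_add, sub_eq_zero] at h1
      exact h1.symm
    have h3 := congrArg (fun x : Additive Ωˣ => ((x.toMul : Ωˣ) : Ω)) h2
    simp only [toMul_add, toMul_nsmul, Units.val_mul, Units.val_pow_eq_pow_val, act_val] at h3
    rw [h3, map_pow]
  obtain ⟨w, hw0, hw1⟩ := BKOdd.stH90 k Ω V e he _ hg1 hg2 hg3
  obtain ⟨v₀, hv₀⟩ := IsAlgClosed.exists_pow_nat_eq w hpN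
  have hv0 : v₀ ≠ 0 := by
    rintro rfl
    rw [zero_pow hpN.ne'] at hv₀
    exact hw0 hv₀.symm
  obtain ⟨v', hv'⟩ : ∃ v' : Additive Ωˣ, v' = Additive.ofMul (Units.mk0 v₀ hv0) := ⟨_, rfl⟩
  have hΓ' : ∀ g, p ^ N • (Γ g + v' - act e g v') = 0 := by
    intro g
    rw [nsmul_sub, sub_eq_zero]
    apply ext_val
    rw [toMul_nsmul, toMul_nsmul, toMul_add, mul_pow, Units.val_mul, Units.val_pow_eq_pow_val,
      Units.val_pow_eq_pow_val, Units.val_pow_eq_pow_val, act_val, hv']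
    change _ * v₀ ^ p ^ N = (e g v₀) ^ p ^ N
    rw [← map_pow, hv₀]
    exact hw1 g
  choose γ hγ using fun g => th_surj hz (hΓ' g)
  have hγs : Loc1 γ := by
    have h1 : Smooth fun g => e g v₀ := BKOdd.L1.smooth_act he v₀
    obtain ⟨U, hU, hU'⟩ := BKOdd.L1.smooth_pair hΓs h1
    refine ⟨U, hU, fun g u hu => th_inj hz ?_⟩
    have h2 := hU' g u hu
    rw [Prod.mk.injEq] at h2
    rw [hγ, hγ, h2.1]
    congr 1
    apply ext_val
    rw [act_val, act_val, hv']
    exact h2.2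
  have hfin : (α₁ - sc κ θ M) ∈ BKND.B2 (actA ch) := by
    refine ⟨γ, hγs, fun g h => th_inj hz ?_⟩
    rw [map_add, map_sub, ← hat, hγ, hγ, hγ, ← hdΓ, map_sub, map_add, ← BKOdd.L1.act_mul (act e)]
    abel
  have h5 : α - sc κ θ M = (α - α₁) + (α₁ - sc κ θ M) := by abel
  rw [h5, ← hch]
  exact (BKND.B2 (actA ch)).add_mem hαα₁ hfin

end BKGlob2
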