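import Pool.Agent.Lib.MP_7c08ba_nt.Met.HStmts

set_option autoImplicit false

/-!
Module MI: circulant matrices with negative off-diagonal entries.
-/

noncomputable section

namespace BKGlob2

theorem stMI : StMI := by
  intro Δ _ _ m hm hsum x hx
  obtain ⟨d', hd'⟩ := Finite.exists_max x
  have h1 : ∑ d, m (d'⁻¹ * d) * ((x d : ℝ) - x d') = 0 := by
    have h2 : ∑ d, m (d'⁻¹ * d) = 0 := by
      rw [← hsum]
      exact Fintype.sum_equiv (Equiv.mulLeft d'⁻¹) _ _ fun d => rfl
    simp only [mul_sub]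
    rw [Finset.sum_sub_distrib, hx d', ← Finset.sum_mul, h2, zero_mul, sub_zero]
  have h3 : ∀ d, 0 ≤ m (d'⁻¹ * d) * ((x d : ℝ) - x d') := by
    intro d
    by_cases h : d = d'
    · rw [h, sub_self, mul_zero]
    · refine mul_nonneg_of_nonpos_of_nonpos (hm _ ?_).le ?_
      · rw [Ne, inv_mul_eq_one]
        exact fun h4 => h h4.symm
      · rw [sub_nonpos]
        exact_mod_cast hd' d
  have h4 : ∀ d, x d = x d' := by
    intro d
    by_cases h : d = d'
    · rw [h]
    · have h5 := (Finset.sum_eq_zero_iff_of_nonneg fun d _ => h3 d).1 h1 d (Finset.mem_univ d)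
      rcases mul_eq_zero.1 h5 with h6 | h6
      · exact absurd h6 (hm _ (by
          rw [Ne, inv_mul_eq_one]
          exact fun h7 => h h7.symm)).ne
      · exact_mod_cast sub_eq_zero.1 h6
  intro d
  rw [h4 d, h4 1]

end BKGlob2
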