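import Pool.Agent.Lib.MP_7c08ba_nt.Met.HStmts
import Pool.Agent.Lib.MP_7c08ba_nt.Gen.RT.Emb

set_option autoImplicit false

/-!
Module MU: a Minkowski unit of a Galois extension of an imaginary quadratic field.
-/

noncomputable section

namespace BKGlob2

open NumberField BKMet

namespace MUAux

/-- two embeddings of an extension of a field without real embeddings that agree on the base and
give the same place are equal -/
theorem eq_of_place {F E : Type} [Field F] [Field E] [Algebra F E] (hF : IsEmpty (F →+* ℝ))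
    (a b : E →+* ℂ) (hab : ∀ x : F, a (algebraMap F E x) = b (algebraMap F E x))
    (h : InfinitePlace.mk a = InfinitePlace.mk b) : a = b := by
  rcases InfinitePlace.mk_eq_iff.1 h with h1 | h1
  · exact h1
  · exfalso
    have h2 : ComplexEmbedding.IsReal (a.comp (algebraMap F E)) := by
      rw [ComplexEmbedding.isReal_iff]
      ext x
      have h3 := congrArg (fun f : E →+* ℂ => f (algebraMap F E x)) h1
      have h4 := hab x
      change (starRingEnd ℂ) (a (algebraMap F E x)) = b (algebraMap F E x) at h3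
      change (starRingEnd ℂ) (a (algebraMap F E x)) = a (algebraMap F E x)
      rw [h3, h4]
    exact hF.false h2.embedding

theorem unit_norm {E : Type} [Field E] (u : (𝓞 E)ˣ) (l : ℕ) [Fact l.Prime]
    (j : E →+* PadicAlgCl l) : ‖j (u : E)‖ = 1 := by
  have h1 : ∀ v : (𝓞 E)ˣ, ‖j (v : E)‖ ≤ 1 := fun v =>
    BKGen.RT.norm_int_le ((v : 𝓞 E).2.map j.toIntAlgHom)
  have h2 : j (u : E) * j ((u⁻¹ : (𝓞 E)ˣ) : E) = 1 := by
    rw [← map_mul]
    have h3 : ((u : 𝓞 E) : E) * (((u⁻¹ : (𝓞 E)ˣ) : 𝓞 E) : E) = 1 := by
      rw [← map_mul, Units.mul_inv, map_one]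
    rw [h3, map_one]
  have h3 : ‖j (u : E)‖ * ‖j ((u⁻¹ : (𝓞 E)ˣ) : E)‖ = 1 := by
    rw [← norm_mul, h2, norm_one]
  have h4 := h1 u
  have h5 := h1 u⁻¹
  have h6 := norm_nonneg (j (u : E))
  nlinarith

end MUAux

open MUAux in
/-- Module MU: a Minkowski unit. -/
theorem stMU : StMU := by
  intro F _ _ h2 hF U hU hUo φ
  classical
  let CU : ClosedSubgroup (GF F) := ⟨U, U.isClosed_of_isOpen hUo⟩
  let E : IntermediateField F (AlgebraicClosure F) := IntermediateField.fixedField U
  have hfix : E.fixingSubgroup = U := InfiniteGalois.fixingSubgroup_fixedField CU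
  have hmem : ∀ x : AlgebraicClosure F, x ∈ E ↔ ∀ h ∈ U, h x = x := fun x =>
    IntermediateField.mem_fixedField_iff _ _
  have hfin : FiniteDimensional F E := by
    rw [← InfiniteGalois.isOpen_iff_finite]
    change IsOpen (E.fixingSubgroup : Set (GF F))
    rw [hfix]
    exact hUo
  have hnf : NumberField E := NumberField.of_module_finite F _
  have hcard : Nat.card (GF F ⧸ U) = Module.finrank F E := by
    rw [IntermediateField.finrank_eq_fixingSubgroup_index (AlgebraicClosure F) E, hfix]
    rfl
  -- the embeddings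
  let r : GF F → (E →+* ℂ) := fun g =>
    (φ.comp (g : AlgebraicClosure F →+* AlgebraicClosure F)).comp
      (algebraMap E (AlgebraicClosure F))
  have hr : ∀ (g : GF F) (x : E), r g x = φ (g x) := fun g x => rfl
  have hrF : ∀ (g g' : GF F) (x : F), r g (algebraMap F E x) = r g' (algebraMap F E x) := by
    intro g g' x
    rw [hr, hr]
    have h3 : ((algebraMap F E x : E) : AlgebraicClosure F) =
      algebraMap F (AlgebraicClosure F) x := rfl
    rw [h3, g.commutes, g'.commutes]
  have hinj : ∀ g g' : GF F, InfinitePlace.mk (r g) = InfinitePlace.mk (r g') → g⁻¹ * g' ∈ U := by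
    intro g g' h
    have h3 := eq_of_place hF (r g) (r g') (hrF g g') h
    rw [← hfix, IntermediateField.mem_fixingSubgroup_iff]
    intro x hx
    have h4 : r g ⟨x, hx⟩ = r g' ⟨x, hx⟩ := by rw [h3]
    rw [hr, hr] at h4
    have h5 : g x = g' x := φ.injective h4
    change g⁻¹ (g' x) = x
    rw [← h5, ← AlgEquiv.mul_apply, inv_mul_cancel, AlgEquiv.one_apply]
  -- all places are complex
  have hE : ∀ w : InfinitePlace E, w.IsComplex := by
    intro w
    rw [← InfinitePlace.not_isReal_iff_isComplex]
    intro hw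
    exact hF.false ((InfinitePlace.embedding_of_isReal hw).comp (algebraMap F E))
  have hnr : InfinitePlace.nrRealPlaces E = 0 := by
    unfold InfinitePlace.nrRealPlaces
    rw [Fintype.card_eq_zero_iff]
    exact ⟨fun w => InfinitePlace.not_isReal_iff_isComplex.2 (hE w.1) w.2⟩
  have hpl : Nat.card (InfinitePlace E) = Nat.card (GF F ⧸ U) := by
    have h3 := InfinitePlace.card_eq_nrRealPlaces_add_nrComplexPlaces (K := E)
    have h4 := InfinitePlace.card_add_two_mul_card_eq_rank (K := E)
    have h5 : Module.finrank ℚ F * Module.finrank F E = Module.finrank ℚ E :=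
      Module.finrank_mul_finrank ℚ F E
    rw [Nat.card_eq_fintype_card, hcard]
    rw [hnr] at h3 h4
    rw [h2] at h5
    omega
  -- the bijection
  let f : GF F ⧸ U → InfinitePlace E := fun d => InfinitePlace.mk (r d.out)
  have hfinq : Finite (GF F ⧸ U) := by
    apply Nat.finite_of_card_ne_zero
    rw [← hpl, Nat.card_eq_fintype_card]
    exact Fintype.card_ne_zero
  have hfb : Function.Bijective f := by
    have hi : Function.Injective f := by
      intro d d' h
      have h3 := hinj _ _ h
      have h4 : (QuotientGroup.mk d.out : GF F ⧸ U) = QuotientGroup.mk d'.out :=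
        QuotientGroup.eq.2 h3
      rwa [QuotientGroup.out_eq', QuotientGroup.out_eq'] at h4
    exact (Nat.bijective_iff_injective_and_card f).2 ⟨hi, hpl.symm⟩
  -- the unit
  obtain ⟨u₀, hu₀⟩ := Units.dirichletUnitTheorem.exists_unit E (InfinitePlace.mk (r 1))
  refine ⟨((u₀ : E) : AlgebraicClosure F), ?_, ?_, ?_, ?_, ?_⟩
  · intro h
    have h3 : (u₀ : E) = 0 := Subtype.ext h
    exact Units.coe_ne_zero u₀ h3
  · intro g hg
    exact (hmem _).1 (u₀ : E).2 g hg
  · intro l _ j
    exact unit_norm u₀ l (j.comp (algebraMap E (AlgebraicClosure F)))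
  · intro g hg
    have h3 : InfinitePlace.mk (r g) ≠ InfinitePlace.mk (r 1) := by
      intro h
      have h4 := hinj _ _ h
      rw [mul_one] at h4
      exact hg (by simpa using U.inv_mem h4)
    have h4 := hu₀ _ h3
    have h5 := Units.pos_at_place u₀ (InfinitePlace.mk (r g))
    have h6 := (Real.log_neg_iff h5).1 h4
    rwa [InfinitePlace.apply, hr] at h6
  · have h3 : ∏ᶠ d : GF F ⧸ U, ‖φ (d.out ((u₀ : E) : AlgebraicClosure F))‖ =
        ∏ᶠ w : InfinitePlace E, w (u₀ : E) := by
      refine finprod_eq_of_bijective f hfb fun d => ?_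
      change _ = InfinitePlace.mk (r d.out) (u₀ : E)
      rw [InfinitePlace.apply, hr]
    rw [h3, finprod_eq_prod_of_fintype]
    have h4 := InfinitePlace.prod_eq_abs_norm (u₀ : E)
    have h5 : ∏ w : InfinitePlace E, w (u₀ : E) ^ w.mult =
        (∏ w : InfinitePlace E, w (u₀ : E)) ^ 2 := by
      rw [← Finset.prod_pow]
      refine Finset.prod_congr rfl fun w _ => ?_
      rw [InfinitePlace.mult, if_neg (InfinitePlace.not_isReal_iff_isComplex.2 (hE w))]
    rw [h5, Units.norm E u₀] at h4
    have h6 : 0 ≤ ∏ w : InfinitePlace E, w (u₀ : E) :=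
      Finset.prod_nonneg fun w _ => apply_nonneg _ _
    have h7 : (∏ w : InfinitePlace E, w (u₀ : E)) ^ 2 = 1 := by
      rw [h4]
      norm_num
    nlinarith

end BKGlob2
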