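import Pool.Agent.Lib.MP_7c08ba_nt.Met.HStmts

/-!
Module NB: norms in terms of Galois groups, and norms from `E[X] / (X ^ p - a)`.
-/

set_option autoImplicit false

noncomputable section

namespace BKGlob2

open Module Polynomial
open BKOdd (Fx IsKum IsNm)

namespace NBAux

variable {p : ℕ} [hp : Fact p.Prime] {k Ω : Type} [Field k] [Field Ω] [Algebra k Ω]
  [IsGalois k Ω] {V : Type} [Group V]

section Fixed

variable {e : V →* (Ω ≃ₐ[k] Ω)} {E : IntermediateField k Ω} (hE : ∀ x, x ∈ E ↔ Fx e x)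

include hE in
omit [IsGalois k Ω] in
/-- the group acts trivially on its fixed field -/
theorem mem_fix (v : V) : e v ∈ E.fixingSubgroup := by
  rw [IntermediateField.mem_fixingSubgroup_iff]
  exact fun x hx => (hE x).1 hx v

/-- the action of `V` over its fixed field -/
def ev (hE : ∀ x, x ∈ E ↔ Fx e x) : V →* (Ω ≃ₐ[E] Ω) :=
  (IntermediateField.fixingSubgroupEquiv E).toMonoidHom.comp
    (e.codRestrict E.fixingSubgroup (mem_fix hE))

omit [IsGalois k Ω] in
theorem ev_apply (v : V) (x : Ω) : ev hE v x = e v x := rfl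

include hE in
/-- every automorphism over the fixed field comes from the group -/
theorem ev_surj [TopologicalSpace V] [IsTopologicalGroup V] (he : Topology.IsOpenEmbedding e) :
    Function.Surjective (ev hE) := by
  have hR : IsOpen ((e.range : Subgroup (Ω ≃ₐ[k] Ω)) : Set (Ω ≃ₐ[k] Ω)) := by
    rw [MonoidHom.coe_range]
    exact he.isOpen_range
  have hEf : E = IntermediateField.fixedField e.range := by
    ext x
    rw [IntermediateField.mem_fixedField_iff, hE]
    constructor
    · rintro h _ ⟨v, rfl⟩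
      exact h v
    · intro h v
      exact h _ ⟨v, rfl⟩
  have hfix : E.fixingSubgroup = e.range := by
    rw [hEf]
    exact InfiniteGalois.fixingSubgroup_fixedField
      (⟨e.range, Subgroup.isClosed_of_isOpen _ hR⟩ : ClosedSubgroup (Ω ≃ₐ[k] Ω))
  intro g
  obtain ⟨h, rfl⟩ := (IntermediateField.fixingSubgroupEquiv E).surjective g
  have h1 : (h : Ω ≃ₐ[k] Ω) ∈ e.range := by
    rw [← hfix]
    exact h.2
  obtain ⟨v, hv⟩ := h1
  refine ⟨v, ?_⟩
  apply AlgEquiv.ext
  intro x
  rw [ev_apply, hv]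
  rfl

end Fixed

section Kummer

variable {e : V →* (Ω ≃ₐ[k] Ω)} {E : IntermediateField k Ω} (hE : ∀ x, x ∈ E ↔ Fx e x)
  {ζ : Ω} (hζ : IsPrimitiveRoot ζ p) (hζE : ζ ∈ E) {X : Eˣ} {χ : V → ZMod p} {y : Ω}
  (hy0 : y ≠ 0) (hyp : y ^ p = ((X : E) : Ω)) (hy : ∀ v, e v y = ζ ^ (χ v).val * y)
  {H : Subgroup V} (hH : ∀ g, g ∈ H ↔ χ g = 0) {σ : V} (hσ : χ σ = 1)

include hy hσ in
omit [IsGalois k Ω] in
theorem sigma_y : e σ y = ζ * y := by
  rw [hy, hσ, ZMod.val_one, pow_one]

include hE hζE hy hσ in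
omit [IsGalois k Ω] in
theorem sigma_pow (i : ℕ) : e (σ ^ i) y = ζ ^ i * y := by
  induction i with
  | zero => rw [pow_zero, pow_zero, map_one, AlgEquiv.one_apply, one_mul]
  | succ i ih =>
    rw [pow_succ', map_mul, AlgEquiv.mul_apply, ih, map_mul, map_pow, (hE ζ).1 hζE σ,
      sigma_y hy hσ]
    ring

include hζ hy0 hy hH in
omit [IsGalois k Ω] in
theorem mem_H_iff (v : V) : v ∈ H ↔ e v y = y := by
  rw [hH, hy]
  constructor
  · intro h
    rw [h, ZMod.val_zero, pow_zero, one_mul]
  · intro h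
    have h1 : ζ ^ (χ v).val = 1 := by
      have h2 : ζ ^ (χ v).val * y = 1 * y := by rw [h, one_mul]
      exact mul_right_cancel₀ hy0 h2
    have h2 : p ∣ (χ v).val := (hζ.pow_eq_one_iff_dvd _).1 h1
    have h3 : (χ v).val = 0 := Nat.eq_zero_of_dvd_of_lt h2 (ZMod.val_lt _)
    exact (ZMod.val_eq_zero _).1 h3

include hE hζ hζE hy0 hyp hy hσ in
omit [IsGalois k Ω] in
/-- `X` is not a `p`-th power -/
theorem not_pow : ¬ IsPw p (X : E) := by
  rintro ⟨b, hb⟩
  have h1 : (b : Ω) ^ p = ((X : E) : Ω) := by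
    rw [← hb]
    rfl
  have hb0 : (b : Ω) ≠ 0 := by
    intro h
    rw [h, zero_pow hp.out.ne_zero, ← hyp] at h1
    exact pow_ne_zero p hy0 h1.symm
  have h2 : (y / b) ^ p = 1 := by
    rw [div_pow, h1, hyp, div_self]
    rw [← hyp]
    exact pow_ne_zero p hy0
  have : NeZero p := ⟨hp.out.ne_zero⟩
  obtain ⟨i, -, hi⟩ := hζ.eq_pow_of_pow_eq_one h2
  have h3 : y = ζ ^ i * b := by rw [hi, div_mul_cancel₀ _ hb0]
  have h4 : e σ y = y := by
    rw [h3, map_mul, map_pow, (hE ζ).1 hζE σ, (hE (b : Ω)).1 b.2 σ]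
  rw [sigma_y hy hσ] at h4
  have h5 : ζ = 1 := by
    have h6 : ζ * y = 1 * y := by rw [h4, one_mul]
    exact mul_right_cancel₀ hy0 h6
  exact hζ.ne_one hp.out.one_lt h5

/-- the generator of `E(y)` -/
def gen (E : IntermediateField k Ω) (y : Ω) : IntermediateField.adjoin E {y} :=
  ⟨y, IntermediateField.mem_adjoin_simple_self E y⟩

omit [IsGalois k Ω] in
theorem adjoin_gen : IntermediateField.adjoin E {gen E y} = ⊤ := by
  apply IntermediateField.map_injective (IntermediateField.adjoin E {y}).val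
  rw [IntermediateField.adjoin_map, Set.image_singleton, ← AlgHom.fieldRange_eq_map,
    IntermediateField.fieldRange_val]
  rfl

include hyp in
omit [IsGalois k Ω] hp in
theorem gen_pow : gen E y ^ p = algebraMap E (IntermediateField.adjoin E {y}) (X : E) :=
  Subtype.ext hyp

include hyp in
omit [IsGalois k Ω] in
theorem integral_y : IsIntegral E y := by
  refine ⟨Polynomial.X ^ p - C (X : E), monic_X_pow_sub_C _ hp.out.ne_zero, ?_⟩
  rw [eval₂_sub, eval₂_pow, eval₂_X, eval₂_C, hyp]
  exact sub_self _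

include hE hζ hζE hy0 hyp hy hσ in
omit [IsGalois k Ω] in
theorem finrank_y : finrank E (IntermediateField.adjoin E {y}) = p := by
  have hnp : ¬ IsPw p (X : E) := not_pow hE hζ hζE hy0 hyp hy hσ
  have hmin : minpoly E y = Polynomial.X ^ p - C (X : E) := by
    symm
    apply minpoly.eq_of_irreducible_of_monic
      (X_pow_sub_C_irreducible_of_prime hp.out fun b hb => hnp ⟨b, hb⟩)
    · rw [map_sub, map_pow, aeval_X, aeval_C, hyp]
      exact sub_self _
    · exact monic_X_pow_sub_C _ hp.out.ne_zero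
  rw [IntermediateField.adjoin.finrank (integral_y hyp), hmin, natDegree_X_pow_sub_C]

include hE hζ hζE hy0 hyp hy hσ in
theorem norm_prod [IsAlgClosed Ω] (c : IntermediateField.adjoin E {y}) :
    ((Algebra.norm E c : E) : Ω) = ∏ i ∈ Finset.range p, e (σ ^ i) (c : Ω) := by
  have hfd : FiniteDimensional E (IntermediateField.adjoin E {y}) :=
    IntermediateField.adjoin.finiteDimensional (integral_y hyp)
  have h0 := Algebra.norm_eq_prod_embeddings E Ω c
  have h1 : algebraMap E Ω (Algebra.norm E c) = ((Algebra.norm E c : E) : Ω) := rfl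
  rw [← h1, h0]
  let F : Fin p → (IntermediateField.adjoin E {y} →ₐ[E] Ω) := fun i =>
    ((ev hE (σ ^ (i : ℕ))).toAlgHom).comp (IntermediateField.adjoin E {y}).val
  have hF : ∀ (i : Fin p) (x : IntermediateField.adjoin E {y}), F i x =
      e (σ ^ (i : ℕ)) (x : Ω) := fun i x => rfl
  have hinj : Function.Injective F := by
    intro i j hij
    have h2 := DFunLike.congr_fun hij (gen E y)
    rw [hF, hF] at h2
    change e (σ ^ (i : ℕ)) y = e (σ ^ (j : ℕ)) y at h2
    rw [sigma_pow hE hζE hy hσ, sigma_pow hE hζE hy hσ] at h2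
    exact Fin.ext (hζ.pow_inj i.2 j.2 (mul_right_cancel₀ hy0 h2))
  have hcard : Fintype.card (IntermediateField.adjoin E {y} →ₐ[E] Ω) = p := by
    rw [AlgHom.card, finrank_y hE hζ hζE hy0 hyp hy hσ]
  have hbij : Function.Bijective F := by
    rw [Fintype.bijective_iff_injective_and_card]
    exact ⟨hinj, by rw [hcard, Fintype.card_fin]⟩
  rw [← Function.Bijective.prod_comp hbij, Finset.prod_range]
  exact Finset.prod_congr rfl fun i _ => hF i c

include hE hζ hy0 hy hH in
/-- the elements of `E(y)` are the elements fixed by `H` -/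
theorem mem_adjoin_iff [TopologicalSpace V] [IsTopologicalGroup V]
    (he : Topology.IsOpenEmbedding e) (c : Ω) :
    c ∈ IntermediateField.adjoin E {y} ↔ ∀ h ∈ H, e h c = c := by
  constructor
  · intro hc h hh
    have h4 : IntermediateField.adjoin E {y} ≤ IntermediateField.fixedField
        (Subgroup.zpowers (ev hE h)) := by
      rw [IntermediateField.adjoin_simple_le_iff, IntermediateField.mem_fixedField_iff]
      intro g hg
      obtain ⟨n, rfl⟩ := Subgroup.mem_zpowers_iff.1 hg
      have h5 : ev hE h ∈ MulAction.stabilizer (Ω ≃ₐ[E] Ω) y :=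
        (mem_H_iff hζ hy0 hy hH h).1 hh
      exact zpow_mem h5 n
    have h5 := h4 hc
    rw [IntermediateField.mem_fixedField_iff] at h5
    exact h5 _ (Subgroup.mem_zpowers _)
  · intro hc
    rw [← InfiniteGalois.fixedField_fixingSubgroup (IntermediateField.adjoin E {y}),
      IntermediateField.mem_fixedField_iff]
    intro g hg
    rw [IntermediateField.mem_fixingSubgroup_iff] at hg
    have hgy := hg y (IntermediateField.mem_adjoin_simple_self E y)
    obtain ⟨v, rfl⟩ := ev_surj hE he g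
    exact hc v ((mem_H_iff hζ hy0 hy hH v).2 hgy)

end Kummer

end NBAux

open NBAux

/-- Module NB: norms in terms of Galois groups, and norms from `E[X] / (X ^ p - a)`. -/
theorem stNB (h3 : StNA3) : StNB := by
  intro p hp k Ω _ _ _ _ _ _ V _ _ _ e he ζ hζ E hE hζE X Y χ hχ H hH σ hσ
  obtain ⟨y, hy0, hyp, hy⟩ := hχ
  have hnp : ¬ IsPw p (X : E) := not_pow hE hζ hζE hy0 hyp hy hσ
  rw [h3 p hp.out E (IntermediateField.adjoin E {y}) (X : E) (gen E y) hnp (gen_pow hyp)
    adjoin_gen]
  constructor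
  · rintro ⟨c, hc0, hc, hcb⟩
    have hcN := (mem_adjoin_iff hE hζ hy0 hy hH he c).2 hc
    have hc1 : (⟨c, hcN⟩ : IntermediateField.adjoin E {y}) ≠ 0 := fun h =>
      hc0 (congrArg Subtype.val h)
    refine ⟨Units.mk0 _ hc1, ?_⟩
    apply Units.ext
    apply Subtype.ext
    change ((Algebra.norm E (⟨c, hcN⟩ : IntermediateField.adjoin E {y}) : E) : Ω) = _
    rw [norm_prod hE hζ hζE hy0 hyp hy hσ, ← hcb]
  · rintro ⟨c, rfl⟩
    refine ⟨((c : IntermediateField.adjoin E {y}) : Ω), ?_, ?_,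
      (norm_prod hE hζ hζE hy0 hyp hy hσ (c : IntermediateField.adjoin E {y})).symm⟩
    · intro h
      exact c.ne_zero (Subtype.ext h)
    · exact (mem_adjoin_iff hE hζ hy0 hy hH he _).1 (c : IntermediateField.adjoin E {y}).2

end BKGlob2
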