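import Pool.Agent.Lib.MP_7c08ba_nt.Met.HStmts

set_option autoImplicit false

/-!
Module OQ: an element of `E` which is a `p`-th power at the places in `P` and has valuations
divisible by `p` outside `P` is a `p`-th power.
-/

noncomputable section

namespace BKGlob2

open NumberField IsDedekindDomain BKGen BKGen.SUnits

namespace OQAux

variable {E : Type} [Field E] [NumberField E]

theorem chr_mem (v : HeightOneSpectrum (𝓞 E)) : ((chr v : ℕ) : 𝓞 E) ∈ v.asIdeal := by
  have h := l_mem_plI (emb v)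
  have h2 : plI (emb v) = v.asIdeal := congrArg HeightOneSpectrum.asIdeal (pl_emb v)
  rwa [h2] at h

theorem chr_eq (v : HeightOneSpectrum (𝓞 E)) (l : ℕ) (hl : l.Prime)
    (h : (l : 𝓞 E) ∈ v.asIdeal) : chr v = l := by
  by_contra hne
  have hc : IsCoprime ((chr v : ℕ) : ℤ) (l : ℤ) :=
    Nat.isCoprime_iff_coprime.2 ((Nat.coprime_primes (factChr v).out hl).2 hne)
  obtain ⟨a, b, hab⟩ := hc
  have h1 : (1 : 𝓞 E) ∈ v.asIdeal := by
    have h2 : (a : 𝓞 E) * ((chr v : ℕ) : 𝓞 E) + (b : 𝓞 E) * (l : 𝓞 E) = 1 := by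
      exact_mod_cast congrArg (fun z : ℤ => (z : 𝓞 E)) hab
    rw [← h2]
    exact add_mem (Ideal.mul_mem_left _ _ (chr_mem v)) (Ideal.mul_mem_left _ _ h)
  exact v.isPrime.ne_top ((Ideal.eq_top_iff_one _).2 h1)

/-- valuation one means norm one -/
theorem norm_one_iff (h : StPB) (v : HeightOneSpectrum (𝓞 E)) (x : Eˣ) :
    ‖emb v (x : E)‖ = 1 ↔ v.valuation E (x : E) = 1 := by
  have := (h E (chr v) (emb v)).2.1 x
  rwa [pl_emb] at this

theorem mem_SP (P : Set ℕ) (hP : ∀ l ∈ P, l.Prime) (v : HeightOneSpectrum (𝓞 E)) :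
    v ∈ SP E P ↔ chr v ∈ P := by
  constructor
  · rintro ⟨l, hl, hlv⟩
    rwa [chr_eq v l (hP l hl) hlv]
  · intro h
    exact ⟨chr v, h, chr_mem v⟩

variable (E) in
theorem finite_SP (P : Set ℕ) (hf : P.Finite) (hP : ∀ l ∈ P, l.Prime) : (SP E P).Finite := by
  have h : SP E P = ⋃ l ∈ P, Sp E l := by
    ext v
    simp only [SP, Sp, Set.mem_setOf_eq, Set.mem_iUnion, exists_prop]
  rw [h]
  refine hf.biUnion fun l hl => ?_
  have := finite_Sp E l (hP l hl).ne_zero
  exact Set.toFinite _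

end OQAux

open OQAux in
/-- Module OQ. -/
theorem stOQ (h1 : StFI) (h2 : StNA1) (h3 : StPB) : StOQ := by
  intro p hp hp2 E _ _ ζ hζ P hPf hPp hpP hPrin a ha hloc hval
  by_contra hcon
  have hfin := finite_SP E P hPf hPp
  set S : Finset (HeightOneSpectrum (𝓞 E)) := hfin.toFinset with hS
  have hSP : ((S : Finset (HeightOneSpectrum (𝓞 E))) : Set (HeightOneSpectrum (𝓞 E))) = SP E P :=
    hfin.coe_toFinset
  have hmem : ∀ v, v ∈ S ↔ chr v ∈ P := fun v => by
    rw [hS, hfin.mem_toFinset]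
    exact mem_SP P hPp v
  let a' : Eˣ := Units.mk0 a ha
  refine h1 p hp.out hp2 E ζ hζ a' hcon S (by rw [hSP]; exact hPrin) ?_ ?_
  · intro v hv
    rw [hmem] at hv
    refine Or.inr ⟨fun h => hv (by rw [chr_eq v p hp.out h]; exact hpP), ?_⟩
    obtain ⟨b, hb⟩ := hval (chr v) hv (emb v)
    have hb0 : b ≠ 0 := by
      rintro rfl
      rw [map_zero, norm_zero, zero_pow hp.out.ne_zero, norm_eq_zero] at hb
      exact ha ((map_eq_zero _).1 hb)
    refine ⟨Units.mk0 b hb0, ?_⟩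
    rw [← norm_one_iff h3, Units.val_mul, Units.val_inv_eq_inv_val, Units.val_pow_eq_pow_val,
      map_mul, map_inv₀, map_pow, norm_mul, norm_inv, norm_pow]
    show ‖emb v a‖ * (‖emb v b‖ ^ p)⁻¹ = 1
    rw [← hb, mul_inv_cancel₀]
    rw [norm_ne_zero_iff]
    exact (_root_.map_ne_zero _).2 ha
  · rw [eq_top_iff]
    intro y _
    unfold PS
    refine Subgroup.mem_sup_right ?_
    rw [Subgroup.mem_pi]
    intro v _
    obtain ⟨z, hz, hzp⟩ := hloc (chr v.1) ((hmem v.1).1 v.2) (emb v.1)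
    refine h2 p hp.out (kv v.1) (toC (emb v.1) ζ) (hζ.map_of_injective (toC (emb v.1)).injective)
      _ _ ⟨⟨z, hz⟩, ?_⟩
    apply Subtype.ext
    show z ^ p = emb v.1 a
    exact hzp

end BKGlob2
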