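import Pool.Agent.Lib.MP_7c08ba_nt.Met.HStmts
import Pool.Agent.Lib.MP_7c08ba_nt.Odd.Adm

set_option autoImplicit false

/-!
Parity without rigidity, global part 2, module PL: embeddings for a finite set of primes which
split.
-/

noncomputable section

namespace BKGlob2

open NumberField IsDedekindDomain BKGen
open BKMet (GF GQ Pl Splits)

namespace HPL

variable {l : ℕ} [Fact l.Prime] {F : Type} [Field F]

/-- the place of the algebraic closure -/
theorem exists_lift (f : F →+* ℚ_[l]) : ∃ j : AlgebraicClosure F →+* PadicAlgCl l,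
    ∀ x, j (algebraMap F (AlgebraicClosure F) x) = algebraMap ℚ_[l] (PadicAlgCl l) (f x) := by
  let a : Algebra F (PadicAlgCl l) := ((algebraMap ℚ_[l] (PadicAlgCl l)).comp f).toAlgebra
  let φ : AlgebraicClosure F →ₐ[F] PadicAlgCl l := IsAlgClosed.lift
  exact ⟨φ.toRingHom, fun x => φ.commutes x⟩

/-- the restriction of an automorphism -/
theorem exists_res (f : F →+* ℚ_[l]) (j : AlgebraicClosure F →+* PadicAlgCl l)
    (hj : ∀ x, j (algebraMap F (AlgebraicClosure F) x) = algebraMap ℚ_[l] (PadicAlgCl l) (f x))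
    (t : GQ l) : ∃ s : GF F, ∀ x, j (s x) = t (j x) := by
  let a : Algebra (AlgebraicClosure F) (PadicAlgCl l) := j.toAlgebra
  let b : Algebra F (PadicAlgCl l) := (j.comp (algebraMap F (AlgebraicClosure F))).toAlgebra
  have c : IsScalarTower F (AlgebraicClosure F) (PadicAlgCl l) :=
    IsScalarTower.of_algebraMap_eq' rfl
  let τ : PadicAlgCl l ≃ₐ[F] PadicAlgCl l := AlgEquiv.ofRingEquiv (f := t.toRingEquiv) (by
    intro x
    change t (j (algebraMap F (AlgebraicClosure F) x)) = j (algebraMap F (AlgebraicClosure F) x)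
    rw [hj]
    exact t.commutes (f x))
  exact ⟨τ.restrictNormal (AlgebraicClosure F), fun x =>
    τ.restrictNormal_commutes (AlgebraicClosure F) x⟩

/-- the map of the local group -/
theorem exists_map (f : F →+* ℚ_[l]) (j : AlgebraicClosure F →+* PadicAlgCl l)
    (hj : ∀ x, j (algebraMap F (AlgebraicClosure F) x) = algebraMap ℚ_[l] (PadicAlgCl l) (f x)) :
    ∃ r : GQ l →* GF F, Continuous r ∧
      ∀ (t : GQ l) (x : AlgebraicClosure F), j (r t x) = t (j x) := by
  choose r hr using exists_res f j hj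
  have h1 : r 1 = 1 := by
    ext x
    apply j.injective
    rw [hr]
    rfl
  have h2 : ∀ s t, r (s * t) = r s * r t := by
    intro s t
    ext x
    apply j.injective
    change j (r (s * t) x) = j (r s (r t x))
    rw [hr, hr, hr]
    rfl
  refine ⟨⟨⟨r, h1⟩, h2⟩, ?_, hr⟩
  refine BKOdd.Adm.continuous_of_stab _ fun x => ?_
  have h3 : {g : GQ l | (⟨⟨r, h1⟩, h2⟩ : GQ l →* GF F) g x = x} = {g : GQ l | g (j x) = j x} := by
    ext g
    constructor
    · intro h
      change r g x = x at h
      change g (j x) = j x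
      rw [← hr, h]
    · intro h
      change g (j x) = j x at h
      change r g x = x
      apply j.injective
      rw [hr, h]
  rw [h3]
  exact BKOdd.Adm.stab_mem_nhds (j x)

end HPL

theorem stPL : StPL := by
  intro F _ _ P hP hs
  have h1 : ∀ i : P, ∃ (_ : Fact (i : ℕ).Prime) (j : AlgebraicClosure F →+* PadicAlgCl (i : ℕ))
      (r : GQ (i : ℕ) →* GF F), Continuous r ∧
        ∀ (t : GQ (i : ℕ)) (x : AlgebraicClosure F), j (r t x) = t (j x) := by
    intro i
    obtain ⟨h, ⟨f⟩⟩ := hs i i.2
    obtain ⟨j, hj⟩ := HPL.exists_lift f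
    obtain ⟨r, hr, hr'⟩ := HPL.exists_map f j hj
    exact ⟨h, j, r, hr, hr'⟩
  choose pr j r hc hr using h1
  let a : Fintype P := hP.fintype
  refine ⟨{ ι := P, l := fun i => i, pr := pr, inj := Subtype.val_injective, j := j, r := r,
            cont := hc, spec := hr }, ?_⟩
  exact Subtype.range_coe

end BKGlob2
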