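import Pool.Agent.Lib.MP_7c08ba_nt.Met.HStmts

set_option autoImplicit false

/-!
Parity without rigidity, global part 2, module PN: the number of primes of `E` above `P`.
-/

noncomputable section

namespace BKGlob2

open NumberField IsDedekindDomain BKGen BKGen.SUnits
open BKMet (QZ actA kch Rel GF GQ cycF cycL IsConj RS GS Pl Splits)

namespace PNAux

theorem norm_gq {l : ℕ} [Fact l.Prime] (t : GQ l) (x : PadicAlgCl l) : ‖t x‖ = ‖x‖ := by
  rw [← PadicAlgCl.spectralNorm_eq, ← PadicAlgCl.spectralNorm_eq]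
  exact (spectralNorm_eq_of_equiv t x).symm

section

variable {F : Type} [Field F] {l : ℕ} [Fact l.Prime]

/-- embeddings which agree on `F` are conjugate -/
theorem exists_gal [CharZero F] (ι j : AlgebraicClosure F →+* PadicAlgCl l)
    (h : ∀ a : F, j (algebraMap F (AlgebraicClosure F) a) =
      ι (algebraMap F (AlgebraicClosure F) a)) :
    ∃ g : GF F, ∀ z, j z = ι (g z) := by
  let _ : Algebra F (PadicAlgCl l) := (ι.comp (algebraMap F (AlgebraicClosure F))).toAlgebra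
  let _ : Algebra (AlgebraicClosure F) (PadicAlgCl l) := ι.toAlgebra
  have hst : IsScalarTower F (AlgebraicClosure F) (PadicAlgCl l) :=
    IsScalarTower.of_algebraMap_eq fun _ => rfl
  let j' : AlgebraicClosure F →ₐ[F] PadicAlgCl l := { j with commutes' := h }
  refine ⟨j'.restrictNormal' (AlgebraicClosure F), fun z => ?_⟩
  exact (AlgHom.restrictNormal_commutes j' (AlgebraicClosure F) z).symm

variable [NumberField F]

/-- the two places of a quadratic field -/
theorem two_pl (hF : Module.finrank ℚ F = 2) (ι : AlgebraicClosure F →+* PadicAlgCl l)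
    (c : AlgebraicClosure F ≃+* AlgebraicClosure F) (hc : IsConj c)
    (j : AlgebraicClosure F →+* PadicAlgCl l) :
    (∃ g : GF F, ∀ z, j z = ι (g z)) ∨ ∃ g : GF F, ∀ z, j z = ι (c (g z)) := by
  classical
  have hcard : Fintype.card (F →+* PadicAlgCl l) = 2 := by
    rw [NumberField.Embeddings.card F (PadicAlgCl l), hF]
  let f₁ : F →+* PadicAlgCl l := ι.comp (algebraMap F (AlgebraicClosure F))
  let f₂ : F →+* PadicAlgCl l :=
    (ι.comp (c : AlgebraicClosure F →+* AlgebraicClosure F)).comp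
      (algebraMap F (AlgebraicClosure F))
  let f₃ : F →+* PadicAlgCl l := j.comp (algebraMap F (AlgebraicClosure F))
  have h12 : f₁ ≠ f₂ := by
    intro h
    obtain ⟨a, ha⟩ := hc.2
    have h1 : ι (algebraMap F (AlgebraicClosure F) a) =
        ι (c (algebraMap F (AlgebraicClosure F) a)) := RingHom.congr_fun h a
    exact ha (ι.injective h1).symm
  by_cases h13 : f₃ = f₁
  · exact Or.inl (exists_gal ι j fun a => RingHom.congr_fun h13 a)
  · by_cases h23 : f₃ = f₂
    · exact Or.inr (exists_gal (ι.comp (c : AlgebraicClosure F →+* AlgebraicClosure F)) j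
        fun a => RingHom.congr_fun h23 a)
    · exfalso
      have h4 : 2 < Fintype.card (F →+* PadicAlgCl l) :=
        Fintype.two_lt_card_iff.mpr ⟨f₁, f₂, f₃, h12, fun h => h13 h.symm, fun h => h23 h.symm⟩
      omega

end

theorem chr_eq {E : Type} [Field E] [NumberField E] {l l' : ℕ} [hl : Fact l.Prime]
    [hl' : Fact l'.Prime] (j : E →+* PadicAlgCl l)
    (j' : E →+* PadicAlgCl l') (h : pl j = pl j') : l = l' := by
  by_contra hne
  have h1 : (l : 𝓞 E) ∈ (pl j).asIdeal := l_mem_plI j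
  have h2 : (l' : 𝓞 E) ∈ (pl j).asIdeal := by
    rw [h]
    exact l_mem_plI j'
  have h3 : IsCoprime (l : ℤ) (l' : ℤ) :=
    Nat.isCoprime_iff_coprime.2 ((Nat.coprime_primes hl.out hl'.out).2 hne)
  obtain ⟨u, v, huv⟩ := h3
  have h4 : (u : 𝓞 E) * l + v * l' = 1 := by exact_mod_cast congrArg (Int.cast : ℤ → 𝓞 E) huv
  have h5 : (1 : 𝓞 E) ∈ (pl j).asIdeal := by
    rw [← h4]
    exact Ideal.add_mem _ (Ideal.mul_mem_left _ _ h1) (Ideal.mul_mem_left _ _ h2)
  exact (pl j).isPrime.ne_top ((Ideal.eq_top_iff_one _).2 h5)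

/-- embeddings which differ by an automorphism give the same prime -/
theorem pl_eq {E : Type} [Field E] [NumberField E] {l : ℕ} [hl : Fact l.Prime]
    (j j' : E →+* PadicAlgCl l) (t : GQ l) (h : ∀ x, j' x = t (j x)) : pl j = pl j' := by
  apply HeightOneSpectrum.ext
  ext x
  rw [mem_pl, mem_pl, h, norm_gq]

section Main

variable {F : Type} [Field F] [NumberField F] {U : Subgroup (GF F)} [U.Normal]
  {E : IntermediateField F (AlgebraicClosure F)} [NumberField E] {Λ : Pl F}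
  {c₀ : AlgebraicClosure F ≃+* AlgebraicClosure F} {cc : GF F →* GF F}

omit [NumberField F] in
/-- the places and the local groups -/
theorem jw_loc (hc : CC0 c₀ cc) (w : Λ.ι × Bool) (t : GQ (Λ.l w.1)) (x : AlgebraicClosure F) :
    jw Λ c₀ w (Λ.loc (MonoidHom.id (GF F)) cc w t x) = t (jw Λ c₀ w x) := by
  obtain ⟨i, b⟩ := w
  cases b
  · exact Λ.spec i t x
  · change Λ.j i (c₀ (cc (Λ.r i t) x)) = t (Λ.j i (c₀ x))
    have h1 : cc (Λ.r i t) x = c₀ (Λ.r i t (c₀ x)) := by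
      have h2 := hc.eq (Λ.r i t) (c₀ x)
      rwa [hc.conj.1] at h2
    rw [h1, hc.conj.1, Λ.spec]

variable (U E Λ c₀) in
/-- the embedding of `E` given by the place `w` and `g` -/
def eps (w : Λ.ι × Bool) (g : GF F) : E →+* PadicAlgCl (Λ.l w.1) :=
  ((jw Λ c₀ w).comp ((g⁻¹ : GF F) : AlgebraicClosure F →+* AlgebraicClosure F)).comp
    (algebraMap E (AlgebraicClosure F))

omit [NumberField F] [NumberField E] in
theorem eps_apply (w : Λ.ι × Bool) (g : GF F) (x : E) :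
    eps E Λ c₀ w g x = jw Λ c₀ w (g⁻¹ (x : AlgebraicClosure F)) := rfl

omit [NumberField F] [NumberField E] in
/-- conjugates of the elements of `E` are in `E` -/
theorem fix_conj (hE : ∀ x, x ∈ E ↔ ∀ g ∈ U, g x = x) {x : AlgebraicClosure F} (hx : x ∈ E)
    (h : GF F) : h x ∈ E := by
  rw [hE] at hx ⊢
  intro u hu
  have h1 := hx (h⁻¹ * u * h) (by
    have := ‹U.Normal›.conj_mem u hu h⁻¹
    rwa [inv_inv] at this)
  have h2 : h ((h⁻¹ * u * h) x) = h x := by rw [h1]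
  rw [← AlgEquiv.mul_apply, ← mul_assoc, ← mul_assoc, mul_inv_cancel, one_mul,
    AlgEquiv.mul_apply] at h2
  exact h2

omit [NumberField F] in
theorem pl_same (hc : CC0 c₀ cc) (hE : ∀ x, x ∈ E ↔ ∀ g ∈ U, g x = x) (w : Λ.ι × Bool)
    (g g' : GF F)
    (h : ((QuotientGroup.mk g : GF F ⧸ U)⁻¹ * QuotientGroup.mk g') ∈ Dw U Λ cc w) :
    pl (eps E Λ c₀ w g) = pl (eps E Λ c₀ w g') := by
  obtain ⟨t, ht⟩ := h
  have h1 : (QuotientGroup.mk (Λ.loc (MonoidHom.id (GF F)) cc w t) : GF F ⧸ U) =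
      QuotientGroup.mk (g⁻¹ * g') := ht
  rw [QuotientGroup.eq] at h1
  refine pl_eq _ _ t⁻¹ fun x => ?_
  rw [eps_apply, eps_apply]
  set τ : GF F := Λ.loc (MonoidHom.id (GF F)) cc w t with hτ
  have h2 : Λ.loc (MonoidHom.id (GF F)) cc w t⁻¹ = τ⁻¹ := map_inv _ t
  rw [← jw_loc hc w t⁻¹, h2]
  congr 1
  -- `g'⁻¹ x = τ⁻¹ (g⁻¹ x)`
  have h3 : (τ⁻¹ * (g⁻¹ * g')) (g'⁻¹ (x : AlgebraicClosure F)) = g'⁻¹ (x : AlgebraicClosure F) :=
    (hE _).1 (fix_conj hE x.2 g'⁻¹) _ h1
  rw [← h3, ← AlgEquiv.mul_apply, ← AlgEquiv.mul_apply]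
  congr 1
  group

omit [NumberField E] [U.Normal] in
/-- an automorphism which fixes `E` is in `U` -/
theorem mem_U (hU : IsOpen (U : Set (GF F))) (hE : ∀ x, x ∈ E ↔ ∀ g ∈ U, g x = x) {h : GF F}
    (hh : ∀ x ∈ E, h x = x) : h ∈ U := by
  let C : ClosedSubgroup (GF F) := ⟨U, Subgroup.isClosed_of_isOpen U hU⟩
  have h1 : (IntermediateField.fixedField (C : Subgroup (GF F))).fixingSubgroup =
      (C : Subgroup (GF F)) := InfiniteGalois.fixingSubgroup_fixedField C
  have h2 : h ∈ (IntermediateField.fixedField (C : Subgroup (GF F))).fixingSubgroup := by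
    rw [IntermediateField.mem_fixingSubgroup_iff]
    intro x hx
    rw [IntermediateField.mem_fixedField_iff] at hx
    exact hh x ((hE x).2 hx)
  rw [h1] at h2
  exact h2

/-- different places give different primes -/
theorem pl_inj (hPA : StPA) (hc : CC0 c₀ cc) (hU : IsOpen (U : Set (GF F)))
    (hE : ∀ x, x ∈ E ↔ ∀ g ∈ U, g x = x) (w w' : Λ.ι × Bool) (g g' : GF F)
    (h : pl (eps E Λ c₀ w g) = pl (eps E Λ c₀ w' g')) :
    w = w' ∧ ((QuotientGroup.mk g : GF F ⧸ U)⁻¹ * QuotientGroup.mk g') ∈ Dw U Λ cc w := by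
  have hl := chr_eq _ _ h
  have hi : w.1 = w'.1 := Λ.inj hl
  obtain ⟨i, b⟩ := w
  obtain ⟨i', b'⟩ := w'
  obtain rfl : i = i' := hi
  obtain ⟨t, ht⟩ := hPA E (Λ.l i) (eps E Λ c₀ (i, b) g) (eps E Λ c₀ (i, b') g') h
  have hF : ∀ (w : Λ.ι × Bool) (t : GQ (Λ.l w.1)) (a : F),
      t (jw Λ c₀ w (algebraMap F (AlgebraicClosure F) a)) =
        jw Λ c₀ w (algebraMap F (AlgebraicClosure F) a) := by
    intro w t a
    rw [← jw_loc hc w t, AlgEquiv.commutes]
  have ht' : ∀ a : F, jw Λ c₀ (i, b') (algebraMap F (AlgebraicClosure F) a) =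
      jw Λ c₀ (i, b) (algebraMap F (AlgebraicClosure F) a) := by
    intro a
    have h1 := ht (algebraMap F E a)
    rw [eps_apply, eps_apply] at h1
    have e1 : ((algebraMap F E a : E) : AlgebraicClosure F) =
        algebraMap F (AlgebraicClosure F) a := rfl
    rw [e1, AlgEquiv.commutes, AlgEquiv.commutes] at h1
    exact h1.trans (hF (i, b) t a)
  have hb : b = b' := by
    by_contra hne
    obtain ⟨a, ha⟩ := hc.conj.2
    apply ha
    have h2 := ht' a
    cases b <;> cases b'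
    · exact absurd rfl hne
    · exact (Λ.j i).injective h2
    · exact (Λ.j i).injective h2.symm
    · exact absurd rfl hne
  subst hb
  refine ⟨rfl, ?_⟩
  set τ : GF F := Λ.loc (MonoidHom.id (GF F)) cc (i, b) t with hτ
  have h3 : g' * τ * g⁻¹ ∈ U := by
    apply mem_U hU hE
    intro x hx
    have h4 := ht ⟨x, hx⟩
    rw [eps_apply, eps_apply] at h4
    have h5 : t (jw Λ c₀ (i, b) (g⁻¹ x)) = jw Λ c₀ (i, b) (τ (g⁻¹ x)) :=
      (jw_loc hc (i, b) t _).symm
    have h6 : g'⁻¹ x = τ (g⁻¹ x) := (jw Λ c₀ (i, b)).injective (h4.trans h5)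
    rw [AlgEquiv.mul_apply, AlgEquiv.mul_apply, ← h6, ← AlgEquiv.mul_apply, mul_inv_cancel,
      AlgEquiv.one_apply]
  have h7 : (QuotientGroup.mk (g' * τ * g⁻¹) : GF F ⧸ U) = 1 :=
    (QuotientGroup.eq_one_iff _).2 h3
  have h8 : (QuotientGroup.mk g : GF F ⧸ U)⁻¹ * QuotientGroup.mk g' =
      (QuotientGroup.mk τ : GF F ⧸ U)⁻¹ := by
    rw [QuotientGroup.mk_mul, QuotientGroup.mk_mul, QuotientGroup.mk_inv] at h7
    have h9 : (QuotientGroup.mk g' : GF F ⧸ U) = QuotientGroup.mk g *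
        (QuotientGroup.mk τ)⁻¹ := by
      rw [mul_inv_eq_one, ← eq_mul_inv_iff_mul_eq] at h7
      exact h7
    rw [h9, inv_mul_cancel_left]
  rw [h8]
  exact inv_mem ⟨t, rfl⟩

/-- every prime above `P` comes from a place -/
theorem pl_surj (hF : Module.finrank ℚ F = 2) (hc : CC0 c₀ cc) (v : HeightOneSpectrum (𝓞 E))
    (hv : v ∈ SP E Λ.P) : ∃ (w : Λ.ι × Bool) (g : GF F), pl (eps E Λ c₀ w g) = v := by
  obtain ⟨l, ⟨i, rfl⟩, hl⟩ := hv
  have := v.isPrime
  obtain ⟨j, hj⟩ := RT.exists_emb v.asIdeal v.ne_bot hl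
  have hjv : pl j = v := by
    apply HeightOneSpectrum.ext
    rw [hj]
    rfl
  let _ : Algebra E (PadicAlgCl (Λ.l i)) := j.toAlgebra
  let J : AlgebraicClosure F →ₐ[E] PadicAlgCl (Λ.l i) := IsAlgClosed.lift
  have hJ : ∀ x : E, J (x : AlgebraicClosure F) = j x := fun x => J.commutes x
  rcases two_pl hF (Λ.j i) c₀ hc.conj (J : AlgebraicClosure F →+* PadicAlgCl (Λ.l i)) with
    ⟨g, hg⟩ | ⟨g, hg⟩
  · refine ⟨(i, false), g⁻¹, ?_⟩
    rw [← hjv]
    congr 1
    ext x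
    rw [eps_apply, inv_inv, ← hJ]
    exact (hg x).symm
  · refine ⟨(i, true), g⁻¹, ?_⟩
    rw [← hjv]
    congr 1
    ext x
    rw [eps_apply, inv_inv, ← hJ]
    exact (hg x).symm

end Main

end PNAux

open PNAux in
/-- Module PN: the number of primes of `E` above `P`. -/
theorem stPN (h1 : StPA) : StPN := by
  intro p _ F _ _ U _ E _ Λ c₀ cc hS
  have hE := hS.sit.field
  have hU0 : U.index ≠ 0 := by
    intro h0
    apply hS.sit.index
    rw [h0]
    exact dvd_zero p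
  have hfi : U.FiniteIndex := ⟨hU0⟩
  have hfU : Finite (GF F ⧸ U) := Subgroup.finite_quotient_of_finiteIndex
  let f : (Σ w : Λ.ι × Bool, (GF F ⧸ U) ⧸ Dw U Λ cc w) → SP E Λ.P := fun x =>
    ⟨pl (eps E Λ c₀ x.1 (x.2.out.out)), Λ.l x.1.1, ⟨x.1.1, rfl⟩, l_mem_plI _⟩
  have hf : Function.Bijective f := by
    constructor
    · rintro ⟨w, a⟩ ⟨w', a'⟩ h
      have h2 : pl (eps E Λ c₀ w (a.out.out)) = pl (eps E Λ c₀ w' (a'.out.out)) :=
        congrArg Subtype.val h
      obtain ⟨rfl, h3⟩ := pl_inj (U := U) h1 hS.cc0 hS.sit.open' hE w w' _ _ h2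
      rw [QuotientGroup.out_eq', QuotientGroup.out_eq', ← QuotientGroup.eq,
        QuotientGroup.out_eq', QuotientGroup.out_eq'] at h3
      rw [h3]
    · rintro ⟨v, hv⟩
      obtain ⟨w, g, hg⟩ := pl_surj hS.quad hS.cc0 v hv
      refine ⟨⟨w, QuotientGroup.mk (QuotientGroup.mk g)⟩, Subtype.ext ?_⟩
      refine Eq.trans ?_ hg
      apply pl_same hS.cc0 hE
      rw [QuotientGroup.out_eq', ← QuotientGroup.eq, QuotientGroup.out_eq']
  rw [← Nat.card_congr (Equiv.ofBijective f hf), Nat.card_sigma]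
  rfl

end BKGlob2
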