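import Pool.Agent.Lib.MP_7c08ba_nt.Met.HPR

set_option autoImplicit false

/-!
Parity without rigidity, global part 2, module PQ: every prime of a number field `E` is principal up
to primes `l` with `E → ℚ_l`.
-/

noncomputable section

namespace BKGlob2

open NumberField IsDedekindDomain BKGen Polynomial
open scoped IntermediateField
open BKMet (Splits)

namespace PQAux

variable {E : Type} [Field E] [NumberField E]

/-- an integer in a prime above `l` is divisible by `l` -/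
theorem dvd_of_mem (w : HeightOneSpectrum (𝓞 E)) {l : ℕ} (hl : l.Prime)
    (h1 : (l : 𝓞 E) ∈ w.asIdeal) {n : ℤ} (hn : (n : 𝓞 E) ∈ w.asIdeal) : (l : ℤ) ∣ n := by
  by_contra hne
  have hc : IsCoprime (l : ℤ) n := by
    rw [Int.isCoprime_iff_gcd_eq_one]
    rw [← Int.isCoprime_iff_gcd_eq_one, Prime.coprime_iff_not_dvd (Nat.prime_iff_prime_int.1 hl)]
    exact hne
  obtain ⟨a, b, hab⟩ := hc
  have h3 : ((a : 𝓞 E)) * (l : 𝓞 E) + (b : 𝓞 E) * (n : 𝓞 E) = 1 := by
    have := congrArg (Int.cast : ℤ → 𝓞 E) hab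
    push_cast at this
    exact this
  apply w.isPrime.ne_top
  rw [Ideal.eq_top_iff_one, ← h3]
  exact w.asIdeal.add_mem (w.asIdeal.mul_mem_left _ h1) (w.asIdeal.mul_mem_left _ hn)

theorem val_iff (v : HeightOneSpectrum (𝓞 E)) (x : 𝓞 E) :
    v.valuation E (x : E) = WithZero.exp (-1 : ℤ) ↔ x ∈ v.asIdeal ∧ x ∉ v.asIdeal ^ 2 := by
  have h1 : v.valuation E (x : E) = v.intValuation x := v.valuation_of_algebraMap x
  rw [h1]
  have h2 := v.intValuation_le_pow_iff_mem x 1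
  have h3 := v.intValuation_le_pow_iff_mem x 2
  rw [pow_one] at h2
  rw [← h2, ← h3]
  constructor
  · intro h
    rw [h]
    refine ⟨le_refl _, ?_⟩
    rw [not_le, WithZero.exp_lt_exp]
    norm_num
  · rintro ⟨ha, hb⟩
    refine le_antisymm ha ?_
    by_contra hcon
    apply hb
    rw [not_le] at hcon
    by_cases h0 : v.intValuation x = 0
    · rw [h0]
      exact zero_le
    · obtain ⟨n, hn⟩ : ∃ n : ℤ, v.intValuation x = WithZero.exp n :=
        ⟨WithZero.log (v.intValuation x), (WithZero.exp_log h0).symm⟩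
      rw [hn] at hcon ⊢
      rw [WithZero.exp_lt_exp] at hcon
      rw [WithZero.exp_le_exp]
      push_cast
      omega

/-- the chosen local behaviour at `q` -/
theorem exists_local (v : HeightOneSpectrum (𝓞 E)) {q : ℕ} (hq : q.Prime)
    (hqv : (q : 𝓞 E) ∈ v.asIdeal) :
    ∃ t : 𝓞 E, t ∈ v.asIdeal ∧ t ∉ v.asIdeal ^ 2 ∧
      ∀ w : HeightOneSpectrum (𝓞 E), w ≠ v → (q : 𝓞 E) ∈ w.asIdeal → t ∉ w.asIdeal := by
  classical
  -- the primes above `q`
  have hq0 : (q : 𝓞 E) ≠ 0 := Nat.cast_ne_zero.2 hq.ne_zero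
  have hI : Ideal.span {(q : 𝓞 E)} ≠ 0 := by
    rw [Ne, Ideal.zero_eq_bot, Ideal.span_singleton_eq_bot]
    exact hq0
  have hfin : {w : HeightOneSpectrum (𝓞 E) | w.asIdeal ∣ Ideal.span {(q : 𝓞 E)}}.Finite :=
    Ideal.finite_factors hI
  obtain ⟨x, hx1, hx2⟩ : ∃ x : 𝓞 E, x ∈ v.asIdeal ∧ x ∉ v.asIdeal ^ 2 := by
    obtain ⟨π, hπ⟩ := v.intValuation_exists_uniformizer
    refine ⟨π, ?_⟩
    rw [← val_iff]
    have h1 : v.valuation E (π : E) = v.intValuation π := v.valuation_of_algebraMap π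
    rw [h1, hπ]
  obtain ⟨t, ht⟩ := IsDedekindDomain.exists_forall_sub_mem_ideal (s := hfin.toFinset)
    (fun w : HeightOneSpectrum (𝓞 E) => w.asIdeal) (fun _ => 2)
    (fun w _ => w.prime) (fun w _ w' _ hne => fun he => hne (HeightOneSpectrum.ext he))
    (fun w => if (w : HeightOneSpectrum (𝓞 E)) = v then x else 1)
  have hmem : ∀ w : HeightOneSpectrum (𝓞 E), (q : 𝓞 E) ∈ w.asIdeal → w ∈ hfin.toFinset := by
    intro w hw
    rw [Set.Finite.mem_toFinset, Set.mem_ofPred_eq, Ideal.dvd_span_singleton]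
    exact hw
  refine ⟨t, ?_, ?_, ?_⟩
  · have h := ht v (hmem v hqv)
    simp only [if_true] at h
    have h2 : t - x ∈ v.asIdeal := Ideal.pow_le_self (two_ne_zero) h
    have h3 := v.asIdeal.add_mem h2 hx1
    rwa [sub_add_cancel] at h3
  · intro hcon
    have h := ht v (hmem v hqv)
    simp only [if_true] at h
    apply hx2
    have h3 := (v.asIdeal ^ 2).sub_mem hcon h
    rwa [sub_sub_cancel] at h3
  · intro w hwv hqw hcon
    have h := ht w (hmem w hqw)
    simp only [if_neg hwv] at h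
    have h2 : t - 1 ∈ w.asIdeal := Ideal.pow_le_self (two_ne_zero) h
    have h3 := w.asIdeal.sub_mem hcon h2
    rw [sub_sub_cancel] at h3
    exact w.isPrime.ne_top ((Ideal.eq_top_iff_one _).2 h3)

/-- a primitive element with the chosen local behaviour at `q` -/
theorem exists_theta (v : HeightOneSpectrum (𝓞 E)) {q : ℕ} (hq : q.Prime)
    (hqv : (q : 𝓞 E) ∈ v.asIdeal) :
    ∃ t : 𝓞 E, (t ∈ v.asIdeal ∧ t ∉ v.asIdeal ^ 2 ∧
      ∀ w : HeightOneSpectrum (𝓞 E), w ≠ v → (q : 𝓞 E) ∈ w.asIdeal → t ∉ w.asIdeal) ∧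
      ℚ⟮(t : E)⟯ = ⊤ := by
  obtain ⟨t, ht1, ht2, ht3⟩ := exists_local v hq hqv
  -- a primitive integral element
  obtain ⟨β, hβ⟩ : ∃ β : 𝓞 E, ℚ⟮(β : E)⟯ = ⊤ := by
    obtain ⟨γ, hγ⟩ := Field.exists_primitive_element ℚ E
    obtain ⟨β, m, hm, hb⟩ : ∃ (β : 𝓞 E) (m : ℤ), m ≠ 0 ∧ (β : E) = (m : E) * γ := by
      have hal : IsAlgebraic ℤ γ :=
        (IsFractionRing.isAlgebraic_iff ℤ ℚ E).2 (Algebra.IsAlgebraic.isAlgebraic γ)
      obtain ⟨m, hm, hi⟩ := hal.exists_integral_multiple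
      refine ⟨⟨m • γ, hi⟩, m, hm, ?_⟩
      rw [← zsmul_eq_mul]
      rfl
    refine ⟨β, ?_⟩
    rw [← top_le_iff, ← hγ, IntermediateField.adjoin_simple_le_iff]
    have h1 : (m : E) ≠ 0 := Int.cast_ne_zero.2 hm
    have h2 : γ = (m : E)⁻¹ * (β : E) := by
      rw [hb, ← mul_assoc, inv_mul_cancel₀ h1, one_mul]
    rw [h2]
    exact mul_mem (inv_mem (intCast_mem _ m)) (IntermediateField.mem_adjoin_simple_self ℚ _)
  have hfin : Finite (IntermediateField ℚ E) :=
    Field.finite_intermediateField_of_exists_primitive_element ℚ E ⟨β, hβ⟩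
  obtain ⟨c, c', hcc, he⟩ := Finite.exists_ne_map_eq_of_infinite
    (fun c : ℕ => ℚ⟮((t + (q : 𝓞 E) ^ 2 * ((c : 𝓞 E) * β) : 𝓞 E) : E)⟯)
  refine ⟨t + (q : 𝓞 E) ^ 2 * ((c : 𝓞 E) * β), ⟨?_, ?_, ?_⟩, ?_⟩
  · refine v.asIdeal.add_mem ht1 (v.asIdeal.mul_mem_right _ ?_)
    exact Ideal.pow_le_self two_ne_zero (Ideal.pow_mem_pow hqv 2)
  · intro hcon
    apply ht2
    have h := (v.asIdeal ^ 2).sub_mem hcon
      ((v.asIdeal ^ 2).mul_mem_right ((c : 𝓞 E) * β) (Ideal.pow_mem_pow hqv 2))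
    rwa [add_sub_cancel_right] at h
  · intro w hwv hqw hcon
    apply ht3 w hwv hqw
    have h := w.asIdeal.sub_mem hcon
      (w.asIdeal.mul_mem_right ((c : 𝓞 E) * β)
        (Ideal.pow_le_self two_ne_zero (Ideal.pow_mem_pow hqw 2)))
    rwa [add_sub_cancel_right] at h
  · rw [← top_le_iff, ← hβ, IntermediateField.adjoin_simple_le_iff]
    set K := ℚ⟮((t + (q : 𝓞 E) ^ 2 * ((c : 𝓞 E) * β) : 𝓞 E) : E)⟯ with hK
    have h1 : ((t + (q : 𝓞 E) ^ 2 * ((c : 𝓞 E) * β) : 𝓞 E) : E) ∈ K :=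
      IntermediateField.mem_adjoin_simple_self ℚ _
    have h2 : ((t + (q : 𝓞 E) ^ 2 * ((c' : 𝓞 E) * β) : 𝓞 E) : E) ∈ K := by
      rw [he]
      exact IntermediateField.mem_adjoin_simple_self ℚ _
    have h3 := sub_mem h1 h2
    have h4 : ((t + (q : 𝓞 E) ^ 2 * ((c : 𝓞 E) * β) : 𝓞 E) : E) -
        ((t + (q : 𝓞 E) ^ 2 * ((c' : 𝓞 E) * β) : 𝓞 E) : E) =
        ((q : E) ^ 2 * ((c : E) - (c' : E))) * (β : E) := by
      push_cast
      ring
    rw [h4] at h3
    have h5 : ((q : E) ^ 2 * ((c : E) - (c' : E))) ≠ 0 := by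
      refine mul_ne_zero (pow_ne_zero _ (Nat.cast_ne_zero.2 hq.ne_zero)) ?_
      rw [sub_ne_zero]
      exact fun h => hcc (Nat.cast_injective h)
    have h6 : (β : E) = ((q : E) ^ 2 * ((c : E) - (c' : E)))⁻¹ *
        (((q : E) ^ 2 * ((c : E) - (c' : E))) * (β : E)) := by
      rw [← mul_assoc, inv_mul_cancel₀ h5, one_mul]
    rw [h6]
    exact mul_mem (inv_mem (mul_mem (pow_mem (natCast_mem _ _) _)
      (sub_mem (natCast_mem _ _) (natCast_mem _ _)))) h3

theorem minpoly_map (t : 𝓞 E) :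
    minpoly ℚ (t : E) = (minpoly ℤ t).map (algebraMap ℤ ℚ) :=
  minpoly.isIntegrallyClosed_eq_field_fractions ℚ E (Algebra.IsIntegral.isIntegral t)

/-- Hensel -/
theorem splits_of_root (t : 𝓞 E) (ht : ℚ⟮(t : E)⟯ = ⊤) (l : ℕ) [hl : Fact l.Prime]
    (w : HeightOneSpectrum (𝓞 E)) (hw : (l : 𝓞 E) ∈ w.asIdeal) (s : ℤ)
    (h1 : t - (s : 𝓞 E) ∈ w.asIdeal)
    (h2 : aeval t (derivative (minpoly ℤ t)) ∉ w.asIdeal) : Splits E l := by
  set f := minpoly ℤ t with hf
  have hcong : ∀ g : ℤ[X], aeval t g - ((g.eval s : ℤ) : 𝓞 E) ∈ w.asIdeal := by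
    intro g
    have h3 : t - (s : 𝓞 E) ∣ aeval t g - aeval (s : 𝓞 E) g := by
      rw [aeval_def, aeval_def, eval₂_eq_eval_map, eval₂_eq_eval_map]
      exact sub_dvd_eval_sub _ _ _
    have h4 : aeval (s : 𝓞 E) g = ((g.eval s : ℤ) : 𝓞 E) := by
      have := aeval_algebraMap_apply (𝓞 E) s g
      rw [eq_intCast] at this
      rw [this, coe_aeval_eq_eval, eq_intCast]
    rw [← h4]
    exact Ideal.mem_of_dvd _ h3 h1
  have h5 : (l : ℤ) ∣ f.eval s := by
    apply dvd_of_mem w hl.out hw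
    have := hcong f
    rw [hf, minpoly.aeval, zero_sub] at this
    exact (neg_mem_iff).1 this
  have h6 : ¬ (l : ℤ) ∣ (derivative f).eval s := by
    intro h
    apply h2
    have h7 := hcong (derivative f)
    have h8 : (((derivative f).eval s : ℤ) : 𝓞 E) ∈ w.asIdeal := by
      obtain ⟨m, hm⟩ := h
      rw [hm]
      push_cast
      exact w.asIdeal.mul_mem_right _ hw
    have := w.asIdeal.add_mem h7 h8
    rwa [sub_add_cancel] at this
  -- Hensel
  have hen : ∃ z : ℤ_[l], aeval z f = 0 := by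
    have e1 : ∀ g : ℤ[X], aeval ((s : ℤ_[l])) g = ((g.eval s : ℤ) : ℤ_[l]) := by
      intro g
      have := aeval_algebraMap_apply (ℤ_[l]) s g
      rw [eq_intCast] at this
      rw [this, coe_aeval_eq_eval, eq_intCast]
    have := hensels_lemma (p := l) (F := f) (a := (s : ℤ_[l])) ?_
    · obtain ⟨z, hz, _⟩ := this
      exact ⟨z, hz⟩
    · rw [e1, e1]
      have h9 : ‖(((derivative f).eval s : ℤ) : ℤ_[l])‖ = 1 := by
        rw [PadicInt.norm_intCast_eq_one_iff, isCoprime_comm,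
          Prime.coprime_iff_not_dvd (Nat.prime_iff_prime_int.1 hl.out)]
        exact h6
      rw [h9, one_pow]
      rw [PadicInt.norm_int_lt_one_iff_dvd]
      exact h5
  obtain ⟨z, hz⟩ := hen
  refine ⟨hl, ?_⟩
  have hz' : aeval (z : ℚ_[l]) (minpoly ℚ (t : E)) = 0 := by
    rw [minpoly_map, aeval_map_algebraMap]
    have := aeval_algebraMap_apply ℚ_[l] z f
    rw [hz, map_zero] at this
    exact this
  have hint : IsIntegral ℚ (t : E) := Algebra.IsIntegral.isIntegral _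
  have φ : ℚ⟮(t : E)⟯ →ₐ[ℚ] ℚ_[l] :=
    (IntermediateField.adjoin.powerBasis hint).lift (z : ℚ_[l]) (by
      rw [IntermediateField.adjoin.powerBasis_gen, IntermediateField.minpoly_gen]
      exact hz')
  rw [ht] at φ
  exact ⟨(φ.toRingHom).comp (IntermediateField.topEquiv (F := ℚ) (E := E)).symm.toRingEquiv.toRingHom⟩

/-- the norm gets large -/
theorem exists_large (x : 𝓞 E) (q : ℕ) (hq : 1 < q) (C : ℕ) :
    ∃ k : ℕ, 2 ≤ k ∧ C < Ideal.absNorm (Ideal.span {(q : 𝓞 E) ^ k + x}) := by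
  classical
  set B : ℝ := ∑ w : InfinitePlace E, w (x : E) with hB
  obtain ⟨m, hm⟩ := exists_nat_ge B
  refine ⟨m + C + 2, by omega, ?_⟩
  set a : 𝓞 E := (q : 𝓞 E) ^ (m + C + 2) + x with ha
  have h1 : ∀ w : InfinitePlace E, ((C : ℝ) + 1) ≤ w (a : E) := by
    intro w
    have h2 : w (x : E) ≤ B := by
      rw [hB]
      exact Finset.single_le_sum (f := fun w : InfinitePlace E => w (x : E))
        (fun w _ => apply_nonneg w _) (Finset.mem_univ w)
    rw [← InfinitePlace.norm_embedding_eq] at h2 ⊢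
    have h3 : w.embedding (a : E) = (q : ℂ) ^ (m + C + 2) + w.embedding (x : E) := by
      rw [ha]
      push_cast
      rw [map_add, map_pow, map_natCast]
    rw [h3]
    have h4 : ‖(q : ℂ) ^ (m + C + 2)‖ = (q : ℝ) ^ (m + C + 2) := by
      rw [norm_pow, Complex.norm_natCast]
    have h5 : ((m + C + 2 : ℕ) : ℝ) < (q : ℝ) ^ (m + C + 2) := by
      have := Nat.lt_pow_self (n := m + C + 2) hq
      exact_mod_cast this
    have h6 : ‖(q : ℂ) ^ (m + C + 2)‖ ≤
        ‖(q : ℂ) ^ (m + C + 2) + w.embedding (x : E)‖ + ‖w.embedding (x : E)‖ := by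
      have := norm_sub_le ((q : ℂ) ^ (m + C + 2) + w.embedding (x : E)) (w.embedding (x : E))
      rwa [add_sub_cancel_right] at this
    rw [h4] at h6
    push_cast at h5
    linarith
  have h7 : ((C : ℝ) + 1) ≤ |((Algebra.norm ℚ (a : E) : ℚ) : ℝ)| := by
    have h8 := InfinitePlace.prod_eq_abs_norm (a : E)
    have h9 : |((Algebra.norm ℚ (a : E) : ℚ) : ℝ)| =
        ∏ w : InfinitePlace E, w (a : E) ^ w.mult := by
      rw [h8]
      push_cast
      rfl
    rw [h9]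
    have h10 : ∏ _w : InfinitePlace E, ((C : ℝ) + 1) ≤
        ∏ w : InfinitePlace E, w (a : E) ^ w.mult := by
      refine Finset.prod_le_prod (fun _ _ => by positivity) fun w _ => ?_
      refine (h1 w).trans ?_
      refine le_self_pow₀ ?_ (InfinitePlace.mult_pos.ne')
      have := h1 w
      have hC : (0 : ℝ) ≤ C := Nat.cast_nonneg _
      linarith
    refine le_trans ?_ h10
    rw [Finset.prod_const]
    refine le_self_pow₀ ?_ ?_
    · have hC : (0 : ℝ) ≤ C := Nat.cast_nonneg _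
      linarith
    · rw [Finset.card_univ]
      exact Fintype.card_ne_zero
  rw [Ideal.absNorm_span_singleton]
  have h11 : ((Algebra.norm ℤ a : ℤ) : ℚ) = Algebra.norm ℚ (a : E) := Algebra.coe_norm_int a
  rw [← h11] at h7
  have h12 : (((Algebra.norm ℤ a).natAbs : ℕ) : ℝ) = |(((Algebra.norm ℤ a : ℤ) : ℚ) : ℝ)| := by
    rw [Nat.cast_natAbs]
    push_cast
    rfl
  rw [← h12] at h7
  have h13 : ((C + 1 : ℕ) : ℝ) ≤ (((Algebra.norm ℤ a).natAbs : ℕ) : ℝ) := by
    push_cast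
    exact h7
  have h14 : C + 1 ≤ (Algebra.norm ℤ a).natAbs := by exact_mod_cast h13
  omega

/-- if `v` is the only prime containing `α` and `v (α) = 1` then `α` generates `v` -/
theorem span_eq (v : HeightOneSpectrum (𝓞 E)) (α : 𝓞 E) (h1 : α ∈ v.asIdeal)
    (h2 : α ∉ v.asIdeal ^ 2) (h3 : ∀ w : HeightOneSpectrum (𝓞 E), α ∈ w.asIdeal → w = v) :
    Ideal.span {α} = v.asIdeal := by
  obtain ⟨J, hJ⟩ : v.asIdeal ∣ Ideal.span {α} := by
    rw [Ideal.dvd_span_singleton]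
    exact h1
  by_cases hJt : J = ⊤
  · rw [hJ, hJt, Ideal.mul_top]
  · exfalso
    obtain ⟨m, hm, hJm⟩ := Ideal.exists_le_maximal J hJt
    have hm0 : m ≠ ⊥ := by
      rintro rfl
      have hJ0 : J = ⊥ := le_bot_iff.1 hJm
      rw [hJ0, Ideal.mul_bot, Ideal.span_singleton_eq_bot] at hJ
      apply h2
      rw [hJ]
      exact zero_mem _
    let w : HeightOneSpectrum (𝓞 E) := ⟨m, hm.isPrime, hm0⟩
    have hα : α ∈ Ideal.span {α} := Ideal.mem_span_singleton_self α
    have hw : w = v := by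
      apply h3
      apply hJm
      rw [hJ] at hα
      exact Ideal.mul_le_right hα
    apply h2
    rw [hJ] at hα
    rw [pow_two]
    refine Ideal.mul_mono le_rfl ?_ hα
    have : v.asIdeal = m := by rw [← hw]
    rw [this]
    exact hJm

end PQAux

open PQAux PRAux in
theorem stPQ : StPQ := by
  intro E _ _ R hR v
  classical
  obtain ⟨q, hq, hqv⟩ := exists_prime v
  obtain ⟨t, ⟨ht1, ht2, ht3⟩, htE⟩ := exists_theta v hq hqv
  set δ : 𝓞 E := aeval t (derivative (minpoly ℤ t)) with hδ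
  have hδ0 : δ ≠ 0 := by
    intro h0
    have h1 : (minpoly ℚ (t : E)).Separable :=
      (minpoly.irreducible (Algebra.IsIntegral.isIntegral (R := ℚ) (t : E))).separable
    refine h1.aeval_derivative_ne_zero (minpoly.aeval ℚ (t : E)) ?_
    rw [minpoly_map, derivative_map, aeval_map_algebraMap]
    have := aeval_algebraMap_apply E t (derivative (minpoly ℤ t))
    rw [← hδ, h0, map_zero] at this
    exact this
  set N0 := Ideal.absNorm (Ideal.span {δ}) with hN0
  have hN00 : N0 ≠ 0 := by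
    rw [hN0, Ne, Ideal.absNorm_eq_zero_iff, Ideal.span_singleton_eq_bot]
    exact hδ0
  -- the bad primes
  set S : Finset ℕ := (hR.toFinset ∪ N0.primeFactors).filter (fun l => l.Prime ∧ l ≠ q) with hS
  set b : ℕ := ∏ l ∈ S, l with hb
  have hbq : ¬ q ∣ b := by
    rw [hb, Prime.dvd_finsetProd_iff hq.prime]
    rintro ⟨l, hl, hd⟩
    rw [hS, Finset.mem_filter] at hl
    exact hl.2.2 ((Nat.prime_dvd_prime_iff_eq hq hl.2.1).1 hd).symm
  obtain ⟨k, hk, hkN⟩ := exists_large ((b : 𝓞 E) * t) q hq.one_lt (Ideal.absNorm v.asIdeal)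
  set α : 𝓞 E := (q : 𝓞 E) ^ k + (b : 𝓞 E) * t with hα
  have hbnot : ∀ w : HeightOneSpectrum (𝓞 E), (q : 𝓞 E) ∈ w.asIdeal → (b : 𝓞 E) ∉ w.asIdeal := by
    intro w hw hcon
    have := dvd_of_mem w hq hw (n := (b : ℤ)) (by push_cast; exact hcon)
    exact hbq (Int.natCast_dvd_natCast.1 this)
  have hα1 : α ∈ v.asIdeal :=
    v.asIdeal.add_mem (Ideal.pow_le_self (by omega) (Ideal.pow_mem_pow hqv k))
      (v.asIdeal.mul_mem_left _ ht1)
  have hα2 : α ∉ v.asIdeal ^ 2 := by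
    intro hcon
    have h1 : (q : 𝓞 E) ^ k ∈ v.asIdeal ^ 2 := Ideal.pow_le_pow_right hk (Ideal.pow_mem_pow hqv k)
    have h2 := (v.asIdeal ^ 2).sub_mem hcon h1
    rw [hα, add_sub_cancel_left] at h2
    rcases v.isPrime.mul_mem_pow _ h2 with h | h
    · exact hbnot v hqv h
    · exact ht2 h
  refine ⟨α, (val_iff v α).2 ⟨hα1, hα2⟩, ?_, ?_⟩
  · intro w hwv hαw l hl hlw
    have : Fact l.Prime := ⟨hl⟩
    have hlq : l ≠ q := by
      rintro rfl
      have h1 : (l : 𝓞 E) ^ k ∈ w.asIdeal :=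
        Ideal.pow_le_self (by omega) (Ideal.pow_mem_pow hlw k)
      have h2 := w.asIdeal.sub_mem hαw h1
      rw [hα, add_sub_cancel_left] at h2
      rcases w.isPrime.mem_or_mem h2 with h | h
      · exact hbnot w hlw h
      · exact ht3 w hwv hlw h
    have hqw : (q : 𝓞 E) ∉ w.asIdeal := fun h => hlq (prime_unique w hl hq hlw h)
    have hbw : (b : 𝓞 E) ∉ w.asIdeal := by
      intro h
      have h1 := w.asIdeal.sub_mem hαw (w.asIdeal.mul_mem_right t h)
      rw [hα, add_sub_cancel_right] at h1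
      exact hqw (w.isPrime.mem_of_pow_mem k h1)
    have hlb : ¬ l ∣ b := by
      rintro ⟨m, hm⟩
      apply hbw
      rw [hm]
      push_cast
      exact w.asIdeal.mul_mem_right _ hlw
    have hlS : l ∉ S := fun h => hlb (Finset.dvd_prod_of_mem _ h)
    have hlS' : l ∉ hR.toFinset ∪ N0.primeFactors := by
      intro h
      exact hlS (Finset.mem_filter.2 ⟨h, hl, hlq⟩)
    rw [Finset.mem_union, not_or] at hlS'
    refine ⟨fun h => hlS'.1 (hR.mem_toFinset.2 h), ?_⟩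
    have hlN : ¬ l ∣ N0 := fun h => hlS'.2 (Nat.mem_primeFactors.2 ⟨hl, h, hN00⟩)
    -- inverse of `b` modulo `l`
    obtain ⟨c, e, hce⟩ : IsCoprime (b : ℤ) (l : ℤ) :=
      Nat.isCoprime_iff_coprime.2 ((Nat.Prime.coprime_iff_not_dvd hl).2 hlb).symm
    refine splits_of_root t htE l w hlw (-(c * (q : ℤ) ^ k)) ?_ ?_
    · have h1 : ((c : 𝓞 E) * (b : 𝓞 E)) + (e : 𝓞 E) * (l : 𝓞 E) = 1 := by
        have := congrArg (Int.cast : ℤ → 𝓞 E) hce
        push_cast at this
        exact this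
      have h2 : t - ((-(c * (q : ℤ) ^ k) : ℤ) : 𝓞 E) =
          (c : 𝓞 E) * α + (e : 𝓞 E) * t * (l : 𝓞 E) := by
        push_cast
        rw [hα]
        linear_combination (-t) * h1
      rw [h2]
      exact w.asIdeal.add_mem (w.asIdeal.mul_mem_left _ hαw) (w.asIdeal.mul_mem_left _ hlw)
    · intro hcon
      apply hlN
      have h1 : ((N0 : ℕ) : 𝓞 E) ∈ Ideal.span {δ} := by
        rw [hN0]
        exact Ideal.absNorm_mem _
      have h2 : ((N0 : ℤ) : 𝓞 E) ∈ w.asIdeal := by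
        push_cast
        have h3 : Ideal.span {δ} ≤ w.asIdeal := by
          rw [Ideal.span_singleton_le_iff_mem]
          exact hcon
        exact h3 h1
      exact Int.natCast_dvd_natCast.1 (dvd_of_mem w hl hlw h2)
  · by_contra hcon
    push Not at hcon
    have h1 := span_eq v α hα1 hα2 (fun w hw => by
      by_contra hne
      exact hcon w hne hw)
    rw [hα] at h1
    rw [h1] at hkN
    exact lt_irrefl _ hkN

end BKGlob2
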