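import Pool.Agent.Lib.MP_7c08ba_nt.Met.HStmts

set_option autoImplicit false

/-!
Parity without rigidity, global part 2, module PR: a finite set of primes `l` with `E → ℚ_l` such
that all ideals are principal up to the primes above them.
-/

noncomputable section

namespace BKGlob2

open NumberField IsDedekindDomain BKGen
open BKMet (Splits)

namespace PRAux

variable {E : Type} [Field E] [NumberField E]

theorem exists_prime (w : HeightOneSpectrum (𝓞 E)) : ∃ l : ℕ, l.Prime ∧ (l : 𝓞 E) ∈ w.asIdeal := by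
  have key : ∀ n : ℕ, n ≠ 0 → (n : 𝓞 E) ∈ w.asIdeal →
      ∃ l : ℕ, l.Prime ∧ (l : 𝓞 E) ∈ w.asIdeal := by
    intro n
    induction n using Nat.strong_induction_on with
    | _ n ih =>
      intro hn hm
      by_cases h1 : n = 1
      · exfalso
        rw [h1, Nat.cast_one] at hm
        exact w.isPrime.ne_top ((Ideal.eq_top_iff_one _).2 hm)
      · have hp := Nat.minFac_prime h1
        obtain ⟨k, hk⟩ := Nat.minFac_dvd n
        have hk0 : k ≠ 0 := by
          rintro rfl
          exact hn (by rw [hk, mul_zero])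
        have hm' : ((n.minFac : ℕ) : 𝓞 E) * ((k : ℕ) : 𝓞 E) ∈ w.asIdeal := by
          rw [← Nat.cast_mul, ← hk]
          exact hm
        rcases w.isPrime.mem_or_mem hm' with h | h
        · exact ⟨n.minFac, hp, h⟩
        · refine ih k ?_ hk0 h
          have h2 : k < n.minFac * k := by
            have := hp.two_le
            have h3 : 0 < k := Nat.pos_of_ne_zero hk0
            nlinarith
          omega
  refine key (Ideal.absNorm w.asIdeal) ?_ (Ideal.absNorm_mem w.asIdeal)
  rw [Ne, Ideal.absNorm_eq_zero_iff]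
  exact w.ne_bot

omit [NumberField E] in
theorem prime_unique (w : HeightOneSpectrum (𝓞 E)) {l m : ℕ} (hl : l.Prime) (hm : m.Prime)
    (h1 : (l : 𝓞 E) ∈ w.asIdeal) (h2 : (m : 𝓞 E) ∈ w.asIdeal) : l = m := by
  by_contra hne
  have hc : IsCoprime (l : ℤ) (m : ℤ) :=
    Nat.isCoprime_iff_coprime.2 ((Nat.coprime_primes hl hm).2 hne)
  obtain ⟨a, b, hab⟩ := hc
  have h3 : ((a : 𝓞 E)) * (l : 𝓞 E) + (b : 𝓞 E) * (m : 𝓞 E) = 1 := by
    have := congrArg (Int.cast : ℤ → 𝓞 E) hab
    push_cast at this
    exact this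
  apply w.isPrime.ne_top
  rw [Ideal.eq_top_iff_one, ← h3]
  exact Ideal.add_mem _ (Ideal.mul_mem_left _ _ h1) (Ideal.mul_mem_left _ _ h2)

theorem exists_place : Nonempty (HeightOneSpectrum (𝓞 E)) := by
  obtain ⟨M, hM⟩ := Ideal.exists_maximal (𝓞 E)
  exact ⟨⟨M, hM.isPrime, Ring.ne_bot_of_isMaximal_of_not_isField hM
    (NumberField.RingOfIntegers.not_isField E)⟩⟩

theorem val_one (w : HeightOneSpectrum (𝓞 E)) {x : 𝓞 E} (h : x ∉ w.asIdeal) :
    w.valuation E (x : E) = 1 := by
  have h1 : w.valuation E (algebraMap (𝓞 E) E x) ≤ 1 := w.valuation_le_one x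
  have h2 : ¬ w.valuation E (algebraMap (𝓞 E) E x) < 1 := by
    intro hlt
    exact h ((w.valuation_lt_one_iff_mem x).1 hlt)
  exact le_antisymm h1 (not_lt.1 h2)

end PRAux

open PRAux in
/-- Module PR: a finite set of primes `l` with `E → ℚ_l` such that all ideals are principal up to
the primes above them. -/
theorem stPR (hPQ : StPQ) (hSA : StSA) : StPR := by
  classical
  intro E _ _ R hR
  obtain ⟨v0⟩ := exists_place (E := E)
  obtain ⟨T, hT0, hT⟩ := (hSA E).2 {v0}
  choose α hα1 hα2 hα3 using fun v => hPQ E R hR v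
  have hα0 : ∀ v, ((α v : 𝓞 E) : E) ≠ 0 := by
    intro v h
    have h1 := hα1 v
    rw [h, map_zero] at h1
    exact WithZero.exp_ne_zero h1.symm
  have hα0' : ∀ v, α v ≠ 0 := by
    intro v h
    apply hα0 v
    rw [h]
    rfl
  have hfin : ∀ v, {w : HeightOneSpectrum (𝓞 E) | α v ∈ w.asIdeal}.Finite := by
    intro v
    have h1 : Ideal.span {α v} ≠ 0 := by
      rw [Ne, Ideal.zero_eq_bot, Ideal.span_singleton_eq_bot]
      exact hα0' v
    refine (Ideal.finite_factors h1).subset ?_
    intro w hw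
    change w.asIdeal ∣ Ideal.span {α v}
    rw [Ideal.dvd_span_singleton]
    exact hw
  set P : Set ℕ := {l | l.Prime ∧ ∃ v ∈ T, ∃ w : HeightOneSpectrum (𝓞 E), w ≠ v ∧
    α v ∈ w.asIdeal ∧ (l : 𝓞 E) ∈ w.asIdeal} with hP
  have hnot : ∀ v ∈ T, ∀ w : HeightOneSpectrum (𝓞 E), w ≠ v → w ∉ SP E P →
      w.valuation E ((α v : 𝓞 E) : E) = 1 := by
    intro v hv w hwv hw
    apply val_one
    intro hm
    apply hw
    obtain ⟨l, hl, hlw⟩ := exists_prime w
    exact ⟨l, ⟨hl, v, hv, w, hwv, hm, hlw⟩, hlw⟩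
  refine ⟨P, ?_, ?_, ?_, ?_⟩
  · have h1 : P ⊆ ⋃ v ∈ T, ⋃ w ∈ {w : HeightOneSpectrum (𝓞 E) | α v ∈ w.asIdeal},
        {l : ℕ | l.Prime ∧ (l : 𝓞 E) ∈ w.asIdeal} := by
      rintro l ⟨hl, v, hv, w, -, hw, hlw⟩
      simp only [Set.mem_iUnion]
      exact ⟨v, hv, w, hw, hl, hlw⟩
    refine Set.Finite.subset ?_ h1
    refine Set.Finite.biUnion T.finite_toSet fun v _ => ?_
    refine Set.Finite.biUnion (hfin v) fun w _ => ?_
    refine Set.Subsingleton.finite ?_
    rintro l ⟨hl, hlw⟩ m ⟨hm, hmw⟩
    exact prime_unique w hl hm hlw hmw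
  · obtain ⟨w, hw, hm⟩ := hα3 v0
    obtain ⟨l, hl, hlw⟩ := exists_prime w
    exact ⟨l, hl, v0, hT0 (Finset.mem_singleton_self v0), w, hw, hm, hlw⟩
  · rintro l ⟨hl, v, hv, w, hwv, hm, hlw⟩
    exact hα2 v w hwv hm l hl hlw
  · intro u hu
    by_cases huT : u ∈ T
    · refine ⟨Units.mk0 ((α u : 𝓞 E) : E) (hα0 u), hα1 u, ?_⟩
      intro w hw hwu
      exact hnot u huT w hwu hw
    · obtain ⟨x0, hx1, hx2⟩ := hT u (by rwa [Finset.mem_coe])
      set k : HeightOneSpectrum (𝓞 E) → ℤ := fun t => WithZero.log (t.valuation E (x0 : E)) with hk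
      set T' : Finset (HeightOneSpectrum (𝓞 E)) := T.filter fun t => t ∉ SP E P with hT'
      set x : Eˣ := x0 * ∏ t ∈ T', (Units.mk0 ((α t : 𝓞 E) : E) (hα0 t)) ^ k t with hx
      have hval : ∀ w : HeightOneSpectrum (𝓞 E), w.valuation E (x : E) =
          w.valuation E (x0 : E) *
            ∏ t ∈ T', (w.valuation E ((α t : 𝓞 E) : E)) ^ k t := by
        intro w
        rw [hx, Units.val_mul, Units.coe_prod, map_mul, map_prod]
        congr 1
        refine Finset.prod_congr rfl fun t _ => ?_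
        rw [Units.val_zpow_eq_zpow_val, Units.val_mk0, map_zpow₀]
      refine ⟨x, ?_, ?_⟩
      · rw [hval, Finset.prod_eq_one, mul_one]
        · exact hx1
        · intro t ht
          rw [hT', Finset.mem_filter] at ht
          have hut : u ≠ t := fun h => huT (h ▸ ht.1)
          rw [hnot t ht.1 u hut hu, one_zpow]
      · intro w hw hwu
        rw [hval]
        by_cases hwT : w ∈ T
        · have hwT' : w ∈ T' := by
            rw [hT', Finset.mem_filter]
            exact ⟨hwT, hw⟩
          rw [Finset.prod_eq_single w]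
          · rw [hα1 w, ← WithZero.exp_zsmul, hk]
            have h0 : w.valuation E (x0 : E) ≠ 0 := by
              rw [Valuation.ne_zero_iff]
              exact x0.ne_zero
            conv_lhs => rw [← WithZero.exp_log h0]
            rw [← WithZero.exp_add]
            have h4 : WithZero.log (w.valuation E (x0 : E)) +
                WithZero.log (w.valuation E (x0 : E)) • (-1 : ℤ) = 0 := by
              rw [smul_eq_mul]
              ring
            simp only [h4, WithZero.exp_zero]
          · intro t ht htw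
            rw [hT', Finset.mem_filter] at ht
            rw [hnot t ht.1 w (Ne.symm htw) hw, one_zpow]
          · intro h
            exact absurd hwT' h
        · rw [hx2 w (by rwa [Finset.mem_coe]) hwu, one_mul]
          refine Finset.prod_eq_one fun t ht => ?_
          rw [hT', Finset.mem_filter] at ht
          have hwt : w ≠ t := fun h => hwT (h ▸ ht.1)
          rw [hnot t ht.1 w hwt hw, one_zpow]

end BKGlob2
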