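import Pool.Agent.Lib.MP_7c08ba_nt.Met.HStmts
import Pool.Agent.Lib.MP_7c08ba_nt.Gen.Local

set_option autoImplicit false

/-!
Parity without rigidity, global part 2, module PW: elements which generate powers of the primes
above `P` and are fixed by the decomposition groups.
-/

noncomputable section

namespace BKGlob2

open NumberField IsDedekindDomain BKGen BKGen.SUnits nonZeroDivisors
open BKMet (GF GQ Pl RS IsConj)

namespace HPW

/-! ### Primes -/

section Primes

variable {E : Type} [Field E] [NumberField E]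

/-- a generator of a power of the prime `v` -/
theorem exists_gen (v : HeightOneSpectrum (𝓞 E)) : ∃ a : 𝓞 E, a ≠ 0 ∧ a ∈ v.asIdeal ∧
    ∀ u : HeightOneSpectrum (𝓞 E), a ∈ u.asIdeal → u = v := by
  have hmem : v.asIdeal ∈ (Ideal (𝓞 E))⁰ := mem_nonZeroDivisors_of_ne_zero v.ne_bot
  set h := Nat.card (ClassGroup (𝓞 E)) with hh
  have hh0 : h ≠ 0 := Nat.card_pos.ne'
  have hprin : (v.asIdeal ^ h).IsPrincipal := by
    have h7 : ClassGroup.mk0 (⟨v.asIdeal, hmem⟩ : (Ideal (𝓞 E))⁰) ^ h = 1 := pow_card_eq_one'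
    rw [← map_pow] at h7
    have h8 := (ClassGroup.mk0_eq_one_iff
      (I := ((⟨v.asIdeal, hmem⟩ : (Ideal (𝓞 E))⁰) ^ h : (Ideal (𝓞 E))⁰).1)
      ((⟨v.asIdeal, hmem⟩ : (Ideal (𝓞 E))⁰) ^ h : (Ideal (𝓞 E))⁰).2).mp h7
    simpa using h8
  obtain ⟨a, ha⟩ := hprin.principal
  have ha : v.asIdeal ^ h = Ideal.span {a} := ha
  refine ⟨a, ?_, ?_, ?_⟩
  · rintro rfl
    rw [Ideal.span_singleton_eq_bot.2 rfl] at ha
    exact pow_ne_zero h v.ne_bot ha
  · exact Ideal.pow_le_self hh0 (ha ▸ Ideal.mem_span_singleton_self a)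
  · intro u hu
    have h1 : v.asIdeal ^ h ≤ u.asIdeal := by
      rw [ha, Ideal.span_singleton_le_iff_mem]
      exact hu
    have h2 : v.asIdeal ≤ u.asIdeal := u.isPrime.le_of_pow_le h1
    have h3 := v.isMaximal
    exact HeightOneSpectrum.ext (h3.eq_of_le u.isPrime.ne_top h2).symm

theorem char_eq {l l' : ℕ} [Fact l.Prime] [Fact l'.Prime] {j : E →+* PadicAlgCl l}
    {j' : E →+* PadicAlgCl l'} (h : pl j = pl j') : l = l' := by
  by_contra hne
  have h1 : (l : 𝓞 E) ∈ (pl j).asIdeal := l_mem_plI j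
  have h2 : (l' : 𝓞 E) ∈ (pl j).asIdeal := by
    rw [h]
    exact l_mem_plI j'
  have hc : Nat.Coprime l l' := (Nat.coprime_primes Fact.out Fact.out).2 hne
  obtain ⟨a, b, hab⟩ := Nat.isCoprime_iff_coprime.2 hc
  apply (pl j).isPrime.ne_top
  rw [Ideal.eq_top_iff_one]
  have e : (1 : 𝓞 E) = (a : 𝓞 E) * (l : 𝓞 E) + (b : 𝓞 E) * (l' : 𝓞 E) := by
    exact_mod_cast congrArg (Int.cast : ℤ → 𝓞 E) hab.symm
  rw [e]
  exact Ideal.add_mem _ (Ideal.mul_mem_left _ _ h1) (Ideal.mul_mem_left _ _ h2)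

theorem norm_one {v : HeightOneSpectrum (𝓞 E)} {a : 𝓞 E}
    (ha : ∀ u : HeightOneSpectrum (𝓞 E), a ∈ u.asIdeal → u = v) {l : ℕ} [Fact l.Prime]
    {j : E →+* PadicAlgCl l} (hj : pl j ≠ v) : ‖j (a : E)‖ = 1 :=
  le_antisymm (norm_ring_le j a) (not_lt.1 fun h => hj (ha _ h))

end Primes

/-! ### The Galois group -/

section Gal

variable {F : Type} [Field F]

theorem out_apply {U : Subgroup (GF F)} {a : AlgebraicClosure F} (ha : ∀ g ∈ U, g a = a)
    (g : GF F) : (QuotientGroup.mk g : GF F ⧸ U).out a = g a := by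
  have h1 : (QuotientGroup.mk g : GF F ⧸ U) =
      QuotientGroup.mk (QuotientGroup.mk g : GF F ⧸ U).out := (QuotientGroup.out_eq' _).symm
  rw [QuotientGroup.eq] at h1
  have h2 := ha _ h1
  rw [AlgEquiv.mul_apply] at h2
  have h3 := congrArg g h2
  rwa [← AlgEquiv.mul_apply, mul_inv_cancel, AlgEquiv.one_apply] at h3

theorem mem_U [CharZero F] {U : Subgroup (GF F)} (hU : IsOpen (U : Set (GF F)))
    {E : IntermediateField F (AlgebraicClosure F)} (hE : ∀ x, x ∈ E ↔ ∀ g ∈ U, g x = x)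
    {h : GF F} (hh : ∀ x ∈ E, h x = x) : h ∈ U := by
  have hcl : IsClosed (U : Set (GF F)) := Subgroup.isClosed_of_isOpen U hU
  have e : IntermediateField.fixedField U = E := by
    ext x
    rw [IntermediateField.mem_fixedField_iff, hE]
  have h1 := InfiniteGalois.fixingSubgroup_fixedField (⟨U, hcl⟩ : ClosedSubgroup (GF F))
  have h2 : h ∈ (IntermediateField.fixedField U).fixingSubgroup := by
    rw [IntermediateField.mem_fixingSubgroup_iff, e]
    exact hh
  have h3 : (IntermediateField.fixedField U).fixingSubgroup = U := h1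
  rwa [h3] at h2

end Gal

/-! ### Places -/

section Places

variable {F : Type} [Field F] (Λ : Pl F) (c₀ : AlgebraicClosure F ≃+* AlgebraicClosure F)
  {cc : GF F →* GF F}

variable {c₀} in
theorem cc_cc (h : CC0 c₀ cc) (g : GF F) : cc (cc g) = g := by
  refine AlgEquiv.ext fun z => ?_
  have h1 := h.eq (cc g) (c₀ z)
  rwa [h.conj.1, h.eq g z, h.conj.1] at h1

variable {c₀} in
theorem jw_loc (h : CC0 c₀ cc) (w : Λ.ι × Bool) (t : GQ (Λ.l w.1)) (x : AlgebraicClosure F) :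
    jw Λ c₀ w (Λ.loc (MonoidHom.id (GF F)) cc w t x) = t (jw Λ c₀ w x) := by
  obtain ⟨i, b⟩ := w
  cases b
  · exact Λ.spec i t x
  · change Λ.j i (c₀ (cc (Λ.r i t) x)) = t (Λ.j i (c₀ x))
    have h1 := h.eq (cc (Λ.r i t)) x
    rw [cc_cc h] at h1
    rw [← h1]
    exact Λ.spec i t (c₀ x)

theorem fixF (i : Λ.ι) (t : GQ (Λ.l i)) (x : F) :
    t (Λ.j i (algebraMap F (AlgebraicClosure F) x)) =
      Λ.j i (algebraMap F (AlgebraicClosure F) x) := by
  rw [← Λ.spec i t, AlgEquiv.commutes]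

/-- the embedding of `E` at the place `w`, composed with `h` -/
def em (E : IntermediateField F (AlgebraicClosure F)) (w : Λ.ι × Bool) (h : GF F) :
    E →+* PadicAlgCl (Λ.l w.1) :=
  ((jw Λ c₀ w).comp ((h : AlgebraicClosure F ≃ₐ[F] AlgebraicClosure F) :
    AlgebraicClosure F →+* AlgebraicClosure F)).comp (algebraMap E (AlgebraicClosure F))

theorem em_apply (E : IntermediateField F (AlgebraicClosure F)) (w : Λ.ι × Bool) (h : GF F)
    (x : E) : em Λ c₀ E w h x = jw Λ c₀ w (h (x : AlgebraicClosure F)) := rfl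

variable {c₀} in
theorem key [CharZero F] (hPA : StPA) (hcc : CC0 c₀ cc) {U : Subgroup (GF F)} [U.Normal]
    (hU : IsOpen (U : Set (GF F))) {E : IntermediateField F (AlgebraicClosure F)}
    [NumberField E] (hE : ∀ x, x ∈ E ↔ ∀ g ∈ U, g x = x) {w w' : Λ.ι × Bool} {h : GF F}
    (hpl : pl (em Λ c₀ E w' h) = pl (em Λ c₀ E w 1)) :
    w' = w ∧ (QuotientGroup.mk h : GF F ⧸ U) ∈ Dw U Λ cc w := by
  obtain ⟨i, b⟩ := w
  obtain ⟨i', b'⟩ := w'
  have hi : i' = i := Λ.inj (char_eq hpl)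
  subst hi
  obtain ⟨a, ha⟩ := hcc.conj.2
  have hx : ∀ g : GF F, g (algebraMap F (AlgebraicClosure F) a) =
      algebraMap F (AlgebraicClosure F) a := fun g => AlgEquiv.commutes g a
  have hb : b' = b := by
    obtain ⟨t, ht⟩ := hPA E (Λ.l i') _ _ hpl
    have h1 := ht (algebraMap F E a)
    rw [em_apply, em_apply] at h1
    have e : ((algebraMap F E a : E) : AlgebraicClosure F) =
      algebraMap F (AlgebraicClosure F) a := rfl
    rw [e, hx, hx] at h1
    cases b <;> cases b'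
    · rfl
    · exfalso
      change Λ.j i' (algebraMap F (AlgebraicClosure F) a) =
        t (Λ.j i' (c₀ (algebraMap F (AlgebraicClosure F) a))) at h1
      rw [← fixF Λ i' t a] at h1
      exact ha ((Λ.j i').injective (t.injective h1)).symm
    · exfalso
      change Λ.j i' (c₀ (algebraMap F (AlgebraicClosure F) a)) =
        t (Λ.j i' (algebraMap F (AlgebraicClosure F) a)) at h1
      rw [fixF Λ i' t a] at h1
      exact ha ((Λ.j i').injective h1)
    · rfl
  subst hb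
  refine ⟨rfl, ?_⟩
  obtain ⟨t, ht⟩ := hPA E (Λ.l i') _ _ hpl.symm
  refine ⟨t, ?_⟩
  change (QuotientGroup.mk (Λ.loc (MonoidHom.id (GF F)) cc (i', b') t) : GF F ⧸ U) =
    QuotientGroup.mk h
  rw [QuotientGroup.eq]
  apply mem_U hU hE
  intro x hx
  have h1 := ht ⟨x, hx⟩
  rw [em_apply, em_apply, ← jw_loc Λ hcc (i', b') t] at h1
  have h2 := (jw Λ c₀ (i', b')).injective h1
  rw [AlgEquiv.mul_apply, h2, ← AlgEquiv.mul_apply, inv_mul_cancel]
  rfl

end Places

end HPW

open HPW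

/-- **Module PW.** -/
theorem stPW (hPA : StPA) : StPW := by
  intro p _ F _ _ U _ E _ Λ c₀ cc hS w
  have hU := hS.sit.open'
  have hE := hS.sit.field
  have hcc := hS.cc0
  obtain ⟨a, ha0, hav, hau⟩ := exists_gen (pl (em Λ c₀ E w 1))
  obtain ⟨α, hαd⟩ : ∃ α : AlgebraicClosure F, α = ((a : E) : AlgebraicClosure F) := ⟨_, rfl⟩
  have hα : ∀ g ∈ U, g α = α := by
    rw [hαd]
    exact fun g hg => (hE _).1 (a : E).2 g hg
  have hα0 : α ≠ 0 := by
    rw [hαd]
    intro h
    apply ha0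
    apply RingOfIntegers.coe_injective
    exact Subtype.ext h
  have hfin : Finite (GF F ⧸ U) := Subgroup.quotient_finite_of_isOpen U hU
  have hfin2 : Finite (Dw U Λ cc w) := Subtype.finite
  let _ : Fintype (Dw U Λ cc w) := Fintype.ofFinite _
  obtain ⟨π, hπ⟩ : ∃ π : AlgebraicClosure F,
    π = ∏ d : Dw U Λ cc w, (d : GF F ⧸ U).out α := ⟨_, rfl⟩
  -- the factors
  have hfac : ∀ (g : GF F) (d : GF F ⧸ U), g (d.out α) = (g * d.out) α := fun g d => rfl
  have hperm : ∀ g : GF F, (QuotientGroup.mk g : GF F ⧸ U) ∈ Dw U Λ cc w → g π = π := by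
    intro g hg
    rw [hπ, map_prod]
    refine Fintype.prod_equiv (Equiv.mulLeft (⟨QuotientGroup.mk g, hg⟩ : Dw U Λ cc w)) _ _ ?_
    intro d
    rw [hfac, ← out_apply hα (g * (d : GF F ⧸ U).out)]
    congr 2
    rw [QuotientGroup.mk_mul, QuotientGroup.out_eq']
    rfl
  have hone : ∀ (w' : Λ.ι × Bool) (g : GF F),
      (w' ≠ w ∨ (QuotientGroup.mk g : GF F ⧸ U) ∉ Dw U Λ cc w) →
      ‖jw Λ c₀ w' (g α)‖ = 1 := by
    intro w' g hg
    rw [hαd]
    refine norm_one (j := em Λ c₀ E w' g) hau fun hpl => ?_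
    obtain ⟨h1, h2⟩ := key Λ hPA hcc hU hE hpl
    rcases hg with h | h
    · exact h h1
    · exact h h2
  refine ⟨π, ?_, ?_, ?_, ?_, ?_, ?_⟩
  · rw [hπ]
    refine Finset.prod_ne_zero_iff.2 fun d _ h => hα0 ?_
    exact (map_eq_zero_iff _ (AlgEquiv.injective _)).1 h
  · intro g hg
    apply hperm
    have e : (QuotientGroup.mk g : GF F ⧸ U) = 1 := (QuotientGroup.eq_one_iff g).2 hg
    rw [e]
    exact (Dw U Λ cc w).one_mem
  · intro t
    exact hperm _ ⟨t, rfl⟩
  · intro l _ hl j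
    rw [hπ, map_prod, norm_prod]
    refine Finset.prod_eq_one fun d _ => ?_
    rw [hαd]
    refine norm_one (j := (j.comp (((d : GF F ⧸ U).out : AlgebraicClosure F ≃ₐ[F]
      AlgebraicClosure F) : AlgebraicClosure F →+* AlgebraicClosure F)).comp
        (algebraMap E (AlgebraicClosure F))) hau fun hpl => ?_
    exact hl ⟨w.1, (char_eq hpl).symm⟩
  · have hlt : ∀ d : Dw U Λ cc w, ‖jw Λ c₀ w ((d : GF F ⧸ U).out α)‖ < 1 := by
      rintro ⟨d, t, rfl⟩
      change ‖jw Λ c₀ w ((QuotientGroup.mk (Λ.loc (MonoidHom.id (GF F)) cc w t) :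
        GF F ⧸ U).out α)‖ < 1
      rw [out_apply hα, jw_loc Λ hcc]
      rw [norm_equiv, hαd]
      exact hav
    classical
    rw [hπ, map_prod, norm_prod, ← Finset.mul_prod_erase _ _ (Finset.mem_univ 1)]
    refine mul_lt_one_of_nonneg_of_lt_one_left (norm_nonneg _) (hlt 1) ?_
    exact Finset.prod_le_one (fun d _ => norm_nonneg _) fun d _ => (hlt d).le
  · intro w' g hg
    rw [hπ, map_prod, map_prod, norm_prod]
    refine Finset.prod_eq_one fun d _ => ?_
    rw [hfac]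
    apply hone
    rcases hg with h | h
    · exact Or.inl h
    · refine Or.inr fun h2 => h ?_
      rw [QuotientGroup.mk_mul, QuotientGroup.out_eq'] at h2
      exact (Subgroup.mul_mem_cancel_right _ d.2).1 h2

end BKGlob2
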