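import Pool.Agent.Lib.MP_7c08ba_nt.Met.HStmts
import Pool.Agent.Lib.MP_7c08ba_nt.Met.LPA
import Pool.Agent.Lib.MP_7c08ba_nt.Odd.Desc
import Pool.Agent.Lib.MP_7c08ba_nt.Odd.CycL

set_option autoImplicit false

/-!
Parity without rigidity, global part 2, module RA: a class of the group `GF F` which is trivial at
the places outside `P` becomes trivial far up in the cyclotomic extension.
-/

noncomputable section

namespace BKGlob2

open NumberField IsDedekindDomain BKGen
open BKOdd (Fx IsKum IsNm chm chZ ConjHyp nonarch_subgroup)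
open BKLoc2 (cl sc im cy cyL Sys IsKP IsLam IsHom StLoc hq ht PP)
open BKMet (QZ actA kch Rel GF GQ cycF cycL IsConj RS GS Pl Splits pb1 pb2 LocAx GlobAx StArith)
open BKPar (Loc1 Loc2)
open ComplexConjugate

namespace RAAux

/-! ### restriction of cochains -/

section

variable {G D M : Type*} [Group G] [TopologicalSpace G] [Group D] [TopologicalSpace D]
  [AddCommGroup M]

theorem Z2_pb {ρ : G →* AddMonoid.End M} {f : D →* G} (hf : Continuous f)
    {ρ' : D →* AddMonoid.End M} (hρ : ∀ d, ρ' d = ρ (f d)) {z : G → G → M}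
    (hz : z ∈ BKND.Z2 ρ) : pb2 f z ∈ BKND.Z2 ρ' := by
  obtain ⟨⟨W, hW, h⟩, h'⟩ := hz
  refine ⟨⟨W.comap f, hW.preimage hf, fun g g' w hw w' hw' => ?_⟩, fun g g' g'' => ?_⟩
  · change z (f (g * w)) (f (g' * w')) = z (f g) (f g')
    rw [map_mul, map_mul]
    exact h _ _ _ hw _ hw'
  · rw [hρ]
    change ρ (f g) (z (f g') (f g'')) - z (f (g * g')) (f g'') + z (f g) (f (g' * g'')) -
      z (f g) (f g') = 0
    rw [map_mul, map_mul]
    exact h' _ _ _

theorem B2_pb {ρ : G →* AddMonoid.End M} {f : D →* G} (hf : Continuous f)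
    {ρ' : D →* AddMonoid.End M} (hρ : ∀ d, ρ' d = ρ (f d)) {z : G → G → M}
    (hz : z ∈ BKND.B2 ρ) : pb2 f z ∈ BKND.B2 ρ' := by
  obtain ⟨β, ⟨W, hW, h⟩, h'⟩ := hz
  refine ⟨fun d => β (f d), ⟨W.comap f, hW.preimage hf, fun g w hw => ?_⟩, fun g g' => ?_⟩
  · change β (f (g * w)) = β (f g)
    rw [map_mul]
    exact h _ _ hw
  · rw [hρ]
    change z (f g) (f g') = ρ (f g) (β (f g')) - β (f (g * g')) + β (f g)
    rw [map_mul]
    exact h' _ _

end

/-! ### complex conjugation -/

section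

variable (F : Type) [Field F] [NumberField F]

/-- there is a complex conjugation on the algebraic closure -/
theorem exists_isConj (h : IsEmpty (F →+* ℝ)) :
    ∃ c : AlgebraicClosure F ≃+* AlgebraicClosure F, IsConj c := by
  obtain ⟨σ⟩ : Nonempty (F →+* ℂ) := inferInstance
  letI : Algebra F ℂ := σ.toAlgebra
  let φ : AlgebraicClosure F →ₐ[F] ℂ := IsAlgClosed.lift
  have halg : Algebra.IsAlgebraic ℚ (AlgebraicClosure F) :=
    Algebra.IsAlgebraic.trans ℚ F (AlgebraicClosure F)
  have hex : ∀ x : AlgebraicClosure F, ∃ y : AlgebraicClosure F, φ y = conj (φ x) := by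
    intro x
    have hx : IsIntegral ℚ x := (halg.isAlgebraic x).isIntegral
    have hm : (minpoly ℚ x).aeval (conj (φ x)) = 0 := by
      have h1 : (minpoly ℚ x).aeval (φ x) = 0 := by
        have h2 : (minpoly ℚ x).aeval ((φ : AlgebraicClosure F →+* ℂ).toRatAlgHom x) = 0 := by
          rw [Polynomial.aeval_algHom_apply, minpoly.aeval, map_zero]
        exact h2
      have h3 := congrArg (starRingEnd ℂ) h1
      rw [map_zero] at h3
      have h4 : (minpoly ℚ x).aeval ((starRingEnd ℂ).toRatAlgHom (φ x)) =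
          (starRingEnd ℂ).toRatAlgHom ((minpoly ℚ x).aeval (φ x)) :=
        Polynomial.aeval_algHom_apply _ _ _
      exact h4.trans h3
    have hs : ((minpoly ℚ x).map (algebraMap ℚ (AlgebraicClosure F))).Splits :=
      IsAlgClosed.splits _
    have hne : (minpoly ℚ x) ≠ 0 := minpoly.ne_zero hx
    have h5 : conj (φ x) ∈ ((minpoly ℚ x).map (algebraMap ℚ ℂ)).roots := by
      rw [Polynomial.mem_roots (Polynomial.map_ne_zero hne), Polynomial.IsRoot.def,
        Polynomial.eval_map, ← Polynomial.aeval_def]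
      exact hm
    have h6 : (minpoly ℚ x).map (algebraMap ℚ ℂ) =
        ((minpoly ℚ x).map (algebraMap ℚ (AlgebraicClosure F))).map
          (φ : AlgebraicClosure F →+* ℂ) := by
      rw [Polynomial.map_map]
      congr 1
      exact Subsingleton.elim _ _
    rw [h6, hs.roots_map, Multiset.mem_map] at h5
    obtain ⟨y, -, hy⟩ := h5
    exact ⟨y, hy⟩
  choose f hf using hex
  have hinj : Function.Injective φ := φ.injective
  let c : AlgebraicClosure F →+* AlgebraicClosure F :=
    { toFun := f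
      map_one' := hinj (by rw [hf, map_one, map_one])
      map_mul' := fun x y => hinj (by rw [hf, map_mul, map_mul, map_mul, hf, hf])
      map_zero' := hinj (by rw [hf, map_zero, map_zero])
      map_add' := fun x y => hinj (by rw [hf, map_add, map_add, map_add, hf, hf]) }
  have hcc : ∀ x, c (c x) = x := fun x => hinj (by
    change φ (f (f x)) = φ x
    rw [hf, hf, Complex.conj_conj])
  refine ⟨RingEquiv.ofRingHom c c (RingHom.ext hcc) (RingHom.ext hcc), hcc, ?_⟩
  by_contra hcon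
  push Not at hcon
  have hreal : ∀ a : F, conj (φ (algebraMap F (AlgebraicClosure F) a)) =
      φ (algebraMap F (AlgebraicClosure F) a) := by
    intro a
    rw [← hf]
    exact congrArg φ (hcon a)
  refine h.elim
    { toFun := fun a => (φ (algebraMap F (AlgebraicClosure F) a)).re
      map_one' := by rw [map_one, map_one, Complex.one_re]
      map_mul' := fun a b => ?_
      map_zero' := by rw [map_zero, map_zero, Complex.zero_re]
      map_add' := fun a b => by rw [map_add, map_add, Complex.add_re] }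
  rw [map_mul, map_mul, Complex.mul_re, Complex.conj_eq_iff_im.1 (hreal a), zero_mul, sub_zero]

end

/-! ### Galois groups -/

theorem nonarchF (F : Type) [Field F] : NonarchimedeanGroup (GF F) where
  is_nonarchimedean U hU := by
    obtain ⟨E, hE, hEU⟩ := krullTopology_mem_nhds_one_iff F (AlgebraicClosure F) U |>.1 hU
    exact ⟨⟨E.fixingSubgroup, IntermediateField.fixingSubgroup_isOpen E⟩, hEU⟩

/-- multiples of a power of `p` form an open set -/
theorem isOpen_dvd (p : ℕ) [Fact p.Prime] (M : ℕ) : IsOpen {x : ℤ_[p] | (p : ℤ_[p]) ^ M ∣ x} := by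
  have h : {x : ℤ_[p] | (p : ℤ_[p]) ^ M ∣ x} = Metric.closedBall 0 ((p : ℝ) ^ (-(M : ℤ))) := by
    ext x
    rw [Metric.mem_closedBall, dist_zero_right, PadicInt.norm_le_pow_iff_mem_span_pow,
      Ideal.mem_span_singleton]
    rfl
  rw [h]
  refine IsUltrametricDist.isOpen_closedBall _ ?_
  have hp : (0 : ℝ) < p := by exact_mod_cast (Fact.out : p.Prime).pos
  exact (zpow_pos hp _).ne'

section

variable {F : Type} [Field F] (U : Subgroup (GF F)) {l : ℕ} [Fact l.Prime]
  (j : AlgebraicClosure F →+* PadicAlgCl l)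

/-- the decomposition group in a subgroup -/
def io : Cp U.subtype j →* Cp (MonoidHom.id (GF F)) j where
  toFun x := ⟨((x.1.1 : GF F), x.1.2), fun z => x.2 z⟩
  map_one' := rfl
  map_mul' _ _ := rfl

theorem io_cont : Continuous (io U j) := by
  unfold io
  change Continuous fun x : Cp U.subtype j =>
    (⟨((x.1.1 : GF F), x.1.2), fun z => x.2 z⟩ : Cp (MonoidHom.id (GF F)) j)
  fun_prop

end

/-- one place -/
theorem place {p : ℕ} [Fact p.Prime] {F : Type} [Field F] [NumberField F]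
    (h4 : StCV) {lam : ℤ_[p]ˣ → ℤ_[p]}
    {α : GF F → GF F → QZ p} (hα : α ∈ BKND.Z2 (actA (cycF p F)))
    (hsm : ∀ m : QZ p, ∃ W : Subgroup (GF F), IsOpen (W : Set (GF F)) ∧
      ∀ w ∈ W, actA (cycF p F) w m = m)
    {l : ℕ} [Fact l.Prime] (r : GQ l →* GF F) (hr : Continuous r)
    (hχ : ∀ t, cycF p F (r t) = cyL p l t) {M : ℕ}
    (hKL : ∀ U : Subgroup (GQ l), (∀ g, g ∈ U ↔ (p : ℤ_[p]) ^ M ∣ lam (cyL p l g)) →
      (fun a b : U => pb2 r α a b) ∈ BKND.B2 (actA ((cyL p l).comp U.subtype)))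
    (U : Subgroup (GF F)) (hU : ∀ g, g ∈ U ↔ (p : ℤ_[p]) ^ M ∣ lam (cycF p F g))
    (j : AlgebraicClosure F →+* PadicAlgCl l) [CompactSpace (Cp U.subtype j)]
    (hfs : Continuous (fs U.subtype j)) (g : GF F)
    (s : Cp (MonoidHom.id (GF F)) j →* GQ l) (hs : Continuous s)
    (hgs : ∀ d, fs (MonoidHom.id (GF F)) j d = g⁻¹ * r (s d) * g) :
    pb2 (fs U.subtype j) (fun a b : U => α a b) ∈
      BKND.B2 (actA (((cycF p F).comp U.subtype).comp (fs U.subtype j))) := by
  have hUr : ∀ t, t ∈ U.comap r ↔ (p : ℤ_[p]) ^ M ∣ lam (cyL p l t) := by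
    intro t
    rw [Subgroup.mem_comap, hU, hχ]
  have h1 := hKL (U.comap r) hUr
  -- the map to the local group
  have hmem : ∀ d : Cp U.subtype j, s (io U j d) ∈ U.comap r := by
    intro d
    have h5 : ((fs U.subtype j d : U) : GF F) = g⁻¹ * r (s (io U j d)) * g := hgs (io U j d)
    have h6 := (hU _).1 (fs U.subtype j d).2
    rw [h5, map_mul, map_mul, map_inv, mul_comm, mul_inv_cancel_left] at h6
    rw [Subgroup.mem_comap, hU]
    exact h6
  let s' : Cp U.subtype j →* U.comap r := (s.comp (io U j)).codRestrict (U.comap r) hmem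
  have hs' : Continuous s' := (hs.comp (io_cont U j)).subtype_mk _
  have h7 := (h4 (GF F) (U.comap r) (Cp U.subtype j) (r.comp (U.comap r).subtype)
    (U.subtype.comp (fs U.subtype j)) s' (hr.comp continuous_subtype_val)
    (continuous_subtype_val.comp hfs) hs' g (fun d => hgs (io U j d)) (QZ p)
    (actA (cycF p F)) hsm).1 α hα
  refine h7 ?_
  have h8 : (actA (cycF p F)).comp (r.comp (U.comap r).subtype) =
      actA ((cyL p l).comp (U.comap r).subtype) := by
    ext1 t
    have h9 : cycF p F (r (t : GQ l)) = cyL p l (t : GQ l) := hχ t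
    change actA (cycF p F) (r (t : GQ l)) = actA (cyL p l) (t : GQ l)
    ext x
    rw [BKMet.actA_apply, BKMet.actA_apply, h9]
  rw [h8]
  exact h1

end RAAux

open RAAux

/-- Module RA: a class of the group `GF F` which is trivial at the places outside `P` becomes
trivial far up in the cyclotomic extension. -/
theorem stRA (h1 : StKL) (h2 : StHA) (h3 : StCJ) (h4 : StCV) (h5 : StCY) (h6 : StCP) : StRA := by
  intro p hp hp2 F iF iN hdim hre Λ lam hlam α hα hloc
  obtain ⟨c₀, hc₀⟩ := exists_isConj F hre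
  obtain ⟨⟨cc, hcc⟩, hall⟩ := h3 F hdim hre c₀ hc₀
  obtain ⟨hcont, -, -, hcyc, hpl⟩ := hall cc hcc
  have hcyc' := (hcyc p hp2).1
  have : NonarchimedeanGroup (GF F) := nonarchF F
  have hχc : Continuous (cycF p F) := cyclotomicCharacter.continuous p F (AlgebraicClosure F)
  -- the characters
  have hr1 : ∀ i t, cycF p F (Λ.r i t) = cyL p (Λ.l i) t := fun i t =>
    (h5 p F (AlgebraicClosure F) ℚ_[Λ.l i] (PadicAlgCl (Λ.l i))).2 (Λ.j i) (Λ.r i t) t
      (Λ.spec i t)
  have hr2 : ∀ i t, cycF p F ((cc.comp (Λ.r i)) t) = cyL p (Λ.l i) t := fun i t =>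
    (hcyc' (Λ.r i t)).trans (hr1 i t)
  have hc2 : ∀ i, Continuous (cc.comp (Λ.r i)) := fun i => hcont.comp (Λ.cont i)
  have hact : ∀ (i) (r : GQ (Λ.l i) →* GF F), (∀ t, cycF p F (r t) = cyL p (Λ.l i) t) →
      ∀ t, actA (cyL p (Λ.l i)) t = actA (cycF p F) (r t) := by
    intro i r hr t
    ext x
    rw [BKMet.actA_apply, BKMet.actA_apply, hr]
  -- far up
  choose M₁ hM₁ using fun i => h1 p (Λ.l i) hp2 lam hlam (pb2 (Λ.r i) α)
    (Z2_pb (Λ.cont i) (hact i (Λ.r i) (hr1 i)) hα)
  choose M₂ hM₂ using fun i => h1 p (Λ.l i) hp2 lam hlam (pb2 (cc.comp (Λ.r i)) α)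
    (Z2_pb (hc2 i) (hact i (cc.comp (Λ.r i)) (hr2 i)) hα)
  refine ⟨∑ i, (M₁ i + M₂ i), fun M hM U hU => ?_⟩
  have hle : ∀ i, M₁ i + M₂ i ≤ M := fun i =>
    (Finset.single_le_sum (f := fun i => M₁ i + M₂ i) (fun _ _ => Nat.zero_le _)
      (Finset.mem_univ i)).trans hM
  -- the group `U`
  have hUo : IsOpen (U : Set (GF F)) := by
    have h7 : (U : Set (GF F)) = (fun g => lam (cycF p F g)) ⁻¹' {x | (p : ℤ_[p]) ^ M ∣ x} := by
      ext g
      exact hU g
    rw [h7]
    exact (isOpen_dvd p M).preimage (hlam.cont.comp hχc)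
  have cU : CompactSpace U := isCompact_iff_compactSpace.1 (U.isClosed_of_isOpen hUo).isCompact
  have nU : NonarchimedeanGroup U := nonarch_subgroup U
  have hoe : Topology.IsOpenEmbedding (U.subtype : U → GF F) := hUo.isOpenEmbedding_subtypeVal
  refine h2 p hp2 F (AlgebraicClosure F) U U.subtype hoe _
    (Z2_pb (f := U.subtype) continuous_subtype_val (fun _ => rfl) hα) ?_
  intro l hl j
  by_cases hlP : l ∈ Λ.P
  · obtain ⟨i, rfl⟩ := hlP
    obtain ⟨-, hfs, hcs, -, -⟩ := h6 F (AlgebraicClosure F) U U.subtype hoe (Λ.l i) j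
    have hsm : ∀ m : QZ p, ∃ W : Subgroup (GF F), IsOpen (W : Set (GF F)) ∧
        ∀ w ∈ W, actA (cycF p F) w m = m := by
      intro m
      obtain ⟨W, hW, hw⟩ := BKLoc2.PAAux.smooth_act hχc (β := fun _ => m)
        ⟨⊤, isOpen_univ, fun _ _ _ => rfl⟩
      exact ⟨W, hW, fun w hw' => hw w hw' 1⟩
    obtain ⟨g, s, hs, hgs | hgs⟩ := hpl Λ i j
    · exact place h4 hα hsm (Λ.r i) (Λ.cont i) (hr1 i)
        (hM₁ i M (by have := hle i; omega)) U hU j hfs g s hs hgs
    · exact place h4 hα hsm (cc.comp (Λ.r i)) (hc2 i) (hr2 i)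
        (hM₂ i M (by have := hle i; omega)) U hU j hfs g s hs hgs
  · exact B2_pb (f := io U j) (io_cont U j) (fun _ => rfl) (hloc l hlP j)

end BKGlob2
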