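import Pool.Agent.Lib.MP_7c08ba_nt.Met.HStmts
import Pool.Agent.Lib.MP_7c08ba_nt.Met.LRPB
import Pool.Agent.Lib.MP_7c08ba_nt.Met.LCrN

set_option autoImplicit false

/-! Parity without rigidity, global part 2, module RE: the reciprocity law. -/

noncomputable section

namespace BKGlob2

open NumberField IsDedekindDomain BKGen
open BKOdd (Fx chZ)
open BKLoc2 (cl sc cy cyL Sys IsKP IsLam IsHom)
open BKMet (QZ actA GF GQ cycF cycL IsConj Pl Splits pb1 pb2)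
open BKPar (Loc1 Loc2)

namespace REAux

/-- the Galois group is nonarchimedean -/
theorem nonarch (k Ω : Type) [Field k] [Field Ω] [Algebra k Ω] [IsGalois k Ω] :
    NonarchimedeanGroup (Ω ≃ₐ[k] Ω) where
  is_nonarchimedean := by
    intro U hU
    rw [krullTopology_mem_nhds_one_iff] at hU
    obtain ⟨E, hE, hEU⟩ := hU
    exact ⟨⟨E.fixingSubgroup, E.fixingSubgroup_isOpen⟩, hEU⟩

section PB

variable {G D M : Type*} [Group G] [TopologicalSpace G] [Group D] [TopologicalSpace D]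
  [AddCommGroup M] {f : D →* G} {ρ : G →* AddMonoid.End M} {σ : D →* AddMonoid.End M}

theorem pb2_B2 (hf : Continuous f) (hσ : ρ.comp f = σ) {α : G → G → M} (h : α ∈ BKND.B2 ρ) :
    pb2 f α ∈ BKND.B2 σ := by
  obtain ⟨β, ⟨W, hW, hβ⟩, hβ'⟩ := h
  refine ⟨fun d => β (f d), ⟨W.comap f, hW.preimage hf, fun g w hw => ?_⟩, fun g h => ?_⟩
  · change β (f (g * w)) = β (f g)
    rw [map_mul]
    exact hβ _ _ hw
  · change α (f g) (f h) = σ g (β (f h)) - β (f (g * h)) + β (f g)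
    rw [hβ', ← hσ, map_mul]
    rfl

theorem pb2_Z2 (hf : Continuous f) (hσ : ρ.comp f = σ) {α : G → G → M} (h : α ∈ BKND.Z2 ρ) :
    pb2 f α ∈ BKND.Z2 σ := by
  obtain ⟨⟨W, hW, hα⟩, hα'⟩ := h
  refine ⟨⟨W.comap f, hW.preimage hf, fun g h w hw w' hw' => ?_⟩, fun g h k => ?_⟩
  · change α (f (g * w)) (f (h * w')) = _
    rw [map_mul, map_mul]
    exact hα _ _ _ hw _ hw'
  · have := hα' (f g) (f h) (f k)
    rw [← map_mul, ← map_mul] at this
    rw [← hσ]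
    exact this

end PB

variable {p : ℕ} [Fact p.Prime]

/-- the subgroup on which a homomorphism is divisible by `p ^ M` -/
theorem exists_sub {V : Type*} [Group V] [TopologicalSpace V] {θ : V → ℤ_[p]} (hθ : IsHom θ)
    (M : ℕ) : ∃ U : Subgroup V, ∀ g, g ∈ U ↔ (p : ℤ_[p]) ^ M ∣ θ g := by
  have h1 : θ 1 = 0 := by
    have := hθ.mul 1 1
    rw [mul_one] at this
    exact left_eq_add.1 this
  refine ⟨{ carrier := {g | (p : ℤ_[p]) ^ M ∣ θ g}
            mul_mem' := ?_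
            one_mem' := ?_
            inv_mem' := ?_ }, fun g => Iff.rfl⟩
  · intro a b ha hb
    change _ ∣ θ (a * b)
    rw [hθ.mul]
    exact dvd_add ha hb
  · change _ ∣ θ 1
    rw [h1]
    exact dvd_zero _
  · intro a ha
    have h2 := hθ.mul a⁻¹ a
    rw [inv_mul_cancel, h1] at h2
    have h3 : θ a⁻¹ = -θ a := by linear_combination -h2
    change _ ∣ θ a⁻¹
    rw [h3, dvd_neg]
    exact ha

/-- the logarithm of the cyclotomic character of `ℚ_p` is surjective -/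
theorem lam_surj {l : ℕ} [Fact l.Prime] (hl : l = p) (h9 : BKLoc2.StCyP)
    {lam : ℤ_[p]ˣ → ℤ_[p]} (hlam : IsLam lam) (y : ℤ_[p]) : ∃ t : GQ l, lam (cyL p l t) = y := by
  subst hl
  obtain ⟨u, hu1, hu2⟩ := BKLoc2.RPBAux.exists_unit l
  have hc : IsUnit (lam u) := by
    rw [BKLoc2.RPBAux.isUnit_iff_not_dvd]
    intro hd
    apply hlam.ne u hu1 hu2
    obtain ⟨w, hw⟩ := hd
    rw [hw, map_mul, map_natCast, ZMod.natCast_self, zero_mul]
  obtain ⟨v, hv⟩ := BKLoc2.RPBAux.surj_of hlam.cont hc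
    (fun n => ⟨u ^ n, BKLoc2.RPBAux.lam_pow hlam u n⟩) y
  obtain ⟨t, ht⟩ := h9 l v
  exact ⟨t, by rw [ht, hv]⟩

/-- powers of the inverse of a root of unity -/
theorem inv_pow_val {Ω : Type} [Field Ω] {z : ℕ → Ω} (hz : Sys p z) (n : ℕ) (m : ZMod (p ^ n)) :
    (z n)⁻¹ ^ m.val = z n ^ (-m).val := by
  have hne : NeZero (p ^ n) := ⟨pow_ne_zero _ (Fact.out : p.Prime).ne_zero⟩
  have h0 : z n ≠ 0 := (hz.prim n).ne_zero (NeZero.ne _)
  have h1 : z n ^ (m.val + (-m).val) = 1 := by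
    rw [← pow_zero (z n)]
    refine BKLoc2.CrNAux.pow_congr hz n ?_
    push_cast
    rw [ZMod.natCast_zmod_val, ZMod.natCast_zmod_val, add_neg_cancel]
  rw [pow_add] at h1
  rw [inv_pow]
  exact (eq_inv_of_mul_eq_one_right h1).symm

section Loc

variable {F : Type} [Field F] [NumberField F] {l : ℕ} [Fact l.Prime]
  {J : AlgebraicClosure F →+* PadicAlgCl l} {r : GQ l →* GF F}

omit [NumberField F] in
/-- the image of an element of `F` is in `ℚ_l` -/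
theorem mem_ql [CharZero F] (spec : ∀ (t : GQ l) (x : AlgebraicClosure F), J (r t x) = t (J x)) (a : F) :
    ∃ a₁ : ℚ_[l], algebraMap ℚ_[l] (PadicAlgCl l) a₁ = J (algebraMap F _ a) := by
  have h1 : J (algebraMap F _ a) ∈ (⊥ : IntermediateField ℚ_[l] (PadicAlgCl l)) := by
    rw [InfiniteGalois.mem_bot_iff_fixed]
    intro t
    rw [← spec, AlgEquiv.commutes]
  exact IntermediateField.mem_bot.1 h1

/-- the Kummer cocycle at the place -/
theorem kp_loc (spec : ∀ (t : GQ l) (x : AlgebraicClosure F), J (r t x) = t (J x))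
    {z : ℕ → AlgebraicClosure F} {a : AlgebraicClosure F} {κ : GF F → ℤ_[p]}
    (hκ : IsKP (MonoidHom.id (GF F)) z a κ) :
    IsKP (MonoidHom.id (GQ l)) (fun n => J (z n)) (J a) (fun t => κ (r t)) := by
  obtain ⟨y, h0, h1, h2⟩ := hκ
  refine ⟨fun n => J (y n), congrArg J h0, fun n => by rw [← map_pow, h1], fun n t => ?_⟩
  change t (J (y n)) = _
  rw [← spec]
  have h3 : (r t) (y n) = z n ^ (PadicInt.toZModPow n (κ (r t))).val * y n := h2 n (r t)
  rw [h3, map_mul, map_pow]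

/-- the Kummer cocycle at the conjugate place -/
theorem kp_conj (spec : ∀ (t : GQ l) (x : AlgebraicClosure F), J (r t x) = t (J x))
    {z : ℕ → AlgebraicClosure F} (hz : Sys p z) {a : AlgebraicClosure F} {κ : GF F → ℤ_[p]}
    (hκ : IsKP (MonoidHom.id (GF F)) z a κ)
    {c₀ : AlgebraicClosure F ≃+* AlgebraicClosure F} {cc : GF F →* GF F} (hcc : CC0 c₀ cc)
    (h2 : ∀ g, cc (cc g) = g) (hcz : ∀ n, c₀ (z n) = (z n)⁻¹) :
    IsKP (MonoidHom.id (GQ l)) (fun n => J (z n)) (J (c₀ a)) (fun t => -κ (cc (r t))) := by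
  obtain ⟨y, h0, h1, hy⟩ := hκ
  refine ⟨fun n => J (c₀ (y n)), congrArg (fun x => J (c₀ x)) h0, fun n => by rw [← map_pow, ← map_pow, h1],
    fun n t => ?_⟩
  change t (J (c₀ (y n))) = _
  rw [← spec]
  have h3 : (r t) (c₀ (y n)) = c₀ (cc (r t) (y n)) := by
    have h4 := hcc.eq (cc (r t)) (y n)
    rwa [h2] at h4
  have h5 : cc (r t) (y n) = z n ^ (PadicInt.toZModPow n (κ (cc (r t)))).val * y n :=
    hy n (cc (r t))
  rw [h3, h5, map_mul, map_pow, hcz, inv_pow_val hz, ← map_neg, map_mul, map_pow]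

/-- the invariant of a class which is a product -/
theorem inv_sc {lam : ℤ_[p]ˣ → ℤ_[p]} {z : ℕ → PadicAlgCl l}
    {inv : (GQ l → GQ l → QZ p) →+ QZ p} (hinv : InvL p lam l z inv) {f : GQ l →* GF F}
    (hf : Continuous f) (hχ : ∀ t, cycF p F (f t) = cyL p l t) {α : GF F → GF F → QZ p}
    (hα : α ∈ BKND.Z2 (actA (cycF p F))) {κ : GF F → ℤ_[p]} {M : ℕ}
    (hs : sc κ (fun g : GF F => lam (cycF p F g)) M ∈ BKND.Z2 (actA (cycF p F)))
    (hd : α - sc κ (fun g : GF F => lam (cycF p F g)) M ∈ BKND.B2 (actA (cycF p F))) :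
    inv (pb2 f α) = inv (sc (fun t => κ (f t)) (fun g => lam (cyL p l g)) M) := by
  have e1 : (actA (cycF p F)).comp f = actA (cyL p l) := by
    ext t : 1
    change actA (cycF p F) (f t) = _
    unfold actA
    simp only [MonoidHom.comp_apply, hχ]
  have f1 : inv (pb2 f (α - sc κ (fun g : GF F => lam (cycF p F g)) M)) = 0 :=
    (hinv.zero _ (pb2_Z2 hf e1 (sub_mem hα hs))).2 (pb2_B2 hf e1 hd)
  have g1 : pb2 f (α - sc κ (fun g : GF F => lam (cycF p F g)) M) =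
      pb2 f α - sc (fun t => κ (f t)) (fun g => lam (cyL p l g)) M := by
    funext t t'
    change α (f t) (f t') - cl p (((κ (f t) * lam (cycF p F (f t')) :
      ℤ_[p]) : ℚ_[p]) / (p : ℚ_[p]) ^ M) = α (f t) (f t') - cl p (((κ (f t) *
      lam (cyL p l t') : ℤ_[p]) : ℚ_[p]) / (p : ℚ_[p]) ^ M)
    rw [hχ]
  rwa [g1, map_sub, sub_eq_zero] at f1

/-- the invariants at the two places over `l` -/
theorem inv_two {lam : ℤ_[p]ˣ → ℤ_[p]} {z : ℕ → AlgebraicClosure F} (hz : Sys p z)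
    {inv : (GQ l → GQ l → QZ p) →+ QZ p} (hinv : InvL p lam l (fun n => J (z n)) inv)
    (spec : ∀ (t : GQ l) (x : AlgebraicClosure F), J (r t x) = t (J x))
    (hf : Continuous r) (hχ : ∀ t, cycF p F (r t) = cyL p l t)
    {c₀ : AlgebraicClosure F ≃+* AlgebraicClosure F} {cc : GF F →* GF F} (hcc : CC0 c₀ cc)
    (c1 : Continuous cc) (c2 : ∀ g, cc (cc g) = g) (c4 : ∀ g, cycF p F (cc g) = cycF p F g)
    (hcz : ∀ n, c₀ (z n) = (z n)⁻¹) {a₀ a' : F} {b : ℚ}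
    (ha' : c₀ (algebraMap F _ a₀) = algebraMap F _ a') (hb : algebraMap ℚ F b = a₀ * a')
    (hb0 : b ≠ 0)
    {α : GF F → GF F → QZ p} (hα : α ∈ BKND.Z2 (actA (cycF p F))) {κ : GF F → ℤ_[p]}
    (hκ : IsKP (MonoidHom.id (GF F)) z (algebraMap F _ a₀) κ) {M : ℕ}
    (hs : sc κ (fun g : GF F => lam (cycF p F g)) M ∈ BKND.Z2 (actA (cycF p F)))
    (hd : α - sc κ (fun g : GF F => lam (cycF p F g)) M ∈ BKND.B2 (actA (cycF p F))) :
    ∃ (a₁ a₂ : ℚ_[l]) (κ₁ κ₂ : GQ l → ℤ_[p]),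
      a₁ ≠ 0 ∧ a₂ ≠ 0 ∧ a₁ * a₂ = (b : ℚ_[l]) ∧
      IsKP (MonoidHom.id (GQ l)) (fun n => J (z n)) (algebraMap ℚ_[l] (PadicAlgCl l) a₁) κ₁ ∧
      IsKP (MonoidHom.id (GQ l)) (fun n => J (z n)) (algebraMap ℚ_[l] (PadicAlgCl l) a₂) κ₂ ∧
      inv (pb2 r α) - inv (pb2 (cc.comp r) α) =
        inv (sc κ₁ (fun g => lam (cyL p l g)) M) +
          inv (sc κ₂ (fun g => lam (cyL p l g)) M) := by
  obtain ⟨a₁, ha₁⟩ := mem_ql spec a₀
  obtain ⟨a₂, ha₂⟩ := mem_ql spec a'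
  have hinj := (algebraMap ℚ_[l] (PadicAlgCl l)).injective
  have hmul : a₁ * a₂ = (b : ℚ_[l]) := by
    apply hinj
    rw [map_mul, ha₁, ha₂, ← map_mul, ← map_mul, ← hb]
    simp
  have hb0' : ((b : ℚ) : ℚ_[l]) ≠ 0 := by exact_mod_cast hb0
  refine ⟨a₁, a₂, fun t => κ (r t), fun t => -κ (cc (r t)), ?_, ?_, hmul, ?_, ?_, ?_⟩
  · rintro rfl
    rw [zero_mul] at hmul
    exact hb0' hmul.symm
  · rintro rfl
    rw [mul_zero] at hmul
    exact hb0' hmul.symm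
  · rw [ha₁]
    exact kp_loc spec hκ
  · rw [ha₂, ← ha']
    exact kp_conj spec hz hκ hcc c2 hcz
  · have f1 := inv_sc hinv hf hχ hα hs hd
    have f2 := inv_sc hinv (f := cc.comp r) (c1.comp hf)
      (fun t => (c4 (r t)).trans (hχ t)) hα hs hd
    rw [f1, f2, sub_eq_add_neg]
    congr 1
    rw [← map_neg]
    congr 1
    funext t t'
    change -cl p (((κ (cc (r t)) * lam (cyL p l t') : ℤ_[p]) : ℚ_[p]) /
      (p : ℚ_[p]) ^ M) = cl p (((-κ (cc (r t)) * lam (cyL p l t') : ℤ_[p]) : ℚ_[p]) /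
      (p : ℚ_[p]) ^ M)
    rw [neg_mul, PadicInt.coe_neg, neg_div]
    exact (Submodule.Quotient.mk_neg _).symm

end Loc

end REAux

open REAux

/-- Module RE: the reciprocity law. -/
theorem stRE (h1 : StRA) (h2 : StLX) (h3 : StRN) (h4 : StRP) (h5 : StCJ) (h6 : StCY)
    (h7 : BKLoc2.StKPE) (h8 : BKLoc2.StSC) (h9 : BKLoc2.StCyP) : StRE := by
  intro p _ hp F _ _ hF hR c₀ cc hcc Λ _ hpP lam hlam z hz inv hinv α hα hloc
  have hna := nonarch F (AlgebraicClosure F)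
  obtain ⟨hc, -, k1, k2, -, -⟩ := h7 p F (AlgebraicClosure F) (GF F) (MonoidHom.id (GF F))
    continuous_id z hz
  have hc' : Continuous (cycF p F) := hc
  have hθ : IsHom (fun g : GF F => lam (cycF p F g)) :=
    ⟨hlam.cont.comp hc', fun g h => by rw [map_mul, hlam.mul]⟩
  -- the conjugation
  obtain ⟨-, hcj⟩ := h5 F hF hR c₀ hcc.conj
  obtain ⟨c1, c2, c3, c4, -⟩ := hcj cc hcc
  obtain ⟨c4, c5⟩ := c4 p hp
  have hcz := c5 z hz
  -- the subgroup far up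
  obtain ⟨M, hM⟩ := h1 p hp F hF hR Λ lam hlam α hα hloc
  have hM := hM M le_rfl
  obtain ⟨U, hU⟩ := exists_sub hθ M
  have hαU := hM U hU
  -- the characters
  have hchar : ∀ i (t : GQ (Λ.l i)), cycF p F (Λ.r i t) = cyL p (Λ.l i) t := fun i t =>
    (h6 p F (AlgebraicClosure F) ℚ_[Λ.l i] (PadicAlgCl (Λ.l i))).2 (Λ.j i) (Λ.r i t) t
      (Λ.spec i t)
  obtain ⟨i₀, hi₀⟩ := hpP
  obtain ⟨t₀, ht₀⟩ := lam_surj (l := Λ.l i₀) hi₀ h9 hlam 1
  -- the global class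
  obtain ⟨a, ha0, haf, hak⟩ := h2 p F (AlgebraicClosure F) (GF F) (MonoidHom.id (GF F))
    Topology.IsOpenEmbedding.id z hz (fun g : GF F => lam (cycF p F g)) hθ (Λ.r i₀ t₀)
    (by
      change lam (cycF p F (Λ.r i₀ t₀)) = 1
      rw [hchar, ht₀]) M U hU α hα hαU
  obtain ⟨κ, hκ⟩ := k1 a ha0 haf
  have hd : α - sc κ (fun g : GF F => lam (cycF p F g)) M ∈ BKND.B2 (actA (cycF p F)) :=
    hak κ hκ
  obtain ⟨s1, s2, -, -, -, -⟩ := h8 p (GF F) (cycF p F) hc' _ hθ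
  have hs : sc κ (fun g : GF F => lam (cycF p F g)) M ∈ BKND.Z2 (actA (cycF p F)) :=
    s1 κ (k2 a κ ha0 hκ) M
  have hbot : a ∈ (⊥ : IntermediateField F (AlgebraicClosure F)) := by
    rw [InfiniteGalois.mem_bot_iff_fixed]
    exact haf
  obtain ⟨a₀, rfl⟩ := IntermediateField.mem_bot.1 hbot
  have ha₀ : a₀ ≠ 0 := by
    rintro rfl
    exact ha0 (map_zero _)
  obtain ⟨a', ha', b, hb⟩ := c3 a₀
  have ha'0 : a' ≠ 0 := by
    rintro rfl
    rw [map_zero, map_eq_zero_iff _ c₀.injective] at ha'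
    exact ha0 ha'
  have hb0 : b ≠ 0 := by
    rintro rfl
    rw [map_zero] at hb
    exact mul_ne_zero ha₀ ha'0 hb.symm
  -- the product formula
  refine h4 p hp lam hlam Λ.ι Λ.l Λ.inj (fun i => (Λ.pr i).out) ⟨i₀, hi₀⟩ b hb0 M
    (fun q hq hqP u hu => ?_) _ (fun i hi u hu => ?_) (fun i hi u hu => ?_)
  · have : Fact q.Prime := ⟨hq⟩
    have hqp : q ≠ p := by
      rintro rfl
      exact hqP ⟨i₀, hi₀⟩
    refine h3 p hp F hF hR c₀ hcc.conj lam hlam z hz a₀ a' b ha₀ ha' hb κ hκ M q hqp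
      (fun j => ?_) u hu
    have hfs : Continuous (fs (MonoidHom.id (GF F)) j) :=
      continuous_fst.comp continuous_subtype_val
    have e := sub_mem (hloc q hqP j) (pb2_B2 hfs rfl hd :
      pb2 (fs (MonoidHom.id (GF F)) j) (α - sc κ (fun g : GF F => lam (cycF p F g)) M) ∈
        BKND.B2 (actA ((cycF p F).comp (fs (MonoidHom.id (GF F)) j))))
    have e' : pb2 (fs (MonoidHom.id (GF F)) j) α - pb2 (fs (MonoidHom.id (GF F)) j)
        (α - sc κ (fun g : GF F => lam (cycF p F g)) M) =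
        pb2 (fs (MonoidHom.id (GF F)) j) (sc κ (fun g : GF F => lam (cycF p F g)) M) := by
      funext t t'
      exact sub_sub_cancel _ _
    rwa [e'] at e
  · obtain ⟨a₁, a₂, κ₁, κ₂, n1, n2, hm, q1, q2, q3⟩ := inv_two hz (hinv i) (Λ.spec i) (Λ.cont i)
      (hchar i) hcc c1 c2 c4 hcz ha' hb hb0 hα hκ hs hd
    rw [q3, (hinv i).ne hi u hu a₁ n1 κ₁ q1 M, (hinv i).ne hi u hu a₂ n2 κ₂ q2 M,
      ← BKLoc2.SCAux.cl_add, ← add_div, ← PadicInt.coe_add, ← add_mul, ← Int.cast_add,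
      ← Padic.valuation_mul n1 n2, hm, Padic.valuation_ratCast]
  · obtain ⟨a₁, a₂, κ₁, κ₂, n1, n2, hm, q1, q2, q3⟩ := inv_two hz (hinv i) (Λ.spec i) (Λ.cont i)
      (hchar i) hcc c1 c2 c4 hcz ha' hb hb0 hα hκ hs hd
    rw [q3]
    exact (hinv i).eq hi u b a₁ a₂ hm hb0 hu κ₁ κ₂ q1 q2 M

end BKGlob2
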