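import Pool.Agent.Lib.MP_7c08ba_nt.Met.HStmts
import Pool.Agent.Lib.MP_7c08ba_nt.Odd.H90
import Pool.Agent.Lib.MP_7c08ba_nt.Odd.Kum
import Pool.Agent.Lib.MP_7c08ba_nt.Odd.Desc
import Pool.Agent.Lib.MP_7c08ba_nt.Odd.Cyc
import Pool.Agent.Lib.MP_7c08ba_nt.Gen.Unram

set_option autoImplicit false

/-!
Module ON: a one-class of `GS F P` which is trivial at the places in `P` is trivial. The restriction
of a cocycle `f` to `U` is a homomorphism with values in `k`; its coordinates are Kummer characters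
of elements `a` of `E`, which are `p`-th powers at the places in `P` and have valuations divisible
by `p` at the other places. By `StOQ` they are `p`-th powers, so `f` vanishes on `U`.
-/

noncomputable section

namespace BKGlob2

open NumberField IsDedekindDomain BKGen
open BKOdd (Fx IsKum IsNm chm chZ ConjHyp)
open BKLoc2 (cl sc im cy cyL Sys IsKP IsLam IsHom StLoc hq ht PP)
open BKMet (QZ actA kch Rel GF GQ cycF cycL IsConj RS GS Pl Splits pb1 pb2 LocAx GlobAx StArith)
open BKPar (Loc1 Loc2)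

namespace ON

theorem enough (p : ℕ) [Fact p.Prime] (F : Type) [Field F] [CharZero F] (i : ℕ) :
    HasEnoughRootsOfUnity (AlgebraicClosure F) (p ^ i) := by
  have : CharZero (AlgebraicClosure F) := charZero_of_injective_algebraMap
    (algebraMap F (AlgebraicClosure F)).injective
  have : NeZero (((p ^ i : ℕ)) : AlgebraicClosure F) := ⟨by
    rw [Nat.cast_ne_zero]
    exact pow_ne_zero _ (Fact.out : p.Prime).ne_zero⟩
  infer_instance

theorem exists_zeta (p : ℕ) [Fact p.Prime] (F : Type) [Field F] [CharZero F] :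
    ∃ ζ : AlgebraicClosure F, IsPrimitiveRoot ζ p := by
  have := enough p F 1
  have h := HasEnoughRootsOfUnity.exists_primitiveRoot (AlgebraicClosure F) (p ^ 1)
  rwa [pow_one] at h

theorem zeta_fix {p : ℕ} [Fact p.Prime] {F : Type} [Field F] [CharZero F]
    {ζ : AlgebraicClosure F} (hζ : IsPrimitiveRoot ζ p) (g : GF F)
    (h : PadicInt.toZMod ((cycF p F g : ℤ_[p]ˣ) : ℤ_[p]) = 1) : g ζ = ζ := by
  have hE : ∀ i : ℕ, HasEnoughRootsOfUnity (AlgebraicClosure F) (p ^ i) := enough p F
  have h2 : g ζ = ζ ^ (PadicInt.toZModPow 1 ((cycF p F g : ℤ_[p]ˣ) : ℤ_[p])).val :=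
    cyclotomicCharacter.spec p (MulSemiringAction.toRingAut (GF F) (AlgebraicClosure F) g)
      (n := 1) ζ (by rw [pow_one]; exact hζ.pow_eq_one)
  have h3 := BKOdd.CycAux.toZMod_eq ((cycF p F g : ℤ_[p]ˣ) : ℤ_[p])
  rw [h] at h3
  have h4 : (((PadicInt.toZModPow 1 ((cycF p F g : ℤ_[p]ˣ) : ℤ_[p])).val : ℕ) : ZMod p) =
      ((1 : ℕ) : ZMod p) := by rw [← h3, Nat.cast_one]
  rw [ZMod.natCast_eq_natCast_iff] at h4
  rw [h2]
  conv_rhs => rw [← pow_one ζ]
  exact pow_eq_pow_of_modEq h4 hζ.pow_eq_one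

/-- an element fixed by the decomposition group of `j` is in the completion -/
theorem mem_comp_of {l : ℕ} [Fact l.Prime] {K Ω : Type*} [Field K] [Field Ω] [Algebra K Ω]
    [Normal K Ω] (j : Ω →+* PadicAlgCl l) (α : Ω)
    (h : ∀ (σ : Ω ≃ₐ[K] Ω) (τ : PadicAlgCl l ≃ₐ[ℚ_[l]] PadicAlgCl l),
      (∀ x, j (σ x) = τ (j x)) → σ α = α) : j α ∈ comp l (j.comp (algebraMap K Ω)) := by
  have h1 : j α ∈ Set.range (algebraMap (comp l (j.comp (algebraMap K Ω))) (PadicAlgCl l)) := by
    rw [InfiniteGalois.mem_range_algebraMap_iff_fixed]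
    intro τ
    obtain ⟨σ, hσ⟩ := exists_restrict j τ
    rw [← hσ, h σ (τ.restrictScalars ℚ_[l]) hσ]
  obtain ⟨y, hy⟩ := h1
  rw [← hy]
  exact y.2

/-- embeddings extend to the algebraic closure -/
theorem exists_lift {F : Type} [Field F] (E : IntermediateField F (AlgebraicClosure F)) {l : ℕ}
    [Fact l.Prime] (j : E →+* PadicAlgCl l) :
    ∃ J : AlgebraicClosure F →+* PadicAlgCl l, J.comp (algebraMap E (AlgebraicClosure F)) = j := by
  let _ : Algebra E (PadicAlgCl l) := j.toAlgebra
  have : Algebra.IsAlgebraic E (AlgebraicClosure F) :=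
    Algebra.IsAlgebraic.tower_top (K := F) E
  let φ : AlgebraicClosure F →ₐ[E] PadicAlgCl l := IsAlgClosed.lift
  exact ⟨φ.toRingHom, RingHom.ext fun x => φ.commutes x⟩

/-- an element of the Galois group which fixes the field of the open subgroup `U` is in `U` -/
theorem mem_of_fix {F : Type} [Field F] [CharZero F] {U : Subgroup (GF F)}
    (hU : IsOpen (U : Set (GF F))) {E : IntermediateField F (AlgebraicClosure F)}
    (hE : ∀ x, x ∈ E ↔ ∀ g ∈ U, g x = x) (g : GF F) (hg : ∀ x ∈ E, g x = x) : g ∈ U := by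
  have hcl : IsClosed (U : Set (GF F)) := U.isClosed_of_isOpen hU
  have h1 : E = IntermediateField.fixedField U := by
    ext x
    rw [hE, IntermediateField.mem_fixedField_iff]
  have h2 := InfiniteGalois.fixingSubgroup_fixedField ⟨U, hcl⟩
  have h3 : g ∈ (IntermediateField.fixedField U).fixingSubgroup := by
    rw [IntermediateField.mem_fixingSubgroup_iff]
    intro x hx
    rw [← h1] at hx
    exact hg x hx
  have h4 : g ∈ ((⟨U, hcl⟩ : ClosedSubgroup (GF F)) : Subgroup (GF F)) := by
    rw [← h2]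
    exact h3
  exact h4

/-- the elements of `Gal(Ω / E)`, as elements of `GF F` -/
theorem restrict_mem {F : Type} [Field F] [CharZero F] {U : Subgroup (GF F)}
    (hU : IsOpen (U : Set (GF F))) {E : IntermediateField F (AlgebraicClosure F)}
    (hE : ∀ x, x ∈ E ↔ ∀ g ∈ U, g x = x) (σ : AlgebraicClosure F ≃ₐ[E] AlgebraicClosure F) :
    (σ.restrictScalars F : GF F) ∈ U :=
  mem_of_fix hU hE _ fun x hx => σ.commutes ⟨x, hx⟩

end ON

open ON

/-- Module ON. -/
theorem stON (h1 : StOQ) (h2 : BKLoc2.StTRM) : StON := by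
  intro p _ F _ _ P U E _ hS k _ _ _ ψ hψ f hf hloc
  have : CharZero (AlgebraicClosure F) := charZero_of_injective_algebraMap
    (algebraMap F (AlgebraicClosure F)).injective
  have hpp : p.Prime := Fact.out
  obtain ⟨ζ, hζ⟩ := exists_zeta p F
  have hζU : ∀ g ∈ U, g ζ = ζ := fun g hg => zeta_fix hζ g (hS.root g hg)
  have hζE : ζ ∈ E := (hS.field ζ).2 hζU
  have hζE' : IsPrimitiveRoot (⟨ζ, hζE⟩ : E) p := by
    have : IsPrimitiveRoot (algebraMap E (AlgebraicClosure F) ⟨ζ, hζE⟩) p := hζ
    exact this.of_map_of_injective (algebraMap E (AlgebraicClosure F)).injective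
  have : Normal E (AlgebraicClosure F) := Normal.tower_top_of_normal F E (AlgebraicClosure F)
  -- the Kummer theory of `U`
  have he : Topology.IsOpenEmbedding (U.subtype : U →* GF F) :=
    hS.open'.isOpenEmbedding_subtypeVal
  obtain ⟨-, hK2, -, -, hK5⟩ := BKOdd.stKum BKOdd.stH90 F (AlgebraicClosure F) U U.subtype he p ζ hζ
    (fun v => hζU _ v.2)
  have hFx : ∀ x : AlgebraicClosure F, Fx U.subtype x ↔ x ∈ E := by
    intro x
    rw [hS.field]
    exact ⟨fun h g hg => h ⟨g, hg⟩, fun h v => h v v.2⟩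
  obtain ⟨hf1, hf2⟩ := hf
  have hf0 : f 1 = 0 := by
    have h := hf2 1 1
    rw [mul_one, map_one] at h
    change f 1 = f 1 + f 1 at h
    exact left_eq_add.1 h
  have hψU : ∀ g ∈ U, ∀ x : k, kch ψ (QuotientGroup.mk g) x = x := by
    intro g hg x
    rw [BKMet.kch_apply, hψ g hg, Units.val_one, one_mul]
  have hfU : ∀ g ∈ U, ∀ h ∈ U, f (QuotientGroup.mk (g * h)) =
      f (QuotientGroup.mk g) + f (QuotientGroup.mk h) := by
    intro g hg h hh
    have h3 := hf2 (QuotientGroup.mk g) (QuotientGroup.mk h)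
    rw [hψU g hg] at h3
    exact h3
  -- the coordinates
  have hcoord : ∀ L : k →ₗ[ZMod p] ZMod p, ∀ g ∈ U, L (f (QuotientGroup.mk g)) = 0 := by
    intro L
    set κ : U → ZMod p := fun v => L (f (QuotientGroup.mk (v : GF F))) with hκ
    have hκ1 : κ ∈ CC.Z1 (1 : U →* ZMod p) := by
      refine ⟨?_, ?_⟩
      · obtain ⟨W, hW, hWf⟩ := hf1
        apply IsLocallyConstant.continuous
        rw [IsLocallyConstant.iff_exists_open]
        intro v
        refine ⟨(fun v' : U => (QuotientGroup.mk (v : GF F) : GS F P)⁻¹ *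
          (QuotientGroup.mk (v' : GF F) : GS F P)) ⁻¹' (W : Set (GS F P)), ?_, ?_, ?_⟩
        · have hc : Continuous (fun v' : U => (QuotientGroup.mk (v' : GF F) : GS F P)) :=
            QuotientGroup.continuous_mk.comp continuous_subtype_val
          exact hW.preimage (continuous_const.mul hc)
        · rw [Set.mem_preimage, inv_mul_cancel]
          exact W.one_mem
        · intro v' hv'
          have h := hWf (QuotientGroup.mk (v : GF F)) _ hv'
          rw [mul_inv_cancel_left] at h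
          rw [hκ]
          simp only [h]
      · intro g h
        change L (f (QuotientGroup.mk ((g : GF F) * (h : GF F)))) =
          L (f (QuotientGroup.mk (g : GF F))) + 1 * L (f (QuotientGroup.mk (h : GF F)))
        rw [hfU _ g.2 _ h.2, map_add, one_mul]
    obtain ⟨a, ha0, hafx, y, hy0, hya, hyv⟩ := hK2 κ hκ1
    have haE : a ∈ E := (hFx a).1 hafx
    have hfix : ∀ v : U, κ v = 0 → (v : GF F) y = y := by
      intro v hv
      have h := hyv v
      rw [hv, ZMod.val_zero, pow_zero, one_mul] at h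
      exact h
    have hOQ : ∃ b : E, b ^ p = ⟨a, haE⟩ := by
      refine h1 p hS.odd E ⟨ζ, hζE⟩ hζE' P hS.finP hS.prime hS.memP hS.prin ⟨a, haE⟩ ?_ ?_ ?_
      · intro h
        exact ha0 (congrArg Subtype.val h)
      · intro l _ hl j'
        obtain ⟨j, rfl⟩ := exists_lift E j'
        refine ⟨j y, ?_, ?_⟩
        · refine mem_comp_of j y fun σ τ hστ => ?_
          have hσU : (σ.restrictScalars F : GF F) ∈ U := restrict_mem hS.open' hS.field σ
          obtain ⟨m, hm⟩ := hloc l hl j
          have h3 := hm ⟨(σ.restrictScalars F, τ), hστ⟩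
          have h4 : f (QuotientGroup.mk (σ.restrictScalars F : GF F)) =
              kch ψ (QuotientGroup.mk (σ.restrictScalars F : GF F)) m - m := h3
          rw [hψU _ hσU, sub_self] at h4
          exact hfix ⟨σ.restrictScalars F, hσU⟩ (by rw [hκ]; simp only [h4, map_zero])
        · rw [← map_pow, hya]
          rfl
      · intro l _ hl j'
        obtain ⟨j, rfl⟩ := exists_lift E j'
        have h3 : ∀ σ ∈ Inert E (AlgebraicClosure F) j, σ y = y := by
          intro σ hσ
          have hσU : (σ.restrictScalars F : GF F) ∈ U := restrict_mem hS.open' hS.field σ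
          have hσR : (σ.restrictScalars F : GF F) ∈ RS F P := by
            refine Subgroup.le_topologicalClosure _ (Subgroup.subset_normalClosure ?_)
            exact ⟨l, inferInstance, j, hl, hσ⟩
          have h4 : (QuotientGroup.mk (σ.restrictScalars F : GF F) : GS F P) = 1 :=
            (QuotientGroup.eq_one_iff _).2 hσR
          exact hfix ⟨σ.restrictScalars F, hσU⟩ (by rw [hκ]; simp only [h4, hf0, map_zero])
        obtain ⟨b, hb⟩ := norm_of_fixed_inert j y h3
        refine ⟨b, ?_⟩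
        change ‖j a‖ = ‖j (algebraMap E (AlgebraicClosure F) b)‖ ^ p
        rw [← hb, ← norm_pow, ← map_pow, hya]
    obtain ⟨b, hb⟩ := hOQ
    have h5 : κ = 0 := (hK5 a κ ⟨y, hy0, hya, hyv⟩).2 ⟨(b : AlgebraicClosure F), (hFx _).2 b.2, by
      have := congrArg Subtype.val hb
      exact this⟩
    intro g hg
    exact congrFun h5 ⟨g, hg⟩
  have hvan : ∀ g ∈ U, f (QuotientGroup.mk g) = 0 := by
    intro g hg
    exact (Module.forall_dual_apply_eq_zero_iff (ZMod p) _).1 fun L => hcoord L g hg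
  -- transfer
  have hnA : NonarchimedeanGroup (GS F P) := BKOdd.nonarch_quotient (RS F P)
  set H : Subgroup (GS F P) := U.map (QuotientGroup.mk' (RS F P)) with hH
  have hHo : IsOpen (H : Set (GS F P)) := QuotientGroup.isOpenMap_coe _ hS.open'
  have hUH : ∀ g ∈ U, (QuotientGroup.mk g : GS F P) ∈ H := fun g hg => ⟨g, hg, rfl⟩
  have hidx : H.index = U.index := by
    refine Subgroup.index_map_eq U (QuotientGroup.mk'_surjective _) ?_
    rw [QuotientGroup.ker_mk']
    exact hS.ram
  have hU0 : U.index ≠ 0 := by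
    intro h
    exact hS.index (h ▸ dvd_zero p)
  have hfin : Finite (GS F P ⧸ H) := by
    rw [← hidx] at hU0
    exact Nat.finite_of_card_ne_zero hU0
  have hSm : BKND.Sm (kch ψ) := by
    refine ⟨H, hHo, ?_⟩
    rintro _ ⟨g, hg, rfl⟩
    refine AddMonoidHom.ext fun x => ?_
    exact hψU g hg x
  have hpk : ∀ n : k, p • n = 0 := by
    intro n
    rw [← Nat.cast_smul_eq_nsmul (ZMod p), ZMod.natCast_self, zero_smul]
  obtain ⟨-, -, -, -, -, h6⟩ := h2 (GS F P) H hHo hfin k k k (kch ψ) 1 1 0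
    ⟨⊤, isOpen_univ, fun _ _ => rfl⟩ (fun n' => ⟨⊤, isOpen_univ, fun _ _ => rfl⟩)
    (fun g n n' => rfl)
  refine (h6 p hpp (by rw [hidx]; exact hS.index) hpk hSm).1 f ⟨hf1, hf2⟩ ⟨0, ?_⟩
  rintro ⟨_, g, hg, rfl⟩
  rw [map_zero, sub_zero]
  exact hvan g hg

end BKGlob2
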