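import Pool.Agent.Lib.MP_7c08ba_nt.Met.HStmts
import Pool.Agent.Lib.MP_7c08ba_nt.Gen.Local

set_option autoImplicit false

/-!
Parity without rigidity, global part 2, module RN: divisibility of the valuations of the norm.
-/

noncomputable section

namespace BKGlob2

open NumberField IsDedekindDomain BKGen
open BKOdd (Fx IsKum IsNm chm chZ ConjHyp)
open BKLoc2 (cl sc im cy cyL Sys IsKP IsLam IsHom StLoc hq ht PP)
open BKMet (QZ actA kch Rel GF GQ cycF cycL IsConj RS GS Pl Splits pb1 pb2 LocAx GlobAx StArith)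
open BKPar (Loc1 Loc2)

namespace RN

section Loc

variable {F : Type} [Field F] [NumberField F] {l : ℕ} [Fact l.Prime]

/-- the map from the decomposition group to the Galois group of `ℚ_l` -/
abbrev sj (j : AlgebraicClosure F →+* PadicAlgCl l) : Cp (MonoidHom.id (GF F)) j →* GQ l :=
  sn (MonoidHom.id (GF F)) j

/-- the map from the decomposition group to the Galois group of `F` -/
abbrev fj (j : AlgebraicClosure F →+* PadicAlgCl l) : Cp (MonoidHom.id (GF F)) j →* GF F :=
  fs (MonoidHom.id (GF F)) j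

omit [NumberField F] in
theorem rel (j : AlgebraicClosure F →+* PadicAlgCl l) (c : Cp (MonoidHom.id (GF F)) j)
    (x : AlgebraicClosure F) : j (fj j c x) = sj j c (j x) :=
  Cp_rel (MonoidHom.id (GF F)) j c x

theorem mem_range (j : AlgebraicClosure F →+* PadicAlgCl l) (t : GQ l) :
    t ∈ (sj j).range ↔ ∀ x : F, t (j (algebraMap F (AlgebraicClosure F) x)) =
      j (algebraMap F (AlgebraicClosure F) x) := by
  constructor
  · rintro ⟨c, rfl⟩ x
    have h := rel j c (algebraMap F (AlgebraicClosure F) x)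
    rw [AlgEquiv.commutes] at h
    exact h.symm
  · intro h
    have ht : t ∈ (comp l (j.comp (algebraMap F (AlgebraicClosure F)))).fixingSubgroup := by
      rw [IntermediateField.mem_fixingSubgroup_iff]
      intro x hx
      induction hx using IntermediateField.adjoin_induction with
      | mem x hx =>
        obtain ⟨a, rfl⟩ := hx
        exact h a
      | algebraMap x => exact AlgEquiv.commutes _ _
      | add x y _ _ hx hy => rw [map_add, hx, hy]
      | inv x _ hx => rw [map_inv₀, hx]
      | mul x y _ _ hx hy => rw [map_mul, hx, hy]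
    obtain ⟨σ, hσ⟩ := exists_restrict j (IntermediateField.fixingSubgroupEquiv _ ⟨t, ht⟩)
    exact ⟨⟨(σ, t), hσ⟩, rfl⟩

theorem nonarch (K : Type) [Field K] : NonarchimedeanGroup (GF K) where
  is_nonarchimedean := by
    intro U hU
    rw [krullTopology_mem_nhds_one_iff] at hU
    obtain ⟨E, hE, hEU⟩ := hU
    exact ⟨⟨E.fixingSubgroup, IntermediateField.fixingSubgroup_isOpen E⟩, hEU⟩

theorem local_claim {p : ℕ} [Fact p.Prime] (h1 : BKLoc2.StInvV) (h2 : StCP) (h3 : StCY)
    (hp : p ≠ 2) {lam : ℤ_[p]ˣ → ℤ_[p]} (hlam : IsLam lam) {z : ℕ → AlgebraicClosure F}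
    (hz : Sys p z) {a : F} (ha : a ≠ 0) {κ : GF F → ℤ_[p]}
    (hκ : IsKP (MonoidHom.id (GF F)) z (algebraMap F (AlgebraicClosure F) a) κ) {M : ℕ}
    (hl : l ≠ p) (j : AlgebraicClosure F →+* PadicAlgCl l)
    (hj : pb2 (fs (MonoidHom.id (GF F)) j) (sc κ (fun g => lam (cycF p F g)) M) ∈
        BKND.B2 (actA ((cycF p F).comp (fs (MonoidHom.id (GF F)) j)))) {u : ℤ_[p]ˣ}
    (hu : ((u : ℤ_[p]ˣ) : ℤ_[p]) = l) :
    ∃ a1 : ℚ_[l], a1 ≠ 0 ∧ algebraMap ℚ_[l] (PadicAlgCl l) a1 =
      (∏ᶠ q : GQ l ⧸ (sj j).range, q.out (j (algebraMap F (AlgebraicClosure F) a))) ∧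
      (p : ℤ_[p]) ^ M ∣ (a1.valuation : ℤ) * lam u := by
  have hna : NonarchimedeanGroup (GF F) := nonarch F
  obtain ⟨hemb, -, -, -, -⟩ := h2 F (AlgebraicClosure F) (GF F) (MonoidHom.id (GF F))
    Topology.IsOpenEmbedding.id l j
  have hopen : IsOpen ((sj j).range : Set (GQ l)) := hemb.isOpen_range
  let E : Cp (MonoidHom.id (GF F)) j ≃* (sj j).range := MonoidHom.ofInjective hemb.injective
  have hE : ∀ c, ((E c : (sj j).range) : GQ l) = sj j c := fun c => rfl
  have hcy : ∀ c, cycF p F (fj j c) = cyL p l (sj j c) := fun c =>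
    (h3 p F (AlgebraicClosure F) ℚ_[l] (PadicAlgCl l)).2 j _ _ fun x => rel j c x
  have hz' : Sys p fun n => j (z n) :=
    ⟨fun n => (hz.prim n).map_of_injective j.injective, fun n => by
      rw [← map_pow, hz.pow]⟩
  refine h1.1 p l hp hl lam hlam u hu (fun n => j (z n)) hz' _ hopen _ ?_ ?_
    (fun t => κ (fj j (E.symm t))) ?_ M ?_
  · intro h0
    rw [map_eq_zero, map_eq_zero] at h0
    exact ha h0
  · intro t ht
    exact (mem_range j t).1 ht a
  · obtain ⟨y, hy0, hy1, hy2⟩ := hκ
    refine ⟨fun n => j (y n), ?_, fun n => ?_, fun n v => ?_⟩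
    · exact congrArg j hy0
    · rw [← map_pow, hy1]
    · obtain ⟨c, rfl⟩ := E.surjective v
      have h5 := hy2 n (fj j c)
      change fj j c (y n) = _ at h5
      change sj j c (j (y n)) = j (z n) ^
        ((PadicInt.toZModPow n) (κ (fj j (E.symm (E c))))).val * j (y n)
      rw [E.symm_apply_apply, ← rel, h5, map_mul, map_pow]
  · obtain ⟨β, ⟨W, hW, hW'⟩, hβ⟩ := hj
    refine ⟨fun t => β (E.symm t), ⟨W.comap E.symm.toMonoidHom, ?_, ?_⟩, ?_⟩
    · have e : ((W.comap E.symm.toMonoidHom : Subgroup (sj j).range) : Set (sj j).range) =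
          Subtype.val ⁻¹' (sj j '' (W : Set (Cp (MonoidHom.id (GF F)) j))) := by
        ext t
        obtain ⟨c, rfl⟩ := E.surjective t
        simp only [Subgroup.coe_comap, Set.mem_preimage, MulEquiv.toMonoidHom_eq_coe,
          MonoidHom.coe_coe, E.symm_apply_apply, SetLike.mem_coe, hE, Set.mem_image]
        constructor
        · intro h
          exact ⟨c, h, rfl⟩
        · rintro ⟨c', h, h'⟩
          rwa [← hemb.injective h']
      rw [e]
      exact (hemb.isOpenMap _ hW).preimage continuous_subtype_val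
    · intro g w hw
      change β (E.symm (g * w)) = β (E.symm g)
      rw [map_mul]
      exact hW' _ _ hw
    · intro g h
      obtain ⟨c, rfl⟩ := E.surjective g
      obtain ⟨d, rfl⟩ := E.surjective h
      have h5 := hβ c d
      simp only [E.symm_apply_apply, ← map_mul]
      simp only [sc, hE]
      simp only [pb2, sc] at h5
      rw [E.symm_apply_apply, ← hcy d, h5]
      have h6 : actA ((cycF p F).comp (fs (MonoidHom.id (GF F)) j)) c =
          actA ((cyL p l).comp (sj j).range.subtype) (E c) := by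
        have h7 : ((cycF p F).comp (fs (MonoidHom.id (GF F)) j)) c =
            ((cyL p l).comp (sj j).range.subtype) (E c) := hcy c
        exact congrArg (fun w : ℤ_[p]ˣ => Module.toAddMonoidEnd ℤ_[p] (QZ p) (w : ℤ_[p])) h7
      rw [h6]

/-- the two embeddings of a quadratic field -/
theorem two_emb (hF : Module.finrank ℚ F = 2) (c : AlgebraicClosure F ≃+* AlgebraicClosure F)
    (hc : ∃ a : F, c (algebraMap F (AlgebraicClosure F) a) ≠ algebraMap F _ a)
    (j : AlgebraicClosure F →+* PadicAlgCl l) (t : GQ l) :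
    (∀ x : F, t (j (algebraMap F (AlgebraicClosure F) x)) = j (algebraMap F _ x)) ∨
      ∀ x : F, t (j (algebraMap F (AlgebraicClosure F) x)) = j (c (algebraMap F _ x)) := by
  classical
  have hcard : Fintype.card (F →+* PadicAlgCl l) = 2 := by
    rw [NumberField.Embeddings.card F (PadicAlgCl l), hF]
  let f₁ : F →+* PadicAlgCl l := j.comp (algebraMap F (AlgebraicClosure F))
  let f₂ : F →+* PadicAlgCl l :=
    (j.comp (c : AlgebraicClosure F →+* AlgebraicClosure F)).comp
      (algebraMap F (AlgebraicClosure F))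
  let f₃ : F →+* PadicAlgCl l := (t.toRingEquiv : PadicAlgCl l →+* PadicAlgCl l).comp f₁
  have h12 : f₁ ≠ f₂ := by
    intro h
    obtain ⟨a, ha⟩ := hc
    have h1 : j (algebraMap F (AlgebraicClosure F) a) =
        j (c (algebraMap F (AlgebraicClosure F) a)) := RingHom.congr_fun h a
    exact ha (j.injective h1).symm
  by_cases h13 : f₃ = f₁
  · exact Or.inl fun a => RingHom.congr_fun h13 a
  · by_cases h23 : f₃ = f₂
    · exact Or.inr fun a => RingHom.congr_fun h23 a
    · exfalso
      have h4 : 2 < Fintype.card (F →+* PadicAlgCl l) :=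
        Fintype.two_lt_card_iff.mpr ⟨f₁, f₂, f₃, h12, fun h => h13 h.symm, fun h => h23 h.symm⟩
      omega

end Loc

end RN

open RN

/-- **Module RN.** -/
theorem stRN (h1 : BKLoc2.StInvV) (h2 : StCP) (h3 : StCY) (h4 : StCJ) : StRN := by
  intro p _ hp F _ _ hF hI c₀ hc₀ lam hlam z hz a a' b ha haa' hb κ hκ M l _ hl hj u hu
  classical
  obtain ⟨⟨cc, hcc⟩, hCJ⟩ := h4 F hF hI c₀ hc₀
  obtain ⟨-, -, hq, -, -⟩ := hCJ cc hcc
  have ha' : a' ≠ 0 := by
    intro h0
    rw [h0, map_zero, map_eq_zero, map_eq_zero] at haa'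
    exact ha haa'
  have : Algebra.IsAlgebraic ℚ (AlgebraicClosure F) := Algebra.IsAlgebraic.trans ℚ F _
  obtain ⟨j⟩ : Nonempty (AlgebraicClosure F →+* PadicAlgCl l) :=
    ⟨(IsAlgClosed.lift (R := ℚ) (S := AlgebraicClosure F) (M := PadicAlgCl l)).toRingHom⟩
  have hjb : algebraMap ℚ_[l] (PadicAlgCl l) (b : ℚ_[l]) =
      j (algebraMap F (AlgebraicClosure F) a) * j (algebraMap F (AlgebraicClosure F) a') := by
    rw [← map_mul, ← map_mul, ← hb, eq_ratCast, map_ratCast, map_ratCast, map_ratCast]
  by_cases hs : ∀ (t : GQ l) (x : F), t (j (algebraMap F (AlgebraicClosure F) x)) =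
      j (algebraMap F (AlgebraicClosure F) x)
  · have key : ∀ (i : AlgebraicClosure F →+* PadicAlgCl l),
        (∀ (t : GQ l) (x : F), t (i (algebraMap F (AlgebraicClosure F) x)) =
          i (algebraMap F (AlgebraicClosure F) x)) →
        ∃ a1 : ℚ_[l], a1 ≠ 0 ∧ algebraMap ℚ_[l] (PadicAlgCl l) a1 =
          i (algebraMap F (AlgebraicClosure F) a) ∧
          (p : ℤ_[p]) ^ M ∣ (a1.valuation : ℤ) * lam u := by
      intro i hi
      obtain ⟨a1, h0, ha1, hdiv⟩ := local_claim h1 h2 h3 hp hlam hz ha hκ hl i (hj i) hu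
      refine ⟨a1, h0, ?_, hdiv⟩
      rw [ha1, finprod_eq_single _ ((1 : GQ l) : GQ l ⧸ (sj i).range)]
      · exact hi _ _
      · intro q hq'
        exfalso
        apply hq'
        obtain ⟨t, rfl⟩ := QuotientGroup.mk_surjective q
        rw [eq_comm, QuotientGroup.eq]
        exact (mem_range i _).2 (hi _)
    obtain ⟨a1, h01, ha1, hd1⟩ := key j hs
    obtain ⟨a2, h02, ha2, hd2⟩ := key (j.comp (c₀ : AlgebraicClosure F →+* AlgebraicClosure F))
      (by
        intro t x
        obtain ⟨x', hx', -⟩ := hq x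
        change t (j (c₀ (algebraMap F (AlgebraicClosure F) x))) =
          j (c₀ (algebraMap F (AlgebraicClosure F) x))
        rw [hx']
        exact hs t x')
    have e : (b : ℚ_[l]) = a1 * a2 := by
      apply (algebraMap ℚ_[l] (PadicAlgCl l)).injective
      rw [hjb, map_mul, ha1, ha2, ← haa']
      rfl
    have e2 : padicValRat l b = a1.valuation + a2.valuation := by
      rw [← Padic.valuation_ratCast, e, Padic.valuation_mul h01 h02]
    rw [e2, Int.cast_add, add_mul]
    exact dvd_add hd1 hd2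
  · push Not at hs
    obtain ⟨t₀, x₀, hx₀⟩ := hs
    have hc : ∃ a : F, c₀ (algebraMap F (AlgebraicClosure F) a) ≠ algebraMap F _ a := hc₀.2
    have ht₀ : ∀ x : F, t₀ (j (algebraMap F (AlgebraicClosure F) x)) =
        j (c₀ (algebraMap F _ x)) := by
      rcases two_emb hF c₀ hc j t₀ with h | h
      · exact absurd (h x₀) hx₀
      · exact h
    obtain ⟨a1, h0, ha1, hdiv⟩ := local_claim h1 h2 h3 hp hlam hz ha hκ hl j (hj j) hu
    have hne : ((1 : GQ l) : GQ l ⧸ (sj j).range) ≠ ((t₀ : GQ l) : GQ l ⧸ (sj j).range) := by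
      intro h
      rw [QuotientGroup.eq, inv_one, one_mul, mem_range] at h
      exact hx₀ (h x₀)
    have hval : ∀ t : GQ l, ((t : GQ l) : GQ l ⧸ (sj j).range) = ((1 : GQ l) : GQ l ⧸ (sj j).range) →
        ∀ x : F, t (j (algebraMap F (AlgebraicClosure F) x)) = j (algebraMap F _ x) := by
      intro t ht
      rw [eq_comm, QuotientGroup.eq, inv_one, one_mul, mem_range] at ht
      exact ht
    have hval1 : ∀ t : GQ l, (∀ x : F, t (j (algebraMap F (AlgebraicClosure F) x)) =
        j (algebraMap F _ x)) →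
        ((t : GQ l) : GQ l ⧸ (sj j).range) = ((1 : GQ l) : GQ l ⧸ (sj j).range) := by
      intro t ht
      rw [eq_comm, QuotientGroup.eq, inv_one, one_mul, mem_range]
      exact ht
    have hprod : (∏ᶠ q : GQ l ⧸ (sj j).range, q.out (j (algebraMap F (AlgebraicClosure F) a))) =
        j (algebraMap F (AlgebraicClosure F) a) * j (algebraMap F (AlgebraicClosure F) a') := by
      rw [finprod_eq_finsetProd_of_mulSupport_subset _
        (s := {((1 : GQ l) : GQ l ⧸ (sj j).range), ((t₀ : GQ l) : GQ l ⧸ (sj j).range)}),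
        Finset.prod_pair hne]
      · congr 1
        · exact hval _ (Quotient.out_eq' _) a
        · rw [← haa']
          rcases two_emb hF c₀ hc j
            (Quotient.out ((t₀ : GQ l) : GQ l ⧸ (sj j).range)) with h | h
          · exfalso
            apply hne
            rw [← hval1 _ h]
            exact Quotient.out_eq' _
          · exact h a
      · intro q _
        obtain ⟨t, rfl⟩ := QuotientGroup.mk_surjective q
        simp only [Finset.coe_insert, Finset.coe_singleton, Set.mem_insert_iff,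
          Set.mem_singleton_iff]
        rcases two_emb hF c₀ hc j t with h | h
        · exact Or.inl (hval1 t h)
        · right
          rw [eq_comm, QuotientGroup.eq, mem_range]
          intro x
          change t₀⁻¹ (t (j (algebraMap F (AlgebraicClosure F) x))) = _
          rw [h x, ← ht₀ x]
          change (t₀⁻¹ * t₀) (j (algebraMap F (AlgebraicClosure F) x)) = _
          rw [inv_mul_cancel]
          rfl
    have e : (b : ℚ_[l]) = a1 := by
      apply (algebraMap ℚ_[l] (PadicAlgCl l)).injective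
      rw [hjb, ha1, hprod]
    rw [← Padic.valuation_ratCast, e]
    exact hdiv

end BKGlob2
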