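import Pool.Agent.Lib.MP_7c08ba_nt.Met.HStmts
import Pool.Agent.Lib.MP_7c08ba_nt.Odd.Kum
import Pool.Agent.Lib.MP_7c08ba_nt.Odd.H90
import Pool.Agent.Lib.MP_7c08ba_nt.Odd.CycL
import Pool.Agent.Lib.MP_7c08ba_nt.Gen.Unram
import Pool.Agent.Lib.MP_7c08ba_nt.Gen.Local

set_option autoImplicit false

/-!
Module RQ: a homomorphism from the group generated by the inertia groups outside `P` to `ℤ/p` which
is invariant under `U` extends to `U`.
-/

noncomputable section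

namespace BKGlob2

open NumberField IsDedekindDomain BKGen BKGen.SUnits
open BKOdd (Fx IsKum stKum stH90)
open BKLoc2 (cy)
open BKMet (GF GQ cycF RS InertAway)
open BKPar (Loc1)

namespace RQAux

/-! ### inertia -/

section Inertia

variable {p : ℕ} [Fact p.Prime] {F : Type} [Field F] {U : Subgroup (GF F)}

/-- the Kummer character of a unit vanishes on the inertia group -/
lemma kum_inert {ζ π : AlgebraicClosure F} (hζ : IsPrimitiveRoot ζ p) {κ : U → ZMod p}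
    (hκ : IsKum U.subtype ζ π κ) {l : ℕ} [Fact l.Prime] (hl : l ≠ p)
    (j : AlgebraicClosure F →+* PadicAlgCl l) (hπ : ‖j π‖ = 1) {g : GF F} (hg : g ∈ U)
    (hgi : g ∈ Inert F (AlgebraicClosure F) j) : κ ⟨g, hg⟩ = 0 := by
  have hp : p.Prime := Fact.out
  obtain ⟨y, hy, hyp, hyκ⟩ := hκ
  have h1 : ‖j y‖ = 1 := by
    have h2 : ‖j y‖ ^ p = 1 := by rw [← norm_pow, ← map_pow, hyp, hπ]
    exact (pow_eq_one_iff_of_nonneg (norm_nonneg _) hp.ne_zero).1 h2
  have h2 := hgi y h1.le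
  have h3 : g y = ζ ^ (κ ⟨g, hg⟩).val * y := hyκ ⟨g, hg⟩
  rw [h3] at h2
  have h4 : j (ζ ^ (κ ⟨g, hg⟩).val * y - y) = ((j ζ) ^ (κ ⟨g, hg⟩).val - 1) * j y := by
    rw [map_sub, map_mul, map_pow]
    ring
  rw [h4, norm_mul, h1, mul_one] at h2
  by_contra hne
  have hζj : IsPrimitiveRoot (j ζ) p := hζ.map_of_injective j.injective
  have h5 : (κ ⟨g, hg⟩).val ≠ 0 := fun h0 => hne ((ZMod.val_eq_zero _).1 h0)
  have h6 : (j ζ) ^ (κ ⟨g, hg⟩).val ≠ 1 := hζj.pow_ne_one_of_pos_of_lt h5 (ZMod.val_lt _)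
  have h7 : ‖(j ζ) ^ (κ ⟨g, hg⟩).val - 1‖ = 1 := by
    refine norm_root_sub_one (N := p) ?_ ?_ h6
    · intro hd
      exact hl ((Nat.prime_dvd_prime_iff_eq (Fact.out : l.Prime) hp).1 hd)
    · rw [← pow_mul, mul_comm, pow_mul, hζj.pow_eq_one, one_pow]
  rw [h7] at h2
  exact lt_irrefl _ h2

omit [Fact p.Prime] in
lemma inert_conj {l : ℕ} [Fact l.Prime] {j j' : AlgebraicClosure F →+* PadicAlgCl l}
    {c : GF F} (h : ∀ z, ‖j' z‖ = ‖j (c z)‖) {g : GF F}
    (hg : g ∈ Inert F (AlgebraicClosure F) j') :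
    c * g * c⁻¹ ∈ Inert F (AlgebraicClosure F) j := by
  intro x hx
  have h1 : ‖j' (c⁻¹ x)‖ ≤ 1 := by
    rw [h]
    have h2 : c (c⁻¹ x) = x := by
      rw [← AlgEquiv.mul_apply, mul_inv_cancel, AlgEquiv.one_apply]
    rw [h2]
    exact hx
  have h3 := hg _ h1
  rw [h] at h3
  have h4 : c (g (c⁻¹ x) - c⁻¹ x) = (c * g * c⁻¹) x - x := by
    rw [map_sub]
    congr 1
    rw [← AlgEquiv.mul_apply, mul_inv_cancel, AlgEquiv.one_apply]
  rw [h4] at h3
  exact h3

omit [Fact p.Prime] in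
lemma inert_mem_RS {P : Set ℕ} {l : ℕ} [Fact l.Prime] (hl : l ∉ P)
    (j : AlgebraicClosure F →+* PadicAlgCl l) {g : GF F}
    (hg : g ∈ Inert F (AlgebraicClosure F) j) : g ∈ RS F P :=
  Subgroup.le_topologicalClosure _ (Subgroup.subset_normalClosure ⟨l, inferInstance, j, hl, hg⟩)

omit [Fact p.Prime] in
lemma RS_le {P : Set ℕ} (T : Subgroup (GF F)) (hT : IsClosed (T : Set (GF F)))
    (h : ∀ (l : ℕ) [Fact l.Prime], l ∉ P → ∀ j : AlgebraicClosure F →+* PadicAlgCl l,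
      ∀ g ∈ Inert F (AlgebraicClosure F) j, g ∈ T) : RS F P ≤ T := by
  refine Subgroup.topologicalClosure_minimal _ ?_ hT
  rw [Subgroup.normalClosure, Subgroup.closure_le]
  intro x hx
  obtain ⟨a, ⟨l, hl, j, hlP, ha⟩, hax⟩ := Group.mem_conjugatesOfSet_iff.1 hx
  obtain ⟨c, rfl⟩ := isConj_iff.1 hax
  refine h l hlP (j.comp ((c⁻¹ : GF F) : AlgebraicClosure F →+* AlgebraicClosure F)) _
    (inert_conj (j' := j) (fun z => ?_) ha)
  change ‖j z‖ = ‖j (c⁻¹ (c z))‖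
  rw [← AlgEquiv.mul_apply, inv_mul_cancel, AlgEquiv.one_apply]

/-- embeddings which agree on `K` are conjugate -/
lemma exists_gal0 {K Ω : Type} [Field K] [Field Ω] [Algebra K Ω] [Normal K Ω] {l : ℕ}
    [Fact l.Prime] (ι j : Ω →+* PadicAlgCl l)
    (h : ∀ a : K, j (algebraMap K Ω a) = ι (algebraMap K Ω a)) :
    ∃ g : Ω ≃ₐ[K] Ω, ∀ z, j z = ι (g z) := by
  let iA : Algebra K (PadicAlgCl l) := (ι.comp (algebraMap K Ω)).toAlgebra
  let iB : Algebra Ω (PadicAlgCl l) := ι.toAlgebra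
  have hst : IsScalarTower K Ω (PadicAlgCl l) := IsScalarTower.of_algebraMap_eq fun _ => rfl
  let j' : Ω →ₐ[K] PadicAlgCl l := { j with commutes' := h }
  refine ⟨j'.restrictNormal' Ω, fun z => ?_⟩
  exact (AlgHom.restrictNormal_commutes j' Ω z).symm

/-- embeddings which agree on `E` are conjugate -/
lemma exists_galE [CharZero F] (E : IntermediateField F (AlgebraicClosure F)) {l : ℕ}
    [Fact l.Prime] (ι j : AlgebraicClosure F →+* PadicAlgCl l) (h : ∀ a ∈ E, j a = ι a) :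
    ∃ g : GF F, (∀ x ∈ E, g x = x) ∧ ∀ z, j z = ι (g z) := by
  obtain ⟨g, hg⟩ := exists_gal0 (K := E) ι j fun a => h a a.2
  exact ⟨g.restrictScalars F, fun x hx => g.commutes ⟨x, hx⟩, hg⟩

omit [Fact p.Prime] in
/-- the group which fixes the fixed field -/
lemma mem_of_fix [CharZero F] (hU : IsOpen (U : Set (GF F)))
    (E : IntermediateField F (AlgebraicClosure F)) (hE : ∀ x, x ∈ E ↔ ∀ g ∈ U, g x = x)
    {g : GF F} (hg : ∀ x ∈ E, g x = x) : g ∈ U := by
  have h1 : IsGalois F (AlgebraicClosure F) := inferInstance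
  let C : ClosedSubgroup (GF F) := ⟨U, Subgroup.isClosed_of_isOpen U hU⟩
  have h2 := InfiniteGalois.fixingSubgroup_fixedField C
  have h3 : g ∈ (IntermediateField.fixedField C.1).fixingSubgroup := by
    rw [IntermediateField.mem_fixingSubgroup_iff]
    intro x hx
    exact hg x ((hE x).2 fun u hu => hx ⟨u, hu⟩)
  rw [h2] at h3
  exact h3

end Inertia

/-! ### primes -/

section Primes

variable {E : Type} [Field E] [NumberField E]

omit [NumberField E] in
lemma prime_unique {v : HeightOneSpectrum (𝓞 E)} {l l' : ℕ} (hl : l.Prime) (hl' : l'.Prime)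
    (h : (l : 𝓞 E) ∈ v.asIdeal) (h' : (l' : 𝓞 E) ∈ v.asIdeal) : l = l' := by
  by_contra hne
  have h1 : Nat.Coprime l l' := (Nat.coprime_primes hl hl').2 hne
  have h2 : IsCoprime (l : ℤ) (l' : ℤ) := Nat.isCoprime_iff_coprime.2 h1
  obtain ⟨a, b, hab⟩ := h2
  have h3 : (1 : 𝓞 E) ∈ v.asIdeal := by
    have h4 : (1 : 𝓞 E) = (a : 𝓞 E) * (l : 𝓞 E) + (b : 𝓞 E) * (l' : 𝓞 E) := by
      have h5 := congrArg (fun t : ℤ => (t : 𝓞 E)) hab
      push_cast at h5
      exact h5.symm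
    rw [h4]
    exact v.asIdeal.add_mem (v.asIdeal.mul_mem_left _ h) (v.asIdeal.mul_mem_left _ h')
  exact v.isPrime.ne_top ((Ideal.eq_top_iff_one _).2 h3)

lemma notMem_SP {P : Set ℕ} (hP : ∀ l ∈ P, l.Prime) {l : ℕ} [Fact l.Prime] (hl : l ∉ P)
    (j : E →+* PadicAlgCl l) : pl j ∉ SP E P := by
  rintro ⟨l', hl', h⟩
  have h1 : (l : 𝓞 E) ∈ (pl j).asIdeal := l_mem_plI j
  have h2 := prime_unique (Fact.out : l.Prime) (hP l' hl') h1 h
  rw [h2] at hl
  exact hl hl'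

lemma norm_zpow_of_val {v : HeightOneSpectrum (𝓞 E)} {l : ℕ} [Fact l.Prime]
    {j : E →+* PadicAlgCl l} (hj : pl j = v) {π : E}
    (hπ : v.valuation E π = WithZero.exp (-1 : ℤ)) {x : E} (hx : x ≠ 0) :
    ∃ m : ℤ, ‖j x‖ = ‖j π‖ ^ m := by
  have hπ0 : π ≠ 0 := by
    rintro rfl
    rw [map_zero] at hπ
    exact WithZero.exp_ne_zero hπ.symm
  have hvx : v.valuation E x ≠ 0 := (Valuation.ne_zero_iff _).2 hx
  obtain ⟨n, hn⟩ : ∃ n : ℤ, v.valuation E x = WithZero.exp n :=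
    ⟨WithZero.log (v.valuation E x), (WithZero.exp_log hvx).symm⟩
  refine ⟨-n, ?_⟩
  have h1 : (pl j).valuation E (x * π ^ n) = 1 := by
    rw [hj, map_mul, map_zpow₀, hn, hπ, ← WithZero.exp_zsmul, ← WithZero.exp_add]
    simp
  have h2 := norm_eq_of_val j h1
  rw [map_mul, map_zpow₀, norm_mul, norm_zpow] at h2
  have h3 : ‖j π‖ ≠ 0 := by
    rw [Ne, norm_eq_zero, map_eq_zero]
    exact hπ0
  rw [zpow_neg]
  exact eq_inv_of_mul_eq_one_left h2

end Primes

/-- the extension of an embedding -/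
lemma exists_lift {K Ω : Type} [Field K] [Field Ω] [Algebra K Ω] [Algebra.IsAlgebraic K Ω] {l : ℕ}
    [Fact l.Prime] (j : K →+* PadicAlgCl l) :
    ∃ j' : Ω →+* PadicAlgCl l, ∀ a, j' (algebraMap K Ω a) = j a := by
  let iA : Algebra K (PadicAlgCl l) := j.toAlgebra
  let j' : Ω →ₐ[K] PadicAlgCl l := IsAlgClosed.lift
  exact ⟨j', fun a => j'.commutes a⟩

/-- the action on the roots of unity -/
lemma root_fix {p : ℕ} [Fact p.Prime] {F : Type} [Field F] [CharZero F] {ζ : AlgebraicClosure F}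
    (hζ : IsPrimitiveRoot ζ p) {g : GF F}
    (hg : PadicInt.toZMod ((cycF p F g : ℤ_[p]ˣ) : ℤ_[p]) = 1) : g ζ = ζ := by
  have hp : Fact (1 < p) := ⟨(Fact.out : p.Prime).one_lt⟩
  have h1 : g ζ = ζ ^ (((cycF p F g : ℤ_[p]ˣ) : ℤ_[p]).toZModPow 1).val :=
    BKOdd.CycLAux.act 1 ζ (by rw [pow_one]; exact hζ.pow_eq_one)
      (MulSemiringAction.toRingAut (GF F) (AlgebraicClosure F) g)
  have h2 : (((cycF p F g : ℤ_[p]ˣ) : ℤ_[p]).toZModPow 1).val % p = 1 := by
    have h3 := congrArg ZMod.val hg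
    rwa [BKOdd.CycLAux.toZMod_eq, ZMod.val_natCast, ZMod.val_one] at h3
  rw [h1]
  conv_lhs => rw [← Nat.div_add_mod (((cycF p F g : ℤ_[p]ˣ) : ℤ_[p]).toZModPow 1).val p]
  rw [pow_add, pow_mul, hζ.pow_eq_one, one_pow, one_mul, h2, pow_one]

/-- the Kummer character at one prime -/
lemma one_prime (hTI : StTI) (hPA : StPA) {p : ℕ} [Fact p.Prime] {F : Type} [Field F]
    [NumberField F] {P : Set ℕ} {U : Subgroup (GF F)}
    {E : IntermediateField F (AlgebraicClosure F)} [NumberField E] (hS : Sit p F P U E)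
    (hP : ∀ l ∈ P, l.Prime) {ζ : AlgebraicClosure F} (hζ : IsPrimitiveRoot ζ p)
    (hζU : ∀ g ∈ U, g ζ = ζ) {f : GF F → ZMod p} (hf : Loc1 f)
    (hf1 : ∀ r ∈ RS F P, ∀ s ∈ RS F P, f (r * s) = f r + f s)
    (hf2 : ∀ g ∈ U, ∀ r ∈ RS F P, f (g * r * g⁻¹) = f r)
    (v : HeightOneSpectrum (𝓞 E)) (hv : v ∉ SP E P) :
    ∃ (κ : U → ZMod p) (c : ZMod p), κ ∈ CC.Z1 (1 : U →* ZMod p) ∧
      ∀ (l : ℕ) [Fact l.Prime], l ∉ P → ∀ (j : AlgebraicClosure F →+* PadicAlgCl l) (g : GF F)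
        (hg : g ∈ U), g ∈ Inert F (AlgebraicClosure F) j →
        (pl (j.comp (algebraMap E (AlgebraicClosure F))) = v → f g = c * κ ⟨g, hg⟩) ∧
        (pl (j.comp (algebraMap E (AlgebraicClosure F))) ≠ v → κ ⟨g, hg⟩ = 0) := by
  have hGal : IsGalois F (AlgebraicClosure F) := inferInstance
  obtain ⟨x, hx, hx'⟩ := hS.prin v hv
  have hπ0 : ((x : E) : AlgebraicClosure F) ≠ 0 := by
    intro h
    exact x.ne_zero (Subtype.ext h)
  have hπU : ∀ g ∈ U, g ((x : E) : AlgebraicClosure F) = ((x : E) : AlgebraicClosure F) :=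
    (hS.field _).1 (x : E).2
  obtain ⟨K1, -⟩ := stKum stH90 F (AlgebraicClosure F) U U.subtype
    hS.open'.isOpenEmbedding_subtypeVal p ζ hζ fun g => hζU g g.2
  obtain ⟨κ, hκZ, hκ⟩ := K1 _ hπ0 fun g => hπU g g.2
  obtain ⟨l0, hl0, j0, hj0⟩ := exists_pl v
  have hl0P : l0 ∉ P := fun h => hv ⟨l0, h, by rw [← hj0]; exact l_mem_plI j0⟩
  have hl0p : l0 ≠ p := fun h => hl0P (h ▸ hS.memP)
  have hal : Algebra.IsAlgebraic E (AlgebraicClosure F) := inferInstance
  obtain ⟨j1, hj1⟩ := exists_lift (Ω := AlgebraicClosure F) j0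
  have hj1' : j1.comp (algebraMap E (AlgebraicClosure F)) = j0 := RingHom.ext hj1
  obtain ⟨c, hc⟩ := hTI p F U hS.open' ζ hζ hζU l0 hl0p j1 _ hπ0 hπU (fun y hy hyU => by
    have hyE : y ∈ E := (hS.field y).2 hyU
    obtain ⟨m, hm⟩ := norm_zpow_of_val hj0 hx (x := (⟨y, hyE⟩ : E)) fun h =>
      hy (congrArg (fun t : E => (t : AlgebraicClosure F)) h)
    refine ⟨m, ?_⟩
    rw [← hj1, ← hj1] at hm
    exact hm) κ hκ f hf (RS F P) (fun g hg _ => inert_mem_RS hl0P j1 hg) hf1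
  refine ⟨κ, c, hκZ, fun l hl hlP j g hg hgi => ⟨fun hj => ?_, fun hj => ?_⟩⟩
  · have hll : l = l0 := prime_unique (v := v) hl.out hl0.out (by rw [← hj]; exact l_mem_plI _)
      (by rw [← hj0]; exact l_mem_plI _)
    subst hll
    obtain ⟨t, ht⟩ := hPA E l (j1.comp (algebraMap E (AlgebraicClosure F)))
      (j.comp (algebraMap E (AlgebraicClosure F))) (by rw [hj1', hj0, hj])
    obtain ⟨g0, hg0, hg0'⟩ := exists_galE E
      ((t : PadicAlgCl l →+* PadicAlgCl l).comp j1) j fun a ha => ht ⟨a, ha⟩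
    have hg0U : g0 ∈ U := mem_of_fix hS.open' E hS.field hg0
    have hn : ∀ z, ‖j z‖ = ‖j1 (g0 z)‖ := fun z => by
      rw [hg0']
      exact norm_equiv t _
    have hgi' := inert_conj hn hgi
    have hg' : g0 * g * g0⁻¹ ∈ U := U.mul_mem (U.mul_mem hg0U hg) (U.inv_mem hg0U)
    have h1 := hc _ hg' hgi'
    rw [hf2 g0 hg0U g (inert_mem_RS hlP j hgi)] at h1
    rw [h1]
    congr 1
    have h2 : (⟨g0 * g * g0⁻¹, hg'⟩ : U) * ⟨g0, hg0U⟩ = ⟨g0, hg0U⟩ * ⟨g, hg⟩ := by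
      apply Subtype.ext
      change g0 * g * g0⁻¹ * g0 = g0 * g
      rw [inv_mul_cancel_right]
    have h3 := congrArg κ h2
    rw [hκZ.2, hκZ.2, MonoidHom.one_apply, one_mul, MonoidHom.one_apply, one_mul,
      add_comm (κ ⟨g0, hg0U⟩)] at h3
    exact add_right_cancel h3
  · have hlp : l ≠ p := fun h => hlP (h ▸ hS.memP)
    refine kum_inert hζ hκ hlp j ?_ hg hgi
    exact norm_eq_of_val (j.comp (algebraMap E (AlgebraicClosure F)))
      (hx' _ (notMem_SP hP hlP _) hj)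

end RQAux

open RQAux

/-- Module RQ -/
theorem stRQ (hFR : StFR) (hTI : StTI) (hPA : StPA) : StRQ := by
  classical
  intro p _ F _ _ P U E _ hS f hf hf1 hf2
  have hP : ∀ l ∈ P, l.Prime := hS.prime
  obtain ⟨ζ, hζ⟩ : ∃ ζ : AlgebraicClosure F, IsPrimitiveRoot ζ p := by
    have : NeZero ((p : ℕ) : AlgebraicClosure F) :=
      ⟨Nat.cast_ne_zero.2 (Fact.out : p.Prime).ne_zero⟩
    exact HasEnoughRootsOfUnity.exists_primitiveRoot (AlgebraicClosure F) p
  have hζU : ∀ g ∈ U, g ζ = ζ := fun g hg => root_fix hζ (hS.root g hg)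
  have hf0 : f 1 = 0 := by
    have h := hf1 1 (one_mem _) 1 (one_mem _)
    rw [mul_one] at h
    exact left_eq_add.1 h
  obtain ⟨W, hW, hfW⟩ := id hf
  obtain ⟨L, hL, hLW⟩ := hFR F W hW
  let Q : Set (HeightOneSpectrum (𝓞 E)) :=
    {v | v ∉ SP E P ∧ ∃ l ∈ L, l.Prime ∧ (l : 𝓞 E) ∈ v.asIdeal}
  have hQ : Q.Finite := by
    have h1 : ({l ∈ L | l.Prime} : Set ℕ).Finite := hL.subset (Set.sep_subset _ _)
    refine (h1.biUnion (t := fun l => Sp E l) fun l hl => ?_).subset ?_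
    · have h2 := finite_Sp E l hl.2.ne_zero
      exact Set.toFinite _
    · rintro v ⟨-, l, hl, hl', hlv⟩
      exact Set.mem_biUnion (x := l) ⟨hl, hl'⟩ hlv
  have hone := one_prime hTI hPA hS hP hζ hζU hf hf1 hf2
  choose! κ c hκ hc using hone
  have hQS : ∀ v ∈ hQ.toFinset, v ∉ SP E P := fun v hv => ((Set.Finite.mem_toFinset hQ).1 hv).1
  let φ : U → ZMod p := fun g => ∑ v ∈ hQ.toFinset, c v * κ v g
  have hφc : Continuous φ := continuous_finsetSum _ fun v hv =>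
    continuous_const.mul (hκ v (hQS v hv)).1
  have hφ : ∀ g h, φ (g * h) = φ g + φ h := by
    intro g h
    change ∑ v ∈ hQ.toFinset, c v * κ v (g * h) = _
    rw [← Finset.sum_add_distrib]
    refine Finset.sum_congr rfl fun v hv => ?_
    rw [(hκ v (hQS v hv)).2, MonoidHom.one_apply, one_mul, mul_add]
  have hφ1 : φ 1 = 0 := by
    have h := hφ 1 1
    rw [mul_one] at h
    exact left_eq_add.1 h
  let y : GF F → ZMod p := fun g => if hg : g ∈ U then φ ⟨g, hg⟩ else 0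
  have hyU : ∀ g (hg : g ∈ U), y g = φ ⟨g, hg⟩ := fun g hg => dif_pos hg
  have hyadd : ∀ g ∈ U, ∀ h ∈ U, y (g * h) = y g + y h := by
    intro g hg h hh
    rw [hyU g hg, hyU h hh, hyU _ (U.mul_mem hg hh), ← hφ]
    rfl
  have hyl : Loc1 y := by
    let φh : U →* Multiplicative (ZMod p) :=
      { toFun := fun g => Multiplicative.ofAdd (φ g)
        map_one' := by rw [hφ1, ofAdd_zero]
        map_mul' := fun g h => by rw [hφ, ofAdd_add] }
    have hk : IsOpen (φh.ker : Set U) := by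
      have h1 : (φh.ker : Set U) = φ ⁻¹' {0} := by
        ext g
        exact Iff.rfl
      rw [h1]
      exact (isOpen_discrete _).preimage hφc
    refine ⟨φh.ker.map U.subtype, ?_, ?_⟩
    · rw [Subgroup.coe_map]
      exact hS.open'.isOpenEmbedding_subtypeVal.isOpenMap _ hk
    · rintro g _ ⟨w, hw, rfl⟩
      have hw' : φ w = 0 := hw
      by_cases hg : g ∈ U
      · change y (g * (w : GF F)) = y g
        rw [hyadd g hg w w.2, hyU w w.2]
        change y g + φ w = y g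
        rw [hw', add_zero]
      · have h2 : g * (w : GF F) ∉ U := fun h => hg (by
          have h3 := U.mul_mem h (U.inv_mem w.2)
          rwa [mul_inv_cancel_right] at h3)
        change y (g * (w : GF F)) = y g
        change (if hg : g * (w : GF F) ∈ U then φ ⟨_, hg⟩ else 0) =
          (if hg : g ∈ U then φ ⟨g, hg⟩ else 0)
        rw [dif_neg h2, dif_neg hg]
  refine ⟨y, hyl, hyadd, ?_⟩
  let T : Subgroup (GF F) :=
    { carrier := {r | r ∈ RS F P ∧ y r = f r}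
      mul_mem' := by
        rintro r s ⟨hr, hr'⟩ ⟨hs, hs'⟩
        exact ⟨mul_mem hr hs, by
          rw [hyadd r (hS.ram hr) s (hS.ram hs), hf1 r hr s hs, hr', hs']⟩
      one_mem' := ⟨one_mem _, by rw [hf0, hyU 1 (one_mem _)]; exact hφ1⟩
      inv_mem' := by
        rintro r ⟨hr, hr'⟩
        have hr2 : r⁻¹ ∈ RS F P := inv_mem hr
        refine ⟨hr2, ?_⟩
        have h1 := hyadd r (hS.ram hr) r⁻¹ (hS.ram hr2)
        have h2 := hf1 r hr r⁻¹ hr2
        rw [mul_inv_cancel, hyU 1 (one_mem _)] at h1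
        rw [mul_inv_cancel, hf0] at h2
        have h3 : φ ⟨1, one_mem _⟩ = 0 := hφ1
        rw [h3, hr', h2] at h1
        exact (add_left_cancel h1).symm }
  have hTc : IsClosed (T : Set (GF F)) := by
    have h1 : (T : Set (GF F)) = (RS F P : Set (GF F)) ∩ {r | y r = f r} := rfl
    rw [h1]
    refine (Subgroup.isClosed_topologicalClosure _).inter (isClosed_eq ?_ ?_)
    · exact BKOdd.KumAux.smooth_continuous hyl
    · exact BKOdd.KumAux.smooth_continuous hf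
  have hRT : RS F P ≤ T := by
    refine RS_le T hTc fun l hl hlP j g hgi => ?_
    have hgR : g ∈ RS F P := inert_mem_RS hlP j hgi
    have hgU : g ∈ U := hS.ram hgR
    refine ⟨hgR, ?_⟩
    rw [hyU g hgU]
    change ∑ v ∈ hQ.toFinset, c v * κ v ⟨g, hgU⟩ = f g
    by_cases hw : pl (j.comp (algebraMap E (AlgebraicClosure F))) ∈ Q
    · rw [Finset.sum_eq_single (pl (j.comp (algebraMap E (AlgebraicClosure F))))]
      · exact ((hc _ hw.1 l hlP j g hgU hgi).1 rfl).symm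
      · intro v hv hne
        rw [(hc v (hQS v hv) l hlP j g hgU hgi).2 (Ne.symm hne), mul_zero]
      · intro h
        exact absurd ((Set.Finite.mem_toFinset hQ).2 hw) h
    · have hlL : l ∉ L := fun h => hw ⟨notMem_SP hP hlP _, l, h, hl.out, l_mem_plI _⟩
      have hgW : g ∈ W := hLW l hlL j g hgi
      have h1 : f g = 0 := by
        have h2 := hfW 1 g hgW
        rwa [one_mul, hf0] at h2
      rw [h1]
      refine Finset.sum_eq_zero fun v hv => ?_
      have hne : pl (j.comp (algebraMap E (AlgebraicClosure F))) ≠ v := by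
        rintro rfl
        exact hw ((Set.Finite.mem_toFinset hQ).1 hv)
      rw [(hc v (hQS v hv) l hlP j g hgU hgi).2 hne, mul_zero]
  exact fun r hr => (hRT hr).2

end BKGlob2
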