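import Pool.Agent.Lib.MP_7c08ba_nt.Met.HStmts
import Pool.Agent.Lib.MP_7c08ba_nt.Odd.TR

set_option autoImplicit false

/-!
Module RR: an equivariant homomorphism from `RS F P` to `k(ψ)` extends to a cocycle.
-/

noncomputable section

namespace BKGlob2

open NumberField IsDedekindDomain BKGen
open BKOdd (Fx IsKum IsNm chm chZ ConjHyp)
open BKLoc2 (cl sc im cy cyL Sys IsKP IsLam IsHom StLoc hq ht PP)
open BKMet (QZ actA kch Rel GF GQ cycF cycL IsConj RS GS Pl Splits pb1 pb2 LocAx GlobAx StArith)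
open BKPar (Loc1 Loc2)

namespace HRR

/-- the sum of finitely many smooth functions -/
theorem loc1_finsum {G : Type*} [Group G] [TopologicalSpace G] {ι X M : Type*} [AddCommMonoid M]
    (s : Finset ι) (f : ι → G → X) (F : ι → X → M) (h : ∀ i, Loc1 (f i)) :
    Loc1 fun g => ∑ i ∈ s, F i (f i g) := by
  classical
  induction s using Finset.induction_on with
  | empty =>
    simp only [Finset.sum_empty]
    exact BKND.Loc1.const 0
  | insert a s ha ih =>
    have h1 := BKND.Loc1.map2 (BKND.Loc1.map (h a) (F a)) ih (· + ·)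
    simp only [Finset.sum_insert ha]
    exact h1

/-- the absolute Galois group is nonarchimedean -/
theorem nonarch (F : Type) [Field F] : NonarchimedeanGroup (GF F) where
  is_nonarchimedean := by
    intro U hU
    rw [krullTopology_mem_nhds_one_iff] at hU
    obtain ⟨E, hE, hEU⟩ := hU
    exact ⟨⟨E.fixingSubgroup, E.fixingSubgroup_isOpen⟩, hEU⟩

/-- extension with values in `k` to a function which is additive on `U` -/
theorem ext_k (h1 : StRQ) {p : ℕ} [i1 : Fact p.Prime] {F : Type} [i2 : Field F]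
    [i3 : NumberField F] {P : Set ℕ} {U : Subgroup (GF F)}
    {E : IntermediateField F (AlgebraicClosure F)} [i4 : NumberField E] (hS : Sit p F P U E)
    {k : Type} [i5 : Field k] [i6 : Finite k] [i7 : Algebra (ZMod p) k] (f : GF F → k)
    (hf : Loc1 f) (ha : ∀ r ∈ RS F P, ∀ s ∈ RS F P, f (r * s) = f r + f s)
    (hU : ∀ g ∈ U, ∀ r ∈ RS F P, f (g * r * g⁻¹) = f r) :
    ∃ y : GF F → k, Loc1 y ∧ (∀ g ∈ U, ∀ h ∈ U, y (g * h) = y g + y h) ∧
      ∀ r ∈ RS F P, y r = f r := by
  classical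
  have hfin : Module.Finite (ZMod p) k := Module.Finite.of_finite
  let b := Module.finBasis (ZMod p) k
  have key : ∀ i, ∃ y : GF F → ZMod p, Loc1 y ∧
      (∀ g ∈ U, ∀ h ∈ U, y (g * h) = y g + y h) ∧ ∀ r ∈ RS F P, y r = b.repr (f r) i := by
    intro i
    refine h1 p F P U E hS (fun g => b.repr (f g) i)
      (BKND.Loc1.map hf (fun x => b.repr x i)) (fun r hr s hs => ?_) (fun g hg r hr => ?_)
    · change b.repr (f (r * s)) i = b.repr (f r) i + b.repr (f s) i
      rw [ha r hr s hs, map_add, Finsupp.add_apply]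
    · change b.repr (f (g * r * g⁻¹)) i = b.repr (f r) i
      rw [hU g hg r hr]
  choose y hy1 hy2 hy3 using key
  refine ⟨fun g => ∑ i, y i g • b i, ?_, fun g hg h hh => ?_, fun r hr => ?_⟩
  · exact loc1_finsum Finset.univ y (fun i c => c • b i) hy1
  · change ∑ i, y i (g * h) • b i = ∑ i, y i g • b i + ∑ i, y i h • b i
    rw [← Finset.sum_add_distrib]
    refine Finset.sum_congr rfl fun i _ => ?_
    rw [hy2 i g hg h hh, add_smul]
  · change ∑ i, y i r • b i = f r
    rw [Finset.sum_congr rfl fun i _ => congrArg (· • b i) (hy3 i r hr)]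
    exact b.sum_repr (f r)

/-- the transfer at an element of a normal subgroup of `U` -/
theorem corM_eval {G : Type*} [Group G] {U R : Subgroup G} (hUn : U.Normal) (hRn : R.Normal)
    (hRU : R ≤ U) [Finite (G ⧸ U)] {k : Type*} [Field k] (ψ : G →* kˣ) (y f : G → k)
    (hyf : ∀ r ∈ R, y r = f r) (hf : ∀ g, ∀ r ∈ R, f (g * r * g⁻¹) = (ψ g : k) * f r)
    {r : G} (hr : r ∈ R) :
    BKLoc2.corM U (kch ψ) (fun u : U => y u) r = (U.index : k) * f r := by
  classical
  have hft : Fintype (G ⧸ U) := Fintype.ofFinite _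
  rw [BKLoc2.corM, finsum_eq_sum_of_fintype]
  have h1 : ∀ q : G ⧸ U, kch ψ (r • q).out (y (BKOdd.hh U r q : U)) = f r := by
    intro q
    have hq : r • q = q := by
      conv_lhs => rw [← QuotientGroup.out_eq' q]
      conv_rhs => rw [← QuotientGroup.out_eq' q]
      change ((r * q.out : G) : G ⧸ U) = _
      rw [QuotientGroup.eq]
      have h2 := hUn.conj_mem r⁻¹ (U.inv_mem (hRU hr)) q.out⁻¹
      rw [inv_inv] at h2
      rw [mul_inv_rev]
      exact h2
    have h3 : ((BKOdd.hh U r q : U) : G) = q.out⁻¹ * r * (q.out⁻¹)⁻¹ := by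
      change ((r • q).out)⁻¹ * (r * q.out) = _
      rw [hq, inv_inv, mul_assoc]
    have h4 : ((BKOdd.hh U r q : U) : G) ∈ R := by
      rw [h3]
      exact hRn.conj_mem r hr _
    rw [hyf _ h4, h3, hf _ r hr, hq, BKMet.kch_apply, ← mul_assoc, ← Units.val_mul, ← map_mul,
      mul_inv_cancel, map_one, Units.val_one, one_mul]
  rw [Finset.sum_congr rfl fun q _ => h1 q, Finset.sum_const, Finset.card_univ, nsmul_eq_mul,
    Subgroup.index, Nat.card_eq_fintype_card]

end HRR

/-- Module RR: an equivariant homomorphism from `RS F P` to `k(ψ)` extends to a cocycle. -/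
theorem stRR (h1 : StRQ) (h2 : BKLoc2.StTRM) : StRR := by
  intro p _ F _ _ P U E _ hS k _ _ _ ψ hψ f hf ha hc
  classical
  obtain ⟨y, hy1, hy2, hy3⟩ := HRR.ext_k h1 hS f hf ha (fun g hg r hr => by
    rw [hc g r hr, hψ g hg, Units.val_one, one_mul])
  have hna : NonarchimedeanGroup (GF F) := HRR.nonarch F
  have hUf : Finite (GF F ⧸ U) := Subgroup.quotient_finite_of_isOpen U hS.open'
  have hcp : CharP k p := charP_of_injective_algebraMap (algebraMap (ZMod p) k).injective p
  have hidx : (U.index : k) ≠ 0 := by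
    intro h0
    exact hS.index ((CharP.cast_eq_zero_iff k p U.index).1 h0)
  have hy : (fun u : U => y u) ∈ BKND.Z1 ((kch ψ).comp U.subtype) := by
    obtain ⟨W, hW, hW'⟩ := hy1
    refine ⟨⟨W.comap U.subtype, hW.preimage continuous_subtype_val, fun g w hw => ?_⟩,
      fun g h => ?_⟩
    · exact hW' g w hw
    · change y (g * h) = y g + kch ψ g (y h)
      rw [hy2 g g.2 h h.2, BKMet.kch_apply, hψ g g.2, Units.val_one, one_mul]
  have hsm : BKND.Sm (kch ψ) := by
    refine ⟨U, hS.open', fun w hw => ?_⟩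
    refine AddMonoidHom.ext fun x => ?_
    change ((ψ w : kˣ) : k) * x = x
    rw [hψ w hw, Units.val_one, one_mul]
  have h3 := (h2 (GF F) U hS.open' hUf PUnit k PUnit (1 : GF F →* AddMonoid.End PUnit) (kch ψ)
    (1 : GF F →* AddMonoid.End PUnit) 0 hsm (fun n' => ⟨U, hS.open', fun w hw => by
      rw [BKMet.kch_apply, hψ w hw, Units.val_one, one_mul]⟩) (fun _ _ _ => rfl)).1 _ hy
  refine ⟨fun g => (U.index : k)⁻¹ * BKLoc2.corM U (kch ψ) (fun u : U => y u) g, ?_,
    fun r hr => ?_⟩
  · refine ⟨BKND.Loc1.map h3.1 (fun x => (U.index : k)⁻¹ * x), fun g h => ?_⟩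
    change (U.index : k)⁻¹ * _ = (U.index : k)⁻¹ * _ + kch ψ g ((U.index : k)⁻¹ * _)
    rw [h3.2 g h, BKMet.kch_apply, BKMet.kch_apply]
    ring
  · change (U.index : k)⁻¹ * _ = _
    rw [HRR.corM_eval hS.normal inferInstance hS.ram ψ y f hy3 hc hr, ← mul_assoc,
      inv_mul_cancel₀ hidx, one_mul]

end BKGlob2
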