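import Pool.Agent.Lib.MP_7c08ba_nt.Met.HStmts
import Pool.Agent.Lib.MP_7c08ba_nt.Odd.Conv
import Pool.Agent.Lib.MP_7c08ba_nt.Odd.Cyc
import Pool.Agent.Lib.MP_7c08ba_nt.Odd.Desc

set_option autoImplicit false

/-!
Module TH: the Hasse principle for two-cocycles of `GF F` with values in `k(ψ)`.
-/

noncomputable section

namespace BKGlob2

namespace THAux

open BKGen
open BKOdd (Fx)
open BKMet (kch GF GQ cycF pb1 pb2)
open BKPar (Loc1 Loc2)

theorem zeta_fix {p : ℕ} [Fact p.Prime] {F : Type} [Field F] [CharZero F]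
    {ζ : AlgebraicClosure F} (hζ : IsPrimitiveRoot ζ p) (g : GF F)
    (h : PadicInt.toZMod ((cycF p F g : ℤ_[p]ˣ) : ℤ_[p]) = 1) : g ζ = ζ := by
  have hE : ∀ i : ℕ, HasEnoughRootsOfUnity (AlgebraicClosure F) (p ^ i) := fun i => by
    have : NeZero (((p ^ i : ℕ)) : AlgebraicClosure F) := ⟨by
      rw [Nat.cast_ne_zero]
      exact pow_ne_zero _ (Fact.out : p.Prime).ne_zero⟩
    infer_instance
  have h2 : g ζ = ζ ^ (PadicInt.toZModPow 1 ((cycF p F g : ℤ_[p]ˣ) : ℤ_[p])).val :=
    cyclotomicCharacter.spec p (MulSemiringAction.toRingAut (GF F) (AlgebraicClosure F) g)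
      (n := 1) ζ (by rw [pow_one]; exact hζ.pow_eq_one)
  have h3 := BKOdd.CycAux.toZMod_eq ((cycF p F g : ℤ_[p]ˣ) : ℤ_[p])
  rw [h] at h3
  have h4 : (((PadicInt.toZModPow 1 ((cycF p F g : ℤ_[p]ˣ) : ℤ_[p])).val : ℕ) : ZMod p) =
      ((1 : ℕ) : ZMod p) := by rw [← h3, Nat.cast_one]
  rw [ZMod.natCast_eq_natCast_iff] at h4
  rw [h2]
  conv_rhs => rw [← pow_one ζ]
  exact pow_eq_pow_of_modEq h4 hζ.pow_eq_one

theorem exists_zeta (p : ℕ) [Fact p.Prime] (F : Type) [Field F] [CharZero F] :
    ∃ ζ : AlgebraicClosure F, IsPrimitiveRoot ζ p := by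
  have hE : HasEnoughRootsOfUnity (AlgebraicClosure F) p := by
    have : NeZero ((p : ℕ) : AlgebraicClosure F) := ⟨by
      rw [Nat.cast_ne_zero]
      exact (Fact.out : p.Prime).ne_zero⟩
    infer_instance
  exact HasEnoughRootsOfUnity.exists_primitiveRoot (AlgebraicClosure F) p

/-- the decomposition group in a subgroup maps to the decomposition group -/
def incl {F : Type} [Field F] (U : Subgroup (GF F)) {l : ℕ} [Fact l.Prime]
    (j : AlgebraicClosure F →+* PadicAlgCl l) :
    Cp U.subtype j →* Cp (MonoidHom.id (GF F)) j where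
  toFun x := ⟨((x.1.1 : GF F), x.1.2), x.2⟩
  map_one' := rfl
  map_mul' _ _ := rfl

theorem continuous_incl {F : Type} [Field F] (U : Subgroup (GF F)) {l : ℕ} [Fact l.Prime]
    (j : AlgebraicClosure F →+* PadicAlgCl l) : Continuous (incl U j) :=
  Continuous.subtype_mk ((continuous_subtype_val.comp
    (continuous_fst.comp continuous_subtype_val)).prodMk
      (continuous_snd.comp continuous_subtype_val)) _

theorem Loc1_comp {D G X : Type*} [Group D] [TopologicalSpace D] [Group G] [TopologicalSpace G]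
    {f : G → X} (hf : Loc1 f) (φ : D →* G) (hφ : Continuous φ) : Loc1 fun d => f (φ d) := by
  obtain ⟨W, hW, h⟩ := hf
  exact ⟨W.comap φ, hW.preimage hφ, fun d w hw => by
    change f (φ (d * w)) = f (φ d)
    rw [map_mul]; exact h _ _ hw⟩

theorem Loc2_comp {D G X : Type*} [Group D] [TopologicalSpace D] [Group G] [TopologicalSpace G]
    {f : G → G → X} (hf : Loc2 f) (φ : D →* G) (hφ : Continuous φ) :
    Loc2 fun d d' => f (φ d) (φ d') := by
  obtain ⟨W, hW, h⟩ := hf
  exact ⟨W.comap φ, hW.preimage hφ, fun d d' w hw w' hw' => by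
    change f (φ (d * w)) (φ (d' * w')) = f (φ d) (φ d')
    rw [map_mul, map_mul]; exact h _ _ _ hw _ hw'⟩

end THAux

open BKOdd (Fx)
open BKMet (kch GF GQ cycF pb1 pb2)
open BKPar (Loc1 Loc2)
open THAux in
/-- Module TH. -/
theorem stTH (h1 : StHP) (h2 : BKLoc2.StTRM) : StTH := by
  intro p _ F _ _ P U E _ hS k _ _ _ ψ hψ z hz hloc
  have hp : p.Prime := Fact.out
  have hfin : Finite (GF F ⧸ U) := Subgroup.quotient_finite_of_isOpen U hS.open'
  have hcomp : CompactSpace U := by
    have hcl : IsClosed (U : Set (GF F)) := Subgroup.isClosed_of_isOpen U hS.open'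
    exact isCompact_iff_compactSpace.1 hcl.isCompact
  have hchar : ∀ n : k, p • n = 0 := by
    intro n
    have : (p : ZMod p) • n = 0 := by rw [ZMod.natCast_self, zero_smul]
    rwa [Nat.cast_smul_eq_nsmul] at this
  have hSm : BKND.Sm (kch ψ) := ⟨U, hS.open', fun w hw => by
    ext x
    rw [BKMet.kch_apply, hψ w hw, Units.val_one, one_mul]
    rfl⟩
  have hTR := (h2 (GF F) U hS.open' hfin k k k (kch ψ) (kch ψ) (kch ψ) 0 hSm
    (fun n' => ⟨U, hS.open', fun w hw => by
      rw [BKMet.kch_apply, hψ w hw, Units.val_one, one_mul]⟩)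
    (fun g n n' => by simp)).2.2.2.2.2 p hp hS.index hchar hSm
  refine hTR.2 z hz ?_
  -- coordinates
  have hfd : FiniteDimensional (ZMod p) k := Module.Finite.of_finite
  let b := Module.finBasis (ZMod p) k
  obtain ⟨ζ, hζ⟩ := exists_zeta p F
  have hnon : NonarchimedeanGroup U := BKOdd.nonarch_subgroup U
  have hemb : Topology.IsOpenEmbedding (U.subtype : U → GF F) :=
    hS.open'.isOpenEmbedding_subtypeVal
  have hfix : Fx U.subtype ζ := fun v => zeta_fix hζ _ (hS.root _ v.2)
  -- every coordinate is a coboundary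
  have key : ∀ i, (fun g h : U => b.repr (z g h) i) ∈
      BKND.B2 (1 : U →* AddMonoid.End (ZMod p)) := by
    intro i
    rw [← (BKOdd.stConv p U).2.2]
    refine h1 p hS.odd F (AlgebraicClosure F) U U.subtype hemb ζ hζ hfix _ ?_ ?_
    · rw [(BKOdd.stConv p U).2.1]
      refine ⟨?_, fun g h l => ?_⟩
      · exact BKND.Loc2.map (Loc2_comp hz.1 U.subtype continuous_subtype_val)
          (fun x => b.repr x i)
      · have := hz.2 g h l
        rw [BKMet.kch_apply, hψ g g.2, Units.val_one, one_mul] at this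
        have h3 := congrArg (fun x => b.repr x i) this
        simp only [map_add, map_sub, Finsupp.add_apply, Finsupp.sub_apply, map_zero,
          Finsupp.zero_apply] at h3
        simp only [MonoidHom.one_apply, AddMonoid.End.coe_one, id_eq]
        exact h3
    · intro l _ j
      obtain ⟨β, hβ, hβ'⟩ := hloc l j
      refine ⟨fun d => b.repr (β (incl U j d)) i, ?_, fun g h => ?_⟩
      · have hβ2 : Loc1 fun d => β (incl U j d) := Loc1_comp hβ (incl U j) (continuous_incl U j)
        exact (BKPar.Lift.Loc1.isLocallyConstant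
          (BKND.Loc1.map hβ2 (fun x => b.repr x i))).continuous
      · have h5 := hβ' (incl U j g) (incl U j h)
        have h6 : ψ (fs (MonoidHom.id (GF F)) j (incl U j g)) = 1 :=
          hψ _ (g.1.1 : U).2
        rw [BKMet.kch_apply, MonoidHom.comp_apply, h6, Units.val_one, one_mul] at h5
        have h3 := congrArg (fun x => b.repr x i) h5
        simp only [map_add, map_sub, Finsupp.add_apply, Finsupp.sub_apply] at h3
        change b.repr (z _ _) i = b.repr (β (incl U j g)) i +
          (1 : Cp U.subtype j →* ZMod p) g * b.repr (β (incl U j h)) i -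
            b.repr (β (incl U j (g * h))) i
        rw [MonoidHom.one_apply, one_mul, map_mul]
        refine Eq.trans h3 ?_
        ring
  choose β hβ hβ' using key
  refine ⟨fun g => ∑ i, β i g • b i, ?_, fun g h => ?_⟩
  · have : ∀ s : Finset (Fin (Module.finrank (ZMod p) k)), Loc1 fun g : U => ∑ i ∈ s, β i g • b i := by
      intro s
      induction s using Finset.induction_on with
      | empty => simpa using BKND.Loc1.const (G := U) (0 : k)
      | insert i s hi ih =>
        simp only [Finset.sum_insert hi]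
        exact BKND.Loc1.map2 (hβ i) ih (fun x y => x • b i + y)
    exact this Finset.univ
  · change z g h = kch ψ (g : GF F) (∑ i, β i h • b i) - ∑ i, β i (g * h) • b i + ∑ i, β i g • b i
    rw [BKMet.kch_apply, hψ g g.2, Units.val_one, one_mul, ← Finset.sum_sub_distrib,
      ← Finset.sum_add_distrib, ← b.sum_repr (z g h)]
    refine Finset.sum_congr rfl fun i _ => ?_
    have h7 : b.repr (z g h) i = β i h - β i (g * h) + β i g := by
      have := hβ' i g h
      rwa [MonoidHom.one_apply, AddMonoid.End.coe_one, id_eq] at this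
    rw [h7, add_smul, sub_smul]

end BKGlob2
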