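import Pool.Agent.Lib.MP_7c08ba_nt.Met.HStmts
import Pool.Agent.Lib.MP_7c08ba_nt.Odd.Adm
import Pool.Agent.Lib.MP_7c08ba_nt.Odd.Kum
import Pool.Agent.Lib.MP_7c08ba_nt.Odd.H90
import Pool.Agent.Lib.MP_7c08ba_nt.Glob.Emb
import Pool.Agent.Lib.MP_7c08ba_nt.Gen.Unram

set_option autoImplicit false

/-!
Module TI: homomorphisms from the inertia group at `l ≠ p` to `ℤ/p`.
-/

noncomputable section

namespace BKGlob2

open BKGen
open BKMet (GF GQ)
open BKPar (Loc1)
open BKOdd (Fx IsKum)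

namespace TIAux

section Dec

variable {l : ℕ} [Fact l.Prime] {K Ω : Type*} [Field K] [Field Ω] [Algebra K Ω]

theorem inert_le (j : Ω →+* PadicAlgCl l) {g : Ω ≃ₐ[K] Ω} (hg : g ∈ Inert K Ω j) {x : Ω}
    (hx : ‖j x‖ ≤ 1) : ‖j (g x)‖ ≤ 1 := by
  have h1 := hg x hx
  have h2 : j (g x) = j (g x - x) + j x := by rw [← map_add, sub_add_cancel]
  rw [h2]
  exact (IsUltrametricDist.norm_add_le_max _ _).trans (max_le h1.le hx)

theorem inert_pow_le (j : Ω →+* PadicAlgCl l) {g : Ω ≃ₐ[K] Ω} (hg : g ∈ Inert K Ω j) {x : Ω}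
    (n : ℕ) (m : ℤ) (hx : ‖j x‖ ^ n ≤ ‖(l : PadicAlgCl l)‖ ^ m) :
    ‖j (g x)‖ ^ n ≤ ‖(l : PadicAlgCl l)‖ ^ m := by
  have hl : l.Prime := Fact.out
  have hl0 : (l : PadicAlgCl l) ≠ 0 := by
    have : CharZero (PadicAlgCl l) := charZero_of_injective_algebraMap
      (algebraMap ℚ_[l] (PadicAlgCl l)).injective
    exact Nat.cast_ne_zero.mpr hl.ne_zero
  have hpos : 0 < ‖(l : PadicAlgCl l)‖ ^ m := zpow_pos (norm_pos_iff.mpr hl0) m
  have e1 : ‖j (x ^ n / (l : Ω) ^ m)‖ = ‖j x‖ ^ n / ‖(l : PadicAlgCl l)‖ ^ m := by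
    rw [map_div₀, map_pow, map_zpow₀, map_natCast, norm_div, norm_pow, norm_zpow]
  have e2 : ‖j (g (x ^ n / (l : Ω) ^ m))‖ = ‖j (g x)‖ ^ n / ‖(l : PadicAlgCl l)‖ ^ m := by
    rw [map_div₀, map_pow, map_zpow₀, map_natCast, map_div₀, map_pow, map_zpow₀, map_natCast,
      norm_div, norm_pow, norm_zpow]
  have h1 : ‖j (x ^ n / (l : Ω) ^ m)‖ ≤ 1 := by
    rw [e1]
    exact (div_le_one hpos).mpr hx
  have h2 := inert_le j hg h1
  rw [e2] at h2
  exact (div_le_one hpos).mp h2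

theorem norm_le_of_inert (j : Ω →+* PadicAlgCl l) {g : Ω ≃ₐ[K] Ω} (hg : g ∈ Inert K Ω j) (x : Ω) :
    ‖j (g x)‖ ≤ ‖j x‖ := by
  have hl : l.Prime := Fact.out
  by_cases hx0 : x = 0
  · rw [hx0, map_zero]
  have hjx : j x ≠ 0 := fun h => hx0 (j.injective (by rw [h, map_zero]))
  have hpos : 0 < ‖j x‖ := norm_pos_iff.mpr hjx
  have hl0 : (l : PadicAlgCl l) ≠ 0 := by
    have : CharZero (PadicAlgCl l) := charZero_of_injective_algebraMap
      (algebraMap ℚ_[l] (PadicAlgCl l)).injective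
    exact Nat.cast_ne_zero.mpr hl.ne_zero
  set t : ℝ := ‖(l : PadicAlgCl l)‖ with ht
  have ht0 : 0 < t := norm_pos_iff.mpr hl0
  have ht1 : t < 1 := norm_l_lt
  by_contra hcon
  push Not at hcon
  have hr : 1 < ‖j (g x)‖ / ‖j x‖ := (one_lt_div hpos).mpr hcon
  obtain ⟨n, hn⟩ := pow_unbounded_of_one_lt t⁻¹ hr
  have hn0 : 0 < ‖j x‖ ^ n := pow_pos hpos n
  obtain ⟨m, hm1, hm2⟩ := exists_mem_Ioc_zpow hn0 ((one_lt_inv₀ ht0).mpr ht1)
  have h1 : ‖j x‖ ^ n ≤ t ^ (-(m + 1)) := by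
    rw [zpow_neg, ← inv_zpow]
    exact hm2
  have h2 := inert_pow_le j hg n (-(m + 1)) h1
  rw [div_pow, lt_div_iff₀ hn0] at hn
  have h3 : t ^ (-(m + 1)) = t⁻¹ * t⁻¹ ^ m := by
    rw [zpow_neg, ← inv_zpow, zpow_add₀ (inv_ne_zero ht0.ne'), zpow_one, mul_comm]
  have h4 : t ^ (-(m + 1)) < t⁻¹ * ‖j x‖ ^ n := by
    rw [h3]
    exact mul_lt_mul_of_pos_left hm1 (inv_pos.mpr ht0)
  exact absurd (h2.trans_lt h4) (not_lt.mpr hn.le)

theorem inert_mem_dec (j : Ω →+* PadicAlgCl l) {g : Ω ≃ₐ[K] Ω} (hg : g ∈ Inert K Ω j) :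
    g ∈ Dec K Ω j := by
  intro x
  refine le_antisymm (norm_le_of_inert j hg x) ?_
  by_cases hx0 : x = 0
  · rw [hx0, map_zero g]
  have h1 := norm_le_of_inert j hg x⁻¹
  have hjx : j x ≠ 0 := fun h => hx0 (j.injective (by rw [h, map_zero]))
  have hgx : j (g x) ≠ 0 := fun h => hx0 (g.injective (j.injective (by
    rw [h, map_zero, map_zero])))
  rw [map_inv₀, map_inv₀, map_inv₀, norm_inv, norm_inv] at h1
  exact (inv_le_inv₀ (norm_pos_iff.mpr hgx) (norm_pos_iff.mpr hjx)).mp h1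

end Dec

section Tame

variable {l : ℕ} [Fact l.Prime]

/-- the field generated by `S` and the roots of unity of order prime to `l` -/
def Lf (S : Set (PadicAlgCl l)) : IntermediateField ℚ_[l] (PadicAlgCl l) :=
  IntermediateField.adjoin ℚ_[l] (S ∪ tame l)

variable {S : Set (PadicAlgCl l)}

theorem fix_S (τ : PadicAlgCl l ≃ₐ[Lf S] PadicAlgCl l) {x : PadicAlgCl l} (hx : x ∈ S) :
    τ x = x :=
  τ.commutes (⟨x, IntermediateField.subset_adjoin _ _ (Or.inl hx)⟩ : Lf S)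

theorem fix_tame (τ : PadicAlgCl l ≃ₐ[Lf S] PadicAlgCl l) {x : PadicAlgCl l} (hx : x ∈ tame l) :
    τ x = x :=
  τ.commutes (⟨x, IntermediateField.subset_adjoin _ _ (Or.inr hx)⟩ : Lf S)

theorem norm_tau (τ : PadicAlgCl l ≃ₐ[Lf S] PadicAlgCl l) (x : PadicAlgCl l) : ‖τ x‖ = ‖x‖ :=
  norm_equiv (τ.restrictScalars ℚ_[l]) x

theorem tau_inert (τ : PadicAlgCl l ≃ₐ[Lf S] PadicAlgCl l) {x : PadicAlgCl l} (hx : ‖x‖ ≤ 1) :
    ‖τ x - x‖ < 1 := by
  rcases lt_or_eq_of_le hx with hlt | heq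
  · exact norm_sub_le_max.trans_lt (max_lt (by rw [norm_tau]; exact hlt) hlt)
  · obtain ⟨N, ζ, hN, hζ, hxζ⟩ := exists_root_near x heq
    have hζU : τ ζ = ζ := fix_tame τ ⟨N, hN, hζ⟩
    have h3 : τ x - x = τ (x - ζ) - (x - ζ) := by
      rw [map_sub, hζU]; ring
    rw [h3]
    exact norm_sub_le_max.trans_lt (max_lt (by rw [norm_tau]; exact hxζ) hxζ)

/-- a root of order prime to `l` of a fixed unit is fixed -/
theorem tau_root (τ : PadicAlgCl l ≃ₐ[Lf S] PadicAlgCl l) {p : ℕ} (hp : ¬ l ∣ p)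
    {w u : PadicAlgCl l} (hw : w ^ p = u) (hu : τ u = u) (hn : ‖w‖ = 1) : τ w = w := by
  have hw0 : w ≠ 0 := by
    rintro rfl
    rw [norm_zero] at hn
    exact zero_ne_one hn
  have h1 : (τ w / w) ^ p = 1 := by
    have hu0 : u ≠ 0 := by rw [← hw]; exact pow_ne_zero _ hw0
    rw [div_pow, ← map_pow, hw, hu, div_self hu0]
  by_contra hne
  have h2 : τ w / w ≠ 1 := fun h => hne ((div_eq_one_iff_eq hw0).mp h)
  have h3 := norm_root_sub_one hp h1 h2
  have h4 : τ w - w = (τ w / w - 1) * w := by field_simp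
  have h5 := tau_inert τ hn.le
  rw [h4, norm_mul, h3, hn, one_mul] at h5
  exact lt_irrefl _ h5

end Tame

section Main

variable {l : ℕ} [Fact l.Prime] {F : Type} [Field F] [NumberField F]

/-- the image of the fixed field of `V` -/
abbrev SV (V : Subgroup (GF F)) (j : AlgebraicClosure F →+* PadicAlgCl l) :
    Set (PadicAlgCl l) :=
  Set.range (j.comp (algebraMap (IntermediateField.fixedField V : IntermediateField F
    (AlgebraicClosure F)) (AlgebraicClosure F)))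

variable (V : Subgroup (GF F)) (j : AlgebraicClosure F →+* PadicAlgCl l)

theorem mem_SV {x : AlgebraicClosure F} (hx : ∀ g ∈ V, g x = x) : j x ∈ SV V j :=
  ⟨⟨x, (IntermediateField.mem_fixedField_iff V x).mpr hx⟩, rfl⟩

theorem exists_res (hV : IsOpen (V : Set (GF F))) (τ : PadicAlgCl l ≃ₐ[Lf (SV V j)] PadicAlgCl l) :
    ∃ σ : GF F, σ ∈ V ∧ ∀ x, j (σ x) = τ (j x) := by
  let τE : PadicAlgCl l ≃ₐ[comp l (j.comp (algebraMap (IntermediateField.fixedField V :
      IntermediateField F (AlgebraicClosure F)) (AlgebraicClosure F)))] PadicAlgCl l :=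
    AlgEquiv.ofRingEquiv (f := τ.toRingEquiv) (by
      intro x
      exact τ.commutes (⟨x.1, IntermediateField.adjoin.mono ℚ_[l] _ _ Set.subset_union_left x.2⟩ :
        Lf (SV V j)))
  obtain ⟨σ, hσ⟩ := exists_restrict (K := (IntermediateField.fixedField V :
      IntermediateField F (AlgebraicClosure F))) j τE
  refine ⟨σ.restrictScalars F, ?_, hσ⟩
  have h1 : (IntermediateField.fixedField V).fixingSubgroup = V :=
    InfiniteGalois.fixingSubgroup_fixedField
      (⟨V, Subgroup.isClosed_of_isOpen V hV⟩ : ClosedSubgroup (GF F))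
  have h2 : σ.restrictScalars F ∈ (IntermediateField.fixedField V).fixingSubgroup := by
    rw [IntermediateField.mem_fixingSubgroup_iff]
    intro x hx
    exact σ.commutes ⟨x, hx⟩
  rwa [h1] at h2

/-- the restriction to the algebraic closure of `F` -/
def res (hV : IsOpen (V : Set (GF F))) : (PadicAlgCl l ≃ₐ[Lf (SV V j)] PadicAlgCl l) →* GF F where
  toFun τ := Classical.choose (exists_res V j hV τ)
  map_one' := by
    apply AlgEquiv.ext
    intro x
    apply j.injective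
    rw [(Classical.choose_spec (exists_res V j hV 1)).2]
    rfl
  map_mul' a b := by
    apply AlgEquiv.ext
    intro x
    apply j.injective
    rw [(Classical.choose_spec (exists_res V j hV (a * b))).2, AlgEquiv.mul_apply,
      AlgEquiv.mul_apply, (Classical.choose_spec (exists_res V j hV a)).2,
      (Classical.choose_spec (exists_res V j hV b)).2]

variable (hV : IsOpen (V : Set (GF F)))

theorem res_mem (τ : PadicAlgCl l ≃ₐ[Lf (SV V j)] PadicAlgCl l) : res V j hV τ ∈ V :=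
  (Classical.choose_spec (exists_res V j hV τ)).1

theorem res_spec (τ : PadicAlgCl l ≃ₐ[Lf (SV V j)] PadicAlgCl l) (x : AlgebraicClosure F) :
    j (res V j hV τ x) = τ (j x) :=
  (Classical.choose_spec (exists_res V j hV τ)).2 x

theorem res_inert (τ : PadicAlgCl l ≃ₐ[Lf (SV V j)] PadicAlgCl l) :
    res V j hV τ ∈ Inert F (AlgebraicClosure F) j := by
  intro x hx
  rw [map_sub, res_spec]
  exact tau_inert τ hx

theorem continuous_res : Continuous (res V j hV) := by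
  apply BKOdd.Adm.continuous_of_stab
  intro x
  have h1 : {g : PadicAlgCl l ≃ₐ[Lf (SV V j)] PadicAlgCl l | res V j hV g x = x} =
      {g | g (j x) = j x} := by
    ext g
    constructor
    · intro h
      change g (j x) = j x
      rw [← res_spec V j hV g x]
      exact congrArg j h
    · intro h
      apply j.injective
      rw [res_spec]
      exact h
  rw [h1]
  exact BKOdd.Adm.stab_mem_nhds (j x)

/-- the elements of `V` in the inertia group are restrictions -/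
theorem exists_tau (g : GF F) (hg : g ∈ V) (hi : g ∈ Inert F (AlgebraicClosure F) j) :
    ∃ τ : PadicAlgCl l ≃ₐ[Lf (SV V j)] PadicAlgCl l, res V j hV τ = g := by
  obtain ⟨t, ht⟩ := BKGlob.exists_cpt j (inert_mem_dec j hi)
  have hfix : ∀ x ∈ Lf (SV V j), t x = x := by
    have h1 : Lf (SV V j) ≤ IntermediateField.fixedField (Subgroup.zpowers t) := by
      refine IntermediateField.adjoin_le_iff.mpr ?_
      intro y hy
      have hty : t y = y := by
        rcases hy with ⟨b, rfl⟩ | ⟨N, hN, hy⟩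
        · change t (j (b : AlgebraicClosure F)) = j b
          rw [← ht, (IntermediateField.mem_fixedField_iff V _).mp b.2 g hg]
        · -- a root of unity
          have hN0 : N ≠ 0 := by rintro rfl; exact hN (dvd_zero _)
          have hNz : NeZero N := ⟨hN0⟩
          have hprim := HasEnoughRootsOfUnity.exists_primitiveRoot (AlgebraicClosure F) N
          obtain ⟨z, hz⟩ := hprim
          have hjz : IsPrimitiveRoot (j z) N := hz.map_of_injective j.injective
          obtain ⟨i, -, hi'⟩ := hjz.eq_pow_of_pow_eq_one hy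
          rw [← hi', ← map_pow, ← ht, map_pow]
          by_contra hne
          have h2 : (j (g z ^ i)) ^ N = 1 := by
            rw [← map_pow, ← map_pow, ← map_pow, ← pow_mul, mul_comm, pow_mul, hz.pow_eq_one,
              one_pow, map_one, map_one]
          have h3 : (j (z ^ i)) ^ N = 1 := by
            rw [← map_pow, ← pow_mul, mul_comm, pow_mul, hz.pow_eq_one, one_pow, map_one]
          have h4 := norm_root_sub hN h2 h3 hne
          have h5 := hi (z ^ i) (norm_root hN0 h3).le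
          rw [map_sub, map_pow g] at h5
          rw [h4] at h5
          exact lt_irrefl _ h5
      rw [SetLike.mem_coe, IntermediateField.mem_fixedField_iff]
      intro s hs
      rw [Subgroup.mem_zpowers_iff] at hs
      obtain ⟨n, rfl⟩ := hs
      have h6 : t ∈ MulAction.stabilizer (GQ l) y := hty
      exact Subgroup.zpow_mem _ h6 n
    intro x hx
    exact (IntermediateField.mem_fixedField_iff _ _).mp (h1 hx) t (Subgroup.mem_zpowers t)
  let τ : PadicAlgCl l ≃ₐ[Lf (SV V j)] PadicAlgCl l :=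
    AlgEquiv.ofRingEquiv (f := t.toRingEquiv) (fun x => hfix x.1 x.2)
  refine ⟨τ, ?_⟩
  apply AlgEquiv.ext
  intro x
  apply j.injective
  rw [res_spec]
  exact (ht x).symm

end Main

theorem zpow_eq_iff {Ω : Type*} [Field Ω] {p : ℕ} [Fact p.Prime] {ζ : Ω}
    (hζ : IsPrimitiveRoot ζ p) {a b : ℤ} (h : ζ ^ a = ζ ^ b) : (a : ZMod p) = b := by
  have hz : ζ ≠ 0 := hζ.ne_zero (Fact.out : p.Prime).ne_zero
  have h1 : ζ ^ (a - b) = 1 := by
    rw [zpow_sub₀ hz, h, div_self (zpow_ne_zero _ hz)]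
  have h2 := (hζ.zpow_eq_one_iff_dvd _).mp h1
  have h3 := (ZMod.intCast_zmod_eq_zero_iff_dvd (a - b) p).mpr h2
  rwa [Int.cast_sub, sub_eq_zero] at h3

end TIAux

open TIAux

theorem stTI (hK : BKOdd.StKum) : StTI := by
  intro p _ F _ _ V hV ζ hζ hζV l _ hlp j π hπ0 hπV hval κ hκ f hf R hR hfR
  have hp : p.Prime := Fact.out
  have hl : l.Prime := Fact.out
  have hlp' : ¬ l ∣ p := fun h => hlp ((Nat.prime_dvd_prime_iff_eq hl hp).mp h)
  let G := PadicAlgCl l ≃ₐ[Lf (SV V j)] PadicAlgCl l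
  let f' : G → ZMod p := fun τ => f (res V j hV τ)
  have hjζ : IsPrimitiveRoot (j ζ) p := hζ.map_of_injective j.injective
  have hFζ : Fx (MonoidHom.id G) (j ζ) := fun τ => fix_S τ (mem_SV V j hζV)
  have hFπ : Fx (MonoidHom.id G) (j π) := fun τ => fix_S τ (mem_SV V j hπV)
  have hf' : f' ∈ CC.Z1 (1 : G →* ZMod p) := by
    refine ⟨?_, ?_⟩
    · obtain ⟨W, hW, hfW⟩ := hf
      apply BKOdd.KumAux.smooth_continuous
      refine ⟨W.comap (res V j hV), hW.preimage (continuous_res V j hV), fun g u hu => ?_⟩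
      change f (res V j hV (g * u)) = f (res V j hV g)
      rw [map_mul]
      exact hfW _ _ hu
    · intro v w
      change f (res V j hV (v * w)) = f (res V j hV v) + (1 : G →* ZMod p) v * f (res V j hV w)
      rw [map_mul, MonoidHom.one_apply, one_mul]
      exact hfR _ (hR _ (res_inert V j hV v) (res_mem V j hV v)) _
        (hR _ (res_inert V j hV w) (res_mem V j hV w))
  obtain ⟨-, h2, -, -, -⟩ := hK (Lf (SV V j)) (PadicAlgCl l) G (MonoidHom.id G)
    Topology.IsOpenEmbedding.id p (j ζ) hjζ hFζ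
  obtain ⟨b, hb0, hFb, y, hy0, hyb, hy⟩ := h2 f' hf'
  -- the absolute value of `b`
  have hbL : b ∈ Lf (SV V j) := by
    have h3 : b ∈ Set.range (algebraMap (Lf (SV V j)) (PadicAlgCl l)) := by
      rw [InfiniteGalois.mem_range_algebraMap_iff_fixed]
      exact hFb
    obtain ⟨z, hz⟩ := h3
    rw [← hz]
    exact z.2
  obtain ⟨z, hz, hbz⟩ := norm_adjoin_tame (SV V j) hbL
  obtain ⟨b', hb'⟩ := norm_comp _ (y := z) hz
  have hb'0 : (b' : AlgebraicClosure F) ≠ 0 := by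
    intro h
    have h3 : ‖b‖ = 0 := by
      rw [hbz, hb']
      change ‖j (b' : AlgebraicClosure F)‖ = 0
      rw [h, map_zero, norm_zero]
    exact hb0 (norm_eq_zero.mp h3)
  obtain ⟨m, hm⟩ := hval b' hb'0 (fun g hg => (IntermediateField.mem_fixedField_iff V _).mp b'.2 g hg)
  have hjπ0 : j π ≠ 0 := fun h => hπ0 (j.injective (by rw [h, map_zero]))
  have hbm : ‖b‖ = ‖j π‖ ^ m := by rw [hbz, hb', ← hm]; rfl
  -- the unit part is a `p`-th power
  obtain ⟨w, hw⟩ := IsAlgClosed.exists_pow_nat_eq (b / (j π) ^ m) hp.pos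
  have hu1 : ‖b / (j π) ^ m‖ = 1 := by
    rw [norm_div, norm_zpow, hbm, div_self]
    exact zpow_ne_zero _ (norm_ne_zero_iff.mpr hjπ0)
  have hw1 : ‖w‖ = 1 := by
    have h3 : ‖w‖ ^ p = 1 := by rw [← norm_pow, hw, hu1]
    exact (pow_eq_one_iff_of_nonneg (norm_nonneg _) hp.ne_zero).mp h3
  have hw0 : w ≠ 0 := by
    rintro rfl
    rw [norm_zero] at hw1
    exact zero_ne_one hw1
  have hτw : ∀ τ : G, τ w = w := fun τ => tau_root τ hlp' hw (by
    rw [map_div₀, map_zpow₀]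
    have h3 : τ b = b := hFb τ
    have h4 : τ (j π) = j π := hFπ τ
    rw [h3, h4]) hw1
  obtain ⟨y₀, hy₀0, hy₀π, hy₀⟩ := hκ
  have hjy₀ : j y₀ ≠ 0 := fun h => hy₀0 (j.injective (by rw [h, map_zero]))
  have hy'0 : (j y₀) ^ m * w ≠ 0 := mul_ne_zero (zpow_ne_zero _ hjy₀) hw0
  have hy'p : ((j y₀) ^ m * w) ^ p = b := by
    rw [mul_pow, hw, ← zpow_natCast, ← zpow_mul, mul_comm m, zpow_mul, zpow_natCast, ← map_pow,
      hy₀π]
    field_simp
  have hroot : (y / ((j y₀) ^ m * w)) ^ p = 1 := by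
    rw [div_pow, hyb, hy'p, div_self hb0]
  obtain ⟨c, hc⟩ := BKOdd.KumAux.exists_val hjζ hroot
  have hyc : y = (j ζ) ^ c.val * ((j y₀) ^ m * w) := by
    rw [hc, div_mul_cancel₀ _ hy'0]
  have key : ∀ τ : G, f' τ = (m : ZMod p) * κ ⟨res V j hV τ, res_mem V j hV τ⟩ := by
    intro τ
    set k₀ := κ ⟨res V j hV τ, res_mem V j hV τ⟩ with hk₀
    have e1 : τ (j y₀) = (j ζ) ^ k₀.val * j y₀ := by
      have h3 := hy₀ ⟨res V j hV τ, res_mem V j hV τ⟩
      rw [← res_spec V j hV τ y₀]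
      change (res V j hV τ) y₀ = ζ ^ k₀.val * y₀ at h3
      rw [h3, map_mul, map_pow]
    have e2 : τ y = (j ζ) ^ c.val * (((j ζ) ^ k₀.val * j y₀) ^ m * w) := by
      have h3 : τ (j ζ) = j ζ := hFζ τ
      rw [hyc, map_mul, map_mul, map_pow, map_zpow₀, hτw τ, e1, h3]
    have e3 : τ y = (j ζ) ^ (f' τ).val * y := hy τ
    rw [e2, hyc] at e3
    have hjζ0 : j ζ ≠ 0 := hjζ.ne_zero hp.ne_zero
    have e4 : (j ζ) ^ (m * (k₀.val : ℤ)) = (j ζ) ^ (((f' τ).val : ℕ) : ℤ) := by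
      have h5 : ((j ζ) ^ c.val * ((j y₀) ^ m * w)) ≠ 0 :=
        mul_ne_zero (pow_ne_zero _ hjζ0) hy'0
      apply mul_right_cancel₀ h5
      rw [zpow_natCast, ← e3, mul_zpow, mul_comm m, zpow_mul, zpow_natCast]
      ring
    have e5 := zpow_eq_iff hjζ e4
    rw [Int.cast_mul, Int.cast_natCast, Int.cast_natCast, ZMod.natCast_zmod_val,
      ZMod.natCast_zmod_val] at e5
    exact e5.symm
  refine ⟨(m : ZMod p), fun g hg hi => ?_⟩
  obtain ⟨τ, rfl⟩ := exists_tau V j hV g hg hi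
  exact key τ

end BKGlob2
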