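import Pool.Agent.Lib.MP_7c08ba_nt.Met.HStmts

set_option autoImplicit false

/-!
Parity without rigidity, global part 2, module TW: a two-class of `GS F P` which is trivial at the
places in `P` is trivial.
-/

noncomputable section

namespace BKGlob2

open NumberField IsDedekindDomain BKGen
open BKOdd (Fx IsKum IsNm chm chZ ConjHyp)
open BKLoc2 (cl sc im cy cyL Sys IsKP IsLam IsHom StLoc hq ht PP)
open BKMet (QZ actA kch Rel GF GQ cycF cycL IsConj RS GS Pl Splits pb1 pb2 LocAx GlobAx StArith)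
open BKPar (Loc1 Loc2)

namespace TWAux

theorem pb2_mem {D G M : Type*} [Group D] [TopologicalSpace D] [Group G] [TopologicalSpace G]
    [AddCommGroup M] (f : D →* G) (hf : Continuous f) (ρ : G →* AddMonoid.End M)
    {z : G → G → M} (hz : z ∈ BKND.Z2 ρ) : pb2 f z ∈ BKND.Z2 (ρ.comp f) := by
  obtain ⟨⟨W, hW, h⟩, h'⟩ := hz
  refine ⟨⟨W.comap f, hW.preimage hf, fun g g' w hw w' hw' => ?_⟩, fun g g' g'' => ?_⟩
  · change z (f (g * w)) (f (g' * w')) = z (f g) (f g')
    rw [map_mul, map_mul]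
    exact h _ _ _ hw _ hw'
  · change ρ (f g) (z (f g') (f g'')) - z (f (g * g')) (f g'') + z (f g) (f (g' * g'')) -
      z (f g) (f g') = 0
    rw [map_mul, map_mul]
    exact h' _ _ _

theorem z_one_right {G M : Type*} [Group G] [TopologicalSpace G] [AddCommGroup M]
    (ρ : G →* AddMonoid.End M) {z : G → G → M} (hz : z ∈ BKND.Z2 ρ) (g : G) :
    z g 1 = ρ g (z 1 1) := by
  have h := hz.2 g 1 1
  rw [mul_one, mul_one] at h
  have h' : ρ g (z 1 1) - z g 1 = 0 := by
    rw [← h]
    abel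
  exact (sub_eq_zero.1 h').symm

theorem z_one_left {G M : Type*} [Group G] [TopologicalSpace G] [AddCommGroup M]
    (ρ : G →* AddMonoid.End M) {z : G → G → M} (hz : z ∈ BKND.Z2 ρ) (g : G) :
    z 1 g = z 1 1 := by
  have h := hz.2 1 1 g
  rw [mul_one, one_mul, map_one] at h
  change z 1 g - z 1 g + z 1 g - z 1 1 = 0 at h
  have h' : z 1 g - z 1 1 = 0 := by
    rw [← h]
    abel
  exact sub_eq_zero.1 h'

/-- the descent -/
theorem descend {Γ k : Type*} [Group Γ] [TopologicalSpace Γ] [IsTopologicalGroup Γ] [Field k]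
    (R : Subgroup Γ) [R.Normal] (ψ : Γ ⧸ R →* kˣ) (z : Γ ⧸ R → Γ ⧸ R → k) (β : Γ → k)
    (hβ : Loc1 β) (hR : ∀ g, ∀ r ∈ R, β (g * r) = β g)
    (h : ∀ g h : Γ, z (QuotientGroup.mk g) (QuotientGroup.mk h) =
      (ψ (QuotientGroup.mk g) : k) * β h - β (g * h) + β g) : z ∈ BKND.B2 (kch ψ) := by
  have hout : ∀ g : Γ, β (Quotient.out (QuotientGroup.mk g : Γ ⧸ R)) = β g := by
    intro g
    have h1 : (QuotientGroup.mk g : Γ ⧸ R) =
        QuotientGroup.mk (Quotient.out (QuotientGroup.mk g : Γ ⧸ R)) :=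
      (QuotientGroup.out_eq' _).symm
    have h2 := QuotientGroup.eq.1 h1
    have h3 := hR g _ h2
    rw [mul_inv_cancel_left] at h3
    exact h3
  refine ⟨fun y => β (Quotient.out y), ?_, ?_⟩
  · obtain ⟨W, hW, hw⟩ := hβ
    refine ⟨W.map (QuotientGroup.mk' R), ?_, ?_⟩
    · rw [Subgroup.coe_map]
      exact QuotientGroup.isOpenMap_coe _ hW
    · rintro g w ⟨w, hw', rfl⟩
      obtain ⟨g, rfl⟩ := QuotientGroup.mk_surjective g
      change β (Quotient.out (QuotientGroup.mk (g * w) : Γ ⧸ R)) =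
        β (Quotient.out (QuotientGroup.mk g : Γ ⧸ R))
      rw [hout, hout]
      exact hw g w hw'
  · intro g h'
    obtain ⟨g, rfl⟩ := QuotientGroup.mk_surjective g
    obtain ⟨h', rfl⟩ := QuotientGroup.mk_surjective h'
    change z (QuotientGroup.mk g) (QuotientGroup.mk h') = (ψ (QuotientGroup.mk g) : k) *
      β (Quotient.out (QuotientGroup.mk h' : Γ ⧸ R)) -
      β (Quotient.out (QuotientGroup.mk (g * h') : Γ ⧸ R)) +
      β (Quotient.out (QuotientGroup.mk g : Γ ⧸ R))
    rw [hout, hout, hout]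
    exact h g h'

/-- the abstract argument -/
theorem main {Γ k : Type*} [Group Γ] [TopologicalSpace Γ] [IsTopologicalGroup Γ] [Field k]
    (R : Subgroup Γ) [R.Normal] (ψ : Γ ⧸ R →* kˣ) (z : Γ ⧸ R → Γ ⧸ R → k)
    (hz : z ∈ BKND.Z2 (kch ψ)) (f : Γ → k) (hf : Loc1 f)
    (hfz : ∀ g h : Γ, z (QuotientGroup.mk g) (QuotientGroup.mk h) =
      (ψ (QuotientGroup.mk g) : k) * f h - f (g * h) + f g)
    (hRR : ∀ f : Γ → k, Loc1 f → (∀ r ∈ R, ∀ s ∈ R, f (r * s) = f r + f s) →
      (∀ g, ∀ r ∈ R, f (g * r * g⁻¹) = (ψ (QuotientGroup.mk g) : k) * f r) →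
      ∃ x ∈ BKND.Z1 (kch (ψ.comp (QuotientGroup.mk' R))), ∀ r ∈ R, x r = f r) :
    z ∈ BKND.B2 (kch ψ) := by
  have hmk : ∀ r ∈ R, (QuotientGroup.mk r : Γ ⧸ R) = 1 := fun r hr =>
    (QuotientGroup.eq_one_iff r).2 hr
  have hc : z 1 1 = f 1 := by
    have h := hfz 1 1
    rw [QuotientGroup.mk_one, map_one, Units.val_one, one_mul, mul_one, sub_self, zero_add] at h
    exact h
  -- right translates
  have h1 : ∀ g, ∀ r ∈ R, f (g * r) = f g + (ψ (QuotientGroup.mk g) : k) * (f r - f 1) := by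
    intro g r hr
    have h := hfz g r
    rw [hmk r hr, z_one_right _ hz, hc] at h
    change (ψ (QuotientGroup.mk g) : k) * f 1 = _ at h
    linear_combination h
  -- left translates
  have h2 : ∀ g, ∀ r ∈ R, f (r * g) = f g + f r - f 1 := by
    intro g r hr
    have h := hfz r g
    rw [hmk r hr, z_one_left _ hz, hc, map_one, Units.val_one, one_mul] at h
    linear_combination h
  obtain ⟨x, hx, hxr⟩ := hRR (fun g => f g - f 1) (BKND.Loc1.map hf fun t => t - f 1)
    (by
      intro r hr s hs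
      have h := h2 s r hr
      linear_combination h)
    (by
      intro g r hr
      have hs : g * r * g⁻¹ ∈ R := Subgroup.Normal.conj_mem inferInstance r hr g
      have h3 := h2 g _ hs
      rw [inv_mul_cancel_right] at h3
      have h4 := h1 g r hr
      linear_combination h4 - h3)
  have hx1 : ∀ g h : Γ, x (g * h) = x g + (ψ (QuotientGroup.mk g) : k) * x h := hx.2
  refine descend R ψ z (fun g => f g - x g) (BKND.Loc1.map2 hf hx.1 fun a b => a - b) ?_ ?_
  · intro g r hr
    rw [h1 g r hr, hx1, hxr r hr]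
    ring
  · intro g h
    rw [hfz, hx1]
    ring

theorem nonarchF (F : Type) [Field F] : NonarchimedeanGroup (GF F) where
  is_nonarchimedean U hU := by
    obtain ⟨E, hE, hEU⟩ := krullTopology_mem_nhds_one_iff F (AlgebraicClosure F) U |>.1 hU
    exact ⟨⟨E.fixingSubgroup, IntermediateField.fixingSubgroup_isOpen E⟩, hEU⟩

theorem inert_mem {F : Type} [Field F] {P : Set ℕ} {l : ℕ} [hl : Fact l.Prime] (h : l ∉ P)
    (j : AlgebraicClosure F →+* PadicAlgCl l) {g : GF F}
    (hg : g ∈ Inert F (AlgebraicClosure F) j) : g ∈ RS F P :=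
  Subgroup.le_topologicalClosure _ (Subgroup.subset_normalClosure ⟨l, hl, j, h, hg⟩)

theorem torsion {p : ℕ} [Fact p.Prime] {k : Type} [Field k] [Algebra (ZMod p) k] (m : k) :
    p ^ 1 • m = 0 := by
  rw [pow_one, nsmul_eq_mul]
  have : (p : k) = 0 := by
    rw [← map_natCast (algebraMap (ZMod p) k), ZMod.natCast_self, map_zero]
  rw [this, zero_mul]

end TWAux

open TWAux

theorem stTW (h1 : StTH) (h2 : StRR) (h3 : StUN) : StTW := by
  intro p hp F iF iN P U E iE hS k ik ifk ia ψ hψ z hz hloc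
  have hψ' : ∀ g ∈ U, (ψ.comp (QuotientGroup.mk' (RS F P))) g = 1 := hψ
  have hcq : Continuous (QuotientGroup.mk' (RS F P)) := QuotientGroup.continuous_mk
  have hz' : pb2 (QuotientGroup.mk' (RS F P)) z ∈
      BKND.Z2 (kch (ψ.comp (QuotientGroup.mk' (RS F P)))) := pb2_mem _ hcq (kch ψ) hz
  have hna := nonarchF F
  have hop : Topology.IsOpenEmbedding (MonoidHom.id (GF F)) := Topology.IsOpenEmbedding.id
  obtain ⟨f, hf, hfz⟩ := h1 p F P U E hS k (ψ.comp (QuotientGroup.mk' (RS F P))) hψ'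
    (pb2 (QuotientGroup.mk' (RS F P)) z) hz' (by
      intro l hl j
      by_cases hlP : l ∈ P
      · exact hloc l hlP j
      · have hlp : l ≠ p := by
          rintro rfl
          exact hlP hS.memP
        exact h3 p hS.odd F (AlgebraicClosure F) (GF F) (MonoidHom.id (GF F)) hop l hlp j
          (GS F P) (QuotientGroup.mk' (RS F P)) hcq
          (fun v hv => (QuotientGroup.eq_one_iff v).2 (inert_mem hlP j hv)) k (kch ψ)
          (fun m => ⟨1, torsion (p := p) m⟩)
          (fun m => ⟨U.map (QuotientGroup.mk' (RS F P)), by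
            rw [Subgroup.coe_map]
            exact QuotientGroup.isOpenMap_coe _ hS.open', by
            rintro w ⟨g, hg, rfl⟩
            change (ψ (QuotientGroup.mk g) : k) * m = m
            rw [hψ g hg, Units.val_one, one_mul]⟩) z hz)
  exact main (RS F P) ψ z hz f hf hfz fun f' hf' ha he =>
    h2 p F P U E hS k (ψ.comp (QuotientGroup.mk' (RS F P))) hψ' f' hf' ha he

end BKGlob2
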