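import Pool.Agent.Lib.MP_7c08ba_nt.Met.HStmts

set_option autoImplicit false

/-!
Module UA: the action of `GF F / U` on the group of `S`-units.
-/

noncomputable section

namespace BKGlob2

open BKMet (GF)

namespace UAaux

variable {F : Type} [Field F] {P : Set ℕ} {U : Subgroup (GF F)}

theorem mem_US [hU : U.Normal] (g : GF F) {x : (AlgebraicClosure F)ˣ} (hx : x ∈ US F P U) :
    Units.map (g : AlgebraicClosure F →* AlgebraicClosure F) x ∈ US F P U := by
  obtain ⟨h1, h2⟩ := hx
  refine ⟨fun u hu => ?_, fun l _ hl j => ?_⟩
  · have h3 := h1 _ (hU.conj_mem' u hu g)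
    change u (g (x : AlgebraicClosure F)) = g (x : AlgebraicClosure F)
    calc u (g (x : AlgebraicClosure F)) = (g * (g⁻¹ * u * g)) (x : AlgebraicClosure F) := by
          rw [mul_assoc, mul_inv_cancel_left, AlgEquiv.mul_apply]
      _ = g ((g⁻¹ * u * g) (x : AlgebraicClosure F)) := by rw [AlgEquiv.mul_apply]
      _ = g (x : AlgebraicClosure F) := by rw [h3]
  · exact h2 l hl (j.comp (g : AlgebraicClosure F →+* AlgebraicClosure F))

/-- an automorphism acts on the group of `S`-units -/
def act [U.Normal] (g : GF F) : US F P U →* US F P U where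
  toFun x := ⟨Units.map (g : AlgebraicClosure F →* AlgebraicClosure F) x.1, mem_US g x.2⟩
  map_one' := by
    ext
    exact map_one g
  map_mul' x y := by
    ext
    exact map_mul g _ _

/-- the action of the Galois group -/
def actH [U.Normal] : GF F →* AddMonoid.End (Additive (US F P U)) where
  toFun g := MonoidHom.toAdditive (act g)
  map_one' := by
    ext x
    rfl
  map_mul' g h := by
    ext x
    rfl

end UAaux

open UAaux

theorem stUA : StUA := by
  intro F _ P U _
  refine ⟨QuotientGroup.lift U actH fun u hu => ?_, fun g x => rfl⟩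
  refine AddMonoidHom.ext fun x => ?_
  refine Additive.toMul.injective (Subtype.ext (Units.ext ?_))
  exact x.toMul.2.1 u hu

end BKGlob2
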