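import Pool.Agent.Lib.MP_7c08ba_nt.Met.LocAll
import Pool.Agent.Lib.MP_7c08ba_nt.Met.GEA
import Pool.Agent.Lib.MP_7c08ba_nt.Met.GEB
import Pool.Agent.Lib.MP_7c08ba_nt.Met.GEC
import Pool.Agent.Lib.MP_7c08ba_nt.Met.GED
import Pool.Agent.Lib.MP_7c08ba_nt.Met.GEE
import Pool.Agent.Lib.MP_7c08ba_nt.Met.GEF
import Pool.Agent.Lib.MP_7c08ba_nt.Met.GEG
import Pool.Agent.Lib.MP_7c08ba_nt.Met.GEX
import Pool.Agent.Lib.MP_7c08ba_nt.Met.GFF
import Pool.Agent.Lib.MP_7c08ba_nt.Met.GFI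
import Pool.Agent.Lib.MP_7c08ba_nt.Met.GFP
import Pool.Agent.Lib.MP_7c08ba_nt.Met.GFS
import Pool.Agent.Lib.MP_7c08ba_nt.Met.GFT
import Pool.Agent.Lib.MP_7c08ba_nt.Met.GHN
import Pool.Agent.Lib.MP_7c08ba_nt.Met.GHerb
import Pool.Agent.Lib.MP_7c08ba_nt.Met.GLA
import Pool.Agent.Lib.MP_7c08ba_nt.Met.GLB
import Pool.Agent.Lib.MP_7c08ba_nt.Met.GLD
import Pool.Agent.Lib.MP_7c08ba_nt.Met.GLE
import Pool.Agent.Lib.MP_7c08ba_nt.Met.GNA1
import Pool.Agent.Lib.MP_7c08ba_nt.Met.GNA2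
import Pool.Agent.Lib.MP_7c08ba_nt.Met.GNA3
import Pool.Agent.Lib.MP_7c08ba_nt.Met.GNA4
import Pool.Agent.Lib.MP_7c08ba_nt.Met.GPA
import Pool.Agent.Lib.MP_7c08ba_nt.Met.GPB
import Pool.Agent.Lib.MP_7c08ba_nt.Met.GPC
import Pool.Agent.Lib.MP_7c08ba_nt.Met.GPD
import Pool.Agent.Lib.MP_7c08ba_nt.Met.GSA
import Pool.Agent.Lib.MP_7c08ba_nt.Met.GSB
import Pool.Agent.Lib.MP_7c08ba_nt.Met.HAR
import Pool.Agent.Lib.MP_7c08ba_nt.Met.HCA
import Pool.Agent.Lib.MP_7c08ba_nt.Met.HCDO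
import Pool.Agent.Lib.MP_7c08ba_nt.Met.HCE
import Pool.Agent.Lib.MP_7c08ba_nt.Met.HCG
import Pool.Agent.Lib.MP_7c08ba_nt.Met.HCJ
import Pool.Agent.Lib.MP_7c08ba_nt.Met.HCP
import Pool.Agent.Lib.MP_7c08ba_nt.Met.HCT
import Pool.Agent.Lib.MP_7c08ba_nt.Met.HCU
import Pool.Agent.Lib.MP_7c08ba_nt.Met.HCV
import Pool.Agent.Lib.MP_7c08ba_nt.Met.HCY
import Pool.Agent.Lib.MP_7c08ba_nt.Met.HFR
import Pool.Agent.Lib.MP_7c08ba_nt.Met.HFRB
import Pool.Agent.Lib.MP_7c08ba_nt.Met.HHA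
import Pool.Agent.Lib.MP_7c08ba_nt.Met.HHP
import Pool.Agent.Lib.MP_7c08ba_nt.Met.HHQ
import Pool.Agent.Lib.MP_7c08ba_nt.Met.HHX
import Pool.Agent.Lib.MP_7c08ba_nt.Met.HKL
import Pool.Agent.Lib.MP_7c08ba_nt.Met.HLI
import Pool.Agent.Lib.MP_7c08ba_nt.Met.HLN
import Pool.Agent.Lib.MP_7c08ba_nt.Met.HLX
import Pool.Agent.Lib.MP_7c08ba_nt.Met.HMI
import Pool.Agent.Lib.MP_7c08ba_nt.Met.HMU
import Pool.Agent.Lib.MP_7c08ba_nt.Met.HNB
import Pool.Agent.Lib.MP_7c08ba_nt.Met.HON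
import Pool.Agent.Lib.MP_7c08ba_nt.Met.HOQ
import Pool.Agent.Lib.MP_7c08ba_nt.Met.HPL
import Pool.Agent.Lib.MP_7c08ba_nt.Met.HPN
import Pool.Agent.Lib.MP_7c08ba_nt.Met.HPQ
import Pool.Agent.Lib.MP_7c08ba_nt.Met.HPR
import Pool.Agent.Lib.MP_7c08ba_nt.Met.HPW
import Pool.Agent.Lib.MP_7c08ba_nt.Met.HRA
import Pool.Agent.Lib.MP_7c08ba_nt.Met.HRE
import Pool.Agent.Lib.MP_7c08ba_nt.Met.HRK
import Pool.Agent.Lib.MP_7c08ba_nt.Met.HRN
import Pool.Agent.Lib.MP_7c08ba_nt.Met.HRP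
import Pool.Agent.Lib.MP_7c08ba_nt.Met.HRQ
import Pool.Agent.Lib.MP_7c08ba_nt.Met.HRR
import Pool.Agent.Lib.MP_7c08ba_nt.Met.HTH
import Pool.Agent.Lib.MP_7c08ba_nt.Met.HTI
import Pool.Agent.Lib.MP_7c08ba_nt.Met.HTW
import Pool.Agent.Lib.MP_7c08ba_nt.Met.HUA
import Pool.Agent.Lib.MP_7c08ba_nt.Met.HUN
import Pool.Agent.Lib.MP_7c08ba_nt.Odd.Kum
import Pool.Agent.Lib.MP_7c08ba_nt.Odd.H90

set_option autoImplicit false

/-!
The global part of parity without rigidity: assembly of all modules.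
-/

noncomputable section

namespace BKGlob2

theorem aPC : StPC := stPC stPA stLA
theorem aLB : StLB := stLB stNA3 BKLoc2.aNT
theorem aEB : StEB := stEB stPA stEA
theorem aEC : StEC := stEC stPA stEA
theorem aEE : StEE := stEE stHerb stSB stEA aEB aEC stED
theorem aEF : StEF := stEF stEA aEB aEC
theorem aEG : StEG := stEG stSA
theorem aFI : StFI := stFI aEE stEX aLB stNA1 stNA3 stNA4
theorem aPD : StPD := stPD stLE stPB
theorem aFF : StFF := stFF aFI aEF aEG stEX aPD stNA2 stNA3 stNA4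
theorem aFT : StFT := stFT aFF stEA stEX stLD stPA stPB stSB
theorem aFP : StFP := stFP aFI stNA1 stNA2 stPB stSA
theorem aFS : StFS := stFS aEF aFP aFT stNA2 stNA3 stNA4 aPC stSB
theorem aHN : StHN := stHN aEE aEG stEX aFS aLB stPB stNA1 stNA3 stNA4

theorem aNB : StNB := stNB stNA3
theorem aLN : StLN := stLN stCP aNB stNA1
theorem aHQ : StHQ := stHQ aLN aHN aNB stCP
theorem aHP : StHP := stHP aHQ
theorem aHX : StHX := stHX aHP
theorem aHA : StHA := stHA aHX stCP stCY BKLoc2.stPA BKLoc2.aZ1A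
theorem aUN : StUN := stUN stCDO stFRB stCP BKLoc2.stLam
theorem aKL : StKL := stKL BKLoc2.aInvL BKLoc2.stSC BKLoc2.stKPE stCY BKLoc2.stLam
theorem aRA : StRA := stRA aKL aHA stCJ stCV stCY stCP
theorem aRN : StRN := stRN BKLoc2.aInvV stCP stCY stCJ
theorem aRE : StRE :=
  stRE aRA stLX aRN stRP stCJ stCY BKLoc2.stKPE BKLoc2.stSC BKLoc2.stCyP
theorem aPR : StPR := stPR stPQ stSA
theorem aTI : StTI := stTI (BKOdd.stKum BKOdd.stH90)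
theorem aRQ : StRQ := stRQ stFR aTI stPA
theorem aRR : StRR := stRR aRQ BKLoc2.stTRM
theorem aTH : StTH := stTH aHP BKLoc2.stTRM
theorem aTW : StTW := stTW aTH aRR aUN
theorem aOQ : StOQ := stOQ aFI stNA1 stPB
theorem aON : StON := stON aOQ BKLoc2.stTRM
theorem aCE : StCE := stCE BKLoc2.aKH
theorem aCG : StCG := stCG BKLoc2.stEig
theorem aPW : StPW := stPW stPA
theorem aPN : StPN := stPN stPA
theorem aRK : StRK := stRK stSB stPB
theorem aCU : StCU := stCU stMU stMI aPW aPN aRK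
theorem aCA : StCA := stCA stUA aCE stCT aCG aCU
theorem aLI : StLI := stLI BKLoc2.aLoc

/-- **The arithmetic theorem.** -/
theorem aArith : BKMet.StArith :=
  stAR aLI BKLoc2.stLam stCY stCP stCJ stCV stPL aPR stSA aTW aON aCA aRE aUN

end BKGlob2
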