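import Pool.Agent.Lib.MP_7c08ba_nt.Met.HStmts

set_option autoImplicit false

/-!
Parity without rigidity, global part 2, module CDO: classes inflated from procyclic quotients which
are infinitely divisible by `p` are trivial.
-/

noncomputable section

namespace BKGlob2

open BKLoc2 (IsHom)
open BKMet (pb2)
open BKPar (Loc1 Loc2)

namespace CDOAux

section Prim

variable {D : Type} [Group D] {M : Type} [AddCommGroup M]

/-- the primitive on the powers of `φ` -/
def FF (z : D → D → M) (φ : D) (n : ℕ) : M := z 1 1 - ∑ i ∈ Finset.range n, z (φ ^ i) φ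

theorem FF_zero (z : D → D → M) (φ : D) : FF z φ 0 = z 1 1 := by
  rw [FF, Finset.sum_range_zero, sub_zero]

theorem FF_succ (z : D → D → M) (φ : D) (n : ℕ) : FF z φ (n + 1) = FF z φ n - z (φ ^ n) φ := by
  rw [FF, FF, Finset.sum_range_succ]
  abel

theorem z_pow {a : D →* AddMonoid.End M} {z : D → D → M}
    (hz : ∀ g h k, a g (z h k) - z (g * h) k + z g (h * k) - z g h = 0) (φ : D) (m n : ℕ) :
    z (φ ^ m) (φ ^ n) = a (φ ^ m) (FF z φ n) - FF z φ (m + n) + FF z φ m := by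
  induction n with
  | zero =>
    rw [pow_zero, FF_zero, add_zero, sub_add_cancel]
    have h := hz (φ ^ m) 1 1
    rw [mul_one, mul_one, sub_add_cancel, sub_eq_zero] at h
    exact h.symm
  | succ n ih =>
    have h := hz (φ ^ m) (φ ^ n) φ
    rw [← pow_add, ← pow_succ] at h
    rw [FF_succ, ← add_assoc, FF_succ, map_sub]
    rw [ih] at h
    rw [← sub_eq_zero, ← h]
    abel

theorem FF_add {z : D → D → M} {φ : D} {N : ℕ} (h : ∀ i, z (φ ^ (i + N)) φ = z (φ ^ i) φ)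
    (n : ℕ) : FF z φ (n + N) = FF z φ n + (FF z φ N - z 1 1) := by
  induction n with
  | zero => rw [zero_add, FF_zero]; abel
  | succ n ih =>
    rw [add_right_comm, FF_succ, ih, FF_succ, h]
    abel

theorem FF_mul {z : D → D → M} {φ : D} {N : ℕ} (h : ∀ i, z (φ ^ (i + N)) φ = z (φ ^ i) φ)
    (n t : ℕ) : FF z φ (n + N * t) = FF z φ n + t • (FF z φ N - z 1 1) := by
  induction t with
  | zero => rw [mul_zero, add_zero, zero_smul, add_zero]
  | succ t ih => rw [mul_add, mul_one, ← add_assoc, FF_add h, ih, succ_nsmul]; abel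

end Prim

theorem exists_normal {V : Type*} [Group V] [TopologicalSpace V] [IsTopologicalGroup V]
    [CompactSpace V] (W : Subgroup V) (hW : IsOpen (W : Set V)) :
    ∃ N : Subgroup V, N.Normal ∧ IsOpen (N : Set V) ∧ N ≤ W := by
  have hfin : Finite (V ⧸ W) := Subgroup.quotient_finite_of_isOpen W hW
  have hfi : W.FiniteIndex := Subgroup.finiteIndex_of_finite_quotient
  have hcl : IsClosed (W.normalCore : Set V) :=
    W.normalCore_isClosed (Subgroup.isClosed_of_isOpen W hW)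
  have hfi' : W.normalCore.FiniteIndex := Subgroup.finiteIndex_normalCore W
  exact ⟨W.normalCore, inferInstance, Subgroup.isOpen_of_isClosed_of_finiteIndex _ hcl,
    W.normalCore_le⟩

section Th

variable {p : ℕ} [hp : Fact p.Prime] {D : Type} [Group D] [TopologicalSpace D]

theorem hom_one {θ : D → ℤ_[p]} (hθ : IsHom θ) : θ 1 = 0 := by
  have := hθ.mul 1 1
  rw [mul_one] at this
  exact left_eq_add.mp this

theorem hom_inv {θ : D → ℤ_[p]} (hθ : IsHom θ) (g : D) : θ g⁻¹ = -θ g := by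
  have := hθ.mul g g⁻¹
  rw [mul_inv_cancel, hom_one hθ] at this
  exact eq_neg_of_add_eq_zero_right this.symm

theorem hom_pow {θ : D → ℤ_[p]} (hθ : IsHom θ) (g : D) (n : ℕ) : θ (g ^ n) = n * θ g := by
  induction n with
  | zero => rw [pow_zero, hom_one hθ, Nat.cast_zero, zero_mul]
  | succ n ih => rw [pow_succ, hθ.mul, ih, Nat.cast_succ]; ring

/-- the subgroup where `θ` is divisible by `p ^ c` -/
def Th {θ : D → ℤ_[p]} (hθ : IsHom θ) (c : ℕ) : Subgroup D where
  carrier := {d | (p : ℤ_[p]) ^ c ∣ θ d}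
  one_mem' := by
    change (p : ℤ_[p]) ^ c ∣ θ 1
    rw [hom_one hθ]
    exact dvd_zero _
  mul_mem' := by
    intro a b ha hb
    change (p : ℤ_[p]) ^ c ∣ θ (a * b)
    rw [hθ.mul]
    exact dvd_add ha hb
  inv_mem' := by
    intro a ha
    change (p : ℤ_[p]) ^ c ∣ θ a⁻¹
    rw [hom_inv hθ]
    exact (dvd_neg).2 ha

theorem Th_open {θ : D → ℤ_[p]} (hθ : IsHom θ) (c : ℕ) : IsOpen (Th hθ c : Set D) := by
  have h1 : (Th hθ c : Set D) = θ ⁻¹' (Metric.closedBall 0 ((p : ℝ) ^ (-(c : ℤ)))) := by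
    ext d
    rw [Set.mem_preimage, mem_closedBall_zero_iff, PadicInt.norm_le_pow_iff_mem_span_pow,
      Ideal.mem_span_singleton]
    rfl
  rw [h1]
  refine (IsUltrametricDist.isOpen_closedBall _ ?_).preimage hθ.cont
  have : (0 : ℝ) < p := by exact_mod_cast hp.out.pos
  positivity

theorem Th_normal {θ : D → ℤ_[p]} (hθ : IsHom θ) (c : ℕ) : (Th hθ c).Normal := by
  refine ⟨fun n hn g => ?_⟩
  change (p : ℤ_[p]) ^ c ∣ θ (g * n * g⁻¹)
  rw [hθ.mul, hθ.mul, hom_inv hθ, add_neg_cancel_comm]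
  exact hn

/-- divisibility of exponents -/
theorem dvd_of_theta {x : ℤ_[p]} (hx : x ≠ 0) {b N : ℕ}
    (h : (p : ℤ_[p]) ^ (b + x.valuation) ∣ (N : ℤ_[p]) * x) : p ^ b ∣ N := by
  have h1 := PadicInt.unitCoeff_spec hx
  rw [h1] at h
  have hpne : (p : ℤ_[p]) ≠ 0 := by exact_mod_cast hp.out.ne_zero
  have h2 : (p : ℤ_[p]) ^ b * (p : ℤ_[p]) ^ x.valuation ∣
      ((N : ℤ_[p]) * (PadicInt.unitCoeff hx : ℤ_[p])) * (p : ℤ_[p]) ^ x.valuation := by
    have e1 : (PadicInt.valuation ((PadicInt.unitCoeff hx : ℤ_[p]) *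
      (p : ℤ_[p]) ^ x.valuation)) = x.valuation := by rw [← h1]
    rw [e1, pow_add] at h
    rw [mul_assoc (N : ℤ_[p])]
    exact h
  have h3 := (mul_dvd_mul_iff_right (pow_ne_zero _ hpne)).1 h2
  have h4 : (p : ℤ_[p]) ^ b ∣ (N : ℤ_[p]) := (Units.dvd_mul_right).1 h3
  have h5 : ((p : ℤ) ^ b) ∣ (N : ℤ) := by
    rw [← PadicInt.pow_p_dvd_int_iff]
    exact_mod_cast h4
  exact_mod_cast h5

end Th

end CDOAux

open CDOAux

/-- Module CDO. -/
theorem stCDO : StCDO := by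
  intro p hp D _ _ _ _ _ I φ θ hθ hI hφ hgen G _ _ f hf hfI M _ ρ hM hst z hz
  classical
  set a : D →* AddMonoid.End M := ρ.comp f with ha
  set z' : D → D → M := pb2 f z with hz'
  have hcoc : ∀ g h k, a g (z' h k) - z' (g * h) k + z' g (h * k) - z' g h = 0 := by
    intro g h k
    have h1 := hz.2 (f g) (f h) (f k)
    rw [← map_mul, ← map_mul] at h1
    exact h1
  obtain ⟨W, hW, hWz⟩ := hz.1
  set W' : Subgroup D := W.comap f with hW'
  have hW'o : IsOpen (W' : Set D) := hW.preimage hf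
  have hfin : Finite (D ⧸ W') := Subgroup.quotient_finite_of_isOpen W' hW'o
  have hft : Fintype (D ⧸ W') := Fintype.ofFinite _
  have hinv : ∀ d d', ∀ w ∈ W', ∀ w' ∈ W', z' (d * w) (d' * w') = z' d d' := by
    intro d d' w hw w' hw'
    change z (f (d * w)) (f (d' * w')) = _
    rw [map_mul, map_mul]
    exact hWz _ _ _ hw _ hw'
  have hval : ∀ d d', z' d d' =
      z' (QuotientGroup.mk d : D ⧸ W').out (QuotientGroup.mk d' : D ⧸ W').out := by
    intro d d'
    have h1 : ∀ d : D, ∃ w ∈ W', (QuotientGroup.mk d : D ⧸ W').out = d * w := by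
      intro d
      obtain ⟨w, hw⟩ := QuotientGroup.mk_out_eq_mul W' d
      exact ⟨w, w.2, hw⟩
    obtain ⟨w, hw, hw1⟩ := h1 d
    obtain ⟨w', hw', hw1'⟩ := h1 d'
    rw [hw1, hw1', hinv _ _ _ hw _ hw']
  -- exponent and stabilisers of the values
  choose ex hex using fun x : (D ⧸ W') × (D ⧸ W') => hM (z' x.1.out x.2.out)
  choose St hSt hSt' using fun x : (D ⧸ W') × (D ⧸ W') => hst (z' x.1.out x.2.out)
  set e : ℕ := ∑ x, ex x with he
  have hkill : ∀ d d', p ^ e • z' d d' = 0 := by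
    intro d d'
    rw [hval d d']
    have h1 : ex ((QuotientGroup.mk d : D ⧸ W'), (QuotientGroup.mk d' : D ⧸ W')) ≤ e :=
      Finset.single_le_sum (f := ex) (fun _ _ => Nat.zero_le _) (Finset.mem_univ _)
    obtain ⟨t, ht⟩ := Nat.exists_eq_add_of_le h1
    rw [ht, pow_add, mul_comm, mul_smul]
    have h2 := hex ((QuotientGroup.mk d : D ⧸ W'), (QuotientGroup.mk d' : D ⧸ W'))
    rw [h2, smul_zero]
  set W1 : Subgroup D := W' ⊓ ⨅ x : (D ⧸ W') × (D ⧸ W'), (St x).comap f with hW1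
  have hW1o : IsOpen (W1 : Set D) := by
    rw [hW1, Subgroup.coe_inf, Subgroup.coe_iInf]
    exact hW'o.inter (isOpen_iInter_of_finite fun x => (hSt x).preimage hf)
  obtain ⟨N, hNn, hNo, hNW⟩ := exists_normal W1 hW1o
  have hNact : ∀ n ∈ N, ∀ d d', a n (z' d d') = z' d d' := by
    intro n hn d d'
    rw [hval d d']
    have h1 : n ∈ ⨅ x : (D ⧸ W') × (D ⧸ W'), (St x).comap f := (hNW hn).2
    rw [Subgroup.mem_iInf] at h1
    exact hSt' ((QuotientGroup.mk d : D ⧸ W'), (QuotientGroup.mk d' : D ⧸ W')) _ (h1 _)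
  -- the normal subgroup `K`
  set K : Subgroup D := (N.map f).comap f with hK
  have hKmem : ∀ k, k ∈ K ↔ ∃ n ∈ N, f n = f k := fun k => Iff.rfl
  have hNK : N ≤ K := Subgroup.le_comap_map f N
  have hKo : IsOpen (K : Set D) := Subgroup.isOpen_mono hNK hNo
  have hKn : K.Normal := by
    refine ⟨fun k hk g => ?_⟩
    obtain ⟨n, hn, hn'⟩ := (hKmem k).1 hk
    refine (hKmem _).2 ⟨g * n * g⁻¹, hNn.conj_mem n hn g, ?_⟩
    rw [map_mul, map_mul, map_mul, map_mul, hn']
  have hKact : ∀ k ∈ K, ∀ d d', a k (z' d d') = z' d d' := by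
    intro k hk d d'
    obtain ⟨n, hn, hn'⟩ := (hKmem k).1 hk
    have h1 : a k = a n := by
      change ρ (f k) = ρ (f n)
      rw [hn']
    rw [h1]
    exact hNact n hn d d'
  have hKz : ∀ d d', ∀ k ∈ K, ∀ k' ∈ K, z' (d * k) (d' * k') = z' d d' := by
    intro d d' k hk k' hk'
    obtain ⟨n, hn, hn'⟩ := (hKmem k).1 hk
    obtain ⟨m, hm, hm'⟩ := (hKmem k').1 hk'
    have h1 : z' (d * k) (d' * k') = z' (d * n) (d' * m) := by
      change z (f (d * k)) (f (d' * k')) = z (f (d * n)) (f (d' * m))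
      rw [map_mul, map_mul, map_mul, map_mul, hn', hm']
    rw [h1]
    exact hinv _ _ _ (hNW hn).1 _ (hNW hm).1
  -- the group `A`
  let A : AddSubgroup M :=
    { carrier := {m | (∀ k ∈ K, a k m = m) ∧ p ^ e • m = 0}
      add_mem' := by
        rintro x y ⟨h1, h2⟩ ⟨h3, h4⟩
        refine ⟨fun k hk => ?_, ?_⟩
        · rw [map_add, h1 k hk, h3 k hk]
        · rw [smul_add, h2, h4, add_zero]
      zero_mem' := ⟨fun k _ => map_zero _, smul_zero _⟩
      neg_mem' := by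
        rintro x ⟨h1, h2⟩
        refine ⟨fun k hk => ?_, ?_⟩
        · rw [map_neg, h1 k hk]
        · rw [smul_neg, h2, neg_zero] }
  have hzA : ∀ d d', z' d d' ∈ A := fun d d' => ⟨fun k hk => hKact k hk d d', hkill d d'⟩
  have hFA : ∀ n, FF z' φ n ∈ A := fun n =>
    A.sub_mem (hzA _ _) (A.sum_mem fun i _ => hzA _ _)
  -- the order of `φ` modulo `K`
  have hfinK : Finite (D ⧸ K) := Subgroup.quotient_finite_of_isOpen K hKo
  set r : ℕ := orderOf (QuotientGroup.mk φ : D ⧸ K) with hr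
  have hr0 : 0 < r := orderOf_pos _
  have hrK : φ ^ r ∈ K := by
    have h1 := pow_orderOf_eq_one (QuotientGroup.mk φ : D ⧸ K)
    rw [← hr, ← QuotientGroup.mk_pow, QuotientGroup.eq_one_iff] at h1
    exact h1
  have hrdvd : ∀ j, φ ^ j ∈ K → r ∣ j := by
    intro j hj
    apply orderOf_dvd_of_pow_eq_one
    rw [← QuotientGroup.mk_pow, QuotientGroup.eq_one_iff]
    exact hj
  have hper : ∀ i, z' (φ ^ (i + r)) φ = z' (φ ^ i) φ := by
    intro i
    have h1 := hKz (φ ^ i) φ (φ ^ r) hrK 1 K.one_mem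
    rw [mul_one, ← pow_add] at h1
    exact h1
  have hFper : ∀ n t, FF z' φ (n + r * p ^ e * t) = FF z' φ n := by
    intro n t
    rw [mul_assoc, FF_mul hper, mul_comm (p ^ e) t, mul_smul]
    have h1 : FF z' φ r - z' 1 1 ∈ A := A.sub_mem (hFA _) (hzA _ _)
    rw [h1.2, smul_zero, add_zero]
  -- the subgroup `W0`
  obtain ⟨v, u, hu, hru⟩ : ∃ v u : ℕ, u.Coprime p ∧ r = p ^ v * u := by
    obtain ⟨v, u, hu, h⟩ := Nat.exists_eq_pow_mul_and_not_dvd hr0.ne' p hp.out.ne_one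
    exact ⟨v, u, ((Nat.Prime.coprime_iff_not_dvd hp.out).2 hu).symm, h⟩
  set b : ℕ := e + v with hb
  set W0 : Subgroup D := K ⊓ Th hθ (b + (θ φ).valuation) with hW0
  have hW0o : IsOpen (W0 : Set D) := by
    rw [hW0, Subgroup.coe_inf]
    exact hKo.inter (Th_open hθ _)
  have hTn : (Th hθ (b + (θ φ).valuation)).Normal := Th_normal hθ _
  have hW0n : W0.Normal := inferInstance
  have hdvd : ∀ j, φ ^ j ∈ W0 → r * p ^ e ∣ j := by
    intro j hj
    have h1 := hrdvd j hj.1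
    have h2 : (p : ℤ_[p]) ^ (b + (θ φ).valuation) ∣ (j : ℤ_[p]) * θ φ := by
      rw [← hom_pow hθ]
      exact hj.2
    have h3 := dvd_of_theta hφ h2
    have h4 : u ∣ j := (Dvd.intro_left _ rfl : u ∣ p ^ v * u).trans (hru ▸ h1)
    have h5 : u * p ^ b ∣ j := (hu.pow_right b).mul_dvd_of_dvd_of_dvd h4 h3
    have h6 : r * p ^ e = u * p ^ b := by
      rw [hru, hb, pow_add]
      ring
    rw [h6]
    exact h5
  have hrel : ∀ d, ∃ n : ℕ, ∃ k ∈ W0, d = φ ^ n * k := by
    intro d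
    obtain ⟨n, i, hi, w, hw, hd⟩ := hgen W0 hW0o d
    refine ⟨n, i * w, W0.mul_mem ⟨?_, ?_⟩ hw, by rw [hd, mul_assoc]⟩
    · exact (hKmem i).2 ⟨1, N.one_mem, by rw [map_one, hfI i hi]⟩
    · change (p : ℤ_[p]) ^ (b + (θ φ).valuation) ∣ θ i
      rw [hI i hi]
      exact dvd_zero _
  choose nd kd hkd hd using hrel
  have huniq : ∀ d n k, k ∈ W0 → d = φ ^ n * k → FF z' φ (nd d) = FF z' φ n := by
    intro d n k hk hdn
    have key : ∀ (m n : ℕ) (k k' : D), k ∈ W0 → k' ∈ W0 → m ≤ n → φ ^ m * k = φ ^ n * k' →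
        FF z' φ m = FF z' φ n := by
      intro m n k k' hk hk' hmn h
      obtain ⟨t, rfl⟩ := Nat.exists_eq_add_of_le hmn
      rw [pow_add, mul_assoc, mul_right_inj] at h
      have h1 : φ ^ t = k * k'⁻¹ := by rw [h, mul_inv_cancel_right]
      have h2 : φ ^ t ∈ W0 := by
        rw [h1]
        exact W0.mul_mem hk (W0.inv_mem hk')
      obtain ⟨s, rfl⟩ := hdvd t h2
      rw [hFper]
    rcases le_total (nd d) n with h | h
    · exact key _ _ _ _ (hkd d) hk h (by rw [← hd d, ← hdn])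
    · exact (key _ _ _ _ hk (hkd d) h (by rw [← hd d, ← hdn])).symm
  refine ⟨fun d => FF z' φ (nd d), ⟨W0, hW0o, fun g w hw => ?_⟩, fun g h => ?_⟩
  · refine huniq (g * w) (nd g) (kd g * w) (W0.mul_mem (hkd g) hw) ?_
    rw [← mul_assoc, ← hd g]
  · have h1 : FF z' φ (nd (g * h)) = FF z' φ (nd g + nd h) := by
      refine huniq (g * h) (nd g + nd h) ((φ ^ nd h)⁻¹ * kd g * (φ ^ nd h) * kd h)
        (W0.mul_mem ?_ (hkd h)) ?_
      · have := hW0n.conj_mem (kd g) (hkd g) (φ ^ nd h)⁻¹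
        rwa [inv_inv] at this
      · conv_lhs => rw [hd g, hd h]
        rw [pow_add]
        group
    have h2 : z' g h = z' (φ ^ nd g) (φ ^ nd h) := by
      conv_lhs => rw [hd g, hd h]
      exact hKz _ _ _ (hkd g).1 _ (hkd h).1
    have h3 : a g (FF z' φ (nd h)) = a (φ ^ nd g) (FF z' φ (nd h)) := by
      conv_lhs => rw [hd g, map_mul]
      change a (φ ^ nd g) (a (kd g) (FF z' φ (nd h))) = _
      rw [(hFA (nd h)).1 _ (hkd g).1]
    change z' g h = a g (FF z' φ (nd h)) - FF z' φ (nd (g * h)) + FF z' φ (nd g)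
    rw [h1, h2, h3]
    exact z_pow hcoc φ _ _

end BKGlob2
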