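import Pool.Agent.Lib.MP_7c08ba_nt.Met.HStmts
import Pool.Agent.Lib.MP_7c08ba_nt.Met.LPA
import Pool.Agent.Lib.MP_7c08ba_nt.Met.LKPE

set_option autoImplicit false

/-!
Parity without rigidity, global part 2, module HA: the Hasse principle for `H²(V, ℚ_p / ℤ_p (χ))`.
-/

noncomputable section

namespace BKGlob2

open NumberField IsDedekindDomain BKGen
open BKOdd (Fx IsKum IsNm chm chZ ConjHyp)
open BKLoc2 (cl sc im cy cyL Sys IsKP IsLam IsHom StLoc hq ht PP)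
open BKMet (QZ actA kch Rel GF GQ cycF cycL IsConj RS GS Pl Splits pb1 pb2 LocAx GlobAx StArith)
open BKPar (Loc1 Loc2)

namespace HA

variable {D G : Type} [Group D] [Group G] [TopologicalSpace D] [TopologicalSpace G]
  {f : D →* G}

/-- restriction of smooth functions of one variable -/
theorem loc1_pb {X : Type*} (hf : Continuous f) {z : G → X} (hz : Loc1 z) : Loc1 (pb1 f z) := by
  obtain ⟨W, hW, hz⟩ := hz
  refine ⟨W.comap f, hW.preimage hf, fun g w hw => ?_⟩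
  change z (f (g * w)) = z (f g)
  rw [map_mul]
  exact hz _ _ hw

/-- restriction of smooth functions of two variables -/
theorem loc2_pb {X : Type*} (hf : Continuous f) {z : G → G → X} (hz : Loc2 z) :
    Loc2 (pb2 f z) := by
  obtain ⟨W, hW, hz⟩ := hz
  refine ⟨W.comap f, hW.preimage hf, fun g h w hw w' hw' => ?_⟩
  change z (f (g * w)) (f (h * w')) = z (f g) (f h)
  rw [map_mul, map_mul]
  exact hz _ _ _ hw _ hw'

/-- restriction of two-coboundaries -/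
theorem B2_pb {M : Type*} [AddCommGroup M] {ρ : G →* AddMonoid.End M} (hf : Continuous f)
    {z : G → G → M} (hz : z ∈ BKND.B2 ρ) : pb2 f z ∈ BKND.B2 (ρ.comp f) := by
  obtain ⟨β, hβ, h⟩ := hz
  refine ⟨pb1 f β, loc1_pb hf hβ, fun g g' => ?_⟩
  change z (f g) (f g') = ρ (f g) (β (f g')) - β (f (g * g')) + β (f g)
  rw [h, map_mul]

variable {p : ℕ} [Fact p.Prime]

/-- restriction of two-cocycles with values in `ℤ/p` -/
theorem Z2_pb {c : G →* ZMod p} (hf : Continuous f) {z : G → G → ZMod p} (hz : z ∈ CC.Z2 c) :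
    pb2 f z ∈ CC.Z2 (c.comp f) := by
  refine ⟨hz.1.comp (by fun_prop : Continuous fun x : D × D => (f x.1, f x.2)),
    fun g h k => ?_⟩
  have h1 := hz.2 (f g) (f h) (f k)
  rw [← map_mul, ← map_mul] at h1
  exact h1

/-- division of Kummer cocycles by `p` -/
theorem div_kum [NonarchimedeanGroup D] {χ : D →* ℤ_[p]ˣ}
    {κ : D → ℤ_[p]} (hκ : κ ∈ CC.Z1 (chZ χ)) (n : ℕ) :
    (fun v => cl p ((κ v : ℚ_[p]) / (p : ℚ_[p]) ^ n)) ∈ BKND.Z1 (actA χ) := by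
  have hp : (p : ℚ_[p]) ≠ 0 := Nat.cast_ne_zero.2 (Fact.out : p.Prime).ne_zero
  have hd : ∀ x y : ℤ_[p], (p : ℤ_[p]) ^ n ∣ y →
      cl p (((x + y : ℤ_[p]) : ℚ_[p]) / (p : ℚ_[p]) ^ n) = cl p ((x : ℚ_[p]) / (p : ℚ_[p]) ^ n) := by
    rintro x y ⟨c, rfl⟩
    have h1 : ((x + (p : ℤ_[p]) ^ n * c : ℤ_[p]) : ℚ_[p]) / (p : ℚ_[p]) ^ n =
        (x : ℚ_[p]) / (p : ℚ_[p]) ^ n + (c : ℚ_[p]) := by
      push_cast
      field_simp
    rw [h1, BKLoc2.PAAux.cl_add, BKLoc2.PAAux.cl_eq_zero.2 ⟨c, rfl⟩, add_zero]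
  refine ⟨?_, fun g h => ?_⟩
  · have h1 : κ 1 = 0 := by
      have := hκ.2 1 1
      simpa using this
    have h2 : {y : ℤ_[p] | (p : ℤ_[p]) ^ n ∣ y} ∈ nhds (κ 1) := by
      rw [h1]
      have hpos : (0 : ℝ) < (p : ℝ) ^ (-(n : ℤ)) :=
        zpow_pos (Nat.cast_pos.2 (Fact.out : p.Prime).pos) _
      refine Filter.mem_of_superset (Metric.closedBall_mem_nhds 0 hpos) fun y hy => ?_
      rw [mem_closedBall_zero_iff, PadicInt.norm_le_pow_iff_mem_span_pow,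
        Ideal.mem_span_singleton] at hy
      exact hy
    obtain ⟨W, hW⟩ := NonarchimedeanGroup.is_nonarchimedean _ (hκ.1.continuousAt h2)
    refine ⟨W.toSubgroup, W.isOpen, fun g w hw => ?_⟩
    change cl p ((κ (g * w) : ℚ_[p]) / (p : ℚ_[p]) ^ n) = _
    rw [hκ.2]
    exact hd _ _ (Dvd.dvd.mul_left (hW hw) _)
  · rw [BKMet.actA_apply, BKLoc2.PAAux.smul_cl, ← BKLoc2.PAAux.cl_add]
    change cl p ((κ (g * h) : ℚ_[p]) / (p : ℚ_[p]) ^ n) = _
    rw [hκ.2]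
    congr 1
    change (((κ g + ((χ g : ℤ_[p]ˣ) : ℤ_[p]) * κ h : ℤ_[p])) : ℚ_[p]) / _ = _
    push_cast
    ring

end HA

open HA

/-- Module HA: the Hasse principle for `H²(V, ℚ_p / ℤ_p (χ))`. -/
theorem stHA (hHX : StHX) (hCP : StCP) (hCY : StCY) (hPA : BKLoc2.StPA)
    (hZ1A : BKLoc2.StZ1A) : StHA := by
  classical
  intro p hp hp2 k Ω _ _ _ _ _ _ _ V _ _ _ _ _ e he z hz hl
  set χ : V →* ℤ_[p]ˣ := (cy p k Ω).comp e with hχ
  have hχc : Continuous χ := (cyclotomicCharacter.continuous p k Ω).comp he.continuous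
  obtain ⟨pa1, pa2, pa3, -, pa5⟩ := hPA p V χ hχc
  by_contra hcon
  have hex : ∃ n : ℕ, p ^ n • z ∈ BKND.B2 (actA χ) := by
    obtain ⟨n, hn⟩ := pa5 z hz
    exact ⟨n, by rw [hn]; exact zero_mem _⟩
  obtain ⟨n, hn, hmin⟩ : ∃ n : ℕ, p ^ (n + 1) • z ∈ BKND.B2 (actA χ) ∧
      p ^ n • z ∉ BKND.B2 (actA χ) := by
    have h0 : Nat.find hex ≠ 0 := by
      intro h
      have := Nat.find_spec hex
      rw [h, pow_zero, one_smul] at this
      exact hcon this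
    obtain ⟨m, hm⟩ := Nat.exists_eq_succ_of_ne_zero h0
    refine ⟨m, ?_, Nat.find_min hex (by omega)⟩
    have := Nat.find_spec hex
    rwa [hm] at this
  have hz' : p ^ n • z ∈ BKND.Z2 (actA χ) := nsmul_mem hz _
  obtain ⟨y, hy, hy'⟩ := pa1 _ hz' (by rw [smul_smul, ← pow_succ']; exact hn)
  refine hmin ?_
  have hyB : y ∈ CC.B2 (chm χ) := by
    refine hHX p hp2 k Ω V e he y hy fun l _ j => ?_
    obtain ⟨c1, c2, c3, c4, -⟩ := hCP k Ω V e he l j
    have hχ' : χ.comp (fs e j) = (cyL p l).comp (sn e j) := by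
      ext x
      have := (hCY p k Ω ℚ_[l] (PadicAlgCl l)).2 j (e (fs e j x)) (sn e j x) (Cp_rel e j x)
      exact congrArg (fun u : ℤ_[p]ˣ => (u : ℤ_[p])) this
    obtain ⟨-, -, -, pa4, -⟩ := hPA p (Cp e j) (χ.comp (fs e j)) (hχc.comp c2)
    refine pa4 ?_ _ (Z2_pb c2 hy) ?_
    · obtain ⟨z₀, hz₀⟩ := (hCY p ℚ_[l] (PadicAlgCl l) ℚ_[l] (PadicAlgCl l)).1
      obtain ⟨-, -, -, kp, -⟩ := BKLoc2.stKPE p ℚ_[l] (PadicAlgCl l) (Cp e j) (sn e j)
        c1.continuous z₀ hz₀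
      rw [hχ']
      intro β hβ
      obtain ⟨a, ha, -, κ, hκ, m, hm⟩ := hZ1A p ℚ_[l] (PadicAlgCl l) (Cp e j) (sn e j) c1 z₀ hz₀
        β hβ
      have hκ' := kp a κ ha hκ
      refine ⟨_, div_kum hκ' (m + 1), ?_⟩
      funext v
      rw [hm]
      change _ = p • cl p ((κ v : ℚ_[p]) / (p : ℚ_[p]) ^ (m + 1))
      rw [BKLoc2.PAAux.nsmul_cl]
      congr 1
      have hpne := BKLoc2.PAAux.p_ne (p := p)
      field_simp
      ring
    · have h1 : pb2 (fs e j) (p ^ n • z) ∈ BKND.B2 (actA (χ.comp (fs e j))) :=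
        nsmul_mem (hl l j) (p ^ n)
      have h2 : pb2 (fs e j) (p ^ n • z - im y) ∈ BKND.B2 (actA (χ.comp (fs e j))) :=
        B2_pb c2 hy'
      have h3 := sub_mem h1 h2
      have h4 : pb2 (fs e j) (p ^ n • z) - pb2 (fs e j) (p ^ n • z - im y) =
          im (pb2 (fs e j) y) := by
        funext a b
        change (p ^ n • z) _ _ - ((p ^ n • z) _ _ - im y _ _) = im y _ _
        rw [sub_sub_cancel]
      rwa [h4] at h3
  have h5 := add_mem hy' (pa3 y hyB)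
  rwa [sub_add_cancel] at h5

end BKGlob2
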