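import Pool.Agent.Lib.MP_7c08ba_nt.Met.HStmts

set_option autoImplicit false

/-!
Parity without rigidity, global part 2, module RP: the product formula with the `p`-adic logarithm.
-/

noncomputable section

namespace BKGlob2

open NumberField IsDedekindDomain BKGen
open BKLoc2 (cl sc im cy cyL Sys IsKP IsLam IsHom StLoc hq ht PP)
open BKMet (QZ)

namespace RP

variable {p : ℕ} [Fact p.Prime] {lam : ℤ_[p]ˣ → ℤ_[p]}

theorem lam_one (h : IsLam lam) : lam 1 = 0 := by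
  have h1 := h.mul 1 1
  rw [mul_one] at h1
  exact left_eq_add.mp h1

theorem lam_neg_one (h : IsLam lam) : lam (-1) = 0 := by
  have h1 := h.mul (-1) (-1)
  rw [neg_mul_neg, mul_one, lam_one h] at h1
  have h2 : (2 : ℤ_[p]) * lam (-1) = 0 := by rw [two_mul]; exact h1.symm
  rcases mul_eq_zero.mp h2 with h3 | h3
  · exact absurd h3 two_ne_zero
  · exact h3

theorem lam_inv (h : IsLam lam) (u : ℤ_[p]ˣ) : lam u⁻¹ = - lam u := by
  have h1 := h.mul u u⁻¹
  rw [mul_inv_cancel, lam_one h] at h1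
  exact (neg_eq_of_add_eq_zero_right h1.symm).symm

theorem lam_pow (h : IsLam lam) (u : ℤ_[p]ˣ) (n : ℕ) : lam (u ^ n) = n * lam u := by
  induction n with
  | zero => rw [pow_zero, lam_one h, Nat.cast_zero, zero_mul]
  | succ n ih => rw [pow_succ, h.mul, ih]; push_cast; ring

theorem lam_prod (h : IsLam lam) (Q : Finset ℕ) (f : ℕ → ℤ_[p]ˣ) :
    lam (∏ q ∈ Q, f q) = ∑ q ∈ Q, lam (f q) := by
  induction Q using Finset.induction_on with
  | empty => rw [Finset.prod_empty, Finset.sum_empty, lam_one h]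
  | insert a s ha ih => rw [Finset.prod_insert ha, Finset.sum_insert ha, h.mul, ih]

theorem isUnit_of_coprime {q : ℕ} (h : q.Coprime p) : IsUnit (q : ℤ_[p]) := by
  rw [PadicInt.isUnit_iff, PadicInt.norm_natCast_eq_one_iff]
  exact h.symm

open Classical in
/-- the unit given by a natural number prime to `p` -/
def U (p : ℕ) [Fact p.Prime] (q : ℕ) : ℤ_[p]ˣ :=
  if h : IsUnit (q : ℤ_[p]) then h.unit else 1

theorem U_coe {q : ℕ} (hq : q.Prime) (h : q ≠ p) : ((U p q : ℤ_[p]ˣ) : ℤ_[p]) = q := by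
  have hu : IsUnit (q : ℤ_[p]) :=
    isUnit_of_coprime ((Nat.coprime_primes hq (Fact.out)).mpr h)
  rw [U, dif_pos hu]
  rfl

/-- the unit part of a natural number -/
theorem unit_part (h : IsLam lam) {n : ℕ} (hn : n ≠ 0) (Q : Finset ℕ)
    (hQ : ∀ q ∈ Q, q.Prime ∧ q ≠ p) (hnQ : n.primeFactors.erase p ⊆ Q) :
    ∃ u : ℤ_[p]ˣ, (n : ℤ_[p]) = (p : ℤ_[p]) ^ padicValNat p n * u ∧
      lam u = ∑ q ∈ Q, (padicValNat q n : ℤ_[p]) * lam (U p q) := by
  refine ⟨∏ q ∈ Q, U p q ^ padicValNat q n, ?_, ?_⟩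
  · have e1 : ∏ q ∈ n.primeFactors, q ^ padicValNat q n = n := by
      calc ∏ q ∈ n.primeFactors, q ^ padicValNat q n =
          n.factorization.prod (fun q k => q ^ k) := by
            rw [Finsupp.prod, Nat.support_factorization]
            exact Finset.prod_congr rfl fun q hq => by
              rw [Nat.factorization_def _ (Nat.prime_of_mem_primeFactors hq)]
        _ = n := Nat.prod_factorization_pow_eq_self hn
    have e2' : ∏ q ∈ n.primeFactors, q ^ padicValNat q n =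
        ∏ q ∈ insert p Q, q ^ padicValNat q n := by
      refine Finset.prod_subset (fun q hq => ?_) (fun q hq hq' => ?_)
      · by_cases hqp : q = p
        · rw [hqp]; exact Finset.mem_insert_self _ _
        · exact Finset.mem_insert_of_mem (hnQ (Finset.mem_erase.mpr ⟨hqp, hq⟩))
      · have hqp : q.Prime := by
          rcases Finset.mem_insert.mp hq with h | h
          · rw [h]; exact Fact.out
          · exact (hQ q h).1
        have : ¬ q ∣ n := fun hd => hq' (Nat.mem_primeFactors.mpr ⟨hqp, hd, hn⟩)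
        rw [padicValNat.eq_zero_of_not_dvd this, pow_zero]
    have e2 : ∏ q ∈ insert p Q, q ^ padicValNat q n = n := by rw [← e2', e1]
    have hpQ : p ∉ Q := fun hp => (hQ p hp).2 rfl
    rw [Finset.prod_insert hpQ] at e2
    have e3 : (n : ℤ_[p]) = ((p ^ padicValNat p n * ∏ q ∈ Q, q ^ padicValNat q n : ℕ) : ℤ_[p]) := by
      rw [e2]
    rw [e3]
    push_cast
    congr 1
    refine Finset.prod_congr rfl fun q hq => ?_
    rw [U_coe (hQ q hq).1 (hQ q hq).2]
  · rw [lam_prod h]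
    exact Finset.sum_congr rfl fun q _ => lam_pow h _ _

/-- the class of `y / p ^ M` -/
def cM (p : ℕ) [Fact p.Prime] (M : ℕ) : ℤ_[p] →+ QZ p where
  toFun y := cl p ((y : ℚ_[p]) / (p : ℚ_[p]) ^ M)
  map_zero' := by
    rw [PadicInt.coe_zero, zero_div]
    rfl
  map_add' y z := by
    rw [PadicInt.coe_add, add_div]
    rfl

theorem cM_apply (M : ℕ) (y : ℤ_[p]) : cM p M y = cl p ((y : ℚ_[p]) / (p : ℚ_[p]) ^ M) := rfl

theorem cM_zero {M : ℕ} {y : ℤ_[p]} (h : (p : ℤ_[p]) ^ M ∣ y) : cM p M y = 0 := by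
  obtain ⟨z, rfl⟩ := h
  have hp : (p : ℚ_[p]) ^ M ≠ 0 :=
    pow_ne_zero _ (by exact_mod_cast (Fact.out : p.Prime).ne_zero)
  rw [cM_apply, PadicInt.coe_mul, PadicInt.coe_pow, PadicInt.coe_natCast,
    mul_div_cancel_left₀ _ hp]
  unfold cl
  rw [Submodule.Quotient.mk_eq_zero]
  exact ⟨z, rfl⟩

end RP

open RP in
/-- Module RP. -/
theorem stRP : StRP := by
  classical
  intro p _ _ lam hlam ι _ l hinj hprime hp b hb M hdiv x hx hxp
  obtain ⟨i₀, hi₀⟩ := hp
  have hA : b.num.natAbs ≠ 0 := by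
    rw [Int.natAbs_ne_zero]
    exact Rat.num_ne_zero.mpr hb
  have hD : b.den ≠ 0 := b.den_nz
  set A := b.num.natAbs with hAdef
  set D := b.den with hDdef
  let L : Finset ℕ := Finset.univ.image l
  let Q : Finset ℕ := (A.primeFactors ∪ D.primeFactors ∪ L).erase p
  have hL : ∀ q ∈ L, q.Prime := by
    intro q hq
    obtain ⟨i, _, rfl⟩ := Finset.mem_image.mp hq
    exact hprime i
  have hQ : ∀ q ∈ Q, q.Prime ∧ q ≠ p := by
    intro q hq
    obtain ⟨h1, h2⟩ := Finset.mem_erase.mp hq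
    refine ⟨?_, h1⟩
    rcases Finset.mem_union.mp h2 with h3 | h3
    · rcases Finset.mem_union.mp h3 with h4 | h4
      · exact Nat.prime_of_mem_primeFactors h4
      · exact Nat.prime_of_mem_primeFactors h4
    · exact hL q h3
  obtain ⟨uA, huA, hlA⟩ := unit_part hlam hA Q hQ (Finset.erase_subset_erase _
    (Finset.subset_union_left.trans Finset.subset_union_left))
  obtain ⟨uD, huD, hlD⟩ := unit_part hlam hD Q hQ (Finset.erase_subset_erase _
    (Finset.subset_union_right.trans Finset.subset_union_left))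
  obtain ⟨ε, hε, hε'⟩ : ∃ ε : ℤ_[p]ˣ, lam ε = 0 ∧ ((b.num : ℤ) : ℤ_[p]) = ε * A := by
    rcases Int.natAbs_eq b.num with h | h
    · refine ⟨1, lam_one hlam, ?_⟩
      have h' := congrArg (Int.cast : ℤ → ℤ_[p]) h
      rw [Units.val_one, one_mul, h', Int.cast_natCast]
    · refine ⟨-1, lam_neg_one hlam, ?_⟩
      have h' := congrArg (Int.cast : ℤ → ℤ_[p]) h
      rw [Units.val_neg, Units.val_one, neg_one_mul, h', Int.cast_neg, Int.cast_natCast]
  have hval : ∀ q : ℕ, padicValRat q b = (padicValNat q A : ℤ) - (padicValNat q D : ℤ) := by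
    intro q
    rfl
  set u : ℤ_[p]ˣ := ε * uA * uD⁻¹ with hu
  have hlu : lam u = ∑ q ∈ Q, (padicValRat q b : ℤ) * lam (U p q) := by
    rw [hu, hlam.mul, hlam.mul, lam_inv hlam, hε, zero_add, hlA, hlD, ← sub_eq_add_neg,
      ← Finset.sum_sub_distrib]
    refine Finset.sum_congr rfl fun q _ => ?_
    rw [hval q, Int.cast_sub, Int.cast_natCast, Int.cast_natCast, sub_mul]
  have hp0 : (p : ℚ_[p]) ≠ 0 := by exact_mod_cast (Fact.out : p.Prime).ne_zero
  have hbu : (b : ℚ_[p]) = ((u : ℤ_[p]ˣ) : ℤ_[p]) * (p : ℚ_[p]) ^ (padicValRat p b) := by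
    have hA' : ((A : ℤ_[p]) : ℚ_[p]) = (p : ℚ_[p]) ^ padicValNat p A * (uA : ℤ_[p]) := by
      rw [huA]; push_cast; rfl
    have hD' : ((D : ℤ_[p]) : ℚ_[p]) = (p : ℚ_[p]) ^ padicValNat p D * (uD : ℤ_[p]) := by
      rw [huD]; push_cast; rfl
    have hn' : (((b.num : ℤ) : ℤ_[p]) : ℚ_[p]) = (ε : ℤ_[p]) * ((A : ℤ_[p]) : ℚ_[p]) := by
      rw [hε']; push_cast; rfl
    have hb' : (b : ℚ_[p]) = (((b.num : ℤ) : ℤ_[p]) : ℚ_[p]) / ((D : ℤ_[p]) : ℚ_[p]) := by
      have h1 : (b : ℚ_[p]) = ((b.num : ℚ) / (b.den : ℚ) : ℚ) := by rw [Rat.num_div_den]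
      rw [h1]
      push_cast
      rfl
    have huDi : (((uD⁻¹ : ℤ_[p]ˣ) : ℤ_[p]) : ℚ_[p]) = (((uD : ℤ_[p]ˣ) : ℤ_[p]) : ℚ_[p])⁻¹ := by
      apply eq_inv_of_mul_eq_one_left
      rw [← PadicInt.coe_mul, Units.inv_mul, PadicInt.coe_one]
    have huD0 : (((uD : ℤ_[p]ˣ) : ℤ_[p]) : ℚ_[p]) ≠ 0 := fun h0 =>
      uD.ne_zero (PadicInt.coe_eq_zero.mp h0)
    rw [hb', hn', hA', hD', hval p, zpow_sub₀ hp0, zpow_natCast, zpow_natCast, hu]
    rw [Units.val_mul, Units.val_mul, PadicInt.coe_mul, PadicInt.coe_mul, huDi]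
    have hpA : (p : ℚ_[p]) ^ padicValNat p A ≠ 0 := pow_ne_zero _ hp0
    have hpD : (p : ℚ_[p]) ^ padicValNat p D ≠ 0 := pow_ne_zero _ hp0
    field_simp
  -- the sum
  have hx1 : ∀ i, l i ≠ p → x i = cM p M ((padicValRat (l i) b : ℤ) * lam (U p (l i))) :=
    fun i hi => hx i hi _ (U_coe (hprime i) hi)
  have hx2 : x i₀ = cM p M (- lam u) := hxp i₀ hi₀ u hbu
  have hne : ∀ i, i ≠ i₀ → l i ≠ p := fun i hi h => hi (hinj (h.trans hi₀.symm))
  have hsum : ∑ i, x i = cM p M (- lam u + ∑ q ∈ L.erase p,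
      (padicValRat q b : ℤ) * lam (U p q)) := by
    rw [← Finset.add_sum_erase _ _ (Finset.mem_univ i₀), hx2, map_add, map_sum]
    congr 1
    have himg : L.erase p = (Finset.univ.erase i₀).image l := by
      ext q
      rw [Finset.mem_erase, Finset.mem_image, Finset.mem_image]
      constructor
      · rintro ⟨h1, i, _, rfl⟩
        exact ⟨i, Finset.mem_erase.mpr ⟨fun h => h1 (by rw [h, hi₀]), Finset.mem_univ _⟩, rfl⟩
      · rintro ⟨i, hi, rfl⟩
        exact ⟨hne i (Finset.ne_of_mem_erase hi), i, Finset.mem_univ _, rfl⟩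
    rw [himg, Finset.sum_image (fun i _ j _ h => hinj h)]
    exact Finset.sum_congr rfl fun i hi => hx1 i (hne i (Finset.ne_of_mem_erase hi))
  rw [hsum]
  apply cM_zero
  have hsub : L.erase p ⊆ Q := Finset.erase_subset_erase _ Finset.subset_union_right
  have hsplit := Finset.sum_sdiff (f := fun q => ((padicValRat q b : ℤ) : ℤ_[p]) * lam (U p q)) hsub
  rw [hlu, ← hsplit]
  have e : -(∑ q ∈ Q \ L.erase p, ((padicValRat q b : ℤ) : ℤ_[p]) * lam (U p q) +
      ∑ q ∈ L.erase p, ((padicValRat q b : ℤ) : ℤ_[p]) * lam (U p q)) +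
      ∑ q ∈ L.erase p, ((padicValRat q b : ℤ) : ℤ_[p]) * lam (U p q) =
      -∑ q ∈ Q \ L.erase p, ((padicValRat q b : ℤ) : ℤ_[p]) * lam (U p q) := by ring
  rw [e, dvd_neg]
  refine Finset.dvd_sum fun q hq => ?_
  obtain ⟨hq1, hq2⟩ := Finset.mem_sdiff.mp hq
  obtain ⟨hq3, hq4⟩ := hQ q hq1
  refine hdiv q hq3 ?_ _ (U_coe hq3 hq4)
  rintro ⟨i, rfl⟩
  exact hq2 (Finset.mem_erase.mpr ⟨hq4, Finset.mem_image.mpr ⟨i, Finset.mem_univ _, rfl⟩⟩)

end BKGlob2
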