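import Pool.Agent.Lib.MP_7c08ba_nt.Met.GStmts
import Pool.Agent.Lib.MP_7c08ba_nt.Met.LocStmts

set_option autoImplicit false

/-!
Parity without rigidity, global part 2: the Hasse principle for `H²`, the reciprocity law, the group
of `S`-units and the global Euler characteristic. Definitions and statements of the modules.
-/

noncomputable section

namespace BKGlob2

open NumberField IsDedekindDomain BKGen
open BKOdd (Fx IsKum IsNm chm chZ ConjHyp)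
open BKLoc2 (cl sc im cy cyL Sys IsKP IsLam IsHom StLoc hq ht PP)
open BKMet (QZ actA kch Rel GF GQ cycF cycL IsConj RS GS Pl Splits pb1 pb2 LocAx GlobAx StArith)
open BKPar (Loc1 Loc2)

/-! ### Decomposition groups -/

section Cp

variable {k Ω : Type} [Field k] [Field Ω] [Algebra k Ω] {V : Type} [Group V]
  (e : V →* (Ω ≃ₐ[k] Ω)) {l : ℕ} [Fact l.Prime] (j : Ω →+* PadicAlgCl l)

/-- The decomposition group in `V` of the place `j`: pairs `(v, t)` with `j ∘ v = t ∘ j`. -/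
def Cp : Subgroup (V × GQ l) where
  carrier := {x | ∀ z, j (e x.1 z) = x.2 (j z)}
  one_mem' := by
    intro z
    change j (e 1 z) = (1 : GQ l) (j z)
    rw [map_one]
    rfl
  mul_mem' := by
    rintro ⟨a, s⟩ ⟨b, t⟩ h h' z
    change j (e (a * b) z) = s (t (j z))
    rw [map_mul, AlgEquiv.mul_apply]
    have h1 := h (e b z)
    have h2 := h' z
    change j (e a (e b z)) = s (j (e b z)) at h1
    change j (e b z) = t (j z) at h2
    rw [h1, h2]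
  inv_mem' := by
    rintro ⟨a, s⟩ h z
    have h1 := h (e a⁻¹ z)
    change j (e a (e a⁻¹ z)) = s (j (e a⁻¹ z)) at h1
    rw [← AlgEquiv.mul_apply, ← map_mul, mul_inv_cancel, map_one, AlgEquiv.one_apply] at h1
    change j (e a⁻¹ z) = s⁻¹ (j z)
    rw [h1, ← AlgEquiv.mul_apply, inv_mul_cancel, AlgEquiv.one_apply]

/-- the projection to `V` -/
def fs : Cp e j →* V := (MonoidHom.fst V (GQ l)).comp (Cp e j).subtype

/-- the projection to the Galois group of `ℚ_l` -/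
def sn : Cp e j →* GQ l := (MonoidHom.snd V (GQ l)).comp (Cp e j).subtype

theorem Cp_rel (x : Cp e j) (z : Ω) : j (e (fs e j x) z) = sn e j x (j z) := x.2 z

end Cp

/-- the two-cochain `z` with values in `ℤ/p` is trivial at all places -/
def LC {k Ω : Type} [Field k] [Field Ω] [Algebra k Ω] {V : Type} [Group V] [TopologicalSpace V]
    (e : V →* (Ω ≃ₐ[k] Ω)) {p : ℕ} (z : V → V → ZMod p) : Prop :=
  ∀ (l : ℕ) [Fact l.Prime] (j : Ω →+* PadicAlgCl l),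
    pb2 (fs e j) z ∈ CC.B2 (1 : Cp e j →* ZMod p)

/-- Module CY: cyclotomic characters. -/
def StCY : Prop :=
  ∀ (p : ℕ) [Fact p.Prime] (k Ω k' Ω' : Type) [Field k] [Field Ω] [Algebra k Ω] [IsAlgClosed Ω]
    [CharZero Ω] [Field k'] [Field Ω'] [Algebra k' Ω'] [IsAlgClosed Ω'] [CharZero Ω'],
    (∃ z : ℕ → Ω, Sys p z) ∧
    ∀ (j : Ω →+* Ω') (g : Ω ≃ₐ[k] Ω) (g' : Ω' ≃ₐ[k'] Ω'), (∀ x, j (g x) = g' (j x)) →
    cy p k Ω g = cy p k' Ω' g'

/-- Module CP: the decomposition groups. -/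
def StCP : Prop :=
  ∀ (k Ω : Type) [Field k] [NumberField k] [Field Ω] [Algebra k Ω] [IsGalois k Ω] [IsAlgClosed Ω]
    [CharZero Ω] (V : Type) [Group V] [TopologicalSpace V] [IsTopologicalGroup V]
    [CompactSpace V] [NonarchimedeanGroup V] (e : V →* (Ω ≃ₐ[k] Ω)),
    Topology.IsOpenEmbedding e → ∀ (l : ℕ) [Fact l.Prime] (j : Ω →+* PadicAlgCl l),
    Topology.IsOpenEmbedding (sn e j) ∧ Continuous (fs e j) ∧ CompactSpace (Cp e j) ∧
    NonarchimedeanGroup (Cp e j) ∧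
    ∀ E : IntermediateField k Ω, (∀ x, x ∈ E ↔ Fx e x) → NumberField E ∧
      ∀ y : PadicAlgCl l, y ∈ comp l (j.comp (algebraMap E Ω)) ↔ Fx (sn e j) y

/-- Module NB: norms in terms of Galois groups, and norms from `E[X] / (X ^ p - a)`. -/
def StNB : Prop :=
  ∀ (p : ℕ) [Fact p.Prime] (k Ω : Type) [Field k] [Field Ω] [Algebra k Ω] [IsGalois k Ω]
    [IsAlgClosed Ω] [CharZero Ω] (V : Type) [Group V] [TopologicalSpace V]
    [IsTopologicalGroup V] (e : V →* (Ω ≃ₐ[k] Ω)), Topology.IsOpenEmbedding e →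
    ∀ ζ : Ω, IsPrimitiveRoot ζ p → ∀ E : IntermediateField k Ω, (∀ x, x ∈ E ↔ Fx e x) → ζ ∈ E →
    ∀ (X Y : Eˣ) (χ : V → ZMod p), IsKum e ζ ((X : E) : Ω) χ → ∀ H : Subgroup V,
    (∀ g, g ∈ H ↔ χ g = 0) → ∀ σ : V, χ σ = 1 →
    (IsNm e p H σ ((Y : E) : Ω) ↔ Y ∈ Nm p E (X : E))

/-- Module LN: if the product of the Kummer characters of `Y` and `X` vanishes at the place `j` then
`Y` is a local norm (from CP, NB, NA1, and KUM, L3 of `Odd`). -/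
def StLN : Prop :=
  ∀ (p : ℕ) [Fact p.Prime] (k Ω : Type) [Field k] [NumberField k] [Field Ω] [Algebra k Ω]
    [IsGalois k Ω] [IsAlgClosed Ω] [CharZero Ω] (V : Type) [Group V] [TopologicalSpace V]
    [IsTopologicalGroup V] [CompactSpace V] [NonarchimedeanGroup V] (e : V →* (Ω ≃ₐ[k] Ω)),
    Topology.IsOpenEmbedding e →
    ∀ ζ : Ω, IsPrimitiveRoot ζ p → ∀ E : IntermediateField k Ω, (∀ x, x ∈ E ↔ Fx e x) → ζ ∈ E →
    ∀ (X Y : Eˣ) (χ ψ : V → ZMod p), IsKum e ζ ((X : E) : Ω) χ → IsKum e ζ ((Y : E) : Ω) ψ →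
    ∀ (l : ℕ) [Fact l.Prime] (j : Ω →+* PadicAlgCl l),
    pb2 (fs e j) (CC.cup ψ χ) ∈ CC.B2 (1 : Cp e j →* ZMod p) →
    toU (j.comp (algebraMap E Ω)) Y ∈ Nm p (comp l (j.comp (algebraMap E Ω)))
      (toC (j.comp (algebraMap E Ω)) (X : E))

/-- Module HQ: the Hasse principle, one step (from LN, HN, NB, CP and H90, KUM, L1, L3 of `Odd`). -/
def StHQ : Prop :=
  ∀ (p : ℕ) [Fact p.Prime], p ≠ 2 → ∀ (k Ω : Type) [Field k] [NumberField k] [Field Ω]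
    [Algebra k Ω] [IsGalois k Ω] [IsAlgClosed Ω] [CharZero Ω] (V : Type) [Group V]
    [TopologicalSpace V] [IsTopologicalGroup V] [CompactSpace V] [NonarchimedeanGroup V]
    (e : V →* (Ω ≃ₐ[k] Ω)), Topology.IsOpenEmbedding e → ∀ ζ : Ω, IsPrimitiveRoot ζ p →
    Fx e ζ → ∀ H : Subgroup V, H.Normal → IsOpen (H : Set V) → H.index = p →
    ∀ z ∈ CC.Z2 (1 : V →* ZMod p), LC e z → (fun a b : H => z a b) ∈ CC.B2 (1 : H →* ZMod p) →
    z ∈ CC.B2 (1 : V →* ZMod p)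

/-- Module HP: the Hasse principle for `H²(V, ℤ/p)` (from HQ and TR of `Odd`). -/
def StHP : Prop :=
  ∀ (p : ℕ) [Fact p.Prime], p ≠ 2 → ∀ (k Ω : Type) [Field k] [NumberField k] [Field Ω]
    [Algebra k Ω] [IsGalois k Ω] [IsAlgClosed Ω] [CharZero Ω] (V : Type) [Group V]
    [TopologicalSpace V] [IsTopologicalGroup V] [CompactSpace V] [NonarchimedeanGroup V]
    (e : V →* (Ω ≃ₐ[k] Ω)), Topology.IsOpenEmbedding e → ∀ ζ : Ω, IsPrimitiveRoot ζ p →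
    Fx e ζ → ∀ z ∈ CC.Z2 (1 : V →* ZMod p), LC e z → z ∈ CC.B2 (1 : V →* ZMod p)

/-- Module HX: the Hasse principle for `H²(V, 𝔽_p(χ))` (from HP and TR of `Odd`). -/
def StHX : Prop :=
  ∀ (p : ℕ) [Fact p.Prime], p ≠ 2 → ∀ (k Ω : Type) [Field k] [NumberField k] [Field Ω]
    [Algebra k Ω] [IsGalois k Ω] [IsAlgClosed Ω] [CharZero Ω] (V : Type) [Group V]
    [TopologicalSpace V] [IsTopologicalGroup V] [CompactSpace V] [NonarchimedeanGroup V]
    (e : V →* (Ω ≃ₐ[k] Ω)), Topology.IsOpenEmbedding e →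
    ∀ z ∈ CC.Z2 (chm ((cy p k Ω).comp e)),
    (∀ (l : ℕ) [Fact l.Prime] (j : Ω →+* PadicAlgCl l),
      pb2 (fs e j) z ∈ CC.B2 (chm (((cy p k Ω).comp e).comp (fs e j)))) →
    z ∈ CC.B2 (chm ((cy p k Ω).comp e))

/-- Module HA: the Hasse principle for `H²(V, ℚ_p / ℤ_p (χ))` (from HX, CP, CY and PA, Z1A of
`LocStmts`). -/
def StHA : Prop :=
  ∀ (p : ℕ) [Fact p.Prime], p ≠ 2 → ∀ (k Ω : Type) [Field k] [NumberField k] [Field Ω]
    [Algebra k Ω] [IsGalois k Ω] [IsAlgClosed Ω] [CharZero Ω] (V : Type) [Group V]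
    [TopologicalSpace V] [IsTopologicalGroup V] [CompactSpace V] [NonarchimedeanGroup V]
    (e : V →* (Ω ≃ₐ[k] Ω)), Topology.IsOpenEmbedding e →
    ∀ z ∈ BKND.Z2 (actA ((cy p k Ω).comp e)),
    (∀ (l : ℕ) [Fact l.Prime] (j : Ω →+* PadicAlgCl l),
      pb2 (fs e j) z ∈ BKND.B2 (actA (((cy p k Ω).comp e).comp (fs e j)))) →
    z ∈ BKND.B2 (actA ((cy p k Ω).comp e))

/-! ### Unramified classes -/

/-- Module CDO: groups of cohomological dimension one. -/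
def StCDO : Prop :=
  ∀ (p : ℕ) [Fact p.Prime] (D : Type) [Group D] [TopologicalSpace D] [IsTopologicalGroup D]
    [CompactSpace D] [NonarchimedeanGroup D] (I : Set D) (φ : D) (θ : D → ℤ_[p]), IsHom θ →
    (∀ i ∈ I, θ i = 0) → θ φ ≠ 0 →
    (∀ W : Subgroup D, IsOpen (W : Set D) → ∀ d, ∃ n : ℕ, ∃ i ∈ I, ∃ w ∈ W,
      d = φ ^ n * i * w) →
    ∀ (G : Type) [Group G] [TopologicalSpace G] (f : D →* G), Continuous f →
    (∀ i ∈ I, f i = 1) → ∀ (M : Type) [AddCommGroup M] (ρ : G →* AddMonoid.End M),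
    (∀ m : M, ∃ n : ℕ, p ^ n • m = 0) →
    (∀ m : M, ∃ W : Subgroup G, IsOpen (W : Set G) ∧ ∀ w ∈ W, ρ w m = m) →
    ∀ z ∈ BKND.Z2 ρ, pb2 f z ∈ BKND.B2 (ρ.comp f)

/-- Module FRB: inertia and Frobenius for open subgroups of the Galois group of `ℚ_l`. -/
def StFRB : Prop :=
  ∀ (l : ℕ) [Fact l.Prime] (V : Type) [Group V] [TopologicalSpace V]
    [IsTopologicalGroup V] [CompactSpace V] (e : V →* GQ l), Topology.IsOpenEmbedding e →
    ∃ φ : V, ∃ f : ℕ, f ≠ 0 ∧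
      (∀ n : ℕ, ¬ l ∣ n → ∀ ξ : PadicAlgCl l, ξ ^ n = 1 → e φ ξ = ξ ^ l ^ f) ∧
      (∀ n : ℕ, ¬ l ∣ n → ∀ ξ : PadicAlgCl l, ξ ^ n = 1 →
        ∀ i ∈ Inert ℚ_[l] (PadicAlgCl l) (RingHom.id (PadicAlgCl l)), i ξ = ξ) ∧
      ∀ W : Subgroup V, IsOpen (W : Set V) → ∀ d, ∃ (n : ℕ) (i : V),
        e i ∈ Inert ℚ_[l] (PadicAlgCl l) (RingHom.id (PadicAlgCl l)) ∧ ∃ w ∈ W,
        d = φ ^ n * i * w

/-- Module UN: unramified classes are trivial at `l ≠ p` (from CDO, FRB, CP and LAM). -/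
def StUN : Prop :=
  ∀ (p : ℕ) [Fact p.Prime], p ≠ 2 → ∀ (k Ω : Type) [Field k] [NumberField k] [Field Ω]
    [Algebra k Ω] [IsGalois k Ω] [IsAlgClosed Ω] [CharZero Ω] (V : Type) [Group V]
    [TopologicalSpace V] [IsTopologicalGroup V] [CompactSpace V] [NonarchimedeanGroup V]
    (e : V →* (Ω ≃ₐ[k] Ω)), Topology.IsOpenEmbedding e →
    ∀ (l : ℕ) [Fact l.Prime], l ≠ p → ∀ j : Ω →+* PadicAlgCl l,
    ∀ (G : Type) [Group G] [TopologicalSpace G] (π : V →* G), Continuous π →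
    (∀ v, e v ∈ Inert k Ω j → π v = 1) →
    ∀ (M : Type) [AddCommGroup M] (ρ : G →* AddMonoid.End M),
    (∀ m : M, ∃ n : ℕ, p ^ n • m = 0) →
    (∀ m : M, ∃ W : Subgroup G, IsOpen (W : Set G) ∧ ∀ w ∈ W, ρ w m = m) →
    ∀ z ∈ BKND.Z2 ρ, pb2 (π.comp (fs e j)) z ∈ BKND.B2 (ρ.comp (π.comp (fs e j)))

/-- Module CV: conjugate homomorphisms. -/
def StCV : Prop :=
  ∀ (G D D' : Type) [Group G] [TopologicalSpace G] [IsTopologicalGroup G] [Group D]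
    [TopologicalSpace D] [Group D'] [TopologicalSpace D'] [IsTopologicalGroup D']
    [CompactSpace D'] (f : D →* G) (f' : D' →* G) (s : D' →* D), Continuous f →
    Continuous f' → Continuous s → ∀ g : G, (∀ d, f' d = g⁻¹ * f (s d) * g) →
    ∀ (M : Type) [AddCommGroup M] (ρ : G →* AddMonoid.End M),
    (∀ m : M, ∃ W : Subgroup G, IsOpen (W : Set G) ∧ ∀ w ∈ W, ρ w m = m) →
    (∀ z ∈ BKND.Z2 ρ, pb2 f z ∈ BKND.B2 (ρ.comp f) → pb2 f' z ∈ BKND.B2 (ρ.comp f')) ∧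
    (∀ z ∈ BKND.Z1 ρ, pb1 f z ∈ BKND.B1 (ρ.comp f) → pb1 f' z ∈ BKND.B1 (ρ.comp f'))

/-! ### The reciprocity law -/

/-- Module KL: classes of `ℚ_l` vanish far up in the cyclotomic extension (from INVL, SC). -/
def StKL : Prop :=
  ∀ (p l : ℕ) [Fact p.Prime] [Fact l.Prime], p ≠ 2 → ∀ lam : ℤ_[p]ˣ → ℤ_[p], IsLam lam →
    ∀ α ∈ BKND.Z2 (actA (cyL p l)), ∃ M₀ : ℕ, ∀ M ≥ M₀, ∀ U : Subgroup (GQ l),
    (∀ g, g ∈ U ↔ (p : ℤ_[p]) ^ M ∣ lam (cyL p l g)) →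
    (fun a b : U => α a b) ∈ BKND.B2 (actA ((cyL p l).comp U.subtype))

/-- Module LX: classes which vanish on the kernel of `θ` modulo `p ^ M` are products of a Kummer
cocycle with `θ / p ^ M`. -/
def StLX : Prop :=
  ∀ (p : ℕ) [Fact p.Prime] (k Ω : Type) [Field k] [Field Ω] [Algebra k Ω] [IsGalois k Ω]
    [IsAlgClosed Ω] [CharZero Ω] (V : Type) [Group V] [TopologicalSpace V]
    [IsTopologicalGroup V] [CompactSpace V] [NonarchimedeanGroup V] (e : V →* (Ω ≃ₐ[k] Ω)),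
    Topology.IsOpenEmbedding e → ∀ z : ℕ → Ω, Sys p z → ∀ θ : V → ℤ_[p], IsHom θ →
    ∀ σ : V, θ σ = 1 → ∀ (M : ℕ) (H : Subgroup V), (∀ g, g ∈ H ↔ (p : ℤ_[p]) ^ M ∣ θ g) →
    ∀ α ∈ BKND.Z2 (actA ((cy p k Ω).comp e)),
    (fun a b : H => α a b) ∈ BKND.B2 (actA (((cy p k Ω).comp e).comp H.subtype)) →
    ∃ a : Ω, a ≠ 0 ∧ Fx e a ∧ ∀ κ : V → ℤ_[p], IsKP e z a κ →
      α - sc κ θ M ∈ BKND.B2 (actA ((cy p k Ω).comp e))

/-- complex conjugation on the Galois group of `F` -/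
structure CC0 {F : Type} [Field F] (c₀ : AlgebraicClosure F ≃+* AlgebraicClosure F)
    (cc : GF F →* GF F) : Prop where
  conj : IsConj c₀
  eq : ∀ (g : GF F) z, cc g (c₀ z) = c₀ (g z)

/-- Module CJ: complex conjugation, and the two places over a prime which splits. -/
def StCJ : Prop :=
  ∀ (F : Type) [Field F] [NumberField F], Module.finrank ℚ F = 2 → IsEmpty (F →+* ℝ) →
    ∀ c₀ : AlgebraicClosure F ≃+* AlgebraicClosure F, IsConj c₀ →
    (∃ cc : GF F →* GF F, CC0 c₀ cc) ∧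
    ∀ cc : GF F →* GF F, CC0 c₀ cc → Continuous cc ∧ (∀ g, cc (cc g) = g) ∧
    (∀ a : F, ∃ a' : F, c₀ (algebraMap F _ a) = algebraMap F _ a' ∧
      ∃ b : ℚ, algebraMap ℚ F b = a * a') ∧
    (∀ (p : ℕ) [Fact p.Prime], p ≠ 2 → (∀ g, cycF p F (cc g) = cycF p F g) ∧
      ∀ z : ℕ → AlgebraicClosure F, Sys p z → ∀ n, c₀ (z n) = (z n)⁻¹) ∧
    ∀ (Λ : Pl F) (i : Λ.ι) (j : AlgebraicClosure F →+* PadicAlgCl (Λ.l i)),
      ∃ (g : GF F) (s : Cp (MonoidHom.id (GF F)) j →* GQ (Λ.l i)), Continuous s ∧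
      ((∀ d, fs (MonoidHom.id (GF F)) j d = g⁻¹ * Λ.r i (s d) * g) ∨
        (∀ d, fs (MonoidHom.id (GF F)) j d = g⁻¹ * cc (Λ.r i (s d)) * g))

/-- Module PL: embeddings for a finite set of primes which split. -/
def StPL : Prop :=
  ∀ (F : Type) [Field F] [NumberField F] (P : Set ℕ), P.Finite → (∀ l ∈ P, Splits F l) →
    ∃ Λ : Pl F, Λ.P = P

/-- Module RA: a class of the group `GF F` which is trivial at the places outside `P` becomes
trivial far up in the cyclotomic extension (from KL, HA, CJ, CV, CY, CP). -/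
def StRA : Prop :=
  ∀ (p : ℕ) [Fact p.Prime], p ≠ 2 → ∀ (F : Type) [Field F] [NumberField F],
    Module.finrank ℚ F = 2 → IsEmpty (F →+* ℝ) →
    ∀ (Λ : Pl F) (lam : ℤ_[p]ˣ → ℤ_[p]), IsLam lam →
    ∀ α ∈ BKND.Z2 (actA (cycF p F)),
    (∀ (l : ℕ) [Fact l.Prime], l ∉ Λ.P → ∀ j : AlgebraicClosure F →+* PadicAlgCl l,
      pb2 (fs (MonoidHom.id (GF F)) j) α ∈
        BKND.B2 (actA ((cycF p F).comp (fs (MonoidHom.id (GF F)) j)))) →
    ∃ M₀ : ℕ, ∀ M ≥ M₀, ∀ U : Subgroup (GF F),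
    (∀ g, g ∈ U ↔ (p : ℤ_[p]) ^ M ∣ lam (cycF p F g)) →
    (fun a b : U => α a b) ∈ BKND.B2 (actA ((cycF p F).comp U.subtype))

/-- Module RN: divisibility of the valuations of the norm of `a` outside `P` (from INVV, CP, CY,
CJ; KPE). -/
def StRN : Prop :=
  ∀ (p : ℕ) [Fact p.Prime], p ≠ 2 → ∀ (F : Type) [Field F] [NumberField F],
    Module.finrank ℚ F = 2 → IsEmpty (F →+* ℝ) →
    ∀ c₀ : AlgebraicClosure F ≃+* AlgebraicClosure F, IsConj c₀ →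
    ∀ lam : ℤ_[p]ˣ → ℤ_[p], IsLam lam → ∀ z : ℕ → AlgebraicClosure F, Sys p z →
    ∀ (a a' : F) (b : ℚ), a ≠ 0 → c₀ (algebraMap F _ a) = algebraMap F _ a' →
    algebraMap ℚ F b = a * a' → ∀ κ : GF F → ℤ_[p],
    IsKP (MonoidHom.id (GF F)) z (algebraMap F _ a) κ → ∀ (M : ℕ) (l : ℕ) [Fact l.Prime], l ≠ p →
    (∀ j : AlgebraicClosure F →+* PadicAlgCl l,
      pb2 (fs (MonoidHom.id (GF F)) j) (sc κ (fun g => lam (cycF p F g)) M) ∈
        BKND.B2 (actA ((cycF p F).comp (fs (MonoidHom.id (GF F)) j)))) →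
    ∀ u : ℤ_[p]ˣ, ((u : ℤ_[p]ˣ) : ℤ_[p]) = l → (p : ℤ_[p]) ^ M ∣ (padicValRat l b : ℤ) * lam u

/-- Module RP: the product formula. -/
def StRP : Prop :=
  ∀ (p : ℕ) [Fact p.Prime], p ≠ 2 → ∀ lam : ℤ_[p]ˣ → ℤ_[p], IsLam lam →
    ∀ (ι : Type) [Fintype ι] (l : ι → ℕ), Function.Injective l → (∀ i, (l i).Prime) →
    p ∈ Set.range l → ∀ (b : ℚ), b ≠ 0 → ∀ M : ℕ,
    (∀ q : ℕ, q.Prime → q ∉ Set.range l → ∀ u : ℤ_[p]ˣ, ((u : ℤ_[p]ˣ) : ℤ_[p]) = q →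
      (p : ℤ_[p]) ^ M ∣ (padicValRat q b : ℤ) * lam u) →
    ∀ x : ι → QZ p,
    (∀ i, l i ≠ p → ∀ u : ℤ_[p]ˣ, ((u : ℤ_[p]ˣ) : ℤ_[p]) = l i →
      x i = cl p ((((padicValRat (l i) b : ℤ) * lam u : ℤ_[p]) : ℚ_[p]) / (p : ℚ_[p]) ^ M)) →
    (∀ i, l i = p → ∀ u : ℤ_[p]ˣ,
      (b : ℚ_[p]) = ((u : ℤ_[p]ˣ) : ℤ_[p]) * (p : ℚ_[p]) ^ (padicValRat p b) →
      x i = cl p ((((-lam u : ℤ_[p])) : ℚ_[p]) / (p : ℚ_[p]) ^ M)) →
    ∑ i, x i = 0

/-- the invariants of `LocStmts` for the system of roots of unity `z` -/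
structure InvL (p : ℕ) [Fact p.Prime] (lam : ℤ_[p]ˣ → ℤ_[p]) (l : ℕ) [Fact l.Prime]
    (z : ℕ → PadicAlgCl l) (inv : (GQ l → GQ l → QZ p) →+ QZ p) : Prop where
  zero : ∀ α ∈ BKND.Z2 (actA (cyL p l)), inv α = 0 ↔ α ∈ BKND.B2 (actA (cyL p l))
  ne : l ≠ p → ∀ u : ℤ_[p]ˣ, ((u : ℤ_[p]ˣ) : ℤ_[p]) = l → ∀ a : ℚ_[l], a ≠ 0 →
    ∀ κ : GQ l → ℤ_[p], IsKP (MonoidHom.id (GQ l)) z (algebraMap ℚ_[l] (PadicAlgCl l) a) κ →
    ∀ m : ℕ, inv (sc κ (fun g => lam (cyL p l g)) m) =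
      cl p ((((a.valuation : ℤ) * lam u : ℤ_[p]) : ℚ_[p]) / (p : ℚ_[p]) ^ m)
  eq : l = p → ∀ (u : ℤ_[p]ˣ) (a : ℚ) (a₁ a₂ : ℚ_[l]), a₁ * a₂ = a → a ≠ 0 →
    (a : ℚ_[p]) = ((u : ℤ_[p]ˣ) : ℤ_[p]) * (p : ℚ_[p]) ^ (padicValRat p a) →
    ∀ κ₁ κ₂ : GQ l → ℤ_[p],
    IsKP (MonoidHom.id (GQ l)) z (algebraMap ℚ_[l] (PadicAlgCl l) a₁) κ₁ →
    IsKP (MonoidHom.id (GQ l)) z (algebraMap ℚ_[l] (PadicAlgCl l) a₂) κ₂ →
    ∀ m : ℕ, inv (sc κ₁ (fun g => lam (cyL p l g)) m) + inv (sc κ₂ (fun g => lam (cyL p l g)) m) =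
      cl p ((((-lam u : ℤ_[p])) : ℚ_[p]) / (p : ℚ_[p]) ^ m)

/-- Module RE: the reciprocity law (from RA, LX, RN, RP, CJ, CY, KPE, SC). -/
def StRE : Prop :=
  ∀ (p : ℕ) [Fact p.Prime], p ≠ 2 → ∀ (F : Type) [Field F] [NumberField F],
    Module.finrank ℚ F = 2 → IsEmpty (F →+* ℝ) →
    ∀ (c₀ : AlgebraicClosure F ≃+* AlgebraicClosure F) (cc : GF F →* GF F), CC0 c₀ cc →
    ∀ (Λ : Pl F), (∀ i, Splits F (Λ.l i)) → p ∈ Λ.P →
    ∀ lam : ℤ_[p]ˣ → ℤ_[p], IsLam lam → ∀ z : ℕ → AlgebraicClosure F, Sys p z →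
    ∀ inv : ∀ i, (GQ (Λ.l i) → GQ (Λ.l i) → QZ p) →+ QZ p,
    (∀ i, InvL p lam (Λ.l i) (fun n => Λ.j i (z n)) (inv i)) →
    ∀ α ∈ BKND.Z2 (actA (cycF p F)),
    (∀ (l : ℕ) [Fact l.Prime], l ∉ Λ.P → ∀ j : AlgebraicClosure F →+* PadicAlgCl l,
      pb2 (fs (MonoidHom.id (GF F)) j) α ∈
        BKND.B2 (actA ((cycF p F).comp (fs (MonoidHom.id (GF F)) j)))) →
    ∑ i, (inv i (pb2 (Λ.r i) α) - inv i (pb2 (cc.comp (Λ.r i)) α)) = 0

/-! ### Primes and ramification -/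

/-- the primes of `E` above the primes in `P` -/
def SP (E : Type) [Field E] [NumberField E] (P : Set ℕ) : Set (HeightOneSpectrum (𝓞 E)) :=
  {v | ∃ l ∈ P, (l : 𝓞 E) ∈ v.asIdeal}

/-- Module PQ: every prime is, up to primes of degree one, principal. -/
def StPQ : Prop :=
  ∀ (E : Type) [Field E] [NumberField E] (R : Set ℕ), R.Finite →
    ∀ v : HeightOneSpectrum (𝓞 E), ∃ α : 𝓞 E, v.valuation E (α : E) = WithZero.exp (-1 : ℤ) ∧
    (∀ w : HeightOneSpectrum (𝓞 E), w ≠ v → α ∈ w.asIdeal → ∀ l : ℕ, l.Prime →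
      (l : 𝓞 E) ∈ w.asIdeal → l ∉ R ∧ Splits E l) ∧
    ∃ w : HeightOneSpectrum (𝓞 E), w ≠ v ∧ α ∈ w.asIdeal

/-- Module PR: a finite set of primes `l` with `E → ℚ_l` such that all ideals are principal up to
the primes above them (from PQ and SA). -/
def StPR : Prop :=
  ∀ (E : Type) [Field E] [NumberField E] (R : Set ℕ), R.Finite →
    ∃ P : Set ℕ, P.Finite ∧ P.Nonempty ∧ (∀ l ∈ P, l ∉ R ∧ Splits E l) ∧ Prin (SP E P)

/-- Module FR: the elements of an open subgroup contain the inertia groups of almost all places. -/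
def StFR : Prop :=
  ∀ (F : Type) [Field F] [NumberField F] (W : Subgroup (GF F)), IsOpen (W : Set (GF F)) →
    ∃ L : Set ℕ, L.Finite ∧ ∀ (l : ℕ) [Fact l.Prime], l ∉ L →
    ∀ j : AlgebraicClosure F →+* PadicAlgCl l, ∀ g ∈ Inert F (AlgebraicClosure F) j, g ∈ W

/-- Module TI: homomorphisms from the inertia group at `l ≠ p` to `ℤ/p`. -/
def StTI : Prop :=
  ∀ (p : ℕ) [Fact p.Prime] (F : Type) [Field F] [NumberField F] (V : Subgroup (GF F)),
    IsOpen (V : Set (GF F)) → ∀ ζ : AlgebraicClosure F, IsPrimitiveRoot ζ p →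
    (∀ g ∈ V, g ζ = ζ) → ∀ (l : ℕ) [Fact l.Prime], l ≠ p →
    ∀ (j : AlgebraicClosure F →+* PadicAlgCl l) (π : AlgebraicClosure F), π ≠ 0 →
    (∀ g ∈ V, g π = π) → (∀ x : AlgebraicClosure F, x ≠ 0 → (∀ g ∈ V, g x = x) →
      ∃ m : ℤ, ‖j x‖ = ‖j π‖ ^ m) →
    ∀ κ : V → ZMod p, IsKum V.subtype ζ π κ → ∀ f : GF F → ZMod p, Loc1 f →
    ∀ R : Subgroup (GF F), (∀ g ∈ Inert F (AlgebraicClosure F) j, g ∈ V → g ∈ R) →
    (∀ r ∈ R, ∀ s ∈ R, f (r * s) = f r + f s) →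
    ∃ c : ZMod p, ∀ (g : GF F) (hg : g ∈ V), g ∈ Inert F (AlgebraicClosure F) j →
      f g = c * κ ⟨g, hg⟩

/-- The situation of the global axioms: `E` is the field fixed by the open normal subgroup `U` of
index prime to `p`, which contains the inertia groups outside `P` and fixes the `p`-th roots of
unity, and all ideals of `E` are principal up to the primes above `P`. -/
structure Sit (p : ℕ) [Fact p.Prime] (F : Type) [Field F] [NumberField F] (P : Set ℕ)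
    (U : Subgroup (GF F)) (E : IntermediateField F (AlgebraicClosure F)) [NumberField E] :
    Prop where
  odd : p ≠ 2
  memP : p ∈ P
  finP : P.Finite
  prime : ∀ l ∈ P, l.Prime
  open' : IsOpen (U : Set (GF F))
  normal : U.Normal
  index : ¬ p ∣ U.index
  ram : RS F P ≤ U
  root : ∀ g ∈ U, PadicInt.toZMod ((cycF p F g : ℤ_[p]ˣ) : ℤ_[p]) = 1
  field : ∀ x, x ∈ E ↔ ∀ g ∈ U, g x = x
  prin : Prin (SP E P)

/-- Module RQ: a homomorphism from `RS F P` to `ℤ/p` which is invariant under `U` extends to `U`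
(from FR, TI, PA, PB of `GStmts`, and KUM of `Odd`). -/
def StRQ : Prop :=
  ∀ (p : ℕ) [Fact p.Prime] (F : Type) [Field F] [NumberField F] (P : Set ℕ)
    (U : Subgroup (GF F)) (E : IntermediateField F (AlgebraicClosure F)) [NumberField E],
    Sit p F P U E → ∀ f : GF F → ZMod p, Loc1 f →
    (∀ r ∈ RS F P, ∀ s ∈ RS F P, f (r * s) = f r + f s) →
    (∀ g ∈ U, ∀ r ∈ RS F P, f (g * r * g⁻¹) = f r) →
    ∃ y : GF F → ZMod p, Loc1 y ∧ (∀ g ∈ U, ∀ h ∈ U, y (g * h) = y g + y h) ∧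
      ∀ r ∈ RS F P, y r = f r

/-- Module RR: an equivariant homomorphism from `RS F P` to `k(ψ)` extends to a cocycle
(from RQ). -/
def StRR : Prop :=
  ∀ (p : ℕ) [Fact p.Prime] (F : Type) [Field F] [NumberField F] (P : Set ℕ)
    (U : Subgroup (GF F)) (E : IntermediateField F (AlgebraicClosure F)) [NumberField E],
    Sit p F P U E → ∀ (k : Type) [Field k] [Finite k] [Algebra (ZMod p) k] (ψ : GF F →* kˣ),
    (∀ g ∈ U, ψ g = 1) → ∀ f : GF F → k, Loc1 f →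
    (∀ r ∈ RS F P, ∀ s ∈ RS F P, f (r * s) = f r + f s) →
    (∀ g, ∀ r ∈ RS F P, f (g * r * g⁻¹) = (ψ g : k) * f r) →
    ∃ x ∈ BKND.Z1 (kch ψ), ∀ r ∈ RS F P, x r = f r

/-- Module TH: the Hasse principle for `H²(GF F, k(ψ))` (from HP, TRM, CY). -/
def StTH : Prop :=
  ∀ (p : ℕ) [Fact p.Prime] (F : Type) [Field F] [NumberField F] (P : Set ℕ)
    (U : Subgroup (GF F)) (E : IntermediateField F (AlgebraicClosure F)) [NumberField E],
    Sit p F P U E → ∀ (k : Type) [Field k] [Finite k] [Algebra (ZMod p) k] (ψ : GF F →* kˣ),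
    (∀ g ∈ U, ψ g = 1) → ∀ z ∈ BKND.Z2 (kch ψ),
    (∀ (l : ℕ) [Fact l.Prime] (j : AlgebraicClosure F →+* PadicAlgCl l),
      pb2 (fs (MonoidHom.id (GF F)) j) z ∈
        BKND.B2 (kch (ψ.comp (fs (MonoidHom.id (GF F)) j)))) →
    z ∈ BKND.B2 (kch ψ)

/-- the map from the decomposition group of `j` to `GS F P` -/
def dc {F : Type} [Field F] (P : Set ℕ) {l : ℕ} [Fact l.Prime]
    (j : AlgebraicClosure F →+* PadicAlgCl l) : Cp (MonoidHom.id (GF F)) j →* GS F P :=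
  (QuotientGroup.mk' (RS F P)).comp (fs (MonoidHom.id (GF F)) j)

/-- Module TW: a two-class of `GS F P` which is trivial at the places in `P` is trivial (from TH,
RR, UN). -/
def StTW : Prop :=
  ∀ (p : ℕ) [Fact p.Prime] (F : Type) [Field F] [NumberField F] (P : Set ℕ)
    (U : Subgroup (GF F)) (E : IntermediateField F (AlgebraicClosure F)) [NumberField E],
    Sit p F P U E → ∀ (k : Type) [Field k] [Finite k] [Algebra (ZMod p) k] (ψ : GS F P →* kˣ),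
    (∀ g ∈ U, ψ (QuotientGroup.mk g) = 1) → ∀ z ∈ BKND.Z2 (kch ψ),
    (∀ (l : ℕ) [Fact l.Prime], l ∈ P → ∀ j : AlgebraicClosure F →+* PadicAlgCl l,
      pb2 (dc P j) z ∈ BKND.B2 (kch (ψ.comp (dc P j)))) →
    z ∈ BKND.B2 (kch ψ)

/-- Module OQ: an element of `E` which is a `p`-th power at the places in `P` and has valuations
divisible by `p` outside `P` is a `p`-th power (from FI, NA1, PB of `GStmts`). -/
def StOQ : Prop :=
  ∀ (p : ℕ) [Fact p.Prime], p ≠ 2 → ∀ (E : Type) [Field E] [NumberField E] (ζ : E),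
    IsPrimitiveRoot ζ p → ∀ P : Set ℕ, P.Finite → (∀ l ∈ P, l.Prime) → p ∈ P →
    Prin (SP E P) → ∀ a : E, a ≠ 0 →
    (∀ (l : ℕ) [Fact l.Prime], l ∈ P → ∀ j : E →+* PadicAlgCl l, ∃ y ∈ comp l j, y ^ p = j a) →
    (∀ (l : ℕ) [Fact l.Prime], l ∉ P → ∀ j : E →+* PadicAlgCl l, ∃ b : E, ‖j a‖ = ‖j b‖ ^ p) →
    ∃ b : E, b ^ p = a

/-- Module ON: a one-class of `GS F P` which is trivial at the places in `P` is trivial (from OQ,
and KUM of `Odd`, TRM; library `norm_of_fixed_inert`). -/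
def StON : Prop :=
  ∀ (p : ℕ) [Fact p.Prime] (F : Type) [Field F] [NumberField F] (P : Set ℕ)
    (U : Subgroup (GF F)) (E : IntermediateField F (AlgebraicClosure F)) [NumberField E],
    Sit p F P U E → ∀ (k : Type) [Field k] [Finite k] [Algebra (ZMod p) k] (ψ : GS F P →* kˣ),
    (∀ g ∈ U, ψ (QuotientGroup.mk g) = 1) → ∀ f ∈ BKND.Z1 (kch ψ),
    (∀ (l : ℕ) [Fact l.Prime], l ∈ P → ∀ j : AlgebraicClosure F →+* PadicAlgCl l,
      pb1 (dc P j) f ∈ BKND.B1 (kch (ψ.comp (dc P j)))) →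
    f ∈ BKND.B1 (kch ψ)

/-! ### The global Euler characteristic -/

section US

variable (F : Type) [Field F] (P : Set ℕ) (U : Subgroup (GF F))

/-- the elements fixed by `U` which are units outside `P` -/
def US : Subgroup (AlgebraicClosure F)ˣ where
  carrier := {x | (∀ g ∈ U, g (x : AlgebraicClosure F) = x) ∧
    ∀ (l : ℕ) [Fact l.Prime], l ∉ P → ∀ j : AlgebraicClosure F →+* PadicAlgCl l,
      ‖j (x : AlgebraicClosure F)‖ = 1}
  one_mem' := by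
    refine ⟨fun g _ => map_one g, fun l _ _ j => ?_⟩
    rw [Units.val_one, map_one, norm_one]
  mul_mem' := by
    rintro x y ⟨h1, h2⟩ ⟨h3, h4⟩
    refine ⟨fun g hg => ?_, fun l _ hl j => ?_⟩
    · rw [Units.val_mul, map_mul, h1 g hg, h3 g hg]
    · rw [Units.val_mul, map_mul, norm_mul, h2 l hl j, h4 l hl j, one_mul]
  inv_mem' := by
    rintro x ⟨h1, h2⟩
    refine ⟨fun g hg => ?_, fun l _ hl j => ?_⟩
    · rw [Units.val_inv_eq_inv_val, map_inv₀, h1 g hg]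
    · rw [Units.val_inv_eq_inv_val, map_inv₀, norm_inv, h2 l hl j, inv_one]

/-- `a` is the action of `GF F / U` on the group `US F P U` -/
def IsAct [U.Normal] (a : GF F ⧸ U →* AddMonoid.End (Additive (US F P U))) : Prop :=
  ∀ (g : GF F) (x : Additive (US F P U)),
    (((a (QuotientGroup.mk g) x).toMul : (AlgebraicClosure F)ˣ) : AlgebraicClosure F) =
      g ((x.toMul : (AlgebraicClosure F)ˣ) : AlgebraicClosure F)

end US

/-- Module UA: the action exists. -/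
def StUA : Prop :=
  ∀ (F : Type) [Field F] (P : Set ℕ) (U : Subgroup (GF F)) [U.Normal],
    ∃ a : GF F ⧸ U →* AddMonoid.End (Additive (US F P U)), IsAct F P U a

/-- Module CE: the Kummer description of `Z¹(GS F P, k(ψ))` (from KH, TRM; library
`norm_of_fixed_inert`). -/
def StCE : Prop :=
  ∀ (p : ℕ) [Fact p.Prime] (F : Type) [Field F] [NumberField F] (P : Set ℕ)
    (U : Subgroup (GF F)) [U.Normal] (E : IntermediateField F (AlgebraicClosure F))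
    [NumberField E], Sit p F P U E →
    ∀ (k : Type) [Field k] [Finite k] [Algebra (ZMod p) k] (ψ ψ' : GS F P →* kˣ)
    (ψ₀ : GF F ⧸ U →* kˣ), (∀ g ∈ U, ψ (QuotientGroup.mk g) = 1) →
    (∀ g : GF F, ψ₀ (QuotientGroup.mk g) = ψ' (QuotientGroup.mk g)) →
    ∀ χ : GS F P →* ℤ_[p]ˣ, (∀ g : GF F, χ (QuotientGroup.mk g) = cycF p F g) → Rel χ ψ ψ' →
    ∀ a : GF F ⧸ U →* AddMonoid.End (Additive (US F P U)), IsAct F P U a →
    Nat.card (BKND.Z1 (kch ψ)) * Nat.card (BKND.H0 (kch ψ)) =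
      Nat.card k * hq p (kch ψ₀) a

/-- Module CT: equivariant homomorphisms from `k(ψ')` to the group of `S`-units. -/
def StCT : Prop :=
  ∀ (p : ℕ) [Fact p.Prime] (F : Type) [Field F] [NumberField F] (P : Set ℕ)
    (U : Subgroup (GF F)) [U.Normal] (E : IntermediateField F (AlgebraicClosure F))
    [NumberField E], Sit p F P U E →
    ∀ (k : Type) [Field k] [Finite k] [Algebra (ZMod p) k] (ψ ψ' : GS F P →* kˣ)
    (ψ₀ : GF F ⧸ U →* kˣ), (∀ g ∈ U, ψ (QuotientGroup.mk g) = 1) →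
    (∀ g : GF F, ψ₀ (QuotientGroup.mk g) = ψ' (QuotientGroup.mk g)) →
    ∀ χ : GS F P →* ℤ_[p]ˣ, (∀ g : GF F, χ (QuotientGroup.mk g) = cycF p F g) → Rel χ ψ ψ' →
    ∀ a : GF F ⧸ U →* AddMonoid.End (Additive (US F P U)), IsAct F P U a →
    Finite {x : Additive (US F P U) // p • x = 0} ∧
    ht (kch ψ₀) a = Nat.card (BKND.H0 (kch ψ))

/-- Module CG: the number of equivariant homomorphisms (from EIG). -/
def StCG : Prop :=
  ∀ (p : ℕ) [Fact p.Prime] (Δ : Type) [Group Δ] [Finite Δ], ¬ p ∣ Nat.card Δ →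
    ∀ (X : Type) [AddCommGroup X] (a : Δ →* AddMonoid.End X) (W : Type) [Fintype W]
    (D : W → Subgroup Δ) (g : ∀ w, (Δ ⧸ D w) → X × ℤ),
    (∀ (d : Δ) (w : W) (t : Δ ⧸ D w), g w (d • t) = (a d (g w t).1, (g w t).2)) →
    LinearIndependent ℤ (fun x : Σ w, Δ ⧸ D w => g x.1 x.2) →
    (AddSubgroup.closure (Set.range fun x : Σ w, Δ ⧸ D w => g x.1 x.2)).index ≠ 0 →
    Finite {x : X // p • x = 0} → ∀ (k : Type) [Field k] [Finite k] [Algebra (ZMod p) k]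
    (ψ : Δ →* kˣ),
    hq p (kch ψ) a * Nat.card (BKND.H0 (kch ψ)) =
      (∏ w, Nat.card (BKND.H0 (kch (ψ.comp (D w).subtype)))) * ht (kch ψ) a

/-- Module MU: a Minkowski unit. -/
def StMU : Prop :=
  ∀ (F : Type) [Field F] [NumberField F], Module.finrank ℚ F = 2 → IsEmpty (F →+* ℝ) →
    ∀ (U : Subgroup (GF F)) [U.Normal], IsOpen (U : Set (GF F)) →
    ∀ φ : AlgebraicClosure F →+* ℂ, ∃ u : AlgebraicClosure F, u ≠ 0 ∧ (∀ g ∈ U, g u = u) ∧
    (∀ (l : ℕ) [Fact l.Prime] (j : AlgebraicClosure F →+* PadicAlgCl l), ‖j u‖ = 1) ∧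
    (∀ g, g ∉ U → ‖φ (g u)‖ < 1) ∧ ∏ᶠ d : GF F ⧸ U, ‖φ (d.out u)‖ = 1

/-- Module MI: the conjugates of a Minkowski unit (combinatorics). -/
def StMI : Prop :=
  ∀ (Δ : Type) [Group Δ] [Fintype Δ] (m : Δ → ℝ), (∀ d, d ≠ 1 → m d < 0) → ∑ d, m d = 0 →
    ∀ x : Δ → ℤ, (∀ d', ∑ d, m (d'⁻¹ * d) * x d = 0) → ∀ d, x d = x 1

section Dw

variable {F : Type} [Field F] (U : Subgroup (GF F)) [U.Normal] (Λ : Pl F)

/-- the decomposition groups in `GF F / U` of the places `w` -/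
def Dw (cc : GF F →* GF F) (w : Λ.ι × Bool) : Subgroup (GF F ⧸ U) :=
  ((QuotientGroup.mk' U).comp (Λ.loc (MonoidHom.id (GF F)) cc w)).range

/-- the decomposition groups in `GF F / U` of the places `w`, and the trivial group -/
def Dx (cc : GF F →* GF F) : Option (Λ.ι × Bool) → Subgroup (GF F ⧸ U)
  | none => ⊥
  | some w => Dw U Λ cc w

/-- the embedding at the place `w` -/
def jw (c₀ : AlgebraicClosure F ≃+* AlgebraicClosure F) (w : Λ.ι × Bool) :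
    AlgebraicClosure F →+* PadicAlgCl (Λ.l w.1) :=
  if w.2 then (Λ.j w.1).comp (c₀ : AlgebraicClosure F →+* AlgebraicClosure F) else Λ.j w.1

end Dw

/-- The situation of the global axioms for an imaginary quadratic field `F` and the places `Λ`. -/
structure Siq (p : ℕ) [Fact p.Prime] (F : Type) [Field F] [NumberField F]
    (U : Subgroup (GF F)) (E : IntermediateField F (AlgebraicClosure F)) [NumberField E]
    (Λ : Pl F) (c₀ : AlgebraicClosure F ≃+* AlgebraicClosure F) (cc : GF F →* GF F) : Prop where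
  sit : Sit p F Λ.P U E
  quad : Module.finrank ℚ F = 2
  imag : IsEmpty (F →+* ℝ)
  cc0 : CC0 c₀ cc

/-- Module PW: elements which generate powers of the primes above `P`. -/
def StPW : Prop :=
  ∀ (p : ℕ) [Fact p.Prime] (F : Type) [Field F] [NumberField F]
    (U : Subgroup (GF F)) [U.Normal] (E : IntermediateField F (AlgebraicClosure F))
    [NumberField E] (Λ : Pl F) (c₀ : AlgebraicClosure F ≃+* AlgebraicClosure F)
    (cc : GF F →* GF F), Siq p F U E Λ c₀ cc → ∀ w : Λ.ι × Bool,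
    ∃ π : AlgebraicClosure F, π ≠ 0 ∧ (∀ g ∈ U, g π = π) ∧
    (∀ t, Λ.loc (MonoidHom.id (GF F)) cc w t π = π) ∧
    (∀ (l : ℕ) [Fact l.Prime], l ∉ Λ.P → ∀ j : AlgebraicClosure F →+* PadicAlgCl l,
      ‖j π‖ = 1) ∧ ‖jw Λ c₀ w π‖ < 1 ∧
    ∀ (w' : Λ.ι × Bool) (g : GF F), (w' ≠ w ∨ (QuotientGroup.mk g : GF F ⧸ U) ∉ Dw U Λ cc w) →
      ‖jw Λ c₀ w' (g π)‖ = 1

/-- Module PN: the number of primes of `E` above `P`. -/
def StPN : Prop :=
  ∀ (p : ℕ) [Fact p.Prime] (F : Type) [Field F] [NumberField F]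
    (U : Subgroup (GF F)) [U.Normal] (E : IntermediateField F (AlgebraicClosure F))
    [NumberField E] (Λ : Pl F) (c₀ : AlgebraicClosure F ≃+* AlgebraicClosure F)
    (cc : GF F →* GF F), Siq p F U E Λ c₀ cc →
    Nat.card (SP E Λ.P) = ∑ w, (Dw U Λ cc w).index

/-- Module RK: the rank of the group of `S`-units (from SB, PB of `GStmts`). -/
def StRK : Prop :=
  ∀ (p : ℕ) [Fact p.Prime] (F : Type) [Field F] [NumberField F], Module.finrank ℚ F = 2 →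
    ∀ (P : Set ℕ) (U : Subgroup (GF F)) (E : IntermediateField F (AlgebraicClosure F))
    [NumberField E], Sit p F P U E → Module.Finite ℤ (Additive (US F P U)) ∧
    Module.finrank ℤ (Additive (US F P U)) + 1 = U.index + Nat.card (SP E P)

/-- Module CU: the structure of the group of `S`-units (from MU, MI, PW, PN, RK). -/
def StCU : Prop :=
  ∀ (p : ℕ) [Fact p.Prime] (F : Type) [Field F] [NumberField F]
    (U : Subgroup (GF F)) [U.Normal] (E : IntermediateField F (AlgebraicClosure F))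
    [NumberField E] (Λ : Pl F) (c₀ : AlgebraicClosure F ≃+* AlgebraicClosure F)
    (cc : GF F →* GF F), Siq p F U E Λ c₀ cc →
    ∀ a : GF F ⧸ U →* AddMonoid.End (Additive (US F Λ.P U)), IsAct F Λ.P U a →
    ∃ g : ∀ w : Option (Λ.ι × Bool), ((GF F ⧸ U) ⧸ Dx U Λ cc w) → Additive (US F Λ.P U) × ℤ,
      (∀ (d : GF F ⧸ U) (w : Option (Λ.ι × Bool)) (t : (GF F ⧸ U) ⧸ Dx U Λ cc w),
        g w (d • t) = (a d (g w t).1, (g w t).2)) ∧
      LinearIndependent ℤ (fun x : Σ w, (GF F ⧸ U) ⧸ Dx U Λ cc w => g x.1 x.2) ∧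
      (AddSubgroup.closure
        (Set.range fun x : Σ w, (GF F ⧸ U) ⧸ Dx U Λ cc w => g x.1 x.2)).index ≠ 0

/-- Module CA: the global Euler characteristic (from UA, CE, CT, CG, CU). -/
def StCA : Prop :=
  ∀ (p : ℕ) [Fact p.Prime] (F : Type) [Field F] [NumberField F]
    (U : Subgroup (GF F)) (E : IntermediateField F (AlgebraicClosure F))
    [NumberField E] (Λ : Pl F) (c₀ : AlgebraicClosure F ≃+* AlgebraicClosure F)
    (cc : GF F →* GF F), Siq p F U E Λ c₀ cc →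
    ∀ (χ : GS F Λ.P →* ℤ_[p]ˣ) (c : GS F Λ.P →* GS F Λ.P),
    (∀ g : GF F, χ (QuotientGroup.mk g) = cycF p F g) →
    (∀ g : GF F, c (QuotientGroup.mk g) = QuotientGroup.mk (cc g)) →
    ∀ (k : Type) [Field k] [Finite k] [Algebra (ZMod p) k] (ψ ψ' : GS F Λ.P →* kˣ),
    (∀ g ∈ U, ψ (QuotientGroup.mk g) = 1) → (∀ g ∈ U, ψ' (QuotientGroup.mk g) = 1) →
    Rel χ ψ ψ' →
    Nat.card (BKND.Z1 (kch ψ)) * Nat.card (BKND.H0 (kch ψ')) =
      Nat.card k ^ 2 * ∏ w, Nat.card (BKND.H0 (kch (ψ'.comp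
        (Λ.loc (QuotientGroup.mk' (RS F Λ.P)) c w))))

/-! ### Assembly -/

/-- Module LI: the local invariants (from `StLoc`). -/
def StLI : Prop :=
  ∀ (p : ℕ) [Fact p.Prime], p ≠ 2 → ∀ lam : ℤ_[p]ˣ → ℤ_[p], IsLam lam →
    ∀ (l : ℕ) [Fact l.Prime] (z : ℕ → PadicAlgCl l), Sys p z →
    ∃ inv : (GQ l → GQ l → QZ p) →+ QZ p,
      LocAx p (cycL p l) inv (if l = p then 1 else 0) ∧ InvL p lam l z inv

/-- Module AR: the arithmetic theorem (from LI, LAM, CY, CJ, CV, PL, PR, SA, TW, ON, CA, RE,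
UN). -/
abbrev StAR : Prop := StArith

end BKGlob2
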