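import Pool.Agent.Lib.MP_7c08ba_nt.Met.LocStmts
import Pool.Agent.Lib.MP_7c08ba_nt.Odd.Chain
import Pool.Agent.Lib.MP_7c08ba_nt.Odd.TR
import Pool.Agent.Lib.MP_7c08ba_nt.Odd.Kum
import Pool.Agent.Lib.MP_7c08ba_nt.Odd.L1
import Pool.Agent.Lib.MP_7c08ba_nt.Odd.L3
import Pool.Agent.Lib.MP_7c08ba_nt.Odd.H90

set_option autoImplicit false

/-!
Module CHT: the second cohomology of the local Galois groups of `ℚ_l` with coefficients `ℤ/p`,
`l ≠ p`, in the presence of the `p`-th roots of unity.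
-/

noncomputable section

namespace BKLoc2.CHTAux

open BKOdd BKOdd.Chain

variable {p l : ℕ} [Fact p.Prime] [Fact l.Prime]

/-! ### norms and fixed elements -/

section Units

variable {V : Type} [Group V] (e : V →* GQ l)

/-- the fixed units -/
def SS : Subgroup (PadicAlgCl l)ˣ where
  carrier := {Y | Fx e (Y : PadicAlgCl l)}
  one_mem' := fun v => map_one _
  mul_mem' := by
    intro a b ha hb v
    rw [Units.val_mul, map_mul, ha v, hb v]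
  inv_mem' := by
    intro a ha v
    rw [Units.val_inv_eq_inv_val, map_inv₀, ha v]

theorem mem_SS (Y : (PadicAlgCl l)ˣ) : Y ∈ SS e ↔ Fx e (Y : PadicAlgCl l) := Iff.rfl

variable (p) in
/-- the norms -/
def TT (H : Subgroup V) (σ : V) : Subgroup (PadicAlgCl l)ˣ where
  carrier := {Y | IsNm e p H σ (Y : PadicAlgCl l)}
  one_mem' := ⟨1, one_ne_zero, fun h _ => map_one _, by
    simp only [map_one, Finset.prod_const_one, Units.val_one]⟩
  mul_mem' := by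
    rintro a b ⟨c, hc, hc', hc''⟩ ⟨d, hd, hd', hd''⟩
    refine ⟨c * d, mul_ne_zero hc hd, fun h hh => ?_, ?_⟩
    · rw [map_mul, hc' h hh, hd' h hh]
    · rw [Units.val_mul, ← hc'', ← hd'', ← Finset.prod_mul_distrib]
      exact Finset.prod_congr rfl fun i _ => map_mul _ _ _
  inv_mem' := by
    rintro a ⟨c, hc, hc', hc''⟩
    refine ⟨c⁻¹, inv_ne_zero hc, fun h hh => ?_, ?_⟩
    · rw [map_inv₀, hc' h hh]
    · rw [Units.val_inv_eq_inv_val, ← hc'', ← Finset.prod_inv_distrib]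
      exact Finset.prod_congr rfl fun i _ => map_inv₀ _ _

variable (p) in
theorem mem_TT (H : Subgroup V) (σ : V) (Y : (PadicAlgCl l)ˣ) :
    Y ∈ TT p e H σ ↔ IsNm e p H σ (Y : PadicAlgCl l) := Iff.rfl

end Units

/-! ### the products with a fixed character -/

section Star

variable {V : Type} [Group V] [TopologicalSpace V] [IsTopologicalGroup V] {e : V →* GQ l}
  {ζ : PadicAlgCl l}

theorem relIndex_eq (h6 : StNT) (hl : l ≠ p) (he : Topology.IsOpenEmbedding e)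
    {χ : V → ZMod p} (hχ : χ ∈ CC.Z1 (1 : V →* ZMod p)) (h0 : χ ≠ 0) (σ : V) (hσ : χ σ = 1) :
    (TT p e (mhom χ hχ).ker σ).relIndex (SS e) = p := by
  refine h6 p l hl V e he _ inferInstance (mhom_ker_open hχ) (mhom_ker_index hχ h0) σ ?_ _ _
    (mem_SS e) (mem_TT p e _ σ)
  rw [mem_mhom_ker, hσ]
  exact one_ne_zero

/-- nondegeneracy -/
theorem nonDeg (h3 : StKum) (h5 : StL3) (h6 : StNT) (hl : l ≠ p)
    (he : Topology.IsOpenEmbedding e)
    (hζ : IsPrimitiveRoot ζ p) (hFx : Fx e ζ) : NonDeg p V := by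
  intro χ hχ h0
  obtain ⟨σ, hσ⟩ := exists_eq_one hχ h0
  have h := relIndex_eq h6 hl he hχ h0 σ hσ
  have h1 : ¬ (SS e ≤ TT p e (mhom χ hχ).ker σ) := by
    intro hle
    rw [Subgroup.relIndex_eq_one.2 hle] at h
    exact (Fact.out : p.Prime).one_lt.ne h
  obtain ⟨Y, hY, hY'⟩ := Set.not_subset.1 h1
  obtain ⟨κ, hκ, hκY⟩ := (h3 ℚ_[l] (PadicAlgCl l) V e he p ζ hζ hFx).1 (Y : PadicAlgCl l)
    Y.ne_zero hY
  refine ⟨κ, hκ, fun hB => hY' ?_⟩
  exact (h5 ℚ_[l] (PadicAlgCl l) V e he p ζ hζ hFx χ hχ (mhom χ hχ).ker (mem_mhom_ker χ hχ)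
    σ hσ (Y : PadicAlgCl l) Y.ne_zero hY κ hκY).1 hB

theorem isKum_pow (h3 : StKum) (he : Topology.IsOpenEmbedding e)
    (hζ : IsPrimitiveRoot ζ p) (hFx : Fx e ζ) {a : PadicAlgCl l} {κ : V → ZMod p}
    (h : IsKum e ζ a κ) (n : ℕ) : IsKum e ζ (a ^ n) ((n : ZMod p) • κ) := by
  induction n with
  | zero =>
    refine ⟨1, one_ne_zero, by rw [one_pow, pow_zero], fun v => ?_⟩
    simp
  | succ n ih =>
    have := (h3 ℚ_[l] (PadicAlgCl l) V e he p ζ hζ hFx).2.2.1 _ _ _ _ ih h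
    rw [pow_succ]
    convert this using 1
    push_cast
    rw [add_smul, one_smul]

/-- the classes of the products with one character lie on a line -/
theorem line_one (h3 : StKum) (h5 : StL3) (h6 : StNT) (hl : l ≠ p)
    (he : Topology.IsOpenEmbedding e)
    (hζ : IsPrimitiveRoot ζ p) (hFx : Fx e ζ) {χ ψ₁ ψ₂ : V → ZMod p}
    (hχ : χ ∈ CC.Z1 (1 : V →* ZMod p)) (hψ₁ : ψ₁ ∈ CC.Z1 (1 : V →* ZMod p))
    (hψ₂ : ψ₂ ∈ CC.Z1 (1 : V →* ZMod p)) (hn : CC.cup ψ₁ χ ∉ CC.B2 (1 : V →* ZMod p)) :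
    ∃ a : ZMod p, CC.cup ψ₂ χ - a • CC.cup ψ₁ χ ∈ CC.B2 (1 : V →* ZMod p) := by
  have h0 : χ ≠ 0 := by
    rintro rfl
    apply hn
    have : CC.cup ψ₁ (0 : V → ZMod p) = 0 := by
      funext g h
      simp [CC.cup]
    rw [this]
    exact Submodule.zero_mem _
  obtain ⟨σ, hσ⟩ := exists_eq_one hχ h0
  have h := relIndex_eq h6 hl he hχ h0 σ hσ
  have hK := h3 ℚ_[l] (PadicAlgCl l) V e he p ζ hζ hFx
  have hL := h5 ℚ_[l] (PadicAlgCl l) V e he p ζ hζ hFx χ hχ (mhom χ hχ).ker (mem_mhom_ker χ hχ)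
    σ hσ
  obtain ⟨y₁, hy₁, hf₁, hk₁⟩ := hK.2.1 ψ₁ hψ₁
  obtain ⟨y₂, hy₂, hf₂, hk₂⟩ := hK.2.1 ψ₂ hψ₂
  let Y₁ : SS e := ⟨Units.mk0 y₁ hy₁, hf₁⟩
  let Y₂ : SS e := ⟨Units.mk0 y₂ hy₂, hf₂⟩
  set T' := (TT p e (mhom χ hχ).ker σ).subgroupOf (SS e) with hT'
  have hcard : Nat.card (SS e ⧸ T') = p := h
  have hne : (QuotientGroup.mk Y₁ : SS e ⧸ T') ≠ 1 := by
    intro h1
    rw [QuotientGroup.eq_one_iff] at h1
    exact hn ((hL y₁ hy₁ hf₁ ψ₁ hk₁).2 h1)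
  have : Finite (SS e ⧸ T') := Nat.finite_of_card_ne_zero (by
    rw [hcard]; exact (Fact.out : p.Prime).ne_zero)
  obtain ⟨m, hm⟩ := mem_powers_of_prime_card hcard hne (g' := (QuotientGroup.mk Y₂ : SS e ⧸ T'))
  have hm' : ((Y₁ ^ m)⁻¹ * Y₂) ∈ T' := by
    rw [← QuotientGroup.eq]
    exact hm
  set t : SS e := (Y₁ ^ m)⁻¹ * Y₂ with ht
  have htk : Y₁ ^ m * t = Y₂ := by rw [ht, mul_inv_cancel_left]
  obtain ⟨τ, hτ, hkτ⟩ := hK.1 ((t : (PadicAlgCl l)ˣ) : PadicAlgCl l) (Units.ne_zero _) t.2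
  have hτB := (hL _ (Units.ne_zero _) t.2 τ hkτ).2 hm'
  have h2 : IsKum e ζ y₂ ((m : ZMod p) • ψ₁ + τ) := by
    have h3' := hK.2.2.1 _ _ _ _ (isKum_pow h3 he hζ hFx hk₁ m) hkτ
    have h4 : y₁ ^ m * ((t : (PadicAlgCl l)ˣ) : PadicAlgCl l) = y₂ := by
      have := congrArg (fun z : SS e => ((z : (PadicAlgCl l)ˣ) : PadicAlgCl l)) htk
      exact this
    rwa [h4] at h3'
  have h5' := hK.2.2.2.1 _ _ _ hk₂ h2
  refine ⟨(m : ZMod p), ?_⟩
  have h6' : CC.cup ψ₂ χ - (m : ZMod p) • CC.cup ψ₁ χ = CC.cup τ χ := by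
    funext g h
    rw [h5']
    simp only [CC.cup, Pi.sub_apply, Pi.smul_apply, Pi.add_apply, smul_eq_mul]
    ring
  rw [h6']
  exact hτB

/-- all products lie on a line -/
theorem line_cup (h3 : StKum) (h5 : StL3) (h6 : StNT) (hl : l ≠ p)
    (he : Topology.IsOpenEmbedding e)
    (hζ : IsPrimitiveRoot ζ p) (hFx : Fx e ζ) {χ₁ χ₂ ψ₁ ψ₂ : V → ZMod p}
    (hψ₁ : ψ₁ ∈ CC.Z1 (1 : V →* ZMod p)) (hχ₁ : χ₁ ∈ CC.Z1 (1 : V →* ZMod p))
    (hψ₂ : ψ₂ ∈ CC.Z1 (1 : V →* ZMod p)) (hχ₂ : χ₂ ∈ CC.Z1 (1 : V →* ZMod p))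
    (hn : CC.cup ψ₁ χ₁ ∉ CC.B2 (1 : V →* ZMod p)) :
    ∃ a : ZMod p, CC.cup ψ₂ χ₂ - a • CC.cup ψ₁ χ₁ ∈ CC.B2 (1 : V →* ZMod p) := by
  set B := CC.B2 (1 : V →* ZMod p) with hB
  by_cases hn2 : CC.cup ψ₂ χ₂ ∈ B
  · exact ⟨0, by rwa [zero_smul, sub_zero]⟩
  -- a common partner
  have hadd : ∀ χ : V → ZMod p, CC.cup (ψ₁ + ψ₂) χ = CC.cup ψ₁ χ + CC.cup ψ₂ χ := by
    intro χ
    funext g h
    simp only [CC.cup, Pi.add_apply, add_mul]
  obtain ⟨ψ, hψ, hp1, hp2⟩ : ∃ ψ ∈ CC.Z1 (1 : V →* ZMod p), CC.cup ψ χ₁ ∉ B ∧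
      CC.cup ψ χ₂ ∉ B := by
    by_cases ha : CC.cup ψ₁ χ₂ ∈ B
    · by_cases hb : CC.cup ψ₂ χ₁ ∈ B
      · refine ⟨ψ₁ + ψ₂, Submodule.add_mem _ hψ₁ hψ₂, ?_, ?_⟩
        · rw [hadd]
          intro h
          exact hn ((B.add_mem_iff_left hb).1 h)
        · rw [hadd]
          intro h
          exact hn2 ((B.add_mem_iff_right ha).1 h)
      · exact ⟨ψ₂, hψ₂, hb, hn2⟩
    · exact ⟨ψ₁, hψ₁, hn, ha⟩
  obtain ⟨a₁, ha₁⟩ := line_one h3 h5 h6 hl he hζ hFx hχ₂ hψ hψ₂ hp2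
  have hq1 : CC.cup χ₁ ψ ∉ B := fun h => hp1 (cup_comm_mem hχ₁ hψ h)
  obtain ⟨a₂, ha₂⟩ := line_one h3 h5 h6 hl he hζ hFx hψ hχ₁ hχ₂ hq1
  obtain ⟨a₃, ha₃⟩ := line_one h3 h5 h6 hl he hζ hFx hχ₁ hψ₁ hψ hn
  refine ⟨a₁ * (a₂ * a₃), ?_⟩
  have e1 : CC.cup ψ₂ χ₂ - (a₁ * (a₂ * a₃)) • CC.cup ψ₁ χ₁ =
      (CC.cup ψ₂ χ₂ - a₁ • CC.cup ψ χ₂) + a₁ • ((CC.cup ψ χ₂ + CC.cup χ₂ ψ) -
        (CC.cup χ₂ ψ - a₂ • CC.cup χ₁ ψ) - a₂ • (CC.cup ψ χ₁ + CC.cup χ₁ ψ) +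
        a₂ • (CC.cup ψ χ₁ - a₃ • CC.cup ψ₁ χ₁)) := by
    funext g h
    simp only [CC.cup, Pi.sub_apply, Pi.add_apply, Pi.smul_apply, smul_eq_mul]
    ring
  rw [e1]
  refine B.add_mem ha₁ (B.smul_mem _ (B.add_mem (B.sub_mem (B.sub_mem (cup_anti hψ hχ₂) ha₂)
    (B.smul_mem _ (cup_anti hψ hχ₁))) (B.smul_mem _ ha₃)))

end Star

/-! ### norms which are not powers -/

section Count

variable {V : Type} [Group V] [TopologicalSpace V] [IsTopologicalGroup V] {e : V →* GQ l}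
  {ζ : PadicAlgCl l}

theorem exists_norm (h3 : StKum) (hp2 : p ≠ 2) (he : Topology.IsOpenEmbedding e)
    (hζ : IsPrimitiveRoot ζ p) (hFx : Fx e ζ)
    {χ : V → ZMod p} (hχ : χ ∈ CC.Z1 (1 : V →* ZMod p)) (h0 : χ ≠ 0) (σ : V) (hσ : χ σ = 1) :
    ∃ Y : (PadicAlgCl l)ˣ, Y ∈ TT p e (mhom χ hχ).ker σ ∧
      ¬ ∃ b : PadicAlgCl l, Fx e b ∧ b ^ p = (Y : PadicAlgCl l) := by
  have hp : p.Prime := Fact.out
  have hK := h3 ℚ_[l] (PadicAlgCl l) V e he p ζ hζ hFx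
  obtain ⟨b, hb0, -, hb⟩ := hK.2.1 χ hχ
  refine ⟨Units.mk0 b hb0, ?_, fun h => h0 ((hK.2.2.2.2 b χ hb).2 h)⟩
  obtain ⟨y, hy0, hyp, hy⟩ := hb
  refine ⟨y, hy0, fun h hh => ?_, ?_⟩
  · rw [hy, (mem_mhom_ker χ hχ h).1 hh, ZMod.val_zero, pow_zero, one_mul]
  · have h1 : ∀ i ∈ Finset.range p, e (σ ^ i) y = ζ ^ i * y := by
      intro i hi
      rw [hy, z1_pow hχ, hσ, mul_one, ZMod.val_natCast,
        Nat.mod_eq_of_lt (Finset.mem_range.1 hi)]
    obtain ⟨k, hk⟩ : ∃ k : ℕ, p = 2 * k + 1 := hp.odd_of_ne_two hp2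
    have h2 : ζ ^ ∑ i ∈ Finset.range p, i = 1 := by
      rw [Finset.sum_range_id]
      have h3' : p * (p - 1) / 2 = p * k := by
        have h4 : p * (p - 1) = p * k * 2 := by
          rw [mul_assoc]
          congr 1
          omega
        rw [h4, Nat.mul_div_cancel _ two_pos]
      rw [h3', pow_mul, hζ.pow_eq_one, one_pow]
    rw [Finset.prod_congr rfl h1, Finset.prod_mul_distrib, Finset.prod_const, Finset.card_range,
      hyp, Finset.prod_pow_eq_pow_sum, h2, one_mul, Units.val_mk0]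

end Count

/-! ### the Kummer character of a norm -/

section Cor

theorem pow_val_add {ζ : PadicAlgCl l} (hζ : IsPrimitiveRoot ζ p) (x y : ZMod p) :
    ζ ^ (x + y).val = ζ ^ x.val * ζ ^ y.val := by
  rw [ZMod.val_add, ← pow_add, ← pow_eq_pow_mod _ hζ.pow_eq_one]

theorem prod_pow_val {ζ : PadicAlgCl l} (hζ : IsPrimitiveRoot ζ p) {ι : Type*} (s : Finset ι)
    (f : ι → ZMod p) : ∏ i ∈ s, ζ ^ (f i).val = ζ ^ (∑ i ∈ s, f i).val := by
  classical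
  induction s using Finset.induction_on with
  | empty => rw [Finset.prod_empty, Finset.sum_empty, ZMod.val_zero, pow_zero]
  | insert a s ha ih => rw [Finset.prod_insert ha, Finset.sum_insert ha, ih, pow_val_add hζ]

theorem e_coset {V : Type} [Group V] {e : V →* GQ l} {H : Subgroup V} {c : PadicAlgCl l} (hc : ∀ h ∈ H, e h c = c) {g g' : V}
    (h : (g : V ⧸ H) = (g' : V ⧸ H)) : e g c = e g' c := by
  rw [QuotientGroup.eq] at h
  have h1 : g' = g * (g⁻¹ * g') := by rw [mul_inv_cancel_left]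
  rw [h1, map_mul, AlgEquiv.mul_apply, hc _ h]

variable {V : Type} [Group V] [TopologicalSpace V] {e : V →* GQ l} {ζ : PadicAlgCl l}

theorem prod_coset {χ : V → ZMod p} (hχ : χ ∈ CC.Z1 (1 : V →* ZMod p)) (σ : V) (hσ : χ σ = 1)
    [Fintype (V ⧸ (mhom χ hχ).ker)] {c : PadicAlgCl l}
    (hc : ∀ h ∈ (mhom χ hχ).ker, e h c = c) :
    ∏ i ∈ Finset.range p, e (σ ^ i) c = ∏ q : V ⧸ (mhom χ hχ).ker, e q.out c := by
  have hp : p.Prime := Fact.out
  have key : ∀ g g' : V, ((g : V ⧸ (mhom χ hχ).ker) = (g' : V ⧸ (mhom χ hχ).ker)) ↔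
      χ g = χ g' := by
    intro g g'
    rw [QuotientGroup.eq, mem_mhom_ker]
    have h1 : χ (g⁻¹ * g') = χ g' - χ g := by
      have h2 := z1_mul hχ g (g⁻¹ * g')
      rw [mul_inv_cancel_left] at h2
      rw [h2]
      ring
    rw [h1, sub_eq_zero, eq_comm]
  refine Finset.prod_nbij (fun i => ((σ ^ i : V) : V ⧸ (mhom χ hχ).ker)) (fun i _ =>
    Finset.mem_univ _) ?_ ?_ ?_
  · intro i hi j hj hij
    have h1 := (key _ _).1 hij
    rw [z1_pow hχ, z1_pow hχ, hσ, mul_one, mul_one, ZMod.natCast_eq_natCast_iff'] at h1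
    rw [Finset.coe_range, Set.mem_Iio] at hi hj
    rwa [Nat.mod_eq_of_lt hi, Nat.mod_eq_of_lt hj] at h1
  · intro q _
    obtain ⟨g, rfl⟩ := QuotientGroup.mk_surjective q
    refine ⟨(χ g).val, ?_, ?_⟩
    · rw [Finset.coe_range, Set.mem_Iio]
      exact ZMod.val_lt _
    · refine (key _ _).2 ?_
      rw [z1_pow hχ, hσ, mul_one, ZMod.natCast_zmod_val]
  · intro i _
    refine e_coset hc ?_
    rw [QuotientGroup.out_eq']

theorem isKum_cor (hζ : IsPrimitiveRoot ζ p) (hFx : Fx e ζ)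
    {χ : V → ZMod p} (hχ : χ ∈ CC.Z1 (1 : V →* ZMod p)) (h0 : χ ≠ 0) (σ : V) (hσ : χ σ = 1)
    {c : PadicAlgCl l} (hc : ∀ h ∈ (mhom χ hχ).ker, e h c = c)
    {a : (mhom χ hχ).ker → ZMod p} (ha : IsKum (e.comp (mhom χ hχ).ker.subtype) ζ c a) :
    IsKum e ζ (∏ i ∈ Finset.range p, e (σ ^ i) c) (cor1 (mhom χ hχ).ker (1 : V →* ZMod p) a) := by
  have hfin : Finite (V ⧸ (mhom χ hχ).ker) := by
    apply Nat.finite_of_card_ne_zero
    have h1 : Nat.card (V ⧸ (mhom χ hχ).ker) = p := mhom_ker_index hχ h0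
    rw [h1]
    exact (Fact.out : p.Prime).ne_zero
  have := Fintype.ofFinite (V ⧸ (mhom χ hχ).ker)
  obtain ⟨w, hw0, hwp, hw⟩ := ha
  rw [prod_coset hχ σ hσ hc]
  refine ⟨∏ q : V ⧸ (mhom χ hχ).ker, e q.out w, ?_, ?_, fun v => ?_⟩
  · rw [Finset.prod_ne_zero_iff]
    intro q _ h
    exact hw0 ((map_eq_zero_iff _ (e q.out).injective).1 h)
  · rw [← Finset.prod_pow]
    refine Finset.prod_congr rfl fun q _ => ?_
    rw [← map_pow, hwp]
  · have h1 : ∀ q : V ⧸ (mhom χ hχ).ker, e v (e q.out w) =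
        ζ ^ (a (hh (mhom χ hχ).ker v q)).val * e (v • q).out w := by
      intro q
      have h2 : v * q.out = (v • q).out * (hh (mhom χ hχ).ker v q : V) := by
        change _ = (v • q).out * (((v • q).out)⁻¹ * (v * q.out))
        rw [mul_inv_cancel_left]
      rw [← AlgEquiv.mul_apply, ← map_mul, h2, map_mul, AlgEquiv.mul_apply]
      have h3 : e (hh (mhom χ hχ).ker v q : V) w =
          ζ ^ (a (hh (mhom χ hχ).ker v q)).val * w := hw (hh (mhom χ hχ).ker v q)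
      rw [h3, map_mul, map_pow, hFx]
    rw [map_prod, Finset.prod_congr rfl fun q _ => h1 q, Finset.prod_mul_distrib,
      prod_pow_val hζ]
    have h4 : ∑ q : V ⧸ (mhom χ hχ).ker, a (hh (mhom χ hχ).ker v q) =
        cor1 (mhom χ hχ).ker (1 : V →* ZMod p) a v := by
      unfold cor1
      rw [finsum_eq_sum_of_fintype]
      refine Finset.sum_congr rfl fun q _ => ?_
      rw [MonoidHom.one_apply, one_mul]
    rw [h4]
    congr 1
    exact Equiv.prod_comp (MulAction.toPerm v : Equiv.Perm (V ⧸ (mhom χ hχ).ker))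
      (fun q => e q.out w)

end Cor

/-! ### the induction -/

section Claim

variable {ζ : PadicAlgCl l}

theorem claim (h1 : StTR.{0}) (h3 : StKum) (h4 : StL1) (h5 : StL3) (h6 : StNT)
    (hl : l ≠ p) (hp2 : p ≠ 2) (hζ : IsPrimitiveRoot ζ p) (m : ℕ) :
    ∀ (V : Type) [Group V] [TopologicalSpace V] [IsTopologicalGroup V] (e : V →* GQ l),
    Topology.IsOpenEmbedding e → Fx e ζ → ∀ z ∈ CC.Z2 (1 : V →* ZMod p), ∀ W : Subgroup V,
    W.Normal → IsOpen (W : Set V) → W.index = p ^ m →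
    (fun a b : W => z a b) ∈ CC.B2 (1 : W →* ZMod p) →
    z ∈ CC.B2 (1 : V →* ZMod p) ∨ ∃ u ∈ CC.Z1 (1 : V →* ZMod p),
      ∃ v ∈ CC.Z1 (1 : V →* ZMod p), z - CC.cup u v ∈ CC.B2 (1 : V →* ZMod p) := by
  have hp : p.Prime := Fact.out
  induction m with
  | zero =>
    intro V _ _ _ e he hFx z hz W _ _ hWi hWz
    rw [pow_zero, Subgroup.index_eq_one] at hWi
    exact Or.inl (b2_of_top hWi hWz)
  | succ m ih =>
    intro V _ _ _ e he hFx z hz W hWn hWo hWi hWz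
    obtain ⟨χ, hχ, h0, hWχ⟩ := exists_char hWn hWo hWi
    obtain ⟨σ, hσ⟩ := exists_eq_one hχ h0
    set H := (mhom χ hχ).ker with hH
    have hHo : IsOpen (H : Set V) := mhom_ker_open hχ
    have hHi : H.index = p := mhom_ker_index hχ h0
    have hfin : Finite (V ⧸ H) := by
      apply Nat.finite_of_card_ne_zero
      have h7 : Nat.card (V ⧸ H) = p := hHi
      rw [h7]
      exact hp.ne_zero
    have hWH : W ≤ H := fun g hg => (mem_mhom_ker χ hχ g).2 (hWχ g hg)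
    have heH : Topology.IsOpenEmbedding (e.comp H.subtype) :=
      he.comp hHo.isOpenEmbedding_subtypeVal
    have hFxH : Fx (e.comp H.subtype) ζ := fun v => hFx v
    have hWi' : (W.subgroupOf H).index = p ^ m := by
      have h7 := Subgroup.relIndex_mul_index hWH
      rw [hHi, hWi, pow_succ] at h7
      exact Nat.eq_of_mul_eq_mul_right hp.pos h7
    have hWo' : IsOpen ((W.subgroupOf H : Subgroup H) : Set H) :=
      hWo.preimage continuous_subtype_val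
    rcases ih H (e.comp H.subtype) heH hFxH (fun a b : H => z a b) (z2_res hz H) (W.subgroupOf H)
      inferInstance hWo' hWi' (b2_subgroupOf hWz H) with hB | ⟨u, hu, v, hv, huv⟩
    · obtain ⟨ψ, hψ, hψB⟩ := h4 ℚ_[l] (PadicAlgCl l) V e he p ζ hζ hFx χ hχ h0 H
        (mem_mhom_ker χ hχ) z hz hB
      exact Or.inr ⟨ψ, hψ, χ, hχ, hψB⟩
    · by_cases hzB : (fun a b : H => z a b) ∈ CC.B2 (1 : H →* ZMod p)
      · obtain ⟨ψ, hψ, hψB⟩ := h4 ℚ_[l] (PadicAlgCl l) V e he p ζ hζ hFx χ hχ h0 H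
          (mem_mhom_ker χ hχ) z hz hzB
        exact Or.inr ⟨ψ, hψ, χ, hχ, hψB⟩
      · exfalso
        have huvn : CC.cup u v ∉ CC.B2 (1 : H →* ZMod p) := by
          intro h
          apply hzB
          have h7 := (CC.B2 (1 : H →* ZMod p)).add_mem huv h
          rwa [sub_add_cancel] at h7
        obtain ⟨Y, ⟨c, hc0, hcH, hcY⟩, hYn⟩ := exists_norm h3 hp2 he hζ hFx hχ h0 σ hσ
        obtain ⟨a, ha, hak⟩ := (h3 ℚ_[l] (PadicAlgCl l) H (e.comp H.subtype) heH p ζ hζ hFxH).1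
          c hc0 (fun h => hcH h h.2)
        have hcor := isKum_cor hζ hFx hχ h0 σ hσ hcH hak
        rw [hcY] at hcor
        obtain ⟨t1, t2, t3, t4, t5⟩ := h1 V H hHo hfin (ZMod p) (1 : V →* ZMod p)
          continuous_const
        have hone : (1 : V →* ZMod p).comp H.subtype = 1 := by ext; rfl
        rw [hone] at t1 t2 t3 t5
        have hcor1 : cor1 H (1 : V →* ZMod p) a ∈ CC.Z1 (1 : V →* ZMod p) := t1 a ha
        have hcor0 : cor1 H (1 : V →* ZMod p) a ≠ 0 := by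
          intro h
          exact hYn (((h3 ℚ_[l] (PadicAlgCl l) V e he p ζ hζ hFx).2.2.2.2 _ _ hcor).1 h)
        obtain ⟨b, hb, hbn⟩ := nonDeg h3 h5 h6 hl he hζ hFx _ hcor1 hcor0
        have hbn' : CC.cup (cor1 H (1 : V →* ZMod p) a) b ∉ CC.B2 (1 : V →* ZMod p) :=
          fun h => hbn (cup_comm_mem hcor1 hb h)
        have t5' := t5 a ha b hb
        obtain ⟨t, ht⟩ := line_cup h3 h5 h6 hl heH hζ hFxH hu hv ha (z1_res hb H) huvn
        -- `cup a b` is a multiple of `z` on `H`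
        have h7 : CC.cup a (fun x : H => b x) - t • (fun a b : H => z a b) ∈
            CC.B2 (1 : H →* ZMod p) := by
          have h8 := (CC.B2 (1 : H →* ZMod p)).sub_mem ht
            ((CC.B2 (1 : H →* ZMod p)).smul_mem t huv)
          convert h8 using 1
          rw [smul_sub]
          abel
        have h9 := t3 _ h7
        rw [cor2_sub, cor2_smul] at h9
        have h10 := t4 z hz
        rw [hHi, CharP.cast_eq_zero, zero_smul, sub_zero] at h10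
        have h11 := (CC.B2 (1 : V →* ZMod p)).add_mem h9
          ((CC.B2 (1 : V →* ZMod p)).smul_mem t h10)
        rw [sub_add_cancel] at h11
        apply hbn'
        have h12 := (CC.B2 (1 : V →* ZMod p)).sub_mem h11 t5'
        rwa [sub_sub_cancel] at h12

end Claim
end BKLoc2.CHTAux

namespace BKLoc2

open BKOdd BKOdd.Chain

/-- Module CHT. -/
theorem stChT (h6 : StNT) : StChT := by
  intro p l _ _ hp2 hl V _ _ _ e he ζ hζ hFx
  have h3 : StKum := stKum stH90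
  have h4 : StL1 := stL1 stH90 h3
  have h5 : StL3 := stL3 stH90 h3
  refine ⟨?_, CHTAux.nonDeg h3 h5 h6 hl he hζ hFx⟩
  intro z hz z' hz' ⟨W, hWn, hWo, ⟨m, hm⟩, hWB⟩ ⟨W', hWn', hWo', ⟨m', hm'⟩, hWB'⟩ hzn
  rcases CHTAux.claim stTR h3 h4 h5 h6 hl hp2 hζ m V e he hFx z hz W hWn hWo hm hWB with
    h | ⟨u, hu, v, hv, huv⟩
  · exact absurd h hzn
  rcases CHTAux.claim stTR h3 h4 h5 h6 hl hp2 hζ m' V e he hFx z' hz' W' hWn' hWo' hm' hWB' with
    h | ⟨u', hu', v', hv', huv'⟩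
  · exact ⟨0, by rwa [zero_smul, sub_zero]⟩
  have huvn : CC.cup u v ∉ CC.B2 (1 : V →* ZMod p) := by
    intro h
    apply hzn
    have h7 := (CC.B2 (1 : V →* ZMod p)).add_mem huv h
    rwa [sub_add_cancel] at h7
  obtain ⟨a, ha⟩ := CHTAux.line_cup h3 h5 h6 hl he hζ hFx hu hv hu' hv' huvn
  refine ⟨a, ?_⟩
  have h8 := (CC.B2 (1 : V →* ZMod p)).sub_mem ((CC.B2 (1 : V →* ZMod p)).add_mem huv' ha)
    ((CC.B2 (1 : V →* ZMod p)).smul_mem a huv)
  convert h8 using 1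
  rw [smul_sub]
  abel

end BKLoc2
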