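import Pool.Agent.Lib.MP_7c08ba_nt.Met.LInvL

set_option autoImplicit false

/-! Parity without rigidity, local part: places of higher degree. -/

noncomputable section

namespace BKLoc2

open BKOdd
open BKMet (QZ actA)

namespace InvVAux

variable {p l : ℕ} [Fact p.Prime] [Fact l.Prime]

theorem compact (l : ℕ) [Fact l.Prime] : CompactSpace (GQ l) := inferInstance

/-- the product over the cosets is an `l`-adic number -/
theorem exists_norm (U : Subgroup (GQ l)) (hU : IsOpen (U : Set (GQ l))) (c : PadicAlgCl l)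
    (hc : c ≠ 0) (hcU : ∀ u ∈ U, u c = c) :
    ∃ x : ℚ_[l]ˣ, algebraMap ℚ_[l] (PadicAlgCl l) (x : ℚ_[l]) = ∏ᶠ q : GQ l ⧸ U, q.out c := by
  have hfin : Finite (GQ l ⧸ U) := U.quotient_finite_of_isOpen hU
  have hF : Fintype (GQ l ⧸ U) := Fintype.ofFinite _
  have hN : (∏ᶠ q : GQ l ⧸ U, q.out c) ∈ (⊥ : IntermediateField ℚ_[l] (PadicAlgCl l)) := by
    rw [InfiniteGalois.mem_bot_iff_fixed]
    intro g
    rw [finprod_eq_prod_of_fintype, map_prod]
    rw [← Equiv.prod_comp (MulAction.toPerm g : Equiv.Perm (GQ l ⧸ U)) (fun q => q.out c)]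
    refine Finset.prod_congr rfl fun q _ => ?_
    have h1 : (QuotientGroup.mk ((g • q).out) : GQ l ⧸ U) = QuotientGroup.mk (g * q.out) := by
      rw [QuotientGroup.out_eq']
      conv_lhs => rw [← QuotientGroup.out_eq' q]
      rfl
    rw [QuotientGroup.eq] at h1
    have h2 := hcU _ h1
    have h3 : (g * q.out) c = (g • q).out c := by
      have h4 := congrArg ((g • q).out : GQ l) h2
      rw [← AlgEquiv.mul_apply, mul_inv_cancel_left] at h4
      exact h4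
    exact h3
  rw [IntermediateField.mem_bot] at hN
  obtain ⟨a, ha⟩ := hN
  have ha0 : a ≠ 0 := by
    rintro rfl
    rw [map_zero, finprod_eq_prod_of_fintype, eq_comm, Finset.prod_eq_zero_iff] at ha
    obtain ⟨q, -, hq⟩ := ha
    exact hc ((map_eq_zero_iff _ (AlgEquiv.injective _)).1 hq)
  exact ⟨Units.mk0 a ha0, ha⟩

theorem key (h1 : StCrN) (h6 : StKPE) {lam : ℤ_[p]ˣ → ℤ_[p]} (hlam : IsLam lam)
    (z : ℕ → PadicAlgCl l) (hz : Sys p z) (U : Subgroup (GQ l)) (hU : IsOpen (U : Set (GQ l)))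
    (c : PadicAlgCl l) (hc : c ≠ 0) (hcU : ∀ u ∈ U, u c = c) (μ : U → ℤ_[p])
    (hμ : IsKP U.subtype z c μ) (m : ℕ)
    (hs : sc μ (fun u => lam (cyL p l u)) m ∈ BKND.B2 (actA ((cyL p l).comp U.subtype))) :
    ∃ x : ℚ_[l]ˣ, algebraMap ℚ_[l] (PadicAlgCl l) (x : ℚ_[l]) = ∏ᶠ q : GQ l ⧸ U, q.out c ∧
      ∀ κ : GQ l → ℤ_[p], IsKP (MonoidHom.id (GQ l)) z
        (algebraMap ℚ_[l] (PadicAlgCl l) (x : ℚ_[l])) κ →
        sc κ (fun g => lam (cyL p l g)) m ∈ BKND.B2 (actA (cyL p l)) := by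
  obtain ⟨x, hx⟩ := exists_norm U hU c hc hcU
  refine ⟨x, hx, fun κ hκ => ?_⟩
  have hna := InvLAux.nonarch l
  exact h1 p ℚ_[l] (PadicAlgCl l) (GQ l) (MonoidHom.id (GQ l)) Topology.IsOpenEmbedding.id z hz
    U hU c hc hcU _ hx _ (InvLAux.isHom hlam h6 z hz) m κ hκ μ hμ hs

end InvVAux

open InvVAux InvLAux

/-- Module INVV. -/
theorem stInvV (h1 : StCrN) (h2 : StRLa) (h3 : StRLb) (h4 : StRPa) (h5 : StRPb) (h6 : StKPE)
    (h7 : StSC) (_h8 : StLam) : StInvV := by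
  refine ⟨?_, ?_⟩
  · intro p l _ _ hp hl lam hlam u hu z hz U hU c hc hcU μ hμ m hs
    obtain ⟨x, hx, hk⟩ := key h1 h6 hlam z hz U hU c hc hcU μ hμ m hs
    refine ⟨x, Units.ne_zero x, hx, ?_⟩
    have hθ := isHom (l := l) hlam h6 z hz
    obtain ⟨Ψ, hΨ, hex, hΨp, hΨ0⟩ := psi h6 h7 z hz _ hθ
    have hl0 : (l : ℚ_[l]) ≠ 0 := by exact_mod_cast (Fact.out : l.Prime).ne_zero
    have hL : ∀ m, Ψ m (Additive.ofMul (Units.mk0 (l : ℚ_[l]) hl0)) = 0 ↔
        (p : ℤ_[p]) ^ m ∣ lam u := by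
      intro m
      obtain ⟨κ, hκ⟩ := hex (Units.mk0 (l : ℚ_[l]) hl0)
      rw [← (hΨ _ κ hκ m).2, QuotientAddGroup.eq_zero_iff]
      refine h3 p l hp hl lam hlam u hu z hz κ ?_ m
      simpa using hκ
    have hU' : ∀ (x : ℚ_[l]ˣ), ‖(x : ℚ_[l])‖ = 1 → ∀ m, Ψ m (Additive.ofMul x) = 0 := by
      intro x hx m
      obtain ⟨κ, hκ⟩ := hex x
      rw [← (hΨ _ κ hκ m).2, QuotientAddGroup.eq_zero_iff]
      exact h2 p l hl z hz _ hx κ hκ _ hθ m
    have hx0 : Ψ m (Additive.ofMul x) = 0 := by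
      obtain ⟨κ, hκ⟩ := hex x
      rw [← (hΨ _ κ hκ m).2, QuotientAddGroup.eq_zero_iff]
      exact hk κ hκ
    set i := ((x : ℚ_[l]ˣ) : ℚ_[l]).valuation with hi
    have e1 : x = (x * (Units.mk0 (l : ℚ_[l]) hl0) ^ (-i)) * (Units.mk0 (l : ℚ_[l]) hl0) ^ i := by
      rw [mul_assoc, ← zpow_add]
      simp
    have e2 : Ψ m (Additive.ofMul x) =
        i • Ψ m (Additive.ofMul (Units.mk0 (l : ℚ_[l]) hl0)) := by
      conv_lhs => rw [e1]
      rw [ofMul_mul, map_add, hU', zero_add, ofMul_zpow, map_zsmul]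
      rw [Units.val_mul, norm_mul, Padic.norm_eq_zpow_neg_valuation (Units.ne_zero x)]
      simp only [Units.val_zpow_eq_zpow_val, Units.val_mk0, norm_zpow, Padic.norm_p, ← hi]
      rw [inv_zpow', neg_neg, ← zpow_add₀ (by exact_mod_cast (Fact.out : l.Prime).ne_zero)]
      simp
    rw [e2, smul_iff (fun m => Ψ m (Additive.ofMul (Units.mk0 (l : ℚ_[l]) hl0))) (hΨ0 _)
      (fun m => hΨp m _) (lam u) hL i m] at hx0
    exact hx0
  · intro p _ hp lam hlam z hz U hU c hc hcU μ hμ m hs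
    obtain ⟨x, hx, hk⟩ := key h1 h6 hlam z hz U hU c hc hcU μ hμ m hs
    have hθ := isHom (l := p) hlam h6 z hz
    obtain ⟨Ψ, hΨ, hex, hΨp, hΨ0⟩ := psi h6 h7 z hz _ hθ
    have hp0 : (p : ℚ_[p]) ≠ 0 := by exact_mod_cast (Fact.out : p.Prime).ne_zero
    have hp0' : (p : ℝ) ≠ 0 := by exact_mod_cast (Fact.out : p.Prime).ne_zero
    have hP : ∀ m, Ψ m (Additive.ofMul (Units.mk0 (p : ℚ_[p]) hp0)) = 0 := by
      intro m
      obtain ⟨κ, hκ⟩ := hex (Units.mk0 (p : ℚ_[p]) hp0)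
      rw [← (hΨ _ κ hκ m).2, QuotientAddGroup.eq_zero_iff]
      refine h4 p hp lam hlam z hz κ ?_ m
      simpa using hκ
    have hup : ‖((x : ℚ_[p]) * (p : ℚ_[p]) ^ (-(x : ℚ_[p]).valuation))‖ = 1 := by
      rw [norm_mul, Padic.norm_eq_zpow_neg_valuation (Units.ne_zero x), norm_zpow, Padic.norm_p,
        inv_zpow', neg_neg, ← zpow_add₀ hp0']
      simp
    have hupv : (((PadicInt.mkUnits hup : ℤ_[p]ˣ) : ℤ_[p]) : ℚ_[p]) =
        (x : ℚ_[p]) * (p : ℚ_[p]) ^ (-(x : ℚ_[p]).valuation) := rfl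
    refine ⟨PadicInt.mkUnits hup, (x : ℚ_[p]).valuation, ?_, ?_⟩
    · rw [← hx, hupv, mul_assoc, ← zpow_add₀ hp0]
      simp
    · have hx0 : Ψ m (Additive.ofMul x) = 0 := by
        obtain ⟨κ, hκ⟩ := hex x
        rw [← (hΨ _ κ hκ m).2, QuotientAddGroup.eq_zero_iff]
        exact hk κ hκ
      set i := ((x : ℚ_[p]ˣ) : ℚ_[p]).valuation with hi
      have e1 : x = (x * (Units.mk0 (p : ℚ_[p]) hp0) ^ (-i)) *
          (Units.mk0 (p : ℚ_[p]) hp0) ^ i := by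
        rw [mul_assoc, ← zpow_add]
        simp
      have e2 : Ψ m (Additive.ofMul x) =
          Ψ m (Additive.ofMul (x * (Units.mk0 (p : ℚ_[p]) hp0) ^ (-i))) := by
        conv_lhs => rw [e1]
        rw [ofMul_mul, map_add, ofMul_zpow i (Units.mk0 (p : ℚ_[p]) hp0), map_zsmul, hP,
          smul_zero, add_zero]
      obtain ⟨κ, hκ⟩ := hex (x * (Units.mk0 (p : ℚ_[p]) hp0) ^ (-i))
      rw [e2, ← (hΨ _ κ hκ m).2, QuotientAddGroup.eq_zero_iff] at hx0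
      refine (h5 p hp lam hlam z hz _ κ ?_ m).1 hx0
      rw [hupv]
      simpa using hκ

end BKLoc2
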