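import Pool.Agent.Lib.MP_7c08ba_nt.Met.StL
import Pool.Agent.Lib.MP_7c08ba_nt.Met.XCT
import Pool.Agent.Lib.MP_7c08ba_nt.Met.XLINEB

set_option autoImplicit false

/-!
Metabolic parity, part L, module LE: the number of local cocycles, by devissage.
-/

noncomputable section

namespace BKMet

open BKPar (Loc1 Loc2)
open BKND (Sm)

namespace LLE

/-! ### Indices -/

/-- the index of the kernel of an additive function -/
theorem relIndex_eq {V W : Type*} [AddCommGroup V] [AddCommGroup W] (K Z : AddSubgroup V)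
    (Y : AddSubgroup W) (F : V → W) (hadd : ∀ x ∈ Z, ∀ y ∈ Z, F (x + y) = F x + F y)
    (hmap : ∀ x ∈ Z, F x ∈ Y) (hsurj : ∀ y ∈ Y, ∃ x ∈ Z, F x = y)
    (hker : ∀ x ∈ Z, F x = 0 ↔ x ∈ K) : K.relIndex Z = Nat.card Y := by
  let Φ : Z →+ Y := AddMonoidHom.mk' (fun x => ⟨F x, hmap x x.2⟩) fun x y =>
    Subtype.ext (hadd x x.2 y y.2)
  have hk : K.addSubgroupOf Z = Φ.ker := by
    ext x
    rw [AddSubgroup.mem_addSubgroupOf, AddMonoidHom.mem_ker, ← hker x x.2]
    exact (Subtype.ext_iff (a1 := Φ x) (a2 := 0)).symm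
  have hr : Φ.range = ⊤ := by
    refine AddMonoidHom.range_eq_top.2 fun y => ?_
    obtain ⟨x, hx, e⟩ := hsurj y y.2
    exact ⟨⟨x, hx⟩, Subtype.ext e⟩
  rw [AddSubgroup.relIndex, hk, AddSubgroup.index_ker, hr]
  exact AddSubgroup.card_top

/-! ### Cocycles and invariants of subquotients -/

section Defs

variable {R : Type} [CommRing R] {p : ℕ} [Fact p.Prime] {D : Type} [Group D] [TopologicalSpace D]
  {α : D →* AddMonoid.End (QZ p)} {M M' : Type} [AddCommGroup M] [Module R M]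
  [AddCommGroup M'] [Module R M'] (X : Pair R α M M')

/-- smooth functions with values in `P` -/
def Kc (D : Type) [Group D] [TopologicalSpace D] (P : Submodule R M) : AddSubgroup (D → M) where
  carrier := {f | Loc1 f ∧ ∀ g, f g ∈ P}
  add_mem' := by
    rintro x y ⟨hx, hx1⟩ ⟨hy, hy1⟩
    exact ⟨BKND.Loc1.map2 hx hy (· + ·), fun g => P.add_mem (hx1 g) (hy1 g)⟩
  zero_mem' := ⟨BKND.Loc1.const 0, fun g => P.zero_mem⟩
  neg_mem' := by
    rintro x ⟨hx, hx1⟩
    exact ⟨BKND.Loc1.map hx (fun x => -x), fun g => P.neg_mem (hx1 g)⟩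

/-- smooth functions with values in `Q` which are cocycles modulo `P` -/
def Zc (P Q : Submodule R M) : AddSubgroup (D → M) where
  carrier := {f | Loc1 f ∧ (∀ g, f g ∈ Q) ∧ ∀ g h, d1 X.ρ f g h ∈ P}
  add_mem' := by
    rintro x y ⟨hx, hx1, hx2⟩ ⟨hy, hy1, hy2⟩
    refine ⟨BKND.Loc1.map2 hx hy (· + ·), fun g => Q.add_mem (hx1 g) (hy1 g), fun g h => ?_⟩
    rw [XCT.d1_add]
    exact P.add_mem (hx2 g h) (hy2 g h)
  zero_mem' := by
    refine ⟨BKND.Loc1.const 0, fun g => Q.zero_mem, fun g h => ?_⟩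
    have e : d1 X.ρ (0 : D → M) g h = 0 := by simp [d1]
    rw [e]
    exact P.zero_mem
  neg_mem' := by
    rintro x ⟨hx, hx1, hx2⟩
    refine ⟨BKND.Loc1.map hx (fun x => -x), fun g => Q.neg_mem (hx1 g), fun g h => ?_⟩
    have e : d1 X.ρ (-x) g h = - d1 X.ρ x g h := by
      simp only [d1, Pi.neg_apply, map_neg]
      abel
    rw [e]
    exact P.neg_mem (hx2 g h)

/-- elements of the annihilator of `P` which are invariant modulo the annihilator of `Q` -/
def Hc (P Q : Submodule R M) : AddSubgroup M' where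
  carrier := {m | m ∈ X.perp P ∧ ∀ g, d0 X.ρ' m g ∈ X.perp Q}
  add_mem' := by
    rintro x y ⟨hx, hx1⟩ ⟨hy, hy1⟩
    refine ⟨add_mem hx hy, fun g => ?_⟩
    have e : d0 X.ρ' (x + y) g = d0 X.ρ' x g + d0 X.ρ' y g := by
      simp only [d0, map_add]
      abel
    rw [e]
    exact add_mem (hx1 g) (hy1 g)
  zero_mem' := by
    refine ⟨zero_mem _, fun g => ?_⟩
    have e : d0 X.ρ' (0 : M') g = 0 := by simp [d0]
    rw [e]
    exact zero_mem _
  neg_mem' := by
    rintro x ⟨hx, hx1⟩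
    refine ⟨neg_mem hx, fun g => ?_⟩
    have e : d0 X.ρ' (-x) g = - d0 X.ρ' x g := by
      simp only [d0, map_neg]
      abel
    rw [e]
    exact neg_mem (hx1 g)

theorem d1_stable {P : Submodule R M} (hP : X.Stable P) {f : D → M} (h : ∀ g, f g ∈ P) (g h' : D) :
    d1 X.ρ f g h' ∈ P :=
  P.add_mem (P.sub_mem (hP g _ (h h')) (h _)) (h g)

theorem Kc_le {P Q : Submodule R M} (hP : X.Stable P) (h : P ≤ Q) : Kc D P ≤ Zc X P Q :=
  fun _ hf => ⟨hf.1, fun g => h (hf.2 g), d1_stable X hP hf.2⟩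

theorem Zc_le {P N Q : Submodule R M} (h : P ≤ N) : Zc X P Q ≤ Zc X N Q :=
  fun _ hf => ⟨hf.1, hf.2.1, fun g g' => h (hf.2.2 g g')⟩

theorem inf_Kc {P N Q : Submodule R M} (h : N ≤ Q) : Kc D N ⊓ Zc X P Q = Zc X P N := by
  ext f
  constructor
  · rintro ⟨⟨h1, h2⟩, -, -, h3⟩
    exact ⟨h1, h2, h3⟩
  · rintro ⟨h1, h2, h3⟩
    exact ⟨⟨h1, h2⟩, h1, fun g => h (h2 g), h3⟩

theorem perp_anti {P Q : Submodule R M} (h : P ≤ Q) : X.perp Q ≤ X.perp P :=
  fun _ hm n hn => hm n (h hn)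

theorem perp_stable {N : Submodule R M} (hN : X.Stable N) : X.flip.Stable (X.perp N) := by
  intro g m' hm n hn
  have e := X.eqv g (X.ρ g⁻¹ n) m'
  rw [← XCT.act_mul, mul_inv_cancel, map_one, AddMonoid.End.one_apply] at e
  refine e.trans ?_
  rw [hm _ (hN _ _ hn), map_zero]

theorem perp_le_Hc {P Q : Submodule R M} (hQ : X.Stable Q) (h : P ≤ Q) :
    (X.perp Q).toAddSubgroup ≤ Hc X P Q :=
  fun m hm => ⟨perp_anti X h hm, fun g => sub_mem (perp_stable X hQ g m hm) hm⟩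

theorem Hc_le {P N Q : Submodule R M} (h : N ≤ Q) : Hc X P Q ≤ Hc X P N :=
  fun _ hm => ⟨hm.1, fun g => perp_anti X h (hm.2 g)⟩

theorem inf_Hc {P N Q : Submodule R M} (h : P ≤ N) :
    (X.perp N).toAddSubgroup ⊓ Hc X P Q = Hc X N Q := by
  ext m
  constructor
  · rintro ⟨h1, -, h2⟩
    exact ⟨h1, h2⟩
  · rintro ⟨h1, h2⟩
    exact ⟨h1, perp_anti X h h1, h2⟩

/-! ### Multiplicativity -/

theorem z1_mul {P N Q : Submodule R M} (hP : X.Stable P) (h1 : P ≤ N) (h2 : N ≤ Q) :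
    (Kc D P).relIndex (Zc X P Q) = (Kc D P).relIndex (Zc X P N) *
      (Kc D N).relIndex (Zc X P Q) := by
  rw [← AddSubgroup.inf_relIndex_right (Kc D N), inf_Kc X h2]
  refine (AddSubgroup.relIndex_mul_relIndex _ _ _ (Kc_le X hP h1) ?_).symm
  rw [← inf_Kc X h2]
  exact inf_le_right

theorem z1_mul' {P N Q : Submodule R M} (hN : X.Stable N) (h1 : P ≤ N) (h2 : N ≤ Q) :
    (Kc D N).relIndex (Zc X N Q) = (Kc D N).relIndex (Zc X P Q) *
      (Zc X P Q ⊔ Kc D N).relIndex (Zc X N Q) := by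
  rw [← AddSubgroup.relIndex_sup_right (Zc X P Q) (Kc D N)]
  exact (AddSubgroup.relIndex_mul_relIndex _ _ _ le_sup_right
    (sup_le (Zc_le X h1) (Kc_le X hN h2))).symm

theorem h0_mul {P N Q : Submodule R M} (hQ : X.Stable Q) (h1 : P ≤ N) (h2 : N ≤ Q) :
    (X.perp Q).toAddSubgroup.relIndex (Hc X P Q) = (X.perp Q).toAddSubgroup.relIndex (Hc X N Q) *
      (X.perp N).toAddSubgroup.relIndex (Hc X P Q) := by
  rw [← AddSubgroup.inf_relIndex_right (X.perp N).toAddSubgroup, inf_Hc X h1]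
  refine (AddSubgroup.relIndex_mul_relIndex _ _ _ (perp_le_Hc X hQ h2) ?_).symm
  rw [← inf_Hc X h1]
  exact inf_le_right

theorem h0_mul' {P N Q : Submodule R M} (hN : X.Stable N) (h1 : P ≤ N) (h2 : N ≤ Q) :
    (X.perp N).toAddSubgroup.relIndex (Hc X P N) = (X.perp N).toAddSubgroup.relIndex (Hc X P Q) *
      (Hc X P Q ⊔ (X.perp N).toAddSubgroup).relIndex (Hc X P N) := by
  rw [← AddSubgroup.relIndex_sup_right (Hc X P Q) (X.perp N).toAddSubgroup]
  exact (AddSubgroup.relIndex_mul_relIndex _ _ _ le_sup_right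
    (sup_le (Hc_le X h2) (perp_le_Hc X hN h1))).symm

/-! ### One dimensional subquotients -/

variable {P N : Submodule R M} {k : Type} [Field k] {ψ ψ' : D →* kˣ} {lam : k →+ QZ p}
  {φ : M → k} {φ' : M' → k}

theorem zero_of (hL : IsLine X P N k ψ ψ' lam φ φ') : φ 0 = 0 :=
  (hL.ker 0 N.zero_mem).2 P.zero_mem

theorem sub_of (hL : IsLine X P N k ψ ψ' lam φ φ') {x y : M} (hx : x ∈ N) (hy : y ∈ N) :
    φ (x - y) = φ x - φ y := by
  have e := hL.add (x - y) (N.sub_mem hx hy) y hy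
  rw [sub_add_cancel] at e
  rw [e, add_sub_cancel_right]

theorem sub_of' (hL : IsLine X P N k ψ ψ' lam φ φ') {x y : M'} (hx : x ∈ X.perp P)
    (hy : y ∈ X.perp P) : φ' (x - y) = φ' x - φ' y := by
  have e := hL.add' (x - y) (sub_mem hx hy) y hy
  rw [sub_add_cancel] at e
  rw [e, add_sub_cancel_right]

theorem d1_of (hN : X.Stable N) (hL : IsLine X P N k ψ ψ' lam φ φ') {f : D → M}
    (hf : ∀ g, f g ∈ N) (g h : D) :
    φ (d1 X.ρ f g h) = ((ψ g : kˣ) : k) * φ (f h) - φ (f (g * h)) + φ (f g) := by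
  rw [d1, hL.add _ (N.sub_mem (hN g _ (hf h)) (hf _)) _ (hf g),
    sub_of X hL (hN g _ (hf h)) (hf _), hL.act g _ (hf h)]

theorem line_z1 (hN : X.Stable N) (hL : IsLine X P N k ψ ψ' lam φ φ') :
    (Kc D P).relIndex (Zc X P N) = Nat.card (BKND.Z1 (kch ψ)) := by
  refine relIndex_eq _ _ _ (fun f g => φ (f g)) (fun x hx y hy => ?_) (fun x hx => ?_)
    (fun a ha => ?_) (fun x hx => ?_)
  · funext g
    exact hL.add _ (hx.2.1 g) _ (hy.2.1 g)
  · refine ⟨BKND.Loc1.map hx.1 φ, fun g h => ?_⟩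
    have e := (hL.ker _ (d1_stable X hN hx.2.1 g h)).2 (hx.2.2 g h)
    rw [d1_of X hN hL hx.2.1] at e
    rw [kch_apply]
    linear_combination (-1 : k) * e
  · choose s hs hs' using hL.surj
    refine ⟨fun g => s (a g), ⟨BKND.Loc1.map ha.1 s, fun g => hs _, fun g h => ?_⟩, ?_⟩
    · rw [← hL.ker _ (d1_stable X hN (fun g => hs (a g)) g h),
        d1_of X hN hL (fun g => hs (a g)), hs', hs', hs']
      have e := ha.2 g h
      rw [kch_apply] at e
      linear_combination (-1 : k) * e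
    · funext g
      exact hs' _
  · constructor
    · intro h
      exact ⟨hx.1, fun g => (hL.ker _ (hx.2.1 g)).1 (congrFun h g)⟩
    · intro h
      funext g
      exact (hL.ker _ (hx.2.1 g)).2 (h.2 g)

theorem line_h0 (hP : X.Stable P) (hL : IsLine X P N k ψ ψ' lam φ φ') :
    (X.perp N).toAddSubgroup.relIndex (Hc X P N) = Nat.card (BKND.H0 (kch ψ')) := by
  refine relIndex_eq _ _ _ φ' (fun x hx y hy => hL.add' _ hx.1 _ hy.1) (fun x hx g => ?_)
    (fun a ha => ?_) (fun x hx => hL.ker' x hx.1)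
  · have hg : X.ρ' g x ∈ X.perp P := perp_stable X hP g x hx.1
    have e := (hL.ker' _ (sub_mem hg hx.1)).2 (hx.2 g)
    rw [sub_of' X hL hg hx.1, hL.act' g _ hx.1, sub_eq_zero] at e
    exact e
  · obtain ⟨x, hx, e⟩ := hL.surj' a
    refine ⟨x, ⟨hx, fun g => ?_⟩, e⟩
    have hg : X.ρ' g x ∈ X.perp P := perp_stable X hP g x hx
    refine (hL.ker' _ (sub_mem hg hx)).1 ?_
    rw [sub_of' X hL hg hx, hL.act' g _ hx, e, sub_eq_zero]
    exact ha g

theorem line_card (hL : IsLine X P N k ψ ψ' lam φ φ') :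
    P.toAddSubgroup.relIndex N.toAddSubgroup = Nat.card k := by
  rw [← AddSubgroup.card_top (G := k)]
  refine relIndex_eq _ _ _ φ (fun x hx y hy => hL.add _ hx _ hy) (fun x hx => AddSubgroup.mem_top _)
    (fun a _ => hL.surj a) (fun x hx => hL.ker x hx)

end Defs

/-! ### The pairing of cocycles and invariants -/

section Pairing

variable {R : Type} [CommRing R] {p : ℕ} [Fact p.Prime] {D : Type} [Group D] [TopologicalSpace D]
  {χ : D →* ℤ_[p]ˣ} {inv : (D → D → QZ p) →+ QZ p} {δ : ℕ}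
  {M M' : Type} [AddCommGroup M] [Module R M]
  [AddCommGroup M'] [Module R M'] (X : Pair R (actA χ) M M')

/-- the invariant of a coboundary vanishes -/
theorem inv_zero (hA : LocAx p χ inv δ) {z : D → D → QZ p} (hz : Loc2 z) {β : D → QZ p}
    (hβ : Loc1 β) (h : ∀ g h, z g h = - d1 (actA χ) β g h) : inv z = 0 := by
  have hz' : z = d1 (actA χ) (fun g => - β g) := by
    funext g k
    rw [h]
    simp only [d1, map_neg]
    abel
  refine (hA.inv_eq _ ⟨hz, fun g k l => ?_⟩).2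
    ⟨fun g => - β g, BKND.Loc1.map hβ (fun x => -x), fun g k => ?_⟩
  · rw [hz']
    exact XCT.d2_d1 (actA χ) _ g k l
  · rw [hz']
    rfl

theorem van_K {P N : Submodule R M} (hN : X.Stable N) {f : D → M} (hf : f ∈ Kc D N) {m : M'}
    (hm : m ∈ Hc X P N) : cup11 X.b X.ρ' f (d0 X.ρ' m) = 0 := by
  funext g h
  exact perp_stable X hN g _ (hm.2 h) _ (hf.2 g)

theorem van_Z (hA : LocAx p χ inv δ) {P Q : Submodule R M} (hP : X.Stable P) {f : D → M}
    (hf : f ∈ Zc X P Q) {m : M'} (hm : m ∈ X.perp P) :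
    inv (cup11 X.b X.ρ' f (d0 X.ρ' m)) = 0 := by
  refine inv_zero hA (XCT.loc2_cup11 X.b X.sm' hf.1 (XCT.loc1_d0 X.sm' m))
    (β := fun g => X.b (f g) (X.ρ' g m)) ?_ fun g h => ?_
  · exact BKND.Loc1.map2 hf.1 (XCT.loc1_act X.sm' m) fun x y => X.b x y
  · rw [XCT.d1_pair X.b X.ρ X.ρ' (actA χ) X.eqv]
    have e : cup20 X.b X.ρ' (d1 X.ρ f) m g h = 0 :=
      perp_stable X hP (g * h) m hm _ (hf.2.2 g h)
    rw [e, zero_sub, neg_neg]

/-- the cup product is anticommutative up to coboundaries -/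
theorem comm (hA : LocAx p χ inv δ) {N Q : Submodule R M} (hN : X.Stable N) {f : D → M}
    (hf : f ∈ Zc X N Q) {e : D → M'} (he : Loc1 e) (he1 : ∀ g, e g ∈ X.perp N)
    (he2 : ∀ g h, d1 X.ρ' e g h ∈ X.perp Q) :
    inv (cup11 X.flip.b X.ρ e f) + inv (cup11 X.b X.ρ' f e) = 0 := by
  rw [← map_add]
  refine inv_zero hA ?_ (β := fun g => X.b (f g) (e g)) ?_ fun g h => ?_
  · exact BKND.Loc2.map2 (XCT.loc2_cup11 X.flip.b X.sm he hf.1)
      (XCT.loc2_cup11 X.b X.sm' hf.1 he) (· + ·)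
  · exact BKND.Loc1.map2 hf.1 he fun x y => X.b x y
  · have h1 : X.b (f (g * h)) (d1 X.ρ' e g h) = 0 := he2 g h _ (hf.2.1 _)
    have h2 : X.b (d1 X.ρ f g h) (X.ρ' g (e h) + e g) = 0 :=
      (X.perp N).add_mem (perp_stable X hN g _ (he1 h)) (he1 g) _ (hf.2.2 g h)
    have key : (cup11 X.flip.b X.ρ e f + cup11 X.b X.ρ' f e) g h +
        d1 (actA χ) (fun g => X.b (f g) (e g)) g h =
          X.b (f (g * h)) (d1 X.ρ' e g h) + X.b (d1 X.ρ f g h) (X.ρ' g (e h) + e g) := by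
      change X.b (X.ρ g (f h)) (e g) + X.b (f g) (X.ρ' g (e h)) +
        (actA χ g (X.b (f h) (e h)) - X.b (f (g * h)) (e (g * h)) + X.b (f g) (e g)) = _
      simp only [d1, ← X.eqv, map_add, map_sub, AddMonoidHom.add_apply, AddMonoidHom.sub_apply]
      abel
    rw [h1, h2, add_zero] at key
    exact eq_neg_of_add_eq_zero_left key

/-- functions with trivial invariants against the elements of `Hc` -/
def X1 (inv : (D → D → QZ p) →+ QZ p) (P N Q : Submodule R M) : AddSubgroup (D → M) where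
  carrier := {f | f ∈ Zc X N Q ∧ ∀ m ∈ Hc X P N, inv (cup11 X.b X.ρ' f (d0 X.ρ' m)) = 0}
  add_mem' := by
    rintro x y ⟨hx, hx1⟩ ⟨hy, hy1⟩
    refine ⟨add_mem hx hy, fun m hm => ?_⟩
    have e : cup11 X.b X.ρ' (x + y) (d0 X.ρ' m) =
        cup11 X.b X.ρ' x (d0 X.ρ' m) + cup11 X.b X.ρ' y (d0 X.ρ' m) := by
      funext g h
      simp only [cup11, Pi.add_apply, map_add, AddMonoidHom.add_apply]
    rw [e, map_add, hx1 m hm, hy1 m hm, add_zero]
  zero_mem' := by
    refine ⟨zero_mem _, fun m hm => ?_⟩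
    have e : cup11 X.b X.ρ' (0 : D → M) (d0 X.ρ' m) = 0 := by
      funext g h
      simp only [cup11, Pi.zero_apply, map_zero, AddMonoidHom.zero_apply]
    rw [e, map_zero]
  neg_mem' := by
    rintro x ⟨hx, hx1⟩
    refine ⟨neg_mem hx, fun m hm => ?_⟩
    have e : cup11 X.b X.ρ' (-x) (d0 X.ρ' m) = - cup11 X.b X.ρ' x (d0 X.ρ' m) := by
      funext g h
      simp only [cup11, Pi.neg_apply, map_neg, AddMonoidHom.neg_apply]
    rw [e, map_neg, hx1 m hm, neg_zero]

/-- elements with trivial invariants against the cocycles -/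
def Y1 (inv : (D → D → QZ p) →+ QZ p) (P N Q : Submodule R M) : AddSubgroup M' where
  carrier := {m | m ∈ Hc X P N ∧ ∀ f ∈ Zc X N Q, inv (cup11 X.b X.ρ' f (d0 X.ρ' m)) = 0}
  add_mem' := by
    rintro x y ⟨hx, hx1⟩ ⟨hy, hy1⟩
    refine ⟨add_mem hx hy, fun f hf => ?_⟩
    have e : cup11 X.b X.ρ' f (d0 X.ρ' (x + y)) =
        cup11 X.b X.ρ' f (d0 X.ρ' x) + cup11 X.b X.ρ' f (d0 X.ρ' y) := by
      funext g h
      simp only [cup11, d0, Pi.add_apply, map_add, map_sub]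
      abel
    rw [e, map_add, hx1 f hf, hy1 f hf, add_zero]
  zero_mem' := by
    refine ⟨zero_mem _, fun f hf => ?_⟩
    have e : cup11 X.b X.ρ' f (d0 X.ρ' (0 : M')) = 0 := by
      funext g h
      simp only [cup11, d0, Pi.zero_apply, map_zero, sub_zero]
    rw [e, map_zero]
  neg_mem' := by
    rintro x ⟨hx, hx1⟩
    refine ⟨neg_mem hx, fun f hf => ?_⟩
    have e : cup11 X.b X.ρ' f (d0 X.ρ' (-x)) = - cup11 X.b X.ρ' f (d0 X.ρ' x) := by
      funext g h
      simp only [cup11, d0, Pi.neg_apply, map_neg, map_sub]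
      abel
    rw [e, map_neg, hx1 f hf, neg_zero]

variable [IsTopologicalGroup D] [CompactSpace D]

theorem index_le (h1 : StLAB) (h2 : StDual) (h3 : StPerp) (hA : LocAx p χ inv δ) [Finite M]
    (k : Type) [Field k] [Finite k] [Algebra (ZMod p) k] (U : Subgroup D)
    (hU : IsOpen (U : Set D)) (hL : Lines X k U) (hL' : Lines X.flip k U) {P N Q : Submodule R M}
    (hP : X.Stable P) (hN : X.Stable N) (hQ : X.Stable Q) (h12 : P ≤ N) (h23 : N ≤ Q)
    (hb : (Zc X P Q ⊔ Kc D N).relIndex (Zc X N Q) ≠ 0) :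
    (Hc X P Q ⊔ (X.perp N).toAddSubgroup).relIndex (Hc X P N) ≤
      (Zc X P Q ⊔ Kc D N).relIndex (Zc X N Q) := by
  have hX1 : Zc X P Q ⊔ Kc D N ≤ X1 X inv P N Q := by
    refine sup_le (fun f hf => ⟨Zc_le X h12 hf, fun m hm => van_Z X hA hP hf hm.1⟩)
      (fun f hf => ⟨Kc_le X hN h23 hf, fun m hm => ?_⟩)
    rw [van_K X hN hf hm, map_zero]
  have hY1 : Y1 X inv P N Q ≤ Hc X P Q ⊔ (X.perp N).toAddSubgroup := by
    rintro m ⟨hm, hm1⟩
    obtain ⟨hff, -, -, -, -, hcard⟩ := h3 R p D (actA χ) M M' X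
    have hfin : Finite M' := (hcard inferInstance).1
    have hlab : ∃ m1 ∈ X.perp N, ∀ g, d0 X.ρ' m g - d0 X.ρ' m1 g ∈ X.perp Q := by
      refine (h1 R p D χ inv δ hA M' M X.flip k U hU hL' hL (X.perp Q) (X.perp N)
        (perp_stable X hQ) (perp_stable X hN) (perp_anti X h23)).1 (d0 X.ρ' m)
        (XCT.loc1_d0 X.sm' m) hm.2 (fun g h => ?_) (fun f hf hf1 hf2 => ?_)
      · have e : d1 X.ρ' (d0 X.ρ' m) g h = 0 := XCT.d1_d0 X.ρ' m g h
        change d1 X.ρ' (d0 X.ρ' m) g h ∈ X.perp Q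
        rw [e]
        exact zero_mem _
      · rw [hff] at hf1
        have hfZ : f ∈ Zc X N Q := by
          refine ⟨hf, hf1, fun g h => ?_⟩
          have e := hf2 g h
          rw [hff] at e
          exact e
        have e := comm X hA hN hfZ (XCT.loc1_d0 X.sm' m) hm.2 (fun g h => by
          rw [XCT.d1_d0]
          exact zero_mem _)
        rw [hm1 f hfZ, add_zero] at e
        exact e
    obtain ⟨m1, hm1', hm2⟩ := hlab
    have e : m = (m - m1) + m1 := by abel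
    rw [e]
    refine AddSubgroup.add_mem_sup ⟨?_, fun g => ?_⟩ hm1'
    · exact sub_mem hm.1 (perp_anti X h12 hm1')
    · have e' : d0 X.ρ' (m - m1) g = d0 X.ρ' m g - d0 X.ρ' m1 g := by
        simp only [d0, map_sub]
        abel
      rw [e']
      exact hm2 g
  have hd := (h2 p (D → M) M' (fun f m => inv (cup11 X.b X.ρ' f (d0 X.ρ' m))) (Zc X N Q)
    (X1 X inv P N Q) (Hc X P N) (Y1 X inv P N Q) ?_ ?_ (fun _ h => h.1) (fun _ h => h.1)
    (fun f hf => ⟨fun h => h.2, fun h => ⟨hf, h⟩⟩) (fun m hm => ⟨fun h => h.2, fun h => ⟨hm, h⟩⟩)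
    ?_).1
  · refine Nat.le_of_dvd (Nat.pos_of_ne_zero hb) ?_
    refine (AddSubgroup.relIndex_dvd_of_le_left _ hY1).trans ?_
    rw [hd]
    exact AddSubgroup.relIndex_dvd_of_le_left _ hX1
  · intro x _ y _ m _
    have e : cup11 X.b X.ρ' (x + y) (d0 X.ρ' m) =
        cup11 X.b X.ρ' x (d0 X.ρ' m) + cup11 X.b X.ρ' y (d0 X.ρ' m) := by
      funext g h
      simp only [cup11, Pi.add_apply, map_add, AddMonoidHom.add_apply]
    change inv (cup11 X.b X.ρ' (x + y) (d0 X.ρ' m)) = _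
    rw [e, map_add]
  · intro f _ x _ y _
    have e : cup11 X.b X.ρ' f (d0 X.ρ' (x + y)) =
        cup11 X.b X.ρ' f (d0 X.ρ' x) + cup11 X.b X.ρ' f (d0 X.ρ' y) := by
      funext g h
      simp only [cup11, d0, Pi.add_apply, map_add, map_sub]
      abel
    change inv (cup11 X.b X.ρ' f (d0 X.ρ' (x + y))) = _
    rw [e, map_add]
  · exact fun h => hb (Nat.eq_zero_of_zero_dvd (h ▸ AddSubgroup.relIndex_dvd_of_le_left _ hX1))

theorem main (h1 : StLAB) (h2 : StDual) (h3 : StPerp) (hA : LocAx p χ inv δ) [Finite M]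
    (k : Type) [Field k] [Finite k] [Algebra (ZMod p) k] (U : Subgroup D)
    (hU : IsOpen (U : Set D)) (hL : Lines X k U) (hL' : Lines X.flip k U) {Q : Submodule R M}
    (hQ : X.Stable Q) (P : Submodule R M) : X.Stable P → P ≤ Q →
    (Kc D P).relIndex (Zc X P Q) ≠ 0 ∧
    (Kc D P).relIndex (Zc X P Q) ≤ (X.perp Q).toAddSubgroup.relIndex (Hc X P Q) *
      (P.toAddSubgroup.relIndex Q.toAddSubgroup) ^ (1 + δ) := by
  induction P using WellFoundedGT.induction with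
  | ind P ih =>
  intro hP hPQ
  rcases eq_or_lt_of_le hPQ with rfl | hlt
  · have e1 : (Kc D P).relIndex (Zc X P P) = 1 :=
      AddSubgroup.relIndex_eq_one.2 fun f hf => ⟨hf.1, hf.2.1⟩
    have e2 : (X.perp P).toAddSubgroup.relIndex (Hc X P P) = 1 :=
      AddSubgroup.relIndex_eq_one.2 fun f hf => hf.1
    rw [e1, e2, AddSubgroup.relIndex_self]
    simp
  · obtain ⟨N, hN, hPN, hNQ, ψ, ψ', lam, φ, φ', hψ, hψ', hlam, hl⟩ := hL P Q hP hQ hlt
    have hlt' : P < N := by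
      refine lt_of_le_of_ne hPN fun h => ?_
      obtain ⟨x, hx, e⟩ := hl.surj 1
      rw [← h] at hx
      rw [(hl.ker x (hPN hx)).2 hx] at e
      exact zero_ne_one e
    obtain ⟨i1, i2⟩ := ih N hlt' hN hNQ
    have hrel : Rel χ ψ ψ' := XLINEB.rel_of_line X χ rfl P N hP hN ψ ψ' lam hlam φ φ' hl
    have hc := hA.card k ψ ψ' (XLINEB.sm_kch ψ U hU hψ) (XLINEB.sm_kch ψ' U hU hψ') hrel
    rw [← line_z1 X hN hl, ← line_h0 X hP hl, ← line_card X hl] at hc
    have hk : P.toAddSubgroup.relIndex N.toAddSubgroup ≠ 0 := by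
      rw [line_card X hl]
      exact Nat.card_pos.ne'
    have hh : (X.perp N).toAddSubgroup.relIndex (Hc X P N) ≠ 0 := by
      rw [line_h0 X hP hl]
      exact Nat.card_pos.ne'
    have z1 := z1_mul X hP hPN hNQ
    have z2 := z1_mul' X hN hPN hNQ
    have z3 := h0_mul X hQ hPN hNQ
    have z4 := h0_mul' X hN hPN hNQ
    have z5 : P.toAddSubgroup.relIndex N.toAddSubgroup * N.toAddSubgroup.relIndex Q.toAddSubgroup =
        P.toAddSubgroup.relIndex Q.toAddSubgroup :=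
      AddSubgroup.relIndex_mul_relIndex _ _ _ hPN hNQ
    rw [z2] at i1 i2
    have hb : (Zc X P Q ⊔ Kc D N).relIndex (Zc X N Q) ≠ 0 := right_ne_zero_of_mul i1
    have ha : (Kc D N).relIndex (Zc X P Q) ≠ 0 := left_ne_zero_of_mul i1
    have hle := index_le X h1 h2 h3 hA k U hU hL hL' hP hN hQ hPN hNQ hb
    rw [z1, z3, ← z5, hc]
    refine ⟨mul_ne_zero (mul_ne_zero hh (pow_ne_zero _ hk)) ha, ?_⟩
    rw [z4]
    generalize (Kc D N).relIndex (Zc X P Q) = a at *
    generalize (Zc X P Q ⊔ Kc D N).relIndex (Zc X N Q) = b at *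
    generalize (X.perp N).toAddSubgroup.relIndex (Hc X P Q) = t at *
    generalize (Hc X P Q ⊔ (X.perp N).toAddSubgroup).relIndex (Hc X P N) = c at *
    generalize (X.perp Q).toAddSubgroup.relIndex (Hc X N Q) = h at *
    generalize P.toAddSubgroup.relIndex N.toAddSubgroup = u at *
    generalize N.toAddSubgroup.relIndex Q.toAddSubgroup = v at *
    refine Nat.le_of_mul_le_mul_right ?_ (Nat.pos_of_ne_zero hb)
    calc t * c * u ^ (1 + δ) * a * b = t * c * u ^ (1 + δ) * (a * b) := by ring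
      _ ≤ t * b * u ^ (1 + δ) * (h * v ^ (1 + δ)) := by gcongr
      _ = h * t * (u * v) ^ (1 + δ) * b := by rw [mul_pow]; ring

end Pairing

end LLE

open LLE in
/-- **Module LE** (from LAB, DUAL, PERP): the number of local cocycles. -/
theorem stLE (h1 : StLAB) (h2 : StDual) (h3 : StPerp) : StLE := by
  intro R _ p _ D _ _ _ _ χ inv δ hA M M' _ _ _ _ _ X k _ _ _ U hU hL hL'
  obtain ⟨-, -, htop, hbot, -, -⟩ := h3 R p D (actA χ) M M' X
  obtain ⟨m1, m2⟩ := main X h1 h2 h3 hA k U hU hL hL' (Q := ⊤) (fun _ _ _ => trivial) ⊥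
    (fun g m hm => by
      rw [Submodule.mem_bot] at hm ⊢
      rw [hm, map_zero]) bot_le
  have e1 : (Kc D (⊥ : Submodule R M)).relIndex (Zc X ⊥ ⊤) = Nat.card (BKND.Z1 X.ρ) := by
    refine relIndex_eq _ _ _ (fun f => f) (fun _ _ _ _ => rfl) (fun x hx => ?_)
      (fun y hy => ⟨y, ?_, rfl⟩) (fun x hx => ?_)
    · refine ⟨hx.1, fun g h => ?_⟩
      have e := hx.2.2 g h
      rw [Submodule.mem_bot, d1] at e
      rw [← sub_eq_zero, ← neg_eq_zero, ← e]
      abel
    · refine ⟨hy.1, fun g => trivial, fun g h => ?_⟩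
      rw [Submodule.mem_bot, d1, hy.2 g h]
      abel
    · constructor
      · intro h
        refine ⟨hx.1, fun g => ?_⟩
        rw [Submodule.mem_bot]
        exact congrFun h g
      · intro h
        funext g
        exact (Submodule.mem_bot R).1 (h.2 g)
  have e2 : (X.perp ⊤).toAddSubgroup.relIndex (Hc X ⊥ ⊤) = Nat.card (BKND.H0 X.ρ') := by
    refine relIndex_eq _ _ _ (fun f => f) (fun _ _ _ _ => rfl) (fun x hx g => ?_)
      (fun y hy => ⟨y, ⟨?_, fun g => ?_⟩, rfl⟩) (fun x hx => ?_)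
    · have e := hx.2 g
      rw [htop, Submodule.mem_bot, d0, sub_eq_zero] at e
      exact e
    · rw [hbot]
      trivial
    · rw [htop, Submodule.mem_bot, d0, sub_eq_zero]
      exact hy g
    · rw [htop]
      exact (Submodule.mem_bot R).symm
  have e3 : (⊥ : Submodule R M).toAddSubgroup.relIndex (⊤ : Submodule R M).toAddSubgroup =
      Nat.card M := by
    rw [← AddSubgroup.card_top (G := M)]
    refine relIndex_eq _ _ _ (fun f => f) (fun _ _ _ _ => rfl) (fun x hx => AddSubgroup.mem_top _)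
      (fun y hy => ⟨y, trivial, rfl⟩) (fun x hx => (Submodule.mem_bot R).symm)
  rw [e1, e2, e3] at m2
  rw [e1] at m1
  exact ⟨Nat.finite_of_card_ne_zero m1, m2⟩

end BKMet
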