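import Pool.Agent.Lib.MP_7c08ba_nt.Met.LocStmts
import Pool.Agent.Lib.MP_7c08ba_nt.Odd.Norm

set_option autoImplicit false

/-!
Parity without rigidity, local part, module NT: the norm index in degree `p` over extensions of
`ℚ_l`, `l ≠ p`.
-/

noncomputable section

namespace BKLoc2

open BKOdd BKOdd.NormAux BKGen BKGen.Herb BKGen.NormIdx BKGen.LocalCount Module

namespace NTAux

section

variable (p l : ℕ) [hp : Fact p.Prime] [hl : Fact l.Prime] {E : Type} [NormedField E]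
  [IsUltrametricDist E] [NormedAlgebra ℚ_[l] E] [FiniteDimensional ℚ_[l] E]

/-- the norm index for an automorphism of order `p` -/
theorem relIndex_of (g : E ≃ₐ[ℚ_[l]] E) (hg : orderOf g = p) (U : Subgroup Eˣ)
    (hU : ∀ v : Eˣ, v ∈ U ↔ ‖(v : E) - 1‖ < 1)
    (hS : ∃ S : Set Eˣ, S.Finite ∧ ∀ x : Eˣ, ∃ s ∈ S, ∃ v ∈ U, ∃ m : ℤ, x = s * v * pu l E ^ m)
    (hr : ∀ v ∈ U, ∃ w ∈ U, w ^ p = v) (h1 : ∀ v ∈ U, v ^ p = 1 → v = 1) :
    (Nm (sg g) p).range.relIndex (Dm (sg g)).ker = p := by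
  have hσ : ∀ x : Eˣ, (⇑(sg g))^[p] x = x := by
    intro x
    have := sg_order (g := g) x
    rwa [hg] at this
  have h90 : ∀ x : Eˣ, Nm (sg g) p x = 1 → ∃ y, Dm (sg g) y = x := by
    intro x hx
    rw [← hg] at hx
    exact hilbert x hx
  have hUst : ∀ x ∈ U, sg g x ∈ U := by
    intro x hx
    rw [hU] at hx ⊢
    have e : ((sg g x : Eˣ) : E) - 1 = g ((x : E) - 1) := by
      rw [map_sub, map_one, sg_val]
    rw [e, norm_aut l ℚ_[l] E]
    exact hx
  have hfix : ∀ v ∈ U, sg g v = v → ∃ μ ∈ U, Nm (sg g) p μ = v := fun v hv hf =>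
    fix_eq_norm (fun _ => U) hσ (fun _ => le_rfl) hUst
      (fun _ v hv _ => ⟨1, one_mem _, by rw [map_one, div_one]; exact hv⟩) ⟨0, hr⟩ h1 hv hf
  have hone : ∀ v ∈ U, Nm (sg g) p v = 1 → ∃ μ ∈ U, Dm (sg g) μ = v := fun v hv hf =>
    norm_one_eq (fun _ => U) hσ (fun _ => le_rfl) hUst
      (fun _ v hv _ => ⟨1, one_mem _, by rw [map_one, div_one]; exact hv⟩) ⟨0, hr⟩ h1 hv hf
  -- the group generated by `U` and `l`
  set B : Subgroup Eˣ := U ⊔ Subgroup.zpowers (pu l E) with hB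
  have mem_B : ∀ x : Eˣ, x ∈ B ↔ ∃ v ∈ U, ∃ a : ℤ, v * pu l E ^ a = x := by
    intro x
    rw [hB, Subgroup.mem_sup]
    constructor
    · rintro ⟨v, hv, z, hz, rfl⟩
      obtain ⟨a, rfl⟩ := Subgroup.mem_zpowers_iff.1 hz
      exact ⟨v, hv, a, rfl⟩
    · rintro ⟨v, hv, a, rfl⟩
      exact ⟨v, hv, _, Subgroup.mem_zpowers_iff.2 ⟨a, rfl⟩, rfl⟩
  have hU1 : ∀ v ∈ U, ‖(v : E)‖ = 1 := fun v hv => norm_eq_one_of_sub ((hU v).1 hv)
  have hform : ∀ x ∈ B, ‖(x : E)‖ = 1 → x ∈ U := by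
    intro x hx hx1
    obtain ⟨v, hv, a, rfl⟩ := (mem_B x).1 hx
    rw [Units.val_mul, norm_mul, hU1 v hv, one_mul, Units.val_zpow_eq_zpow_val, norm_zpow] at hx1
    have e : ‖((pu l E : Eˣ) : E)‖ = (l : ℝ)⁻¹ := norm_p l E
    rw [e] at hx1
    have hp1 : (1 : ℝ) < l := by exact_mod_cast hl.out.one_lt
    have ha : a = 0 := by
      rw [inv_zpow', zpow_eq_one_iff_right₀ (by linarith) hp1.ne'] at hx1
      omega
    rwa [ha, zpow_zero, mul_one]
  have hpu : sg g (pu l E) = pu l E := by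
    apply Units.ext
    rw [sg_val]
    change g (l : E) = (l : E)
    exact map_natCast g l
  have hBst : ∀ x ∈ B, sg g x ∈ B := by
    intro x hx
    obtain ⟨v, hv, a, rfl⟩ := (mem_B x).1 hx
    rw [map_mul, map_zpow, hpu]
    exact (mem_B _).2 ⟨_, hUst v hv, a, rfl⟩
  have hBi : B.index ≠ 0 := by
    obtain ⟨S, hS1, hS2⟩ := hS
    have : Finite S := hS1
    have hfin : Finite (Eˣ ⧸ B) := by
      refine Finite.of_surjective (fun s : S => (QuotientGroup.mk (s : Eˣ) : Eˣ ⧸ B)) ?_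
      intro y
      obtain ⟨x, rfl⟩ := QuotientGroup.mk_surjective y
      obtain ⟨s, hs, v, hv, m, hx⟩ := hS2 x
      refine ⟨⟨s, hs⟩, ?_⟩
      change (QuotientGroup.mk s : Eˣ ⧸ B) = QuotientGroup.mk x
      rw [QuotientGroup.eq, hx, mul_assoc, inv_mul_cancel_left]
      exact (mem_B _).2 ⟨v, hv, m, rfl⟩
    exact Subgroup.index_ne_zero_of_finite
  have h1B : ∀ x ∈ B, Nm (sg g) p x = 1 → ∃ y ∈ B, Dm (sg g) y = x := by
    intro x hx hN
    have h2 : ‖(x : E)‖ = 1 := by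
      have h3 := norm_Nm l g x p
      rw [hN, Units.val_one, norm_one] at h3
      exact (pow_eq_one_iff_of_nonneg (norm_nonneg _) hp.out.ne_zero).mp h3.symm
    obtain ⟨y, hy, hy'⟩ := hone x (hform x hx h2) hN
    exact ⟨y, le_sup_left (a := U) hy, hy'⟩
  rw [herbrand hσ B hBst hBi h90 h1B]
  have hUB : U ≤ B := le_sup_left
  have hpB : pu l E ∈ B := (mem_B _).2 ⟨1, one_mem _, 1, by simp⟩
  have hPQ : B.map (Nm (sg g) p) ≤ B ⊓ (Dm (sg g)).ker := by
    rintro _ ⟨y, hy, rfl⟩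
    exact ⟨Nm_mem hBst hy, Dm_Nm hσ y⟩
  rw [relIndex_eq (val l E) hPQ, val_ker]
  have e1 : B.map (Nm (sg g) p) ⊓ un E = (B ⊓ (Dm (sg g)).ker) ⊓ un E := by
    apply le_antisymm
    · exact inf_le_inf_right _ hPQ
    · rintro x ⟨⟨hx1, hx2⟩, hx3⟩
      have hx4 := hform x hx1 hx3
      obtain ⟨μ, hμ, hμ'⟩ := hfix x hx4 (mem_ker_Dm.1 hx2)
      exact ⟨⟨μ, hUB hμ, hμ'⟩, hx3⟩
  rw [e1, Subgroup.relIndex_self, one_mul]
  have hv0 : ∀ v ∈ U, val l E v = 1 := by
    intro v hv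
    have h2 : v ∈ (val l E).ker := by
      rw [val_ker]
      exact hU1 v hv
    exact h2
  have e2 : (B ⊓ (Dm (sg g)).ker).map (val l E) = Subgroup.zpowers (val l E (pu l E)) := by
    apply le_antisymm
    · rintro _ ⟨x, ⟨hx1, hx2⟩, rfl⟩
      obtain ⟨v, hv, a, rfl⟩ := (mem_B x).1 hx1
      rw [map_mul, hv0 v hv, one_mul, map_zpow]
      exact Subgroup.mem_zpowers_iff.2 ⟨a, rfl⟩
    · rw [Subgroup.zpowers_le]
      exact ⟨pu l E, ⟨hpB, mem_ker_Dm.2 hpu⟩, rfl⟩
  have e3 : (B.map (Nm (sg g) p)).map (val l E) = Subgroup.zpowers ((val l E (pu l E)) ^ p) := by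
    apply le_antisymm
    · rintro _ ⟨_, ⟨x, hx, rfl⟩, rfl⟩
      obtain ⟨v, hv, a, rfl⟩ := (mem_B x).1 hx
      rw [map_mul, map_mul, hv0 _ (Nm_mem hUst hv), one_mul, map_zpow, map_zpow,
        Nm_of_fix hpu, map_pow]
      exact Subgroup.mem_zpowers_iff.2 ⟨a, rfl⟩
    · rw [Subgroup.zpowers_le]
      refine ⟨_, ⟨pu l E, hpB, rfl⟩, ?_⟩
      rw [Nm_of_fix hpu, map_pow]
  rw [e2, e3, val_pu]
  apply zpowers_relIndex
  exact_mod_cast (finrank_pos (R := ℚ_[l]) (M := E)).ne'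

end

end NTAux

open NTAux

theorem stNT (h0 : StLsT) : StNT := by
  intro p l hp hl hlp V _ _ _ e he H hn hH hidx σ hσ S T hS hT
  have hfin := finite_EH he hH
  have hord : orderOf (gE (e := e) hn σ) = p := by
    apply orderOf_eq_prime
    · ext x
      rw [gE_pow, AlgEquiv.one_apply]
      have h1 : σ ^ p ∈ H := by
        rw [← hidx]
        exact H.pow_index_mem σ
      exact (mem_EH e H).1 x.2 _ h1
    · intro h
      apply hσ
      have h1 : e σ ∈ (EH e H).fixingSubgroup := by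
        rw [IntermediateField.mem_fixingSubgroup_iff]
        intro x hx
        have h2 := DFunLike.congr_fun h ⟨x, hx⟩
        exact congrArg Subtype.val h2
      rw [fixing_EH he hH] at h1
      obtain ⟨v, hv, hv'⟩ := h1
      rwa [← he.injective hv']
  let f : (EH e H)ˣ →* (PadicAlgCl l)ˣ :=
    Units.map ((EH e H).val.toRingHom : EH e H →* PadicAlgCl l)
  have hf : Function.Injective f := Units.map_injective (EH e H).val.toRingHom.injective
  have hfv : ∀ x : (EH e H)ˣ, ((f x : (PadicAlgCl l)ˣ) : PadicAlgCl l) =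
      ((x : EH e H) : PadicAlgCl l) := fun x => rfl
  have hlift : ∀ Y : (PadicAlgCl l)ˣ, (∀ h ∈ H, e h (Y : PadicAlgCl l) = Y) → ∃ y, f y = Y := by
    intro Y hY
    have h1 : (Y : PadicAlgCl l) ∈ EH e H := (mem_EH e H).2 hY
    have h2 : (⟨Y, h1⟩ : EH e H) ≠ 0 := by
      intro h3
      exact Y.ne_zero (congrArg Subtype.val h3)
    exact ⟨Units.mk0 _ h2, Units.ext rfl⟩
  -- the principal units
  obtain ⟨U, hU, ⟨S₀, hS₀, hS₀'⟩, hUr, hU1⟩ := h0 p l hlp (H.map e) (isOpen_map he hH)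
  have hmap : ∀ y : PadicAlgCl l, (∀ h ∈ H.map e, h y = y) ↔ ∀ h ∈ H, e h y = y := by
    intro y
    constructor
    · intro h v hv
      exact h _ ⟨v, hv, rfl⟩
    · rintro h _ ⟨v, hv, rfl⟩
      exact h v hv
  have hUl : ∀ v ∈ U, ∃ y, f y = v := fun v hv =>
    hlift v ((hmap _).1 ((hU v).1 hv).1)
  have hfx : ∀ x : (EH e H)ˣ, ∀ h ∈ H.map e, h ((f x : (PadicAlgCl l)ˣ) : PadicAlgCl l) =
      ((f x : (PadicAlgCl l)ˣ) : PadicAlgCl l) := by
    intro x
    rw [hmap]
    exact (mem_EH e H).1 (x : EH e H).2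
  have h := relIndex_of p l (gE (e := e) hn σ) hord (U.comap f)
    (by
      intro v
      rw [Subgroup.mem_comap, hU]
      constructor
      · intro h2
        exact h2.2
      · intro h2
        exact ⟨hfx v, h2⟩)
    (by
      refine ⟨f ⁻¹' S₀, hS₀.preimage hf.injOn, fun x => ?_⟩
      obtain ⟨s, hs, v, hv, m, hx⟩ := hS₀' (f x) (hfx x)
      obtain ⟨v', rfl⟩ := hUl v hv
      have hl0 : (l : PadicAlgCl l) ≠ 0 := by
        have := hl.out.ne_zero
        exact_mod_cast this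
      have hs2 : s = f (x * (v' * pu l (EH e H) ^ m)⁻¹) := by
        apply Units.ext
        have h3 : ((f (x * (v' * pu l (EH e H) ^ m)⁻¹) : (PadicAlgCl l)ˣ) : PadicAlgCl l) =
            (f x : PadicAlgCl l) * ((f v' : PadicAlgCl l) * (l : PadicAlgCl l) ^ m)⁻¹ := by
          rw [map_mul, map_inv, map_mul, map_zpow, Units.val_mul, Units.val_inv_eq_inv_val,
            Units.val_mul, Units.val_zpow_eq_zpow_val]
          rfl
        rw [h3, hx]
        have h4 : ((f v' : (PadicAlgCl l)ˣ) : PadicAlgCl l) ≠ 0 := Units.ne_zero _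
        have h5 : (l : PadicAlgCl l) ^ m ≠ 0 := zpow_ne_zero _ hl0
        field_simp
      refine ⟨x * (v' * pu l (EH e H) ^ m)⁻¹, ?_, v', hv, m, ?_⟩
      · change f _ ∈ S₀
        rw [← hs2]
        exact hs
      · rw [mul_assoc, inv_mul_cancel_right])
    (by
      intro v hv
      obtain ⟨w, hw, hw'⟩ := hUr _ hv
      obtain ⟨w', rfl⟩ := hUl w hw
      refine ⟨w', hw, hf ?_⟩
      rw [map_pow, hw'])
    (by
      intro v hv hv'
      apply hf
      rw [map_one]
      apply hU1 _ hv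
      rw [← map_pow, hv', map_one])
  have hSm : S = (Dm (sg (gE (e := e) hn σ))).ker.map f := by
    ext Y
    rw [hS, Subgroup.mem_map]
    constructor
    · intro hY
      obtain ⟨y, rfl⟩ := hlift Y (fun h _ => hY h)
      refine ⟨y, ?_, rfl⟩
      rw [mem_ker_Dm]
      apply Units.ext
      apply Subtype.ext
      exact hY σ
    · rintro ⟨y, hy, rfl⟩
      rw [mem_ker_Dm] at hy
      have hy' : e σ ((y : EH e H) : PadicAlgCl l) = ((y : EH e H) : PadicAlgCl l) :=
        congrArg (fun u : (EH e H)ˣ => ((u : EH e H) : PadicAlgCl l)) hy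
      let K : Subgroup V :=
        { carrier := {v | e v ((y : EH e H) : PadicAlgCl l) = ((y : EH e H) : PadicAlgCl l)}
          one_mem' := by
            change e 1 _ = _
            rw [map_one, AlgEquiv.one_apply]
          mul_mem' := by
            intro a b ha hb
            change e (a * b) _ = _
            have ha' : e a ((y : EH e H) : PadicAlgCl l) = ((y : EH e H) : PadicAlgCl l) := ha
            have hb' : e b ((y : EH e H) : PadicAlgCl l) = ((y : EH e H) : PadicAlgCl l) := hb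
            rw [map_mul, AlgEquiv.mul_apply, hb', ha']
          inv_mem' := by
            intro a ha
            change e a⁻¹ _ = _
            have ha' : e a ((y : EH e H) : PadicAlgCl l) = ((y : EH e H) : PadicAlgCl l) := ha
            conv_lhs => rw [← ha']
            rw [← AlgEquiv.mul_apply, ← map_mul, inv_mul_cancel, map_one, AlgEquiv.one_apply] }
      have hK1 : H ≤ K := fun h hh => (mem_EH e H).1 (y : EH e H).2 h hh
      have hK2 : σ ∈ K := hy'
      have hK3 := Subgroup.relIndex_mul_index hK1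
      rw [hidx] at hK3
      have hK4 : K.index = 1 := by
        rcases (Nat.dvd_prime hp.out).1 (Dvd.intro _ hK3) with h1 | h1
        · exact absurd (Subgroup.relIndex_eq_one.1 h1 hK2) hσ
        · rw [h1] at hK3
          exact Nat.eq_of_mul_eq_mul_left hp.out.pos (hK3.trans (mul_one p).symm)
      have hK5 : K = ⊤ := Subgroup.index_eq_one.1 hK4
      intro v
      have hv : v ∈ K := by
        rw [hK5]
        exact Subgroup.mem_top v
      exact hv
  have hTm : T = (Nm (sg (gE (e := e) hn σ)) p).range.map f := by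
    have hval : ∀ y : (EH e H)ˣ, ((f (Nm (sg (gE (e := e) hn σ)) p y) : (PadicAlgCl l)ˣ) :
        PadicAlgCl l) = ∏ i ∈ Finset.range p, e (σ ^ i) ((y : EH e H) : PadicAlgCl l) := by
      intro y
      rw [Nm_apply, map_prod, Units.coe_prod]
      apply Finset.prod_congr rfl
      intro i _
      rw [hfv, sg_iter, gE_pow]
    ext Y
    rw [hT, Subgroup.mem_map]
    constructor
    · rintro ⟨c, hc0, hc, hY⟩
      obtain ⟨y, hy⟩ := hlift (Units.mk0 c hc0) hc
      refine ⟨_, ⟨y, rfl⟩, ?_⟩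
      apply Units.ext
      rw [hval, ← hY]
      have hy' : ((y : EH e H) : PadicAlgCl l) = c := by
        rw [← hfv, hy]
        rfl
      rw [hy']
    · rintro ⟨_, ⟨y, rfl⟩, rfl⟩
      refine ⟨((y : EH e H) : PadicAlgCl l), ?_, ?_, ?_⟩
      · rw [← hfv]
        exact Units.ne_zero _
      · exact fun h hh => (mem_EH e H).1 (y : EH e H).2 h hh
      · exact (hval y).symm
  rw [hSm, hTm, Subgroup.relIndex_map_map_of_injective _ _ hf, h]

end BKLoc2
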