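import Pool.Agent.Lib.MP_7c08ba_nt.Met.LocStmts
import Pool.Agent.Lib.MP_7c08ba_nt.Odd.Log
import Pool.Agent.Lib.MP_7c08ba_nt.Odd.Teich

set_option autoImplicit false

/-!
Module LAM: properties of the logarithm.
-/

noncomputable section

namespace BKLoc2

open BKOdd Polynomial

namespace LamAux

variable {p : ℕ} [hp : Fact p.Prime]

theorem prime_p : Prime (p : ℤ_[p]) := PadicInt.prime_p

theorem toZModPow_eq_one_iff {n : ℕ} {x : ℤ_[p]} :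
    PadicInt.toZModPow n x = 1 ↔ (p : ℤ_[p]) ^ n ∣ x - 1 := by
  rw [← sub_eq_zero, ← map_one (PadicInt.toZModPow n), ← map_sub, ← RingHom.mem_ker,
    PadicInt.ker_toZModPow, Ideal.mem_span_singleton]

theorem toZMod_eq_one_iff {x : ℤ_[p]} :
    PadicInt.toZMod x = 1 ↔ (p : ℤ_[p]) ∣ x - 1 := by
  rw [← sub_eq_zero, ← map_one PadicInt.toZMod, ← map_sub, ← RingHom.mem_ker,
    PadicInt.ker_toZMod, PadicInt.maximalIdeal_eq_span_p, Ideal.mem_span_singleton]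

theorem norm_pow_le {n : ℕ} {x : ℤ_[p]} (h : (p : ℤ_[p]) ^ n ∣ x) :
    ‖x‖ ≤ (p : ℝ) ^ (-n : ℤ) := by
  rw [PadicInt.norm_le_pow_iff_mem_span_pow, Ideal.mem_span_singleton]
  exact h

/-- `p`-th roots -/
theorem exists_root (hp2 : p ≠ 2) {x : ℤ_[p]} (hx : (p : ℤ_[p]) ^ 2 ∣ x - 1) :
    ∃ z : ℤ_[p], z ^ p = x := by
  obtain ⟨t, ht⟩ := hx
  have hodd : Odd p := hp.out.odd_of_ne_two hp2
  obtain ⟨s, hs⟩ := odd_sq_dvd_geom_sum₂_sub (1 : ℤ_[p]) t hodd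
  have hg := geom_sum₂_mul (1 + (p : ℤ_[p]) * t) 1 p
  have hF : (1 + (p : ℤ_[p]) * t) ^ p - x = p ^ 3 * (s * t) := by
    have h1 : x = 1 + p ^ 2 * t := by rw [← ht]; ring
    have h2 : (1 + (p : ℤ_[p]) * t) ^ p - 1 ^ p = (p + p ^ 2 * s) * (p * t) := by
      rw [← hg, sub_eq_iff_eq_add'.1 hs, one_pow, mul_one]
      ring
    rw [one_pow] at h2
    rw [h1, show (1 + (p : ℤ_[p]) * t) ^ p = ((1 + (p : ℤ_[p]) * t) ^ p - 1) + 1 by ring, h2]
    ring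
  have hunit : ‖1 + (p : ℤ_[p]) * t‖ = 1 := by
    rw [← PadicInt.isUnit_iff]
    by_contra h
    rw [PadicInt.not_isUnit_iff, PadicInt.norm_lt_one_iff_dvd] at h
    have h3 : (p : ℤ_[p]) ∣ 1 := by
      have := dvd_sub h (dvd_mul_right (p : ℤ_[p]) t)
      rwa [add_sub_cancel_right] at this
    exact prime_p.not_isUnit (isUnit_of_dvd_one h3)
  have e1 : (aeval (1 + (p : ℤ_[p]) * t)) (X ^ p - C x : ℤ_[p][X]) =
      (1 + (p : ℤ_[p]) * t) ^ p - x := by simp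
  have e2 : (aeval (1 + (p : ℤ_[p]) * t)) (derivative (X ^ p - C x : ℤ_[p][X])) =
      p * (1 + (p : ℤ_[p]) * t) ^ (p - 1) := by simp [derivative_X_pow]
  have hn : ‖(aeval (1 + (p : ℤ_[p]) * t)) (X ^ p - C x : ℤ_[p][X])‖ <
      ‖(aeval (1 + (p : ℤ_[p]) * t)) (derivative (X ^ p - C x : ℤ_[p][X]))‖ ^ 2 := by
    rw [e1, e2, hF, norm_mul (p ^ 3 : ℤ_[p]) (s * t), norm_mul (p : ℤ_[p]) _, norm_pow, norm_pow,
      hunit, one_pow, mul_one, PadicInt.norm_p]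
    have h4 : ‖s * t‖ ≤ 1 := PadicInt.norm_le_one _
    have h5 : (0 : ℝ) < (p : ℝ)⁻¹ := by
      have := hp.out.pos
      positivity
    have h6 : (p : ℝ)⁻¹ < 1 := inv_lt_one_of_one_lt₀ (by exact_mod_cast hp.out.one_lt)
    calc (p : ℝ)⁻¹ ^ 3 * ‖s * t‖ ≤ (p : ℝ)⁻¹ ^ 3 := mul_le_of_le_one_right (by positivity) h4
      _ < (p : ℝ)⁻¹ ^ 2 := pow_lt_pow_right_of_lt_one₀ h5 h6 (by norm_num)
  obtain ⟨z, hz, -⟩ := hensels_lemma hn
  refine ⟨z, ?_⟩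
  have e3 : (aeval z) (X ^ p - C x : ℤ_[p][X]) = z ^ p - x := by simp
  rw [e3] at hz
  exact sub_eq_zero.1 hz

/-- a number whose `p`-th power is `1` modulo `p` is `1` modulo `p` -/
theorem dvd_of_pow {z : ℤ_[p]} (h : (p : ℤ_[p]) ∣ z ^ p - 1) : (p : ℤ_[p]) ∣ z - 1 := by
  rw [← toZMod_eq_one_iff] at h ⊢
  rw [map_pow, ZMod.pow_card] at h
  exact h

theorem dvd_root (hp2 : p ≠ 2) {z : ℤ_[p]} {m : ℕ} (h : (p : ℤ_[p]) ^ (m + 2) ∣ z ^ p - 1) :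
    (p : ℤ_[p]) ^ (m + 1) ∣ z - 1 := by
  have hodd : Odd p := hp.out.odd_of_ne_two hp2
  have h1 : (p : ℤ_[p]) ∣ z - 1 := dvd_of_pow ((dvd_pow_self _ (by omega)).trans h)
  have h2 : ¬ (p : ℤ_[p]) ∣ z := by
    intro h3
    have := dvd_sub h3 h1
    rw [sub_sub_cancel] at this
    exact prime_p.not_isUnit (isUnit_of_dvd_one this)
  have h3 := emultiplicity_pow_prime_sub_pow_prime prime_p hodd h1 h2
  rw [one_pow] at h3
  rw [pow_dvd_iff_le_emultiplicity] at h ⊢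
  rw [h3] at h
  have h4 : ((m + 1 : ℕ) : ℕ∞) + 1 ≤ emultiplicity (p : ℤ_[p]) (z - 1) + 1 := by
    have h5 : ((m + 1 : ℕ) : ℕ∞) + 1 = ((m + 2 : ℕ) : ℕ∞) := by push_cast; ring
    rw [h5]
    exact h
  exact (ENat.add_le_add_iff_right (by simp)).1 h4

/-- `p ^ m`-th roots -/
theorem exists_roots (hp2 : p ≠ 2) (m : ℕ) : ∀ x : ℤ_[p], (p : ℤ_[p]) ^ (m + 1) ∣ x - 1 →
    ∃ z : ℤ_[p], (p : ℤ_[p]) ∣ z - 1 ∧ z ^ p ^ m = x ∧
      ∀ j, (p : ℤ_[p]) ^ (m + 1 + j) ∣ x - 1 → (p : ℤ_[p]) ^ (1 + j) ∣ z - 1 := by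
  induction m with
  | zero =>
    intro x hx
    refine ⟨x, by simpa using hx, by simp, fun j hj => by simpa using hj⟩
  | succ m ih =>
    intro x hx
    obtain ⟨y, hy⟩ := exists_root hp2 ((pow_dvd_pow _ (by omega)).trans hx : _ ∣ _)
    have h1 : (p : ℤ_[p]) ^ (m + 1) ∣ y - 1 := dvd_root hp2 (by rw [hy]; exact hx)
    obtain ⟨z, hz, hz', hz''⟩ := ih y h1
    refine ⟨z, hz, by rw [pow_succ, pow_mul, hz', hy], fun j hj => hz'' j ?_⟩
    have h2 : m + 1 + j = (m + j) + 1 := by omega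
    rw [h2]
    refine dvd_root hp2 ?_
    rw [hy]
    have h3 : m + 1 + 1 + j = m + j + 2 := by omega
    rw [← h3]
    exact hj

theorem exists_unit_roots (hp2 : p ≠ 2) (m : ℕ) (x : ℤ_[p]ˣ)
    (hx : (p : ℤ_[p]) ^ (m + 1) ∣ (x : ℤ_[p]) - 1) :
    ∃ z : ℤ_[p]ˣ, (p : ℤ_[p]) ∣ (z : ℤ_[p]) - 1 ∧ z ^ p ^ m = x ∧
      ∀ j, (p : ℤ_[p]) ^ (m + 1 + j) ∣ (x : ℤ_[p]) - 1 → (p : ℤ_[p]) ^ (1 + j) ∣ (z : ℤ_[p]) - 1 := by
  obtain ⟨z, hz, hz', hz''⟩ := exists_roots hp2 m (x : ℤ_[p]) hx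
  have hu : IsUnit z := by
    have h1 : IsUnit (z ^ p ^ m) := by rw [hz']; exact x.isUnit
    exact (isUnit_pow_iff (pow_ne_zero _ hp.out.ne_zero)).1 h1
  obtain ⟨w, rfl⟩ := hu
  exact ⟨w, hz, Units.ext (by rw [Units.val_pow_eq_pow_val, hz']), hz''⟩

section

variable {lam : ℤ_[p]ˣ → ℤ_[p]} (h : IsLam lam)

include h in
theorem lam_one : lam 1 = 0 := by
  have h1 := h.mul 1 1
  rw [mul_one] at h1
  exact left_eq_add.1 h1

include h in
theorem lam_pow (u : ℤ_[p]ˣ) (n : ℕ) : lam (u ^ n) = n * lam u := by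
  induction n with
  | zero => rw [pow_zero, lam_one h, Nat.cast_zero, zero_mul]
  | succ n ih => rw [pow_succ, h.mul, ih]; push_cast; ring

include h in
theorem lam_dvd (hp2 : p ≠ 2) {u : ℤ_[p]ˣ} (hu : (p : ℤ_[p]) ∣ (u : ℤ_[p]) - 1) (m : ℕ) :
    (p : ℤ_[p]) ^ m ∣ lam u ↔ (p : ℤ_[p]) ^ (m + 1) ∣ (u : ℤ_[p]) - 1 := by
  have hodd : Odd p := hp.out.odd_of_ne_two hp2
  constructor
  · induction m with
    | zero => exact fun _ => by simpa using hu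
    | succ m ih =>
      intro h1
      have h2 := ih ((pow_dvd_pow _ (Nat.le_succ m)).trans h1)
      obtain ⟨w, hw, hw', -⟩ := exists_unit_roots hp2 m u h2
      by_contra h3
      have h4 : ¬ (p : ℤ_[p]) ^ 2 ∣ (w : ℤ_[p]) - 1 := by
        intro h5
        apply h3
        have h6 : ¬ (p : ℤ_[p]) ∣ (w : ℤ_[p]) := fun h6 =>
          prime_p.not_isUnit (isUnit_of_dvd_unit h6 w.isUnit)
        have h7 := emultiplicity_pow_prime_pow_sub_pow_prime_pow prime_p hodd hw h6 m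
        rw [one_pow] at h7
        rw [← hw', Units.val_pow_eq_pow_val, pow_dvd_iff_le_emultiplicity, h7]
        rw [pow_dvd_iff_le_emultiplicity] at h5
        calc ((m + 1 + 1 : ℕ) : ℕ∞) = ((2 : ℕ) : ℕ∞) + m := by push_cast; ring
          _ ≤ _ := by gcongr
      have h5 := h.ne w (toZMod_eq_one_iff.2 hw) (fun h6 => h4 (toZModPow_eq_one_iff.1 h6))
      rw [← hw', lam_pow h, Nat.cast_pow, pow_succ, mul_dvd_mul_iff_left
        (pow_ne_zero _ prime_p.ne_zero)] at h1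
      apply h5
      rw [← RingHom.mem_ker, PadicInt.ker_toZMod, PadicInt.maximalIdeal_eq_span_p,
        Ideal.mem_span_singleton]
      exact h1
  · intro h1
    obtain ⟨w, hw, hw', -⟩ := exists_unit_roots hp2 m u h1
    rw [← hw', lam_pow h, Nat.cast_pow]
    exact dvd_mul_right _ _

theorem dvd_fermat (u : ℤ_[p]ˣ) : (p : ℤ_[p]) ∣ ((u ^ (p - 1) : ℤ_[p]ˣ) : ℤ_[p]) - 1 := by
  rw [← toZMod_eq_one_iff, Units.val_pow_eq_pow_val, map_pow]
  refine ZMod.pow_card_sub_one_eq_one fun h1 => ?_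
  rw [← RingHom.mem_ker, PadicInt.ker_toZMod, PadicInt.maximalIdeal_eq_span_p,
        Ideal.mem_span_singleton] at h1
  exact prime_p.not_isUnit (isUnit_of_dvd_unit h1 u.isUnit)

theorem unit_pred : IsUnit ((p - 1 : ℕ) : ℤ_[p]) := by
  rw [Nat.cast_sub hp.out.one_le, Nat.cast_one]
  by_contra h
  rw [PadicInt.not_isUnit_iff, PadicInt.norm_lt_one_iff_dvd] at h
  have h1 := dvd_sub (dvd_refl (p : ℤ_[p])) h
  rw [sub_sub_cancel] at h1
  exact prime_p.not_isUnit (isUnit_of_dvd_one h1)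

include h in
theorem lam_dvd' (hp2 : p ≠ 2) (u : ℤ_[p]ˣ) (m : ℕ) : (p : ℤ_[p]) ^ m ∣ lam u ↔
    (p : ℤ_[p]) ^ (m + 1) ∣ ((u ^ (p - 1) : ℤ_[p]ˣ) : ℤ_[p]) - 1 := by
  rw [← lam_dvd h hp2 (dvd_fermat u), lam_pow h, mul_comm, unit_pred.dvd_mul_right]

end

end LamAux

open LamAux in
/-- Module LAM. -/
theorem stLam : StLam := by
  intro p hp hp2
  refine ⟨?_, fun lam h => ⟨lam_one h, lam_pow h, fun u => ?_, fun u m => ?_, fun u m => ?_⟩⟩
  · obtain ⟨lam, h1, h2, h3⟩ := stLog p hp2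
    exact ⟨lam, h1, h2, h3⟩
  · constructor
    · intro h1
      have h2 : ∀ m : ℕ, (p : ℤ_[p]) ^ m ∣ ((u ^ (p - 1) : ℤ_[p]ˣ) : ℤ_[p]) - 1 := fun m =>
        (pow_dvd_pow _ (Nat.le_succ m)).trans ((lam_dvd' h hp2 u m).1 (by rw [h1]; exact dvd_zero _))
      apply Units.ext
      rw [Units.val_one, ← sub_eq_zero]
      by_contra h3
      have h4 := FiniteMultiplicity.of_prime_left prime_p h3
      obtain ⟨n, hn⟩ := h4
      exact hn (h2 (n + 1))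
    · intro h1
      have h2 : ((p - 1 : ℕ) : ℤ_[p]) * lam u = 0 := by rw [← lam_pow h, h1, lam_one h]
      exact (mul_eq_zero.1 h2).resolve_left unit_pred.ne_zero
  · rw [lam_dvd' h hp2 u m, toZModPow_eq_one_iff]
  · constructor
    · intro h1
      obtain ⟨ω, -, o1, o2, -⟩ := stTeich p
      have h2 : (p : ℤ_[p]) ∣ ((u * (ω u)⁻¹ : ℤ_[p]ˣ) : ℤ_[p]) - 1 := by
        have h3 : (p : ℤ_[p]) ∣ (u : ℤ_[p]) - (ω u : ℤ_[p]) := by
          rw [← Ideal.mem_span_singleton, ← PadicInt.maximalIdeal_eq_span_p, ← PadicInt.ker_toZMod,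
            RingHom.mem_ker, map_sub, o2, sub_self]
        have h4 : ((u * (ω u)⁻¹ : ℤ_[p]ˣ) : ℤ_[p]) - 1 =
            ((u : ℤ_[p]) - (ω u : ℤ_[p])) * (((ω u)⁻¹ : ℤ_[p]ˣ) : ℤ_[p]) := by
          rw [sub_mul, Units.mul_inv, Units.val_mul]
        rw [h4]
        exact h3.mul_right _
      have h3 : lam (u * (ω u)⁻¹) = lam u := by
        have h4 : lam (ω u) = 0 := by
          have h2 : ((p - 1 : ℕ) : ℤ_[p]) * lam (ω u) = 0 := by
            rw [← lam_pow h, o1, lam_one h]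
          exact (mul_eq_zero.1 h2).resolve_left unit_pred.ne_zero
        have h5 := h.mul (u * (ω u)⁻¹) (ω u)
        rw [inv_mul_cancel_right, h4, add_zero] at h5
        exact h5.symm
      rw [← h3, lam_dvd h hp2 h2] at h1
      obtain ⟨w, -, hw, -⟩ := exists_unit_roots hp2 m _ h1
      refine ⟨ω u, w, o1 u, ?_⟩
      rw [hw, mul_comm, inv_mul_cancel_right]
    · rintro ⟨v, w, hv, rfl⟩
      have h2 : lam v = 0 := by
        have h2 : ((p - 1 : ℕ) : ℤ_[p]) * lam v = 0 := by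
          rw [← lam_pow h, hv, lam_one h]
        exact (mul_eq_zero.1 h2).resolve_left unit_pred.ne_zero
      rw [h.mul, h2, zero_add, lam_pow h, Nat.cast_pow]
      exact dvd_mul_right _ _

end BKLoc2
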