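import Pool.Agent.Lib.MP_7c08ba_nt.Met.FAll
import Pool.Agent.Lib.MP_7c08ba_nt.Met.GlobAll

set_option autoImplicit false

/-!
Metabolic parity: the theorem.
-/

namespace BKMet.All

/-- **Parity of `H¹_f`** -/
theorem main : BKMet.StParN := parN BKGlob2.aArith

end BKMet.All
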