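import Pool.Agent.Lib.MP_7c08ba_nt.Met.Arith
import Pool.Agent.Lib.MP_7c08ba_nt.ND.DG

set_option autoImplicit false

/-!
Metabolic parity: the ring of integers of a finite extension `L` of `ℚ_p`.
-/

noncomputable section

namespace BKMet

section OO

variable (p : ℕ) [Fact p.Prime] (L : Type) [NormedField L] [NormedAlgebra ℚ_[p] L]

/-- the ring of integers of `L` -/
def OO : Subring L where
  carrier := {x | ‖x‖ ≤ 1}
  mul_mem' := by
    intro a b ha hb
    change ‖a * b‖ ≤ 1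
    rw [norm_mul]
    exact mul_le_one₀ ha (norm_nonneg _) hb
  one_mem' := by
    change ‖(1 : L)‖ ≤ 1
    rw [norm_one]
  add_mem' := by
    intro a b ha hb
    have := BKND.DG.ultra (p := p) L
    exact (IsUltrametricDist.norm_add_le_max a b).trans (max_le ha hb)
  zero_mem' := by
    change ‖(0 : L)‖ ≤ 1
    rw [norm_zero]
    exact zero_le_one
  neg_mem' := by
    intro a ha
    change ‖-a‖ ≤ 1
    rw [norm_neg]
    exact ha

variable {p L}

theorem mem_OO {x : L} : x ∈ OO p L ↔ ‖x‖ ≤ 1 := Iff.rfl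

theorem OO.norm_le (a : OO p L) : ‖(a : L)‖ ≤ 1 := a.2

theorem OO.isUnit_iff (a : OO p L) : IsUnit a ↔ ‖(a : L)‖ = 1 := by
  constructor
  · rintro ⟨u, rfl⟩
    have h1 : ‖((u : OO p L) : L)‖ * ‖(((u⁻¹ : (OO p L)ˣ) : OO p L) : L)‖ = 1 := by
      rw [← norm_mul, ← Subring.coe_mul, Units.mul_inv, Subring.coe_one, norm_one]
    have h2 := OO.norm_le (u : OO p L)
    have h3 := OO.norm_le ((u⁻¹ : (OO p L)ˣ) : OO p L)
    refine le_antisymm h2 ?_
    have h4 := norm_nonneg ((u : OO p L) : L)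
    calc (1 : ℝ) = ‖((u : OO p L) : L)‖ * ‖(((u⁻¹ : (OO p L)ˣ) : OO p L) : L)‖ := h1.symm
      _ ≤ ‖((u : OO p L) : L)‖ * 1 := mul_le_mul_of_nonneg_left h3 h4
      _ = _ := mul_one _
  · intro h
    have h0 : (a : L) ≠ 0 := by
      intro h0
      rw [h0, norm_zero] at h
      exact zero_ne_one h
    refine IsUnit.of_mul_eq_one (⟨(a : L)⁻¹, ?_⟩ : OO p L) (Subtype.ext (mul_inv_cancel₀ h0))
    change ‖(a : L)⁻¹‖ ≤ 1
    rw [norm_inv, h, inv_one]

instance instIsLocalRingOO : IsLocalRing (OO p L) := by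
  refine IsLocalRing.of_nonunits_add ?_
  intro a b ha hb
  have hu := BKND.DG.ultra (p := p) L
  have h1 : ∀ c : OO p L, c ∈ nonunits (OO p L) ↔ ‖(c : L)‖ < 1 := by
    intro c
    rw [mem_nonunits_iff, OO.isUnit_iff]
    exact ⟨fun h => lt_of_le_of_ne (OO.norm_le c) h, fun h => ne_of_lt h⟩
  rw [h1] at ha hb ⊢
  exact (IsUltrametricDist.norm_add_le_max (a : L) b).trans_lt (max_lt ha hb)

theorem OO.mem_max (a : OO p L) : a ∈ IsLocalRing.maximalIdeal (OO p L) ↔ ‖(a : L)‖ < 1 := by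
  rw [IsLocalRing.mem_maximalIdeal, mem_nonunits_iff, OO.isUnit_iff]
  exact ⟨fun h => lt_of_le_of_ne (OO.norm_le a) h, fun h => ne_of_lt h⟩

theorem OO.p_mem_max : ((p : ℕ) : OO p L) ∈ IsLocalRing.maximalIdeal (OO p L) := by
  rw [OO.mem_max]
  exact BKND.DG.norm_p_lt L

instance instCharPRes : CharP (IsLocalRing.ResidueField (OO p L)) p := by
  have h1 : ((p : ℕ) : IsLocalRing.ResidueField (OO p L)) = 0 := by
    have h2 := OO.p_mem_max (p := p) (L := L)
    rw [← IsLocalRing.residue_eq_zero_iff, map_natCast] at h2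
    exact h2
  obtain ⟨q, hq⟩ := CharP.exists (IsLocalRing.ResidueField (OO p L))
  have h2 : q ∣ p := (CharP.cast_eq_zero_iff _ q p).1 h1
  rcases (Nat.dvd_prime Fact.out).1 h2 with h3 | h3
  · subst h3
    have h4 : ((1 : ℕ) : IsLocalRing.ResidueField (OO p L)) = 0 := CharP.cast_eq_zero _ 1
    rw [Nat.cast_one] at h4
    exact absurd h4 one_ne_zero
  · exact h3 ▸ hq

/-- the residue field is an algebra over `𝔽_p` -/
instance instAlgRes : Algebra (ZMod p) (IsLocalRing.ResidueField (OO p L)) :=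
  ZMod.algebra _ p

section Fin

variable [FiniteDimensional ℚ_[p] L]

instance instCompactOO : CompactSpace (OO p L) := by
  have hp : ProperSpace L := FiniteDimensional.proper ℚ_[p] L
  have h1 : IsCompact (Metric.closedBall (0 : L) 1) := isCompact_closedBall 0 1
  have h2 : ((OO p L : Subring L) : Set L) = Metric.closedBall (0 : L) 1 := by
    ext x
    rw [mem_closedBall_zero_iff]
    rfl
  have h3 : IsCompact ((OO p L : Subring L) : Set L) := by
    rw [h2]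
    exact h1
  exact isCompact_iff_compactSpace.1 h3

variable (p L)

theorem OO.exists_pi : ∃ ϖ : OO p L, (ϖ : L) ≠ 0 ∧ ‖(ϖ : L)‖ < 1 ∧
    ∀ x : L, ‖x‖ < 1 → ‖x‖ ≤ ‖(ϖ : L)‖ := by
  have hp : ProperSpace L := FiniteDimensional.proper ℚ_[p] L
  have hu := BKND.DG.ultra (p := p) L
  have h1 : IsCompact (Metric.ball (0 : L) 1) := by
    refine (isCompact_closedBall (0 : L) 1).of_isClosed_subset ?_ Metric.ball_subset_closedBall
    exact IsUltrametricDist.isClosed_ball 0 1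
  obtain ⟨x, hx, hx'⟩ := h1.exists_isMaxOn ⟨0, Metric.mem_ball_self one_pos⟩
    (continuous_norm.continuousOn)
  rw [mem_ball_zero_iff] at hx
  have hx2 : ∀ y : L, ‖y‖ < 1 → ‖y‖ ≤ ‖x‖ := by
    intro y hy
    exact hx' (mem_ball_zero_iff.2 hy)
  refine ⟨⟨x, hx.le⟩, ?_, hx, hx2⟩
  intro h0
  have h2 := hx2 (p : L) (BKND.DG.norm_p_lt L)
  change x = 0 at h0
  rw [h0, norm_zero] at h2
  have h3 : ((p : ℕ) : L) ≠ 0 := by
    have h4 : ((p : ℕ) : L) = algebraMap ℚ_[p] L ((p : ℕ) : ℚ_[p]) := by rw [map_natCast]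
    rw [h4, Ne, map_eq_zero]
    exact_mod_cast (Fact.out : p.Prime).ne_zero
  exact h3 (norm_le_zero_iff.1 h2)

/-- a uniformizer -/
def pi0 : OO p L := (OO.exists_pi p L).choose

theorem pi0_ne : ((pi0 p L : OO p L) : L) ≠ 0 := (OO.exists_pi p L).choose_spec.1

theorem pi0_ne' : pi0 p L ≠ 0 := fun h => pi0_ne p L (congrArg Subtype.val h)

theorem pi0_lt : ‖((pi0 p L : OO p L) : L)‖ < 1 := (OO.exists_pi p L).choose_spec.2.1

theorem pi0_max (x : L) (h : ‖x‖ < 1) : ‖x‖ ≤ ‖((pi0 p L : OO p L) : L)‖ :=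
  (OO.exists_pi p L).choose_spec.2.2 x h

theorem pi0_pos : 0 < ‖((pi0 p L : OO p L) : L)‖ := norm_pos_iff.2 (pi0_ne p L)

theorem pi0_dvd (a : OO p L) : pi0 p L ∣ a ↔ ‖(a : L)‖ < 1 := by
  constructor
  · rintro ⟨b, rfl⟩
    rw [Subring.coe_mul, norm_mul]
    calc ‖((pi0 p L : OO p L) : L)‖ * ‖(b : L)‖ ≤ ‖((pi0 p L : OO p L) : L)‖ * 1 :=
          mul_le_mul_of_nonneg_left (OO.norm_le b) (norm_nonneg _)
      _ < 1 := by
        rw [mul_one]
        exact pi0_lt p L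
  · intro h
    refine ⟨⟨(a : L) / pi0 p L, ?_⟩, Subtype.ext ?_⟩
    · change ‖(a : L) / pi0 p L‖ ≤ 1
      rw [norm_div, div_le_one (pi0_pos p L)]
      exact pi0_max p L _ h
    · exact (mul_div_cancel₀ _ (pi0_ne p L)).symm

theorem pi0_span : IsLocalRing.maximalIdeal (OO p L) = Ideal.span {pi0 p L} := by
  ext a
  rw [OO.mem_max, Ideal.mem_span_singleton, pi0_dvd]

theorem pi0_irr : Irreducible (pi0 p L) := by
  have h1 : ¬ IsUnit (pi0 p L) := by
    rw [OO.isUnit_iff]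
    exact ne_of_lt (pi0_lt p L)
  refine ⟨h1, fun a b hab => ?_⟩
  by_contra hcon
  push Not at hcon
  obtain ⟨ha, hb⟩ := hcon
  have ha' : ‖(a : L)‖ < 1 := (OO.mem_max a).1 ((IsLocalRing.mem_maximalIdeal a).2 ha)
  have hb' : ‖(b : L)‖ < 1 := (OO.mem_max b).1 ((IsLocalRing.mem_maximalIdeal b).2 hb)
  have h2 := pi0_max p L _ ha'
  have h3 : ‖((pi0 p L : OO p L) : L)‖ = ‖(a : L)‖ * ‖(b : L)‖ := by
    rw [hab, Subring.coe_mul, norm_mul]
  have h4 := pi0_pos p L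
  have h5 : ‖(a : L)‖ * ‖(b : L)‖ ≤ ‖((pi0 p L : OO p L) : L)‖ * ‖(b : L)‖ :=
    mul_le_mul_of_nonneg_right h2 (norm_nonneg _)
  nlinarith [norm_nonneg (b : L)]

/-- every nonzero element of `L` is a power of the uniformizer times a unit -/
theorem exists_zpow (x : L) (hx : x ≠ 0) : ∃ m : ℤ,
    ‖x‖ = ‖((pi0 p L : OO p L) : L)‖ ^ m := by
  have h0 := pi0_pos p L
  have h1 := pi0_lt p L
  obtain ⟨m, hm1, hm2⟩ := exists_mem_Ioc_zpow (norm_pos_iff.2 hx)
    ((one_lt_inv₀ h0).2 h1)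
  -- `‖π‖⁻¹ ^ m < ‖x‖ ≤ ‖π‖⁻¹ ^ (m + 1)`
  refine ⟨-(m + 1), le_antisymm ?_ ?_⟩
  · rw [zpow_neg, ← inv_zpow]
    exact hm2
  · by_contra hcon
    rw [not_le] at hcon
    set y : L := x * ((pi0 p L : OO p L) : L) ^ (m + 1) with hy
    have h2 : ‖y‖ < 1 := by
      rw [hy, norm_mul, norm_zpow]
      calc ‖x‖ * ‖((pi0 p L : OO p L) : L)‖ ^ (m + 1)
          < ‖((pi0 p L : OO p L) : L)‖ ^ (-(m + 1)) * ‖((pi0 p L : OO p L) : L)‖ ^ (m + 1) :=
            mul_lt_mul_of_pos_right hcon (zpow_pos h0 _)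
        _ = 1 := by rw [← zpow_add₀ h0.ne', neg_add_cancel, zpow_zero]
    have h3 := pi0_max p L y h2
    rw [hy, norm_mul, norm_zpow, zpow_add_one₀ h0.ne', ← mul_assoc] at h3
    have h4 : ‖x‖ * ‖((pi0 p L : OO p L) : L)‖ ^ m ≤ 1 := by
      by_contra h5
      rw [not_le] at h5
      have h6 := mul_lt_mul_of_pos_right h5 h0
      rw [one_mul] at h6
      exact absurd h3 (not_le.2 h6)
    have h5 : ‖x‖ ≤ (‖((pi0 p L : OO p L) : L)‖⁻¹) ^ m := by
      rw [inv_zpow, ← one_div, le_div_iff₀ (zpow_pos h0 _)]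
      exact h4
    exact absurd hm1 (not_lt.2 h5)

theorem OO.exists_pow (a : OO p L) (ha : a ≠ 0) : ∃ n : ℕ, Associated (pi0 p L ^ n) a := by
  have h0 := pi0_pos p L
  have h1 := pi0_lt p L
  have ha' : (a : L) ≠ 0 := fun h => ha (Subtype.ext h)
  obtain ⟨m, hm⟩ := exists_zpow p L (a : L) ha'
  have hm0 : 0 ≤ m := by
    by_contra hcon
    rw [not_le] at hcon
    have h2 := OO.norm_le a
    rw [hm] at h2
    exact absurd h2 (not_le.2 (one_lt_zpow_of_neg₀ h0 h1 hcon))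
  obtain ⟨n, rfl⟩ := Int.eq_ofNat_of_zero_le hm0
  rw [zpow_natCast] at hm
  have h3 : ((pi0 p L : OO p L) : L) ^ n ≠ 0 := pow_ne_zero _ (pi0_ne p L)
  have h4 : ‖(a : L) / ((pi0 p L : OO p L) : L) ^ n‖ = 1 := by
    rw [norm_div, norm_pow, hm, div_self (pow_pos h0 n).ne']
  have h5 : IsUnit (⟨(a : L) / ((pi0 p L : OO p L) : L) ^ n, h4.le⟩ : OO p L) :=
    (OO.isUnit_iff _).2 h4
  refine ⟨n, h5.unit, Subtype.ext ?_⟩
  rw [IsUnit.unit_spec, Subring.coe_mul, Subring.coe_pow]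
  exact mul_div_cancel₀ _ h3

instance instDVROO : IsDiscreteValuationRing (OO p L) := by
  refine IsDiscreteValuationRing.ofHasUnitMulPowIrreducibleFactorization
    ⟨pi0 p L, pi0_irr p L, fun {x} hx => ?_⟩
  obtain ⟨n, hn⟩ := OO.exists_pow p L x hx
  exact ⟨n, hn⟩

theorem OO.isOpen_span (k : ℕ) :
    IsOpen ((Ideal.span {pi0 p L ^ k} : Ideal (OO p L)) : Set (OO p L)) := by
  have hu := BKND.DG.ultra (p := p) L
  have h0 := pi0_pos p L
  have h1 : ((Ideal.span {pi0 p L ^ k} : Ideal (OO p L)) : Set (OO p L)) =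
      {x : OO p L | ‖(x : L)‖ ≤ ‖((pi0 p L : OO p L) : L)‖ ^ k} := by
    ext x
    rw [SetLike.mem_coe, Ideal.mem_span_singleton, Set.mem_ofPred_eq]
    constructor
    · rintro ⟨b, rfl⟩
      rw [Subring.coe_mul, norm_mul, Subring.coe_pow, norm_pow]
      exact mul_le_of_le_one_right (pow_nonneg (norm_nonneg _) _) (OO.norm_le b)
    · intro h
      refine ⟨⟨(x : L) / ((pi0 p L : OO p L) : L) ^ k, ?_⟩, Subtype.ext ?_⟩
      · change ‖(x : L) / ((pi0 p L : OO p L) : L) ^ k‖ ≤ 1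
        rw [norm_div, norm_pow, div_le_one (pow_pos h0 k)]
        exact h
      · rw [Subring.coe_mul, Subring.coe_pow]
        exact (mul_div_cancel₀ _ (pow_ne_zero _ (pi0_ne p L))).symm
  rw [h1]
  have h2 : IsOpen (Metric.closedBall (0 : L) (‖((pi0 p L : OO p L) : L)‖ ^ k)) :=
    IsUltrametricDist.isOpen_closedBall 0 (pow_pos h0 k).ne'
  have h3 : {x : OO p L | ‖(x : L)‖ ≤ ‖((pi0 p L : OO p L) : L)‖ ^ k} =
      Subtype.val ⁻¹' (Metric.closedBall (0 : L) (‖((pi0 p L : OO p L) : L)‖ ^ k)) := by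
    ext x
    rw [Set.mem_preimage, mem_closedBall_zero_iff, Set.mem_ofPred_eq]
  rw [h3]
  exact h2.preimage continuous_subtype_val

instance instFiniteQuot (k : ℕ) : Finite (OO p L ⧸ (Ideal.span {pi0 p L ^ k} : Ideal (OO p L))) := by
  have h1 := OO.isOpen_span p L k
  exact AddSubgroup.quotient_finite_of_isOpen
    (Ideal.span {pi0 p L ^ k} : Ideal (OO p L)).toAddSubgroup h1

instance instFiniteRes : Finite (IsLocalRing.ResidueField (OO p L)) := by
  have h1 : Finite (OO p L ⧸ IsLocalRing.maximalIdeal (OO p L)) := by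
    have h2 := instFiniteQuot p L 1
    rw [pow_one] at h2
    rwa [pi0_span]
  exact h1

end Fin

end OO

end BKMet
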