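import Pool.Agent.Lib.MP_7c08ba_nt.Met.StL
import Pool.Agent.Lib.MP_7c08ba_nt.Odd.FinalF

set_option autoImplicit false

/-!
Metabolic parity, part F: the theorem for a group with local groups and a conjugation, and the
arithmetic assembly. Definitions and statements.
-/

noncomputable section

namespace BKMet

open BKPar (Loc1 Loc2)
open BKND (Sm)
open Matrix

/-! ### The situation -/

/-- A profinite group `G` with a conjugation `c`, local groups `D i → G` (each also taken with the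
conjugate map), a character `χ`, local invariants, and the local and global theorems for one
dimensional modules. -/
structure Sit (p : ℕ) [Fact p.Prime] {ι : Type} [Fintype ι] {G : Type} [Group G]
    [TopologicalSpace G] {D : ι → Type} [∀ i, Group (D i)] [∀ i, TopologicalSpace (D i)]
    (r : ∀ i, D i →* G) (c : G →* G) (χ : G →* ℤ_[p]ˣ)
    (inv : ∀ i, (D i → D i → QZ p) →+ QZ p) (δ : ι → ℕ) (U : Subgroup G) : Prop where
  cont_r : ∀ i, Continuous (r i)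
  cont_c : Continuous c
  inv_c : ∀ g, c (c g) = g
  cont_χ : Continuous χ
  χ_c : ∀ g, χ (c g) = χ g
  open' : IsOpen (U : Set G)
  fix : ∀ u ∈ U, PadicInt.toZMod ((χ u : ℤ_[p]ˣ) : ℤ_[p]) = 1
  loc : ∀ i, LocAx p (χ.comp (r i)) (inv i) (δ i)
  glob : GlobAx p (rr r c) χ U
  recip : ∀ z ∈ BKND.Z2 (actA χ), ∑ i, (inv i (pb2 (r i) z) - inv i (pb2 (c.comp (r i)) z)) = 0
  sum : ∑ i, δ i = 1

/-- A triangular representation with a symmetric form for which it is conjugate self-dual, none of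
the diagonal characters is conjugate self-dual, and the diagonal characters are trivial on `U`. -/
structure Pol {p : ℕ} [Fact p.Prime] {L : Type} [NormedField L] [NormedAlgebra ℚ_[p] L]
    {G : Type} [Group G] [TopologicalSpace G] {n : ℕ} (V : G →* GL (Fin n) L) (A : GL (Fin n) L)
    (c : G →* G) (χ : G →* ℤ_[p]ˣ) (B : GL (Fin n) L) (U : Subgroup G) : Prop where
  cont : Continuous V
  tri : Tri V A
  symm : (B : Matrix (Fin n) (Fin n) L)ᵀ = B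
  dual : IsDual χ V (V.comp c) (B : Matrix (Fin n) (Fin n) L)
  nsd : ∀ ψ : G →* (kk p L)ˣ, IsDiag V A ψ → ∃ g, ((ψ g : (kk p L)ˣ) : kk p L) *
    ((ψ (c g) : (kk p L)ˣ) : kk p L) ≠
      algebraMap (ZMod p) (kk p L) (PadicInt.toZMod ((χ g : ℤ_[p]ˣ) : ℤ_[p]))
  triv : ∀ ψ : G →* (kk p L)ˣ, IsDiag V A ψ → ∀ u ∈ U, ψ u = 1

/-- the representation `B V(c g) B⁻¹` -/
def dualC {L : Type} [NormedField L] {G : Type} [Group G] {n : ℕ} (V : G →* GL (Fin n) L)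
    (c : G →* G) (B : GL (Fin n) L) : G →* GL (Fin n) L :=
  (MulAut.conj B).toMonoidHom.comp (V.comp c)

/-- Module GAM (from TR): the global situation of part X. -/
def StGam : Prop :=
  ∀ (p : ℕ) [Fact p.Prime], p ≠ 2 → ∀ (ι : Type) [Fintype ι] (G : Type) [Group G]
    [TopologicalSpace G] [IsTopologicalGroup G] [CompactSpace G] (D : ι → Type)
    [∀ i, Group (D i)] [∀ i, TopologicalSpace (D i)] (r : ∀ i, D i →* G) (c : G →* G)
    (χ : G →* ℤ_[p]ˣ) (inv : ∀ i, (D i → D i → QZ p) →+ QZ p) (δ : ι → ℕ) (U : Subgroup G),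
    Sit p r c χ inv δ U →
    ∃ Γ : Glo (ι × Bool) G (DD D) (QZ p) (QZ p), (∀ w, Γ.r w = rr r c w) ∧
      (∀ i, ∀ z, Γ.inv (i, true) z = - Γ.inv (i, false) z) ∧
      (∀ a β, Γ.tr (cc3 c a, swp (Y := fun i => D i → D i → QZ p) β) = - Γ.tr (a, β)) ∧
      GAx p Γ χ U (fun w => δ w.1)

/-- Module PARX (from LAM, MK, TRI, LATT, LAGR, LINK, LIMG, IND, SD, GAM): parity and the Euler
characteristic with coefficients in `L`. -/
def StParX : Prop :=
  ∀ (p : ℕ) [Fact p.Prime], p ≠ 2 → ∀ (L : Type) [NormedField L] [NormedAlgebra ℚ_[p] L]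
    [FiniteDimensional ℚ_[p] L] (ι : Type) [Fintype ι] (G : Type) [Group G]
    [TopologicalSpace G] [IsTopologicalGroup G] [CompactSpace G] [NonarchimedeanGroup G]
    (D : ι → Type) [∀ i, Group (D i)] [∀ i, TopologicalSpace (D i)]
    [∀ i, IsTopologicalGroup (D i)] [∀ i, CompactSpace (D i)] (r : ∀ i, D i →* G) (c : G →* G)
    (χ : G →* ℤ_[p]ˣ) (inv : ∀ i, (D i → D i → QZ p) →+ QZ p) (δ : ι → ℕ) (U : Subgroup G),
    Sit p r c χ inv δ U → ∀ (n : ℕ) (V : G →* GL (Fin n) L) (A B : GL (Fin n) L),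
    Pol V A c χ B U →
    (FiniteDimensional L (ZTV V (rr r c) {w | w.2 = false}) ∧
      Module.finrank L (ZTV V (rr r c) {w | w.2 = false}) % 2 = n % 2) ∧
    ∀ T : Set (ι × Bool), T.Nonempty → Tᶜ.Nonempty →
      FiniteDimensional L (ZTV V (rr r c) T) ∧
      FiniteDimensional L (ZTV (V.comp c) (rr r c) Tᶜ) ∧
      Module.finrank L (ZTV V (rr r c) T) +
        n * (∑ w, open Classical in if w ∈ T then δ w.1 else 0) =
      Module.finrank L (ZTV (V.comp c) (rr r c) Tᶜ) + n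

/-- Module LOCX (from LV, TRI): the local theorem at all places. -/
def StLocX : Prop :=
  ∀ (p : ℕ) [Fact p.Prime] (L : Type) [NormedField L] [NormedAlgebra ℚ_[p] L]
    [FiniteDimensional ℚ_[p] L] (ι : Type) [Fintype ι] (G : Type) [Group G]
    [TopologicalSpace G] [IsTopologicalGroup G] [CompactSpace G]
    (D : ι → Type) [∀ i, Group (D i)] [∀ i, TopologicalSpace (D i)]
    [∀ i, IsTopologicalGroup (D i)] [∀ i, CompactSpace (D i)] [∀ i, NonarchimedeanGroup (D i)]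
    (r : ∀ i, D i →* G) (c : G →* G)
    (χ : G →* ℤ_[p]ˣ) (inv : ∀ i, (D i → D i → QZ p) →+ QZ p) (δ : ι → ℕ) (U : Subgroup G),
    Sit p r c χ inv δ U → ∀ (n : ℕ) (V : G →* GL (Fin n) L) (A B : GL (Fin n) L),
    Pol V A c χ B U → (∀ i, NoInv (V.comp (r i))) → (∀ i, NoInv ((V.comp c).comp (r i))) →
    (∀ i, LocV (χ.comp (r i)) (δ i) (V.comp (r i)) ((dualC V c B).comp (r i))) ∧
    ∀ i, δ i = 0 → BKOdd.Z1 (V.comp (r i)) ≤ BKOdd.B1 (V.comp (r i)) ∧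
      BKOdd.Z1 ((V.comp c).comp (r i)) ≤ BKOdd.B1 ((V.comp c).comp (r i))

/-- Module ZID: the spaces with conditions in terms of cocycles. -/
def StZid : Prop :=
  ∀ (L : Type) [NormedField L] (ι : Type) (G : Type) [Group G]
    [TopologicalSpace G] [IsTopologicalGroup G] (D : ι → Type) [∀ i, Group (D i)]
    [∀ i, TopologicalSpace (D i)] (r : ∀ i, D i →* G) (_ : ∀ i, Continuous (r i))
    (c : G →* G), Continuous c → (∀ g, c (c g) = g) → ∀ (n : ℕ) (V : G →* GL (Fin n) L),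
    Continuous V → (∀ i, NoInv (V.comp (r i))) → (∀ i, NoInv ((V.comp c).comp (r i))) →
    ∀ i₀ i₁ : ι, i₁ ≠ i₀ →
    (∀ i, i ≠ i₀ → BKOdd.Z1 (V.comp (r i)) ≤ BKOdd.B1 (V.comp (r i)) ∧
      BKOdd.Z1 ((V.comp c).comp (r i)) ≤ BKOdd.B1 ((V.comp c).comp (r i))) →
    FiniteDimensional L (ZTV V (rr r c) {(i₁, false)}) →
    FiniteDimensional L (BKOdd.Z1 V) ∧
    Module.finrank L (ZTV V (rr r c) {(i₁, false)}) = Module.finrank L (BKOdd.Z1 V) ∧
    (∀ W : Submodule L (G → Fin n → L), (∀ x, x ∈ W ↔ x ∈ BKOdd.Z1 V ∧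
      (fun d => x (r i₀ d)) ∈ BKOdd.B1 (V.comp (r i₀)) ∧
      (fun d => x (c (r i₀ d))) ∈ BKOdd.B1 ((V.comp c).comp (r i₀))) →
      Module.finrank L (ZTV (V.comp c) (rr r c) {(i₁, false)}ᶜ) = Module.finrank L W) ∧
    ∀ W : Submodule L (G → Fin n → L), (∀ x, x ∈ W ↔ x ∈ BKOdd.Z1 V ∧
      (fun d => x (r i₀ d)) ∈ BKOdd.B1 (V.comp (r i₀))) →
      Module.finrank L (ZTV V (rr r c) {w | w.2 = false}) = Module.finrank L W

/-- Module CUPX (from RL): antisymmetry of the pairing of the restrictions. -/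
def StCupX : Prop :=
  ∀ (p : ℕ) [Fact p.Prime] (L : Type) [NormedField L] [NormedAlgebra ℚ_[p] L]
    [FiniteDimensional ℚ_[p] L] (ι : Type) [Fintype ι] (G : Type) [Group G]
    [TopologicalSpace G] [IsTopologicalGroup G] [CompactSpace G] [NonarchimedeanGroup G]
    (D : ι → Type) [∀ i, Group (D i)] [∀ i, TopologicalSpace (D i)]
    [∀ i, IsTopologicalGroup (D i)] [∀ i, CompactSpace (D i)] [∀ i, NonarchimedeanGroup (D i)]
    (r : ∀ i, D i →* G) (c : G →* G)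
    (χ : G →* ℤ_[p]ˣ) (inv : ∀ i, (D i → D i → QZ p) →+ QZ p) (δ : ι → ℕ) (U : Subgroup G),
    Sit p r c χ inv δ U → ∀ (n : ℕ) (V : G →* GL (Fin n) L) (B : GL (Fin n) L), Continuous V →
    (B : Matrix (Fin n) (Fin n) L)ᵀ = B → IsDual χ V (V.comp c) (B : Matrix (Fin n) (Fin n) L) →
    ∀ i₀, LineAx p (χ.comp (r i₀)) →
    (∀ i, i ≠ i₀ → BKOdd.Z1 (V.comp (r i)) ≤ BKOdd.B1 (V.comp (r i)) ∧
      BKOdd.Z1 ((V.comp c).comp (r i)) ≤ BKOdd.B1 ((V.comp c).comp (r i))) →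
    ∀ x ∈ BKOdd.Z1 V, ∀ y ∈ BKOdd.Z1 V,
      BKOdd.cupV ((dualC V c B).comp (r i₀)) (fun d => x (r i₀ d))
        (fun d => (B : Matrix (Fin n) (Fin n) L) *ᵥ y (c (r i₀ d))) +
      BKOdd.cupV ((dualC V c B).comp (r i₀)) (fun d => y (r i₀ d))
        (fun d => (B : Matrix (Fin n) (Fin n) L) *ᵥ x (c (r i₀ d))) ∈
      CC.B2 (BKOdd.chL (χ.comp (r i₀)) L)

/-- Module MAINX (from PARX, LOCX, ZID, CUPX, HOD, LA): **the parity theorem for groups.** -/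
def StMainX : Prop :=
  ∀ (p : ℕ) [Fact p.Prime], p ≠ 2 → ∀ (L : Type) [NormedField L] [NormedAlgebra ℚ_[p] L]
    [FiniteDimensional ℚ_[p] L] (ι : Type) [Fintype ι] (G : Type) [Group G]
    [TopologicalSpace G] [IsTopologicalGroup G] [CompactSpace G] [NonarchimedeanGroup G]
    (D : ι → Type) [∀ i, Group (D i)] [∀ i, TopologicalSpace (D i)]
    [∀ i, IsTopologicalGroup (D i)] [∀ i, CompactSpace (D i)] [∀ i, NonarchimedeanGroup (D i)]
    (r : ∀ i, D i →* G) (c : G →* G)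
    (χ : G →* ℤ_[p]ˣ) (inv : ∀ i, (D i → D i → QZ p) →+ QZ p) (δ : ι → ℕ) (U : Subgroup G),
    Sit p r c χ inv δ U → ∀ (n : ℕ) (V : G →* GL (Fin n) L) (A B : GL (Fin n) L),
    Pol V A c χ B U → (∀ i, NoInv (V.comp (r i))) → (∀ i, NoInv ((V.comp c).comp (r i))) →
    ∀ i₀, δ i₀ = 1 → (∃ i, i ≠ i₀) → LineAx p (χ.comp (r i₀)) →
    ∀ (Zf : (D i₀ →* GL (Fin n) L) → Submodule L (D i₀ → Fin n → L)) (s s' : ℕ),
    BKOdd.HodgePair (BKOdd.chL (χ.comp (r i₀)) L) Zf (V.comp (r i₀))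
      ((dualC V c B).comp (r i₀)) s s' →
    FiniteDimensional L (BKOdd.Z1 V) ∧ s + s' = n ∧
    FiniteDimensional L (BKOdd.Z1 (V.comp (r i₀))) ∧
    FiniteDimensional L (BKOdd.Z1 ((dualC V c B).comp (r i₀))) ∧
    Module.finrank L (BKOdd.cls (V.comp (r i₀)) (Zf (V.comp (r i₀)))) = s ∧
    Module.finrank L (BKOdd.cls ((dualC V c B).comp (r i₀))
      (Zf ((dualC V c B).comp (r i₀)))) = s' ∧
    (∀ i, i ≠ i₀ → BKOdd.Z1 (V.comp (r i)) ≤ BKOdd.B1 (V.comp (r i)) ∧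
      BKOdd.Z1 ((V.comp c).comp (r i)) ≤ BKOdd.B1 ((V.comp c).comp (r i))) ∧
    ∀ W : Submodule L (G → Fin n → L), (∀ x, x ∈ W ↔ x ∈ BKOdd.Z1 V ∧
      (fun d => x (r i₀ d)) ∈ Zf (V.comp (r i₀)) ∧
      (fun d => (B : Matrix (Fin n) (Fin n) L) *ᵥ x (c (r i₀ d))) ∈
        Zf ((dualC V c B).comp (r i₀))) →
      Module.finrank L W % 2 = (s + n) % 2

/-! ### Arithmetic -/

/-- Module LINEQ (from the local part): the line `H²(ℚ_p, 𝔽_p(1))`. -/
def StLineQ : Prop :=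
  ∀ (p : ℕ) [Fact p.Prime], p ≠ 2 → LineAx p (cycL p p)

section Arith

open BKGen MP_7c08ba.Crys

/-- Module U0: the group on which the diagonal characters and the cyclotomic character modulo `p`
are trivial. -/
def StU0 : Prop :=
  ∀ (p : ℕ) [Fact p.Prime], p ≠ 2 → ∀ (F : Type) [Field F] [NumberField F],
    Module.finrank ℚ F = 2 → IsEmpty (F →+* ℝ) →
    ∀ (c : AlgebraicClosure F ≃+* AlgebraicClosure F) (σ : F ≃+* F) (hcs : BKOdd.ConjHyp c σ)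
    (L : Type) [NormedField L] [NormedAlgebra ℚ_[p] L] [FiniteDimensional ℚ_[p] L] (n : ℕ)
    (V : GF F →* GL (Fin n) L), Continuous V → ∀ A : GL (Fin n) L, Tri V A →
    ∀ P₀ : Set ℕ, p ∈ P₀ →
    (∀ (l : ℕ) [Fact l.Prime], l ∉ P₀ → ∀ j : AlgebraicClosure F →+* PadicAlgCl l,
      ∀ g ∈ Inert F (AlgebraicClosure F) j, V g = 1) →
    ∃ U₀ : Subgroup (GF F), U₀.Normal ∧ IsOpen (U₀ : Set (GF F)) ∧ ¬ p ∣ U₀.index ∧
      (∀ g h : GF F, g * h * g⁻¹ * h⁻¹ ∈ U₀) ∧ RS F P₀ ≤ U₀ ∧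
      (∀ g ∈ U₀, PadicInt.toZMod ((cycF p F g : ℤ_[p]ˣ) : ℤ_[p]) = 1) ∧
      (∀ g ∈ U₀, BKOdd.conj c σ hcs.h g ∈ U₀) ∧
      ∀ ψ : GF F →* (kk p L)ˣ, IsDiag V A ψ → ∀ u ∈ U₀, ψ u = 1

/-- Module DESC: the quotient `GS F P`: the cyclotomic character, complex conjugation and
representations which are unramified outside `P`. -/
def StDescM : Prop :=
  ∀ (p : ℕ) [Fact p.Prime], p ≠ 2 → ∀ (F : Type) [Field F] [NumberField F],
    Module.finrank ℚ F = 2 → IsEmpty (F →+* ℝ) →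
    ∀ (c : AlgebraicClosure F ≃+* AlgebraicClosure F) (σ : F ≃+* F) (hcs : BKOdd.ConjHyp c σ)
    (P : Set ℕ), p ∈ P →
    CompactSpace (GS F P) ∧ NonarchimedeanGroup (GS F P) ∧ T2Space (GS F P) ∧
    ∃ (χ : GS F P →* ℤ_[p]ˣ) (cG : GS F P →* GS F P),
      (∀ g : GF F, χ (QuotientGroup.mk g) = cycF p F g) ∧ Continuous χ ∧
      (∀ g : GF F, cG (QuotientGroup.mk g) = QuotientGroup.mk (BKOdd.conj c σ hcs.h g)) ∧
      Continuous cG ∧ (∀ g, cG (cG g) = g) ∧ (∀ g, χ (cG g) = χ g) ∧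
      (∀ (l : ℕ) [Fact l.Prime] (j : AlgebraicClosure F →+* PadicAlgCl l) (r : GQ l →* GF F),
        (∀ (t : GQ l) (x : AlgebraicClosure F), j (r t x) = t (j x)) →
        ∀ t : GQ l, cycF p F (r t) = cycL p l t) ∧
      (∀ (L : Type) [NormedField L] (n : ℕ) (V : GF F →* GL (Fin n) L), Continuous V →
        (∀ (l : ℕ) [Fact l.Prime], l ∉ P → ∀ j : AlgebraicClosure F →+* PadicAlgCl l,
          ∀ g ∈ Inert F (AlgebraicClosure F) j, V g = 1) →
        ∃ VG : GS F P →* GL (Fin n) L, Continuous VG ∧ (∀ g : GF F, VG (QuotientGroup.mk g) = V g) ∧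
        ∀ x ∈ BKOdd.Z1 V, (∀ g ∈ RS F P, x g = 0) → ∃ y ∈ BKOdd.Z1 VG,
          ∀ g : GF F, y (QuotientGroup.mk g) = x g)

/-- Module UNR: cocycles which are unramified away from `p`. -/
def StUnrM : Prop :=
  ∀ (p : ℕ) [Fact p.Prime] (F : Type) [Field F] [NumberField F],
    Module.finrank ℚ F = 2 →
    ∀ (c : AlgebraicClosure F ≃+* AlgebraicClosure F) (σ : F ≃+* F) (hcs : BKOdd.ConjHyp c σ)
    (L : Type) [NormedField L] [NormedAlgebra ℚ_[p] L] [FiniteDimensional ℚ_[p] L] (n : ℕ)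
    (V : GF F →* GL (Fin n) L), Continuous V → ∀ (Λ : Pl F), p ∈ Λ.P →
    (∀ (l : ℕ) [Fact l.Prime], l ∉ Λ.P → ∀ j : AlgebraicClosure F →+* PadicAlgCl l,
      ∀ g ∈ Inert F (AlgebraicClosure F) j, V g = 1) →
    (∀ i, Λ.l i ≠ p → BKOdd.Z1 (V.comp (Λ.r i)) ≤ BKOdd.B1 (V.comp (Λ.r i)) ∧
      BKOdd.Z1 ((V.comp (BKOdd.conj c σ hcs.h)).comp (Λ.r i)) ≤
        BKOdd.B1 ((V.comp (BKOdd.conj c σ hcs.h)).comp (Λ.r i))) →
    ∀ x ∈ BKOdd.Z1 V, BKOdd.UnrAway p V x ↔ ∀ g ∈ RS F Λ.P, x g = 0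

/-- Module CRYM: the condition at the places above `p`. -/
def StCrysM : Prop :=
  ∀ (p : ℕ) [Fact p.Prime] (F : Type) [Field F] [NumberField F],
    Module.finrank ℚ F = 2 →
    ∀ (c : AlgebraicClosure F ≃+* AlgebraicClosure F) (σ : F ≃+* F) (hcs : BKOdd.ConjHyp c σ)
    (L : Type) [NormedField L] [NormedAlgebra ℚ_[p] L] [FiniteDimensional ℚ_[p] L] (n : ℕ)
    (V : GF F →* GL (Fin n) L), Continuous V → ∀ (j : AlgebraicClosure F →+* PadicAlgCl p)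
    (r : GQ p →* GF F), Continuous r →
    (∀ (t : GQ p) (x : AlgebraicClosure F), j (r t x) = t (j x)) → ∀ B : GL (Fin n) L,
    ∀ x ∈ BKOdd.Z1 V, BKOdd.CrysAt p V x ↔
      (fun t => x (r t)) ∈ Zf (MonoidHom.id (GQ p)) (V.comp r) ∧
      (fun t => (B : Matrix (Fin n) (Fin n) L) *ᵥ x (BKOdd.conj c σ hcs.h (r t))) ∈
        Zf (MonoidHom.id (GQ p)) ((dualC V (BKOdd.conj c σ hcs.h) B).comp r)

/-- Module HODM: the theorem on the exponential map at a place above `p`. -/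
def StHodM : Prop :=
  ∀ (p : ℕ) [Fact p.Prime] (F : Type) [Field F] [NumberField F],
    Module.finrank ℚ F = 2 →
    ∀ (c : AlgebraicClosure F ≃+* AlgebraicClosure F) (σ : F ≃+* F) (hcs : BKOdd.ConjHyp c σ)
    (L : Type) [NormedField L] [NormedAlgebra ℚ_[p] L] [FiniteDimensional ℚ_[p] L] (n : ℕ)
    (V : GF F →* GL (Fin n) L), Continuous V → ∀ (j : AlgebraicClosure F →+* PadicAlgCl p)
    (r : GQ p →* GF F), Continuous r →
    (∀ (t : GQ p) (x : AlgebraicClosure F), j (r t x) = t (j x)) → ∀ B : GL (Fin n) L,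
    IsDual (cycF p F) V (V.comp (BKOdd.conj c σ hcs.h)) (B : Matrix (Fin n) (Fin n) L) →
    BKOdd.DeRhamAt j V → BKOdd.FrobAt ⊤ j V →
    BKOdd.FrobAt ⊤ (j.comp (c : AlgebraicClosure F →+* AlgebraicClosure F)) V →
    NoInv (V.comp r) ∧ NoInv ((V.comp (BKOdd.conj c σ hcs.h)).comp r) ∧
    ∃ s s' : ℕ, BKOdd.HodgePair (BKOdd.chL (cycL p p) L) (Zf (MonoidHom.id (GQ p)))
        (V.comp r) ((dualC V (BKOdd.conj c σ hcs.h) B).comp r) s s' ∧
      (FiniteDimensional L (BKOdd.Z1 (V.comp r)) →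
        Module.finrank L (BKOdd.cls (V.comp r) (Zf (MonoidHom.id (GQ p)) (V.comp r))) = s →
        BKOdd.tdim j V = s) ∧
      (FiniteDimensional L (BKOdd.Z1 ((dualC V (BKOdd.conj c σ hcs.h) B).comp r)) →
        Module.finrank L (BKOdd.cls ((dualC V (BKOdd.conj c σ hcs.h) B).comp r)
          (Zf (MonoidHom.id (GQ p)) ((dualC V (BKOdd.conj c σ hcs.h) B).comp r))) = s' →
        BKOdd.tdim (j.comp (c : AlgebraicClosure F →+* AlgebraicClosure F)) V = s')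

/-- Module PARM (from everything): **parity of `H¹_f`.** -/
def StParM : Prop :=
  ∀ (p : ℕ) [Fact p.Prime], p ≠ 2 → ∀ (F : Type) [Field F] [NumberField F],
    Module.finrank ℚ F = 2 → IsEmpty (F →+* ℝ) → Splits F p →
    ∀ (c : AlgebraicClosure F ≃+* AlgebraicClosure F) (σ : F ≃+* F) (hcs : BKOdd.ConjHyp c σ)
    (L : Type) [NormedField L] [NormedAlgebra ℚ_[p] L] [FiniteDimensional ℚ_[p] L] (n : ℕ)
    (V : GF F →* GL (Fin n) L), Continuous V →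
    ∀ P₀ : Set ℕ, P₀.Finite → (∀ l ∈ P₀, Splits F l) →
    (∀ (l : ℕ) [Fact l.Prime], l ≠ p → l ∉ P₀ → ∀ j : AlgebraicClosure F →+* PadicAlgCl l,
      ∀ g ∈ Inert F (AlgebraicClosure F) j, V g = 1) →
    (∀ (l : ℕ) [Fact l.Prime], l ≠ p → ∀ j : AlgebraicClosure F →+* PadicAlgCl l,
      ∀ v : Fin n → L, (∀ (g : GF F) (t : GQ l), (∀ z, j (g z) = t (j z)) →
        (V g : Matrix (Fin n) (Fin n) L) *ᵥ v = v) → v = 0) →
    ∀ A : GL (Fin n) L, Tri V A →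
    (∀ i : Fin n, ∃ g : GF F,
      ‖((A * V g * A⁻¹ : GL (Fin n) L) : Matrix (Fin n) (Fin n) L) i i *
        ((A * V (BKOdd.conj c σ hcs.h g) * A⁻¹ : GL (Fin n) L) : Matrix (Fin n) (Fin n) L) i i -
        BKOdd.chL (cycF p F) L g‖ = 1) →
    ∀ B : GL (Fin n) L, (B : Matrix (Fin n) (Fin n) L)ᵀ = B →
    IsDual (cycF p F) V (V.comp (BKOdd.conj c σ hcs.h)) (B : Matrix (Fin n) (Fin n) L) →
    (∀ j : AlgebraicClosure F →+* PadicAlgCl p, BKOdd.DeRhamAt j V) →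
    (∀ j : AlgebraicClosure F →+* PadicAlgCl p, BKOdd.FrobAt ⊤ j V) →
    FiniteDimensional L (BKOdd.H1f p V) ∧ ∀ j : AlgebraicClosure F →+* PadicAlgCl p,
      Module.finrank L (BKOdd.H1f p V) % 2 = BKOdd.tdim j V % 2

end Arith

end BKMet
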