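import Pool.Agent.Lib.MP_7c08ba_nt.Met.Arith

set_option autoImplicit false

/-!
Metabolic parity, part X: statements of the abstract modules.
-/

noncomputable section

namespace BKMet

open BKPar (Loc1 Loc2)
open BKND (Sm)

/-! ### Homomorphisms to `ℚ_p/ℤ_p` -/

/-- Module EXT: homomorphisms to `ℚ_p/ℤ_p` extend (`ℚ_p/ℤ_p` is divisible, Baer). -/
def StExt : Prop :=
  ∀ (p : ℕ) [Fact p.Prime] (V : Type) [AddCommGroup V] (W : AddSubgroup V) (f : W →+ QZ p),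
    ∃ F : V →+ QZ p, ∀ w : W, F w = f w

/-- Module HOMS: a finite group has at most `|V|` homomorphisms to `ℚ_p/ℤ_p`, with equality if the
order is a power of `p`; homomorphisms separate the points of a `p`-group. -/
def StHoms : Prop :=
  ∀ (p : ℕ) [Fact p.Prime] (V : Type) [AddCommGroup V] [Finite V],
    Finite (V →+ QZ p) ∧ Nat.card (V →+ QZ p) ≤ Nat.card V ∧
    ((∃ k : ℕ, Nat.card V = p ^ k) → Nat.card (V →+ QZ p) = Nat.card V ∧
      ∀ v : V, v ≠ 0 → ∃ f : V →+ QZ p, f v ≠ 0)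

/-- Module DUAL (from EXT, HOMS): a pairing of subgroups `X`, `Y` with left kernel `X₁` of finite
index and right kernel `Y₁`. -/
def StDual : Prop :=
  ∀ (p : ℕ) [Fact p.Prime] (V W : Type) [AddCommGroup V] [AddCommGroup W]
    (B : V → W → QZ p) (X X₁ : AddSubgroup V) (Y Y₁ : AddSubgroup W),
    (∀ x ∈ X, ∀ x' ∈ X, ∀ y ∈ Y, B (x + x') y = B x y + B x' y) →
    (∀ x ∈ X, ∀ y ∈ Y, ∀ y' ∈ Y, B x (y + y') = B x y + B x y') →
    X₁ ≤ X → Y₁ ≤ Y →
    (∀ x ∈ X, x ∈ X₁ ↔ ∀ y ∈ Y, B x y = 0) → (∀ y ∈ Y, y ∈ Y₁ ↔ ∀ x ∈ X, B x y = 0) →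
    X₁.relIndex X ≠ 0 →
    Y₁.relIndex Y = X₁.relIndex X ∧
    ∀ φ : V → QZ p, (∀ x ∈ X, ∀ x' ∈ X, φ (x + x') = φ x + φ x') → (∀ x ∈ X₁, φ x = 0) →
      ∃ y ∈ Y, ∀ x ∈ X, φ x = B x y

/-- Module PERF (from HOMS): annihilators for a nondegenerate pairing of finite groups. -/
def StPerf : Prop :=
  ∀ (p : ℕ) [Fact p.Prime] (V W : Type) [AddCommGroup V] [AddCommGroup W] [Finite V]
    (B : V →+ W →+ QZ p), (∀ v, (∀ w, B v w = 0) → v = 0) → (∀ w, (∀ v, B v w = 0) → w = 0) →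
    Finite W ∧ Nat.card W = Nat.card V ∧
    ∀ (A : AddSubgroup V) (C : AddSubgroup W), (∀ w, w ∈ C ↔ ∀ v ∈ A, B v w = 0) →
      Nat.card A * Nat.card C = Nat.card V ∧ (∀ v, v ∈ A ↔ ∀ w ∈ C, B v w = 0) ∧
      ∀ (A' : AddSubgroup V) (C' : AddSubgroup W), (∀ w, w ∈ C' ↔ ∀ v ∈ A', B v w = 0) →
        ∀ v, (∀ w ∈ C, w ∈ C' → B v w = 0) → v ∈ A ⊔ A'

/-! ### The trace -/

section Two

variable {ι : Type} {D : ι → Type} [∀ i, Group (D i)] {G : Type} [Group G] {X : Type}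

/-- the local groups, each taken twice -/
abbrev DD (D : ι → Type) (w : ι × Bool) : Type := D w.1

/-- the maps from the local groups, and their conjugates -/
def rr (r : ∀ i, D i →* G) (c : G →* G) (w : ι × Bool) : DD D w →* G :=
  if w.2 then c.comp (r w.1) else r w.1

/-- the local invariants: twice the given ones, with the opposite sign at the conjugate places -/
def ii {A E : Type} [AddCommGroup A] [AddCommGroup E] (inv : ∀ i, (D i → D i → A) →+ E)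
    (w : ι × Bool) : (DD D w → DD D w → A) →+ E :=
  if w.2 then -(2 • inv w.1) else 2 • inv w.1

/-- functions of three variables composed with the conjugation -/
def cc3 (c : G →* G) (a : G → G → G → X) : G → G → G → X := fun g h k => a (c g) (c h) (c k)

/-- exchange of the conjugate places -/
def swp {Y : ι → Type} (β : ∀ w : ι × Bool, Y w.1) : ∀ w : ι × Bool, Y w.1 := fun w => β (w.1, !w.2)

end Two

/-- Module TR (from EXT): the trace, antisymmetric under conjugation. -/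
def StTr : Prop :=
  ∀ (p : ℕ) [Fact p.Prime] (ι : Type) [Fintype ι] (G : Type) [Group G] [TopologicalSpace G]
    (D : ι → Type) [∀ i, Group (D i)] [∀ i, TopologicalSpace (D i)] (r : ∀ i, D i →* G),
    (∀ i, Continuous (r i)) → ∀ (c : G →* G), Continuous c → (∀ g, c (c g) = g) →
    ∀ (A : Type) [AddCommGroup A] (α : G →* AddMonoid.End A), (∀ g, α (c g) = α g) →
    ∀ inv : ∀ i, (D i → D i → A) →+ QZ p,
    (∀ i, ∀ z ∈ BKND.B2 (α.comp (r i)), inv i z = 0) →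
    (∀ z ∈ BKND.Z2 α, ∑ i, (inv i (pb2 (r i) z) - inv i (pb2 (c.comp (r i)) z)) = 0) →
    ∃ tr : ((G → G → G → A) × (∀ w : ι × Bool, DD D w → DD D w → A)) →+ QZ p,
      (∀ ε : G → G → A, Loc2 ε → ∀ β : ∀ w : ι × Bool, DD D w → DD D w → A,
        (∀ w, β w - pb2 (rr r c w) ε ∈ BKND.Z2 (α.comp (rr r c w))) →
          tr (d2 α ε, β) = ∑ w, ii inv w (β w - pb2 (rr r c w) ε)) ∧
      ∀ a β, tr (cc3 c a, swp (Y := fun i => D i → D i → A) β) = - tr (a, β)

/-! ### The pairing -/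

section Pairing

/-- Module CT: bilinearity and vanishing of the pairing. -/
def StCT : Prop :=
  ∀ (R : Type) [CommRing R] (S : Type) [Fintype S] (G : Type) [Group G] [TopologicalSpace G]
    [IsTopologicalGroup G] [CompactSpace G] (D : S → Type) [∀ w, Group (D w)]
    [∀ w, TopologicalSpace (D w)] (A E : Type) [AddCommGroup A] [AddCommGroup E]
    (Γ : Glo S G D A E) (M M' : Type) [AddCommGroup M] [Module R M] [AddCommGroup M']
    [Module R M'] (X : Pair R Γ.α M M') (T : Set S),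
    (∀ x x' y, CT Γ X T (x + x') y = CT Γ X T x y + CT Γ X T x' y) ∧
    (∀ x y y', CT Γ X T x (y + y') = CT Γ X T x y + CT Γ X T x y') ∧
    (∀ (a : R) x y, CT Γ X T (a • x) y = CT Γ X T x (a • y)) ∧
    ∀ N : Submodule R M, X.Stable N →
    (∀ x ∈ X.Br T N ⊤, ∀ y ∈ X.flip.Zr Γ.r Tᶜ (X.perp N) ⊤, CT Γ X T x y = 0) ∧
    (∀ x ∈ X.Zr Γ.r T N ⊤, ∀ y ∈ X.flip.Br Tᶜ (X.perp N) ⊤, CT Γ X T x y = 0) ∧
    (∀ x ∈ X.Zr Γ.r T N ⊤, ∀ y ∈ X.flip.Zr Γ.r Tᶜ ⊤ (X.perp N), CT Γ X T x y = 0)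

/-- Module SWAP: the pairing is symmetric. -/
def StSwap : Prop :=
  ∀ (R : Type) [CommRing R] (S : Type) [Fintype S] (G : Type) [Group G] [TopologicalSpace G]
    [IsTopologicalGroup G] [CompactSpace G] (D : S → Type) [∀ w, Group (D w)]
    [∀ w, TopologicalSpace (D w)] (A E : Type) [AddCommGroup A] [AddCommGroup E]
    (Γ : Glo S G D A E) (M M' : Type) [AddCommGroup M] [Module R M] [AddCommGroup M']
    [Module R M'] (X : Pair R Γ.α M M') (T : Set S) (N : Submodule R M), X.Stable N →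
    ∀ x ∈ X.Zr Γ.r T N ⊤, ∀ y ∈ X.flip.Zr Γ.r Tᶜ (X.perp N) ⊤,
      CT Γ X T x y = CT Γ X.flip Tᶜ y x

end Pairing

/-- Module PERP (from HOMS): annihilators. -/
def StPerp : Prop :=
  ∀ (R : Type) [CommRing R] (p : ℕ) [Fact p.Prime] (G : Type) [Group G] [TopologicalSpace G]
    (α : G →* AddMonoid.End (QZ p)) (M M' : Type) [AddCommGroup M] [Module R M]
    [AddCommGroup M'] [Module R M'] (X : Pair R α M M'),
    (∀ P : Submodule R M, X.flip.perp (X.perp P) = P) ∧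
    (∀ P Q : Submodule R M, P ≤ Q → X.perp Q ≤ X.perp P) ∧ X.perp ⊤ = ⊥ ∧ X.perp ⊥ = ⊤ ∧
    (∀ P : Submodule R M, X.Stable P → X.flip.Stable (X.perp P)) ∧
    (Finite M → Finite M' ∧ Nat.card M' = Nat.card M ∧
      ∀ P : Submodule R M, Nat.card P * Nat.card (X.perp P) = Nat.card M)

/-- Module EXACT: exactness, for a nonempty set of conditions. -/
def StExact : Prop :=
  ∀ (R : Type) [CommRing R] (G : Type) [Group G] [TopologicalSpace G] [IsTopologicalGroup G]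
    [CompactSpace G] (S : Type) (D : S → Type) [∀ w, Group (D w)] (r : ∀ w, D w →* G)
    (A : Type) [AddCommGroup A] (α : G →* AddMonoid.End A) (M M' : Type) [AddCommGroup M]
    [Module R M] [AddCommGroup M'] [Module R M'] (X : Pair R α M M') (T : Set S), T.Nonempty →
    (∀ P Q : Submodule R M, X.Stable P → P ≤ Q → X.Stable Q → X.Br T P Q ≤ X.Zr r T P Q) ∧
    ∀ P N Q : Submodule R M, X.Stable P → X.Stable N → X.Stable Q → P ≤ N → N ≤ Q →
    (∀ x ∈ X.Zr r T P N, x ∈ X.Br T P Q → x ∈ X.Br T P N) ∧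
    (∀ x ∈ X.Zr r T P Q, x ∈ X.Br T N Q → ∃ x' ∈ X.Zr r T P N, x - x' ∈ X.Br T P Q) ∧
    (X.Br T P Q).toAddSubgroup.relIndex (X.Zr r T P Q).toAddSubgroup =
      (X.Br T P N).toAddSubgroup.relIndex (X.Zr r T P N).toAddSubgroup *
      (X.Br T N Q).toAddSubgroup.relIndex
        ((X.Zr r T P Q) ⊔ (X.Br T N Q)).toAddSubgroup

/-! ### One dimensional subquotients -/

section Line

variable {R : Type} [CommRing R] {p : ℕ} [Fact p.Prime] {G : Type} [Group G]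
  [TopologicalSpace G] {α : G →* AddMonoid.End (QZ p)} {M M' : Type} [AddCommGroup M]
  [Module R M] [AddCommGroup M'] [Module R M']

/-- The quotient `N / P` is isomorphic to `k(ψ)` through `φ`, the quotient of the annihilators is
isomorphic to `k(ψ')` through `φ'`, and the pairing is `lam (φ n * φ' m)`. -/
structure IsLine (X : Pair R α M M') (P N : Submodule R M) (k : Type) [Field k]
    (ψ ψ' : G →* kˣ) (lam : k →+ QZ p) (φ : M → k) (φ' : M' → k) : Prop where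
  add : ∀ x ∈ N, ∀ y ∈ N, φ (x + y) = φ x + φ y
  ker : ∀ x ∈ N, φ x = 0 ↔ x ∈ P
  surj : ∀ a : k, ∃ x ∈ N, φ x = a
  act : ∀ g, ∀ x ∈ N, φ (X.ρ g x) = ((ψ g : kˣ) : k) * φ x
  add' : ∀ x ∈ X.perp P, ∀ y ∈ X.perp P, φ' (x + y) = φ' x + φ' y
  ker' : ∀ x ∈ X.perp P, φ' x = 0 ↔ x ∈ X.perp N
  surj' : ∀ a : k, ∃ x ∈ X.perp P, φ' x = a
  act' : ∀ g, ∀ x ∈ X.perp P, φ' (X.ρ' g x) = ((ψ' g : kˣ) : k) * φ' x
  pair : ∀ x ∈ N, ∀ y ∈ X.perp P, X.b x y = lam (φ x * φ' y)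

/-- All the situations of the induction: a chain condition which provides one dimensional
subquotients with characters trivial on `U`. -/
def Lines (X : Pair R α M M') (k : Type) [Field k] (U : Subgroup G) : Prop :=
  ∀ P Q : Submodule R M, X.Stable P → X.Stable Q → P < Q → ∃ N : Submodule R M,
    X.Stable N ∧ P ≤ N ∧ N ≤ Q ∧ ∃ (ψ ψ' : G →* kˣ) (lam : k →+ QZ p) (φ : M → k)
      (φ' : M' → k), (∀ u ∈ U, ψ u = 1) ∧ (∀ u ∈ U, ψ' u = 1) ∧ lam ≠ 0 ∧
        IsLine X P N k ψ ψ' lam φ φ'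

end Line

/-- Module LINES: a pair has enough one dimensional subquotients if every nontrivial subquotient
contains an eigenvector. `R` is a local ring with residue field `k`. -/
def StLines : Prop :=
  ∀ (R : Type) [CommRing R] [IsLocalRing R] [Finite (IsLocalRing.ResidueField R)]
    (p : ℕ) [Fact p.Prime] (G : Type) [Group G] [TopologicalSpace G]
    (χ : G →* ℤ_[p]ˣ) (M M' : Type) [AddCommGroup M] [Module R M] [AddCommGroup M']
    [Module R M'] [Finite M] (X : Pair R (actA χ) M M')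
    (_ : Algebra (ZMod p) (IsLocalRing.ResidueField R)) (U : Subgroup G),
    IsOpen (U : Set G) →
    (∀ u ∈ U, PadicInt.toZMod ((χ u : ℤ_[p]ˣ) : ℤ_[p]) = 1) →
    (∀ P Q : Submodule R M, X.Stable P → X.Stable Q → P < Q → ∃ x ∈ Q, x ∉ P ∧
      (∀ a ∈ IsLocalRing.maximalIdeal R, a • x ∈ P) ∧
      ∃ ψ : G →* (IsLocalRing.ResidueField R)ˣ, (∀ u ∈ U, ψ u = 1) ∧
        ∀ (g : G) (a : R), IsLocalRing.residue R a = ((ψ g : (IsLocalRing.ResidueField R)ˣ) :
          IsLocalRing.ResidueField R) → X.ρ g x - a • x ∈ P) →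
    Lines X (IsLocalRing.ResidueField R) U ∧ Lines X.flip (IsLocalRing.ResidueField R) U

/-! ### Duality for one dimensional modules -/

/-- The axioms for a global situation with coefficients `ℚ_p/ℤ_p(χ)`. -/
structure GAx (p : ℕ) [Fact p.Prime] {S : Type} [Fintype S] {G : Type} [Group G]
    [TopologicalSpace G] {D : S → Type} [∀ w, Group (D w)] [∀ w, TopologicalSpace (D w)]
    (Γ : Glo S G D (QZ p) (QZ p)) (χ : G →* ℤ_[p]ˣ) (U : Subgroup G) (δ : S → ℕ) : Prop where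
  act : Γ.α = actA χ
  open' : IsOpen (U : Set G)
  fix : ∀ u ∈ U, PadicInt.toZMod ((χ u : ℤ_[p]ˣ) : ℤ_[p]) = 1
  loc : ∀ w, LocAx p (χ.comp (Γ.r w)) (Γ.inv w) (δ w)
  glob : GlobAx p Γ.r χ U
  sum : ∑ w, δ w = 2

/-- Module ANN (from DUAL): the image of `H¹(G, k(ψ))` in the local groups is the exact annihilator
of the image of `H¹(G, k(ψ'))`; classes with conditions at the places outside `T`; the number of
classes which are trivial at the places in `T`. -/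
def StAnn : Prop :=
  ∀ (p : ℕ) [Fact p.Prime] (S : Type) [Fintype S] (G : Type) [Group G] [TopologicalSpace G]
    [IsTopologicalGroup G] [CompactSpace G] (D : S → Type) [∀ w, Group (D w)]
    [∀ w, TopologicalSpace (D w)] [∀ w, IsTopologicalGroup (D w)] [∀ w, CompactSpace (D w)]
    (Γ : Glo S G D (QZ p) (QZ p)) (χ : G →* ℤ_[p]ˣ)
    (U : Subgroup G) (δ : S → ℕ), GAx p Γ χ U δ →
    ∀ (k : Type) [Field k] [Finite k] [Algebra (ZMod p) k] (ψ ψ' : G →* kˣ),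
    (∀ u ∈ U, ψ u = 1) → (∀ u ∈ U, ψ' u = 1) → Rel χ ψ ψ' → ∀ lam : k →+ QZ p, lam ≠ 0 →
    (∀ (T : Set S) (b : ∀ w, D w → k), (∀ w, b w ∈ BKND.Z1 (kch (ψ.comp (Γ.r w)))) →
      (∀ e ∈ BKND.Z1 (kch ψ'), (∀ w ∉ T, pb1 (Γ.r w) e ∈ BKND.B1 (kch (ψ'.comp (Γ.r w)))) →
        (∑ w, open Classical in if w ∈ T then
          Γ.inv w (cupk (ψ'.comp (Γ.r w)) lam (b w) (pb1 (Γ.r w) e)) else 0) = 0) →
      ∃ η ∈ BKND.Z1 (kch ψ), ∀ w ∈ T,
        pb1 (Γ.r w) η - b w ∈ BKND.B1 (kch (ψ.comp (Γ.r w)))) ∧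
    ∀ T : Set S, Finite {f : G → k | f ∈ BKND.Z1 (kch ψ)} ∧
      Nat.card {f : G → k | f ∈ BKND.Z1 (kch ψ) ∧
          ∀ w ∈ T, pb1 (Γ.r w) f ∈ BKND.B1 (kch (ψ.comp (Γ.r w)))} *
        Nat.card k ^ (∑ w, open Classical in if w ∈ T then δ w else 0) *
        ∏ w, (open Classical in if w ∈ T then Nat.card (BKND.H0 (kch (ψ.comp (Γ.r w)))) else 1) =
      Nat.card {f : G → k | f ∈ BKND.Z1 (kch ψ') ∧
          ∀ w ∉ T, pb1 (Γ.r w) f ∈ BKND.B1 (kch (ψ'.comp (Γ.r w)))} *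
        Nat.card k *
        ∏ w, (open Classical in if w ∈ T then 1 else Nat.card (BKND.H0 (kch (ψ'.comp (Γ.r w)))))

/-- Module LINEA (from ANN, CT): the left kernel of the pairing for a one dimensional subquotient
`N / P`. -/
def StLineA : Prop :=
  ∀ (R : Type) [CommRing R] (p : ℕ) [Fact p.Prime] (S : Type) [Fintype S] (G : Type) [Group G]
    [TopologicalSpace G] [IsTopologicalGroup G] [CompactSpace G] (D : S → Type)
    [∀ w, Group (D w)] [∀ w, TopologicalSpace (D w)] [∀ w, IsTopologicalGroup (D w)]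
    [∀ w, CompactSpace (D w)] (Γ : Glo S G D (QZ p) (QZ p))
    (χ : G →* ℤ_[p]ˣ) (U : Subgroup G) (δ : S → ℕ), GAx p Γ χ U δ →
    ∀ (M M' : Type) [AddCommGroup M] [Module R M] [AddCommGroup M'] [Module R M'] [Finite M]
    (X : Pair R Γ.α M M') (T : Set S), T.Nonempty → Tᶜ.Nonempty →
    ∀ P N Q : Submodule R M, X.Stable P → X.Stable N → X.Stable Q → P ≤ N → N ≤ Q →
    ∀ (k : Type) [Field k] [Finite k] [Algebra (ZMod p) k] (ψ ψ' : G →* kˣ),
    (∀ u ∈ U, ψ u = 1) → (∀ u ∈ U, ψ' u = 1) → ∀ lam : k →+ QZ p, lam ≠ 0 →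
    ∀ (φ : M → k) (φ' : M' → k), IsLine X P N k ψ ψ' lam φ φ' →
    ∀ x ∈ X.Zr Γ.r T N Q, (∀ y ∈ X.flip.Zr Γ.r Tᶜ (X.perp N) (X.perp P), CT Γ X T x y = 0) →
      ∃ x' ∈ X.Zr Γ.r T P Q, x - x' ∈ X.Br T N Q

/-- Module LINEB (from ANN): the number of classes with values in a one dimensional
subquotient. -/
def StLineB : Prop :=
  ∀ (R : Type) [CommRing R] (p : ℕ) [Fact p.Prime] (S : Type) [Fintype S] (G : Type) [Group G]
    [TopologicalSpace G] [IsTopologicalGroup G] [CompactSpace G] (D : S → Type)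
    [∀ w, Group (D w)] [∀ w, TopologicalSpace (D w)] [∀ w, IsTopologicalGroup (D w)]
    [∀ w, CompactSpace (D w)] (Γ : Glo S G D (QZ p) (QZ p))
    (χ : G →* ℤ_[p]ˣ) (U : Subgroup G) (δ : S → ℕ), GAx p Γ χ U δ →
    ∀ (M M' : Type) [AddCommGroup M] [Module R M] [AddCommGroup M'] [Module R M'] [Finite M]
    (X : Pair R Γ.α M M') (T : Set S), T.Nonempty → Tᶜ.Nonempty →
    ∀ P N : Submodule R M, X.Stable P → X.Stable N → P ≤ N →
    ∀ (k : Type) [Field k] [Finite k] [Algebra (ZMod p) k] (ψ ψ' : G →* kˣ),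
    (∀ u ∈ U, ψ u = 1) → (∀ u ∈ U, ψ' u = 1) → ∀ lam : k →+ QZ p, lam ≠ 0 →
    ∀ (φ : M → k) (φ' : M' → k), IsLine X P N k ψ ψ' lam φ φ' →
    (X.Br T P N).toAddSubgroup.relIndex (X.Zr Γ.r T P N).toAddSubgroup ≠ 0 ∧
    (X.flip.Br Tᶜ (X.perp N) (X.perp P)).toAddSubgroup.relIndex
      (X.flip.Zr Γ.r Tᶜ (X.perp N) (X.perp P)).toAddSubgroup ≠ 0 ∧
    (X.Br T P N).toAddSubgroup.relIndex (X.Zr Γ.r T P N).toAddSubgroup *
      Nat.card k ^ (∑ w, open Classical in if w ∈ T then δ w else 0) =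
    (X.flip.Br Tᶜ (X.perp N) (X.perp P)).toAddSubgroup.relIndex
      (X.flip.Zr Γ.r Tᶜ (X.perp N) (X.perp P)).toAddSubgroup * Nat.card k

/-! ### Duality for all modules -/

/-- Module IND (from CT, SWAP, PERP, EXACT, DUAL, LINEA, LINEB): the left kernel of the pairing, and
the Euler characteristic. -/
def StInd : Prop :=
  ∀ (R : Type) [CommRing R] (p : ℕ) [Fact p.Prime] (S : Type) [Fintype S] (G : Type) [Group G]
    [TopologicalSpace G] [IsTopologicalGroup G] [CompactSpace G] (D : S → Type)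
    [∀ w, Group (D w)] [∀ w, TopologicalSpace (D w)] [∀ w, IsTopologicalGroup (D w)]
    [∀ w, CompactSpace (D w)] (Γ : Glo S G D (QZ p) (QZ p))
    (χ : G →* ℤ_[p]ˣ) (U : Subgroup G) (δ : S → ℕ), GAx p Γ χ U δ →
    ∀ (M M' : Type) [AddCommGroup M] [Module R M] [AddCommGroup M'] [Module R M'] [Finite M]
    (X : Pair R Γ.α M M') (k : Type) [Field k] [Finite k] [Algebra (ZMod p) k],
    Lines X k U → Lines X.flip k U → ∀ T : Set S, T.Nonempty → Tᶜ.Nonempty →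
    ∀ P N Q : Submodule R M, X.Stable P → X.Stable N → X.Stable Q → P ≤ N → N ≤ Q →
    (∀ x ∈ X.Zr Γ.r T N Q, (∀ y ∈ X.flip.Zr Γ.r Tᶜ (X.perp N) (X.perp P), CT Γ X T x y = 0) →
      ∃ x' ∈ X.Zr Γ.r T P Q, x - x' ∈ X.Br T N Q) ∧
    (X.Br T P Q).toAddSubgroup.relIndex (X.Zr Γ.r T P Q).toAddSubgroup ≠ 0 ∧
    (X.flip.Br Tᶜ (X.perp Q) (X.perp P)).toAddSubgroup.relIndex
      (X.flip.Zr Γ.r Tᶜ (X.perp Q) (X.perp P)).toAddSubgroup ≠ 0 ∧
    (X.Br T P Q).toAddSubgroup.relIndex (X.Zr Γ.r T P Q).toAddSubgroup *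
      (P.toAddSubgroup.relIndex Q.toAddSubgroup) ^ (∑ w, open Classical in
        if w ∈ T then δ w else 0) =
    (X.flip.Br Tᶜ (X.perp Q) (X.perp P)).toAddSubgroup.relIndex
      (X.flip.Zr Γ.r Tᶜ (X.perp Q) (X.perp P)).toAddSubgroup *
      P.toAddSubgroup.relIndex Q.toAddSubgroup

/-! ### The self dual situation -/

/-- Module ALT: a finite module over a local ring with a nondegenerate alternating form. -/
def StAlt : Prop :=
  ∀ (R : Type) [CommRing R] [IsLocalRing R] [Finite (IsLocalRing.ResidueField R)] (p : ℕ)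
    [Fact p.Prime], p ≠ 2 → ∀ (V : Type) [AddCommGroup V] [Module R V] (Z B : Submodule R V)
    (s : V → V → QZ p), B ≤ Z → B.toAddSubgroup.relIndex Z.toAddSubgroup ≠ 0 →
    (∀ x ∈ Z, ∀ x' ∈ Z, ∀ y ∈ Z, s (x + x') y = s x y + s x' y) →
    (∀ x ∈ Z, ∀ y ∈ Z, ∀ a : R, s (a • x) y = s x (a • y)) →
    (∀ x ∈ Z, ∀ y ∈ Z, s x y = - s y x) →
    (∀ x ∈ Z, x ∈ B ↔ ∀ y ∈ Z, s x y = 0) →
    ∃ m : ℕ, B.toAddSubgroup.relIndex Z.toAddSubgroup =
      Nat.card (IsLocalRing.ResidueField R) ^ (2 * m)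

/-- Module SD (from IND, SWAP, ALT): the order of the cohomology of a module with a symmetric form
with respect to the conjugation `c` and a stable Lagrangian submodule `N` is an even power. -/
def StSD : Prop :=
  ∀ (R : Type) [CommRing R] [IsLocalRing R] [Finite (IsLocalRing.ResidueField R)]
    (p : ℕ) [Fact p.Prime], p ≠ 2 → ∀ (_ : Algebra (ZMod p) (IsLocalRing.ResidueField R))
    (ι : Type) [Fintype ι] (G : Type) [Group G]
    [TopologicalSpace G] [IsTopologicalGroup G] [CompactSpace G] (D : ι → Type)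
    [∀ i, Group (D i)] [∀ i, TopologicalSpace (D i)] [∀ i, IsTopologicalGroup (D i)]
    [∀ i, CompactSpace (D i)] (r : ∀ i, D i →* G) (c : G →* G), Continuous c →
    (∀ g, c (c g) = g) → ∀ (Γ : Glo (ι × Bool) G (DD D) (QZ p) (QZ p)),
    (∀ w, Γ.r w = rr r c w) → (∀ i, ∀ z, Γ.inv (i, true) z = - Γ.inv (i, false) z) →
    (∀ a β, Γ.tr (cc3 c a, swp (Y := fun i => D i → D i → QZ p) β) = - Γ.tr (a, β)) →
    ∀ (χ : G →* ℤ_[p]ˣ), (∀ g, χ (c g) = χ g) → ∀ (U : Subgroup G) (δ : ι × Bool → ℕ),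
    GAx p Γ χ U δ → ∑ i, δ (i, false) = 1 →
    ∀ (M : Type) [AddCommGroup M] [Module R M] [Finite M] (X : Pair R Γ.α M M),
    X.ρ' = X.ρ.comp c → (∀ m m', X.b m m' = X.b m' m) →
    Lines X (IsLocalRing.ResidueField R) U → Lines X.flip (IsLocalRing.ResidueField R) U →
    ∀ N : Submodule R M, X.Stable N → X.perp N = N →
    ∃ m : ℕ, (X.Br {w | w.2 = false} ⊥ ⊤).toAddSubgroup.relIndex
      (X.Zr Γ.r {w | w.2 = false} ⊥ ⊤).toAddSubgroup =
        Nat.card (IsLocalRing.ResidueField R) ^ (2 * m)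

end BKMet
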