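import Pool.Agent.Lib.MP_7c08ba_nt.Met.OO
import Pool.Agent.Lib.MP_7c08ba_nt.Met.StX
import Pool.Agent.Lib.MP_7c08ba_nt.Odd.BKLoc

set_option autoImplicit false

/-!
Metabolic parity, part L: coefficients in a finite extension `L` of `ℚ_p`. Definitions and
statements.
-/

noncomputable section

namespace BKMet

open BKPar (Loc1 Loc2)
open BKND (Sm)
open Matrix

/-! ### Definitions -/

section Defs

variable (p : ℕ) [Fact p.Prime]

/-- the class of a `p`-adic number in `ℚ_p/ℤ_p` -/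
def cl (x : ℚ_[p]) : QZ p := Submodule.Quotient.mk x

variable (L : Type) [NormedField L] [NormedAlgebra ℚ_[p] L]

/-- the residue field of `L` -/
abbrev kk : Type := IsLocalRing.ResidueField (OO p L)

/-- matrices with integral entries as matrices over `L` -/
def toL (n : ℕ) : GL (Fin n) (OO p L) →* GL (Fin n) L :=
  Matrix.GeneralLinearGroup.map (OO p L).subtype

variable [FiniteDimensional ℚ_[p] L]

/-- `(𝒪/π^k)^n` -/
abbrev MK (n k : ℕ) : Type := Fin n → (OO p L ⧸ (Ideal.span {pi0 p L ^ k} : Ideal (OO p L)))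

variable {n : ℕ}

/-- reduction of vectors modulo `π^k` -/
def rv (k : ℕ) : (Fin n → OO p L) →ₗ[OO p L] MK p L n k where
  toFun v i := Ideal.Quotient.mk _ (v i)
  map_add' v w := by
    funext i
    simp
  map_smul' a v := by
    funext i
    rfl

/-- a functional on `L` for which the ring of integers is its own dual -/
def IsLam (lam : L →ₗ[ℚ_[p]] ℚ_[p]) : Prop :=
  ∀ x : L, (∀ a : OO p L, ‖lam ((a : L) * x)‖ ≤ 1) ↔ ‖x‖ ≤ 1

/-- the submodule `π^k E` -/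
def piE (E : Type) [AddCommGroup E] [Module (OO p L) E] (k : ℕ) : Submodule (OO p L) E :=
  LinearMap.range (LinearMap.lsmul (OO p L) E (pi0 p L ^ k))

end Defs

section Reps

variable {p : ℕ} [Fact p.Prime] {L : Type} [NormedField L] [NormedAlgebra ℚ_[p] L]
  {G : Type} [Group G] {n : ℕ}

/-- In the basis given by `A` the matrices of `V` have integral entries and are upper triangular
modulo the maximal ideal. -/
def Tri (V : G →* GL (Fin n) L) (A : GL (Fin n) L) : Prop :=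
  ∀ (g : G) (i j : Fin n), ‖((A * V g * A⁻¹ : GL (Fin n) L) : Matrix (Fin n) (Fin n) L) i j‖ ≤ 1 ∧
    (j < i → ‖((A * V g * A⁻¹ : GL (Fin n) L) : Matrix (Fin n) (Fin n) L) i j‖ < 1)

/-- `ψ` is one of the diagonal characters of the reduction of `V` in the basis given by `A`. -/
def IsDiag (V : G →* GL (Fin n) L) (A : GL (Fin n) L) (ψ : G →* (kk p L)ˣ) : Prop :=
  ∃ i : Fin n, ∀ (g : G) (a : OO p L),
    (a : L) = ((A * V g * A⁻¹ : GL (Fin n) L) : Matrix (Fin n) (Fin n) L) i i →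
      IsLocalRing.residue (OO p L) a = ((ψ g : (kk p L)ˣ) : kk p L)

/-- The pairing with matrix `B` of the representations `V` and `V'` has values in `L(χ)`. -/
def IsDual (χ : G →* ℤ_[p]ˣ) (V V' : G →* GL (Fin n) L) (B : Matrix (Fin n) (Fin n) L) : Prop :=
  ∀ g, (V g : Matrix (Fin n) (Fin n) L)ᵀ * B * (V' g : Matrix (Fin n) (Fin n) L) =
    BKOdd.chL χ L g • B

/-- no invariants -/
def NoInv (V : G →* GL (Fin n) L) : Prop :=
  ∀ v : Fin n → L, (∀ g, (V g : Matrix (Fin n) (Fin n) L) *ᵥ v = v) → v = 0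

variable [FiniteDimensional ℚ_[p] L]

/-- Eigenvectors: every nontrivial quotient `Q / P` of lattices stable under `H` contains an
eigenvector, with one of the characters in `Ψ`. -/
def Eig (ρ : G →* GL (Fin n) (OO p L)) (Ψ : (G →* (kk p L)ˣ) → Prop) : Prop :=
  ∀ (H : Set G) (P Q : Submodule (OO p L) (Fin n → OO p L)),
    (∀ g ∈ H, ∀ x ∈ P, (ρ g : Matrix (Fin n) (Fin n) (OO p L)) *ᵥ x ∈ P) →
    (∀ g ∈ H, ∀ x ∈ Q, (ρ g : Matrix (Fin n) (Fin n) (OO p L)) *ᵥ x ∈ Q) → P < Q →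
    (∃ N : ℕ, ∀ x : Fin n → OO p L, pi0 p L ^ N • x ∈ P) →
    ∃ x ∈ Q, x ∉ P ∧ pi0 p L • x ∈ P ∧ ∃ ψ : G →* (kk p L)ˣ, Ψ ψ ∧ ∀ g ∈ H, ∀ a : OO p L,
      IsLocalRing.residue (OO p L) a = ((ψ g : (kk p L)ˣ) : kk p L) →
        (ρ g : Matrix (Fin n) (Fin n) (OO p L)) *ᵥ x - a • x ∈ P

/-- `X` is the pair of modules `(𝒪/π^k)^n` with the actions `ρ`, `ρ'` and the pairing
`λ(xᵗ B y / π^k)`. -/
structure IsMk [TopologicalSpace G] (χ : G →* ℤ_[p]ˣ) (lam : L →ₗ[ℚ_[p]] ℚ_[p]) (k : ℕ)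
    (ρ ρ' : G →* GL (Fin n) (OO p L)) (B : Matrix (Fin n) (Fin n) (OO p L))
    (X : Pair (OO p L) (actA χ) (MK p L n k) (MK p L n k)) : Prop where
  act : ∀ g v, X.ρ g (rv p L k v) = rv p L k ((ρ g : Matrix (Fin n) (Fin n) (OO p L)) *ᵥ v)
  act' : ∀ g v, X.ρ' g (rv p L k v) = rv p L k ((ρ' g : Matrix (Fin n) (Fin n) (OO p L)) *ᵥ v)
  pair : ∀ x y, X.b (rv p L k x) (rv p L k y) =
    cl p (lam (((x ⬝ᵥ (B *ᵥ y) : OO p L) : L) / ((pi0 p L : OO p L) : L) ^ k))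

end Reps

section Glob

variable {L : Type} [NormedField L] {G : Type} [Group G] [TopologicalSpace G] {n : ℕ} {S : Type}
  {D : S → Type} [∀ w, Group (D w)]

/-- the cocycles of `G` with values in `V` with conditions at the places in `T`: pairs of a cocycle
`f` and vectors `m w` for `w` in `T` with `f = d (m w)` on `D w` -/
def ZTV (V : G →* GL (Fin n) L) (r : ∀ w, D w →* G) (T : Set S) :
    Submodule L ((G → Fin n → L) × (S → Fin n → L)) where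
  carrier := {x | x.1 ∈ BKOdd.Z1 V ∧ (∀ w ∈ T, ∀ d, x.1 (r w d) =
    (V (r w d) : Matrix (Fin n) (Fin n) L) *ᵥ x.2 w - x.2 w) ∧ ∀ w ∉ T, x.2 w = 0}
  add_mem' := by
    rintro x y ⟨hx1, hx2, hx3⟩ ⟨hy1, hy2, hy3⟩
    refine ⟨(BKOdd.Z1 V).add_mem hx1 hy1, fun w hw d => ?_, fun w hw => ?_⟩
    · change x.1 (r w d) + y.1 (r w d) =
        (V (r w d) : Matrix (Fin n) (Fin n) L) *ᵥ (x.2 w + y.2 w) - (x.2 w + y.2 w)
      rw [hx2 w hw, hy2 w hw, Matrix.mulVec_add]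
      abel
    · change x.2 w + y.2 w = 0
      rw [hx3 w hw, hy3 w hw, add_zero]
  zero_mem' := by
    refine ⟨(BKOdd.Z1 V).zero_mem, fun w _ d => ?_, fun w _ => rfl⟩
    change (0 : Fin n → L) = (V (r w d) : Matrix (Fin n) (Fin n) L) *ᵥ (0 : Fin n → L) - 0
    rw [Matrix.mulVec_zero, sub_zero]
  smul_mem' := by
    rintro a x ⟨hx1, hx2, hx3⟩
    refine ⟨(BKOdd.Z1 V).smul_mem a hx1, fun w hw d => ?_, fun w hw => ?_⟩
    · change a • x.1 (r w d) =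
        (V (r w d) : Matrix (Fin n) (Fin n) L) *ᵥ (a • x.2 w) - a • x.2 w
      rw [hx2 w hw, Matrix.mulVec_smul, smul_sub]
    · change a • x.2 w = 0
      rw [hx3 w hw, smul_zero]

end Glob

/-! ### Lattices -/

/-- Module LAM: a functional on `L` for which the ring of integers is its own dual. -/
def StLam : Prop :=
  ∀ (p : ℕ) [Fact p.Prime] (L : Type) [NormedField L] [NormedAlgebra ℚ_[p] L]
    [FiniteDimensional ℚ_[p] L], ∃ lam : L →ₗ[ℚ_[p]] ℚ_[p], IsLam p L lam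

/-- Module MK (from LAM): the pair `(𝒪/π^k)^n`. -/
def StMk : Prop :=
  ∀ (p : ℕ) [Fact p.Prime] (L : Type) [NormedField L] [NormedAlgebra ℚ_[p] L]
    [FiniteDimensional ℚ_[p] L] (G : Type) [Group G] [TopologicalSpace G] [IsTopologicalGroup G]
    [CompactSpace G] (χ : G →* ℤ_[p]ˣ) (n : ℕ) (ρ ρ' : G →* GL (Fin n) (OO p L)),
    Continuous ρ → Continuous ρ' → ∀ B : Matrix (Fin n) (Fin n) (OO p L), IsUnit B.det →
    IsDual χ ((toL p L n).comp ρ) ((toL p L n).comp ρ') (B.map (OO p L).subtype) →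
    ∀ lam : L →ₗ[ℚ_[p]] ℚ_[p], IsLam p L lam → ∀ k : ℕ,
    Nat.card (MK p L n k) = Nat.card (kk p L) ^ (n * k) ∧
    ∃ X : Pair (OO p L) (actA χ) (MK p L n k) (MK p L n k), IsMk χ lam k ρ ρ' B X

/-- Module TRI: triangular representations have eigenvectors. -/
def StTri : Prop :=
  ∀ (p : ℕ) [Fact p.Prime] (L : Type) [NormedField L] [NormedAlgebra ℚ_[p] L]
    [FiniteDimensional ℚ_[p] L] (G : Type) [Group G] (n : ℕ) (V : G →* GL (Fin n) L)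
    (A : GL (Fin n) L), Tri V A →
    (∀ i : Fin n, ∃ ψ : G →* (kk p L)ˣ, ∀ (g : G) (a : OO p L),
      (a : L) = ((A * V g * A⁻¹ : GL (Fin n) L) : Matrix (Fin n) (Fin n) L) i i →
        IsLocalRing.residue (OO p L) a = ((ψ g : (kk p L)ˣ) : kk p L)) ∧
    ∀ (S : GL (Fin n) L) (ρ : G →* GL (Fin n) (OO p L)),
      (∀ g, toL p L n (ρ g) = S * V g * S⁻¹) → Eig ρ (IsDiag V A)

/-- Module LATT (from TRI): a unimodular lattice and a Lagrangian subspace of its reduction. -/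
def StLatt : Prop :=
  ∀ (p : ℕ) [Fact p.Prime] (L : Type) [NormedField L] [NormedAlgebra ℚ_[p] L]
    [FiniteDimensional ℚ_[p] L] (G : Type) [Group G] (n : ℕ) (V : G →* GL (Fin n) L)
    (A : GL (Fin n) L), Tri V A → ∀ (c : G →* G), (∀ g, c (c g) = g) →
    ∀ (χ : G →* ℤ_[p]ˣ) (B : Matrix (Fin n) (Fin n) L), Bᵀ = B → IsUnit B.det →
    IsDual χ V (V.comp c) B →
    (∀ ψ : G →* (kk p L)ˣ, IsDiag V A ψ → ∃ g, ((ψ g : (kk p L)ˣ) : kk p L) *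
      ((ψ (c g) : (kk p L)ˣ) : kk p L) ≠
        algebraMap (ZMod p) (kk p L) (PadicInt.toZMod ((χ g : ℤ_[p]ˣ) : ℤ_[p]))) →
    ∃ (S : GL (Fin n) L) (ρ : G →* GL (Fin n) (OO p L)) (B₀ : Matrix (Fin n) (Fin n) (OO p L))
      (N : Submodule (OO p L) (Fin n → OO p L)),
      (∀ g, toL p L n (ρ g) = S * V g * S⁻¹) ∧ B₀ᵀ = B₀ ∧ IsUnit B₀.det ∧
      (S : Matrix (Fin n) (Fin n) L)ᵀ * B₀.map (OO p L).subtype * (S : Matrix (Fin n) (Fin n) L) =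
        B ∧
      (∀ x : Fin n → OO p L, pi0 p L • x ∈ N) ∧
      (∀ g, ∀ x ∈ N, (ρ g : Matrix (Fin n) (Fin n) (OO p L)) *ᵥ x ∈ N) ∧
      ∀ y, y ∈ N ↔ ∀ x ∈ N, pi0 p L ∣ x ⬝ᵥ (B₀ *ᵥ y)

/-- Module LAGR: Lagrangian submodules at all levels. -/
def StLagr : Prop :=
  ∀ (p : ℕ) [Fact p.Prime] (L : Type) [NormedField L] [NormedAlgebra ℚ_[p] L]
    [FiniteDimensional ℚ_[p] L] (G : Type) [Group G] [TopologicalSpace G]
    (χ : G →* ℤ_[p]ˣ) (n : ℕ) (ρ ρ' : G →* GL (Fin n) (OO p L))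
    (B : Matrix (Fin n) (Fin n) (OO p L)), Bᵀ = B → IsUnit B.det →
    ∀ lam : L →ₗ[ℚ_[p]] ℚ_[p], IsLam p L lam →
    ∀ N : Submodule (OO p L) (Fin n → OO p L), (∀ x : Fin n → OO p L, pi0 p L • x ∈ N) →
      (∀ g, ∀ x ∈ N, (ρ g : Matrix (Fin n) (Fin n) (OO p L)) *ᵥ x ∈ N) →
      (∀ y, y ∈ N ↔ ∀ x ∈ N, pi0 p L ∣ x ⬝ᵥ (B *ᵥ y)) →
    ∀ (k : ℕ) (X : Pair (OO p L) (actA χ) (MK p L n k) (MK p L n k)), IsMk χ lam k ρ ρ' B X →
    (∀ m m', X.b m m' = X.b m' m) ∧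
    ∃ N' : Submodule (OO p L) (MK p L n k), X.Stable N' ∧ X.perp N' = N'

/-- Module LINK (from LINES): one dimensional subquotients of `(𝒪/π^k)^n`. -/
def StLink : Prop :=
  ∀ (p : ℕ) [Fact p.Prime] (L : Type) [NormedField L] [NormedAlgebra ℚ_[p] L]
    [FiniteDimensional ℚ_[p] L] (G : Type) [Group G] (n : ℕ) (ρ : G →* GL (Fin n) (OO p L))
    (Ψ : (G →* (kk p L)ˣ) → Prop), Eig ρ Ψ →
    ∀ (D : Type) [Group D] [TopologicalSpace D] (f : D →* G) (χ : D →* ℤ_[p]ˣ)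
    (ρ' : D →* GL (Fin n) (OO p L)) (B : Matrix (Fin n) (Fin n) (OO p L))
    (lam : L →ₗ[ℚ_[p]] ℚ_[p]) (k : ℕ)
    (X : Pair (OO p L) (actA χ) (MK p L n k) (MK p L n k)), IsMk χ lam k (ρ.comp f) ρ' B X →
    ∀ U : Subgroup D, IsOpen (U : Set D) →
    (∀ u ∈ U, PadicInt.toZMod ((χ u : ℤ_[p]ˣ) : ℤ_[p]) = 1) →
    (∀ ψ : G →* (kk p L)ˣ, Ψ ψ → ∀ u ∈ U, ψ (f u) = 1) →
    Lines X (kk p L) U ∧ Lines X.flip (kk p L) U

/-! ### Limits -/

/-- Module LIMA: a decreasing sequence of conditions modulo `π^k` on the elements of a compact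
module. -/
def StLimA : Prop :=
  ∀ (p : ℕ) [Fact p.Prime] (L : Type) [NormedField L] [NormedAlgebra ℚ_[p] L]
    [FiniteDimensional ℚ_[p] L] (E : Type) [AddCommGroup E] [Module (OO p L) E]
    [TopologicalSpace E] [IsTopologicalAddGroup E] [ContinuousSMul (OO p L) E] [CompactSpace E]
    [T2Space E] (Y : ℕ → Submodule (OO p L) E),
    (∀ x : E, pi0 p L • x = 0 → x = 0) → (∀ x : E, (∀ k, x ∈ piE p L E k) → x = 0) →
    (∀ k, piE p L E k ≤ Y k) → (∀ k, Y (k + 1) ≤ Y k) →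
    (∀ k x, pi0 p L • x ∈ Y (k + 1) ↔ x ∈ Y k) →
    (∀ k, (piE p L E k).toAddSubgroup.relIndex (Y k).toAddSubgroup ≠ 0) →
    ∃ (d : ℕ) (y : Fin d → E) (K : ℕ), (∀ i k, y i ∈ Y k) ∧
      (∀ a : Fin d → OO p L, ∑ i, a i • y i = 0 → a = 0) ∧
      (∀ z : E, (∀ k, z ∈ Y k) → ∃ a : Fin d → OO p L, z = ∑ i, a i • y i) ∧
      (∀ k, ∀ z ∈ Y k, ∃ a : Fin d → OO p L, pi0 p L ^ K • z - ∑ i, a i • y i ∈ piE p L E k) ∧
      ∀ k, K ≤ k → (piE p L E (k + 1)).toAddSubgroup.relIndex (Y (k + 1)).toAddSubgroup =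
        (piE p L E k).toAddSubgroup.relIndex (Y k).toAddSubgroup * Nat.card (kk p L) ^ d

/-- Module LIMG (from LIMA): the cocycles with conditions, in the limit. -/
def StLimG : Prop :=
  ∀ (p : ℕ) [Fact p.Prime] (L : Type) [NormedField L] [NormedAlgebra ℚ_[p] L]
    [FiniteDimensional ℚ_[p] L] (G : Type) [Group G] [TopologicalSpace G] [IsTopologicalGroup G]
    [CompactSpace G] [NonarchimedeanGroup G] (S : Type) (D : S → Type) [∀ w, Group (D w)] (r : ∀ w, D w →* G)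
    (n : ℕ) (V : G →* GL (Fin n) L) (S₀ : GL (Fin n) L) (ρ : G →* GL (Fin n) (OO p L)),
    Continuous ρ → (∀ g, toL p L n (ρ g) = S₀ * V g * S₀⁻¹) →
    ∀ (A : Type) [AddCommGroup A] (α : G →* AddMonoid.End A)
    (X : ∀ k, Pair (OO p L) α (MK p L n k) (MK p L n k)),
    (∀ k g v, (X k).ρ g (rv p L k v) =
      rv p L k ((ρ g : Matrix (Fin n) (Fin n) (OO p L)) *ᵥ v)) →
    ∀ T : Set S, T.Nonempty →
    (∀ k, ((X k).Br T ⊥ ⊤).toAddSubgroup.relIndex ((X k).Zr r T ⊥ ⊤).toAddSubgroup ≠ 0) →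
    FiniteDimensional L (ZTV V r T) ∧ n ≤ Module.finrank L (ZTV V r T) ∧
    ∃ K : ℕ, ∀ k, K ≤ k →
      ((X (k + 1)).Br T ⊥ ⊤).toAddSubgroup.relIndex ((X (k + 1)).Zr r T ⊥ ⊤).toAddSubgroup *
        Nat.card (kk p L) ^ n =
      ((X k).Br T ⊥ ⊤).toAddSubgroup.relIndex ((X k).Zr r T ⊥ ⊤).toAddSubgroup *
        Nat.card (kk p L) ^ Module.finrank L (ZTV V r T)

/-! ### Local duality for finite modules -/

/-- Module LAB (from DUAL, PERP): local duality on `H¹` and `H²`, for subquotients. -/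
def StLAB : Prop :=
  ∀ (R : Type) [CommRing R] (p : ℕ) [Fact p.Prime] (D : Type) [Group D] [TopologicalSpace D]
    [IsTopologicalGroup D] [CompactSpace D] (χ : D →* ℤ_[p]ˣ)
    (inv : (D → D → QZ p) →+ QZ p) (δ : ℕ), LocAx p χ inv δ →
    ∀ (M M' : Type) [AddCommGroup M] [Module R M] [AddCommGroup M'] [Module R M'] [Finite M]
    (X : Pair R (actA χ) M M') (k : Type) [Field k] [Finite k] [Algebra (ZMod p) k]
    (U : Subgroup D), IsOpen (U : Set D) → Lines X k U → Lines X.flip k U →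
    ∀ P Q : Submodule R M, X.Stable P → X.Stable Q → P ≤ Q →
    (∀ f : D → M, Loc1 f → (∀ g, f g ∈ Q) → (∀ g h, d1 X.ρ f g h ∈ P) →
      (∀ e : D → M', Loc1 e → (∀ g, e g ∈ X.perp P) → (∀ g h, d1 X.ρ' e g h ∈ X.perp Q) →
        inv (cup11 X.b X.ρ' f e) = 0) →
      ∃ m ∈ Q, ∀ g, f g - d0 X.ρ m g ∈ P) ∧
    ∀ z : D → D → M, Loc2 z → (∀ g h, z g h ∈ Q) → (∀ g h l, d2 X.ρ z g h l ∈ P) →
      (∀ m' ∈ X.perp P, (∀ g, d0 X.ρ' m' g ∈ X.perp Q) → inv (cup20 X.b X.ρ' z m') = 0) →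
      ∃ e : D → M, Loc1 e ∧ (∀ g, e g ∈ Q) ∧ ∀ g h, z g h - d1 X.ρ e g h ∈ P

/-- Module LE (from LAB, DUAL, PERP): the number of local cocycles. -/
def StLE : Prop :=
  ∀ (R : Type) [CommRing R] (p : ℕ) [Fact p.Prime] (D : Type) [Group D] [TopologicalSpace D]
    [IsTopologicalGroup D] [CompactSpace D] (χ : D →* ℤ_[p]ˣ)
    (inv : (D → D → QZ p) →+ QZ p) (δ : ℕ), LocAx p χ inv δ →
    ∀ (M M' : Type) [AddCommGroup M] [Module R M] [AddCommGroup M'] [Module R M'] [Finite M]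
    (X : Pair R (actA χ) M M') (k : Type) [Field k] [Finite k] [Algebra (ZMod p) k]
    (U : Subgroup D), IsOpen (U : Set D) → Lines X k U → Lines X.flip k U →
    Finite (BKND.Z1 X.ρ) ∧
      Nat.card (BKND.Z1 X.ρ) ≤ Nat.card (BKND.H0 X.ρ') * Nat.card M ^ (1 + δ)

/-- Module LIMD (from LIMA): local duality with coefficients in `L`, in the limit. -/
def StLimD : Prop :=
  ∀ (p : ℕ) [Fact p.Prime] (L : Type) [NormedField L] [NormedAlgebra ℚ_[p] L]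
    [FiniteDimensional ℚ_[p] L] (D : Type) [Group D] [TopologicalSpace D] [IsTopologicalGroup D]
    [CompactSpace D] [NonarchimedeanGroup D] (χ : D →* ℤ_[p]ˣ), Continuous χ → ∀ (inv : (D → D → QZ p) →+ QZ p) (δ : ℕ),
    (∀ z ∈ BKND.Z2 (actA χ), inv z = 0 ↔ z ∈ BKND.B2 (actA χ)) →
    ∀ (n : ℕ) (ρ ρ' : D →* GL (Fin n) (OO p L)), Continuous ρ → Continuous ρ' →
    IsDual χ ((toL p L n).comp ρ) ((toL p L n).comp ρ') 1 →
    ∀ lam : L →ₗ[ℚ_[p]] ℚ_[p], IsLam p L lam →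
    ∀ (X : ∀ k, Pair (OO p L) (actA χ) (MK p L n k) (MK p L n k)),
    (∀ k, IsMk χ lam k ρ ρ' 1 (X k)) →
    (∀ k, Finite (BKND.Z1 (X k).ρ) ∧ Nat.card (BKND.Z1 (X k).ρ) ≤
      Nat.card (BKND.H0 (X k).ρ') * Nat.card (MK p L n k) ^ (1 + δ)) →
    (∀ k, Finite (BKND.Z1 (X k).ρ')) →
    (∀ k, ∀ f ∈ BKND.Z1 (X k).ρ, (∀ e ∈ BKND.Z1 (X k).ρ',
      inv (cup11 (X k).b (X k).ρ' f e) = 0) → f ∈ BKND.B1 (X k).ρ) →
    NoInv ((toL p L n).comp ρ) → NoInv ((toL p L n).comp ρ') →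
    FiniteDimensional L (BKOdd.Z1 ((toL p L n).comp ρ)) ∧
    Module.finrank L (BKOdd.Z1 ((toL p L n).comp ρ)) ≤ (1 + δ) * n ∧
    ∀ x ∈ BKOdd.Z1 ((toL p L n).comp ρ), (∀ y ∈ BKOdd.Z1 ((toL p L n).comp ρ'),
      BKOdd.cupV ((toL p L n).comp ρ') x y ∈ CC.B2 (BKOdd.chL χ L)) →
      x ∈ BKOdd.B1 ((toL p L n).comp ρ)

/-- the conclusion of the local theorem -/
structure LocV {p : ℕ} [Fact p.Prime] {L : Type} [NormedField L] [NormedAlgebra ℚ_[p] L]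
    {D : Type} [Group D] [TopologicalSpace D] (χ : D →* ℤ_[p]ˣ) (δ : ℕ) {n : ℕ}
    (V V' : D →* GL (Fin n) L) : Prop where
  fin : FiniteDimensional L (BKOdd.Z1 V)
  le : Module.finrank L (BKOdd.Z1 V) ≤ (1 + δ) * n
  fin' : FiniteDimensional L (BKOdd.Z1 V')
  le' : Module.finrank L (BKOdd.Z1 V') ≤ (1 + δ) * n
  left : ∀ x ∈ BKOdd.Z1 V, (∀ y ∈ BKOdd.Z1 V', BKOdd.cupV V' x y ∈ CC.B2 (BKOdd.chL χ L)) →
    x ∈ BKOdd.B1 V
  right : ∀ y ∈ BKOdd.Z1 V', (∀ x ∈ BKOdd.Z1 V, BKOdd.cupV V' x y ∈ CC.B2 (BKOdd.chL χ L)) →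
    y ∈ BKOdd.B1 V'

/-- Module LV (from LAM, MK, TRI, LINK, LAB, LE, LIMD): the local theorem. -/
def StLV : Prop :=
  ∀ (p : ℕ) [Fact p.Prime] (L : Type) [NormedField L] [NormedAlgebra ℚ_[p] L]
    [FiniteDimensional ℚ_[p] L] (D : Type) [Group D] [TopologicalSpace D] [IsTopologicalGroup D]
    [CompactSpace D] [NonarchimedeanGroup D] (χ : D →* ℤ_[p]ˣ), Continuous χ → ∀ (inv : (D → D → QZ p) →+ QZ p) (δ : ℕ),
    LocAx p χ inv δ → ∀ (n : ℕ) (V V' : D →* GL (Fin n) L), Continuous V → Continuous V' →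
    IsDual χ V V' 1 → ∀ A : GL (Fin n) L, Tri V A → ∀ U : Subgroup D, IsOpen (U : Set D) →
    (∀ u ∈ U, PadicInt.toZMod ((χ u : ℤ_[p]ˣ) : ℤ_[p]) = 1) →
    (∀ ψ : D →* (kk p L)ˣ, IsDiag V A ψ → ∀ u ∈ U, ψ u = 1) → NoInv V → NoInv V' →
    LocV χ δ V V'

/-! ### The place above `p` -/

/-- `H²(D, 𝔽_p(χ))` is one dimensional, generated by an integral cocycle whose image in
`H²(D, ℚ_p/ℤ_p(χ))` is not trivial. -/
def LineAx (p : ℕ) [Fact p.Prime] {D : Type} [Group D] [TopologicalSpace D]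
    (χ : D →* ℤ_[p]ˣ) : Prop :=
  ∃ z₀ ∈ CC.Z2 (BKOdd.chZ χ),
    (∀ z ∈ CC.Z2 (BKOdd.chm χ), ∃ a : ZMod p,
      z - a • (fun g h => PadicInt.toZMod (z₀ g h)) ∈ CC.B2 (BKOdd.chm χ)) ∧
    (fun g h => cl p (((z₀ g h : ℤ_[p]) : ℚ_[p]) / p)) ∉ BKND.B2 (actA χ)

/-- Module HOD (from LINEL): the local theorem at the place above `p`. -/
def StHod : Prop :=
  ∀ (p : ℕ) [Fact p.Prime] (L : Type) [NormedField L] [NormedAlgebra ℚ_[p] L]
    [FiniteDimensional ℚ_[p] L] (D : Type) [Group D] [TopologicalSpace D] [IsTopologicalGroup D]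
    [CompactSpace D] [NonarchimedeanGroup D] (χ : D →* ℤ_[p]ˣ), Continuous χ → LineAx p χ →
    ∀ (n : ℕ) (V V' : D →* GL (Fin n) L), Continuous V → Continuous V' → IsDual χ V V' 1 →
    NoInv V → NoInv V' → LocV χ 1 V V' →
    ∀ (Zf : (D →* GL (Fin n) L) → Submodule L (D → Fin n → L)) (r r' : ℕ),
    BKOdd.HodgePair (BKOdd.chL χ L) Zf V V' r r' →
    r + r' = n ∧ Module.finrank L (BKOdd.cls V (Zf V)) = r ∧
    Module.finrank L (BKOdd.cls V' (Zf V')) = r' ∧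
    Module.finrank L (BKOdd.Z1 V) = 2 * n ∧ Module.finrank L (BKOdd.Z1 V') = 2 * n ∧
    ∃ Λ : (D → D → L) →ₗ[L] L, (∀ z ∈ CC.B2 (BKOdd.chL χ L), Λ z = 0) ∧
      (∀ z ∈ CC.Z2 (BKOdd.chL χ L), Λ z = 0 → z ∈ CC.B2 (BKOdd.chL χ L)) ∧
      (∀ x ∈ BKOdd.Z1 V, x ∈ BKOdd.B1 V ↔ ∀ y ∈ BKOdd.Z1 V', Λ (BKOdd.cupV V' x y) = 0) ∧
      (∀ y ∈ BKOdd.Z1 V', y ∈ BKOdd.B1 V' ↔ ∀ x ∈ BKOdd.Z1 V, Λ (BKOdd.cupV V' x y) = 0) ∧
      ∀ y ∈ BKOdd.Z1 V', y ∈ Zf V' ↔ ∀ x ∈ Zf V, Λ (BKOdd.cupV V' x y) = 0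

/-! ### Reciprocity -/

/-- Module RL (from LINEL): the reciprocity law with coefficients in `L(χ)`. -/
def StRL : Prop :=
  ∀ (p : ℕ) [Fact p.Prime] (L : Type) [NormedField L] [NormedAlgebra ℚ_[p] L]
    [FiniteDimensional ℚ_[p] L] (G : Type) [Group G] [TopologicalSpace G] [IsTopologicalGroup G]
    [CompactSpace G] (ι : Type) [Fintype ι] (D : ι → Type) [∀ i, Group (D i)]
    [∀ i, TopologicalSpace (D i)] [∀ i, IsTopologicalGroup (D i)] [∀ i, CompactSpace (D i)]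
    [∀ i, NonarchimedeanGroup (D i)] [NonarchimedeanGroup G]
    (r : ∀ i, D i →* G), (∀ i, Continuous (r i)) → ∀ (c : G →* G), Continuous c →
    ∀ (χ : G →* ℤ_[p]ˣ), Continuous χ → (∀ g, χ (c g) = χ g) →
    ∀ inv : ∀ i, (D i → D i → QZ p) →+ QZ p,
    (∀ i, ∀ z ∈ BKND.Z2 (actA (χ.comp (r i))), inv i z = 0 ↔
      z ∈ BKND.B2 (actA (χ.comp (r i)))) →
    (∀ z ∈ BKND.Z2 (actA χ), ∑ i, (inv i (pb2 (r i) z) - inv i (pb2 (c.comp (r i)) z)) = 0) →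
    ∀ i₀, LineAx p (χ.comp (r i₀)) → ∀ Z ∈ CC.Z2 (BKOdd.chL χ L),
    (∀ i, i ≠ i₀ → pb2 (r i) Z ∈ CC.B2 (BKOdd.chL (χ.comp (r i)) L) ∧
      pb2 (c.comp (r i)) Z ∈ CC.B2 (BKOdd.chL (χ.comp (r i)) L)) →
    pb2 (r i₀) Z - pb2 (c.comp (r i₀)) Z ∈ CC.B2 (BKOdd.chL (χ.comp (r i₀)) L)

/-! ### Linear algebra -/

/-- Module LA: parity from an antisymmetric pairing. -/
def StLA : Prop :=
  ∀ (K : Type) [Field K], (2 : K) ≠ 0 → ∀ (E W W' : Type) [AddCommGroup E] [Module K E]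
    [FiniteDimensional K E] [AddCommGroup W] [Module K W] [FiniteDimensional K W]
    [AddCommGroup W'] [Module K W'] [FiniteDimensional K W'] (a : E →ₗ[K] W) (b : E →ₗ[K] W')
    (β : W →ₗ[K] W' →ₗ[K] K) (W₀ : Submodule K W) (W₀' : Submodule K W'),
    (∀ w, w ∈ W₀ ↔ ∀ w', β w w' = 0) → (∀ w', w' ∈ W₀' ↔ ∀ w, β w w' = 0) →
    (∀ x y, β (a x) (b y) = - β (a y) (b x)) →
    Module.finrank K E + Module.finrank K W₀ =
      Module.finrank K W + Module.finrank K (W₀.comap a ⊓ W₀'.comap b : Submodule K E) →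
    ∀ (P : Submodule K W) (P' : Submodule K W'), W₀ ≤ P →
    (∀ w', w' ∈ P' ↔ ∀ w ∈ P, β w w' = 0) →
    (Module.finrank K (P.comap a ⊓ P'.comap b : Submodule K E) + Module.finrank K W₀) % 2 =
      (Module.finrank K P + Module.finrank K (W₀.comap a)) % 2

end BKMet
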