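import Pool.Agent.Lib.MP_7c08ba_nt.Met.XSWAP

set_option autoImplicit false

/-!
Metabolic parity, module LINEA: the left kernel of the pairing for a one dimensional subquotient.
-/

noncomputable section

namespace BKMet

open BKPar (Loc1 Loc2)
open BKND (Sm)

namespace XLINEA

open XSWAP

section Coef

variable {p : ℕ} [Fact p.Prime]

theorem zmod_smul (z : ℤ_[p]) (q : QZ p) (hq : (p : ℤ_[p]) • q = 0) :
    z • q = (PadicInt.toZMod z).val • q := by
  have h1 := PadicInt.toZMod_spec z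
  rw [PadicInt.maximalIdeal_eq_span_p, Ideal.mem_span_singleton] at h1
  obtain ⟨c, hc⟩ := h1
  have h2 : z = ((PadicInt.toZMod z).val : ℤ_[p]) + c * (p : ℤ_[p]) := by
    rw [ZMod.natCast_val, mul_comm, ← hc]
    ring
  conv_lhs => rw [h2]
  rw [add_smul, mul_smul, hq, smul_zero, add_zero, Nat.cast_smul_eq_nsmul]

theorem lam_act {k : Type} [Field k] [Algebra (ZMod p) k] (lam : k →+ QZ p) (z : ℤ_[p]) (a : k) :
    z • lam a = lam (algebraMap (ZMod p) k (PadicInt.toZMod z) * a) := by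
  have hp : (p : k) = 0 := by
    rw [← map_natCast (algebraMap (ZMod p) k), ZMod.natCast_self, map_zero]
  have h1 : (p : ℤ_[p]) • lam a = 0 := by
    rw [Nat.cast_smul_eq_nsmul, ← map_nsmul, nsmul_eq_mul, hp, zero_mul, map_zero]
  rw [zmod_smul z _ h1, ← map_nsmul, nsmul_eq_mul]
  congr 2
  rw [← map_natCast (algebraMap (ZMod p) k), ZMod.natCast_zmod_val]

/-- cup products of cocycles -/
theorem cupk_mem {D : Type} [Group D] [TopologicalSpace D] (χ : D →* ℤ_[p]ˣ) {k : Type} [Field k]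
    [Algebra (ZMod p) k] (ψ ψ' : D →* kˣ) (hψ' : Sm (kch ψ')) (hR : Rel χ ψ ψ') (lam : k →+ QZ p)
    (f f' : D → k) (hf : f ∈ BKND.Z1 (kch ψ)) (hf' : f' ∈ BKND.Z1 (kch ψ')) :
    cupk ψ' lam f f' ∈ BKND.Z2 (actA χ) := by
  refine ⟨?_, fun g h l => ?_⟩
  · have h1 : Loc2 fun g h => kch ψ' g (f' h) :=
      BKND.Loc2.map2 (loc2_fst (loc1_act hψ')) (loc2_snd hf'.1) (fun a b => a b)
    exact BKND.Loc2.map2 (loc2_fst hf.1) h1 (fun a b => lam (a * b))
  · have e1 := hf.2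
    have e2 := hf'.2
    simp only [kch_apply] at e1 e2
    have e3 := hR g
    rw [actA_apply, cupk, lam_act, ← e3]
    simp only [cupk, ← map_sub, ← map_add]
    rw [← map_zero lam]
    congr 1
    rw [e1, e2, map_mul, Units.val_mul]
    ring

end Coef

section Line

variable {R : Type} [CommRing R] {p : ℕ} [Fact p.Prime] {G : Type} [Group G]
  [TopologicalSpace G] {α : G →* AddMonoid.End (QZ p)} {M M' : Type} [AddCommGroup M]
  [Module R M] [AddCommGroup M'] [Module R M'] {X : Pair R α M M'} {P N : Submodule R M}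
  {k : Type} [Field k] {ψ ψ' : G →* kˣ} {lam : k →+ QZ p} {φ : M → k} {φ' : M' → k}

theorem stab (hN : X.Stable N) (g : G) (m' : M') (hm' : m' ∈ X.perp N) :
    X.ρ' g m' ∈ X.perp N := by
  intro n hn
  have e1 := X.eqv g (X.ρ g⁻¹ n) m'
  rw [← act_mul, mul_inv_cancel, act_one, hm' _ (hN _ _ hn), map_zero] at e1
  exact e1

theorem perp_mono (hPN : P ≤ N) : X.perp N ≤ X.perp P := fun _ hm' n hn => hm' n (hPN hn)

theorem lzero (L : IsLine X P N k ψ ψ' lam φ φ') : φ 0 = 0 :=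
  (L.ker 0 N.zero_mem).2 P.zero_mem

theorem lsub (L : IsLine X P N k ψ ψ' lam φ φ') {x y : M} (hx : x ∈ N) (hy : y ∈ N) :
    φ (x - y) = φ x - φ y := by
  have := L.add (x - y) (N.sub_mem hx hy) y hy
  rw [sub_add_cancel] at this
  rw [this, add_sub_cancel_right]

theorem lzero' (L : IsLine X P N k ψ ψ' lam φ φ') : φ' 0 = 0 :=
  (L.ker' 0 (X.perp P).zero_mem).2 (X.perp N).zero_mem

theorem lsub' (L : IsLine X P N k ψ ψ' lam φ φ') {x y : M'} (hx : x ∈ X.perp P)
    (hy : y ∈ X.perp P) : φ' (x - y) = φ' x - φ' y := by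
  have := L.add' (x - y) ((X.perp P).sub_mem hx hy) y hy
  rw [sub_add_cancel] at this
  rw [this, add_sub_cancel_right]

/-- the coboundary of a function with values in `N` -/
theorem ld1 (L : IsLine X P N k ψ ψ' lam φ φ') (hN : X.Stable N) {D : Type*} [Group D]
    (r : D →* G) (n : D → M) (hn : ∀ d, n d ∈ N) (d d' : D) :
    φ (X.ρ (r d) (n d') - n (d * d') + n d) =
      kch (ψ.comp r) d (φ (n d')) - φ (n (d * d')) + φ (n d) := by
  rw [L.add _ (N.sub_mem (hN _ _ (hn _)) (hn _)) _ (hn _), lsub L (hN _ _ (hn _)) (hn _),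
    L.act _ _ (hn _)]
  rfl

theorem ld1' (L : IsLine X P N k ψ ψ' lam φ φ') (hP : X.Stable P) {D : Type*} [Group D]
    (r : D →* G) (n : D → M') (hn : ∀ d, n d ∈ X.perp P) (d d' : D) :
    φ' (X.ρ' (r d) (n d') - n (d * d') + n d) =
      kch (ψ'.comp r) d (φ' (n d')) - φ' (n (d * d')) + φ' (n d) := by
  rw [L.add' _ ((X.perp P).sub_mem (stab hP _ _ (hn _)) (hn _)) _ (hn _),
    lsub' L (stab hP _ _ (hn _)) (hn _), L.act' _ _ (hn _)]
  rfl

theorem lrel [Algebra (ZMod p) k] {χ : G →* ℤ_[p]ˣ} (hα : α = actA χ)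
    (L : IsLine X P N k ψ ψ' lam φ φ') (hP : X.Stable P) (hN : X.Stable N) (hlam : lam ≠ 0) :
    Rel χ ψ ψ' := by
  intro g
  by_contra hne
  apply hlam
  obtain ⟨y, hy, hy1⟩ := L.surj' 1
  have key : ∀ a : k, lam ((((ψ g : kˣ) : k) * ((ψ' g : kˣ) : k) -
      algebraMap (ZMod p) k (PadicInt.toZMod ((χ g : ℤ_[p]ˣ) : ℤ_[p]))) * a) = 0 := by
    intro a
    obtain ⟨x, hx, rfl⟩ := L.surj a
    have e1 := X.eqv g x y
    rw [L.pair _ (hN _ _ hx) _ (stab hP _ _ hy), L.pair _ hx _ hy, L.act _ _ hx, L.act' _ _ hy,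
      hα, actA_apply, lam_act, hy1] at e1
    rw [sub_mul, map_sub, sub_eq_zero]
    convert e1 using 2
    · ring
    · ring
  ext a
  have h := key ((((ψ g : kˣ) : k) * ((ψ' g : kˣ) : k) -
      algebraMap (ZMod p) k (PadicInt.toZMod ((χ g : ℤ_[p]ˣ) : ℤ_[p])))⁻¹ * a)
  rw [mul_inv_cancel_left₀ (sub_ne_zero.2 hne)] at h
  exact h

theorem sm_kch {U : Subgroup G} (hU : IsOpen (U : Set G)) (hψ : ∀ u ∈ U, ψ u = 1) :
    Sm (kch ψ) := by
  refine ⟨U, hU, fun u hu => ?_⟩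
  ext a
  rw [kch_apply, hψ u hu, Units.val_one, one_mul]
  rfl

theorem sm_comp {D : Type} [Group D] [TopologicalSpace D] {U : Subgroup G}
    (hU : IsOpen (U : Set G)) (hψ : ∀ u ∈ U, ψ u = 1) (r : D →* G) (hr : Continuous r) :
    Sm (kch (ψ.comp r)) := by
  refine ⟨U.comap r, hU.preimage hr, fun u hu => ?_⟩
  ext a
  rw [kch_apply, MonoidHom.comp_apply, hψ _ hu, Units.val_one, one_mul]
  rfl

end Line

section Aux

theorem loc2_d1 {G : Type*} [Group G] [TopologicalSpace G] [IsTopologicalGroup G] [CompactSpace G]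
    {M : Type*} [AddCommGroup M] {ρ : G →* AddMonoid.End M} (hs : Sm ρ) {z : G → M}
    (hz : Loc1 z) : Loc2 (d1 ρ z) :=
  BKND.Loc2.map2 (BKND.Loc2.map2 (BKND.Loc2.map2 (loc2_fst (loc1_act hs)) (loc2_snd hz)
    (fun a b => a b)) (loc2_mul hz) (· - ·)) (loc2_fst hz) (· + ·)

theorem tr_zero {S : Type} [Fintype S] {G : Type} [Group G] [TopologicalSpace G] {D : S → Type}
    [∀ w, Group (D w)] [∀ w, TopologicalSpace (D w)] {A E : Type} [AddCommGroup A]
    [AddCommGroup E] (Γ : Glo S G D A E) (β : ∀ w, D w → D w → A)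
    (hβ : ∀ w, β w ∈ BKND.Z2 (Γ.α.comp (Γ.r w))) :
    Γ.tr (0, β) = ∑ w, Γ.inv w (β w) := by
  have h0 : ∀ w, β w - pb2 (Γ.r w) (0 : G → G → A) = β w := by
    intro w
    funext d d'
    simp [pb2]
  have h1 := Γ.tr_eq 0 (BKND.Loc2.const 0) β (fun w => by rw [h0]; exact hβ w)
  have h2 : d2 Γ.α (0 : G → G → A) = 0 := by
    funext g h k
    simp [d2]
  rw [h2] at h1
  rw [h1]
  exact Finset.sum_congr rfl fun w _ => by rw [h0]

theorem cup2_mem {p : ℕ} [Fact p.Prime] {D : Type} [Group D] [TopologicalSpace D]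
    (χ : D →* ℤ_[p]ˣ) {k : Type} [Field k] [Algebra (ZMod p) k] (ψ ψ' : D →* kˣ)
    (hR : Rel χ ψ ψ') (lam : k →+ QZ p) (u : D → D → k) (hu : u ∈ BKND.Z2 (kch ψ)) (y : k)
    (hy : y ∈ BKND.H0 (kch ψ')) : (fun g h => lam (u g h * y)) ∈ BKND.Z2 (actA χ) := by
  refine ⟨BKND.Loc2.map hu.1 (fun a => lam (a * y)), fun g h l => ?_⟩
  have e1 := hu.2 g h l
  have e2 := hy g
  rw [kch_apply] at e1 e2
  rw [actA_apply, lam_act, ← hR g, ← map_sub, ← map_add, ← map_sub, ← map_zero lam]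
  congr 1
  linear_combination y * e1 + ((ψ g : kˣ) : k) * u h l * e2

theorem pb2_mem {G D : Type} [Group G] [TopologicalSpace G] [Group D] [TopologicalSpace D]
    {M : Type*} [AddCommGroup M] (ρ : G →* AddMonoid.End M) (r : D →* G) (hr : Continuous r)
    (u : G → G → M) (hu : u ∈ BKND.Z2 ρ) : pb2 r u ∈ BKND.Z2 (ρ.comp r) := by
  refine ⟨loc2_pb2 hr hu.1, fun d d' d'' => ?_⟩
  have := hu.2 (r d) (r d') (r d'')
  simp only [pb2, map_mul]
  exact this

end Aux

end XLINEA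

open XLINEA XSWAP in
theorem stLineA (h1 : StAnn) (h2 : StCT) : StLineA := by
  classical
  intro R _ p _ S _ G _ _ _ _ D _ _ _ _ Γ χ U δ hG M M' _ _ _ _ _ X T hT hT' P N Q hP hN hQ
    hPN hNQ k _ _ _ ψ ψ' hψ hψ' lam hlam φ φ' L x hx hxy
  obtain ⟨z, m⟩ := x
  obtain ⟨hz, hzQ, hz1, hz2, hz3⟩ := hx
  change Loc1 z at hz
  change ∀ g, z g ∈ Q at hzQ
  change ∀ g h, d1 X.ρ z g h ∈ N at hz1
  change ∀ w ∈ T, m w ∈ Q ∧ ∀ d, z (Γ.r w d) - d0 X.ρ (m w) (Γ.r w d) ∈ N at hz2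
  change ∀ w ∉ T, m w = 0 at hz3
  have hrel : Rel χ ψ ψ' := lrel hG.act L hP hN hlam
  have hrelw : ∀ w, Rel (χ.comp (Γ.r w)) (ψ.comp (Γ.r w)) (ψ'.comp (Γ.r w)) :=
    fun w d => hrel (Γ.r w d)
  have hsm : ∀ w, Sm (kch (ψ.comp (Γ.r w))) := fun w => sm_comp hG.open' hψ _ (Γ.cont w)
  have hsm' : ∀ w, Sm (kch (ψ'.comp (Γ.r w))) := fun w => sm_comp hG.open' hψ' _ (Γ.cont w)
  have hα : ∀ w, Γ.α.comp (Γ.r w) = actA (χ.comp (Γ.r w)) := by
    intro w
    rw [hG.act]
    rfl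
  -- the two-cocycle with values in `k`
  set u : G → G → k := fun g h => φ (d1 X.ρ z g h) with hu_def
  have hd1 : Loc2 (d1 X.ρ z) := loc2_d1 X.sm hz
  have hu : u ∈ BKND.Z2 (kch ψ) := by
    refine ⟨BKND.Loc2.map hd1 φ, fun g h l => ?_⟩
    have e := congrArg φ (d2_d1 X.ρ z g h l)
    rw [lzero L, lsub L (N.add_mem (N.sub_mem (hN _ _ (hz1 _ _)) (hz1 _ _)) (hz1 _ _)) (hz1 _ _),
      L.add _ (N.sub_mem (hN _ _ (hz1 _ _)) (hz1 _ _)) _ (hz1 _ _),
      lsub L (hN _ _ (hz1 _ _)) (hz1 _ _), L.act _ _ (hz1 _ _)] at e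
    exact e
  have hloc : ∀ w, pb2 (Γ.r w) u ∈ BKND.B2 (kch (ψ.comp (Γ.r w))) := by
    intro w
    by_cases hw : w ∈ T
    · refine ⟨fun d => φ (z (Γ.r w d) - d0 X.ρ (m w) (Γ.r w d)),
        BKND.Loc1.map2 (loc1_pb1 (Γ.cont w) hz)
          (loc1_pb1 (Γ.cont w) (loc1_act X.sm)) (fun a b => φ (a - (b (m w) - m w))),
          fun d d' => ?_⟩
      have e := ld1 L hN (Γ.r w) (fun d => z (Γ.r w d) - d0 X.ρ (m w) (Γ.r w d))
        (hz2 w hw).2 d d'
      rw [← e]
      change φ (d1 X.ρ z (Γ.r w d) (Γ.r w d')) = φ _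
      congr 1
      simp only [d1, d0, map_sub, (Γ.r w).map_mul, act_mul]
      abel
    · apply (hG.loc w).two k (ψ.comp (Γ.r w)) (ψ'.comp (Γ.r w)) (hsm w) (hsm' w) (hrelw w) lam
        hlam _ (pb2_mem (kch ψ) (Γ.r w) (Γ.cont w) u hu)
      intro y hy
      obtain ⟨n, hn, hny⟩ := L.surj' y
      have hY : ((0 : G → M'), (Pi.single w n : S → M')) ∈
          X.flip.Zr Γ.r Tᶜ (X.perp N) (X.perp P) := by
        refine ⟨BKND.Loc1.const 0, fun g => (X.perp P).zero_mem, fun g h => ?_, fun w' hw' =>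
          ⟨?_, fun d => ?_⟩, fun w' hw' => ?_⟩
        · have e : d1 X.flip.ρ (0 : G → M') g h = 0 := by simp [d1]
          change d1 X.flip.ρ (0 : G → M') g h ∈ _
          rw [e]
          exact (X.perp N).zero_mem
        · by_cases hww : w' = w
          · subst hww
            change (Pi.single w' n : S → M') w' ∈ _
            rw [Pi.single_eq_same]
            exact hn
          · change (Pi.single w n : S → M') w' ∈ _
            rw [Pi.single_eq_of_ne hww]
            exact (X.perp P).zero_mem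
        · by_cases hww : w' = w
          · subst hww
            change (0 : M') - d0 X.ρ' ((Pi.single w' n : S → M') w') (Γ.r w' d) ∈ X.perp N
            rw [Pi.single_eq_same, zero_sub, (X.perp N).neg_mem_iff, d0]
            have e1 := hy d
            rw [← L.ker' _ ((X.perp P).sub_mem (stab hP _ _ hn) hn),
              lsub' L (stab hP _ _ hn) hn, L.act' _ _ hn, hny, sub_eq_zero]
            exact e1
          · change (0 : M') - d0 X.ρ' ((Pi.single w n : S → M') w') (Γ.r w' d) ∈ X.perp N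
            rw [Pi.single_eq_of_ne hww, d0, map_zero, sub_zero, sub_zero]
            exact (X.perp N).zero_mem
        · have hww : w' ≠ w := by
            rintro rfl
            exact hw' hw
          change (Pi.single w n : S → M') w' = 0
          rw [Pi.single_eq_of_ne hww]
      have hCT := hxy _ hY
      set c : D w → D w → QZ p := fun d d' => lam (pb2 (Γ.r w) u d d' * y) with hc_def
      have hc : c ∈ BKND.Z2 (Γ.α.comp (Γ.r w)) := by
        rw [hα]
        exact cup2_mem _ _ _ (hrelw w) lam _ (pb2_mem (kch ψ) (Γ.r w) (Γ.cont w) u hu) y hy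
      have hXi : Xi Γ X T (z, m) ((0 : G → M'), (Pi.single w n : S → M')) =
          (0, Pi.single w c) := by
        refine Prod.ext ?_ ?_
        · funext g h l
          simp [Xi, cup21]
        · funext w'
          by_cases hw' : w' ∈ T
          · have hww : w' ≠ w := by
              rintro rfl
              exact hw hw'
            simp only [Xi, if_pos hw', Pi.single_eq_of_ne hww]
            funext d d'
            simp [cup11, pb1]
          · by_cases hww : w' = w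
            · subst hww
              simp only [Xi, if_neg hw', Pi.single_eq_same]
              funext d d'
              change X.b (d1 X.ρ z (Γ.r w' d) (Γ.r w' d')) (X.ρ' (Γ.r w' (d * d')) n) =
                lam (φ (d1 X.ρ z (Γ.r w' d) (Γ.r w' d')) * y)
              have e1 := hy (d * d')
              rw [L.pair _ (hz1 _ _) _ (stab hP _ _ hn), L.act' _ _ hn, hny]
              congr 2
            · simp only [Xi, if_neg hw', Pi.single_eq_of_ne hww]
              funext d d'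
              simp [cup20]
      have hβ : ∀ w', (Pi.single w c : ∀ w', D w' → D w' → QZ p) w' ∈
          BKND.Z2 (Γ.α.comp (Γ.r w')) := by
        intro w'
        by_cases hww : w' = w
        · subst hww
          rw [Pi.single_eq_same]
          exact hc
        · rw [Pi.single_eq_of_ne hww]
          exact (BKND.Z2 _).zero_mem
      rw [CT, hXi, tr_zero Γ _ hβ, Finset.sum_eq_single w, Pi.single_eq_same] at hCT
      · exact hCT
      · intro w' _ hww
        rw [Pi.single_eq_of_ne hww, map_zero]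
      · intro h
        exact absurd (Finset.mem_univ w) h
  -- the two-cocycle is a coboundary
  obtain ⟨γ₀, hγ0, hγ1⟩ := hG.glob.two k ψ hψ u hu hloc
  choose s hs hs1 using L.surj
  choose s' hs' hs1' using L.surj'
  set n₁ : G → M := fun g => z g - s (γ₀ g) with hn1_def
  have hn1 : Loc1 n₁ := BKND.Loc1.map2 hz hγ0 (fun a b => a - s b)
  have hn1P : ∀ g h, d1 X.ρ n₁ g h ∈ P := by
    intro g h
    have hmem : X.ρ g (s (γ₀ h)) - s (γ₀ (g * h)) + s (γ₀ g) ∈ N :=
      N.add_mem (N.sub_mem (hN _ _ (hs _)) (hs _)) (hs _)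
    have e0 : d1 X.ρ n₁ g h = d1 X.ρ z g h - (X.ρ g (s (γ₀ h)) - s (γ₀ (g * h)) + s (γ₀ g)) := by
      simp only [d1, hn1_def, map_sub]
      abel
    rw [e0, ← L.ker _ (N.sub_mem (hz1 _ _) hmem), lsub L (hz1 _ _) hmem,
      L.add _ (N.sub_mem (hN _ _ (hs _)) (hs _)) _ (hs _), lsub L (hN _ _ (hs _)) (hs _),
      L.act _ _ (hs _), hs1, hs1, hs1, sub_eq_zero]
    exact hγ1 g h
  have hn1N : ∀ w ∈ T, ∀ d, n₁ (Γ.r w d) - d0 X.ρ (m w) (Γ.r w d) ∈ N := by
    intro w hw d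
    have e0 : n₁ (Γ.r w d) - d0 X.ρ (m w) (Γ.r w d) =
        z (Γ.r w d) - d0 X.ρ (m w) (Γ.r w d) - s (γ₀ (Γ.r w d)) := by
      simp only [hn1_def]
      abel
    rw [e0]
    exact N.sub_mem ((hz2 w hw).2 d) (hs _)
  -- the local functions
  set b : ∀ w, D w → k := fun w => if w ∈ T then
    (fun d => φ (n₁ (Γ.r w d) - d0 X.ρ (m w) (Γ.r w d))) else 0 with hb_def
  have hb1 : ∀ w ∈ T, b w = fun d => φ (n₁ (Γ.r w d) - d0 X.ρ (m w) (Γ.r w d)) :=
    fun w hw => if_pos hw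
  have hb : ∀ w, b w ∈ BKND.Z1 (kch (ψ.comp (Γ.r w))) := by
    intro w
    by_cases hw : w ∈ T
    · rw [hb1 w hw]
      refine ⟨BKND.Loc1.map2 (loc1_pb1 (Γ.cont w) hn1) (loc1_pb1 (Γ.cont w) (loc1_act X.sm))
        (fun a b => φ (a - (b (m w) - m w))), fun d d' => ?_⟩
      have e := ld1 L hN (Γ.r w) (fun d => n₁ (Γ.r w d) - d0 X.ρ (m w) (Γ.r w d))
        (hn1N w hw) d d'
      have e2 : X.ρ (Γ.r w d) (n₁ (Γ.r w d') - d0 X.ρ (m w) (Γ.r w d')) -
          (n₁ (Γ.r w (d * d')) - d0 X.ρ (m w) (Γ.r w (d * d'))) +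
          (n₁ (Γ.r w d) - d0 X.ρ (m w) (Γ.r w d)) = d1 X.ρ n₁ (Γ.r w d) (Γ.r w d') := by
        simp only [d1, d0, map_sub, (Γ.r w).map_mul, act_mul]
        abel
      rw [e2, (L.ker _ (hPN (hn1P _ _))).2 (hn1P _ _)] at e
      linear_combination e
    · have : b w = 0 := if_neg hw
      rw [this]
      exact (BKND.Z1 _).zero_mem
  have hann : ∀ e ∈ BKND.Z1 (kch ψ'),
      (∀ w ∉ T, pb1 (Γ.r w) e ∈ BKND.B1 (kch (ψ'.comp (Γ.r w)))) →
      (∑ w, if w ∈ T then Γ.inv w (cupk (ψ'.comp (Γ.r w)) lam (b w) (pb1 (Γ.r w) e)) else 0) =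
        0 := by
    intro e he hel
    have hF : ∀ w, ∃ f : M', f ∈ X.perp P ∧ (w ∈ T → f = 0) ∧
        (w ∉ T → ∀ d, e (Γ.r w d) = kch (ψ'.comp (Γ.r w)) d (φ' f) - φ' f) := by
      intro w
      by_cases hw : w ∈ T
      · exact ⟨0, (X.perp P).zero_mem, fun _ => rfl, fun h => absurd hw h⟩
      · obtain ⟨c, hc⟩ := hel w hw
        exact ⟨s' c, hs' c, fun h => absurd h hw, fun _ d => by rw [hs1']; exact hc d⟩
    choose F hF1 hF2 hF3 using hF
    have hY : ((fun g => s' (e g)), F) ∈ X.flip.Zr Γ.r Tᶜ (X.perp N) (X.perp P) := by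
      refine ⟨BKND.Loc1.map he.1 s', fun g => hs' _, fun g h => ?_, fun w' hw' =>
          ⟨hF1 w', fun d => ?_⟩, fun w' hw' => ?_⟩
      · change X.ρ' g (s' (e h)) - s' (e (g * h)) + s' (e g) ∈ X.perp N
        rw [← L.ker' _ ((X.perp P).add_mem ((X.perp P).sub_mem (stab hP _ _ (hs' _)) (hs' _))
          (hs' _)), L.add' _ ((X.perp P).sub_mem (stab hP _ _ (hs' _)) (hs' _)) _ (hs' _),
          lsub' L (stab hP _ _ (hs' _)) (hs' _), L.act' _ _ (hs' _), hs1', hs1', hs1', he.2 g h,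
          kch_apply]
        ring
      · change s' (e (Γ.r w' d)) - (X.ρ' (Γ.r w' d) (F w') - F w') ∈ X.perp N
        rw [← L.ker' _ ((X.perp P).sub_mem (hs' _) ((X.perp P).sub_mem
          (stab hP _ _ (hF1 _)) (hF1 _))), lsub' L (hs' _) ((X.perp P).sub_mem
          (stab hP _ _ (hF1 _)) (hF1 _)), lsub' L (stab hP _ _ (hF1 _)) (hF1 _),
          L.act' _ _ (hF1 _), hs1', hF3 w' hw' d, sub_eq_zero]
        rfl
      · exact hF2 w' (not_not.1 hw')
    have hCT := hxy _ hY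
    obtain ⟨c1, -, -, c4⟩ := h2 R S G D (QZ p) (QZ p) Γ M M' X T
    have hY' : ((fun g => s' (e g)), F) ∈ X.flip.Zr Γ.r Tᶜ (X.perp N) ⊤ :=
      ⟨hY.1, fun _ => trivial, hY.2.2.1, fun w hw => ⟨trivial, (hY.2.2.2.1 w hw).2⟩,
        hY.2.2.2.2⟩
    have hv := (c4 N hN).1 ((fun g => s (γ₀ g)), (0 : S → M)) ⟨BKND.Loc1.map hγ0 s, ⟨0, trivial,
      fun g => by
        change s (γ₀ g) - d0 X.ρ 0 g ∈ N
        rw [d0, map_zero, sub_zero, sub_zero]
        exact hs _, fun w _ => by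
        change (0 : M) - 0 ∈ N
        rw [sub_zero]
        exact N.zero_mem⟩, fun w _ => rfl⟩ _ hY'
    have hsplit : (z, m) = (n₁, m) + ((fun g => s (γ₀ g)), (0 : S → M)) := by
      refine Prod.ext ?_ ?_
      · funext g
        change z g = z g - s (γ₀ g) + s (γ₀ g)
        rw [sub_add_cancel]
      · change m = m + 0
        rw [add_zero]
    rw [hsplit, c1, hv, add_zero] at hCT
    have hXi : Xi Γ X T (n₁, m) ((fun g => s' (e g)), F) =
        (0, fun w => if w ∈ T then cupk (ψ'.comp (Γ.r w)) lam (b w) (pb1 (Γ.r w) e) else 0) := by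
      refine Prod.ext ?_ ?_
      · funext g h l
        exact stab hP _ _ (hs' _) _ (hn1P _ _)
      · funext w
        by_cases hw : w ∈ T
        · simp only [Xi, if_pos hw]
          funext d d'
          change X.b (n₁ (Γ.r w d) - d0 X.ρ (m w) (Γ.r w d)) (X.ρ' (Γ.r w d)
            (s' (e (Γ.r w d')))) = lam (b w d * (((ψ' (Γ.r w d) : kˣ) : k) * e (Γ.r w d')))
          rw [L.pair _ (hn1N w hw d) _ (stab hP _ _ (hs' _)), L.act' _ _ (hs' _), hs1',
            hb1 w hw]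
        · simp only [Xi, if_neg hw]
          funext d d'
          exact stab hP _ _ (hF1 _) _ (hn1P _ _)
    have hβ : ∀ w, (if w ∈ T then cupk (ψ'.comp (Γ.r w)) lam (b w) (pb1 (Γ.r w) e) else 0) ∈
        BKND.Z2 (Γ.α.comp (Γ.r w)) := by
      intro w
      by_cases hw : w ∈ T
      · rw [if_pos hw, hα]
        refine cupk_mem _ _ _ (hsm' w) (hrelw w) lam _ _ (hb w) ⟨loc1_pb1 (Γ.cont w) he.1,
          fun d d' => ?_⟩
        have := he.2 (Γ.r w d) (Γ.r w d')
        simp only [pb1, map_mul]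
        exact this
      · rw [if_neg hw]
        exact (BKND.Z2 _).zero_mem
    rw [CT, hXi, tr_zero Γ _ hβ] at hCT
    refine Eq.trans (Finset.sum_congr rfl fun w _ => ?_) hCT
    by_cases hw : w ∈ T
    · rw [if_pos hw, if_pos hw]
    · rw [if_neg hw, if_neg hw, map_zero]
  obtain ⟨η, hη, hη1⟩ := (h1 p S G D Γ χ U δ hG k ψ ψ' hψ hψ' hrel lam hlam).1 T b hb (by
    intro e he hel
    have := hann e he hel
    convert this)
  choose! c hc using hη1
  refine ⟨((fun g => n₁ g - s (η g)), fun w => if w ∈ T then m w - s (c w) else 0), ?_, ?_⟩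
  · refine ⟨BKND.Loc1.map2 hn1 hη.1 (fun a b => a - s b), fun g => ?_, fun g h => ?_,
      fun w hw => ⟨?_, fun d => ?_⟩, fun w hw => if_neg hw⟩
    · exact Q.sub_mem (Q.sub_mem (hzQ g) (hNQ (hs _))) (hNQ (hs _))
    · have hmem : X.ρ g (s (η h)) - s (η (g * h)) + s (η g) ∈ N :=
        N.add_mem (N.sub_mem (hN _ _ (hs _)) (hs _)) (hs _)
      have e0 : d1 X.ρ (fun g => n₁ g - s (η g)) g h =
          d1 X.ρ n₁ g h - (X.ρ g (s (η h)) - s (η (g * h)) + s (η g)) := by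
        simp only [d1, map_sub]
        abel
      change d1 X.ρ (fun g => n₁ g - s (η g)) g h ∈ P
      rw [e0]
      refine P.sub_mem (hn1P g h) ?_
      rw [← L.ker _ hmem, L.add _ (N.sub_mem (hN _ _ (hs _)) (hs _)) _ (hs _),
        lsub L (hN _ _ (hs _)) (hs _), L.act _ _ (hs _), hs1, hs1, hs1, hη.2 g h, kch_apply]
      ring
    · change (if w ∈ T then m w - s (c w) else 0) ∈ Q
      rw [if_pos hw]
      exact Q.sub_mem (hz2 w hw).1 (hNQ (hs _))
    · change n₁ (Γ.r w d) - s (η (Γ.r w d)) -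
        d0 X.ρ (if w ∈ T then m w - s (c w) else 0) (Γ.r w d) ∈ P
      rw [if_pos hw]
      have hmem : X.ρ (Γ.r w d) (s (c w)) - s (c w) ∈ N := N.sub_mem (hN _ _ (hs _)) (hs _)
      have e0 : n₁ (Γ.r w d) - s (η (Γ.r w d)) - d0 X.ρ (m w - s (c w)) (Γ.r w d) =
          n₁ (Γ.r w d) - d0 X.ρ (m w) (Γ.r w d) -
            (s (η (Γ.r w d)) - (X.ρ (Γ.r w d) (s (c w)) - s (c w))) := by
        simp only [d0, map_sub]
        abel
      rw [e0, ← L.ker _ (N.sub_mem (hn1N w hw d) (N.sub_mem (hs _) hmem)),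
        lsub L (hn1N w hw d) (N.sub_mem (hs _) hmem), lsub L (hs _) hmem,
        lsub L (hN _ _ (hs _)) (hs _), L.act _ _ (hs _), hs1, hs1]
      have e1 := hc w hw d
      have e2 := congrFun (hb1 w hw) d
      simp only [Pi.sub_apply, pb1] at e1 e2
      rw [e2, kch_apply] at e1
      change _ = ((ψ (Γ.r w d) : kˣ) : k) * c w - c w at e1
      linear_combination -e1
  · refine ⟨BKND.Loc1.map2 hz (BKND.Loc1.map2 hn1 hη.1 (fun a b => a - s b)) (· - ·),
      ⟨0, Q.zero_mem, fun g => ?_, fun w hw => ?_⟩, fun w hw => ?_⟩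
    · change z g - (z g - s (γ₀ g) - s (η g)) - d0 X.ρ 0 g ∈ N
      have e0 : z g - (z g - s (γ₀ g) - s (η g)) - d0 X.ρ 0 g = s (γ₀ g) + s (η g) := by
        rw [d0, map_zero]
        abel
      rw [e0]
      exact N.add_mem (hs _) (hs _)
    · change m w - (if w ∈ T then m w - s (c w) else 0) - 0 ∈ N
      rw [if_pos hw, sub_zero, sub_sub_cancel]
      exact hs _
    · change m w - (if w ∈ T then m w - s (c w) else 0) = 0
      rw [if_neg hw, hz3 w hw, sub_zero]

end BKMet
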